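import Mathlib

/-!
Definitions for the fibre principle and for forests.
-/

set_option autoImplicit false

namespace Pool.Agent.Lib.MP_6d896a_gt.FP

open MeasureTheory ProbabilityTheory
open scoped ENNReal

section defs

variable {E : Type*} [NormedAddCommGroup E] [NormedSpace ℝ E]

/-- affine invariant Poincare inequality with constant `K`: the variance of `f` is at most `K`
times the average over `x` of the variance of the linear functional `df_x` -/
def AP [MeasurableSpace E] (μ : Measure E) (K : ℝ) : Prop :=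
  ∀ f : E → ℝ, ContDiff ℝ 1 f → (∃ l : ℝ, ∀ x, ‖fderiv ℝ f x‖ ≤ l) →
    Var[f; μ] ≤ K * ∫ x, Var[fun z => fderiv ℝ f x z; μ] ∂μ

/-- functional form of log-concavity of a measure (Prekopa-Leindler inequality) -/
def PLm [MeasurableSpace E] (μ : Measure E) : Prop :=
  ∀ l : ℝ, 0 < l → l < 1 → ∀ f g h : E → ℝ≥0∞, Measurable f → Measurable g → Measurable h →
    (∀ x y, f x ^ (1 - l) * g y ^ l ≤ h ((1 - l) • x + l • y)) →
    (∫⁻ x, f x ∂μ) ^ (1 - l) * (∫⁻ x, g x ∂μ) ^ l ≤ ∫⁻ x, h x ∂μ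

/-- smooth strongly convex potentials with bounded and Lipschitz second derivative -/
structure Nice (φ : E → ℝ) : Prop where
  cd : ContDiff ℝ 2 φ
  bd : ∃ C : ℝ, ∀ x, ‖fderiv ℝ (fderiv ℝ φ) x‖ ≤ C
  lip : ∃ C : ℝ, ∀ x y, ‖fderiv ℝ (fderiv ℝ φ) x - fderiv ℝ (fderiv ℝ φ) y‖ ≤ C * ‖x - y‖
  sc : ∃ κ : ℝ, 0 < κ ∧ ∀ x y,
    φ ((1 / 2 : ℝ) • (x + y)) + κ * ‖x - y‖ ^ 2 ≤ (φ x + φ y) / 2

/-- normalised measure with density `exp (- φ)` -/
noncomputable def gibbs [MeasureSpace E] (φ : E → ℝ) : Measure E :=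
  (∫⁻ x, ENNReal.ofReal (Real.exp (-φ x)))⁻¹ •
    (volume : Measure E).withDensity (fun x => ENNReal.ofReal (Real.exp (-φ x)))

end defs

/-- a function of `x : V → ℝ` which depends only on the coordinates in `S` -/
def DepOn {V α : Type*} (f : (V → ℝ) → α) (S : Finset V) : Prop :=
  ∀ x y : V → ℝ, (∀ v ∈ S, x v = y v) → f x = f y

/-- ancestor sets of a forest (every vertex is one of its own ancestors) -/
structure Anc {V : Type*} (anc : V → Finset V) : Prop where
  self : ∀ v, v ∈ anc v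
  trans : ∀ u v, u ∈ anc v → anc u ⊆ anc v
  chain : ∀ u w v, u ∈ anc v → w ∈ anc v → u ∈ anc w ∨ w ∈ anc u

end Pool.Agent.Lib.MP_6d896a_gt.FP
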