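import Mathlib
import Pool.Agent.Lib.MP_66505f_gt.PL
import Pool.Agent.Lib.MP_6d896a_gt.FP.Defs

/-!
Basic properties of measures satisfying the Prekopa-Leindler inequality.
-/

set_option autoImplicit false

namespace Pool.Agent.Lib.MP_6d896a_gt.FP

open MeasureTheory ProbabilityTheory Set Filter
open scoped ENNReal Topology

section general

variable {E F : Type*} [NormedAddCommGroup E] [NormedSpace ℝ E] [MeasurableSpace E]
  [NormedAddCommGroup F] [NormedSpace ℝ F] [MeasurableSpace F]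

lemma PLm.smul {μ : Measure E} (h : PLm μ) (c : ℝ≥0∞) (hc : c ≠ 0) (hc' : c ≠ ∞) :
    PLm (c • μ) := by
  intro l h0 h1 f g k hf hg hk H
  have := h l h0 h1 f g k hf hg hk H
  simp only [lintegral_smul_measure, smul_eq_mul]
  rw [ENNReal.mul_rpow_of_nonneg _ _ (by linarith), ENNReal.mul_rpow_of_nonneg _ _ h0.le]
  have hcc : c ^ (1 - l) * c ^ l = c := by
    rw [← ENNReal.rpow_add _ _ hc hc']
    simp
  calc c ^ (1 - l) * (∫⁻ x, f x ∂μ) ^ (1 - l) * (c ^ l * (∫⁻ x, g x ∂μ) ^ l)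
      = (c ^ (1 - l) * c ^ l) * ((∫⁻ x, f x ∂μ) ^ (1 - l) * (∫⁻ x, g x ∂μ) ^ l) := by ring
    _ ≤ c * ∫⁻ x, k x ∂μ := by rw [hcc]; gcongr

lemma PLm.map {μ : Measure E} (h : PLm μ) (T : E →ₗ[ℝ] F) (hT : Measurable T) :
    PLm (μ.map T) := by
  intro l h0 h1 f g k hf hg hk H
  rw [lintegral_map hf hT, lintegral_map hg hT, lintegral_map hk hT]
  refine h l h0 h1 _ _ _ (hf.comp hT) (hg.comp hT) (hk.comp hT) fun x y => ?_
  have := H (T x) (T y)
  simpa using this

/-- log-concave function with values in `[0, ∞]` -/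
def LCf (ρ : E → ℝ≥0∞) : Prop :=
  ∀ x y : E, ∀ l : ℝ, 0 < l → l < 1 → ρ x ^ (1 - l) * ρ y ^ l ≤ ρ ((1 - l) • x + l • y)

lemma PLm.withDensity {μ : Measure E} (h : PLm μ) {ρ : E → ℝ≥0∞} (hρ : Measurable ρ)
    (hlc : LCf ρ) : PLm (μ.withDensity ρ) := by
  intro l h0 h1 f g k hf hg hk H
  rw [lintegral_withDensity_eq_lintegral_mul _ hρ hf, lintegral_withDensity_eq_lintegral_mul _ hρ hg,
    lintegral_withDensity_eq_lintegral_mul _ hρ hk]
  refine h l h0 h1 _ _ _ (hρ.mul hf) (hρ.mul hg) (hρ.mul hk) fun x y => ?_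
  simp only [Pi.mul_apply]
  rw [ENNReal.mul_rpow_of_nonneg _ _ (by linarith), ENNReal.mul_rpow_of_nonneg _ _ h0.le]
  calc ρ x ^ (1 - l) * f x ^ (1 - l) * (ρ y ^ l * g y ^ l)
      = (ρ x ^ (1 - l) * ρ y ^ l) * (f x ^ (1 - l) * g y ^ l) := by ring
    _ ≤ _ := mul_le_mul' (hlc x y l h0 h1) (H x y)

lemma PLm.prod {μ : Measure E} {ν : Measure F} [SFinite μ] [SFinite ν] (h : PLm μ) (h' : PLm ν) :
    PLm (μ.prod ν) := by
  intro l h0 h1 f g k hf hg hk H
  rw [lintegral_prod _ hf.aemeasurable, lintegral_prod _ hg.aemeasurable,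
    lintegral_prod _ hk.aemeasurable]
  refine h l h0 h1 _ _ _ hf.lintegral_prod_right' hg.lintegral_prod_right'
    hk.lintegral_prod_right' fun x y => ?_
  refine h' l h0 h1 _ _ _ (hf.comp measurable_prodMk_left) (hg.comp measurable_prodMk_left)
    (hk.comp measurable_prodMk_left) fun u v => ?_
  exact H (x, u) (y, v)

/-- sets version -/
lemma PLm.sets {μ : Measure E} (h : PLm μ) {A B C : Set E} (hA : MeasurableSet A)
    (hB : MeasurableSet B) (hC : MeasurableSet C) {l : ℝ} (h0 : 0 < l) (h1 : l < 1)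
    (H : ∀ x ∈ A, ∀ y ∈ B, (1 - l) • x + l • y ∈ C) : μ A ^ (1 - l) * μ B ^ l ≤ μ C := by
  have := h l h0 h1 (A.indicator 1) (B.indicator 1) (C.indicator 1)
    (measurable_one.indicator hA) (measurable_one.indicator hB) (measurable_one.indicator hC) (by
      intro x y
      by_cases hx : x ∈ A
      · by_cases hy : y ∈ B
        · simp [hx, hy, H x hx y hy]
        · simp [hy, ENNReal.zero_rpow_of_pos h0]
      · simp [hx, ENNReal.zero_rpow_of_pos (by linarith : 0 < 1 - l)])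
  simpa [lintegral_indicator_one, hA, hB, hC] using this

end general

section haar

lemma plm_fin (n : ℕ) : PLm (volume : Measure (Fin n → ℝ)) := by
  intro l h0 h1 f g k hf hg hk H
  exact MP_66505f_gt.pl h0 h1 n f g k hf hg hk H

theorem plm_haar {E : Type*} [NormedAddCommGroup E] [NormedSpace ℝ E] [MeasurableSpace E]
    [BorelSpace E] [FiniteDimensional ℝ E] (μ : Measure E) [μ.IsAddHaarMeasure] : PLm μ := by
  let T : E ≃L[ℝ] (Fin (Module.finrank ℝ E) → ℝ) :=
    ContinuousLinearEquiv.ofFinrankEq (by simp)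
  have hTm : Measurable T.symm := T.symm.continuous.measurable
  have h1 : PLm ((volume : Measure (Fin (Module.finrank ℝ E) → ℝ)).map T.symm) :=
    (plm_fin _).map (T.symm : (Fin (Module.finrank ℝ E) → ℝ) →ₗ[ℝ] E) hTm
  have h2 : ((volume : Measure (Fin (Module.finrank ℝ E) → ℝ)).map T.symm).IsAddHaarMeasure :=
    T.symm.isAddHaarMeasure_map _
  obtain ⟨c, hc⟩ : ∃ c : NNReal, c ≠ 0 ∧
      μ = c • ((volume : Measure (Fin (Module.finrank ℝ E) → ℝ)).map T.symm) :=
    ⟨_, (Measure.addHaarScalarFactor_pos_of_isAddHaarMeasure _ _).ne',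
      Measure.isAddLeftInvariant_eq_smul _ _⟩
  rw [hc.2]
  exact h1.smul (c : ℝ≥0∞) (by simpa using hc.1) (by simp)

end haar

end Pool.Agent.Lib.MP_6d896a_gt.FP
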