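import Mathlib
import Pool.Agent.Lib.MP_6d896a_gt.FP.PLm

/-!
Exponential tails of linear functionals under log-concave measures (Borell).
-/

set_option autoImplicit false

namespace Pool.Agent.Lib.MP_6d896a_gt.FP

open MeasureTheory ProbabilityTheory Set Filter
open scoped ENNReal Topology

variable {E : Type*} [NormedAddCommGroup E] [NormedSpace ℝ E] [MeasurableSpace E]

/-- Borell's lemma for a slab -/
lemma PLm.borell {μ : Measure E} [IsProbabilityMeasure μ] (h : PLm μ) {ξ : E → ℝ}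
    (hξ : Measurable ξ) (haff : ∀ x y : E, ∀ l : ℝ, ξ ((1 - l) • x + l • y) = (1 - l) * ξ x + l * ξ y)
    {r : ℝ} (hK : 3 / 4 ≤ μ.real {x | |ξ x| ≤ r}) {t : ℝ} (ht : 1 ≤ t) :
    μ.real {x | t * r < |ξ x|} ≤ 3 / 4 * (1 / 3 : ℝ) ^ ((t + 1) / 2) := by
  set θ := μ.real {x | |ξ x| ≤ r} with hθ
  set p := μ.real {x | t * r < |ξ x|} with hp
  have hmK : MeasurableSet {x | |ξ x| ≤ r} := measurableSet_le hξ.abs measurable_const
  have hmB : MeasurableSet {x | t * r < |ξ x|} := measurableSet_lt measurable_const hξ.abs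
  have hcompl : μ.real {x | |ξ x| ≤ r}ᶜ = 1 - θ := by
    rw [probReal_compl_eq_one_sub hmK]
  have hp0 : 0 ≤ p := measureReal_nonneg
  rcases ht.eq_or_lt with rfl | ht1
  · have : {x | 1 * r < |ξ x|} = {x | |ξ x| ≤ r}ᶜ := by
      ext x; simp
    rw [this] at hp
    rw [hp, hcompl]
    norm_num
    linarith
  set l : ℝ := 2 / (t + 1) with hl
  have hl0 : 0 < l := by positivity
  have hl1 : l < 1 := by rw [hl, div_lt_one (by linarith)]; linarith
  have hlt : l * (t + 1) = 2 := by rw [hl]; field_simp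
  have key := h.sets (C := {x | |ξ x| ≤ r}ᶜ) hmK hmB hmK.compl hl0 hl1 (by
    intro x hx y hy
    simp only [mem_ofPred_eq, mem_compl_iff, not_le] at hx hy ⊢
    rw [haff]
    have hr : 0 ≤ r := (abs_nonneg _).trans hx
    have h1 : |(1 - l) * ξ x + l * ξ y| ≥ l * |ξ y| - (1 - l) * |ξ x| := by
      have := abs_sub_abs_le_abs_sub (l * ξ y) (-((1 - l) * ξ x))
      rw [abs_neg, abs_mul, abs_mul, abs_of_pos hl0, abs_of_nonneg (by linarith : 0 ≤ 1 - l)] at this
      have e : l * ξ y - -((1 - l) * ξ x) = (1 - l) * ξ x + l * ξ y := by ring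
      rw [e] at this
      linarith
    have h2 : l * (t * r) < l * |ξ y| := by gcongr
    have h3 : (1 - l) * |ξ x| ≤ (1 - l) * r := by
      apply mul_le_mul_of_nonneg_left hx; linarith
    nlinarith)
  have key2 : θ ^ (1 - l) * p ^ l ≤ 1 - θ := by
    rw [← hcompl]
    have h1 : (μ {x | |ξ x| ≤ r}) = ENNReal.ofReal θ := by rw [hθ, ofReal_measureReal]
    have h2 : (μ {x | t * r < |ξ x|}) = ENNReal.ofReal p := by rw [hp, ofReal_measureReal]
    have h3 : (μ {x | |ξ x| ≤ r}ᶜ) = ENNReal.ofReal (μ.real {x | |ξ x| ≤ r}ᶜ) := by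
      rw [ofReal_measureReal]
    rw [h1, h2, h3, ENNReal.ofReal_rpow_of_nonneg (by linarith) (by linarith),
      ENNReal.ofReal_rpow_of_nonneg hp0 hl0.le,
      ← ENNReal.ofReal_mul (Real.rpow_nonneg (by linarith) _)] at key
    exact (ENNReal.ofReal_le_ofReal_iff measureReal_nonneg).mp key
  -- conclude
  have h34 : (3 / 4 : ℝ) ^ (1 - l) * p ^ l ≤ 1 / 4 := by
    have h1 : (3 / 4 : ℝ) ^ (1 - l) ≤ θ ^ (1 - l) :=
      Real.rpow_le_rpow (by norm_num) hK (by linarith)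
    have h2 : 0 ≤ p ^ l := Real.rpow_nonneg hp0 _
    nlinarith [mul_le_mul_of_nonneg_right h1 h2]
  have h4 : p ^ l ≤ (1 / 3) * (3 / 4 : ℝ) ^ l := by
    have e : (3 / 4 : ℝ) ^ (1 - l) = (3 / 4) / (3 / 4 : ℝ) ^ l := by
      rw [Real.rpow_sub (by norm_num), Real.rpow_one]
    rw [e] at h34
    have hpos : 0 < (3 / 4 : ℝ) ^ l := Real.rpow_pos_of_pos (by norm_num) _
    rw [div_mul_eq_mul_div, div_le_iff₀ hpos] at h34
    linarith
  have h5 : (p ^ l) ^ (1 / l) ≤ ((1 / 3) * (3 / 4 : ℝ) ^ l) ^ (1 / l) :=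
    Real.rpow_le_rpow (Real.rpow_nonneg hp0 _) h4 (by positivity)
  rw [← Real.rpow_mul hp0, mul_one_div_cancel hl0.ne', Real.rpow_one,
    Real.mul_rpow (by norm_num) (by positivity), ← Real.rpow_mul (by norm_num),
    mul_one_div_cancel hl0.ne', Real.rpow_one] at h5
  have e2 : 1 / l = (t + 1) / 2 := by rw [hl]; field_simp
  rw [e2] at h5
  linarith

/-- exponential moments of linear functionals -/
theorem PLm.exp_moment {μ : Measure E} [IsProbabilityMeasure μ] (h : PLm μ) {ξ : E → ℝ}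
    (hξ : Measurable ξ) (haff : ∀ x y : E, ∀ l : ℝ, ξ ((1 - l) • x + l • y) = (1 - l) * ξ x + l * ξ y)
    {r : ℝ} (hr : 0 < r) (hK : 3 / 4 ≤ μ.real {x | |ξ x| ≤ r}) :
    ∫⁻ x, ENNReal.ofReal (Real.exp (|ξ x| / (4 * r))) ∂μ ≤ 4 := by
  set B : ℕ → Set E := fun k => {x | ((k : ℝ) + 1) * r < |ξ x|} with hB
  have hmB : ∀ k, MeasurableSet (B k) := fun k => measurableSet_lt measurable_const hξ.abs
  have hpt : ∀ x, ENNReal.ofReal (Real.exp (|ξ x| / (4 * r))) ≤
      ENNReal.ofReal (Real.exp (1 / 4)) +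
        ∑' k : ℕ, (B k).indicator (fun _ => ENNReal.ofReal (Real.exp (((k : ℝ) + 2) / 4))) x := by
    intro x
    set u := |ξ x| / r with hu
    have hu0 : 0 ≤ u := by positivity
    have e : |ξ x| / (4 * r) = u / 4 := by rw [hu]; field_simp
    rw [e]
    by_cases hu1 : u ≤ 1
    · refine le_trans ?_ le_self_add
      apply ENNReal.ofReal_le_ofReal
      apply Real.exp_le_exp.mpr
      linarith
    · push Not at hu1
      -- k + 1 < u ≤ k + 2
      obtain ⟨k, hk⟩ : ∃ k : ℕ, (k : ℝ) + 1 < u ∧ u ≤ k + 2 := by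
        refine ⟨⌈u⌉₊ - 2, ?_, ?_⟩
        · have h1 : 2 ≤ ⌈u⌉₊ := by
            have : 1 < ⌈u⌉₊ := by
              rw [Nat.lt_ceil]; simpa using hu1
            omega
          have h2 : (⌈u⌉₊ : ℝ) < u + 1 := Nat.ceil_lt_add_one hu0
          have h3 : ((⌈u⌉₊ - 2 : ℕ) : ℝ) = (⌈u⌉₊ : ℝ) - 2 := by
            rw [Nat.cast_sub h1]; norm_num
          rw [h3]; linarith
        · have h1 : 2 ≤ ⌈u⌉₊ := by
            have : 1 < ⌈u⌉₊ := by
              rw [Nat.lt_ceil]; simpa using hu1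
            omega
          have h3 : ((⌈u⌉₊ - 2 : ℕ) : ℝ) = (⌈u⌉₊ : ℝ) - 2 := by
            rw [Nat.cast_sub h1]; norm_num
          rw [h3]
          have := Nat.le_ceil u
          linarith
      refine le_trans ?_ le_add_self
      refine le_trans ?_ (ENNReal.le_tsum k)
      have hx : x ∈ B k := by
        simp only [hB, mem_ofPred_eq]
        have := hk.1
        rw [hu, lt_div_iff₀ hr] at this
        exact this
      rw [indicator_of_mem hx]
      apply ENNReal.ofReal_le_ofReal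
      apply Real.exp_le_exp.mpr
      linarith [hk.2]
  refine (lintegral_mono hpt).trans ?_
  rw [lintegral_add_left measurable_const, lintegral_const, measure_univ, mul_one,
    lintegral_tsum (fun k => (measurable_const.indicator (hmB k)).aemeasurable)]
  have hexp : Real.exp (1 / 4) ≤ 1.3 := by
    have h1 : Real.exp 1 = Real.exp (1 / 4) ^ 4 := by
      rw [← Real.exp_nat_mul]; norm_num
    have h2 := Real.exp_one_lt_d9
    by_contra hcon
    push Not at hcon
    have : (1.3 : ℝ) ^ 4 < Real.exp (1 / 4) ^ 4 := by gcongr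
    rw [← h1] at this
    norm_num at this
    linarith
  have hterm : ∀ k : ℕ, ∫⁻ x, (B k).indicator
      (fun _ => ENNReal.ofReal (Real.exp (((k : ℝ) + 2) / 4))) x ∂μ ≤
      ENNReal.ofReal (3 / 4 * (0.76 : ℝ) ^ (k + 2)) := by
    intro k
    rw [lintegral_indicator (hmB k), setLIntegral_const]
    have h1 := h.borell hξ haff hK (t := (k : ℝ) + 1) (by linarith [(Nat.cast_nonneg k : (0:ℝ) ≤ k)])
    rw [← ofReal_measureReal (μ := μ) (s := B k), ← ENNReal.ofReal_mul (Real.exp_pos _).le]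
    apply ENNReal.ofReal_le_ofReal
    calc Real.exp (((k : ℝ) + 2) / 4) * μ.real (B k)
        ≤ Real.exp (((k : ℝ) + 2) / 4) * (3 / 4 * (1 / 3 : ℝ) ^ (((k : ℝ) + 1 + 1) / 2)) := by
          gcongr
      _ = 3 / 4 * (Real.exp (1 / 4) * (1 / 3 : ℝ) ^ (1 / 2 : ℝ)) ^ (k + 2) := by
          rw [mul_pow, ← Real.exp_nat_mul, ← Real.rpow_natCast ((1 / 3 : ℝ) ^ (1 / 2 : ℝ)),
            ← Real.rpow_mul (by norm_num)]
          push_cast
          have e1 : ((k : ℝ) + 2) * (1 / 4) = ((k : ℝ) + 2) / 4 := by ring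
          have e2 : (1 / 2 : ℝ) * ((k : ℝ) + 2) = ((k : ℝ) + 1 + 1) / 2 := by ring
          rw [e1, e2]
          ring
      _ ≤ 3 / 4 * (0.76 : ℝ) ^ (k + 2) := by
          gcongr
          have h3 : (1 / 3 : ℝ) ^ (1 / 2 : ℝ) ≤ 0.58 := by
            rw [← Real.sqrt_eq_rpow]
            rw [Real.sqrt_le_left (by norm_num)]
            norm_num
          have h4 : 0 ≤ (1 / 3 : ℝ) ^ (1 / 2 : ℝ) := by positivity
          nlinarith
  refine (add_le_add_right (ENNReal.tsum_le_tsum hterm) _).trans ?_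
  have hgeo : HasSum (fun k : ℕ => 3 / 4 * (0.76 : ℝ) ^ (k + 2)) (3 / 4 * (0.76 ^ 2 / (1 - 0.76))) := by
    have h1 := (hasSum_geometric_of_lt_one (r := (0.76 : ℝ)) (by norm_num) (by norm_num)).mul_left
      (3 / 4 * 0.76 ^ 2)
    have e1 : (fun k : ℕ => 3 / 4 * (0.76 : ℝ) ^ (k + 2)) =
        fun i => 3 / 4 * 0.76 ^ 2 * 0.76 ^ i := by funext k; ring
    have e2 : (3 / 4 * (0.76 ^ 2 / (1 - 0.76)) : ℝ) = 3 / 4 * 0.76 ^ 2 * (1 - 0.76)⁻¹ := by
      norm_num
    rw [e1, e2]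
    exact h1
  rw [← ENNReal.ofReal_tsum_of_nonneg (fun k => by positivity) hgeo.summable, hgeo.tsum_eq,
    ← ENNReal.ofReal_add (Real.exp_pos _).le (by norm_num)]
  have : (4 : ℝ≥0∞) = ENNReal.ofReal 4 := by norm_num
  rw [this]
  apply ENNReal.ofReal_le_ofReal
  have : (3 / 4 * (0.76 ^ 2 / (1 - 0.76)) : ℝ) ≤ 2 := by norm_num
  linarith

end Pool.Agent.Lib.MP_6d896a_gt.FP
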