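import Mathlib
import Pool.Agent.Lib.MP_6d896a_gt.GDensity
import Pool.Agent.Lib.MP_6d896a_gt.FP.Tail

/-!
Dimension free Harnack inequalities for Gaussian averages of sets.
-/

set_option autoImplicit false

namespace Pool.Agent.Lib.MP_6d896a_gt.FP

open MeasureTheory ProbabilityTheory Set Filter
open scoped ENNReal Topology

variable {E : Type*} [NormedAddCommGroup E] [InnerProductSpace ℝ E] [FiniteDimensional ℝ E]
  [MeasurableSpace E] [BorelSpace E]

/-- Gaussian mass of the set `T` seen from `x` -/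
noncomputable def prE (s : ℝ) (T : Set E) (x : E) : ℝ≥0∞ :=
  ∫⁻ a in T, ENNReal.ofReal (gk s (a - x))

lemma gk_meas (s : ℝ) (x : E) : Measurable (fun a : E => ENNReal.ofReal (gk s (a - x))) :=
  ((gk_continuous s).comp (continuous_id.sub continuous_const)).measurable.ennreal_ofReal

lemma gk_meas2 (s : ℝ) : Measurable (fun p : E × E => ENNReal.ofReal (gk s (p.2 - p.1))) :=
  ((gk_continuous s).comp (continuous_snd.sub continuous_fst)).measurable.ennreal_ofReal

lemma gk_symm (s : ℝ) (x : E) : gk s (-x) = gk s x := by unfold gk; rw [norm_neg]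

lemma lint_gk {s : ℝ} (hs : 0 < s) (x : E) : ∫⁻ a, ENNReal.ofReal (gk s (a - x)) = 1 := by
  rw [lintegral_sub_right_eq_self (fun w : E => ENNReal.ofReal (gk s w)) x,
    ← ofReal_integral_eq_lintegral_ofReal (gk_integrable hs) (ae_of_all _ fun w => (gk_pos hs w).le),
    gk_integral hs, ENNReal.ofReal_one]

lemma prE_le_one {s : ℝ} (hs : 0 < s) (T : Set E) (x : E) : prE s T x ≤ 1 := by
  unfold prE
  rw [← lint_gk hs x]
  exact setLIntegral_le_lintegral _ _

lemma prE_compl {s : ℝ} (hs : 0 < s) {T : Set E} (hT : MeasurableSet T) (x : E) :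
    prE s T x + prE s Tᶜ x = 1 := by
  unfold prE
  rw [lintegral_add_compl _ hT, lint_gk hs]

lemma prE_measurable {s : ℝ} {T : Set E} (_hT : MeasurableSet T) : Measurable (prE s T) := by
  unfold prE
  exact (gk_meas2 s).lintegral_prod_right'

/-- exponential integral against the Gaussian kernel -/
lemma lint_exp_gk {s : ℝ} (hs : 0 < s) (c : ℝ) (v z : E) :
    ∫⁻ a, ENNReal.ofReal (Real.exp (2 * c * inner ℝ (a - z) v) * gk s (a - z)) =
      ENNReal.ofReal (Real.exp (c ^ 2 * ‖v‖ ^ 2 / s)) := by
  have e : ∀ a : E, Real.exp (2 * c * inner ℝ (a - z) v) * gk s (a - z) =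
      Real.exp (c ^ 2 * ‖v‖ ^ 2 / s) * gk s (a - (z + (c / s) • v)) := by
    intro a
    unfold gk
    have h : 2 * c * inner ℝ (a - z) v + -s * ‖a - z‖ ^ 2 =
        c ^ 2 * ‖v‖ ^ 2 / s + -s * ‖a - (z + (c / s) • v)‖ ^ 2 := by
      have h1 : a - (z + (c / s) • v) = (a - z) - (c / s) • v := by abel
      rw [h1]
      generalize a - z = w
      rw [norm_sub_sq_real, inner_smul_right, norm_smul, mul_pow, Real.norm_eq_abs, sq_abs]
      field_simp
      ring
    calc _ = (gZ E s)⁻¹ * (Real.exp (2 * c * inner ℝ (a - z) v) * Real.exp (-s * ‖a - z‖ ^ 2)) := by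
          ring
      _ = _ := by rw [← Real.exp_add, h, Real.exp_add]; ring
  simp only [e]
  simp_rw [ENNReal.ofReal_mul (Real.exp_pos _).le]
  rw [lintegral_const_mul _ (gk_meas s _), lint_gk hs, mul_one]

/-- Harnack inequality -/
theorem harnack {s : ℝ} (hs : 0 < s) {p : ℝ} (hp : 1 < p) (T : Set E)
    (hT : MeasurableSet T) (x z : E) :
    prE s T x ^ p ≤ prE s T z * ENNReal.ofReal (Real.exp (p * s * ‖x - z‖ ^ 2 / (p - 1))) := by
  set q : ℝ := p / (p - 1) with hq
  have hp1 : 0 < p - 1 := by linarith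
  have hp0 : 0 < p := by linarith
  have hpq : p.HolderConjugate q := by
    rw [Real.holderConjugate_iff]
    refine ⟨hp, ?_⟩
    rw [hq]; field_simp; ring
  have hq0 : 0 < q := by rw [hq]; positivity
  have hq1 : 1 < q := hpq.symm.lt
  set F : E → ℝ≥0∞ := fun a => T.indicator (fun a => ENNReal.ofReal (gk s (a - z)) ^ (1 / p)) a
    with hF
  set G : E → ℝ≥0∞ := fun a =>
    ENNReal.ofReal (Real.exp (2 * s * inner ℝ (a - z) (x - z) - s * ‖x - z‖ ^ 2)) *
      ENNReal.ofReal (gk s (a - z)) ^ (1 / q) with hG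
  have hFm : Measurable F := ((gk_meas s z).pow_const _).indicator hT
  have hGm : Measurable G := by
    apply Measurable.mul _ ((gk_meas s z).pow_const _)
    apply Measurable.ennreal_ofReal
    apply Continuous.measurable
    fun_prop
  have hFG : ∀ a, (F * G) a = T.indicator (fun a => ENNReal.ofReal (gk s (a - x))) a := by
    intro a
    simp only [Pi.mul_apply, hF, hG]
    by_cases ha : a ∈ T
    · rw [indicator_of_mem ha, indicator_of_mem ha]
      have h1 : ENNReal.ofReal (gk s (a - z)) ^ (1 / p) * ENNReal.ofReal (gk s (a - z)) ^ (1 / q) =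
          ENNReal.ofReal (gk s (a - z)) := by
        rw [← ENNReal.rpow_add_of_nonneg _ _ (by positivity) (by positivity)]
        have : 1 / p + 1 / q = 1 := by
          have := hpq.inv_add_inv_eq_one
          simpa using this
        rw [this, ENNReal.rpow_one]
      calc ENNReal.ofReal (gk s (a - z)) ^ (1 / p) *
            (ENNReal.ofReal (Real.exp (2 * s * inner ℝ (a - z) (x - z) - s * ‖x - z‖ ^ 2)) *
            ENNReal.ofReal (gk s (a - z)) ^ (1 / q))
          = ENNReal.ofReal (Real.exp (2 * s * inner ℝ (a - z) (x - z) - s * ‖x - z‖ ^ 2)) *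
            (ENNReal.ofReal (gk s (a - z)) ^ (1 / p) *
              ENNReal.ofReal (gk s (a - z)) ^ (1 / q)) := by ring
        _ = ENNReal.ofReal (gk s (a - x)) := by
            rw [h1, ← ENNReal.ofReal_mul (Real.exp_pos _).le]
            congr 1
            unfold gk
            have e : a - x = (a - z) - (x - z) := by abel
            rw [e]
            generalize a - z = w
            generalize x - z = v
            rw [norm_sub_sq_real, mul_left_comm, ← Real.exp_add]
            congr 2
            ring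
    · rw [indicator_of_notMem ha, indicator_of_notMem ha, zero_mul]
  have hhold := ENNReal.lintegral_mul_le_Lp_mul_Lq (volume : Measure E) hpq hFm.aemeasurable
    hGm.aemeasurable
  have hL : ∫⁻ a, (F * G) a = prE s T x := by
    simp only [hFG]
    rw [lintegral_indicator hT]
    rfl
  have hFp : ∫⁻ a, F a ^ p = prE s T z := by
    have : ∀ a, F a ^ p = T.indicator (fun a => ENNReal.ofReal (gk s (a - z))) a := by
      intro a
      simp only [hF]
      by_cases ha : a ∈ T
      · rw [indicator_of_mem ha, indicator_of_mem ha, ← ENNReal.rpow_mul, one_div_mul_cancel hp0.ne',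
          ENNReal.rpow_one]
      · rw [indicator_of_notMem ha, indicator_of_notMem ha, ENNReal.zero_rpow_of_pos hp0]
    simp only [this]
    rw [lintegral_indicator hT]
    rfl
  have hGq : ∫⁻ a, G a ^ q = ENNReal.ofReal (Real.exp (q * (q - 1) * s * ‖x - z‖ ^ 2)) := by
    have : ∀ a, G a ^ q = ENNReal.ofReal (Real.exp (-q * s * ‖x - z‖ ^ 2)) *
        ENNReal.ofReal (Real.exp (2 * (q * s) * inner ℝ (a - z) (x - z)) * gk s (a - z)) := by
      intro a
      simp only [hG]
      rw [ENNReal.mul_rpow_of_nonneg _ _ hq0.le, ← ENNReal.rpow_mul, one_div_mul_cancel hq0.ne',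
        ENNReal.rpow_one, ENNReal.ofReal_rpow_of_pos (Real.exp_pos _), ← Real.exp_mul]
      have e1 : Real.exp ((2 * s * inner ℝ (a - z) (x - z) - s * ‖x - z‖ ^ 2) * q) =
          Real.exp (-q * s * ‖x - z‖ ^ 2) * Real.exp (2 * (q * s) * inner ℝ (a - z) (x - z)) := by
        rw [← Real.exp_add]; congr 1; ring
      rw [e1, ENNReal.ofReal_mul (Real.exp_pos _).le,
        ENNReal.ofReal_mul (p := Real.exp (2 * (q * s) * inner ℝ (a - z) (x - z)))
          (Real.exp_pos _).le, mul_assoc]
    simp only [this]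
    rw [lintegral_const_mul, lint_exp_gk hs, ← ENNReal.ofReal_mul (Real.exp_pos _).le, ← Real.exp_add]
    · congr 2
      field_simp
      ring
    · apply Measurable.ennreal_ofReal
      apply Continuous.measurable
      have := gk_continuous (E := E) s
      fun_prop
  rw [hL, hFp, hGq] at hhold
  have h2 : prE s T x ^ p ≤ (prE s T z ^ (1 / p) *
      ENNReal.ofReal (Real.exp (q * (q - 1) * s * ‖x - z‖ ^ 2)) ^ (1 / q)) ^ p :=
    ENNReal.rpow_le_rpow hhold hp0.le
  refine h2.trans (le_of_eq ?_)
  rw [ENNReal.mul_rpow_of_nonneg _ _ hp0.le, ← ENNReal.rpow_mul, one_div_mul_cancel hp0.ne',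
    ENNReal.rpow_one, ← ENNReal.rpow_mul, ENNReal.ofReal_rpow_of_pos (Real.exp_pos _), ← Real.exp_mul]
  congr 3
  rw [hq]
  field_simp
  ring

/-- lower bound at a point from the mass at another point -/
theorem harnack_low {s : ℝ} (hs : 0 < s) {q₀ : ℝ} (h0 : 0 < q₀) (h1 : q₀ < 1) {T : Set E}
    (hT : MeasurableSet T) {x z : E} (hx : ENNReal.ofReal q₀ ≤ prE s T x) :
    ENNReal.ofReal (Real.exp (-(Real.sqrt s * ‖x - z‖ + Real.sqrt (-Real.log q₀)) ^ 2)) ≤
      prE s T z := by
  set A := Real.sqrt (-Real.log q₀) with hA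
  set B := Real.sqrt s * ‖x - z‖ with hB
  have hlog : Real.log q₀ < 0 := Real.log_neg h0 h1
  have hA0 : 0 < A := Real.sqrt_pos.mpr (by linarith)
  have hA2 : A ^ 2 = -Real.log q₀ := Real.sq_sqrt (by linarith)
  have hB0 : 0 ≤ B := by positivity
  have hB2 : B ^ 2 = s * ‖x - z‖ ^ 2 := by rw [hB, mul_pow, Real.sq_sqrt hs.le]
  rcases hB0.eq_or_lt with hBz | hBp
  · have hxz : x = z := by
      have : ‖x - z‖ = 0 := by
        rcases mul_eq_zero.mp hBz.symm with h | h
        · exact absurd h (Real.sqrt_pos.mpr hs).ne'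
        · exact h
      rwa [norm_sub_eq_zero_iff] at this
    rw [← hBz, zero_add, hA2, neg_neg, Real.exp_log h0, ← hxz]
    exact hx
  · set p := 1 + B / A with hp
    have hp1 : 1 < p := by
      have : 0 < B / A := by positivity
      linarith
    have hp0 : 0 < p := by linarith
    have h2 := harnack hs hp1 T hT x z
    have h3 : ENNReal.ofReal q₀ ^ p ≤ prE s T x ^ p := ENNReal.rpow_le_rpow hx hp0.le
    have e1 : p * s * ‖x - z‖ ^ 2 / (p - 1) = (A + B) * B := by
      rw [mul_assoc, ← hB2, hp]
      have hB' : B ≠ 0 := hBp.ne'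
      have hA' : A ≠ 0 := hA0.ne'
      rw [show (1 + B / A - 1) = B / A by ring]
      field_simp
    rw [e1] at h2
    have h4 := h3.trans h2
    rw [ENNReal.ofReal_rpow_of_pos h0, Real.rpow_def_of_pos h0] at h4
    have e2 : Real.log q₀ * p = -(A * (A + B)) := by
      have : Real.log q₀ = -A ^ 2 := by linarith
      rw [this, hp]
      field_simp
    rw [e2] at h4
    have e3 : ENNReal.ofReal (Real.exp (-(B + A) ^ 2)) =
        ENNReal.ofReal (Real.exp (-(A * (A + B)))) * ENNReal.ofReal (Real.exp (-((A + B) * B))) := by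
      rw [← ENNReal.ofReal_mul (Real.exp_pos _).le, ← Real.exp_add]
      congr 2
      ring
    rw [e3]
    calc ENNReal.ofReal (Real.exp (-(A * (A + B)))) * ENNReal.ofReal (Real.exp (-((A + B) * B)))
        ≤ (prE s T z * ENNReal.ofReal (Real.exp ((A + B) * B))) *
          ENNReal.ofReal (Real.exp (-((A + B) * B))) := by gcongr
      _ = prE s T z := by
          rw [mul_assoc, ← ENNReal.ofReal_mul (Real.exp_pos _).le, ← Real.exp_add]
          simp

end Pool.Agent.Lib.MP_6d896a_gt.FP
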