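import Mathlib
import Pool.Agent.Lib.MP_6d896a_gt.FP.Harnack

/-!
Prekopa-Leindler inequality localised by a Gaussian kernel and integrated over the centre.
-/

set_option autoImplicit false

namespace Pool.Agent.Lib.MP_6d896a_gt.FP

open MeasureTheory ProbabilityTheory Set Filter
open scoped ENNReal Topology

variable {E : Type*} [NormedAddCommGroup E] [InnerProductSpace ℝ E] [FiniteDimensional ℝ E]
  [MeasurableSpace E] [BorelSpace E]

/-- the convolution of `F μ` with the Gaussian kernel -/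
noncomputable def qE (s : ℝ) (μ : Measure E) (F : E → ℝ≥0∞) (a : E) : ℝ≥0∞ :=
  ∫⁻ x, F x * ENNReal.ofReal (gk s (a - x)) ∂μ

lemma gk_meas' (s : ℝ) (a : E) : Measurable (fun x : E => ENNReal.ofReal (gk s (a - x))) :=
  ((gk_continuous s).comp (continuous_const.sub continuous_id)).measurable.ennreal_ofReal

lemma gk_meas3 (s : ℝ) : Measurable (fun p : E × E => ENNReal.ofReal (gk s (p.1 - p.2))) :=
  ((gk_continuous s).comp (continuous_fst.sub continuous_snd)).measurable.ennreal_ofReal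

lemma qE_measurable {s : ℝ} {μ : Measure E} [SFinite μ] {F : E → ℝ≥0∞} (hF : Measurable F) :
    Measurable (qE s μ F) := by
  unfold qE
  exact ((hF.comp measurable_snd).mul (gk_meas3 s)).lintegral_prod_right'

/-- Tonelli -/
lemma lint_qE {s : ℝ} {μ : Measure E} [SFinite μ] {F H : E → ℝ≥0∞} (hF : Measurable F)
    (hH : Measurable H) :
    ∫⁻ a, H a * qE s μ F a = ∫⁻ x, F x * (∫⁻ a, H a * ENNReal.ofReal (gk s (a - x))) ∂μ := by
  unfold qE
  have hm : Measurable (fun p : E × E => H p.1 * (F p.2 * ENNReal.ofReal (gk s (p.1 - p.2)))) :=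
    (hH.comp measurable_fst).mul ((hF.comp measurable_snd).mul (gk_meas3 s))
  calc ∫⁻ a, H a * ∫⁻ x, F x * ENNReal.ofReal (gk s (a - x)) ∂μ
      = ∫⁻ a, ∫⁻ x, H a * (F x * ENNReal.ofReal (gk s (a - x))) ∂μ := by
        apply lintegral_congr
        intro a
        have hm1 : Measurable (fun x => F x * ENNReal.ofReal (gk s (a - x))) :=
          hF.mul (gk_meas' s a)
        rw [lintegral_const_mul _ hm1]
    _ = ∫⁻ x, (∫⁻ a, H a * (F x * ENNReal.ofReal (gk s (a - x)))) ∂μ :=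
        lintegral_lintegral_swap
          (f := fun a x => H a * (F x * ENNReal.ofReal (gk s (a - x)))) hm.aemeasurable
    _ = _ := by
        apply lintegral_congr
        intro x
        have hm2 : Measurable (fun a => H a * ENNReal.ofReal (gk s (a - x))) :=
          hH.mul (gk_meas s x)
        rw [← lintegral_const_mul _ hm2]
        apply lintegral_congr
        intro a
        ring

lemma lint_qE_one {s : ℝ} (hs : 0 < s) {μ : Measure E} [SFinite μ] {F : E → ℝ≥0∞}
    (hF : Measurable F) : ∫⁻ a, qE s μ F a = ∫⁻ x, F x ∂μ := by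
  have := lint_qE (s := s) (μ := μ) (H := fun _ => 1) hF measurable_const
  simp only [one_mul] at this
  rw [this]
  simp only [lint_gk hs, mul_one]

lemma gk_interp {s : ℝ} (hs : 0 < s) {l : ℝ} (a x y : E) :
    ENNReal.ofReal (gk s (a - x)) ^ (1 - l) * ENNReal.ofReal (gk s (a - y)) ^ l =
      ENNReal.ofReal (Real.exp (-(l * (1 - l) * s * ‖x - y‖ ^ 2))) *
        ENNReal.ofReal (gk s (a - ((1 - l) • x + l • y))) := by
  have hZ := gZ_pos (E := E) hs
  rw [ENNReal.ofReal_rpow_of_pos (gk_pos hs _), ENNReal.ofReal_rpow_of_pos (gk_pos hs _),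
    ← ENNReal.ofReal_mul (Real.rpow_nonneg (gk_pos hs _).le _), ← ENNReal.ofReal_mul (Real.exp_pos _).le]
  congr 1
  unfold gk
  rw [Real.mul_rpow (inv_nonneg.mpr hZ.le) (Real.exp_pos _).le,
    Real.mul_rpow (inv_nonneg.mpr hZ.le) (Real.exp_pos _).le, ← Real.exp_mul, ← Real.exp_mul]
  have e1 : ((gZ E s)⁻¹) ^ (1 - l) * ((gZ E s)⁻¹) ^ l = (gZ E s)⁻¹ := by
    rw [← Real.rpow_add (inv_pos.mpr hZ)]; simp
  have e2 : a - ((1 - l) • x + l • y) = (1 - l) • (a - x) + l • (a - y) := by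
    module
  have e3 : x - y = (a - y) - (a - x) := by abel
  calc _ = (((gZ E s)⁻¹) ^ (1 - l) * ((gZ E s)⁻¹) ^ l) *
        (Real.exp (-s * ‖a - x‖ ^ 2 * (1 - l)) * Real.exp (-s * ‖a - y‖ ^ 2 * l)) := by ring
    _ = _ := by
      rw [e1, ← Real.exp_add, mul_left_comm, ← Real.exp_add, e2, e3]
      generalize a - x = u
      generalize a - y = v
      congr 2
      rw [norm_add_sq_real, norm_sub_sq_real, norm_smul, norm_smul, inner_smul_left,
        inner_smul_right, mul_pow, mul_pow, Real.norm_eq_abs, Real.norm_eq_abs, sq_abs, sq_abs,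
        real_inner_comm u v, conj_trivial]
      ring

theorem star {s : ℝ} (hs : 0 < s) {μ : Measure E} [SFinite μ] (h : PLm μ) {l : ℝ} (h0 : 0 < l)
    (h1 : l < 1) {F G Q : E → ℝ≥0∞} (hF : Measurable F) (hG : Measurable G) (hQ : Measurable Q)
    (H : ∀ x y, F x ^ (1 - l) * G y ^ l *
      ENNReal.ofReal (Real.exp (-(l * (1 - l) * s * ‖x - y‖ ^ 2))) ≤ Q ((1 - l) • x + l • y)) :
    ∫⁻ a, qE s μ F a ^ (1 - l) * qE s μ G a ^ l ≤ ∫⁻ x, Q x ∂μ := by
  rw [← lint_qE_one hs hQ]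
  apply lintegral_mono
  intro a
  refine h l h0 h1 _ _ _ (hF.mul (gk_meas' s a)) (hG.mul (gk_meas' s a)) (hQ.mul (gk_meas' s a)) ?_
  intro x y
  rw [ENNReal.mul_rpow_of_nonneg _ _ (by linarith), ENNReal.mul_rpow_of_nonneg _ _ h0.le]
  calc F x ^ (1 - l) * ENNReal.ofReal (gk s (a - x)) ^ (1 - l) *
        (G y ^ l * ENNReal.ofReal (gk s (a - y)) ^ l)
      = F x ^ (1 - l) * G y ^ l * (ENNReal.ofReal (gk s (a - x)) ^ (1 - l) *
        ENNReal.ofReal (gk s (a - y)) ^ l) := by ring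
    _ = (F x ^ (1 - l) * G y ^ l * ENNReal.ofReal (Real.exp (-(l * (1 - l) * s * ‖x - y‖ ^ 2)))) *
        ENNReal.ofReal (gk s (a - ((1 - l) • x + l • y))) := by
        rw [gk_interp hs]; ring
    _ ≤ _ := mul_le_mul' (H x y) le_rfl

end Pool.Agent.Lib.MP_6d896a_gt.FP
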