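import Mathlib
import Pool.Agent.Lib.MP_6d896a_gt.Cutoff
import Pool.Agent.Lib.MP_6d896a_gt.FP.StarIneq

/-!
Chebyshev inequality for separated sets and tails in finite dimension.
-/

set_option autoImplicit false

namespace Pool.Agent.Lib.MP_6d896a_gt.FP

open MeasureTheory ProbabilityTheory Set Filter
open scoped ENNReal Topology

variable {E : Type*} [NormedAddCommGroup E] [InnerProductSpace ℝ E] [FiniteDimensional ℝ E]
  [MeasurableSpace E] [BorelSpace E]

/-- variance bound for bounded smooth functions with gradient at most one -/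
def LVb (μ : Measure E) (M : ℝ) : Prop :=
  ∀ g : E → ℝ, ContDiff ℝ 1 g → (∃ B : ℝ, ∀ x, |g x| ≤ B) →
    (∃ B : ℝ, ∀ x y, ‖fderiv ℝ g x - fderiv ℝ g y‖ ≤ B * ‖x - y‖) →
    (∀ x, ‖fderiv ℝ g x‖ ≤ 1) → Var[g; μ] ≤ M

lemma LVb.scale {μ : Measure E} {M : ℝ} (h : LVb μ M) {g : E → ℝ} (hg : ContDiff ℝ 1 g)
    (hb : ∃ B : ℝ, ∀ x, |g x| ≤ B)
    (hl : ∃ B : ℝ, ∀ x y, ‖fderiv ℝ g x - fderiv ℝ g y‖ ≤ B * ‖x - y‖) {l : ℝ} (hl0 : 0 < l)
    (hgl : ∀ x y, |g x - g y| ≤ l * ‖x - y‖) : Var[g; μ] ≤ M * l ^ 2 := by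
  have hd : Differentiable ℝ g := hg.differentiable (by norm_num)
  have hn : ∀ x, ‖fderiv ℝ g x‖ ≤ l := by
    intro x
    refine (hd x).hasFDerivAt.le_of_lip' hl0.le (Eventually.of_forall fun y => ?_)
    rw [Real.norm_eq_abs]
    exact hgl y x
  have hf : ∀ x, fderiv ℝ (fun x => l⁻¹ * g x) x = l⁻¹ • fderiv ℝ g x := by
    intro x
    exact fderiv_const_mul (hd x) _
  have h1 := h (fun x => l⁻¹ * g x) (contDiff_const.mul hg) (by
    obtain ⟨B, hB⟩ := hb
    refine ⟨l⁻¹ * B, fun x => ?_⟩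
    rw [abs_mul, abs_of_pos (inv_pos.mpr hl0)]
    exact mul_le_mul_of_nonneg_left (hB x) (inv_pos.mpr hl0).le) (by
    obtain ⟨B, hB⟩ := hl
    refine ⟨l⁻¹ * B, fun x y => ?_⟩
    rw [hf, hf, ← smul_sub, norm_smul, Real.norm_eq_abs, abs_of_pos (inv_pos.mpr hl0), mul_assoc]
    exact mul_le_mul_of_nonneg_left (hB x y) (inv_pos.mpr hl0).le) (by
    intro x
    rw [hf, norm_smul, Real.norm_eq_abs, abs_of_pos (inv_pos.mpr hl0), inv_mul_le_iff₀ hl0, mul_one]
    exact hn x)
  rw [variance_const_mul] at h1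
  rw [inv_pow, inv_mul_le_iff₀ (by positivity)] at h1
  linarith

/-- variance bound with an additive error, for functions bounded by one -/
def LVe (μ : Measure E) (M η : ℝ) : Prop :=
  ∀ g : E → ℝ, ContDiff ℝ 1 g → (∀ x, |g x| ≤ 1) →
    (∃ B : ℝ, ∀ x y, ‖fderiv ℝ g x - fderiv ℝ g y‖ ≤ B * ‖x - y‖) →
    ∀ l : ℝ, 0 < l → (∀ x y, |g x - g y| ≤ l * ‖x - y‖) → Var[g; μ] ≤ M * l ^ 2 + η

lemma LVb.toLVe {μ : Measure E} {M : ℝ} (h : LVb μ M) : LVe μ M 0 := by
  intro g hg hb hL l hl hgl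
  rw [add_zero]
  exact h.scale hg ⟨1, hb⟩ hL hl hgl

lemma LVe.mono {μ : Measure E} {M η η' : ℝ} (h : LVe μ M η) (hη : η ≤ η') : LVe μ M η' := by
  intro g hg hb hL l hl hgl
  have := h g hg hb hL l hl hgl
  linarith

/-- separated sets -/
theorem cheb {μ : Measure E} [IsProbabilityMeasure μ] {M η : ℝ} (hM : 0 ≤ M) (hη : 0 ≤ η)
    (h : LVe μ M η) {A B : Set E}
    (hA : MeasurableSet A) (hB : MeasurableSet B) {D : ℝ} (hD : 0 < D)
    (hsep : ∀ x ∈ A, ∀ y ∈ B, D ≤ ‖x - y‖) :
    D ^ 2 * (μ.real A * μ.real B) ≤ M + η * D ^ 2 := by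
  rcases A.eq_empty_or_nonempty with rfl | hne
  · simp only [measureReal_empty, zero_mul, mul_zero]
    positivity
  -- for every small margin
  have key : ∀ δ : ℝ, 0 < δ → 4 * δ < D →
      (D - 4 * δ) ^ 2 * (μ.real A * μ.real B) ≤ M + η * D ^ 2 := by
    intro δ hδ hδD
    obtain ⟨g, l2, hl2, hg, hg0, hg1, hgl, hgl2, hgA, hgB⟩ := exists_cutoff hne hδ hδD
    have h0 : 0 < D - 4 * δ := by linarith
    have hvar := h g hg (fun x => by rw [abs_of_nonneg (hg0 x)]; exact hg1 x) ⟨l2, hgl2⟩ _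
      (inv_pos.mpr h0) hgl
    have hgm : Measurable g := hg.continuous.measurable
    set c := ∫ x, g x ∂μ with hc
    have hL2 : MemLp g 2 μ := MemLp.of_bound hgm.aestronglyMeasurable 1 (ae_of_all _ fun x => by
      rw [Real.norm_eq_abs, abs_of_nonneg (hg0 x)]; exact hg1 x)
    have hAB : Disjoint A B := by
      rw [Set.disjoint_left]
      intro x hx hx'
      have := hsep x hx x hx'
      simp at this
      linarith
    have hsum : μ.real A + μ.real B ≤ 1 := by
      rw [← measureReal_union hAB hB]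
      exact measureReal_le_one
    have hint : Integrable (fun x => (g x - c) ^ 2) μ := by
      have := (hL2.sub (memLp_const c)).integrable_sq
      simpa using this
    have hv : (1 - c) ^ 2 * μ.real A + c ^ 2 * μ.real B ≤ Var[g; μ] := by
      rw [variance_eq_integral hgm.aemeasurable]
      have h2 : ∫ x in A ∪ B, (g x - c) ^ 2 ∂μ ≤ ∫ x, (g x - c) ^ 2 ∂μ :=
        setIntegral_le_integral hint (ae_of_all _ fun x => sq_nonneg _)
      refine le_trans (le_of_eq ?_) h2
      rw [setIntegral_union hAB hB hint.integrableOn hint.integrableOn]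
      congr 1
      · rw [setIntegral_congr_fun (g := fun _ => (1 - c) ^ 2) hA (fun x hx => by
          simp only [(hgA x hx).1]), setIntegral_const, smul_eq_mul, mul_comm]
      · rw [setIntegral_congr_fun (g := fun _ => c ^ 2) hB (fun x hx => by
          have : x ∉ Metric.thickening D A := by
            intro hx'
            rw [Metric.mem_thickening_iff] at hx'
            obtain ⟨z, hz, hz'⟩ := hx'
            have := hsep z hz x hx
            rw [dist_comm, dist_eq_norm] at hz'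
            linarith
          simp only [(hgB x this).1]
          ring), setIntegral_const, smul_eq_mul, mul_comm]
    have ha0 : 0 ≤ μ.real A := measureReal_nonneg
    have hb0 : 0 ≤ μ.real B := measureReal_nonneg
    have hab : μ.real A * μ.real B ≤ (1 - c) ^ 2 * μ.real A + c ^ 2 * μ.real B := by
      set a := μ.real A
      set b := μ.real B
      have h3 : 0 ≤ (1 - c) ^ 2 * a + c ^ 2 * b := by positivity
      have h4 : ((1 - c) ^ 2 * a + c ^ 2 * b) * (a + b) = a * b + (c * (a + b) - a) ^ 2 := by ring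
      nlinarith [sq_nonneg (c * (a + b) - a)]
    have h5 : μ.real A * μ.real B - η ≤ M * ((D - 4 * δ)⁻¹) ^ 2 := by linarith
    rw [inv_pow, ← div_eq_mul_inv, le_div_iff₀ (by positivity)] at h5
    have h6 : (D - 4 * δ) ^ 2 ≤ D ^ 2 := by
      apply pow_le_pow_left₀ h0.le
      linarith
    have h7 : η * (D - 4 * δ) ^ 2 ≤ η * D ^ 2 := by gcongr
    linarith
  -- limit
  have hlim : Tendsto (fun δ : ℝ => (D - 4 * δ) ^ 2 * (μ.real A * μ.real B)) (𝓝[>] 0)
      (𝓝 ((D - 4 * 0) ^ 2 * (μ.real A * μ.real B))) := by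
    apply Tendsto.mono_left _ nhdsWithin_le_nhds
    apply Continuous.tendsto
    fun_prop
  rw [mul_zero, sub_zero] at hlim
  refine le_of_tendsto hlim ?_
  have : ∀ᶠ δ : ℝ in 𝓝[>] 0, δ < D / 4 :=
    nhdsWithin_le_nhds (Iio_mem_nhds (by positivity))
  filter_upwards [this, self_mem_nhdsWithin] with δ h1 h2
  exact key δ h2 (by linarith)

/-- tails in finite dimension -/
theorem PLm.tail {μ : Measure E} [IsProbabilityMeasure μ] (h : PLm μ) :
    ∃ c : ℝ, 0 < c ∧ ∀ L : ℝ, 0 ≤ L → ∀ S : Set E, ENNReal.ofReal (Real.exp (-L)) ≤ μ S →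
      ∃ x ∈ S, ‖x‖ ≤ c * (1 + L) := by
  set n := Module.finrank ℝ E with hn
  let b := stdOrthonormalBasis ℝ E
  -- a radius for each coordinate
  have hr : ∀ i : Fin n, ∃ r : ℕ, 3 / 4 ≤ μ.real {x | |inner ℝ (b i) x| ≤ (r : ℝ)} := by
    intro i
    have hmono : Monotone (fun r : ℕ => {x : E | |inner ℝ (b i) x| ≤ (r : ℝ)}) := by
      intro r r' hrr x hx
      simp only [mem_ofPred_eq] at hx ⊢
      exact hx.trans (by exact_mod_cast hrr)
    have hU : (⋃ r : ℕ, {x : E | |inner ℝ (b i) x| ≤ (r : ℝ)}) = univ := by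
      ext x
      simp only [mem_iUnion, mem_ofPred_eq, mem_univ, iff_true]
      exact exists_nat_ge _
    have ht := tendsto_measure_iUnion_atTop (μ := μ) hmono
    rw [hU, measure_univ] at ht
    have ht2 := (ENNReal.tendsto_toReal ENNReal.one_ne_top).comp ht
    have : ∀ᶠ r : ℕ in atTop, (3 / 4 : ℝ) <
        (ENNReal.toReal ∘ (fun r : ℕ => μ {x : E | |inner ℝ (b i) x| ≤ (r : ℝ)})) r :=
      ht2.eventually (lt_mem_nhds (by norm_num))
    obtain ⟨r, hr⟩ := this.exists
    exact ⟨r, hr.le⟩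
  choose r hr using hr
  set R : ℝ := 1 + ∑ i, (r i : ℝ) with hR
  have hR0 : 1 ≤ R := by
    rw [hR]
    have : (0 : ℝ) ≤ ∑ i, (r i : ℝ) := Finset.sum_nonneg fun i _ => Nat.cast_nonneg _
    linarith
  have hrR : ∀ i, (r i : ℝ) ≤ R := by
    intro i
    have := Finset.single_le_sum (f := fun i => (r i : ℝ)) (fun i _ => Nat.cast_nonneg _)
      (Finset.mem_univ i)
    linarith
  have hmom : ∀ i : Fin n, ∫⁻ x, ENNReal.ofReal (Real.exp (|inner ℝ (b i) x| / (4 * R))) ∂μ ≤ 4 := by
    intro i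
    refine h.exp_moment (ξ := fun x => inner ℝ (b i) x) (by fun_prop) ?_ (by linarith) ?_
    · intro x y l
      rw [inner_add_right, inner_smul_right, inner_smul_right]
    · refine (hr i).trans ?_
      apply measureReal_mono _ (by simp)
      intro x hx
      simp only [mem_ofPred_eq] at hx ⊢
      exact hx.trans (hrR i)
  -- constant
  set c : ℝ := 4 * R * (n + 1) * (Real.log (4 * (n + 1)) + 1) with hc
  have hlog0 : 0 ≤ Real.log (4 * ((n : ℝ) + 1)) := by
    apply Real.log_nonneg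
    have : (0 : ℝ) ≤ n := Nat.cast_nonneg _
    linarith
  have hc0 : 0 < c := by
    rw [hc]
    have : (0 : ℝ) ≤ n := Nat.cast_nonneg _
    positivity
  refine ⟨c, hc0, fun L hL S hS => ?_⟩
  by_contra hcon
  push Not at hcon
  -- S is contained in the union of the coordinate slabs
  set t : ℝ := 4 * R * (L + Real.log (4 * (n + 1)) ) with ht
  have hn1 : (1 : ℝ) ≤ (n : ℝ) + 1 := by
    have : (0 : ℝ) ≤ n := Nat.cast_nonneg _
    linarith
  have hsub : S ⊆ ⋃ i : Fin n, {x | Real.exp (t / (4 * R)) ≤ Real.exp (|inner ℝ (b i) x| / (4 * R))} := by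
    intro x hx
    have h1 := hcon x hx
    by_contra hx'
    simp only [mem_iUnion, mem_ofPred_eq, not_exists, not_le, Real.exp_lt_exp] at hx'
    have h2 : ∀ i, |inner ℝ (b i) x| ≤ t := by
      intro i
      have := hx' i
      rw [div_lt_div_iff_of_pos_right (by positivity)] at this
      exact this.le
    have h3 : ‖x‖ ≤ ∑ i, |inner ℝ (b i) x| := by
      conv_lhs => rw [← b.sum_repr' x]
      refine (norm_sum_le _ _).trans (Finset.sum_le_sum fun i _ => ?_)
      rw [norm_smul, b.orthonormal.1 i, mul_one, Real.norm_eq_abs]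
    have h4 : ∑ i, |inner ℝ (b i) x| ≤ n * t := by
      refine (Finset.sum_le_sum fun i _ => h2 i).trans ?_
      rw [Finset.sum_const, Finset.card_univ, Fintype.card_fin, nsmul_eq_mul]
    have h5 : n * t ≤ c * (1 + L) := by
      rw [hc, ht]
      have h6 : L + Real.log (4 * ((n : ℝ) + 1)) ≤ (Real.log (4 * (n + 1)) + 1) * (1 + L) := by
        nlinarith
      calc (n : ℝ) * (4 * R * (L + Real.log (4 * (n + 1))))
          = 4 * R * n * (L + Real.log (4 * (n + 1))) := by ring
        _ ≤ 4 * R * (n + 1) * ((Real.log (4 * (n + 1)) + 1) * (1 + L)) := by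
            gcongr
            linarith
        _ = _ := by ring
    linarith
  have hmeas : ∀ i : Fin n, μ {x | Real.exp (t / (4 * R)) ≤ Real.exp (|inner ℝ (b i) x| / (4 * R))} ≤
      4 / ENNReal.ofReal (Real.exp (t / (4 * R))) := by
    intro i
    rw [ENNReal.le_div_iff_mul_le (Or.inl (by simp [Real.exp_pos])) (Or.inl (by simp)), mul_comm]
    have h1 := mul_meas_ge_le_lintegral₀ (μ := μ)
      (f := fun x => ENNReal.ofReal (Real.exp (|inner ℝ (b i) x| / (4 * R))))
      (by fun_prop) (ENNReal.ofReal (Real.exp (t / (4 * R))))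
    refine le_trans ?_ (h1.trans (hmom i))
    gcongr
    intro hx
    exact ENNReal.ofReal_le_ofReal hx
  have h6 : μ S ≤ n * (4 / ENNReal.ofReal (Real.exp (t / (4 * R)))) := by
    refine (measure_mono hsub).trans ((measure_iUnion_fintype_le _ _).trans ?_)
    refine (Finset.sum_le_sum fun i _ => hmeas i).trans ?_
    rw [Finset.sum_const, Finset.card_univ, Fintype.card_fin, nsmul_eq_mul]
  have h7 : ENNReal.ofReal (Real.exp (-L)) ≤ ENNReal.ofReal (n * (4 / Real.exp (t / (4 * R)))) := by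
    refine (hS.trans h6).trans (le_of_eq ?_)
    rw [ENNReal.ofReal_mul (Nat.cast_nonneg _), ENNReal.ofReal_natCast,
      ENNReal.ofReal_div_of_pos (Real.exp_pos _)]
    norm_num
  rw [ENNReal.ofReal_le_ofReal_iff (by positivity)] at h7
  have h8 : Real.exp (t / (4 * R)) = Real.exp L * (4 * (n + 1)) := by
    rw [ht]
    have : 4 * R * (L + Real.log (4 * (n + 1))) / (4 * R) = L + Real.log (4 * (n + 1)) := by
      field_simp
    rw [this, Real.exp_add, Real.exp_log (by positivity)]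
  rw [h8, Real.exp_neg] at h7
  have h9 : 0 < Real.exp L := Real.exp_pos L
  rw [← mul_div_assoc, inv_eq_one_div, div_le_div_iff₀ h9 (by positivity)] at h7
  nlinarith

end Pool.Agent.Lib.MP_6d896a_gt.FP
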