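import Mathlib
import Pool.Agent.Lib.MP_6d896a_gt.Channel2
import Pool.Agent.Lib.MP_6d896a_gt.FP.Cheb

/-!
Gaussian regularisation of bounded Lipschitz functions.
-/

set_option autoImplicit false

namespace Pool.Agent.Lib.MP_6d896a_gt.FP

open MeasureTheory ProbabilityTheory Set Filter
open scoped ENNReal Topology

variable {E : Type*} [NormedAddCommGroup E] [InnerProductSpace ℝ E] [FiniteDimensional ℝ E]
  [MeasurableSpace E] [BorelSpace E]

lemma gconv_eq_gM {s : ℝ} (hs : 0 < s) (f : E → ℝ) (x : E) :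
    gconv s f x = ∫ z, f (x - z) ∂(gM s : Measure E) := by
  rw [gM_integral hs]
  unfold gconv
  have := integral_sub_left_eq_self (fun z : E => f (x - z) * gk s z) volume x
  rw [← this]
  congr 1
  funext y
  rw [sub_sub_cancel]

lemma dk_norm_integrable {s : ℝ} (hs : 0 < s) : Integrable (fun z : E => ‖dk s z‖) := by
  have hi : Integrable (fun z : E => cdom E s * Real.exp (-(s / 2) * ‖z‖ ^ 2)) :=
    (gexp_integrable (by positivity : 0 < s / 2)).const_mul _
  refine hi.mono' (dk_continuous s).norm.aestronglyMeasurable (ae_of_all _ fun z => ?_)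
  rw [norm_norm]
  exact dk_norm_le hs z

lemma gconv_fderiv_lip {s : ℝ} (hs : 0 < s) {m : E → ℝ} (hm : Measurable m)
    (hb : ∀ y, |m y| ≤ 1) {l : ℝ} (hl : ∀ x y, |m x - m y| ≤ l * ‖x - y‖) :
    ∃ B : ℝ, ∀ x y, ‖fderiv ℝ (gconv s m) x - fderiv ℝ (gconv s m) y‖ ≤ B * ‖x - y‖ := by
  refine ⟨l * ∫ z : E, ‖dk s z‖, fun x y => ?_⟩
  have e : ∀ x, fderiv ℝ (gconv s m) x = ∫ z, m (x - z) • dk s z := by
    intro x
    rw [(gconv_hasFDerivAt hs hm hb x).fderiv]
    have := integral_sub_left_eq_self (fun z : E => m (x - z) • dk s z) volume x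
    rw [← this]
    congr 1
    funext y
    rw [sub_sub_cancel]
  have hi : ∀ x, Integrable (fun z : E => m (x - z) • dk s z) := by
    intro x
    refine (dk_norm_integrable hs).mono' ?_ (ae_of_all _ fun z => ?_)
    · exact (hm.comp (measurable_const.sub measurable_id)).aestronglyMeasurable.smul
        (dk_continuous s).aestronglyMeasurable
    · rw [norm_smul, Real.norm_eq_abs]
      exact mul_le_of_le_one_left (norm_nonneg _) (hb _)
  rw [e, e, ← integral_sub (hi x) (hi y)]
  have h1 : Integrable (fun z : E => (l * ‖x - y‖) * ‖dk s z‖) :=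
    (dk_norm_integrable hs).const_mul _
  refine (norm_integral_le_of_norm_le h1 (ae_of_all _ fun z => ?_)).trans (le_of_eq ?_)
  · have e2 : m (x - z) • dk s z - m (y - z) • dk s z = (m (x - z) - m (y - z)) • dk s z :=
      (sub_smul _ _ _).symm
    rw [e2, norm_smul, Real.norm_eq_abs]
    apply mul_le_mul_of_nonneg_right _ (norm_nonneg _)
    have := hl (x - z) (y - z)
    rwa [sub_sub_sub_cancel_right] at this
  · rw [integral_const_mul]
    ring

lemma gconv_lip_of_lip {s : ℝ} (hs : 0 < s) {m : E → ℝ} (hm : Measurable m)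
    (hb : ∀ y, |m y| ≤ 1) {l : ℝ} (hl : ∀ x y, |m x - m y| ≤ l * ‖x - y‖) (x y : E) :
    |gconv s m x - gconv s m y| ≤ l * ‖x - y‖ := by
  have hp := gM_prob (E := E) hs
  have hi : ∀ x, Integrable (fun z : E => m (x - z)) (gM s) := by
    intro x
    exact bdd_integrable _ (hm.comp (measurable_const.sub measurable_id)) (C := 1) fun z => hb _
  rw [gconv_eq_gM hs, gconv_eq_gM hs, ← integral_sub (hi x) (hi y), ← Real.norm_eq_abs]
  refine (norm_integral_le_of_norm_le (integrable_const (l * ‖x - y‖))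
    (ae_of_all _ fun z => ?_)).trans (le_of_eq ?_)
  · rw [Real.norm_eq_abs]
    have := hl (x - z) (y - z)
    rwa [sub_sub_sub_cancel_right] at this
  · simp

lemma gM_norm {s : ℝ} (hs : 0 < s) : Integrable (fun z : E => ‖z‖) (gM s) ∧
    ∫ z, ‖z‖ ∂(gM s : Measure E) = (Real.sqrt (2 * s))⁻¹ * ∫ z, ‖z‖ ∂(stdGaussian E) := by
  have hmeas : Measurable (fun z : E => (Real.sqrt (2 * s))⁻¹ • z) := by fun_prop
  have h1 : Integrable (fun z : E => ‖z‖) (stdGaussian E) :=
    (IsGaussian.integrable_id (μ := stdGaussian E)).norm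
  have e : (fun z : E => ‖(Real.sqrt (2 * s))⁻¹ • z‖) =
      fun z => (Real.sqrt (2 * s))⁻¹ * ‖z‖ := by
    funext z
    rw [norm_smul, Real.norm_eq_abs, abs_of_pos (by positivity)]
  rw [gM_eq hs]
  constructor
  · rw [integrable_map_measure continuous_norm.aestronglyMeasurable hmeas.aemeasurable]
    show Integrable (fun z : E => ‖(Real.sqrt (2 * s))⁻¹ • z‖) _
    rw [e]
    exact h1.const_mul _
  · rw [integral_map hmeas.aemeasurable continuous_norm.aestronglyMeasurable, e,
      integral_const_mul]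

lemma gconv_close {s : ℝ} (hs : 0 < s) {m : E → ℝ} (hm : Measurable m)
    (hb : ∀ y, |m y| ≤ 1) {l : ℝ} (hl : ∀ x y, |m x - m y| ≤ l * ‖x - y‖) (x : E) :
    |gconv s m x - m x| ≤ l * ((Real.sqrt (2 * s))⁻¹ * ∫ z, ‖z‖ ∂(stdGaussian E)) := by
  have hp := gM_prob (E := E) hs
  have hi : Integrable (fun z : E => m (x - z)) (gM s) :=
    bdd_integrable _ (hm.comp (measurable_const.sub measurable_id)) (C := 1) fun z => hb _
  obtain ⟨h1, h2⟩ := gM_norm (E := E) hs
  have e : gconv s m x - m x = ∫ z, (m (x - z) - m x) ∂(gM s : Measure E) := by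
    rw [integral_sub hi (integrable_const _), gconv_eq_gM hs]
    simp
  rw [e, ← Real.norm_eq_abs]
  refine (norm_integral_le_of_norm_le (h1.const_mul l)
    (ae_of_all _ fun z => ?_)).trans (le_of_eq ?_)
  · rw [Real.norm_eq_abs]
    have := hl (x - z) x
    rwa [sub_sub_cancel_left, norm_neg] at this
  · rw [integral_const_mul, h2]

theorem LVe.lip {μ : Measure E} [IsProbabilityMeasure μ] {M η : ℝ} (hv : LVe μ M η) {g : E → ℝ}
    (hb : ∀ y, |g y| ≤ 1) {l : ℝ} (hl0 : 0 < l) (hl : ∀ x y, |g x - g y| ≤ l * ‖x - y‖) :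
    Var[g; μ] ≤ M * l ^ 2 + η := by
  have hgc : Continuous g := by
    have : LipschitzWith (Real.toNNReal l) g := by
      apply LipschitzWith.of_dist_le_mul
      intro x y
      rw [Real.dist_eq, dist_eq_norm, Real.coe_toNNReal _ hl0.le]
      exact hl x y
    exact this.continuous
  have hgm : Measurable g := hgc.measurable
  have hn : ∀ n : ℕ, (0 : ℝ) < n + 1 := fun n => by positivity
  have hvar : ∀ n : ℕ, Var[gconv ((n : ℝ) + 1) g; μ] ≤ M * l ^ 2 + η := by
    intro n
    exact hv _ (gconv_contDiff (hn n) hgm hb) (gconv_abs_le (hn n) hb)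
      (gconv_fderiv_lip (hn n) hgm hb hl) l hl0 (gconv_lip_of_lip (hn n) hgm hb hl)
  have hpt : ∀ x, Tendsto (fun n : ℕ => gconv ((n : ℝ) + 1) g x) atTop (𝓝 (g x)) := by
    intro x
    set c := ∫ z, ‖z‖ ∂(stdGaussian E) with hc
    have h1 : Tendsto (fun n : ℕ => l * ((Real.sqrt (2 * ((n : ℝ) + 1)))⁻¹ * c)) atTop (𝓝 0) := by
      have h2 : Tendsto (fun n : ℕ => (Real.sqrt (2 * ((n : ℝ) + 1)))) atTop atTop := by
        apply Real.tendsto_sqrt_atTop.comp
        apply Tendsto.const_mul_atTop (by norm_num)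
        exact tendsto_atTop_add_const_right _ _ tendsto_natCast_atTop_atTop
      have h3 := (h2.inv_tendsto_atTop.mul_const c).const_mul l
      simpa using h3
    rw [tendsto_iff_norm_sub_tendsto_zero]
    refine squeeze_zero (fun n => norm_nonneg _) (fun n => ?_) h1
    rw [Real.norm_eq_abs]
    exact gconv_close (hn n) hgm hb hl x
  have hmem : ∀ {f : E → ℝ}, Measurable f → (∀ x, |f x| ≤ 1) → MemLp f 2 μ := by
    intro f hf hfb
    exact MemLp.of_bound hf.aestronglyMeasurable 1 (ae_of_all _ fun x => by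
      rw [Real.norm_eq_abs]; exact hfb x)
  have hlim : Tendsto (fun n : ℕ => Var[gconv ((n : ℝ) + 1) g; μ]) atTop (𝓝 (Var[g; μ])) := by
    have hgn : ∀ n : ℕ, Measurable (gconv ((n : ℝ) + 1) g) := fun n =>
      (gconv_contDiff (hn n) hgm hb).continuous.measurable
    rw [variance_eq_sub (hmem hgm hb)]
    have e : (fun n : ℕ => Var[gconv ((n : ℝ) + 1) g; μ]) = fun n : ℕ =>
        ∫ x, gconv ((n : ℝ) + 1) g x ^ 2 ∂μ - (∫ x, gconv ((n : ℝ) + 1) g x ∂μ) ^ 2 := by
      funext n
      rw [variance_eq_sub (hmem (hgn n) (gconv_abs_le (hn n) hb))]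
      rfl
    rw [e]
    have t1 : Tendsto (fun n : ℕ => ∫ x, gconv ((n : ℝ) + 1) g x ∂μ) atTop (𝓝 (∫ x, g x ∂μ)) := by
      apply tendsto_integral_of_dominated_convergence (fun _ => (1 : ℝ))
      · exact fun n => (hgn n).aestronglyMeasurable
      · exact integrable_const _
      · exact fun n => ae_of_all _ fun x => by
          rw [Real.norm_eq_abs]; exact gconv_abs_le (hn n) hb x
      · exact ae_of_all _ hpt
    have t2 : Tendsto (fun n : ℕ => ∫ x, gconv ((n : ℝ) + 1) g x ^ 2 ∂μ) atTop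
        (𝓝 (∫ x, g x ^ 2 ∂μ)) := by
      apply tendsto_integral_of_dominated_convergence (fun _ => (1 : ℝ))
      · exact fun n => ((hgn n).pow_const 2).aestronglyMeasurable
      · exact integrable_const _
      · exact fun n => ae_of_all _ fun x => by
          rw [Real.norm_eq_abs, abs_pow]
          exact pow_le_one₀ (abs_nonneg _) (gconv_abs_le (hn n) hb x)
      · exact ae_of_all _ fun x => (hpt x).pow 2
    exact t2.sub (t1.pow 2)
  exact le_of_tendsto' hlim hvar

end Pool.Agent.Lib.MP_6d896a_gt.FP
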