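import Mathlib
import Pool.Agent.Lib.MP_6d896a_gt.FP.Cheb

/-!
Exponential concentration of log-concave measures from a variance bound for Lipschitz functions.
-/

set_option autoImplicit false

namespace Pool.Agent.Lib.MP_6d896a_gt.FP

open MeasureTheory ProbabilityTheory Set Filter
open scoped ENNReal Topology

variable {E : Type*} [NormedAddCommGroup E] [InnerProductSpace ℝ E] [FiniteDimensional ℝ E]
  [MeasurableSpace E] [BorelSpace E]

lemma lint_qE_set {s : ℝ} {μ : Measure E} [SFinite μ] {F : E → ℝ≥0∞} (hF : Measurable F)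
    {T : Set E} (hT : MeasurableSet T) :
    ∫⁻ a in T, qE s μ F a = ∫⁻ x, F x * prE s T x ∂μ := by
  have h1 := lint_qE (s := s) (μ := μ) (F := F) (H := T.indicator 1) hF
    (measurable_one.indicator hT)
  have e1 : ∀ a, T.indicator (1 : E → ℝ≥0∞) a * qE s μ F a = T.indicator (qE s μ F) a := by
    intro a
    by_cases ha : a ∈ T <;> simp [ha]
  have e2 : ∀ x a, T.indicator (1 : E → ℝ≥0∞) a * ENNReal.ofReal (gk s (a - x)) =
      T.indicator (fun a => ENNReal.ofReal (gk s (a - x))) a := by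
    intro x a
    by_cases ha : a ∈ T <;> simp [ha]
  simp only [e1, e2] at h1
  rw [lintegral_indicator hT] at h1
  rw [h1]
  apply lintegral_congr
  intro x
  rw [lintegral_indicator hT]
  rfl

/-- the two one-sided bounds -/
lemma split_alpha {s : ℝ} {μ : Measure E} [SFinite μ] {S A : Set E} (hS : MeasurableSet S)
    (hA : MeasurableSet A) {l : ℝ} (h0 : 0 < l) (h1 : l < 1) {k : ℝ} (hk : 0 < k) {a : ℝ}
    (hα : ∫⁻ x, qE s μ (S.indicator 1) x ^ (1 - l) * qE s μ (A.indicator 1) x ^ l ≤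
      ENNReal.ofReal a) :
    ∃ T : Set E, MeasurableSet T ∧
      ∫⁻ x in S, prE s Tᶜ x ∂μ ≤ ENNReal.ofReal (k ^ l * a) ∧
      ∫⁻ x in A, prE s T x ∂μ ≤ ENNReal.ofReal (k ^ (-(1 - l)) * a) := by
  set qS := qE s μ (S.indicator 1) with hqS
  set qA := qE s μ (A.indicator 1) with hqA
  have mS : Measurable qS := qE_measurable (measurable_one.indicator hS)
  have mA : Measurable qA := qE_measurable (measurable_one.indicator hA)
  set T : Set E := {x | ENNReal.ofReal k * qA x ≤ qS x} with hT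
  have mT : MeasurableSet T := measurableSet_le (mA.const_mul _) mS
  have hk0 : ENNReal.ofReal k ≠ 0 := by simp [hk]
  have hkt : ENNReal.ofReal k ≠ ∞ := ENNReal.ofReal_ne_top
  have h1l : 0 < 1 - l := by linarith
  have mα : Measurable (fun x => qS x ^ (1 - l) * qA x ^ l) := (mS.pow_const _).mul (mA.pow_const _)
  refine ⟨T, mT, ?_, ?_⟩
  · have e1 := lint_qE_set (s := s) (μ := μ) (measurable_one.indicator hS) mT.compl
    have e2 : ∀ x, S.indicator (1 : E → ℝ≥0∞) x * prE s Tᶜ x = S.indicator (prE s Tᶜ) x := by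
      intro x
      by_cases hx : x ∈ S <;> simp [hx]
    simp only [e2] at e1
    rw [lintegral_indicator hS] at e1
    rw [← e1, ENNReal.ofReal_mul (Real.rpow_nonneg hk.le _), ← ENNReal.ofReal_rpow_of_pos hk]
    calc ∫⁻ x in Tᶜ, qS x ≤ ∫⁻ x in Tᶜ, ENNReal.ofReal k ^ l * (qS x ^ (1 - l) * qA x ^ l) := by
          apply setLIntegral_mono' mT.compl
          intro x hx
          simp only [hT, mem_compl_iff, mem_ofPred_eq, not_le] at hx
          have h2 : qS x ^ l ≤ (ENNReal.ofReal k * qA x) ^ l := ENNReal.rpow_le_rpow hx.le h0.le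
          rw [ENNReal.mul_rpow_of_nonneg _ _ h0.le] at h2
          calc qS x = qS x ^ (1 - l) * qS x ^ l := by
                rw [← ENNReal.rpow_add_of_nonneg _ _ h1l.le h0.le]; simp
            _ ≤ qS x ^ (1 - l) * (ENNReal.ofReal k ^ l * qA x ^ l) := by gcongr
            _ = _ := by ring
      _ ≤ ∫⁻ x, ENNReal.ofReal k ^ l * (qS x ^ (1 - l) * qA x ^ l) := setLIntegral_le_lintegral _ _
      _ = ENNReal.ofReal k ^ l * ∫⁻ x, (qS x ^ (1 - l) * qA x ^ l) := lintegral_const_mul _ mα
      _ ≤ _ := by gcongr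
  · have e1 := lint_qE_set (s := s) (μ := μ) (measurable_one.indicator hA) mT
    have e2 : ∀ x, A.indicator (1 : E → ℝ≥0∞) x * prE s T x = A.indicator (prE s T) x := by
      intro x
      by_cases hx : x ∈ A <;> simp [hx]
    simp only [e2] at e1
    rw [lintegral_indicator hA] at e1
    have hkr : ENNReal.ofReal (k ^ (-(1 - l))) = (ENNReal.ofReal k)⁻¹ ^ (1 - l) := by
      rw [ENNReal.inv_rpow, ← ENNReal.rpow_neg, ENNReal.ofReal_rpow_of_pos hk]
    rw [← e1, ENNReal.ofReal_mul (Real.rpow_nonneg hk.le _), hkr]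
    calc ∫⁻ x in T, qA x ≤
          ∫⁻ x in T, (ENNReal.ofReal k)⁻¹ ^ (1 - l) * (qS x ^ (1 - l) * qA x ^ l) := by
          apply setLIntegral_mono' mT
          intro x hx
          simp only [hT, mem_ofPred_eq] at hx
          have h2 : qA x ≤ (ENNReal.ofReal k)⁻¹ * qS x := by
            rw [mul_comm, ← div_eq_mul_inv, ENNReal.le_div_iff_mul_le (Or.inl hk0) (Or.inl hkt),
              mul_comm]
            exact hx
          have h3 : qA x ^ (1 - l) ≤ ((ENNReal.ofReal k)⁻¹ * qS x) ^ (1 - l) :=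
            ENNReal.rpow_le_rpow h2 h1l.le
          rw [ENNReal.mul_rpow_of_nonneg _ _ h1l.le] at h3
          calc qA x = qA x ^ (1 - l) * qA x ^ l := by
                rw [← ENNReal.rpow_add_of_nonneg _ _ h1l.le h0.le]; simp
            _ ≤ ((ENNReal.ofReal k)⁻¹ ^ (1 - l) * qS x ^ (1 - l)) * qA x ^ l := by gcongr
            _ = _ := by ring
      _ ≤ ∫⁻ x, (ENNReal.ofReal k)⁻¹ ^ (1 - l) * (qS x ^ (1 - l) * qA x ^ l) :=
          setLIntegral_le_lintegral _ _
      _ = (ENNReal.ofReal k)⁻¹ ^ (1 - l) * ∫⁻ x, (qS x ^ (1 - l) * qA x ^ l) :=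
          lintegral_const_mul _ mα
      _ ≤ _ := by gcongr

/-- a Markov inequality for subsets -/
lemma markov_sub {μ : Measure E} [IsFiniteMeasure μ] {S : Set E} (hS : MeasurableSet S)
    {u : E → ℝ≥0∞} (hu : Measurable u) {m t : ℝ} (ht : 0 < t)
    (hI : ∫⁻ x in S, u x ∂μ ≤ ENNReal.ofReal (t * m)) {M : ℝ≥0∞}
    (hSM : M + ENNReal.ofReal m ≤ μ S) : M ≤ μ (S ∩ {x | u x ≤ ENNReal.ofReal t}) := by
  have mU : MeasurableSet {x | u x ≤ ENNReal.ofReal t} := measurableSet_le hu measurable_const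
  have h1 : ENNReal.ofReal t * μ (S \ {x | u x ≤ ENNReal.ofReal t}) ≤ ENNReal.ofReal (t * m) := by
    refine le_trans ?_ hI
    have h2 : ∫⁻ x in S \ {x | u x ≤ ENNReal.ofReal t}, ENNReal.ofReal t ∂μ ≤
        ∫⁻ x in S, u x ∂μ := by
      refine le_trans (setLIntegral_mono' (hS.diff mU) (g := u) ?_)
        (lintegral_mono_set sdiff_subset)
      intro x hx
      have := hx.2
      simp only [mem_ofPred_eq, not_le] at this
      exact this.le
    rwa [setLIntegral_const] at h2
  rw [ENNReal.ofReal_mul ht.le] at h1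
  have h3 : μ (S \ {x | u x ≤ ENNReal.ofReal t}) ≤ ENNReal.ofReal m :=
    (ENNReal.mul_le_mul_iff_right (by simp [ht]) ENNReal.ofReal_ne_top).mp h1
  have h4 := measure_inter_add_sdiff (μ := μ) S mU
  have h5 : M + ENNReal.ofReal m ≤ μ (S ∩ {x | u x ≤ ENNReal.ofReal t}) + ENNReal.ofReal m := by
    calc M + ENNReal.ofReal m ≤ μ S := hSM
      _ = _ := h4.symm
      _ ≤ _ := by gcongr
  exact (ENNReal.add_le_add_iff_right ENNReal.ofReal_ne_top).mp h5

/-- lower bound for `a` -/
lemma alpha_low {s : ℝ} (hs : 0 < s) {μ : Measure E} [IsProbabilityMeasure μ] {S A : Set E}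
    (hS : MeasurableSet S) (hA : MeasurableSet A) {l : ℝ} (h0 : 0 < l) (h1 : l < 1) {a : ℝ}
    (ha : 0 < a)
    (hα : ∫⁻ x, qE s μ (S.indicator 1) x ^ (1 - l) * qE s μ (A.indicator 1) x ^ l ≤
      ENNReal.ofReal a) {L D' c : ℝ} (hSμ : ENNReal.ofReal (Real.exp (-L)) ≤ μ S)
    (hAμ : ENNReal.ofReal (1 / 2) ≤ μ A) (hc : c = Real.sqrt (-Real.log (1 / 2)))
    (hb : ∀ S' ⊆ S, MeasurableSet S' → ENNReal.ofReal (Real.exp (-L) / 2) ≤ μ S' →
      ∀ A' ⊆ A, MeasurableSet A' → ENNReal.ofReal (1 / 4) ≤ μ A' →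
      ∃ x ∈ S', ∃ y ∈ A', ‖x - y‖ ≤ D') :
    1 / 4 * Real.exp (-((1 - l) * L) - l * (Real.sqrt s * ((1 - l) * D') + c) ^ 2 -
      (1 - l) * (Real.sqrt s * (l * D') + c) ^ 2) ≤ a := by
  set A1 := (Real.sqrt s * ((1 - l) * D') + c) ^ 2 with hA1
  set A2 := (Real.sqrt s * (l * D') + c) ^ 2 with hA2
  set k := Real.exp (-L + A1 - A2) with hk
  have hk0 : 0 < k := Real.exp_pos _
  obtain ⟨T, mT, hT1, hT2⟩ := split_alpha hS hA h0 h1 hk0 hα
  have hkl : k ^ l = Real.exp ((-L + A1 - A2) * l) := by rw [hk, ← Real.exp_mul]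
  have hkl2 : k ^ (-(1 - l)) = Real.exp ((-L + A1 - A2) * (-(1 - l))) := by
    rw [hk, ← Real.exp_mul]
  have p1 : 0 < k ^ l := Real.rpow_pos_of_pos hk0 _
  have p2 : 0 < k ^ (-(1 - l)) := Real.rpow_pos_of_pos hk0 _
  have hS' := markov_sub (μ := μ) hS (prE_measurable (s := s) mT.compl)
    (m := Real.exp (-L) / 2) (t := 2 * (k ^ l * a) * Real.exp L) (by positivity)
    (by
      refine hT1.trans (le_of_eq ?_)
      congr 1
      have : Real.exp L * Real.exp (-L) = 1 := by rw [← Real.exp_add]; simp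
      calc k ^ l * a = (k ^ l * a) * 1 := by ring
        _ = (k ^ l * a) * (Real.exp L * Real.exp (-L)) := by rw [this]
        _ = _ := by ring) (M := ENNReal.ofReal (Real.exp (-L) / 2)) (by
      rw [← ENNReal.ofReal_add (by positivity) (by positivity)]
      refine le_trans (le_of_eq ?_) hSμ
      congr 1; ring)
  have hA' := markov_sub (μ := μ) hA (prE_measurable (s := s) mT)
    (m := 1 / 4) (t := 4 * (k ^ (-(1 - l)) * a)) (by positivity)
    (by
      refine hT2.trans (le_of_eq ?_)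
      congr 1; ring) (M := ENNReal.ofReal (1 / 4)) (by
      rw [← ENNReal.ofReal_add (by positivity) (by positivity)]
      refine le_trans (le_of_eq ?_) hAμ
      congr 1; norm_num)
  have mS' : MeasurableSet {x | prE s Tᶜ x ≤ ENNReal.ofReal (2 * (k ^ l * a) * Real.exp L)} :=
    measurableSet_le (prE_measurable mT.compl) measurable_const
  have mA' : MeasurableSet {x | prE s T x ≤ ENNReal.ofReal (4 * (k ^ (-(1 - l)) * a))} :=
    measurableSet_le (prE_measurable mT) measurable_const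
  obtain ⟨x, hx, y, hy, hxy⟩ := hb _ inter_subset_left (hS.inter mS') hS' _ inter_subset_left
    (hA.inter mA') hA'
  have hxT := hx.2
  have hyT := hy.2
  simp only [mem_ofPred_eq] at hxT hyT
  set z := (1 - l) • x + l • y with hz
  have hzx : ‖z - x‖ ≤ l * D' := by
    have : z - x = l • (y - x) := by rw [hz]; module
    rw [this, norm_smul, Real.norm_eq_abs, abs_of_pos h0, norm_sub_rev]
    exact mul_le_mul_of_nonneg_left hxy h0.le
  have hzy : ‖z - y‖ ≤ (1 - l) * D' := by
    have : z - y = (1 - l) • (x - y) := by rw [hz]; module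
    rw [this, norm_smul, Real.norm_eq_abs, abs_of_pos (by linarith)]
    exact mul_le_mul_of_nonneg_left hxy (by linarith)
  have hc0 : 0 ≤ c := by rw [hc]; exact Real.sqrt_nonneg _
  have hsum := prE_compl hs mT z
  have hhalf : ENNReal.ofReal (1 / 2) ≤ prE s T z ∨ ENNReal.ofReal (1 / 2) ≤ prE s Tᶜ z := by
    by_contra hcon
    push Not at hcon
    have h3 := ENNReal.add_lt_add hcon.1 hcon.2
    rw [hsum, ← ENNReal.ofReal_add (by norm_num) (by norm_num)] at h3
    norm_num at h3
  rcases hhalf with hh | hh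
  · have h3 := (harnack_low hs (by norm_num) (by norm_num) mT hh (z := y)).trans hyT
    rw [ENNReal.ofReal_le_ofReal_iff (by positivity), ← hc] at h3
    have h4 : Real.exp (-A1) ≤ 4 * (k ^ (-(1 - l)) * a) := by
      refine le_trans (Real.exp_le_exp.mpr ?_) h3
      rw [hA1, neg_le_neg_iff]
      have : Real.sqrt s * ‖z - y‖ ≤ Real.sqrt s * ((1 - l) * D') :=
        mul_le_mul_of_nonneg_left hzy (Real.sqrt_nonneg _)
      have h5 : 0 ≤ Real.sqrt s * ‖z - y‖ := by positivity
      gcongr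
    rw [hkl2] at h4
    have h5 : Real.exp (-((1 - l) * L) - l * A1 - (1 - l) * A2) =
        Real.exp (-A1) * Real.exp ((-L + A1 - A2) * (1 - l)) := by
      rw [← Real.exp_add]; congr 1; ring
    have h6 : Real.exp ((-L + A1 - A2) * (-(1 - l))) * Real.exp ((-L + A1 - A2) * (1 - l)) = 1 := by
      rw [← Real.exp_add, Real.exp_eq_one_iff]; ring
    rw [h5]
    have h7 := mul_le_mul_of_nonneg_right h4 (Real.exp_pos ((-L + A1 - A2) * (1 - l))).le
    have h8 : 4 * (Real.exp ((-L + A1 - A2) * (-(1 - l))) * a) * Real.exp ((-L + A1 - A2) * (1 - l)) =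
        4 * a * (Real.exp ((-L + A1 - A2) * (-(1 - l))) * Real.exp ((-L + A1 - A2) * (1 - l))) := by
      ring
    rw [h8, h6] at h7
    linarith
  · have h3 := (harnack_low hs (by norm_num) (by norm_num) mT.compl hh (z := x)).trans hxT
    rw [ENNReal.ofReal_le_ofReal_iff (by positivity), ← hc] at h3
    have h4 : Real.exp (-A2) ≤ 2 * (k ^ l * a) * Real.exp L := by
      refine le_trans (Real.exp_le_exp.mpr ?_) h3
      rw [hA2, neg_le_neg_iff]
      have : Real.sqrt s * ‖z - x‖ ≤ Real.sqrt s * (l * D') :=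
        mul_le_mul_of_nonneg_left hzx (Real.sqrt_nonneg _)
      have h5 : 0 ≤ Real.sqrt s * ‖z - x‖ := by positivity
      gcongr
    rw [hkl] at h4
    have h5 : Real.exp (-((1 - l) * L) - l * A1 - (1 - l) * A2) =
        Real.exp (-A2) * Real.exp (-((-L + A1 - A2) * l) - L) := by
      rw [← Real.exp_add]; congr 1; ring
    have h6 : Real.exp ((-L + A1 - A2) * l) * Real.exp L * Real.exp (-((-L + A1 - A2) * l) - L) = 1 := by
      rw [← Real.exp_add, ← Real.exp_add, Real.exp_eq_one_iff]; ring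
    rw [h5]
    have h7 := mul_le_mul_of_nonneg_right h4 (Real.exp_pos (-((-L + A1 - A2) * l) - L)).le
    have h8 : 2 * (Real.exp ((-L + A1 - A2) * l) * a) * Real.exp L *
        Real.exp (-((-L + A1 - A2) * l) - L) =
        2 * a * (Real.exp ((-L + A1 - A2) * l) * Real.exp L * Real.exp (-((-L + A1 - A2) * l) - L)) := by
      ring
    rw [h8, h6] at h7
    linarith

/-- numerical estimates for `one_step` -/
lemma one_step_num {L D l s c r q1 z₀ : ℝ} (hL : 72 ≤ L) (hD : 0 < D) (hlp : 0 < l) (hl1 : l < 1)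
    (h1l : 1 - l = 36 / L) (hs0 : 0 < s) (hsD : s * (1 - l) ^ 2 * D ^ 2 = 128)
    (hc0 : 0 ≤ c) (hc2 : c ^ 2 = Real.log 2) (hr0 : 0 ≤ r) (hr2 : r ^ 2 = s)
    (hq1 : q1 = Real.exp (-(l * (1 - l) * s * D ^ 2)))
    (hlow : 1 / 4 * Real.exp (-((1 - l) * L) - l * (r * ((1 - l) * ((1 + 4 / L) * D)) + c) ^ 2 -
      (1 - l) * (r * (l * ((1 + 4 / L) * D)) + c) ^ 2) ≤ q1 * (z₀ + Real.exp (-128))) :
    Real.exp (-128) ≤ z₀ := by
  have hL0 : 0 < L := by linarith
  have h1lp : 0 < 1 - l := by linarith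
  have hlog2 := Real.log_two_lt_d9
  have hc84 : c ≤ 0.84 := by
    have : c ^ 2 ≤ 0.84 ^ 2 := by rw [hc2]; norm_num; linarith
    exact (sq_le_sq₀ hc0 (by norm_num)).mp this
  set b := r * ((1 - l) * D) with hbdef
  have hb0 : 0 ≤ b := by positivity
  have hb2 : b ^ 2 = 128 := by rw [hbdef, ← hsD, ← hr2]; ring
  have hb12 : b ≤ 11.32 := by
    have : b ^ 2 ≤ 11.32 ^ 2 := by rw [hb2]; norm_num
    exact (sq_le_sq₀ hb0 (by norm_num)).mp this
  have h4L : 4 / L ≤ 1 / 18 := by
    rw [div_le_div_iff₀ hL0 (by norm_num)]; linarith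
  have h4L0 : 0 < 4 / L := by positivity
  have e1 : (1 - l) * L = 36 := by rw [h1l]; field_simp
  have hexp : -((1 - l) * L) - l * (r * ((1 - l) * ((1 + 4 / L) * D)) + c) ^ 2 -
      (1 - l) * (r * (l * ((1 + 4 / L) * D)) + c) ^ 2 =
      -36 - (l * (1 - l) * s * D ^ 2) * (1 + 4 / L) ^ 2 - 4 * c * l * (b * (1 + 4 / L)) - c ^ 2 := by
    rw [e1, hbdef, ← hr2]
    ring
  have e1' : (1 - l) * s * D ^ 2 * (4 / L) = 128 / 9 := by
    have : (1 - l) * s * D ^ 2 * (1 - l) = 128 := by rw [← hsD]; ring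
    have h2 : 4 / L = (1 - l) / 9 := by rw [h1l]; ring
    rw [h2]
    calc (1 - l) * s * D ^ 2 * ((1 - l) / 9) = ((1 - l) * s * D ^ 2 * (1 - l)) / 9 := by ring
      _ = _ := by rw [this]
  have e2 : (l * (1 - l) * s * D ^ 2) * (1 + 4 / L) ^ 2 - (l * (1 - l) * s * D ^ 2) =
      l * (((1 - l) * s * D ^ 2 * (4 / L)) * (2 + 4 / L)) := by ring
  have e3 : l * (((1 - l) * s * D ^ 2 * (4 / L)) * (2 + 4 / L)) ≤ 30 := by
    rw [e1']
    have h1 : 128 / 9 * (2 + 4 / L) ≤ 30 := by linarith
    have h2 : 0 ≤ 128 / 9 * (2 + 4 / L) := by positivity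
    calc l * (128 / 9 * (2 + 4 / L)) ≤ 1 * (128 / 9 * (2 + 4 / L)) :=
          mul_le_mul_of_nonneg_right hl1.le h2
      _ ≤ 30 := by linarith
  have e4 : 4 * c * l * (b * (1 + 4 / L)) ≤ 41 := by
    have h1 : b * (1 + 4 / L) ≤ 11.32 * (19 / 18) := by
      apply mul_le_mul hb12 (by linarith) (by positivity) (by norm_num)
    have h2 : 4 * c * l ≤ 4 * 0.84 * 1 := by
      apply mul_le_mul _ hl1.le hlp.le (by norm_num)
      linarith
    calc 4 * c * l * (b * (1 + 4 / L)) ≤ (4 * 0.84 * 1) * (11.32 * (19 / 18)) :=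
          mul_le_mul h2 h1 (by positivity) (by norm_num)
      _ ≤ 41 := by norm_num
  have e5 : c ^ 2 ≤ 1 := by rw [hc2]; linarith
  have hmain : -(l * (1 - l) * s * D ^ 2) - 108 ≤
      -36 - (l * (1 - l) * s * D ^ 2) * (1 + 4 / L) ^ 2 - 4 * c * l * (b * (1 + 4 / L)) - c ^ 2 := by
    linarith
  rw [hexp] at hlow
  have h20 : 1 / 4 * Real.exp (-(l * (1 - l) * s * D ^ 2) - 108) ≤ q1 * (z₀ + Real.exp (-128)) := by
    refine le_trans ?_ hlow
    exact mul_le_mul_of_nonneg_left (Real.exp_le_exp.mpr hmain) (by norm_num)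
  have h21 : Real.exp (-(l * (1 - l) * s * D ^ 2) - 108) = q1 * Real.exp (-108) := by
    rw [hq1, ← Real.exp_add]; congr 1
  rw [h21] at h20
  have hq0 : 0 < q1 := by rw [hq1]; exact Real.exp_pos _
  have h22 : 1 / 4 * Real.exp (-108) ≤ z₀ + Real.exp (-128) := by
    have h1 : q1 * (1 / 4 * Real.exp (-108)) = 1 / 4 * (q1 * Real.exp (-108)) := by ring
    have : q1 * (1 / 4 * Real.exp (-108)) ≤ q1 * (z₀ + Real.exp (-128)) := by rw [h1]; exact h20
    exact le_of_mul_le_mul_left this hq0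
  have h23 : Real.exp (-108) = Real.exp 20 * Real.exp (-128) := by
    rw [← Real.exp_add]; congr 1; norm_num
  have h24 : (21 : ℝ) ≤ Real.exp 20 := by
    have := Real.add_one_le_exp (20 : ℝ)
    linarith
  have h25 : 0 < Real.exp (-128) := Real.exp_pos _
  rw [h23] at h22
  have h26 : 21 * Real.exp (-128) ≤ Real.exp 20 * Real.exp (-128) :=
    mul_le_mul_of_nonneg_right h24 h25.le
  linarith

/-- pairs of separated sets -/
def Far (μ : Measure E) (L D : ℝ) : Prop :=
  ∃ S A : Set E, MeasurableSet S ∧ MeasurableSet A ∧ ENNReal.ofReal (Real.exp (-L)) ≤ μ S ∧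
    ENNReal.ofReal (1 / 2) ≤ μ A ∧ ∀ x ∈ S, ∀ y ∈ A, D ≤ ‖x - y‖

theorem one_step {μ : Measure E} [IsProbabilityMeasure μ] (h : PLm μ) {L D : ℝ} (hL : 72 ≤ L)
    (hD : 0 < D) {S A : Set E} (hS : MeasurableSet S) (hA : MeasurableSet A)
    (hSμ : ENNReal.ofReal (Real.exp (-L)) ≤ μ S) (hAμ : ENNReal.ofReal (1 / 2) ≤ μ A)
    (hsep : ∀ x ∈ S, ∀ y ∈ A, D ≤ ‖x - y‖)
    (hb : ∀ S' ⊆ S, MeasurableSet S' → ENNReal.ofReal (Real.exp (-L) / 2) ≤ μ S' →
      ∀ A' ⊆ A, MeasurableSet A' → ENNReal.ofReal (1 / 4) ≤ μ A' →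
      ∃ x ∈ S', ∃ y ∈ A', ‖x - y‖ ≤ (1 + 4 / L) * D) :
    Real.exp (-128) ≤ μ.real {z | 18 * D / L ≤ Metric.infDist z A} := by
  have hL0 : 0 < L := by linarith
  set l : ℝ := 1 - 36 / L with hl
  have hl1 : l < 1 := by rw [hl]; have : 0 < 36 / L := by positivity
                         linarith
  have hl0 : 1 / 2 ≤ l := by
    rw [hl]
    have : 36 / L ≤ 1 / 2 := by rw [div_le_div_iff₀ hL0 (by norm_num)]; linarith
    linarith
  have hlp : 0 < l := by linarith
  have h1l : 1 - l = 36 / L := by rw [hl]; ring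
  have h1lp : 0 < 1 - l := by linarith
  set s : ℝ := 128 / ((1 - l) ^ 2 * D ^ 2) with hs
  have hs0 : 0 < s := by rw [hs]; positivity
  have hsD : s * (1 - l) ^ 2 * D ^ 2 = 128 := by rw [hs]; field_simp
  set Z : Set E := {z | 18 * D / L ≤ Metric.infDist z A} with hZ
  have mZ : MeasurableSet Z := measurableSet_le measurable_const
    (Metric.continuous_infDist_pt A).measurable
  set z₀ := μ.real Z with hz₀
  have hz0 : 0 ≤ z₀ := measureReal_nonneg
  have h18 : 18 * D / L = (1 - l) * D / 2 := by rw [h1l]; ring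
  -- the bounding function
  set q1 := Real.exp (-(l * (1 - l) * s * D ^ 2)) with hq1
  set Q : E → ℝ≥0∞ := fun z => ENNReal.ofReal q1 *
    (Z.indicator 1 z + ENNReal.ofReal (Real.exp (-128))) with hQ
  have mQ : Measurable Q := by
    apply Measurable.const_mul
    exact (measurable_one.indicator mZ).add_const _
  have hstar := star hs0 h hlp hl1 (F := S.indicator 1) (G := A.indicator 1) (Q := Q)
    (measurable_one.indicator hS) (measurable_one.indicator hA) mQ (by
      intro x y
      by_cases hx : x ∈ S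
      swap
      · simp [hx, ENNReal.zero_rpow_of_pos h1lp]
      by_cases hy : y ∈ A
      swap
      · simp [hy, ENNReal.zero_rpow_of_pos hlp]
      simp only [indicator_of_mem hx, indicator_of_mem hy, Pi.one_apply, ENNReal.one_rpow, one_mul,
        hQ]
      have hxy := hsep x hx y hy
      set z := (1 - l) • x + l • y with hz
      by_cases hzZ : z ∈ Z
      · rw [indicator_of_mem hzZ]
        calc ENNReal.ofReal (Real.exp (-(l * (1 - l) * s * ‖x - y‖ ^ 2)))
            ≤ ENNReal.ofReal q1 := by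
              apply ENNReal.ofReal_le_ofReal
              rw [hq1]
              apply Real.exp_le_exp.mpr
              rw [neg_le_neg_iff]
              have : D ^ 2 ≤ ‖x - y‖ ^ 2 := by gcongr
              gcongr
          _ = ENNReal.ofReal q1 * 1 := by rw [mul_one]
          _ ≤ _ := by
              gcongr
              simp
      · rw [indicator_of_notMem hzZ, zero_add, hq1, ← ENNReal.ofReal_mul (Real.exp_pos _).le,
          ← Real.exp_add]
        apply ENNReal.ofReal_le_ofReal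
        apply Real.exp_le_exp.mpr
        simp only [hZ, mem_ofPred_eq, not_le] at hzZ
        rw [h18, Metric.infDist_lt_iff ⟨y, hy⟩] at hzZ
        obtain ⟨w, hw, hzw⟩ := hzZ
        have h2 := hsep x hx w hw
        have h3 : ‖x - z‖ = l * ‖x - y‖ := by
          have : x - z = l • (x - y) := by rw [hz]; module
          rw [this, norm_smul, Real.norm_eq_abs, abs_of_pos hlp]
        have h4 : ‖x - w‖ ≤ ‖x - z‖ + ‖z - w‖ := by
          have : x - w = (x - z) + (z - w) := by abel
          rw [this]; exact norm_add_le _ _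
        rw [dist_eq_norm] at hzw
        have h5 : D * (1 + l) / 2 ≤ l * ‖x - y‖ := by rw [← h3]; linarith
        have h6 : (D * (1 + l) / 2) ^ 2 ≤ (l * ‖x - y‖) ^ 2 := by gcongr
        -- l (1-l) |x-y|^2 ≥ l(1-l) D^2 + (1-l)^2 D^2
        have h7 : l * (1 - l) * D ^ 2 + (1 - l) ^ 2 * D ^ 2 ≤ l * (1 - l) * ‖x - y‖ ^ 2 := by
          have h8 : l * (l * (1 - l) * D ^ 2 + (1 - l) ^ 2 * D ^ 2) ≤
              (1 - l) * (D * (1 + l) / 2) ^ 2 := by
            have : (1 - l) * (D * (1 + l) / 2) ^ 2 -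
              l * (l * (1 - l) * D ^ 2 + (1 - l) ^ 2 * D ^ 2) =
                (1 - l) * D ^ 2 * (1 - l) ^ 2 / 4 := by ring
            have h9 : 0 ≤ (1 - l) * D ^ 2 * (1 - l) ^ 2 / 4 := by positivity
            linarith
          have h10 : (1 - l) * (D * (1 + l) / 2) ^ 2 ≤ (1 - l) * (l * ‖x - y‖) ^ 2 := by gcongr
          have h11 : l * (l * (1 - l) * D ^ 2 + (1 - l) ^ 2 * D ^ 2) ≤
              l * (l * (1 - l) * ‖x - y‖ ^ 2) := by
            calc _ ≤ _ := h8.trans h10
              _ = _ := by ring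
          exact le_of_mul_le_mul_left h11 hlp
        have h12 : s * (l * (1 - l) * D ^ 2 + (1 - l) ^ 2 * D ^ 2) ≤
            s * (l * (1 - l) * ‖x - y‖ ^ 2) := by gcongr
        nlinarith)
  have hQI : ∫⁻ x, Q x ∂μ = ENNReal.ofReal (q1 * (z₀ + Real.exp (-128))) := by
    simp only [hQ]
    rw [lintegral_const_mul _ ((measurable_one.indicator mZ).add_const _),
      lintegral_add_right _ measurable_const, lintegral_indicator_one mZ, lintegral_const,
      measure_univ, mul_one, ENNReal.ofReal_mul (Real.exp_pos _).le,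
      ENNReal.ofReal_add hz0 (Real.exp_pos _).le, hz₀, ofReal_measureReal]
  rw [hQI] at hstar
  set c := Real.sqrt (-Real.log (1 / 2)) with hc
  have hlow := alpha_low hs0 hS hA hlp hl1 (by positivity) hstar hSμ hAμ hc hb
  have hlog : -Real.log (1 / 2) = Real.log 2 := by
    rw [one_div, Real.log_inv, neg_neg]
  have hc2 : c ^ 2 = Real.log 2 := by
    rw [hc, Real.sq_sqrt (by rw [hlog]; positivity), hlog]
  exact one_step_num hL hD hlp hl1 h1l hs0 hsD (Real.sqrt_nonneg _) hc2 (Real.sqrt_nonneg s)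
    (Real.sq_sqrt hs0.le) hq1 hlow

lemma Far.mono {μ : Measure E} {L D D' : ℝ} (h : Far μ L D) (hD : D' ≤ D) : Far μ L D' := by
  obtain ⟨S, A, h1, h2, h3, h4, h5⟩ := h
  exact ⟨S, A, h1, h2, h3, h4, fun x hx y hy => hD.trans (h5 x hx y hy)⟩

/-- the scale of concentration -/
noncomputable def kap (M : ℝ) : ℝ := Real.exp 64 * Real.sqrt M

lemma three_le : (3 : ℝ) ≤ Real.exp 64 := by
  have := Real.add_one_le_exp (64 : ℝ)
  linarith

/-- the admissible additive error -/
noncomputable def eta0 : ℝ := Real.exp (-200)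

lemma eta0_pos : 0 < eta0 := Real.exp_pos _

lemma eta0_le : 4 * eta0 ≤ Real.exp (-128) := by
  unfold eta0
  have h1 : Real.exp (-128) = Real.exp 72 * Real.exp (-200) := by
    rw [← Real.exp_add]; congr 1; norm_num
  have h2 := Real.add_one_le_exp (72 : ℝ)
  have h3 : 0 < Real.exp (-200) := Real.exp_pos _
  rw [h1]
  apply mul_le_mul_of_nonneg_right _ h3.le
  linarith

theorem far_grow {μ : Measure E} [IsProbabilityMeasure μ] (h : PLm μ) {M : ℝ} (hM : 0 < M)
    (hv : LVe μ M eta0) {L D : ℝ} (hL : 72 ≤ L) (hD : kap M * L ≤ D) (hF : Far μ L D) :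
    Far μ (L + Real.log 2) ((1 + 3 / L) * D) := by
  by_contra hcon
  obtain ⟨S, A, hS, hA, hSμ, hAμ, hsep⟩ := hF
  have hL0 : 0 < L := by linarith
  have hsM : 0 < Real.sqrt M := Real.sqrt_pos.mpr hM
  have hk3 : 3 * Real.sqrt M ≤ kap M := by
    unfold kap
    exact mul_le_mul_of_nonneg_right three_le hsM.le
  have hk0 : 0 < kap M := by linarith
  have hD0 : 0 < D := lt_of_lt_of_le (by positivity) hD
  have hA2 : 1 / 2 ≤ μ.real A := by
    have := (ENNReal.ofReal_le_iff_le_toReal (measure_ne_top μ A)).mp hAμ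
    exact this
  have hb : ∀ S' ⊆ S, MeasurableSet S' → ENNReal.ofReal (Real.exp (-L) / 2) ≤ μ S' →
      ∀ A' ⊆ A, MeasurableSet A' → ENNReal.ofReal (1 / 4) ≤ μ A' →
      ∃ x ∈ S', ∃ y ∈ A', ‖x - y‖ ≤ (1 + 4 / L) * D := by
    intro S' hS'S mS' hS' A' hA'A mA' hA'
    set r := 3 * Real.sqrt M with hr
    have hr0 : 0 < r := by positivity
    set A'' := Metric.thickening r A' with hA''
    have mA'' : MeasurableSet A'' := Metric.isOpen_thickening.measurableSet
    have hA'4 : 1 / 4 ≤ μ.real A' := (ENNReal.ofReal_le_iff_le_toReal (measure_ne_top μ A')).mp hA'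
    have hbig : ENNReal.ofReal (1 / 2) ≤ μ A'' := by
      rw [ENNReal.ofReal_le_iff_le_toReal (measure_ne_top μ A'')]
      by_contra hlt
      push Not at hlt
      have h1 : 1 / 2 ≤ μ.real A''ᶜ := by
        rw [probReal_compl_eq_one_sub mA'']
        have : μ.real A'' < 1 / 2 := hlt
        linarith
      have h2 := cheb hM.le eta0_pos.le hv mA' mA''.compl hr0 (by
        intro x hx y hy
        by_contra hlt'
        push Not at hlt'
        apply hy
        rw [hA'', Metric.mem_thickening_iff]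
        exact ⟨x, hx, by rw [dist_eq_norm, norm_sub_rev]; exact hlt'⟩)
      have h3 : r ^ 2 = 9 * M := by rw [hr, mul_pow, Real.sq_sqrt hM.le]; norm_num
      have h4 : (1 / 4 : ℝ) * (1 / 2) ≤ μ.real A' * μ.real A''ᶜ :=
        mul_le_mul hA'4 h1 (by norm_num) measureReal_nonneg
      rw [h3] at h2
      have h5 : 9 * M * (1 / 4 * (1 / 2)) ≤ 9 * M * (μ.real A' * μ.real A''ᶜ) := by gcongr
      have h6 : eta0 ≤ 1 / 90 := by
        have h7 := eta0_le
        have h8 : Real.exp (-128) ≤ 1 / 129 := by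
          rw [Real.exp_neg, inv_eq_one_div]
          apply one_div_le_one_div_of_le (by norm_num)
          have := Real.add_one_le_exp (128 : ℝ)
          linarith
        linarith
      have h7 : eta0 * (9 * M) ≤ 1 / 90 * (9 * M) := by gcongr
      linarith
    by_contra hno
    push Not at hno
    apply hcon
    refine ⟨S', A'', mS', mA'', ?_, hbig, ?_⟩
    · have : Real.exp (-(L + Real.log 2)) = Real.exp (-L) / 2 := by
        rw [neg_add, Real.exp_add, Real.exp_neg (Real.log 2), Real.exp_log (by norm_num)]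
        ring
      rw [this]
      exact hS'
    · intro x hx y hy
      by_contra hlt
      push Not at hlt
      rw [hA'', Metric.mem_thickening_iff] at hy
      obtain ⟨w, hw, hyw⟩ := hy
      have h1 := hno x hx w hw
      rw [dist_eq_norm] at hyw
      have h2 : ‖x - w‖ ≤ ‖x - y‖ + ‖y - w‖ := by
        have : x - w = (x - y) + (y - w) := by abel
        rw [this]; exact norm_add_le _ _
      have h3 : r ≤ D / L := by
        rw [le_div_iff₀ hL0]
        exact (mul_le_mul_of_nonneg_right hk3 hL0.le).trans hD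
      have h4 : (1 + 4 / L) * D = (1 + 3 / L) * D + D / L := by field_simp; ring
      linarith
  have h1 := one_step h hL hD0 hS hA hSμ hAμ hsep hb
  set Z : Set E := {z | 18 * D / L ≤ Metric.infDist z A} with hZ
  have mZ : MeasurableSet Z := measurableSet_le measurable_const
    (Metric.continuous_infDist_pt A).measurable
  have h2 := cheb hM.le eta0_pos.le hv mZ hA (D := 18 * D / L) (by positivity) (by
    intro x hx y hy
    have h3 : Metric.infDist x A ≤ dist x y := Metric.infDist_le_dist_of_mem hy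
    rw [dist_eq_norm] at h3
    exact le_trans hx h3)
  have h3 : 18 * kap M ≤ 18 * D / L := by
    rw [le_div_iff₀ hL0]
    linarith
  have h4 : (18 * kap M) ^ 2 ≤ (18 * D / L) ^ 2 := by gcongr
  have h5 : (kap M) ^ 2 = Real.exp 128 * M := by
    unfold kap
    rw [mul_pow, Real.sq_sqrt hM.le, ← Real.exp_nat_mul]
    norm_num
  have h6 : Real.exp (-128) * (1 / 2) ≤ μ.real Z * μ.real A :=
    mul_le_mul h1 hA2 (by norm_num) measureReal_nonneg
  have hη := eta0_le
  have h6' : Real.exp (-128) * (1 / 4) ≤ μ.real Z * μ.real A - eta0 := by linarith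
  have h7 : (18 * kap M) ^ 2 * (Real.exp (-128) * (1 / 4)) ≤
      (18 * D / L) ^ 2 * (μ.real Z * μ.real A - eta0) :=
    mul_le_mul h4 h6' (by positivity) (by positivity)
  have h8 : Real.exp 128 * Real.exp (-128) = 1 := by rw [← Real.exp_add]; simp
  have h9 : (18 * kap M) ^ 2 * (Real.exp (-128) * (1 / 4)) = 81 * M := by
    rw [mul_pow, h5]
    calc (18 : ℝ) ^ 2 * (Real.exp 128 * M) * (Real.exp (-128) * (1 / 4)) =
        81 * M * (Real.exp 128 * Real.exp (-128)) := by ring
      _ = _ := by rw [h8]; ring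
  have h10 : (18 * D / L) ^ 2 * (μ.real Z * μ.real A - eta0) =
      (18 * D / L) ^ 2 * (μ.real Z * μ.real A) - eta0 * (18 * D / L) ^ 2 := by ring
  linarith

/-- exponential concentration -/
theorem conc {μ : Measure E} [IsProbabilityMeasure μ] (h : PLm μ) {M : ℝ} (hM : 0 < M)
    (hv : LVe μ M eta0) {L : ℝ} (hL : 72 ≤ L) : ¬ Far μ L (kap M * L) := by
  intro hF
  have hL0 : 0 < L := by linarith
  have hk0 : 0 < kap M := by unfold kap; positivity
  set a := kap M / L with ha
  have ha0 : 0 < a := by positivity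
  have hlog0 : 0 < Real.log 2 := Real.log_pos (by norm_num)
  have hlog1 := Real.log_two_lt_d9
  have key : ∀ k : ℕ, Far μ (L + k * Real.log 2) (a * (L + k * Real.log 2) ^ 2) := by
    intro k
    induction k with
    | zero =>
      simp only [Nat.cast_zero, zero_mul, add_zero]
      have : a * L ^ 2 = kap M * L := by rw [ha]; field_simp
      rw [this]
      exact hF
    | succ k ih =>
      set L' := L + k * Real.log 2 with hL'
      have hLL' : L ≤ L' := by
        rw [hL']
        have : 0 ≤ (k : ℝ) * Real.log 2 := by positivity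
        linarith
      have hL'0 : 0 < L' := by linarith
      have h1 := far_grow h hM hv (L := L') (by linarith) (by
        have : kap M * L' ≤ a * L' ^ 2 := by
          have h2 : kap M = a * L := by rw [ha]; field_simp
          rw [h2]
          calc a * L * L' ≤ a * L' * L' := by gcongr
            _ = _ := by ring
        exact this) ih
      have e : L + ((k + 1 : ℕ) : ℝ) * Real.log 2 = L' + Real.log 2 := by
        rw [hL']; push_cast; ring
      rw [e]
      refine h1.mono ?_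
      have h2 : (1 + 3 / L') * (a * L' ^ 2) = a * (L' ^ 2 + 3 * L') := by field_simp
      rw [h2]
      apply mul_le_mul_of_nonneg_left _ ha0.le
      nlinarith
  obtain ⟨c, hc, htail⟩ := h.tail
  have hbound : ∀ k : ℕ, a * (L + k * Real.log 2) ≤ 4 * c := by
    intro k
    obtain ⟨S, A, hS, hA, hSμ, hAμ, hsep⟩ := key k
    set L' := L + k * Real.log 2 with hL'
    have hLL' : L ≤ L' := by
      rw [hL']
      have : 0 ≤ (k : ℝ) * Real.log 2 := by positivity
      linarith
    have hL'0 : 0 < L' := by linarith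
    obtain ⟨x, hx, hxn⟩ := htail L' hL'0.le S hSμ
    obtain ⟨y, hy, hyn⟩ := htail L' hL'0.le A (by
      refine le_trans ?_ hAμ
      apply ENNReal.ofReal_le_ofReal
      have h1 : Real.exp (-L') ≤ Real.exp (-Real.log 2) := by
        apply Real.exp_le_exp.mpr
        linarith
      rw [Real.exp_neg (Real.log 2), Real.exp_log (by norm_num)] at h1
      linarith)
    have h1 := hsep x hx y hy
    have h2 : ‖x - y‖ ≤ ‖x‖ + ‖y‖ := norm_sub_le _ _
    have h3 : a * L' ^ 2 ≤ 4 * c * L' := by nlinarith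
    have h4 : L' * (a * L') ≤ L' * (4 * c) := by linarith
    exact le_of_mul_le_mul_left h4 hL'0
  obtain ⟨k, hk⟩ := exists_nat_gt (4 * c / (a * Real.log 2))
  have h1 := hbound k
  rw [div_lt_iff₀ (by positivity)] at hk
  have h2 : 0 < a * L := by positivity
  linarith

end Pool.Agent.Lib.MP_6d896a_gt.FP
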