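import Mathlib
import Pool.Agent.Lib.MP_6d896a_gt.FP.Conc

/-!
Small sets lose a fixed proportion of their mass through the Gaussian channel.
-/

set_option autoImplicit false

namespace Pool.Agent.Lib.MP_6d896a_gt.FP

open MeasureTheory ProbabilityTheory Set Filter
open scoped ENNReal Topology

variable {E : Type*} [NormedAddCommGroup E] [InnerProductSpace ℝ E] [FiniteDimensional ℝ E]
  [MeasurableSpace E] [BorelSpace E]

lemma ofReal_gk_le {s : ℝ} (hs : 0 < s) (z : E) :
    ENNReal.ofReal (gk s z) ≤ ENNReal.ofReal (gZ E s)⁻¹ := by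
  apply ENNReal.ofReal_le_ofReal
  unfold gk
  have hZ := gZ_pos (E := E) hs
  apply mul_le_of_le_one_right (by positivity)
  apply Real.exp_le_one_iff.mpr
  nlinarith [sq_nonneg ‖z‖]

lemma qE_ne_top {s : ℝ} (hs : 0 < s) {μ : Measure E} [IsFiniteMeasure μ] {F : E → ℝ≥0∞}
    (hF : ∀ x, F x ≤ 1) (a : E) : qE s μ F a ≠ ∞ := by
  unfold qE
  refine ne_top_of_le_ne_top (b := ENNReal.ofReal (gZ E s)⁻¹ * μ univ)
    (ENNReal.mul_ne_top ENNReal.ofReal_ne_top (measure_ne_top _ _)) ?_
  calc ∫⁻ x, F x * ENNReal.ofReal (gk s (a - x)) ∂μ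
      ≤ ∫⁻ _, ENNReal.ofReal (gZ E s)⁻¹ ∂μ := by
        apply lintegral_mono
        intro x
        calc F x * ENNReal.ofReal (gk s (a - x)) ≤ 1 * ENNReal.ofReal (gZ E s)⁻¹ :=
              mul_le_mul' (hF x) (ofReal_gk_le hs _)
          _ = _ := one_mul _
    _ = _ := by rw [lintegral_const]

lemma qE_one_pos {s : ℝ} (hs : 0 < s) {μ : Measure E} [IsProbabilityMeasure μ] (a : E) :
    qE s μ (fun _ => 1) a ≠ 0 := by
  unfold qE
  intro h0
  simp only [one_mul] at h0
  rw [lintegral_eq_zero_iff (gk_meas' s a)] at h0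
  have h1 : ∀ᵐ x ∂μ, False := by
    filter_upwards [h0] with x hx
    simp only [Pi.zero_apply, ENNReal.ofReal_eq_zero] at hx
    exact absurd (gk_pos hs (a - x)) (not_lt.mpr hx)
  rw [ae_iff] at h1
  simp at h1

lemma qE_add {s : ℝ} {μ : Measure E} {F G : E → ℝ≥0∞} (hF : Measurable F) (a : E) :
    qE s μ F a + qE s μ G a = qE s μ (fun x => F x + G x) a := by
  unfold qE
  have hm : Measurable (fun x => F x * ENNReal.ofReal (gk s (a - x))) := hF.mul (gk_meas' s a)
  rw [← lintegral_add_left hm]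
  apply lintegral_congr
  intro x
  ring

lemma qE_split {s : ℝ} {μ : Measure E} {S : Set E} (hS : MeasurableSet S) (a : E) :
    qE s μ (S.indicator 1) a + qE s μ (Sᶜ.indicator 1) a = qE s μ (fun _ => 1) a := by
  rw [qE_add (measurable_one.indicator hS)]
  congr 1
  funext x
  by_cases hx : x ∈ S <;> simp [hx]

/-- constants for the argument on small sets -/
lemma small_num {κ L : ℝ} (hκ : 0 < κ) (hL : 72 ≤ L) {d : ℝ}
    (hd0 : 0 ≤ d) (hd : d ≤ κ * (L + Real.log 16)) :
    4 * Real.exp (-L / 2) < Real.exp (-(Real.sqrt (1 / (32 * κ ^ 2 * L)) * d +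
      Real.sqrt (-Real.log (1 / 4))) ^ 2) := by
  have hL0 : 0 < L := by linarith
  set r := Real.sqrt (1 / (32 * κ ^ 2 * L)) with hr
  set c := Real.sqrt (-Real.log (1 / 4)) with hc
  have hr2 : r ^ 2 = 1 / (32 * κ ^ 2 * L) := Real.sq_sqrt (by positivity)
  have hlog2 := Real.log_two_lt_d9
  have hlog2' := Real.log_two_gt_d9
  have hlog4 : Real.log 4 = 2 * Real.log 2 := by
    rw [show (4 : ℝ) = 2 ^ 2 by norm_num, Real.log_pow]; norm_num
  have hlog16 : Real.log 16 = 4 * Real.log 2 := by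
    rw [show (16 : ℝ) = 2 ^ 4 by norm_num, Real.log_pow]; norm_num
  have hl : -Real.log (1 / 4) = Real.log 4 := by rw [one_div, Real.log_inv, neg_neg]
  have hc2 : c ^ 2 = Real.log 4 := by rw [hc, Real.sq_sqrt (by rw [hl]; positivity), hl]
  have h1 : (r * d + c) ^ 2 ≤ 2 * (r * d) ^ 2 + 2 * c ^ 2 := by nlinarith [sq_nonneg (r * d - c)]
  have h2 : (r * d) ^ 2 ≤ L / 16 := by
    have h3 : L + Real.log 16 ≤ 2 ^ (1 / 2 : ℝ) * L := by
      rw [← Real.sqrt_eq_rpow]
      have h4 : (1.4 : ℝ) ≤ Real.sqrt 2 := by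
        apply Real.le_sqrt_of_sq_le; norm_num
      have h5 : 1.4 * L ≤ Real.sqrt 2 * L := by gcongr
      rw [hlog16]
      linarith
    have h6 : d ^ 2 ≤ (κ * (2 ^ (1 / 2 : ℝ) * L)) ^ 2 := by
      have : d ≤ κ * (2 ^ (1 / 2 : ℝ) * L) := hd.trans (by gcongr)
      gcongr
    have h7 : (κ * (2 ^ (1 / 2 : ℝ) * L)) ^ 2 = 2 * κ ^ 2 * L ^ 2 := by
      rw [mul_pow, mul_pow, ← Real.sqrt_eq_rpow, Real.sq_sqrt (by norm_num)]; ring
    rw [mul_pow, hr2]
    calc 1 / (32 * κ ^ 2 * L) * d ^ 2 ≤ 1 / (32 * κ ^ 2 * L) * (2 * κ ^ 2 * L ^ 2) := by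
          rw [← h7]; gcongr
      _ = L / 16 := by field_simp; norm_num
  have h4e : (4 : ℝ) = Real.exp (Real.log 4) := (Real.exp_log (by norm_num)).symm
  rw [h4e, ← Real.exp_add]
  apply Real.exp_lt_exp.mpr
  rw [hlog4]
  rw [hc2, hlog4] at h1
  linarith

theorem small_sets {μ : Measure E} [IsProbabilityMeasure μ] (h : PLm μ) {M : ℝ} (hM : 0 < M)
    (hv : LVe μ M eta0) {s₁ : ℝ} (hs₁ : 0 < s₁) (hs₁' : 640 * kap M ^ 2 * s₁ ≤ 1) {S : Set E}
    (hS : MeasurableSet S) {L : ℝ} (hL : 72 ≤ L) (hSL : μ S = ENNReal.ofReal (Real.exp (-L))) :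
    ENNReal.ofReal (1 / 64) * μ S ≤
      ∫⁻ a, qE s₁ μ (S.indicator 1) a * (qE s₁ μ (Sᶜ.indicator 1) a / qE s₁ μ (fun _ => 1) a) := by
  by_contra hcon
  push Not at hcon
  set ε := Real.exp (-L) with hε
  have hε0 : 0 < ε := Real.exp_pos _
  have hL0 : 0 < L := by linarith
  have hκ : 0 < kap M := by unfold kap; positivity
  set κ := kap M with hκd
  set qS := qE s₁ μ (S.indicator 1) with hqS
  set qC := qE s₁ μ (Sᶜ.indicator 1) with hqC
  set q1 := qE s₁ μ (fun _ => 1) with hq1
  have mS : Measurable qS := qE_measurable (measurable_one.indicator hS)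
  have mC : Measurable qC := qE_measurable (measurable_one.indicator hS.compl)
  have m1 : Measurable q1 := qE_measurable measurable_const
  have hsplit : ∀ a, qS a + qC a = q1 a := fun a => qE_split hS a
  have hq1t : ∀ a, q1 a ≠ ∞ := fun a => qE_ne_top hs₁ (fun _ => le_rfl) a
  have hq10 : ∀ a, q1 a ≠ 0 := fun a => qE_one_pos hs₁ a
  have hqSt : ∀ a, qS a ≠ ∞ := fun a => ne_top_of_le_ne_top (hq1t a) (by
    rw [← hsplit a]; exact le_self_add)
  set T : Set E := {a | q1 a ≤ 2 * qS a} with hT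
  have mT : MeasurableSet T := measurableSet_le m1 (mS.const_mul _)
  rw [hSL, ← ENNReal.ofReal_mul (by norm_num)] at hcon
  -- step 3
  have h3 : ∫⁻ x in S, prE s₁ Tᶜ x ∂μ ≤ ENNReal.ofReal (1 / 8 * (ε / 4)) := by
    have e1 := lint_qE_set (s := s₁) (μ := μ) (measurable_one.indicator hS) mT.compl
    have e2 : ∀ x, S.indicator (1 : E → ℝ≥0∞) x * prE s₁ Tᶜ x = S.indicator (prE s₁ Tᶜ) x := by
      intro x
      by_cases hx : x ∈ S <;> simp [hx]
    simp only [e2] at e1
    rw [lintegral_indicator hS] at e1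
    rw [← e1]
    calc ∫⁻ a in Tᶜ, qS a ≤ ∫⁻ a in Tᶜ, 2 * (qS a * (qC a / q1 a)) := by
          apply setLIntegral_mono' mT.compl
          intro a ha
          simp only [hT, mem_compl_iff, mem_ofPred_eq, not_le] at ha
          have h4 : q1 a ≤ 2 * qC a := by
            rw [← hsplit a, two_mul] at ha
            have h5 : qS a < qC a := (ENNReal.add_lt_add_iff_left (hqSt a)).mp ha
            rw [← hsplit a, two_mul]
            gcongr
          have h6 : 1 ≤ 2 * (qC a / q1 a) := by
            rw [← mul_div_assoc, ENNReal.le_div_iff_mul_le (Or.inl (hq10 a)) (Or.inl (hq1t a)),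
              one_mul]
            exact h4
          calc qS a = qS a * 1 := (mul_one _).symm
            _ ≤ qS a * (2 * (qC a / q1 a)) := by gcongr
            _ = _ := by ring
      _ ≤ ∫⁻ a, 2 * (qS a * (qC a / q1 a)) := setLIntegral_le_lintegral _ _
      _ = 2 * ∫⁻ a, qS a * (qC a / q1 a) := lintegral_const_mul _ (mS.mul (mC.div m1))
      _ ≤ 2 * ENNReal.ofReal (1 / 64 * ε) := by gcongr
      _ = _ := by
        have : (2 : ℝ≥0∞) = ENNReal.ofReal 2 := by norm_num
        rw [this, ← ENNReal.ofReal_mul (by norm_num)]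
        congr 1; ring
  -- step 4
  have h4 := markov_sub (μ := μ) hS (prE_measurable (s := s₁) mT.compl) (m := ε / 4) (t := 1 / 8)
    (by norm_num) h3 (M := ENNReal.ofReal (3 / 4 * ε)) (by
      rw [← ENNReal.ofReal_add (by positivity) (by positivity), hSL]
      apply ENNReal.ofReal_le_ofReal
      linarith)
  set S0 := S ∩ {x | prE s₁ Tᶜ x ≤ ENNReal.ofReal (1 / 8)} with hS0
  have mS0 : MeasurableSet S0 := hS.inter (measurableSet_le (prE_measurable mT.compl)
    measurable_const)
  set u : E → ℝ≥0∞ := prE s₁ T with hu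
  have mu : Measurable u := prE_measurable mT
  have hu1 : ∀ x, u x ≤ 1 := prE_le_one hs₁ T
  have h5 : ∀ x ∈ S0, ENNReal.ofReal (7 / 8) ≤ u x := by
    intro x hx
    have h6 := prE_compl hs₁ mT x
    have h7 : prE s₁ Tᶜ x ≤ ENNReal.ofReal (1 / 8) := hx.2
    have h8 : ENNReal.ofReal (7 / 8) + ENNReal.ofReal (1 / 8) ≤ u x + ENNReal.ofReal (1 / 8) := by
      rw [← ENNReal.ofReal_add (by norm_num) (by norm_num)]
      calc ENNReal.ofReal (7 / 8 + 1 / 8) = 1 := by norm_num
        _ = u x + prE s₁ Tᶜ x := h6.symm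
        _ ≤ _ := by gcongr
    exact (ENNReal.add_le_add_iff_right ENNReal.ofReal_ne_top).mp h8
  have h6 : ∫⁻ x, u x ∂μ ≤ ENNReal.ofReal (2 * ε) := by
    have e1 := lint_qE_set (s := s₁) (μ := μ) (F := fun _ => 1) measurable_const mT
    simp only [one_mul] at e1
    rw [hu, ← e1]
    calc ∫⁻ a in T, q1 a ≤ ∫⁻ a in T, 2 * qS a := setLIntegral_mono' mT (fun a ha => ha)
      _ ≤ ∫⁻ a, 2 * qS a := setLIntegral_le_lintegral _ _
      _ = 2 * ∫⁻ a, qS a := lintegral_const_mul _ mS
      _ = 2 * μ S := by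
        rw [lint_qE_one hs₁ (measurable_one.indicator hS), lintegral_indicator_one hS]
      _ ≤ _ := by
        rw [hSL, ENNReal.ofReal_mul (by norm_num)]
        norm_num
  -- step 7
  set s := 1 / (32 * κ ^ 2 * L) with hs
  have hs0 : 0 < s := by positivity
  set l := 5 / L with hl
  have hl0 : 0 < l := by positivity
  have hl4 : l ≤ 1 / 4 := by rw [hl, div_le_div_iff₀ hL0 (by norm_num)]; linarith
  have hl1 : l < 1 := by linarith
  set f : E → ℝ≥0∞ := fun x => u x ^ (2 : ℝ) with hf
  have mf : Measurable f := mu.pow_const _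
  have hf1 : ∀ x, f x ≤ 1 := fun x => ENNReal.rpow_le_one (hu1 x) (by norm_num)
  have h7 := star hs0 h hl0 hl1 (F := f) (G := fun _ => 1) (Q := u) mf measurable_const mu (by
    intro x y
    rw [ENNReal.one_rpow, mul_one]
    set z := (1 - l) • x + l • y with hz
    set p := 2 * (1 - l) with hp
    have hp1 : 1 < p := by rw [hp]; linarith
    have h8 := harnack hs₁ hp1 T mT x z
    have h9 : f x ^ (1 - l) = u x ^ p := by
      rw [hf, ← ENNReal.rpow_mul, hp]
    have h10 : ‖x - z‖ = l * ‖x - y‖ := by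
      have : x - z = l • (x - y) := by rw [hz]; module
      rw [this, norm_smul, Real.norm_eq_abs, abs_of_pos hl0]
    rw [h9]
    calc u x ^ p * ENNReal.ofReal (Real.exp (-(l * (1 - l) * s * ‖x - y‖ ^ 2)))
        ≤ (u z * ENNReal.ofReal (Real.exp (p * s₁ * ‖x - z‖ ^ 2 / (p - 1)))) *
          ENNReal.ofReal (Real.exp (-(l * (1 - l) * s * ‖x - y‖ ^ 2))) := by gcongr
      _ ≤ u z * 1 := by
        rw [mul_assoc, ← ENNReal.ofReal_mul (Real.exp_pos _).le, ← Real.exp_add]
        gcongr
        rw [← ENNReal.ofReal_one]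
        apply ENNReal.ofReal_le_ofReal
        apply Real.exp_le_one_iff.mpr
        rw [h10]
        have h11 : p * s₁ * (l * ‖x - y‖) ^ 2 / (p - 1) ≤ l * (1 - l) * s * ‖x - y‖ ^ 2 := by
          have hp1' : 0 < p - 1 := by linarith
          rw [div_le_iff₀ hp1']
          have h12 : p * s₁ * (l * ‖x - y‖) ^ 2 = (l * (1 - l) * ‖x - y‖ ^ 2) * (2 * l * s₁) := by
            rw [hp]; ring
          have h13 : l * (1 - l) * s * ‖x - y‖ ^ 2 * (p - 1) =
              (l * (1 - l) * ‖x - y‖ ^ 2) * (s * (p - 1)) := by ring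
          rw [h12, h13]
          have h1l : 0 ≤ 1 - l := by linarith
          apply mul_le_mul_of_nonneg_left _ (by positivity)
          have h14 : 2 * l * s₁ ≤ s / 2 := by
            rw [hl, hs]
            have h15 : s₁ ≤ 1 / (640 * κ ^ 2) := by
              rw [le_div_iff₀ (by positivity)]
              linarith
            calc 2 * (5 / L) * s₁ ≤ 2 * (5 / L) * (1 / (640 * κ ^ 2)) := by gcongr
              _ = 1 / (32 * κ ^ 2 * L) / 2 := by field_simp; norm_num
          have h16 : 1 / 2 ≤ p - 1 := by rw [hp]; linarith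
          have h17 : s * (1 / 2) ≤ s * (p - 1) := by gcongr
          linarith
        linarith
      _ = u z := mul_one _)
  set qf := qE s μ f with hqf
  set r1 := qE s μ (fun _ => 1) with hr1
  have mqf : Measurable qf := qE_measurable mf
  have mr1 : Measurable r1 := qE_measurable measurable_const
  -- step 8
  set e2 := Real.exp (-L / 2) with he2
  have he20 : 0 < e2 := Real.exp_pos _
  set T2 : Set E := {a | ENNReal.ofReal e2 * r1 a < qf a} with hT2
  have mT2 : MeasurableSet T2 := measurableSet_lt (mr1.const_mul _) mqf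
  have h8 : ∫⁻ x, prE s T2 x ∂μ ≤ ENNReal.ofReal (4 * e2 * (1 / 2)) := by
    have e1 := lint_qE_set (s := s) (μ := μ) (F := fun _ => 1) measurable_const mT2
    simp only [one_mul] at e1
    rw [← e1]
    have h9 : ENNReal.ofReal e2 * ∫⁻ a in T2, r1 a ≤ ENNReal.ofReal (2 * ε) := by
      rw [← lintegral_const_mul _ mr1]
      calc ∫⁻ a in T2, ENNReal.ofReal e2 * r1 a ≤ ∫⁻ a in T2, qf a :=
            setLIntegral_mono' mT2 (fun a ha => le_of_lt ha)
        _ ≤ ∫⁻ a, qf a := setLIntegral_le_lintegral _ _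
        _ = ∫⁻ x, f x ∂μ := lint_qE_one hs0 mf
        _ ≤ ∫⁻ x, u x ∂μ := by
          apply lintegral_mono
          intro x
          simp only [hf]
          calc u x ^ (2 : ℝ) ≤ u x ^ (1 : ℝ) :=
                ENNReal.rpow_le_rpow_of_exponent_ge (hu1 x) (by norm_num)
            _ = u x := ENNReal.rpow_one _
        _ ≤ _ := h6
    have h10 : ENNReal.ofReal (2 * ε) = ENNReal.ofReal e2 * ENNReal.ofReal (4 * e2 * (1 / 2)) := by
      rw [← ENNReal.ofReal_mul he20.le]
      congr 1
      have : ε = e2 * e2 := by rw [hε, he2, ← Real.exp_add]; congr 1; ring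
      rw [this]; ring
    rw [h10] at h9
    exact (ENNReal.mul_le_mul_iff_right (by simp [he20]) ENNReal.ofReal_ne_top).mp h9
  have hA2 := markov_sub (μ := μ) MeasurableSet.univ (prE_measurable (s := s) mT2) (m := 1 / 2)
    (t := 4 * e2) (by positivity) (by rw [Measure.restrict_univ]; exact h8)
    (M := ENNReal.ofReal (1 / 2)) (by
      rw [← ENNReal.ofReal_add (by norm_num) (by norm_num), measure_univ]
      norm_num)
  set S2 : Set E := {x | ENNReal.ofReal (1 / 4) ≤ prE s T2 x} with hS2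
  have mS2 : MeasurableSet S2 := measurableSet_le measurable_const (prE_measurable mT2)
  have h9 : μ S2 ≤ ENNReal.ofReal (ε / 16) := by
    by_contra hbig
    push Not at hbig
    have hlog16 : 0 < Real.log 16 := Real.log_pos (by norm_num)
    apply conc h hM hv (L := L + Real.log 16) (by linarith)
    refine ⟨S2, _, mS2, MeasurableSet.univ.inter (measurableSet_le (prE_measurable mT2)
      measurable_const), ?_, hA2, ?_⟩
    · have : Real.exp (-(L + Real.log 16)) = ε / 16 := by
        rw [neg_add, Real.exp_add, Real.exp_neg (Real.log 16), Real.exp_log (by norm_num)]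
        ring
      rw [this]
      exact hbig.le
    · intro x hx y hy
      by_contra hlt
      push Not at hlt
      have h10 := (harnack_low hs0 (by norm_num) (by norm_num) mT2 hx (z := y)).trans hy.2
      rw [ENNReal.ofReal_le_ofReal_iff (by positivity)] at h10
      have h11 := small_num hκ hL (norm_nonneg (x - y)) hlt.le
      linarith
  -- step 9
  have h10 : ENNReal.ofReal (11 / 16 * ε) ≤ μ (S0 \ S2) := by
    have h11 : μ S0 ≤ μ (S0 \ S2) + μ S2 := by
      calc μ S0 ≤ μ ((S0 \ S2) ∪ S2) := measure_mono (by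
            intro x hx
            by_cases hx2 : x ∈ S2
            · exact Or.inr hx2
            · exact Or.inl ⟨hx, hx2⟩)
        _ ≤ _ := measure_union_le _ _
    have h12 : ENNReal.ofReal (11 / 16 * ε) + ENNReal.ofReal (ε / 16) ≤
        μ (S0 \ S2) + ENNReal.ofReal (ε / 16) := by
      rw [← ENNReal.ofReal_add (by positivity) (by positivity)]
      calc ENNReal.ofReal (11 / 16 * ε + ε / 16) = ENNReal.ofReal (3 / 4 * ε) := by
            congr 1; ring
        _ ≤ μ S0 := h4
        _ ≤ _ := h11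
        _ ≤ _ := by gcongr
    exact (ENNReal.add_le_add_iff_right ENNReal.ofReal_ne_top).mp h12
  have h11 : ENNReal.ofReal (3 / 8 * ε) ≤ ∫⁻ a in T2ᶜ, qf a := by
    rw [hqf, lint_qE_set mf mT2.compl]
    calc ENNReal.ofReal (3 / 8 * ε) ≤ ENNReal.ofReal (9 / 16) * ENNReal.ofReal (11 / 16 * ε) := by
          rw [← ENNReal.ofReal_mul (by norm_num)]
          apply ENNReal.ofReal_le_ofReal
          linarith
      _ ≤ ENNReal.ofReal (9 / 16) * μ (S0 \ S2) := by gcongr
      _ = ∫⁻ _ in S0 \ S2, ENNReal.ofReal (9 / 16) ∂μ := by rw [setLIntegral_const]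
      _ ≤ ∫⁻ x in S0 \ S2, f x * prE s T2ᶜ x ∂μ := by
          apply setLIntegral_mono' (mS0.diff mS2)
          intro x hx
          have h12 : ENNReal.ofReal (3 / 4) ≤ f x := by
            simp only [hf]
            calc ENNReal.ofReal (3 / 4) ≤ ENNReal.ofReal ((7 / 8) ^ (2 : ℝ)) := by
                  apply ENNReal.ofReal_le_ofReal; norm_num
              _ = ENNReal.ofReal (7 / 8) ^ (2 : ℝ) := by
                  rw [ENNReal.ofReal_rpow_of_pos (by norm_num)]
              _ ≤ _ := ENNReal.rpow_le_rpow (h5 x hx.1) (by norm_num)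
          have h13 : ENNReal.ofReal (3 / 4) ≤ prE s T2ᶜ x := by
            have h14 := prE_compl hs0 mT2 x
            have h15 : prE s T2 x ≤ ENNReal.ofReal (1 / 4) := by
              have := hx.2
              simp only [hS2, mem_ofPred_eq, not_le] at this
              exact this.le
            have h16 : ENNReal.ofReal (3 / 4) + ENNReal.ofReal (1 / 4) ≤
                prE s T2ᶜ x + ENNReal.ofReal (1 / 4) := by
              rw [← ENNReal.ofReal_add (by norm_num) (by norm_num)]
              calc ENNReal.ofReal (3 / 4 + 1 / 4) = 1 := by norm_num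
                _ = prE s T2 x + prE s T2ᶜ x := h14.symm
                _ = prE s T2ᶜ x + prE s T2 x := add_comm _ _
                _ ≤ _ := by gcongr
            exact (ENNReal.add_le_add_iff_right ENNReal.ofReal_ne_top).mp h16
          calc ENNReal.ofReal (9 / 16) = ENNReal.ofReal (3 / 4) * ENNReal.ofReal (3 / 4) := by
                rw [← ENNReal.ofReal_mul (by norm_num)]; congr 1; norm_num
            _ ≤ _ := mul_le_mul' h12 h13
      _ ≤ ∫⁻ x, f x * prE s T2ᶜ x ∂μ := setLIntegral_le_lintegral _ _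
  have h12 : ∫⁻ a in T2ᶜ, qf a ≤
      ENNReal.ofReal (Real.exp (-(5 / 2))) * ENNReal.ofReal (2 * ε) := by
    have h1l : 0 ≤ 1 - l := by linarith
    calc ∫⁻ a in T2ᶜ, qf a ≤
          ∫⁻ a in T2ᶜ, ENNReal.ofReal (Real.exp (-(5 / 2))) * (qf a ^ (1 - l) * r1 a ^ l) := by
          apply setLIntegral_mono' mT2.compl
          intro a ha
          simp only [hT2, mem_compl_iff, mem_ofPred_eq, not_lt] at ha
          have h13 : qf a ^ l ≤ (ENNReal.ofReal e2 * r1 a) ^ l := ENNReal.rpow_le_rpow ha hl0.le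
          rw [ENNReal.mul_rpow_of_nonneg _ _ hl0.le, ENNReal.ofReal_rpow_of_pos he20, he2,
            ← Real.exp_mul] at h13
          have h14 : -L / 2 * l = -(5 / 2) := by rw [hl]; field_simp
          rw [h14] at h13
          calc qf a = qf a ^ (1 - l) * qf a ^ l := by
                rw [← ENNReal.rpow_add_of_nonneg _ _ h1l hl0.le]; simp
            _ ≤ qf a ^ (1 - l) * (ENNReal.ofReal (Real.exp (-(5 / 2))) * r1 a ^ l) := by gcongr
            _ = _ := by ring
      _ ≤ ∫⁻ a, ENNReal.ofReal (Real.exp (-(5 / 2))) * (qf a ^ (1 - l) * r1 a ^ l) :=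
          setLIntegral_le_lintegral _ _
      _ = ENNReal.ofReal (Real.exp (-(5 / 2))) * ∫⁻ a, (qf a ^ (1 - l) * r1 a ^ l) :=
          lintegral_const_mul _ ((mqf.pow_const _).mul (mr1.pow_const _))
      _ ≤ ENNReal.ofReal (Real.exp (-(5 / 2))) * ENNReal.ofReal (2 * ε) := by
          gcongr
          exact h7.trans h6
  have h13 := h11.trans h12
  rw [← ENNReal.ofReal_mul (Real.exp_pos _).le, ENNReal.ofReal_le_ofReal_iff (by positivity)] at h13
  have h14 : (6 : ℝ) ≤ Real.exp (5 / 2) := by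
    have := Real.quadratic_le_exp_of_nonneg (x := 5 / 2) (by norm_num)
    norm_num at this
    linarith
  have h15 : Real.exp (-(5 / 2)) ≤ 1 / 6 := by
    rw [Real.exp_neg, inv_eq_one_div]
    exact one_div_le_one_div_of_le (by norm_num) h14
  nlinarith

end Pool.Agent.Lib.MP_6d896a_gt.FP
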