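import Mathlib
import Pool.Agent.Lib.MP_6d896a_gt.FP.Small
import Pool.Agent.Lib.MP_6d896a_gt.FP.LipVar

/-!
The Gaussian channel as a Markov kernel.
-/

set_option autoImplicit false

namespace Pool.Agent.Lib.MP_6d896a_gt.FP

open MeasureTheory ProbabilityTheory Set Filter
open scoped ENNReal Topology

variable {E : Type*} [NormedAddCommGroup E] [InnerProductSpace ℝ E] [FiniteDimensional ℝ E]
  [MeasurableSpace E] [BorelSpace E]

/-- conditional law of the source given the output of the Gaussian channel -/
noncomputable def chan (s : ℝ) (μ : Measure E) [SFinite μ] : Kernel E E :=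
  (Kernel.const E μ).withDensity
    (fun a x => ENNReal.ofReal (gk s (a - x)) / qE s μ (fun _ => 1) a)

/-- law of the output of the Gaussian channel -/
noncomputable def chP (s : ℝ) (μ : Measure E) : Measure E :=
  (volume : Measure E).withDensity (qE s μ (fun _ => 1))

section

variable {s : ℝ} {μ : Measure E} [IsProbabilityMeasure μ]

lemma chan_meas : Measurable (Function.uncurry
    (fun a x : E => ENNReal.ofReal (gk s (a - x)) / qE s μ (fun _ => 1) a)) := by
  have h1 := gk_meas3 (E := E) s
  have h2 : Measurable (qE s μ (fun _ => 1)) := qE_measurable measurable_const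
  exact h1.div (h2.comp measurable_fst)

lemma chan_apply (a : E) : chan s μ a =
    μ.withDensity (fun x => ENNReal.ofReal (gk s (a - x)) / qE s μ (fun _ => 1) a) := by
  unfold chan
  rw [Kernel.withDensity_apply _ chan_meas, Kernel.const_apply]

lemma chan_lintegral (hs : 0 < s) {F : E → ℝ≥0∞} (hF : Measurable F) (a : E) :
    ∫⁻ x, F x ∂(chan s μ a) = qE s μ F a / qE s μ (fun _ => 1) a := by
  have hm : Measurable (fun x => ENNReal.ofReal (gk s (a - x)) / qE s μ (fun _ => 1) a) :=
    (gk_meas' s a).div_const _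
  rw [chan_apply, lintegral_withDensity_eq_lintegral_mul _ hm hF]
  have hq0 := qE_one_pos (μ := μ) hs a
  set q := qE s μ (fun _ => 1) a with hq
  rw [ENNReal.div_eq_inv_mul]
  unfold qE
  rw [← lintegral_const_mul' _ _ (ENNReal.inv_ne_top.mpr hq0)]
  apply lintegral_congr
  intro x
  simp only [Pi.mul_apply, ENNReal.div_eq_inv_mul]
  ring

lemma chan_markov (hs : 0 < s) : IsMarkovKernel (chan s μ) := by
  constructor
  intro a
  constructor
  have h1 := chan_lintegral (μ := μ) hs (F := fun _ => 1) measurable_const a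
  rw [lintegral_const, one_mul] at h1
  rw [h1]
  exact ENNReal.div_self (qE_one_pos hs a) (qE_ne_top hs (fun _ => le_rfl) a)

lemma chP_prob (hs : 0 < s) : IsProbabilityMeasure (chP s μ) := by
  constructor
  unfold chP
  rw [withDensity_apply _ MeasurableSet.univ, Measure.restrict_univ,
    lint_qE_one hs measurable_const]
  simp

lemma chP_lintegral {G : E → ℝ≥0∞} (hG : Measurable G) :
    ∫⁻ a, G a ∂(chP s μ) = ∫⁻ a, G a * qE s μ (fun _ => 1) a := by
  unfold chP
  rw [lintegral_withDensity_eq_lintegral_mul _ (qE_measurable measurable_const) hG]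
  apply lintegral_congr
  intro a
  simp only [Pi.mul_apply]
  ring

lemma chan_tower (hs : 0 < s) {F : E → ℝ≥0∞} (hF : Measurable F) :
    ∫⁻ a, ∫⁻ x, F x ∂(chan s μ a) ∂(chP s μ) = ∫⁻ x, F x ∂μ := by
  simp only [chan_lintegral hs hF]
  have hm : Measurable (fun a => qE s μ F a / qE s μ (fun _ => 1) a) :=
    (qE_measurable hF).div (qE_measurable measurable_const)
  rw [chP_lintegral hm, ← lint_qE_one hs hF]
  apply lintegral_congr
  intro a
  exact ENNReal.div_mul_cancel (qE_one_pos hs a) (qE_ne_top hs (fun _ => le_rfl) a)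

lemma chan_bind (hs : 0 < s) : (chP s μ).bind (chan s μ) = μ := by
  ext S hS
  rw [Measure.bind_apply hS (Kernel.aemeasurable _)]
  have h1 := chan_tower (μ := μ) hs (F := S.indicator 1) (measurable_one.indicator hS)
  rw [lintegral_indicator_one hS] at h1
  rw [← h1]
  apply lintegral_congr
  intro a
  rw [lintegral_indicator_one hS]

/-- tower property for integrable functions -/
lemma chan_int (hs : 0 < s) {f : E → ℝ} (hf : Integrable f μ) :
    ∫ a, ∫ x, f x ∂(chan s μ a) ∂(chP s μ) = ∫ x, f x ∂μ := by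
  have hk := chan_markov (μ := μ) hs
  have hp := chP_prob (μ := μ) hs
  have h1 : (chan s μ ∘ₖ Kernel.const Unit (chP s μ)) () = μ := by
    rw [← Measure.comp_eq_comp_const_apply]
    exact chan_bind hs
  have h2 := Kernel.integral_comp (η := chan s μ) (κ := Kernel.const Unit (chP s μ)) (a := ())
    (f := f) (by rw [h1]; exact hf)
  rw [h1, Kernel.const_apply] at h2
  exact h2.symm

lemma chan_integrable_ae (hs : 0 < s) {f : E → ℝ} (hf : Integrable f μ) :
    Integrable (fun a => ∫ x, f x ∂(chan s μ a)) (chP s μ) := by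
  have hk := chan_markov (μ := μ) hs
  have hp := chP_prob (μ := μ) hs
  have h1 : (chan s μ ∘ₖ Kernel.const Unit (chP s μ)) () = μ := by
    rw [← Measure.comp_eq_comp_const_apply]
    exact chan_bind hs
  have h2 : Integrable f ((chan s μ ∘ₖ Kernel.const Unit (chP s μ)) ()) := by rw [h1]; exact hf
  have h3 := h2.integral_comp
  rwa [Kernel.const_apply] at h3

/-- the conditional measure is dominated by the source -/
lemma chan_integrable (hs : 0 < s) {f : E → ℝ} (hf : Integrable f μ) (a : E) :
    Integrable f (chan s μ a) := by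
  rw [chan_apply]
  have hq0 := qE_one_pos (μ := μ) hs a
  have hqt := qE_ne_top (μ := μ) hs (F := fun _ => 1) (fun _ => le_rfl) a
  have hm : Measurable (fun x => ENNReal.ofReal (gk s (a - x)) / qE s μ (fun _ => 1) a) :=
    (gk_meas' s a).div_const _
  refine ⟨hf.1.mono_ac (withDensity_absolutelyContinuous _ _), ?_⟩
  unfold HasFiniteIntegral
  rw [lintegral_withDensity_eq_lintegral_mul₀ hm.aemeasurable hf.1.enorm]
  have h1 := hf.2
  unfold HasFiniteIntegral at h1
  have hc : ENNReal.ofReal (gZ E s)⁻¹ / qE s μ (fun _ => 1) a ≠ ∞ :=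
    ENNReal.div_ne_top ENNReal.ofReal_ne_top hq0
  calc ∫⁻ x, (fun x => ENNReal.ofReal (gk s (a - x)) / qE s μ (fun _ => 1) a) x * ‖f x‖ₑ ∂μ
      ≤ ∫⁻ x, (ENNReal.ofReal (gZ E s)⁻¹ / qE s μ (fun _ => 1) a) * ‖f x‖ₑ ∂μ := by
        apply lintegral_mono
        intro x
        simp only
        gcongr
        exact gk_le hs (a - x)
    _ = (ENNReal.ofReal (gZ E s)⁻¹ / qE s μ (fun _ => 1) a) * ∫⁻ x, ‖f x‖ₑ ∂μ :=
        lintegral_const_mul' _ _ hc
    _ < ∞ := ENNReal.mul_lt_top hc.lt_top h1

/-- explicit formula for conditional expectations -/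
lemma chan_integral (hs : 0 < s) (f : E → ℝ) (a : E) :
    ∫ x, f x ∂(chan s μ a) =
      (∫ x, f x * gk s (a - x) ∂μ) / ∫ x, gk s (a - x) ∂μ := by
  have hq0 := qE_one_pos (μ := μ) hs a
  have hqt := qE_ne_top (μ := μ) hs (F := fun _ => 1) (fun _ => le_rfl) a
  set q := qE s μ (fun _ => 1) a with hq
  have hqi : ∫ x, gk s (a - x) ∂μ = q.toReal := by
    have hc : Continuous (fun x : E => gk s (a - x)) :=
      (gk_continuous s).comp (continuous_const.sub continuous_id)
    rw [integral_eq_lintegral_of_nonneg_ae (ae_of_all _ fun x => (gk_pos hs _).le)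
      hc.aestronglyMeasurable, hq]
    unfold qE
    simp only [one_mul]
  have hqp : 0 < q.toReal := ENNReal.toReal_pos hq0 hqt
  rw [chan_apply]
  have e : (fun x => ENNReal.ofReal (gk s (a - x)) / q) =
      fun x => ((Real.toNNReal (gk s (a - x) / q.toReal) : NNReal) : ℝ≥0∞) := by
    funext x
    have : ((Real.toNNReal (gk s (a - x) / q.toReal) : NNReal) : ℝ≥0∞) =
        ENNReal.ofReal (gk s (a - x) / q.toReal) := rfl
    rw [this, ENNReal.ofReal_div_of_pos hqp, ENNReal.ofReal_toReal hqt]
  have hm : Measurable (fun x : E => Real.toNNReal (gk s (a - x) / q.toReal)) := by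
    apply Measurable.real_toNNReal
    exact (((gk_continuous s).comp (continuous_const.sub continuous_id)).measurable).div_const _
  rw [e, integral_withDensity_eq_integral_smul hm, hqi, eq_div_iff hqp.ne', mul_comm,
    ← integral_const_mul]
  congr 1
  funext x
  rw [NNReal.smul_def, Real.coe_toNNReal _ (by have := gk_pos hs (a - x); positivity), smul_eq_mul]
  field_simp

end

end Pool.Agent.Lib.MP_6d896a_gt.FP
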