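import Mathlib
import Pool.Agent.Lib.MP_6d896a_gt.FP.Kern

/-!
Local Brascamp-Lieb inequality under the Gaussian channel, from the Prekopa-Leindler inequality.
-/

set_option autoImplicit false
set_option linter.unusedSectionVars false

namespace Pool.Agent.Lib.MP_6d896a_gt.FP

open MeasureTheory ProbabilityTheory Set Filter
open scoped ENNReal Topology

namespace BL

variable {E : Type*} [NormedAddCommGroup E] [InnerProductSpace ℝ E] [FiniteDimensional ℝ E]
  [MeasurableSpace E] [BorelSpace E]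

/-- product of two values of the Gaussian kernel -/
lemma gk_mul {s : ℝ} (a x y : E) :
    gk s (a - x) * gk s (a - y) =
      Real.exp (-(s / 2 * ‖x - y‖ ^ 2)) * gk s (a - (1 / 2 : ℝ) • (x + y)) ^ 2 := by
  have hx : a - x = (a - (1 / 2 : ℝ) • (x + y)) - (1 / 2 : ℝ) • (x - y) := by module
  have hy : a - y = (a - (1 / 2 : ℝ) • (x + y)) + (1 / 2 : ℝ) • (x - y) := by module
  have h1 : ‖a - x‖ ^ 2 + ‖a - y‖ ^ 2 =
      2 * ‖a - (1 / 2 : ℝ) • (x + y)‖ ^ 2 + 1 / 2 * ‖x - y‖ ^ 2 := by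
    rw [hx, hy, norm_sub_sq_real, norm_add_sq_real, norm_smul, inner_smul_right]
    rw [Real.norm_eq_abs, abs_of_pos (by norm_num : (0:ℝ) < 1 / 2)]
    ring
  unfold gk
  have h2 : -s * ‖a - x‖ ^ 2 + -s * ‖a - y‖ ^ 2 = -(s / 2 * ‖x - y‖ ^ 2) +
      (-s * ‖a - (1 / 2 : ℝ) • (x + y)‖ ^ 2 + -s * ‖a - (1 / 2 : ℝ) • (x + y)‖ ^ 2) := by
    have : -s * ‖a - x‖ ^ 2 + -s * ‖a - y‖ ^ 2 = -s * (‖a - x‖ ^ 2 + ‖a - y‖ ^ 2) := by ring
    rw [this, h1]; ring
  have h3 : Real.exp (-s * ‖a - x‖ ^ 2) * Real.exp (-s * ‖a - y‖ ^ 2) =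
      Real.exp (-(s / 2 * ‖x - y‖ ^ 2)) * (Real.exp (-s * ‖a - (1 / 2 : ℝ) • (x + y)‖ ^ 2) *
        Real.exp (-s * ‖a - (1 / 2 : ℝ) • (x + y)‖ ^ 2)) := by
    rw [← Real.exp_add, h2, Real.exp_add, Real.exp_add]
  calc _ = (gZ E s)⁻¹ ^ 2 * (Real.exp (-s * ‖a - x‖ ^ 2) * Real.exp (-s * ‖a - y‖ ^ 2)) := by ring
    _ = _ := by rw [h3]; ring

lemma pl_chan {ν μ : Measure E} [SFinite ν] [IsProbabilityMeasure μ] (hν : PLm ν)
    {W : E → ℝ} (mW : Measurable W) (W0 : ∀ x, 0 ≤ W x)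
    (hμ : μ = ν.withDensity (fun x => ENNReal.ofReal (W x))) {s : ℝ} (hs : 0 < s) (a : E)
    {p n q : E → ℝ} (mp : Measurable p) (mn : Measurable n) (mq : Measurable q)
    (H : ∀ x y, W x * W y * Real.exp (p x + n y - s / 2 * ‖x - y‖ ^ 2) ≤
      W ((1 / 2 : ℝ) • (x + y)) ^ 2 * Real.exp (2 * q ((1 / 2 : ℝ) • (x + y)))) :
    (∫⁻ x, ENNReal.ofReal (Real.exp (p x)) ∂(chan s μ a)) *
      (∫⁻ x, ENNReal.ofReal (Real.exp (n x)) ∂(chan s μ a)) ≤
      (∫⁻ x, ENNReal.ofReal (Real.exp (q x)) ∂(chan s μ a)) ^ 2 := by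
  -- the weighted functions
  have key : ∀ r : E → ℝ, Measurable r →
      ∫⁻ x, ENNReal.ofReal (W x * (gk s (a - x) * Real.exp (r x))) ∂ν =
        qE s μ (fun x => ENNReal.ofReal (Real.exp (r x))) a := by
    intro r hr
    unfold qE
    have hm : Measurable (fun x => ENNReal.ofReal (Real.exp (r x)) *
        ENNReal.ofReal (gk s (a - x))) := hr.exp.ennreal_ofReal.mul (gk_meas' s a)
    have hWm : Measurable (fun x => ENNReal.ofReal (W x)) := mW.ennreal_ofReal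
    conv_rhs => rw [hμ]
    rw [lintegral_withDensity_eq_lintegral_mul _ hWm hm]
    apply lintegral_congr
    intro x
    simp only [Pi.mul_apply]
    rw [← ENNReal.ofReal_mul (Real.exp_pos _).le, ← ENNReal.ofReal_mul (W0 x)]
    congr 1; ring
  have hmeas : ∀ r : E → ℝ, Measurable r →
      Measurable (fun x => ENNReal.ofReal (W x * (gk s (a - x) * Real.exp (r x)))) := by
    intro r hr
    have : Measurable (fun x : E => gk s (a - x)) :=
      ((gk_continuous s).comp (continuous_const.sub continuous_id)).measurable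
    exact (mW.mul (this.mul hr.exp)).ennreal_ofReal
  have h1 := hν (1 / 2) (by norm_num) (by norm_num) _ _ _ (hmeas p mp) (hmeas n mn) (hmeas q mq) (by
    intro x y
    have e1 : (1 - 1 / 2 : ℝ) • x + (1 / 2 : ℝ) • y = (1 / 2 : ℝ) • (x + y) := by module
    rw [e1]
    set z := (1 / 2 : ℝ) • (x + y) with hz
    have hgx := (gk_pos hs (a - x)).le
    have hgy := (gk_pos hs (a - y)).le
    have hgz := (gk_pos hs (a - z)).le
    have e2 : (1 - 1 / 2 : ℝ) = 1 / 2 := by norm_num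
    rw [e2, ← ENNReal.mul_rpow_of_nonneg _ _ (by norm_num : (0:ℝ) ≤ 1 / 2),
      ← ENNReal.ofReal_mul (mul_nonneg (W0 x) (mul_nonneg hgx (Real.exp_pos _).le))]
    have e3 : ENNReal.ofReal (W z * (gk s (a - z) * Real.exp (q z))) =
        (ENNReal.ofReal ((W z * (gk s (a - z) * Real.exp (q z))) ^ 2)) ^ (1 / 2 : ℝ) := by
      rw [ENNReal.ofReal_rpow_of_nonneg (sq_nonneg _) (by norm_num)]
      congr 1
      rw [← Real.sqrt_eq_rpow, Real.sqrt_sq (mul_nonneg (W0 z) (mul_nonneg hgz (Real.exp_pos _).le))]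
    rw [e3]
    apply ENNReal.rpow_le_rpow _ (by norm_num)
    apply ENNReal.ofReal_le_ofReal
    have h2 := H x y
    rw [← hz] at h2
    calc W x * (gk s (a - x) * Real.exp (p x)) * (W y * (gk s (a - y) * Real.exp (n y)))
        = W x * W y * (gk s (a - x) * gk s (a - y)) * (Real.exp (p x) * Real.exp (n y)) := by ring
      _ = W x * W y * (Real.exp (p x) * Real.exp (n y) * Real.exp (-(s / 2 * ‖x - y‖ ^ 2))) *
          gk s (a - z) ^ 2 := by
          rw [gk_mul, ← hz]; ring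
      _ = W x * W y * Real.exp (p x + n y - s / 2 * ‖x - y‖ ^ 2) * gk s (a - z) ^ 2 := by
          rw [← Real.exp_add, ← Real.exp_add, ← sub_eq_add_neg]
      _ ≤ W z ^ 2 * Real.exp (2 * q z) * gk s (a - z) ^ 2 := by
          apply mul_le_mul_of_nonneg_right h2 (sq_nonneg _)
      _ = (W z * (gk s (a - z) * Real.exp (q z))) ^ 2 := by
          rw [two_mul, Real.exp_add]; ring)
  rw [key p mp, key n mn, key q mq] at h1
  have e2 : (1 - 1 / 2 : ℝ) = 1 / 2 := by norm_num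
  rw [e2, ← ENNReal.mul_rpow_of_nonneg _ _ (by norm_num : (0:ℝ) ≤ 1 / 2)] at h1
  have h3 := ENNReal.rpow_le_rpow h1 (by norm_num : (0:ℝ) ≤ 2)
  rw [← ENNReal.rpow_mul] at h3
  norm_num at h3
  rw [chan_lintegral hs mp.exp.ennreal_ofReal, chan_lintegral hs mn.exp.ennreal_ofReal,
    chan_lintegral hs mq.exp.ennreal_ofReal]
  set q1 := qE s μ (fun _ => 1) a with hq1
  simp only [ENNReal.div_eq_inv_mul]
  calc _ = (q1⁻¹) ^ 2 * (qE s μ (fun x => ENNReal.ofReal (Real.exp (p x))) a *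
        qE s μ (fun x => ENNReal.ofReal (Real.exp (n x))) a) := by ring
    _ ≤ (q1⁻¹) ^ 2 * (qE s μ (fun x => ENNReal.ofReal (Real.exp (q x))) a) ^ 2 := by gcongr
    _ = _ := by ring

/-- central difference of a function with Lipschitz derivative -/
lemma diff_le {f : E → ℝ} (hf : ContDiff ℝ 1 f) {L : ℝ}
    (hL : ∀ x y, ‖fderiv ℝ f x - fderiv ℝ f y‖ ≤ L * ‖x - y‖) (z w : E) :
    f (z + w) - f (z - w) ≤ 2 * (‖fderiv ℝ f z‖ * ‖w‖) + 2 * (L * ‖w‖ ^ 2) := by
  have h1 : ∀ x ∈ Metric.closedBall z ‖w‖,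
      HasFDerivWithinAt f (fderiv ℝ f x) (Metric.closedBall z ‖w‖) x := by
    intro x _
    exact (hf.differentiable (by norm_num) x).hasFDerivAt.hasFDerivWithinAt
  have hL0 : ∀ x ∈ Metric.closedBall z ‖w‖, ‖fderiv ℝ f x - fderiv ℝ f z‖ ≤ L * ‖w‖ := by
    intro x hx
    by_cases hxz : x = z
    · rw [hxz, sub_self, norm_zero]
      by_cases hw : w = 0
      · rw [hw, norm_zero, mul_zero]
      · have hw' : 0 < ‖w‖ := norm_pos_iff.mpr hw
        have := (norm_nonneg _).trans (hL (z + w) z)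
        rwa [add_sub_cancel_left] at this
    · have hp : 0 < ‖x - z‖ := norm_pos_iff.mpr (sub_ne_zero.mpr hxz)
      have h2 := (norm_nonneg _).trans (hL x z)
      have hLn : 0 ≤ L := by
        by_contra hneg
        push Not at hneg
        exact absurd h2 (not_le.mpr (mul_neg_of_neg_of_pos hneg hp))
      refine (hL x z).trans ?_
      apply mul_le_mul_of_nonneg_left _ hLn
      rw [← dist_eq_norm]; exact Metric.mem_closedBall.mp hx
  have h3 := (convex_closedBall z ‖w‖).norm_image_sub_le_of_norm_hasFDerivWithin_le' h1 hL0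
    (x := z - w) (y := z + w) (by simp) (by simp)
  have e1 : z + w - (z - w) = (2 : ℝ) • w := by module
  rw [e1, map_smul, norm_smul, Real.norm_eq_abs (2 : ℝ), abs_of_pos (by norm_num : (0:ℝ) < 2)] at h3
  have h4 := (le_abs_self _).trans h3
  have h5 : (fderiv ℝ f z) w ≤ ‖fderiv ℝ f z‖ * ‖w‖ :=
    (le_abs_self _).trans ((fderiv ℝ f z).le_opNorm w)
  simp only [smul_eq_mul] at h4
  nlinarith

lemma ofReal_integral_le {κ : Measure E} {r F : E → ℝ} (hr : Integrable r κ)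
    (h : ∀ x, r x ≤ F x) : ENNReal.ofReal (∫ x, r x ∂κ) ≤ ∫⁻ x, ENNReal.ofReal (F x) ∂κ := by
  have h1 : ∫ x, r x ∂κ ≤ ∫ x, max (r x) 0 ∂κ :=
    integral_mono hr hr.pos_part (fun x => le_max_left _ _)
  refine (ENNReal.ofReal_le_ofReal h1).trans ?_
  rw [ofReal_integral_eq_lintegral_ofReal hr.pos_part (ae_of_all _ fun x => le_max_right _ _)]
  apply lintegral_mono
  intro x
  simp only
  rcases le_total (r x) 0 with h0 | h0
  · rw [max_eq_right h0]; simp
  · rw [max_eq_left h0]; exact ENNReal.ofReal_le_ofReal (h x)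

/-- odd Taylor polynomials bound the exponential from below -/
lemma exp_ge_taylor (t : ℝ) : 1 + t + t ^ 2 / 2 + t ^ 3 / 6 ≤ Real.exp t := by
  have hG : Monotone (fun t : ℝ => Real.exp t - 1 - t - t ^ 2 / 2) := by
    have hd : ∀ t : ℝ, HasDerivAt (fun t : ℝ => Real.exp t - 1 - t - t ^ 2 / 2)
        (Real.exp t - 1 - t) t := by
      intro t
      have h1 := (((Real.hasDerivAt_exp t).sub_const 1).sub (hasDerivAt_id t)).sub
        (((hasDerivAt_id t).pow 2).div_const 2)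
      convert! h1 using 1
      simp
    apply monotone_of_deriv_nonneg (fun t => (hd t).differentiableAt)
    intro t
    rw [(hd t).deriv]
    have := Real.add_one_le_exp t
    linarith
  have hd : ∀ t : ℝ, HasDerivAt (fun t : ℝ => Real.exp t - 1 - t - t ^ 2 / 2 - t ^ 3 / 6)
      (Real.exp t - 1 - t - t ^ 2 / 2) t := by
    intro t
    have h1 := ((((Real.hasDerivAt_exp t).sub_const 1).sub (hasDerivAt_id t)).sub
      (((hasDerivAt_id t).pow 2).div_const 2)).sub (((hasDerivAt_id t).pow 3).div_const 6)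
    convert! h1 using 1
    simp only [id]
    push_cast
    ring
  have hc : Continuous (fun t : ℝ => Real.exp t - 1 - t - t ^ 2 / 2 - t ^ 3 / 6) :=
    continuous_iff_continuousAt.mpr fun t => (hd t).continuousAt
  rcases le_total t 0 with ht | ht
  · have ha : AntitoneOn (fun t : ℝ => Real.exp t - 1 - t - t ^ 2 / 2 - t ^ 3 / 6) (Set.Iic 0) := by
      apply antitoneOn_of_deriv_nonpos (convex_Iic 0) hc.continuousOn
      · intro x _
        exact (hd x).differentiableAt.differentiableWithinAt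
      · intro x hx
        rw [(hd x).deriv]
        rw [interior_Iic] at hx
        have := hG (le_of_lt hx)
        simp only at this
        norm_num at this
        linarith
    have := ha (Set.mem_Iic.mpr ht) (Set.mem_Iic.mpr le_rfl) ht
    simp only at this
    norm_num at this
    linarith
  · have := Real.sum_le_exp_of_nonneg ht 4
    norm_num [Finset.sum_range_succ, Nat.factorial] at this
    linarith

/-- pointwise expansion from below -/
lemma point_ge {u c B C h : ℝ} (hc : |c| ≤ B) (h0 : 0 < h) (h1 : h ≤ 1) :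
    1 + h * u + h ^ 2 / 2 * (u ^ 2 - c) - h ^ 3 * (|u| + (B + |C|) + 1) ^ 3 ≤
      Real.exp (h * u - h ^ 2 / 2 * c - C / 2 * h ^ 3) := by
  have hB : 0 ≤ B := (abs_nonneg c).trans hc
  set R := B + |C| with hR
  have hR0 : 0 ≤ R := add_nonneg hB (abs_nonneg C)
  set r := c / 2 + C / 2 * h with hr
  have hr1 : |r| ≤ R / 2 := by
    have h2 : |C / 2 * h| ≤ |C| / 2 := by
      rw [abs_mul, abs_div, abs_of_pos h0, abs_of_pos (by norm_num : (0:ℝ) < 2)]
      have := mul_le_mul_of_nonneg_left h1 (by positivity : 0 ≤ |C| / 2)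
      linarith
    have h3 : |c / 2| ≤ B / 2 := by
      rw [abs_div, abs_of_pos (by norm_num : (0:ℝ) < 2)]; linarith
    calc |r| ≤ |c / 2| + |C / 2 * h| := abs_add_le _ _
      _ ≤ R / 2 := by rw [hR]; linarith
  set p := h * u - h ^ 2 / 2 * c - C / 2 * h ^ 3 with hp
  have hpr : p = h * u - h ^ 2 * r := by rw [hp, hr]; ring
  set v := |u| with hv
  have hv0 : 0 ≤ v := abs_nonneg u
  have ht := exp_ge_taylor p
  have hh2 : h ^ 2 ≤ h := by nlinarith
  have hpa : |p| ≤ h * (v + R / 2) := by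
    rw [hpr]
    calc |h * u - h ^ 2 * r| ≤ |h * u| + |h ^ 2 * r| := abs_sub _ _
      _ = h * v + h ^ 2 * |r| := by
          rw [abs_mul, abs_mul, abs_of_pos h0, abs_of_pos (by positivity : 0 < h ^ 2)]
      _ ≤ h * v + h * (R / 2) := by
          have : h ^ 2 * |r| ≤ h * (R / 2) := mul_le_mul hh2 hr1 (abs_nonneg r) h0.le
          linarith
      _ = _ := by ring
  have hp3 : -(h ^ 3 * (v + R / 2) ^ 3) ≤ p ^ 3 := by
    have h2 : |p| ^ 3 ≤ (h * (v + R / 2)) ^ 3 := pow_le_pow_left₀ (abs_nonneg p) hpa 3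
    have h3 : -|p| ^ 3 ≤ p ^ 3 := by
      rw [← abs_pow]; exact neg_abs_le _
    rw [mul_pow] at h2
    linarith
  have hp2 : h ^ 2 * u ^ 2 / 2 - h ^ 3 * (v * R / 2) ≤ p ^ 2 / 2 := by
    have h2 : p ^ 2 / 2 = h ^ 2 * u ^ 2 / 2 - h ^ 3 * (u * r) + h ^ 4 * r ^ 2 / 2 := by
      rw [hpr]; ring
    have h3 : u * r ≤ v * R / 2 := by
      calc u * r ≤ |u * r| := le_abs_self _
        _ = v * |r| := abs_mul u r
        _ ≤ v * (R / 2) := mul_le_mul_of_nonneg_left hr1 hv0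
        _ = _ := by ring
    have h4 : h ^ 3 * (u * r) ≤ h ^ 3 * (v * R / 2) :=
      mul_le_mul_of_nonneg_left h3 (by positivity)
    have h5 : 0 ≤ h ^ 4 * r ^ 2 / 2 := by positivity
    linarith
  have hC : |C| ≤ R := by rw [hR]; linarith
  have hC' : C / 2 * h ^ 3 ≤ h ^ 3 * (R / 2) := by
    have : C ≤ R := (le_abs_self C).trans hC
    have := mul_le_mul_of_nonneg_left this (by positivity : 0 ≤ h ^ 3 / 2)
    linarith
  set X := v + R + 1 with hX
  have hX1 : 1 ≤ X := by rw [hX]; linarith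
  have e1 : R / 2 ≤ X ^ 3 / 2 := by
    have h2 : R ≤ X := by rw [hX]; linarith
    have h3 : X ≤ X ^ 3 := by nlinarith [sq_nonneg (X - 1), sq_nonneg X]
    linarith
  have e2 : v * R / 2 ≤ X ^ 3 / 8 := by
    have h2 : v * R * 4 ≤ X ^ 2 := by
      have : v * R * 4 ≤ (v + R) ^ 2 := by nlinarith [sq_nonneg (v - R)]
      refine this.trans (pow_le_pow_left₀ (by positivity) (by rw [hX]; linarith) 2)
    have h3 : X ^ 2 ≤ X ^ 3 := pow_le_pow_right₀ hX1 (by norm_num)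
    linarith
  have e3 : (v + R / 2) ^ 3 ≤ X ^ 3 := by
    apply pow_le_pow_left₀ (by positivity)
    rw [hX]; linarith
  have e4 : h ^ 3 * (R / 2 + v * R / 2 + (v + R / 2) ^ 3 / 6) ≤ h ^ 3 * X ^ 3 := by
    apply mul_le_mul_of_nonneg_left _ (by positivity)
    have : 0 ≤ X ^ 3 := by positivity
    linarith
  have e5 : 1 + p = 1 + h * u - h ^ 2 / 2 * c - C / 2 * h ^ 3 := by rw [hp]; ring
  have e6 : h ^ 3 * (R / 2 + v * R / 2 + (v + R / 2) ^ 3 / 6) =
      h ^ 3 * (R / 2) + h ^ 3 * (v * R / 2) + h ^ 3 * (v + R / 2) ^ 3 / 6 := by ring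
  have e7 : h ^ 2 / 2 * (u ^ 2 - c) = h ^ 2 * u ^ 2 / 2 - h ^ 2 / 2 * c := by ring
  rw [e6] at e4
  rw [e7]
  generalize h ^ 3 * (v + R / 2) ^ 3 = Z at *
  generalize h ^ 3 * X ^ 3 = Z1 at *
  generalize h ^ 3 * (v * R / 2) = Z2 at *
  generalize h ^ 3 * (R / 2) = Z3 at *
  generalize p ^ 3 = Z4 at *
  generalize p ^ 2 / 2 = Z5 at *
  linarith

/-- expansion of the Laplace transform from below -/
lemma lap_ge {κ : Measure E} [IsProbabilityMeasure κ] {u c : E → ℝ} (mc : Measurable c) {B : ℝ}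
    (hc : ∀ x, |c x| ≤ B) {C : ℝ} (i1 : Integrable u κ) (i2 : Integrable (fun x => u x ^ 2) κ)
    (i3 : Integrable (fun x => (|u x| + (B + |C|) + 1) ^ 3) κ) {h : ℝ} (h0 : 0 < h) (h1 : h ≤ 1) :
    ENNReal.ofReal (1 + h * ∫ x, u x ∂κ + h ^ 2 / 2 * (∫ x, u x ^ 2 ∂κ - ∫ x, c x ∂κ) -
      h ^ 3 * ∫ x, (|u x| + (B + |C|) + 1) ^ 3 ∂κ) ≤
      ∫⁻ x, ENNReal.ofReal (Real.exp (h * u x - h ^ 2 / 2 * c x - C / 2 * h ^ 3)) ∂κ := by
  have ic : Integrable c κ := by
    refine Integrable.of_bound mc.aestronglyMeasurable B (ae_of_all _ fun x => ?_)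
    rw [Real.norm_eq_abs]; exact hc x
  have j1 : Integrable (fun _ : E => (1 : ℝ)) κ := integrable_const 1
  have j2 := i1.const_mul h
  have j3 : Integrable (fun x => h ^ 2 / 2 * (u x ^ 2 - c x)) κ := (i2.sub ic).const_mul (h ^ 2 / 2)
  have j4 := i3.const_mul (h ^ 3)
  have j12 : Integrable (fun x => 1 + h * u x) κ := j1.add j2
  have j123 : Integrable (fun x => 1 + h * u x + h ^ 2 / 2 * (u x ^ 2 - c x)) κ := j12.add j3
  have j : Integrable (fun x => 1 + h * u x + h ^ 2 / 2 * (u x ^ 2 - c x) -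
      h ^ 3 * (|u x| + (B + |C|) + 1) ^ 3) κ := j123.sub j4
  have e : ∫ x, (1 + h * u x + h ^ 2 / 2 * (u x ^ 2 - c x) -
      h ^ 3 * (|u x| + (B + |C|) + 1) ^ 3) ∂κ =
      1 + h * ∫ x, u x ∂κ + h ^ 2 / 2 * (∫ x, u x ^ 2 ∂κ - ∫ x, c x ∂κ) -
      h ^ 3 * ∫ x, (|u x| + (B + |C|) + 1) ^ 3 ∂κ := by
    rw [integral_sub j123 j4, integral_add j12 j3, integral_add j1 j2,
      integral_const_mul, integral_const_mul, integral_const_mul, integral_sub i2 ic]
    simp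
  rw [← e]
  apply ofReal_integral_le j
  intro x
  exact point_ge (hc x) h0 h1

/-- expansion of the Laplace transform from above -/
lemma lap_le {κ : Measure E} [IsProbabilityMeasure κ] {d : E → ℝ} (md : Measurable d) {M : ℝ}
    (d0 : ∀ x, 0 ≤ d x) (hd : ∀ x, d x ≤ M) {s L h : ℝ} (hs : 0 < s) (hL : 0 ≤ L) (h0 : 0 < h)
    (h1 : h ≤ 1) (h2 : h * L ≤ s / 2) (h3 : h * M ≤ 2 * s) :
    ∫⁻ x, ENNReal.ofReal (Real.exp (h ^ 2 * d x / (4 * (s - h * L)))) ∂κ ≤
      ENNReal.ofReal (1 + h ^ 2 / (4 * s) * ∫ x, d x ∂κ +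
        h ^ 3 * (L * M / (2 * s ^ 2) + M ^ 2 / (4 * s ^ 2))) := by
  have id : Integrable d κ := by
    refine Integrable.of_bound md.aestronglyMeasurable M (ae_of_all _ fun x => ?_)
    rw [Real.norm_eq_abs, abs_of_nonneg (d0 x)]; exact hd x
  have hM : 0 ≤ M := by
    obtain ⟨x⟩ : Nonempty E := ⟨0⟩
    exact (d0 x).trans (hd x)
  set K := L * M / (2 * s ^ 2) + M ^ 2 / (4 * s ^ 2) with hK
  have hK0 : 0 ≤ K := by positivity
  have j1 : Integrable (fun _ : E => (1 : ℝ)) κ := integrable_const 1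
  have j2 : Integrable (fun x => h ^ 2 / (4 * s) * d x) κ := id.const_mul _
  have j3 : Integrable (fun _ : E => h ^ 3 * K) κ := integrable_const _
  have j12 : Integrable (fun x => 1 + h ^ 2 / (4 * s) * d x) κ := j1.add j2
  have j : Integrable (fun x => 1 + h ^ 2 / (4 * s) * d x + h ^ 3 * K) κ := j12.add j3
  have e : 1 + h ^ 2 / (4 * s) * ∫ x, d x ∂κ + h ^ 3 * K =
      ∫ x, (1 + h ^ 2 / (4 * s) * d x + h ^ 3 * K) ∂κ := by
    rw [integral_add j12 j3, integral_add j1 j2, integral_const_mul]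
    simp
  have jn : ∀ x, 0 ≤ 1 + h ^ 2 / (4 * s) * d x + h ^ 3 * K := by
    intro x
    have := d0 x
    positivity
  rw [e, ofReal_integral_eq_lintegral_ofReal j (ae_of_all _ jn)]
  apply lintegral_mono
  intro x
  apply ENNReal.ofReal_le_ofReal
  have hx0 := d0 x
  have hxM := hd x
  have hsL : s / 2 ≤ s - h * L := by linarith
  have hsL' : 0 < s - h * L := by linarith
  have q0 : 0 ≤ h ^ 2 * d x / (4 * (s - h * L)) := by positivity
  -- first bound
  have q1 : h ^ 2 * d x / (4 * (s - h * L)) ≤ h ^ 2 * M / (2 * s) := by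
    rw [div_le_div_iff₀ (by positivity) (by positivity)]
    have e1 : h ^ 2 * d x ≤ h ^ 2 * M := mul_le_mul_of_nonneg_left hxM (by positivity)
    have e2 : h ^ 2 * M * (2 * s) ≤ h ^ 2 * M * (4 * (s - h * L)) :=
      mul_le_mul_of_nonneg_left (by linarith) (by positivity)
    have e3 : h ^ 2 * d x * (2 * s) ≤ h ^ 2 * M * (2 * s) :=
      mul_le_mul_of_nonneg_right e1 (by positivity)
    linarith
  have q2 : h ^ 2 * M / (2 * s) ≤ 1 := by
    rw [div_le_one (by positivity)]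
    have : h ^ 2 * M = h * (h * M) := by ring
    rw [this]
    have : h * (h * M) ≤ 1 * (2 * s) := mul_le_mul h1 h3 (by positivity) (by norm_num)
    linarith
  have q3 : h ^ 2 * d x / (4 * (s - h * L)) ≤ h ^ 2 / (4 * s) * d x + h ^ 3 * (L * M / (2 * s ^ 2)) := by
    have e1 : h ^ 2 * d x / (4 * (s - h * L)) - h ^ 2 / (4 * s) * d x =
        h ^ 3 * L * d x / (4 * s * (s - h * L)) := by
      field_simp
      ring
    have e2 : h ^ 3 * L * d x / (4 * s * (s - h * L)) ≤ h ^ 3 * L * M / (4 * s * (s / 2)) := by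
      apply div_le_div₀ (by positivity) _ (by positivity) _
      · exact mul_le_mul_of_nonneg_left hxM (by positivity)
      · exact mul_le_mul_of_nonneg_left hsL (by positivity)
    have e3 : h ^ 3 * L * M / (4 * s * (s / 2)) = h ^ 3 * (L * M / (2 * s ^ 2)) := by
      field_simp
      ring
    linarith
  have q4 : (h ^ 2 * d x / (4 * (s - h * L))) ^ 2 ≤ h ^ 3 * (M ^ 2 / (4 * s ^ 2)) := by
    have e1 : (h ^ 2 * d x / (4 * (s - h * L))) ^ 2 ≤ (h ^ 2 * M / (2 * s)) ^ 2 :=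
      pow_le_pow_left₀ q0 q1 2
    have e2 : (h ^ 2 * M / (2 * s)) ^ 2 = h ^ 4 * (M ^ 2 / (4 * s ^ 2)) := by
      field_simp
      ring
    have e3 : h ^ 4 ≤ h ^ 3 := pow_le_pow_of_le_one h0.le h1 (by norm_num)
    have e4 := mul_le_mul_of_nonneg_right e3 (by positivity : 0 ≤ M ^ 2 / (4 * s ^ 2))
    linarith
  have q5 := Real.abs_exp_sub_one_sub_id_le (x := h ^ 2 * d x / (4 * (s - h * L)))
    (by rw [abs_of_nonneg q0]; exact q1.trans q2)
  have q6 := (le_abs_self _).trans q5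
  have q7 : h ^ 3 * K = h ^ 3 * (L * M / (2 * s ^ 2)) + h ^ 3 * (M ^ 2 / (4 * s ^ 2)) := by
    rw [hK]; ring
  rw [q7]
  linarith

lemma nonpos_of_small {A K h₁ : ℝ} (hK : 0 ≤ K) (h₁0 : 0 < h₁)
    (H : ∀ h, 0 < h → h ≤ h₁ → A ≤ h * K) : A ≤ 0 := by
  by_contra hA
  push Not at hA
  have h0 : 0 < min h₁ (A / (2 * (K + 1))) := lt_min h₁0 (by positivity)
  have h2 := H _ h0 (min_le_left _ _)
  have h3 : min h₁ (A / (2 * (K + 1))) * K ≤ A / (2 * (K + 1)) * (K + 1) :=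
    mul_le_mul (min_le_right _ _) (by linarith) hK (by positivity)
  have h4 : A / (2 * (K + 1)) * (K + 1) = A / 2 := by field_simp
  linarith

lemma alpha_nonneg {m v K h : ℝ} (hK0 : 0 ≤ K) (h0 : 0 < h) (a2 : h ≤ 1)
    (a4 : h * (|m| + |v| + K + 1) ≤ 1) : 0 ≤ 1 + h * m + h ^ 2 / 2 * v - h ^ 3 * K := by
  have hm2 := neg_abs_le m
  have hv1 := neg_abs_le v
  have hh2 : h ^ 2 ≤ h := by nlinarith
  have hh3 : h ^ 3 ≤ h := by
    have : h ^ 3 ≤ h ^ 1 := pow_le_pow_of_le_one h0.le a2 (by norm_num)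
    simpa using this
  have t1 : h * (-|m|) ≤ h * m := mul_le_mul_of_nonneg_left hm2 h0.le
  have t2 : h ^ 2 / 2 * (-|v|) ≤ h ^ 2 / 2 * v := mul_le_mul_of_nonneg_left hv1 (by positivity)
  have t4 : h ^ 2 / 2 * |v| ≤ h * |v| :=
    mul_le_mul_of_nonneg_right (by linarith) (abs_nonneg _)
  have t3 : h ^ 3 * K ≤ h * K := mul_le_mul_of_nonneg_right hh3 hK0
  have t5 : h * (|m| + |v| + K + 1) = h * |m| + h * |v| + h * K + h := by ring
  linarith

lemma scalar_concl {m v K K' e h : ℝ} (hK'0 : 0 ≤ K') (he0 : 0 ≤ e) (h0 : 0 < h) (a2 : h ≤ 1)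
    (c5 : (1 + h * m + h ^ 2 / 2 * v - h ^ 3 * K) * (1 + h * -m + h ^ 2 / 2 * v - h ^ 3 * K) ≤
      (1 + h ^ 2 * e + h ^ 3 * K') ^ 2) :
    v - m ^ 2 - 2 * e ≤ h * (2 * K + 2 * K' + (e + K') ^ 2) := by
  have e2 : (h ^ 2 * e + h ^ 3 * K') ^ 2 ≤ h ^ 3 * (e + K') ^ 2 := by
    have t1 : h ^ 2 * e + h ^ 3 * K' ≤ h ^ 2 * (e + K') := by
      have : h ^ 3 * K' ≤ h ^ 2 * K' :=
        mul_le_mul_of_nonneg_right (pow_le_pow_of_le_one h0.le a2 (by norm_num)) hK'0
      linarith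
    have t2 : (h ^ 2 * e + h ^ 3 * K') ^ 2 ≤ (h ^ 2 * (e + K')) ^ 2 :=
      pow_le_pow_left₀ (by positivity) t1 2
    have t3 : (h ^ 2 * (e + K')) ^ 2 = h ^ 4 * (e + K') ^ 2 := by ring
    have t4 : h ^ 4 ≤ h ^ 3 := pow_le_pow_of_le_one h0.le a2 (by norm_num)
    have t5 := mul_le_mul_of_nonneg_right t4 (sq_nonneg (e + K'))
    linarith
  have e3 : (1 + h * m + h ^ 2 / 2 * v - h ^ 3 * K) *
      (1 + h * -m + h ^ 2 / 2 * v - h ^ 3 * K) =
      1 + h ^ 2 * v - 2 * (h ^ 3 * K) - h ^ 2 * m ^ 2 +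
        (h ^ 2 / 2 * v - h ^ 3 * K) ^ 2 := by ring
  have e4 : (1 + h ^ 2 * e + h ^ 3 * K') ^ 2 = 1 + 2 * (h ^ 2 * e) + 2 * (h ^ 3 * K') +
      (h ^ 2 * e + h ^ 3 * K') ^ 2 := by ring
  rw [e3, e4] at c5
  have e5 := sq_nonneg (h ^ 2 / 2 * v - h ^ 3 * K)
  have e6 : h ^ 2 * (v - m ^ 2 - 2 * e) ≤ h ^ 2 * (h * (2 * K + 2 * K' + (e + K') ^ 2)) := by
    have t1 : h ^ 2 * (h * (2 * K + 2 * K' + (e + K') ^ 2)) =
      2 * (h ^ 3 * K) + 2 * (h ^ 3 * K') + h ^ 3 * (e + K') ^ 2 := by ring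
    rw [t1]
    have t2 : h ^ 2 * (v - m ^ 2 - 2 * e) = h ^ 2 * v - h ^ 2 * m ^ 2 - 2 * (h ^ 2 * e) := by
      ring
    rw [t2]
    linarith
  exact le_of_mul_le_mul_left e6 (by positivity)

lemma var_le {κ : Measure E} [IsProbabilityMeasure κ] {u c d : E → ℝ} (mc : Measurable c) {B : ℝ}
    (hc : ∀ x, |c x| ≤ B) {C : ℝ} (hu : MemLp u 2 κ)
    (i3 : Integrable (fun x => (|u x| + (B + |C|) + 1) ^ 3) κ)
    (md : Measurable d) {M : ℝ} (d0 : ∀ x, 0 ≤ d x) (hd : ∀ x, d x ≤ M) {s L h₀ : ℝ} (hs : 0 < s)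
    (hL : 0 ≤ L) (hh₀ : 0 < h₀)
    (H : ∀ h, 0 < h → h ≤ h₀ →
      (∫⁻ x, ENNReal.ofReal (Real.exp (h * u x - h ^ 2 / 2 * c x - C / 2 * h ^ 3)) ∂κ) *
      (∫⁻ x, ENNReal.ofReal (Real.exp (h * (-u x) - h ^ 2 / 2 * c x - C / 2 * h ^ 3)) ∂κ) ≤
      (∫⁻ x, ENNReal.ofReal (Real.exp (h ^ 2 * d x / (4 * (s - h * L)))) ∂κ) ^ 2) :
    Var[u; κ] ≤ ∫ x, c x ∂κ + 1 / (2 * s) * ∫ x, d x ∂κ := by
  have i1 : Integrable u κ := hu.integrable (by norm_num)
  have i2 : Integrable (fun x => u x ^ 2) κ := (memLp_two_iff_integrable_sq hu.1).mp hu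
  have hM : 0 ≤ M := by
    obtain ⟨x⟩ : Nonempty E := ⟨0⟩
    exact (d0 x).trans (hd x)
  have hB : 0 ≤ B := by
    obtain ⟨x⟩ : Nonempty E := ⟨0⟩
    exact (abs_nonneg _).trans (hc x)
  rw [variance_eq_sub hu]
  simp only [Pi.pow_apply]
  set m := ∫ x, u x ∂κ with hm
  set S := ∫ x, u x ^ 2 ∂κ with hS
  set g := ∫ x, c x ∂κ with hg
  set D := ∫ x, d x ∂κ with hD
  set K := ∫ x, (|u x| + (B + |C|) + 1) ^ 3 ∂κ with hK
  have hK0 : 0 ≤ K := integral_nonneg fun x => by positivity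
  have hD0 : 0 ≤ D := integral_nonneg d0
  set K' := L * M / (2 * s ^ 2) + M ^ 2 / (4 * s ^ 2) with hK'
  have hK'0 : 0 ≤ K' := by positivity
  set e := D / (4 * s) with he
  have he0 : 0 ≤ e := by positivity
  set h₁ := min (min h₀ 1) (min (s / (2 * (L + M + 1))) (1 / (|m| + |S - g| + K + 1))) with hh₁
  have hh₁0 : 0 < h₁ := by
    apply lt_min (lt_min hh₀ one_pos) (lt_min (by positivity) (by positivity))
  have main : S - g - m ^ 2 - 2 * e ≤ 0 := by
    apply nonpos_of_small (K := 2 * K + 2 * K' + (e + K') ^ 2) (by positivity) hh₁0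
    intro h h0 hh
    have a1 : h ≤ h₀ := hh.trans ((min_le_left _ _).trans (min_le_left _ _))
    have a2 : h ≤ 1 := hh.trans ((min_le_left _ _).trans (min_le_right _ _))
    have a3 : h ≤ s / (2 * (L + M + 1)) := hh.trans ((min_le_right _ _).trans (min_le_left _ _))
    have a4 : h ≤ 1 / (|m| + |S - g| + K + 1) :=
      hh.trans ((min_le_right _ _).trans (min_le_right _ _))
    rw [le_div_iff₀ (by positivity)] at a3 a4
    have b1 : h * L ≤ s / 2 := by nlinarith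
    have b2 : h * M ≤ 2 * s := by nlinarith
    have c1 := lap_ge (C := C) mc hc i1 i2 i3 h0 a2
    have c2 := lap_ge (C := C) (u := fun x => -u x) mc hc i1.neg (by simpa using i2)
      (by simpa using i3) h0 a2
    have c3 := lap_le (κ := κ) md d0 hd hs hL h0 a2 b1 b2
    simp only [abs_neg, neg_sq, integral_neg] at c2
    rw [← hm, ← hS, ← hg, ← hK] at c1 c2
    rw [← hD, ← hK'] at c3
    have c4 := H h h0 a1
    have c5 := (mul_le_mul' c1 c2).trans (c4.trans (pow_le_pow_left' c3 2))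
    have n1 := alpha_nonneg (m := m) (v := S - g) hK0 h0 a2 a4
    have n2 : 0 ≤ 1 + h ^ 2 / (4 * s) * D + h ^ 3 * K' := by positivity
    rw [← ENNReal.ofReal_mul n1, ← ENNReal.ofReal_pow n2,
      ENNReal.ofReal_le_ofReal_iff (by positivity)] at c5
    have e1 : h ^ 2 / (4 * s) * D = h ^ 2 * e := by rw [he]; ring
    rw [e1] at c5
    exact scalar_concl hK'0 he0 h0 a2 c5
  have hfin : 1 / (2 * s) * D = 2 * e := by
    rw [he]; field_simp; ring
  rw [hfin]
  linarith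

/-- functions of cubic growth are integrable -/
lemma chan_integrable_poly {s : ℝ} {μ : Measure E} [IsProbabilityMeasure μ] (hs : 0 < s)
    {F : E → ℝ} (mF : Measurable F) {K : ℝ} (hF : ∀ x, |F x| ≤ K * (1 + ‖x‖) ^ 3) (a : E) :
    Integrable F (chan s μ a) := by
  refine ⟨mF.aestronglyMeasurable, ?_⟩
  unfold HasFiniteIntegral
  rw [chan_lintegral hs mF.enorm]
  have hq0 := qE_one_pos (μ := μ) hs a
  apply ENNReal.div_lt_top _ hq0
  unfold qE
  have hK : 0 ≤ K := by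
    have := (abs_nonneg _).trans (hF 0)
    simpa using this
  have hZ := gZ_pos (E := E) hs
  set A := 1 + ‖a‖ with hA
  have hA1 : 1 ≤ A := by rw [hA]; linarith [norm_nonneg a]
  set M := K * ((gZ E s)⁻¹ * (8 * A ^ 4 + 16 / s ^ 2)) with hM
  have hb : ∀ x, |F x| * gk s (a - x) ≤ M := by
    intro x
    set t := ‖a - x‖ with ht
    have ht0 : 0 ≤ t := norm_nonneg _
    have h1 : 1 + ‖x‖ ≤ A + t := by
      have : ‖x‖ ≤ ‖a‖ + ‖a - x‖ := by
        have := norm_sub_le a (a - x)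
        simpa using this
      rw [hA, ht]; linarith
    have h2 : (1 + ‖x‖) ^ 3 ≤ (A + t) ^ 3 := pow_le_pow_left₀ (by positivity) h1 3
    have h3 : (A + t) ^ 3 ≤ (A + t) ^ 4 := pow_le_pow_right₀ (by linarith) (by norm_num)
    have h4 : (A + t) ^ 4 ≤ 8 * (A ^ 4 + t ^ 4) := by
      have e1 : (A + t) ^ 2 ≤ 2 * (A ^ 2 + t ^ 2) := by nlinarith [sq_nonneg (A - t)]
      have e2 : ((A + t) ^ 2) ^ 2 ≤ (2 * (A ^ 2 + t ^ 2)) ^ 2 :=
        pow_le_pow_left₀ (by positivity) e1 2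
      nlinarith [sq_nonneg (A ^ 2 - t ^ 2)]
    have h5 : (8 * (A ^ 4 + t ^ 4)) * Real.exp (-s * t ^ 2) ≤ 8 * A ^ 4 + 16 / s ^ 2 := by
      have e1 := Real.quadratic_le_exp_of_nonneg (x := s * t ^ 2) (by positivity)
      have e2 : Real.exp (-s * t ^ 2) = (Real.exp (s * t ^ 2))⁻¹ := by
        rw [← Real.exp_neg]; ring_nf
      rw [e2, ← div_eq_mul_inv, div_le_iff₀ (Real.exp_pos _)]
      have e3 : 8 * (A ^ 4 + t ^ 4) ≤ (8 * A ^ 4 + 16 / s ^ 2) * (1 + s * t ^ 2 + (s * t ^ 2) ^ 2 / 2) := by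
        have e4 : 16 / s ^ 2 * ((s * t ^ 2) ^ 2 / 2) = 8 * t ^ 4 := by field_simp; ring
        have e5 : 0 ≤ 8 * A ^ 4 * (s * t ^ 2 + (s * t ^ 2) ^ 2 / 2) := by positivity
        have e6 : 0 ≤ 16 / s ^ 2 * (1 + s * t ^ 2) := by positivity
        nlinarith
      exact e3.trans (mul_le_mul_of_nonneg_left e1 (by positivity))
    unfold gk
    rw [← ht]
    calc |F x| * ((gZ E s)⁻¹ * Real.exp (-s * t ^ 2))
        ≤ (K * (8 * (A ^ 4 + t ^ 4))) * ((gZ E s)⁻¹ * Real.exp (-s * t ^ 2)) := by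
          apply mul_le_mul_of_nonneg_right _ (by positivity)
          refine (hF x).trans (mul_le_mul_of_nonneg_left (h2.trans (h3.trans h4)) hK)
      _ = K * ((gZ E s)⁻¹ * ((8 * (A ^ 4 + t ^ 4)) * Real.exp (-s * t ^ 2))) := by ring
      _ ≤ M := by
          rw [hM]
          apply mul_le_mul_of_nonneg_left _ hK
          exact mul_le_mul_of_nonneg_left h5 (by positivity)
  have hfin : ∫⁻ x, ‖F x‖ₑ * ENNReal.ofReal (gk s (a - x)) ∂μ < ∞ :=
    calc ∫⁻ x, ‖F x‖ₑ * ENNReal.ofReal (gk s (a - x)) ∂μ ≤ ∫⁻ _, ENNReal.ofReal M ∂μ := by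
          apply lintegral_mono
          intro x
          simp only
          rw [Real.enorm_eq_ofReal_abs, ← ENNReal.ofReal_mul (abs_nonneg _)]
          exact ENNReal.ofReal_le_ofReal (hb x)
      _ < ∞ := by simp
  exact hfin.ne

end BL

variable {E : Type*} [NormedAddCommGroup E] [InnerProductSpace ℝ E] [FiniteDimensional ℝ E]
  [MeasurableSpace E] [BorelSpace E]

/-- local Brascamp-Lieb inequality under the Gaussian channel -/
theorem bl_core {ν μ : Measure E} [SFinite ν] [IsProbabilityMeasure μ] (hν : PLm ν)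
    {W b c : E → ℝ} (mW : Measurable W) (W0 : ∀ x, 0 ≤ W x)
    (hμ : μ = ν.withDensity (fun x => ENNReal.ofReal (W x)))
    (mb : Measurable b) (mc : Measurable c) {B : ℝ}
    (hb : ∀ x, |b x| ≤ B * (1 + ‖x‖)) (hc : ∀ x, |c x| ≤ B) {C : ℝ}
    (hmid : ∀ h : ℝ, 0 < h → h ≤ 1 → ∀ x y, W x * W y *
      Real.exp (-(h * (b x - b y)) - h ^ 2 / 2 * (c x + c y) - C * h ^ 3) ≤
        W ((1 / 2 : ℝ) • (x + y)) ^ 2)
    {f : E → ℝ} (hf : ContDiff ℝ 1 f) (hl : ∃ l : ℝ, ∀ x, ‖fderiv ℝ f x‖ ≤ l)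
    (hL : ∃ l : ℝ, ∀ x y, ‖fderiv ℝ f x - fderiv ℝ f y‖ ≤ l * ‖x - y‖)
    {s : ℝ} (hs : 0 < s) (a : E) :
    Var[fun x => f x - b x; chan s μ a] ≤
      ∫ x, c x ∂(chan s μ a) + 1 / (2 * s) * ∫ x, ‖fderiv ℝ f x‖ ^ 2 ∂(chan s μ a) := by
  obtain ⟨l, hl⟩ := hl
  obtain ⟨L', hL'⟩ := hL
  have hκ := chan_markov (μ := μ) hs
  set L := |L'| with hLdef
  have hL0 : 0 ≤ L := abs_nonneg _
  have hL : ∀ x y, ‖fderiv ℝ f x - fderiv ℝ f y‖ ≤ L * ‖x - y‖ := fun x y =>
    (hL' x y).trans (mul_le_mul_of_nonneg_right (le_abs_self _) (norm_nonneg _))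
  have hl0 : 0 ≤ l := (norm_nonneg _).trans (hl 0)
  have hB : 0 ≤ B := (abs_nonneg _).trans (hc 0)
  -- growth
  have hfg : ∀ x, |f x| ≤ (|f 0| + l) * (1 + ‖x‖) := by
    intro x
    have h1 := (convex_univ : Convex ℝ (Set.univ : Set E)).norm_image_sub_le_of_norm_fderiv_le
      (f := f) (x := 0) (y := x) (C := l) (fun z _ => hf.differentiable (by norm_num) z)
      (fun z _ => hl z) (Set.mem_univ _) (Set.mem_univ _)
    rw [sub_zero, Real.norm_eq_abs] at h1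
    have h2 : |f x| ≤ |f x - f 0| + |f 0| := by
      have := abs_add_le (f x - f 0) (f 0)
      simpa using this
    have := norm_nonneg x
    have := abs_nonneg (f 0)
    nlinarith
  set U := |f 0| + l + B with hU
  have hU0 : 0 ≤ U := by positivity
  have hug : ∀ x, |f x - b x| ≤ U * (1 + ‖x‖) := by
    intro x
    have h1 : |f x - b x| ≤ |f x| + |b x| := abs_sub _ _
    have h2 := hfg x
    have h3 := hb x
    rw [hU]
    linarith
  have mf : Measurable f := hf.continuous.measurable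
  have mu : Measurable (fun x => f x - b x) := mf.sub mb
  have hone : ∀ x : E, 1 ≤ 1 + ‖x‖ := fun x => by linarith [norm_nonneg x]
  have i2 : Integrable (fun x => (f x - b x) ^ 2) (chan s μ a) := by
    refine BL.chan_integrable_poly hs (mu.pow_const 2) (K := U ^ 2) (fun x => ?_) a
    rw [abs_pow]
    calc |f x - b x| ^ 2 ≤ (U * (1 + ‖x‖)) ^ 2 := pow_le_pow_left₀ (abs_nonneg _) (hug x) 2
      _ = U ^ 2 * (1 + ‖x‖) ^ 2 := by ring
      _ ≤ _ := mul_le_mul_of_nonneg_left (pow_le_pow_right₀ (hone x) (by norm_num)) (by positivity)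
  have hu2 : MemLp (fun x => f x - b x) 2 (chan s μ a) :=
    (memLp_two_iff_integrable_sq mu.aestronglyMeasurable).mpr i2
  have i3 : Integrable (fun x => (|f x - b x| + (B + |C|) + 1) ^ 3) (chan s μ a) := by
    refine BL.chan_integrable_poly hs
      (((mu.abs.add_const (B + |C|)).add_const 1).pow_const 3)
      (K := (U + (B + |C|) + 1) ^ 3) (fun x => ?_) a
    rw [abs_of_nonneg (by positivity)]
    calc (|f x - b x| + (B + |C|) + 1) ^ 3 ≤ ((U + (B + |C|) + 1) * (1 + ‖x‖)) ^ 3 := by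
          apply pow_le_pow_left₀ (by positivity)
          have h1 := hug x
          have h2 := hone x
          have h3 : 0 ≤ B + |C| + 1 := by positivity
          nlinarith
      _ = _ := by ring
  have md : Measurable (fun x => ‖fderiv ℝ f x‖ ^ 2) :=
    ((hf.continuous_fderiv (by norm_num)).norm.pow 2).measurable
  refine BL.var_le (M := l ^ 2) (L := L) (h₀ := min 1 (s / (2 * (L + 1)))) mc hc (C := C) hu2 i3 md
    (fun x => by positivity) (fun x => pow_le_pow_left₀ (norm_nonneg _) (hl x) 2) hs hL0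
    (lt_min one_pos (by positivity)) ?_
  intro h h0 hh
  have a1 : h ≤ 1 := hh.trans (min_le_left _ _)
  have a2 : h ≤ s / (2 * (L + 1)) := hh.trans (min_le_right _ _)
  rw [le_div_iff₀ (by positivity)] at a2
  have a3 : h * L ≤ s / 2 := by nlinarith
  have a4 : 0 < s - h * L := by linarith
  refine BL.pl_chan hν mW W0 hμ hs a ?_ ?_ ?_ ?_
  · exact ((mu.const_mul h).sub (mc.const_mul _)).sub_const _
  · exact ((mu.neg.const_mul h).sub (mc.const_mul _)).sub_const _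
  · exact (md.const_mul _).div_const _
  intro x y
  set z := (1 / 2 : ℝ) • (x + y) with hz
  set w := (1 / 2 : ℝ) • (x - y) with hw
  have ex : x = z + w := by rw [hz, hw]; module
  have ey : y = z - w := by rw [hz, hw]; module
  have exy : ‖x - y‖ = 2 * ‖w‖ := by
    rw [hw, norm_smul, Real.norm_eq_abs, abs_of_pos (by norm_num : (0:ℝ) < 1 / 2)]; ring
  have h1 := hmid h h0 a1 x y
  rw [← hz] at h1
  have h2 := BL.diff_le hf hL z w
  rw [← ex, ← ey] at h2
  have h3 : h * (f x - f y) - s / 2 * ‖x - y‖ ^ 2 ≤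
      2 * (h ^ 2 * ‖fderiv ℝ f z‖ ^ 2 / (4 * (s - h * L))) := by
    rw [exy]
    set D := ‖fderiv ℝ f z‖ with hD
    set t := ‖w‖ with ht
    have e1 : h * (f x - f y) ≤ h * (2 * (D * t) + 2 * (L * t ^ 2)) :=
      mul_le_mul_of_nonneg_left h2 h0.le
    have e2 : 2 * (h * D * t) - 2 * ((s - h * L) * t ^ 2) ≤
        2 * (h ^ 2 * D ^ 2 / (4 * (s - h * L))) := by
      have e3 : 2 * (h ^ 2 * D ^ 2 / (4 * (s - h * L))) - (2 * (h * D * t) - 2 * ((s - h * L) * t ^ 2)) =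
          (2 * (s - h * L) * t - h * D) ^ 2 / (2 * (s - h * L)) := by
        field_simp
        ring
      have e4 : 0 ≤ (2 * (s - h * L) * t - h * D) ^ 2 / (2 * (s - h * L)) := by positivity
      linarith
    nlinarith
  have h4 : h * (f x - b x) - h ^ 2 / 2 * c x - C / 2 * h ^ 3 +
      (h * -(f y - b y) - h ^ 2 / 2 * c y - C / 2 * h ^ 3) - s / 2 * ‖x - y‖ ^ 2 =
      (-(h * (b x - b y)) - h ^ 2 / 2 * (c x + c y) - C * h ^ 3) +
        (h * (f x - f y) - s / 2 * ‖x - y‖ ^ 2) := by ring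
  rw [h4, Real.exp_add, ← mul_assoc]
  apply mul_le_mul h1 (Real.exp_le_exp.mpr h3) (Real.exp_pos _).le (sq_nonneg _)

end Pool.Agent.Lib.MP_6d896a_gt.FP
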