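import Mathlib

/-!
# Cheeger inequality for a channel
-/

set_option autoImplicit false

namespace Pool.Agent.Lib.MP_6d896a_gt.FP

open MeasureTheory ProbabilityTheory Set Filter
open scoped ENNReal Topology

namespace KC

section one

variable {E : Type*} [MeasurableSpace E]

/-- Layer cake for pairs. -/
theorem layer_pair (ν : Measure E) [IsProbabilityMeasure ν] {G : E → ℝ} (hG : Measurable G)
    (h0 : ∀ x, 0 ≤ G x) :
    ∫⁻ t in Ioi (0 : ℝ), ν {x | t < G x} * ν {x | t < G x}ᶜ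
      = ∫⁻ p, ENNReal.ofReal (G p.1 - G p.2) ∂(ν.prod ν) := by
  have hT : MeasurableSet {q : ℝ × (E × E) | q.1 < G q.2.1 ∧ G q.2.2 ≤ q.1} := by
    refine MeasurableSet.inter ?_ ?_
    · exact measurableSet_lt measurable_fst (hG.comp (measurable_fst.comp measurable_snd))
    · exact measurableSet_le (hG.comp (measurable_snd.comp measurable_snd)) measurable_fst
  have e1 : ∀ t : ℝ, ν {x | t < G x} * ν {x | t < G x}ᶜ
      = ∫⁻ p, ({q : ℝ × (E × E) | q.1 < G q.2.1 ∧ G q.2.2 ≤ q.1}.indicator 1 (t, p) : ℝ≥0∞)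
          ∂(ν.prod ν) := by
    intro t
    have hS : MeasurableSet {x | t < G x} := measurableSet_lt measurable_const hG
    rw [← Measure.prod_prod, ← lintegral_indicator_one (hS.prod hS.compl)]
    refine lintegral_congr fun p => ?_
    simp only [indicator, mem_prod, mem_ofPred_eq, mem_compl_iff, not_lt, Pi.one_apply]
  simp_rw [e1]
  rw [lintegral_lintegral_swap]
  · refine lintegral_congr fun p => ?_
    have e2 : (fun t : ℝ => ({q : ℝ × (E × E) | q.1 < G q.2.1 ∧ G q.2.2 ≤ q.1}.indicator 1 (t, p)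
        : ℝ≥0∞)) = (Ico (G p.2) (G p.1)).indicator 1 := by
      funext t
      simp only [indicator, mem_ofPred_eq, mem_Ico, Pi.one_apply]
      congr 1
      exact propext ⟨fun h => ⟨h.2, h.1⟩, fun h => ⟨h.2, h.1⟩⟩
    rw [e2, lintegral_indicator_one measurableSet_Ico, Measure.restrict_apply measurableSet_Ico,
      ← Real.volume_Ico]
    apply le_antisymm (measure_mono inter_subset_left)
    calc volume (Ico (G p.2) (G p.1)) ≤ volume (Ico (G p.2) (G p.1) ∩ Ioi 0 ∪ {0}) := by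
          apply measure_mono
          intro t ht
          by_cases h : t = 0
          · right; exact h
          · left
            refine ⟨ht, ?_⟩
            have := h0 p.2
            exact lt_of_le_of_ne (this.trans ht.1) (Ne.symm h)
      _ ≤ volume (Ico (G p.2) (G p.1) ∩ Ioi 0) + volume ({0} : Set ℝ) := measure_union_le _ _
      _ = volume (Ico (G p.2) (G p.1) ∩ Ioi 0) := by simp
  · exact (measurable_one.indicator hT).aemeasurable

theorem memLp_of_bdd (ν : Measure E) [IsFiniteMeasure ν] {g : E → ℝ} (hg : Measurable g)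
    (hb : ∃ B, ∀ x, |g x| ≤ B) (p : ℝ≥0∞) : MemLp g p ν := by
  obtain ⟨B, hB⟩ := hb
  exact MemLp.of_bound hg.aestronglyMeasurable B (ae_of_all _ fun x => by
    rw [Real.norm_eq_abs]; exact hB x)

theorem integrable_of_bdd {F : Type*} [MeasurableSpace F] (ν : Measure F) [IsFiniteMeasure ν]
    {g : F → ℝ} (hg : Measurable g) (hb : ∃ B, ∀ x, |g x| ≤ B) : Integrable g ν := by
  obtain ⟨B, hB⟩ := hb
  exact Integrable.of_bound hg.aestronglyMeasurable B (ae_of_all _ fun x => by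
    rw [Real.norm_eq_abs]; exact hB x)

/-- For one measure. -/
theorem pair_le (ν : Measure E) [IsProbabilityMeasure ν] {g : E → ℝ} (hg : Measurable g)
    (hb : ∃ B, ∀ x, |g x| ≤ B) (h0 : ∀ x, 0 ≤ g x) {δ : ℝ} (hδ : 0 < δ) :
    ∫⁻ p, ENNReal.ofReal (g p.1 ^ 2 - g p.2 ^ 2) ∂(ν.prod ν)
      ≤ ENNReal.ofReal (1 / δ * Var[g; ν] + δ / 2 * ∫ x, g x ^ 2 ∂ν) := by
  obtain ⟨B, hB⟩ := hb
  have hB0 : ∀ x, g x ≤ B := fun x => (le_abs_self _).trans (hB x)
  have hI : Integrable g ν := integrable_of_bdd ν hg ⟨B, hB⟩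
  have hI2 : Integrable (fun x => g x ^ 2) ν := integrable_of_bdd ν (hg.pow_const 2) ⟨B ^ 2, by
    intro x
    rw [abs_of_nonneg (sq_nonneg _)]
    exact pow_le_pow_left₀ (h0 x) (hB0 x) 2⟩
  have hBnn : ∀ x, 0 ≤ B - g x := fun x => by linarith [hB0 x]
  have m1 : Measurable fun p : E × E => g p.1 := hg.comp measurable_fst
  have m2 : Measurable fun p : E × E => g p.2 := hg.comp measurable_snd
  have i1 : Integrable (fun p : E × E => g p.1 ^ 2) (ν.prod ν) :=
    integrable_of_bdd _ (m1.pow_const 2) ⟨B ^ 2, fun p => by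
      rw [abs_of_nonneg (sq_nonneg _)]
      exact pow_le_pow_left₀ (h0 _) (hB0 _) 2⟩
  have i2 : Integrable (fun p : E × E => g p.2 ^ 2) (ν.prod ν) :=
    integrable_of_bdd _ (m2.pow_const 2) ⟨B ^ 2, fun p => by
      rw [abs_of_nonneg (sq_nonneg _)]
      exact pow_le_pow_left₀ (h0 _) (hB0 _) 2⟩
  have i3 : Integrable (fun p : E × E => g p.1 * g p.2) (ν.prod ν) :=
    integrable_of_bdd _ (m1.mul m2) ⟨B * B, fun p => by
      rw [abs_of_nonneg (mul_nonneg (h0 _) (h0 _))]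
      exact mul_le_mul (hB0 _) (hB0 _) (h0 _) ((h0 p.1).trans (hB0 p.1))⟩
  have im : Integrable (fun p : E × E => max (g p.1 ^ 2 - g p.2 ^ 2) 0) (ν.prod ν) :=
    (i1.sub i2).pos_part
  have e0 : ∫⁻ p, ENNReal.ofReal (g p.1 ^ 2 - g p.2 ^ 2) ∂(ν.prod ν)
      = ENNReal.ofReal (∫ p, max (g p.1 ^ 2 - g p.2 ^ 2) 0 ∂(ν.prod ν)) := by
    rw [ofReal_integral_eq_lintegral_ofReal im (ae_of_all _ fun p => le_max_right _ _)]
    refine lintegral_congr fun p => ?_
    rw [ENNReal.ofReal_max, ENNReal.ofReal_zero, max_eq_left zero_le]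
  rw [e0]
  apply ENNReal.ofReal_le_ofReal
  -- symmetrisation
  have hsw : ∫ p, max (g p.1 ^ 2 - g p.2 ^ 2) 0 ∂(ν.prod ν)
      = ∫ p, max (g p.2 ^ 2 - g p.1 ^ 2) 0 ∂(ν.prod ν) := by
    rw [← integral_prod_swap]
    rfl
  have im' : Integrable (fun p : E × E => max (g p.2 ^ 2 - g p.1 ^ 2) 0) (ν.prod ν) :=
    (i2.sub i1).pos_part
  have e3 : ∫ p, g p.1 ^ 2 ∂(ν.prod ν) = ∫ x, g x ^ 2 ∂ν := by
    have := integral_fun_fst (μ := ν) (ν := ν) (fun x => g x ^ 2)
    simpa using this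
  have e4 : ∫ p, g p.2 ^ 2 ∂(ν.prod ν) = ∫ x, g x ^ 2 ∂ν := by
    have := integral_fun_snd (μ := ν) (ν := ν) (fun x => g x ^ 2)
    simpa using this
  have e5 : ∫ p, g p.1 * g p.2 ∂(ν.prod ν) = (∫ x, g x ∂ν) * ∫ x, g x ∂ν :=
    integral_prod_mul (μ := ν) (ν := ν) g g
  have hvar : Var[g; ν] = ∫ x, g x ^ 2 ∂ν - (∫ x, g x ∂ν) ^ 2 := by
    have := variance_eq_sub (μ := ν) (X := g) (memLp_of_bdd ν hg ⟨B, hB⟩ 2)
    simpa using this
  have hub : ∫ p, (max (g p.1 ^ 2 - g p.2 ^ 2) 0 + max (g p.2 ^ 2 - g p.1 ^ 2) 0) ∂(ν.prod ν)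
      ≤ ∫ p, ((1 / δ + δ / 4) * g p.1 ^ 2 + ((1 / δ + δ / 4) * g p.2 ^ 2
        + (-(2 / δ) + δ / 2) * (g p.1 * g p.2))) ∂(ν.prod ν) := by
    refine integral_mono (im.add im') ((i1.const_mul _).add ((i2.const_mul _).add
      (i3.const_mul _))) fun p => ?_
    have hx := h0 p.1
    have hy := h0 p.2
    have key : |g p.1 - g p.2| * (g p.1 + g p.2)
        ≤ 1 / δ * (g p.1 - g p.2) ^ 2 + δ / 4 * (g p.1 + g p.2) ^ 2 := by
      rw [← sq_abs (g p.1 - g p.2)]
      have h5 : 0 ≤ 1 / δ * (|g p.1 - g p.2| - δ / 2 * (g p.1 + g p.2)) ^ 2 := by positivity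
      have h6 : 1 / δ * (|g p.1 - g p.2| - δ / 2 * (g p.1 + g p.2)) ^ 2
          = 1 / δ * |g p.1 - g p.2| ^ 2 + δ / 4 * (g p.1 + g p.2) ^ 2
            - |g p.1 - g p.2| * (g p.1 + g p.2) := by
        field_simp
        ring
      linarith
    have h7 : max (g p.1 ^ 2 - g p.2 ^ 2) 0 + max (g p.2 ^ 2 - g p.1 ^ 2) 0
        = |g p.1 - g p.2| * (g p.1 + g p.2) := by
      rcases le_total (g p.1) (g p.2) with h | h
      · rw [max_eq_right (by nlinarith), max_eq_left (by nlinarith), abs_of_nonpos (by linarith)]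
        ring
      · rw [max_eq_left (by nlinarith), max_eq_right (by nlinarith), abs_of_nonneg (by linarith)]
        ring
    change max (g p.1 ^ 2 - g p.2 ^ 2) 0 + max (g p.2 ^ 2 - g p.1 ^ 2) 0 ≤ _
    rw [h7]
    refine key.trans (le_of_eq ?_)
    ring
  have i23 : Integrable (fun p : E × E => (1 / δ + δ / 4) * g p.2 ^ 2
      + (-(2 / δ) + δ / 2) * (g p.1 * g p.2)) (ν.prod ν) := (i2.const_mul _).add (i3.const_mul _)
  rw [integral_add im im', ← hsw, integral_add (i1.const_mul _) i23,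
    integral_add (i2.const_mul _) (i3.const_mul _), integral_const_mul,
      integral_const_mul, integral_const_mul, e3, e4, e5] at hub
  have hJ : (∫ x, g x ∂ν) ^ 2 ≤ ∫ x, g x ^ 2 ∂ν := by
    have := variance_nonneg g ν
    rw [hvar] at this
    linarith
  rw [hvar]
  have h8 : δ / 2 * ((∫ x, g x ∂ν) * ∫ x, g x ∂ν) ≤ δ / 2 * ∫ x, g x ^ 2 ∂ν := by
    rw [← sq]
    exact mul_le_mul_of_nonneg_left hJ (by positivity)
  have h9 : 2 / δ = 1 / δ + 1 / δ := by ring
  nlinarith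

end one

section two

variable {A E : Type*} [MeasurableSpace A] [MeasurableSpace E]

theorem meas_int (κ : Kernel A E) [IsMarkovKernel κ] {g : E → ℝ} (hg : Measurable g) :
    Measurable fun a => ∫ x, g x ∂(κ a) :=
  (StronglyMeasurable.integral_kernel (κ := κ) hg.stronglyMeasurable).measurable

theorem bind_int (P : Measure A) [IsProbabilityMeasure P] (κ : Kernel A E) [IsMarkovKernel κ]
    {g : E → ℝ} (hg : Measurable g) (hb : ∃ B, ∀ x, |g x| ≤ B) :
    ∫ x, g x ∂(P.bind κ) = ∫ a, ∫ x, g x ∂(κ a) ∂P := by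
  rw [Measure.comp_eq_comp_const_apply, Kernel.integral_comp (integrable_of_bdd _ hg hb),
    Kernel.const_apply]

theorem sq_bdd {E : Type*} {g : E → ℝ} (hb : ∃ B, ∀ x, |g x| ≤ B) : ∃ B, ∀ x, |g x ^ 2| ≤ B := by
  obtain ⟨B, hB⟩ := hb
  refine ⟨B ^ 2, fun x => ?_⟩
  rw [abs_of_nonneg (sq_nonneg _), ← sq_abs]
  exact pow_le_pow_left₀ (abs_nonneg _) (hB x) 2

theorem int_bdd {E : Type*} [MeasurableSpace E] (ν : Measure E) [IsProbabilityMeasure ν]
    {g : E → ℝ} {B : ℝ} (hB : ∀ x, |g x| ≤ B) : |∫ x, g x ∂ν| ≤ B := by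
  have h := norm_integral_le_of_norm_le_const (μ := ν) (f := g) (C := B)
    (ae_of_all _ fun x => by rw [Real.norm_eq_abs]; exact hB x)
  simpa using h

theorem var_eq {E : Type*} [MeasurableSpace E] (ν : Measure E) [IsProbabilityMeasure ν]
    {g : E → ℝ} (hg : Measurable g) (hb : ∃ B, ∀ x, |g x| ≤ B) :
    Var[g; ν] = ∫ x, g x ^ 2 ∂ν - (∫ x, g x ∂ν) ^ 2 := by
  have := variance_eq_sub (μ := ν) (X := g) (memLp_of_bdd ν hg hb 2)
  simpa using this

theorem integrable_var (P : Measure A) [IsProbabilityMeasure P] (κ : Kernel A E)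
    [IsMarkovKernel κ] {g : E → ℝ} (hg : Measurable g) (hb : ∃ B, ∀ x, |g x| ≤ B) :
    Integrable (fun a => Var[g; κ a]) P := by
  have e : (fun a => Var[g; κ a]) = fun a => ∫ x, g x ^ 2 ∂(κ a) - (∫ x, g x ∂(κ a)) ^ 2 :=
    funext fun a => var_eq (κ a) hg hb
  rw [e]
  obtain ⟨B, hB⟩ := hb
  obtain ⟨B2, hB2⟩ := sq_bdd ⟨B, hB⟩
  refine Integrable.sub ?_ ?_
  · exact integrable_of_bdd P (meas_int κ (hg.pow_const 2)) ⟨B2, fun a => int_bdd (κ a) hB2⟩
  · exact integrable_of_bdd P ((meas_int κ hg).pow_const 2)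
      (sq_bdd ⟨B, fun a => int_bdd (κ a) hB⟩)

/-- Measurability of `(t, a) ↦ κ a {t < G}`. -/
theorem meas_joint (κ : Kernel A E) [IsMarkovKernel κ] {G : E → ℝ} (hG : Measurable G) :
    Measurable fun q : ℝ × A => κ q.2 {x | q.1 < G x} := by
  have hS : MeasurableSet {p : (ℝ × A) × E | p.1.1 < G p.2} :=
    measurableSet_lt (measurable_fst.comp measurable_fst) (hG.comp measurable_snd)
  exact Kernel.measurable_kernel_prodMk_left (κ := κ.comap Prod.snd measurable_snd) hS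

/-- Inequality for nonnegative functions supported on at most half of the space. -/
theorem half (P : Measure A) [IsProbabilityMeasure P] (κ : Kernel A E) [IsMarkovKernel κ] {δ : ℝ}
    (hδ : 0 < δ)
    (h : ∀ S : Set E, MeasurableSet S → (P.bind κ) S ≤ 1 / 2 →
      ENNReal.ofReal δ * (P.bind κ) S ≤ ∫⁻ a, κ a S * κ a Sᶜ ∂P)
    {g : E → ℝ} (hg : Measurable g) (hb : ∃ B, ∀ x, |g x| ≤ B) (h0 : ∀ x, 0 ≤ g x)
    (hs : (P.bind κ) {x | 0 < g x} ≤ 1 / 2) :
    δ ^ 2 / 2 * ∫ x, g x ^ 2 ∂(P.bind κ) ≤ ∫ a, Var[g; κ a] ∂P := by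
  have hG : Measurable fun x => g x ^ 2 := hg.pow_const 2
  have hI2 : Integrable (fun x => g x ^ 2) (P.bind κ) := integrable_of_bdd _ hG (sq_bdd hb)
  have hIV := integrable_var P κ hg hb
  have hIs : Integrable (fun a => ∫ x, g x ^ 2 ∂(κ a)) P := by
    obtain ⟨B2, hB2⟩ := sq_bdd hb
    exact integrable_of_bdd P (meas_int κ hG) ⟨B2, fun a => int_bdd (κ a) hB2⟩
  have hIΨ : Integrable (fun a => 1 / δ * Var[g; κ a] + δ / 2 * ∫ x, g x ^ 2 ∂(κ a)) P :=
    (hIV.const_mul _).add (hIs.const_mul _)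
  have main : ENNReal.ofReal (δ * ∫ x, g x ^ 2 ∂(P.bind κ))
      ≤ ENNReal.ofReal (∫ a, (1 / δ * Var[g; κ a] + δ / 2 * ∫ x, g x ^ 2 ∂(κ a)) ∂P) := by
    rw [ENNReal.ofReal_mul hδ.le, ofReal_integral_eq_lintegral_ofReal hI2
      (ae_of_all _ fun x => sq_nonneg _), ofReal_integral_eq_lintegral_ofReal hIΨ
      (ae_of_all _ fun a => by
        have h1 := variance_nonneg g (κ a)
        have h2 : 0 ≤ ∫ x, g x ^ 2 ∂(κ a) := integral_nonneg fun x => sq_nonneg _
        positivity),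
      lintegral_eq_lintegral_meas_lt _ (ae_of_all _ fun x => sq_nonneg _) hG.aemeasurable]
    calc ENNReal.ofReal δ * ∫⁻ t in Ioi (0 : ℝ), (P.bind κ) {x | t < g x ^ 2}
        = ∫⁻ t in Ioi (0 : ℝ), ENNReal.ofReal δ * (P.bind κ) {x | t < g x ^ 2} := by
          rw [lintegral_const_mul' _ _ ENNReal.ofReal_ne_top]
      _ ≤ ∫⁻ t in Ioi (0 : ℝ), ∫⁻ a, κ a {x | t < g x ^ 2} * κ a {x | t < g x ^ 2}ᶜ ∂P := by
          refine setLIntegral_mono' measurableSet_Ioi fun t ht => ?_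
          refine h _ (measurableSet_lt measurable_const hG) (le_trans (measure_mono ?_) hs)
          intro x hx
          have hx' : t < g x ^ 2 := hx
          have ht' : (0 : ℝ) < t := ht
          have h5 : 0 < g x ^ 2 := ht'.trans hx'
          have h6 : g x ≠ 0 := fun h6 => by rw [h6] at h5; norm_num at h5
          exact lt_of_le_of_ne (h0 x) (Ne.symm h6)
      _ = ∫⁻ a, (∫⁻ t in Ioi (0 : ℝ), κ a {x | t < g x ^ 2} * κ a {x | t < g x ^ 2}ᶜ) ∂P := by
          rw [lintegral_lintegral_swap]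
          have hm := meas_joint κ hG
          have hc : (fun q : ℝ × A => κ q.2 {x | q.1 < g x ^ 2} * κ q.2 {x | q.1 < g x ^ 2}ᶜ)
              = fun q : ℝ × A => κ q.2 {x | q.1 < g x ^ 2} * (1 - κ q.2 {x | q.1 < g x ^ 2}) := by
            funext q
            rw [prob_compl_eq_one_sub (measurableSet_lt measurable_const hG)]
          have : Measurable
              (fun q : ℝ × A => κ q.2 {x | q.1 < g x ^ 2} * κ q.2 {x | q.1 < g x ^ 2}ᶜ) := by
            rw [hc]
            exact hm.mul (measurable_const.sub hm)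
          exact this.aemeasurable
      _ = ∫⁻ a, ∫⁻ p, ENNReal.ofReal (g p.1 ^ 2 - g p.2 ^ 2) ∂((κ a).prod (κ a)) ∂P := by
          refine lintegral_congr fun a => ?_
          exact layer_pair (κ a) hG fun x => sq_nonneg _
      _ ≤ ∫⁻ a, ENNReal.ofReal (1 / δ * Var[g; κ a] + δ / 2 * ∫ x, g x ^ 2 ∂(κ a)) ∂P :=
          lintegral_mono fun a => pair_le (κ a) hg hb h0 hδ
  have hΨ0 : 0 ≤ ∫ a, (1 / δ * Var[g; κ a] + δ / 2 * ∫ x, g x ^ 2 ∂(κ a)) ∂P := by
    refine integral_nonneg fun a => ?_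
    have h1 := variance_nonneg g (κ a)
    have h2 : 0 ≤ ∫ x, g x ^ 2 ∂(κ a) := integral_nonneg fun x => sq_nonneg _
    positivity
  have main2 := (ENNReal.ofReal_le_ofReal_iff hΨ0).mp main
  rw [integral_add (hIV.const_mul _) (hIs.const_mul _), integral_const_mul, integral_const_mul,
    ← bind_int P κ hG (sq_bdd hb)] at main2
  have h5 : δ / 2 * ∫ x, g x ^ 2 ∂(P.bind κ) ≤ 1 / δ * ∫ a, Var[g; κ a] ∂P := by linarith
  calc δ ^ 2 / 2 * ∫ x, g x ^ 2 ∂(P.bind κ) = δ * (δ / 2 * ∫ x, g x ^ 2 ∂(P.bind κ)) := by ring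
    _ ≤ δ * (1 / δ * ∫ a, Var[g; κ a] ∂P) := mul_le_mul_of_nonneg_left h5 hδ.le
    _ = ∫ a, Var[g; κ a] ∂P := by field_simp

/-- Existence of a median. -/
theorem exists_median (μ : Measure E) [IsProbabilityMeasure μ] {f : E → ℝ} (hf : Measurable f)
    (hb : ∃ B, ∀ x, |f x| ≤ B) :
    ∃ m : ℝ, μ {x | m < f x} ≤ 1 / 2 ∧ μ {x | f x < m} ≤ 1 / 2 := by
  obtain ⟨B, hB⟩ := hb
  set S : Set ℝ := {t | μ {x | t < f x} ≤ 1 / 2} with hS
  have hSne : S.Nonempty := ⟨B, by
    have : {x | B < f x} = ∅ := by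
      ext x
      simp only [mem_ofPred_eq, mem_empty_iff_false, iff_false, not_lt]
      exact (le_abs_self _).trans (hB x)
    rw [hS, mem_ofPred_eq, this, measure_empty]
    exact zero_le⟩
  have hSbd : BddBelow S := ⟨-B - 1, by
    intro t ht
    by_contra hlt
    push Not at hlt
    have : {x | t < f x} = univ := by
      ext x
      simp only [mem_ofPred_eq, mem_univ, iff_true]
      have := neg_abs_le (f x)
      have := hB x
      linarith
    rw [hS, mem_ofPred_eq, this, measure_univ] at ht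
    have h2 : (1 : ℝ≥0∞) / 2 < 1 := by
      rw [one_div]; exact ENNReal.one_half_lt_one
    exact absurd ht (not_le.mpr h2)⟩
  set m := sInf S with hm
  refine ⟨m, ?_, ?_⟩
  · -- right continuity
    have hU : {x | m < f x} = ⋃ n : ℕ, {x | m + 1 / ((n : ℝ) + 1) < f x} := by
      ext x
      simp only [mem_ofPred_eq, mem_iUnion]
      constructor
      · intro h
        obtain ⟨n, hn⟩ := exists_nat_one_div_lt (sub_pos.mpr h)
        exact ⟨n, by linarith⟩
      · rintro ⟨n, hn⟩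
        have : 0 < 1 / ((n : ℝ) + 1) := by positivity
        linarith
    have hmono : Monotone fun n : ℕ => {x | m + 1 / ((n : ℝ) + 1) < f x} := by
      intro a b hab x hx
      simp only [mem_ofPred_eq] at hx ⊢
      have : 1 / ((b : ℝ) + 1) ≤ 1 / ((a : ℝ) + 1) := by
        apply one_div_le_one_div_of_le (by positivity)
        have : (a : ℝ) ≤ b := by exact_mod_cast hab
        linarith
      linarith
    rw [hU, hmono.measure_iUnion]
    refine iSup_le fun n => ?_
    have hpos : 0 < 1 / ((n : ℝ) + 1) := by positivity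
    obtain ⟨t, htS, ht⟩ := exists_lt_of_csInf_lt hSne (show sInf S < m + 1 / ((n : ℝ) + 1) by
      rw [← hm]; linarith)
    refine le_trans (measure_mono ?_) htS
    intro x hx
    simp only [mem_ofPred_eq] at hx ⊢
    linarith
  · have hU : {x | f x < m} = ⋃ n : ℕ, {x | f x ≤ m - 1 / ((n : ℝ) + 1)} := by
      ext x
      simp only [mem_ofPred_eq, mem_iUnion]
      constructor
      · intro h
        obtain ⟨n, hn⟩ := exists_nat_one_div_lt (sub_pos.mpr h)
        exact ⟨n, by linarith⟩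
      · rintro ⟨n, hn⟩
        have : 0 < 1 / ((n : ℝ) + 1) := by positivity
        linarith
    have hmono : Monotone fun n : ℕ => {x | f x ≤ m - 1 / ((n : ℝ) + 1)} := by
      intro a b hab x hx
      simp only [mem_ofPred_eq] at hx ⊢
      have : 1 / ((b : ℝ) + 1) ≤ 1 / ((a : ℝ) + 1) := by
        apply one_div_le_one_div_of_le (by positivity)
        have : (a : ℝ) ≤ b := by exact_mod_cast hab
        linarith
      linarith
    rw [hU, hmono.measure_iUnion]
    refine iSup_le fun n => ?_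
    have hpos : 0 < 1 / ((n : ℝ) + 1) := by positivity
    have hnS : m - 1 / ((n : ℝ) + 1) ∉ S := fun h => by
      have := csInf_le hSbd h
      linarith
    have h3 : 1 / 2 < μ {x | m - 1 / ((n : ℝ) + 1) < f x} := not_le.mp hnS
    have h4 : {x | f x ≤ m - 1 / ((n : ℝ) + 1)} = {x | m - 1 / ((n : ℝ) + 1) < f x}ᶜ := by
      ext x
      simp
    rw [h4, prob_compl_eq_one_sub (measurableSet_lt measurable_const hf)]
    refine tsub_le_iff_right.mpr ?_
    calc (1 : ℝ≥0∞) = 1 / 2 + 1 / 2 := by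
          rw [one_div, ENNReal.inv_two_add_inv_two]
      _ ≤ 1 / 2 + μ {x | m - 1 / ((n : ℝ) + 1) < f x} := by gcongr

end two

end KC

/-- Cheeger inequality for a channel -/
theorem kcheeger {A E : Type*} [MeasurableSpace A] [MeasurableSpace E] (P : Measure A)
    [IsProbabilityMeasure P] (κ : Kernel A E) [IsMarkovKernel κ] {δ : ℝ} (hδ : 0 < δ)
    (h : ∀ S : Set E, MeasurableSet S → (P.bind κ) S ≤ 1 / 2 →
      ENNReal.ofReal δ * (P.bind κ) S ≤ ∫⁻ a, κ a S * κ a Sᶜ ∂P)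
    (f : E → ℝ) (hf : Measurable f) (hb : ∃ B, ∀ x, |f x| ≤ B) :
    δ ^ 2 / 2 * Var[f; P.bind κ] ≤ ∫ a, Var[f; κ a] ∂P := by
  obtain ⟨m, hm1, hm2⟩ := KC.exists_median (P.bind κ) hf hb
  obtain ⟨B, hB⟩ := hb
  set u : E → ℝ := fun x => max (f x - m) 0 with hu
  set v : E → ℝ := fun x => max (m - f x) 0 with hv
  have hum : Measurable u := (hf.sub_const m).max measurable_const
  have hvm : Measurable v := (hf.const_sub m).max measurable_const
  have hub : ∃ B', ∀ x, |u x| ≤ B' := ⟨B + |m|, fun x => by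
    rw [hu, abs_of_nonneg (le_max_right _ _)]
    refine max_le ?_ (by have := abs_nonneg m; have := (abs_nonneg (f x)).trans (hB x); linarith)
    have h1 := (le_abs_self _).trans (hB x)
    have h2 := neg_abs_le m
    linarith⟩
  have hvb : ∃ B', ∀ x, |v x| ≤ B' := ⟨B + |m|, fun x => by
    rw [hv, abs_of_nonneg (le_max_right _ _)]
    refine max_le ?_ (by have := abs_nonneg m; have := (abs_nonneg (f x)).trans (hB x); linarith)
    have h1 := hB x
    have h2 := neg_abs_le (f x)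
    have h3 := le_abs_self m
    linarith⟩
  have hu0 : ∀ x, 0 ≤ u x := fun x => le_max_right _ _
  have hv0 : ∀ x, 0 ≤ v x := fun x => le_max_right _ _
  have huv : ∀ x, u x * v x = 0 := by
    intro x
    rcases le_total (f x) m with h | h
    · rw [hu]
      change max (f x - m) 0 * _ = 0
      rw [max_eq_right (by linarith), zero_mul]
    · rw [hv]
      change _ * max (m - f x) 0 = 0
      rw [max_eq_right (by linarith), mul_zero]
  have hfuv : ∀ x, f x = m + (u x - v x) := by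
    intro x
    rcases le_total (f x) m with h | h
    · have e1 : u x = 0 := max_eq_right (by linarith)
      have e2 : v x = m - f x := max_eq_left (by linarith)
      rw [e1, e2]; ring
    · have e1 : u x = f x - m := max_eq_left (by linarith)
      have e2 : v x = 0 := max_eq_right (by linarith)
      rw [e1, e2]; ring
  have hus : (P.bind κ) {x | 0 < u x} ≤ 1 / 2 := by
    refine le_trans (measure_mono ?_) hm1
    intro x hx
    have hx' : 0 < max (f x - m) 0 := hx
    rcases lt_max_iff.mp hx' with h | h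
    · change m < f x; linarith
    · exact absurd h (lt_irrefl _)
  have hvs : (P.bind κ) {x | 0 < v x} ≤ 1 / 2 := by
    refine le_trans (measure_mono ?_) hm2
    intro x hx
    have hx' : 0 < max (m - f x) 0 := hx
    rcases lt_max_iff.mp hx' with h | h
    · change f x < m; linarith
    · exact absurd h (lt_irrefl _)
  have H1 := KC.half P κ hδ h hum hub hu0 hus
  have H2 := KC.half P κ hδ h hvm hvb hv0 hvs
  -- pointwise comparison of variances
  have sq_dec : ∀ x, (f x) ^ 2 = m ^ 2 + (2 * m * u x + (-(2 * m) * v x + (u x ^ 2 + v x ^ 2))) := by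
    intro x
    rw [hfuv x]
    linear_combination (-2) * huv x
  have dec : ∀ (ν : Measure E) [IsProbabilityMeasure ν],
      Var[f; ν] = Var[u; ν] + Var[v; ν] + 2 * ((∫ x, u x ∂ν) * ∫ x, v x ∂ν) ∧
      Var[f; ν] ≤ ∫ x, u x ^ 2 ∂ν + ∫ x, v x ^ 2 ∂ν := by
    intro ν _
    have iu := KC.integrable_of_bdd ν hum hub
    have iv := KC.integrable_of_bdd ν hvm hvb
    have iu2 := KC.integrable_of_bdd ν (hum.pow_const 2) (KC.sq_bdd hub)
    have iv2 := KC.integrable_of_bdd ν (hvm.pow_const 2) (KC.sq_bdd hvb)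
    have e1 : ∫ x, f x ∂ν = m + (∫ x, u x ∂ν - ∫ x, v x ∂ν) := by
      simp_rw [hfuv]
      have j0 : Integrable (fun x => u x - v x) ν := iu.sub iv
      rw [integral_add (integrable_const m) j0, integral_sub iu iv]
      simp
    have e2 : ∫ x, f x ^ 2 ∂ν = m ^ 2 + (2 * m * ∫ x, u x ∂ν + (-(2 * m) * ∫ x, v x ∂ν
        + (∫ x, u x ^ 2 ∂ν + ∫ x, v x ^ 2 ∂ν))) := by
      simp_rw [sq_dec]
      have j1 : Integrable (fun x => u x ^ 2 + v x ^ 2) ν := iu2.add iv2
      have j2 : Integrable (fun x => -(2 * m) * v x + (u x ^ 2 + v x ^ 2)) ν :=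
        (iv.const_mul _).add j1
      have j3 : Integrable (fun x => 2 * m * u x + (-(2 * m) * v x + (u x ^ 2 + v x ^ 2))) ν :=
        (iu.const_mul _).add j2
      rw [integral_add (integrable_const _) j3, integral_add (iu.const_mul _) j2,
        integral_add (iv.const_mul _) j1, integral_add iu2 iv2, integral_const_mul,
        integral_const_mul]
      simp
    have vf := KC.var_eq ν hf ⟨B, hB⟩
    have vu := KC.var_eq ν hum hub
    have vv := KC.var_eq ν hvm hvb
    constructor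
    · rw [vf, vu, vv, e1, e2]; ring
    · rw [vf, e1, e2]
      have := sq_nonneg (∫ x, u x ∂ν - ∫ x, v x ∂ν)
      nlinarith
  have hV := (dec (P.bind κ)).2
  have hmono : ∫ a, Var[u; κ a] ∂P + ∫ a, Var[v; κ a] ∂P ≤ ∫ a, Var[f; κ a] ∂P := by
    rw [← integral_add (KC.integrable_var P κ hum hub) (KC.integrable_var P κ hvm hvb)]
    refine integral_mono ((KC.integrable_var P κ hum hub).add (KC.integrable_var P κ hvm hvb))
      (KC.integrable_var P κ hf ⟨B, hB⟩) fun a => ?_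
    have h1 := (dec (κ a)).1
    have h2 : 0 ≤ ∫ x, u x ∂(κ a) := integral_nonneg hu0
    have h3 : 0 ≤ ∫ x, v x ∂(κ a) := integral_nonneg hv0
    change Var[u; κ a] + Var[v; κ a] ≤ Var[f; κ a]
    rw [h1]
    have := mul_nonneg h2 h3
    linarith
  have hδ2 : 0 ≤ δ ^ 2 / 2 := by positivity
  calc δ ^ 2 / 2 * Var[f; P.bind κ]
      ≤ δ ^ 2 / 2 * (∫ x, u x ^ 2 ∂(P.bind κ) + ∫ x, v x ^ 2 ∂(P.bind κ)) :=
        mul_le_mul_of_nonneg_left hV hδ2
    _ = δ ^ 2 / 2 * ∫ x, u x ^ 2 ∂(P.bind κ) + δ ^ 2 / 2 * ∫ x, v x ^ 2 ∂(P.bind κ) := by ring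
    _ ≤ ∫ a, Var[u; κ a] ∂P + ∫ a, Var[v; κ a] ∂P := add_le_add H1 H2
    _ ≤ ∫ a, Var[f; κ a] ∂P := hmono

end Pool.Agent.Lib.MP_6d896a_gt.FP
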