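import Mathlib
import Pool.Agent.Lib.MP_6d896a_gt.FP.Small
import Pool.Agent.Lib.MP_6d896a_gt.FP.LipVar

/-!
All sets of mass at most one half lose a fixed proportion of their mass through the channel.
-/

set_option autoImplicit false

namespace Pool.Agent.Lib.MP_6d896a_gt.FP

open MeasureTheory ProbabilityTheory Set Filter
open scoped ENNReal Topology

variable {E : Type*} [NormedAddCommGroup E] [InnerProductSpace ℝ E] [FiniteDimensional ℝ E]
  [MeasurableSpace E] [BorelSpace E]

/-- the precision of the channel -/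
noncomputable def sone (M : ℝ) : ℝ := 1 / (640 * kap M ^ 2)

lemma kap_pos {M : ℝ} (hM : 0 < M) : 0 < kap M := by unfold kap; positivity

lemma sone_pos {M : ℝ} (hM : 0 < M) : 0 < sone M := by
  have := kap_pos hM
  unfold sone; positivity

lemma ofReal_gconv {s : ℝ} (hs : 0 < s) {p : E → ℝ} (hp : Measurable p) (h0 : ∀ x, 0 ≤ p x)
    (h1 : ∀ x, p x ≤ 1) (x : E) : ENNReal.ofReal (gconv s p x) =
      ∫⁻ a, ENNReal.ofReal (p a) * ENNReal.ofReal (gk s (a - x)) := by
  have hb : ∀ y, |p y| ≤ 1 := fun y => by rw [abs_of_nonneg (h0 y)]; exact h1 y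
  unfold gconv
  rw [ofReal_integral_eq_lintegral_ofReal (gconv_integrable hs hp hb x)
    (ae_of_all _ fun y => mul_nonneg (h0 y) (gk_pos hs _).le)]
  apply lintegral_congr
  intro a
  rw [ENNReal.ofReal_mul (h0 a)]
  congr 2
  rw [← gk_symm, neg_sub]

lemma gconv_nonneg {s : ℝ} (hs : 0 < s) {p : E → ℝ} (h0 : ∀ x, 0 ≤ p x) (x : E) :
    0 ≤ gconv s p x := integral_nonneg fun y => mul_nonneg (h0 y) (gk_pos hs _).le

theorem large_sets {μ : Measure E} [IsProbabilityMeasure μ] {M : ℝ} (hM : 0 < M)
    (hv : LVe μ M eta0) {S : Set E} (hS : MeasurableSet S) (hS1 : Real.exp (-72) ≤ μ.real S)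
    (hS2 : μ.real S ≤ 1 / 2) :
    ENNReal.ofReal (1 / 64) * μ S ≤
      ∫⁻ a, qE (sone M) μ (S.indicator 1) a *
        (qE (sone M) μ (Sᶜ.indicator 1) a / qE (sone M) μ (fun _ => 1) a) := by
  have hs₁ := sone_pos hM
  set s₁ := sone M with hs₁d
  set ε := μ.real S with hε
  have hε0 : 0 < ε := lt_of_lt_of_le (Real.exp_pos _) hS1
  set qS := qE s₁ μ (S.indicator 1) with hqS
  set qC := qE s₁ μ (Sᶜ.indicator 1) with hqC
  set q1 := qE s₁ μ (fun _ => 1) with hq1
  have mS : Measurable qS := qE_measurable (measurable_one.indicator hS)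
  have mC : Measurable qC := qE_measurable (measurable_one.indicator hS.compl)
  have m1 : Measurable q1 := qE_measurable measurable_const
  have hsplit : ∀ a, qS a + qC a = q1 a := fun a => qE_split hS a
  have hq1t : ∀ a, q1 a ≠ ∞ := fun a => qE_ne_top hs₁ (fun _ => le_rfl) a
  have hq10 : ∀ a, q1 a ≠ 0 := fun a => qE_one_pos hs₁ a
  have hqle : ∀ a, qS a ≤ q1 a := fun a => by rw [← hsplit a]; exact le_self_add
  have hqCle : ∀ a, qC a ≤ q1 a := fun a => by rw [← hsplit a]; exact le_add_self
  set p : E → ℝ := fun a => (qS a / q1 a).toReal with hp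
  have mp : Measurable p := (mS.div m1).ennreal_toReal
  have hp0 : ∀ a, 0 ≤ p a := fun a => ENNReal.toReal_nonneg
  have hratio : ∀ a, qS a / q1 a ≤ 1 := fun a => by
    rw [ENNReal.div_le_iff (hq10 a) (hq1t a), one_mul]; exact hqle a
  have hp1 : ∀ a, p a ≤ 1 := fun a => by
    have := ENNReal.toReal_mono ENNReal.one_ne_top (hratio a)
    rwa [ENNReal.toReal_one] at this
  have hpo : ∀ a, ENNReal.ofReal (p a) = qS a / q1 a := fun a =>
    ENNReal.ofReal_toReal (ne_top_of_le_ne_top ENNReal.one_ne_top (hratio a))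
  have hpb : ∀ y, |p y| ≤ 1 := fun y => by rw [abs_of_nonneg (hp0 y)]; exact hp1 y
  set g := gconv s₁ p with hg
  have hgC : ContDiff ℝ 1 g := gconv_contDiff hs₁ mp hpb
  have mg : Measurable g := hgC.continuous.measurable
  have hg0 : ∀ x, 0 ≤ g x := gconv_nonneg hs₁ hp0
  have hgb : ∀ x, |g x| ≤ 1 := gconv_abs_le hs₁ hpb
  have hg1 : ∀ x, g x ≤ 1 := fun x => (le_abs_self _).trans (hgb x)
  -- Lipschitz constant
  have hlip : ∀ x y, |g x - g y| ≤ Real.sqrt (2 * s₁) * ‖x - y‖ := by
    intro x y
    have h1 : ∀ x, ‖fderiv ℝ g x‖ ≤ Real.sqrt (2 * s₁) := by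
      intro x
      apply Real.le_sqrt_of_sq_le
      refine (gconv_grad hs₁ mp hpb x).trans ?_
      have h2 : gconv s₁ (fun y => p y ^ 2) x ≤ 1 := by
        have : ∀ y, |p y ^ 2| ≤ 1 := fun y => by
          rw [abs_pow]; exact pow_le_one₀ (abs_nonneg _) (hpb y)
        exact (le_abs_self _).trans (gconv_abs_le hs₁ this x)
      have h3 : gconv s₁ (fun y => p y ^ 2) x - gconv s₁ p x ^ 2 ≤ 1 := by
        have := sq_nonneg (gconv s₁ p x)
        linarith
      calc 2 * s₁ * (gconv s₁ (fun y => p y ^ 2) x - gconv s₁ p x ^ 2) ≤ 2 * s₁ * 1 := by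
            gcongr
        _ = _ := mul_one _
    have := convex_univ.norm_image_sub_le_of_norm_fderiv_le (𝕜 := ℝ)
      (fun x _ => (hgC.differentiable (by norm_num) x)) (fun x _ => h1 x)
      (Set.mem_univ y) (Set.mem_univ x)
    exact this
  have hvar := hv.lip hgb (l := Real.sqrt (2 * s₁)) (by positivity) hlip
  rw [Real.sq_sqrt (by positivity)] at hvar
  -- two integrals
  have hI : ∀ F : E → ℝ≥0∞, Measurable F → ∫⁻ x, F x * ENNReal.ofReal (g x) ∂μ =
      ∫⁻ a, (qS a / q1 a) * qE s₁ μ F a := by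
    intro F hF
    have h1 := lint_qE (s := s₁) (μ := μ) (F := F) (H := fun a => ENNReal.ofReal (p a)) hF
      mp.ennreal_ofReal
    simp only [hpo] at h1
    rw [h1]
    apply lintegral_congr
    intro x
    rw [hg, ofReal_gconv hs₁ mp hp0 hp1]
    simp only [hpo]
  have hgI : ∫ x, g x ∂μ = ε := by
    rw [integral_eq_lintegral_of_nonneg_ae (ae_of_all _ hg0) mg.aestronglyMeasurable]
    have h1 := hI (fun _ => 1) measurable_const
    simp only [one_mul] at h1
    rw [h1]
    have h2 : ∀ a, qS a / q1 a * q1 a = qS a := fun a => ENNReal.div_mul_cancel (hq10 a) (hq1t a)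
    rw [← hq1]
    simp only [h2]
    rw [hqS, lint_qE_one hs₁ (measurable_one.indicator hS), lintegral_indicator_one hS]
    rfl
  set J := ∫ x in S, g x ∂μ with hJ
  have hJ' : ENNReal.ofReal J = ∫⁻ a, qS a * (qS a / q1 a) := by
    rw [hJ, ofReal_integral_eq_lintegral_ofReal (bdd_integrable _ mg hgb) (ae_of_all _ hg0)]
    have h1 := hI (S.indicator 1) (measurable_one.indicator hS)
    have h2 : ∀ x, S.indicator (1 : E → ℝ≥0∞) x * ENNReal.ofReal (g x) =
        S.indicator (fun x => ENNReal.ofReal (g x)) x := by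
      intro x
      by_cases hx : x ∈ S <;> simp [hx]
    simp only [h2] at h1
    rw [lintegral_indicator hS] at h1
    rw [h1]
    apply lintegral_congr
    intro a
    rw [mul_comm]
  -- bound on J
  have hig : Integrable g μ := bdd_integrable _ mg hgb
  have hiS : Integrable (S.indicator (fun _ => (1 : ℝ))) μ := (integrable_const _).indicator hS
  have hJe : J = ∫ x, S.indicator (fun _ => (1 : ℝ)) x * g x ∂μ := by
    rw [hJ, ← integral_indicator hS]
    congr 1
    funext x
    by_cases hx : x ∈ S <;> simp [hx]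
  have hmS : Measurable (S.indicator (fun _ => (1 : ℝ))) := measurable_const.indicator hS
  have hSb : ∀ x, |S.indicator (fun _ => (1 : ℝ)) x| ≤ 1 := by
    intro x
    by_cases hx : x ∈ S <;> simp [hx]
  have hISε : ∫ x, S.indicator (fun _ => (1 : ℝ)) x ∂μ = ε := by
    rw [integral_indicator hS]; simp [hε]
  have hJb : J ≤ 11 / 16 * ε := by
    have h1 : J - ε ^ 2 = ∫ x, (S.indicator (fun _ => (1 : ℝ)) x - ε) * (g x - ε) ∂μ := by
      have e : ∀ x, (S.indicator (fun _ => (1 : ℝ)) x - ε) * (g x - ε) =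
          S.indicator (fun _ => (1 : ℝ)) x * g x - ε * S.indicator (fun _ => (1 : ℝ)) x
            - ε * g x + ε ^ 2 := by intro x; ring
      simp only [e]
      have i1 : Integrable (fun x => S.indicator (fun _ => (1 : ℝ)) x * g x) μ :=
        bdd_integrable _ (hmS.mul mg) (C := 1) (fun x => by
          rw [abs_mul]
          exact mul_le_one₀ (hSb x) (abs_nonneg _) (hgb x))
      have i1' : Integrable (fun x => ε * S.indicator (fun _ => (1 : ℝ)) x) μ := hiS.const_mul _
      have i1'' : Integrable (fun x => ε * g x) μ := hig.const_mul _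
      have i2 : Integrable (fun x => S.indicator (fun _ => (1 : ℝ)) x * g x -
        ε * S.indicator (fun _ => (1 : ℝ)) x) μ := i1.sub i1'
      have i3 : Integrable (fun x => S.indicator (fun _ => (1 : ℝ)) x * g x -
        ε * S.indicator (fun _ => (1 : ℝ)) x - ε * g x) μ := i2.sub i1''
      rw [integral_add i3 (integrable_const _), integral_sub i2 i1'',
        integral_sub i1 i1', integral_const_mul, integral_const_mul, hISε, hgI, ← hJe]
      simp
      ring
    have hvarS : ∫ x, (S.indicator (fun _ => (1 : ℝ)) x - ε) ^ 2 ∂μ = ε * (1 - ε) := by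
      have e : ∀ x, (S.indicator (fun _ => (1 : ℝ)) x - ε) ^ 2 =
          (1 - 2 * ε) * S.indicator (fun _ => (1 : ℝ)) x + ε ^ 2 := by
        intro x
        by_cases hx : x ∈ S
        · simp [hx]; ring
        · simp [hx]
      simp only [e]
      rw [integral_add (hiS.const_mul _) (integrable_const _), integral_const_mul, hISε]
      simp
      ring
    have hvarg : ∫ x, (g x - ε) ^ 2 ∂μ = Var[g; μ] := by
      rw [variance_eq_integral mg.aemeasurable, hgI]
    have i3 : Integrable (fun x => (S.indicator (fun _ => (1 : ℝ)) x - ε) ^ 2) μ :=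
      bdd_integrable _ ((hmS.sub_const _).pow_const 2) (C := (1 + ε) ^ 2) (fun x => by
        rw [abs_pow]
        apply pow_le_pow_left₀ (abs_nonneg _)
        refine (abs_sub _ _).trans ?_
        rw [abs_of_pos hε0]
        linarith [hSb x])
    have i4 : Integrable (fun x => (g x - ε) ^ 2) μ :=
      bdd_integrable _ ((mg.sub_const _).pow_const 2) (C := (1 + ε) ^ 2) (fun x => by
        rw [abs_pow]
        apply pow_le_pow_left₀ (abs_nonneg _)
        refine (abs_sub _ _).trans ?_
        rw [abs_of_pos hε0]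
        linarith [hgb x])
    have i5 : Integrable (fun x => (S.indicator (fun _ => (1 : ℝ)) x - ε) * (g x - ε)) μ :=
      bdd_integrable _ ((hmS.sub_const _).mul (mg.sub_const _)) (C := (1 + ε) * (1 + ε)) (fun x => by
        rw [abs_mul]
        apply mul_le_mul _ _ (abs_nonneg _) (by positivity)
        · refine (abs_sub _ _).trans ?_
          rw [abs_of_pos hε0]
          linarith [hSb x]
        · refine (abs_sub _ _).trans ?_
          rw [abs_of_pos hε0]
          linarith [hgb x])
    have h2 : ∫ x, (S.indicator (fun _ => (1 : ℝ)) x - ε) * (g x - ε) ∂μ ≤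
        ∫ x, (1 / 8 * (S.indicator (fun _ => (1 : ℝ)) x - ε) ^ 2 + 2 * (g x - ε) ^ 2) ∂μ := by
      refine integral_mono i5 (g := fun x => 1 / 8 * (S.indicator (fun _ => (1 : ℝ)) x - ε) ^ 2 +
        2 * (g x - ε) ^ 2) ((i3.const_mul _).add (i4.const_mul _)) ?_
      intro x
      simp only
      nlinarith [sq_nonneg ((S.indicator (fun _ => (1 : ℝ)) x - ε) - 4 * (g x - ε))]
    rw [integral_add (i3.const_mul _) (i4.const_mul _), integral_const_mul, integral_const_mul,
      hvarS, hvarg] at h2
    have h3 : M * (2 * s₁) ≤ 1 / 320 * Real.exp (-128) := by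
      have h4 : kap M ^ 2 = Real.exp 128 * M := by
        unfold kap
        rw [mul_pow, Real.sq_sqrt hM.le, ← Real.exp_nat_mul]
        norm_num
      rw [hs₁d]
      unfold sone
      rw [h4, Real.exp_neg]
      have h5 : 0 < Real.exp 128 := Real.exp_pos _
      apply le_of_eq
      field_simp
      norm_num
    have h6 : Real.exp (-128) ≤ ε := by
      refine le_trans (Real.exp_le_exp.mpr (by norm_num)) hS1
    have h6' : 128 * eta0 ≤ ε := by
      refine le_trans ?_ hS1
      unfold eta0
      have h1 : Real.exp (-72) = Real.exp 128 * Real.exp (-200) := by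
        rw [← Real.exp_add]; congr 1; norm_num
      have h2 := Real.add_one_le_exp (128 : ℝ)
      have h3 : 0 < Real.exp (-200) := Real.exp_pos _
      rw [h1]
      apply mul_le_mul_of_nonneg_right _ h3.le
      linarith
    have h7 : ε * ε ≤ ε * (1 / 2) := by gcongr
    have h8 : 0 ≤ ε * ε := by positivity
    nlinarith
  -- conclusion
  have hJ0 : 0 ≤ J := integral_nonneg hg0
  have hsum : (∫⁻ a, qS a * (qC a / q1 a)) + ENNReal.ofReal J = ENNReal.ofReal ε := by
    have hm : Measurable (fun a => qS a * (qC a / q1 a)) := mS.mul (mC.div m1)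
    rw [hJ', ← lintegral_add_left hm]
    have : ∀ a, qS a * (qC a / q1 a) + qS a * (qS a / q1 a) = qS a := by
      intro a
      rw [← mul_add, ← ENNReal.add_div, add_comm (qC a), hsplit a,
        ENNReal.div_self (hq10 a) (hq1t a), mul_one]
    simp only [this]
    rw [hqS, lint_qE_one hs₁ (measurable_one.indicator hS), lintegral_indicator_one hS, hε,
      ofReal_measureReal]
  have hfin : ENNReal.ofReal (5 / 16 * ε) + ENNReal.ofReal J ≤
      (∫⁻ a, qS a * (qC a / q1 a)) + ENNReal.ofReal J := by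
    rw [hsum, ← ENNReal.ofReal_add (by positivity) hJ0]
    apply ENNReal.ofReal_le_ofReal
    linarith
  have h7 := (ENNReal.add_le_add_iff_right ENNReal.ofReal_ne_top).mp hfin
  refine le_trans ?_ h7
  have h8 : μ S = ENNReal.ofReal ε := by rw [hε, ofReal_measureReal]
  rw [h8, ← ENNReal.ofReal_mul (by norm_num)]
  apply ENNReal.ofReal_le_ofReal
  linarith

theorem all_sets {μ : Measure E} [IsProbabilityMeasure μ] (h : PLm μ) {M : ℝ} (hM : 0 < M)
    (hv : LVe μ M eta0) {S : Set E} (hS : MeasurableSet S) (hS2 : μ S ≤ 1 / 2) :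
    ENNReal.ofReal (1 / 64) * μ S ≤
      ∫⁻ a, qE (sone M) μ (S.indicator 1) a *
        (qE (sone M) μ (Sᶜ.indicator 1) a / qE (sone M) μ (fun _ => 1) a) := by
  by_cases h0 : μ S = 0
  · rw [h0, mul_zero]; exact bot_le
  have h1 : 0 < μ.real S := ENNReal.toReal_pos h0 (measure_ne_top _ _)
  have h2 : μ.real S ≤ 1 / 2 := by
    have := ENNReal.toReal_mono (by simp) hS2
    rw [measureReal_def]
    simpa using this
  by_cases h3 : Real.exp (-72) ≤ μ.real S
  · exact large_sets hM hv hS h3 h2
  · push Not at h3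
    have hk := kap_pos hM
    refine small_sets h hM hv (sone_pos hM) (by unfold sone; field_simp; norm_num) hS
      (L := -Real.log (μ.real S)) ?_ ?_
    · have := Real.log_lt_log h1 h3
      rw [Real.log_exp] at this
      linarith
    · rw [neg_neg, Real.exp_log h1, ofReal_measureReal]

end Pool.Agent.Lib.MP_6d896a_gt.FP
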