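import Mathlib

/-!
# Extension of a Poincare inequality from bounded smooth functions
-/

set_option autoImplicit false

namespace Pool.Agent.Lib.MP_6d896a_gt.FP

open MeasureTheory ProbabilityTheory Set Filter
open scoped ENNReal Topology

namespace PE

/-! ### variances under dominated convergence -/

theorem var_tendsto {E : Type*} [MeasurableSpace E] (μ : Measure E) [IsProbabilityMeasure μ]
    {g : ℕ → E → ℝ} {f G : E → ℝ} (hg : ∀ n, AEStronglyMeasurable (g n) μ) (hG : MemLp G 2 μ)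
    (hbd : ∀ n x, |g n x| ≤ G x) (hlim : ∀ x, Tendsto (fun n => g n x) atTop (𝓝 (f x))) :
    Tendsto (fun n => Var[g n; μ]) atTop (𝓝 Var[f; μ]) := by
  have hfm : AEStronglyMeasurable f μ :=
    aestronglyMeasurable_of_tendsto_ae atTop hg (ae_of_all _ hlim)
  have hfb : ∀ x, |f x| ≤ G x := fun x =>
    le_of_tendsto (hlim x).abs (Eventually.of_forall fun n => hbd n x)
  have hG0 : ∀ x, 0 ≤ G x := fun x => (abs_nonneg _).trans (hfb x)
  have hgL : ∀ n, MemLp (g n) 2 μ := fun n => hG.mono (hg n) (ae_of_all _ fun x => by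
    rw [Real.norm_eq_abs, Real.norm_eq_abs, abs_of_nonneg (hG0 x)]; exact hbd n x)
  have hfL : MemLp f 2 μ := hG.mono hfm (ae_of_all _ fun x => by
    rw [Real.norm_eq_abs, Real.norm_eq_abs, abs_of_nonneg (hG0 x)]; exact hfb x)
  have e1 : ∀ n, Var[g n; μ] = ∫ x, g n x ^ 2 ∂μ - (∫ x, g n x ∂μ) ^ 2 := fun n => by
    have := variance_eq_sub (μ := μ) (X := g n) (hgL n)
    simpa using this
  have e2 : Var[f; μ] = ∫ x, f x ^ 2 ∂μ - (∫ x, f x ∂μ) ^ 2 := by
    have := variance_eq_sub (μ := μ) (X := f) hfL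
    simpa using this
  simp_rw [e1]
  rw [e2]
  refine Tendsto.sub ?_ (Tendsto.pow ?_ 2)
  · refine tendsto_integral_of_dominated_convergence (fun x => G x ^ 2)
      (fun n => (hg n).pow 2) hG.integrable_sq (fun n => ae_of_all _ fun x => ?_)
      (ae_of_all _ fun x => (hlim x).pow 2)
    rw [Real.norm_eq_abs, abs_of_nonneg (sq_nonneg _), ← sq_abs]
    exact pow_le_pow_left₀ (abs_nonneg _) (hbd n x) 2
  · exact tendsto_integral_of_dominated_convergence G hg (hG.integrable one_le_two)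
      (fun n => ae_of_all _ fun x => hbd n x) (ae_of_all _ hlim)

/-! ### truncation -/

theorem arctan_le (t : ℝ) : |Real.arctan t| ≤ |t| := by
  have h := Convex.norm_image_sub_le_of_norm_deriv_le (f := Real.arctan) (C := 1) (s := univ)
    (x := 0) (y := t) (fun x _ => Real.differentiable_arctan x) (fun x _ => by
      rw [Real.deriv_arctan, Real.norm_eq_abs, abs_of_nonneg (by positivity)]
      rw [div_le_one (by positivity)]
      nlinarith [sq_nonneg x]) convex_univ (mem_univ _) (mem_univ _)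
  rw [Real.arctan_zero, sub_zero, sub_zero, one_mul] at h
  exact h

theorem arctan_scale (t : ℝ) :
    Tendsto (fun n : ℕ => ((n : ℝ) + 1) * Real.arctan (t / ((n : ℝ) + 1))) atTop (𝓝 t) := by
  by_cases ht : t = 0
  · rw [ht]
    simp
  have h1 : HasDerivAt Real.arctan 1 0 := by
    have := Real.hasDerivAt_arctan 0
    simpa using this
  have h2 := hasDerivAt_iff_tendsto_slope_zero.mp h1
  have h3 : Tendsto (fun n : ℕ => t / ((n : ℝ) + 1)) atTop (𝓝[≠] 0) := by
    rw [tendsto_nhdsWithin_iff]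
    constructor
    · have := (tendsto_one_div_add_atTop_nhds_zero_nat (𝕜 := ℝ)).const_mul t
      simpa [div_eq_mul_inv] using this
    · refine Eventually.of_forall fun n => ?_
      have : (0 : ℝ) < (n : ℝ) + 1 := by positivity
      exact div_ne_zero ht this.ne'
  have h4 := (h2.comp h3).const_mul t
  rw [mul_one] at h4
  refine h4.congr fun n => ?_
  have : (0 : ℝ) < (n : ℝ) + 1 := by positivity
  simp only [Function.comp, zero_add, Real.arctan_zero, sub_zero, smul_eq_mul]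
  field_simp

section trunc

variable {E : Type*} [NormedAddCommGroup E] [NormedSpace ℝ E]

theorem s_lip (a b : ℝ) : |1 / (1 + a ^ 2) - 1 / (1 + b ^ 2)| ≤ |a - b| := by
  have ha : 0 < 1 + a ^ 2 := by positivity
  have hb : 0 < 1 + b ^ 2 := by positivity
  have e : 1 / (1 + a ^ 2) - 1 / (1 + b ^ 2) = -((a - b) * ((a + b) / ((1 + a ^ 2) * (1 + b ^ 2)))) := by
    field_simp
    ring
  rw [e, abs_neg, abs_mul]
  have h : |(a + b) / ((1 + a ^ 2) * (1 + b ^ 2))| ≤ 1 := by
    rw [abs_div, abs_of_pos (mul_pos ha hb), div_le_one (mul_pos ha hb)]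
    rw [abs_le]
    constructor <;> nlinarith [sq_nonneg (a - 1), sq_nonneg (b - 1), sq_nonneg (a + 1),
      sq_nonneg (b + 1), mul_nonneg (sq_nonneg a) (sq_nonneg b)]
  calc |a - b| * |(a + b) / ((1 + a ^ 2) * (1 + b ^ 2))| ≤ |a - b| * 1 :=
        mul_le_mul_of_nonneg_left h (abs_nonneg _)
    _ = |a - b| := mul_one _

theorem trunc {g : E → ℝ} (hg : ContDiff ℝ 1 g) {B L : ℝ} (hB : ∀ x, ‖fderiv ℝ g x‖ ≤ B)
    (hL : ∀ x y, ‖fderiv ℝ g x - fderiv ℝ g y‖ ≤ L * ‖x - y‖) {R : ℝ} (hR : 0 < R) :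
    ContDiff ℝ 1 (fun x => R * Real.arctan (g x / R)) ∧
    (∃ B', ∀ x, |R * Real.arctan (g x / R)| ≤ B') ∧
    (∀ x, ‖fderiv ℝ (fun x => R * Real.arctan (g x / R)) x‖ ≤ ‖fderiv ℝ g x‖) ∧
    (∃ L', ∀ x y, ‖fderiv ℝ (fun x => R * Real.arctan (g x / R)) x
      - fderiv ℝ (fun x => R * Real.arctan (g x / R)) y‖ ≤ L' * ‖x - y‖) := by
  have hder : ∀ x, HasFDerivAt (fun x => R * Real.arctan (g x / R))
      ((1 / (1 + (g x / R) ^ 2)) • fderiv ℝ g x) x := by
    intro x
    have h1 : HasFDerivAt g (fderiv ℝ g x) x :=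
      ((hg.differentiable one_ne_zero) x).hasFDerivAt
    have h2 := ((h1.mul_const R⁻¹).arctan).const_mul R
    have e : (fun x => R * Real.arctan (g x / R)) = fun y => R * Real.arctan (g y * R⁻¹) := by
      funext y; rw [div_eq_mul_inv]
    rw [e]
    refine h2.congr_fderiv ?_
    ext v
    simp only [smul_apply, smul_eq_mul, div_eq_mul_inv]
    field_simp
  have hfd : ∀ x, fderiv ℝ (fun x => R * Real.arctan (g x / R)) x
      = (1 / (1 + (g x / R) ^ 2)) • fderiv ℝ g x := fun x => (hder x).fderiv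
  have hs1 : ∀ a : ℝ, 0 ≤ 1 / (1 + a ^ 2) ∧ 1 / (1 + a ^ 2) ≤ 1 := fun a =>
    ⟨by positivity, by rw [div_le_one (by positivity)]; nlinarith [sq_nonneg a]⟩
  refine ⟨?_, ?_, ?_, ?_⟩
  · exact contDiff_const.mul (Real.contDiff_arctan.comp (hg.div_const R))
  · refine ⟨R * (Real.pi / 2), fun x => ?_⟩
    rw [abs_mul, abs_of_pos hR]
    refine mul_le_mul_of_nonneg_left ?_ hR.le
    rw [abs_le]
    exact ⟨(Real.neg_pi_div_two_lt_arctan _).le, (Real.arctan_lt_pi_div_two _).le⟩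
  · intro x
    rw [hfd, norm_smul, Real.norm_eq_abs, abs_of_nonneg (hs1 _).1]
    exact mul_le_of_le_one_left (norm_nonneg _) (hs1 _).2
  · refine ⟨L + B * B / R, fun x y => ?_⟩
    rw [hfd, hfd]
    have hB0 : 0 ≤ B := (norm_nonneg _).trans (hB x)
    have hgl : |g x - g y| ≤ B * ‖x - y‖ := by
      have h := Convex.norm_image_sub_le_of_norm_fderiv_le (𝕜 := ℝ) (f := g) (C := B) (s := univ)
        (x := y) (y := x) (fun z _ => (hg.differentiable one_ne_zero) z) (fun z _ => hB z)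
        convex_univ (mem_univ _) (mem_univ _)
      exact h
    have e : (1 / (1 + (g x / R) ^ 2)) • fderiv ℝ g x - (1 / (1 + (g y / R) ^ 2)) • fderiv ℝ g y
        = (1 / (1 + (g x / R) ^ 2)) • (fderiv ℝ g x - fderiv ℝ g y)
          + (1 / (1 + (g x / R) ^ 2) - 1 / (1 + (g y / R) ^ 2)) • fderiv ℝ g y := by
      rw [smul_sub, sub_smul]; abel
    rw [e]
    refine (norm_add_le _ _).trans ?_
    rw [norm_smul, norm_smul, Real.norm_eq_abs, Real.norm_eq_abs, abs_of_nonneg (hs1 _).1]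
    have h1 : 1 / (1 + (g x / R) ^ 2) * ‖fderiv ℝ g x - fderiv ℝ g y‖ ≤ L * ‖x - y‖ :=
      (mul_le_of_le_one_left (norm_nonneg _) (hs1 _).2).trans (hL x y)
    have h2 : |1 / (1 + (g x / R) ^ 2) - 1 / (1 + (g y / R) ^ 2)| * ‖fderiv ℝ g y‖
        ≤ (B * ‖x - y‖ / R) * B := by
      have h3 : |1 / (1 + (g x / R) ^ 2) - 1 / (1 + (g y / R) ^ 2)| ≤ B * ‖x - y‖ / R := by
        refine (s_lip _ _).trans ?_
        rw [← sub_div, abs_div, abs_of_pos hR]
        exact div_le_div_of_nonneg_right hgl hR.le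
      exact mul_le_mul h3 (hB y) (norm_nonneg _) (by positivity)
    calc _ ≤ L * ‖x - y‖ + (B * ‖x - y‖ / R) * B := add_le_add h1 h2
      _ = (L + B * B / R) * ‖x - y‖ := by ring

end trunc

section moll

open MeasureTheory.Measure

variable {E : Type*} [NormedAddCommGroup E] [InnerProductSpace ℝ E]
    [FiniteDimensional ℝ E] [MeasurableSpace E] [BorelSpace E]

theorem lip_of_fderiv {g : E → ℝ} (hg : ContDiff ℝ 1 g) {B : ℝ} (hB : ∀ x, ‖fderiv ℝ g x‖ ≤ B)
    (x y : E) : |g x - g y| ≤ B * ‖x - y‖ :=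
  Convex.norm_image_sub_le_of_norm_fderiv_le (𝕜 := ℝ) (f := g) (C := B) (s := univ)
    (x := y) (y := x) (fun z _ => (hg.differentiable one_ne_zero) z) (fun z _ => hB z)
    convex_univ (mem_univ _) (mem_univ _)

/-- Mollification of a function with bounded gradient. -/
theorem moll {f : E → ℝ} (hf : ContDiff ℝ 1 f) {B : ℝ} (hB : ∀ x, ‖fderiv ℝ f x‖ ≤ B) {δ : ℝ}
    (hδ : 0 < δ) :
    ∃ g : E → ℝ, ContDiff ℝ 1 g ∧ (∀ x, ‖fderiv ℝ g x‖ ≤ B) ∧
      (∃ L, ∀ x y, ‖fderiv ℝ g x - fderiv ℝ g y‖ ≤ L * ‖x - y‖) ∧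
      (∀ x, |g x - f x| ≤ B * δ) ∧
      (∀ x (ε : ℝ), (∀ y ∈ Metric.ball x δ, ‖fderiv ℝ f y - fderiv ℝ f x‖ ≤ ε) →
        ‖fderiv ℝ g x - fderiv ℝ f x‖ ≤ ε) := by
  have hB0 : 0 ≤ B := (norm_nonneg _).trans (hB 0)
  let φ : ContDiffBump (0 : E) := ⟨δ / 2, δ, by positivity, by linarith⟩
  let μ₀ : Measure E := addHaar
  let g : E → ℝ := convolution (φ.normed μ₀) f (ContinuousLinearMap.lsmul ℝ ℝ) μ₀
  let G : E → (E →L[ℝ] ℝ) :=
    convolution (φ.normed μ₀) (fderiv ℝ f) (ContinuousLinearMap.lsmul ℝ ℝ) μ₀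
  have hfc : Continuous f := hf.continuous
  have hfd : Continuous (fderiv ℝ f) := hf.continuous_fderiv one_ne_zero
  have hcs : HasCompactSupport (φ.normed μ₀) := φ.hasCompactSupport_normed
  have hφc : Continuous (φ.normed μ₀) := φ.continuous_normed
  have hφi : Integrable (φ.normed μ₀) μ₀ := φ.integrable_normed
  have hφ1 : ∫ x, φ.normed μ₀ x ∂μ₀ = 1 := φ.integral_normed
  have hφ0 : ∀ x, 0 ≤ φ.normed μ₀ x := fun x => φ.nonneg_normed x
  have hφd : ContDiff ℝ 1 (φ.normed μ₀) := φ.contDiff_normed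
  have hint : ∀ x, Integrable (fun t => φ.normed μ₀ t • f (x - t)) μ₀ := by
    intro x
    apply Continuous.integrable_of_hasCompactSupport
    · exact hφc.smul (hfc.comp (continuous_const.sub continuous_id))
    · exact hcs.smul_right
  -- first formula for the derivative
  have hder1 : ∀ x, HasFDerivAt g (G x) x := by
    intro x
    refine hasFDerivAt_integral_of_dominated_of_fderiv_le (𝕜 := ℝ) (s := univ)
      (bound := fun t => φ.normed μ₀ t * B) (F' := fun x t => φ.normed μ₀ t • fderiv ℝ f (x - t))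
      univ_mem (Eventually.of_forall fun y => (hint y).aestronglyMeasurable) (hint x) ?_ ?_
      (hφi.mul_const B) ?_
    · exact (hφc.smul (hfd.comp (continuous_const.sub continuous_id))).aestronglyMeasurable
    · refine ae_of_all _ fun t y _ => ?_
      rw [norm_smul, Real.norm_eq_abs, abs_of_nonneg (hφ0 t)]
      exact mul_le_mul_of_nonneg_left (hB _) (hφ0 t)
    · refine ae_of_all _ fun t y _ => ?_
      have h1 : HasFDerivAt f (fderiv ℝ f (y - t)) (y - t) :=
        ((hf.differentiable one_ne_zero) (y - t)).hasFDerivAt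
      have h2 : HasFDerivAt (fun z => f (z - t)) (fderiv ℝ f (y - t)) y := by
        have := h1.comp y ((hasFDerivAt_id y).sub_const t)
        rw [ContinuousLinearMap.comp_id] at this
        exact this
      exact h2.const_smul (φ.normed μ₀ t)
  have hgd : ∀ x, fderiv ℝ g x = G x := fun x => (hder1 x).fderiv
  have hGB : ∀ x, ‖G x‖ ≤ B := by
    intro x
    have h1 : ‖G x‖ ≤ ∫ t, φ.normed μ₀ t * B ∂μ₀ := by
      refine norm_integral_le_of_norm_le (hφi.mul_const B) (ae_of_all _ fun t => ?_)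
      change ‖φ.normed μ₀ t • fderiv ℝ f (x - t)‖ ≤ _
      rw [norm_smul, Real.norm_eq_abs, abs_of_nonneg (hφ0 t)]
      exact mul_le_mul_of_nonneg_left (hB _) (hφ0 t)
    rwa [integral_mul_const, hφ1, one_mul] at h1
  refine ⟨g, ?_, fun x => (hgd x).symm ▸ hGB x, ?_, ?_, ?_⟩
  · exact hcs.contDiff_convolution_left (ContinuousLinearMap.lsmul ℝ ℝ) hφd
      hfc.locallyIntegrable
  · -- Lipschitz gradient
    have hder2 := fun x => hcs.hasFDerivAt_convolution_left (ContinuousLinearMap.lsmul ℝ ℝ) hφd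
      (hfc.locallyIntegrable (μ := μ₀)) x
    have hdc : Continuous (fderiv ℝ (φ.normed μ₀)) := hφd.continuous_fderiv one_ne_zero
    have hds : HasCompactSupport (fderiv ℝ (φ.normed μ₀)) := hcs.fderiv (𝕜 := ℝ)
    have hdi : Integrable (fun t => ‖fderiv ℝ (φ.normed μ₀) t‖) μ₀ :=
      (hdc.integrable_of_hasCompactSupport hds).norm
    refine ⟨(∫ t, ‖fderiv ℝ (φ.normed μ₀) t‖ ∂μ₀) * B, fun x y => ?_⟩
    have e : ∀ x, fderiv ℝ g x = ∫ t, ((ContinuousLinearMap.lsmul ℝ ℝ : ℝ →L[ℝ] ℝ →L[ℝ] ℝ).precompL E)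
        (fderiv ℝ (φ.normed μ₀) t) (f (x - t)) ∂μ₀ := fun x => (hder2 x).fderiv
    have hi : ∀ x, Integrable (fun t =>
        ((ContinuousLinearMap.lsmul ℝ ℝ : ℝ →L[ℝ] ℝ →L[ℝ] ℝ).precompL E)
        (fderiv ℝ (φ.normed μ₀) t) (f (x - t))) μ₀ := by
      intro x
      apply Continuous.integrable_of_hasCompactSupport
      · exact (((ContinuousLinearMap.lsmul ℝ ℝ : ℝ →L[ℝ] ℝ →L[ℝ] ℝ).precompL E).continuous.comp
          hdc).clm_apply (hfc.comp (continuous_const.sub continuous_id))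
      · refine hds.mono' ?_
        intro t ht
        by_contra h
        apply ht
        have h0 : fderiv ℝ (φ.normed μ₀) t = 0 := by
          by_contra h1
          exact h (subset_tsupport _ h1)
        change ((ContinuousLinearMap.lsmul ℝ ℝ : ℝ →L[ℝ] ℝ →L[ℝ] ℝ).precompL E)
          (fderiv ℝ (φ.normed μ₀) t) (f (x - t)) = 0
        rw [h0, map_zero]
        rfl
    rw [e x, e y, ← integral_sub (hi x) (hi y)]
    have h1 : ‖∫ t, (((ContinuousLinearMap.lsmul ℝ ℝ : ℝ →L[ℝ] ℝ →L[ℝ] ℝ).precompL E)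
        (fderiv ℝ (φ.normed μ₀) t) (f (x - t))
        - ((ContinuousLinearMap.lsmul ℝ ℝ : ℝ →L[ℝ] ℝ →L[ℝ] ℝ).precompL E)
        (fderiv ℝ (φ.normed μ₀) t) (f (y - t))) ∂μ₀‖
        ≤ ∫ t, ‖fderiv ℝ (φ.normed μ₀) t‖ * (B * ‖x - y‖) ∂μ₀ := by
      refine norm_integral_le_of_norm_le (hdi.mul_const _) (ae_of_all _ fun t => ?_)
      rw [← map_sub]
      refine ContinuousLinearMap.opNorm_le_bound _ (by positivity) fun v => ?_
      rw [ContinuousLinearMap.precompL_apply]
      simp only [ContinuousLinearMap.lsmul_apply, smul_eq_mul, norm_mul]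
      have h2 : ‖f (x - t) - f (y - t)‖ ≤ B * ‖x - y‖ := by
        have := lip_of_fderiv hf hB (x - t) (y - t)
        rwa [sub_sub_sub_cancel_right] at this
      have h3 := (fderiv ℝ (φ.normed μ₀) t).le_opNorm v
      calc ‖fderiv ℝ (φ.normed μ₀) t v‖ * ‖f (x - t) - f (y - t)‖
          ≤ (‖fderiv ℝ (φ.normed μ₀) t‖ * ‖v‖) * (B * ‖x - y‖) := by gcongr
        _ = ‖fderiv ℝ (φ.normed μ₀) t‖ * (B * ‖x - y‖) * ‖v‖ := by ring
    refine h1.trans (le_of_eq ?_)
    rw [integral_mul_const]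
    ring
  · intro x
    have h := φ.dist_normed_convolution_le (μ := μ₀) (g := f) (x₀ := x) (ε := B * δ)
      hfc.aestronglyMeasurable (fun y hy => by
        rw [Real.dist_eq]
        refine (lip_of_fderiv hf hB y x).trans ?_
        have : ‖y - x‖ < δ := by rw [← dist_eq_norm]; exact hy
        exact mul_le_mul_of_nonneg_left this.le hB0)
    rw [Real.dist_eq] at h
    exact h
  · intro x ε hε
    have h := φ.dist_normed_convolution_le (μ := μ₀) (g := fderiv ℝ f) (x₀ := x) (ε := ε)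
      hfd.aestronglyMeasurable (fun y hy => by
        rw [dist_eq_norm]
        exact hε y hy)
    rw [dist_eq_norm] at h
    rw [hgd]
    exact h

end moll

end PE

/-- a Poincare inequality on bounded functions with bounded Lipschitz
gradient extends to functions with bounded gradient -/
theorem poinc_ext {E : Type*} [NormedAddCommGroup E] [InnerProductSpace ℝ E]
    [FiniteDimensional ℝ E] [MeasurableSpace E] [BorelSpace E] (μ : Measure E)
    [IsProbabilityMeasure μ] (h2 : Integrable (fun x => ‖x‖ ^ 2) μ) {K : ℝ} (hK : 0 ≤ K)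
    (h : ∀ f : E → ℝ, ContDiff ℝ 1 f → (∃ B, ∀ x, |f x| ≤ B) → (∃ B, ∀ x, ‖fderiv ℝ f x‖ ≤ B) →
      (∃ B, ∀ x y, ‖fderiv ℝ f x - fderiv ℝ f y‖ ≤ B * ‖x - y‖) →
      Var[f; μ] ≤ K * ∫ x, ‖fderiv ℝ f x‖ ^ 2 ∂μ)
    (f : E → ℝ) (hf : ContDiff ℝ 1 f) (hb : ∃ B, ∀ x, ‖fderiv ℝ f x‖ ≤ B) :
    Var[f; μ] ≤ K * ∫ x, ‖fderiv ℝ f x‖ ^ 2 ∂μ := by
  obtain ⟨B, hB⟩ := hb
  have hB0 : 0 ≤ B := (norm_nonneg _).trans (hB 0)
  have hN : MemLp (fun x : E => ‖x‖) 2 μ := by
    rw [memLp_two_iff_integrable_sq continuous_norm.aestronglyMeasurable]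
    exact h2
  have hGm : ∀ c : ℝ, MemLp (fun x : E => c + B * ‖x‖) 2 μ := by
    intro c
    have h1 : MemLp (fun _ : E => c) 2 μ := memLp_const c
    have h3 : MemLp (fun x : E => B * ‖x‖) 2 μ := hN.const_mul B
    exact h1.add h3
  -- integrability of squared gradients
  have hgi : ∀ {g : E → ℝ}, ContDiff ℝ 1 g → (∀ x, ‖fderiv ℝ g x‖ ≤ B) →
      Integrable (fun x => ‖fderiv ℝ g x‖ ^ 2) μ := by
    intro g hg hgB
    refine Integrable.of_bound ((hg.continuous_fderiv one_ne_zero).norm.pow 2).aestronglyMeasurable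
      (B ^ 2) (ae_of_all _ fun x => ?_)
    rw [Real.norm_eq_abs, abs_of_nonneg (sq_nonneg _)]
    exact pow_le_pow_left₀ (norm_nonneg _) (hgB x) 2
  have hgrow : ∀ {g : E → ℝ}, ContDiff ℝ 1 g → (∀ x, ‖fderiv ℝ g x‖ ≤ B) → ∀ x,
      |g x| ≤ |g 0| + B * ‖x‖ := by
    intro g hg hgB x
    have h1 := PE.lip_of_fderiv hg hgB x 0
    rw [sub_zero] at h1
    have h3 : |g x| ≤ |g 0| + |g x - g 0| := by
      calc |g x| = |g 0 + (g x - g 0)| := by congr 1; ring
        _ ≤ _ := abs_add_le _ _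
    linarith
  -- functions with Lipschitz gradient
  have step1 : ∀ g : E → ℝ, ContDiff ℝ 1 g → (∀ x, ‖fderiv ℝ g x‖ ≤ B) →
      (∃ L, ∀ x y, ‖fderiv ℝ g x - fderiv ℝ g y‖ ≤ L * ‖x - y‖) →
      Var[g; μ] ≤ K * ∫ x, ‖fderiv ℝ g x‖ ^ 2 ∂μ := by
    intro g hg hgB hgL
    obtain ⟨L, hL⟩ := hgL
    have hlim := PE.var_tendsto μ
      (g := fun n x => ((n : ℝ) + 1) * Real.arctan (g x / ((n : ℝ) + 1))) (f := g)
      (G := fun x => |g 0| + B * ‖x‖)
      (fun n => by
        have hR : (0 : ℝ) < (n : ℝ) + 1 := by positivity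
        exact (PE.trunc hg hgB hL hR).1.continuous.aestronglyMeasurable)
      (hGm |g 0|)
      (fun n x => by
        have hR : (0 : ℝ) < (n : ℝ) + 1 := by positivity
        refine le_trans ?_ (hgrow hg hgB x)
        rw [abs_mul, abs_of_pos hR]
        calc ((n : ℝ) + 1) * |Real.arctan (g x / ((n : ℝ) + 1))|
            ≤ ((n : ℝ) + 1) * |g x / ((n : ℝ) + 1)| :=
              mul_le_mul_of_nonneg_left (PE.arctan_le _) hR.le
          _ = |g x| := by
              rw [abs_div, abs_of_pos hR]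
              field_simp)
      (fun x => PE.arctan_scale (g x))
    refine le_of_tendsto' hlim fun n => ?_
    have hR : (0 : ℝ) < (n : ℝ) + 1 := by positivity
    obtain ⟨t1, t2, t3, t4⟩ := PE.trunc hg hgB hL hR
    refine (h _ t1 t2 ⟨B, fun x => (t3 x).trans (hgB x)⟩ t4).trans ?_
    refine mul_le_mul_of_nonneg_left ?_ hK
    refine integral_mono (hgi t1 fun x => (t3 x).trans (hgB x)) (hgi hg hgB) fun x => ?_
    exact pow_le_pow_left₀ (norm_nonneg _) (t3 x) 2
  -- mollification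
  have hδ : ∀ n : ℕ, (0 : ℝ) < 1 / ((n : ℝ) + 1) := fun n => by positivity
  choose g hg1 hgB hgL hgf hgd using fun n : ℕ => PE.moll hf hB (hδ n)
  have hlim0 := tendsto_one_div_add_atTop_nhds_zero_nat (𝕜 := ℝ)
  have hle1 : ∀ n : ℕ, 1 / ((n : ℝ) + 1) ≤ 1 := fun n => by
    rw [div_le_one (by positivity)]
    have : (0 : ℝ) ≤ n := by positivity
    linarith
  have hV := PE.var_tendsto μ (g := g) (f := f) (G := fun x => (|f 0| + B) + B * ‖x‖)
    (fun n => (hg1 n).continuous.aestronglyMeasurable)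
    (hGm (|f 0| + B))
    (fun n x => by
      have h1 := hgf n x
      have h3 := hgrow hf hB x
      have h4 : |g n x| ≤ |f x| + |g n x - f x| := by
        calc |g n x| = |f x + (g n x - f x)| := by congr 1; ring
          _ ≤ _ := abs_add_le _ _
      have h5 : B * (1 / ((n : ℝ) + 1)) ≤ B * 1 := mul_le_mul_of_nonneg_left (hle1 n) hB0
      linarith)
    (fun x => by
      rw [tendsto_iff_norm_sub_tendsto_zero]
      refine squeeze_zero (fun n => norm_nonneg _) (fun n => hgf n x) ?_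
      have := hlim0.const_mul B
      rwa [mul_zero] at this)
  have hI : Tendsto (fun n => ∫ x, ‖fderiv ℝ (g n) x‖ ^ 2 ∂μ) atTop
      (𝓝 (∫ x, ‖fderiv ℝ f x‖ ^ 2 ∂μ)) := by
    refine tendsto_integral_of_dominated_convergence (fun _ => B ^ 2)
      (fun n => (((hg1 n).continuous_fderiv one_ne_zero).norm.pow 2).aestronglyMeasurable)
      (integrable_const _) (fun n => ae_of_all _ fun x => ?_) (ae_of_all _ fun x => ?_)
    · rw [Real.norm_eq_abs, abs_of_nonneg (sq_nonneg _)]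
      exact pow_le_pow_left₀ (norm_nonneg _) (hgB n x) 2
    · refine (Tendsto.norm ?_).pow 2
      rw [Metric.tendsto_atTop]
      intro ε hε
      have hc : ContinuousAt (fderiv ℝ f) x := (hf.continuous_fderiv one_ne_zero).continuousAt
      obtain ⟨r, hr, hr2⟩ := Metric.continuousAt_iff.mp hc (ε / 2) (by positivity)
      obtain ⟨N, hN'⟩ := (Metric.tendsto_atTop.mp hlim0) r hr
      refine ⟨N, fun n hn => ?_⟩
      have h1 := hN' n hn
      rw [Real.dist_eq, sub_zero, abs_of_pos (hδ n)] at h1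
      rw [dist_eq_norm]
      refine lt_of_le_of_lt (hgd n x (ε / 2) fun y hy => ?_) (by linarith)
      have h3 : dist y x < r := lt_trans hy h1
      have h4 := hr2 h3
      rw [dist_eq_norm] at h4
      exact h4.le
  exact le_of_tendsto_of_tendsto' hV (hI.const_mul K) fun n => step1 (g n) (hg1 n) (hgB n) (hgL n)

end Pool.Agent.Lib.MP_6d896a_gt.FP
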