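import Mathlib
import Pool.Agent.Lib.MP_6d896a_gt.FP.Kern
import Pool.Agent.Lib.MP_6d896a_gt.FP.Large
import Pool.Agent.Lib.MP_6d896a_gt.FP.KCheeger
import Pool.Agent.Lib.MP_6d896a_gt.FP.PoincExt
import Pool.Agent.Lib.MP_6d896a_gt.FP.BLcore

/-!
A log-concave measure for which all Lipschitz functions have bounded variance satisfies a
Poincare inequality.
-/

set_option autoImplicit false

namespace Pool.Agent.Lib.MP_6d896a_gt.FP

open MeasureTheory ProbabilityTheory Set Filter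
open scoped ENNReal Topology

section

variable {E : Type*} [NormedAddCommGroup E] [InnerProductSpace ℝ E] [FiniteDimensional ℝ E]
  [MeasurableSpace E] [BorelSpace E]

lemma chan_set {s : ℝ} (hs : 0 < s) {μ : Measure E} [IsProbabilityMeasure μ] {S : Set E}
    (hS : MeasurableSet S) (a : E) :
    chan s μ a S = qE s μ (S.indicator 1) a / qE s μ (fun _ => 1) a := by
  have h1 := chan_lintegral (μ := μ) hs (F := S.indicator 1) (measurable_one.indicator hS) a
  rwa [lintegral_indicator_one hS] at h1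

lemma chan_bl {μ : Measure E} [IsProbabilityMeasure μ] (h : PLm μ) {f : E → ℝ}
    (hf : ContDiff ℝ 1 f) (hl : ∃ l : ℝ, ∀ x, ‖fderiv ℝ f x‖ ≤ l)
    (hL : ∃ l : ℝ, ∀ x y, ‖fderiv ℝ f x - fderiv ℝ f y‖ ≤ l * ‖x - y‖)
    {s : ℝ} (hs : 0 < s) (a : E) :
    Var[f; chan s μ a] ≤ 1 / (2 * s) * ∫ x, ‖fderiv ℝ f x‖ ^ 2 ∂(chan s μ a) := by
  have h1 := bl_core (μ := μ) (ν := μ) h (W := fun _ => 1) (b := fun _ => 0) (c := fun _ => 0)
    measurable_const (fun _ => by norm_num) (by simp [withDensity_one]) measurable_const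
    measurable_const (B := 0) (by simp) (by simp) (C := 0) (by
      intro t ht ht1 x y
      simp) hf hl hL hs a
  simpa using h1

lemma sq_mean_le {μ : Measure E} [IsProbabilityMeasure μ] {s : ℝ} (hs : 0 < s) {g : E → ℝ}
    (hg : Continuous g) {l : ℝ} (hl : ∀ x, |g x| ≤ l) :
    Integrable (fun a => ∫ x, g x ∂(chan s μ a)) (chP s μ) ∧
      ∫ a, ∫ x, g x ∂(chan s μ a) ∂(chP s μ) = ∫ x, g x ∂μ := by
  have hi : Integrable g μ := bdd_integrable μ hg.measurable hl
  exact ⟨chan_integrable_ae hs hi, chan_int hs hi⟩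

theorem em_class {μ : Measure E} [IsProbabilityMeasure μ] (h : PLm μ) {M : ℝ} (hM : 0 < M)
    (hv : LVe μ M eta0) {f : E → ℝ} (hf : ContDiff ℝ 1 f) (hb : ∃ B : ℝ, ∀ x, |f x| ≤ B)
    (hl : ∃ l : ℝ, ∀ x, ‖fderiv ℝ f x‖ ≤ l)
    (hL : ∃ l : ℝ, ∀ x y, ‖fderiv ℝ f x - fderiv ℝ f y‖ ≤ l * ‖x - y‖) :
    Var[f; μ] ≤ 4096 / sone M * ∫ x, ‖fderiv ℝ f x‖ ^ 2 ∂μ := by
  have hs := sone_pos hM
  set s := sone M with hsd
  have hk := chan_markov (μ := μ) hs
  have hp := chP_prob (μ := μ) hs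
  have hkc := kcheeger (chP s μ) (chan s μ) (δ := 1 / 64) (by norm_num) (by
    intro S hS hS2
    rw [chan_bind hs] at hS2 ⊢
    refine (all_sets h hM hv hS hS2).trans (le_of_eq ?_)
    have m1 : Measurable (qE s μ (fun _ => 1)) := qE_measurable measurable_const
    have mS : Measurable (qE s μ (S.indicator 1)) := qE_measurable (measurable_one.indicator hS)
    have mC : Measurable (qE s μ (Sᶜ.indicator 1)) :=
      qE_measurable (measurable_one.indicator hS.compl)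
    have e : ∀ a, chan s μ a S * chan s μ a Sᶜ =
        (qE s μ (S.indicator 1) a / qE s μ (fun _ => 1) a) *
          (qE s μ (Sᶜ.indicator 1) a / qE s μ (fun _ => 1) a) := by
      intro a
      rw [chan_set hs hS, chan_set hs hS.compl]
    simp only [e]
    have hm : Measurable (fun a => (qE s μ (S.indicator 1) a / qE s μ (fun _ => 1) a) *
          (qE s μ (Sᶜ.indicator 1) a / qE s μ (fun _ => 1) a)) := (mS.div m1).mul (mC.div m1)
    rw [chP_lintegral hm]
    apply lintegral_congr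
    intro a
    have hq0 := qE_one_pos (μ := μ) hs a
    have hqt := qE_ne_top (μ := μ) hs (F := fun _ => 1) (fun _ => le_rfl) a
    calc qE s μ (S.indicator 1) a * (qE s μ (Sᶜ.indicator 1) a / qE s μ (fun _ => 1) a)
        = (qE s μ (S.indicator 1) a / qE s μ (fun _ => 1) a * qE s μ (fun _ => 1) a) *
          (qE s μ (Sᶜ.indicator 1) a / qE s μ (fun _ => 1) a) := by
          rw [ENNReal.div_mul_cancel hq0 hqt]
      _ = _ := by ring) f hf.continuous.measurable hb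
  rw [chan_bind hs] at hkc
  obtain ⟨l, hl'⟩ := hl
  have hgc : Continuous (fun x => ‖fderiv ℝ f x‖ ^ 2) :=
    ((hf.continuous_fderiv (by norm_num)).norm).pow 2
  have hgb : ∀ x, |‖fderiv ℝ f x‖ ^ 2| ≤ l ^ 2 := by
    intro x
    rw [abs_of_nonneg (by positivity)]
    exact pow_le_pow_left₀ (norm_nonneg _) (hl' x) 2
  obtain ⟨i1, e1⟩ := sq_mean_le (μ := μ) hs hgc hgb
  have h2 : ∫ a, Var[f; chan s μ a] ∂(chP s μ) ≤
      ∫ a, 1 / (2 * s) * ∫ x, ‖fderiv ℝ f x‖ ^ 2 ∂(chan s μ a) ∂(chP s μ) := by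
    apply integral_mono_of_nonneg (ae_of_all _ fun a => variance_nonneg _ _) (i1.const_mul _)
    exact ae_of_all _ fun a => chan_bl h hf ⟨l, hl'⟩ hL hs a
  rw [integral_const_mul, e1] at h2
  have h3 : (1 / 64 : ℝ) ^ 2 / 2 * Var[f; μ] ≤ 1 / (2 * s) * ∫ x, ‖fderiv ℝ f x‖ ^ 2 ∂μ :=
    hkc.trans h2
  have h4 : Var[f; μ] ≤ 8192 * (1 / (2 * s) * ∫ x, ‖fderiv ℝ f x‖ ^ 2 ∂μ) := by
    have h5 : (1 / 64 : ℝ) ^ 2 / 2 = 1 / 8192 := by norm_num
    rw [h5] at h3
    linarith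
  refine h4.trans (le_of_eq ?_)
  field_simp
  ring

lemma PLm.sq_integrable {μ : Measure E} [IsProbabilityMeasure μ] (h : PLm μ) :
    Integrable (fun x => ‖x‖ ^ 2) μ := by
  obtain ⟨c, hc, htail⟩ := h.tail
  -- layer cake
  have hmeas : ∀ t : ℝ, 0 ≤ t → μ {x | 2 * c * (1 + t) ≤ ‖x‖} ≤ ENNReal.ofReal (Real.exp (-t)) := by
    intro t ht
    by_contra hcon
    push Not at hcon
    obtain ⟨x, hx, hx2⟩ := htail t ht _ hcon.le
    simp only [mem_ofPred_eq] at hx
    nlinarith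
  refine ⟨(continuous_norm.pow 2).aestronglyMeasurable, ?_⟩
  unfold HasFiniteIntegral
  -- compare with a series
  set R : ℕ → ℝ := fun k => 2 * c * (1 + (k : ℝ)) with hR
  have hpt : ∀ x : E, ‖‖x‖ ^ 2‖ₑ ≤ ∑' k : ℕ,
      {x : E | R k ≤ ‖x‖}.indicator (fun _ => ENNReal.ofReal ((2 * c * (k + 2)) ^ 2)) x +
        ENNReal.ofReal ((2 * c) ^ 2) := by
    intro x
    rw [Real.enorm_of_nonneg (by positivity)]
    by_cases hx : ‖x‖ ≤ 2 * c
    · refine le_trans ?_ le_add_self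
      apply ENNReal.ofReal_le_ofReal
      gcongr
    · push Not at hx
      refine le_trans ?_ le_self_add
      -- largest k with R k ≤ ‖x‖
      obtain ⟨k, hk1, hk2⟩ : ∃ k : ℕ, R k ≤ ‖x‖ ∧ ‖x‖ ≤ 2 * c * (k + 2) := by
        refine ⟨⌊‖x‖ / (2 * c) - 1⌋₊, ?_, ?_⟩
        · have h1 : (⌊‖x‖ / (2 * c) - 1⌋₊ : ℝ) ≤ ‖x‖ / (2 * c) - 1 := by
            apply Nat.floor_le
            rw [sub_nonneg, le_div_iff₀ (by positivity)]
            linarith
          simp only [hR]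
          have h2 : 1 + (⌊‖x‖ / (2 * c) - 1⌋₊ : ℝ) ≤ ‖x‖ / (2 * c) := by linarith
          rw [le_div_iff₀ (by positivity)] at h2
          linarith
        · have h1 := Nat.lt_floor_add_one (‖x‖ / (2 * c) - 1)
          have h2 : ‖x‖ / (2 * c) ≤ (⌊‖x‖ / (2 * c) - 1⌋₊ : ℝ) + 2 := by linarith
          rw [div_le_iff₀ (by positivity)] at h2
          linarith
      refine le_trans ?_ (ENNReal.le_tsum k)
      rw [indicator_of_mem (by exact hk1)]
      apply ENNReal.ofReal_le_ofReal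
      gcongr
  refine lt_of_le_of_lt (lintegral_mono hpt) ?_
  rw [lintegral_add_right _ measurable_const, lintegral_const, measure_univ, mul_one]
  apply ENNReal.add_lt_top.mpr
  refine ⟨?_, ENNReal.ofReal_lt_top⟩
  have hmS : ∀ k : ℕ, MeasurableSet {x : E | R k ≤ ‖x‖} := fun k =>
    measurableSet_le measurable_const continuous_norm.measurable
  rw [lintegral_tsum (fun k => (measurable_const.indicator (hmS k)).aemeasurable)]
  have hterm : ∀ k : ℕ, ∫⁻ x, {x : E | R k ≤ ‖x‖}.indicator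
      (fun _ => ENNReal.ofReal ((2 * c * (k + 2)) ^ 2)) x ∂μ ≤
      ENNReal.ofReal ((2 * c * (k + 2)) ^ 2 * Real.exp (-(k : ℝ))) := by
    intro k
    rw [lintegral_indicator (hmS k), setLIntegral_const, ENNReal.ofReal_mul (by positivity)]
    gcongr
    exact hmeas k (Nat.cast_nonneg k)
  refine lt_of_le_of_lt (ENNReal.tsum_le_tsum hterm) ?_
  have hsum : Summable (fun k : ℕ => (2 * c * ((k : ℝ) + 2)) ^ 2 * Real.exp (-(k : ℝ))) := by
    have h0 := Real.summable_pow_mul_exp_neg_nat_mul 0 (r := 1) (by norm_num)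
    have h1 := Real.summable_pow_mul_exp_neg_nat_mul 1 (r := 1) (by norm_num)
    have h2 := Real.summable_pow_mul_exp_neg_nat_mul 2 (r := 1) (by norm_num)
    have h3 := ((h2.mul_left (4 * c ^ 2)).add (h1.mul_left (16 * c ^ 2))).add
      (h0.mul_left (16 * c ^ 2))
    refine h3.congr fun k => ?_
    simp only [pow_zero, pow_one, one_mul, neg_mul]
    ring
  rw [← ENNReal.ofReal_tsum_of_nonneg (fun k => by positivity) hsum]
  exact ENNReal.ofReal_lt_top

end

/-- the constant -/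
noncomputable def cEM : ℝ := 4096 * 640 * Real.exp 128

lemma cEM_pos : 0 < cEM := by unfold cEM; positivity

/-- approximate Lipschitz variance bound implies the Poincare inequality -/
theorem em_approx {E : Type*} [NormedAddCommGroup E] [InnerProductSpace ℝ E]
    [FiniteDimensional ℝ E] [MeasurableSpace E] [BorelSpace E] {μ : Measure E}
    [IsProbabilityMeasure μ] (h : PLm μ) {M : ℝ} (hM : 0 < M) (hv : LVe μ M eta0)
    {f : E → ℝ} (hf : ContDiff ℝ 1 f) (hl : ∃ l : ℝ, ∀ x, ‖fderiv ℝ f x‖ ≤ l) :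
    Var[f; μ] ≤ cEM * M * ∫ x, ‖fderiv ℝ f x‖ ^ 2 ∂μ := by
  have hsone : 4096 / sone M = cEM * M := by
    unfold sone kap cEM
    rw [mul_pow, Real.sq_sqrt hM.le, ← Real.exp_nat_mul]
    have : ((2 : ℕ) : ℝ) * 64 = 128 := by norm_num
    rw [this]
    have h5 : 0 < Real.exp 128 := Real.exp_pos _
    field_simp
  rw [← hsone]
  refine poinc_ext μ h.sq_integrable (by have := sone_pos hM; positivity) ?_ f hf hl
  intro g hg hgb hgl hgL
  exact em_class h hM hv hg hgb hgl hgL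

/-- Lipschitz variance bound implies the Poincare inequality -/
theorem em : ∃ C : ℝ, 0 < C ∧ ∀ (E : Type) [NormedAddCommGroup E] [InnerProductSpace ℝ E]
    [FiniteDimensional ℝ E] [MeasurableSpace E] [BorelSpace E] (μ : Measure E)
    [IsProbabilityMeasure μ], PLm μ → ∀ M : ℝ, 0 < M → LVb μ M →
    ∀ f : E → ℝ, ContDiff ℝ 1 f → (∃ l : ℝ, ∀ x, ‖fderiv ℝ f x‖ ≤ l) →
    Var[f; μ] ≤ C * M * ∫ x, ‖fderiv ℝ f x‖ ^ 2 ∂μ := by
  refine ⟨cEM, cEM_pos, ?_⟩
  intro E _ _ _ _ _ μ _ h M hM hv f hf hl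
  exact em_approx h hM (hv.toLVe.mono eta0_pos.le) hf hl

end Pool.Agent.Lib.MP_6d896a_gt.FP
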