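import Mathlib
import Pool.Agent.Lib.MP_6d896a_gt.FP.Defs

/-!
Log-sum-exp functions of finitely many affine functions are smooth and convex, with bounded and
Lipschitz second derivative.
-/

set_option autoImplicit false

namespace Pool.Agent.Lib.MP_6d896a_gt.FP

open MeasureTheory ProbabilityTheory Set Filter
open scoped ENNReal Topology

section BL

set_option linter.unusedSectionVars false

variable {E F G : Type*} [NormedAddCommGroup E] [NormedSpace ℝ E] [NormedAddCommGroup F]
  [NormedSpace ℝ F] [NormedAddCommGroup G] [NormedSpace ℝ G]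

/-- bounded and Lipschitz functions -/
def BLip (h : E → F) : Prop :=
  ∃ C : ℝ, 0 ≤ C ∧ (∀ x, ‖h x‖ ≤ C) ∧ ∀ x y, ‖h x - h y‖ ≤ C * ‖x - y‖

lemma BLip.const (c : F) : BLip (fun _ : E => c) :=
  ⟨‖c‖, norm_nonneg _, fun _ => le_rfl, fun x y => by simp; positivity⟩

lemma BLip.add {h k : E → F} (hh : BLip h) (hk : BLip k) : BLip (fun x => h x + k x) := by
  obtain ⟨C, hC, h1, h2⟩ := hh
  obtain ⟨D, hD, k1, k2⟩ := hk
  refine ⟨C + D, by positivity, fun x => (norm_add_le _ _).trans (add_le_add (h1 x) (k1 x)),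
    fun x y => ?_⟩
  have e : h x + k x - (h y + k y) = (h x - h y) + (k x - k y) := by abel
  rw [e]
  refine (norm_add_le _ _).trans ?_
  rw [add_mul]
  exact add_le_add (h2 x y) (k2 x y)

lemma BLip.sum {ι : Type*} (s : Finset ι) {h : ι → E → F} (hh : ∀ i ∈ s, BLip (h i)) :
    BLip (fun x => ∑ i ∈ s, h i x) := by
  classical
  induction s using Finset.induction_on with
  | empty => simpa using BLip.const (E := E) (0 : F)
  | insert a s ha ih =>
    simp only [Finset.sum_insert ha]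
    exact (hh a (Finset.mem_insert_self _ _)).add
      (ih fun i hi => hh i (Finset.mem_insert_of_mem hi))

lemma BLip.clm {h : E → F} (hh : BLip h) (T : F →L[ℝ] G) : BLip (fun x => T (h x)) := by
  obtain ⟨C, hC, h1, h2⟩ := hh
  refine ⟨‖T‖ * C, by positivity, fun x => (T.le_opNorm _).trans (by gcongr; exact h1 x),
    fun x y => ?_⟩
  rw [← map_sub, mul_assoc]
  exact (T.le_opNorm _).trans (by gcongr; exact h2 x y)

lemma BLip.smul {p : E → ℝ} {h : E → F} (hp : BLip p) (hh : BLip h) :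
    BLip (fun x => p x • h x) := by
  obtain ⟨C, hC, h1, h2⟩ := hh
  obtain ⟨D, hD, k1, k2⟩ := hp
  refine ⟨2 * D * C, by positivity, fun x => ?_, fun x y => ?_⟩
  · rw [norm_smul]
    have := mul_le_mul (k1 x) (h1 x) (norm_nonneg _) hD
    nlinarith [mul_nonneg hD hC]
  · have e : p x • h x - p y • h y = (p x - p y) • h x + p y • (h x - h y) := by
      rw [sub_smul, smul_sub]; abel
    rw [e]
    refine (norm_add_le _ _).trans ?_
    rw [norm_smul, norm_smul]
    have a1 : ‖p x - p y‖ * ‖h x‖ ≤ (D * ‖x - y‖) * C :=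
      mul_le_mul (k2 x y) (h1 x) (norm_nonneg _) (by positivity)
    have a2 : ‖p y‖ * ‖h x - h y‖ ≤ D * (C * ‖x - y‖) :=
      mul_le_mul (k1 y) (h2 x y) (norm_nonneg _) hD
    nlinarith

lemma BLip.of_fderiv {p : E → F} {p' : E → E →L[ℝ] F} (hb : ∃ C, ∀ x, ‖p x‖ ≤ C)
    (hd : ∀ x, HasFDerivAt p (p' x) x) (hd' : ∃ C, ∀ x, ‖p' x‖ ≤ C) : BLip p := by
  obtain ⟨C, hC⟩ := hb
  obtain ⟨D, hD⟩ := hd'
  have hC0 : 0 ≤ C := (norm_nonneg _).trans (hC 0)
  have hD0 : 0 ≤ D := (norm_nonneg _).trans (hD 0)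
  refine ⟨max C D, le_max_of_le_left hC0, fun x => (hC x).trans (le_max_left _ _), fun x y => ?_⟩
  have := Convex.norm_image_sub_le_of_norm_hasFDerivWithin_le (f := p) (f' := p') (s := univ)
    (C := D) (x := y) (y := x) (fun z _ => (hd z).hasFDerivWithinAt) (fun z _ => hD z) convex_univ
    (mem_univ _) (mem_univ _)
  refine this.trans ?_
  gcongr
  exact le_max_right _ _

end BL

section LSE

variable {E : Type*} [NormedAddCommGroup E] [NormedSpace ℝ E]
variable {ι : Type*} (s : Finset ι) (A : ι → E →L[ℝ] ℝ) (b : ι → ℝ)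

/-- sum of exponentials of affine functions -/
noncomputable def seZ (x : E) : ℝ := ∑ i ∈ s, Real.exp (A i x + b i)

/-- softmax weights -/
noncomputable def smx (i : ι) (x : E) : ℝ := Real.exp (A i x + b i) / seZ s A b x

/-- gradient of log-sum-exp -/
noncomputable def seG (x : E) : E →L[ℝ] ℝ := ∑ i ∈ s, smx s A b i x • A i

variable {s A b}

lemma seZ_pos (hs : s.Nonempty) (x : E) : 0 < seZ s A b x :=
  Finset.sum_pos (fun _ _ => Real.exp_pos _) hs

lemma hasFDerivAt_exp_aff (i : ι) (x : E) :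
    HasFDerivAt (fun x => Real.exp (A i x + b i)) (Real.exp (A i x + b i) • A i) x := by
  have := ((A i).hasFDerivAt (x := x)).add_const (b i)
  exact this.exp

lemma hasFDerivAt_seZ (hs : s.Nonempty) (x : E) :
    HasFDerivAt (seZ s A b) (seZ s A b x • seG s A b x) x := by
  have h1 : HasFDerivAt (fun x => ∑ i ∈ s, Real.exp (A i x + b i))
      (∑ i ∈ s, Real.exp (A i x + b i) • A i) x :=
    HasFDerivAt.fun_sum fun i _ => hasFDerivAt_exp_aff i x
  have e : seZ s A b x • seG s A b x = ∑ i ∈ s, Real.exp (A i x + b i) • A i := by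
    rw [seG, Finset.smul_sum]
    refine Finset.sum_congr rfl fun i _ => ?_
    rw [smx, smul_smul, mul_div_cancel₀ _ (seZ_pos hs x).ne']
  rw [e]
  exact h1

lemma hasFDerivAt_log_seZ (hs : s.Nonempty) (x : E) :
    HasFDerivAt (fun x => Real.log (seZ s A b x)) (seG s A b x) x := by
  have := (hasFDerivAt_seZ (A := A) (b := b) hs x).log (seZ_pos hs x).ne'
  rwa [smul_smul, inv_mul_cancel₀ (seZ_pos hs x).ne', one_smul] at this

lemma hasFDerivAt_smx (hs : s.Nonempty) (i : ι) (x : E) :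
    HasFDerivAt (smx s A b i) (smx s A b i x • (A i - seG s A b x)) x := by
  have e : ∀ x, smx s A b i x = Real.exp (A i x + b i - Real.log (seZ s A b x)) := by
    intro x
    rw [Real.exp_sub, Real.exp_log (seZ_pos hs x), smx]
  have h1 := ((((A i).hasFDerivAt (x := x)).add_const (b i)).fun_sub
    (hasFDerivAt_log_seZ (A := A) (b := b) hs x)).exp
  rw [e x]
  rw [show smx s A b i = _ from funext e]
  exact h1

lemma smx_nonneg (hs : s.Nonempty) (i : ι) (x : E) : 0 ≤ smx s A b i x :=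
  div_nonneg (Real.exp_pos _).le (seZ_pos hs x).le

lemma smx_le_one (hs : s.Nonempty) {i : ι} (hi : i ∈ s) (x : E) : smx s A b i x ≤ 1 := by
  rw [smx, div_le_one (seZ_pos hs x)]
  exact Finset.single_le_sum (f := fun i => Real.exp (A i x + b i))
    (fun _ _ => (Real.exp_pos _).le) hi

lemma seG_bd (hs : s.Nonempty) : ∃ C, ∀ x, ‖seG s A b x‖ ≤ C := by
  refine ⟨∑ i ∈ s, ‖A i‖, fun x => (norm_sum_le _ _).trans (Finset.sum_le_sum fun i hi => ?_)⟩
  rw [norm_smul, Real.norm_of_nonneg (smx_nonneg hs i x)]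
  have := smx_le_one (A := A) (b := b) hs hi x
  nlinarith [norm_nonneg (A i)]

lemma BLip_smx (hs : s.Nonempty) {i : ι} (hi : i ∈ s) : BLip (smx s A b i) := by
  refine BLip.of_fderiv (p' := fun x => smx s A b i x • (A i - seG s A b x)) ⟨1, fun x => ?_⟩
    (fun x => hasFDerivAt_smx hs i x) ?_
  · rw [Real.norm_of_nonneg (smx_nonneg hs i x)]
    exact smx_le_one hs hi x
  · obtain ⟨C, hC⟩ := seG_bd (A := A) (b := b) hs
    refine ⟨‖A i‖ + C, fun x => ?_⟩
    rw [norm_smul, Real.norm_of_nonneg (smx_nonneg hs i x)]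
    have h1 : ‖A i - seG s A b x‖ ≤ ‖A i‖ + C := (norm_sub_le _ _).trans (by gcongr; exact hC x)
    have h2 := smx_le_one (A := A) (b := b) hs hi x
    have h3 := smx_nonneg (A := A) (b := b) hs i x
    nlinarith [norm_nonneg (A i - seG s A b x)]

lemma BLip_seG (hs : s.Nonempty) : BLip (seG s A b) := by
  unfold seG
  exact BLip.sum s fun i hi => (BLip_smx hs hi).smul (BLip.const (A i))

lemma hasFDerivAt_seG (hs : s.Nonempty) (x : E) :
    HasFDerivAt (seG s A b)
      (∑ i ∈ s, (smx s A b i x • (A i - seG s A b x)).smulRight (A i)) x := by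
  unfold seG
  exact HasFDerivAt.fun_sum fun i _ => (hasFDerivAt_smx hs i x).smul_const (A i)

lemma fderiv_log_seZ (hs : s.Nonempty) :
    fderiv ℝ (fun x => Real.log (seZ s A b x)) = seG s A b :=
  funext fun x => (hasFDerivAt_log_seZ hs x).fderiv

lemma BLip_fderiv_fderiv_log_seZ (hs : s.Nonempty) :
    BLip (fderiv ℝ (fderiv ℝ (fun x => Real.log (seZ s A b x)))) := by
  rw [fderiv_log_seZ hs]
  have e : fderiv ℝ (seG s A b) =
      fun x => ∑ i ∈ s, (smx s A b i x • (A i - seG s A b x)).smulRight (A i) :=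
    funext fun x => (hasFDerivAt_seG hs x).fderiv
  rw [e]
  refine BLip.sum s fun i hi => ?_
  have h1 : BLip (fun x => smx s A b i x • (A i - seG s A b x)) := by
    refine (BLip_smx hs hi).smul ?_
    have := (BLip.const (E := E) (A i)).add ((BLip_seG (A := A) (b := b) hs).clm
      (-(ContinuousLinearMap.id ℝ (E →L[ℝ] ℝ))))
    simpa [sub_eq_add_neg] using this
  have h2 := BLip.clm (G := E →L[ℝ] E →L[ℝ] ℝ) h1
    ((ContinuousLinearMap.smulRightL ℝ E (E →L[ℝ] ℝ)).flip (A i))
  exact h2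

lemma contDiff_log_seZ (hs : s.Nonempty) (n : ℕ∞) :
    ContDiff ℝ n (fun x => Real.log (seZ s A b x)) := by
  refine ContDiff.log ?_ fun x => (seZ_pos hs x).ne'
  unfold seZ
  exact ContDiff.sum fun i _ => by fun_prop

lemma midpoint_log_seZ (hs : s.Nonempty) (x y : E) :
    Real.log (seZ s A b ((1 / 2 : ℝ) • (x + y))) ≤
      (Real.log (seZ s A b x) + Real.log (seZ s A b y)) / 2 := by
  have h1 : seZ s A b ((1 / 2 : ℝ) • (x + y)) ^ 2 ≤ seZ s A b x * seZ s A b y := by
    have := Finset.sum_mul_sq_le_sq_mul_sq s (fun i => Real.exp ((A i x + b i) / 2))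
      (fun i => Real.exp ((A i y + b i) / 2))
    have e1 : seZ s A b ((1 / 2 : ℝ) • (x + y)) =
        ∑ i ∈ s, Real.exp ((A i x + b i) / 2) * Real.exp ((A i y + b i) / 2) := by
      unfold seZ
      refine Finset.sum_congr rfl fun i _ => ?_
      rw [← Real.exp_add]
      congr 1
      simp
      ring
    have e2 : ∀ x, seZ s A b x = ∑ i ∈ s, Real.exp ((A i x + b i) / 2) ^ 2 := by
      intro x
      unfold seZ
      refine Finset.sum_congr rfl fun i _ => ?_
      rw [← Real.exp_nat_mul]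
      congr 1
      push_cast
      ring
    rw [e1, e2 x, e2 y]
    exact this
  have hz := seZ_pos (A := A) (b := b) hs
  have h2 := Real.log_le_log (by have := hz ((1 / 2 : ℝ) • (x + y)); positivity) h1
  rw [Real.log_pow, Real.log_mul (hz x).ne' (hz y).ne'] at h2
  push_cast at h2
  linarith

end LSE

end Pool.Agent.Lib.MP_6d896a_gt.FP
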