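import Mathlib
import Pool.Agent.Lib.MP_6d896a_gt.FP.Defs

/-!
The affine invariant Poincare inequality passes to limits of densities under domination.
-/

set_option autoImplicit false

namespace Pool.Agent.Lib.MP_6d896a_gt.FP

open MeasureTheory ProbabilityTheory Set Filter
open scoped ENNReal Topology

section dm

set_option linter.unusedSectionVars false

variable {V : Type} [Fintype V]

/-- normalised measure with density `p` -/
noncomputable def dm (p : (V → ℝ) → ℝ) : Measure (V → ℝ) :=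
  (∫⁻ x, ENNReal.ofReal (p x))⁻¹ •
    (volume : Measure (V → ℝ)).withDensity (fun x => ENNReal.ofReal (p x))

lemma gibbs_eq_dm (φ : (V → ℝ) → ℝ) : gibbs φ = dm (fun x => Real.exp (-φ x)) := rfl

/-- mean value with respect to the normalised density -/
noncomputable def mn (p g : (V → ℝ) → ℝ) : ℝ := (∫ x, p x)⁻¹ * ∫ x, g x * p x

/-- densities with finite second moments -/
structure GoodD (p : (V → ℝ) → ℝ) : Prop where
  nn : ∀ x, 0 ≤ p x
  ms : Measurable p
  it : Integrable (fun x => (1 + ‖x‖) ^ 2 * p x)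
  ps : 0 < ∫ x, p x

lemma GoodD.integrable_mul {p : (V → ℝ) → ℝ} (h : GoodD p) {g : (V → ℝ) → ℝ}
    (hg : Measurable g) {C : ℝ} (hC : ∀ x, |g x| ≤ C * (1 + ‖x‖) ^ 2) :
    Integrable (fun x => g x * p x) := by
  refine (h.it.const_mul C).mono' (hg.mul h.ms).aestronglyMeasurable (ae_of_all _ fun x => ?_)
  rw [Real.norm_eq_abs, abs_mul, abs_of_nonneg (h.nn x), ← mul_assoc]
  exact mul_le_mul_of_nonneg_right (hC x) (h.nn x)

lemma GoodD.integrable {p : (V → ℝ) → ℝ} (h : GoodD p) : Integrable p := by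
  have := h.integrable_mul (g := fun _ => 1) measurable_const (C := 1) (fun x => by
    simp only [abs_one, one_mul]
    nlinarith [norm_nonneg x])
  simpa using this

lemma GoodD.lint {p : (V → ℝ) → ℝ} (h : GoodD p) :
    ∫⁻ x, ENNReal.ofReal (p x) = ENNReal.ofReal (∫ x, p x) :=
  (ofReal_integral_eq_lintegral_ofReal h.integrable (ae_of_all _ h.nn)).symm

lemma GoodD.isProb {p : (V → ℝ) → ℝ} (h : GoodD p) : IsProbabilityMeasure (dm p) := by
  constructor
  rw [dm, Measure.smul_apply, withDensity_apply _ MeasurableSet.univ, Measure.restrict_univ,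
    smul_eq_mul]
  apply ENNReal.inv_mul_cancel
  · rw [h.lint]; simpa using h.ps
  · rw [h.lint]; exact ENNReal.ofReal_ne_top

lemma GoodD.integral_dm {p : (V → ℝ) → ℝ} (h : GoodD p) (g : (V → ℝ) → ℝ) :
    ∫ x, g x ∂(dm p) = mn p g := by
  rw [dm, integral_smul_measure, integral_withDensity_eq_integral_toReal_smul
    (h.ms.ennreal_ofReal) (ae_of_all _ fun x => ENNReal.ofReal_lt_top), h.lint, mn, smul_eq_mul,
    ENNReal.toReal_inv, ENNReal.toReal_ofReal h.ps.le]
  congr 1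
  refine integral_congr_ae (ae_of_all _ fun x => ?_)
  simp only [smul_eq_mul]
  rw [ENNReal.toReal_ofReal (h.nn x), mul_comm]

lemma GoodD.integrable_dm {p : (V → ℝ) → ℝ} (h : GoodD p) {g : (V → ℝ) → ℝ}
    (hg : Measurable g) {C : ℝ} (hC : ∀ x, |g x| ≤ C * (1 + ‖x‖) ^ 2) :
    Integrable g (dm p) := by
  rw [dm]
  refine Integrable.smul_measure ?_ ?_
  · rw [integrable_withDensity_iff_integrable_smul' h.ms.ennreal_ofReal
      (ae_of_all _ fun x => ENNReal.ofReal_lt_top)]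
    refine (h.integrable_mul hg hC).congr (ae_of_all _ fun x => ?_)
    simp only [smul_eq_mul]
    rw [ENNReal.toReal_ofReal (h.nn x), mul_comm]
  · rw [h.lint]
    simpa using h.ps

lemma sq_bound {a C r : ℝ} (hr : 0 ≤ r) (h : |a| ≤ C * (1 + r)) :
    |a ^ 2| ≤ C ^ 2 * (1 + r) ^ 2 := by
  rw [abs_pow, ← mul_pow]
  exact pow_le_pow_left₀ (abs_nonneg _) h 2

lemma lin_bound {a C r : ℝ} (hr : 0 ≤ r) (h : |a| ≤ C * (1 + r)) :
    |a| ≤ C * (1 + r) ^ 2 := by
  have hC : 0 ≤ C := by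
    by_contra hcon
    push Not at hcon
    have : C * (1 + r) < 0 := mul_neg_of_neg_of_pos hcon (by linarith)
    linarith [abs_nonneg a]
  refine h.trans ?_
  have : (1 + r) ≤ (1 + r) ^ 2 := by nlinarith
  exact mul_le_mul_of_nonneg_left this hC

lemma GoodD.memLp {p : (V → ℝ) → ℝ} (h : GoodD p) {g : (V → ℝ) → ℝ}
    (hg : Measurable g) {C : ℝ} (hC : ∀ x, |g x| ≤ C * (1 + ‖x‖)) :
    MemLp g 2 (dm p) := by
  rw [memLp_two_iff_integrable_sq hg.aestronglyMeasurable]
  exact h.integrable_dm (hg.pow_const 2) fun x => sq_bound (norm_nonneg x) (hC x)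

lemma GoodD.variance {p : (V → ℝ) → ℝ} (h : GoodD p) {g : (V → ℝ) → ℝ}
    (hg : Measurable g) {C : ℝ} (hC : ∀ x, |g x| ≤ C * (1 + ‖x‖)) :
    Var[g; dm p] = mn p (fun x => g x ^ 2) - mn p g ^ 2 := by
  haveI := h.isProb
  rw [variance_eq_sub (h.memLp hg hC), ← h.integral_dm, ← h.integral_dm]
  rfl

variable [DecidableEq V]

lemma clm_eq_sum (L : (V → ℝ) →L[ℝ] ℝ) (z : V → ℝ) :
    L z = ∑ v, L (Pi.single v 1) * z v := by
  have h1 : z = ∑ v, z v • (Pi.single v (1 : ℝ) : V → ℝ) := by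
    conv_lhs => rw [← Finset.univ_sum_single z]
    refine Finset.sum_congr rfl fun v _ => ?_
    rw [← Pi.single_smul', smul_eq_mul, mul_one]
  conv_lhs => rw [h1]
  rw [map_sum]
  exact Finset.sum_congr rfl fun v _ => by rw [map_smul, smul_eq_mul, mul_comm]

lemma mn_sum {p : (V → ℝ) → ℝ} {ι : Type*} (s : Finset ι) (g : ι → (V → ℝ) → ℝ)
    (hg : ∀ i ∈ s, Integrable (fun x => g i x * p x)) :
    mn p (fun x => ∑ i ∈ s, g i x) = ∑ i ∈ s, mn p (g i) := by
  unfold mn
  rw [← Finset.mul_sum, ← integral_finsetSum _ hg]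
  congr 2
  funext x
  rw [Finset.sum_mul]

lemma mn_const_mul {p : (V → ℝ) → ℝ} (c : ℝ) (g : (V → ℝ) → ℝ) :
    mn p (fun x => c * g x) = c * mn p g := by
  unfold mn
  have : (fun x => c * g x * p x) = fun x => c * (g x * p x) := by funext x; ring
  rw [this, integral_const_mul]
  ring

/-- covariances of the coordinates -/
noncomputable def cvm (p : (V → ℝ) → ℝ) (v w : V) : ℝ :=
  mn p (fun x => x v * x w) - mn p (fun x => x v) * mn p (fun x => x w)

lemma coord_bd (v : V) (x : V → ℝ) : |x v| ≤ 1 * (1 + ‖x‖) := by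
  have := norm_le_pi_norm x v
  rw [Real.norm_eq_abs] at this
  linarith

lemma coord2_bd (v w : V) (x : V → ℝ) : |x v * x w| ≤ 1 * (1 + ‖x‖) ^ 2 := by
  rw [abs_mul, one_mul, pow_two]
  have h1 := coord_bd v x
  have h2 := coord_bd w x
  rw [one_mul] at h1 h2
  exact mul_le_mul h1 h2 (abs_nonneg _) (by positivity)

lemma GoodD.var_lin {p : (V → ℝ) → ℝ} (h : GoodD p) (L : (V → ℝ) →L[ℝ] ℝ) :
    Var[fun z => L z; dm p] =
      ∑ v, ∑ w, cvm p v w * (L (Pi.single v 1) * L (Pi.single w 1)) := by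
  have hb : ∀ x, |L x| ≤ ‖L‖ * (1 + ‖x‖) := by
    intro x
    have := L.le_opNorm x
    rw [Real.norm_eq_abs] at this
    nlinarith [norm_nonneg L, norm_nonneg x]
  rw [h.variance L.continuous.measurable hb]
  have e1 : (fun x => L x ^ 2) = fun x => ∑ v, ∑ w,
      (L (Pi.single v 1) * L (Pi.single w 1)) * (x v * x w) := by
    funext x
    rw [clm_eq_sum L x, pow_two, Finset.sum_mul_sum]
    refine Finset.sum_congr rfl fun v _ => Finset.sum_congr rfl fun w _ => by ring
  have i2 : ∀ v w, Integrable (fun x : V → ℝ => (L (Pi.single v 1) * L (Pi.single w 1)) *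
      (x v * x w) * p x) := by
    intro v w
    have := (h.integrable_mul (g := fun x => x v * x w) (by fun_prop) (coord2_bd v w)).const_mul
      (L (Pi.single v 1) * L (Pi.single w 1))
    refine this.congr (ae_of_all _ fun x => by ring)
  have e2 : mn p (fun x => L x ^ 2) =
      ∑ v, ∑ w, (L (Pi.single v 1) * L (Pi.single w 1)) * mn p (fun x => x v * x w) := by
    rw [e1, mn_sum]
    · refine Finset.sum_congr rfl fun v _ => ?_
      rw [mn_sum _ _ fun w _ => i2 v w]
      exact Finset.sum_congr rfl fun w _ => mn_const_mul _ _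
    · intro v _
      have : (fun x : V → ℝ => (∑ w, (L (Pi.single v 1) * L (Pi.single w 1)) *
          (x v * x w)) * p x) = fun x => ∑ w, (L (Pi.single v 1) * L (Pi.single w 1)) *
          (x v * x w) * p x := by
        funext x; rw [Finset.sum_mul]
      rw [this]
      exact integrable_finsetSum _ fun w _ => i2 v w
  have e3 : mn p (fun x => L x) = ∑ v, L (Pi.single v 1) * mn p (fun x => x v) := by
    have : (fun x => L x) = fun x => ∑ v, L (Pi.single v 1) * x v := funext fun x => clm_eq_sum L x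
    rw [this, mn_sum]
    · exact Finset.sum_congr rfl fun v _ => mn_const_mul _ _
    · intro v _
      have := (h.integrable_mul (g := fun x => x v) (by fun_prop)
        (fun x => lin_bound (norm_nonneg x) (coord_bd v x))).const_mul (L (Pi.single v 1))
      refine this.congr (ae_of_all _ fun x => by ring)
  have e3' : mn p (⇑L) = ∑ v, L (Pi.single v 1) * mn p (fun x => x v) := e3
  rw [e2, e3', pow_two, Finset.sum_mul_sum, ← Finset.sum_sub_distrib]
  refine Finset.sum_congr rfl fun v _ => ?_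
  rw [← Finset.sum_sub_distrib]
  refine Finset.sum_congr rfl fun w _ => ?_
  rw [cvm]
  ring

/-- test functions -/
structure TestF (f : (V → ℝ) → ℝ) : Prop where
  cd : ContDiff ℝ 1 f
  bd : ∃ l : ℝ, ∀ x, ‖fderiv ℝ f x‖ ≤ l

lemma TestF.growth {f : (V → ℝ) → ℝ} (h : TestF f) : ∃ C, ∀ x, |f x| ≤ C * (1 + ‖x‖) := by
  obtain ⟨l, hl⟩ := h.bd
  have hl0 : 0 ≤ l := (norm_nonneg _).trans (hl 0)
  refine ⟨|f 0| + l, fun x => ?_⟩
  have h1 := Convex.norm_image_sub_le_of_norm_fderiv_le (f := f) (C := l) (s := univ) (x := 0)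
    (y := x) (fun z _ => h.cd.differentiable one_ne_zero z) (fun z _ => hl z) convex_univ
    (mem_univ _) (mem_univ _)
  rw [sub_zero, Real.norm_eq_abs] at h1
  have h2 : |f x| ≤ |f 0| + |f x - f 0| := by
    have := abs_add_le (f 0) (f x - f 0)
    rwa [add_sub_cancel] at this
  nlinarith [abs_nonneg (f 0), norm_nonneg x]

/-- partial derivatives -/
noncomputable def pd (f : (V → ℝ) → ℝ) (v : V) (x : V → ℝ) : ℝ := fderiv ℝ f x (Pi.single v 1)

lemma TestF.pd_cont {f : (V → ℝ) → ℝ} (h : TestF f) (v : V) : Continuous (pd f v) := by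
  unfold pd
  exact (h.cd.continuous_fderiv one_ne_zero).clm_apply continuous_const

lemma TestF.pd_bd {f : (V → ℝ) → ℝ} (h : TestF f) : ∃ C, 0 ≤ C ∧ ∀ v x, |pd f v x| ≤ C := by
  obtain ⟨l, hl⟩ := h.bd
  have hl0 : 0 ≤ l := (norm_nonneg _).trans (hl 0)
  refine ⟨l, hl0, fun v x => ?_⟩
  have h1 := (fderiv ℝ f x).le_opNorm (Pi.single v 1)
  rw [Real.norm_eq_abs] at h1
  have h2 : ‖(Pi.single v (1 : ℝ) : V → ℝ)‖ ≤ 1 := by
    rw [pi_norm_le_iff_of_nonneg zero_le_one]
    intro w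
    by_cases hw : w = v
    · subst hw; simp
    · simp [Pi.single_eq_of_ne hw]
  unfold pd
  nlinarith [hl x, norm_nonneg (fderiv ℝ f x), norm_nonneg (Pi.single v (1 : ℝ) : V → ℝ)]

lemma TestF.pd2_bd {f : (V → ℝ) → ℝ} (h : TestF f) :
    ∃ C, ∀ v w x, |pd f v x * pd f w x| ≤ C * (1 + ‖x‖) ^ 2 := by
  obtain ⟨C, hC, h1⟩ := h.pd_bd
  refine ⟨C ^ 2, fun v w x => ?_⟩
  have h2 := mul_le_mul (h1 v x) (h1 w x) (abs_nonneg _) hC
  rw [abs_mul]
  have h3 : (1 : ℝ) ≤ (1 + ‖x‖) ^ 2 := by nlinarith [norm_nonneg x]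
  nlinarith [sq_nonneg C]

lemma GoodD.rhs {p : (V → ℝ) → ℝ} (h : GoodD p) {f : (V → ℝ) → ℝ} (hf : TestF f) :
    ∫ x, Var[fun z => fderiv ℝ f x z; dm p] ∂(dm p) =
      ∑ v, ∑ w, cvm p v w * mn p (fun x => pd f v x * pd f w x) := by
  have e1 : (fun x => Var[fun z => fderiv ℝ f x z; dm p]) =
      fun x => ∑ v, ∑ w, cvm p v w * (pd f v x * pd f w x) :=
    funext fun x => h.var_lin (fderiv ℝ f x)
  obtain ⟨C, hC⟩ := hf.pd2_bd
  have i2 : ∀ v w, Integrable (fun x : V → ℝ => cvm p v w * (pd f v x * pd f w x) * p x) := by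
    intro v w
    have := (h.integrable_mul (g := fun x => pd f v x * pd f w x)
      ((hf.pd_cont v).mul (hf.pd_cont w)).measurable (hC v w)).const_mul (cvm p v w)
    refine this.congr (ae_of_all _ fun x => by ring)
  rw [e1, h.integral_dm, mn_sum]
  · refine Finset.sum_congr rfl fun v _ => ?_
    rw [mn_sum _ _ fun w _ => i2 v w]
    exact Finset.sum_congr rfl fun w _ => mn_const_mul _ _
  · intro v _
    have : (fun x : V → ℝ => (∑ w, cvm p v w * (pd f v x * pd f w x)) * p x) =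
        fun x => ∑ w, cvm p v w * (pd f v x * pd f w x) * p x := by
      funext x; rw [Finset.sum_mul]
    rw [this]
    exact integrable_finsetSum _ fun w _ => i2 v w

lemma GoodD.AP_iff {p : (V → ℝ) → ℝ} (h : GoodD p) {K : ℝ} :
    AP (dm p) K ↔ ∀ f : (V → ℝ) → ℝ, TestF f →
      mn p (fun x => f x ^ 2) - mn p f ^ 2 ≤
        K * ∑ v, ∑ w, cvm p v w * mn p (fun x => pd f v x * pd f w x) := by
  constructor
  · intro H f hf
    have := H f hf.cd hf.bd
    obtain ⟨C, hC⟩ := hf.growth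
    rwa [h.rhs hf, h.variance hf.cd.continuous.measurable hC] at this
  · intro H f h1 h2
    have hf : TestF f := ⟨h1, h2⟩
    obtain ⟨C, hC⟩ := hf.growth
    rw [h.rhs hf, h.variance hf.cd.continuous.measurable hC]
    exact H f hf

/-- the affine invariant Poincare inequality passes to the limit -/
theorem AP_limit {p : ℕ → (V → ℝ) → ℝ} {q P : (V → ℝ) → ℝ} {K : ℝ}
    (hp0 : ∀ k x, 0 ≤ p k x) (hpm : ∀ k, Measurable (p k)) (hq0 : ∀ x, 0 ≤ q x)
    (hqm : Measurable q) (hP : ∀ k, ∀ᵐ x, p k x ≤ P x)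
    (hPi : Integrable (fun x => (1 + ‖x‖) ^ 2 * P x))
    (hlim : ∀ᵐ x, Tendsto (fun k => p k x) atTop (𝓝 (q x))) (hq : 0 < ∫ x, q x)
    (hAP : ∀ k, 0 < ∫ x, p k x → AP (dm (p k)) K) : GoodD q ∧ AP (dm q) K := by
  have hPq : ∀ᵐ x, q x ≤ P x := by
    filter_upwards [hlim, ae_all_iff.mpr hP] with x h1 h2
    exact le_of_tendsto' h1 h2
  have hbq : Integrable (fun x => (1 + ‖x‖) ^ 2 * q x) := by
    refine hPi.mono' (by fun_prop) ?_
    filter_upwards [hPq] with x hx
    rw [Real.norm_of_nonneg (mul_nonneg (by positivity) (hq0 x))]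
    gcongr
  have hgq : GoodD q := ⟨hq0, hqm, hbq, hq⟩
  have hT : ∀ g : (V → ℝ) → ℝ, Measurable g → (∃ C, ∀ x, |g x| ≤ C * (1 + ‖x‖) ^ 2) →
      Tendsto (fun k => ∫ x, g x * p k x) atTop (𝓝 (∫ x, g x * q x)) := by
    rintro g hg ⟨C, hC⟩
    refine tendsto_integral_of_dominated_convergence (fun x => C * ((1 + ‖x‖) ^ 2 * P x))
      (fun k => (hg.mul (hpm k)).aestronglyMeasurable) (hPi.const_mul C) (fun k => ?_) ?_
    · filter_upwards [hP k] with x hx
      rw [Real.norm_eq_abs, abs_mul, abs_of_nonneg (hp0 k x), ← mul_assoc]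
      have h1 := hC x
      have h2 := hp0 k x
      exact mul_le_mul h1 hx h2 ((abs_nonneg _).trans h1)
    · filter_upwards [hlim] with x hx
      exact hx.const_mul _
  have hT1 : Tendsto (fun k => ∫ x, p k x) atTop (𝓝 (∫ x, q x)) := by
    have := hT (fun _ => 1) measurable_const ⟨1, fun x => by
      simp only [abs_one, one_mul]
      nlinarith [norm_nonneg x]⟩
    simpa using this
  have hM : ∀ g : (V → ℝ) → ℝ, Measurable g → (∃ C, ∀ x, |g x| ≤ C * (1 + ‖x‖) ^ 2) →
      Tendsto (fun k => mn (p k) g) atTop (𝓝 (mn q g)) := fun g hg hC =>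
    (hT1.inv₀ hq.ne').mul (hT g hg hC)
  have hgood : ∀ᶠ k in atTop, GoodD (p k) := by
    filter_upwards [hT1.eventually (lt_mem_nhds hq)] with k hk
    refine ⟨hp0 k, hpm k, ?_, hk⟩
    refine hPi.mono' (by have := hpm k; fun_prop) ?_
    filter_upwards [hP k] with x hx
    rw [Real.norm_of_nonneg (mul_nonneg (by positivity) (hp0 k x))]
    gcongr
  refine ⟨hgq, hgq.AP_iff.mpr fun f hf => ?_⟩
  obtain ⟨C, hC⟩ := hf.growth
  obtain ⟨D, hD⟩ := hf.pd2_bd
  have hfm : Measurable f := hf.cd.continuous.measurable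
  have hcv : ∀ v w, Tendsto (fun k => cvm (p k) v w) atTop (𝓝 (cvm q v w)) := by
    intro v w
    refine (hM _ (by fun_prop) ⟨1, coord2_bd v w⟩).sub ((hM _ (by fun_prop) ⟨1, fun x => ?_⟩).mul
      (hM _ (by fun_prop) ⟨1, fun x => ?_⟩))
    · exact lin_bound (norm_nonneg x) (coord_bd v x)
    · exact lin_bound (norm_nonneg x) (coord_bd w x)
  refine le_of_tendsto_of_tendsto
    ((hM (fun x => f x ^ 2) (hfm.pow_const 2) ⟨C ^ 2, fun x => sq_bound (norm_nonneg x) (hC x)⟩).sub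
      ((hM f hfm ⟨C, fun x => lin_bound (norm_nonneg x) (hC x)⟩).pow 2))
    (Tendsto.const_mul K (tendsto_finsetSum _ fun v _ => tendsto_finsetSum _ fun w _ =>
      (hcv v w).mul (hM (fun x => pd f v x * pd f w x)
        ((hf.pd_cont v).mul (hf.pd_cont w)).measurable ⟨D, hD v w⟩))) ?_
  filter_upwards [hgood] with k hk
  exact hk.AP_iff.mp (hAP k hk.ps) f hf

end dm

end Pool.Agent.Lib.MP_6d896a_gt.FP
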