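import Mathlib
import Pool.Agent.Lib.MP_6d896a_gt.FP.Defs

/-!
A log-concave function on a finite dimensional space is almost everywhere the infimum of countably
many exponentials of affine functions.
-/

set_option autoImplicit false

namespace Pool.Agent.Lib.MP_6d896a_gt.FP

open MeasureTheory ProbabilityTheory Set Filter
open scoped ENNReal Topology

section supp

variable {E : Type*} [NormedAddCommGroup E] [NormedSpace ℝ E]

lemma supp_affine [FiniteDimensional ℝ E] {D : Set E} (hD : IsOpen D) {g : E → ℝ}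
    (hg : ConcaveOn ℝ D g) {x : E} (hx : x ∈ D) :
    ∃ l : E →L[ℝ] ℝ, ∀ y ∈ D, g y ≤ g x + l (y - x) := by
  set U : Set (E × ℝ) := {p | p.1 ∈ D ∧ p.2 < g p.1} with hU
  have hgc : ContinuousOn g D := hg.continuousOn hD
  have hUo : IsOpen U := by
    rw [isOpen_iff_mem_nhds]
    rintro ⟨a, t⟩ ⟨ha, ht⟩
    have h1 : ∀ᶠ y in 𝓝 a, y ∈ D := hD.mem_nhds ha
    have h2 : ContinuousAt g a := hgc.continuousAt (hD.mem_nhds ha)
    have h3 : ∀ᶠ p in 𝓝 (a, t), p.2 < g p.1 := by
      have c1 : ContinuousAt (fun p : E × ℝ => g p.1) (a, t) :=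
        ContinuousAt.comp (f := Prod.fst) (g := g) h2 continuousAt_fst
      exact (continuousAt_snd).eventually_lt c1 ht
    have h4 : ∀ᶠ p in 𝓝 (a, t), (p : E × ℝ).1 ∈ D := continuousAt_fst.eventually h1
    filter_upwards [h3, h4] with p hp hp'
    exact ⟨hp', hp⟩
  have hUc : Convex ℝ U := by
    rintro ⟨a, t⟩ ⟨ha, ht⟩ ⟨b, u⟩ ⟨hb, hu⟩ α β hα hβ hαβ
    refine ⟨hg.1 ha hb hα hβ hαβ, ?_⟩
    have h1 := hg.2 ha hb hα hβ hαβ
    simp only [Prod.smul_mk, Prod.mk_add_mk, smul_eq_mul] at h1 ⊢
    refine lt_of_lt_of_le ?_ h1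
    rcases hα.eq_or_lt with rfl | hα'
    · have : β = 1 := by linarith
      subst this
      simpa using hu
    · have : α * t < α * g a := by exact mul_lt_mul_of_pos_left ht hα'
      have : β * u ≤ β * g b := by exact mul_le_mul_of_nonneg_left hu.le hβ
      linarith
  have hxU : ((x, g x) : E × ℝ) ∉ U := fun h => lt_irrefl _ h.2
  obtain ⟨F, hF⟩ := geometric_hahn_banach_open_point hUc hUo hxU
  set τ : ℝ := F (0, 1) with hτ
  set A : E →L[ℝ] ℝ := F.comp (ContinuousLinearMap.inl ℝ E ℝ) with hA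
  have hFd : ∀ (y : E) (t : ℝ), F (y, t) = A y + τ * t := by
    intro y t
    have : ((y, t) : E × ℝ) = (y, 0) + t • (0, 1) := by simp
    rw [this, map_add, map_smul]
    simp [hA, hτ, mul_comm]
  have hτ0 : 0 < τ := by
    have := hF (x, g x - 1) ⟨hx, by simp⟩
    rw [hFd, hFd] at this
    linarith
  refine ⟨-(τ⁻¹ • A), fun y hy => ?_⟩
  have key : ∀ t < g y, A y + τ * t < A x + τ * g x := by
    intro t ht
    have := hF (y, t) ⟨hy, ht⟩
    rwa [hFd, hFd] at this
  have key2 : A y + τ * g y ≤ A x + τ * g x := by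
    by_contra hcon
    push Not at hcon
    set d := A y + τ * g y - (A x + τ * g x) with hd
    have hd0 : 0 < d := by rw [hd]; linarith
    have := key (g y - d / (2 * τ)) (by have : 0 < d / (2 * τ) := by positivity
                                        linarith)
    have e : τ * (g y - d / (2 * τ)) = τ * g y - d / 2 := by field_simp
    rw [e] at this
    linarith
  have e : (-(τ⁻¹ • A)) (y - x) = (A x - A y) / τ := by
    simp only [ContinuousLinearMap.neg_apply, ContinuousLinearMap.smul_apply, map_sub, smul_eq_mul]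
    field_simp
    ring
  rw [e, ← sub_le_iff_le_add', le_div_iff₀ hτ0]
  linarith

lemma exists_seq_aux [FiniteDimensional ℝ E] {f : E → ℝ} (hf0 : ∀ x, 0 ≤ f x)
    (hlc : ∀ x y (a b : ℝ), 0 < a → 0 < b → a + b = 1 →
      f x ^ a * f y ^ b ≤ f (a • x + b • y))
    (hne : (interior {x | 0 < f x}).Nonempty) :
    ∃ (l : ℕ → E →L[ℝ] ℝ) (c : ℕ → ℝ),
      (∀ x, x ∉ frontier {x | 0 < f x} → (∀ i, f x ≤ Real.exp (l i x + c i)) ∧
        (∀ ε > 0, ∃ i, Real.exp (l i x + c i) < f x + ε)) ∧
      (∀ w, (∀ x (t : ℝ), f (x + t • w) = f x) → ∀ i, l i w = 0) := by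
  set S : Set E := {x | 0 < f x} with hS
  set D : Set E := interior S with hD
  have hSc : Convex ℝ S := by
    intro x hx y hy a b ha hb hab
    rcases ha.eq_or_lt with rfl | ha'
    · have : b = 1 := by linarith
      subst this; simpa using hy
    rcases hb.eq_or_lt with rfl | hb'
    · have : a = 1 := by linarith
      subst this; simpa using hx
    have := hlc x y a b ha' hb' hab
    exact lt_of_lt_of_le (mul_pos (Real.rpow_pos_of_pos hx _) (Real.rpow_pos_of_pos hy _)) this
  have hDo : IsOpen D := isOpen_interior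
  have hDc : Convex ℝ D := hSc.interior
  have hDS : D ⊆ S := interior_subset
  have hg : ConcaveOn ℝ D (fun x => Real.log (f x)) := by
    refine ⟨hDc, fun x hx y hy a b ha hb hab => ?_⟩
    rcases ha.eq_or_lt with rfl | ha'
    · have : b = 1 := by linarith
      subst this; simp
    rcases hb.eq_or_lt with rfl | hb'
    · have : a = 1 := by linarith
      subst this; simp
    have hx' : 0 < f x := hDS hx
    have hy' : 0 < f y := hDS hy
    have h1 := hlc x y a b ha' hb' hab
    have h2 := Real.log_le_log (mul_pos (Real.rpow_pos_of_pos hx' _) (Real.rpow_pos_of_pos hy' _)) h1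
    rwa [Real.log_mul (Real.rpow_pos_of_pos hx' _).ne' (Real.rpow_pos_of_pos hy' _).ne',
      Real.log_rpow hx', Real.log_rpow hy'] at h2
  set A : Set ((E →L[ℝ] ℝ) × ℝ) := {p | ∀ y ∈ D, f y ≤ Real.exp (p.1 y + p.2)} with hA
  have hAD : ∀ x ∈ D, ∃ p ∈ A, Real.exp (p.1 x + p.2) = f x := by
    intro x hx
    obtain ⟨l, hl⟩ := supp_affine hDo hg hx
    refine ⟨(l, Real.log (f x) - l x), fun y hy => ?_, ?_⟩
    · have h1 := hl y hy
      have h2 : 0 < f y := hDS hy
      rw [← Real.log_le_iff_le_exp h2]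
      simp only [map_sub] at h1 ⊢
      linarith
    · have h2 : 0 < f x := hDS hx
      simp only [add_sub_cancel]
      exact Real.exp_log h2
  obtain ⟨x₀, hx₀⟩ := hne
  obtain ⟨p₀, hp₀, hp₀x⟩ := hAD x₀ hx₀
  have hAE : ∀ x, x ∉ closure S → ∀ ε > 0, ∃ p ∈ A, Real.exp (p.1 x + p.2) < ε := by
    intro x hx ε hε
    obtain ⟨F, u, hFx, hF⟩ := geometric_hahn_banach_point_closed hSc.closure isClosed_closure hx
    have hlim : Tendsto (fun n : ℕ => Real.exp (p₀.1 x + p₀.2 + n * (F x - u))) atTop (𝓝 0) := by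
      rw [Real.tendsto_exp_comp_nhds_zero]
      refine tendsto_atBot_add_const_left _ _ ?_
      exact (tendsto_natCast_atTop_atTop).atTop_mul_const_of_neg (by linarith)
    obtain ⟨n, hn⟩ := (hlim.eventually_lt_const hε).exists
    refine ⟨(p₀.1 + (n : ℝ) • F, p₀.2 - n * u), fun y hy => ?_, ?_⟩
    · refine (hp₀ y hy).trans (Real.exp_le_exp.mpr ?_)
      have := hF y (subset_closure (hDS hy))
      simp only [ContinuousLinearMap.add_apply, ContinuousLinearMap.smul_apply, smul_eq_mul]
      have h2 : 0 ≤ (n : ℝ) * (F y - u) := mul_nonneg (Nat.cast_nonneg _) (by linarith)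
      nlinarith
    · refine lt_of_le_of_lt (le_of_eq ?_) hn
      congr 1
      simp only [ContinuousLinearMap.add_apply, ContinuousLinearMap.smul_apply, smul_eq_mul]
      ring
  haveI : Nonempty A := ⟨⟨p₀, hp₀⟩⟩
  set u : ℕ → A := TopologicalSpace.denseSeq A with hu
  have hud : DenseRange u := TopologicalSpace.denseRange_denseSeq A
  have hev : ∀ x ε, (∃ p ∈ A, Real.exp (p.1 x + p.2) < ε) →
      ∃ i, Real.exp ((u i).1.1 x + (u i).1.2) < ε := by
    rintro x ε ⟨p, hp, hpx⟩
    have hopen : IsOpen {q : A | Real.exp (q.1.1 x + q.1.2) < ε} := by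
      refine isOpen_lt ?_ continuous_const
      refine Real.continuous_exp.comp ?_
      refine Continuous.add ?_ ?_
      · have h1 : Continuous (fun q : A => q.1.1) := continuous_fst.comp continuous_subtype_val
        exact h1.clm_apply continuous_const
      · exact continuous_snd.comp continuous_subtype_val
    obtain ⟨i, hi⟩ := hud.exists_mem_open hopen ⟨⟨p, hp⟩, hpx⟩
    exact ⟨i, hi⟩
  refine ⟨fun i => (u i).1.1, fun i => (u i).1.2, ?_, ?_⟩
  · intro x hx
    by_cases hxD : x ∈ D
    · refine ⟨fun i => (u i).2 x hxD, fun ε hε => hev x _ ?_⟩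
      obtain ⟨p, hp, hpx⟩ := hAD x hxD
      exact ⟨p, hp, by rw [hpx]; linarith⟩
    · have hxc : x ∉ closure S := fun h => hx ⟨h, hxD⟩
      have hfx : f x = 0 := by
        by_contra hcon
        exact hxc (subset_closure (lt_of_le_of_ne (hf0 x) (Ne.symm hcon)))
      rw [hfx]
      exact ⟨fun i => (Real.exp_pos _).le, fun ε hε => hev x _ (hAE x hxc _ (by linarith))⟩
  · intro w hw i
    by_contra hcon
    set l := (u i).1.1 with hl
    set c := (u i).1.2 with hc
    set t : ℝ := (Real.log (f x₀) - 1 - l x₀ - c) / l w with ht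
    have hmem : x₀ + t • w ∈ D := by
      rw [hD, mem_interior_iff_mem_nhds]
      have h1 : Tendsto (fun y : E => y - t • w) (𝓝 (x₀ + t • w)) (𝓝 x₀) := by
        have : Continuous fun y : E => y - t • w := by fun_prop
        have h2 := this.tendsto (x₀ + t • w)
        simpa using h2
      have h3 : ∀ᶠ y in 𝓝 x₀, y ∈ S := mem_interior_iff_mem_nhds.mp hx₀
      filter_upwards [h1.eventually h3] with y hy
      have h4 : 0 < f (y - t • w) := hy
      have h5 := hw (y - t • w) t
      rw [sub_add_cancel] at h5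
      rw [← h5] at h4
      exact h4
    have h1 := (u i).2 _ hmem
    rw [hw] at h1
    have h2 : l (x₀ + t • w) + c = Real.log (f x₀) - 1 := by
      rw [map_add, map_smul, smul_eq_mul, ht, div_mul_cancel₀ _ hcon]
      ring
    rw [← hl, ← hc, h2, Real.exp_sub, Real.exp_log (hDS hx₀)] at h1
    have h3 : 1 < Real.exp 1 := by simp
    have h4 : 0 < f x₀ := hDS hx₀
    have h5 : f x₀ / Real.exp 1 < f x₀ := div_lt_self h4 h3
    linarith

/-- countably many exponential-affine majorants whose infimum is `f` almost everywhere -/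
theorem exists_seq [FiniteDimensional ℝ E] [MeasurableSpace E] [BorelSpace E] (μ : Measure E)
    [μ.IsAddHaarMeasure] {f : E → ℝ} (hf0 : ∀ x, 0 ≤ f x)
    (hlc : ∀ x y (a b : ℝ), 0 < a → 0 < b → a + b = 1 →
      f x ^ a * f y ^ b ≤ f (a • x + b • y))
    (hpos : μ {x | 0 < f x} ≠ 0) :
    ∃ (l : ℕ → E →L[ℝ] ℝ) (c : ℕ → ℝ),
      (∀ᵐ x ∂μ, (∀ i, f x ≤ Real.exp (l i x + c i)) ∧
        (∀ ε > 0, ∃ i, Real.exp (l i x + c i) < f x + ε)) ∧
      (∀ w, (∀ x (t : ℝ), f (x + t • w) = f x) → ∀ i, l i w = 0) := by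
  have hSc : Convex ℝ {x | 0 < f x} := by
    intro x hx y hy a b ha hb hab
    rcases ha.eq_or_lt with rfl | ha'
    · have : b = 1 := by linarith
      subst this; simpa using hy
    rcases hb.eq_or_lt with rfl | hb'
    · have : a = 1 := by linarith
      subst this; simpa using hx
    have := hlc x y a b ha' hb' hab
    exact lt_of_lt_of_le (mul_pos (Real.rpow_pos_of_pos hx _) (Real.rpow_pos_of_pos hy _)) this
  have hfr : μ (frontier {x | 0 < f x}) = 0 := hSc.addHaar_frontier μ
  have hne : (interior {x | 0 < f x}).Nonempty := by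
    by_contra hcon
    rw [not_nonempty_iff_eq_empty] at hcon
    apply hpos
    refine measure_mono_null ?_ hfr
    intro x hx
    exact ⟨subset_closure hx, by rw [hcon]; exact notMem_empty _⟩
  obtain ⟨l, c, h1, h2⟩ := exists_seq_aux hf0 hlc hne
  refine ⟨l, c, ?_, h2⟩
  have : ∀ᵐ x ∂μ, x ∉ frontier {x | 0 < f x} := measure_eq_zero_iff_ae_notMem.mp hfr
  filter_upwards [this] with x hx
  exact h1 x hx

end supp

end Pool.Agent.Lib.MP_6d896a_gt.FP
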