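import Mathlib
import Pool.Agent.Lib.MP_6d896a_gt.FP.Tail
import Pool.Agent.Lib.MP_6d896a_gt.FP.ApproxLSE
import Pool.Agent.Lib.MP_6d896a_gt.FP.ApproxSupp
import Pool.Agent.Lib.MP_6d896a_gt.FP.ApproxLimit

/-!
Approximation of a product of log-concave densities by nice Gibbs potentials.
-/

set_option autoImplicit false

namespace Pool.Agent.Lib.MP_6d896a_gt.FP

open MeasureTheory ProbabilityTheory Set Filter
open scoped ENNReal Topology

section NC

variable {E : Type*} [NormedAddCommGroup E] [NormedSpace ℝ E]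

/-- twice continuously differentiable with bounded and Lipschitz second derivative -/
def NC (φ : E → ℝ) : Prop := ContDiff ℝ 2 φ ∧ BLip (fderiv ℝ (fderiv ℝ φ))

lemma NC.add {f g : E → ℝ} (hf : NC f) (hg : NC g) : NC (fun x => f x + g x) := by
  refine ⟨hf.1.add hg.1, ?_⟩
  have df : Differentiable ℝ f := hf.1.differentiable two_ne_zero
  have dg : Differentiable ℝ g := hg.1.differentiable two_ne_zero
  have df' : Differentiable ℝ (fderiv ℝ f) :=
    (hf.1.fderiv_right (m := 1) (by norm_num)).differentiable one_ne_zero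
  have dg' : Differentiable ℝ (fderiv ℝ g) :=
    (hg.1.fderiv_right (m := 1) (by norm_num)).differentiable one_ne_zero
  have e1 : fderiv ℝ (fun x => f x + g x) = fun x => fderiv ℝ f x + fderiv ℝ g x :=
    funext fun x => fderiv_fun_add (df x) (dg x)
  have e2 : fderiv ℝ (fun x => fderiv ℝ f x + fderiv ℝ g x) =
      fun x => fderiv ℝ (fderiv ℝ f) x + fderiv ℝ (fderiv ℝ g) x :=
    funext fun x => fderiv_fun_add (df' x) (dg' x)
  rw [e1, e2]
  exact hf.2.add hg.2

lemma NC.zero : NC (fun _ : E => (0 : ℝ)) := by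
  refine ⟨contDiff_const, ?_⟩
  have e1 : fderiv ℝ (fun _ : E => (0 : ℝ)) = fun _ => 0 := funext fun x => by simp
  have e2 : fderiv ℝ (fun _ : E => (0 : E →L[ℝ] ℝ)) = fun _ => 0 := funext fun x => by simp
  rw [e1, e2]
  exact BLip.const _

lemma NC.sum {ι : Type*} (s : Finset ι) {f : ι → E → ℝ} (hf : ∀ i ∈ s, NC (f i)) :
    NC (fun x => ∑ i ∈ s, f i x) := by
  classical
  induction s using Finset.induction_on with
  | empty => simpa using NC.zero (E := E)
  | insert a s ha ih =>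
    simp only [Finset.sum_insert ha]
    exact (hf a (Finset.mem_insert_self _ _)).add
      (ih fun i hi => hf i (Finset.mem_insert_of_mem hi))

lemma NC.const_mul {f : E → ℝ} (hf : NC f) (c : ℝ) : NC (fun x => c * f x) := by
  refine ⟨contDiff_const.mul hf.1, ?_⟩
  have df : Differentiable ℝ f := hf.1.differentiable two_ne_zero
  have df' : Differentiable ℝ (fderiv ℝ f) :=
    (hf.1.fderiv_right (m := 1) (by norm_num)).differentiable one_ne_zero
  have e1 : fderiv ℝ (fun x => c * f x) = fun x => c • fderiv ℝ f x :=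
    funext fun x => fderiv_const_mul (df x) c
  have e2 : fderiv ℝ (fun x => c • fderiv ℝ f x) = fun x => c • fderiv ℝ (fderiv ℝ f) x :=
    funext fun x => fderiv_fun_const_smul (df' x) c
  rw [e1, e2]
  exact (BLip.const (E := E) c).smul hf.2

lemma NC.sq (L : E →L[ℝ] ℝ) : NC (fun x => L x ^ 2) := by
  refine ⟨by fun_prop, ?_⟩
  have e1 : fderiv ℝ (fun x => L x ^ 2) =
      ⇑((((2 : ℝ) • L).smulRight L : E →L[ℝ] (E →L[ℝ] ℝ))) := by
    funext x
    have h1 : HasFDerivAt (fun x => L x ^ 2) ((2 * L x) • L) x := by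
      have := (L.hasFDerivAt (x := x)).pow 2
      refine this.congr_fderiv ?_
      ext z
      simp
    rw [h1.fderiv]
    ext z
    simp
  rw [e1]
  have e2 : fderiv ℝ ⇑((((2 : ℝ) • L).smulRight L : E →L[ℝ] (E →L[ℝ] ℝ))) =
      fun _ => (((2 : ℝ) • L).smulRight L : E →L[ℝ] (E →L[ℝ] ℝ)) :=
    funext fun x => ContinuousLinearMap.fderiv _
  rw [e2]
  exact BLip.const _

lemma NC.nice {φ : E → ℝ} (h : NC φ) (hsc : ∃ κ : ℝ, 0 < κ ∧ ∀ x y,
    φ ((1 / 2 : ℝ) • (x + y)) + κ * ‖x - y‖ ^ 2 ≤ (φ x + φ y) / 2) : Nice φ := by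
  obtain ⟨h1, C, hC, h2, h3⟩ := h
  exact ⟨h1, ⟨C, h2⟩, ⟨C, h3⟩, hsc⟩

end NC

section softmin

/-- soft minimum of the numbers `t 0, ..., t N` with inverse temperature `(N+1)^2` -/
noncomputable def softm (t : ℕ → ℝ) (N : ℕ) : ℝ :=
  (((N : ℝ) + 1) ^ 2)⁻¹ *
    Real.log (∑ i ∈ Finset.range (N + 1), Real.exp (-(((N : ℝ) + 1) ^ 2 * t i)))

lemma softm_ge (t : ℕ → ℝ) {N i : ℕ} (hi : i ≤ N) : -t i ≤ softm t N := by
  have hb : (0 : ℝ) < ((N : ℝ) + 1) ^ 2 := by positivity
  have h1 : Real.exp (-(((N : ℝ) + 1) ^ 2 * t i)) ≤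
      ∑ i ∈ Finset.range (N + 1), Real.exp (-(((N : ℝ) + 1) ^ 2 * t i)) :=
    Finset.single_le_sum (f := fun i => Real.exp (-(((N : ℝ) + 1) ^ 2 * t i)))
      (fun _ _ => (Real.exp_pos _).le) (Finset.mem_range.mpr (by omega))
  have h2 := Real.log_le_log (Real.exp_pos _) h1
  rw [Real.log_exp] at h2
  rw [softm, inv_mul_eq_div, le_div_iff₀ hb]
  linarith

lemma exp_neg_softm_le (t : ℕ → ℝ) {N i : ℕ} (hi : i ≤ N) :
    Real.exp (-softm t N) ≤ Real.exp (t i) :=
  Real.exp_le_exp.mpr (by linarith [softm_ge t hi])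

lemma exp_neg_softm_ge (t : ℕ → ℝ) {m : ℝ} (hm : 0 ≤ m) (ht : ∀ i, m ≤ Real.exp (t i)) (N : ℕ) :
    m * Real.exp (-(1 / ((N : ℝ) + 1))) ≤ Real.exp (-softm t N) := by
  rcases hm.eq_or_lt with rfl | hm
  · rw [zero_mul]; exact (Real.exp_pos _).le
  have hN : (0 : ℝ) < (N : ℝ) + 1 := by positivity
  have hb : (0 : ℝ) < ((N : ℝ) + 1) ^ 2 := by positivity
  have hlt : ∀ i, Real.log m ≤ t i := fun i => by
    rw [Real.log_le_iff_le_exp hm]; exact ht i
  have h1 : ∑ i ∈ Finset.range (N + 1), Real.exp (-(((N : ℝ) + 1) ^ 2 * t i)) ≤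
      ((N : ℝ) + 1) * Real.exp (-(((N : ℝ) + 1) ^ 2 * Real.log m)) := by
    have := Finset.sum_le_card_nsmul (Finset.range (N + 1))
      (fun i => Real.exp (-(((N : ℝ) + 1) ^ 2 * t i)))
      (Real.exp (-(((N : ℝ) + 1) ^ 2 * Real.log m))) (fun i _ => by
        apply Real.exp_le_exp.mpr
        have := mul_le_mul_of_nonneg_left (hlt i) hb.le
        linarith)
    rw [Finset.card_range, nsmul_eq_mul] at this
    push_cast at this
    exact this
  have hpos : 0 < ∑ i ∈ Finset.range (N + 1), Real.exp (-(((N : ℝ) + 1) ^ 2 * t i)) :=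
    Finset.sum_pos (fun _ _ => Real.exp_pos _) (by simp)
  have h2 := Real.log_le_log hpos h1
  rw [Real.log_mul hN.ne' (Real.exp_pos _).ne', Real.log_exp] at h2
  have h3 : Real.log ((N : ℝ) + 1) ≤ (N : ℝ) + 1 := Real.log_le_self hN.le
  have h4 : softm t N ≤ 1 / ((N : ℝ) + 1) - Real.log m := by
    rw [softm, inv_mul_eq_div, div_le_iff₀ hb]
    have : (1 / ((N : ℝ) + 1) - Real.log m) * ((N : ℝ) + 1) ^ 2 =
        ((N : ℝ) + 1) - ((N : ℝ) + 1) ^ 2 * Real.log m := by
      field_simp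
    rw [this]
    linarith
  calc m * Real.exp (-(1 / ((N : ℝ) + 1)))
      = Real.exp (Real.log m + -(1 / ((N : ℝ) + 1))) := by rw [Real.exp_add, Real.exp_log hm]
    _ ≤ Real.exp (-softm t N) := Real.exp_le_exp.mpr (by linarith)

lemma softm_tendsto (t : ℕ → ℝ) {m : ℝ} (hm : 0 ≤ m) (ht : ∀ i, m ≤ Real.exp (t i))
    (ht' : ∀ ε > 0, ∃ i, Real.exp (t i) < m + ε) :
    Tendsto (fun N => Real.exp (-softm t N)) atTop (𝓝 m) := by
  have hl : Tendsto (fun N : ℕ => m * Real.exp (-(1 / ((N : ℝ) + 1)))) atTop (𝓝 m) := by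
    have h1 : Tendsto (fun N : ℕ => -(1 / ((N : ℝ) + 1))) atTop (𝓝 0) := by
      simpa using (tendsto_one_div_add_atTop_nhds_zero_nat (𝕜 := ℝ)).neg
    have h2 := (Real.continuous_exp.tendsto 0).comp h1
    rw [Real.exp_zero] at h2
    simpa using h2.const_mul m
  rw [tendsto_order]
  constructor
  · intro a ha
    filter_upwards [hl.eventually (lt_mem_nhds ha)] with N hN
    exact hN.trans_le (exp_neg_softm_ge t hm ht N)
  · intro a ha
    obtain ⟨i, hi⟩ := ht' (a - m) (by linarith)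
    filter_upwards [eventually_ge_atTop i] with N hN
    refine (exp_neg_softm_le t hN).trans_lt ?_
    linarith

end softmin

end Pool.Agent.Lib.MP_6d896a_gt.FP
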