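import Mathlib
import Pool.Agent.Lib.MP_6d896a_gt.FP.ApproxNC

/-!
Approximation of a product of log-concave densities by nice Gibbs potentials.
-/

set_option autoImplicit false

namespace Pool.Agent.Lib.MP_6d896a_gt.FP

open MeasureTheory ProbabilityTheory Set Filter
open scoped ENNReal Topology

section approx

set_option linter.unusedSectionVars false

variable {V : Type} [Fintype V] [DecidableEq V]

lemma norm_sq_le_sum (z : V → ℝ) : ‖z‖ ^ 2 ≤ ∑ w, z w ^ 2 := by
  have h0 : 0 ≤ ∑ w, z w ^ 2 := Finset.sum_nonneg fun _ _ => sq_nonneg _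
  have h1 : ‖z‖ ≤ Real.sqrt (∑ w, z w ^ 2) := by
    rw [pi_norm_le_iff_of_nonneg (Real.sqrt_nonneg _)]
    intro w
    rw [Real.norm_eq_abs]
    apply Real.abs_le_sqrt
    exact Finset.single_le_sum (f := fun w => z w ^ 2) (fun _ _ => sq_nonneg _)
      (Finset.mem_univ w)
  calc ‖z‖ ^ 2 ≤ Real.sqrt (∑ w, z w ^ 2) ^ 2 := by gcongr
    _ = _ := Real.sq_sqrt h0

/-- approximating potentials -/
noncomputable def apot (l : V → ℕ → (V → ℝ) →L[ℝ] ℝ) (c : V → ℕ → ℝ) (anc : V → Finset V)
    (ε : ℝ) (N : ℕ) (v : V) (x : V → ℝ) : ℝ :=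
  softm (fun i => l v i x + c v i) N + ε * ∑ w ∈ anc v, x w ^ 2

lemma softm_eq_seZ (l : ℕ → (V → ℝ) →L[ℝ] ℝ) (c : ℕ → ℝ) (N : ℕ) (x : V → ℝ) :
    softm (fun i => l i x + c i) N =
      (((N : ℝ) + 1) ^ 2)⁻¹ * Real.log (seZ (Finset.range (N + 1))
        (fun i => (-(((N : ℝ) + 1) ^ 2)) • l i) (fun i => -(((N : ℝ) + 1) ^ 2) * c i) x) := by
  rw [softm, seZ]
  congr 3
  funext i
  congr 1
  simp
  ring

lemma apot_nice (l : V → ℕ → (V → ℝ) →L[ℝ] ℝ) (c : V → ℕ → ℝ) {anc : V → Finset V}
    (hcov : ∀ w, ∃ v, w ∈ anc v) {ε : ℝ} (hε : 0 < ε) (N : ℕ) :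
    Nice (fun x => ∑ v, apot l c anc ε N v x) := by
  have hne : (Finset.range (N + 1)).Nonempty := by simp
  have hb : (0 : ℝ) < (((N : ℝ) + 1) ^ 2)⁻¹ := by positivity
  refine NC.nice (NC.sum _ fun v _ => ?_) ?_
  · unfold apot
    refine NC.add ?_ (NC.const_mul (NC.sum _ fun w _ => ?_) _)
    · simp only [softm_eq_seZ]
      exact NC.const_mul ⟨contDiff_log_seZ hne 2, BLip_fderiv_fderiv_log_seZ hne⟩ _
    · exact NC.sq (ContinuousLinearMap.proj (R := ℝ) (φ := fun _ : V => ℝ) w)
  · refine ⟨ε / 4, by positivity, fun x y => ?_⟩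
    have h1 : ∀ v, apot l c anc ε N v ((1 / 2 : ℝ) • (x + y)) +
        ε / 4 * ∑ w ∈ anc v, (x w - y w) ^ 2 ≤
        (apot l c anc ε N v x + apot l c anc ε N v y) / 2 := by
      intro v
      unfold apot
      have a1 := mul_le_mul_of_nonneg_left (midpoint_log_seZ
        (A := fun i => (-(((N : ℝ) + 1) ^ 2)) • l v i)
        (b := fun i => -(((N : ℝ) + 1) ^ 2) * c v i) hne x y) hb.le
      have a2 : ∑ w ∈ anc v, ((1 / 2 : ℝ) • (x + y)) w ^ 2 + 1 / 4 * ∑ w ∈ anc v, (x w - y w) ^ 2 =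
          (∑ w ∈ anc v, x w ^ 2 + ∑ w ∈ anc v, y w ^ 2) / 2 := by
        rw [← Finset.sum_add_distrib, Finset.mul_sum, ← Finset.sum_add_distrib, Finset.sum_div]
        refine Finset.sum_congr rfl fun w _ => ?_
        simp only [Pi.smul_apply, Pi.add_apply, smul_eq_mul]
        ring
      have a3 : ε * ∑ w ∈ anc v, ((1 / 2 : ℝ) • (x + y)) w ^ 2 +
          ε / 4 * ∑ w ∈ anc v, (x w - y w) ^ 2 =
          (ε * ∑ w ∈ anc v, x w ^ 2 + ε * ∑ w ∈ anc v, y w ^ 2) / 2 := by
        linear_combination ε * a2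
      simp only [softm_eq_seZ]
      linarith
    have h2 := Finset.sum_le_sum fun v (_ : v ∈ Finset.univ) => h1 v
    rw [Finset.sum_add_distrib, ← Finset.mul_sum, ← Finset.sum_div, Finset.sum_add_distrib] at h2
    have h3 : ‖x - y‖ ^ 2 ≤ ∑ v, ∑ w ∈ anc v, (x w - y w) ^ 2 := by
      refine (norm_sq_le_sum (x - y)).trans ?_
      simp only [Pi.sub_apply]
      have : ∀ v, ∑ w ∈ anc v, (x w - y w) ^ 2 =
          ∑ w, if w ∈ anc v then (x w - y w) ^ 2 else 0 := by
        intro v
        rw [← Finset.sum_filter]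
        refine Finset.sum_congr ?_ fun _ _ => rfl
        ext w; simp
      simp only [this]
      rw [Finset.sum_comm]
      refine Finset.sum_le_sum fun w _ => ?_
      obtain ⟨v, hv⟩ := hcov w
      have h4 := Finset.single_le_sum (f := fun v => if w ∈ anc v then (x w - y w) ^ 2 else 0)
        (s := Finset.univ) (fun v _ => by split_ifs <;> positivity) (Finset.mem_univ v)
      simp only [hv, if_true] at h4
      exact h4
    have h5 := mul_le_mul_of_nonneg_left h3 (by positivity : 0 ≤ ε / 4)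
    linarith

lemma apot_dep (l : V → ℕ → (V → ℝ) →L[ℝ] ℝ) (c : V → ℕ → ℝ) {anc : V → Finset V}
    (hl : ∀ v i w, w ∉ anc v → l v i (Pi.single w 1) = 0) (ε : ℝ) (N : ℕ) (v : V) :
    DepOn (apot l c anc ε N v) (anc v) := by
  intro x y hxy
  unfold apot
  have h1 : ∀ i, l v i x = l v i y := by
    intro i
    rw [clm_eq_sum (l v i) x, clm_eq_sum (l v i) y]
    refine Finset.sum_congr rfl fun w _ => ?_
    by_cases hw : w ∈ anc v
    · rw [hxy w hw]
    · rw [hl v i w hw]; simp
  have h2 : ∑ w ∈ anc v, x w ^ 2 = ∑ w ∈ anc v, y w ^ 2 :=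
    Finset.sum_congr rfl fun w hw => by rw [hxy w hw]
  rw [h2]
  congr 2
  funext i
  rw [h1]

/-- Gaussian domination -/
lemma integrable_dom (l : (V → ℝ) →L[ℝ] ℝ) (c : ℝ) {ε : ℝ} (hε : 0 < ε) :
    Integrable (fun x : V → ℝ => (1 + ‖x‖) ^ 2 * (Real.exp (l x + c) *
      Real.exp (-(ε * ∑ w, x w ^ 2)))) := by
  have h1 : ∀ (B : ℝ), Integrable (fun t : ℝ => Real.exp (B * |t| - ε * t ^ 2)) := by
    intro B
    have h2 : Integrable (fun t : ℝ => Real.exp (B ^ 2 / (2 * ε)) * Real.exp (-(ε / 2) * t ^ 2)) :=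
      (integrable_exp_neg_mul_sq (by positivity)).const_mul _
    refine h2.mono' (by fun_prop) (ae_of_all _ fun t => ?_)
    rw [Real.norm_of_nonneg (Real.exp_pos _).le, ← Real.exp_add]
    apply Real.exp_le_exp.mpr
    have h3 : 0 ≤ (B - ε * |t|) ^ 2 / (2 * ε) := by positivity
    have h4 : (B - ε * |t|) ^ 2 / (2 * ε) = B ^ 2 / (2 * ε) - B * |t| + ε / 2 * t ^ 2 := by
      field_simp
      rw [sub_sq, mul_pow, sq_abs]
      ring
    linarith
  have h2 : Integrable (fun x : V → ℝ => ∏ w, Real.exp ((|l (Pi.single w 1)| + 2) * |x w| -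
      ε * x w ^ 2)) :=
    Integrable.fintype_prod (f := fun w t => Real.exp ((|l (Pi.single w 1)| + 2) * |t| -
      ε * t ^ 2)) fun w => h1 _
  refine (h2.const_mul (Real.exp c)).mono' (by fun_prop) (ae_of_all _ fun x => ?_)
  rw [Real.norm_of_nonneg (by positivity), ← Real.exp_sum]
  have h3 : (1 + ‖x‖) ^ 2 ≤ Real.exp (∑ w, 2 * |x w|) := by
    have a1 : 1 + ‖x‖ ≤ Real.exp (∑ w, |x w|) := by
      have b1 : ‖x‖ ≤ ∑ w, |x w| := by
        rw [pi_norm_le_iff_of_nonneg (Finset.sum_nonneg fun _ _ => abs_nonneg _)]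
        intro w
        rw [Real.norm_eq_abs]
        exact Finset.single_le_sum (f := fun w => |x w|) (fun _ _ => abs_nonneg _)
          (Finset.mem_univ w)
      have b2 := Real.add_one_le_exp (∑ w, |x w|)
      linarith
    have a2 : Real.exp (∑ w, 2 * |x w|) = Real.exp (∑ w, |x w|) ^ 2 := by
      rw [← Real.exp_nat_mul, Finset.mul_sum]
      push_cast
      rfl
    rw [a2]
    gcongr
  have h4 : l x ≤ ∑ w, |l (Pi.single w 1)| * |x w| := by
    rw [clm_eq_sum l x]
    refine Finset.sum_le_sum fun w _ => ?_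
    rw [← abs_mul]
    exact le_abs_self _
  calc (1 + ‖x‖) ^ 2 * (Real.exp (l x + c) * Real.exp (-(ε * ∑ w, x w ^ 2)))
      ≤ Real.exp (∑ w, 2 * |x w|) * (Real.exp ((∑ w, |l (Pi.single w 1)| * |x w|) + c) *
          Real.exp (-(ε * ∑ w, x w ^ 2))) := by
        gcongr
    _ = Real.exp c * Real.exp (∑ w, ((|l (Pi.single w 1)| + 2) * |x w| - ε * x w ^ 2)) := by
        rw [← Real.exp_add, ← Real.exp_add, ← Real.exp_add]
        congr 1
        have e1 : ∑ w, (|l (Pi.single w 1)| + 2) * |x w| =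
            ∑ w, |l (Pi.single w 1)| * |x w| + ∑ w, 2 * |x w| := by
          rw [← Finset.sum_add_distrib]
          exact Finset.sum_congr rfl fun w _ => by ring
        have e2 : ∑ w, ε * x w ^ 2 = ε * ∑ w, x w ^ 2 := by rw [Finset.mul_sum]
        rw [Finset.sum_sub_distrib, e1, e2]
        ring

/-- a probability density cannot be invariant under a translation -/
lemma no_invariant {g : (V → ℝ) → ℝ≥0∞} (hg : Measurable g)
    (hp : ∫⁻ x, g x = 1) (w : V)
    (hinv : ∀ (x : V → ℝ) (t : ℝ), g (x + t • Pi.single w 1) = g x) : False := by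
  set B : ℤ → Set (V → ℝ) := fun n => {x | ⌊x w⌋ = n} with hB
  have hBm : ∀ n, MeasurableSet (B n) := fun n =>
    (Int.measurable_floor.comp (measurable_pi_apply w)) (measurableSet_singleton n)
  have hd : Pairwise (Function.onFun Disjoint B) := by
    intro m n hmn
    rw [Function.onFun, Set.disjoint_left]
    intro x hx hx'
    exact hmn (hx.symm.trans hx')
  have hU : (⋃ n, B n) = univ := by
    ext x; simp [hB]
  have h1 : ∀ n, ∫⁻ x in B n, g x = ∫⁻ x in B 0, g x := by
    intro n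
    rw [← lintegral_indicator (hBm n), ← lintegral_indicator (hBm 0),
      ← lintegral_add_right_eq_self _ ((n : ℝ) • (Pi.single w 1 : V → ℝ))]
    refine lintegral_congr fun x => ?_
    simp only [indicator_apply]
    have e : x + (n : ℝ) • (Pi.single w 1 : V → ℝ) ∈ B n ↔ x ∈ B 0 := by
      simp only [hB, mem_ofPred_eq, Pi.add_apply, Pi.smul_apply, Pi.single_eq_same, smul_eq_mul,
        mul_one, Int.floor_add_intCast]
      constructor <;> intro h <;> linarith
    simp only [e, hinv]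
  have h2 : ∫⁻ x, g x = ∑' n, ∫⁻ x in B n, g x := by
    rw [← lintegral_iUnion hBm hd, hU, Measure.restrict_univ]
  rw [hp] at h2
  simp only [h1] at h2
  by_cases h0 : ∫⁻ x in B 0, g x = 0
  · rw [h0] at h2
    simp at h2
  · rw [ENNReal.tsum_const_eq_top_of_ne_zero h0] at h2
    exact ENNReal.one_ne_top h2

/-- a coordinate has a finite second moment under a log-concave probability measure -/
lemma second_moment {μ : Measure (V → ℝ)} [IsProbabilityMeasure μ] (h : PLm μ) (w : V) :
    ∫⁻ x, ENNReal.ofReal (x w ^ 2) ∂μ < ∞ := by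
  obtain ⟨r, hr, hK⟩ : ∃ r : ℝ, 0 < r ∧ 3 / 4 ≤ μ.real {x : V → ℝ | |x w| ≤ r} := by
    have hmono : Monotone (fun n : ℕ => {x : V → ℝ | |x w| ≤ (n : ℝ)}) := by
      intro m n hmn x hx
      have hx' : |x w| ≤ (m : ℝ) := hx
      have hmn' : (m : ℝ) ≤ n := by exact_mod_cast hmn
      exact hx'.trans hmn'
    have hU : (⋃ n : ℕ, {x : V → ℝ | |x w| ≤ (n : ℝ)}) = univ := by
      ext x
      simp only [mem_iUnion, mem_ofPred_eq, mem_univ, iff_true]
      exact exists_nat_ge _
    have h1 := tendsto_measure_iUnion_atTop (μ := μ) hmono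
    rw [hU, measure_univ] at h1
    have h2 : Tendsto (fun n : ℕ => μ.real {x : V → ℝ | |x w| ≤ (n : ℝ)}) atTop (𝓝 1) := by
      have := (ENNReal.tendsto_toReal ENNReal.one_ne_top).comp h1
      rw [ENNReal.toReal_one] at this
      exact this
    have h3 := (h2.eventually (lt_mem_nhds (by norm_num : (3 / 4 : ℝ) < 1))).and
      (eventually_gt_atTop 0)
    obtain ⟨n, hn, hn0⟩ := h3.exists
    exact ⟨n, by exact_mod_cast hn0, hn.le⟩
  have h1 := h.exp_moment (ξ := fun x => x w) (measurable_pi_apply w)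
    (fun x y l => by simp) hr hK
  have h2 : ∫⁻ x, ENNReal.ofReal (x w ^ 2) ∂μ ≤
      ∫⁻ x, ENNReal.ofReal (2 * (4 * r) ^ 2) * ENNReal.ofReal (Real.exp (|x w| / (4 * r))) ∂μ := by
    refine lintegral_mono fun x => ?_
    rw [← ENNReal.ofReal_mul (by positivity)]
    apply ENNReal.ofReal_le_ofReal
    have h3 := Real.quadratic_le_exp_of_nonneg (x := |x w| / (4 * r)) (by positivity)
    have h4 : x w ^ 2 = (4 * r) ^ 2 * (|x w| / (4 * r)) ^ 2 := by
      rw [div_pow, mul_div_cancel₀ _ (by positivity), sq_abs]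
    rw [h4]
    have h5 : 0 ≤ |x w| / (4 * r) := by positivity
    nlinarith [mul_le_mul_of_nonneg_left h3 (by positivity : (0 : ℝ) ≤ (4 * r) ^ 2),
      mul_nonneg (by positivity : (0 : ℝ) ≤ (4 * r) ^ 2) h5]
  refine h2.trans_lt ?_
  rw [lintegral_const_mul' _ _ ENNReal.ofReal_ne_top]
  exact ENNReal.mul_lt_top ENNReal.ofReal_lt_top (h1.trans_lt (by norm_num))

lemma cover_sum {anc : V → Finset V} (hcov : ∀ w, ∃ v, w ∈ anc v) {a : V → ℝ}
    (ha : ∀ w, 0 ≤ a w) : ∑ w, a w ≤ ∑ v, ∑ w ∈ anc v, a w := by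
  have : ∀ v, ∑ w ∈ anc v, a w = ∑ w, if w ∈ anc v then a w else 0 := by
    intro v
    rw [← Finset.sum_filter]
    refine Finset.sum_congr ?_ fun _ _ => rfl
    ext w; simp
  simp only [this]
  rw [Finset.sum_comm]
  refine Finset.sum_le_sum fun w _ => ?_
  obtain ⟨v, hv⟩ := hcov w
  have h4 := Finset.single_le_sum (f := fun v => if w ∈ anc v then a w else 0)
    (s := Finset.univ) (fun v _ => by
      split_ifs
      · exact ha w
      · exact le_rfl) (Finset.mem_univ v)
  simp only [hv, if_true] at h4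
  exact h4

end approx

/-- R4: the affine invariant Poincare inequality for products of log-concave functions along a
family of coordinate sets follows from the one for nice Gibbs potentials -/
theorem approx {V : Type} [Fintype V] [DecidableEq V] {anc : V → Finset V} {K : ℝ} (hK : 0 ≤ K)
    (hnice : ∀ φ : V → (V → ℝ) → ℝ, (∀ v, DepOn (φ v) (anc v)) → Nice (fun x => ∑ v, φ v x) →
      AP (gibbs (fun x => ∑ v, φ v x)) K)
    {f : V → (V → ℝ) → ℝ} (hf0 : ∀ v x, 0 ≤ f v x) (hfm : ∀ v, Measurable (f v))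
    (hlc : ∀ v x y (a b : ℝ), 0 < a → 0 < b → a + b = 1 →
      f v x ^ a * f v y ^ b ≤ f v (a • x + b • y))
    (hdep : ∀ v, DepOn (f v) (anc v)) {μ : Measure (V → ℝ)} [IsProbabilityMeasure μ]
    (hμ : μ = (volume : Measure (V → ℝ)).withDensity (fun x => ENNReal.ofReal (∏ v, f v x))) :
    AP μ K := by
  clear hK
  set F : (V → ℝ) → ℝ := fun x => ∏ v, f v x with hF
  have hF0 : ∀ x, 0 ≤ F x := fun x => Finset.prod_nonneg fun v _ => hf0 v x
  have hFm : Measurable F := Finset.measurable_fun_prod _ fun v _ => hfm v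
  have hμ1 : ∫⁻ x, ENNReal.ofReal (F x) = 1 := by
    have := measure_univ (μ := μ)
    rw [hμ, withDensity_apply _ MeasurableSet.univ, Measure.restrict_univ] at this
    exact this
  have hFi : Integrable F := by
    refine ⟨hFm.aestronglyMeasurable, ?_⟩
    rw [hasFiniteIntegral_iff_ofReal (ae_of_all _ hF0), hμ1]
    exact ENNReal.one_lt_top
  have hFint : ∫ x, F x = 1 := by
    rw [integral_eq_lintegral_of_nonneg_ae (ae_of_all _ hF0) hFm.aestronglyMeasurable, hμ1]
    rfl
  have hcov : ∀ w, ∃ v, w ∈ anc v := by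
    intro w
    by_contra hcon
    push Not at hcon
    refine no_invariant (g := fun x => ENNReal.ofReal (F x)) hFm.ennreal_ofReal hμ1 w
      fun x t => ?_
    have : F (x + t • Pi.single w 1) = F x := by
      refine Finset.prod_congr rfl fun v _ => hdep v _ _ fun u hu => ?_
      have : u ≠ w := fun h => hcon v (h ▸ hu)
      simp [this]
    simp only [this]
  have hsupp : ∀ v, (volume : Measure (V → ℝ)) {x | 0 < f v x} ≠ 0 := by
    intro v h0
    have h1 : ∀ᵐ x, x ∉ {x | 0 < f v x} := measure_eq_zero_iff_ae_notMem.mp h0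
    have h2 : ∀ᵐ x, ENNReal.ofReal (F x) = 0 := by
      filter_upwards [h1] with x hx
      have : f v x = 0 := le_antisymm (not_lt.mp hx) (hf0 v x)
      have h3 : F x = 0 := Finset.prod_eq_zero (Finset.mem_univ v) this
      rw [h3, ENNReal.ofReal_zero]
    rw [lintegral_congr_ae h2] at hμ1
    simp at hμ1
  choose l c h1 h2 using fun v => exists_seq (volume : Measure (V → ℝ)) (hf0 v) (hlc v) (hsupp v)
  have hl : ∀ v i w, w ∉ anc v → l v i (Pi.single w 1) = 0 := by
    intro v i w hw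
    refine h2 v _ (fun x t => hdep v _ _ fun u hu => ?_) i
    have : u ≠ w := fun h => hw (h ▸ hu)
    simp [this]
  have hconv : ∀ᵐ x, ∀ v, Tendsto (fun N => Real.exp (-softm (fun i => l v i x + c v i) N))
      atTop (𝓝 (f v x)) := by
    rw [ae_all_iff]
    intro v
    filter_upwards [h1 v] with x hx
    exact softm_tendsto _ (hf0 v x) hx.1 hx.2
  set Q : (V → ℝ) → ℝ := fun x => ∑ v, ∑ w ∈ anc v, x w ^ 2 with hQ
  have hQ0 : ∀ x, 0 ≤ Q x := fun x =>
    Finset.sum_nonneg fun _ _ => Finset.sum_nonneg fun _ _ => sq_nonneg _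
  have hQc : Continuous Q := by fun_prop
  have hstep1 : ∀ ε : ℝ, 0 < ε → GoodD (fun x => F x * Real.exp (-(ε * Q x))) ∧
      AP (dm (fun x => F x * Real.exp (-(ε * Q x)))) K := by
    intro ε hε
    have hpe : ∀ N x, Real.exp (-∑ v, apot l c anc ε N v x) =
        (∏ v, Real.exp (-softm (fun i => l v i x + c v i) N)) * Real.exp (-(ε * Q x)) := by
      intro N x
      rw [← Real.exp_sum, ← Real.exp_add]
      congr 1
      simp only [apot, Finset.sum_add_distrib, Finset.sum_neg_distrib, hQ, Finset.mul_sum]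
      ring
    refine AP_limit (p := fun N x => Real.exp (-∑ v, apot l c anc ε N v x))
      (P := fun x => Real.exp ((∑ v, l v 0) x + ∑ v, c v 0) * Real.exp (-(ε * ∑ w, x w ^ 2)))
      (fun N x => (Real.exp_pos _).le) (fun N => ?_) (fun x => mul_nonneg (hF0 x)
        (Real.exp_pos _).le) (by fun_prop) (fun N => ae_of_all _ fun x => ?_)
      (integrable_dom _ _ hε) ?_ ?_ (fun N _ => ?_)
    · have := (apot_nice l c hcov hε N).cd.continuous
      exact (Real.continuous_exp.comp this.neg).measurable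
    · rw [← Real.exp_add]
      apply Real.exp_le_exp.mpr
      have a1 : ∀ v, -apot l c anc ε N v x ≤ (l v 0 x + c v 0) - ε * ∑ w ∈ anc v, x w ^ 2 := by
        intro v
        have := softm_ge (fun i => l v i x + c v i) (Nat.zero_le N)
        unfold apot
        linarith
      have a2 := Finset.sum_le_sum fun v (_ : v ∈ Finset.univ) => a1 v
      rw [Finset.sum_neg_distrib, Finset.sum_sub_distrib, Finset.sum_add_distrib,
        ← Finset.mul_sum] at a2
      have a3 := mul_le_mul_of_nonneg_left (cover_sum hcov (a := fun w => x w ^ 2)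
        fun w => sq_nonneg _) hε.le
      have a4 : (∑ v, l v 0) x = ∑ v, l v 0 x := by
        simp
      rw [a4]
      linarith
    · filter_upwards [hconv] with x hx
      simp only [hpe]
      exact (tendsto_finsetProd _ fun v _ => hx v).mul_const _
    · have hint : Integrable (fun x => F x * Real.exp (-(ε * Q x))) := by
        refine hFi.mono' (by fun_prop) (ae_of_all _ fun x => ?_)
        rw [Real.norm_of_nonneg (mul_nonneg (hF0 x) (Real.exp_pos _).le)]
        refine mul_le_of_le_one_right (hF0 x) ?_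
        rw [Real.exp_le_one_iff]
        have := mul_nonneg hε.le (hQ0 x)
        linarith
      rw [integral_pos_iff_support_of_nonneg (fun x => mul_nonneg (hF0 x) (Real.exp_pos _).le) hint]
      have e : Function.support (fun x => F x * Real.exp (-(ε * Q x))) = Function.support F := by
        ext x
        simp [Real.exp_ne_zero]
      rw [e, ← integral_pos_iff_support_of_nonneg hF0 hFi, hFint]
      exact one_pos
    · exact hnice _ (fun v => apot_dep l c hl ε N v) (apot_nice l c hcov hε N)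
  -- second moments
  have hplm : PLm μ := by
    rw [hμ]
    refine (plm_haar _).withDensity hFm.ennreal_ofReal fun x y t ht0 ht1 => ?_
    rw [ENNReal.ofReal_rpow_of_nonneg (hF0 x) (by linarith),
      ENNReal.ofReal_rpow_of_nonneg (hF0 y) ht0.le,
      ← ENNReal.ofReal_mul (Real.rpow_nonneg (hF0 x) _)]
    apply ENNReal.ofReal_le_ofReal
    simp only [hF]
    rw [← Real.finsetProd_rpow _ _ (fun v _ => hf0 v x), ← Real.finsetProd_rpow _ _
      (fun v _ => hf0 v y), ← Finset.prod_mul_distrib]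
    refine Finset.prod_le_prod (fun v _ => mul_nonneg (Real.rpow_nonneg (hf0 v x) _)
      (Real.rpow_nonneg (hf0 v y) _)) fun v _ => ?_
    exact hlc v x y _ _ (by linarith) ht0 (by ring)
  have hPi : Integrable (fun x => (1 + ‖x‖) ^ 2 * F x) := by
    refine ⟨by fun_prop, ?_⟩
    rw [hasFiniteIntegral_iff_ofReal (ae_of_all _ fun x => mul_nonneg (by positivity) (hF0 x))]
    have e1 : ∫⁻ x, ENNReal.ofReal ((1 + ‖x‖) ^ 2 * F x) =
        ∫⁻ x, ENNReal.ofReal ((1 + ‖x‖) ^ 2) ∂μ := by
      rw [hμ, lintegral_withDensity_eq_lintegral_mul _ hFm.ennreal_ofReal (by fun_prop)]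
      refine lintegral_congr fun x => ?_
      simp only [Pi.mul_apply]
      rw [← ENNReal.ofReal_mul (hF0 x), mul_comm]
    rw [e1]
    have e2 : ∫⁻ x, ENNReal.ofReal ((1 + ‖x‖) ^ 2) ∂μ ≤
        ∫⁻ x, (ENNReal.ofReal 2 + ∑ w, ENNReal.ofReal 2 * ENNReal.ofReal (x w ^ 2)) ∂μ := by
      refine lintegral_mono fun x => ?_
      have : ∀ w, ENNReal.ofReal 2 * ENNReal.ofReal (x w ^ 2) = ENNReal.ofReal (2 * x w ^ 2) :=
        fun w => (ENNReal.ofReal_mul (by norm_num)).symm
      simp only [this]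
      rw [← ENNReal.ofReal_sum_of_nonneg (fun w _ => by positivity),
        ← ENNReal.ofReal_add (by norm_num) (Finset.sum_nonneg fun w _ => by positivity)]
      apply ENNReal.ofReal_le_ofReal
      have := norm_sq_le_sum x
      rw [← Finset.mul_sum]
      nlinarith [sq_nonneg (1 - ‖x‖)]
    refine e2.trans_lt ?_
    rw [lintegral_add_left measurable_const, lintegral_finsetSum _ (fun w _ => by fun_prop)]
    refine ENNReal.add_lt_top.mpr ⟨by simp, ?_⟩
    refine ENNReal.sum_lt_top.mpr fun w _ => ?_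
    rw [lintegral_const_mul' _ _ ENNReal.ofReal_ne_top]
    exact ENNReal.mul_lt_top ENNReal.ofReal_lt_top (second_moment hplm w)
  have hfin : GoodD F ∧ AP (dm F) K := by
    refine AP_limit (p := fun k x => F x * Real.exp (-((1 / ((k : ℝ) + 1)) * Q x))) (P := F)
      (fun k x => mul_nonneg (hF0 x) (Real.exp_pos _).le) (fun k => by fun_prop) hF0 hFm
      (fun k => ae_of_all _ fun x => ?_) hPi (ae_of_all _ fun x => ?_) (by rw [hFint]; exact one_pos)
      (fun k _ => (hstep1 _ (by positivity)).2)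
    · refine mul_le_of_le_one_right (hF0 x) ?_
      rw [Real.exp_le_one_iff]
      have := mul_nonneg (by positivity : (0 : ℝ) ≤ 1 / ((k : ℝ) + 1)) (hQ0 x)
      linarith
    · have h3 : Tendsto (fun k : ℕ => -((1 / ((k : ℝ) + 1)) * Q x)) atTop (𝓝 0) := by
        simpa using ((tendsto_one_div_add_atTop_nhds_zero_nat (𝕜 := ℝ)).mul_const (Q x)).neg
      have h4 := (Real.continuous_exp.tendsto 0).comp h3
      rw [Real.exp_zero] at h4
      simpa using h4.const_mul (F x)
  have hdm : dm F = μ := by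
    rw [dm, hμ1, inv_one, one_smul, hμ]
  rw [← hdm]
  exact hfin.2

end Pool.Agent.Lib.MP_6d896a_gt.FP
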