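import Mathlib
import Pool.Agent.Lib.MP_6d896a_gt.FP.Approx

/-!
Approximation of a product of log-concave densities, each invariant under a subspace, by nice Gibbs
potentials with the same invariances.
-/

set_option autoImplicit false

namespace Pool.Agent.Lib.MP_6d896a_gt.FP

open MeasureTheory ProbabilityTheory Set Filter
open scoped ENNReal Topology

section conv

variable {E : Type*} [NormedAddCommGroup E] [NormedSpace ℝ E]
variable {ι : Type*} {s : Finset ι} {A : ι → E →L[ℝ] ℝ} {b : ι → ℝ}

lemma convexOn_log_seZ (hs : s.Nonempty) :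
    ConvexOn ℝ univ (fun x => Real.log (seZ s A b x)) := by
  refine ⟨convex_univ, fun x _ y _ u v hu hv huv => ?_⟩
  rcases hu.eq_or_lt with rfl | hu'
  · have : v = 1 := by linarith
    subst this; simp
  rcases hv.eq_or_lt with rfl | hv'
  · have : u = 1 := by linarith
    subst this; simp
  have hz := seZ_pos (A := A) (b := b) hs
  have hpq : (1 / u).HolderConjugate (1 / v) := by
    rw [Real.holderConjugate_iff]
    refine ⟨?_, by simpa using huv⟩
    rw [lt_div_iff₀ hu']; linarith
  have h1 : seZ s A b (u • x + v • y) ≤ seZ s A b x ^ u * seZ s A b y ^ v := by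
    have h := Real.inner_le_Lp_mul_Lq_of_nonneg s hpq
      (f := fun i => Real.exp (u * (A i x + b i))) (g := fun i => Real.exp (v * (A i y + b i)))
      (fun _ _ => (Real.exp_pos _).le) (fun _ _ => (Real.exp_pos _).le)
    have e1 : ∀ i, Real.exp (u * (A i x + b i)) ^ (1 / u) = Real.exp (A i x + b i) := by
      intro i
      rw [← Real.exp_mul]
      congr 1
      field_simp
    have e2 : ∀ i, Real.exp (v * (A i y + b i)) ^ (1 / v) = Real.exp (A i y + b i) := by
      intro i
      rw [← Real.exp_mul]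
      congr 1
      field_simp
    simp only [e1, e2, one_div_one_div] at h
    refine le_trans (le_of_eq ?_) h
    unfold seZ
    refine Finset.sum_congr rfl fun i _ => ?_
    rw [← Real.exp_add]
    congr 1
    rw [map_add, map_smul, map_smul, smul_eq_mul, smul_eq_mul]
    linear_combination (-b i) * huv
  have h2 := Real.log_le_log (hz _) h1
  rwa [Real.log_mul (Real.rpow_pos_of_pos (hz x) _).ne' (Real.rpow_pos_of_pos (hz y) _).ne',
    Real.log_rpow (hz x), Real.log_rpow (hz y)] at h2

end conv

section softmconv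

set_option linter.unusedSectionVars false

variable {V : Type} [Fintype V] [DecidableEq V]

lemma NC_softm (l : ℕ → (V → ℝ) →L[ℝ] ℝ) (c : ℕ → ℝ) (N : ℕ) :
    NC (fun x => softm (fun i => l i x + c i) N) := by
  have hne : (Finset.range (N + 1)).Nonempty := by simp
  simp only [softm_eq_seZ]
  exact NC.const_mul ⟨contDiff_log_seZ hne 2, BLip_fderiv_fderiv_log_seZ hne⟩ _

lemma convexOn_softm (l : ℕ → (V → ℝ) →L[ℝ] ℝ) (c : ℕ → ℝ) (N : ℕ) :
    ConvexOn ℝ univ (fun x => softm (fun i => l i x + c i) N) := by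
  have hne : (Finset.range (N + 1)).Nonempty := by simp
  have hb : (0 : ℝ) ≤ (((N : ℝ) + 1) ^ 2)⁻¹ := by positivity
  simp only [softm_eq_seZ]
  exact (convexOn_log_seZ (A := fun i => (-(((N : ℝ) + 1) ^ 2)) • l i)
    (b := fun i => -(((N : ℝ) + 1) ^ 2) * c i) hne).smul hb

end softmconv

/-- S8: approximation with invariance -/
theorem approxInv {V ι : Type} [Fintype V] [DecidableEq V] [Fintype ι]
    (M : ι → Submodule ℝ (V → ℝ)) {K : ℝ}
    (hnice : ∀ (φ : ι → (V → ℝ) → ℝ) (κ : ℝ), 0 < κ → (∀ v, NC (φ v)) →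
      (∀ v, ConvexOn ℝ univ (φ v)) → (∀ v x, ∀ z ∈ M v, φ v (x + z) = φ v x) →
      AP (gibbs (fun x => ∑ v, φ v x + κ * ∑ w, x w ^ 2)) K)
    {f : ι → (V → ℝ) → ℝ} (hf0 : ∀ v x, 0 ≤ f v x) (hfm : ∀ v, Measurable (f v))
    (hlc : ∀ v x y (a b : ℝ), 0 < a → 0 < b → a + b = 1 →
      f v x ^ a * f v y ^ b ≤ f v (a • x + b • y))
    (hinv : ∀ v x, ∀ z ∈ M v, f v (x + z) = f v x) {μ : Measure (V → ℝ)}
    [IsProbabilityMeasure μ]
    (hμ : μ = (volume : Measure (V → ℝ)).withDensity (fun x => ENNReal.ofReal (∏ v, f v x))) :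
    AP μ K := by
  set F : (V → ℝ) → ℝ := fun x => ∏ v, f v x with hF
  have hF0 : ∀ x, 0 ≤ F x := fun x => Finset.prod_nonneg fun v _ => hf0 v x
  have hFm : Measurable F := Finset.measurable_fun_prod _ fun v _ => hfm v
  have hμ1 : ∫⁻ x, ENNReal.ofReal (F x) = 1 := by
    have := measure_univ (μ := μ)
    rw [hμ, withDensity_apply _ MeasurableSet.univ, Measure.restrict_univ] at this
    exact this
  have hFi : Integrable F := by
    refine ⟨hFm.aestronglyMeasurable, ?_⟩
    rw [hasFiniteIntegral_iff_ofReal (ae_of_all _ hF0), hμ1]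
    exact ENNReal.one_lt_top
  have hFint : ∫ x, F x = 1 := by
    rw [integral_eq_lintegral_of_nonneg_ae (ae_of_all _ hF0) hFm.aestronglyMeasurable, hμ1]
    rfl
  have hsupp : ∀ v, (volume : Measure (V → ℝ)) {x | 0 < f v x} ≠ 0 := by
    intro v h0
    have h1 : ∀ᵐ x, x ∉ {x | 0 < f v x} := measure_eq_zero_iff_ae_notMem.mp h0
    have h2 : ∀ᵐ x, ENNReal.ofReal (F x) = 0 := by
      filter_upwards [h1] with x hx
      have : f v x = 0 := le_antisymm (not_lt.mp hx) (hf0 v x)
      have h3 : F x = 0 := Finset.prod_eq_zero (Finset.mem_univ v) this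
      rw [h3, ENNReal.ofReal_zero]
    rw [lintegral_congr_ae h2] at hμ1
    simp at hμ1
  choose l c h1 h2 using fun v => exists_seq (volume : Measure (V → ℝ)) (hf0 v) (hlc v) (hsupp v)
  have hl : ∀ v i, ∀ z ∈ M v, l v i z = 0 := by
    intro v i z hz
    exact h2 v z (fun x t => hinv v x _ ((M v).smul_mem t hz)) i
  have hconv : ∀ᵐ x, ∀ v, Tendsto (fun N => Real.exp (-softm (fun i => l v i x + c v i) N))
      atTop (𝓝 (f v x)) := by
    rw [ae_all_iff]
    intro v
    filter_upwards [h1 v] with x hx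
    exact softm_tendsto _ (hf0 v x) hx.1 hx.2
  set Q : (V → ℝ) → ℝ := fun x => ∑ w, x w ^ 2 with hQ
  have hQ0 : ∀ x, 0 ≤ Q x := fun x => Finset.sum_nonneg fun _ _ => sq_nonneg _
  have hQc : Continuous Q := by fun_prop
  have hstep1 : ∀ ε : ℝ, 0 < ε → GoodD (fun x => F x * Real.exp (-(ε * Q x))) ∧
      AP (dm (fun x => F x * Real.exp (-(ε * Q x)))) K := by
    intro ε hε
    have hpe : ∀ (N : ℕ) x, Real.exp (-(∑ v, softm (fun i => l v i x + c v i) N + ε * Q x)) =
        (∏ v, Real.exp (-softm (fun i => l v i x + c v i) N)) * Real.exp (-(ε * Q x)) := by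
      intro N x
      rw [← Real.exp_sum, ← Real.exp_add]
      congr 1
      rw [Finset.sum_neg_distrib]
      ring
    refine AP_limit (p := fun N x => Real.exp (-(∑ v, softm (fun i => l v i x + c v i) N + ε * Q x)))
      (P := fun x => Real.exp ((∑ v, l v 0) x + ∑ v, c v 0) * Real.exp (-(ε * ∑ w, x w ^ 2)))
      (fun N x => (Real.exp_pos _).le) (fun N => ?_) (fun x => mul_nonneg (hF0 x)
        (Real.exp_pos _).le) (by fun_prop) (fun N => ae_of_all _ fun x => ?_)
      (integrable_dom _ _ hε) ?_ ?_ (fun N _ => ?_)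
    · have h3 : Continuous (fun x : V → ℝ => ∑ v, softm (fun i => l v i x + c v i) N) :=
        continuous_finsetSum _ fun v _ => (NC_softm (l v) (c v) N).1.continuous
      exact (Real.continuous_exp.comp (h3.add (hQc.const_mul ε)).neg).measurable
    · rw [← Real.exp_add]
      apply Real.exp_le_exp.mpr
      have a1 : ∀ v, -softm (fun i => l v i x + c v i) N ≤ l v 0 x + c v 0 := by
        intro v
        have := softm_ge (fun i => l v i x + c v i) (Nat.zero_le N)
        linarith
      have a2 := Finset.sum_le_sum fun v (_ : v ∈ Finset.univ) => a1 v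
      rw [Finset.sum_neg_distrib, Finset.sum_add_distrib] at a2
      have a4 : (∑ v, l v 0) x = ∑ v, l v 0 x := by
        simp
      rw [a4]
      simp only [hQ]
      linarith
    · filter_upwards [hconv] with x hx
      simp only [hpe]
      exact (tendsto_finsetProd _ fun v _ => hx v).mul_const _
    · have hint : Integrable (fun x => F x * Real.exp (-(ε * Q x))) := by
        refine hFi.mono' (by fun_prop) (ae_of_all _ fun x => ?_)
        rw [Real.norm_of_nonneg (mul_nonneg (hF0 x) (Real.exp_pos _).le)]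
        refine mul_le_of_le_one_right (hF0 x) ?_
        rw [Real.exp_le_one_iff]
        have := mul_nonneg hε.le (hQ0 x)
        linarith
      rw [integral_pos_iff_support_of_nonneg (fun x => mul_nonneg (hF0 x) (Real.exp_pos _).le) hint]
      have e : Function.support (fun x => F x * Real.exp (-(ε * Q x))) = Function.support F := by
        ext x
        simp [Real.exp_ne_zero]
      rw [e, ← integral_pos_iff_support_of_nonneg hF0 hFi, hFint]
      exact one_pos
    · refine hnice (fun v x => softm (fun i => l v i x + c v i) N) ε hε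
        (fun v => NC_softm (l v) (c v) N) (fun v => convexOn_softm (l v) (c v) N) ?_
      intro v x z hz
      have : ∀ i, l v i (x + z) = l v i x := fun i => by rw [map_add, hl v i z hz, add_zero]
      simp only [this]
  -- second moments
  have hplm : PLm μ := by
    rw [hμ]
    refine (plm_haar _).withDensity hFm.ennreal_ofReal fun x y t ht0 ht1 => ?_
    rw [ENNReal.ofReal_rpow_of_nonneg (hF0 x) (by linarith),
      ENNReal.ofReal_rpow_of_nonneg (hF0 y) ht0.le,
      ← ENNReal.ofReal_mul (Real.rpow_nonneg (hF0 x) _)]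
    apply ENNReal.ofReal_le_ofReal
    simp only [hF]
    rw [← Real.finsetProd_rpow _ _ (fun v _ => hf0 v x), ← Real.finsetProd_rpow _ _
      (fun v _ => hf0 v y), ← Finset.prod_mul_distrib]
    refine Finset.prod_le_prod (fun v _ => mul_nonneg (Real.rpow_nonneg (hf0 v x) _)
      (Real.rpow_nonneg (hf0 v y) _)) fun v _ => ?_
    exact hlc v x y _ _ (by linarith) ht0 (by ring)
  have hPi : Integrable (fun x => (1 + ‖x‖) ^ 2 * F x) := by
    refine ⟨by fun_prop, ?_⟩
    rw [hasFiniteIntegral_iff_ofReal (ae_of_all _ fun x => mul_nonneg (by positivity) (hF0 x))]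
    have e1 : ∫⁻ x, ENNReal.ofReal ((1 + ‖x‖) ^ 2 * F x) =
        ∫⁻ x, ENNReal.ofReal ((1 + ‖x‖) ^ 2) ∂μ := by
      rw [hμ, lintegral_withDensity_eq_lintegral_mul _ hFm.ennreal_ofReal (by fun_prop)]
      refine lintegral_congr fun x => ?_
      simp only [Pi.mul_apply]
      rw [← ENNReal.ofReal_mul (hF0 x), mul_comm]
    rw [e1]
    have e2 : ∫⁻ x, ENNReal.ofReal ((1 + ‖x‖) ^ 2) ∂μ ≤
        ∫⁻ x, (ENNReal.ofReal 2 + ∑ w, ENNReal.ofReal 2 * ENNReal.ofReal (x w ^ 2)) ∂μ := by
      refine lintegral_mono fun x => ?_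
      have : ∀ w, ENNReal.ofReal 2 * ENNReal.ofReal (x w ^ 2) = ENNReal.ofReal (2 * x w ^ 2) :=
        fun w => (ENNReal.ofReal_mul (by norm_num)).symm
      simp only [this]
      rw [← ENNReal.ofReal_sum_of_nonneg (fun w _ => by positivity),
        ← ENNReal.ofReal_add (by norm_num) (Finset.sum_nonneg fun w _ => by positivity)]
      apply ENNReal.ofReal_le_ofReal
      have := norm_sq_le_sum x
      rw [← Finset.mul_sum]
      nlinarith [sq_nonneg (1 - ‖x‖)]
    refine e2.trans_lt ?_
    rw [lintegral_add_left measurable_const, lintegral_finsetSum _ (fun w _ => by fun_prop)]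
    refine ENNReal.add_lt_top.mpr ⟨by simp, ?_⟩
    refine ENNReal.sum_lt_top.mpr fun w _ => ?_
    rw [lintegral_const_mul' _ _ ENNReal.ofReal_ne_top]
    exact ENNReal.mul_lt_top ENNReal.ofReal_lt_top (second_moment hplm w)
  have hfin : GoodD F ∧ AP (dm F) K := by
    refine AP_limit (p := fun k x => F x * Real.exp (-((1 / ((k : ℝ) + 1)) * Q x))) (P := F)
      (fun k x => mul_nonneg (hF0 x) (Real.exp_pos _).le) (fun k => by fun_prop) hF0 hFm
      (fun k => ae_of_all _ fun x => ?_) hPi (ae_of_all _ fun x => ?_) (by rw [hFint]; exact one_pos)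
      (fun k _ => (hstep1 _ (by positivity)).2)
    · refine mul_le_of_le_one_right (hF0 x) ?_
      rw [Real.exp_le_one_iff]
      have := mul_nonneg (by positivity : (0 : ℝ) ≤ 1 / ((k : ℝ) + 1)) (hQ0 x)
      linarith
    · have h3 : Tendsto (fun k : ℕ => -((1 / ((k : ℝ) + 1)) * Q x)) atTop (𝓝 0) := by
        simpa using ((tendsto_one_div_add_atTop_nhds_zero_nat (𝕜 := ℝ)).mul_const (Q x)).neg
      have h4 := (Real.continuous_exp.tendsto 0).comp h3
      rw [Real.exp_zero] at h4
      simpa using h4.const_mul (F x)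
  have hdm : dm F = μ := by
    rw [dm, hμ1, inv_one, one_smul, hμ]
  rw [← hdm]
  exact hfin.2

end Pool.Agent.Lib.MP_6d896a_gt.FP
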