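import Mathlib
import Pool.Agent.Lib.MP_6d896a_gt.FP.Defs

/-!
Basic facts on nice potentials and their Gibbs measures.
-/

set_option autoImplicit false

namespace Pool.Agent.Lib.MP_6d896a_gt.FP

open MeasureTheory ProbabilityTheory Set Filter
open scoped ENNReal Topology

section basic

variable {E : Type*} [NormedAddCommGroup E] [NormedSpace ℝ E]

lemma Nice.continuous {φ : E → ℝ} (h : Nice φ) : Continuous φ := h.cd.continuous

/-- quadratic lower bound for a nice potential -/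
lemma Nice.quad_lower {φ : E → ℝ} (h : Nice φ) :
    ∃ k c : ℝ, 0 < k ∧ ∀ x, k * ‖x‖ ^ 2 - c ≤ φ x := by
  obtain ⟨κ, hκ, hsc⟩ := h.sc
  have hd : HasFDerivAt φ (fderiv ℝ φ 0) 0 :=
    (h.cd.differentiable (by norm_num) 0).hasFDerivAt
  -- one step
  have step : ∀ x : E, 2 * (φ ((1 / 2 : ℝ) • x) - φ 0) + 2 * κ * ‖x‖ ^ 2 ≤ φ x - φ 0 := by
    intro x
    have := hsc x 0
    simp only [add_zero, sub_zero] at this
    linarith
  have iter : ∀ n : ℕ, ∀ x : E, (2 : ℝ) ^ (n + 1) * (φ (((2 : ℝ) ^ (n + 1))⁻¹ • x) - φ 0)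
      + 2 * κ * ‖x‖ ^ 2 ≤ φ x - φ 0 := by
    intro n
    induction n with
    | zero =>
      intro x
      have := step x
      norm_num at this ⊢
      linarith
    | succ n ih =>
      intro x
      have h1 := ih ((1 / 2 : ℝ) • x)
      have h2 := step x
      have h3 : ((2 : ℝ) ^ (n + 1))⁻¹ • ((1 / 2 : ℝ) • x) = ((2 : ℝ) ^ (n + 1 + 1))⁻¹ • x := by
        rw [smul_smul]
        congr 1
        rw [pow_succ (2 : ℝ) (n + 1), mul_inv]
        norm_num
      rw [h3] at h1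
      have h4 : 0 ≤ 2 * κ * ‖(1 / 2 : ℝ) • x‖ ^ 2 := by positivity
      have h5 : (2 : ℝ) ^ (n + 1 + 1) * (φ (((2 : ℝ) ^ (n + 1 + 1))⁻¹ • x) - φ 0)
          = 2 * ((2 : ℝ) ^ (n + 1) * (φ (((2 : ℝ) ^ (n + 1 + 1))⁻¹ • x) - φ 0)) := by ring
      rw [h5]
      linarith
  have lim : ∀ x : E, (fderiv ℝ φ 0) x + 2 * κ * ‖x‖ ^ 2 ≤ φ x - φ 0 := by
    intro x
    have ht := (hd.lim_real x).comp
      ((tendsto_pow_atTop_atTop_of_one_lt (by norm_num : (1 : ℝ) < 2)).comp (tendsto_add_atTop_nat 1))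
    have ht2 := ht.add_const (2 * κ * ‖x‖ ^ 2)
    refine le_of_tendsto ht2 (Eventually.of_forall fun n => ?_)
    have := iter n x
    simp only [Function.comp_apply, smul_eq_mul, zero_add]
    exact this
  refine ⟨κ, ‖fderiv ℝ φ 0‖ ^ 2 / κ - φ 0, hκ, fun x => ?_⟩
  have h1 := lim x
  have h2 : -(‖fderiv ℝ φ 0‖ * ‖x‖) ≤ (fderiv ℝ φ 0) x := by
    have := (fderiv ℝ φ 0).le_opNorm x
    have h3 := neg_abs_le ((fderiv ℝ φ 0) x)
    rw [Real.norm_eq_abs] at this
    linarith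
  have h4 : ‖fderiv ℝ φ 0‖ * ‖x‖ ≤ ‖fderiv ℝ φ 0‖ ^ 2 / κ + κ * ‖x‖ ^ 2 := by
    have h5 : 0 ≤ (‖fderiv ℝ φ 0‖ - κ * ‖x‖) ^ 2 := sq_nonneg _
    have h6 : ‖fderiv ℝ φ 0‖ ^ 2 / κ + κ * ‖x‖ ^ 2 - ‖fderiv ℝ φ 0‖ * ‖x‖
        = ((‖fderiv ℝ φ 0‖ - κ * ‖x‖) ^ 2 + κ * (‖fderiv ℝ φ 0‖ * ‖x‖)) / κ := by
      field_simp
      ring
    have h7 : 0 ≤ ((‖fderiv ℝ φ 0‖ - κ * ‖x‖) ^ 2 + κ * (‖fderiv ℝ φ 0‖ * ‖x‖)) / κ := by
      positivity
    linarith
  linarith

lemma exp_poly_bound (k : ℝ) (hk : 0 < k) (N : ℕ) :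
    ∃ C : ℝ, 0 ≤ C ∧ ∀ t : ℝ, 0 ≤ t → (1 + t) ^ N * Real.exp (-(k * t ^ 2)) ≤ C := by
  refine ⟨2 ^ N * (N.factorial / k ^ N) * Real.exp k, by positivity, fun t ht => ?_⟩
  have h1 : (1 + t) ^ N ≤ 2 ^ N * (1 + t ^ 2) ^ N := by
    rw [← mul_pow]
    apply pow_le_pow_left₀ (by positivity)
    nlinarith [sq_nonneg (t - 1 / 2)]
  have h2 : (k * (1 + t ^ 2)) ^ N / N.factorial ≤ Real.exp (k * (1 + t ^ 2)) :=
    Real.pow_div_factorial_le_exp _ (by positivity) N
  have h3 : (1 + t ^ 2) ^ N ≤ N.factorial / k ^ N * Real.exp (k * (1 + t ^ 2)) := by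
    rw [mul_pow, div_le_iff₀ (by positivity)] at h2
    rw [div_mul_eq_mul_div, le_div_iff₀ (by positivity)]
    linarith
  calc (1 + t) ^ N * Real.exp (-(k * t ^ 2))
      ≤ (2 ^ N * (N.factorial / k ^ N * Real.exp (k * (1 + t ^ 2)))) * Real.exp (-(k * t ^ 2)) := by
        apply mul_le_mul_of_nonneg_right _ (Real.exp_pos _).le
        exact h1.trans (mul_le_mul_of_nonneg_left h3 (by positivity))
    _ = 2 ^ N * (N.factorial / k ^ N) * (Real.exp (k * (1 + t ^ 2)) * Real.exp (-(k * t ^ 2))) := by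
        ring
    _ = 2 ^ N * (N.factorial / k ^ N) * Real.exp k := by
        rw [← Real.exp_add]
        congr 2
        ring

variable [FiniteDimensional ℝ E] [MeasureSpace E] [BorelSpace E]
  [(volume : Measure E).IsAddHaarMeasure]

/-- polynomially bounded functions are integrable against `exp (-φ)` -/
lemma Nice.integrable_pow {φ : E → ℝ} (h : Nice φ) (n : ℕ) :
    Integrable (fun x : E => (1 + ‖x‖) ^ n * Real.exp (-φ x)) := by
  obtain ⟨k, c, hk, hlow⟩ := h.quad_lower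
  obtain ⟨C, hC, hb⟩ := exp_poly_bound k hk (n + (Module.finrank ℝ E + 1))
  have hint : Integrable (fun x : E => (1 + ‖x‖) ^ (-((Module.finrank ℝ E + 1 : ℕ) : ℝ))) :=
    integrable_one_add_norm (by push_cast; linarith)
  refine (hint.const_mul (C * Real.exp c)).mono' ?_ (Eventually.of_forall fun x => ?_)
  · exact (((continuous_const.add continuous_norm).pow n).mul
      (Real.continuous_exp.comp h.continuous.neg)).aestronglyMeasurable
  · have h0 : 0 < 1 + ‖x‖ := by positivity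
    rw [Real.norm_of_nonneg (by positivity), Real.rpow_neg h0.le, Real.rpow_natCast]
    have h1 := hb ‖x‖ (norm_nonneg x)
    have h2 : Real.exp (-φ x) ≤ Real.exp (-(k * ‖x‖ ^ 2)) * Real.exp c := by
      rw [← Real.exp_add]
      apply Real.exp_le_exp.2
      have := hlow x
      linarith
    rw [pow_add] at h1
    have h3 : 0 < (1 + ‖x‖) ^ (Module.finrank ℝ E + 1) := by positivity
    rw [← div_eq_mul_inv, le_div_iff₀ h3]
    calc (1 + ‖x‖) ^ n * Real.exp (-φ x) * (1 + ‖x‖) ^ (Module.finrank ℝ E + 1)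
        = (1 + ‖x‖) ^ n * (1 + ‖x‖) ^ (Module.finrank ℝ E + 1) * Real.exp (-φ x) := by ring
      _ ≤ (1 + ‖x‖) ^ n * (1 + ‖x‖) ^ (Module.finrank ℝ E + 1) *
          (Real.exp (-(k * ‖x‖ ^ 2)) * Real.exp c) := by gcongr
      _ = ((1 + ‖x‖) ^ n * (1 + ‖x‖) ^ (Module.finrank ℝ E + 1) *
          Real.exp (-(k * ‖x‖ ^ 2))) * Real.exp c := by ring
      _ ≤ C * Real.exp c := by gcongr

lemma Nice.integrable_exp {φ : E → ℝ} (h : Nice φ) :
    Integrable (fun x : E => Real.exp (-φ x)) := by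
  simpa using h.integrable_pow 0

lemma Nice.lintegral_ne_top {φ : E → ℝ} (h : Nice φ) :
    ∫⁻ x : E, ENNReal.ofReal (Real.exp (-φ x)) ≠ ∞ := by
  have := h.integrable_exp.lintegral_lt_top
  exact this.ne

lemma Nice.lintegral_ne_zero {φ : E → ℝ} (h : Nice φ) :
    ∫⁻ x : E, ENNReal.ofReal (Real.exp (-φ x)) ≠ 0 := by
  rw [Ne, lintegral_eq_zero_iff']
  · intro h0
    have h1 : (volume : Measure E) univ = 0 := by
      have h2 : ∀ᵐ x : E, False := by
        filter_upwards [h0] with x hx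
        simp only [Pi.zero_apply, ENNReal.ofReal_eq_zero, not_le.2 (Real.exp_pos _)] at hx
      rw [ae_iff] at h2
      simpa using h2
    exact (isOpen_univ.measure_pos (volume : Measure E) univ_nonempty).ne' h1
  · exact (ENNReal.measurable_ofReal.comp (Real.continuous_exp.comp
      h.continuous.neg).measurable).aemeasurable

lemma gibbs_prob {φ : E → ℝ} (h : Nice φ) : IsProbabilityMeasure (gibbs φ) := by
  constructor
  unfold gibbs
  rw [Measure.smul_apply, withDensity_apply _ MeasurableSet.univ, Measure.restrict_univ,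
    smul_eq_mul]
  exact ENNReal.inv_mul_cancel h.lintegral_ne_zero h.lintegral_ne_top

/-- integrability of polynomially bounded functions -/
lemma gibbs_integrable {φ : E → ℝ} (h : Nice φ) {F : Type*} [NormedAddCommGroup F]
    {g : E → F} (hg : AEStronglyMeasurable g (volume : Measure E)) (C : ℝ) (n : ℕ)
    (hb : ∀ x, ‖g x‖ ≤ C * (1 + ‖x‖) ^ n) : Integrable g (gibbs φ) := by
  have hm : Measurable fun x : E => ENNReal.ofReal (Real.exp (-φ x)) :=
    ENNReal.measurable_ofReal.comp (Real.continuous_exp.comp h.continuous.neg).measurable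
  unfold gibbs
  apply Integrable.smul_measure _ (ENNReal.inv_ne_top.2 h.lintegral_ne_zero)
  refine ⟨hg.mono_ac (withDensity_absolutelyContinuous _ _), ?_⟩
  unfold HasFiniteIntegral
  rw [lintegral_withDensity_eq_lintegral_mul₀ hm.aemeasurable hg.enorm]
  have h1 := (h.integrable_pow n).const_mul C
  refine lt_of_le_of_lt ?_ h1.2
  apply lintegral_mono
  intro x
  simp only [Pi.mul_apply]
  have hC : 0 ≤ C * (1 + ‖x‖) ^ n := (norm_nonneg _).trans (hb x)
  rw [← ofReal_norm, ← ofReal_norm, ← ENNReal.ofReal_mul (Real.exp_pos _).le]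
  apply ENNReal.ofReal_le_ofReal
  rw [Real.norm_of_nonneg (by rw [← mul_assoc]; positivity)]
  calc Real.exp (-φ x) * ‖g x‖ ≤ Real.exp (-φ x) * (C * (1 + ‖x‖) ^ n) := by
        gcongr
        exact hb x
    _ = _ := by ring

lemma gibbs_memLp {φ : E → ℝ} (h : Nice φ) {g : E → ℝ}
    (hg : AEStronglyMeasurable g (volume : Measure E)) (C : ℝ)
    (hb : ∀ x, ‖g x‖ ≤ C * (1 + ‖x‖)) : MemLp g 2 (gibbs φ) := by
  have hac : gibbs φ ≪ (volume : Measure E) := by
    unfold gibbs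
    exact (withDensity_absolutelyContinuous _ _).smul_left _
  rw [memLp_two_iff_integrable_sq (hg.mono_ac hac)]
  refine gibbs_integrable h (hg.pow 2) (C ^ 2) 2 fun x => ?_
  rw [norm_pow, ← mul_pow]
  exact pow_le_pow_left₀ (norm_nonneg _) (hb x) 2

omit [NormedAddCommGroup E] [NormedSpace ℝ E] [FiniteDimensional ℝ E] [BorelSpace E]
  [(volume : Measure E).IsAddHaarMeasure] in
lemma gibbs_add_const (φ : E → ℝ) (c : ℝ) : gibbs (fun x => φ x + c) = gibbs φ := by
  unfold gibbs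
  have h1 : ∀ x, ENNReal.ofReal (Real.exp (-(φ x + c)))
      = ENNReal.ofReal (Real.exp (-c)) * ENNReal.ofReal (Real.exp (-φ x)) := by
    intro x
    rw [← ENNReal.ofReal_mul (Real.exp_pos _).le, ← Real.exp_add]
    congr 2
    ring
  have hc0 : ENNReal.ofReal (Real.exp (-c)) ≠ 0 := by
    simp [Real.exp_pos]
  have hct : ENNReal.ofReal (Real.exp (-c)) ≠ ∞ := ENNReal.ofReal_ne_top
  simp_rw [h1]
  rw [lintegral_const_mul' _ _ hct, ENNReal.mul_inv (Or.inl hc0) (Or.inl hct)]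
  have h2 : (volume : Measure E).withDensity (fun x => ENNReal.ofReal (Real.exp (-c)) *
      ENNReal.ofReal (Real.exp (-φ x))) = ENNReal.ofReal (Real.exp (-c)) •
      (volume : Measure E).withDensity (fun x => ENNReal.ofReal (Real.exp (-φ x))) := by
    rw [← withDensity_smul' _ _ hct]
    rfl
  rw [h2, smul_smul]
  congr 1
  rw [mul_right_comm, ENNReal.inv_mul_cancel hc0 hct, one_mul]

end basic

end Pool.Agent.Lib.MP_6d896a_gt.FP
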