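import Mathlib
import Pool.Agent.Lib.MP_6d896a_gt.FP.NiceBasic
import Pool.Agent.Lib.MP_6d896a_gt.FP.PLm

/-!
Nice potentials are convex, their Gibbs measures are log-concave, and their restrictions to affine
subspaces are nice.
-/

set_option autoImplicit false

namespace Pool.Agent.Lib.MP_6d896a_gt.FP

open MeasureTheory ProbabilityTheory Set Filter
open scoped ENNReal Topology

section convex

variable {E : Type*} [NormedAddCommGroup E] [NormedSpace ℝ E]

/-- a nice potential lies above its tangent planes -/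
lemma Nice.tangent {φ : E → ℝ} (h : Nice φ) (z x : E) :
    φ z + fderiv ℝ φ z (x - z) ≤ φ x := by
  obtain ⟨κ, hκ, hsc⟩ := h.sc
  have hd : HasFDerivAt φ (fderiv ℝ φ z) z :=
    (h.cd.differentiable (by norm_num) z).hasFDerivAt
  have step : ∀ u : E, 2 * (φ (z + (1 / 2 : ℝ) • u) - φ z) ≤ φ (z + u) - φ z := by
    intro u
    have h1 := hsc z (z + u)
    have h2 : (1 / 2 : ℝ) • (z + (z + u)) = z + (1 / 2 : ℝ) • u := by module
    rw [h2] at h1
    have h3 : 0 ≤ κ * ‖z - (z + u)‖ ^ 2 := by positivity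
    linarith
  have iter : ∀ n : ℕ, ∀ u : E,
      (2 : ℝ) ^ n * (φ (z + ((2 : ℝ) ^ n)⁻¹ • u) - φ z) ≤ φ (z + u) - φ z := by
    intro n
    induction n with
    | zero => intro u; simp
    | succ n ih =>
      intro u
      have h1 := ih ((1 / 2 : ℝ) • u)
      have h2 := step u
      have h3 : ((2 : ℝ) ^ n)⁻¹ • ((1 / 2 : ℝ) • u) = ((2 : ℝ) ^ (n + 1))⁻¹ • u := by
        rw [smul_smul]
        congr 1
        rw [pow_succ (2 : ℝ) n, mul_inv]
        norm_num
      rw [h3] at h1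
      have h5 : (2 : ℝ) ^ (n + 1) * (φ (z + ((2 : ℝ) ^ (n + 1))⁻¹ • u) - φ z)
          = 2 * ((2 : ℝ) ^ n * (φ (z + ((2 : ℝ) ^ (n + 1))⁻¹ • u) - φ z)) := by ring
      rw [h5]
      linarith
  have ht := (hd.lim_real (x - z)).comp
    (tendsto_pow_atTop_atTop_of_one_lt (by norm_num : (1 : ℝ) < 2))
  have := le_of_tendsto ht (Eventually.of_forall fun n => by
    simpa only [Function.comp_apply, smul_eq_mul] using iter n (x - z))
  rw [add_sub_cancel] at this
  linarith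

lemma Nice.convexOn {φ : E → ℝ} (h : Nice φ) : ConvexOn ℝ univ φ := by
  refine ⟨convex_univ, fun x _ y _ a b ha hb hab => ?_⟩
  have h1 := h.tangent (a • x + b • y) x
  have h2 := h.tangent (a • x + b • y) y
  have h3 : a * fderiv ℝ φ (a • x + b • y) (x - (a • x + b • y)) +
      b * fderiv ℝ φ (a • x + b • y) (y - (a • x + b • y)) = 0 := by
    rw [← smul_eq_mul, ← smul_eq_mul, ← map_smul, ← map_smul, ← map_add]
    have : a • (x - (a • x + b • y)) + b • (y - (a • x + b • y)) = 0 := by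
      have h4 : b = 1 - a := by linarith
      subst h4
      module
    rw [this, map_zero]
  have h4 := mul_le_mul_of_nonneg_left h1 ha
  have h5 := mul_le_mul_of_nonneg_left h2 hb
  simp only [smul_eq_mul]
  have h6 : φ (a • x + b • y) = a * φ (a • x + b • y) + b * φ (a • x + b • y) := by
    rw [← add_mul, hab, one_mul]
  rw [h6]
  linarith

end convex

section plm

variable {E : Type*} [NormedAddCommGroup E] [NormedSpace ℝ E] [MeasureSpace E]
    [BorelSpace E] [FiniteDimensional ℝ E] [(volume : Measure E).IsAddHaarMeasure]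

lemma Nice.plm_gibbs {φ : E → ℝ} (h : Nice φ) : PLm (gibbs φ) := by
  have hm : Measurable fun x : E => ENNReal.ofReal (Real.exp (-φ x)) :=
    ENNReal.measurable_ofReal.comp (Real.continuous_exp.comp h.continuous.neg).measurable
  unfold gibbs
  apply PLm.smul
  · apply (plm_haar volume).withDensity hm
    intro x y l h0 h1
    rw [ENNReal.ofReal_rpow_of_pos (Real.exp_pos _), ENNReal.ofReal_rpow_of_pos (Real.exp_pos _),
        ← ENNReal.ofReal_mul (by positivity), ← Real.exp_mul, ← Real.exp_mul, ← Real.exp_add]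
    apply ENNReal.ofReal_le_ofReal
    apply Real.exp_le_exp.2
    have h2 := h.convexOn.2 (mem_univ x) (mem_univ y) (by linarith : 0 ≤ 1 - l) h0.le (by ring)
    simp only [smul_eq_mul] at h2
    linarith
  · exact ENNReal.inv_ne_zero.2 h.lintegral_ne_top
  · exact ENNReal.inv_ne_top.2 h.lintegral_ne_zero

end plm

section nice

variable {E F : Type*} [NormedAddCommGroup E] [NormedSpace ℝ E]
  [NormedAddCommGroup F] [NormedSpace ℝ F]

/-- restriction of a nice potential to an affine subspace -/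
lemma Nice.comp_affine {φ : E → ℝ} (h : Nice φ) (A : F →L[ℝ] E) (B : E →L[ℝ] F)
    (hBA : ∀ z, B (A z) = z) (b : E) : Nice (fun z => φ (A z + b)) := by
  set T : (E →L[ℝ] ℝ) →L[ℝ] (F →L[ℝ] ℝ) := (ContinuousLinearMap.compL ℝ F E ℝ).flip A with hT
  have hA : ∀ z, HasFDerivAt (fun z => A z + b) A z := fun z => A.hasFDerivAt.add_const b
  have hd1 : ∀ z, HasFDerivAt (fun z => φ (A z + b)) (T (fderiv ℝ φ (A z + b))) z := by
    intro z
    have h1 : HasFDerivAt φ (fderiv ℝ φ (A z + b)) (A z + b) :=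
      (h.cd.differentiable (by norm_num) _).hasFDerivAt
    exact h1.comp z (hA z)
  have hf1 : fderiv ℝ (fun z => φ (A z + b)) = fun z => T (fderiv ℝ φ (A z + b)) := by
    ext1 z
    exact (hd1 z).fderiv
  have hcd1 : ContDiff ℝ 1 (fderiv ℝ φ) := h.cd.fderiv_right (by norm_num)
  have hd2 : ∀ z, HasFDerivAt (fun z => T (fderiv ℝ φ (A z + b)))
      (T.comp ((fderiv ℝ (fderiv ℝ φ) (A z + b)).comp A)) z := by
    intro z
    have h1 : HasFDerivAt (fderiv ℝ φ) (fderiv ℝ (fderiv ℝ φ) (A z + b)) (A z + b) :=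
      (hcd1.differentiable (by norm_num) _).hasFDerivAt
    exact T.hasFDerivAt.comp z (h1.comp z (hA z))
  have hf2 : ∀ z, fderiv ℝ (fderiv ℝ (fun z => φ (A z + b))) z
      = T.comp ((fderiv ℝ (fderiv ℝ φ) (A z + b)).comp A) := by
    intro z
    rw [hf1]
    exact (hd2 z).fderiv
  have hn : ∀ D : E →L[ℝ] (E →L[ℝ] ℝ), ‖T.comp (D.comp A)‖ ≤ ‖T‖ * (‖D‖ * ‖A‖) := by
    intro D
    refine (ContinuousLinearMap.opNorm_comp_le _ _).trans ?_
    gcongr
    exact ContinuousLinearMap.opNorm_comp_le _ _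
  refine ⟨h.cd.comp (by fun_prop), ?_, ?_, ?_⟩
  · obtain ⟨C, hC⟩ := h.bd
    refine ⟨‖T‖ * (C * ‖A‖), fun z => ?_⟩
    rw [hf2]
    refine (hn _).trans ?_
    gcongr
    exact hC _
  · obtain ⟨C, hC⟩ := h.lip
    refine ⟨‖T‖ * (|C| * ‖A‖ * ‖A‖), fun x y => ?_⟩
    rw [hf2, hf2]
    have h1 : T.comp ((fderiv ℝ (fderiv ℝ φ) (A x + b)).comp A)
        - T.comp ((fderiv ℝ (fderiv ℝ φ) (A y + b)).comp A)
        = T.comp ((fderiv ℝ (fderiv ℝ φ) (A x + b) - fderiv ℝ (fderiv ℝ φ) (A y + b)).comp A) := by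
      rw [ContinuousLinearMap.sub_comp, ContinuousLinearMap.comp_sub]
    rw [h1]
    refine (hn _).trans ?_
    have h2 : ‖fderiv ℝ (fderiv ℝ φ) (A x + b) - fderiv ℝ (fderiv ℝ φ) (A y + b)‖
        ≤ |C| * (‖A‖ * ‖x - y‖) := by
      refine (hC _ _).trans ?_
      have h3 : (A x + b) - (A y + b) = A (x - y) := by
        rw [map_sub]; abel
      rw [h3]
      have h4 := A.le_opNorm (x - y)
      calc C * ‖A (x - y)‖ ≤ |C| * ‖A (x - y)‖ := by gcongr; exact le_abs_self C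
        _ ≤ |C| * (‖A‖ * ‖x - y‖) := by gcongr
    calc ‖T‖ * (‖fderiv ℝ (fderiv ℝ φ) (A x + b) - fderiv ℝ (fderiv ℝ φ) (A y + b)‖ * ‖A‖)
        ≤ ‖T‖ * ((|C| * (‖A‖ * ‖x - y‖)) * ‖A‖) := by gcongr
      _ = ‖T‖ * (|C| * ‖A‖ * ‖A‖) * ‖x - y‖ := by ring
  · obtain ⟨κ, hκ, hsc⟩ := h.sc
    refine ⟨κ / (‖B‖ + 1) ^ 2, by positivity, fun x y => ?_⟩
    have h1 := hsc (A x + b) (A y + b)
    have h2 : (1 / 2 : ℝ) • (A x + b + (A y + b)) = A ((1 / 2 : ℝ) • (x + y)) + b := by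
      rw [map_smul, map_add]
      module
    have h3 : (A x + b) - (A y + b) = A (x - y) := by
      rw [map_sub]; abel
    rw [h2, h3] at h1
    have h4 : ‖x - y‖ ≤ (‖B‖ + 1) * ‖A (x - y)‖ := by
      calc ‖x - y‖ = ‖B (A (x - y))‖ := by rw [hBA]
        _ ≤ ‖B‖ * ‖A (x - y)‖ := B.le_opNorm _
        _ ≤ (‖B‖ + 1) * ‖A (x - y)‖ := by gcongr; linarith
    have h5 : κ / (‖B‖ + 1) ^ 2 * ‖x - y‖ ^ 2 ≤ κ * ‖A (x - y)‖ ^ 2 := by
      rw [div_mul_eq_mul_div, div_le_iff₀ (by positivity), mul_assoc]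
      gcongr
      calc ‖x - y‖ ^ 2 ≤ ((‖B‖ + 1) * ‖A (x - y)‖) ^ 2 := by gcongr
        _ = _ := by ring
    linarith

end nice

end Pool.Agent.Lib.MP_6d896a_gt.FP
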