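import Mathlib
import Pool.Agent.Lib.MP_6d896a_gt.FP.NiceBasic

/-!
Tensorisation of the affine invariant Poincare inequality.
-/

set_option autoImplicit false

namespace Pool.Agent.Lib.MP_6d896a_gt.FP

open MeasureTheory ProbabilityTheory Set Filter
open scoped ENNReal Topology

section efron

variable {X Y : Type*} [MeasurableSpace X] [MeasurableSpace Y] {μ : Measure X} {ν : Measure Y}
  [IsProbabilityMeasure μ] [IsProbabilityMeasure ν]

lemma sq_integral_le {Y : Type*} [MeasurableSpace Y] {ν : Measure Y} [IsProbabilityMeasure ν]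
    {g : Y → ℝ} (hg : MemLp g 2 ν) : (∫ y, g y ∂ν) ^ 2 ≤ ∫ y, g y ^ 2 ∂ν := by
  have h1 := variance_eq_sub hg
  have h2 := variance_nonneg g ν
  rw [h1] at h2
  simpa using h2

/-- Efron-Stein inequality for two factors -/
lemma efron_stein {f : X × Y → ℝ} (hf : MemLp f 2 (μ.prod ν))
    (hs : ∀ y, MemLp (fun x => f (x, y)) 2 μ) (ht : ∀ x, MemLp (fun y => f (x, y)) 2 ν) :
    Var[f; μ.prod ν] ≤ ∫ y, Var[fun x => f (x, y); μ] ∂ν + ∫ x, Var[fun y => f (x, y); ν] ∂μ := by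
  set a : X → ℝ := fun x => ∫ y, f (x, y) ∂ν with ha
  set b : Y → ℝ := fun y => ∫ x, f (x, y) ∂μ with hb
  set m : ℝ := ∫ p, f p ∂(μ.prod ν) with hm
  have hf1 : Integrable f (μ.prod ν) := hf.integrable (by norm_num)
  have hf2 : Integrable (fun p => f p ^ 2) (μ.prod ν) := hf.integrable_sq
  have ham : AEStronglyMeasurable a μ := hf.1.integral_prod_right'
  have hbm : AEStronglyMeasurable b ν := by
    have := hf.1.prod_swap.integral_prod_right'
    exact this
  have hsx : Integrable (fun x => ∫ y, f (x, y) ^ 2 ∂ν) μ := hf2.integral_prod_left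
  have hsy : Integrable (fun y => ∫ x, f (x, y) ^ 2 ∂μ) ν := hf2.integral_prod_right
  have ha2 : MemLp a 2 μ := by
    rw [memLp_two_iff_integrable_sq ham]
    refine hsx.mono' (ham.pow 2) (Eventually.of_forall fun x => ?_)
    rw [Real.norm_of_nonneg (sq_nonneg _)]
    exact sq_integral_le (ht x)
  have hb2 : MemLp b 2 ν := by
    rw [memLp_two_iff_integrable_sq hbm]
    refine hsy.mono' (hbm.pow 2) (Eventually.of_forall fun y => ?_)
    rw [Real.norm_of_nonneg (sq_nonneg _)]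
    exact sq_integral_le (hs y)
  have ham1 : ∫ x, a x ∂μ = m := by
    rw [hm, integral_prod _ hf1]
  have hbm1 : ∫ y, b y ∂ν = m := by
    rw [hm, integral_prod_symm _ hf1]
  -- variance of f
  have hV : Var[f; μ.prod ν] = ∫ p, f p ^ 2 ∂(μ.prod ν) - m ^ 2 := by
    rw [variance_eq_sub hf]
    simp [hm]
  have hVa : ∫ y, Var[fun x => f (x, y); μ] ∂ν
      = ∫ p, f p ^ 2 ∂(μ.prod ν) - ∫ y, b y ^ 2 ∂ν := by
    have h1 : ∀ y, Var[fun x => f (x, y); μ] = ∫ x, f (x, y) ^ 2 ∂μ - b y ^ 2 := by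
      intro y
      rw [variance_eq_sub (hs y)]
      simp [hb]
    simp_rw [h1]
    rw [integral_sub hsy hb2.integrable_sq, integral_prod_symm _ hf2]
  have hVb : ∫ x, Var[fun y => f (x, y); ν] ∂μ
      = ∫ p, f p ^ 2 ∂(μ.prod ν) - ∫ x, a x ^ 2 ∂μ := by
    have h1 : ∀ x, Var[fun y => f (x, y); ν] = ∫ y, f (x, y) ^ 2 ∂ν - a x ^ 2 := by
      intro x
      rw [variance_eq_sub (ht x)]
      simp [ha]
    simp_rw [h1]
    rw [integral_sub hsx ha2.integrable_sq, integral_prod _ hf2]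
  rw [hV, hVa, hVb]
  -- key inequality
  have hbs : MemLp (fun p : X × Y => b p.2) 2 (μ.prod ν) := hb2.comp_snd μ
  have hbp : ∫ p, b p.2 ^ 2 ∂(μ.prod ν) = ∫ y, b y ^ 2 ∂ν := by
    have := integral_fun_snd (μ := μ) (ν := ν) (fun y => b y ^ 2)
    simpa using this
  have hfb : ∫ p, f p * b p.2 ∂(μ.prod ν) = ∫ y, b y ^ 2 ∂ν := by
    have hi : Integrable (fun p : X × Y => f p * b p.2) (μ.prod ν) := hf.integrable_mul hbs
    rw [integral_prod_symm _ hi]
    congr 1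
    ext y
    simp only
    rw [integral_mul_const]
    rw [sq]
  have hint : ∫ p, (f p - b p.2) ^ 2 ∂(μ.prod ν)
      = ∫ p, f p ^ 2 ∂(μ.prod ν) - ∫ y, b y ^ 2 ∂ν := by
    have h1 : ∀ p : X × Y, (f p - b p.2) ^ 2 = f p ^ 2 - 2 * (f p * b p.2) + b p.2 ^ 2 := by
      intro p; ring
    simp_rw [h1]
    have hi : Integrable (fun p : X × Y => 2 * (f p * b p.2)) (μ.prod ν) :=
      (hf.integrable_mul hbs).const_mul 2
    have hi2 : Integrable (fun p : X × Y => f p ^ 2 - 2 * (f p * b p.2)) (μ.prod ν) := hf2.sub hi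
    rw [integral_add hi2 hbs.integrable_sq, integral_sub hf2 hi, integral_const_mul,
      hbp, hfb]
    ring
  have hd : MemLp (fun p : X × Y => f p - b p.2) 2 (μ.prod ν) := hf.sub hbs
  have hk : ∫ x, (a x - m) ^ 2 ∂μ ≤ ∫ p, (f p - b p.2) ^ 2 ∂(μ.prod ν) := by
    rw [integral_prod _ hd.integrable_sq]
    refine integral_mono_of_nonneg (Eventually.of_forall fun x => sq_nonneg _)
      hd.integrable_sq.integral_prod_left (Eventually.of_forall fun x => ?_)
    have h1 : MemLp (fun y => f (x, y) - b y) 2 ν := (ht x).sub hb2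
    have h2 : ∫ y, (f (x, y) - b y) ∂ν = a x - m := by
      rw [integral_sub ((ht x).integrable (by norm_num)) (hb2.integrable (by norm_num)), hbm1]
    have h3 := sq_integral_le h1
    rw [h2] at h3
    exact h3
  have hk2 : ∫ x, (a x - m) ^ 2 ∂μ = ∫ x, a x ^ 2 ∂μ - m ^ 2 := by
    have h1 : ∀ x, (a x - m) ^ 2 = a x ^ 2 - 2 * m * a x + m ^ 2 := by
      intro x; ring
    simp_rw [h1]
    have hi : Integrable (fun x => 2 * m * a x) μ := (ha2.integrable (by norm_num)).const_mul _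
    have hi2 : Integrable (fun x => a x ^ 2 - 2 * m * a x) μ := ha2.integrable_sq.sub hi
    rw [integral_add hi2 (integrable_const _),
      integral_sub ha2.integrable_sq hi, integral_const_mul, ham1]
    simp
    ring
  rw [hk2, hint] at hk
  linarith

end efron

section growth

variable {E : Type*} [NormedAddCommGroup E] [NormedSpace ℝ E]

/-- linear growth of a function with bounded derivative -/
lemma growth {f : E → ℝ} (hf : ContDiff ℝ 1 f) {l : ℝ} (hl : ∀ x, ‖fderiv ℝ f x‖ ≤ l) :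
    ∀ x, ‖f x‖ ≤ (‖f 0‖ + l) * (1 + ‖x‖) := by
  intro x
  have hl0 : 0 ≤ l := (norm_nonneg _).trans (hl 0)
  have h1 : ‖f x - f 0‖ ≤ l * ‖x - 0‖ :=
    Convex.norm_image_sub_le_of_norm_fderiv_le (𝕜 := ℝ) (s := univ)
      (fun y _ => hf.differentiable one_ne_zero y) (fun y _ => hl y) convex_univ
      (mem_univ _) (mem_univ _)
  rw [sub_zero] at h1
  have h2 : ‖f x‖ ≤ ‖f x - f 0‖ + ‖f 0‖ := by
    calc ‖f x‖ = ‖(f x - f 0) + f 0‖ := by rw [sub_add_cancel]
      _ ≤ _ := norm_add_le _ _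
  nlinarith [norm_nonneg (f 0), norm_nonneg x, mul_nonneg (norm_nonneg (f 0)) (norm_nonneg x)]

end growth

section apprd

variable {E : Type*} [NormedAddCommGroup E] [NormedSpace ℝ E] [MeasurableSpace E]
  [BorelSpace E] [FiniteDimensional ℝ E]

omit [FiniteDimensional ℝ E] in
lemma memLp_lin {μ : Measure E} (hμ : MemLp (fun x : E => ‖x‖) 2 μ) (L : E →L[ℝ] ℝ) :
    MemLp (fun x => L x) 2 μ := by
  refine (hμ.const_mul ‖L‖).mono' L.continuous.aestronglyMeasurable
    (Eventually.of_forall fun x => L.le_opNorm x)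

omit [FiniteDimensional ℝ E] in
lemma var_lin_le {μ : Measure E} [IsProbabilityMeasure μ] (hμ : MemLp (fun x : E => ‖x‖) 2 μ)
    (L : E →L[ℝ] ℝ) {l : ℝ} (hL : ‖L‖ ≤ l) :
    Var[fun x => L x; μ] ≤ l ^ 2 * ∫ x, ‖x‖ ^ 2 ∂μ := by
  refine (variance_le_expectation_sq (memLp_lin hμ L).1).trans ?_
  rw [← integral_const_mul]
  refine integral_mono_of_nonneg (Eventually.of_forall fun x => sq_nonneg _)
    (hμ.integrable_sq.const_mul _) (Eventually.of_forall fun x => ?_)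
  simp only [Pi.pow_apply]
  have h1 : |L x| ≤ l * ‖x‖ := (L.le_opNorm x).trans (by gcongr)
  rw [← mul_pow, ← sq_abs]
  exact pow_le_pow_left₀ (abs_nonneg _) h1 2

/-- measurability of a variance which depends on a parameter -/
lemma measurable_var_param {P : Type*} [MeasurableSpace P] {μ : Measure E}
    [IsProbabilityMeasure μ] (hμ : MemLp (fun x : E => ‖x‖) 2 μ) (L : P → E →L[ℝ] ℝ)
    (hL : StronglyMeasurable (fun q : P × E => L q.1 q.2)) :
    StronglyMeasurable (fun p => Var[fun x => L p x; μ]) := by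
  have h1 : ∀ p, Var[fun x => L p x; μ] = ∫ x, (L p x) ^ 2 ∂μ - (∫ x, L p x ∂μ) ^ 2 := by
    intro p
    rw [variance_eq_sub (memLp_lin hμ (L p))]
    simp
  simp_rw [h1]
  have h2 : StronglyMeasurable (fun p => ∫ x, (L p x) ^ 2 ∂μ) := by
    have := (hL.pow 2).integral_prod_right' (ν := μ)
    exact this
  have h3 : StronglyMeasurable (fun p => ∫ x, (L p x) ∂μ) := hL.integral_prod_right' (ν := μ)
  exact h2.sub (h3.pow 2)

end apprd

section apprd2

variable {E₁ E₂ : Type*} [NormedAddCommGroup E₁] [NormedSpace ℝ E₁] [MeasurableSpace E₁]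
    [BorelSpace E₁] [FiniteDimensional ℝ E₁]
    [NormedAddCommGroup E₂] [NormedSpace ℝ E₂] [MeasurableSpace E₂]
    [BorelSpace E₂] [FiniteDimensional ℝ E₂]

/-- tensorisation of the affine invariant Poincare inequality -/
theorem AP.prod {μ₁ : Measure E₁} {μ₂ : Measure E₂} [IsProbabilityMeasure μ₁]
    [IsProbabilityMeasure μ₂] (m1 : MemLp (fun x : E₁ => ‖x‖) 2 μ₁)
    (m2 : MemLp (fun x : E₂ => ‖x‖) 2 μ₂) {K : ℝ}
    (a1 : AP μ₁ K) (a2 : AP μ₂ K) : AP (μ₁.prod μ₂) K := by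
  intro f hf hl
  obtain ⟨l, hl⟩ := hl
  have hl0 : 0 ≤ l := (norm_nonneg _).trans (hl 0)
  have hg := growth hf hl
  obtain ⟨A, hA⟩ : ∃ A : ℝ, A = ‖f 0‖ + l := ⟨_, rfl⟩
  rw [← hA] at hg
  have hA0 : 0 ≤ A := by rw [hA]; positivity
  have : SecondCountableTopology E₁ := inferInstance
  have : SecondCountableTopology E₂ := inferInstance
  have : OpensMeasurableSpace (E₁ × E₂) := inferInstance
  have hg2 : ∀ (x : E₁) (y : E₂), ‖f (x, y)‖ ≤ A * (1 + ‖x‖ + ‖y‖) := by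
    intro x y
    refine (hg (x, y)).trans ?_
    apply mul_le_mul_of_nonneg_left _ hA0
    have : ‖((x, y) : E₁ × E₂)‖ ≤ ‖x‖ + ‖y‖ := by
      rw [Prod.norm_mk]
      exact max_le (by linarith [norm_nonneg y]) (by linarith [norm_nonneg x])
    linarith
  have hf2 : MemLp f 2 (μ₁.prod μ₂) := by
    have e0 : MemLp (fun _ : E₁ × E₂ => (1 : ℝ)) 2 (μ₁.prod μ₂) := memLp_const 1
    have e1 : MemLp (fun p : E₁ × E₂ => ‖p.1‖) 2 (μ₁.prod μ₂) := m1.comp_fst μ₂
    have e2 : MemLp (fun p : E₁ × E₂ => ‖p.2‖) 2 (μ₁.prod μ₂) := m2.comp_snd μ₁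
    have e3 : MemLp (fun p : E₁ × E₂ => (1 : ℝ) + ‖p.1‖ + ‖p.2‖) 2 (μ₁.prod μ₂) :=
      (e0.add e1).add e2
    have h1 : MemLp (fun p : E₁ × E₂ => A * (1 + ‖p.1‖ + ‖p.2‖)) 2 (μ₁.prod μ₂) :=
      e3.const_mul A
    have h3 : AEStronglyMeasurable f (μ₁.prod μ₂) := hf.continuous.aestronglyMeasurable
    have h4 : ∀ᵐ p ∂(μ₁.prod μ₂), ‖f p‖ ≤ A * (1 + ‖p.1‖ + ‖p.2‖) :=
      Eventually.of_forall fun p => hg2 p.1 p.2
    exact h1.mono' h3 h4
  have hs : ∀ y, MemLp (fun x => f (x, y)) 2 μ₁ := by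
    intro y
    have e0 : MemLp (fun _ : E₁ => (1 : ℝ)) 2 μ₁ := memLp_const 1
    have e2 : MemLp (fun _ : E₁ => ‖y‖) 2 μ₁ := memLp_const ‖y‖
    have e3 : MemLp (fun x : E₁ => (1 : ℝ) + ‖x‖ + ‖y‖) 2 μ₁ := (e0.add m1).add e2
    have h1 : MemLp (fun x : E₁ => A * (1 + ‖x‖ + ‖y‖)) 2 μ₁ := e3.const_mul A
    have h5 : Continuous (fun x => f (x, y)) := hf.continuous.comp (by fun_prop)
    exact h1.mono' h5.aestronglyMeasurable (Eventually.of_forall fun x => hg2 x y)
  have ht : ∀ x, MemLp (fun y => f (x, y)) 2 μ₂ := by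
    intro x
    have e0 : MemLp (fun _ : E₂ => (1 : ℝ)) 2 μ₂ := memLp_const 1
    have e2 : MemLp (fun _ : E₂ => ‖x‖) 2 μ₂ := memLp_const ‖x‖
    have e3 : MemLp (fun y : E₂ => (1 : ℝ) + ‖x‖ + ‖y‖) 2 μ₂ := (e0.add e2).add m2
    have h1 : MemLp (fun y : E₂ => A * (1 + ‖x‖ + ‖y‖)) 2 μ₂ := e3.const_mul A
    have h5 : Continuous (fun y => f (x, y)) := hf.continuous.comp (by fun_prop)
    exact h1.mono' h5.aestronglyMeasurable (Eventually.of_forall fun y => hg2 x y)
  have hES := efron_stein hf2 hs ht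
  -- derivatives of slices
  have hd : ∀ p, HasFDerivAt f (fderiv ℝ f p) p := fun p =>
    (hf.differentiable one_ne_zero p).hasFDerivAt
  set L₁ : E₁ × E₂ → E₁ →L[ℝ] ℝ := fun p =>
    (fderiv ℝ f p).comp (ContinuousLinearMap.inl ℝ E₁ E₂) with hL₁
  set L₂ : E₁ × E₂ → E₂ →L[ℝ] ℝ := fun p =>
    (fderiv ℝ f p).comp (ContinuousLinearMap.inr ℝ E₁ E₂) with hL₂
  have hL1n : ∀ p, ‖L₁ p‖ ≤ l := by
    intro p
    refine ContinuousLinearMap.opNorm_le_bound _ hl0 fun z => ?_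
    have h1 := (fderiv ℝ f p).le_opNorm (z, (0 : E₂))
    have h2 : ‖((z, 0) : E₁ × E₂)‖ = ‖z‖ := by simp [Prod.norm_mk]
    rw [h2] at h1
    exact h1.trans (by gcongr; exact hl p)
  have hL2n : ∀ p, ‖L₂ p‖ ≤ l := by
    intro p
    refine ContinuousLinearMap.opNorm_le_bound _ hl0 fun z => ?_
    have h1 := (fderiv ℝ f p).le_opNorm ((0 : E₁), z)
    have h2 : ‖((0, z) : E₁ × E₂)‖ = ‖z‖ := by simp [Prod.norm_mk]
    rw [h2] at h1
    exact h1.trans (by gcongr; exact hl p)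
  have hfd1 : ∀ x y, HasFDerivAt (fun x => f (x, y)) (L₁ (x, y)) x := fun x y =>
    (hd (x, y)).comp x (hasFDerivAt_prodMk_left x y)
  have hfd2 : ∀ x y, HasFDerivAt (fun y => f (x, y)) (L₂ (x, y)) y := fun x y =>
    (hd (x, y)).comp y (hasFDerivAt_prodMk_right x y)
  have hcd : Continuous (fderiv ℝ f) := hf.continuous_fderiv one_ne_zero
  -- the two variance functions
  have hsm1 : StronglyMeasurable (fun p => Var[fun z => L₁ p z; μ₁]) := by
    apply measurable_var_param m1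
    apply Continuous.stronglyMeasurable
    have h1 : Continuous fun q : (E₁ × E₂) × E₁ => fderiv ℝ f q.1 (q.2, 0) :=
      (hcd.comp continuous_fst).clm_apply (by fun_prop)
    exact h1
  have hsm2 : StronglyMeasurable (fun p => Var[fun z => L₂ p z; μ₂]) := by
    apply measurable_var_param m2
    apply Continuous.stronglyMeasurable
    have h1 : Continuous fun q : (E₁ × E₂) × E₂ => fderiv ℝ f q.1 (0, q.2) :=
      (hcd.comp continuous_fst).clm_apply (by fun_prop)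
    exact h1
  have hi1 : Integrable (fun p => Var[fun z => L₁ p z; μ₁]) (μ₁.prod μ₂) := by
    refine (integrable_const (l ^ 2 * ∫ x, ‖x‖ ^ 2 ∂μ₁)).mono' hsm1.aestronglyMeasurable
      (Eventually.of_forall fun p => ?_)
    rw [Real.norm_of_nonneg (variance_nonneg _ _)]
    exact var_lin_le m1 _ (hL1n p)
  have hi2 : Integrable (fun p => Var[fun z => L₂ p z; μ₂]) (μ₁.prod μ₂) := by
    refine (integrable_const (l ^ 2 * ∫ x, ‖x‖ ^ 2 ∂μ₂)).mono' hsm2.aestronglyMeasurable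
      (Eventually.of_forall fun p => ?_)
    rw [Real.norm_of_nonneg (variance_nonneg _ _)]
    exact var_lin_le m2 _ (hL2n p)
  have b1 : ∫ y, Var[fun x => f (x, y); μ₁] ∂μ₂
      ≤ K * ∫ p, Var[fun z => L₁ p z; μ₁] ∂(μ₁.prod μ₂) := by
    rw [integral_prod_symm _ hi1, ← integral_const_mul]
    refine integral_mono_of_nonneg (Eventually.of_forall fun y => variance_nonneg _ _)
      (hi1.integral_prod_right.const_mul K) (Eventually.of_forall fun y => ?_)
    have h1 := a1 (fun x => f (x, y)) (hf.comp (by fun_prop))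
      ⟨l, fun x => by rw [(hfd1 x y).fderiv]; exact hL1n _⟩
    simp_rw [(hfd1 _ y).fderiv] at h1
    exact h1
  have b2 : ∫ x, Var[fun y => f (x, y); μ₂] ∂μ₁
      ≤ K * ∫ p, Var[fun z => L₂ p z; μ₂] ∂(μ₁.prod μ₂) := by
    rw [integral_prod _ hi2, ← integral_const_mul]
    refine integral_mono_of_nonneg (Eventually.of_forall fun y => variance_nonneg _ _)
      (hi2.integral_prod_left.const_mul K) (Eventually.of_forall fun x => ?_)
    have h1 := a2 (fun y => f (x, y)) (hf.comp (by fun_prop))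
      ⟨l, fun y => by rw [(hfd2 x y).fderiv]; exact hL2n _⟩
    simp_rw [(hfd2 x _).fderiv] at h1
    exact h1
  have hv : ∀ p, Var[fun z => fderiv ℝ f p z; μ₁.prod μ₂]
      = Var[fun z => L₁ p z; μ₁] + Var[fun z => L₂ p z; μ₂] := by
    intro p
    exact variance_dual_prod' (L := fderiv ℝ f p) (memLp_lin m1 (L₁ p)) (memLp_lin m2 (L₂ p))
  simp_rw [hv]
  rw [integral_add hi1 hi2, mul_add]
  linarith

end apprd2

section prod

variable {E₁ E₂ : Type*} [NormedAddCommGroup E₁] [NormedSpace ℝ E₁] [MeasureSpace E₁]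
    [BorelSpace E₁] [FiniteDimensional ℝ E₁] [(volume : Measure E₁).IsAddHaarMeasure]
    [NormedAddCommGroup E₂] [NormedSpace ℝ E₂] [MeasureSpace E₂]
    [BorelSpace E₂] [FiniteDimensional ℝ E₂] [(volume : Measure E₂).IsAddHaarMeasure]

lemma gibbs_prod {φ₁ : E₁ → ℝ} {φ₂ : E₂ → ℝ} (h1 : Nice φ₁) (h2 : Nice φ₂) :
    gibbs (fun p : E₁ × E₂ => φ₁ p.1 + φ₂ p.2) = (gibbs φ₁).prod (gibbs φ₂) := by
  have hm1 : Measurable fun x : E₁ => ENNReal.ofReal (Real.exp (-φ₁ x)) :=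
    ENNReal.measurable_ofReal.comp (Real.continuous_exp.comp h1.continuous.neg).measurable
  have hm2 : Measurable fun x : E₂ => ENNReal.ofReal (Real.exp (-φ₂ x)) :=
    ENNReal.measurable_ofReal.comp (Real.continuous_exp.comp h2.continuous.neg).measurable
  have he : ∀ p : E₁ × E₂, ENNReal.ofReal (Real.exp (-(φ₁ p.1 + φ₂ p.2)))
      = ENNReal.ofReal (Real.exp (-φ₁ p.1)) * ENNReal.ofReal (Real.exp (-φ₂ p.2)) := by
    intro p
    rw [← ENNReal.ofReal_mul (Real.exp_pos _).le, ← Real.exp_add]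
    congr 2
    ring
  unfold gibbs
  simp_rw [he]
  rw [Measure.prod_smul_left, Measure.prod_smul_right, prod_withDensity hm1 hm2,
    ← Measure.volume_eq_prod, smul_smul]
  congr 1
  rw [← ENNReal.mul_inv (Or.inl h1.lintegral_ne_zero) (Or.inl h1.lintegral_ne_top)]
  congr 1
  rw [Measure.volume_eq_prod, lintegral_prod_mul hm1.aemeasurable hm2.aemeasurable]

omit [MeasureSpace E₂] [BorelSpace E₂] [FiniteDimensional ℝ E₂]
  [(volume : Measure E₂).IsAddHaarMeasure] [NormedAddCommGroup E₂] [NormedSpace ℝ E₂] in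
lemma gibbs_memLp_norm {φ : E₁ → ℝ} (h : Nice φ) : MemLp (fun x : E₁ => ‖x‖) 2 (gibbs φ) := by
  refine gibbs_memLp h continuous_norm.aestronglyMeasurable 1 fun x => ?_
  rw [norm_norm, one_mul]
  linarith

end prod

/-- R6a: tensorisation of the affine invariant Poincare inequality for Gibbs measures -/
theorem ap_prod {E₁ E₂ : Type} [NormedAddCommGroup E₁] [NormedSpace ℝ E₁] [MeasureSpace E₁]
    [BorelSpace E₁] [FiniteDimensional ℝ E₁] [(volume : Measure E₁).IsAddHaarMeasure]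
    [NormedAddCommGroup E₂] [NormedSpace ℝ E₂] [MeasureSpace E₂]
    [BorelSpace E₂] [FiniteDimensional ℝ E₂] [(volume : Measure E₂).IsAddHaarMeasure]
    {φ₁ : E₁ → ℝ} {φ₂ : E₂ → ℝ} (h1 : Nice φ₁) (h2 : Nice φ₂) {K : ℝ} (_hK : 0 ≤ K)
    (a1 : AP (gibbs φ₁) K) (a2 : AP (gibbs φ₂) K) :
    AP (gibbs (fun p : E₁ × E₂ => φ₁ p.1 + φ₂ p.2)) K := by
  have := gibbs_prob h1
  have := gibbs_prob h2
  rw [gibbs_prod h1 h2]
  exact AP.prod (gibbs_memLp_norm h1) (gibbs_memLp_norm h2) a1 a2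

end Pool.Agent.Lib.MP_6d896a_gt.FP
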