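import Mathlib
import Pool.Agent.Lib.MP_6d896a_gt.FP.Tensor
import Pool.Agent.Lib.MP_6d896a_gt.FP.NicePL

/-!
Induction over a rooted forest.
-/

set_option autoImplicit false

namespace Pool.Agent.Lib.MP_6d896a_gt.FP

open MeasureTheory ProbabilityTheory Set Filter
open scoped ENNReal Topology

section nice

variable {E F : Type*} [NormedAddCommGroup E] [NormedSpace ℝ E]
  [NormedAddCommGroup F] [NormedSpace ℝ F]

lemma Nice.add_const {φ : E → ℝ} (h : Nice φ) (c : ℝ) : Nice (fun x => φ x + c) := by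
  have h1 : fderiv ℝ (fun x => φ x + c) = fderiv ℝ φ := by
    ext1 x
    exact fderiv_add_const c
  refine ⟨h.cd.add contDiff_const, ?_, ?_, ?_⟩
  · rw [h1]; exact h.bd
  · rw [h1]; exact h.lip
  · obtain ⟨κ, hκ, hsc⟩ := h.sc
    exact ⟨κ, hκ, fun x y => by have := hsc x y; linarith⟩

end nice

section transport

variable {E F : Type*} [NormedAddCommGroup E] [NormedSpace ℝ E]
  [NormedAddCommGroup F] [NormedSpace ℝ F]

/-- the affine invariant Poincare inequality is invariant under linear equivalences -/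
lemma AP.map [MeasurableSpace E] [BorelSpace E] [MeasurableSpace F] [BorelSpace F]
    {μ : Measure E} {K : ℝ} (h : AP μ K) (e : E ≃L[ℝ] F) : AP (μ.map e) K := by
  intro f hf hl
  obtain ⟨l, hl⟩ := hl
  have hl0 : 0 ≤ l := (norm_nonneg _).trans (hl 0)
  set me : E ≃ᵐ F := e.toHomeomorph.toMeasurableEquiv with hme
  have hco : (me : E → F) = e := rfl
  have hd : ∀ x, HasFDerivAt (fun x => f (e x)) ((fderiv ℝ f (e x)).comp (e : E →L[ℝ] F)) x := by
    intro x
    have h1 : HasFDerivAt f (fderiv ℝ f (e x)) (e x) :=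
      (hf.differentiable one_ne_zero _).hasFDerivAt
    exact h1.comp x (e : E →L[ℝ] F).hasFDerivAt
  have h1 := h (fun x => f (e x)) (hf.comp e.contDiff)
    ⟨l * ‖(e : E →L[ℝ] F)‖, fun x => by
      rw [(hd x).fderiv]
      refine (ContinuousLinearMap.opNorm_comp_le _ _).trans ?_
      gcongr
      exact hl _⟩
  simp_rw [(hd _).fderiv] at h1
  have h2 : ∀ g : F → ℝ, Var[g; μ.map e] = Var[g ∘ e; μ] := by
    intro g
    rw [← hco]
    exact variance_map_equiv g me
  rw [h2]
  simp_rw [h2]
  rw [← hco, integral_map_equiv]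
  exact h1

omit [NormedAddCommGroup E] [NormedSpace ℝ E] [NormedAddCommGroup F] [NormedSpace ℝ F] in
/-- Gibbs measures and measure preserving equivalences -/
lemma gibbs_map [MeasureSpace E] [MeasureSpace F]
    (e : E ≃ᵐ F) (he : MeasurePreserving e) {φ : F → ℝ} :
    (gibbs (fun x => φ (e x))).map e = gibbs φ := by
  unfold gibbs
  ext s hs
  rw [Measure.map_apply e.measurable hs, Measure.smul_apply, Measure.smul_apply,
    withDensity_apply _ (e.measurable hs), withDensity_apply _ hs,
    he.setLIntegral_comp_preimage_emb e.measurableEmbedding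
      (fun x => ENNReal.ofReal (Real.exp (-φ x))) s,
    he.lintegral_comp_emb e.measurableEmbedding (fun x => ENNReal.ofReal (Real.exp (-φ x)))]

lemma AP.of_equiv [MeasureSpace E] [BorelSpace E] [MeasureSpace F] [BorelSpace F]
    (e : E ≃L[ℝ] F) (he : MeasurePreserving e (volume : Measure E) (volume : Measure F))
    {φ : E → ℝ} {K : ℝ} (h : AP (gibbs (fun y => φ (e.symm y))) K) : AP (gibbs φ) K := by
  set me : E ≃ᵐ F := e.toHomeomorph.toMeasurableEquiv with hme
  have h1 : MeasurePreserving me.symm (volume : Measure F) (volume : Measure E) :=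
    MeasurePreserving.symm me he
  have h2 : (gibbs (fun y => φ (e.symm y))).map e.symm = gibbs φ := gibbs_map me.symm h1
  rw [← h2]
  exact h.map e.symm

end transport

section split

variable {V : Type} [Fintype V]

/-- splitting the coordinates in two groups -/
noncomputable def splitL (p : V → Prop) [DecidablePred p] :
    (V → ℝ) ≃L[ℝ] ({v // p v} → ℝ) × ({v // ¬ p v} → ℝ) :=
  LinearEquiv.toContinuousLinearEquiv
    { Equiv.piEquivPiSubtypeProd p (fun _ => ℝ) with
      map_add' := fun _ _ => rfl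
      map_smul' := fun _ _ => rfl }

lemma splitL_symm_apply (p : V → Prop) [DecidablePred p]
    (z : ({v // p v} → ℝ) × ({v // ¬ p v} → ℝ)) (v : V) :
    (splitL p).symm z v = if h : p v then z.1 ⟨v, h⟩ else z.2 ⟨v, h⟩ := rfl

lemma splitL_mp (p : V → Prop) [DecidablePred p] :
    MeasurePreserving (splitL p) (volume : Measure (V → ℝ))
      (volume : Measure (({v // p v} → ℝ) × ({v // ¬ p v} → ℝ))) :=
  volume_preserving_piEquivPiSubtypeProd (fun _ => ℝ) p

/-- splitting off one coordinate -/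
noncomputable def splitR [DecidableEq V] (r : V) : (V → ℝ) ≃L[ℝ] ℝ × ({v // ¬ v = r} → ℝ) :=
  LinearEquiv.toContinuousLinearEquiv
    { toFun := fun x => (x r, fun v => x v)
      invFun := fun z v => if h : v = r then z.1 else z.2 ⟨v, h⟩
      map_add' := fun _ _ => rfl
      map_smul' := fun _ _ => rfl
      left_inv := fun x => by
        ext v
        by_cases h : v = r
        · subst h; simp
        · simp [h]
      right_inv := fun z => by
        apply Prod.ext
        · simp
        · ext v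
          simp [v.2] }

lemma splitR_symm_apply [DecidableEq V] (r : V) (z : ℝ × ({v // ¬ v = r} → ℝ)) (v : V) :
    (splitR r).symm z v = if h : v = r then z.1 else z.2 ⟨v, h⟩ := rfl

omit [Fintype V] in
lemma funUnique_mp [i : Fintype V] [Unique V] :
    MeasurePreserving (MeasurableEquiv.funUnique V ℝ) (volume : Measure (V → ℝ))
      (volume : Measure ℝ) := by
  have h : i = Unique.fintype := Subsingleton.elim _ _
  subst h
  exact volume_preserving_funUnique V ℝ

lemma splitR_mp [DecidableEq V] (r : V) :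
    MeasurePreserving (splitR r) (volume : Measure (V → ℝ))
      (volume : Measure (ℝ × ({v // ¬ v = r} → ℝ))) := by
  have h1 := volume_preserving_piEquivPiSubtypeProd (fun _ : V => ℝ) (fun v => v = r)
  have h2 := (@funUnique_mp {v // v = r} (Subtype.fintype _) _).prod
    (MeasurePreserving.id (volume : Measure ({v // ¬ v = r} → ℝ)))
  have h3 : MeasurePreserving ((Prod.map (MeasurableEquiv.funUnique {v // v = r} ℝ) id) ∘
    (MeasurableEquiv.piEquivPiSubtypeProd (fun _ : V => ℝ) (fun v => v = r)))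
    (volume : Measure (V → ℝ)) (volume : Measure (ℝ × ({v // ¬ v = r} → ℝ))) :=
    MeasurePreserving.comp h2 h1
  exact h3

end split

section forest

lemma AP.of_isEmpty {V : Type} [Fintype V] [IsEmpty V] {φ : (V → ℝ) → ℝ} (h : Nice φ) {K : ℝ}
    (hK : 0 ≤ K) : AP (gibbs φ) K := by
  have := gibbs_prob h
  intro f _ _
  have h1 : f = fun _ => f 0 := by
    ext x
    rw [Subsingleton.elim x 0]
  have h2 : Var[f; gibbs φ] = 0 := by
    rw [h1, variance_eq_integral aemeasurable_const]
    simp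
  rw [h2]
  exact mul_nonneg hK (integral_nonneg fun x => variance_nonneg _ _)

lemma Anc.sub {V : Type} {anc : V → Finset V} (h : Anc anc) (p : V → Prop) [DecidablePred p] :
    Anc (fun v : {v // p v} => (anc v).subtype p) := by
  refine ⟨fun v => ?_, fun u v huv => ?_, fun u w v hu hw => ?_⟩
  · rw [Finset.mem_subtype]
    exact h.self v
  · rw [Finset.mem_subtype] at huv
    intro w hw
    rw [Finset.mem_subtype] at hw ⊢
    exact h.trans _ _ huv hw
  · rw [Finset.mem_subtype] at hu hw ⊢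
    rw [Finset.mem_subtype]
    exact h.chain _ _ _ hu hw

variable {V : Type} [Fintype V]

lemma splitL_left_ext (p : V → Prop) [DecidablePred p]
    (z : ({v // p v} → ℝ) × ({v // ¬ p v} → ℝ)) (v : V) (hv : p v) :
    (splitL p).symm z v = (splitL p).symm (z.1, 0) v := by
  rw [splitL_symm_apply, splitL_symm_apply, dif_pos hv, dif_pos hv]

lemma splitL_right_ext (p : V → Prop) [DecidablePred p]
    (z : ({v // p v} → ℝ) × ({v // ¬ p v} → ℝ)) (v : V) (hv : ¬ p v) :
    (splitL p).symm z v = (splitL p).symm (0, z.2) v := by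
  rw [splitL_symm_apply, splitL_symm_apply, dif_neg hv, dif_neg hv]

lemma split_sum {anc : V → Finset V} (p : V → Prop) [DecidablePred p]
    (hp1 : ∀ v, p v → ∀ w ∈ anc v, p w) (hp2 : ∀ v, ¬ p v → ∀ w ∈ anc v, ¬ p w)
    {φ : V → (V → ℝ) → ℝ} (hdep : ∀ v, DepOn (φ v) (anc v))
    (z : ({v // p v} → ℝ) × ({v // ¬ p v} → ℝ)) :
    ∑ v, φ v ((splitL p).symm z) = (∑ v : {v // p v}, φ v ((splitL p).symm (z.1, 0)))
      + ∑ v : {v // ¬ p v}, φ v ((splitL p).symm (0, z.2)) := by
  rw [← Fintype.sum_subtype_add_sum_subtype p]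
  congr 1
  · refine Finset.sum_congr rfl fun v _ => ?_
    exact hdep v _ _ fun w hw => splitL_left_ext p z w (hp1 v v.2 w hw)
  · refine Finset.sum_congr rfl fun v _ => ?_
    exact hdep v _ _ fun w hw => splitL_right_ext p z w (hp2 v v.2 w hw)

lemma nice_left {anc : V → Finset V} (p : V → Prop) [DecidablePred p]
    (hp1 : ∀ v, p v → ∀ w ∈ anc v, p w) (hp2 : ∀ v, ¬ p v → ∀ w ∈ anc v, ¬ p w)
    {φ : V → (V → ℝ) → ℝ} (hdep : ∀ v, DepOn (φ v) (anc v)) (hn : Nice (fun x => ∑ v, φ v x)) :
    Nice (fun x : {v // p v} → ℝ => ∑ v : {v // p v}, φ v ((splitL p).symm (x, 0))) := by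
  have h1 := hn.comp_affine
    (((splitL p).symm : _ →L[ℝ] (V → ℝ)).comp
      (ContinuousLinearMap.inl ℝ ({v // p v} → ℝ) ({v // ¬ p v} → ℝ)))
    ((ContinuousLinearMap.fst ℝ ({v // p v} → ℝ) ({v // ¬ p v} → ℝ)).comp
      (splitL p : (V → ℝ) →L[ℝ] _))
    (fun z => by simp) 0
  have h2 := h1.add_const (-∑ v : {v // ¬ p v}, φ v ((splitL p).symm (0, 0)))
  have h3 : (fun x : {v // p v} → ℝ => ∑ v : {v // p v}, φ v ((splitL p).symm (x, 0)))
      = (fun z : {v // p v} → ℝ => ∑ v, φ v (((splitL p).symm : _ →L[ℝ] (V → ℝ)).comp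
      (ContinuousLinearMap.inl ℝ ({v // p v} → ℝ) ({v // ¬ p v} → ℝ)) z + 0)
        + (-∑ v : {v // ¬ p v}, φ v ((splitL p).symm (0, 0)))) := by
    ext x
    have h4 := split_sum p hp1 hp2 hdep (x, 0)
    simp only [add_zero, ContinuousLinearMap.comp_apply, ContinuousLinearMap.inl_apply,
      ContinuousLinearEquiv.coe_coe]
    rw [h4]
    simp
  rw [h3]
  exact h2

lemma nice_right {anc : V → Finset V} (p : V → Prop) [DecidablePred p]
    (hp1 : ∀ v, p v → ∀ w ∈ anc v, p w) (hp2 : ∀ v, ¬ p v → ∀ w ∈ anc v, ¬ p w)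
    {φ : V → (V → ℝ) → ℝ} (hdep : ∀ v, DepOn (φ v) (anc v)) (hn : Nice (fun x => ∑ v, φ v x)) :
    Nice (fun x : {v // ¬ p v} → ℝ => ∑ v : {v // ¬ p v}, φ v ((splitL p).symm (0, x))) := by
  have h1 := hn.comp_affine
    (((splitL p).symm : _ →L[ℝ] (V → ℝ)).comp
      (ContinuousLinearMap.inr ℝ ({v // p v} → ℝ) ({v // ¬ p v} → ℝ)))
    ((ContinuousLinearMap.snd ℝ ({v // p v} → ℝ) ({v // ¬ p v} → ℝ)).comp
      (splitL p : (V → ℝ) →L[ℝ] _))
    (fun z => by simp) 0
  have h2 := h1.add_const (-∑ v : {v // p v}, φ v ((splitL p).symm (0, 0)))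
  have h3 : (fun x : {v // ¬ p v} → ℝ => ∑ v : {v // ¬ p v}, φ v ((splitL p).symm (0, x)))
      = (fun z : {v // ¬ p v} → ℝ => ∑ v, φ v (((splitL p).symm : _ →L[ℝ] (V → ℝ)).comp
      (ContinuousLinearMap.inr ℝ ({v // p v} → ℝ) ({v // ¬ p v} → ℝ)) z + 0)
        + (-∑ v : {v // p v}, φ v ((splitL p).symm (0, 0)))) := by
    ext x
    have h4 := split_sum p hp1 hp2 hdep (0, x)
    simp only [add_zero, ContinuousLinearMap.comp_apply, ContinuousLinearMap.inr_apply,
      ContinuousLinearEquiv.coe_coe]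
    rw [h4]
    simp
  rw [h3]
  exact h2

/-- potentials which split -/
lemma step_split {anc : V → Finset V} (p : V → Prop) [DecidablePred p]
    (hp1 : ∀ v, p v → ∀ w ∈ anc v, p w) (hp2 : ∀ v, ¬ p v → ∀ w ∈ anc v, ¬ p w)
    {φ : V → (V → ℝ) → ℝ} (hdep : ∀ v, DepOn (φ v) (anc v)) (hn : Nice (fun x => ∑ v, φ v x))
    {K : ℝ} (hK : 0 ≤ K)
    (ih1 : AP (gibbs (fun x : {v // p v} → ℝ =>
      ∑ v : {v // p v}, φ v ((splitL p).symm (x, 0)))) K)
    (ih2 : AP (gibbs (fun x : {v // ¬ p v} → ℝ =>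
      ∑ v : {v // ¬ p v}, φ v ((splitL p).symm (0, x)))) K) :
    AP (gibbs (fun x => ∑ v, φ v x)) K := by
  refine AP.of_equiv (splitL p) (splitL_mp p) ?_
  have h1 := ap_prod (nice_left p hp1 hp2 hdep hn) (nice_right p hp1 hp2 hdep hn) hK ih1 ih2
  have h2 : (fun y => ∑ v, φ v ((splitL p).symm y))
      = (fun z : ({v // p v} → ℝ) × ({v // ¬ p v} → ℝ) =>
      (∑ v : {v // p v}, φ v ((splitL p).symm (z.1, 0)))
      + ∑ v : {v // ¬ p v}, φ v ((splitL p).symm (0, z.2))) := by
    ext z
    exact split_sum p hp1 hp2 hdep z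
  rw [h2]
  exact h1

end forest

/-- one-dimensional extension -/
def ExtStep (C : ℝ) : Prop := ∀ (W : Type) [Fintype W] (φ : ℝ × (W → ℝ) → ℝ) (K : ℝ), 1 ≤ K →
  Nice φ → (∀ y, AP (gibbs (fun x : W → ℝ => φ (y, x))) K) → AP (gibbs φ) (C * K)

section root

variable {V : Type} [Fintype V] [DecidableEq V]

lemma nice_slice {Φ : (V → ℝ) → ℝ} (hn : Nice Φ) (r : V) (y : ℝ) :
    Nice (fun x : {v // ¬ v = r} → ℝ => Φ ((splitR r).symm (y, x))) := by
  have h1 := hn.comp_affine
    (((splitR r).symm : _ →L[ℝ] (V → ℝ)).comp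
      (ContinuousLinearMap.inr ℝ ℝ ({v // ¬ v = r} → ℝ)))
    ((ContinuousLinearMap.snd ℝ ℝ ({v // ¬ v = r} → ℝ)).comp
      (splitR r : (V → ℝ) →L[ℝ] _))
    (fun z => by simp) ((splitR r).symm (y, 0))
  have h2 : (fun x : {v // ¬ v = r} → ℝ => Φ ((splitR r).symm (y, x)))
      = (fun z : {v // ¬ v = r} → ℝ => Φ (((splitR r).symm : _ →L[ℝ] (V → ℝ)).comp
      (ContinuousLinearMap.inr ℝ ℝ ({v // ¬ v = r} → ℝ)) z + (splitR r).symm (y, 0))) := by
    ext x
    simp only [ContinuousLinearMap.comp_apply, ContinuousLinearMap.inr_apply,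
      ContinuousLinearEquiv.coe_coe]
    rw [← map_add]
    simp
  rw [h2]
  exact h1

lemma nice_splitR {Φ : (V → ℝ) → ℝ} (hn : Nice Φ) (r : V) :
    Nice (fun z : ℝ × ({v // ¬ v = r} → ℝ) => Φ ((splitR r).symm z)) := by
  have h1 := hn.comp_affine
    (((splitR r).symm : (ℝ × ({v // ¬ v = r} → ℝ)) ≃L[ℝ] (V → ℝ)) :
      (ℝ × ({v // ¬ v = r} → ℝ)) →L[ℝ] (V → ℝ))
    ((splitR r : (V → ℝ) ≃L[ℝ] (ℝ × ({v // ¬ v = r} → ℝ))) :
      (V → ℝ) →L[ℝ] (ℝ × ({v // ¬ v = r} → ℝ)))
    (fun z => by simp) 0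
  simpa using h1

/-- adding a root -/
lemma step_root {C : ℝ} (hC : 1 ≤ C) (hext : ExtStep C) {t : ℕ}
    (iht : ∀ (W : Type) [Fintype W] [DecidableEq W] (anc : W → Finset W), Anc anc →
      (∀ v, (anc v).card ≤ t) → ∀ φ : W → (W → ℝ) → ℝ, (∀ v, DepOn (φ v) (anc v)) →
      Nice (fun x => ∑ v, φ v x) → AP (gibbs (fun x => ∑ v, φ v x)) (C ^ t))
    {anc : V → Finset V} (hanc : Anc anc) (hcard : ∀ v, (anc v).card ≤ t + 1)
    {r : V} (hr : ∀ v, r ∈ anc v)
    {φ : V → (V → ℝ) → ℝ} (hdep : ∀ v, DepOn (φ v) (anc v)) (hn : Nice (fun x => ∑ v, φ v x)) :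
    AP (gibbs (fun x => ∑ v, φ v x)) (C ^ (t + 1)) := by
  refine AP.of_equiv (splitR r) (splitR_mp r) ?_
  rw [pow_succ, mul_comm]
  have hCt : 1 ≤ C ^ t := one_le_pow₀ hC
  refine hext {v // ¬ v = r} _ (C ^ t) hCt (nice_splitR hn r) fun y => ?_
  have hns := nice_slice hn r y
  rcases isEmpty_or_nonempty {v // ¬ v = r} with hW | hW
  · exact AP.of_isEmpty hns (by linarith)
  -- the vertex which receives the potential of the root
  obtain ⟨w₀, hw₀⟩ : ∃ w₀ : {v // ¬ v = r}, ∀ u ∈ anc r, u ≠ r → u ∈ anc w₀ := by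
    by_cases h : ∃ u ∈ anc r, u ≠ r
    · obtain ⟨u, hu, hur⟩ := h
      refine ⟨⟨u, hur⟩, fun w hw _ => ?_⟩
      exact hanc.trans r u (hr u) hw
    · push Not at h
      obtain ⟨w⟩ := hW
      exact ⟨w, fun u hu hur => absurd (h u hu) hur⟩
  set ψ : {v // ¬ v = r} → (({v // ¬ v = r} → ℝ) → ℝ) := fun w x =>
    φ w ((splitR r).symm (y, x)) + (if w = w₀ then φ r ((splitR r).symm (y, x)) else 0) with hψ
  have hsum : (fun x : {v // ¬ v = r} → ℝ => ∑ v, φ v ((splitR r).symm (y, x)))
      = fun x => ∑ w, ψ w x := by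
    ext x
    rw [hψ]
    simp only
    rw [Finset.sum_add_distrib, Finset.sum_ite_eq' Finset.univ w₀]
    rw [if_pos (Finset.mem_univ _), Fintype.sum_eq_add_sum_subtype_ne _ r, add_comm]
  rw [hsum] at hns ⊢
  -- agreement of extensions
  have hagree : ∀ (S : Finset V) (T : Finset {v // ¬ v = r}), (∀ u ∈ S, ∀ h : ¬ u = r,
      (⟨u, h⟩ : {v // ¬ v = r}) ∈ T) → ∀ x x' : {v // ¬ v = r} → ℝ, (∀ w ∈ T, x w = x' w) →
      ∀ u ∈ S, (splitR r).symm (y, x) u = (splitR r).symm (y, x') u := by
    intro S T hST x x' hx u hu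
    rw [splitR_symm_apply, splitR_symm_apply]
    by_cases h : u = r
    · rw [dif_pos h, dif_pos h]
    · rw [dif_neg h, dif_neg h]
      exact hx _ (hST u hu h)
  refine iht {v // ¬ v = r} (fun v => (anc v).subtype (fun v => ¬ v = r))
    (hanc.sub _) (fun v => ?_) ψ (fun w => ?_) hns
  · rw [Finset.card_subtype]
    have h1 : ((anc v).filter (fun v => ¬ v = r)).card < (anc v).card := by
      apply Finset.card_lt_card
      rw [Finset.filter_ssubset]
      exact ⟨r, hr v, by simp⟩
    have h2 := hcard v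
    omega
  · intro x x' hx
    rw [hψ]
    simp only
    congr 1
    · apply hdep w
      refine hagree (anc w) _ (fun u hu h => ?_) x x' hx
      rw [Finset.mem_subtype]
      exact hu
    · by_cases hw : w = w₀
      · rw [if_pos hw, if_pos hw]
        apply hdep r
        refine hagree (anc r) _ (fun u hu h => ?_) x x' hx
        rw [Finset.mem_subtype, hw]
        exact hw₀ u hu h
      · rw [if_neg hw, if_neg hw]

end root

/-- R6b: induction over a rooted forest -/
theorem forest {C : ℝ} (hC : 1 ≤ C) (hext : ExtStep C) : ∀ (t : ℕ) (V : Type) [Fintype V]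
    [DecidableEq V] (anc : V → Finset V), Anc anc → (∀ v, (anc v).card ≤ t) →
    ∀ φ : V → (V → ℝ) → ℝ, (∀ v, DepOn (φ v) (anc v)) → Nice (fun x => ∑ v, φ v x) →
      AP (gibbs (fun x => ∑ v, φ v x)) (C ^ t) := by
  intro t
  induction t with
  | zero =>
    intro V _ _ anc hanc hcard φ hdep hn
    have hV : IsEmpty V := by
      refine ⟨fun v => ?_⟩
      have h1 := hcard v
      have h2 := Finset.card_pos.2 ⟨v, hanc.self v⟩
      omega
    exact AP.of_isEmpty hn (by positivity)
  | succ t iht =>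
    have hC0 : 0 ≤ C ^ (t + 1) := by positivity
    have key : ∀ (n : ℕ) (V : Type) [Fintype V] [DecidableEq V] (anc : V → Finset V), Anc anc →
        Fintype.card V ≤ n → (∀ v, (anc v).card ≤ t + 1) →
        ∀ φ : V → (V → ℝ) → ℝ, (∀ v, DepOn (φ v) (anc v)) → Nice (fun x => ∑ v, φ v x) →
          AP (gibbs (fun x => ∑ v, φ v x)) (C ^ (t + 1)) := by
      intro n
      induction n with
      | zero =>
        intro V _ _ anc hanc hVn hcard φ hdep hn
        have hV : IsEmpty V := Fintype.card_eq_zero_iff.1 (Nat.le_zero.1 hVn)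
        exact AP.of_isEmpty hn hC0
      | succ n ihn =>
        intro V _ _ anc hanc hVn hcard φ hdep hn
        rcases isEmpty_or_nonempty V with hV | hV
        · exact AP.of_isEmpty hn hC0
        obtain ⟨v₀⟩ := hV
        obtain ⟨r, hr0, hrmin⟩ := Finset.exists_min_image (anc v₀) (fun u => (anc u).card)
          ⟨v₀, hanc.self v₀⟩
        -- minimality
        have hmin : ∀ w ∈ anc r, r ∈ anc w := by
          intro w hw
          have h1 : anc w ⊆ anc r := hanc.trans w r hw
          have h2 : w ∈ anc v₀ := hanc.trans r v₀ hr0 hw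
          have h3 := Finset.eq_of_subset_of_card_le h1 (hrmin w h2)
          rw [h3]
          exact hanc.self r
        by_cases hall : ∀ v, r ∈ anc v
        · exact step_root hC hext (fun W => iht W) hanc hcard hall hdep hn
        push Not at hall
        obtain ⟨v₁, hv₁⟩ := hall
        have hp1 : ∀ v, r ∈ anc v → ∀ w ∈ anc v, r ∈ anc w := by
          intro v hv w hw
          rcases hanc.chain r w v hv hw with h | h
          · exact h
          · exact hmin w h
        have hp2 : ∀ v, ¬ r ∈ anc v → ∀ w ∈ anc v, ¬ r ∈ anc w := by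
          intro v hv w hw h
          exact hv (hanc.trans w v hw h)
        have hc1 : Fintype.card {v // r ∈ anc v} ≤ n := by
          have := Fintype.card_subtype_lt (p := fun v => r ∈ anc v) hv₁
          omega
        have hc2 : Fintype.card {v // ¬ r ∈ anc v} ≤ n := by
          have := Fintype.card_subtype_lt (p := fun v => ¬ r ∈ anc v) (x := r)
            (not_not.2 (hanc.self r))
          omega
        have hcd : ∀ (p : V → Prop) [DecidablePred p] (v : {v // p v}),
            ((anc v).subtype p).card ≤ t + 1 := by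
          intro p _ v
          rw [Finset.card_subtype]
          exact (Finset.card_filter_le _ _).trans (hcard v)
        refine step_split (fun v => r ∈ anc v) hp1 hp2 hdep hn hC0 ?_ ?_
        · refine ihn {v // r ∈ anc v} (fun v => (anc v).subtype (fun v => r ∈ anc v))
            (hanc.sub _) hc1 (hcd _)
            (fun v x => φ v ((splitL (fun v => r ∈ anc v)).symm (x, 0))) (fun v => ?_)
            (nice_left (fun v => r ∈ anc v) hp1 hp2 hdep hn)
          intro x x' hx
          apply hdep v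
          intro w hw
          have hw2 := hp1 v v.2 w hw
          rw [splitL_symm_apply, splitL_symm_apply, dif_pos hw2, dif_pos hw2]
          apply hx
          rw [Finset.mem_subtype]
          exact hw
        · refine ihn {v // ¬ r ∈ anc v} (fun v => (anc v).subtype (fun v => ¬ r ∈ anc v))
            (hanc.sub _) hc2 (hcd _)
            (fun v x => φ v ((splitL (fun v => r ∈ anc v)).symm (0, x))) (fun v => ?_)
            (nice_right (fun v => r ∈ anc v) hp1 hp2 hdep hn)
          intro x x' hx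
          apply hdep v
          intro w hw
          have hw2 := hp2 v v.2 w hw
          rw [splitL_symm_apply, splitL_symm_apply, dif_neg hw2, dif_neg hw2]
          apply hx
          rw [Finset.mem_subtype]
          exact hw
    intro V _ _ anc hanc hcard φ hdep hn
    exact key (Fintype.card V) V anc hanc le_rfl hcard φ hdep hn

end Pool.Agent.Lib.MP_6d896a_gt.FP
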