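import Mathlib
import Pool.Agent.Lib.MP_6d896a_gt.FP.ApproxNC

/-!
Statements of the section principle and of the perturbation principle.
-/

set_option autoImplicit false

namespace Pool.Agent.Lib.MP_6d896a_gt.FP

open MeasureTheory ProbabilityTheory Set Filter
open scoped ENNReal Topology

/-- statement of the section principle (S5) -/
def SecStep (C : ℝ) : Prop := ∀ (F : Type) [NormedAddCommGroup F] [NormedSpace ℝ F]
    [MeasureSpace F] [BorelSpace F] [FiniteDimensional ℝ F]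
    [(volume : Measure F).IsAddHaarMeasure] (φ : ℝ × F → ℝ) (K : ℝ), 1 ≤ K → Nice φ →
    (∀ lam : ℝ, AP (gibbs (fun p => φ p - lam * p.1)) K) →
    ∀ u, AP (gibbs (fun x => φ (u, x))) (C * K)

/-- statement of S6 -/
def RankPert (C : ℝ) (k : ℕ) : Prop := ∀ (W : Type) [Fintype W] (Φ ψ : (W → ℝ) → ℝ)
      (b : Fin k → (W → ℝ) →L[ℝ] ℝ) (K : ℝ), 1 ≤ K → Nice Φ → NC ψ → ConvexOn ℝ univ ψ →
      (∀ x y, (∀ j, b j x = b j y) → ψ x = ψ y) →
      (∀ L : (W → ℝ) →L[ℝ] ℝ, AP (gibbs (fun x => Φ x - L x)) K) →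
      AP (gibbs (fun x => Φ x + ψ x)) (C * K)

end Pool.Agent.Lib.MP_6d896a_gt.FP
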