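import Mathlib
import Pool.Agent.Lib.MP_6d896a_gt.FP.ForestInd
import Pool.Agent.Lib.MP_6d896a_gt.FP.Approx
import Pool.Agent.Lib.MP_6d896a_gt.FP.RankDefs

/-!
Hierarchical potentials: each term depends on the coordinates of the ancestors and on finitely many
linear functionals of the comparable coordinates.
-/

set_option autoImplicit false

namespace Pool.Agent.Lib.MP_6d896a_gt.FP

open MeasureTheory ProbabilityTheory Set Filter
open scoped ENNReal Topology

section nc

variable {E F : Type*} [NormedAddCommGroup E] [NormedSpace ℝ E]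
  [NormedAddCommGroup F] [NormedSpace ℝ F]

lemma NC.compH {φ : E → ℝ} (h : NC φ) (A : F →L[ℝ] E) (b : E) :
    NC (fun z => φ (A z + b)) := by
  set T : (E →L[ℝ] ℝ) →L[ℝ] (F →L[ℝ] ℝ) := (ContinuousLinearMap.compL ℝ F E ℝ).flip A with hT
  have hA : ∀ z, HasFDerivAt (fun z => A z + b) A z := fun z => A.hasFDerivAt.add_const b
  have hd1 : ∀ z, HasFDerivAt (fun z => φ (A z + b)) (T (fderiv ℝ φ (A z + b))) z := by
    intro z
    have h1 : HasFDerivAt φ (fderiv ℝ φ (A z + b)) (A z + b) :=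
      (h.1.differentiable (by norm_num) _).hasFDerivAt
    exact h1.comp z (hA z)
  have hf1 : fderiv ℝ (fun z => φ (A z + b)) = fun z => T (fderiv ℝ φ (A z + b)) := by
    ext1 z
    exact (hd1 z).fderiv
  have hcd1 : ContDiff ℝ 1 (fderiv ℝ φ) := h.1.fderiv_right (by norm_num)
  have hd2 : ∀ z, HasFDerivAt (fun z => T (fderiv ℝ φ (A z + b)))
      (T.comp ((fderiv ℝ (fderiv ℝ φ) (A z + b)).comp A)) z := by
    intro z
    have h1 : HasFDerivAt (fderiv ℝ φ) (fderiv ℝ (fderiv ℝ φ) (A z + b)) (A z + b) :=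
      (hcd1.differentiable (by norm_num) _).hasFDerivAt
    exact T.hasFDerivAt.comp z (h1.comp z (hA z))
  have hf2 : ∀ z, fderiv ℝ (fderiv ℝ (fun z => φ (A z + b))) z
      = T.comp ((fderiv ℝ (fderiv ℝ φ) (A z + b)).comp A) := by
    intro z
    rw [hf1]
    exact (hd2 z).fderiv
  have hn : ∀ D : E →L[ℝ] (E →L[ℝ] ℝ), ‖T.comp (D.comp A)‖ ≤ ‖T‖ * (‖D‖ * ‖A‖) := by
    intro D
    refine (ContinuousLinearMap.opNorm_comp_le _ _).trans ?_
    gcongr
    exact ContinuousLinearMap.opNorm_comp_le _ _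
  obtain ⟨C, hC0, hC1, hC2⟩ := h.2
  refine ⟨h.1.comp (by fun_prop), ‖T‖ * (C * ‖A‖) + ‖T‖ * (C * ‖A‖ * ‖A‖), by positivity,
    fun z => ?_, fun x y => ?_⟩
  · rw [hf2]
    refine (hn _).trans ?_
    have h1 : ‖T‖ * (‖fderiv ℝ (fderiv ℝ φ) (A z + b)‖ * ‖A‖) ≤ ‖T‖ * (C * ‖A‖) := by
      gcongr
      exact hC1 _
    have h2 : 0 ≤ ‖T‖ * (C * ‖A‖ * ‖A‖) := by positivity
    linarith
  · rw [hf2, hf2]
    have h1 : T.comp ((fderiv ℝ (fderiv ℝ φ) (A x + b)).comp A)
        - T.comp ((fderiv ℝ (fderiv ℝ φ) (A y + b)).comp A)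
        = T.comp ((fderiv ℝ (fderiv ℝ φ) (A x + b) - fderiv ℝ (fderiv ℝ φ) (A y + b)).comp A) := by
      rw [ContinuousLinearMap.sub_comp, ContinuousLinearMap.comp_sub]
    rw [h1]
    refine (hn _).trans ?_
    have h2 : ‖fderiv ℝ (fderiv ℝ φ) (A x + b) - fderiv ℝ (fderiv ℝ φ) (A y + b)‖
        ≤ C * (‖A‖ * ‖x - y‖) := by
      refine (hC2 _ _).trans ?_
      have h3 : (A x + b) - (A y + b) = A (x - y) := by
        rw [map_sub]; abel
      rw [h3]
      gcongr
      exact A.le_opNorm (x - y)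
    calc ‖T‖ * (‖fderiv ℝ (fderiv ℝ φ) (A x + b) - fderiv ℝ (fderiv ℝ φ) (A y + b)‖ * ‖A‖)
        ≤ ‖T‖ * ((C * (‖A‖ * ‖x - y‖)) * ‖A‖) := by gcongr
      _ = ‖T‖ * (C * ‖A‖ * ‖A‖) * ‖x - y‖ := by ring
      _ ≤ (‖T‖ * (C * ‖A‖) + ‖T‖ * (C * ‖A‖ * ‖A‖)) * ‖x - y‖ := by
        gcongr
        have : 0 ≤ ‖T‖ * (C * ‖A‖) := by positivity
        linarith

lemma NC.add_constH {φ : E → ℝ} (h : NC φ) (c : ℝ) : NC (fun x => φ x + c) := by
  have h1 : fderiv ℝ (fun x => φ x + c) = fderiv ℝ φ := by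
    ext1 x
    exact fderiv_add_const c
  refine ⟨h.1.add contDiff_const, ?_⟩
  rw [h1]
  exact h.2

lemma NC.linH (L : E →L[ℝ] ℝ) : NC (fun x => L x) := by
  have h1 : fderiv ℝ (fun x => L x) = fun _ => L := by
    ext1 x
    exact L.fderiv
  have h2 : fderiv ℝ (fun _ : E => L) = fun _ => 0 := by
    ext1 x
    simp
  refine ⟨L.contDiff, ?_⟩
  rw [h1, h2]
  exact BLip.const _

lemma convexOn_compH {φ : E → ℝ} (h : ConvexOn ℝ univ φ) (A : F →L[ℝ] E) (b : E) :
    ConvexOn ℝ univ (fun z => φ (A z + b)) := by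
  refine ⟨convex_univ, fun x _ y _ s t hs ht hst => ?_⟩
  have h1 := h.2 (mem_univ (A x + b)) (mem_univ (A y + b)) hs ht hst
  have h2 : A (s • x + t • y) + b = s • (A x + b) + t • (A y + b) := by
    rw [map_add, map_smul, map_smul]
    have : b = (s + t) • b := by rw [hst, one_smul]
    nth_rewrite 1 [this]
    module
  simp only
  rw [h2]
  exact h1

end nc

section pot

variable {V : Type} [Fintype V] {ι : Type} [Fintype ι]

/-- the potential -/
def hpot (φ : ι → (V → ℝ) → ℝ) (κ : ℝ) (L : (V → ℝ) →L[ℝ] ℝ) (x : V → ℝ) : ℝ :=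
  (∑ i, φ i x + κ * ∑ v, x v ^ 2) - L x

lemma hpot_nice {φ : ι → (V → ℝ) → ℝ} {κ : ℝ} (hκ : 0 < κ) (hφ : ∀ i, NC (φ i))
    (hc : ∀ i, ConvexOn ℝ univ (φ i)) (L : (V → ℝ) →L[ℝ] ℝ) : Nice (hpot φ κ L) := by
  have e : hpot φ κ L = fun x => (∑ i, φ i x + κ * ∑ v, x v ^ 2) + (-L) x := by
    ext x
    simp [hpot, sub_eq_add_neg]
  rw [e]
  refine NC.nice (((NC.sum _ fun i _ => hφ i).add (NC.const_mul (NC.sum _ fun w _ =>
    NC.sq (ContinuousLinearMap.proj (R := ℝ) (φ := fun _ : V => ℝ) w)) _)).add (NC.linH _)) ?_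
  refine ⟨κ / 4, by positivity, fun x y => ?_⟩
  have h1 : ∀ i, φ i ((1 / 2 : ℝ) • (x + y)) ≤ (φ i x + φ i y) / 2 := by
    intro i
    have h0 : (0 : ℝ) ≤ 1 / 2 := by norm_num
    have := (hc i).2 (mem_univ x) (mem_univ y) h0 h0 (by norm_num)
    rw [← smul_add] at this
    simp only [smul_eq_mul] at this
    linarith
  have h2 := Finset.sum_le_sum fun i (_ : i ∈ Finset.univ) => h1 i
  rw [← Finset.sum_div, Finset.sum_add_distrib] at h2
  have h3 : ‖x - y‖ ^ 2 ≤ ∑ v, (x v - y v) ^ 2 := by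
    classical
    have := norm_sq_le_sum (x - y)
    simpa only [Pi.sub_apply] using this
  have h4 : ∑ w, ((1 / 2 : ℝ) • (x + y)) w ^ 2 + 1 / 4 * ∑ w, (x w - y w) ^ 2 =
      (∑ w, x w ^ 2 + ∑ w, y w ^ 2) / 2 := by
    rw [← Finset.sum_add_distrib, Finset.mul_sum, ← Finset.sum_add_distrib, Finset.sum_div]
    refine Finset.sum_congr rfl fun w _ => ?_
    simp only [Pi.smul_apply, Pi.add_apply, smul_eq_mul]
    ring
  have h5 : (-L) ((1 / 2 : ℝ) • (x + y)) = ((-L) x + (-L) y) / 2 := by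
    rw [map_smul, map_add, smul_eq_mul]; ring
  have h6 := mul_le_mul_of_nonneg_left h3 hκ.le
  have h7 : κ * ∑ w, ((1 / 2 : ℝ) • (x + y)) w ^ 2 + κ / 4 * ∑ w, (x w - y w) ^ 2 =
      (κ * ∑ w, x w ^ 2 + κ * ∑ w, y w ^ 2) / 2 := by
    linear_combination κ * h4
  rw [h5]
  simp only [Pi.smul_apply] at *
  linarith

end pot

section add

variable {E : Type*} [NormedAddCommGroup E] [NormedSpace ℝ E]

lemma Nice.ncH {φ : E → ℝ} (h : Nice φ) : NC φ := by
  obtain ⟨C, hC⟩ := h.bd
  obtain ⟨D, hD⟩ := h.lip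
  refine ⟨h.cd, |C| + |D|, by positivity, fun x => (hC x).trans ?_, fun x y => (hD x y).trans ?_⟩
  · have := le_abs_self C
    have := abs_nonneg D
    linarith
  · gcongr
    have := le_abs_self D
    have := abs_nonneg C
    linarith

lemma Nice.add_convexH {φ ψ : E → ℝ} (h : Nice φ) (hψ : NC ψ) (hc : ConvexOn ℝ univ ψ) :
    Nice (fun x => φ x + ψ x) := by
  refine NC.nice (h.ncH.add hψ) ?_
  obtain ⟨κ, hκ, hsc⟩ := h.sc
  refine ⟨κ, hκ, fun x y => ?_⟩
  have h0 : (0 : ℝ) ≤ 1 / 2 := by norm_num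
  have h1 := hc.2 (mem_univ x) (mem_univ y) h0 h0 (by norm_num)
  rw [← smul_add] at h1
  simp only [smul_eq_mul] at h1
  have h2 := hsc x y
  linarith

end add

section rank

variable {Cr : ℝ} {k : ℕ}

/-- several perturbations -/
lemma rank_iter (hCr : 1 ≤ Cr) (hrank : RankPert Cr k) {W : Type} [Fintype W] {ι : Type}
    {Φ : (W → ℝ) → ℝ} (hΦ : Nice Φ) {ψ : ι → (W → ℝ) → ℝ} (hnc : ∀ i, NC (ψ i))
    (hcv : ∀ i, ConvexOn ℝ univ (ψ i)) (b : ι → Fin k → (W → ℝ) →L[ℝ] ℝ)
    (hdep : ∀ i x y, (∀ j, b i j x = b i j y) → ψ i x = ψ i y) {K : ℝ} (hK : 1 ≤ K)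
    (hAP : ∀ L : (W → ℝ) →L[ℝ] ℝ, AP (gibbs (fun x => Φ x - L x)) K) (J : Finset ι) :
    ∀ L : (W → ℝ) →L[ℝ] ℝ,
      AP (gibbs (fun x => Φ x + ∑ i ∈ J, ψ i x - L x)) (Cr ^ J.card * K) := by
  classical
  induction J using Finset.induction_on with
  | empty =>
    intro L
    simpa using hAP L
  | insert i J hi ih =>
    intro L
    rw [Finset.card_insert_of_notMem hi, pow_succ', mul_assoc]
    have hnice : Nice (fun x => (Φ x + ∑ i ∈ J, ψ i x) + (-L) x) := by
      refine Nice.add_convexH (Nice.add_convexH hΦ (NC.sum _ fun i _ => hnc i) ?_) (NC.linH _) ?_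
      · refine ⟨convex_univ, fun x _ y _ s t hs ht hst => ?_⟩
        simp only [smul_eq_mul]
        rw [Finset.mul_sum, Finset.mul_sum, ← Finset.sum_add_distrib]
        exact Finset.sum_le_sum fun i _ => (hcv i).2 (mem_univ x) (mem_univ y) hs ht hst
      · refine ⟨convex_univ, fun x _ y _ s t hs ht hst => ?_⟩
        rw [map_add, map_smul, map_smul]
    have hcr : 1 ≤ Cr ^ J.card := one_le_pow₀ hCr
    have := hrank W (fun x => (Φ x + ∑ i ∈ J, ψ i x) + (-L) x) (ψ i) (b i) (Cr ^ J.card * K)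
      (by nlinarith) hnice (hnc i) (hcv i) (hdep i) (by
        intro L'
        have h1 := ih (L + L')
        have e : (fun x => (Φ x + ∑ i ∈ J, ψ i x) + (-L) x - L' x) =
            fun x => Φ x + ∑ i ∈ J, ψ i x - (L + L') x := by
          ext x
          simp only [_root_.neg_apply, _root_.add_apply]
          ring
        rw [e]
        exact h1)
    have e : (fun x => Φ x + ∑ i ∈ insert i J, ψ i x - L x) =
        fun x => (Φ x + ∑ i ∈ J, ψ i x) + (-L) x + ψ i x := by
      ext x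
      rw [Finset.sum_insert hi]
      simp only [_root_.neg_apply]
      ring
    rw [e]
    exact this

end rank

section ext

variable {V : Type}

/-- extension by zero -/
noncomputable def extz (p : V → Prop) [DecidablePred p] : ({v // p v} → ℝ) →L[ℝ] (V → ℝ) :=
  ContinuousLinearMap.pi (fun v => if h : p v then
    ContinuousLinearMap.proj (R := ℝ) (φ := fun _ : {v // p v} => ℝ) ⟨v, h⟩ else 0)

lemma extz_apply (p : V → Prop) [DecidablePred p] (z : {v // p v} → ℝ) (v : V) :
    extz p z v = if h : p v then z ⟨v, h⟩ else 0 := by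
  unfold extz
  rw [ContinuousLinearMap.pi_apply]
  by_cases h : p v
  · rw [dif_pos h, dif_pos h]; rfl
  · rw [dif_neg h, dif_neg h]; rfl

lemma extz_pos {p : V → Prop} [DecidablePred p] (z : {v // p v} → ℝ) {v : V} (h : p v) :
    extz p z v = z ⟨v, h⟩ := by
  rw [extz_apply, dif_pos h]

lemma extz_neg {p : V → Prop} [DecidablePred p] (z : {v // p v} → ℝ) {v : V} (h : ¬ p v) :
    extz p z v = 0 := by
  rw [extz_apply, dif_neg h]

lemma extz_single [DecidableEq V] (p : V → Prop) [DecidablePred p] (w : {v // p v}) :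
    extz p (Pi.single w 1) = Pi.single w.1 1 := by
  ext v
  rw [extz_apply]
  by_cases h : p v
  · rw [dif_pos h]
    by_cases hw : v = w.1
    · subst hw
      simp
    · rw [Pi.single_eq_of_ne hw, Pi.single_eq_of_ne]
      intro h2
      exact hw (congrArg Subtype.val h2)
  · rw [dif_neg h]
    have : v ≠ w.1 := fun h2 => h (h2 ▸ w.2)
    rw [Pi.single_eq_of_ne this]

lemma lin_zeroH [Fintype V] [DecidableEq V] (f : (V → ℝ) →L[ℝ] ℝ) {x : V → ℝ}
    (h : ∀ w, f (Pi.single w 1) ≠ 0 → x w = 0) : f x = 0 := by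
  have e : x = ∑ w, x w • (Pi.single w 1 : V → ℝ) := by
    ext v
    simp [Finset.sum_apply, Pi.single_apply]
  rw [e, map_sum]
  refine Finset.sum_eq_zero fun w _ => ?_
  rw [map_smul]
  by_cases hw : f (Pi.single w 1) = 0
  · rw [hw, smul_zero]
  · rw [h w hw, zero_smul]

end ext

section tree

/-- hierarchical data -/
structure HData {V ι : Type} [Fintype V] [DecidableEq V] (k : ℕ) (anc : V → Finset V) (a : ι → V)
    (B : ι → Fin k → (V → ℝ) →L[ℝ] ℝ) (φ : ι → (V → ℝ) → ℝ) : Prop where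
  supp : ∀ i j w, B i j (Pi.single w 1) ≠ 0 → a i ∈ anc w ∨ w ∈ anc (a i)
  nc : ∀ i, NC (φ i)
  cv : ∀ i, ConvexOn ℝ univ (φ i)
  dep : ∀ i x y, (∀ u ∈ anc (a i), x u = y u) → (∀ j, B i j x = B i j y) → φ i x = φ i y

variable {V ι : Type} [Fintype V] [DecidableEq V] {k : ℕ} {anc : V → Finset V} {a : ι → V}
    {B : ι → Fin k → (V → ℝ) →L[ℝ] ℝ} {φ : ι → (V → ℝ) → ℝ}

lemma HData.restrict (H : HData k anc a B φ) (p : V → Prop) [DecidablePred p] (b : V → ℝ) :
    HData k (fun v : {v // p v} => (anc v).subtype p)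
      (fun i : {i // p (a i)} => (⟨a i, i.2⟩ : {v // p v}))
      (fun i j => (B i j).comp (extz p)) (fun i z => φ i (extz p z + b)) := by
  refine ⟨fun i j w hw => ?_, fun i => (H.nc i).compH (extz p) b,
    fun i => convexOn_compH (H.cv i) (extz p) b, fun i x y h1 h2 => ?_⟩
  · rw [ContinuousLinearMap.comp_apply, extz_single] at hw
    rcases H.supp i j w hw with h | h
    · exact Or.inl (by rw [Finset.mem_subtype]; exact h)
    · exact Or.inr (by rw [Finset.mem_subtype]; exact h)
  · apply H.dep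
    · intro u hu
      simp only [Pi.add_apply]
      by_cases hp : p u
      · rw [extz_pos x hp, extz_pos y hp, h1 ⟨u, hp⟩ (by rw [Finset.mem_subtype]; exact hu)]
      · rw [extz_neg x hp, extz_neg y hp]
    · intro j
      have := h2 j
      simp only [ContinuousLinearMap.comp_apply] at this
      rw [map_add, map_add, this]

omit [DecidableEq V] in
lemma splitL_symm_eq (p : V → Prop) [DecidablePred p]
    (z : ({v // p v} → ℝ) × ({v // ¬ p v} → ℝ)) :
    (splitL p).symm z = extz p z.1 + extz (fun v => ¬ p v) z.2 := by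
  ext v
  rw [splitL_symm_apply, Pi.add_apply]
  by_cases h : p v
  · rw [dif_pos h, extz_pos _ h, extz_neg (p := fun v => ¬ p v) _ (not_not.2 h), add_zero]
  · rw [dif_neg h, extz_neg _ h, extz_pos (p := fun v => ¬ p v) _ h, zero_add]

/-- decomposition of the potential -/
lemma hpot_split [Fintype ι] (H : HData k anc a B φ) (p : V → Prop) [DecidablePred p]
    (h1 : ∀ v, p v → ∀ w ∈ anc v, p w) (h2 : ∀ v, ¬ p v → ∀ w ∈ anc v, ¬ p w) (κ : ℝ)
    (L : (V → ℝ) →L[ℝ] ℝ) (z : ({v // p v} → ℝ) × ({v // ¬ p v} → ℝ)) :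
    hpot φ κ L ((splitL p).symm z) =
      hpot (fun (i : {i // p (a i)}) z => φ i (extz p z + 0)) κ (L.comp (extz p)) z.1 +
      hpot (fun (i : {i // ¬ p (a i)}) z => φ i (extz (fun v => ¬ p v) z + 0)) κ
        (L.comp (extz (fun v => ¬ p v))) z.2 := by
  have e := splitL_symm_eq p z
  have hL : L ((splitL p).symm z) = L (extz p z.1) + L (extz (fun v => ¬ p v) z.2) := by
    rw [e, map_add]
  have hsq : ∑ v, ((splitL p).symm z) v ^ 2 = ∑ v, z.1 v ^ 2 + ∑ v, z.2 v ^ 2 := by
    rw [← Fintype.sum_subtype_add_sum_subtype p]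
    congr 1
    · refine Finset.sum_congr rfl fun v _ => ?_
      rw [splitL_symm_apply, dif_pos v.2]
    · refine Finset.sum_congr rfl fun v _ => ?_
      rw [splitL_symm_apply, dif_neg v.2]
  have hφ : ∑ i, φ i ((splitL p).symm z) = ∑ i : {i // p (a i)}, φ i (extz p z.1 + 0) +
      ∑ i : {i // ¬ p (a i)}, φ i (extz (fun v => ¬ p v) z.2 + 0) := by
    rw [← Fintype.sum_subtype_add_sum_subtype (fun i => p (a i))]
    congr 1
    · refine Finset.sum_congr rfl fun i _ => ?_
      rw [add_zero]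
      apply H.dep
      · intro u hu
        have hp := h1 _ i.2 u hu
        rw [splitL_symm_apply, dif_pos hp, extz_pos _ hp]
      · intro j
        rw [e, map_add]
        have : B i j (extz (fun v => ¬ p v) z.2) = 0 := by
          apply lin_zeroH
          intro w hw
          apply extz_neg
          rw [not_not]
          rcases H.supp i j w hw with h | h
          · by_contra hc
            exact h2 w hc _ h i.2
          · exact h1 _ i.2 w h
        rw [this, add_zero]
    · refine Finset.sum_congr rfl fun i _ => ?_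
      rw [add_zero]
      apply H.dep
      · intro u hu
        have hp := h2 _ i.2 u hu
        rw [splitL_symm_apply, dif_neg hp, extz_pos (p := fun v => ¬ p v) _ hp]
      · intro j
        rw [e, map_add]
        have : B i j (extz p z.1) = 0 := by
          apply lin_zeroH
          intro w hw
          apply extz_neg
          rcases H.supp i j w hw with h | h
          · intro hc
            exact i.2 (h1 w hc _ h)
          · exact h2 _ i.2 w h
        rw [this, zero_add]
  unfold hpot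
  rw [hL, hsq, hφ]
  simp only [ContinuousLinearMap.comp_apply]
  ring

lemma splitR_symm_eq (r : V) (y : ℝ) (x : {v // ¬ v = r} → ℝ) :
    (splitR r).symm (y, x) = extz (fun v => ¬ v = r) x + Pi.single r y := by
  ext v
  rw [splitR_symm_apply, Pi.add_apply]
  by_cases h : v = r
  · subst h
    rw [dif_pos rfl, extz_neg (p := fun w => ¬ w = v) _ (not_not.2 rfl), zero_add,
      Pi.single_eq_same]
  · rw [dif_neg h, extz_pos (p := fun v => ¬ v = r) _ h, Pi.single_eq_of_ne h, add_zero]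

/-- the potential with one coordinate fixed -/
lemma hpot_root [Fintype ι] (r : V) (κ : ℝ) (L : (V → ℝ) →L[ℝ] ℝ) (y : ℝ)
    (x : {v // ¬ v = r} → ℝ) :
    hpot φ κ L ((splitR r).symm (y, x)) =
      (hpot (fun (i : {i // ¬ a i = r}) z => φ i (extz (fun v => ¬ v = r) z + Pi.single r y)) κ 0 x
        + ∑ i : {i // a i = r}, φ i (extz (fun v => ¬ v = r) x + Pi.single r y)
        - (L.comp (extz (fun v => ¬ v = r))) x) + (κ * y ^ 2 - L (Pi.single r y)) := by
  have e := splitR_symm_eq r y x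
  have hsq : ∑ v, ((splitR r).symm (y, x)) v ^ 2 = y ^ 2 + ∑ v, x v ^ 2 := by
    rw [Fintype.sum_eq_add_sum_subtype_ne _ r]
    congr 1
    · rw [splitR_symm_apply, dif_pos rfl]
    · refine Finset.sum_congr rfl fun v _ => ?_
      rw [splitR_symm_apply, dif_neg v.2]
  unfold hpot
  rw [hsq, e, map_add, ← Fintype.sum_subtype_add_sum_subtype (fun i => a i = r)]
  simp only [ContinuousLinearMap.comp_apply, _root_.zero_apply]
  ring

end tree

section main

/-- hierarchical statement for antisymmetric ancestor sets and several terms per vertex -/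
def GH (Ce Cr : ℝ) (k n : ℕ) : Prop := ∀ (V ι : Type) [Fintype V] [DecidableEq V] [Fintype ι]
  [DecidableEq ι] (anc : V → Finset V) (a : ι → V) (t s : ℕ), Fintype.card V ≤ n → Anc anc →
  (∀ u v, u ∈ anc v → v ∈ anc u → u = v) → (∀ v, (anc v).card ≤ t) →
  (∀ v (S : Finset ι), (∀ i ∈ S, a i ∈ anc v) → S.card ≤ s) →
  ∀ (B : ι → Fin k → (V → ℝ) →L[ℝ] ℝ) (φ : ι → (V → ℝ) → ℝ), HData k anc a B φ →
  ∀ κ : ℝ, 0 < κ → ∀ L : (V → ℝ) →L[ℝ] ℝ, AP (gibbs (hpot φ κ L)) (Ce ^ t * Cr ^ s)

variable {Ce Cr : ℝ} {k : ℕ}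

lemma gh_root (hCe : 1 ≤ Ce) (hext : ExtStep Ce) (hCr : 1 ≤ Cr) (hrank : RankPert Cr k) {n : ℕ}
    (ih : GH Ce Cr k n) {V ι : Type} [Fintype V] [DecidableEq V] [Fintype ι] [DecidableEq ι]
    {anc : V → Finset V} {a : ι → V} {t s : ℕ} (hn : Fintype.card V ≤ n + 1) (hanc : Anc anc)
    (hanti : ∀ u v, u ∈ anc v → v ∈ anc u → u = v) (ht : ∀ v, (anc v).card ≤ t)
    (hs : ∀ v (S : Finset ι), (∀ i ∈ S, a i ∈ anc v) → S.card ≤ s)
    {B : ι → Fin k → (V → ℝ) →L[ℝ] ℝ} {φ : ι → (V → ℝ) → ℝ} (H : HData k anc a B φ)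
    {κ : ℝ} (hκ : 0 < κ) (L : (V → ℝ) →L[ℝ] ℝ) {r : V} (hr : ∀ v, r ∈ anc v) :
    AP (gibbs (hpot φ κ L)) (Ce ^ t * Cr ^ s) := by
  have hancr : ∀ u ∈ anc r, u = r := fun u hu => hanti u r hu (hr u)
  -- the numbers
  obtain ⟨t', rfl⟩ : ∃ t', t = t' + 1 := by
    have h1 := ht r
    have h2 := Finset.card_pos.2 ⟨r, hanc.self r⟩
    exact ⟨t - 1, by omega⟩
  set m := (Finset.univ : Finset {i // a i = r}).card with hm
  have hJ : ∀ (v : V), ∀ i ∈ (Finset.univ : Finset {i // a i = r}).map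
      (Function.Embedding.subtype _), a i ∈ anc v := by
    intro v i hi
    rw [Finset.mem_map] at hi
    obtain ⟨j, _, rfl⟩ := hi
    change a j.1 ∈ anc v
    rw [j.2]
    exact hr v
  obtain ⟨s', rfl⟩ : ∃ s', s = s' + m := by
    have h1 := hs r _ (hJ r)
    rw [Finset.card_map] at h1
    exact ⟨s - m, by omega⟩
  refine AP.of_equiv (splitR r) (splitR_mp r) ?_
  have hK' : 1 ≤ Ce ^ t' * Cr ^ s' := by
    have h1 : 1 ≤ Ce ^ t' := one_le_pow₀ hCe
    have h2 : 1 ≤ Cr ^ s' := one_le_pow₀ hCr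
    nlinarith
  have hcm : 1 ≤ Cr ^ m := one_le_pow₀ hCr
  have hK : Ce ^ (t' + 1) * Cr ^ (s' + m) = Ce * (Cr ^ m * (Ce ^ t' * Cr ^ s')) := by
    rw [pow_succ, pow_add]; ring
  rw [hK]
  refine hext {v // ¬ v = r} _ _ (by nlinarith) (nice_splitR (hpot_nice hκ H.nc H.cv L) r)
    fun y => ?_
  -- the fibre
  have hH := H.restrict (fun v => ¬ v = r) (Pi.single r y)
  have hAP : ∀ L' : ({v // ¬ v = r} → ℝ) →L[ℝ] ℝ, AP (gibbs (fun x =>
      hpot (fun (i : {i // ¬ a i = r}) z => φ i (extz (fun v => ¬ v = r) z + Pi.single r y)) κ 0 x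
        - L' x)) (Ce ^ t' * Cr ^ s') := by
    intro L'
    have h1 := ih {v // ¬ v = r} {i // ¬ a i = r} (fun v => (anc v).subtype (fun v => ¬ v = r))
      (fun i => ⟨a i, i.2⟩) t' s' (by
        have := Fintype.card_subtype_lt (p := fun v => ¬ v = r) (x := r) (not_not.2 rfl)
        omega) (hanc.sub _) (by
        intro u v hu hv
        rw [Finset.mem_subtype] at hu hv
        exact Subtype.ext (hanti _ _ hu hv)) (by
        intro v
        rw [Finset.card_subtype]
        have h1 : ((anc v).filter (fun v => ¬ v = r)).card < (anc v).card := by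
          apply Finset.card_lt_card
          rw [Finset.filter_ssubset]
          exact ⟨r, hr v, by simp⟩
        have h2 := ht v
        omega) (by
        intro v S hS
        have h1 := hs v.1 (S.map (Function.Embedding.subtype _) ∪
          (Finset.univ : Finset {i // a i = r}).map (Function.Embedding.subtype _)) (by
            intro i hi
            rw [Finset.mem_union] at hi
            rcases hi with hi | hi
            · rw [Finset.mem_map] at hi
              obtain ⟨j, hj, rfl⟩ := hi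
              have := hS j hj
              rw [Finset.mem_subtype] at this
              exact this
            · exact hJ v.1 i hi)
        rw [Finset.card_union_of_disjoint, Finset.card_map, Finset.card_map] at h1
        · omega
        · rw [Finset.disjoint_left]
          intro i hi hi'
          rw [Finset.mem_map] at hi hi'
          obtain ⟨j, _, rfl⟩ := hi
          obtain ⟨j', _, hj'⟩ := hi'
          have h3 : a j'.1 = r := j'.2
          have h4 : j'.1 = j.1 := hj'
          rw [h4] at h3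
          exact j.2 h3) _ _ hH κ hκ L'
    have e : (fun x => hpot (fun (i : {i // ¬ a i = r}) z =>
        φ i (extz (fun v => ¬ v = r) z + Pi.single r y)) κ 0 x - L' x) =
        hpot (fun (i : {i // ¬ a i = r}) z =>
          φ i (extz (fun v => ¬ v = r) z + Pi.single r y)) κ L' := by
      ext x
      simp [hpot]
    rw [e]
    exact h1
  have hn0 : Nice (hpot (fun (i : {i // ¬ a i = r}) z =>
      φ i (extz (fun v => ¬ v = r) z + Pi.single r y)) κ 0) := hpot_nice hκ hH.nc hH.cv 0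
  have key := rank_iter hCr hrank hn0
    (ψ := fun (i : {i // a i = r}) z => φ i (extz (fun v => ¬ v = r) z + Pi.single r y))
    (fun i => (H.nc i).compH (extz (fun v => ¬ v = r)) (Pi.single r y))
    (fun i => convexOn_compH (H.cv i) (extz (fun v => ¬ v = r)) (Pi.single r y))
    (fun i j => (B i j).comp (extz (fun v => ¬ v = r))) (by
      intro i x x' hx
      apply H.dep
      · intro u hu
        rw [i.2] at hu
        rw [hancr u hu, Pi.add_apply, Pi.add_apply,
          extz_neg (p := fun v => ¬ v = r) _ (not_not.2 rfl),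
          extz_neg (p := fun v => ¬ v = r) _ (not_not.2 rfl)]
      · intro j
        have := hx j
        simp only [ContinuousLinearMap.comp_apply] at this
        rw [map_add, map_add, this]) hK' hAP Finset.univ (L.comp (extz (fun v => ¬ v = r)))
  have e : (fun x : {v // ¬ v = r} → ℝ => hpot φ κ L ((splitR r).symm (y, x))) = fun x =>
      (hpot (fun (i : {i // ¬ a i = r}) z => φ i (extz (fun v => ¬ v = r) z + Pi.single r y)) κ 0 x
        + ∑ i : {i // a i = r}, φ i (extz (fun v => ¬ v = r) x + Pi.single r y)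
        - (L.comp (extz (fun v => ¬ v = r))) x) + (κ * y ^ 2 - L (Pi.single r y)) := by
    ext x
    exact hpot_root r κ L y x
  rw [e, gibbs_add_const]
  exact key

theorem gh (hCe : 1 ≤ Ce) (hext : ExtStep Ce) (hCr : 1 ≤ Cr) (hrank : RankPert Cr k) (n : ℕ) :
    GH Ce Cr k n := by
  induction n with
  | zero =>
    intro V ι _ _ _ _ anc a t s hn hanc hanti ht hs B φ H κ hκ L
    have hV : IsEmpty V := Fintype.card_eq_zero_iff.1 (Nat.le_zero.1 hn)
    exact AP.of_isEmpty (hpot_nice hκ H.nc H.cv L) (by positivity)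
  | succ n ih =>
    intro V ι _ _ _ _ anc a t s hn hanc hanti ht hs B φ H κ hκ L
    rcases isEmpty_or_nonempty V with hV | hV
    · exact AP.of_isEmpty (hpot_nice hκ H.nc H.cv L) (by positivity)
    obtain ⟨v₀⟩ := hV
    obtain ⟨r, hr0, hrmin⟩ := Finset.exists_min_image (anc v₀) (fun u => (anc u).card)
      ⟨v₀, hanc.self v₀⟩
    have hmin : ∀ w ∈ anc r, w = r := by
      intro w hw
      have h1 : anc w ⊆ anc r := hanc.trans w r hw
      have h2 : w ∈ anc v₀ := hanc.trans r v₀ hr0 hw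
      have h3 := Finset.eq_of_subset_of_card_le h1 (hrmin w h2)
      refine hanti w r hw ?_
      rw [h3]
      exact hanc.self r
    by_cases hall : ∀ v, r ∈ anc v
    · exact gh_root hCe hext hCr hrank ih hn hanc hanti ht hs H hκ L hall
    push Not at hall
    obtain ⟨v₁, hv₁⟩ := hall
    have hp1 : ∀ v, r ∈ anc v → ∀ w ∈ anc v, r ∈ anc w := by
      intro v hv w hw
      rcases hanc.chain r w v hv hw with h | h
      · exact h
      · rw [hmin w h]
        exact hanc.self r
    have hp2 : ∀ v, ¬ r ∈ anc v → ∀ w ∈ anc v, ¬ r ∈ anc w := by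
      intro v hv w hw h
      exact hv (hanc.trans w v hw h)
    have hsub : ∀ (p : V → Prop) [DecidablePred p], Fintype.card {v // p v} ≤ n →
        ∀ L' : ({v // p v} → ℝ) →L[ℝ] ℝ,
        AP (gibbs (hpot (fun (i : {i // p (a i)}) z => φ i (extz p z + 0)) κ L'))
          (Ce ^ t * Cr ^ s) := by
      intro p _ hpn L'
      refine ih {v // p v} {i // p (a i)} (fun v => (anc v).subtype p) (fun i => ⟨a i, i.2⟩) t s
        hpn (hanc.sub _) (fun u v hu hv => ?_) (fun v => ?_) (fun v S hS => ?_) _ _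
        (H.restrict p 0) κ hκ L'
      · rw [Finset.mem_subtype] at hu hv
        exact Subtype.ext (hanti _ _ hu hv)
      · rw [Finset.card_subtype]
        exact (Finset.card_filter_le _ _).trans (ht v)
      · have h1 := hs v.1 (S.map (Function.Embedding.subtype _)) (by
          intro i hi
          rw [Finset.mem_map] at hi
          obtain ⟨j, hj, rfl⟩ := hi
          have := hS j hj
          rw [Finset.mem_subtype] at this
          exact this)
        rwa [Finset.card_map] at h1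
    have hc1 : Fintype.card {v // r ∈ anc v} ≤ n := by
      have := Fintype.card_subtype_lt (p := fun v => r ∈ anc v) hv₁
      omega
    have hc2 : Fintype.card {v // ¬ r ∈ anc v} ≤ n := by
      have := Fintype.card_subtype_lt (p := fun v => ¬ r ∈ anc v) (x := r)
        (not_not.2 (hanc.self r))
      omega
    refine AP.of_equiv (splitL (fun v => r ∈ anc v)) (splitL_mp (fun v => r ∈ anc v)) ?_
    have hH1 := H.restrict (fun v => r ∈ anc v) 0
    have hH2 := H.restrict (fun v => ¬ r ∈ anc v) 0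
    have h1 := ap_prod
      (hpot_nice hκ hH1.nc hH1.cv (L.comp (extz (fun v => r ∈ anc v))))
      (hpot_nice hκ hH2.nc hH2.cv (L.comp (extz (fun v => ¬ r ∈ anc v))))
      (K := Ce ^ t * Cr ^ s) (by positivity)
      (hsub (fun v => r ∈ anc v) hc1 (L.comp (extz (fun v => r ∈ anc v))))
      (hsub (fun v => ¬ r ∈ anc v) hc2 (L.comp (extz (fun v => ¬ r ∈ anc v))))
    have h2 : (fun y => hpot φ κ L ((splitL (fun v => r ∈ anc v)).symm y)) = fun z =>
        hpot (fun (i : {i // r ∈ anc (a i)}) z => φ i (extz (fun v => r ∈ anc v) z + 0)) κ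
          (L.comp (extz (fun v => r ∈ anc v))) z.1 +
        hpot (fun (i : {i // ¬ r ∈ anc (a i)}) z => φ i (extz (fun v => ¬ r ∈ anc v) z + 0)) κ
          (L.comp (extz (fun v => ¬ r ∈ anc v))) z.2 := by
      ext z
      exact hpot_split H (fun v => r ∈ anc v) hp1 hp2 κ L z
    rw [h2]
    exact h1

end main

/-- S7: hierarchical potentials. Each term depends on the coordinates of the ancestors and on `k`
linear functionals of the comparable coordinates. -/
theorem forestH {Ce Cr : ℝ} {k : ℕ} (hCe : 1 ≤ Ce) (hext : ExtStep Ce) (hCr : 1 ≤ Cr)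
    (hrank : RankPert Cr k) : ∀ (t : ℕ) (V : Type) [Fintype V]
    [DecidableEq V] (anc : V → Finset V), Anc anc → (∀ v, (anc v).card ≤ t) →
    ∀ B : V → Fin k → (V → ℝ) →L[ℝ] ℝ,
    (∀ v j w, B v j (Pi.single w 1) ≠ 0 → v ∈ anc w ∨ w ∈ anc v) →
    ∀ (φ : V → (V → ℝ) → ℝ) (κ : ℝ), 0 < κ → (∀ v, NC (φ v)) → (∀ v, ConvexOn ℝ univ (φ v)) →
    (∀ v x y, (∀ u ∈ anc v, x u = y u) → (∀ j, B v j x = B v j y) → φ v x = φ v y) →
      AP (gibbs (fun x => ∑ v, (φ v x + κ * x v ^ 2))) ((Ce * Cr) ^ t) := by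
  intro t V _ _ anc hanc ht B hB φ κ hκ hnc hcv hdep
  -- numbering of the vertices
  set e : V → ℕ := fun v => (Fintype.equivFin V v : ℕ) with he
  have hei : ∀ u v, e u = e v → u = v := by
    intro u v h
    exact (Fintype.equivFin V).injective (Fin.ext h)
  set anc' : V → Finset V := fun v => (anc v).filter (fun u => v ∉ anc u ∨ e u ≤ e v) with hanc'
  have hmem : ∀ u v, u ∈ anc' v ↔ u ∈ anc v ∧ (v ∉ anc u ∨ e u ≤ e v) := by
    intro u v
    rw [hanc', Finset.mem_filter]
  have hA : Anc anc' := by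
    refine ⟨fun v => ?_, fun u v huv w hw => ?_, fun u w v hu hw => ?_⟩
    · rw [hmem]
      exact ⟨hanc.self v, Or.inr le_rfl⟩
    · rw [hmem] at huv hw ⊢
      refine ⟨hanc.trans u v huv.1 hw.1, ?_⟩
      by_cases hvw : v ∈ anc w
      · right
        have h1 : v ∈ anc u := hanc.trans w u hw.1 hvw
        have h2 : u ∈ anc w := hanc.trans v w hvw huv.1
        rcases huv.2 with h3 | h3
        · exact absurd h1 h3
        · rcases hw.2 with h4 | h4
          · exact absurd h2 h4
          · exact h4.trans h3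
      · exact Or.inl hvw
    · rw [hmem] at hu hw
      by_cases h1 : u ∈ anc w
      · by_cases h2 : w ∈ anc u
        · rcases le_total (e u) (e w) with h3 | h3
          · exact Or.inl ((hmem u w).2 ⟨h1, Or.inr h3⟩)
          · exact Or.inr ((hmem w u).2 ⟨h2, Or.inr h3⟩)
        · exact Or.inl ((hmem u w).2 ⟨h1, Or.inl h2⟩)
      · rcases hanc.chain u w v hu.1 hw.1 with h2 | h2
        · exact absurd h2 h1
        · exact Or.inr ((hmem w u).2 ⟨h2, Or.inl h1⟩)
  have hanti : ∀ u v, u ∈ anc' v → v ∈ anc' u → u = v := by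
    intro u v h1 h2
    rw [hmem] at h1 h2
    rcases h1.2 with h3 | h3
    · exact absurd h2.1 h3
    · rcases h2.2 with h4 | h4
      · exact absurd h1.1 h4
      · exact hei u v (le_antisymm h3 h4)
  -- the top element of a class
  have htop : ∀ v, ∃ u, u ∈ anc v ∧ v ∈ anc u ∧ ∀ w, w ∈ anc v → v ∈ anc w → e w ≤ e u := by
    intro v
    obtain ⟨u, hu, hmax⟩ := Finset.exists_max_image ((anc v).filter (fun u => v ∈ anc u)) e
      ⟨v, Finset.mem_filter.2 ⟨hanc.self v, hanc.self v⟩⟩
    rw [Finset.mem_filter] at hu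
    exact ⟨u, hu.1, hu.2, fun w h1 h2 => hmax w (Finset.mem_filter.2 ⟨h1, h2⟩)⟩
  choose a ha1 ha2 ha3 using htop
  have haeq : ∀ v, anc (a v) = anc v := fun v =>
    Finset.Subset.antisymm (hanc.trans _ _ (ha1 v)) (hanc.trans _ _ (ha2 v))
  have haeq' : ∀ v, anc' (a v) = anc v := by
    intro v
    ext w
    rw [hmem, haeq]
    constructor
    · exact fun h => h.1
    · intro h
      refine ⟨h, ?_⟩
      by_cases h1 : a v ∈ anc w
      · right
        apply ha3 v w h
        exact hanc.trans (a v) w h1 (by rw [haeq]; exact hanc.self v)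
      · exact Or.inl h1
  have hH : HData k anc' a B φ := by
    refine ⟨fun v j w hw => ?_, hnc, hcv, fun v x y h1 h2 => ?_⟩
    · rw [haeq']
      by_cases h1 : w ∈ anc v
      · exact Or.inr h1
      · left
        rcases hB v j w hw with h2 | h2
        · rw [hmem, haeq]
          exact ⟨hanc.trans v w h2 (ha1 v), Or.inl h1⟩
        · exact absurd h2 h1
    · rw [haeq'] at h1
      exact hdep v x y h1 h2
  have key := gh hCe hext hCr hrank (Fintype.card V) V V anc' a t t le_rfl hA hanti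
    (fun v => (Finset.card_filter_le _ _).trans (ht v)) (by
      intro v S hS
      refine (Finset.card_le_card (t := anc v) fun i hi => ?_).trans (ht v)
      have h1 := (hmem _ _).1 (hS i hi)
      exact hanc.trans (a i) v h1.1 (ha2 i)) B φ hH κ hκ 0
  rw [mul_pow]
  have e : (fun x : V → ℝ => ∑ v, (φ v x + κ * x v ^ 2)) = hpot φ κ 0 := by
    ext x
    simp [hpot, Finset.sum_add_distrib, Finset.mul_sum]
  rw [e]
  exact key

end Pool.Agent.Lib.MP_6d896a_gt.FP
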