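import Mathlib
import Pool.Agent.Lib.MP_6d896a_gt.FP.NiceBasic
import Pool.Agent.Lib.MP_6d896a_gt.FP.NicePL
import Pool.Agent.Lib.MP_6d896a_gt.FP.PLm

/-!
Calculus of the marginal and the conditional measures of a nice potential on `ℝ × E`.
-/

set_option autoImplicit false

namespace Pool.Agent.Lib.MP_6d896a_gt.FP

open MeasureTheory ProbabilityTheory Set Filter
open scoped ENNReal Topology

section slice

variable {E : Type*} [NormedAddCommGroup E] [NormedSpace ℝ E] {φ : ℝ × E → ℝ}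

lemma hasFDerivAt_slice (h : Nice φ) (y : ℝ) (x : E) :
    HasFDerivAt (fun x => φ (y, x)) ((fderiv ℝ φ (y, x)).comp (ContinuousLinearMap.inr ℝ ℝ E)) x :=
  ((h.cd.differentiable (by norm_num) (y, x)).hasFDerivAt).comp x
    (hasFDerivAt_prodMk_right y x)

lemma fderiv_slice (h : Nice φ) (y : ℝ) :
    fderiv ℝ (fun x => φ (y, x)) =
      fun x => ((ContinuousLinearMap.compL ℝ E (ℝ × E) ℝ).flip (ContinuousLinearMap.inr ℝ ℝ E))
        (fderiv ℝ φ (y, x)) := by
  ext1 x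
  exact (hasFDerivAt_slice h y x).fderiv

lemma Nice.contDiff_fderiv {F : Type*} [NormedAddCommGroup F] [NormedSpace ℝ F] {ψ : F → ℝ}
    (h : Nice ψ) : ContDiff ℝ 1 (fderiv ℝ ψ) :=
  h.cd.fderiv_right (by norm_num)

lemma fderiv_fderiv_slice (h : Nice φ) (y : ℝ) (x : E) :
    fderiv ℝ (fderiv ℝ (fun x => φ (y, x))) x =
      (((ContinuousLinearMap.compL ℝ E (ℝ × E) ℝ).flip (ContinuousLinearMap.inr ℝ ℝ E)).comp
        (fderiv ℝ (fderiv ℝ φ) (y, x))).comp (ContinuousLinearMap.inr ℝ ℝ E) := by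
  rw [fderiv_slice h y]
  have h1 : HasFDerivAt (fun x => fderiv ℝ φ (y, x))
      ((fderiv ℝ (fderiv ℝ φ) (y, x)).comp (ContinuousLinearMap.inr ℝ ℝ E)) x :=
    ((h.contDiff_fderiv.differentiable (by norm_num) (y, x)).hasFDerivAt).comp x
      (hasFDerivAt_prodMk_right y x)
  exact ((ContinuousLinearMap.hasFDerivAt _).comp x h1).fderiv

/-- restriction of a nice potential to a fibre -/
lemma Nice.slice (h : Nice φ) (y : ℝ) : Nice (fun x => φ (y, x)) := by
  have e := fderiv_fderiv_slice h y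
  set P := (ContinuousLinearMap.compL ℝ E (ℝ × E) ℝ).flip (ContinuousLinearMap.inr ℝ ℝ E) with hP
  refine ⟨?_, ?_, ?_, ?_⟩
  · exact h.cd.comp (contDiff_prodMk_right y)
  · obtain ⟨C, hC⟩ := h.bd
    refine ⟨‖P‖ * C * ‖ContinuousLinearMap.inr ℝ ℝ E‖, fun x => ?_⟩
    rw [e x]
    refine (ContinuousLinearMap.opNorm_comp_le _ _).trans ?_
    gcongr
    refine (ContinuousLinearMap.opNorm_comp_le _ _).trans ?_
    gcongr
    exact hC _
  · obtain ⟨C, hC⟩ := h.lip
    refine ⟨‖P‖ * C * ‖ContinuousLinearMap.inr ℝ ℝ E‖, fun x x' => ?_⟩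
    rw [e x, e x', ← ContinuousLinearMap.sub_comp, ← ContinuousLinearMap.comp_sub]
    have h1 := hC (y, x) (y, x')
    have h2 : ‖((y, x) : ℝ × E) - (y, x')‖ = ‖x - x'‖ := by simp [Prod.norm_def]
    rw [h2] at h1
    calc _ ≤ ‖P.comp (fderiv ℝ (fderiv ℝ φ) (y, x) - fderiv ℝ (fderiv ℝ φ) (y, x'))‖ *
          ‖ContinuousLinearMap.inr ℝ ℝ E‖ := ContinuousLinearMap.opNorm_comp_le _ _
      _ ≤ (‖P‖ * ‖fderiv ℝ (fderiv ℝ φ) (y, x) - fderiv ℝ (fderiv ℝ φ) (y, x')‖) *
          ‖ContinuousLinearMap.inr ℝ ℝ E‖ := by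
        gcongr
        exact ContinuousLinearMap.opNorm_comp_le _ _
      _ ≤ (‖P‖ * (C * ‖x - x'‖)) * ‖ContinuousLinearMap.inr ℝ ℝ E‖ := by gcongr
      _ = _ := by ring
  · obtain ⟨κ, hκ, hsc⟩ := h.sc
    refine ⟨κ, hκ, fun x x' => ?_⟩
    have h1 := hsc (y, x) (y, x')
    have h2 : ‖((y, x) : ℝ × E) - (y, x')‖ = ‖x - x'‖ := by simp [Prod.norm_def]
    have h3 : (1 / 2 : ℝ) • (((y, x) : ℝ × E) + (y, x')) = (y, (1 / 2 : ℝ) • (x + x')) := by
      ext
      · simp; ring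
      · simp
    rw [h2, h3] at h1
    exact h1

end slice

section growthclass

variable {E : Type*} [NormedAddCommGroup E]

/-- polynomial growth in `x`, locally uniformly in `y` -/
def PG {G : Type*} [NormedAddCommGroup G] (F : ℝ → E → G) : Prop :=
  ∀ M : ℝ, ∃ (C : ℝ) (n : ℕ), 0 ≤ C ∧ ∀ y, |y| ≤ M → ∀ x, ‖F y x‖ ≤ C * (1 + ‖x‖) ^ n

lemma PG.mono {G G' : Type*} [NormedAddCommGroup G] [NormedAddCommGroup G'] {F : ℝ → E → G}
    {F' : ℝ → E → G'} (h : PG F) (hle : ∀ y x, ‖F' y x‖ ≤ ‖F y x‖) : PG F' := by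
  intro M
  obtain ⟨C, n, hC, hb⟩ := h M
  exact ⟨C, n, hC, fun y hy x => (hle y x).trans (hb y hy x)⟩

lemma PG.add {G : Type*} [NormedAddCommGroup G] {F F' : ℝ → E → G}
    (h : PG F) (h' : PG F') : PG (fun y x => F y x + F' y x) := by
  intro M
  obtain ⟨C, n, hC, hb⟩ := h M
  obtain ⟨C', n', hC', hb'⟩ := h' M
  refine ⟨C + C', n + n', by positivity, fun y hy x => ?_⟩
  have h0 : 1 ≤ 1 + ‖x‖ := by linarith [norm_nonneg x]
  have h1 : (1 + ‖x‖) ^ n ≤ (1 + ‖x‖) ^ (n + n') := pow_le_pow_right₀ h0 (by omega)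
  have h2 : (1 + ‖x‖) ^ n' ≤ (1 + ‖x‖) ^ (n + n') := pow_le_pow_right₀ h0 (by omega)
  calc ‖F y x + F' y x‖ ≤ ‖F y x‖ + ‖F' y x‖ := norm_add_le _ _
    _ ≤ C * (1 + ‖x‖) ^ n + C' * (1 + ‖x‖) ^ n' := add_le_add (hb y hy x) (hb' y hy x)
    _ ≤ C * (1 + ‖x‖) ^ (n + n') + C' * (1 + ‖x‖) ^ (n + n') := by gcongr
    _ = _ := by ring

lemma PG.neg {G : Type*} [NormedAddCommGroup G] {F : ℝ → E → G}
    (h : PG F) : PG (fun y x => - F y x) := h.mono fun y x => by simp

lemma PG.sub {G : Type*} [NormedAddCommGroup G] {F F' : ℝ → E → G}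
    (h : PG F) (h' : PG F') : PG (fun y x => F y x - F' y x) := by
  simpa [sub_eq_add_neg] using h.add h'.neg

lemma PG.smul {G : Type*} [NormedAddCommGroup G] [NormedSpace ℝ G] {f : ℝ → E → ℝ}
    {F : ℝ → E → G} (h : PG f) (h' : PG F) : PG (fun y x => f y x • F y x) := by
  intro M
  obtain ⟨C, n, hC, hb⟩ := h M
  obtain ⟨C', n', hC', hb'⟩ := h' M
  refine ⟨C * C', n + n', by positivity, fun y hy x => ?_⟩
  rw [norm_smul]
  calc ‖f y x‖ * ‖F y x‖ ≤ (C * (1 + ‖x‖) ^ n) * (C' * (1 + ‖x‖) ^ n') := by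
        gcongr
        · exact hb y hy x
        · exact hb' y hy x
    _ = _ := by ring

lemma PG.mul {f g : ℝ → E → ℝ} (h : PG f) (h' : PG g) : PG (fun y x => f y x * g y x) := by
  simpa using h.smul h'

/-- a continuous function of `y` alone -/
lemma PG.of_continuous {G : Type*} [NormedAddCommGroup G] {g : ℝ → G} (hg : Continuous g) :
    PG (fun (y : ℝ) (_ : E) => g y) := by
  intro M
  obtain ⟨C, hC⟩ := (isCompact_Icc (a := -M) (b := M)).exists_bound_of_continuousOn hg.continuousOn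
  refine ⟨max C 0, 0, le_max_right _ _, fun y hy x => ?_⟩
  rw [pow_zero, mul_one]
  exact (hC y (abs_le.1 hy)).trans (le_max_left _ _)

lemma PG.id : PG (fun (_ : ℝ) (x : E) => x) := by
  intro M
  refine ⟨1, 1, by norm_num, fun y _ x => ?_⟩
  rw [pow_one, one_mul]
  linarith

/-- functions with linear growth on the product -/
lemma PG.of_linear {G : Type*} [NormedAddCommGroup G] {F : ℝ → E → G} {C : ℝ}
    (h : ∀ y x, ‖F y x‖ ≤ C * (1 + ‖((y, x) : ℝ × E)‖)) : PG F := by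
  intro M
  have hC : 0 ≤ C := by
    have h1 := (norm_nonneg _).trans (h 0 0)
    have h2 : ‖((0, 0) : ℝ × E)‖ = 0 := by simp
    rw [h2] at h1
    linarith
  refine ⟨C * (1 + max M 0), 1, by positivity, fun y hy x => (h y x).trans ?_⟩
  rw [pow_one, mul_assoc]
  apply mul_le_mul_of_nonneg_left _ hC
  have h1 : ‖((y, x) : ℝ × E)‖ ≤ |y| + ‖x‖ := by
    rw [Prod.norm_def]
    exact max_le (by simp) (by simp)
  have h2 : |y| ≤ max M 0 := hy.trans (le_max_left _ _)
  have h3 : 0 ≤ max M 0 := le_max_right _ _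
  nlinarith [norm_nonneg x, mul_nonneg h3 (norm_nonneg x)]

end growthclass

section integrals

variable {E : Type*} [NormedAddCommGroup E] [NormedSpace ℝ E] [MeasureSpace E]
    [BorelSpace E] [FiniteDimensional ℝ E] [(volume : Measure E).IsAddHaarMeasure]

lemma integrable_poly_gauss {k : ℝ} (hk : 0 < k) (n : ℕ) :
    Integrable (fun x : E => (1 + ‖x‖) ^ n * Real.exp (-(k * ‖x‖ ^ 2))) := by
  obtain ⟨C, hC, hb⟩ := exp_poly_bound k hk (n + (Module.finrank ℝ E + 1))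
  have hint : Integrable (fun x : E => (1 + ‖x‖) ^ (-((Module.finrank ℝ E + 1 : ℕ) : ℝ))) :=
    integrable_one_add_norm (by push_cast; linarith)
  refine (hint.const_mul C).mono' ?_ (Eventually.of_forall fun x => ?_)
  · exact (((continuous_const.add continuous_norm).pow n).mul
      (Real.continuous_exp.comp (continuous_const.mul (continuous_norm.pow 2)).neg)).aestronglyMeasurable
  · have h0 : 0 < 1 + ‖x‖ := by positivity
    rw [Real.norm_of_nonneg (by positivity), Real.rpow_neg h0.le, Real.rpow_natCast]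
    have h1 := hb ‖x‖ (norm_nonneg x)
    rw [pow_add] at h1
    have h3 : 0 < (1 + ‖x‖) ^ (Module.finrank ℝ E + 1) := by positivity
    rw [← div_eq_mul_inv, le_div_iff₀ h3]
    calc (1 + ‖x‖) ^ n * Real.exp (-(k * ‖x‖ ^ 2)) * (1 + ‖x‖) ^ (Module.finrank ℝ E + 1)
        = (1 + ‖x‖) ^ n * (1 + ‖x‖) ^ (Module.finrank ℝ E + 1) * Real.exp (-(k * ‖x‖ ^ 2)) := by
          ring
      _ ≤ C := h1

variable {φ : ℝ × E → ℝ}

omit [MeasureSpace E] [BorelSpace E] [FiniteDimensional ℝ E]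
  [(volume : Measure E).IsAddHaarMeasure] in
/-- Gaussian domination of the density -/
lemma Nice.exp_le (h : Nice φ) : ∃ k K : ℝ, 0 < k ∧ 0 < K ∧ ∀ y x,
    Real.exp (-φ (y, x)) ≤ K * Real.exp (-(k * y ^ 2)) * Real.exp (-(k * ‖x‖ ^ 2)) := by
  obtain ⟨k, c, hk, hlow⟩ := h.quad_lower
  refine ⟨k / 2, Real.exp c, by positivity, Real.exp_pos _, fun y x => ?_⟩
  rw [← Real.exp_add, ← Real.exp_add]
  apply Real.exp_le_exp.2
  have h1 := hlow (y, x)
  have h2 : y ^ 2 ≤ ‖((y, x) : ℝ × E)‖ ^ 2 := by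
    rw [← sq_abs]
    exact pow_le_pow_left₀ (abs_nonneg _) (norm_fst_le ((y, x) : ℝ × E)) 2
  have h3 : ‖x‖ ^ 2 ≤ ‖((y, x) : ℝ × E)‖ ^ 2 :=
    pow_le_pow_left₀ (norm_nonneg _) (norm_snd_le ((y, x) : ℝ × E)) 2
  nlinarith

variable {G : Type*} [NormedAddCommGroup G] [NormedSpace ℝ G]

omit [FiniteDimensional ℝ E] [BorelSpace E] [(volume : Measure E).IsAddHaarMeasure] 
  [MeasureSpace E] in
lemma weight_bound (h : Nice φ) {F : ℝ → E → G} (hF : PG F) (M : ℝ) :
    ∃ (C : ℝ) (n : ℕ) (k : ℝ), 0 < k ∧ ∀ y, |y| ≤ M → ∀ x,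
      ‖Real.exp (-φ (y, x)) • F y x‖ ≤ C * ((1 + ‖x‖) ^ n * Real.exp (-(k * ‖x‖ ^ 2))) := by
  obtain ⟨k, K, hk, hK, hle⟩ := h.exp_le
  obtain ⟨C, n, hC, hb⟩ := hF M
  refine ⟨K * C, n, k, hk, fun y hy x => ?_⟩
  rw [norm_smul, Real.norm_of_nonneg (Real.exp_pos _).le]
  have h1 : Real.exp (-(k * y ^ 2)) ≤ 1 := by
    rw [Real.exp_le_one_iff]
    have : 0 ≤ k * y ^ 2 := by positivity
    linarith
  calc Real.exp (-φ (y, x)) * ‖F y x‖
      ≤ (K * Real.exp (-(k * y ^ 2)) * Real.exp (-(k * ‖x‖ ^ 2))) * (C * (1 + ‖x‖) ^ n) := by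
        gcongr
        · exact hle y x
        · exact hb y hy x
    _ ≤ (K * 1 * Real.exp (-(k * ‖x‖ ^ 2))) * (C * (1 + ‖x‖) ^ n) := by gcongr
    _ = _ := by ring

lemma wint_integrable (h : Nice φ) {F : ℝ → E → G} (hFc : ∀ y, Continuous (F y)) (hF : PG F)
    (y : ℝ) : Integrable (fun x => Real.exp (-φ (y, x)) • F y x) := by
  obtain ⟨C, n, k, hk, hb⟩ := weight_bound h hF |y|
  refine ((integrable_poly_gauss hk n).const_mul C).mono' ?_
    (Eventually.of_forall fun x => hb y le_rfl x)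
  exact ((Real.continuous_exp.comp ((h.slice y).continuous.neg)).smul
    (hFc y)).aestronglyMeasurable

lemma wint_continuous (h : Nice φ) {F : ℝ → E → G}
    (hFc : Continuous (fun p : ℝ × E => F p.1 p.2)) (hF : PG F) :
    Continuous (fun y => ∫ x, Real.exp (-φ (y, x)) • F y x) := by
  rw [continuous_iff_continuousAt]
  intro y₀
  obtain ⟨C, n, k, hk, hb⟩ := weight_bound h hF (|y₀| + 1)
  have hnear : ∀ᶠ y in 𝓝 y₀, |y| ≤ |y₀| + 1 := by
    filter_upwards [Metric.ball_mem_nhds y₀ (by norm_num : (0 : ℝ) < 1)] with y hy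
    rw [Metric.mem_ball, Real.dist_eq] at hy
    have := abs_sub_abs_le_abs_sub y y₀
    linarith
  have hc : Continuous (fun p : ℝ × E => Real.exp (-φ p) • F p.1 p.2) :=
    (Real.continuous_exp.comp h.continuous.neg).smul hFc
  refine continuousAt_of_dominated (bound := fun x => C * ((1 + ‖x‖) ^ n *
    Real.exp (-(k * ‖x‖ ^ 2)))) ?_ ?_ ((integrable_poly_gauss hk n).const_mul C) ?_
  · refine Eventually.of_forall fun y => ?_
    exact (hc.comp (Continuous.prodMk_right y)).aestronglyMeasurable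
  · filter_upwards [hnear] with y hy
    exact Eventually.of_forall fun x => hb y hy x
  · refine Eventually.of_forall fun x => ?_
    exact (hc.comp (Continuous.prodMk_left x)).continuousAt

/-- the derivative of the potential in the direction of the base -/
noncomputable def dA (φ : ℝ × E → ℝ) (y : ℝ) (x : E) : ℝ := fderiv ℝ φ (y, x) (1, 0)

omit [MeasureSpace E] [BorelSpace E] [FiniteDimensional ℝ E]
  [(volume : Measure E).IsAddHaarMeasure] in
lemma hasDerivAt_base (h : Nice φ) (y : ℝ) (x : E) :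
    HasDerivAt (fun t => φ (t, x)) (dA φ y x) y := by
  have h1 := ((h.cd.differentiable (by norm_num) (y, x)).hasFDerivAt).comp_hasDerivAt y
    ((hasDerivAt_id y).prodMk (hasDerivAt_const y x))
  exact h1

omit [MeasureSpace E] [BorelSpace E] [FiniteDimensional ℝ E]
  [(volume : Measure E).IsAddHaarMeasure] in
lemma Nice.fderiv_growth {F : Type*} [NormedAddCommGroup F] [NormedSpace ℝ F] {ψ : F → ℝ}
    (h : Nice ψ) : ∃ C : ℝ, 0 ≤ C ∧ ∀ p, ‖fderiv ℝ ψ p‖ ≤ C * (1 + ‖p‖) := by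
  obtain ⟨C, hC⟩ := h.bd
  have hC0 : 0 ≤ C := (norm_nonneg (fderiv ℝ (fderiv ℝ ψ) 0)).trans (hC 0)
  refine ⟨‖fderiv ℝ ψ 0‖ + C, by positivity, fun p => ?_⟩
  have h1 : ‖fderiv ℝ ψ p - fderiv ℝ ψ 0‖ ≤ C * ‖p - 0‖ :=
    Convex.norm_image_sub_le_of_norm_fderiv_le (𝕜 := ℝ) (s := univ)
      (fun y _ => h.contDiff_fderiv.differentiable (by norm_num) y) (fun y _ => hC y) convex_univ
      (mem_univ _) (mem_univ _)
  rw [sub_zero] at h1
  have h2 : ‖fderiv ℝ ψ p‖ ≤ ‖fderiv ℝ ψ p - fderiv ℝ ψ 0‖ + ‖fderiv ℝ ψ 0‖ := by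
    calc ‖fderiv ℝ ψ p‖ = ‖(fderiv ℝ ψ p - fderiv ℝ ψ 0) + fderiv ℝ ψ 0‖ := by rw [sub_add_cancel]
      _ ≤ _ := norm_add_le _ _
  nlinarith [norm_nonneg (fderiv ℝ ψ 0), norm_nonneg p,
    mul_nonneg (norm_nonneg (fderiv ℝ ψ 0)) (norm_nonneg p)]

omit [MeasureSpace E] [BorelSpace E] [FiniteDimensional ℝ E]
  [(volume : Measure E).IsAddHaarMeasure] in
/-- derivative in a direction which depends continuously on `y` -/
lemma pg_fderiv (h : Nice φ) {v : ℝ → ℝ × E} (hv : Continuous v) :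
    PG (fun y x => fderiv ℝ φ (y, x) (v y)) := by
  obtain ⟨C, hC, hb⟩ := h.fderiv_growth
  have h1 : PG (fun y (x : E) => fderiv ℝ φ (y, x)) := PG.of_linear fun y x => hb (y, x)
  have h2 : PG (fun y (x : E) => ‖v y‖ • fderiv ℝ φ (y, x)) :=
    PG.smul (PG.of_continuous hv.norm) h1
  refine h2.mono fun y x => ?_
  rw [norm_smul, norm_norm, mul_comm]
  exact ContinuousLinearMap.le_opNorm _ _

omit [MeasureSpace E] [BorelSpace E] [FiniteDimensional ℝ E]
  [(volume : Measure E).IsAddHaarMeasure] in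
lemma pg_fderiv2 (h : Nice φ) {v w : ℝ → ℝ × E} (hv : Continuous v) (hw : Continuous w) :
    PG (fun y x => fderiv ℝ (fderiv ℝ φ) (y, x) (v y) (w y)) := by
  obtain ⟨C, hC⟩ := h.bd
  have h1 : PG (fun y (_ : E) => C * ‖v y‖ * ‖w y‖) :=
    PG.of_continuous ((continuous_const.mul hv.norm).mul hw.norm)
  refine h1.mono fun y x => ?_
  have hC0 : 0 ≤ C := (norm_nonneg (fderiv ℝ (fderiv ℝ φ) 0)).trans (hC 0)
  rw [Real.norm_of_nonneg (by positivity : 0 ≤ C * ‖v y‖ * ‖w y‖)]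
  calc _ ≤ ‖fderiv ℝ (fderiv ℝ φ) (y, x) (v y)‖ * ‖w y‖ := ContinuousLinearMap.le_opNorm _ _
    _ ≤ (‖fderiv ℝ (fderiv ℝ φ) (y, x)‖ * ‖v y‖) * ‖w y‖ := by
      gcongr
      exact ContinuousLinearMap.le_opNorm _ _
    _ ≤ _ := by
      gcongr
      exact hC _

/-- differentiation under the integral sign -/
lemma wint_hasDerivAt (h : Nice φ) {F F' : ℝ → E → G} (hFc : ∀ y, Continuous (F y))
    (hFc' : ∀ y, Continuous (F' y)) (hF : PG F) (hF' : PG F')
    (hd : ∀ y x, HasDerivAt (fun t => F t x) (F' y x) y) (y₀ : ℝ) :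
    HasDerivAt (fun y => ∫ x, Real.exp (-φ (y, x)) • F y x)
      (∫ x, Real.exp (-φ (y₀, x)) • (F' y₀ x - dA φ y₀ x • F y₀ x)) y₀ := by
  have hpg : PG (fun y x => F' y x - dA φ y x • F y x) :=
    hF'.sub ((pg_fderiv h continuous_const).smul hF)
  obtain ⟨C, n, k, hk, hb⟩ := weight_bound h hpg (|y₀| + 1)
  have hs : Metric.ball y₀ 1 ∈ 𝓝 y₀ := Metric.ball_mem_nhds y₀ (by norm_num)
  have hcA : ∀ y, Continuous (fun x => dA φ y x) := by
    intro y
    exact ((h.cd.continuous_fderiv (by norm_num)).comp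
      (Continuous.prodMk_right y)).clm_apply continuous_const
  refine (hasDerivAt_integral_of_dominated_loc_of_deriv_le
    (F := fun y x => Real.exp (-φ (y, x)) • F y x)
    (F' := fun y x => Real.exp (-φ (y, x)) • (F' y x - dA φ y x • F y x))
    (bound := fun x => C * ((1 + ‖x‖) ^ n *
    Real.exp (-(k * ‖x‖ ^ 2)))) hs ?_ (wint_integrable h hFc hF y₀) ?_ ?_
    ((integrable_poly_gauss hk n).const_mul C) ?_).2
  · refine Eventually.of_forall fun y => ?_
    exact (wint_integrable h hFc hF y).1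
  · exact ((Real.continuous_exp.comp ((h.slice y₀).continuous.neg)).smul
      ((hFc' y₀).sub ((hcA y₀).smul (hFc y₀)))).aestronglyMeasurable
  · refine Eventually.of_forall fun x y hy => ?_
    apply hb y
    rw [Metric.mem_ball, Real.dist_eq] at hy
    have := abs_sub_abs_le_abs_sub y y₀
    linarith
  · refine Eventually.of_forall fun x y _ => ?_
    have h1 : HasDerivAt (fun t => Real.exp (-φ (t, x))) (Real.exp (-φ (y, x)) * (-dA φ y x)) y :=
      (hasDerivAt_base h y x).neg.exp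
    have h2 : HasDerivAt (fun t => Real.exp (-φ (t, x)) • F t x)
        (Real.exp (-φ (y, x)) • F' y x + (Real.exp (-φ (y, x)) * -dA φ y x) • F y x) y :=
      h1.smul (hd y x)
    have h3 : Real.exp (-φ (y, x)) • (F' y x - dA φ y x • F y x) =
        Real.exp (-φ (y, x)) • F' y x + (Real.exp (-φ (y, x)) * -dA φ y x) • F y x := by
      rw [smul_sub, smul_smul, mul_neg, neg_smul, sub_eq_add_neg]
    simp only [h3]
    exact h2

end integrals

section gibbsint

variable {E : Type*} [NormedAddCommGroup E] [NormedSpace ℝ E] [MeasureSpace E]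
    [BorelSpace E] [FiniteDimensional ℝ E] [(volume : Measure E).IsAddHaarMeasure]
variable {G : Type*} [NormedAddCommGroup G] [NormedSpace ℝ G]

lemma Nice.Z_pos {ψ : E → ℝ} (h : Nice ψ) : 0 < ∫ x : E, Real.exp (-ψ x) :=
  integral_exp_pos h.integrable_exp

lemma gibbs_integral {ψ : E → ℝ} (h : Nice ψ) (g : E → G) :
    ∫ x, g x ∂(gibbs ψ) = (∫ x, Real.exp (-ψ x))⁻¹ • ∫ x, Real.exp (-ψ x) • g x := by
  have hm : Measurable fun x : E => ENNReal.ofReal (Real.exp (-ψ x)) :=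
    ENNReal.measurable_ofReal.comp (Real.continuous_exp.comp h.continuous.neg).measurable
  unfold gibbs
  rw [integral_smul_measure, integral_withDensity_eq_integral_toReal_smul hm
    (Eventually.of_forall fun x => ENNReal.ofReal_lt_top)]
  simp_rw [ENNReal.toReal_ofReal (Real.exp_pos _).le]
  congr 1
  rw [ENNReal.toReal_inv, ← ofReal_integral_eq_lintegral_ofReal h.integrable_exp
    (Eventually.of_forall fun x => (Real.exp_pos _).le),
    ENNReal.toReal_ofReal h.Z_pos.le]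

/-- fibre expectation -/
noncomputable def J (φ : ℝ × E → ℝ) (F : ℝ → E → G) (y : ℝ) : G :=
  ∫ x, F y x ∂(gibbs fun x => φ (y, x))

variable {φ : ℝ × E → ℝ}

lemma J_eq (h : Nice φ) (F : ℝ → E → G) : J φ F = fun y =>
    (∫ x, Real.exp (-φ (y, x)))⁻¹ • ∫ x, Real.exp (-φ (y, x)) • F y x := by
  ext1 y
  exact gibbs_integral (h.slice y) (F y)

omit [MeasureSpace E] [BorelSpace E] [FiniteDimensional ℝ E]
  [(volume : Measure E).IsAddHaarMeasure] [NormedSpace ℝ E] in
lemma PG.one : PG (fun (_ : ℝ) (_ : E) => (1 : ℝ)) := PG.of_continuous continuous_const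

omit [MeasureSpace E] [BorelSpace E] [FiniteDimensional ℝ E]
  [(volume : Measure E).IsAddHaarMeasure] [NormedSpace ℝ E] in
lemma PG.zero : PG (fun (_ : ℝ) (_ : E) => (0 : ℝ)) := PG.of_continuous continuous_const

lemma Z_continuous (h : Nice φ) : Continuous (fun y => ∫ x, Real.exp (-φ (y, x))) := by
  have := wint_continuous h (F := fun (_ : ℝ) (_ : E) => (1 : ℝ)) continuous_const PG.one
  simpa using this

omit [MeasureSpace E] [BorelSpace E] [FiniteDimensional ℝ E]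
  [(volume : Measure E).IsAddHaarMeasure] in
lemma continuous_dA (h : Nice φ) : Continuous (fun p : ℝ × E => dA φ p.1 p.2) :=
  (h.cd.continuous_fderiv (by norm_num)).clm_apply continuous_const

omit [MeasureSpace E] [BorelSpace E] [FiniteDimensional ℝ E]
  [(volume : Measure E).IsAddHaarMeasure] in
lemma pg_dA (h : Nice φ) : PG (dA φ) := pg_fderiv h (v := fun _ => ((1, 0) : ℝ × E)) continuous_const

lemma Z_hasDerivAt (h : Nice φ) (y : ℝ) :
    HasDerivAt (fun y => ∫ x, Real.exp (-φ (y, x)))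
      (-∫ x, Real.exp (-φ (y, x)) • dA φ y x) y := by
  have := wint_hasDerivAt h (F := fun (_ : ℝ) (_ : E) => (1 : ℝ)) (F' := fun (_ : ℝ) (_ : E) => (0 : ℝ))
    (fun _ => continuous_const) (fun _ => continuous_const) PG.one PG.zero
    (fun y x => hasDerivAt_const y _) y
  simpa [integral_neg] using this

theorem J_continuous (h : Nice φ) {F : ℝ → E → G}
    (hFc : Continuous (fun p : ℝ × E => F p.1 p.2)) (hF : PG F) : Continuous (J φ F) := by
  rw [J_eq h]
  exact ((Z_continuous h).inv₀ fun y => (h.slice y).Z_pos.ne').smul (wint_continuous h hFc hF)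

theorem J_hasDerivAt (h : Nice φ) {F F' : ℝ → E → G} (hFc : ∀ y, Continuous (F y))
    (hFc' : ∀ y, Continuous (F' y)) (hF : PG F) (hF' : PG F')
    (hd : ∀ y x, HasDerivAt (fun t => F t x) (F' y x) y) (y : ℝ) :
    HasDerivAt (J φ F) (J φ F' y - (J φ (fun y x => dA φ y x • F y x) y -
      J φ (dA φ) y • J φ F y)) y := by
  have hcA : ∀ y, Continuous (fun x => dA φ y x) := fun y =>
    (continuous_dA h).comp (Continuous.prodMk_right y)
  have h1 := wint_hasDerivAt h hFc hFc' hF hF' hd y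
  have h2 := (Z_hasDerivAt h y).inv (h.slice y).Z_pos.ne'
  have h3 := h2.smul h1
  simp only [J_eq h]
  refine HasDerivAt.congr_deriv (f := fun y =>
    (∫ x, Real.exp (-φ (y, x)))⁻¹ • ∫ x, Real.exp (-φ (y, x)) • F y x) h3 ?_
  have h4 : ∫ x, Real.exp (-φ (y, x)) • (F' y x - dA φ y x • F y x) =
      (∫ x, Real.exp (-φ (y, x)) • F' y x) - ∫ x, Real.exp (-φ (y, x)) • (dA φ y x • F y x) := by
    simp_rw [smul_sub]
    exact integral_sub (wint_integrable h hFc' hF' y)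
      (wint_integrable h (F := fun y x => dA φ y x • F y x) (fun y => (hcA y).smul (hFc y))
        ((pg_dA h).smul hF) y)
  rw [h4]
  set Z := ∫ x, Real.exp (-φ (y, x)) with hZ
  have hZ0 : Z ≠ 0 := (h.slice y).Z_pos.ne'
  set a := ∫ x, Real.exp (-φ (y, x)) • dA φ y x
  set f := ∫ x, Real.exp (-φ (y, x)) • F y x
  set f' := ∫ x, Real.exp (-φ (y, x)) • F' y x
  set g := ∫ x, Real.exp (-φ (y, x)) • dA φ y x • F y x
  have e1 : (-(-a) / Z ^ 2) • f = (Z⁻¹ • a) • (Z⁻¹ • f) := by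
    rw [smul_smul, smul_eq_mul]
    congr 1
    field_simp
  simp only [Pi.inv_apply] 
  rw [e1, smul_sub]
  abel

end gibbsint

section ibp

variable {E : Type*} [NormedAddCommGroup E] [NormedSpace ℝ E]

/-- `C^1` functions with bounded derivative -/
def BG (u : E → ℝ) : Prop := ContDiff ℝ 1 u ∧ ∃ l : ℝ, ∀ x, ‖fderiv ℝ u x‖ ≤ l

lemma BG.growth {u : E → ℝ} (hu : BG u) : ∃ C : ℝ, 0 ≤ C ∧ (∀ x, ‖u x‖ ≤ C * (1 + ‖x‖)) ∧
    ∀ x, ‖fderiv ℝ u x‖ ≤ C := by
  obtain ⟨hf, l, hl⟩ := hu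
  have hl0 : 0 ≤ l := (norm_nonneg (fderiv ℝ u 0)).trans (hl 0)
  refine ⟨‖u 0‖ + l, by positivity, fun x => ?_, fun x => ?_⟩
  · have h1 : ‖u x - u 0‖ ≤ l * ‖x - 0‖ :=
      Convex.norm_image_sub_le_of_norm_fderiv_le (𝕜 := ℝ) (s := univ)
        (fun y _ => hf.differentiable one_ne_zero y) (fun y _ => hl y) convex_univ
        (mem_univ _) (mem_univ _)
    rw [sub_zero] at h1
    have h2 : ‖u x‖ ≤ ‖u x - u 0‖ + ‖u 0‖ := by
      calc ‖u x‖ = ‖(u x - u 0) + u 0‖ := by rw [sub_add_cancel]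
        _ ≤ _ := norm_add_le _ _
    nlinarith [norm_nonneg (u 0), norm_nonneg x, mul_nonneg (norm_nonneg (u 0)) (norm_nonneg x)]
  · exact (hl x).trans (by linarith [norm_nonneg (u 0)])

lemma BG.lin (ℓ : E →L[ℝ] ℝ) : BG (fun x => ℓ x) :=
  ⟨ℓ.contDiff, ‖ℓ‖, fun x => by rw [ContinuousLinearMap.fderiv]⟩

variable [MeasureSpace E] [BorelSpace E] [FiniteDimensional ℝ E]
  [(volume : Measure E).IsAddHaarMeasure]

lemma BG.memLp {ψ : E → ℝ} (h : Nice ψ) {u : E → ℝ} (hu : BG u) : MemLp u 2 (gibbs ψ) := by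
  obtain ⟨C, hC, hb, hb'⟩ := hu.growth
  exact gibbs_memLp h hu.1.continuous.aestronglyMeasurable C hb

lemma fderiv_memLp {ψ : E → ℝ} (h : Nice ψ) (v : E) :
    MemLp (fun x => fderiv ℝ ψ x v) 2 (gibbs ψ) := by
  obtain ⟨C, hC, hb⟩ := h.fderiv_growth
  refine gibbs_memLp h ((h.cd.continuous_fderiv (by norm_num)).clm_apply
    continuous_const).aestronglyMeasurable (C * ‖v‖) fun x => ?_
  calc _ ≤ ‖fderiv ℝ ψ x‖ * ‖v‖ := ContinuousLinearMap.le_opNorm _ _
    _ ≤ (C * (1 + ‖x‖)) * ‖v‖ := by gcongr; exact hb x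
    _ = _ := by ring

omit [(volume : Measure E).IsAddHaarMeasure] in
lemma wint1 {G : Type*} [NormedAddCommGroup G] [NormedSpace ℝ G] {ψ : E → ℝ} (h : Nice ψ)
    [(volume : Measure E).IsAddHaarMeasure] {F : E → G} (hF : Continuous F) (C : ℝ) (n : ℕ)
    (hb : ∀ x, ‖F x‖ ≤ C * (1 + ‖x‖) ^ n) : Integrable (fun x => Real.exp (-ψ x) • F x) := by
  refine ((h.integrable_pow n).const_mul C).mono'
    ((Real.continuous_exp.comp h.continuous.neg).smul hF).aestronglyMeasurable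
    (Eventually.of_forall fun x => ?_)
  rw [norm_smul, Real.norm_of_nonneg (Real.exp_pos _).le]
  calc Real.exp (-ψ x) * ‖F x‖ ≤ Real.exp (-ψ x) * (C * (1 + ‖x‖) ^ n) := by
        gcongr
        exact hb x
    _ = _ := by ring

/-- integration by parts -/
lemma ibp {ψ : E → ℝ} (h : Nice ψ) {u : E → ℝ} (hu : BG u) (v : E) :
    ∫ x, fderiv ℝ u x v ∂(gibbs ψ) = ∫ x, u x * fderiv ℝ ψ x v ∂(gibbs ψ) := by
  obtain ⟨C, hC, hb, hb'⟩ := hu.growth
  obtain ⟨C', hC', hψ⟩ := h.fderiv_growth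
  have hcu : Continuous (fun x => fderiv ℝ u x v) :=
    (hu.1.continuous_fderiv one_ne_zero).clm_apply continuous_const
  have hcψ : Continuous (fun x => fderiv ℝ ψ x v) :=
    (h.cd.continuous_fderiv (by norm_num)).clm_apply continuous_const
  have hg : ∀ x, HasFDerivAt (fun x => Real.exp (-ψ x))
      (Real.exp (-ψ x) • (-fderiv ℝ ψ x)) x := fun x =>
    ((h.cd.differentiable (by norm_num) x).hasFDerivAt.neg).exp
  have hg' : ∀ x, fderiv ℝ (fun x => Real.exp (-ψ x)) x v = -(Real.exp (-ψ x) * fderiv ℝ ψ x v) := by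
    intro x
    rw [(hg x).fderiv]
    simp
  have i1 : Integrable (fun x => Real.exp (-ψ x) • fderiv ℝ u x v) := by
    refine wint1 h hcu (C * ‖v‖) 0 fun x => ?_
    rw [pow_zero, mul_one]
    calc _ ≤ ‖fderiv ℝ u x‖ * ‖v‖ := ContinuousLinearMap.le_opNorm _ _
      _ ≤ C * ‖v‖ := by gcongr; exact hb' x
  have i2 : Integrable (fun x => Real.exp (-ψ x) • (u x * fderiv ℝ ψ x v)) := by
    refine wint1 h (hu.1.continuous.mul hcψ) (C * (C' * ‖v‖)) 2 fun x => ?_
    rw [norm_mul]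
    have h1 : ‖fderiv ℝ ψ x v‖ ≤ (C' * (1 + ‖x‖)) * ‖v‖ :=
      (ContinuousLinearMap.le_opNorm _ _).trans (by gcongr; exact hψ x)
    calc ‖u x‖ * ‖fderiv ℝ ψ x v‖ ≤ (C * (1 + ‖x‖)) * ((C' * (1 + ‖x‖)) * ‖v‖) := by
          gcongr
          exact hb x
      _ = _ := by ring
  have i3 : Integrable (fun x => Real.exp (-ψ x) • u x) :=
    wint1 h hu.1.continuous C 1 fun x => by rw [pow_one]; exact hb x
  have key := integral_mul_fderiv_eq_neg_fderiv_mul_of_integrable (μ := (volume : Measure E))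
    (f := u) (g := fun x => Real.exp (-ψ x)) (v := v)
    (by refine i1.congr (Eventually.of_forall fun x => ?_); simp [mul_comm])
    (by
      refine i2.neg.congr (Eventually.of_forall fun x => ?_)
      simp only [hg', Pi.neg_apply, smul_eq_mul]
      ring)
    (by refine i3.congr (Eventually.of_forall fun x => ?_); simp [mul_comm])
    (fun x _ => hu.1.differentiable one_ne_zero x) (fun x _ => (hg x).differentiableAt)
  rw [gibbs_integral h, gibbs_integral h]
  congr 1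
  have e1 : ∫ x, u x * fderiv ℝ (fun x => Real.exp (-ψ x)) x v =
      -∫ x, Real.exp (-ψ x) • (u x * fderiv ℝ ψ x v) := by
    rw [← integral_neg]
    congr 1
    ext x
    rw [hg', smul_eq_mul]
    ring
  rw [e1] at key
  have e2 := neg_injective key
  rw [e2]
  congr 1
  ext x
  rw [smul_eq_mul, mul_comm]

omit [MeasureSpace E] [BorelSpace E] [FiniteDimensional ℝ E]
  [(volume : Measure E).IsAddHaarMeasure] in
lemma BG.const (c : ℝ) : BG (fun _ : E => c) := ⟨contDiff_const, 0, fun x => by simp⟩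

lemma integral_fderiv_pot {ψ : E → ℝ} (h : Nice ψ) (v : E) :
    ∫ x, fderiv ℝ ψ x v ∂(gibbs ψ) = 0 := by
  have := ibp h (BG.const (1 : ℝ)) v
  simpa using this.symm

lemma cov_fderiv {ψ : E → ℝ} (h : Nice ψ) {u : E → ℝ} (hu : BG u) (v : E) :
    cov[u, fun x => fderiv ℝ ψ x v; gibbs ψ] = ∫ x, fderiv ℝ u x v ∂(gibbs ψ) := by
  have := gibbs_prob h
  rw [covariance_eq_sub (hu.memLp h) (fderiv_memLp h v), integral_fderiv_pot h, mul_zero, sub_zero,
    ibp h hu]
  rfl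

end ibp

section fibre

variable {E : Type*} [NormedAddCommGroup E] [NormedSpace ℝ E] {φ : ℝ × E → ℝ}

lemma fderiv_slice_apply (h : Nice φ) (y : ℝ) (x v : E) :
    fderiv ℝ (fun x => φ (y, x)) x v = fderiv ℝ φ (y, x) (0, v) := by
  rw [(hasFDerivAt_slice h y x).fderiv]
  simp

lemma hasFDerivAt_dir (h : Nice φ) (y : ℝ) (w : ℝ × E) (x : E) :
    HasFDerivAt (fun x => fderiv ℝ φ (y, x) w)
      (((fderiv ℝ (fderiv ℝ φ) (y, x)).flip w).comp (ContinuousLinearMap.inr ℝ ℝ E)) x := by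
  have h1 : HasFDerivAt (fun x => fderiv ℝ φ (y, x))
      ((fderiv ℝ (fderiv ℝ φ) (y, x)).comp (ContinuousLinearMap.inr ℝ ℝ E)) x :=
    ((h.contDiff_fderiv.differentiable (by norm_num) (y, x)).hasFDerivAt).comp x
      (hasFDerivAt_prodMk_right y x)
  have h2 := h1.clm_apply (hasFDerivAt_const w x)
  refine h2.congr_fderiv ?_
  ext v
  simp

lemma BG.dir (h : Nice φ) (y : ℝ) (w : ℝ × E) : BG (fun x => fderiv ℝ φ (y, x) w) := by
  refine ⟨?_, ?_⟩
  · exact (h.contDiff_fderiv.comp (contDiff_prodMk_right y)).clm_apply contDiff_const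
  · obtain ⟨C, hC⟩ := h.bd
    have hC0 : 0 ≤ C := (norm_nonneg (fderiv ℝ (fderiv ℝ φ) 0)).trans (hC 0)
    refine ⟨C * ‖w‖ * ‖ContinuousLinearMap.inr ℝ ℝ E‖, fun x => ?_⟩
    rw [(hasFDerivAt_dir h y w x).fderiv]
    refine (ContinuousLinearMap.opNorm_comp_le _ _).trans ?_
    gcongr
    refine (ContinuousLinearMap.le_opNorm _ _).trans ?_
    rw [ContinuousLinearMap.opNorm_flip]
    gcongr
    exact hC _

lemma fderiv_dir_apply (h : Nice φ) (y : ℝ) (w : ℝ × E) (x v : E) :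
    fderiv ℝ (fun x => fderiv ℝ φ (y, x) w) x v = fderiv ℝ (fderiv ℝ φ) (y, x) (0, v) w := by
  rw [(hasFDerivAt_dir h y w x).fderiv]
  simp

lemma snd_symm {F : Type*} [NormedAddCommGroup F] [NormedSpace ℝ F] {ψ : F → ℝ} (h : Nice ψ)
    (p v w : F) : fderiv ℝ (fderiv ℝ ψ) p v w = fderiv ℝ (fderiv ℝ ψ) p w v :=
  (h.cd.contDiffAt.isSymmSndFDerivAt (by simp)) v w

variable [MeasureSpace E] [BorelSpace E] [FiniteDimensional ℝ E]
  [(volume : Measure E).IsAddHaarMeasure]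

lemma integrable_snd (h : Nice φ) (y : ℝ) (v w : ℝ × E) :
    Integrable (fun x => fderiv ℝ (fderiv ℝ φ) (y, x) v w) (gibbs fun x => φ (y, x)) := by
  obtain ⟨C, hC⟩ := h.bd
  have hc : Continuous (fun x : E => fderiv ℝ (fderiv ℝ φ) (y, x) v w) :=
    (((h.contDiff_fderiv.continuous_fderiv (by norm_num)).comp
      (Continuous.prodMk_right y)).clm_apply continuous_const).clm_apply continuous_const
  refine gibbs_integrable (h.slice y) hc.aestronglyMeasurable (C * ‖v‖ * ‖w‖) 0 fun x => ?_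
  rw [pow_zero, mul_one]
  calc _ ≤ ‖fderiv ℝ (fderiv ℝ φ) (y, x) v‖ * ‖w‖ := ContinuousLinearMap.le_opNorm _ _
    _ ≤ (‖fderiv ℝ (fderiv ℝ φ) (y, x)‖ * ‖v‖) * ‖w‖ := by
      gcongr
      exact ContinuousLinearMap.le_opNorm _ _
    _ ≤ _ := by
      gcongr
      exact hC _

/-- covariance with a derivative in a direction of the fibre -/
lemma cov_dir (h : Nice φ) (y : ℝ) {u : E → ℝ} (hu : BG u) (v : E) :
    cov[u, fun x => fderiv ℝ φ (y, x) (0, v); gibbs fun x => φ (y, x)] =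
      ∫ x, fderiv ℝ u x v ∂(gibbs fun x => φ (y, x)) := by
  have := cov_fderiv (h.slice y) hu v
  simpa only [fderiv_slice_apply h] using this

omit [MeasureSpace E] [BorelSpace E] [FiniteDimensional ℝ E]
  [(volume : Measure E).IsAddHaarMeasure] in
lemma dir_split (y : ℝ) (v : E) :
    (fun x => fderiv ℝ φ (y, x) (1, v)) =
      (fun x => dA φ y x) + fun x => fderiv ℝ φ (y, x) (0, v) := by
  ext1 x
  simp only [dA, Pi.add_apply]
  rw [← map_add]
  simp

omit [MeasureSpace E] [BorelSpace E] [FiniteDimensional ℝ E]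
  [(volume : Measure E).IsAddHaarMeasure] in
lemma bil {F : Type*} [NormedAddCommGroup F] [NormedSpace ℝ F] (L : F →L[ℝ] F →L[ℝ] ℝ) (a b : F)
    (h : L a b = L b a) : L (a + b) (a + b) = L a a + L b a + L b (a + b) := by
  have h1 : L (a + b) = L a + L b := map_add L a b
  have h2 : L (a + b) (a + b) = L a (a + b) + L b (a + b) := by rw [h1]; rfl
  rw [h2, map_add (L a), h]

lemma var_identity (h : Nice φ) (y : ℝ) (v : E) :
    ∫ x, fderiv ℝ (fderiv ℝ φ) (y, x) (1, v) (1, v) ∂(gibbs fun x => φ (y, x)) -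
      Var[fun x => fderiv ℝ φ (y, x) (1, v); gibbs fun x => φ (y, x)] =
    ∫ x, fderiv ℝ (fderiv ℝ φ) (y, x) (1, 0) (1, 0) ∂(gibbs fun x => φ (y, x)) -
      Var[fun x => dA φ y x; gibbs fun x => φ (y, x)] := by
  have hp := gibbs_prob (h.slice y)
  set μ := gibbs fun x => φ (y, x) with hμ
  have hA : BG (fun x => dA φ y x) := BG.dir h y (1, 0)
  have hB : BG (fun x => fderiv ℝ φ (y, x) (0, v)) := BG.dir h y (0, v)
  have hb : BG (fun x => fderiv ℝ φ (y, x) (1, v)) := BG.dir h y (1, v)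
  have mA := hA.memLp (h.slice y)
  have mB := hB.memLp (h.slice y)
  have mb := hb.memLp (h.slice y)
  rw [← hμ] at mA mB mb
  have e1 : Var[fun x => fderiv ℝ φ (y, x) (1, v); μ] =
      cov[fun x => fderiv ℝ φ (y, x) (1, v), fun x => fderiv ℝ φ (y, x) (1, v); μ] :=
    (covariance_self mb.aemeasurable).symm
  have e2 : cov[fun x => fderiv ℝ φ (y, x) (1, v), fun x => fderiv ℝ φ (y, x) (1, v); μ] =
      cov[fun x => fderiv ℝ φ (y, x) (1, v), fun x => dA φ y x; μ] +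
      cov[fun x => fderiv ℝ φ (y, x) (1, v), fun x => fderiv ℝ φ (y, x) (0, v); μ] := by
    conv_lhs => rw [show cov[fun x => fderiv ℝ φ (y, x) (1, v),
      fun x => fderiv ℝ φ (y, x) (1, v); μ] = cov[fun x => fderiv ℝ φ (y, x) (1, v),
      (fun x => dA φ y x) + fun x => fderiv ℝ φ (y, x) (0, v); μ] from by rw [← dir_split]]
    exact covariance_add_right mb mA mB
  have e3 : cov[fun x => fderiv ℝ φ (y, x) (1, v), fun x => dA φ y x; μ] =
      cov[fun x => dA φ y x, fun x => dA φ y x; μ] +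
      cov[fun x => fderiv ℝ φ (y, x) (0, v), fun x => dA φ y x; μ] := by
    rw [dir_split]
    exact covariance_add_left mA mB mA
  have e4 : cov[fun x => fderiv ℝ φ (y, x) (0, v), fun x => dA φ y x; μ] =
      ∫ x, fderiv ℝ (fderiv ℝ φ) (y, x) (0, v) (1, 0) ∂μ := by
    rw [covariance_comm, hμ, cov_dir h y hA v]
    congr 1
    ext1 x
    exact fderiv_dir_apply h y (1, 0) x v
  have e5 : cov[fun x => fderiv ℝ φ (y, x) (1, v), fun x => fderiv ℝ φ (y, x) (0, v); μ] =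
      ∫ x, fderiv ℝ (fderiv ℝ φ) (y, x) (0, v) (1, v) ∂μ := by
    rw [hμ, cov_dir h y hb v]
    congr 1
    ext1 x
    exact fderiv_dir_apply h y (1, v) x v
  have e6 : cov[fun x => dA φ y x, fun x => dA φ y x; μ] = Var[fun x => dA φ y x; μ] :=
    covariance_self mA.aemeasurable
  have e7 : ∫ x, fderiv ℝ (fderiv ℝ φ) (y, x) (1, v) (1, v) ∂μ =
      ∫ x, fderiv ℝ (fderiv ℝ φ) (y, x) (1, 0) (1, 0) ∂μ +
      ∫ x, fderiv ℝ (fderiv ℝ φ) (y, x) (0, v) (1, 0) ∂μ +
      ∫ x, fderiv ℝ (fderiv ℝ φ) (y, x) (0, v) (1, v) ∂μ := by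
    have i1 := integrable_snd h y (1, 0) (1, 0)
    have i2 := integrable_snd h y (0, v) (1, 0)
    have i3 := integrable_snd h y (0, v) (1, v)
    rw [← hμ] at i1 i2 i3
    rw [← integral_add i1 i2, ← integral_add (by exact i1.add i2) i3]
    congr 1
    ext1 x
    have s1 : ((1, v) : ℝ × E) = (1, 0) + (0, v) := by simp
    rw [s1]
    exact bil _ _ _ (snd_symm h (y, x) (1, 0) (0, v))
  rw [e1, e2, e3, e4, e5, e6, e7]
  ring

end fibre

section marginal

variable {E : Type*} [NormedAddCommGroup E] [NormedSpace ℝ E] [MeasureSpace E]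
    [BorelSpace E] [FiniteDimensional ℝ E] [(volume : Measure E).IsAddHaarMeasure]
variable {φ : ℝ × E → ℝ}

/-- potential of the marginal -/
noncomputable def mV (φ : ℝ × E → ℝ) (y : ℝ) : ℝ := -Real.log (∫ x, Real.exp (-φ (y, x)))

lemma exp_mV (h : Nice φ) (y : ℝ) : Real.exp (-mV φ y) = ∫ x, Real.exp (-φ (y, x)) := by
  unfold mV
  rw [neg_neg, Real.exp_log (h.slice y).Z_pos]

lemma mV_hasDerivAt (h : Nice φ) (y : ℝ) : HasDerivAt (mV φ) (J φ (dA φ) y) y := by
  have h1 := ((Z_hasDerivAt h y).log (h.slice y).Z_pos.ne').neg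
  have h2 : HasDerivAt (mV φ) (-(-(∫ x, Real.exp (-φ (y, x)) • dA φ y x) /
      ∫ x, Real.exp (-φ (y, x)))) y := h1
  refine h2.congr_deriv ?_
  rw [J_eq h]
  simp only [smul_eq_mul]
  rw [neg_div, neg_neg, div_eq_inv_mul]

/-- second derivative of the potential in the direction of the base -/
noncomputable def dAA (φ : ℝ × E → ℝ) (y : ℝ) (x : E) : ℝ :=
  fderiv ℝ (fderiv ℝ φ) (y, x) (1, 0) (1, 0)

omit [MeasureSpace E] [BorelSpace E] [FiniteDimensional ℝ E]
  [(volume : Measure E).IsAddHaarMeasure] in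
lemma hasDerivAt_dA (h : Nice φ) (y : ℝ) (x : E) :
    HasDerivAt (fun t => dA φ t x) (dAA φ y x) y := by
  have h1 : HasDerivAt (fun t => fderiv ℝ φ (t, x)) (fderiv ℝ (fderiv ℝ φ) (y, x) (1, 0)) y :=
    ((h.contDiff_fderiv.differentiable (by norm_num) (y, x)).hasFDerivAt).comp_hasDerivAt y
      ((hasDerivAt_id y).prodMk (hasDerivAt_const y x))
  have h2 := h1.clm_apply (hasDerivAt_const y ((1, 0) : ℝ × E))
  rw [map_zero, add_zero] at h2
  exact h2

omit [MeasureSpace E] [BorelSpace E] [FiniteDimensional ℝ E]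
  [(volume : Measure E).IsAddHaarMeasure] in
lemma continuous_dAA (h : Nice φ) : Continuous (fun p : ℝ × E => dAA φ p.1 p.2) :=
  ((h.contDiff_fderiv.continuous_fderiv (by norm_num)).clm_apply continuous_const).clm_apply
    continuous_const

omit [MeasureSpace E] [BorelSpace E] [FiniteDimensional ℝ E]
  [(volume : Measure E).IsAddHaarMeasure] in
lemma pg_dAA (h : Nice φ) : PG (dAA φ) :=
  pg_fderiv2 h (v := fun _ => ((1, 0) : ℝ × E)) (w := fun _ => ((1, 0) : ℝ × E))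
    continuous_const continuous_const

/-- second derivative of the marginal potential -/
noncomputable def mV2 (φ : ℝ × E → ℝ) (y : ℝ) : ℝ :=
  J φ (dAA φ) y - (J φ (fun y x => dA φ y x • dA φ y x) y - J φ (dA φ) y • J φ (dA φ) y)

lemma mV1_hasDerivAt (h : Nice φ) (y : ℝ) : HasDerivAt (J φ (dA φ)) (mV2 φ y) y :=
  J_hasDerivAt h (fun y => (continuous_dA h).comp (Continuous.prodMk_right y))
    (fun y => (continuous_dAA h).comp (Continuous.prodMk_right y)) (pg_dA h) (pg_dAA h)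
    (hasDerivAt_dA h) y

lemma mV2_continuous (h : Nice φ) : Continuous (mV2 φ) := by
  have c1 := J_continuous h (continuous_dA h) (pg_dA h)
  have c2 := J_continuous h (continuous_dAA h) (pg_dAA h)
  have c3 := J_continuous h (F := fun y x => dA φ y x • dA φ y x)
    ((continuous_dA h).smul (continuous_dA h)) ((pg_dA h).smul (pg_dA h))
  exact c2.sub (c3.sub (c1.smul c1))

lemma mV2_eq (h : Nice φ) (y : ℝ) : mV2 φ y =
    ∫ x, fderiv ℝ (fderiv ℝ φ) (y, x) (1, 0) (1, 0) ∂(gibbs fun x => φ (y, x)) -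
      Var[fun x => dA φ y x; gibbs fun x => φ (y, x)] := by
  have := gibbs_prob (h.slice y)
  have hA : BG (fun x => dA φ y x) := BG.dir h y (1, 0)
  rw [variance_eq_sub (hA.memLp (h.slice y))]
  unfold mV2 J
  simp only [smul_eq_mul, Pi.pow_apply, dAA, pow_two]

lemma mV_convex (h : Nice φ) : ConvexOn ℝ univ (mV φ) := by
  rw [convexOn_iff_forall_pos]
  refine ⟨convex_univ, fun y₁ _ y₂ _ a b ha hb hab => ?_⟩
  have ha' : a = 1 - b := by linarith
  subst ha'
  have hm : ∀ y, Measurable (fun x : E => ENNReal.ofReal (Real.exp (-φ (y, x)))) := fun y =>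
    ENNReal.measurable_ofReal.comp (Real.continuous_exp.comp (h.slice y).continuous.neg).measurable
  have key := plm_haar (volume : Measure E) b hb (by linarith)
    (fun x => ENNReal.ofReal (Real.exp (-φ (y₁, x))))
    (fun x => ENNReal.ofReal (Real.exp (-φ (y₂, x))))
    (fun x => ENNReal.ofReal (Real.exp (-φ ((1 - b) * y₁ + b * y₂, x)))) (hm _) (hm _) (hm _) (by
      intro x x'
      rw [ENNReal.ofReal_rpow_of_pos (Real.exp_pos _), ENNReal.ofReal_rpow_of_pos (Real.exp_pos _),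
        ← ENNReal.ofReal_mul (by positivity), ← Real.exp_mul, ← Real.exp_mul, ← Real.exp_add]
      apply ENNReal.ofReal_le_ofReal
      apply Real.exp_le_exp.2
      have h1 := h.convexOn.2 (mem_univ (y₁, x)) (mem_univ (y₂, x')) ha.le hb.le hab
      simp only [smul_eq_mul, Prod.smul_mk, Prod.mk_add_mk] at h1
      linarith)
  have hZ : ∀ y, ∫⁻ x, ENNReal.ofReal (Real.exp (-φ (y, x))) =
      ENNReal.ofReal (∫ x, Real.exp (-φ (y, x))) := fun y =>
    (ofReal_integral_eq_lintegral_ofReal (h.slice y).integrable_exp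
      (Eventually.of_forall fun x => (Real.exp_pos _).le)).symm
  simp only [hZ] at key
  have p1 := (h.slice y₁).Z_pos
  have p2 := (h.slice y₂).Z_pos
  have p3 := (h.slice ((1 - b) * y₁ + b * y₂)).Z_pos
  rw [ENNReal.ofReal_rpow_of_pos p1, ENNReal.ofReal_rpow_of_pos p2,
    ← ENNReal.ofReal_mul (by positivity), ENNReal.ofReal_le_ofReal_iff p3.le] at key
  have key2 := Real.log_le_log (by positivity) key
  rw [Real.log_mul (by positivity) (by positivity), Real.log_rpow p1, Real.log_rpow p2] at key2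
  simp only [mV, smul_eq_mul]
  linarith

lemma mV2_nonneg (h : Nice φ) (y : ℝ) : 0 ≤ mV2 φ y := by
  have h1 := (mV_convex h).monotoneOn_deriv (fun y _ => (mV_hasDerivAt h y).differentiableAt)
  have h2 : deriv (mV φ) = J φ (dA φ) := by
    ext1 y
    exact (mV_hasDerivAt h y).deriv
  rw [h2] at h1
  have h3 : Monotone (J φ (dA φ)) := monotoneOn_univ.1 h1
  rw [← (mV1_hasDerivAt h y).deriv]
  exact h3.deriv_nonneg

/-- Gaussian decay of the marginal -/
lemma exp_mV_le (h : Nice φ) : ∃ k C : ℝ, 0 < k ∧ 0 < C ∧ ∀ y,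
    Real.exp (-mV φ y) ≤ C * Real.exp (-(k * y ^ 2)) := by
  obtain ⟨k, K, hk, hK, hle⟩ := h.exp_le
  have hi : Integrable (fun x : E => Real.exp (-(k * ‖x‖ ^ 2))) := by
    simpa using integrable_poly_gauss (E := E) hk 0
  refine ⟨k, K * ((∫ x : E, Real.exp (-(k * ‖x‖ ^ 2))) + 1), hk, ?_, fun y => ?_⟩
  · have : 0 ≤ ∫ x : E, Real.exp (-(k * ‖x‖ ^ 2)) := integral_nonneg fun x => (Real.exp_pos _).le
    positivity
  · rw [exp_mV h]
    calc ∫ x, Real.exp (-φ (y, x))
        ≤ ∫ x : E, K * Real.exp (-(k * y ^ 2)) * Real.exp (-(k * ‖x‖ ^ 2)) :=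
          integral_mono (h.slice y).integrable_exp (hi.const_mul _) (hle y)
      _ = K * Real.exp (-(k * y ^ 2)) * ∫ x : E, Real.exp (-(k * ‖x‖ ^ 2)) :=
          integral_const_mul _ _
      _ ≤ K * Real.exp (-(k * y ^ 2)) * ((∫ x : E, Real.exp (-(k * ‖x‖ ^ 2))) + 1) := by
          gcongr
          linarith
      _ = _ := by ring

lemma integrable_exp_mV (h : Nice φ) : Integrable (fun y => Real.exp (-mV φ y)) := by
  obtain ⟨k, C, hk, hC, hle⟩ := exp_mV_le h
  have hi : Integrable (fun y : ℝ => Real.exp (-k * y ^ 2)) := integrable_exp_neg_mul_sq hk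
  refine (hi.const_mul C).mono' ?_ (Eventually.of_forall fun y => ?_)
  · have hc : Continuous (mV φ) :=
      continuous_iff_continuousAt.2 fun y => (mV_hasDerivAt h y).continuousAt
    exact (Real.continuous_exp.comp hc.neg).aestronglyMeasurable
  · rw [Real.norm_of_nonneg (Real.exp_pos _).le]
    simpa [neg_mul] using hle y

lemma mV_min (h : Nice φ) : ∃ y₀, ∀ y, mV φ y₀ ≤ mV φ y := by
  obtain ⟨k, C, hk, hC, hle⟩ := exp_mV_le h
  have hc : Continuous (mV φ) :=
    continuous_iff_continuousAt.2 fun y => (mV_hasDerivAt h y).continuousAt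
  apply hc.exists_forall_le
  have h1 : ∀ y, k * y ^ 2 - Real.log C ≤ mV φ y := by
    intro y
    have h2 := hle y
    rw [← Real.exp_log hC, ← Real.exp_add, Real.exp_le_exp] at h2
    linarith
  refine tendsto_atTop_mono h1 ?_
  have h2 : Tendsto (fun y : ℝ => ‖y‖) (cocompact ℝ) atTop := tendsto_norm_cocompact_atTop
  have h3 : Tendsto (fun y : ℝ => k * ‖y‖ ^ 2) (cocompact ℝ) atTop :=
    (((tendsto_pow_atTop (by norm_num : (2 : ℕ) ≠ 0)).comp h2)).const_mul_atTop hk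
  simp only [Real.norm_eq_abs, sq_abs] at h3
  exact tendsto_atTop_add_const_right _ _ h3

end marginal

section final

variable {E : Type*} [NormedAddCommGroup E] [NormedSpace ℝ E] [MeasureSpace E]
    [BorelSpace E] [FiniteDimensional ℝ E] [(volume : Measure E).IsAddHaarMeasure]
variable {φ : ℝ × E → ℝ}

/-- barycentre of the fibre -/
noncomputable def fm (φ : ℝ × E → ℝ) (y : ℝ) : E := J φ (fun _ x => x) y

/-- derivative of the barycentre -/
noncomputable def fm1 (φ : ℝ × E → ℝ) (y : ℝ) : E :=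
  -(J φ (fun y x => dA φ y x • x) y - J φ (dA φ) y • J φ (fun _ x => x) y)

omit [MeasureSpace E] [BorelSpace E] [FiniteDimensional ℝ E]
  [(volume : Measure E).IsAddHaarMeasure] [NormedSpace ℝ E] in
lemma PG.zero' {G : Type*} [NormedAddCommGroup G] : PG (fun (_ : ℝ) (_ : E) => (0 : G)) :=
  PG.of_continuous continuous_const

lemma fm_hasDerivAt (h : Nice φ) (y : ℝ) : HasDerivAt (fm φ) (fm1 φ y) y := by
  have h1 := J_hasDerivAt h (F := fun (_ : ℝ) (x : E) => x) (F' := fun (_ : ℝ) (_ : E) => (0 : E))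
    (fun _ => continuous_id) (fun _ => continuous_const) PG.id PG.zero'
    (fun y x => hasDerivAt_const y x) y
  refine h1.congr_deriv ?_
  have h2 : J φ (fun (_ : ℝ) (_ : E) => (0 : E)) y = 0 := by
    unfold J
    simp
  rw [h2, zero_sub]
  rfl

lemma fm1_continuous (h : Nice φ) : Continuous (fm1 φ) := by
  have c1 := J_continuous h (continuous_dA h) (pg_dA h)
  have c2 := J_continuous h (F := fun (_ : ℝ) (x : E) => x) continuous_snd PG.id
  have c3 := J_continuous h (F := fun y x => dA φ y x • x)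
    ((continuous_dA h).smul continuous_snd) ((pg_dA h).smul PG.id)
  exact (c3.sub (c1.smul c2)).neg

lemma integrable_id_gibbs {ψ : E → ℝ} (h : Nice ψ) : Integrable (fun x : E => x) (gibbs ψ) :=
  gibbs_integrable h continuous_id.aestronglyMeasurable 1 1 fun x => by
    rw [pow_one, one_mul]
    linarith

lemma integrable_dA_smul (h : Nice φ) (y : ℝ) :
    Integrable (fun x : E => dA φ y x • x) (gibbs fun x => φ (y, x)) := by
  obtain ⟨C, n, hC, hb⟩ := (pg_dA h).smul (PG.id (E := E)) |y|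
  exact gibbs_integrable (h.slice y) (((continuous_dA h).comp
    (Continuous.prodMk_right y)).smul continuous_id).aestronglyMeasurable C n (hb y le_rfl)

lemma lin_fm (h : Nice φ) (ℓ : E →L[ℝ] ℝ) (y : ℝ) :
    ∫ x, ℓ x ∂(gibbs (fun x => φ (y, x))) = ℓ (fm φ y) :=
  ℓ.integral_comp_comm (integrable_id_gibbs (h.slice y))

lemma lin_fm1 (h : Nice φ) (ℓ : E →L[ℝ] ℝ) (y : ℝ) :
    ℓ (fm1 φ y) = -cov[fun x => ℓ x, fun x => dA φ y x; gibbs (fun x => φ (y, x))] := by
  have hp := gibbs_prob (h.slice y)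
  have hA : BG (fun x => dA φ y x) := BG.dir h y (1, 0)
  rw [covariance_eq_sub ((BG.lin ℓ).memLp (h.slice y)) (hA.memLp (h.slice y))]
  have e1 : ℓ (J φ (fun y x => dA φ y x • x) y) =
      ∫ x, ℓ (dA φ y x • x) ∂(gibbs (fun x => φ (y, x))) :=
    (ℓ.integral_comp_comm (integrable_dA_smul h y)).symm
  have e2 : ℓ (J φ (fun (_ : ℝ) (x : E) => x) y) =
      ∫ x, ℓ x ∂(gibbs (fun x => φ (y, x))) := (lin_fm h ℓ y).symm
  unfold fm1
  rw [map_neg, map_sub, map_smul, e1, e2]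
  congr 1
  congr 1
  · congr 1
    ext1 x
    simp [mul_comm]
  · rw [smul_eq_mul, mul_comm]
    rfl

lemma cov_zero (h : Nice φ) (ℓ : E →L[ℝ] ℝ) (y : ℝ) :
    cov[fun x => ℓ x, fun x => fderiv ℝ φ (y, x) (1, fm1 φ y); gibbs (fun x => φ (y, x))] = 0 := by
  have hp := gibbs_prob (h.slice y)
  have hA : BG (fun x => dA φ y x) := BG.dir h y (1, 0)
  have hB : BG (fun x => fderiv ℝ φ (y, x) (0, fm1 φ y)) := BG.dir h y _
  rw [dir_split, covariance_add_right ((BG.lin ℓ).memLp (h.slice y)) (hA.memLp (h.slice y))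
    (hB.memLp (h.slice y)), cov_dir h y (BG.lin ℓ)]
  have e1 : ∫ x, fderiv ℝ (fun x => ℓ x) x (fm1 φ y) ∂(gibbs fun x => φ (y, x)) = ℓ (fm1 φ y) := by
    have : ∀ x, fderiv ℝ (fun x => ℓ x) x (fm1 φ y) = ℓ (fm1 φ y) := by
      intro x
      rw [ContinuousLinearMap.fderiv]
    simp_rw [this]
    simp
  rw [e1, lin_fm1 h]
  ring

/-- translates along the barycentre -/
lemma shift_facts (h : Nice φ) {F : E → ℝ} (hF : BG F) :
    (∀ y, HasDerivAt (fun t => ∫ x, F (x - fm φ t) ∂(gibbs (fun x => φ (t, x))))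
      (-cov[fun x => F (x - fm φ y), fun x => fderiv ℝ φ (y, x) (1, fm1 φ y);
        gibbs (fun x => φ (y, x))]) y) ∧
    Continuous (fun y => cov[fun x => F (x - fm φ y), fun x => fderiv ℝ φ (y, x) (1, fm1 φ y);
        gibbs (fun x => φ (y, x))]) := by
  have cm : Continuous (fm φ) :=
    continuous_iff_continuousAt.2 fun y => (fm_hasDerivAt h y).continuousAt
  have cm1 : Continuous (fm1 φ) := fm1_continuous h
  obtain ⟨C, hC, hb, hb'⟩ := hF.growth
  -- the function and its derivative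
  have cF : Continuous (fun p : ℝ × E => F (p.2 - fm φ p.1)) :=
    hF.1.continuous.comp (continuous_snd.sub (cm.comp continuous_fst))
  have cF' : Continuous (fun p : ℝ × E => -fderiv ℝ F (p.2 - fm φ p.1) (fm1 φ p.1)) :=
    (((hF.1.continuous_fderiv one_ne_zero).comp
      (continuous_snd.sub (cm.comp continuous_fst))).clm_apply (cm1.comp continuous_fst)).neg
  have pF : PG (fun (t : ℝ) (x : E) => F (x - fm φ t)) := by
    have h1 : PG (fun (t : ℝ) (_ : E) => C * (1 + ‖fm φ t‖)) :=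
      PG.of_continuous (continuous_const.mul (continuous_const.add cm.norm))
    have h2 : PG (fun (_ : ℝ) (x : E) => C * ‖x‖) :=
      ((PG.of_continuous (continuous_const (y := C))).smul PG.id).mono fun y x => by
        rw [norm_smul, norm_mul, norm_norm]
    refine (h1.add h2).mono fun t x => ?_
    rw [Real.norm_of_nonneg (by positivity : 0 ≤ C * (1 + ‖fm φ t‖) + C * ‖x‖)]
    calc _ ≤ C * (1 + ‖x - fm φ t‖) := hb _
      _ ≤ C * (1 + (‖x‖ + ‖fm φ t‖)) := by gcongr; exact norm_sub_le _ _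
      _ = _ := by ring
  have pF' : PG (fun (t : ℝ) (x : E) => -fderiv ℝ F (x - fm φ t) (fm1 φ t)) := by
    have h1 : PG (fun (t : ℝ) (_ : E) => C * ‖fm1 φ t‖) :=
      PG.of_continuous (continuous_const.mul cm1.norm)
    refine h1.mono fun t x => ?_
    rw [norm_neg, Real.norm_of_nonneg (by positivity : 0 ≤ C * ‖fm1 φ t‖)]
    calc _ ≤ ‖fderiv ℝ F (x - fm φ t)‖ * ‖fm1 φ t‖ := ContinuousLinearMap.le_opNorm _ _
      _ ≤ _ := by gcongr; exact hb' _
  have hd : ∀ (y : ℝ) (x : E), HasDerivAt (fun t => F (x - fm φ t))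
      (-fderiv ℝ F (x - fm φ y) (fm1 φ y)) y := by
    intro y x
    have h1 : HasDerivAt (fun t => x - fm φ t) (-fm1 φ y) y := (fm_hasDerivAt h y).const_sub x
    have h2 := ((hF.1.differentiable one_ne_zero (x - fm φ y)).hasFDerivAt).comp_hasDerivAt y h1
    rw [map_neg] at h2
    exact h2
  have hBG : ∀ y, BG (fun x => F (x - fm φ y)) := by
    intro y
    refine ⟨hF.1.comp (contDiff_id.sub contDiff_const), C, fun x => ?_⟩
    rw [fderiv_comp_sub]
    exact hb' _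
  refine ⟨fun y => ?_, ?_⟩
  · have hp := gibbs_prob (h.slice y)
    have hA : BG (fun x => dA φ y x) := BG.dir h y (1, 0)
    have hB : BG (fun x => fderiv ℝ φ (y, x) (0, fm1 φ y)) := BG.dir h y _
    have h1 := J_hasDerivAt h (F := fun t x => F (x - fm φ t))
      (F' := fun t x => -fderiv ℝ F (x - fm φ t) (fm1 φ t))
      (fun y => cF.comp (Continuous.prodMk_right y)) (fun y => cF'.comp (Continuous.prodMk_right y))
      pF pF' hd y
    have h2 : HasDerivAt (fun t => ∫ x, F (x - fm φ t) ∂(gibbs (fun x => φ (t, x)))) _ y := h1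
    refine h2.congr_deriv ?_
    have mF := (hBG y).memLp (h.slice y)
    rw [dir_split, covariance_add_right mF (hA.memLp (h.slice y)) (hB.memLp (h.slice y)),
      cov_dir h y (hBG y), covariance_eq_sub mF (hA.memLp (h.slice y))]
    simp_rw [fderiv_comp_sub]
    unfold J
    simp only [smul_eq_mul, Pi.mul_apply]
    rw [integral_neg]
    have e1 : ∫ x, dA φ y x * F (x - fm φ y) ∂(gibbs fun x => φ (y, x)) =
        ∫ x, F (x - fm φ y) * dA φ y x ∂(gibbs fun x => φ (y, x)) := by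
      congr 1
      ext1 x
      ring
    rw [e1]
    ring
  · have cb : Continuous (fun p : ℝ × E => fderiv ℝ φ (p.1, p.2) (1, fm1 φ p.1)) :=
      (h.cd.continuous_fderiv (by norm_num)).clm_apply
        (continuous_const.prodMk (cm1.comp continuous_fst))
    have pb : PG (fun (y : ℝ) (x : E) => fderiv ℝ φ (y, x) (1, fm1 φ y)) :=
      pg_fderiv h (v := fun y => ((1, fm1 φ y) : ℝ × E)) (continuous_const.prodMk cm1)
    have c1 := J_continuous h (F := fun (t : ℝ) (x : E) => F (x - fm φ t)) cF pF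
    have c2 := J_continuous h (F := fun (y : ℝ) (x : E) => fderiv ℝ φ (y, x) (1, fm1 φ y)) cb pb
    have c3 := J_continuous h (F := fun (y : ℝ) (x : E) => F (x - fm φ y) *
      fderiv ℝ φ (y, x) (1, fm1 φ y)) (cF.mul cb) (pF.mul pb)
    have e : (fun y => cov[fun x => F (x - fm φ y), fun x => fderiv ℝ φ (y, x) (1, fm1 φ y);
        gibbs (fun x => φ (y, x))]) = fun y => J φ (fun (y : ℝ) (x : E) => F (x - fm φ y) *
      fderiv ℝ φ (y, x) (1, fm1 φ y)) y - J φ (fun (t : ℝ) (x : E) => F (x - fm φ t)) y *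
        J φ (fun (y : ℝ) (x : E) => fderiv ℝ φ (y, x) (1, fm1 φ y)) y := by
      ext1 y
      have hp := gibbs_prob (h.slice y)
      have hb : BG (fun x => fderiv ℝ φ (y, x) (1, fm1 φ y)) := BG.dir h y _
      rw [covariance_eq_sub ((hBG y).memLp (h.slice y)) (hb.memLp (h.slice y))]
      rfl
    rw [e]
    exact c3.sub (c1.mul c2)

/-- R9 -/
theorem fib_calc {E : Type*} [NormedAddCommGroup E] [NormedSpace ℝ E] [MeasureSpace E]
    [BorelSpace E] [FiniteDimensional ℝ E] [(volume : Measure E).IsAddHaarMeasure]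
    {φ : ℝ × E → ℝ} (h : Nice φ) :
    ∃ (V V1 V2 : ℝ → ℝ) (m m1 : ℝ → E) (y₀ : ℝ),
      (∀ y, ∫ x, Real.exp (-φ (y, x)) = Real.exp (-V y)) ∧
      (∀ y, HasDerivAt V (V1 y) y) ∧ (∀ y, HasDerivAt V1 (V2 y) y) ∧ Continuous V2 ∧
      (∀ y, 0 ≤ V2 y) ∧ V1 y₀ = 0 ∧ ConvexOn ℝ Set.univ V ∧ (∀ y, V y₀ ≤ V y) ∧
      Integrable (fun y => Real.exp (-V y)) ∧
      (∀ y, HasDerivAt m (m1 y) y) ∧ Continuous m1 ∧
      (∀ (ℓ : E →L[ℝ] ℝ) (y : ℝ), ∫ x, ℓ x ∂(gibbs (fun x => φ (y, x))) = ℓ (m y)) ∧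
      (∀ y, V2 y = ∫ x, fderiv ℝ (fderiv ℝ φ) (y, x) (1, m1 y) (1, m1 y)
          ∂(gibbs (fun x => φ (y, x))) -
        Var[fun x => fderiv ℝ φ (y, x) (1, m1 y); gibbs (fun x => φ (y, x))]) ∧
      (∀ (ℓ : E →L[ℝ] ℝ) (y : ℝ),
        cov[fun x => ℓ x, fun x => fderiv ℝ φ (y, x) (1, m1 y); gibbs (fun x => φ (y, x))] = 0) ∧
      (∀ F : E → ℝ, ContDiff ℝ 1 F → (∃ l : ℝ, ∀ x, ‖fderiv ℝ F x‖ ≤ l) →
        (∀ y, HasDerivAt (fun t => ∫ x, F (x - m t) ∂(gibbs (fun x => φ (t, x))))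
          (-cov[fun x => F (x - m y), fun x => fderiv ℝ φ (y, x) (1, m1 y);
            gibbs (fun x => φ (y, x))]) y) ∧
        Continuous (fun y => cov[fun x => F (x - m y), fun x => fderiv ℝ φ (y, x) (1, m1 y);
            gibbs (fun x => φ (y, x))])) := by
  obtain ⟨y₀, hy₀⟩ := mV_min h
  refine ⟨mV φ, J φ (dA φ), mV2 φ, fm φ, fm1 φ, y₀, fun y => (exp_mV h y).symm, mV_hasDerivAt h,
    mV1_hasDerivAt h, mV2_continuous h, mV2_nonneg h, ?_, mV_convex h, hy₀, integrable_exp_mV h,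
    fm_hasDerivAt h, fm1_continuous h, fun ℓ y => lin_fm h ℓ y, fun y => ?_,
    fun ℓ y => cov_zero h ℓ y, fun F hF hl => shift_facts h ⟨hF, hl⟩⟩
  · have hmin : IsLocalMin (mV φ) y₀ := Eventually.of_forall hy₀
    exact hmin.hasDerivAt_eq_zero (mV_hasDerivAt h y₀)
  · rw [var_identity h y (fm1 φ y), mV2_eq h]

end final

end Pool.Agent.Lib.MP_6d896a_gt.FP
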