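import Mathlib

set_option autoImplicit false

namespace Pool.Agent.Lib.MP_6d896a_gt.FP

open MeasureTheory ProbabilityTheory Set Filter
open scoped ENNReal Topology

/-! ### R8a: one-dimensional Brascamp-Lieb type inequality -/

/-- Cauchy-Schwarz for interval integrals in quadratic form version -/
theorem bl1_cs {V2 G1 R : ℝ → ℝ} (hV2c : Continuous V2) (hG1 : Continuous G1)
    (hR : Continuous R) (hV2 : ∀ y, 0 ≤ V2 y) (hR0 : ∀ y, 0 ≤ R y)
    (hle : ∀ y, G1 y ^ 2 ≤ V2 y * R y) {a b : ℝ} (hab : a ≤ b) :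
    (∫ y in a..b, G1 y) ^ 2 ≤ (∫ y in a..b, V2 y) * ∫ y in a..b, R y := by
  have key : ∀ x : ℝ, 0 ≤ (∫ y in a..b, V2 y) * (x * x) + (2 * ∫ y in a..b, G1 y) * x +
      ∫ y in a..b, R y := by
    intro x
    have e : (∫ y in a..b, V2 y) * (x * x) + (2 * ∫ y in a..b, G1 y) * x +
        ∫ y in a..b, R y = ∫ y in a..b, (V2 y * (x * x) + (2 * G1 y) * x + R y) := by
      rw [intervalIntegral.integral_add, intervalIntegral.integral_add,
        intervalIntegral.integral_mul_const, intervalIntegral.integral_mul_const,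
        intervalIntegral.integral_const_mul]
      · exact (by fun_prop : Continuous fun y => V2 y * (x * x)).intervalIntegrable _ _
      · exact (by fun_prop : Continuous fun y => (2 * G1 y) * x).intervalIntegrable _ _
      · exact (by fun_prop : Continuous fun y => V2 y * (x * x) + (2 * G1 y) * x).intervalIntegrable
          _ _
      · exact hR.intervalIntegrable _ _
    rw [e]
    refine intervalIntegral.integral_nonneg hab fun y _ => ?_
    have h1 := hle y
    have h2 := hV2 y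
    have h3 := hR0 y
    rcases h2.eq_or_lt with h | h
    · have : G1 y ^ 2 ≤ 0 := by rw [← h, zero_mul] at h1; exact h1
      have : G1 y = 0 := by
        have := le_antisymm this (sq_nonneg _)
        simpa using this
      rw [this, ← h]; simpa using h3
    · have h4 : 0 ≤ V2 y * (V2 y * (x * x) + (2 * G1 y) * x + R y) := by
        nlinarith [sq_nonneg (V2 y * x + G1 y)]
      exact nonneg_of_mul_nonneg_right h4 h
  have := discrim_le_zero key
  rw [discrim] at this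
  nlinarith

theorem bl1_right {V V1 V2 G G1 R : ℝ → ℝ} {y₀ : ℝ}
    (hV : ∀ y, HasDerivAt V (V1 y) y) (hV1 : ∀ y, HasDerivAt V1 (V2 y) y)
    (hV2c : Continuous V2) (hV2 : ∀ y, 0 ≤ V2 y) (h0 : V1 y₀ = 0)
    (hG : ∀ y, HasDerivAt G (G1 y) y) (hG1 : Continuous G1)
    (hR : Continuous R) (hR0 : ∀ y, 0 ≤ R y) (hle : ∀ y, G1 y ^ 2 ≤ V2 y * R y)
    {Y : ℝ} (hY : y₀ ≤ Y) :
    ∫ y in y₀..Y, (G y - G y₀) ^ 2 * Real.exp (-V y) ≤
      ∫ y in y₀..Y, R y * Real.exp (-V y) := by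
  have cV : Continuous V := continuous_iff_continuousAt.2 fun y => (hV y).continuousAt
  have cV1 : Continuous V1 := continuous_iff_continuousAt.2 fun y => (hV1 y).continuousAt
  have cG : Continuous G := continuous_iff_continuousAt.2 fun y => (hG y).continuousAt
  set F : ℝ → ℝ := fun y => ∫ t in y₀..y, R t with hF
  have hFd : ∀ y, HasDerivAt F (R y) y := fun y =>
    intervalIntegral.integral_hasDerivAt_right (hR.intervalIntegrable _ _)
      (hR.stronglyMeasurableAtFilter _ _) hR.continuousAt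
  have cF : Continuous F := continuous_iff_continuousAt.2 fun y => (hFd y).continuousAt
  have hCS : ∀ y, y₀ ≤ y → (G y - G y₀) ^ 2 ≤ V1 y * F y := by
    intro y hy
    have h1 := bl1_cs hV2c hG1 hR hV2 hR0 hle hy
    rw [intervalIntegral.integral_eq_sub_of_hasDerivAt (fun t _ => hG t)
      (hG1.intervalIntegrable _ _), intervalIntegral.integral_eq_sub_of_hasDerivAt
      (fun t _ => hV1 t) (hV2c.intervalIntegrable _ _), h0, sub_zero] at h1
    exact h1
  have step1 : ∫ y in y₀..Y, (G y - G y₀) ^ 2 * Real.exp (-V y) ≤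
      ∫ y in y₀..Y, V1 y * F y * Real.exp (-V y) := by
    refine intervalIntegral.integral_mono_on hY ?_ ?_ fun y hy => ?_
    · exact (by fun_prop : Continuous fun y => (G y - G y₀) ^ 2 *
        Real.exp (-V y)).intervalIntegrable _ _
    · exact (by fun_prop : Continuous fun y => V1 y * F y *
        Real.exp (-V y)).intervalIntegrable _ _
    · exact mul_le_mul_of_nonneg_right (hCS y hy.1) (Real.exp_pos _).le
  have step2 : ∫ y in y₀..Y, (V1 y * F y * Real.exp (-V y) - R y * Real.exp (-V y)) =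
      -(F Y * Real.exp (-V Y)) := by
    have hd : ∀ y, HasDerivAt (fun y => -(F y * Real.exp (-V y)))
        (V1 y * F y * Real.exp (-V y) - R y * Real.exp (-V y)) y := by
      intro y
      have h1 : HasDerivAt (fun y => Real.exp (-V y)) (Real.exp (-V y) * (-V1 y)) y :=
        (hV y).neg.exp
      have h2 := ((hFd y).mul h1).neg
      exact h2.congr_deriv (by ring)
    rw [intervalIntegral.integral_eq_sub_of_hasDerivAt (fun t _ => hd t)]
    · simp [hF]
    · exact (by fun_prop : Continuous fun y => V1 y * F y * Real.exp (-V y) -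
        R y * Real.exp (-V y)).intervalIntegrable _ _
  rw [intervalIntegral.integral_sub] at step2
  · have : 0 ≤ F Y * Real.exp (-V Y) :=
      mul_nonneg (intervalIntegral.integral_nonneg hY fun y _ => hR0 y) (Real.exp_pos _).le
    linarith
  · exact (by fun_prop : Continuous fun y => V1 y * F y * Real.exp (-V y)).intervalIntegrable _ _
  · exact (by fun_prop : Continuous fun y => R y * Real.exp (-V y)).intervalIntegrable _ _

theorem lint_of_interval {f g : ℝ → ℝ} (hf : Continuous f) (hg : Continuous g)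
    (hf0 : ∀ y, 0 ≤ f y) (hg0 : ∀ y, 0 ≤ g y) (y₀ : ℝ)
    (h : ∀ Y, y₀ ≤ Y → ∫ y in y₀..Y, f y ≤ ∫ y in y₀..Y, g y) :
    ∫⁻ y in Ioi y₀, ENNReal.ofReal (f y) ≤ ∫⁻ y in Ioi y₀, ENNReal.ofReal (g y) := by
  have hU : Ioi y₀ = ⋃ n : ℕ, Ioc y₀ (y₀ + n) := by
    ext x
    simp only [mem_Ioi, mem_iUnion, mem_Ioc]
    constructor
    · intro hx
      obtain ⟨n, hn⟩ := exists_nat_ge (x - y₀)
      exact ⟨n, hx, by linarith⟩
    · rintro ⟨n, hn, _⟩
      exact hn
  have hdir : Directed (· ⊆ ·) (fun n : ℕ => Ioc y₀ (y₀ + n)) := by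
    refine Monotone.directed_le fun m n hmn => ?_
    exact Ioc_subset_Ioc_right (by gcongr)
  have hform : ∀ {k : ℝ → ℝ}, Continuous k → (∀ y, 0 ≤ k y) → ∀ n : ℕ,
      ∫⁻ y in Ioc y₀ (y₀ + n), ENNReal.ofReal (k y) =
        ENNReal.ofReal (∫ y in y₀..(y₀ + n), k y) := by
    intro k hk hk0 n
    rw [intervalIntegral.integral_of_le (by linarith [(Nat.cast_nonneg n : (0:ℝ) ≤ n)]),
      ofReal_integral_eq_lintegral_ofReal]
    · exact (hk.intervalIntegrable y₀ (y₀ + n)).1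
    · exact Eventually.of_forall hk0
  conv_lhs => rw [hU]
  rw [setLIntegral_iUnion_of_directed _ hdir]
  refine iSup_le fun n => ?_
  rw [hform hf hf0]
  calc ENNReal.ofReal (∫ y in y₀..(y₀ + n), f y)
      ≤ ENNReal.ofReal (∫ y in y₀..(y₀ + n), g y) :=
        ENNReal.ofReal_le_ofReal (h _ (by linarith [(Nat.cast_nonneg n : (0:ℝ) ≤ n)]))
    _ = ∫⁻ y in Ioc y₀ (y₀ + n), ENNReal.ofReal (g y) := (hform hg hg0 n).symm
    _ ≤ ∫⁻ y in Ioi y₀, ENNReal.ofReal (g y) :=
        lintegral_mono_set Ioc_subset_Ioi_self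

theorem bl1_half {V V1 V2 G G1 R : ℝ → ℝ} {y₀ : ℝ}
    (hV : ∀ y, HasDerivAt V (V1 y) y) (hV1 : ∀ y, HasDerivAt V1 (V2 y) y)
    (hV2c : Continuous V2) (hV2 : ∀ y, 0 ≤ V2 y) (h0 : V1 y₀ = 0)
    (hG : ∀ y, HasDerivAt G (G1 y) y) (hG1 : Continuous G1)
    (hR : Continuous R) (hR0 : ∀ y, 0 ≤ R y) (hle : ∀ y, G1 y ^ 2 ≤ V2 y * R y) :
    ∫⁻ y in Ioi y₀, ENNReal.ofReal ((G y - G y₀) ^ 2 * Real.exp (-V y)) ≤
      ∫⁻ y in Ioi y₀, ENNReal.ofReal (R y * Real.exp (-V y)) := by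
  have cV : Continuous V := continuous_iff_continuousAt.2 fun y => (hV y).continuousAt
  have cG : Continuous G := continuous_iff_continuousAt.2 fun y => (hG y).continuousAt
  refine lint_of_interval (by fun_prop) (by fun_prop) (fun y => by positivity)
    (fun y => mul_nonneg (hR0 y) (Real.exp_pos _).le) y₀ fun Y hY => ?_
  exact bl1_right hV hV1 hV2c hV2 h0 hG hG1 hR hR0 hle hY

/-- R8a -/
theorem bl1 {V V1 V2 G G1 R : ℝ → ℝ} {y₀ : ℝ}
    (hV : ∀ y, HasDerivAt V (V1 y) y) (hV1 : ∀ y, HasDerivAt V1 (V2 y) y)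
    (hV2c : Continuous V2) (hV2 : ∀ y, 0 ≤ V2 y) (h0 : V1 y₀ = 0)
    (hG : ∀ y, HasDerivAt G (G1 y) y) (hG1 : Continuous G1)
    (hR : Continuous R) (hR0 : ∀ y, 0 ≤ R y) (hle : ∀ y, G1 y ^ 2 ≤ V2 y * R y) :
    ∫⁻ y, ENNReal.ofReal ((G y - G y₀) ^ 2 * Real.exp (-V y)) ≤
      ∫⁻ y, ENNReal.ofReal (R y * Real.exp (-V y)) := by
  have hright := bl1_half hV hV1 hV2c hV2 h0 hG hG1 hR hR0 hle
  have dneg : ∀ y : ℝ, HasDerivAt (fun z : ℝ => -z) (-1) y := fun y => (hasDerivAt_id y).neg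
  have hleft : ∫⁻ y in Ioi (-y₀), ENNReal.ofReal ((G (-y) - G (-(-y₀))) ^ 2 *
      Real.exp (-V (-y))) ≤ ∫⁻ y in Ioi (-y₀), ENNReal.ofReal (R (-y) * Real.exp (-V (-y))) := by
    refine bl1_half (V := fun y => V (-y)) (V1 := fun y => -V1 (-y)) (V2 := fun y => V2 (-y))
      (G := fun y => G (-y)) (G1 := fun y => -G1 (-y)) (R := fun y => R (-y)) (y₀ := -y₀)
      ?_ ?_ ?_ ?_ ?_ ?_ ?_ ?_ ?_ ?_
    · intro y
      have := (hV (-y)).comp y (dneg y)
      simpa [Function.comp_def] using this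
    · intro y
      have := ((hV1 (-y)).comp y (dneg y)).neg
      exact this.congr_deriv (by simp)
    · fun_prop
    · exact fun y => hV2 (-y)
    · simp [h0]
    · intro y
      have := (hG (-y)).comp y (dneg y)
      simpa [Function.comp_def] using this
    · fun_prop
    · fun_prop
    · exact fun y => hR0 (-y)
    · intro y
      have := hle (-y)
      simpa using this
  rw [neg_neg] at hleft
  have hrefl : ∀ k : ℝ → ℝ≥0∞, ∫⁻ y in Ioi (-y₀), k (-y) = ∫⁻ y in Iic y₀, k y := by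
    intro k
    have h1 := (Measure.measurePreserving_neg (volume : Measure ℝ)).setLIntegral_comp_preimage_emb
      (MeasurableEquiv.neg ℝ).measurableEmbedding k (Iic y₀)
    rw [← h1]
    have h2 : Neg.neg ⁻¹' Iic y₀ = Ici (-y₀) := by
      ext x; simp
    rw [h2]
    exact setLIntegral_congr Ioi_ae_eq_Ici
  rw [hrefl (fun y => ENNReal.ofReal ((G y - G y₀) ^ 2 * Real.exp (-V y))),
    hrefl (fun y => ENNReal.ofReal (R y * Real.exp (-V y)))] at hleft
  rw [← lintegral_add_compl (fun y => ENNReal.ofReal ((G y - G y₀) ^ 2 * Real.exp (-V y)))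
    (measurableSet_Iic (a := y₀)), ← lintegral_add_compl
    (fun y => ENNReal.ofReal (R y * Real.exp (-V y))) (measurableSet_Iic (a := y₀)), compl_Iic]
  exact add_le_add hleft hright

/-! ### R8b -/

/-- R8b -/
theorem vhat {V : ℝ → ℝ} (hV : ConvexOn ℝ Set.univ V) {y₀ : ℝ} (hmin : ∀ y, V y₀ ≤ V y)
    (hint : Integrable (fun y => Real.exp (-V y))) (h1 : ∫ y, Real.exp (-V y) = 1) :
    Integrable (fun y => (V y - V y₀) ^ 2 * Real.exp (-V y)) ∧
      ∫ y, (V y - V y₀) ^ 2 * Real.exp (-V y) ≤ 16 := by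
  have cV : Continuous V := by
    have := hV.continuousOn_interior
    rw [interior_univ] at this
    exact continuousOn_univ.1 this
  -- the dominating function
  have hpt : ∀ y, (V y - V y₀) ^ 2 * Real.exp (-V y) ≤
      8 * Real.exp (-V ((1 / 2) * y + (1 / 2) * y₀)) := by
    intro y
    have h2 := hV.2 (mem_univ y) (mem_univ y₀) (by norm_num : (0:ℝ) ≤ 1 / 2)
      (by norm_num : (0:ℝ) ≤ 1 / 2) (by norm_num)
    simp only [smul_eq_mul] at h2
    have hU : 0 ≤ (V y - V y₀) / 2 := by linarith [hmin y]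
    have h3 := Real.quadratic_le_exp_of_nonneg hU
    have h4 : (V y - V y₀) ^ 2 ≤ 8 * Real.exp ((V y - V y₀) / 2) := by nlinarith
    calc (V y - V y₀) ^ 2 * Real.exp (-V y)
        ≤ (8 * Real.exp ((V y - V y₀) / 2)) * Real.exp (-V y) :=
          mul_le_mul_of_nonneg_right h4 (Real.exp_pos _).le
      _ = 8 * Real.exp ((V y - V y₀) / 2 + (-V y)) := by rw [mul_assoc, Real.exp_add]
      _ ≤ 8 * Real.exp (-V ((1 / 2) * y + (1 / 2) * y₀)) := by
          gcongr
          linarith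
  have hci : Integrable (fun y => Real.exp (-V ((1 / 2) * y + (1 / 2) * y₀))) := by
    have := (hint.comp_add_right ((1 / 2) * y₀)).comp_mul_left' (R := (1 / 2 : ℝ)) (by norm_num)
    exact this
  have hcv : ∫ y, Real.exp (-V ((1 / 2) * y + (1 / 2) * y₀)) = 2 := by
    have e1 := Measure.integral_comp_mul_left
      (fun y => Real.exp (-V (y + (1 / 2) * y₀))) (1 / 2 : ℝ)
    rw [e1, integral_add_right_eq_self (fun y => Real.exp (-V y)) ((1 / 2) * y₀), h1]
    norm_num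
  have hi : Integrable (fun y => (V y - V y₀) ^ 2 * Real.exp (-V y)) := by
    refine (hci.const_mul 8).mono' (by fun_prop : Continuous fun y =>
      (V y - V y₀) ^ 2 * Real.exp (-V y)).aestronglyMeasurable (Eventually.of_forall fun y => ?_)
    rw [Real.norm_of_nonneg (by positivity)]
    exact hpt y
  refine ⟨hi, ?_⟩
  calc ∫ y, (V y - V y₀) ^ 2 * Real.exp (-V y)
      ≤ ∫ y, 8 * Real.exp (-V ((1 / 2) * y + (1 / 2) * y₀)) :=
        integral_mono hi (hci.const_mul 8) hpt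
    _ = 16 := by rw [integral_const_mul, hcv]; norm_num

/-! ### R8c -/

/-- R8c -/
theorem twoD : ∃ C : ℝ, 0 < C ∧ ∀ (ν N₁ N₂ : ℝ → ℝ), (∀ y, 0 < ν y) → (∀ y, 0 < N₁ y) →
    (∀ y, 0 < N₂ y) → ConcaveOn ℝ Set.univ (fun y => Real.log (ν y)) →
    ConcaveOn ℝ Set.univ (fun y => Real.log (N₁ y)) →
    Integrable ν → Integrable N₁ → Integrable N₂ →
    ∫ y, ν y = 1 → ∫ y, N₁ y ≤ 4 → ∫ y, N₂ y ≤ 4 →
    (∀ y, ν y ^ 2 ≤ N₁ y * N₂ y) → ∀ y₀ : ℝ, (∀ y, ν y ≤ ν y₀) → ∀ y, N₁ y ≤ C * ν y₀ := by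
  refine ⟨256, by norm_num, ?_⟩
  intro ν N₁ N₂ hν hN₁ hN₂ _ hlc hiν hi1 hi2 h1 h4 h4' hle y₀ hmax y
  have ha0 : 0 < ν y₀ := hν y₀
  set r := Real.sqrt (ν y₀) with hr
  have hr0 : 0 < r := Real.sqrt_pos.2 ha0
  have hra : r ^ 2 = ν y₀ := Real.sq_sqrt ha0.le
  -- pointwise lower bound
  have hpt : ∀ z, 3 / (4 * r) * ν z - 1 / (16 * r) * N₂ z ≤ Real.sqrt (N₁ z) := by
    intro z
    set s := Real.sqrt (N₂ z) with hs
    have hs0 : 0 < s := Real.sqrt_pos.2 (hN₂ z)
    have hs2 : s ^ 2 = N₂ z := Real.sq_sqrt (hN₂ z).le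
    set t := Real.sqrt (N₁ z) with ht
    have ht0 : 0 < t := Real.sqrt_pos.2 (hN₁ z)
    have ht2 : t ^ 2 = N₁ z := Real.sq_sqrt (hN₁ z).le
    have hνst : ν z ≤ t * s := by
      have := hle z
      rw [← ht2, ← hs2, ← mul_pow] at this
      exact (pow_le_pow_iff_left₀ (hν z).le (by positivity) (by norm_num)).1 this
    have hνa : ν z ≤ r ^ 2 := by rw [hra]; exact hmax z
    have key : (12 * ν z - s ^ 2) * (s * r ^ 2) ≤ (16 * r * t) * (s * r ^ 2) := by
      have k1 : 0 ≤ ν z * ((s - 2 * r) ^ 2 * (s + 4 * r)) :=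
        mul_nonneg (hν z).le (mul_nonneg (sq_nonneg _) (by positivity))
      have k2 : ν z * s ^ 3 ≤ r ^ 2 * s ^ 3 :=
        mul_le_mul_of_nonneg_right hνa (by positivity)
      have k3 : 16 * r ^ 3 * ν z ≤ 16 * r ^ 3 * (t * s) :=
        mul_le_mul_of_nonneg_left hνst (by positivity)
      nlinarith
    have key2 : 12 * ν z - s ^ 2 ≤ 16 * r * t := le_of_mul_le_mul_right key (by positivity)
    have e : 3 / (4 * r) * ν z - 1 / (16 * r) * N₂ z = (12 * ν z - s ^ 2) / (16 * r) := by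
      rw [← hs2]; field_simp; ring
    rw [e, div_le_iff₀ (by positivity)]
    linarith
  have hmid : ∀ z, Real.sqrt (N₁ y) * Real.sqrt (N₁ z) ≤ N₁ ((1 / 2) * z + (1 / 2) * y) := by
    intro z
    have h2 := hlc.2 (mem_univ z) (mem_univ y) (by norm_num : (0:ℝ) ≤ 1 / 2)
      (by norm_num : (0:ℝ) ≤ 1 / 2) (by norm_num)
    simp only [smul_eq_mul] at h2
    rw [← Real.sqrt_mul (hN₁ y).le]
    refine Real.sqrt_le_iff.2 ⟨(hN₁ _).le, ?_⟩
    rw [← Real.log_le_log_iff (mul_pos (hN₁ _) (hN₁ _)) (pow_pos (hN₁ _) 2),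
      Real.log_mul (hN₁ _).ne' (hN₁ _).ne', Real.log_pow]
    push_cast
    linarith
  have hci : Integrable (fun z => N₁ ((1 / 2) * z + (1 / 2) * y)) :=
    (hi1.comp_add_right ((1 / 2) * y)).comp_mul_left' (R := (1 / 2 : ℝ)) (by norm_num)
  have hcv : ∫ z, N₁ ((1 / 2) * z + (1 / 2) * y) ≤ 8 := by
    have e1 := Measure.integral_comp_mul_left
      (fun z => N₁ (z + (1 / 2) * y)) (1 / 2 : ℝ)
    rw [e1, integral_add_right_eq_self (fun z => N₁ z) ((1 / 2) * y)]
    norm_num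
    linarith
  have hint : ∫ z, Real.sqrt (N₁ y) * (3 / (4 * r) * ν z - 1 / (16 * r) * N₂ z) ≤ 8 := by
    refine le_trans (integral_mono (((hiν.const_mul _).sub (hi2.const_mul _)).const_mul _) hci
      fun z => ?_) hcv
    exact le_trans (mul_le_mul_of_nonneg_left (hpt z) (Real.sqrt_nonneg _)) (hmid z)
  rw [integral_const_mul, integral_sub (hiν.const_mul _) (hi2.const_mul _), integral_const_mul,
    integral_const_mul, h1] at hint
  have hs0 : 0 ≤ Real.sqrt (N₁ y) := Real.sqrt_nonneg _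
  have h5 : Real.sqrt (N₁ y) * (1 / (2 * r)) ≤ 8 := by
    refine le_trans (mul_le_mul_of_nonneg_left ?_ hs0) hint
    have : 1 / (16 * r) * ∫ y, N₂ y ≤ 1 / (16 * r) * 4 :=
      mul_le_mul_of_nonneg_left h4' (by positivity)
    have e : 1 / (2 * r) = 3 / (4 * r) * 1 - 1 / (16 * r) * 4 := by field_simp; norm_num
    rw [e]
    linarith
  have h6 : Real.sqrt (N₁ y) ≤ 16 * r := by
    rw [mul_one_div, div_le_iff₀ (by positivity)] at h5
    linarith
  calc N₁ y = Real.sqrt (N₁ y) ^ 2 := (Real.sq_sqrt (hN₁ y).le).symm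
    _ ≤ (16 * r) ^ 2 := pow_le_pow_left₀ hs0 h6 2
    _ = 256 * ν y₀ := by rw [mul_pow, hra]; norm_num

end Pool.Agent.Lib.MP_6d896a_gt.FP
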