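import Mathlib
import Pool.Agent.Lib.MP_6d896a_gt.FP.FibCalc
import Pool.Agent.Lib.MP_6d896a_gt.FP.NicePL
import Pool.Agent.Lib.MP_6d896a_gt.FP.Tail
import Pool.Agent.Lib.MP_6d896a_gt.FP.OneDim

/-!
Second moments of linear functionals on the fibres of a nice potential on `ℝ × F`.
-/

set_option autoImplicit false

namespace Pool.Agent.Lib.MP_6d896a_gt.FP

open MeasureTheory ProbabilityTheory Set Filter
open scoped ENNReal Topology

section affine

variable {E : Type*} [NormedAddCommGroup E] [NormedSpace ℝ E]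

/-- adding an affine function to a nice potential -/
lemma Nice.add_affine {φ : E → ℝ} (h : Nice φ) (L : E →L[ℝ] ℝ) (c : ℝ) :
    Nice (fun x => φ x + (L x + c)) := by
  have hd : ∀ x, DifferentiableAt ℝ φ x := fun x => h.cd.differentiable (by norm_num) x
  have e1 : fderiv ℝ (fun x => φ x + (L x + c)) = fun x => fderiv ℝ φ x + L := by
    funext x
    have h1 : HasFDerivAt (fun x => φ x + (L x + c)) (fderiv ℝ φ x + L) x :=
      (hd x).hasFDerivAt.add (L.hasFDerivAt.add_const c)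
    exact h1.fderiv
  have e2 : fderiv ℝ (fderiv ℝ (fun x => φ x + (L x + c))) = fderiv ℝ (fderiv ℝ φ) := by
    rw [e1]
    funext x
    exact fderiv_add_const _
  refine ⟨?_, ?_, ?_, ?_⟩
  · exact h.cd.add (L.contDiff.add contDiff_const)
  · rw [e2]; exact h.bd
  · rw [e2]; exact h.lip
  · obtain ⟨κ, hκ, H⟩ := h.sc
    refine ⟨κ, hκ, fun x y => ?_⟩
    have := H x y
    simp only [map_smul, map_add, smul_eq_mul]
    linarith

end affine

/-- Cauchy-Schwarz for two exponentials -/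
lemma cs_exp {X : Type*} [MeasurableSpace X] {μ : Measure X} {a u : X → ℝ}
    (h0 : Integrable (fun x => Real.exp (-a x)) μ)
    (h1 : Integrable (fun x => Real.exp (-(a x + u x))) μ)
    (h2 : Integrable (fun x => Real.exp (-(a x - u x))) μ)
    (hp : 0 < ∫ x, Real.exp (-(a x + u x)) ∂μ) (hq : 0 < ∫ x, Real.exp (-(a x - u x)) ∂μ) :
    (∫ x, Real.exp (-a x) ∂μ) ^ 2 ≤
      (∫ x, Real.exp (-(a x + u x)) ∂μ) * ∫ x, Real.exp (-(a x - u x)) ∂μ := by
  set P := ∫ x, Real.exp (-(a x + u x)) ∂μ with hP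
  set Q := ∫ x, Real.exp (-(a x - u x)) ∂μ with hQ
  set t := Real.sqrt (Q / P) with ht
  have ht0 : 0 < t := Real.sqrt_pos.2 (div_pos hq hp)
  have ht2 : t ^ 2 = Q / P := Real.sq_sqrt (div_pos hq hp).le
  have key : ∫ x, Real.exp (-a x) ∂μ ≤ t / 2 * P + 1 / (2 * t) * Q := by
    rw [hP, hQ, ← integral_const_mul, ← integral_const_mul,
      ← integral_add (h1.const_mul _) (h2.const_mul _)]
    refine integral_mono h0 ((h1.const_mul _).add (h2.const_mul _)) fun x => ?_
    have e1 : Real.exp (-(a x + u x)) = Real.exp (-a x) * Real.exp (-u x) := by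
      rw [← Real.exp_add]; congr 1; ring
    have e2 : Real.exp (-(a x - u x)) = Real.exp (-a x) * Real.exp (u x) := by
      rw [← Real.exp_add]; congr 1; ring
    simp only [e1, e2]
    have e3 : Real.exp (u x) = (Real.exp (-u x))⁻¹ := by rw [Real.exp_neg, inv_inv]
    rw [e3]
    set w := Real.exp (-u x) with hw
    have hw0 : 0 < w := Real.exp_pos _
    have e4 : 1 ≤ t / 2 * w + 1 / (2 * t) * w⁻¹ := by
      have : t / 2 * w + 1 / (2 * t) * w⁻¹ - 1 = (t * w - 1) ^ 2 / (2 * t * w) := by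
        field_simp
        ring
      have h3 : 0 ≤ (t * w - 1) ^ 2 / (2 * t * w) := by positivity
      linarith
    have e5 := mul_le_mul_of_nonneg_left e4 (Real.exp_pos (-a x)).le
    calc Real.exp (-a x) = Real.exp (-a x) * 1 := (mul_one _).symm
      _ ≤ Real.exp (-a x) * (t / 2 * w + 1 / (2 * t) * w⁻¹) := e5
      _ = _ := by ring
  have e6 : t / 2 * P + 1 / (2 * t) * Q = t * P := by
    have : Q = t ^ 2 * P := by rw [ht2]; field_simp
    rw [this]; field_simp; ring
  rw [e6] at key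
  have h3 : 0 ≤ ∫ x, Real.exp (-a x) ∂μ := integral_nonneg fun x => (Real.exp_pos _).le
  calc (∫ x, Real.exp (-a x) ∂μ) ^ 2 ≤ (t * P) ^ 2 := pow_le_pow_left₀ h3 key 2
    _ = P * (t ^ 2 * P) := by ring
    _ = P * Q := by rw [ht2]; field_simp

section main

variable {F : Type*} [NormedAddCommGroup F] [NormedSpace ℝ F] [MeasureSpace F]
    [BorelSpace F] [FiniteDimensional ℝ F] [(volume : Measure F).IsAddHaarMeasure]

omit [BorelSpace F] [FiniteDimensional ℝ F] in
lemma haar_prod' [BorelSpace F] [FiniteDimensional ℝ F] :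
    (volume : Measure (ℝ × F)).IsAddHaarMeasure := by
  rw [Measure.volume_eq_prod]
  infer_instance

/-- total mass by integrating over the fibres -/
lemma Nice.integral_fibre {ψ : ℝ × F → ℝ} (h : Nice ψ) :
    ∫ p, Real.exp (-ψ p) = ∫ y, Real.exp (-mV ψ y) := by
  have hh := haar_prod' (F := F)
  have hi : Integrable (fun p => Real.exp (-ψ p)) (volume : Measure (ℝ × F)) := h.integrable_exp
  rw [Measure.volume_eq_prod] at hi ⊢
  rw [integral_prod _ hi]
  congr 1
  ext1 y
  rw [exp_mV h]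

end main

/-- piece P4: second moments of linear functionals on the fibres -/
theorem fib_lin : ∃ C : ℝ, 0 < C ∧ ∀ (F : Type) [NormedAddCommGroup F] [NormedSpace ℝ F]
    [MeasureSpace F] [BorelSpace F] [FiniteDimensional ℝ F]
    [(volume : Measure F).IsAddHaarMeasure] (φ : ℝ × F → ℝ), Nice φ →
    ∀ (V : ℝ → ℝ) (y₀ : ℝ), (∀ y, ∫ x, Real.exp (-φ (y, x)) = Real.exp (-V y)) →
    (∀ y, V y₀ ≤ V y) → ∀ ℓ : ℝ × F →L[ℝ] ℝ, Var[fun p => ℓ p; gibbs φ] ≤ 1 →
    ∀ y, ∫ x, (ℓ (y, x) - ∫ p, ℓ p ∂(gibbs φ)) ^ 2 ∂(gibbs (fun x => φ (y, x))) ≤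
      C * (1 + (V y - V y₀)) ^ 2 := by
  obtain ⟨C, hC, twoD⟩ := twoD
  refine ⟨256 + 1024 * C, by positivity, ?_⟩
  intro F _ _ _ _ _ _ φ h V y₀ hV hmin ℓ hvar y
  have hh := haar_prod' (F := F)
  have hprob := gibbs_prob h
  set m := ∫ p, ℓ p ∂(gibbs φ) with hm
  set ξ : ℝ × F → ℝ := fun p => ℓ p - m with hξ
  have cξ : Continuous ξ := by fun_prop
  -- Chebyshev
  have hL2 : MemLp (fun p => ℓ p) 2 (gibbs φ) :=
    gibbs_memLp h ℓ.continuous.aestronglyMeasurable ‖ℓ‖ fun p => by
      refine (ℓ.le_opNorm p).trans ?_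
      gcongr
      linarith
  have hcheb : 3 / 4 ≤ (gibbs φ).real {x | |ξ x| ≤ 2} := by
    have h1 := meas_ge_le_variance_div_sq hL2 (c := 2) (by norm_num)
    have h2 : {x | |ξ x| ≤ 2}ᶜ ⊆ {p | 2 ≤ |ℓ p - ∫ p, ℓ p ∂(gibbs φ)|} := by
      intro p hp
      simp only [mem_compl_iff, mem_ofPred_eq, not_le] at hp ⊢
      exact hp.le
    have hmeas : MeasurableSet {x | |ξ x| ≤ 2} :=
      measurableSet_le cξ.abs.measurable measurable_const
    have h3 : (gibbs φ).real {x | |ξ x| ≤ 2}ᶜ ≤ 1 / 4 := by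
      have h4 : (gibbs φ) {x | |ξ x| ≤ 2}ᶜ ≤ ENNReal.ofReal (1 / 4) := by
        refine ((measure_mono h2).trans h1).trans ?_
        apply ENNReal.ofReal_le_ofReal
        have : Var[fun p => ℓ p; gibbs φ] / 2 ^ 2 ≤ 1 / 2 ^ 2 := by gcongr
        norm_num at this ⊢
        linarith
      rw [Measure.real]
      exact ENNReal.toReal_le_of_le_ofReal (by norm_num) h4
    rw [probReal_compl_eq_one_sub hmeas] at h3
    linarith
  have haff : ∀ x y : ℝ × F, ∀ l : ℝ, ξ ((1 - l) • x + l • y) = (1 - l) * ξ x + l * ξ y := by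
    intro x y l
    simp only [hξ, map_add, map_smul, smul_eq_mul]
    ring
  have hexp := h.plm_gibbs.exp_moment cξ.measurable haff (r := 2) (by norm_num) hcheb
  -- the two tilted potentials
  set ψ₁ : ℝ × F → ℝ := fun p => φ p + ((-(1 / 8 : ℝ) • ℓ) p + m / 8) with hψ₁
  set ψ₂ : ℝ × F → ℝ := fun p => φ p + (((1 / 8 : ℝ) • ℓ) p + -(m / 8)) with hψ₂
  have n₁ : Nice ψ₁ := h.add_affine _ _
  have n₂ : Nice ψ₂ := h.add_affine _ _
  have e₁ : ∀ p, ψ₁ p = φ p - ξ p / 8 := by
    intro p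
    simp only [hψ₁, hξ, _root_.smul_apply, smul_eq_mul]
    ring
  have e₂ : ∀ p, ψ₂ p = φ p + ξ p / 8 := by
    intro p
    simp only [hψ₂, hξ, _root_.smul_apply, smul_eq_mul]
    ring
  have hVm : ∀ y, V y = mV φ y := by
    intro y
    have h1 := hV y
    rw [← exp_mV h] at h1
    have h2 := Real.exp_injective h1
    linarith
  set Z := ∫ p, Real.exp (-φ p) with hZ
  have hZ0 : 0 < Z := h.Z_pos
  have hZy : Z = ∫ y, Real.exp (-V y) := by
    rw [hZ, h.integral_fibre]
    simp_rw [hVm]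
  -- masses of the tilted measures
  have mass : ∀ (ψ : ℝ × F → ℝ) (u : ℝ × F → ℝ), Nice ψ → Continuous u →
      (∀ p, ψ p = φ p - u p) → (∀ p, u p ≤ |ξ p| / (4 * 2)) →
      ∫ y, Real.exp (-mV ψ y) / Z ≤ 4 := by
    intro ψ u hn hu he hle
    rw [integral_div, ← hn.integral_fibre]
    have h1 : (∫ p, Real.exp (-ψ p)) / Z = ∫ p, Real.exp (u p) ∂(gibbs φ) := by
      rw [gibbs_integral h, smul_eq_mul, ← hZ, div_eq_inv_mul]
      congr 2
      funext p
      rw [he, smul_eq_mul, ← Real.exp_add]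
      congr 1
      ring
    rw [h1, integral_eq_lintegral_of_nonneg_ae (Eventually.of_forall fun p => (Real.exp_pos _).le)
      (Real.continuous_exp.comp hu).aestronglyMeasurable]
    apply ENNReal.toReal_le_of_le_ofReal (by norm_num)
    have h4 : ENNReal.ofReal 4 = 4 := by norm_num
    rw [h4]
    refine le_trans (lintegral_mono fun p => ?_) hexp
    exact ENNReal.ofReal_le_ofReal (Real.exp_le_exp.2 (hle p))
  have mass₁ : ∫ y, Real.exp (-mV ψ₁ y) / Z ≤ 4 := by
    refine mass ψ₁ (fun p => ξ p / 8) n₁ (by fun_prop) (fun p => e₁ p) fun p => ?_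
    have := le_abs_self (ξ p)
    linarith
  have mass₂ : ∫ y, Real.exp (-mV ψ₂ y) / Z ≤ 4 := by
    refine mass ψ₂ (fun p => -(ξ p / 8)) n₂ (by fun_prop)
      (fun p => by rw [e₂]; ring) fun p => ?_
    have := neg_abs_le (ξ p)
    linarith
  have conc : ∀ ψ : ℝ × F → ℝ, Nice ψ →
      ConcaveOn ℝ univ (fun y => Real.log (Real.exp (-mV ψ y) / Z)) := by
    intro ψ hn
    have e : (fun y => Real.log (Real.exp (-mV ψ y) / Z)) =
        fun y => -mV ψ y + -Real.log Z := by
      funext y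
      rw [Real.log_div (Real.exp_pos _).ne' hZ0.ne', Real.log_exp]
      ring
    rw [e]
    exact (mV_convex hn).neg.add (concaveOn_const _ convex_univ)
  have cs : ∀ y, Real.exp (-V y) ^ 2 ≤ Real.exp (-mV ψ₁ y) * Real.exp (-mV ψ₂ y) := by
    intro y
    rw [exp_mV n₁, exp_mV n₂, ← hV y]
    have f₁ : (fun x => Real.exp (-ψ₁ (y, x))) =
        fun x => Real.exp (-(φ (y, x) + -(ξ (y, x) / 8))) := by
      funext x; rw [e₁]; ring_nf
    have f₂ : (fun x => Real.exp (-ψ₂ (y, x))) =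
        fun x => Real.exp (-(φ (y, x) - -(ξ (y, x) / 8))) := by
      funext x; rw [e₂]; ring_nf
    have i₁ := (n₁.slice y).integrable_exp
    have i₂ := (n₂.slice y).integrable_exp
    have p₁ := (n₁.slice y).Z_pos
    have p₂ := (n₂.slice y).Z_pos
    rw [f₁] at i₁ p₁ ⊢
    rw [f₂] at i₂ p₂ ⊢
    exact cs_exp (h.slice y).integrable_exp i₁ i₂ p₁ p₂
  have iV : Integrable (fun y => Real.exp (-V y) / Z) := by
    have := (integrable_exp_mV h).div_const Z
    simpa [hVm] using this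
  have i1V : ∫ y, Real.exp (-V y) / Z = 1 := by
    rw [integral_div, ← hZy]
    exact div_self hZ0.ne'
  have maxV : ∀ y, Real.exp (-V y) / Z ≤ Real.exp (-V y₀) / Z := by
    intro y
    gcongr
    linarith [hmin y]
  have bd₁ := twoD (fun y => Real.exp (-V y) / Z) (fun y => Real.exp (-mV ψ₁ y) / Z)
    (fun y => Real.exp (-mV ψ₂ y) / Z) (fun y => by positivity) (fun y => by positivity)
    (fun y => by positivity) (by simpa only [hVm] using conc φ h) (conc ψ₁ n₁) iV
    ((integrable_exp_mV n₁).div_const Z) ((integrable_exp_mV n₂).div_const Z) i1V mass₁ mass₂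
    (fun y => by
      rw [div_pow, div_mul_div_comm, ← pow_two]
      gcongr
      exact cs y) y₀ maxV y
  have bd₂ := twoD (fun y => Real.exp (-V y) / Z) (fun y => Real.exp (-mV ψ₂ y) / Z)
    (fun y => Real.exp (-mV ψ₁ y) / Z) (fun y => by positivity) (fun y => by positivity)
    (fun y => by positivity) (by simpa only [hVm] using conc φ h) (conc ψ₂ n₂) iV
    ((integrable_exp_mV n₂).div_const Z) ((integrable_exp_mV n₁).div_const Z) i1V mass₂ mass₁
    (fun y => by
      rw [div_pow, div_mul_div_comm, ← pow_two, mul_comm (Real.exp (-mV ψ₂ y))]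
      gcongr
      exact cs y) y₀ maxV y
  simp only [← mul_div_assoc] at bd₁ bd₂
  rw [div_le_div_iff_of_pos_right hZ0] at bd₁ bd₂
  -- the fibre
  set U := V y - V y₀ with hU
  have hU0 : 0 ≤ U := by have := hmin y; linarith
  have hpt : ∀ u : ℝ, u ^ 2 ≤ 256 * U ^ 2 +
      512 * Real.exp (-U) * (Real.exp (u / 8) + Real.exp (-(u / 8))) := by
    intro u
    have hpos : 0 ≤ 512 * Real.exp (-U) * (Real.exp (u / 8) + Real.exp (-(u / 8))) := by
      positivity
    by_cases hu : |u| ≤ 16 * U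
    · have : u ^ 2 ≤ (16 * U) ^ 2 := by
        rw [← sq_abs]
        exact pow_le_pow_left₀ (abs_nonneg _) hu 2
      nlinarith
    · push Not at hu
      have h1 := Real.quadratic_le_exp_of_nonneg (x := |u| / 16) (by positivity)
      have h2 : u ^ 2 ≤ 512 * Real.exp (|u| / 16) := by
        rw [← sq_abs]
        nlinarith [abs_nonneg u]
      have h3 : Real.exp (|u| / 16) ≤ Real.exp (-U) * Real.exp (|u| / 8) := by
        rw [← Real.exp_add]
        apply Real.exp_le_exp.2
        linarith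
      have h4 : Real.exp (|u| / 8) ≤ Real.exp (u / 8) + Real.exp (-(u / 8)) := by
        rcases abs_cases u with ⟨h5, _⟩ | ⟨h5, _⟩
        · rw [h5]
          linarith [Real.exp_pos (-(u / 8))]
        · rw [h5, neg_div]
          linarith [Real.exp_pos (u / 8)]
      have h5 : 0 ≤ 256 * U ^ 2 := by positivity
      calc u ^ 2 ≤ 512 * Real.exp (|u| / 16) := h2
        _ ≤ 512 * (Real.exp (-U) * Real.exp (|u| / 8)) := by gcongr
        _ ≤ 512 * (Real.exp (-U) * (Real.exp (u / 8) + Real.exp (-(u / 8)))) := by gcongr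
        _ ≤ _ := by linarith
  have hn := h.slice y
  rw [gibbs_integral hn, hV y, smul_eq_mul]
  have hmono : ∫ x, Real.exp (-φ (y, x)) • (ℓ (y, x) - m) ^ 2 ≤
      ∫ x, (256 * U ^ 2 * Real.exp (-φ (y, x)) + 512 * Real.exp (-U) *
        (Real.exp (-ψ₁ (y, x)) + Real.exp (-ψ₂ (y, x)))) := by
    refine integral_mono_of_nonneg (Eventually.of_forall fun x => by positivity)
      ((hn.integrable_exp.const_mul _).add
        (((n₁.slice y).integrable_exp.add (n₂.slice y).integrable_exp).const_mul _))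
      (Eventually.of_forall fun x => ?_)
    have h1 := mul_le_mul_of_nonneg_left (hpt (ξ (y, x))) (Real.exp_pos (-φ (y, x))).le
    have g₁ : Real.exp (-ψ₁ (y, x)) = Real.exp (-φ (y, x)) * Real.exp (ξ (y, x) / 8) := by
      rw [← Real.exp_add, e₁]; congr 1; ring
    have g₂ : Real.exp (-ψ₂ (y, x)) = Real.exp (-φ (y, x)) * Real.exp (-(ξ (y, x) / 8)) := by
      rw [← Real.exp_add, e₂]; congr 1; ring
    simp only [smul_eq_mul, g₁, g₂]
    refine h1.trans (le_of_eq ?_)
    ring
  have j₀ : Integrable (fun x => 256 * U ^ 2 * Real.exp (-φ (y, x))) :=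
    hn.integrable_exp.const_mul _
  have j₁ : Integrable (fun x => 512 * Real.exp (-U) *
      (Real.exp (-ψ₁ (y, x)) + Real.exp (-ψ₂ (y, x)))) :=
    ((n₁.slice y).integrable_exp.add (n₂.slice y).integrable_exp).const_mul _
  rw [integral_add j₀ j₁, integral_const_mul, integral_const_mul,
    integral_add (n₁.slice y).integrable_exp (n₂.slice y).integrable_exp, hV y,
    ← exp_mV n₁, ← exp_mV n₂] at hmono
  have hE : Real.exp (-V y₀) = Real.exp U * Real.exp (-V y) := by
    rw [← Real.exp_add, hU]; congr 1; ring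
  rw [hE] at bd₁ bd₂
  have hA0 : 0 < Real.exp (-V y) := Real.exp_pos _
  have hUU : Real.exp (-U) * Real.exp U = 1 := by rw [← Real.exp_add]; simp
  have hfin : ∫ x, Real.exp (-φ (y, x)) • (ℓ (y, x) - m) ^ 2 ≤
      Real.exp (-V y) * (256 * U ^ 2 + 1024 * C) := by
    refine hmono.trans ?_
    have h6 : 512 * Real.exp (-U) * (Real.exp (-mV ψ₁ y) + Real.exp (-mV ψ₂ y)) ≤
        512 * Real.exp (-U) * (C * (Real.exp U * Real.exp (-V y)) +
          C * (Real.exp U * Real.exp (-V y))) := by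
      gcongr
    have h7 : 512 * Real.exp (-U) * (C * (Real.exp U * Real.exp (-V y)) +
          C * (Real.exp U * Real.exp (-V y))) =
          1024 * C * (Real.exp (-U) * Real.exp U) * Real.exp (-V y) := by ring
    rw [h7, hUU] at h6
    linarith
  rw [inv_mul_le_iff₀ hA0]
  refine hfin.trans ?_
  gcongr
  nlinarith [mul_nonneg hC.le hU0, mul_nonneg hC.le (sq_nonneg U)]

end Pool.Agent.Lib.MP_6d896a_gt.FP
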