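import Mathlib
import Pool.Agent.Lib.MP_6d896a_gt.Bias
import Pool.Agent.Lib.MP_6d896a_gt.Growth

/-!
Strongly convex functions with bounded and Lipschitz second derivative are admissible potentials.
-/

set_option autoImplicit false

namespace Pool.Agent.Lib.MP_6d896a_gt.FP

open MeasureTheory ProbabilityTheory Set Filter
open scoped ENNReal Topology

variable {E : Type*} [NormedAddCommGroup E] [InnerProductSpace ℝ E] [FiniteDimensional ℝ E]
  [MeasurableSpace E] [BorelSpace E]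

/-- the gradient from the derivative -/
noncomputable def grd (P : E → E →L[ℝ] ℝ) (x : E) : E := (InnerProductSpace.toDual ℝ E).symm (P x)

omit [MeasurableSpace E] [BorelSpace E] in
lemma grd_inner (P : E → E →L[ℝ] ℝ) (x v : E) : inner ℝ (grd P x) v = P x v := by
  unfold grd
  exact InnerProductSpace.toDual_symm_apply

omit [MeasurableSpace E] [BorelSpace E] in
lemma grd_sub_norm (P : E → E →L[ℝ] ℝ) (x y : E) : ‖grd P x - grd P y‖ = ‖P x - P y‖ := by
  unfold grd
  rw [← map_sub, LinearIsometryEquiv.norm_map]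

section

variable {V : E → ℝ} {P : E → E →L[ℝ] ℝ} {Q : E → E →L[ℝ] E →L[ℝ] ℝ} {kap Lm C3 : ℝ}

omit [FiniteDimensional ℝ E] [MeasurableSpace E] [BorelSpace E] in
lemma line_deriv {G : Type*} [NormedAddCommGroup G] [NormedSpace ℝ G] {f : E → G}
    {f' : E → E →L[ℝ] G} (h : ∀ x, HasFDerivAt f (f' x) x) (x u : E) (t : ℝ) :
    HasDerivAt (fun t : ℝ => f (x + t • u)) (f' (x + t • u) u) t := by
  have h1 : HasDerivAt (fun t : ℝ => x + t • u) ((1 : ℝ) • u) t :=
    ((hasDerivAt_id t).smul_const u).const_add x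
  rw [one_smul] at h1
  exact (h (x + t • u)).comp_hasDerivAt t h1

omit [FiniteDimensional ℝ E] [MeasurableSpace E] [BorelSpace E] in
/-- second order remainder of the gradient -/
lemma grad_rem (hQ : ∀ x, HasFDerivAt P (Q x) x)
    (hC : ∀ x y, ‖Q x - Q y‖ ≤ C3 * ‖x - y‖) (hC0 : 0 ≤ C3) (x u : E) {t : ℝ} (ht0 : 0 ≤ t)
    (ht1 : t ≤ 1) :
    |P (x + t • u) u - P x u - t * Q (x + t • u) u u| ≤ C3 * ‖u‖ ^ 3 := by
  set y := x + t • u with hy
  have hd : ∀ r : ℝ, HasDerivAt (fun r : ℝ => P (x + r • (t • u)) u - r * (t * Q y u u))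
      (t * (Q (x + r • (t • u)) - Q y) u u) r := by
    intro r
    have h1 := (line_deriv hQ x (t • u) r).clm_apply (hasDerivAt_const r u)
    have h2 : HasDerivAt (fun r : ℝ => r * (t * Q y u u)) (1 * (t * Q y u u)) r :=
      (hasDerivAt_id r).mul_const _
    have h3 := h1.sub h2
    refine h3.congr_deriv ?_
    simp only [map_zero, add_zero, map_smul, _root_.smul_apply, smul_eq_mul,
      _root_.sub_apply]
    ring
  have hb : ∀ r ∈ Ico (0 : ℝ) 1, ‖t * (Q (x + r • (t • u)) - Q y) u u‖ ≤ C3 * ‖u‖ ^ 3 := by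
    intro r hr
    rw [norm_mul, Real.norm_eq_abs, abs_of_nonneg ht0]
    have h1 : ‖(Q (x + r • (t • u)) - Q y) u u‖ ≤ ‖Q (x + r • (t • u)) - Q y‖ * ‖u‖ * ‖u‖ :=
      ContinuousLinearMap.le_opNorm₂ _ _ _
    have h2 := hC (x + r • (t • u)) y
    have h3 : ‖(x + r • (t • u)) - y‖ ≤ ‖u‖ := by
      have e : (x + r • (t • u)) - y = ((r - 1) * t) • u := by
        rw [hy, smul_smul]
        rw [show (r - 1) * t = r * t - t by ring, sub_smul]
        abel
      rw [e, norm_smul, Real.norm_eq_abs, abs_mul, abs_of_nonneg ht0]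
      have h4 : |r - 1| ≤ 1 := by
        rw [abs_le]; constructor <;> linarith [hr.1, hr.2]
      have h5 : |r - 1| * t ≤ 1 := mul_le_one₀ h4 ht0 ht1
      have := norm_nonneg u
      nlinarith
    have h4 : ‖Q (x + r • (t • u)) - Q y‖ ≤ C3 * ‖u‖ :=
      h2.trans (mul_le_mul_of_nonneg_left h3 hC0)
    have h5 : ‖Q (x + r • (t • u)) - Q y‖ * ‖u‖ * ‖u‖ ≤ C3 * ‖u‖ * ‖u‖ * ‖u‖ := by
      have := norm_nonneg u
      gcongr
    have h6 : 0 ≤ C3 * ‖u‖ ^ 3 := by positivity
    calc t * ‖(Q (x + r • (t • u)) - Q y) u u‖ ≤ t * (C3 * ‖u‖ * ‖u‖ * ‖u‖) :=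
          mul_le_mul_of_nonneg_left (h1.trans h5) ht0
      _ = t * (C3 * ‖u‖ ^ 3) := by ring
      _ ≤ 1 * (C3 * ‖u‖ ^ 3) := mul_le_mul_of_nonneg_right ht1 h6
      _ = _ := one_mul _
  have h := norm_image_sub_le_of_norm_deriv_le_segment_01' (fun r _ => (hd r).hasDerivWithinAt) hb
  rw [Real.norm_eq_abs] at h
  simp only [one_smul, zero_smul, add_zero, zero_mul, sub_zero, one_mul] at h
  have e : P (x + t • u) u - P x u - t * Q y u u = P (x + t • u) u - t * Q y u u - P x u := by ring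
  rw [e]
  exact h

omit [FiniteDimensional ℝ E] [MeasurableSpace E] [BorelSpace E] in
/-- trapezoid rule -/
lemma trap_of (hP : ∀ x, HasFDerivAt V (P x) x) (hQ : ∀ x, HasFDerivAt P (Q x) x)
    (hC : ∀ x y, ‖Q x - Q y‖ ≤ C3 * ‖x - y‖) (hC0 : 0 ≤ C3) (x u : E) :
    |V (x + u) - V x - (1 / 2) * (P x u + P (x + u) u)| ≤ C3 * ‖u‖ ^ 3 := by
  have hd : ∀ t : ℝ, HasDerivAt (fun t : ℝ => V (x + t • u) - V x -
      (t / 2) * (P x u + P (x + t • u) u))
      ((1 / 2) * (P (x + t • u) u - P x u - t * Q (x + t • u) u u)) t := by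
    intro t
    have h1 := (line_deriv hP x u t).sub_const (V x)
    have h2 := (line_deriv hQ x u t).clm_apply (hasDerivAt_const t u)
    have h3 : HasDerivAt (fun t : ℝ => t / 2) (1 / 2) t := (hasDerivAt_id t).div_const 2
    have h4 := h1.sub (h3.mul (h2.const_add (P x u)))
    refine h4.congr_deriv ?_
    simp only [map_zero, add_zero]
    ring
  have hb : ∀ t ∈ Ico (0 : ℝ) 1,
      ‖(1 / 2) * (P (x + t • u) u - P x u - t * Q (x + t • u) u u)‖ ≤ C3 * ‖u‖ ^ 3 := by
    intro t ht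
    rw [norm_mul, Real.norm_eq_abs, Real.norm_eq_abs, abs_of_pos (by norm_num : (0 : ℝ) < 1 / 2)]
    have h1 := grad_rem hQ hC hC0 x u ht.1 ht.2.le
    have h2 : 0 ≤ C3 * ‖u‖ ^ 3 := by positivity
    linarith
  have h := norm_image_sub_le_of_norm_deriv_le_segment_01' (fun r _ => (hd r).hasDerivWithinAt) hb
  rw [Real.norm_eq_abs] at h
  simp only [one_smul, zero_smul, add_zero, zero_div, zero_mul, sub_self, sub_zero] at h
  exact h

omit [FiniteDimensional ℝ E] [MeasurableSpace E] [BorelSpace E] in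
/-- lower bound for the second derivative -/
lemma quad_lower (hQ : ∀ x, HasFDerivAt P (Q x) x)
    (hmono : ∀ x y, kap * ‖x - y‖ ^ 2 ≤ (P x - P y) (x - y)) (x v : E) :
    kap * ‖v‖ ^ 2 ≤ Q x v v := by
  have h1 := (line_deriv hQ x v 0).clm_apply (hasDerivAt_const (0 : ℝ) v)
  simp only [zero_smul, add_zero, map_zero] at h1
  have h2 := h1.tendsto_slope_zero_right
  simp only [zero_add, zero_smul, add_zero] at h2
  apply ge_of_tendsto h2
  filter_upwards [self_mem_nhdsWithin] with t ht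
  have ht' : (0 : ℝ) < t := ht
  have h3 := hmono (x + t • v) x
  rw [add_sub_cancel_left, norm_smul, Real.norm_eq_abs, abs_of_pos ht', map_smul, smul_eq_mul,
    _root_.sub_apply] at h3
  rw [smul_eq_mul, ← div_eq_inv_mul, le_div_iff₀ ht']
  have h4 : t * (kap * ‖v‖ ^ 2 * t) ≤ t * (P (x + t • v) v - P x v) := by
    calc t * (kap * ‖v‖ ^ 2 * t) = kap * (t * ‖v‖) ^ 2 := by ring
      _ ≤ _ := h3
  exact le_of_mul_le_mul_left h4 ht'

omit [MeasurableSpace E] [BorelSpace E] in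
lemma contr_of (hP : ∀ x, HasFDerivAt V (P x) x) (hQ : ∀ x, HasFDerivAt P (Q x) x)
    (hL : ∀ x, ‖Q x‖ ≤ Lm)
    (hmono : ∀ x y, kap * ‖x - y‖ ^ 2 ≤ (P x - P y) (x - y)) (hk : 0 < kap)
    {h : ℝ} (hh : 0 ≤ h) (h1 : h * (kap + Lm) ≤ 1) (x y : E) :
    ‖(x - h • grd P x) - (y - h • grd P y)‖ ≤ (1 - kap * h) * ‖x - y‖ := by
  have hL0 : 0 ≤ Lm := (norm_nonneg (Q 0)).trans (hL 0)
  set c := 1 - kap * h with hc
  have hc0 : 0 ≤ c := by rw [hc]; nlinarith
  have hcL : h * Lm ≤ c := by rw [hc]; nlinarith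
  let J : (E →L[ℝ] ℝ) →L[ℝ] E := LinearMap.toContinuousLinearMap
    { toFun := fun L => (InnerProductSpace.toDual ℝ E).symm L
      map_add' := fun a b => map_add _ a b
      map_smul' := fun r L => by simp }
  have hJ0 : ∀ L : E →L[ℝ] ℝ, J L = (InnerProductSpace.toDual ℝ E).symm L := fun L => rfl
  have hJ : ∀ (L : E →L[ℝ] ℝ) (w : E), inner ℝ (J L) w = L w := by
    intro L w
    rw [hJ0]
    exact InnerProductSpace.toDual_symm_apply
  have hd : ∀ z, HasFDerivAt (fun z => z - h • grd P z)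
      (ContinuousLinearMap.id ℝ E - h • (J.comp (Q z))) z := by
    intro z
    have h2 : HasFDerivAt (grd P) (J.comp (Q z)) z := J.hasFDerivAt.comp z (hQ z)
    exact (hasFDerivAt_id z).sub (h2.const_smul h)
  have hb : ∀ z, ‖ContinuousLinearMap.id ℝ E - h • (J.comp (Q z))‖ ≤ c := by
    intro z
    apply ContinuousLinearMap.opNorm_le_bound _ hc0
    intro v
    set T := ContinuousLinearMap.id ℝ E - h • (J.comp (Q z)) with hT
    have hTi : ∀ a b : E, inner ℝ (T a) b = inner ℝ a b - h * Q z a b := by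
      intro a b
      rw [hT]
      simp only [_root_.sub_apply, ContinuousLinearMap.id_apply, _root_.smul_apply,
        ContinuousLinearMap.comp_apply]
      rw [inner_sub_left, inner_smul_left, hJ, conj_trivial]
    have hsym : ∀ a b : E, Q z a b = Q z b a := fun a b =>
      second_derivative_symmetric hP (hQ z) a b
    have hB0 : ∀ a : E, |inner ℝ (T a) a| ≤ c * ‖a‖ ^ 2 := by
      intro a
      rw [hTi, real_inner_self_eq_norm_sq]
      have h3 := quad_lower hQ hmono z a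
      have h4 : Q z a a ≤ Lm * ‖a‖ ^ 2 := by
        have h5 : ‖Q z a a‖ ≤ ‖Q z‖ * ‖a‖ * ‖a‖ := ContinuousLinearMap.le_opNorm₂ _ _ _
        rw [Real.norm_eq_abs] at h5
        have h6 := le_abs_self (Q z a a)
        have h7 : ‖Q z‖ * ‖a‖ * ‖a‖ ≤ Lm * ‖a‖ * ‖a‖ := by
          have := hL z
          have := norm_nonneg a
          gcongr
        nlinarith
      have h8 : 0 ≤ ‖a‖ ^ 2 := by positivity
      have h9 : h * (kap * ‖a‖ ^ 2) ≤ h * Q z a a := mul_le_mul_of_nonneg_left h3 hh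
      have h10 : h * Q z a a ≤ h * (Lm * ‖a‖ ^ 2) := mul_le_mul_of_nonneg_left h4 hh
      have h11 : h * (Lm * ‖a‖ ^ 2) ≤ c * ‖a‖ ^ 2 := by
        have := mul_le_mul_of_nonneg_right hcL h8
        linarith
      have h12 : c * ‖a‖ ^ 2 = ‖a‖ ^ 2 - h * (kap * ‖a‖ ^ 2) := by rw [hc]; ring
      rw [abs_le]
      constructor
      · nlinarith [mul_nonneg hc0 h8]
      · linarith
    -- polarisation
    have hpol : ∀ a b : E, 2 * inner ℝ (T a) b ≤ c * (‖a‖ ^ 2 + ‖b‖ ^ 2) := by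
      intro a b
      have h3 := (abs_le.mp (hB0 (a + b))).2
      have h4 := (abs_le.mp (hB0 (a - b))).1
      rw [map_add, inner_add_left, inner_add_right, inner_add_right] at h3
      rw [map_sub, inner_sub_left, inner_sub_right, inner_sub_right] at h4
      have h5 : inner ℝ (T b) a = inner ℝ (T a) b := by
        rw [hTi, hTi, hsym b a, real_inner_comm]
      rw [h5] at h3 h4
      have h6 := norm_add_sq_real a b
      have h7 := norm_sub_sq_real a b
      rw [h6] at h3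
      rw [h7] at h4
      linarith
    have h3 := hpol (c • v) (T v)
    rw [map_smul, inner_smul_left, conj_trivial, real_inner_self_eq_norm_sq, norm_smul,
      Real.norm_eq_abs, abs_of_nonneg hc0, mul_pow] at h3
    rcases hc0.eq_or_lt with h4 | h4
    · have h5 := hpol v (T v)
      rw [real_inner_self_eq_norm_sq, ← h4, zero_mul] at h5
      rw [← h4, zero_mul]
      have h6 : ‖T v‖ ^ 2 ≤ 0 := by linarith
      have h7 : ‖T v‖ = 0 := by
        have := sq_nonneg ‖T v‖
        exact pow_eq_zero_iff (two_ne_zero) |>.mp (le_antisymm h6 this)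
      exact h7.le
    · have h5 : c * ‖T v‖ ^ 2 ≤ c * (c ^ 2 * ‖v‖ ^ 2) := by linarith
      have h6 := le_of_mul_le_mul_left h5 h4
      rw [← mul_pow] at h6
      exact (abs_le_of_sq_le_sq' h6 (by positivity)).2
  exact convex_univ.norm_image_sub_le_of_norm_hasFDerivWithin_le
    (fun w _ => (hd w).hasFDerivWithinAt) (fun w _ => hb w) (Set.mem_univ y) (Set.mem_univ x)

omit [FiniteDimensional ℝ E] [MeasurableSpace E] [BorelSpace E] in
/-- quadratic lower bound -/
lemma lower_of (hP : ∀ x, HasFDerivAt V (P x) x)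
    (hmono : ∀ x y, kap * ‖x - y‖ ^ 2 ≤ (P x - P y) (x - y)) (x : E) :
    V 0 + P 0 x + kap / 2 * ‖x‖ ^ 2 ≤ V x := by
  have hd : ∀ t : ℝ, HasDerivAt (fun t : ℝ => V (0 + t • x) - t * P 0 x - kap / 2 * t ^ 2 * ‖x‖ ^ 2)
      (P (0 + t • x) x - P 0 x - kap * t * ‖x‖ ^ 2) t := by
    intro t
    have h1 := line_deriv hP 0 x t
    have h2 : HasDerivAt (fun t : ℝ => t * P 0 x) (1 * P 0 x) t := (hasDerivAt_id t).mul_const _
    have h3 : HasDerivAt (fun t : ℝ => kap / 2 * t ^ 2 * ‖x‖ ^ 2)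
        (kap / 2 * (2 * t) * ‖x‖ ^ 2) t := by
      have := (((hasDerivAt_pow 2 t).const_mul (kap / 2)).mul_const (‖x‖ ^ 2))
      simpa using this
    have h4 := (h1.sub h2).sub h3
    refine h4.congr_deriv ?_
    ring
  have hmon : MonotoneOn (fun t : ℝ => V (0 + t • x) - t * P 0 x - kap / 2 * t ^ 2 * ‖x‖ ^ 2)
      (Icc 0 1) := by
    apply monotoneOn_of_deriv_nonneg (convex_Icc 0 1)
    · exact fun t _ => (hd t).continuousAt.continuousWithinAt
    · exact fun t _ => (hd t).differentiableAt.differentiableWithinAt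
    · intro t ht
      rw [interior_Icc] at ht
      rw [(hd t).deriv]
      have h1 := hmono (0 + t • x) 0
      rw [sub_zero, zero_add, norm_smul, Real.norm_eq_abs, abs_of_pos ht.1, map_smul, smul_eq_mul,
        _root_.sub_apply] at h1
      have h2 : t * (kap * t * ‖x‖ ^ 2) ≤ t * (P (t • x) x - P 0 x) := by
        calc t * (kap * t * ‖x‖ ^ 2) = kap * (t * ‖x‖) ^ 2 := by ring
          _ ≤ _ := h1
      have h3 := le_of_mul_le_mul_left h2 ht.1
      rw [zero_add]
      linarith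
  have h := hmon (left_mem_Icc.mpr zero_le_one) (right_mem_Icc.mpr zero_le_one) zero_le_one
  simp only [zero_smul, add_zero, zero_mul, sub_zero, one_smul, zero_add, one_mul, one_pow,
    mul_one] at h
  simp only [ne_eq, OfNat.ofNat_ne_zero, not_false_eq_true, zero_pow, mul_zero, zero_mul,
    sub_zero] at h
  linarith

theorem pot_of (hP : ∀ x, HasFDerivAt V (P x) x) (hQ : ∀ x, HasFDerivAt P (Q x) x)
    (hk : 0 < kap) (hL : ∀ x, ‖Q x‖ ≤ Lm) (hC0 : 0 ≤ C3)
    (hC : ∀ x y, ‖Q x - Q y‖ ≤ C3 * ‖x - y‖)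
    (hmono : ∀ x y, kap * ‖x - y‖ ^ 2 ≤ (P x - P y) (x - y)) :
    Pot V (grd P) kap Lm C3 := by
  have hL0 : 0 ≤ Lm := (norm_nonneg (Q 0)).trans (hL 0)
  refine ⟨hk, hL0, hC0, ?_, ?_, ?_, ?_, ?_, ?_⟩
  · exact continuous_iff_continuousAt.mpr fun x => (hP x).continuousAt
  · have hQc : Continuous Q := by
      have : LipschitzWith (Real.toNNReal C3) Q := by
        apply LipschitzWith.of_dist_le_mul
        intro a b
        rw [dist_eq_norm, dist_eq_norm, Real.coe_toNNReal _ hC0]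
        exact hC a b
      exact this.continuous
    have hPc : ContDiff ℝ 1 P := by
      rw [contDiff_one_iff_fderiv]
      refine ⟨fun x => (hQ x).differentiableAt, ?_⟩
      have : fderiv ℝ P = Q := funext fun x => (hQ x).fderiv
      rw [this]
      exact hQc
    exact (InnerProductSpace.toDual ℝ E).symm.contDiff.comp hPc
  · intro x y
    have h := trap_of hP hQ hC hC0 x (y - x)
    rw [add_sub_cancel] at h
    rw [inner_add_left, grd_inner, grd_inner]
    exact h
  · intro x y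
    rw [grd_sub_norm]
    exact convex_univ.norm_image_sub_le_of_norm_hasFDerivWithin_le
      (fun w _ => (hQ w).hasFDerivWithinAt) (fun w _ => hL w) (Set.mem_univ y) (Set.mem_univ x)
  · intro h hh h1 x y
    exact contr_of hP hQ hL hmono hk hh h1 x y
  · -- moments
    have hb : ∀ x : E, Real.exp (-V x) * (1 + ‖x‖) ^ 4 ≤
        (Real.exp (-V 0 + ‖P 0‖ ^ 2 / kap) * (8 + 16 / (kap / 8) ^ 2)) *
          Real.exp (-(kap / 8) * ‖x‖ ^ 2) := by
      intro x
      have h1 := lower_of hP hmono x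
      have h2 : -(‖P 0‖ * ‖x‖) ≤ P 0 x := by
        have h3 := (P 0).le_opNorm x
        rw [Real.norm_eq_abs] at h3
        exact (abs_le.mp h3).1
      have h3 : ‖P 0‖ * ‖x‖ ≤ kap / 4 * ‖x‖ ^ 2 + ‖P 0‖ ^ 2 / kap := by
        have : kap / 4 * ‖x‖ ^ 2 + ‖P 0‖ ^ 2 / kap - ‖P 0‖ * ‖x‖ =
            (kap / 2 * ‖x‖ - ‖P 0‖) ^ 2 / kap := by
          field_simp
          ring
        have h5 : 0 ≤ (kap / 2 * ‖x‖ - ‖P 0‖) ^ 2 / kap := by positivity
        linarith
      have h5 : -V x ≤ (-V 0 + ‖P 0‖ ^ 2 / kap) - kap / 4 * ‖x‖ ^ 2 := by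
        nlinarith
      have h6 := growth_bound (s := kap / 8) (r := ‖x‖) (by positivity) (norm_nonneg _)
      calc Real.exp (-V x) * (1 + ‖x‖) ^ 4
          ≤ Real.exp ((-V 0 + ‖P 0‖ ^ 2 / kap) - kap / 4 * ‖x‖ ^ 2) *
            ((8 + 16 / (kap / 8) ^ 2) * Real.exp (kap / 8 * ‖x‖ ^ 2)) :=
            mul_le_mul (Real.exp_le_exp.mpr h5) h6 (by positivity) (Real.exp_pos _).le
        _ = _ := by
            rw [show (-V 0 + ‖P 0‖ ^ 2 / kap) - kap / 4 * ‖x‖ ^ 2 =
              (-V 0 + ‖P 0‖ ^ 2 / kap) + (-(kap / 8) * ‖x‖ ^ 2 - kap / 8 * ‖x‖ ^ 2) by ring,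
              Real.exp_add, Real.exp_sub]
            have := Real.exp_pos (kap / 8 * ‖x‖ ^ 2)
            field_simp
    have hint : Integrable (fun x : E =>
        (Real.exp (-V 0 + ‖P 0‖ ^ 2 / kap) * (8 + 16 / (kap / 8) ^ 2)) *
          Real.exp (-(kap / 8) * ‖x‖ ^ 2)) :=
      (gexp_integrable (by positivity : 0 < kap / 8)).const_mul _
    refine lt_of_le_of_lt (lintegral_mono fun x => ENNReal.ofReal_le_ofReal (hb x)) ?_
    exact hint.lintegral_lt_top

end

end Pool.Agent.Lib.MP_6d896a_gt.FP
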