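import Mathlib
import Pool.Agent.Lib.MP_6d896a_gt.FP.Defs
import Pool.Agent.Lib.MP_6d896a_gt.FP.NiceBasic

/-!
Whitening of a nondegenerate measure, and the relation between the affine invariant Poincare
inequality and the ordinary one in whitened coordinates.
-/

set_option autoImplicit false

namespace Pool.Agent.Lib.MP_6d896a_gt.FP

open MeasureTheory ProbabilityTheory Set Filter
open scoped ENNReal Topology

section whiten

variable {E : Type*} [NormedAddCommGroup E] [NormedSpace ℝ E] [MeasurableSpace E]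
    [BorelSpace E] [FiniteDimensional ℝ E]

/-- the norm of a functional on Euclidean space -/
lemma norm_sq_functional {n : ℕ} (f : EuclideanSpace ℝ (Fin n) →L[ℝ] ℝ) :
    ‖f‖ ^ 2 = ∑ i, (f (EuclideanSpace.single i (1 : ℝ))) ^ 2 := by
  obtain ⟨v, rfl⟩ := (InnerProductSpace.toDual ℝ (EuclideanSpace ℝ (Fin n))).surjective f
  rw [LinearIsometryEquiv.norm_map, EuclideanSpace.norm_sq_eq]
  refine Finset.sum_congr rfl fun i _ => ?_
  rw [InnerProductSpace.toDual_apply_apply, EuclideanSpace.inner_single_right]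
  simp

theorem whiten (μ : Measure E) [IsProbabilityMeasure μ]
    (hL2 : ∀ ℓ : E →L[ℝ] ℝ, MemLp (fun x => ℓ x) 2 μ)
    (hnd : ∀ ℓ : E →L[ℝ] ℝ, Var[fun x => ℓ x; μ] = 0 → ℓ = 0) :
    ∃ T : EuclideanSpace ℝ (Fin (Module.finrank ℝ E)) ≃L[ℝ] E, ∀ ℓ : E →L[ℝ] ℝ,
      Var[fun x => ℓ x; μ] =
        ‖ℓ.comp (T : EuclideanSpace ℝ (Fin (Module.finrank ℝ E)) →L[ℝ] E)‖ ^ 2 := by
  classical
  have hL2' : ∀ ℓ : Module.Dual ℝ E, MemLp (fun x => ℓ x) 2 μ := fun ℓ =>
    hL2 (LinearMap.toContinuousLinearMap ℓ)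
  -- the covariance form
  let B : LinearMap.BilinForm ℝ (Module.Dual ℝ E) :=
    LinearMap.mk₂ ℝ (fun l l' => cov[fun x => l x, fun x => l' x; μ])
      (fun l l' k => by
        have := covariance_add_left (hL2' l) (hL2' l') (hL2' k)
        exact this)
      (fun c l k => covariance_const_mul_left c)
      (fun l k k' => by
        have := covariance_add_right (hL2' l) (hL2' k) (hL2' k')
        exact this)
      (fun c l k => covariance_const_mul_right c)
  have hBapp : ∀ l l' : Module.Dual ℝ E, B l l' = cov[fun x => l x, fun x => l' x; μ] :=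
    fun l l' => rfl
  have hBself : ∀ l : Module.Dual ℝ E, B l l = Var[fun x => l x; μ] := by
    intro l
    rw [hBapp]
    exact covariance_self (hL2' l).aemeasurable
  have hsymm : LinearMap.IsSymm B := by
    refine ⟨fun l l' => ?_⟩
    rw [RingHom.id_apply, hBapp, hBapp]
    exact covariance_comm _ _
  obtain ⟨v, hv⟩ := LinearMap.BilinForm.exists_orthogonal_basis hsymm
  have hdim : Module.finrank ℝ (Module.Dual ℝ E) = Module.finrank ℝ E :=
    Subspace.dual_finrank_eq
  have hpos : ∀ i, 0 < B (v i) (v i) := by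
    intro i
    have h0 : 0 ≤ B (v i) (v i) := by
      rw [hBself]
      exact variance_nonneg _ _
    rcases h0.lt_or_eq with h | h
    · exact h
    · exfalso
      have h1 := hnd (LinearMap.toContinuousLinearMap (v i)) (by
        rw [hBself] at h
        exact h.symm)
      have h2 : v i = 0 := by
        have := congrArg (fun l : E →L[ℝ] ℝ => (l : E →ₗ[ℝ] ℝ)) h1
        simpa using this
      exact v.ne_zero i h2
  -- normalised basis, indexed by Fin (finrank E)
  let w : Fin (Module.finrank ℝ E) → Module.Dual ℝ E := fun i =>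
    (Real.sqrt (B (v (Fin.cast hdim.symm i)) (v (Fin.cast hdim.symm i))))⁻¹ •
      v (Fin.cast hdim.symm i)
  have hw : ∀ i j, B (w i) (w j) = if i = j then 1 else 0 := by
    intro i j
    simp only [w, map_smul, LinearMap.smul_apply, smul_eq_mul]
    by_cases hij : i = j
    · subst hij
      rw [if_pos rfl]
      have h1 := hpos (Fin.cast hdim.symm i)
      have h2 := Real.mul_self_sqrt h1.le
      have h3 : Real.sqrt (B (v (Fin.cast hdim.symm i)) (v (Fin.cast hdim.symm i))) ≠ 0 :=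
        (Real.sqrt_pos.2 h1).ne'
      field_simp
      rw [sq, h2]
    · rw [if_neg hij]
      have h1 : B (v (Fin.cast hdim.symm i)) (v (Fin.cast hdim.symm j)) = 0 := by
        have := hv (i := Fin.cast hdim.symm i) (j := Fin.cast hdim.symm j)
          (fun h => hij (Fin.cast_injective _ h))
        exact this
      rw [h1]
      ring
  -- every functional is a combination of the w i
  have hspan : ∀ l : Module.Dual ℝ E, ∃ c : Fin (Module.finrank ℝ E) → ℝ, l = ∑ i, c i • w i := by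
    intro l
    refine ⟨fun i => v.repr l (Fin.cast hdim.symm i) *
      Real.sqrt (B (v (Fin.cast hdim.symm i)) (v (Fin.cast hdim.symm i))), ?_⟩
    conv_lhs => rw [← v.sum_repr l]
    rw [← Equiv.sum_comp (finCongr hdim.symm)]
    refine Finset.sum_congr rfl fun i _ => ?_
    simp only [w, finCongr_apply, smul_smul]
    congr 1
    have h1 := hpos (Fin.cast hdim.symm i)
    have h3 : Real.sqrt (B (v (Fin.cast hdim.symm i)) (v (Fin.cast hdim.symm i))) ≠ 0 :=
      (Real.sqrt_pos.2 h1).ne'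
    field_simp
  let S : E →ₗ[ℝ] (Fin (Module.finrank ℝ E) → ℝ) := LinearMap.pi w
  have hSinj : Function.Injective S := by
    rw [← LinearMap.ker_eq_bot, LinearMap.ker_eq_bot']
    intro x hx
    rw [← Module.forall_dual_apply_eq_zero_iff ℝ x]
    intro l
    obtain ⟨c, rfl⟩ := hspan l
    have h1 : ∀ i, w i x = 0 := fun i => congrFun hx i
    simp [LinearMap.sum_apply, h1]
  have hfr : Module.finrank ℝ E = Module.finrank ℝ (Fin (Module.finrank ℝ E) → ℝ) := by simp
  let e : E ≃ₗ[ℝ] (Fin (Module.finrank ℝ E) → ℝ) := S.linearEquivOfInjective hSinj hfr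
  let e' : E ≃ₗ[ℝ] EuclideanSpace ℝ (Fin (Module.finrank ℝ E)) :=
    e.trans (WithLp.linearEquiv 2 ℝ (Fin (Module.finrank ℝ E) → ℝ)).symm
  let T : EuclideanSpace ℝ (Fin (Module.finrank ℝ E)) ≃L[ℝ] E := e'.symm.toContinuousLinearEquiv
  refine ⟨T, fun ℓ => ?_⟩
  have hwT : ∀ i j, w i (T (EuclideanSpace.single j (1 : ℝ))) = if i = j then 1 else 0 := by
    intro i j
    have h1 : e (T (EuclideanSpace.single j (1 : ℝ))) = Pi.single j (1 : ℝ) := by
      have h2 : e' (T (EuclideanSpace.single j (1 : ℝ))) = EuclideanSpace.single j (1 : ℝ) :=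
        e'.apply_symm_apply _
      have h3 := congrArg (WithLp.linearEquiv 2 ℝ (Fin (Module.finrank ℝ E) → ℝ)) h2
      simpa [e'] using h3
    have h4 : w i (T (EuclideanSpace.single j (1 : ℝ))) =
        e (T (EuclideanSpace.single j (1 : ℝ))) i := rfl
    rw [h4, h1, Pi.single_apply]
  obtain ⟨c, hc⟩ := hspan (ℓ : E →ₗ[ℝ] ℝ)
  have hℓ : ∀ x, ℓ x = ∑ i, c i * w i x := by
    intro x
    have := congrArg (fun l : E →ₗ[ℝ] ℝ => l x) hc
    simpa [LinearMap.sum_apply] using this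
  have hvar : Var[fun x => ℓ x; μ] = ∑ i, c i ^ 2 := by
    have h1 : Var[fun x => ℓ x; μ] = B (ℓ : E →ₗ[ℝ] ℝ) (ℓ : E →ₗ[ℝ] ℝ) := by
      rw [hBself]
      rfl
    rw [h1, hc]
    simp only [map_sum, map_smul, LinearMap.sum_apply, LinearMap.smul_apply, smul_eq_mul, hw]
    simp [sq]
  rw [hvar, norm_sq_functional]
  refine Finset.sum_congr rfl fun i _ => ?_
  congr 1
  rw [ContinuousLinearMap.comp_apply]
  have h5 : (T : EuclideanSpace ℝ (Fin (Module.finrank ℝ E)) →L[ℝ] E)
      (EuclideanSpace.single i (1 : ℝ)) = T (EuclideanSpace.single i (1 : ℝ)) := rfl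
  rw [h5, hℓ]
  simp [hwT]

theorem poinc_of_ap {μ : Measure E} [IsProbabilityMeasure μ] {n : ℕ}
    (T : EuclideanSpace ℝ (Fin n) ≃L[ℝ] E)
    (hT : ∀ ℓ : E →L[ℝ] ℝ, Var[fun x => ℓ x; μ] = ‖ℓ.comp (T : EuclideanSpace ℝ (Fin n) →L[ℝ] E)‖ ^ 2)
    {K : ℝ} (h : AP μ K) (f : EuclideanSpace ℝ (Fin n) → ℝ) (hf : ContDiff ℝ 1 f)
    (hb : ∃ l : ℝ, ∀ x, ‖fderiv ℝ f x‖ ≤ l) :
    Var[f; μ.map T.symm] ≤ K * ∫ x, ‖fderiv ℝ f x‖ ^ 2 ∂(μ.map T.symm) := by
  have hTm : Measurable (T.symm : E → EuclideanSpace ℝ (Fin n)) := T.symm.continuous.measurable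
  have hg : ∀ x, fderiv ℝ (fun x => f (T.symm x)) x
      = (fderiv ℝ f (T.symm x)).comp (T.symm : E →L[ℝ] EuclideanSpace ℝ (Fin n)) := by
    intro x
    have h1 : HasFDerivAt (T.symm : E → EuclideanSpace ℝ (Fin n))
        (T.symm : E →L[ℝ] EuclideanSpace ℝ (Fin n)) x := T.symm.hasFDerivAt
    exact ((hf.differentiable (by norm_num) (T.symm x)).hasFDerivAt.comp x h1).fderiv
  have hgc : ContDiff ℝ 1 (fun x => f (T.symm x)) := hf.comp T.symm.contDiff
  obtain ⟨l, hl⟩ := hb
  have key := h (fun x => f (T.symm x)) hgc ⟨l * ‖(T.symm : E →L[ℝ] EuclideanSpace ℝ (Fin n))‖,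
    fun x => by
      rw [hg]
      exact (ContinuousLinearMap.opNorm_comp_le _ _).trans
        (mul_le_mul_of_nonneg_right (hl _) (norm_nonneg _))⟩
  have e1 : Var[f; μ.map T.symm] = Var[fun x => f (T.symm x); μ] :=
    variance_map hf.continuous.measurable.aemeasurable hTm.aemeasurable
  have e2 : ∫ x, ‖fderiv ℝ f x‖ ^ 2 ∂(μ.map T.symm) = ∫ x, ‖fderiv ℝ f (T.symm x)‖ ^ 2 ∂μ := by
    rw [integral_map hTm.aemeasurable]
    exact ((hf.continuous_fderiv (by norm_num)).norm.pow 2).aestronglyMeasurable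
  rw [e1, e2]
  refine key.trans (le_of_eq ?_)
  congr 1
  refine integral_congr_ae (Eventually.of_forall fun x => ?_)
  have h2 := hT (fderiv ℝ (fun x => f (T.symm x)) x)
  simp only at h2 ⊢
  rw [h2, hg]
  congr 2
  ext y
  simp

theorem ap_of_poinc {μ : Measure E} [IsProbabilityMeasure μ] {n : ℕ}
    (T : EuclideanSpace ℝ (Fin n) ≃L[ℝ] E)
    (hT : ∀ ℓ : E →L[ℝ] ℝ, Var[fun x => ℓ x; μ] = ‖ℓ.comp (T : EuclideanSpace ℝ (Fin n) →L[ℝ] E)‖ ^ 2)
    {K : ℝ} (h : ∀ f : EuclideanSpace ℝ (Fin n) → ℝ, ContDiff ℝ 1 f →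
      (∃ l : ℝ, ∀ x, ‖fderiv ℝ f x‖ ≤ l) →
      Var[f; μ.map T.symm] ≤ K * ∫ x, ‖fderiv ℝ f x‖ ^ 2 ∂(μ.map T.symm)) : AP μ K := by
  rintro g hg ⟨l, hl⟩
  have hTm : Measurable (T.symm : E → EuclideanSpace ℝ (Fin n)) := T.symm.continuous.measurable
  have hfd : ∀ x, fderiv ℝ (fun y => g (T y)) x
      = (fderiv ℝ g (T x)).comp (T : EuclideanSpace ℝ (Fin n) →L[ℝ] E) := by
    intro x
    have h1 : HasFDerivAt (T : EuclideanSpace ℝ (Fin n) → E)
        (T : EuclideanSpace ℝ (Fin n) →L[ℝ] E) x := T.hasFDerivAt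
    exact ((hg.differentiable (by norm_num) (T x)).hasFDerivAt.comp x h1).fderiv
  have hfc : ContDiff ℝ 1 (fun y => g (T y)) := hg.comp T.contDiff
  have key := h (fun y => g (T y)) hfc ⟨l * ‖(T : EuclideanSpace ℝ (Fin n) →L[ℝ] E)‖,
    fun x => by
      rw [hfd]
      exact (ContinuousLinearMap.opNorm_comp_le _ _).trans
        (mul_le_mul_of_nonneg_right (hl _) (norm_nonneg _))⟩
  have e1 : Var[fun y => g (T y); μ.map T.symm] = Var[g; μ] := by
    rw [variance_map hfc.continuous.measurable.aemeasurable hTm.aemeasurable]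
    congr 1
    funext x
    simp
  have e2 : ∫ x, ‖fderiv ℝ (fun y => g (T y)) x‖ ^ 2 ∂(μ.map T.symm)
      = ∫ x, Var[fun z => fderiv ℝ g x z; μ] ∂μ := by
    have hsm : AEStronglyMeasurable (fun x => ‖fderiv ℝ (fun y => g (T y)) x‖ ^ 2)
        (μ.map T.symm) :=
      ((hfc.continuous_fderiv (by norm_num)).norm.pow 2).aestronglyMeasurable
    rw [integral_map hTm.aemeasurable hsm]
    refine integral_congr_ae (Eventually.of_forall fun x => ?_)
    simp only
    rw [hfd, hT]
    simp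
  rw [e1, e2] at key
  exact key

end whiten

theorem gibbs_nondeg {E : Type*} [NormedAddCommGroup E] [NormedSpace ℝ E] [MeasureSpace E]
    [BorelSpace E] [FiniteDimensional ℝ E] [(volume : Measure E).IsAddHaarMeasure]
    {φ : E → ℝ} (h : Nice φ) (ℓ : E →L[ℝ] ℝ) (h0 : Var[fun x => ℓ x; gibbs φ] = 0) : ℓ = 0 := by
  have := gibbs_prob h
  have hm : MemLp (fun x => ℓ x) 2 (gibbs φ) :=
    gibbs_memLp h ℓ.continuous.aestronglyMeasurable ‖ℓ‖ fun x => by
      refine (ℓ.le_opNorm x).trans ?_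
      have : 0 ≤ ‖ℓ‖ := norm_nonneg _
      nlinarith [norm_nonneg x]
  have h1 := ae_eq_integral_of_variance_eq_zero hm h0
  -- volume is absolutely continuous with respect to the Gibbs measure
  have hac : (volume : Measure E) ≪ gibbs φ := by
    have hme : Measurable fun x : E => ENNReal.ofReal (Real.exp (-φ x)) :=
      ENNReal.measurable_ofReal.comp (Real.continuous_exp.comp h.continuous.neg).measurable
    have h2 : (volume : Measure E) ≪
        (volume : Measure E).withDensity (fun x => ENNReal.ofReal (Real.exp (-φ x))) :=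
      withDensity_absolutelyContinuous' hme.aemeasurable
        (Eventually.of_forall fun x => (ENNReal.ofReal_pos.2 (Real.exp_pos _)).ne')
    unfold gibbs
    exact h2.smul_right (ENNReal.inv_ne_zero.2 h.lintegral_ne_top)
  have h3 : (fun x => ℓ x) =ᵐ[(volume : Measure E)] fun _ => ∫ x, ℓ x ∂(gibbs φ) :=
    hac.ae_le h1
  have h4 : (fun x => ℓ x) = fun _ => ∫ x, ℓ x ∂(gibbs φ) :=
    Continuous.ae_eq_iff_eq (volume : Measure E) ℓ.continuous continuous_const |>.1 h3
  ext x
  have h5 := congrFun h4 x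
  have h6 := congrFun h4 0
  simp only [map_zero] at h5 h6
  rw [h5, ← h6]
  simp

end Pool.Agent.Lib.MP_6d896a_gt.FP
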