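import Mathlib
import Pool.Agent.Lib.MP_6d896a_gt.FP.Cheb
import Pool.Agent.Lib.MP_6d896a_gt.FP.FibLin
import Pool.Agent.Lib.MP_6d896a_gt.FP.ForestInd
import Pool.Agent.Lib.MP_6d896a_gt.FP.Whiten

/-!
The one-dimensional extension step from the variance bound for Lipschitz functions.
-/

set_option autoImplicit false

namespace Pool.Agent.Lib.MP_6d896a_gt.FP

open MeasureTheory ProbabilityTheory Set Filter
open scoped ENNReal Topology

lemma AP.mono {E : Type*} [NormedAddCommGroup E] [NormedSpace ℝ E] [MeasurableSpace E]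
    {μ : Measure E} {K K' : ℝ} (h : AP μ K) (hK : K ≤ K') : AP μ K' := by
  intro f hf hl
  refine (h f hf hl).trans ?_
  exact mul_le_mul_of_nonneg_right hK (integral_nonneg fun x => variance_nonneg _ _)

/-- statement of the E. Milman type theorem, with constant `C` -/
def EMStat (C : ℝ) : Prop := ∀ (E : Type) [NormedAddCommGroup E] [InnerProductSpace ℝ E]
    [FiniteDimensional ℝ E] [MeasurableSpace E] [BorelSpace E] (μ : Measure E)
    [IsProbabilityMeasure μ], PLm μ → ∀ M : ℝ, 0 < M → LVb μ M →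
    ∀ f : E → ℝ, ContDiff ℝ 1 f → (∃ l : ℝ, ∀ x, ‖fderiv ℝ f x‖ ≤ l) →
    Var[f; μ] ≤ C * M * ∫ x, ‖fderiv ℝ f x‖ ^ 2 ∂μ

/-- statement of the variance bound for Lipschitz functions, with constant `C` -/
def LVStat (C : ℝ) : Prop := ∀ (F : Type) [NormedAddCommGroup F] [NormedSpace ℝ F]
    [MeasureSpace F] [BorelSpace F] [FiniteDimensional ℝ F]
    [(volume : Measure F).IsAddHaarMeasure] (φ : ℝ × F → ℝ) (K : ℝ), 1 ≤ K → Nice φ →
    (∀ y, AP (gibbs (fun x => φ (y, x))) K) →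
    ∀ f : ℝ × F → ℝ, ContDiff ℝ 1 f → (∃ B : ℝ, ∀ p, |f p| ≤ B) →
    (∃ B : ℝ, ∀ p, ‖fderiv ℝ f p‖ ≤ B) →
    (∃ B : ℝ, ∀ p q, ‖fderiv ℝ f p - fderiv ℝ f q‖ ≤ B * ‖p - q‖) →
    (∀ p, Var[fun z => fderiv ℝ f p z; gibbs φ] ≤ 1) → Var[f; gibbs φ] ≤ C * K

/-- P6, from the two main ingredients -/
theorem ext_step_of (hem : ∃ C : ℝ, 0 < C ∧ EMStat C) (hlv : ∃ C : ℝ, 0 < C ∧ LVStat C) :
    ∃ C : ℝ, 1 ≤ C ∧ ExtStep C := by
  obtain ⟨Ce, hCe, em⟩ := hem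
  obtain ⟨Cl, hCl, lv⟩ := hlv
  refine ⟨max 1 (Ce * Cl), le_max_left _ _, ?_⟩
  intro W _ φ K hK hn hAP
  have hh := haar_prod' (F := W → ℝ)
  have hprob := gibbs_prob hn
  have hL2 : ∀ ℓ : ℝ × (W → ℝ) →L[ℝ] ℝ, MemLp (fun x => ℓ x) 2 (gibbs φ) := fun ℓ =>
    gibbs_memLp hn ℓ.continuous.aestronglyMeasurable ‖ℓ‖ fun p => by
      refine (ℓ.le_opNorm p).trans ?_
      gcongr
      linarith
  obtain ⟨n, T, hT⟩ : ∃ (n : ℕ) (T : EuclideanSpace ℝ (Fin n) ≃L[ℝ] (ℝ × (W → ℝ))),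
      ∀ ℓ : ℝ × (W → ℝ) →L[ℝ] ℝ, Var[fun x => ℓ x; gibbs φ] =
        ‖ℓ.comp (T : EuclideanSpace ℝ (Fin n) →L[ℝ] (ℝ × (W → ℝ)))‖ ^ 2 :=
    ⟨_, whiten (gibbs φ) hL2 (fun ℓ h0 => gibbs_nondeg hn ℓ h0)⟩
  have hTm : Measurable (T.symm : ℝ × (W → ℝ) → EuclideanSpace ℝ (Fin n)) :=
    T.symm.continuous.measurable
  have hpm : IsProbabilityMeasure ((gibbs φ).map T.symm) :=
    Measure.isProbabilityMeasure_map hTm.aemeasurable
  have hPL : PLm ((gibbs φ).map T.symm) :=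
    hn.plm_gibbs.map (T.symm : (ℝ × (W → ℝ)) →ₗ[ℝ] EuclideanSpace ℝ (Fin n)) hTm
  have hLV : LVb ((gibbs φ).map T.symm) (Cl * K) := by
    intro g hg hgb hgl hg1
    have hfd : ∀ p, fderiv ℝ (fun p => g (T.symm p)) p
        = (fderiv ℝ g (T.symm p)).comp
          (T.symm : (ℝ × (W → ℝ)) →L[ℝ] EuclideanSpace ℝ (Fin n)) := by
      intro p
      have h1 : HasFDerivAt (T.symm : ℝ × (W → ℝ) → EuclideanSpace ℝ (Fin n))
          (T.symm : (ℝ × (W → ℝ)) →L[ℝ] EuclideanSpace ℝ (Fin n)) p := T.symm.hasFDerivAt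
      exact ((hg.differentiable (by norm_num) (T.symm p)).hasFDerivAt.comp p h1).fderiv
    have hfc : ContDiff ℝ 1 (fun p => g (T.symm p)) := hg.comp T.symm.contDiff
    have key := lv (W → ℝ) φ K hK hn hAP (fun p => g (T.symm p)) hfc (by
        obtain ⟨B, hB⟩ := hgb
        exact ⟨B, fun p => hB _⟩) (by
        refine ⟨1 * ‖(T.symm : (ℝ × (W → ℝ)) →L[ℝ] EuclideanSpace ℝ (Fin n))‖, fun p => ?_⟩
        rw [hfd]
        exact (ContinuousLinearMap.opNorm_comp_le _ _).trans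
          (mul_le_mul_of_nonneg_right (hg1 _) (norm_nonneg _))) (by
        obtain ⟨B, hB⟩ := hgl
        refine ⟨|B| * ‖(T.symm : (ℝ × (W → ℝ)) →L[ℝ] EuclideanSpace ℝ (Fin n))‖ *
          ‖(T.symm : (ℝ × (W → ℝ)) →L[ℝ] EuclideanSpace ℝ (Fin n))‖, fun p q => ?_⟩
        rw [hfd, hfd, ← ContinuousLinearMap.sub_comp]
        refine (ContinuousLinearMap.opNorm_comp_le _ _).trans ?_
        have h1 : ‖T.symm p - T.symm q‖ ≤
            ‖(T.symm : (ℝ × (W → ℝ)) →L[ℝ] EuclideanSpace ℝ (Fin n))‖ * ‖p - q‖ := by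
          rw [← map_sub]
          exact (T.symm : (ℝ × (W → ℝ)) →L[ℝ] EuclideanSpace ℝ (Fin n)).le_opNorm _
        have h2 : ‖fderiv ℝ g (T.symm p) - fderiv ℝ g (T.symm q)‖ ≤
            |B| * (‖(T.symm : (ℝ × (W → ℝ)) →L[ℝ] EuclideanSpace ℝ (Fin n))‖ * ‖p - q‖) := by
          refine (hB _ _).trans ?_
          calc B * ‖T.symm p - T.symm q‖ ≤ |B| * ‖T.symm p - T.symm q‖ :=
                mul_le_mul_of_nonneg_right (le_abs_self B) (norm_nonneg _)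
            _ ≤ _ := mul_le_mul_of_nonneg_left h1 (abs_nonneg _)
        calc _ ≤ (|B| * (‖(T.symm : (ℝ × (W → ℝ)) →L[ℝ] EuclideanSpace ℝ (Fin n))‖ * ‖p - q‖)) *
              ‖(T.symm : (ℝ × (W → ℝ)) →L[ℝ] EuclideanSpace ℝ (Fin n))‖ :=
              mul_le_mul_of_nonneg_right h2 (norm_nonneg _)
          _ = _ := by ring) (by
        intro p
        have h1 := hT (fderiv ℝ (fun p => g (T.symm p)) p)
        rw [h1, hfd]
        have h2 : ((fderiv ℝ g (T.symm p)).comp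
            (T.symm : (ℝ × (W → ℝ)) →L[ℝ] EuclideanSpace ℝ (Fin n))).comp
            (T : EuclideanSpace ℝ (Fin n) →L[ℝ] (ℝ × (W → ℝ))) = fderiv ℝ g (T.symm p) := by
          ext z
          simp
        rw [h2]
        have h3 := hg1 (T.symm p)
        exact pow_le_one₀ (norm_nonneg _) h3)
    have e1 : Var[g; (gibbs φ).map T.symm] = Var[fun p => g (T.symm p); gibbs φ] :=
      variance_map hg.continuous.measurable.aemeasurable hTm.aemeasurable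
    rw [e1]
    exact key
  have hAPμ : AP (gibbs φ) (Ce * (Cl * K)) :=
    ap_of_poinc T hT (em (EuclideanSpace ℝ (Fin n)) ((gibbs φ).map T.symm) hPL (Cl * K)
      (by positivity) hLV)
  refine hAPμ.mono ?_
  rw [← mul_assoc]
  exact mul_le_mul_of_nonneg_right (le_max_right _ _) (by linarith)

end Pool.Agent.Lib.MP_6d896a_gt.FP
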