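import Mathlib
import Pool.Agent.Lib.MP_6d896a_gt.FP.Tail

/-!
Second moments of linear functionals of log-concave measures.
-/

set_option autoImplicit false

namespace Pool.Agent.Lib.MP_6d896a_gt.FP

open MeasureTheory ProbabilityTheory Set Filter
open scoped ENNReal Topology

variable {E : Type*} [NormedAddCommGroup E] [NormedSpace ℝ E] [MeasurableSpace E]
  [BorelSpace E]

lemma sq_le_two_exp {t : ℝ} (ht : 0 ≤ t) : t ^ 2 ≤ 2 * Real.exp t := by
  have := Real.quadratic_le_exp_of_nonneg ht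
  nlinarith

/-- second moment from the exponential moment -/
lemma PLm.sq_le_of_conc {μ : Measure E} [IsProbabilityMeasure μ] (h : PLm μ) (L : E →L[ℝ] ℝ)
    (m : ℝ) {r : ℝ} (hr : 0 < r) (hK : 3 / 4 ≤ μ.real {x | |L x - m| ≤ r}) :
    Integrable (fun x => (L x - m) ^ 2) μ ∧ ∫ x, (L x - m) ^ 2 ∂μ ≤ 128 * r ^ 2 := by
  have hm : Measurable (fun x => L x - m) := (L.continuous.measurable).sub_const m
  have h1 := h.exp_moment (ξ := fun x => L x - m) hm (by
    intro x y l
    simp only [map_add, map_smul, smul_eq_mul]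
    ring) hr hK
  have hpt : ∀ x, (L x - m) ^ 2 ≤ 32 * r ^ 2 * Real.exp (|L x - m| / (4 * r)) := by
    intro x
    have h2 := sq_le_two_exp (t := |L x - m| / (4 * r)) (by positivity)
    rw [div_pow, sq_abs, div_le_iff₀ (by positivity)] at h2
    nlinarith
  have hb : ∫⁻ x, ENNReal.ofReal ((L x - m) ^ 2) ∂μ ≤ ENNReal.ofReal (128 * r ^ 2) := by
    calc ∫⁻ x, ENNReal.ofReal ((L x - m) ^ 2) ∂μ
        ≤ ∫⁻ x, ENNReal.ofReal (32 * r ^ 2) *
            ENNReal.ofReal (Real.exp (|L x - m| / (4 * r))) ∂μ := by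
          apply lintegral_mono
          intro x
          simp only
          rw [← ENNReal.ofReal_mul (by positivity)]
          exact ENNReal.ofReal_le_ofReal (hpt x)
      _ = ENNReal.ofReal (32 * r ^ 2) *
            ∫⁻ x, ENNReal.ofReal (Real.exp (|L x - m| / (4 * r))) ∂μ := by
          rw [lintegral_const_mul]
          exact (Real.measurable_exp.comp (hm.abs.div_const _)).ennreal_ofReal
      _ ≤ ENNReal.ofReal (32 * r ^ 2) * 4 := by gcongr
      _ = ENNReal.ofReal (128 * r ^ 2) := by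
          have : (4 : ℝ≥0∞) = ENNReal.ofReal 4 := by norm_num
          rw [this, ← ENNReal.ofReal_mul (by positivity)]
          congr 1
          ring
  have hint : Integrable (fun x => (L x - m) ^ 2) μ := by
    refine ⟨(hm.pow_const 2).aestronglyMeasurable, ?_⟩
    rw [hasFiniteIntegral_iff_ofReal (ae_of_all _ fun x => sq_nonneg _)]
    exact hb.trans_lt ENNReal.ofReal_lt_top
  refine ⟨hint, ?_⟩
  rw [integral_eq_lintegral_of_nonneg_ae (ae_of_all _ fun x => sq_nonneg _)
    (hm.pow_const 2).aestronglyMeasurable]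
  have h3 := ENNReal.toReal_mono ENNReal.ofReal_ne_top hb
  rwa [ENNReal.toReal_ofReal (by positivity)] at h3

lemma PLm.memLp_functional {μ : Measure E} [IsProbabilityMeasure μ] (h : PLm μ)
    (L : E →L[ℝ] ℝ) : MemLp (fun x => L x) 2 μ := by
  obtain ⟨r, hr, hK⟩ : ∃ r : ℝ, 0 < r ∧ 3 / 4 ≤ μ.real {x | |L x - 0| ≤ r} := by
    have hmono : Monotone (fun n : ℕ => {x : E | |L x - 0| ≤ (n : ℝ) + 1}) := by
      intro a b hab x hx
      simp only [mem_ofPred_eq] at hx ⊢
      have : (a : ℝ) ≤ b := by exact_mod_cast hab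
      linarith
    have hU : (⋃ n : ℕ, {x : E | |L x - 0| ≤ (n : ℝ) + 1}) = univ := by
      ext x
      simp only [mem_iUnion, mem_ofPred_eq, mem_univ, iff_true]
      obtain ⟨n, hn⟩ := exists_nat_ge |L x - 0|
      exact ⟨n, by linarith⟩
    have ht := tendsto_measure_iUnion_atTop (μ := μ) hmono
    rw [hU, measure_univ] at ht
    have ht2 : Tendsto (fun n : ℕ => μ.real {x : E | |L x - 0| ≤ (n : ℝ) + 1}) atTop (𝓝 1) := by
      have := (ENNReal.tendsto_toReal ENNReal.one_ne_top).comp ht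
      rw [ENNReal.toReal_one] at this
      exact this
    obtain ⟨n, hn⟩ := (ht2.eventually (lt_mem_nhds (show (3 / 4 : ℝ) < 1 by norm_num))).exists
    exact ⟨(n : ℝ) + 1, by positivity, hn.le⟩
  have h1 := (h.sq_le_of_conc L 0 hr hK).1
  rw [memLp_two_iff_integrable_sq L.continuous.aestronglyMeasurable]
  simpa using h1

end Pool.Agent.Lib.MP_6d896a_gt.FP
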