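import Mathlib
import Pool.Agent.Lib.MP_6d896a_gt.FP.ExtStepOf
import Pool.Agent.Lib.MP_6d896a_gt.FP.EM
import Pool.Agent.Lib.MP_6d896a_gt.FP.Tail
import Pool.Agent.Lib.MP_6d896a_gt.FP.StableA

/-!
Stability of the affine invariant Poincare inequality under total variation, for log-concave
measures.
-/

set_option autoImplicit false

namespace Pool.Agent.Lib.MP_6d896a_gt.FP

open MeasureTheory ProbabilityTheory Set Filter
open scoped ENNReal Topology

section

variable {E : Type*} [NormedAddCommGroup E] [NormedSpace ℝ E] [MeasurableSpace E]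
  [BorelSpace E]

/-- comparison of the variances of linear functionals -/
lemma var_compare {μ ν : Measure E} [IsProbabilityMeasure μ] [IsProbabilityMeasure ν]
    (hμ : PLm μ) (hν : PLm ν) {η : ℝ} (hη : η ≤ 5 / 36)
    (hnd : ∀ ℓ : E →L[ℝ] ℝ, Var[fun x => ℓ x; ν] = 0 → ℓ = 0)
    (hTV : ∀ S, MeasurableSet S → |μ.real S - ν.real S| ≤ η) (L : E →L[ℝ] ℝ) :
    Var[fun x => L x; μ] ≤ 1152 * Var[fun x => L x; ν] := by
  have h2 := hν.memLp_functional L
  have h2' := hμ.memLp_functional L
  rcases (variance_nonneg (fun x => L x) ν).eq_or_lt with h0 | h0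
  · have hL := hnd L h0.symm
    subst hL
    show Var[(0 : E → ℝ); μ] ≤ 1152 * Var[(0 : E → ℝ); ν]
    rw [variance_zero, variance_zero]
    norm_num
  · set σ := Real.sqrt Var[fun x => L x; ν] with hσ
    have hσ0 : 0 < σ := Real.sqrt_pos.mpr h0
    have hσ2 : σ ^ 2 = Var[fun x => L x; ν] := Real.sq_sqrt h0.le
    set m := ∫ x, L x ∂ν with hm
    have hmeas : Measurable (fun x => L x - m) := (L.continuous.measurable).sub_const m
    have hch : ν.real {x | 3 * σ ≤ |L x - m|} ≤ 1 / 9 := by
      have h3 := meas_ge_le_variance_div_sq (μ := ν) h2 (c := 3 * σ) (by positivity)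
      have h4 := ENNReal.toReal_mono ENNReal.ofReal_ne_top h3
      rw [ENNReal.toReal_ofReal (by positivity)] at h4
      refine h4.trans (le_of_eq ?_)
      rw [← hσ2]
      field_simp
      norm_num
    have hms : MeasurableSet {x | 3 * σ ≤ |L x - m|} :=
      measurableSet_le measurable_const hmeas.abs
    have hms2 : MeasurableSet {x | |L x - m| ≤ 3 * σ} :=
      measurableSet_le hmeas.abs measurable_const
    have h5 : 8 / 9 ≤ ν.real {x | |L x - m| ≤ 3 * σ} := by
      have h6 : ν.real {x | 3 * σ ≤ |L x - m|}ᶜ ≤ ν.real {x | |L x - m| ≤ 3 * σ} := by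
        refine measureReal_mono ?_ (measure_ne_top _ _)
        intro x hx
        simp only [mem_compl_iff, mem_ofPred_eq, not_le] at hx ⊢
        exact hx.le
      rw [probReal_compl_eq_one_sub hms] at h6
      linarith
    have h7 : 3 / 4 ≤ μ.real {x | |L x - m| ≤ 3 * σ} := by
      have h8 := hTV _ hms2
      rw [abs_le] at h8
      linarith [h8.1]
    obtain ⟨hi, hle⟩ := hμ.sq_le_of_conc L m (r := 3 * σ) (by positivity) h7
    have h9 : Var[fun x => L x; μ] ≤ ∫ x, (L x - m) ^ 2 ∂μ := by
      have h10 : Var[fun x => L x; μ] = Var[fun x => L x - m; μ] := by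
        rw [variance_sub_const h2'.aestronglyMeasurable]
      rw [h10]
      exact variance_le_expectation_sq hmeas.aestronglyMeasurable
    refine h9.trans (hle.trans (le_of_eq ?_))
    rw [← hσ2]
    ring

/-- integrals of bounded nonnegative functions under close measures -/
lemma integral_close {μ ν : Measure E} [IsProbabilityMeasure μ] [IsProbabilityMeasure ν]
    {η : ℝ} (hTV : ∀ S, MeasurableSet S → |μ.real S - ν.real S| ≤ η) {g : E → ℝ}
    (hg : Measurable g) {B : ℝ} (hB0 : 0 ≤ B) (h0 : ∀ x, 0 ≤ g x) (hB : ∀ x, g x ≤ B) :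
    ∫ x, g x ∂ν ≤ ∫ x, g x ∂μ + B * η := by
  have hb : ∀ x, |g x| ≤ B := fun x => by rw [abs_of_nonneg (h0 x)]; exact hB x
  have i1 : Integrable g μ := Integrable.of_bound hg.aestronglyMeasurable B
    (ae_of_all _ fun x => by rw [Real.norm_eq_abs]; exact hb x)
  have i2 : Integrable g ν := Integrable.of_bound hg.aestronglyMeasurable B
    (ae_of_all _ fun x => by rw [Real.norm_eq_abs]; exact hb x)
  rw [i1.integral_eq_integral_Ioc_meas_le (ae_of_all _ h0) (ae_of_all _ hB),
    i2.integral_eq_integral_Ioc_meas_le (ae_of_all _ h0) (ae_of_all _ hB)]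
  have anti : ∀ (ρ : Measure E) [IsProbabilityMeasure ρ],
      AntitoneOn (fun t : ℝ => ρ.real {a | t ≤ g a}) (Icc 0 B) := by
    intro ρ _ s _ t _ hst
    refine measureReal_mono ?_ (measure_ne_top _ _)
    intro x hx
    simp only [mem_ofPred_eq] at hx ⊢
    linarith
  have ii : ∀ (ρ : Measure E) [IsProbabilityMeasure ρ],
      IntegrableOn (fun t : ℝ => ρ.real {a | t ≤ g a}) (Ioc 0 B) := by
    intro ρ _
    exact (((anti ρ).integrableOn_isCompact isCompact_Icc)).mono_set Ioc_subset_Icc_self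
  have hc : ∫ t in Ioc (0 : ℝ) B, (μ.real {a | t ≤ g a} + η) =
      (∫ t in Ioc (0 : ℝ) B, μ.real {a | t ≤ g a}) + B * η := by
    rw [integral_add (ii μ) (integrable_const η)]
    simp [hB0]
  rw [← hc]
  apply setIntegral_mono_on (ii ν) ((ii μ).add (integrable_const η)) measurableSet_Ioc
  intro t _
  have h1 := hTV {a | t ≤ g a} (measurableSet_le measurable_const hg)
  rw [abs_le] at h1
  show ν.real {a | t ≤ g a} ≤ μ.real {a | t ≤ g a} + η
  linarith [h1.1]

end

/-- the affine invariant Poincare inequality is stable under total variation for log-concave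
measures -/
theorem ap_stable : ∃ C : ℝ, 1 ≤ C ∧ ∃ η : ℝ, 0 < η ∧ ∀ (E : Type) [NormedAddCommGroup E]
    [NormedSpace ℝ E] [MeasurableSpace E] [BorelSpace E] [FiniteDimensional ℝ E]
    (μ ν : Measure E) [IsProbabilityMeasure μ] [IsProbabilityMeasure ν], PLm μ → PLm ν →
    (∀ ℓ : E →L[ℝ] ℝ, Var[fun x => ℓ x; ν] = 0 → ℓ = 0) →
    (∀ S, MeasurableSet S → |μ.real S - ν.real S| ≤ η) → ∀ K : ℝ, 1 ≤ K → AP μ K →
    AP ν (C * K) := by
  refine ⟨max 1 (cEM * 1152), le_max_left _ _, min (5 / 36) (eta0 / 4),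
    lt_min (by norm_num) (by have := eta0_pos; positivity), ?_⟩
  intro E _ _ _ _ _ μ ν _ _ hμ hν hnd hTV K hK hAP
  set η := min (5 / 36) (eta0 / 4) with hη
  obtain ⟨n, T, hT⟩ : ∃ (n : ℕ) (T : EuclideanSpace ℝ (Fin n) ≃L[ℝ] E),
      ∀ ℓ : E →L[ℝ] ℝ, Var[fun x => ℓ x; ν] =
        ‖ℓ.comp (T : EuclideanSpace ℝ (Fin n) →L[ℝ] E)‖ ^ 2 :=
    ⟨_, whiten ν (fun ℓ => hν.memLp_functional ℓ) hnd⟩
  have hTm : Measurable (T.symm : E → EuclideanSpace ℝ (Fin n)) :=
    T.symm.continuous.measurable
  have hpm : IsProbabilityMeasure (ν.map T.symm) :=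
    Measure.isProbabilityMeasure_map hTm.aemeasurable
  have hPL : PLm (ν.map T.symm) := hν.map (T.symm : E →ₗ[ℝ] EuclideanSpace ℝ (Fin n)) hTm
  have hLV : LVe (ν.map T.symm) (1152 * K) eta0 := by
    intro g hg hgb hgL l hl hgl
    have hd : Differentiable ℝ g := hg.differentiable (by norm_num)
    have hn : ∀ x, ‖fderiv ℝ g x‖ ≤ l := by
      intro x
      refine (hd x).hasFDerivAt.le_of_lip' hl.le (Eventually.of_forall fun y => ?_)
      rw [Real.norm_eq_abs]
      exact hgl y x
    have hfd : ∀ p, fderiv ℝ (fun p => g (T.symm p)) p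
        = (fderiv ℝ g (T.symm p)).comp
          (T.symm : E →L[ℝ] EuclideanSpace ℝ (Fin n)) := by
      intro p
      have h1 : HasFDerivAt (T.symm : E → EuclideanSpace ℝ (Fin n))
          (T.symm : E →L[ℝ] EuclideanSpace ℝ (Fin n)) p := T.symm.hasFDerivAt
      exact ((hd (T.symm p)).hasFDerivAt.comp p h1).fderiv
    have hfc : ContDiff ℝ 1 (fun p => g (T.symm p)) := hg.comp T.symm.contDiff
    have hfm : Measurable (fun p => g (T.symm p)) := hfc.continuous.measurable
    have hfl : ∃ l : ℝ, ∀ p, ‖fderiv ℝ (fun p => g (T.symm p)) p‖ ≤ l := by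
      refine ⟨l * ‖(T.symm : E →L[ℝ] EuclideanSpace ℝ (Fin n))‖, fun p => ?_⟩
      rw [hfd]
      exact (ContinuousLinearMap.opNorm_comp_le _ _).trans
        (mul_le_mul_of_nonneg_right (hn _) (norm_nonneg _))
    have e1 : Var[g; ν.map T.symm] = Var[fun p => g (T.symm p); ν] :=
      variance_map hg.continuous.measurable.aemeasurable hTm.aemeasurable
    rw [e1]
    set f : E → ℝ := fun p => g (T.symm p) with hf
    have hfb : ∀ p, |f p| ≤ 1 := fun p => hgb _
    have hL2 : ∀ (ρ : Measure E) [IsProbabilityMeasure ρ], MemLp f 2 ρ := by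
      intro ρ _
      exact MemLp.of_bound hfm.aestronglyMeasurable 1
        (ae_of_all _ fun p => by rw [Real.norm_eq_abs]; exact hfb p)
    set c := ∫ p, f p ∂μ with hc
    have hc1 : |c| ≤ 1 := by
      rw [hc, ← Real.norm_eq_abs]
      refine (norm_integral_le_of_norm_le (integrable_const (1 : ℝ))
        (ae_of_all _ fun p => ?_)).trans (le_of_eq (by simp))
      rw [Real.norm_eq_abs]
      exact hfb p
    -- the variance under `μ`
    have h1 : Var[f; μ] ≤ K * (1152 * l ^ 2) := by
      refine (hAP f hfc hfl).trans ?_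
      apply mul_le_mul_of_nonneg_left _ (by linarith)
      have h2 : ∀ p, Var[fun z => fderiv ℝ f p z; μ] ≤ 1152 * l ^ 2 := by
        intro p
        refine (var_compare hμ hν (min_le_left _ _) hnd hTV _).trans ?_
        apply mul_le_mul_of_nonneg_left _ (by norm_num)
        rw [hT, hfd]
        have h2 : ((fderiv ℝ g (T.symm p)).comp
            (T.symm : E →L[ℝ] EuclideanSpace ℝ (Fin n))).comp
            (T : EuclideanSpace ℝ (Fin n) →L[ℝ] E) = fderiv ℝ g (T.symm p) := by
          ext z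
          simp
        rw [h2]
        exact pow_le_pow_left₀ (norm_nonneg _) (hn _) 2
      calc ∫ p, Var[fun z => fderiv ℝ f p z; μ] ∂μ ≤ ∫ _p, 1152 * l ^ 2 ∂μ := by
            apply integral_mono_of_nonneg (ae_of_all _ fun p => variance_nonneg _ _)
              (integrable_const _)
            exact ae_of_all _ h2
        _ = 1152 * l ^ 2 := by simp
    have h3 : Var[f; ν] ≤ ∫ p, (f p - c) ^ 2 ∂ν := by
      have h10 : Var[f; ν] = Var[fun p => f p - c; ν] := by
        rw [variance_sub_const (hL2 ν).aestronglyMeasurable]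
      rw [h10]
      exact variance_le_expectation_sq (hfm.sub_const c).aestronglyMeasurable
    have h4 : ∫ p, (f p - c) ^ 2 ∂ν ≤ ∫ p, (f p - c) ^ 2 ∂μ + 4 * η := by
      apply integral_close hTV ((hfm.sub_const c).pow_const 2) (by norm_num)
        (fun p => sq_nonneg _)
      intro p
      have h5 := abs_le.mp (hfb p)
      have h6 := abs_le.mp hc1
      have h7 : |f p - c| ≤ 2 := by
        rw [abs_le]
        constructor <;> linarith [h5.1, h5.2, h6.1, h6.2]
      calc (f p - c) ^ 2 = |f p - c| ^ 2 := (sq_abs _).symm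
        _ ≤ 2 ^ 2 := pow_le_pow_left₀ (abs_nonneg _) h7 2
        _ = 4 := by norm_num
    have h5 : ∫ p, (f p - c) ^ 2 ∂μ = Var[f; μ] := by
      rw [variance_eq_integral hfm.aemeasurable]
    have h6 : 4 * η ≤ eta0 := by
      have := min_le_right (5 / 36) (eta0 / 4)
      rw [← hη] at this
      linarith
    rw [h5] at h4
    nlinarith
  have hAPν : AP ν (cEM * (1152 * K)) :=
    ap_of_poinc T hT fun f hf hl => em_approx hPL (by positivity) hLV hf hl
  refine hAPν.mono ?_
  rw [← mul_assoc]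
  exact mul_le_mul_of_nonneg_right (le_max_right _ _) (by linarith)

end Pool.Agent.Lib.MP_6d896a_gt.FP
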