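import Mathlib
import Pool.Agent.Lib.MP_6d896a_gt.FP.Defs
import Pool.Agent.Lib.MP_6d896a_gt.FP.PLm

/-!
Log-concave densities and normalised measures.
-/

set_option autoImplicit false

namespace Pool.Agent.Lib.MP_6d896a_gt.FP

open MeasureTheory ProbabilityTheory
open scoped ENNReal

/-- measurable nonnegative log-concave functions -/
structure LCd {E : Type*} [NormedAddCommGroup E] [NormedSpace ℝ E] [MeasurableSpace E]
    (ρ : E → ℝ) : Prop where
  nn : ∀ x, 0 ≤ ρ x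
  ms : Measurable ρ
  lc : ∀ x y (a b : ℝ), 0 < a → 0 < b → a + b = 1 → ρ x ^ a * ρ y ^ b ≤ ρ (a • x + b • y)

/-- the normalised measure with density `ρ` -/
noncomputable def dens {E : Type*} [MeasureSpace E] (ρ : E → ℝ) : Measure E :=
  (∫⁻ x, ENNReal.ofReal (ρ x))⁻¹ •
    (volume : Measure E).withDensity (fun x => ENNReal.ofReal (ρ x))

lemma gibbs_eq_dens {E : Type*} [MeasureSpace E] (φ : E → ℝ) :
    gibbs φ = dens (fun x => Real.exp (-φ x)) := rfl

section

variable {E : Type*} [NormedAddCommGroup E] [NormedSpace ℝ E] [MeasureSpace E]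
  [BorelSpace E] [FiniteDimensional ℝ E] [(volume : Measure E).IsAddHaarMeasure] {ρ : E → ℝ}

omit [FiniteDimensional ℝ E] [(volume : Measure E).IsAddHaarMeasure] [BorelSpace E] in
lemma LCd.lcf (h : LCd ρ) : LCf (fun x => ENNReal.ofReal (ρ x)) := by
  intro x y l h0 h1
  rw [ENNReal.ofReal_rpow_of_nonneg (h.nn x) (by linarith),
    ENNReal.ofReal_rpow_of_nonneg (h.nn y) h0.le,
    ← ENNReal.ofReal_mul (Real.rpow_nonneg (h.nn x) _)]
  apply ENNReal.ofReal_le_ofReal
  exact h.lc x y (1 - l) l (by linarith) h0 (by ring)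

lemma LCd.plm_wd (h : LCd ρ) :
    PLm ((volume : Measure E).withDensity (fun x => ENNReal.ofReal (ρ x))) :=
  (plm_haar _).withDensity h.ms.ennreal_ofReal h.lcf

lemma LCd.plm (h : LCd ρ) (h0 : ∫⁻ x, ENNReal.ofReal (ρ x) ≠ 0)
    (h1 : ∫⁻ x, ENNReal.ofReal (ρ x) ≠ ∞) : PLm (dens ρ) :=
  h.plm_wd.smul _ (ENNReal.inv_ne_zero.mpr h1) (ENNReal.inv_ne_top.mpr h0)

omit [NormedAddCommGroup E] [NormedSpace ℝ E] [BorelSpace E] [FiniteDimensional ℝ E]
  [(volume : Measure E).IsAddHaarMeasure] in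
lemma dens_prob (h0 : ∫⁻ x, ENNReal.ofReal (ρ x) ≠ 0)
    (h1 : ∫⁻ x, ENNReal.ofReal (ρ x) ≠ ∞) : IsProbabilityMeasure (dens ρ) := by
  constructor
  unfold dens
  rw [Measure.smul_apply, withDensity_apply _ MeasurableSet.univ, Measure.restrict_univ,
    smul_eq_mul]
  exact ENNReal.inv_mul_cancel h0 h1

end

end Pool.Agent.Lib.MP_6d896a_gt.FP
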