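import Mathlib
import Pool.Agent.Lib.MP_6d896a_gt.FP.GenDefs
import Pool.Agent.Lib.MP_6d896a_gt.FP.NiceBasic
import Pool.Agent.Lib.MP_6d896a_gt.FP.FibCalc
import Pool.Agent.Lib.MP_6d896a_gt.FP.FibLin
import Pool.Agent.Lib.MP_6d896a_gt.FP.Whiten

/-!
The fibre principle for general log-concave densities, from stability under total variation, the
localised extension step and the approximation by nice potentials.
-/

set_option autoImplicit false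

namespace Pool.Agent.Lib.MP_6d896a_gt.FP

open MeasureTheory ProbabilityTheory Set Filter
open scoped ENNReal Topology

/-- statement of G2 -/
def StableStat (C η : ℝ) : Prop := ∀ (E : Type) [NormedAddCommGroup E]
    [NormedSpace ℝ E] [MeasurableSpace E] [BorelSpace E] [FiniteDimensional ℝ E]
    (μ ν : Measure E) [IsProbabilityMeasure μ] [IsProbabilityMeasure ν], PLm μ → PLm ν →
    (∀ ℓ : E →L[ℝ] ℝ, Var[fun x => ℓ x; ν] = 0 → ℓ = 0) →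
    (∀ S, MeasurableSet S → |μ.real S - ν.real S| ≤ η) → ∀ K : ℝ, 1 ≤ K → AP μ K →
    AP ν (C * K)

/-- statement of G3 -/
def ExtJStat (C η : ℝ) : Prop := ∀ (F : Type) [NormedAddCommGroup F]
    [NormedSpace ℝ F] [MeasureSpace F] [BorelSpace F] [FiniteDimensional ℝ F]
    [(volume : Measure F).IsAddHaarMeasure] (φ : ℝ × F → ℝ) (K : ℝ), 1 ≤ K → Nice φ →
    ∀ α β : ℝ, α ≤ β → (∀ y ∈ Icc α β, AP (gibbs (fun x => φ (y, x))) K) →
    (gibbs φ).real {p | p.1 ∉ Icc α β} ≤ η → AP (gibbs φ) (C * K)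

/-- statement of G4b -/
def ApproxFibStat : Prop := ∀ (W : Type) [Fintype W] (ρ : ℝ × (W → ℝ) → ℝ), LCd ρ →
    ∫⁻ p, ENNReal.ofReal (ρ p) = 1 → ∀ η : ℝ, 0 < η →
    ∃ α β : ℝ, α ≤ β ∧ (∀ y ∈ Icc α β, ∫⁻ x, ENNReal.ofReal (ρ (y, x)) ≠ 0) ∧
      ∃ (φ : ℝ → ℕ → ℝ × (W → ℝ) → ℝ), (∀ ε N, 0 < ε → Nice (φ ε N)) ∧
        (∃ ε₀ : ℝ, 0 < ε₀ ∧ ∀ ε, 0 < ε → ε < ε₀ → ∃ N₀ : ℕ, ∀ N, N₀ ≤ N →
          (gibbs (φ ε N)).real {p | p.1 ∉ Icc α β} ≤ η ∧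
          ∀ y ∈ Icc α β, ∀ S : Set (W → ℝ), MeasurableSet S →
            |(dens (fun x => ρ (y, x))).real S - (gibbs (fun x => φ ε N (y, x))).real S| ≤ η) ∧
        (∀ K : ℝ, (∃ ε₀ : ℝ, 0 < ε₀ ∧ ∀ ε, 0 < ε → ε < ε₀ → ∃ N₀ : ℕ, ∀ N, N₀ ≤ N →
          AP (gibbs (φ ε N)) K) → AP (dens ρ) K)

lemma LCd.slice {F : Type*} [NormedAddCommGroup F] [NormedSpace ℝ F] [MeasurableSpace F]
    {ρ : ℝ × F → ℝ} (h : LCd ρ) (y : ℝ) : LCd (fun x => ρ (y, x)) where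
  nn x := h.nn _
  ms := h.ms.comp measurable_prodMk_left
  lc x z a b ha hb hab := by
    have := h.lc (y, x) (y, z) a b ha hb hab
    have e : a • (y, x) + b • (y, z) = (y, a • x + b • z) := by
      ext
      · simp only [Prod.fst_add, Prod.smul_fst, smul_eq_mul]
        rw [← add_mul, hab, one_mul]
      · simp
    rwa [e] at this

/-- G4: the fibre principle -/
theorem fibre_gen_of {C₂ η₂ C₃ η₃ : ℝ} (hC₂ : 1 ≤ C₂) (hη₂ : 0 < η₂)
    (hst : StableStat C₂ η₂) (hC₃ : 1 ≤ C₃) (hη₃ : 0 < η₃) (hext : ExtJStat C₃ η₃)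
    (happ : ApproxFibStat) : ∃ C : ℝ, 1 ≤ C ∧ ∀ (W : Type) [Fintype W] (ρ : ℝ × (W → ℝ) → ℝ),
    LCd ρ → ∫⁻ p, ENNReal.ofReal (ρ p) = 1 → ∀ K : ℝ, 1 ≤ K →
    (∀ y, ∫⁻ x, ENNReal.ofReal (ρ (y, x)) ≠ 0 → AP (dens (fun x => ρ (y, x))) K) →
    AP (dens ρ) (C * K) := by
  refine ⟨C₃ * C₂, by nlinarith, ?_⟩
  intro W _ ρ hρ h1 K hK hAP
  set η : ℝ := min (min η₂ η₃) (1 / 2) with hη
  have hη0 : 0 < η := lt_min (lt_min hη₂ hη₃) (by norm_num)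
  have hηa : η ≤ η₂ := (min_le_left _ _).trans (min_le_left _ _)
  have hηb : η ≤ η₃ := (min_le_left _ _).trans (min_le_right _ _)
  have hηc : η ≤ 1 / 2 := min_le_right _ _
  obtain ⟨α, β, hαβ, hnz, φ, hnice, ⟨ε₀, hε₀, hclose⟩, hlim⟩ := happ W ρ hρ h1 η hη0
  refine hlim _ ⟨ε₀, hε₀, fun ε hε hε' => ?_⟩
  obtain ⟨N₀, hN₀⟩ := hclose ε hε hε'
  refine ⟨N₀, fun N hN => ?_⟩
  obtain ⟨hmass, htv⟩ := hN₀ N hN
  have hφ : Nice (φ ε N) := hnice ε N hε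
  have hfib : ∀ y ∈ Icc α β, AP (gibbs (fun x => φ ε N (y, x))) (C₂ * K) := by
    intro y hy
    have hs : Nice (fun x => φ ε N (y, x)) := hφ.slice y
    have hgp : IsProbabilityMeasure (gibbs (fun x => φ ε N (y, x))) := gibbs_prob hs
    have h0 := hnz y hy
    have hfin : ∫⁻ x, ENNReal.ofReal (ρ (y, x)) ≠ ∞ := by
      intro hinf
      have h2 := htv y hy univ MeasurableSet.univ
      have h3 : (dens (fun x => ρ (y, x))).real univ = 0 := by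
        unfold dens
        rw [hinf]
        simp
      rw [h3, probReal_univ] at h2
      norm_num at h2
      linarith
    have hmp : IsProbabilityMeasure (dens (fun x => ρ (y, x))) := dens_prob h0 hfin
    exact hst (W → ℝ) (dens (fun x => ρ (y, x))) (gibbs (fun x => φ ε N (y, x)))
      ((hρ.slice y).plm h0 hfin) hs.plm_gibbs (fun ℓ hℓ => gibbs_nondeg hs ℓ hℓ)
      (fun S hS => (htv y hy S hS).trans hηa) K hK (hAP y h0)
  have hK2 : 1 ≤ C₂ * K := by nlinarith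
  have := hext (W → ℝ) (φ ε N) (C₂ * K) hK2 hφ α β hαβ hfib (hmass.trans hηb)
  rwa [← mul_assoc] at this

end Pool.Agent.Lib.MP_6d896a_gt.FP
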