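import Mathlib
import Pool.Agent.Lib.MP_6d896a_gt.FP.GenDefs
import Pool.Agent.Lib.MP_6d896a_gt.FP.ForestInd
import Pool.Agent.Lib.MP_6d896a_gt.FP.Approx
import Pool.Agent.Lib.MP_6d896a_gt.FP.FibreGen

/-!
Forests: induction for products of nonnegative functions along a forest, only the product being
log-concave.
-/

set_option autoImplicit false

namespace Pool.Agent.Lib.MP_6d896a_gt.FP

open MeasureTheory ProbabilityTheory Set Filter
open scoped ENNReal Topology

section basics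

variable {E F : Type*} [NormedAddCommGroup E] [NormedSpace ℝ E]
  [NormedAddCommGroup F] [NormedSpace ℝ F]

/-- the zero measure satisfies the affine invariant Poincare inequality -/
lemma AP.zero [MeasurableSpace E] (K : ℝ) : AP (0 : Measure E) K := by
  intro f _ _
  have h1 : ∀ g : E → ℝ, Var[g; (0 : Measure E)] = 0 := by
    intro g
    unfold variance evariance
    simp
  rw [h1]
  simp

omit [NormedAddCommGroup E] [NormedSpace ℝ E] in
lemma dens_top [MeasureSpace E] {ρ : E → ℝ} (h : ∫⁻ x, ENNReal.ofReal (ρ x) = ∞) :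
    dens ρ = 0 := by
  unfold dens
  rw [h, ENNReal.inv_top, zero_smul]

omit [NormedAddCommGroup E] [NormedSpace ℝ E] in
/-- the normalised measure does not depend on the normalisation -/
lemma dens_const_mul [MeasureSpace E] {ρ : E → ℝ} (hm : Measurable ρ) {c : ℝ} (hc : 0 < c) :
    dens (fun x => c * ρ x) = dens ρ := by
  unfold dens
  have h1 : (fun x => ENNReal.ofReal (c * ρ x)) = fun x => ENNReal.ofReal c * ENNReal.ofReal (ρ x) := by
    funext x
    rw [ENNReal.ofReal_mul hc.le]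
  have hc0 : ENNReal.ofReal c ≠ 0 := by
    rw [Ne, ENNReal.ofReal_eq_zero, not_le]
    exact hc
  have hct : ENNReal.ofReal c ≠ ∞ := ENNReal.ofReal_ne_top
  have h2 : (volume : Measure E).withDensity (fun x => ENNReal.ofReal c * ENNReal.ofReal (ρ x)) =
      ENNReal.ofReal c • (volume : Measure E).withDensity (fun x => ENNReal.ofReal (ρ x)) := by
    have := withDensity_smul (μ := (volume : Measure E)) (ENNReal.ofReal c)
      (f := fun x => ENNReal.ofReal (ρ x)) hm.ennreal_ofReal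
    rw [← this]
    rfl
  rw [h1, h2, lintegral_const_mul' _ _ hct, smul_smul,
    ENNReal.mul_inv (Or.inl hc0) (Or.inl hct), mul_comm (ENNReal.ofReal c)⁻¹, mul_assoc,
    ENNReal.inv_mul_cancel hc0 hct, mul_one]

omit [NormedAddCommGroup E] [NormedSpace ℝ E] [NormedAddCommGroup F] [NormedSpace ℝ F] in
/-- normalised measures and measure preserving equivalences -/
lemma dens_map [MeasureSpace E] [MeasureSpace F]
    (e : E ≃ᵐ F) (he : MeasurePreserving e) {ρ : F → ℝ} :
    (dens (fun x => ρ (e x))).map e = dens ρ := by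
  unfold dens
  ext s hs
  rw [Measure.map_apply e.measurable hs, Measure.smul_apply, Measure.smul_apply,
    withDensity_apply _ (e.measurable hs), withDensity_apply _ hs,
    he.setLIntegral_comp_preimage_emb e.measurableEmbedding
      (fun x => ENNReal.ofReal (ρ x)) s,
    he.lintegral_comp_emb e.measurableEmbedding (fun x => ENNReal.ofReal (ρ x))]

lemma AP.of_equiv_dens [MeasureSpace E] [BorelSpace E] [MeasureSpace F] [BorelSpace F]
    (e : E ≃L[ℝ] F) (he : MeasurePreserving e (volume : Measure E) (volume : Measure F))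
    {ρ : E → ℝ} {K : ℝ} (h : AP (dens (fun y => ρ (e.symm y))) K) : AP (dens ρ) K := by
  set me : E ≃ᵐ F := e.toHomeomorph.toMeasurableEquiv with hme
  have h1 : MeasurePreserving me.symm (volume : Measure F) (volume : Measure E) :=
    MeasurePreserving.symm me he
  have h2 : (dens (fun y => ρ (e.symm y))).map e.symm = dens ρ := dens_map me.symm h1
  rw [← h2]
  exact h.map e.symm

omit [NormedAddCommGroup E] [NormedSpace ℝ E] [NormedAddCommGroup F] [NormedSpace ℝ F] in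
lemma lintegral_equiv [MeasureSpace E] [MeasureSpace F] (e : E ≃ᵐ F)
    (he : MeasurePreserving e) (g : E → ℝ≥0∞) : ∫⁻ y, g (e.symm y) = ∫⁻ x, g x := by
  have h1 : MeasurePreserving e.symm (volume : Measure F) (volume : Measure E) :=
    MeasurePreserving.symm e he
  exact h1.lintegral_comp_emb e.symm.measurableEmbedding g

lemma LCd.comp_linear [MeasurableSpace E] [MeasurableSpace F] {ρ : F → ℝ} (h : LCd ρ)
    (e : E → F) (hm : Measurable e) (hadd : ∀ (x y : E) (a b : ℝ), a + b = 1 →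
      e (a • x + b • y) = a • e x + b • e y) :
    LCd (fun x => ρ (e x)) where
  nn x := h.nn _
  ms := h.ms.comp hm
  lc x y a b ha hb hab := by
    rw [hadd x y a b hab]
    exact h.lc _ _ a b ha hb hab

/-- a factor of a log-concave product is log-concave -/
lemma LCd.left [MeasurableSpace E] [MeasurableSpace F] {ρ₁ : E → ℝ} {ρ₂ : F → ℝ}
    (n1 : ∀ x, 0 ≤ ρ₁ x) (m1 : Measurable ρ₁)
    (h : LCd (fun p : E × F => ρ₁ p.1 * ρ₂ p.2)) {y : F} (hy : 0 < ρ₂ y) : LCd ρ₁ where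
  nn := n1
  ms := m1
  lc x z a b ha hb hab := by
    have h1 := h.lc (x, y) (z, y) a b ha hb hab
    have e1 : (a • (x, y) + b • (z, y) : E × F).1 = a • x + b • z := rfl
    have e2 : (a • (x, y) + b • (z, y) : E × F).2 = y := by
      show a • y + b • y = y
      rw [← add_smul, hab, one_smul]
    simp only at h1
    rw [e1, e2, Real.mul_rpow (n1 x) hy.le, Real.mul_rpow (n1 z) hy.le] at h1
    have h2 : ρ₂ y ^ a * ρ₂ y ^ b = ρ₂ y := by
      rw [← Real.rpow_add hy, hab, Real.rpow_one]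
    have h3 : ρ₁ x ^ a * ρ₁ z ^ b * ρ₂ y ≤ ρ₁ (a • x + b • z) * ρ₂ y := by
      calc ρ₁ x ^ a * ρ₁ z ^ b * ρ₂ y = ρ₁ x ^ a * ρ₁ z ^ b * (ρ₂ y ^ a * ρ₂ y ^ b) := by rw [h2]
        _ = ρ₁ x ^ a * ρ₂ y ^ a * (ρ₁ z ^ b * ρ₂ y ^ b) := by ring
        _ ≤ _ := h1
    exact le_of_mul_le_mul_right h3 hy

lemma LCd.right [MeasurableSpace E] [MeasurableSpace F] {ρ₁ : E → ℝ} {ρ₂ : F → ℝ}
    (n2 : ∀ x, 0 ≤ ρ₂ x) (m2 : Measurable ρ₂)
    (h : LCd (fun p : E × F => ρ₁ p.1 * ρ₂ p.2)) {x : E} (hx : 0 < ρ₁ x) : LCd ρ₂ where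
  nn := n2
  ms := m2
  lc y z a b ha hb hab := by
    have h1 := h.lc (x, y) (x, z) a b ha hb hab
    have e2 : (a • (x, y) + b • (x, z) : E × F).2 = a • y + b • z := rfl
    have e1 : (a • (x, y) + b • (x, z) : E × F).1 = x := by
      show a • x + b • x = x
      rw [← add_smul, hab, one_smul]
    simp only at h1
    rw [e1, e2, Real.mul_rpow hx.le (n2 y), Real.mul_rpow hx.le (n2 z)] at h1
    have h2 : ρ₁ x ^ a * ρ₁ x ^ b = ρ₁ x := by
      rw [← Real.rpow_add hx, hab, Real.rpow_one]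
    have h3 : ρ₂ y ^ a * ρ₂ z ^ b * ρ₁ x ≤ ρ₂ (a • y + b • z) * ρ₁ x := by
      calc ρ₂ y ^ a * ρ₂ z ^ b * ρ₁ x = ρ₂ y ^ a * ρ₂ z ^ b * (ρ₁ x ^ a * ρ₁ x ^ b) := by rw [h2]
        _ = ρ₁ x ^ a * ρ₂ y ^ a * (ρ₁ x ^ b * ρ₂ z ^ b) := by ring
        _ ≤ _ := h1
        _ = _ := by ring
    exact le_of_mul_le_mul_right h3 hx

omit [NormedAddCommGroup E] [NormedSpace ℝ E] in
lemma exists_pos_of_lintegral [MeasureSpace E] {ρ : E → ℝ}
    (h : ∫⁻ x, ENNReal.ofReal (ρ x) ≠ 0) : ∃ x, 0 < ρ x := by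
  by_contra hcon
  push Not at hcon
  apply h
  have : (fun x => ENNReal.ofReal (ρ x)) = fun _ => 0 := by
    funext x
    rw [ENNReal.ofReal_eq_zero]
    exact hcon x
  rw [this, lintegral_zero]

omit [NormedAddCommGroup E] [NormedSpace ℝ E] [NormedAddCommGroup F] [NormedSpace ℝ F] in
lemma lintegral_prod_dens [MeasureSpace E] [MeasureSpace F]
    [SFinite (volume : Measure E)] [SFinite (volume : Measure F)] {ρ₁ : E → ℝ} {ρ₂ : F → ℝ}
    (n1 : ∀ x, 0 ≤ ρ₁ x) (m1 : Measurable ρ₁) (m2 : Measurable ρ₂) :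
    ∫⁻ p : E × F, ENNReal.ofReal (ρ₁ p.1 * ρ₂ p.2) =
      (∫⁻ x, ENNReal.ofReal (ρ₁ x)) * ∫⁻ y, ENNReal.ofReal (ρ₂ y) := by
  simp_rw [ENNReal.ofReal_mul (n1 _)]
  rw [Measure.volume_eq_prod, lintegral_prod_mul m1.ennreal_ofReal.aemeasurable
    m2.ennreal_ofReal.aemeasurable]

omit [NormedAddCommGroup E] [NormedSpace ℝ E] [NormedAddCommGroup F] [NormedSpace ℝ F] in
lemma dens_prod [MeasureSpace E] [MeasureSpace F]
    [SFinite (volume : Measure E)] [SFinite (volume : Measure F)] {ρ₁ : E → ℝ} {ρ₂ : F → ℝ}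
    (n1 : ∀ x, 0 ≤ ρ₁ x) (m1 : Measurable ρ₁) (m2 : Measurable ρ₂)
    (h0 : ∫⁻ x, ENNReal.ofReal (ρ₁ x) ≠ 0) (h1 : ∫⁻ x, ENNReal.ofReal (ρ₁ x) ≠ ∞) :
    dens (fun p : E × F => ρ₁ p.1 * ρ₂ p.2) = (dens ρ₁).prod (dens ρ₂) := by
  have e := lintegral_prod_dens (F := F) n1 m1 m2
  unfold dens
  rw [e]
  simp_rw [ENNReal.ofReal_mul (n1 _)]
  rw [Measure.prod_smul_left, Measure.prod_smul_right,
    prod_withDensity m1.ennreal_ofReal m2.ennreal_ofReal,
    ← Measure.volume_eq_prod, smul_smul]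
  congr 1
  exact ENNReal.mul_inv (Or.inl h0) (Or.inl h1)

end basics

section pi

variable {V : Type} [Fintype V]

/-- log-concave probability measures on a coordinate space have second moments -/
lemma memLp_norm_pi {μ : Measure (V → ℝ)} [IsProbabilityMeasure μ] (h : PLm μ) :
    MemLp (fun x : V → ℝ => ‖x‖) 2 μ := by
  classical
  rw [memLp_two_iff_integrable_sq continuous_norm.aestronglyMeasurable]
  have h1 : ∀ w : V, Integrable (fun x : V → ℝ => x w ^ 2) μ := by
    intro w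
    refine ⟨((measurable_pi_apply w).pow_const 2).aestronglyMeasurable, ?_⟩
    rw [hasFiniteIntegral_iff_ofReal (ae_of_all _ fun x => sq_nonneg _)]
    exact second_moment h w
  have h2 : Integrable (fun x : V → ℝ => ∑ w, x w ^ 2) μ := integrable_finsetSum _ fun w _ => h1 w
  refine h2.mono' (continuous_norm.pow 2).aestronglyMeasurable (ae_of_all _ fun x => ?_)
  rw [norm_pow, norm_norm]
  have h3 : ‖x‖ ≤ Real.sqrt (∑ w, x w ^ 2) := by
    rw [pi_norm_le_iff_of_nonneg (Real.sqrt_nonneg _)]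
    intro w
    apply Real.le_sqrt_of_sq_le
    rw [Real.norm_eq_abs, sq_abs]
    exact Finset.single_le_sum (f := fun w => x w ^ 2) (fun w _ => sq_nonneg _) (Finset.mem_univ w)
  calc ‖x‖ ^ 2 ≤ Real.sqrt (∑ w, x w ^ 2) ^ 2 := pow_le_pow_left₀ (norm_nonneg _) h3 2
    _ = _ := Real.sq_sqrt (Finset.sum_nonneg fun w _ => sq_nonneg _)

lemma AP.of_isEmpty_dens [IsEmpty V] {ρ : (V → ℝ) → ℝ}
    (h0 : ∫⁻ x, ENNReal.ofReal (ρ x) ≠ 0) (h1 : ∫⁻ x, ENNReal.ofReal (ρ x) ≠ ∞) {K : ℝ}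
    (hK : 0 ≤ K) : AP (dens ρ) K := by
  have := dens_prob h0 h1
  intro f _ _
  have h1 : f = fun _ => f 0 := by
    ext x
    rw [Subsingleton.elim x 0]
  have h2 : Var[f; dens ρ] = 0 := by
    rw [h1, variance_eq_integral aemeasurable_const]
    simp
  rw [h2]
  exact mul_nonneg hK (integral_nonneg fun x => variance_nonneg _ _)

lemma split_prod {anc : V → Finset V} (p : V → Prop) [DecidablePred p]
    (hp1 : ∀ v, p v → ∀ w ∈ anc v, p w) (hp2 : ∀ v, ¬ p v → ∀ w ∈ anc v, ¬ p w)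
    {f : V → (V → ℝ) → ℝ} (hdep : ∀ v, DepOn (f v) (anc v))
    (z : ({v // p v} → ℝ) × ({v // ¬ p v} → ℝ)) :
    ∏ v, f v ((splitL p).symm z) = (∏ v : {v // p v}, f v ((splitL p).symm (z.1, 0)))
      * ∏ v : {v // ¬ p v}, f v ((splitL p).symm (0, z.2)) := by
  rw [← Fintype.prod_subtype_mul_prod_subtype p]
  congr 1
  · refine Finset.prod_congr rfl fun v _ => ?_
    exact hdep v _ _ fun w hw => splitL_left_ext p z w (hp1 v v.2 w hw)
  · refine Finset.prod_congr rfl fun v _ => ?_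
    exact hdep v _ _ fun w hw => splitL_right_ext p z w (hp2 v v.2 w hw)

end pi

/-- the class of product densities along a forest -/
structure PD {V : Type} [Fintype V] (anc : V → Finset V) (f : V → (V → ℝ) → ℝ) : Prop where
  nn : ∀ v x, 0 ≤ f v x
  ms : ∀ v, Measurable (f v)
  dep : ∀ v, DepOn (f v) (anc v)
  lc : LCd (fun x => ∏ v, f v x)
  ne0 : ∫⁻ x, ENNReal.ofReal (∏ v, f v x) ≠ 0
  net : ∫⁻ x, ENNReal.ofReal (∏ v, f v x) ≠ ∞

section split

variable {V : Type} [Fintype V]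

lemma splitL_data {anc : V → Finset V} (p : V → Prop) [DecidablePred p]
    (hp1 : ∀ v, p v → ∀ w ∈ anc v, p w) (hp2 : ∀ v, ¬ p v → ∀ w ∈ anc v, ¬ p w)
    {f : V → (V → ℝ) → ℝ} (H : PD anc f) :
    PD (fun v : {v // p v} => (anc v).subtype p)
      (fun (v : {v // p v}) x => f v ((splitL p).symm (x, 0))) ∧
    PD (fun v : {v // ¬ p v} => (anc v).subtype (fun v => ¬ p v))
      (fun (v : {v // ¬ p v}) x => f v ((splitL p).symm (0, x))) := by
  have mL : Measurable (fun x : {v // p v} → ℝ =>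
      ((splitL p).symm (x, (0 : {v // ¬ p v} → ℝ)) : V → ℝ)) :=
    ((splitL p).symm.continuous.comp (by fun_prop)).measurable
  have mR : Measurable (fun x : {v // ¬ p v} → ℝ =>
      ((splitL p).symm ((0 : {v // p v} → ℝ), x) : V → ℝ)) :=
    ((splitL p).symm.continuous.comp (by fun_prop)).measurable
  set ρ₁ : ({v // p v} → ℝ) → ℝ := fun x => ∏ v : {v // p v}, f v ((splitL p).symm (x, 0)) with hρ₁
  set ρ₂ : ({v // ¬ p v} → ℝ) → ℝ := fun x => ∏ v : {v // ¬ p v}, f v ((splitL p).symm (0, x))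
    with hρ₂
  have n1 : ∀ x, 0 ≤ ρ₁ x := fun x => Finset.prod_nonneg fun v _ => H.nn v _
  have n2 : ∀ x, 0 ≤ ρ₂ x := fun x => Finset.prod_nonneg fun v _ => H.nn v _
  have m1 : Measurable ρ₁ := Finset.measurable_fun_prod _ fun v _ => (H.ms v).comp mL
  have m2 : Measurable ρ₂ := Finset.measurable_fun_prod _ fun v _ => (H.ms v).comp mR
  have hsp : ∀ z : ({v // p v} → ℝ) × ({v // ¬ p v} → ℝ),
      ∏ v, f v ((splitL p).symm z) = ρ₁ z.1 * ρ₂ z.2 := fun z => split_prod p hp1 hp2 H.dep z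
  have hlc : LCd (fun z : ({v // p v} → ℝ) × ({v // ¬ p v} → ℝ) => ρ₁ z.1 * ρ₂ z.2) := by
    have := H.lc.comp_linear (fun z => (splitL p).symm z) (splitL p).symm.continuous.measurable
      (fun x y a b _ => by rw [map_add, map_smul, map_smul])
    simp only [hsp] at this
    exact this
  have hint : ∫⁻ x, ENNReal.ofReal (∏ v, f v x) =
      (∫⁻ x, ENNReal.ofReal (ρ₁ x)) * ∫⁻ y, ENNReal.ofReal (ρ₂ y) := by
    rw [← lintegral_prod_dens n1 m1 m2,
      ← lintegral_equiv (splitL p).toHomeomorph.toMeasurableEquiv (splitL_mp p)]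
    congr 1
    funext z
    rw [← hsp]
    rfl
  have h0 := H.ne0
  have ht := H.net
  rw [hint] at h0 ht
  have h01 : ∫⁻ x, ENNReal.ofReal (ρ₁ x) ≠ 0 := left_ne_zero_of_mul h0
  have h02 : ∫⁻ x, ENNReal.ofReal (ρ₂ x) ≠ 0 := right_ne_zero_of_mul h0
  have ht1 : ∫⁻ x, ENNReal.ofReal (ρ₁ x) ≠ ∞ := by
    intro h
    rw [h, ENNReal.top_mul h02] at ht
    exact ht rfl
  have ht2 : ∫⁻ x, ENNReal.ofReal (ρ₂ x) ≠ ∞ := by
    intro h
    rw [h, ENNReal.mul_top h01] at ht
    exact ht rfl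
  obtain ⟨x1, hx1⟩ := exists_pos_of_lintegral h01
  obtain ⟨x2, hx2⟩ := exists_pos_of_lintegral h02
  refine ⟨⟨fun v x => H.nn _ _, fun v => (H.ms v).comp mL, fun v => ?_, hlc.left n1 m1 hx2, h01, ht1⟩,
    ⟨fun v x => H.nn _ _, fun v => (H.ms v).comp mR, fun v => ?_, hlc.right n2 m2 hx1, h02, ht2⟩⟩
  · intro x x' hx
    apply H.dep v
    intro w hw
    have hw2 := hp1 v v.2 w hw
    rw [splitL_symm_apply, splitL_symm_apply, dif_pos hw2, dif_pos hw2]
    apply hx
    rw [Finset.mem_subtype]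
    exact hw
  · intro x x' hx
    apply H.dep v
    intro w hw
    have hw2 := hp2 v v.2 w hw
    rw [splitL_symm_apply, splitL_symm_apply, dif_neg hw2, dif_neg hw2]
    apply hx
    rw [Finset.mem_subtype]
    exact hw

/-- densities which split -/
lemma step_splitG {anc : V → Finset V} (p : V → Prop) [DecidablePred p]
    (hp1 : ∀ v, p v → ∀ w ∈ anc v, p w) (hp2 : ∀ v, ¬ p v → ∀ w ∈ anc v, ¬ p w)
    {f : V → (V → ℝ) → ℝ} (H : PD anc f) {K : ℝ}
    (ih1 : AP (dens (fun x : {v // p v} → ℝ =>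
      ∏ v : {v // p v}, f v ((splitL p).symm (x, 0)))) K)
    (ih2 : AP (dens (fun x : {v // ¬ p v} → ℝ =>
      ∏ v : {v // ¬ p v}, f v ((splitL p).symm (0, x)))) K) :
    AP (dens (fun x => ∏ v, f v x)) K := by
  refine AP.of_equiv_dens (splitL p) (splitL_mp p) ?_
  obtain ⟨H1, H2⟩ := splitL_data p hp1 hp2 H
  have e : (fun y => ∏ v, f v ((splitL p).symm y))
      = (fun z : ({v // p v} → ℝ) × ({v // ¬ p v} → ℝ) =>
      (∏ v : {v // p v}, f v ((splitL p).symm (z.1, 0)))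
      * ∏ v : {v // ¬ p v}, f v ((splitL p).symm (0, z.2))) := by
    ext z
    exact split_prod p hp1 hp2 H.dep z
  rw [e, dens_prod (ρ₁ := fun x => ∏ v : {v // p v}, f v ((splitL p).symm (x, 0)))
    (ρ₂ := fun x => ∏ v : {v // ¬ p v}, f v ((splitL p).symm (0, x))) H1.lc.nn H1.lc.ms H2.lc.ms
    H1.ne0 H1.net]
  have p1 := dens_prob H1.ne0 H1.net
  have p2 := dens_prob H2.ne0 H2.net
  exact AP.prod (memLp_norm_pi (H1.lc.plm H1.ne0 H1.net)) (memLp_norm_pi (H2.lc.plm H2.ne0 H2.net))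
    ih1 ih2

end split

/-- statement of the fibre principle -/
def FibreStat (C : ℝ) : Prop := ∀ (W : Type) [Fintype W] (ρ : ℝ × (W → ℝ) → ℝ), LCd ρ →
    ∫⁻ p, ENNReal.ofReal (ρ p) = 1 → ∀ K : ℝ, 1 ≤ K →
    (∀ y, ∫⁻ x, ENNReal.ofReal (ρ (y, x)) ≠ 0 → AP (dens (fun x => ρ (y, x))) K) →
    AP (dens ρ) (C * K)

/-- scale free form -/
lemma FibreStat.scale {C : ℝ} (h : FibreStat C) (W : Type) [Fintype W] {ρ : ℝ × (W → ℝ) → ℝ}
    (hρ : LCd ρ) (h0 : ∫⁻ p, ENNReal.ofReal (ρ p) ≠ 0) (ht : ∫⁻ p, ENNReal.ofReal (ρ p) ≠ ∞)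
    {K : ℝ} (hK : 1 ≤ K)
    (hAP : ∀ y, ∫⁻ x, ENNReal.ofReal (ρ (y, x)) ≠ 0 → AP (dens (fun x => ρ (y, x))) K) :
    AP (dens ρ) (C * K) := by
  set Z : ℝ := (∫⁻ p, ENNReal.ofReal (ρ p)).toReal with hZ
  have hZ0 : 0 < Z := ENNReal.toReal_pos h0 ht
  have hc : 0 < Z⁻¹ := inv_pos.2 hZ0
  have hZe : ENNReal.ofReal Z = ∫⁻ p, ENNReal.ofReal (ρ p) := ENNReal.ofReal_toReal ht
  have h1 : LCd (fun p => Z⁻¹ * ρ p) := by
    refine ⟨fun x => mul_nonneg hc.le (hρ.nn x), hρ.ms.const_mul _, fun x y a b ha hb hab => ?_⟩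
    rw [Real.mul_rpow hc.le (hρ.nn x), Real.mul_rpow hc.le (hρ.nn y)]
    have h2 : Z⁻¹ ^ a * Z⁻¹ ^ b = Z⁻¹ := by
      rw [← Real.rpow_add hc, hab, Real.rpow_one]
    calc Z⁻¹ ^ a * ρ x ^ a * (Z⁻¹ ^ b * ρ y ^ b) = (Z⁻¹ ^ a * Z⁻¹ ^ b) * (ρ x ^ a * ρ y ^ b) := by
          ring
      _ ≤ Z⁻¹ * ρ (a • x + b • y) := by
          rw [h2]
          exact mul_le_mul_of_nonneg_left (hρ.lc x y a b ha hb hab) hc.le
  have h2 : ∫⁻ p, ENNReal.ofReal (Z⁻¹ * ρ p) = 1 := by
    simp_rw [ENNReal.ofReal_mul hc.le]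
    rw [lintegral_const_mul' _ _ ENNReal.ofReal_ne_top, ENNReal.ofReal_inv_of_pos hZ0, hZe]
    exact ENNReal.inv_mul_cancel h0 ht
  have h3 := h W (fun p => Z⁻¹ * ρ p) h1 h2 K hK (fun y hy => by
    have e : dens (fun x => Z⁻¹ * ρ (y, x)) = dens (fun x => ρ (y, x)) :=
      dens_const_mul (hρ.ms.comp measurable_prodMk_left) hc
    rw [e]
    apply hAP
    intro h0
    apply hy
    simp_rw [ENNReal.ofReal_mul hc.le]
    rw [lintegral_const_mul' _ _ ENNReal.ofReal_ne_top, h0, mul_zero])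
  rwa [dens_const_mul hρ.ms hc] at h3

section root

variable {V : Type} [Fintype V] [DecidableEq V]

/-- adding a root -/
lemma step_rootG {C : ℝ} (hC : 1 ≤ C) (hext : FibreStat C) {t : ℕ}
    (iht : ∀ (W : Type) [Fintype W] [DecidableEq W] (anc : W → Finset W), Anc anc →
      (∀ v, (anc v).card ≤ t) → ∀ f : W → (W → ℝ) → ℝ, PD anc f →
      AP (dens (fun x => ∏ v, f v x)) (C ^ t))
    {anc : V → Finset V} (hanc : Anc anc) (hcard : ∀ v, (anc v).card ≤ t + 1)
    {r : V} (hr : ∀ v, r ∈ anc v)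
    {f : V → (V → ℝ) → ℝ} (H : PD anc f) :
    AP (dens (fun x => ∏ v, f v x)) (C ^ (t + 1)) := by
  refine AP.of_equiv_dens (splitR r) (splitR_mp r) ?_
  rw [pow_succ, mul_comm]
  have hCt : 1 ≤ C ^ t := one_le_pow₀ hC
  have hlc : LCd (fun z : ℝ × ({v // ¬ v = r} → ℝ) => ∏ v, f v ((splitR r).symm z)) :=
    H.lc.comp_linear (fun z => (splitR r).symm z) (splitR r).symm.continuous.measurable
      (fun x y a b _ => by rw [map_add, map_smul, map_smul])
  have hint : ∫⁻ z : ℝ × ({v // ¬ v = r} → ℝ), ENNReal.ofReal (∏ v, f v ((splitR r).symm z)) =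
      ∫⁻ x, ENNReal.ofReal (∏ v, f v x) :=
    lintegral_equiv (splitR r).toHomeomorph.toMeasurableEquiv (splitR_mp r)
      (fun x => ENNReal.ofReal (∏ v, f v x))
  refine hext.scale {v // ¬ v = r} hlc (by rw [hint]; exact H.ne0) (by rw [hint]; exact H.net)
    hCt fun y hy => ?_
  by_cases hyt : ∫⁻ x : {v // ¬ v = r} → ℝ, ENNReal.ofReal (∏ v, f v ((splitR r).symm (y, x))) = ∞
  · rw [dens_top hyt]
    exact AP.zero _
  have hns := hlc.slice y
  rcases isEmpty_or_nonempty {v // ¬ v = r} with hW | hW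
  · exact AP.of_isEmpty_dens hy hyt (by linarith)
  -- the vertex which receives the factor of the root
  obtain ⟨w₀, hw₀⟩ : ∃ w₀ : {v // ¬ v = r}, ∀ u ∈ anc r, u ≠ r → u ∈ anc w₀ := by
    by_cases h : ∃ u ∈ anc r, u ≠ r
    · obtain ⟨u, hu, hur⟩ := h
      refine ⟨⟨u, hur⟩, fun w hw _ => ?_⟩
      exact hanc.trans r u (hr u) hw
    · push Not at h
      obtain ⟨w⟩ := hW
      exact ⟨w, fun u hu hur => absurd (h u hu) hur⟩
  set ψ : {v // ¬ v = r} → (({v // ¬ v = r} → ℝ) → ℝ) := fun w x =>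
    f w ((splitR r).symm (y, x)) * (if w = w₀ then f r ((splitR r).symm (y, x)) else 1) with hψ
  have hsum : (fun x : {v // ¬ v = r} → ℝ => ∏ v, f v ((splitR r).symm (y, x)))
      = fun x => ∏ w, ψ w x := by
    ext x
    rw [hψ]
    simp only
    rw [Finset.prod_mul_distrib, Finset.prod_ite_eq' Finset.univ w₀]
    rw [if_pos (Finset.mem_univ _), Fintype.prod_eq_mul_prod_subtype_ne _ r, mul_comm]
  have hsum' : ∀ x : {v // ¬ v = r} → ℝ, ∏ v, f v ((splitR r).symm (y, x)) = ∏ w, ψ w x :=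
    fun x => congrFun hsum x
  simp only [hsum'] at hns hy hyt ⊢
  have mS : Measurable (fun x : {v // ¬ v = r} → ℝ => ((splitR r).symm (y, x) : V → ℝ)) :=
    ((splitR r).symm.continuous.comp (by fun_prop)).measurable
  -- agreement of extensions
  have hagree : ∀ (S : Finset V) (T : Finset {v // ¬ v = r}), (∀ u ∈ S, ∀ h : ¬ u = r,
      (⟨u, h⟩ : {v // ¬ v = r}) ∈ T) → ∀ x x' : {v // ¬ v = r} → ℝ, (∀ w ∈ T, x w = x' w) →
      ∀ u ∈ S, (splitR r).symm (y, x) u = (splitR r).symm (y, x') u := by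
    intro S T hST x x' hx u hu
    rw [splitR_symm_apply, splitR_symm_apply]
    by_cases h : u = r
    · rw [dif_pos h, dif_pos h]
    · rw [dif_neg h, dif_neg h]
      exact hx _ (hST u hu h)
  refine iht {v // ¬ v = r} (fun v => (anc v).subtype (fun v => ¬ v = r))
    (hanc.sub _) (fun v => ?_) ψ ⟨fun w x => ?_, fun w => ?_, fun w => ?_, hns, hy, hyt⟩
  · rw [Finset.card_subtype]
    have h1 : ((anc v).filter (fun v => ¬ v = r)).card < (anc v).card := by
      apply Finset.card_lt_card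
      rw [Finset.filter_ssubset]
      exact ⟨r, hr v, by simp⟩
    have h2 := hcard v
    omega
  · rw [hψ]
    simp only
    apply mul_nonneg (H.nn _ _)
    split_ifs
    · exact H.nn _ _
    · exact zero_le_one
  · rw [hψ]
    simp only
    apply ((H.ms w).comp mS).mul
    by_cases hw : w = w₀
    · simp only [hw, if_true]
      exact (H.ms r).comp mS
    · simp only [hw, if_false]
      exact measurable_const
  · intro x x' hx
    rw [hψ]
    simp only
    congr 1
    · apply H.dep w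
      refine hagree (anc w) _ (fun u hu h => ?_) x x' hx
      rw [Finset.mem_subtype]
      exact hu
    · by_cases hw : w = w₀
      · rw [if_pos hw, if_pos hw]
        apply H.dep r
        refine hagree (anc r) _ (fun u hu h => ?_) x x' hx
        rw [Finset.mem_subtype, hw]
        exact hw₀ u hu h
      · rw [if_neg hw, if_neg hw]

end root

/-- induction over a rooted forest -/
theorem forestG {C : ℝ} (hC : 1 ≤ C) (hext : FibreStat C) : ∀ (t : ℕ) (V : Type) [Fintype V]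
    [DecidableEq V] (anc : V → Finset V), Anc anc → (∀ v, (anc v).card ≤ t) →
    ∀ f : V → (V → ℝ) → ℝ, PD anc f → AP (dens (fun x => ∏ v, f v x)) (C ^ t) := by
  intro t
  induction t with
  | zero =>
    intro V _ _ anc hanc hcard f H
    have hV : IsEmpty V := by
      refine ⟨fun v => ?_⟩
      have h1 := hcard v
      have h2 := Finset.card_pos.2 ⟨v, hanc.self v⟩
      omega
    exact AP.of_isEmpty_dens H.ne0 H.net (by positivity)
  | succ t iht =>
    have hC0 : 0 ≤ C ^ (t + 1) := by positivity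
    have key : ∀ (n : ℕ) (V : Type) [Fintype V] [DecidableEq V] (anc : V → Finset V), Anc anc →
        Fintype.card V ≤ n → (∀ v, (anc v).card ≤ t + 1) →
        ∀ f : V → (V → ℝ) → ℝ, PD anc f →
          AP (dens (fun x => ∏ v, f v x)) (C ^ (t + 1)) := by
      intro n
      induction n with
      | zero =>
        intro V _ _ anc hanc hVn hcard f H
        have hV : IsEmpty V := Fintype.card_eq_zero_iff.1 (Nat.le_zero.1 hVn)
        exact AP.of_isEmpty_dens H.ne0 H.net hC0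
      | succ n ihn =>
        intro V _ _ anc hanc hVn hcard f H
        rcases isEmpty_or_nonempty V with hV | hV
        · exact AP.of_isEmpty_dens H.ne0 H.net hC0
        obtain ⟨v₀⟩ := hV
        obtain ⟨r, hr0, hrmin⟩ := Finset.exists_min_image (anc v₀) (fun u => (anc u).card)
          ⟨v₀, hanc.self v₀⟩
        -- minimality
        have hmin : ∀ w ∈ anc r, r ∈ anc w := by
          intro w hw
          have h1 : anc w ⊆ anc r := hanc.trans w r hw
          have h2 : w ∈ anc v₀ := hanc.trans r v₀ hr0 hw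
          have h3 := Finset.eq_of_subset_of_card_le h1 (hrmin w h2)
          rw [h3]
          exact hanc.self r
        by_cases hall : ∀ v, r ∈ anc v
        · exact step_rootG hC hext (fun W => iht W) hanc hcard hall H
        push Not at hall
        obtain ⟨v₁, hv₁⟩ := hall
        have hp1 : ∀ v, r ∈ anc v → ∀ w ∈ anc v, r ∈ anc w := by
          intro v hv w hw
          rcases hanc.chain r w v hv hw with h | h
          · exact h
          · exact hmin w h
        have hp2 : ∀ v, ¬ r ∈ anc v → ∀ w ∈ anc v, ¬ r ∈ anc w := by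
          intro v hv w hw h
          exact hv (hanc.trans w v hw h)
        have hc1 : Fintype.card {v // r ∈ anc v} ≤ n := by
          have := Fintype.card_subtype_lt (p := fun v => r ∈ anc v) hv₁
          omega
        have hc2 : Fintype.card {v // ¬ r ∈ anc v} ≤ n := by
          have := Fintype.card_subtype_lt (p := fun v => ¬ r ∈ anc v) (x := r)
            (not_not.2 (hanc.self r))
          omega
        have hcd : ∀ (p : V → Prop) [DecidablePred p] (v : {v // p v}),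
            ((anc v).subtype p).card ≤ t + 1 := by
          intro p _ v
          rw [Finset.card_subtype]
          exact (Finset.card_filter_le _ _).trans (hcard v)
        obtain ⟨H1, H2⟩ := splitL_data (fun v => r ∈ anc v) hp1 hp2 H
        refine step_splitG (fun v => r ∈ anc v) hp1 hp2 H ?_ ?_
        · exact ihn {v // r ∈ anc v} (fun v => (anc v).subtype (fun v => r ∈ anc v))
            (hanc.sub _) hc1 (hcd _)
            (fun v x => f v ((splitL (fun v => r ∈ anc v)).symm (x, 0))) H1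
        · exact ihn {v // ¬ r ∈ anc v} (fun v => (anc v).subtype (fun v => ¬ r ∈ anc v))
            (hanc.sub _) hc2 (hcd _)
            (fun v x => f v ((splitL (fun v => r ∈ anc v)).symm (0, x))) H2
    intro V _ _ anc hanc hcard f H
    exact key (Fintype.card V) V anc hanc le_rfl hcard f H

/-- G6: forests, from the fibre principle -/
theorem forest_gen_of (hfib : ∃ C : ℝ, 1 ≤ C ∧ FibreStat C) : ∃ C : ℝ, 1 ≤ C ∧ ∀ (t : ℕ)
    (V : Type) [Fintype V] [DecidableEq V]
    (anc : V → Finset V), Anc anc → (∀ v, (anc v).card ≤ t) →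
    ∀ f : V → (V → ℝ) → ℝ, (∀ v x, 0 ≤ f v x) → (∀ v, Measurable (f v)) →
    (∀ v, DepOn (f v) (anc v)) → LCd (fun x => ∏ v, f v x) →
    ∫⁻ x, ENNReal.ofReal (∏ v, f v x) = 1 → AP (dens (fun x => ∏ v, f v x)) (C ^ t) := by
  obtain ⟨C, hC, hext⟩ := hfib
  refine ⟨C, hC, fun t V _ _ anc hanc hcard f hn hm hdep hlc h1 => ?_⟩
  exact forestG hC hext t V anc hanc hcard f
    ⟨hn, hm, hdep, hlc, by rw [h1]; exact one_ne_zero, by rw [h1]; exact ENNReal.one_ne_top⟩

end Pool.Agent.Lib.MP_6d896a_gt.FP
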