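import Mathlib

/-!
The frontier of a convex set and the frontiers of its slices.
-/

set_option autoImplicit false

namespace Pool.Agent.Lib.MP_6d896a_gt.FP

open Set Filter
open scoped Topology

/-- a convex set with interior points has interior points at all inner heights -/
lemma exists_interior_slice {F : Type*} [NormedAddCommGroup F] [NormedSpace ℝ F]
    {S : Set (ℝ × F)} (hS : Convex ℝ S) (hne : (interior S).Nonempty)
    {y : ℝ} (hy : y ∈ interior (Prod.fst '' S)) : ∃ z, (y, z) ∈ interior S := by
  obtain ⟨⟨s0, z0⟩, h0⟩ := hne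
  obtain ⟨δ, hδ, hball⟩ := Metric.isOpen_iff.mp isOpen_interior y hy
  rcases lt_trichotomy s0 y with h | h | h
  · have h1 : y + δ / 2 ∈ Prod.fst '' S := by
      refine interior_subset (hball ?_)
      rw [Metric.mem_ball, Real.dist_eq]
      rw [show y + δ / 2 - y = δ / 2 by ring, abs_of_pos (by linarith)]
      linarith
    obtain ⟨⟨s1, z1⟩, h1, hs1⟩ := h1
    have hs1' : s1 = y + δ / 2 := hs1
    set t : ℝ := (y - s0) / (s1 - s0) with ht
    have hpos : 0 < s1 - s0 := by rw [hs1']; linarith
    have ht0 : 0 < t := div_pos (by linarith) hpos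
    have ht1 : t < 1 := by rw [ht, div_lt_one hpos]; rw [hs1']; linarith
    have hts : t * (s1 - s0) = y - s0 := by rw [ht]; field_simp
    have hmem := hS.combo_interior_closure_mem_interior h0 (subset_closure h1)
      (a := 1 - t) (b := t) (by linarith) ht0.le (by ring)
    refine ⟨(1 - t) • z0 + t • z1, ?_⟩
    have e : (y, (1 - t) • z0 + t • z1) = (1 - t) • (s0, z0) + t • (s1, z1) := by
      ext
      · simp only [Prod.fst_add, Prod.smul_fst, smul_eq_mul]
        nlinarith
      · simp
    rw [e]; exact hmem
  · exact ⟨z0, by rw [← h]; exact h0⟩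
  · have h1 : y - δ / 2 ∈ Prod.fst '' S := by
      refine interior_subset (hball ?_)
      rw [Metric.mem_ball, Real.dist_eq]
      rw [show y - δ / 2 - y = -(δ / 2) by ring, abs_neg, abs_of_pos (by linarith)]
      linarith
    obtain ⟨⟨s1, z1⟩, h1, hs1⟩ := h1
    have hs1' : s1 = y - δ / 2 := hs1
    set t : ℝ := (s0 - y) / (s0 - s1) with ht
    have hpos : 0 < s0 - s1 := by rw [hs1']; linarith
    have ht0 : 0 < t := div_pos (by linarith) hpos
    have ht1 : t < 1 := by rw [ht, div_lt_one hpos]; rw [hs1']; linarith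
    have hts : t * (s0 - s1) = s0 - y := by rw [ht]; field_simp
    have hmem := hS.combo_interior_closure_mem_interior h0 (subset_closure h1)
      (a := 1 - t) (b := t) (by linarith) ht0.le (by ring)
    refine ⟨(1 - t) • z0 + t • z1, ?_⟩
    have e : (y, (1 - t) • z0 + t • z1) = (1 - t) • (s0, z0) + t • (s1, z1) := by
      ext
      · simp only [Prod.fst_add, Prod.smul_fst, smul_eq_mul]
        nlinarith
      · simp
    rw [e]; exact hmem

/-- the frontier at an inner height is contained in the frontier of the slice -/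
theorem frontier_slice {F : Type*} [NormedAddCommGroup F] [NormedSpace ℝ F]
    [FiniteDimensional ℝ F] {S : Set (ℝ × F)} (hS : Convex ℝ S) (hne : (interior S).Nonempty)
    {y : ℝ} (hy : y ∈ interior (Prod.fst '' S)) :
    {x | (y, x) ∈ frontier S} ⊆ frontier {x | (y, x) ∈ S} := by
  obtain ⟨z, hz⟩ := exists_interior_slice hS hne hy
  rintro x ⟨hcl, hint⟩
  refine ⟨?_, ?_⟩
  · -- closure of the slice
    have hlim : Tendsto (fun t : ℝ => (1 - t) • x + t • z) (𝓝[>] 0) (𝓝 x) := by
      have hc : Continuous fun t : ℝ => (1 - t) • x + t • z := by fun_prop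
      have := (hc.tendsto 0).mono_left (nhdsWithin_le_nhds (s := Ioi (0 : ℝ)))
      simpa using this
    refine mem_closure_of_tendsto hlim ?_
    have hlt : ∀ᶠ t : ℝ in 𝓝[>] 0, t < 1 := by
      have : ∀ᶠ t : ℝ in 𝓝 0, t < 1 := eventually_lt_nhds one_pos
      exact this.filter_mono nhdsWithin_le_nhds
    filter_upwards [hlt, self_mem_nhdsWithin] with t ht1 ht0
    have ht0' : (0 : ℝ) < t := ht0
    have hmem := hS.combo_interior_closure_mem_interior hz hcl
      (a := t) (b := 1 - t) ht0' (by linarith) (by ring)
    have e : (y, (1 - t) • x + t • z) = t • (y, z) + (1 - t) • (y, x) := by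
      ext
      · simp only [Prod.fst_add, Prod.smul_fst, smul_eq_mul]; ring
      · simp [add_comm]
    change (y, (1 - t) • x + t • z) ∈ S
    rw [e]
    exact interior_subset hmem
  · intro hx
    apply hint
    -- extend the segment from z through x
    have hlim : Tendsto (fun s : ℝ => x + s • (x - z)) (𝓝[>] 0) (𝓝 x) := by
      have hc : Continuous fun s : ℝ => x + s • (x - z) := by fun_prop
      have := (hc.tendsto 0).mono_left (nhdsWithin_le_nhds (s := Ioi (0 : ℝ)))
      simpa using this
    have hev : ∀ᶠ s : ℝ in 𝓝[>] 0, x + s • (x - z) ∈ {x | (y, x) ∈ S} :=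
      hlim (mem_interior_iff_mem_nhds.mp hx)
    obtain ⟨s, hs, hs0⟩ := (hev.and self_mem_nhdsWithin).exists
    have hs0' : (0 : ℝ) < s := hs0
    have hmem := hS.combo_interior_closure_mem_interior hz (subset_closure hs)
      (a := s / (1 + s)) (b := 1 / (1 + s)) (by positivity) (by positivity)
      (by field_simp; ring)
    have hs1 : (1 + s) ≠ 0 := by positivity
    have e : (y, x) = (s / (1 + s)) • (y, z) + (1 / (1 + s)) • (y, x + s • (x - z)) := by
      ext
      · simp only [Prod.fst_add, Prod.smul_fst, smul_eq_mul]; field_simp; ring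
      · simp only [Prod.snd_add, Prod.smul_snd]
        have : x = ((1 + s)⁻¹ * (1 + s)) • x := by rw [inv_mul_cancel₀ hs1, one_smul]
        conv_lhs => rw [this]
        rw [smul_add, smul_smul, smul_sub, div_eq_mul_inv, div_eq_mul_inv, one_mul, mul_add,
          add_smul, mul_one, mul_comm s]
        abel
    rw [e]; exact hmem

end Pool.Agent.Lib.MP_6d896a_gt.FP
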