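import Mathlib
import Pool.Agent.Lib.MP_6d896a_gt.FP.GenDefs
import Pool.Agent.Lib.MP_6d896a_gt.FP.NiceBasic
import Pool.Agent.Lib.MP_6d896a_gt.FP.ApproxSupp
import Pool.Agent.Lib.MP_6d896a_gt.FP.ApproxNC
import Pool.Agent.Lib.MP_6d896a_gt.FP.ApproxLimit
import Pool.Agent.Lib.MP_6d896a_gt.FP.ForestInd
import Pool.Agent.Lib.MP_6d896a_gt.FP.FrontierSlice
import Pool.Agent.Lib.MP_6d896a_gt.FP.FibreGen
import Pool.Agent.Lib.MP_6d896a_gt.FP.Stable

/-!
Nice approximation of a log-concave density on `ℝ × (W → ℝ)` with control of all conditional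
measures.
-/

set_option autoImplicit false

namespace Pool.Agent.Lib.MP_6d896a_gt.FP

open MeasureTheory ProbabilityTheory Set Filter
open scoped ENNReal Topology

namespace AF

section transport

set_option linter.unusedSectionVars false

variable {E F : Type*} [NormedAddCommGroup E] [NormedSpace ℝ E] [MeasureSpace E] [BorelSpace E]
  [FiniteDimensional ℝ E] [(volume : Measure E).IsAddHaarMeasure]
  [NormedAddCommGroup F] [NormedSpace ℝ F] [MeasureSpace F] [BorelSpace F]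
  [FiniteDimensional ℝ F] [(volume : Measure F).IsAddHaarMeasure]

omit [FiniteDimensional ℝ E] in
lemma exists_haar_scale (T : E ≃L[ℝ] F) : ∃ c : ℝ≥0∞, c ≠ 0 ∧ c ≠ ∞ ∧
    (volume : Measure E).map T = c • (volume : Measure F) := by
  have h1 : ((volume : Measure E).map T).IsAddHaarMeasure := T.isAddHaarMeasure_map _
  exact ⟨(Measure.addHaarScalarFactor ((volume : Measure E).map T) (volume : Measure F) : ℝ≥0∞),
    by simpa using (Measure.addHaarScalarFactor_pos_of_isAddHaarMeasure _ _).ne',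
    ENNReal.coe_ne_top, Measure.isAddLeftInvariant_eq_smul _ _⟩

omit [FiniteDimensional ℝ E] [(volume : Measure E).IsAddHaarMeasure] [FiniteDimensional ℝ F]
  [(volume : Measure F).IsAddHaarMeasure] in
lemma lint_map (T : E ≃L[ℝ] F) {g : E → ℝ≥0∞} {c : ℝ≥0∞}
    (hc : (volume : Measure E).map T = c • (volume : Measure F)) :
    ∫⁻ x, g x = c * ∫⁻ y, g (T.symm y) := by
  set me : E ≃ᵐ F := T.toHomeomorph.toMeasurableEquiv with hme
  have h1 : ∫⁻ y, g (T.symm y) ∂((volume : Measure E).map me) = ∫⁻ x, g x := by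
    rw [lintegral_map_equiv]
    refine lintegral_congr fun x => ?_
    congr 1
    exact T.symm_apply_apply x
  have h2 : (volume : Measure E).map me = c • (volume : Measure F) := hc
  rw [← h1, h2, lintegral_smul_measure, smul_eq_mul]

lemma dens_map (T : E ≃L[ℝ] F) (ρ : E → ℝ) :
    (dens ρ).map T = dens (fun y => ρ (T.symm y)) := by
  obtain ⟨c, hc0, hct, hc⟩ := exists_haar_scale T
  set me : E ≃ᵐ F := T.toHomeomorph.toMeasurableEquiv with hme
  have hI := lint_map T (g := fun x => ENNReal.ofReal (ρ x)) hc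
  have h2 : (((volume : Measure E).withDensity (fun x => ENNReal.ofReal (ρ x))).map T) =
      c • ((volume : Measure F).withDensity (fun y => ENNReal.ofReal (ρ (T.symm y)))) := by
    ext S hS
    have hTS : MeasurableSet (T ⁻¹' S) := T.continuous.measurable hS
    rw [Measure.map_apply T.continuous.measurable hS, withDensity_apply _ hTS, Measure.smul_apply,
      withDensity_apply _ hS, smul_eq_mul, ← lintegral_indicator hTS, ← lintegral_indicator hS,
      lint_map T (g := (T ⁻¹' S).indicator fun x => ENNReal.ofReal (ρ x)) hc]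
    congr 1
    refine lintegral_congr fun y => ?_
    by_cases hy : y ∈ S
    · rw [indicator_of_mem hy, indicator_of_mem]
      simpa using hy
    · rw [indicator_of_notMem hy, indicator_of_notMem]
      simpa using hy
  unfold dens
  rw [Measure.map_smul, h2, hI, smul_smul, ENNReal.mul_inv (Or.inl hc0) (Or.inl hct)]
  congr 1
  rw [mul_right_comm, ENNReal.inv_mul_cancel hc0 hct, one_mul]

lemma ae_transport (T : E ≃L[ℝ] F) {p : E → Prop} (h : ∀ᵐ x, p x) :
    ∀ᵐ y : F, p (T.symm y) := by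
  obtain ⟨c, hc0, hct, hc⟩ := exists_haar_scale T.symm
  have h1 : ∀ᵐ x ∂((volume : Measure F).map T.symm), p x := by
    rw [hc]
    exact Measure.ae_smul_measure h c
  exact ae_of_ae_map T.symm.continuous.measurable.aemeasurable h1

lemma integrable_transport (T : E ≃L[ℝ] F) {g : E → ℝ} (h : Integrable g) :
    Integrable (fun y => g (T.symm y)) := by
  obtain ⟨c, hc0, hct, hc⟩ := exists_haar_scale T.symm
  have h1 : Integrable g ((volume : Measure F).map T.symm) := by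
    rw [hc]
    exact h.smul_measure hct
  exact h1.comp_measurable T.symm.continuous.measurable

lemma integral_transport (T : E ≃L[ℝ] F) (g : E → ℝ) :
    ∃ c : ℝ, 0 < c ∧ ∫ y, g (T.symm y) = c * ∫ x, g x := by
  obtain ⟨c, hc0, hct, hc⟩ := exists_haar_scale T.symm
  refine ⟨c.toReal, ENNReal.toReal_pos hc0 hct, ?_⟩
  set me : F ≃ᵐ E := T.symm.toHomeomorph.toMeasurableEquiv with hme
  have h2 : (volume : Measure F).map me = c • (volume : Measure E) := hc
  have h3 : ∫ x, g x ∂((volume : Measure F).map me) = ∫ y, g (T.symm y) := by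
    rw [integral_map_equiv]
    rfl
  rw [← h3, h2, integral_smul_measure, smul_eq_mul]

/-- the affine invariant Poincare inequality passes to the limit -/
theorem AP_limit_gen {p : ℕ → E → ℝ} {q P : E → ℝ} {K : ℝ}
    (hp0 : ∀ k x, 0 ≤ p k x) (hpm : ∀ k, Measurable (p k)) (hq0 : ∀ x, 0 ≤ q x)
    (hqm : Measurable q) (hP : ∀ k, ∀ᵐ x, p k x ≤ P x)
    (hPi : Integrable (fun x => (1 + ‖x‖) ^ 2 * P x))
    (hlim : ∀ᵐ x, Tendsto (fun k => p k x) atTop (𝓝 (q x))) (hq : 0 < ∫ x, q x)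
    (hAP : ∀ k, AP (dens (p k)) K) : AP (dens q) K := by
  set T : E ≃L[ℝ] (Fin (Module.finrank ℝ E) → ℝ) :=
    ContinuousLinearEquiv.ofFinrankEq (by simp) with hT
  have hTs : Measurable (T.symm : (Fin (Module.finrank ℝ E) → ℝ) → E) :=
    T.symm.continuous.measurable
  have hbd : ∀ x : E, ‖T x‖ ≤ ‖(T : E →L[ℝ] (Fin (Module.finrank ℝ E) → ℝ))‖ * ‖x‖ :=
    fun x => (T : E →L[ℝ] (Fin (Module.finrank ℝ E) → ℝ)).le_opNorm x
  set C := 1 + ‖(T : E →L[ℝ] (Fin (Module.finrank ℝ E) → ℝ))‖ with hC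
  have hC1 : 1 ≤ C := by rw [hC]; linarith [norm_nonneg (T : E →L[ℝ] (Fin (Module.finrank ℝ E) → ℝ))]
  have hb2 : ∀ x : E, (1 + ‖T x‖) ^ 2 ≤ C ^ 2 * (1 + ‖x‖) ^ 2 := by
    intro x
    rw [← mul_pow]
    apply pow_le_pow_left₀ (by positivity)
    have := hbd x
    have h2 : 0 ≤ ‖x‖ := norm_nonneg x
    rw [hC]
    nlinarith [norm_nonneg (T : E →L[ℝ] (Fin (Module.finrank ℝ E) → ℝ))]
  have hP0 : ∀ᵐ x, 0 ≤ P x := by
    filter_upwards [hP 0] with x hx
    exact (hp0 0 x).trans hx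
  have hPm : AEStronglyMeasurable P (volume : Measure E) := by
    have h1 : AEStronglyMeasurable (fun x => ((1 + ‖x‖) ^ 2)⁻¹ * ((1 + ‖x‖) ^ 2 * P x))
        (volume : Measure E) := by
      refine AEStronglyMeasurable.mul ?_ hPi.aestronglyMeasurable
      have : Continuous fun x : E => ((1 + ‖x‖) ^ 2)⁻¹ :=
        ((continuous_const.add continuous_norm).pow 2).inv₀ fun x => by
          have : 0 < 1 + ‖x‖ := by positivity
          exact (pow_pos this 2).ne'
      exact this.aestronglyMeasurable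
    refine h1.congr (ae_of_all _ fun x => ?_)
    have : (1 + ‖x‖) ^ 2 ≠ 0 := by positivity
    simp only
    rw [← mul_assoc, inv_mul_cancel₀ this, one_mul]
  have hi1 : Integrable (fun x => (1 + ‖T x‖) ^ 2 * P x) (volume : Measure E) := by
    refine (hPi.const_mul (C ^ 2)).mono' ?_ ?_
    · exact ((continuous_const.add T.continuous.norm).pow 2).aestronglyMeasurable.mul hPm
    · filter_upwards [hP0] with x hx
      rw [Real.norm_of_nonneg (mul_nonneg (by positivity) hx), ← mul_assoc]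
      exact mul_le_mul_of_nonneg_right (hb2 x) hx
  have hi2 := integrable_transport T hi1
  simp only [ContinuousLinearEquiv.apply_symm_apply] at hi2
  obtain ⟨c, hc, hci⟩ := integral_transport T q
  have main := AP_limit (p := fun k y => p k (T.symm y)) (q := fun y => q (T.symm y))
    (P := fun y => P (T.symm y)) (K := K) (fun k y => hp0 k _) (fun k => (hpm k).comp hTs)
    (fun y => hq0 _) (hqm.comp hTs) (fun k => ae_transport T (hP k)) hi2
    (ae_transport T hlim) (by rw [hci]; exact mul_pos hc hq) (fun k _ => by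
      have := (hAP k).map T
      rw [dens_map] at this
      exact this)
  have h3 : AP (dens (fun y => q (T.symm y))) K := main.2
  have h4 := h3.map T.symm
  rw [dens_map] at h4
  simpa using h4

end transport



section gm

/-- minimum of the first `N + 1` numbers -/
noncomputable def gm (t : ℕ → ℝ) : ℕ → ℝ
  | 0 => t 0
  | N + 1 => min (gm t N) (t (N + 1))

lemma gm_le (t : ℕ → ℝ) {N i : ℕ} (hi : i ≤ N) : gm t N ≤ t i := by
  induction N with
  | zero =>
    have : i = 0 := by omega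
    subst this; exact le_rfl
  | succ N ih =>
    rcases Nat.lt_or_ge i (N + 1) with h | h
    · exact (min_le_left _ _).trans (ih (by omega))
    · have : i = N + 1 := by omega
      subst this; exact min_le_right _ _

lemma le_gm (t : ℕ → ℝ) {N : ℕ} {m : ℝ} (h : ∀ i ≤ N, m ≤ t i) : m ≤ gm t N := by
  induction N with
  | zero => exact h 0 le_rfl
  | succ N ih => exact le_min (ih fun i hi => h i (by omega)) (h _ le_rfl)

lemma gm_anti (t : ℕ → ℝ) : Antitone (gm t) := antitone_nat_of_succ_le fun _ => min_le_left _ _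

lemma softm_congr {t t' : ℕ → ℝ} {N : ℕ} (h : ∀ i ≤ N, t i = t' i) : softm t N = softm t' N := by
  unfold softm
  congr 2
  refine Finset.sum_congr rfl fun i hi => ?_
  rw [h i (by have := Finset.mem_range.mp hi; omega)]

lemma exp_neg_softm_le_gm (t : ℕ → ℝ) (N : ℕ) : Real.exp (-softm t N) ≤ Real.exp (gm t N) := by
  apply Real.exp_le_exp.mpr
  refine le_gm t fun i hi => ?_
  linarith [softm_ge t hi]

lemma exp_gm_le (t : ℕ → ℝ) (N : ℕ) :
    Real.exp (gm t N) * Real.exp (-(1 / ((N : ℝ) + 1))) ≤ Real.exp (-softm t N) := by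
  have h1 : softm t N = softm (fun i => t (min i N)) N := by
    apply softm_congr
    intro i hi
    rw [min_eq_left hi]
  rw [h1]
  refine exp_neg_softm_ge _ (Real.exp_pos _).le (fun i => ?_) N
  exact Real.exp_le_exp.mpr (gm_le t (min_le_right _ _))

lemma softm_zero (t : ℕ → ℝ) : softm t 0 = - t 0 := by
  simp [softm]

variable {E : Type*} [NormedAddCommGroup E] [NormedSpace ℝ E]

lemma gm_concave (l : ℕ → E →L[ℝ] ℝ) (c : ℕ → ℝ) (N : ℕ) (x y : E) {a b : ℝ} (ha : 0 ≤ a)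
    (hb : 0 ≤ b) (hab : a + b = 1) :
    a * gm (fun i => l i x + c i) N + b * gm (fun i => l i y + c i) N ≤
      gm (fun i => l i (a • x + b • y) + c i) N := by
  refine le_gm _ fun i hi => ?_
  have h1 := mul_le_mul_of_nonneg_left (gm_le (fun i => l i x + c i) hi) ha
  have h2 := mul_le_mul_of_nonneg_left (gm_le (fun i => l i y + c i) hi) hb
  have h3 : l i (a • x + b • y) + c i = a * (l i x + c i) + b * (l i y + c i) := by
    rw [map_add, map_smul, map_smul, smul_eq_mul, smul_eq_mul]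
    have : c i = (a + b) * c i := by rw [hab, one_mul]
    linarith
  rw [h3]
  linarith

lemma gm_cont (l : ℕ → E →L[ℝ] ℝ) (c : ℕ → ℝ) (N : ℕ) :
    Continuous fun x => gm (fun i => l i x + c i) N := by
  induction N with
  | zero => simp only [gm]; fun_prop
  | succ N ih =>
    simp only [gm]
    exact ih.min (by fun_prop)

lemma softm_eq_seZ' (l : ℕ → E →L[ℝ] ℝ) (c : ℕ → ℝ) (N : ℕ) (x : E) :
    softm (fun i => l i x + c i) N =
      (((N : ℝ) + 1) ^ 2)⁻¹ * Real.log (seZ (Finset.range (N + 1))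
        (fun i => (-(((N : ℝ) + 1) ^ 2)) • l i) (fun i => -(((N : ℝ) + 1) ^ 2) * c i) x) := by
  rw [softm, seZ]
  congr 3
  funext i
  congr 1
  simp
  ring

end gm

section pot

variable {W : Type} [Fintype W]

/-- quadratic form -/
noncomputable def qf (p : ℝ × (W → ℝ)) : ℝ := p.1 ^ 2 + ∑ w, p.2 w ^ 2

lemma qf_nonneg (p : ℝ × (W → ℝ)) : 0 ≤ qf p :=
  add_nonneg (sq_nonneg _) (Finset.sum_nonneg fun _ _ => sq_nonneg _)

lemma qf_cont : Continuous (qf : ℝ × (W → ℝ) → ℝ) := by unfold qf; fun_prop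

lemma pnorm_sq_le_sum (z : W → ℝ) : ‖z‖ ^ 2 ≤ ∑ w, z w ^ 2 := by
  have h0 : 0 ≤ ∑ w, z w ^ 2 := Finset.sum_nonneg fun _ _ => sq_nonneg _
  have h1 : ‖z‖ ≤ Real.sqrt (∑ w, z w ^ 2) := by
    rw [pi_norm_le_iff_of_nonneg (Real.sqrt_nonneg _)]
    intro w
    rw [Real.norm_eq_abs]
    apply Real.abs_le_sqrt
    exact Finset.single_le_sum (f := fun w => z w ^ 2) (fun _ _ => sq_nonneg _)
      (Finset.mem_univ w)
  calc ‖z‖ ^ 2 ≤ Real.sqrt (∑ w, z w ^ 2) ^ 2 := by gcongr
    _ = _ := Real.sq_sqrt h0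

lemma norm_sq_le_qf (p : ℝ × (W → ℝ)) : ‖p‖ ^ 2 ≤ qf p := by
  have h1 := pnorm_sq_le_sum p.2
  have h2 : ‖p.1‖ ^ 2 = p.1 ^ 2 := by rw [Real.norm_eq_abs, sq_abs]
  rw [Prod.norm_def]
  unfold qf
  rcases le_total ‖p.1‖ ‖p.2‖ with h | h
  · rw [max_eq_right h]
    nlinarith [sq_nonneg p.1]
  · rw [max_eq_left h, h2]
    nlinarith [Finset.sum_nonneg fun w (_ : w ∈ Finset.univ) => sq_nonneg (p.2 w)]

lemma qf_mid (x y : ℝ × (W → ℝ)) :
    qf ((1 / 2 : ℝ) • (x + y)) + 1 / 4 * qf (x - y) = (qf x + qf y) / 2 := by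
  unfold qf
  have h1 : ∑ w, ((1 / 2 : ℝ) • (x + y)).2 w ^ 2 + 1 / 4 * ∑ w, (x - y).2 w ^ 2 =
      (∑ w, x.2 w ^ 2 + ∑ w, y.2 w ^ 2) / 2 := by
    rw [← Finset.sum_add_distrib, Finset.mul_sum, ← Finset.sum_add_distrib, Finset.sum_div]
    refine Finset.sum_congr rfl fun w _ => ?_
    simp only [Prod.smul_snd, Prod.snd_add, Prod.snd_sub, Pi.smul_apply, Pi.add_apply,
      Pi.sub_apply, smul_eq_mul]
    ring
  have h2 : ((1 / 2 : ℝ) • (x + y)).1 ^ 2 + 1 / 4 * (x - y).1 ^ 2 = (x.1 ^ 2 + y.1 ^ 2) / 2 := by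
    simp only [Prod.smul_fst, Prod.fst_add, Prod.fst_sub, smul_eq_mul]
    ring
  linarith

lemma qf_convex (x y : ℝ × (W → ℝ)) {a b : ℝ} (ha : 0 ≤ a) (hb : 0 ≤ b) (hab : a + b = 1) :
    qf (a • x + b • y) ≤ a * qf x + b * qf y := by
  have hsq : ∀ u v : ℝ, (a * u + b * v) ^ 2 ≤ a * u ^ 2 + b * v ^ 2 := by
    intro u v
    have : a * u ^ 2 + b * v ^ 2 - (a * u + b * v) ^ 2 = a * b * (u - v) ^ 2 := by
      have hb' : b = 1 - a := by linarith
      subst hb'; ring
    have h2 : 0 ≤ a * b * (u - v) ^ 2 := by positivity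
    linarith
  unfold qf
  simp only [Prod.fst_add, Prod.smul_fst, Prod.snd_add, Prod.smul_snd, Pi.add_apply,
    Pi.smul_apply, smul_eq_mul]
  rw [mul_add, mul_add, Finset.mul_sum, Finset.mul_sum]
  have h1 := hsq x.1 y.1
  have h2 : ∑ w, (a * x.2 w + b * y.2 w) ^ 2 ≤ ∑ w, a * x.2 w ^ 2 + ∑ w, b * y.2 w ^ 2 := by
    rw [← Finset.sum_add_distrib]
    exact Finset.sum_le_sum fun w _ => hsq _ _
  linarith

/-- approximating potentials -/
noncomputable def bpot (l : ℕ → (ℝ × (W → ℝ)) →L[ℝ] ℝ) (c : ℕ → ℝ) (ε : ℝ) (N : ℕ)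
    (p : ℝ × (W → ℝ)) : ℝ := softm (fun i => l i p + c i) N + ε * qf p

lemma bpot_nice (l : ℕ → (ℝ × (W → ℝ)) →L[ℝ] ℝ) (c : ℕ → ℝ) {ε : ℝ} (hε : 0 < ε) (N : ℕ) :
    Nice (bpot l c ε N) := by
  have hne : (Finset.range (N + 1)).Nonempty := by simp
  have hb : (0 : ℝ) < (((N : ℝ) + 1) ^ 2)⁻¹ := by positivity
  refine NC.nice ?_ ?_
  · unfold bpot
    refine NC.add ?_ (NC.const_mul ?_ _)
    · simp only [softm_eq_seZ']
      exact NC.const_mul ⟨contDiff_log_seZ hne 2, BLip_fderiv_fderiv_log_seZ hne⟩ _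
    · unfold qf
      refine NC.add (NC.sq (ContinuousLinearMap.fst ℝ ℝ (W → ℝ))) (NC.sum _ fun w _ => ?_)
      exact NC.sq ((ContinuousLinearMap.proj (R := ℝ) (φ := fun _ : W => ℝ) w).comp
        (ContinuousLinearMap.snd ℝ ℝ (W → ℝ)))
  · refine ⟨ε / 4, by positivity, fun x y => ?_⟩
    unfold bpot
    have a1 := mul_le_mul_of_nonneg_left (midpoint_log_seZ
        (A := fun i => (-(((N : ℝ) + 1) ^ 2)) • l i)
        (b := fun i => -(((N : ℝ) + 1) ^ 2) * c i) hne x y) hb.le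
    simp only [softm_eq_seZ']
    have a2 := qf_mid x y
    have a3 := mul_le_mul_of_nonneg_left (norm_sq_le_qf (x - y)) (by positivity : 0 ≤ ε / 4)
    have a4 : ε * qf ((1 / 2 : ℝ) • (x + y)) + ε / 4 * qf (x - y) =
        (ε * qf x + ε * qf y) / 2 := by linear_combination ε * a2
    linarith

lemma exp_neg_bpot (l : ℕ → (ℝ × (W → ℝ)) →L[ℝ] ℝ) (c : ℕ → ℝ) (ε : ℝ) (N : ℕ)
    (p : ℝ × (W → ℝ)) : Real.exp (-bpot l c ε N p) =
      Real.exp (-softm (fun i => l i p + c i) N) * Real.exp (-(ε * qf p)) := by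
  rw [← Real.exp_add]
  unfold bpot
  congr 1
  ring

/-- the larger comparison density -/
noncomputable def gd (l : ℕ → (ℝ × (W → ℝ)) →L[ℝ] ℝ) (c : ℕ → ℝ) (ε : ℝ) (N : ℕ)
    (p : ℝ × (W → ℝ)) : ℝ := Real.exp (gm (fun i => l i p + c i) N) * Real.exp (-(ε * qf p))

lemma gd_pos (l : ℕ → (ℝ × (W → ℝ)) →L[ℝ] ℝ) (c : ℕ → ℝ) (ε : ℝ) (N : ℕ)
    (p : ℝ × (W → ℝ)) : 0 < gd l c ε N p := mul_pos (Real.exp_pos _) (Real.exp_pos _)

lemma gd_cont (l : ℕ → (ℝ × (W → ℝ)) →L[ℝ] ℝ) (c : ℕ → ℝ) (ε : ℝ) (N : ℕ) :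
    Continuous (gd l c ε N) :=
  (Real.continuous_exp.comp (gm_cont l c N)).mul
    (Real.continuous_exp.comp (continuous_const.mul qf_cont).neg)

lemma gd_LCd (l : ℕ → (ℝ × (W → ℝ)) →L[ℝ] ℝ) (c : ℕ → ℝ) {ε : ℝ} (hε : 0 ≤ ε) (N : ℕ) :
    LCd (gd l c ε N) where
  nn p := (gd_pos l c ε N p).le
  ms := (gd_cont l c ε N).measurable
  lc x y a b ha hb hab := by
    unfold gd
    rw [← Real.exp_add, ← Real.exp_add, ← Real.exp_add, ← Real.exp_mul, ← Real.exp_mul,
      ← Real.exp_add]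
    apply Real.exp_le_exp.mpr
    have h1 := gm_concave l c N x y ha.le hb.le hab
    have h2 := mul_le_mul_of_nonneg_left (qf_convex x y ha.le hb.le hab) hε
    nlinarith

lemma gd_anti (l : ℕ → (ℝ × (W → ℝ)) →L[ℝ] ℝ) (c : ℕ → ℝ) (ε : ℝ) (p : ℝ × (W → ℝ)) :
    Antitone fun N => gd l c ε N p := by
  intro M N h
  exact mul_le_mul_of_nonneg_right (Real.exp_le_exp.mpr (gm_anti _ h)) (Real.exp_pos _).le

lemma gd_zero (l : ℕ → (ℝ × (W → ℝ)) →L[ℝ] ℝ) (c : ℕ → ℝ) (ε : ℝ) (p : ℝ × (W → ℝ)) :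
    gd l c ε 0 p = Real.exp (-bpot l c ε 0 p) := by
  rw [exp_neg_bpot, softm_zero, neg_neg]
  rfl

lemma exp_neg_bpot_le_gd (l : ℕ → (ℝ × (W → ℝ)) →L[ℝ] ℝ) (c : ℕ → ℝ) (ε : ℝ) (N : ℕ)
    (p : ℝ × (W → ℝ)) : Real.exp (-bpot l c ε N p) ≤ gd l c ε N p := by
  rw [exp_neg_bpot]
  unfold gd
  exact mul_le_mul_of_nonneg_right (exp_neg_softm_le_gm _ N) (Real.exp_pos _).le

lemma gd_sub_le (l : ℕ → (ℝ × (W → ℝ)) →L[ℝ] ℝ) (c : ℕ → ℝ) (ε : ℝ) (N : ℕ)
    (p : ℝ × (W → ℝ)) :
    gd l c ε N p - Real.exp (-bpot l c ε N p) ≤ 1 / ((N : ℝ) + 1) * gd l c ε N p := by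
  rw [exp_neg_bpot]
  have h1 := mul_le_mul_of_nonneg_right (exp_gm_le (fun i => l i p + c i) N)
    (Real.exp_pos (-(ε * qf p))).le
  have h2 := Real.add_one_le_exp (-(1 / ((N : ℝ) + 1)))
  have h3 := mul_le_mul_of_nonneg_left h2 (gd_pos l c ε N p).le
  unfold gd at h3 ⊢
  nlinarith

end pot



section marg

set_option linter.unusedSectionVars false

variable {F : Type*} [NormedAddCommGroup F] [NormedSpace ℝ F] [MeasureSpace F]
  [BorelSpace F] [FiniteDimensional ℝ F] [(volume : Measure F).IsAddHaarMeasure]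

/-- marginal density -/
noncomputable def mg (h : ℝ × F → ℝ) (y : ℝ) : ℝ≥0∞ := ∫⁻ x, ENNReal.ofReal (h (y, x))

lemma mg_meas {h : ℝ × F → ℝ} (hm : Measurable h) : Measurable (mg h) := by
  unfold mg
  have : Measurable (fun p : ℝ × F => ENNReal.ofReal (h p)) := hm.ennreal_ofReal
  exact this.lintegral_prod_right'

lemma mg_lc {h : ℝ × F → ℝ} (hh : LCd h) (y z : ℝ) {l : ℝ} (h0 : 0 < l) (h1 : l < 1) :
    mg h y ^ (1 - l) * mg h z ^ l ≤ mg h ((1 - l) * y + l * z) := by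
  refine plm_haar (volume : Measure F) l h0 h1 (fun x => ENNReal.ofReal (h (y, x)))
    (fun x => ENNReal.ofReal (h (z, x))) (fun x => ENNReal.ofReal (h ((1 - l) * y + l * z, x)))
    (hh.ms.comp measurable_prodMk_left).ennreal_ofReal
    (hh.ms.comp measurable_prodMk_left).ennreal_ofReal
    (hh.ms.comp measurable_prodMk_left).ennreal_ofReal fun x x' => ?_
  have := hh.lcf (y, x) (z, x') l h0 h1
  simpa using this

lemma mg_combo_ne_zero {h : ℝ × F → ℝ} (hh : LCd h) {y z : ℝ} (hy : mg h y ≠ 0)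
    (hz : mg h z ≠ 0) {l : ℝ} (h0 : 0 < l) (h1 : l < 1) : mg h ((1 - l) * y + l * z) ≠ 0 := by
  have h2 := mg_lc hh y z h0 h1
  have h3 : mg h y ^ (1 - l) * mg h z ^ l ≠ 0 := by
    refine mul_ne_zero ?_ ?_
    · rw [Ne, ENNReal.rpow_eq_zero_iff]
      rintro (⟨h4, _⟩ | ⟨_, h5⟩)
      · exact hy h4
      · linarith
    · rw [Ne, ENNReal.rpow_eq_zero_iff]
      rintro (⟨h4, _⟩ | ⟨_, h5⟩)
      · exact hz h4
      · linarith
  intro h4
  rw [h4] at h2
  exact h3 (le_antisymm h2 zero_le)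

lemma mg_convex {h : ℝ × F → ℝ} (hh : LCd h) : Convex ℝ {y | mg h y ≠ 0} := by
  intro y hy z hz a b ha hb hab
  rcases ha.eq_or_lt with rfl | ha'
  · have : b = 1 := by linarith
    subst this; simpa using hz
  rcases hb.eq_or_lt with rfl | hb'
  · have : a = 1 := by linarith
    subst this; simpa using hy
  have := mg_combo_ne_zero hh hy hz hb' (by linarith)
  have e : 1 - b = a := by linarith
  rw [e] at this
  simpa using this

/-- finiteness of the marginal in the interior -/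
lemma mg_ne_top {h : ℝ × F → ℝ} (hh : LCd h) (hI : ∫⁻ y, mg h y ≠ ∞) {y : ℝ}
    (hy : y ∈ interior {y | mg h y ≠ 0}) : mg h y ≠ ∞ := by
  intro htop
  obtain ⟨δ, hδ, hball⟩ := Metric.isOpen_iff.mp isOpen_interior y hy
  have hae : ∀ᵐ z, mg h z < ∞ := ae_lt_top (mg_meas hh.ms) hI
  have hex : ∃ z ∈ Ioo y (y + δ / 2), mg h z < ∞ := by
    by_contra hcon
    push Not at hcon
    have h1 : (volume : Measure ℝ) (Ioo y (y + δ / 2)) = 0 := by
      refine measure_mono_null (fun z hz => ?_) (ae_iff.mp hae)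
      simp only [mem_ofPred_eq, not_lt]
      exact hcon z hz
    rw [Real.volume_Ioo] at h1
    simp only [add_sub_cancel_left, ENNReal.ofReal_eq_zero] at h1
    linarith
  obtain ⟨z, hz, hzf⟩ := hex
  have hw : 2 * z - y ∈ interior {y | mg h y ≠ 0} := by
    apply hball
    rw [Metric.mem_ball, Real.dist_eq, show 2 * z - y - y = 2 * (z - y) by ring, abs_of_pos]
    · linarith [hz.2]
    · linarith [hz.1]
  have hw0 : mg h (2 * z - y) ≠ 0 := interior_subset hw
  have h2 := mg_lc hh y (2 * z - y) (l := 1 / 2) (by norm_num) (by norm_num)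
  have e : (1 - 1 / 2) * y + 1 / 2 * (2 * z - y) = z := by ring
  rw [e, htop, ENNReal.top_rpow_of_pos (by norm_num), ENNReal.top_mul] at h2
  · exact absurd hzf (not_lt.mpr h2)
  · rw [Ne, ENNReal.rpow_eq_zero_iff]
    rintro (⟨h4, _⟩ | ⟨_, h5⟩)
    · exact hw0 h4
    · norm_num at h5

/-- continuity of the marginal -/
lemma mg_cont {h : ℝ × F → ℝ} (hh : LCd h) {U : Set ℝ} (hU : IsOpen U) (hc : Convex ℝ U)
    (h0 : ∀ y ∈ U, mg h y ≠ 0) (h1 : ∀ y ∈ U, mg h y ≠ ∞) :
    ContinuousOn (fun y => (mg h y).toReal) U := by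
  have hpos : ∀ y ∈ U, 0 < (mg h y).toReal := fun y hy =>
    ENNReal.toReal_pos (h0 y hy) (h1 y hy)
  have hcon : ConcaveOn ℝ U (fun y => Real.log (mg h y).toReal) := by
    refine ⟨hc, fun y hy z hz a b ha hb hab => ?_⟩
    rcases ha.eq_or_lt with rfl | ha'
    · have : b = 1 := by linarith
      subst this; simp
    rcases hb.eq_or_lt with rfl | hb'
    · have : a = 1 := by linarith
      subst this; simp
    have h2 := mg_lc hh y z hb' (by linarith : b < 1)
    have e : 1 - b = a := by linarith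
    rw [e] at h2
    have hmem : a * y + b * z ∈ U := by
      have := hc hy hz ha hb hab
      simpa using this
    have h3 := ENNReal.toReal_mono (h1 _ hmem) h2
    rw [ENNReal.toReal_mul, ← ENNReal.toReal_rpow, ← ENNReal.toReal_rpow] at h3
    have py := Real.rpow_pos_of_pos (hpos y hy) a
    have pz := Real.rpow_pos_of_pos (hpos z hz) b
    have h4 := Real.log_le_log (mul_pos py pz) h3
    rw [Real.log_mul py.ne' pz.ne', Real.log_rpow (hpos y hy), Real.log_rpow (hpos z hz)] at h4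
    simpa using h4
  have h5 := Real.continuous_exp.comp_continuousOn (hcon.continuousOn hU)
  refine h5.congr fun y hy => ?_
  simp only [Function.comp_apply]
  rw [Real.exp_log (hpos y hy)]

/-- total mass -/
lemma lint_mg [SFinite (volume : Measure F)] {h : ℝ × F → ℝ} (hm : Measurable h) :
    ∫⁻ p, ENNReal.ofReal (h p) = ∫⁻ y, mg h y := by
  rw [Measure.volume_eq_prod, lintegral_prod _ hm.ennreal_ofReal.aemeasurable]
  rfl

/-- good interval for the marginal -/
lemma exists_interval [SFinite (volume : Measure F)] {h : ℝ × F → ℝ} (hh : LCd h)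
    (h1 : ∫⁻ p, ENNReal.ofReal (h p) = 1) {η : ℝ} (hη : 0 < η) :
    ∃ α β : ℝ, α ≤ β ∧ Icc α β ⊆ interior {y | mg h y ≠ 0} ∧
      (dens h).real {p | p.1 ∉ Icc α β} ≤ η := by
  set P : Set ℝ := {y | mg h y ≠ 0} with hP
  set U := interior P with hU
  have hPm : MeasurableSet P := (mg_meas hh.ms) (measurableSet_singleton 0).compl
  have hprob : IsProbabilityMeasure (dens h) := dens_prob (by rw [h1]; simp) (by rw [h1]; simp)
  set ν := (dens h).map Prod.fst with hν
  have hνp : IsProbabilityMeasure ν :=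
    Measure.isProbabilityMeasure_map measurable_fst.aemeasurable
  have hd : dens h = (volume : Measure (ℝ × F)).withDensity (fun p => ENNReal.ofReal (h p)) := by
    unfold dens
    rw [h1, inv_one, one_smul]
  have hνS : ∀ S, MeasurableSet S → ν S = ∫⁻ y in S, mg h y := by
    intro S hS
    rw [hν, Measure.map_apply measurable_fst hS, hd,
      withDensity_apply _ (measurable_fst hS), ← lintegral_indicator (measurable_fst hS),
      Measure.volume_eq_prod, lintegral_prod _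
        (hh.ms.ennreal_ofReal.indicator (measurable_fst hS)).aemeasurable,
      ← lintegral_indicator hS]
    refine lintegral_congr fun y => ?_
    by_cases hy : y ∈ S
    · rw [indicator_of_mem hy]
      refine lintegral_congr fun x => ?_
      rw [indicator_of_mem (show (y, x) ∈ Prod.fst ⁻¹' S from hy)]
    · rw [indicator_of_notMem hy]
      simp [hy]
  have hνU : ν U = 1 := by
    have h2 : ν Uᶜ = 0 := by
      rw [hνS _ isOpen_interior.measurableSet.compl]
      have h3 : (volume : Measure ℝ) (frontier P) = 0 := (mg_convex hh).addHaar_frontier _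
      have h4 : ∀ᵐ y, y ∉ frontier P := measure_eq_zero_iff_ae_notMem.mp h3
      rw [setLIntegral_congr_fun_ae isOpen_interior.measurableSet.compl (g := fun _ => 0)]
      · simp
      · filter_upwards [h4] with y hy hyU
        by_contra hcon
        exact hy ⟨subset_closure hcon, hyU⟩
    rw [← prob_compl_eq_zero_iff isOpen_interior.measurableSet]
    exact h2
  set η' := min η (1 / 2) with hη'
  have hη'0 : 0 < η' := lt_min hη (by norm_num)
  have hη'1 : η' ≤ 1 / 2 := min_le_right _ _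
  obtain ⟨K, hKU, hKc, hK⟩ := isOpen_interior.exists_lt_isCompact (μ := ν) (U := U)
    (r := ENNReal.ofReal (1 - η')) (by
      rw [hνU, ← ENNReal.ofReal_one]
      exact (ENNReal.ofReal_lt_ofReal_iff one_pos).mpr (by linarith))
  have hKne : K.Nonempty := by
    by_contra hcon
    rw [not_nonempty_iff_eq_empty] at hcon
    rw [hcon, measure_empty] at hK
    exact absurd hK (not_lt.mpr zero_le)
  have ha := hKc.sInf_mem hKne
  have hb := hKc.sSup_mem hKne
  have hKI : K ⊆ Icc (sInf K) (sSup K) := fun y hy =>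
    ⟨csInf_le hKc.bddBelow hy, le_csSup hKc.bddAbove hy⟩
  refine ⟨sInf K, sSup K, csInf_le_csSup hKne hKc.bddBelow hKc.bddAbove, ?_, ?_⟩
  · exact ((mg_convex hh).interior.ordConnected).out (hKU ha) (hKU hb)
  · have h5 : {p : ℝ × F | p.1 ∉ Icc (sInf K) (sSup K)} =
        Prod.fst ⁻¹' (Icc (sInf K) (sSup K))ᶜ := rfl
    have h6 : (dens h).real {p : ℝ × F | p.1 ∉ Icc (sInf K) (sSup K)} =
        ν.real (Icc (sInf K) (sSup K))ᶜ := by
      rw [h5, measureReal_def, measureReal_def, hν,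
        Measure.map_apply measurable_fst measurableSet_Icc.compl]
    rw [h6, probReal_compl_eq_one_sub measurableSet_Icc]
    have h7 : 1 - η' ≤ ν.real (Icc (sInf K) (sSup K)) := by
      have h8 : ENNReal.ofReal (1 - η') ≤ ν (Icc (sInf K) (sSup K)) :=
        hK.le.trans (measure_mono hKI)
      have h9 := ENNReal.toReal_mono (measure_ne_top _ _) h8
      rwa [ENNReal.toReal_ofReal (by linarith)] at h9
    linarith [min_le_left η (1 / 2)]

/-- the frontier of the support meets almost no point of an inner slice -/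
lemma ae_slice {h : ℝ × F → ℝ} (hh : LCd h) (hne : (interior {p | 0 < h p}).Nonempty) {y : ℝ}
    (hy : y ∈ interior {y | mg h y ≠ 0}) : ∀ᵐ x, (y, x) ∉ frontier {p | 0 < h p} := by
  have hSc : Convex ℝ {p | 0 < h p} := by
    intro x hx y hy a b ha hb hab
    rcases ha.eq_or_lt with rfl | ha'
    · have : b = 1 := by linarith
      subst this; simpa using hy
    rcases hb.eq_or_lt with rfl | hb'
    · have : a = 1 := by linarith
      subst this; simpa using hx
    have := hh.lc x y a b ha' hb' hab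
    exact lt_of_lt_of_le (mul_pos (Real.rpow_pos_of_pos hx _) (Real.rpow_pos_of_pos hy _)) this
  have hsub : {y | mg h y ≠ 0} ⊆ Prod.fst '' {p | 0 < h p} := by
    intro z hz
    by_contra hcon
    apply hz
    unfold mg
    have : ∀ x, ENNReal.ofReal (h (z, x)) = 0 := by
      intro x
      rw [ENNReal.ofReal_eq_zero]
      by_contra hx
      push Not at hx
      exact hcon ⟨(z, x), hx, rfl⟩
    simp [this]
  have hy' : y ∈ interior (Prod.fst '' {p | 0 < h p}) := interior_mono hsub hy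
  have h1 := frontier_slice hSc hne hy'
  have hSc' : Convex ℝ {x : F | (y, x) ∈ {p | 0 < h p}} := by
    intro x hx z hz a b ha hb hab
    have h3 := hSc (x := (y, x)) hx (y := (y, z)) hz ha hb hab
    have e : a • (y, x) + b • (y, z) = (y, a • x + b • z) := by
      ext
      · simp only [Prod.fst_add, Prod.smul_fst, smul_eq_mul]
        rw [← add_mul, hab, one_mul]
      · simp
    rw [e] at h3
    exact h3
  have h2 : (volume : Measure F) {x | (y, x) ∈ frontier {p | 0 < h p}} = 0 :=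
    measure_mono_null h1 (hSc'.addHaar_frontier _)
  exact measure_eq_zero_iff_ae_notMem.mp h2

end marg

section tv

lemma dens_real {X : Type*} [MeasureSpace X] {a : X → ℝ} (ha0 : ∀ x, 0 ≤ a x)
    (hai : Integrable a) {S : Set X} (hS : MeasurableSet S) :
    (dens a).real S = (∫ x, a x)⁻¹ * ∫ x in S, a x := by
  unfold dens
  rw [measureReal_def, Measure.smul_apply, withDensity_apply _ hS, smul_eq_mul,
    ENNReal.toReal_mul, ENNReal.toReal_inv,
    ← ofReal_integral_eq_lintegral_ofReal hai (ae_of_all _ ha0),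
    ← ofReal_integral_eq_lintegral_ofReal hai.restrict (ae_of_all _ ha0),
    ENNReal.toReal_ofReal (integral_nonneg ha0), ENNReal.toReal_ofReal (integral_nonneg ha0)]

lemma tv_dens {X : Type*} [MeasureSpace X] {a b : X → ℝ} (ha0 : ∀ x, 0 ≤ a x)
    (hb0 : ∀ x, 0 ≤ b x) (hai : Integrable a) (hbi : Integrable b) (hA : 0 < ∫ x, a x)
    (hB : 0 < ∫ x, b x) {δ : ℝ} (hδ : ∫ x, |a x - b x| ≤ δ * ∫ x, a x) {S : Set X}
    (hS : MeasurableSet S) : |(dens a).real S - (dens b).real S| ≤ 2 * δ := by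
  rw [dens_real ha0 hai hS, dens_real hb0 hbi hS]
  set A := ∫ x, a x with hAd
  set B := ∫ x, b x with hBd
  set D := ∫ x, |a x - b x| with hD
  have hi : Integrable (fun x => |a x - b x|) := (hai.sub hbi).abs
  have h1 : |(∫ x in S, a x) - ∫ x in S, b x| ≤ D := by
    rw [← integral_sub hai.restrict hbi.restrict]
    refine (abs_integral_le_integral_abs).trans ?_
    exact setIntegral_le_integral hi (ae_of_all _ fun x => abs_nonneg _)
  have h2 : |A - B| ≤ D := by
    rw [hAd, hBd, ← integral_sub hai hbi]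
    exact abs_integral_le_integral_abs
  have h3 : 0 ≤ ∫ x in S, b x := integral_nonneg hb0
  have h4 : ∫ x in S, b x ≤ B := setIntegral_le_integral hbi (ae_of_all _ hb0)
  have e : A⁻¹ * (∫ x in S, a x) - B⁻¹ * ∫ x in S, b x =
      A⁻¹ * ((∫ x in S, a x) - ∫ x in S, b x) + A⁻¹ * ((B⁻¹ * ∫ x in S, b x) * (B - A)) := by
    field_simp
    ring
  have h5 : B⁻¹ * ∫ x in S, b x ≤ 1 := by
    rw [inv_mul_le_iff₀ hB, mul_one]; exact h4
  have h6 : 0 ≤ B⁻¹ * ∫ x in S, b x := by positivity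
  have hA' : 0 < A⁻¹ := inv_pos.mpr hA
  have h7 : |A⁻¹ * ((∫ x in S, a x) - ∫ x in S, b x)| ≤ A⁻¹ * D := by
    rw [abs_mul, abs_of_pos hA']
    exact mul_le_mul_of_nonneg_left h1 hA'.le
  have h8 : |A⁻¹ * ((B⁻¹ * ∫ x in S, b x) * (B - A))| ≤ A⁻¹ * D := by
    rw [abs_mul, abs_of_pos hA', abs_mul, abs_of_nonneg h6, abs_sub_comm B A]
    have := mul_le_mul h5 h2 (abs_nonneg _) zero_le_one
    rw [one_mul] at this
    exact mul_le_mul_of_nonneg_left this hA'.le
  have h9 : A⁻¹ * D ≤ δ := by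
    rw [inv_mul_le_iff₀ hA, mul_comm]; exact hδ
  rw [e]
  calc _ ≤ _ := abs_add_le _ _
    _ ≤ A⁻¹ * D + A⁻¹ * D := add_le_add h7 h8
    _ ≤ 2 * δ := by linarith

lemma l1_bound {X : Type*} [MeasureSpace X] {r re g b : X → ℝ} {κ : ℝ}
    (hr : Integrable r) (hre : Integrable re) (hg : Integrable g) (hb : Integrable b)
    (h1 : ∀ x, re x ≤ r x) (h2 : ∀ᵐ x, re x ≤ g x) (h3 : ∀ x, b x ≤ g x)
    (h4 : ∀ x, g x - b x ≤ κ * g x) :
    ∫ x, |r x - b x| ≤ ((∫ x, r x) - ∫ x, re x) + ((∫ x, g x) - ∫ x, re x) + κ * ∫ x, g x := by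
  have i1 : Integrable (fun x => r x - re x) := hr.sub hre
  have i2 : Integrable (fun x => g x - re x) := hg.sub hre
  have i3 : Integrable (fun x => κ * g x) := hg.const_mul κ
  have i4 : Integrable (fun x => (r x - re x) + (g x - re x)) := i1.add i2
  rw [← integral_sub hr hre, ← integral_sub hg hre, ← integral_const_mul,
    ← integral_add i1 i2, ← integral_add i4 i3]
  refine integral_mono_ae (hr.sub hb).abs (i4.add i3) ?_
  filter_upwards [h2] with x hx
  have a1 := h1 x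
  have a3 := h3 x
  have a4 := h4 x
  rw [abs_le]
  constructor
  · linarith
  · linarith

end tv

section dini

variable {W : Type} [Fintype W]

lemma gm_tendsto (t : ℕ → ℝ) {m : ℝ} (hm : 0 ≤ m) (ht : ∀ i, m ≤ Real.exp (t i))
    (ht' : ∀ ε > 0, ∃ i, Real.exp (t i) < m + ε) :
    (∀ N, m ≤ Real.exp (gm t N)) ∧ Tendsto (fun N => Real.exp (gm t N)) atTop (𝓝 m) := by
  have h1 : ∀ N, m ≤ Real.exp (gm t N) := by
    intro N
    rcases hm.eq_or_lt with rfl | hm
    · exact (Real.exp_pos _).le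
    rw [← Real.log_le_iff_le_exp hm]
    refine le_gm t fun i _ => ?_
    rw [Real.log_le_iff_le_exp hm]
    exact ht i
  refine ⟨h1, ?_⟩
  rw [tendsto_order]
  constructor
  · intro a ha
    exact Eventually.of_forall fun N => ha.trans_le (h1 N)
  · intro a ha
    obtain ⟨i, hi⟩ := ht' (a - m) (by linarith)
    filter_upwards [eventually_ge_atTop i] with N hN
    refine (Real.exp_le_exp.mpr (gm_le t hN)).trans_lt ?_
    linarith

/-- damped density -/
noncomputable def rd (ρ : ℝ × (W → ℝ) → ℝ) (ε : ℝ) (p : ℝ × (W → ℝ)) : ℝ :=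
  ρ p * Real.exp (-(ε * qf p))

variable {ρ : ℝ × (W → ℝ) → ℝ}

lemma rd_le (hρ : LCd ρ) {ε : ℝ} (hε : 0 ≤ ε) (p : ℝ × (W → ℝ)) : rd ρ ε p ≤ ρ p := by
  refine mul_le_of_le_one_right (hρ.nn p) ?_
  rw [Real.exp_le_one_iff]
  have := mul_nonneg hε (qf_nonneg p)
  linarith

lemma rd_anti (hρ : LCd ρ) {ε ε' : ℝ} (h : ε ≤ ε') (p : ℝ × (W → ℝ)) :
    rd ρ ε' p ≤ rd ρ ε p := by
  refine mul_le_mul_of_nonneg_left (Real.exp_le_exp.mpr ?_) (hρ.nn p)
  have := mul_le_mul_of_nonneg_right h (qf_nonneg p)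
  linarith

lemma rd_LCd (hρ : LCd ρ) {ε : ℝ} (hε : 0 ≤ ε) : LCd (rd ρ ε) where
  nn p := mul_nonneg (hρ.nn p) (Real.exp_pos _).le
  ms := hρ.ms.mul (Real.continuous_exp.comp (continuous_const.mul qf_cont).neg).measurable
  lc x y a b ha hb hab := by
    unfold rd
    rw [Real.mul_rpow (hρ.nn x) (Real.exp_pos _).le, Real.mul_rpow (hρ.nn y) (Real.exp_pos _).le]
    have h1 := hρ.lc x y a b ha hb hab
    have h2 : Real.exp (-(ε * qf x)) ^ a * Real.exp (-(ε * qf y)) ^ b ≤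
        Real.exp (-(ε * qf (a • x + b • y))) := by
      rw [← Real.exp_mul, ← Real.exp_mul, ← Real.exp_add]
      apply Real.exp_le_exp.mpr
      have h2 := mul_le_mul_of_nonneg_left (qf_convex x y ha.le hb.le hab) hε
      nlinarith
    calc ρ x ^ a * Real.exp (-(ε * qf x)) ^ a * (ρ y ^ b * Real.exp (-(ε * qf y)) ^ b)
        = (ρ x ^ a * ρ y ^ b) * (Real.exp (-(ε * qf x)) ^ a * Real.exp (-(ε * qf y)) ^ b) := by
          ring
      _ ≤ _ := mul_le_mul h1 h2 (mul_nonneg (Real.rpow_nonneg (Real.exp_pos _).le _)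
          (Real.rpow_nonneg (Real.exp_pos _).le _)) (hρ.nn _)

lemma mg_rd_ne_zero (hρ : LCd ρ) {ε : ℝ} {y : ℝ} (hy : mg ρ y ≠ 0) : mg (rd ρ ε) y ≠ 0 := by
  intro h0
  apply hy
  unfold mg at h0 ⊢
  have hm : Measurable (fun x : W → ℝ => ENNReal.ofReal (rd ρ ε (y, x))) := by
    have h1 : Measurable (rd ρ ε) :=
      hρ.ms.mul (Real.continuous_exp.comp (continuous_const.mul qf_cont).neg).measurable
    exact (h1.comp measurable_prodMk_left).ennreal_ofReal
  rw [lintegral_eq_zero_iff hm] at h0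
  have hm' : Measurable (fun x : W → ℝ => ENNReal.ofReal (ρ (y, x))) :=
    (hρ.ms.comp measurable_prodMk_left).ennreal_ofReal
  rw [lintegral_eq_zero_iff hm']
  filter_upwards [h0] with x hx
  simp only [Pi.zero_apply, ENNReal.ofReal_eq_zero] at hx ⊢
  unfold rd at hx
  by_contra hcon
  push Not at hcon
  have := mul_pos hcon (Real.exp_pos (-(ε * qf (y, x))))
  linarith

lemma mg_mono {F : Type*} [MeasureSpace F] {h k : ℝ × F → ℝ} (H : ∀ p, h p ≤ k p) (y : ℝ) :
    mg h y ≤ mg k y := lintegral_mono fun _ => ENNReal.ofReal_le_ofReal (H _)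

lemma mg_int {F : Type*} [MeasureSpace F] {h : ℝ × F → ℝ} (h0 : ∀ p, 0 ≤ h p)
    (hm : Measurable h) {y : ℝ} (hy : mg h y ≠ ∞) : Integrable (fun x => h (y, x)) := by
  refine ⟨(hm.comp measurable_prodMk_left).aestronglyMeasurable, ?_⟩
  rw [hasFiniteIntegral_iff_ofReal (ae_of_all _ fun x => h0 _)]
  exact lt_of_le_of_ne le_top hy

lemma mg_toReal {F : Type*} [MeasureSpace F] {h : ℝ × F → ℝ} (h0 : ∀ p, 0 ≤ h p)
    (hm : Measurable h) (y : ℝ) : (mg h y).toReal = ∫ x, h (y, x) := by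
  rw [integral_eq_lintegral_of_nonneg_ae (ae_of_all _ fun x => h0 _)
    (hm.comp measurable_prodMk_left).aestronglyMeasurable]
  rfl

lemma mg_gd_ne_zero (l : ℕ → (ℝ × (W → ℝ)) →L[ℝ] ℝ) (c : ℕ → ℝ) (ε : ℝ) (N : ℕ) (y : ℝ) :
    mg (gd l c ε N) y ≠ 0 := by
  unfold mg
  have hm : Measurable (fun x : W → ℝ => ENNReal.ofReal (gd l c ε N (y, x))) :=
    ((gd_cont l c ε N).measurable.comp measurable_prodMk_left).ennreal_ofReal
  rw [Ne, lintegral_eq_zero_iff hm]
  intro h0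
  have h2 : ∀ᵐ x : W → ℝ, False := by
    filter_upwards [h0] with x hx
    simp only [Pi.zero_apply, ENNReal.ofReal_eq_zero] at hx
    exact absurd (gd_pos l c ε N (y, x)) (not_lt.mpr hx)
  rw [ae_iff] at h2
  simp only [not_false_eq_true, ofPred_true] at h2
  exact (isOpen_univ.measure_pos (volume : Measure (W → ℝ)) univ_nonempty).ne' h2

lemma mg_gd_ne_top (l : ℕ → (ℝ × (W → ℝ)) →L[ℝ] ℝ) (c : ℕ → ℝ) {ε : ℝ} (hε : 0 < ε) (N : ℕ)
    (y : ℝ) : mg (gd l c ε N) y ≠ ∞ := by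
  have h1 : mg (gd l c ε N) y ≤ mg (gd l c ε 0) y :=
    mg_mono (fun p => gd_anti l c ε p (Nat.zero_le N)) y
  have h2 : mg (gd l c ε 0) y = ∫⁻ x, ENNReal.ofReal (Real.exp (-bpot l c ε 0 (y, x))) := by
    unfold mg
    simp only [gd_zero]
  have h3 := ((bpot_nice l c hε 0).slice y).lintegral_ne_top
  rw [← h2] at h3
  exact ne_top_of_le_ne_top h3 h1

instance : (volume : Measure (ℝ × (W → ℝ))).IsAddHaarMeasure := by
  rw [Measure.volume_eq_prod]
  infer_instance

lemma gd_integrable (l : ℕ → (ℝ × (W → ℝ)) →L[ℝ] ℝ) (c : ℕ → ℝ) {ε : ℝ} (hε : 0 < ε) (N : ℕ) :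
    Integrable (gd l c ε N) := by
  refine (bpot_nice l c hε 0).integrable_exp.mono' (gd_cont l c ε N).aestronglyMeasurable
    (ae_of_all _ fun p => ?_)
  rw [Real.norm_of_nonneg (gd_pos l c ε N p).le, ← gd_zero]
  exact gd_anti l c ε p (Nat.zero_le N)

end dini

section main

variable {W : Type} [Fintype W] {ρ : ℝ × (W → ℝ) → ℝ}

/-- the majorants of `exists_seq_aux` -/
def Maj (ρ : ℝ × (W → ℝ) → ℝ) (l : ℕ → (ℝ × (W → ℝ)) →L[ℝ] ℝ) (c : ℕ → ℝ) : Prop :=
  ∀ p, p ∉ frontier {p | 0 < ρ p} → (∀ i, ρ p ≤ Real.exp (l i p + c i)) ∧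
        (∀ ε > 0, ∃ i, Real.exp (l i p + c i) < ρ p + ε)

variable {l : ℕ → (ℝ × (W → ℝ)) →L[ℝ] ℝ} {c : ℕ → ℝ}

lemma Maj.rd_le_gd (hm : Maj ρ l c) (hρ : LCd ρ) (ε : ℝ) (N : ℕ) {p : ℝ × (W → ℝ)}
    (hp : p ∉ frontier {p | 0 < ρ p}) : rd ρ ε p ≤ gd l c ε N p := by
  have h1 := (gm_tendsto (fun i => l i p + c i) (hρ.nn p) (hm p hp).1 (hm p hp).2).1 N
  exact mul_le_mul_of_nonneg_right h1 (Real.exp_pos _).le

lemma Maj.gd_tendsto (hm : Maj ρ l c) (hρ : LCd ρ) (ε : ℝ) {p : ℝ × (W → ℝ)}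
    (hp : p ∉ frontier {p | 0 < ρ p}) :
    Tendsto (fun N => gd l c ε N p) atTop (𝓝 (rd ρ ε p)) := by
  have h1 := (gm_tendsto (fun i => l i p + c i) (hρ.nn p) (hm p hp).1 (hm p hp).2).2
  exact h1.mul_const _

lemma Maj.softm_tendsto (hm : Maj ρ l c) (hρ : LCd ρ) (ε : ℝ) {p : ℝ × (W → ℝ)}
    (hp : p ∉ frontier {p | 0 < ρ p}) :
    Tendsto (fun N => Real.exp (-bpot l c ε N p)) atTop (𝓝 (rd ρ ε p)) := by
  have h1 := FP.softm_tendsto (fun i => l i p + c i) (hρ.nn p) (hm p hp).1 (hm p hp).2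
  simp only [exp_neg_bpot]
  exact h1.mul_const _

lemma rd_tendsto (ρ : ℝ × (W → ℝ) → ℝ) {e : ℕ → ℝ} (he : Tendsto e atTop (𝓝 0))
    (p : ℝ × (W → ℝ)) : Tendsto (fun k => rd ρ (e k) p) atTop (𝓝 (ρ p)) := by
  have h3 : Tendsto (fun k : ℕ => -(e k * qf p)) atTop (𝓝 0) := by
    simpa using (he.mul_const (qf p)).neg
  have h4 := (Real.continuous_exp.tendsto 0).comp h3
  rw [Real.exp_zero] at h4
  have h5 := h4.const_mul (ρ p)
  rw [mul_one] at h5
  exact h5

/-- uniform convergence of the slices of the majorants -/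
lemma Maj.unif (hm : Maj ρ l c) (hρ : LCd ρ) (hne : (interior {p | 0 < ρ p}).Nonempty)
    (hI : ∫⁻ y, mg ρ y ≠ ∞) {α β : ℝ} (hJ : Icc α β ⊆ interior {y | mg ρ y ≠ 0})
    {ε : ℝ} (hε : 0 < ε) {δ : ℝ} (hδ : 0 < δ) : ∃ N₀ : ℕ, ∀ N, N₀ ≤ N → ∀ y ∈ Icc α β,
      (mg (gd l c ε N) y).toReal - (mg (rd ρ ε) y).toReal ≤ δ ∧
      1 / ((N : ℝ) + 1) * (mg (gd l c ε N) y).toReal ≤ δ := by
  have hU : Convex ℝ (interior {y | mg ρ y ≠ 0}) := (mg_convex hρ).interior
  have hrd := rd_LCd hρ hε.le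
  have hfin : ∀ y ∈ interior {y | mg ρ y ≠ 0}, mg (rd ρ ε) y ≠ ∞ := fun y hy =>
    ne_top_of_le_ne_top (mg_ne_top hρ hI hy) (mg_mono (rd_le hρ hε.le) y)
  have hc1 : ContinuousOn (fun y => (mg (rd ρ ε) y).toReal) (Icc α β) :=
    (mg_cont hrd isOpen_interior hU (fun y hy => mg_rd_ne_zero hρ (interior_subset hy))
      hfin).mono hJ
  have hc2 : ∀ N, ContinuousOn (fun y => (mg (gd l c ε N) y).toReal) (Icc α β) := fun N =>
    (mg_cont (gd_LCd l c hε.le N) isOpen_univ convex_univ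
      (fun y _ => mg_gd_ne_zero l c ε N y) (fun y _ => mg_gd_ne_top l c hε N y)).mono
      (subset_univ _)
  have hanti : ∀ y ∈ Icc α β, Antitone fun N => (mg (gd l c ε N) y).toReal := by
    intro y _ M N h
    exact ENNReal.toReal_mono (mg_gd_ne_top l c hε M y)
      (mg_mono (fun p => gd_anti l c ε p h) y)
  have hpt : ∀ y ∈ Icc α β, Tendsto (fun N => (mg (gd l c ε N) y).toReal) atTop
      (𝓝 (mg (rd ρ ε) y).toReal) := by
    intro y hy
    simp only [mg_toReal (fun p => (gd_pos l c ε _ p).le) (gd_cont l c ε _).measurable]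
    rw [mg_toReal hrd.nn hrd.ms]
    refine tendsto_integral_of_dominated_convergence (fun x => gd l c ε 0 (y, x))
      (fun N => ((gd_cont l c ε N).measurable.comp measurable_prodMk_left).aestronglyMeasurable)
      (mg_int (fun p => (gd_pos l c ε _ p).le) (gd_cont l c ε _).measurable
        (mg_gd_ne_top l c hε 0 y)) (fun N => ae_of_all _ fun x => ?_) ?_
    · rw [Real.norm_of_nonneg (gd_pos l c ε N _).le]
      exact gd_anti l c ε _ (Nat.zero_le N)
    · filter_upwards [ae_slice hρ hne (hJ hy)] with x hx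
      exact hm.gd_tendsto hρ ε hx
  have hD := Antitone.tendstoUniformlyOn_of_forall_tendsto isCompact_Icc hc2 hanti hc1 hpt
  rw [Metric.tendstoUniformlyOn_iff] at hD
  obtain ⟨N₁, hN₁⟩ := eventually_atTop.mp (hD δ hδ)
  obtain ⟨M, hM⟩ : ∃ M : ℝ, ∀ y ∈ Icc α β, (mg (gd l c ε 0) y).toReal ≤ M := by
    obtain ⟨M, hM⟩ := (isCompact_Icc (a := α) (b := β)).bddAbove_image (hc2 0)
    exact ⟨M, fun y hy => hM (mem_image_of_mem _ hy)⟩
  obtain ⟨N₂, hN₂⟩ := exists_nat_ge (M / δ)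
  refine ⟨max N₁ N₂, fun N hN y hy => ⟨?_, ?_⟩⟩
  · have h1 := hN₁ N (le_trans (le_max_left _ _) hN) y hy
    rw [Real.dist_eq, abs_sub_comm] at h1
    exact (le_abs_self _).trans h1.le
  · have h1 : (mg (gd l c ε N) y).toReal ≤ M := (hanti y hy (Nat.zero_le N)).trans (hM y hy)
    have h2 : (N₂ : ℝ) ≤ N := by exact_mod_cast (le_trans (le_max_right _ _) hN)
    rw [div_mul_eq_mul_div, one_mul, div_le_iff₀ (by positivity)]
    rw [div_le_iff₀ hδ] at hN₂
    nlinarith

/-- uniform convergence of the slices of the damped densities -/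
lemma unif_rd (hρ : LCd ρ) (hI : ∫⁻ y, mg ρ y ≠ ∞) {α β : ℝ}
    (hJ : Icc α β ⊆ interior {y | mg ρ y ≠ 0}) {δ : ℝ} (hδ : 0 < δ) :
    ∃ ε₀ : ℝ, 0 < ε₀ ∧ ∀ ε, 0 < ε → ε < ε₀ → ∀ y ∈ Icc α β,
      (mg ρ y).toReal - (mg (rd ρ ε) y).toReal ≤ δ := by
  have hU : Convex ℝ (interior {y | mg ρ y ≠ 0}) := (mg_convex hρ).interior
  have hfin : ∀ y ∈ interior {y | mg ρ y ≠ 0}, mg ρ y ≠ ∞ := fun y hy => mg_ne_top hρ hI hy
  set e : ℕ → ℝ := fun k => 1 / ((k : ℝ) + 1) with he
  have he0 : ∀ k, 0 < e k := fun k => by rw [he]; positivity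
  have hfin' : ∀ k, ∀ y ∈ interior {y | mg ρ y ≠ 0}, mg (rd ρ (e k)) y ≠ ∞ := fun k y hy =>
    ne_top_of_le_ne_top (hfin y hy) (mg_mono (rd_le hρ (he0 k).le) y)
  have hc0 : ContinuousOn (fun y => (mg ρ y).toReal) (Icc α β) :=
    (mg_cont hρ isOpen_interior hU (fun y hy => interior_subset hy) hfin).mono hJ
  have hc1 : ∀ k, ContinuousOn (fun y => (mg (rd ρ (e k)) y).toReal) (Icc α β) := fun k =>
    (mg_cont (rd_LCd hρ (he0 k).le) isOpen_interior hU
      (fun y hy => mg_rd_ne_zero hρ (interior_subset hy)) (hfin' k)).mono hJ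
  have hmono : ∀ y ∈ Icc α β, Monotone fun k => (mg (rd ρ (e k)) y).toReal := by
    intro y hy j k h
    refine ENNReal.toReal_mono (hfin' k y (hJ hy)) (mg_mono (fun p => rd_anti hρ ?_ p) y)
    have : (j : ℝ) ≤ k := by exact_mod_cast h
    simp only [he]
    apply one_div_le_one_div_of_le (by positivity)
    linarith
  have hpt : ∀ y ∈ Icc α β, Tendsto (fun k => (mg (rd ρ (e k)) y).toReal) atTop
      (𝓝 (mg ρ y).toReal) := by
    intro y hy
    have h1 : ∀ k, (mg (rd ρ (e k)) y).toReal = ∫ x, rd ρ (e k) (y, x) := fun k =>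
      mg_toReal (rd_LCd hρ (he0 k).le).nn (rd_LCd hρ (he0 k).le).ms y
    simp only [h1]
    rw [mg_toReal hρ.nn hρ.ms]
    refine tendsto_integral_of_dominated_convergence (fun x => ρ (y, x))
      (fun k => ((rd_LCd hρ (he0 k).le).ms.comp measurable_prodMk_left).aestronglyMeasurable)
      (mg_int hρ.nn hρ.ms (hfin y (hJ hy))) (fun k => ae_of_all _ fun x => ?_)
      (ae_of_all _ fun x => ?_)
    · rw [Real.norm_of_nonneg ((rd_LCd hρ (he0 k).le).nn _)]
      exact rd_le hρ (he0 k).le _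
    · exact rd_tendsto ρ tendsto_one_div_add_atTop_nhds_zero_nat _
  have hD := Monotone.tendstoUniformlyOn_of_forall_tendsto isCompact_Icc hc1 hmono hc0 hpt
  rw [Metric.tendstoUniformlyOn_iff] at hD
  obtain ⟨k, hk⟩ := eventually_atTop.mp (hD δ hδ)
  refine ⟨e k, he0 k, fun ε hε hεk y hy => ?_⟩
  have h1 := hk k le_rfl y hy
  rw [Real.dist_eq] at h1
  have h2 : (mg (rd ρ (e k)) y).toReal ≤ (mg (rd ρ ε) y).toReal :=
    ENNReal.toReal_mono (ne_top_of_le_ne_top (hfin y (hJ hy)) (mg_mono (rd_le hρ hε.le) y))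
      (mg_mono (fun p => rd_anti hρ hεk.le p) y)
  linarith [le_abs_self ((mg ρ y).toReal - (mg (rd ρ (e k)) y).toReal)]

/-- global convergence of the damped densities -/
lemma glob_rd (hρ : LCd ρ) (hi : Integrable ρ) {δ : ℝ} (hδ : 0 < δ) :
    ∃ ε₀ : ℝ, 0 < ε₀ ∧ ∀ ε, 0 < ε → ε < ε₀ → (∫ p, ρ p) - ∫ p, rd ρ ε p ≤ δ := by
  set e : ℕ → ℝ := fun k => 1 / ((k : ℝ) + 1) with he
  have he0 : ∀ k, 0 < e k := fun k => by rw [he]; positivity
  have hint : ∀ ε, 0 < ε → Integrable (rd ρ ε) := fun ε hε =>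
    hi.mono' (rd_LCd hρ hε.le).ms.aestronglyMeasurable (ae_of_all _ fun p => by
      rw [Real.norm_of_nonneg ((rd_LCd hρ hε.le).nn _)]
      exact rd_le hρ hε.le _)
  have h1 : Tendsto (fun k => ∫ p, rd ρ (e k) p) atTop (𝓝 (∫ p, ρ p)) := by
    refine tendsto_integral_of_dominated_convergence ρ
      (fun k => (rd_LCd hρ (he0 k).le).ms.aestronglyMeasurable) hi
      (fun k => ae_of_all _ fun x => ?_) (ae_of_all _ fun x => ?_)
    · rw [Real.norm_of_nonneg ((rd_LCd hρ (he0 k).le).nn _)]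
      exact rd_le hρ (he0 k).le _
    · exact rd_tendsto ρ tendsto_one_div_add_atTop_nhds_zero_nat _
  obtain ⟨k, hk⟩ := (h1.eventually (lt_mem_nhds (by linarith : (∫ p, ρ p) - δ < ∫ p, ρ p))).exists
  refine ⟨e k, he0 k, fun ε hε hεk => ?_⟩
  have h2 : ∫ p, rd ρ (e k) p ≤ ∫ p, rd ρ ε p :=
    integral_mono (hint _ (he0 k)) (hint ε hε) fun p => rd_anti hρ hεk.le p
  linarith

/-- global convergence of the majorants -/
lemma Maj.glob (hm : Maj ρ l c) (hρ : LCd ρ) {ε : ℝ} (hε : 0 < ε) {δ : ℝ} (hδ : 0 < δ)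
    (hfr : ∀ᵐ p, p ∉ frontier {p | 0 < ρ p}) : ∃ N₀ : ℕ, ∀ N, N₀ ≤ N →
      (∫ p, gd l c ε N p) - (∫ p, rd ρ ε p) ≤ δ ∧
      1 / ((N : ℝ) + 1) * ∫ p, gd l c ε N p ≤ δ := by
  have h1 : Tendsto (fun N => ∫ p, gd l c ε N p) atTop (𝓝 (∫ p, rd ρ ε p)) := by
    refine tendsto_integral_of_dominated_convergence (gd l c ε 0)
      (fun N => (gd_cont l c ε N).aestronglyMeasurable) (gd_integrable l c hε 0)
      (fun N => ae_of_all _ fun x => ?_) ?_
    · rw [Real.norm_of_nonneg (gd_pos l c ε N _).le]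
      exact gd_anti l c ε _ (Nat.zero_le N)
    · filter_upwards [hfr] with x hx
      exact hm.gd_tendsto hρ ε hx
  have h2 : Tendsto (fun N : ℕ => 1 / ((N : ℝ) + 1) * ∫ p, gd l c ε N p) atTop (𝓝 0) := by
    have := (tendsto_one_div_add_atTop_nhds_zero_nat (𝕜 := ℝ)).mul h1
    simpa using this
  obtain ⟨N₀, hN₀⟩ := eventually_atTop.mp
    ((h1.eventually (gt_mem_nhds (by linarith : ∫ p, rd ρ ε p < (∫ p, rd ρ ε p) + δ))).and
      (h2.eventually (gt_mem_nhds hδ)))
  exact ⟨N₀, fun N hN => ⟨by linarith [(hN₀ N hN).1], (hN₀ N hN).2.le⟩⟩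

/-- second moment of a log-concave probability density -/
lemma second_int (hρ : LCd ρ) (h1 : ∫⁻ p, ENNReal.ofReal (ρ p) = 1) :
    Integrable (fun p => (1 + ‖p‖) ^ 2 * ρ p) := by
  have hprob : IsProbabilityMeasure (dens ρ) := dens_prob (by rw [h1]; simp) (by rw [h1]; simp)
  have hplm : PLm (dens ρ) := hρ.plm (by rw [h1]; simp) (by rw [h1]; simp)
  have hd : dens ρ = (volume : Measure (ℝ × (W → ℝ))).withDensity
      (fun p => ENNReal.ofReal (ρ p)) := by
    unfold dens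
    rw [h1, inv_one, one_smul]
  have hL : ∀ L : (ℝ × (W → ℝ)) →L[ℝ] ℝ, Integrable (fun p => L p ^ 2) (dens ρ) := fun L =>
    (hplm.memLp_functional L).integrable_sq
  have hQ : Integrable (fun p => 2 + 2 * qf p) (dens ρ) := by
    refine (integrable_const _).add (Integrable.const_mul ?_ _)
    unfold qf
    refine (hL (ContinuousLinearMap.fst ℝ ℝ (W → ℝ))).add (integrable_finsetSum _ fun w _ => ?_)
    exact hL ((ContinuousLinearMap.proj (R := ℝ) (φ := fun _ : W => ℝ) w).comp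
        (ContinuousLinearMap.snd ℝ ℝ (W → ℝ)))
  have hN : Integrable (fun p : ℝ × (W → ℝ) => (1 + ‖p‖) ^ 2) (dens ρ) := by
    refine hQ.mono' (by fun_prop) (ae_of_all _ fun p => ?_)
    rw [Real.norm_of_nonneg (by positivity)]
    have := norm_sq_le_qf p
    nlinarith [sq_nonneg (1 - ‖p‖)]
  rw [hd, integrable_withDensity_iff_integrable_smul' hρ.ms.ennreal_ofReal
    (ae_of_all _ fun x => ENNReal.ofReal_lt_top)] at hN
  refine hN.congr (ae_of_all _ fun p => ?_)
  simp only [smul_eq_mul]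
  rw [ENNReal.toReal_ofReal (hρ.nn p), mul_comm]

end main

end AF

open AF in
/-- G4b: nice approximation of a log-concave density on `ℝ × (W → ℝ)` with control of all
conditional measures -/
theorem approx_fib {W : Type} [Fintype W] {ρ : ℝ × (W → ℝ) → ℝ} (hρ : LCd ρ)
    (h1 : ∫⁻ p, ENNReal.ofReal (ρ p) = 1) {η : ℝ} (hη : 0 < η) :
    ∃ α β : ℝ, α ≤ β ∧ (∀ y ∈ Icc α β, ∫⁻ x, ENNReal.ofReal (ρ (y, x)) ≠ 0) ∧
      ∃ (φ : ℝ → ℕ → ℝ × (W → ℝ) → ℝ), (∀ ε N, 0 < ε → Nice (φ ε N)) ∧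
        (∃ ε₀ : ℝ, 0 < ε₀ ∧ ∀ ε, 0 < ε → ε < ε₀ → ∃ N₀ : ℕ, ∀ N, N₀ ≤ N →
          (gibbs (φ ε N)).real {p | p.1 ∉ Icc α β} ≤ η ∧
          ∀ y ∈ Icc α β, ∀ S : Set (W → ℝ), MeasurableSet S →
            |(dens (fun x => ρ (y, x))).real S - (gibbs (fun x => φ ε N (y, x))).real S| ≤ η) ∧
        (∀ K : ℝ, (∃ ε₀ : ℝ, 0 < ε₀ ∧ ∀ ε, 0 < ε → ε < ε₀ → ∃ N₀ : ℕ, ∀ N, N₀ ≤ N →
          AP (gibbs (φ ε N)) K) → AP (dens ρ) K) := by
  have hSc : Convex ℝ {p | 0 < ρ p} := by
    intro x hx y hy a b ha hb hab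
    rcases ha.eq_or_lt with rfl | ha'
    · have : b = 1 := by linarith
      subst this; simpa using hy
    rcases hb.eq_or_lt with rfl | hb'
    · have : a = 1 := by linarith
      subst this; simpa using hx
    have := hρ.lc x y a b ha' hb' hab
    exact lt_of_lt_of_le (mul_pos (Real.rpow_pos_of_pos hx _) (Real.rpow_pos_of_pos hy _)) this
  have hfr0 : (volume : Measure (ℝ × (W → ℝ))) (frontier {p | 0 < ρ p}) = 0 :=
    hSc.addHaar_frontier _
  have hfr : ∀ᵐ p, p ∉ frontier {p | 0 < ρ p} := measure_eq_zero_iff_ae_notMem.mp hfr0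
  have hne : (interior {p | 0 < ρ p}).Nonempty := by
    by_contra hcon
    rw [not_nonempty_iff_eq_empty] at hcon
    have h2 : ∀ᵐ p, ENNReal.ofReal (ρ p) = 0 := by
      filter_upwards [hfr] with p hp
      rw [ENNReal.ofReal_eq_zero]
      by_contra hpos
      push Not at hpos
      exact hp ⟨subset_closure hpos, by rw [hcon]; exact notMem_empty _⟩
    rw [lintegral_congr_ae h2] at h1
    simp at h1
  obtain ⟨l, c, hmaj, -⟩ := exists_seq_aux hρ.nn hρ.lc hne
  have hm : Maj ρ l c := hmaj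
  have hρi : Integrable ρ := by
    refine ⟨hρ.ms.aestronglyMeasurable, ?_⟩
    rw [hasFiniteIntegral_iff_ofReal (ae_of_all _ hρ.nn), h1]
    exact ENNReal.one_lt_top
  have hρ1 : ∫ p, ρ p = 1 := by
    rw [integral_eq_lintegral_of_nonneg_ae (ae_of_all _ hρ.nn) hρ.ms.aestronglyMeasurable, h1]
    rfl
  have hI : ∫⁻ y, mg ρ y ≠ ∞ := by
    rw [← lint_mg hρ.ms, h1]; exact ENNReal.one_ne_top
  have hrdi : ∀ ε, 0 < ε → Integrable (rd ρ ε) := fun ε hε =>
    hρi.mono' (rd_LCd hρ hε.le).ms.aestronglyMeasurable (ae_of_all _ fun p => by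
      rw [Real.norm_of_nonneg ((rd_LCd hρ hε.le).nn _)]
      exact rd_le hρ hε.le _)
  have hrdpos : ∀ ε, 0 < ε → 0 < ∫ p, rd ρ ε p := by
    intro ε hε
    rw [integral_pos_iff_support_of_nonneg (rd_LCd hρ hε.le).nn (hrdi ε hε)]
    have e : Function.support (rd ρ ε) = Function.support ρ := by
      ext x
      simp [rd, Real.exp_ne_zero]
    rw [e, ← integral_pos_iff_support_of_nonneg hρ.nn hρi, hρ1]
    exact one_pos
  obtain ⟨α, β, hαβ, hJ, hmass⟩ := exists_interval hρ h1 (half_pos hη)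
  have hJ0 : ∀ y ∈ Icc α β, mg ρ y ≠ 0 := fun y hy => interior_subset (hJ hy)
  have hJt : ∀ y ∈ Icc α β, mg ρ y ≠ ∞ := fun y hy => mg_ne_top hρ hI (hJ hy)
  have hcont : ContinuousOn (fun y => (mg ρ y).toReal) (Icc α β) :=
    (mg_cont hρ isOpen_interior (mg_convex hρ).interior (fun y hy => interior_subset hy)
      (fun y hy => mg_ne_top hρ hI hy)).mono hJ
  obtain ⟨y₀, hy₀, hmin⟩ := isCompact_Icc.exists_isMinOn (nonempty_Icc.mpr hαβ) hcont
  set A₀ := (mg ρ y₀).toReal with hA₀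
  have hA₀pos : 0 < A₀ := ENNReal.toReal_pos (hJ0 y₀ hy₀) (hJt y₀ hy₀)
  have hAle : ∀ y ∈ Icc α β, A₀ ≤ (mg ρ y).toReal := fun y hy => hmin hy
  refine ⟨α, β, hαβ, hJ0, bpot l c, fun ε N hε => bpot_nice l c hε N, ?_, ?_⟩
  · -- closeness
    set δ := η / 6 * A₀ with hδ
    have hδ0 : 0 < δ := by positivity
    obtain ⟨ε₁, hε₁, H1⟩ := unif_rd hρ hI hJ hδ0
    obtain ⟨ε₂, hε₂, H2⟩ := glob_rd hρ hρi (δ := η / 12) (by positivity)
    refine ⟨min ε₁ ε₂, lt_min hε₁ hε₂, fun ε hε hεm => ?_⟩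
    obtain ⟨N₁, hN₁⟩ := hm.unif hρ hne hI hJ hε hδ0
    obtain ⟨N₂, hN₂⟩ := hm.glob hρ hε (δ := η / 12) (by positivity) hfr
    refine ⟨max N₁ N₂, fun N hN => ⟨?_, ?_⟩⟩
    · -- mass
      have g1 := H2 ε hε (hεm.trans_le (min_le_right _ _))
      obtain ⟨g2, g3⟩ := hN₂ N (le_trans (le_max_right _ _) hN)
      have hnice := bpot_nice l c hε N
      have hb := l1_bound (κ := 1 / ((N : ℝ) + 1)) hρi (hrdi ε hε) (gd_integrable l c hε N)
        hnice.integrable_exp (fun p => rd_le hρ hε.le p) (by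
          filter_upwards [hfr] with p hp
          exact hm.rd_le_gd hρ ε N hp) (fun p => exp_neg_bpot_le_gd l c ε N p)
        (fun p => gd_sub_le l c ε N p)
      have hpos : 0 < ∫ p, Real.exp (-bpot l c ε N p) := by
        rw [integral_pos_iff_support_of_nonneg (fun p => (Real.exp_pos _).le)
          hnice.integrable_exp]
        have e : Function.support (fun p => Real.exp (-bpot l c ε N p)) = univ := by
          ext x
          simp [Real.exp_ne_zero]
        rw [e]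
        exact isOpen_univ.measure_pos (volume : Measure (ℝ × (W → ℝ))) univ_nonempty
      have hSm : MeasurableSet {p : ℝ × (W → ℝ) | p.1 ∉ Icc α β} :=
        measurable_fst measurableSet_Icc.compl
      have htv := tv_dens (a := ρ) (b := fun p => Real.exp (-bpot l c ε N p)) (δ := η / 4)
        hρ.nn (fun p => (Real.exp_pos _).le) hρi hnice.integrable_exp (by rw [hρ1]; exact one_pos)
        hpos (by rw [hρ1, mul_one]; linarith) hSm
      have h5 : (dens (fun p => Real.exp (-bpot l c ε N p))).real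
          {p : ℝ × (W → ℝ) | p.1 ∉ Icc α β} ≤ η := by
        have := abs_le.mp htv
        linarith
      exact h5
    · -- slices
      intro y hy S hS
      have g1 := H1 ε hε (hεm.trans_le (min_le_left _ _)) y hy
      obtain ⟨g2, g3⟩ := hN₁ N (le_trans (le_max_left _ _) hN) y hy
      have hnice := (bpot_nice l c hε N).slice y
      have hrL := rd_LCd hρ hε.le
      have hrt : mg (rd ρ ε) y ≠ ∞ :=
        ne_top_of_le_ne_top (hJt y hy) (mg_mono (rd_le hρ hε.le) y)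
      have hb := l1_bound (κ := 1 / ((N : ℝ) + 1)) (mg_int hρ.nn hρ.ms (hJt y hy))
        (mg_int hrL.nn hrL.ms hrt)
        (mg_int (fun p => (gd_pos l c ε N p).le) (gd_cont l c ε N).measurable
          (mg_gd_ne_top l c hε N y))
        hnice.integrable_exp (fun x => rd_le hρ hε.le (y, x)) (by
          filter_upwards [ae_slice hρ hne (hJ hy)] with x hx
          exact hm.rd_le_gd hρ ε N hx) (fun x => exp_neg_bpot_le_gd l c ε N (y, x))
        (fun x => gd_sub_le l c ε N (y, x))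
      rw [mg_toReal hρ.nn hρ.ms, mg_toReal hrL.nn hrL.ms] at g1
      rw [mg_toReal (fun p => (gd_pos l c ε N p).le) (gd_cont l c ε N).measurable] at g2 g3
      rw [mg_toReal hrL.nn hrL.ms] at g2
      have hA := hAle y hy
      rw [mg_toReal hρ.nn hρ.ms] at hA
      have hpos : 0 < ∫ x, Real.exp (-bpot l c ε N (y, x)) := by
        rw [integral_pos_iff_support_of_nonneg (fun p => (Real.exp_pos _).le)
          hnice.integrable_exp]
        have e : Function.support (fun x => Real.exp (-bpot l c ε N (y, x))) = univ := by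
          ext x
          simp [Real.exp_ne_zero]
        rw [e]
        exact isOpen_univ.measure_pos (volume : Measure (W → ℝ)) univ_nonempty
      have htv := tv_dens (a := fun x => ρ (y, x))
        (b := fun x => Real.exp (-bpot l c ε N (y, x))) (δ := η / 2)
        (fun x => hρ.nn _) (fun p => (Real.exp_pos _).le) (mg_int hρ.nn hρ.ms (hJt y hy))
        hnice.integrable_exp (by linarith) hpos (by nlinarith) hS
      have h5 : |(dens (fun x => ρ (y, x))).real S -
          (dens (fun x => Real.exp (-bpot l c ε N (y, x)))).real S| ≤ η := by linarith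
      exact h5
  · -- limits
    rintro K ⟨ε₀, hε₀, H⟩
    have hstep : ∀ ε, 0 < ε → ε < ε₀ → AP (dens (rd ρ ε)) K := by
      intro ε hε hεm
      obtain ⟨N₀, hN₀⟩ := H ε hε hεm
      refine AP_limit_gen (p := fun k p => Real.exp (-bpot l c ε (k + N₀) p))
        (P := gd l c ε 0) (fun k p => (Real.exp_pos _).le) (fun k => ?_)
        (rd_LCd hρ hε.le).nn (rd_LCd hρ hε.le).ms (fun k => ae_of_all _ fun p => ?_) ?_ ?_
        (hrdpos ε hε) (fun k => ?_)
      · exact (Real.continuous_exp.comp (bpot_nice l c hε (k + N₀)).continuous.neg).measurable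
      · exact (exp_neg_bpot_le_gd l c ε _ p).trans (gd_anti l c ε p (Nat.zero_le _))
      · have := (bpot_nice l c hε 0).integrable_pow 2
        refine this.congr (ae_of_all _ fun p => ?_)
        simp only [gd_zero]
      · filter_upwards [hfr] with p hp
        exact (hm.softm_tendsto hρ ε hp).comp (tendsto_add_atTop_nat N₀)
      · exact hN₀ (k + N₀) (Nat.le_add_left _ _)
    refine AP_limit_gen (p := fun k => rd ρ (ε₀ / ((k : ℝ) + 2))) (P := ρ)
      (fun k p => (rd_LCd hρ (by positivity)).nn p) (fun k => (rd_LCd hρ (by positivity)).ms)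
      hρ.nn hρ.ms (fun k => ae_of_all _ fun p => rd_le hρ (by positivity) p)
      (second_int hρ h1) (ae_of_all _ fun p => ?_) (by rw [hρ1]; exact one_pos) (fun k => ?_)
    · have h2 : Tendsto (fun k : ℕ => ε₀ / ((k : ℝ) + 2)) atTop (𝓝 0) := by
        refine Tendsto.div_atTop tendsto_const_nhds ?_
        exact tendsto_atTop_add_const_right _ _ tendsto_natCast_atTop_atTop
      exact rd_tendsto ρ h2 p
    · refine hstep _ (by positivity) ?_
      rw [div_lt_iff₀ (by positivity)]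
      have : (0 : ℝ) ≤ k := Nat.cast_nonneg k
      nlinarith

theorem approxFibStat : ApproxFibStat := fun _ _ _ hρ h1 _ hη => approx_fib hρ h1 hη

end Pool.Agent.Lib.MP_6d896a_gt.FP
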