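import Mathlib
import Pool.Agent.Lib.MP_6d896a_gt.FP.Kern
import Pool.Agent.Lib.MP_6d896a_gt.FP.Tensor

/-!
Covariances and the Gaussian channel: total covariance law.
-/

set_option autoImplicit false

namespace Pool.Agent.Lib.MP_6d896a_gt.FP

open MeasureTheory ProbabilityTheory Set Filter
open scoped ENNReal Topology

variable {E : Type*} [NormedAddCommGroup E] [InnerProductSpace ℝ E] [FiniteDimensional ℝ E]
  [MeasurableSpace E] [BorelSpace E]

/-- conditional expectation given the output of the channel -/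
noncomputable def cexp (s : ℝ) (μ : Measure E) [SFinite μ] (f : E → ℝ) (a : E) : ℝ :=
  ∫ x, f x ∂(chan s μ a)

section

variable {s : ℝ} {μ : Measure E} [IsProbabilityMeasure μ]

lemma chan_memLp (hs : 0 < s) {f : E → ℝ} (hf : MemLp f 2 μ) (a : E) :
    MemLp f 2 (chan s μ a) := by
  have h1 : Integrable f μ := hf.integrable (by norm_num)
  have h2 := (chan_integrable hs h1 a).1
  rw [memLp_two_iff_integrable_sq h2]
  exact chan_integrable hs hf.integrable_sq a

lemma cexp_memLp (hs : 0 < s) {f : E → ℝ} (hf : MemLp f 2 μ) :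
    MemLp (cexp s μ f) 2 (chP s μ) := by
  have hk := chan_markov (μ := μ) hs
  have h1 : Integrable f μ := hf.integrable (by norm_num)
  have h2 := chan_integrable_ae hs h1
  have h3 := chan_integrable_ae hs hf.integrable_sq
  have hm : AEStronglyMeasurable (cexp s μ f) (chP s μ) := h2.1
  rw [memLp_two_iff_integrable_sq hm]
  refine h3.mono' (hm.pow 2) (ae_of_all _ fun a => ?_)
  rw [Real.norm_of_nonneg (sq_nonneg _)]
  exact sq_integral_le (chan_memLp hs hf a)

lemma cexp_integral (hs : 0 < s) {f : E → ℝ} (hf : Integrable f μ) :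
    ∫ a, cexp s μ f a ∂(chP s μ) = ∫ x, f x ∂μ := chan_int hs hf

lemma cov_chan_eq (hs : 0 < s) {f g : E → ℝ} (hf : MemLp f 2 μ) (hg : MemLp g 2 μ) (a : E) :
    cov[f, g; chan s μ a] = cexp s μ (fun x => f x * g x) a - cexp s μ f a * cexp s μ g a := by
  have hk := chan_markov (μ := μ) hs
  rw [covariance_eq_sub (chan_memLp hs hf a) (chan_memLp hs hg a)]
  rfl

lemma cov_chan_integrable (hs : 0 < s) {f g : E → ℝ} (hf : MemLp f 2 μ) (hg : MemLp g 2 μ) :
    Integrable (fun a => cov[f, g; chan s μ a]) (chP s μ) := by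
  simp_rw [cov_chan_eq hs hf hg]
  exact (chan_integrable_ae hs (hf.integrable_mul hg)).sub
    ((cexp_memLp hs hf).integrable_mul (cexp_memLp hs hg))

/-- total covariance law -/
lemma total_cov (hs : 0 < s) {f g : E → ℝ} (hf : MemLp f 2 μ) (hg : MemLp g 2 μ) :
    cov[f, g; μ] = ∫ a, cov[f, g; chan s μ a] ∂(chP s μ)
      + cov[cexp s μ f, cexp s μ g; chP s μ] := by
  have hp := chP_prob (μ := μ) hs
  have h1 : Integrable (fun x => f x * g x) μ := hf.integrable_mul hg
  have h2 : Integrable (fun a => cexp s μ f a * cexp s μ g a) (chP s μ) :=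
    (cexp_memLp hs hf).integrable_mul (cexp_memLp hs hg)
  rw [covariance_eq_sub hf hg, covariance_eq_sub (cexp_memLp hs hf) (cexp_memLp hs hg)]
  simp_rw [cov_chan_eq hs hf hg]
  have h3 : Integrable (fun a => cexp s μ (fun x => f x * g x) a) (chP s μ) :=
    chan_integrable_ae hs h1
  rw [integral_sub h3 h2, cexp_integral hs (hf.integrable (by norm_num)),
    cexp_integral hs (hg.integrable (by norm_num)), cexp_integral hs h1]
  simp only [Pi.mul_apply]
  ring

lemma total_var (hs : 0 < s) {f : E → ℝ} (hf : MemLp f 2 μ) :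
    Var[f; μ] = ∫ a, Var[f; chan s μ a] ∂(chP s μ) + Var[cexp s μ f; chP s μ] := by
  have hk := chan_markov (μ := μ) hs
  have h1 := total_cov hs hf hf
  rw [covariance_self hf.aemeasurable, covariance_self (cexp_memLp hs hf).aemeasurable] at h1
  rw [h1]
  congr 1
  congr 1
  funext a
  exact covariance_self (chan_memLp hs hf a).aemeasurable

lemma var_chan_integrable (hs : 0 < s) {f : E → ℝ} (hf : MemLp f 2 μ) :
    Integrable (fun a => Var[f; chan s μ a]) (chP s μ) := by
  have h1 := cov_chan_integrable hs hf hf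
  refine h1.congr (ae_of_all _ fun a => ?_)
  exact covariance_self (chan_memLp hs hf a).aemeasurable

end

/-- Cauchy-Schwarz for covariances -/
lemma cov_sq_le {Ω : Type*} [MeasurableSpace Ω] {μ : Measure Ω} [IsProbabilityMeasure μ]
    {f g : Ω → ℝ} (hf : MemLp f 2 μ) (hg : MemLp g 2 μ) :
    cov[f, g; μ] ^ 2 ≤ Var[f; μ] * Var[g; μ] := by
  have h1 : ∀ t : ℝ, 0 ≤ Var[f; μ] * (t * t) + (2 * cov[f, g; μ]) * t + Var[g; μ] := by
    intro t
    have h2 := variance_nonneg (fun x => t * f x + g x) μ
    have h3 : Var[fun x => t * f x + g x; μ] = t ^ 2 * Var[f; μ] + 2 * (t * cov[f, g; μ])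
        + Var[g; μ] := by
      rw [variance_fun_add (hf.const_mul t) hg, variance_const_mul, covariance_const_mul_left]
    rw [h3] at h2
    linarith
  have h4 := discrim_le_zero h1
  unfold discrim at h4
  nlinarith

end Pool.Agent.Lib.MP_6d896a_gt.FP
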