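import Mathlib
import Pool.Agent.Lib.MP_6d896a_gt.FP.ChanCov

/-!
Differentiability of conditional expectations in the output of the Gaussian channel.
-/

set_option autoImplicit false

namespace Pool.Agent.Lib.MP_6d896a_gt.FP

open MeasureTheory ProbabilityTheory Set Filter
open scoped ENNReal Topology

variable {E : Type*} [NormedAddCommGroup E] [InnerProductSpace ℝ E] [FiniteDimensional ℝ E]
  [MeasurableSpace E] [BorelSpace E]

lemma dk_bdd {s : ℝ} (hs : 0 < s) (z : E) : ‖dk s z‖ ≤ cdom E s := by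
  refine (dk_norm_le hs z).trans ?_
  have hc := cdom_nonneg (E := E) hs
  show cdom E s * _ ≤ _
  apply mul_le_of_le_one_right hc
  apply Real.exp_le_one_iff.mpr
  nlinarith [sq_nonneg ‖z‖]

lemma gk_bdd {s : ℝ} (hs : 0 < s) (z : E) : |gk s z| ≤ (gZ E s)⁻¹ := by
  rw [abs_of_pos (gk_pos hs z)]
  exact gk_le hs z

section

variable {s : ℝ} {μ : Measure E} [IsProbabilityMeasure μ]

lemma num_integrable (hs : 0 < s) {b : E → ℝ} (hb : Integrable b μ) (a : E) :
    Integrable (fun x => b x * gk s (a - x)) μ := by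
  refine (hb.norm.mul_const (gZ E s)⁻¹).mono' ?_ (ae_of_all _ fun x => ?_)
  · exact hb.1.mul ((gk_continuous s).comp (continuous_const.sub continuous_id)).aestronglyMeasurable
  · rw [norm_mul]
    gcongr
    rw [Real.norm_eq_abs]
    exact gk_bdd hs _

lemma num_deriv_integrable (hs : 0 < s) {b : E → ℝ} (hb : Integrable b μ) (a : E) :
    Integrable (fun x => b x • dk s (a - x)) μ := by
  refine (hb.norm.mul_const (cdom E s)).mono' ?_ (ae_of_all _ fun x => ?_)
  · exact hb.1.smul ((dk_continuous s).comp (continuous_const.sub continuous_id)).aestronglyMeasurable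
  · rw [norm_smul]
    gcongr
    exact dk_bdd hs _

lemma num_hasFDerivAt (hs : 0 < s) {b : E → ℝ} (hb : Integrable b μ) (a : E) :
    HasFDerivAt (fun a => ∫ x, b x * gk s (a - x) ∂μ) (∫ x, b x • dk s (a - x) ∂μ) a := by
  refine hasFDerivAt_integral_of_dominated_of_fderiv_le
    (F := fun a x => b x * gk s (a - x)) (F' := fun a x => b x • dk s (a - x))
    (bound := fun x => ‖b x‖ * cdom E s) (s := univ) Filter.univ_mem ?_ ?_ ?_ ?_ ?_ ?_
  · exact Eventually.of_forall fun a' => (num_integrable hs hb a').1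
  · exact num_integrable hs hb a
  · exact (num_deriv_integrable hs hb a).1
  · apply ae_of_all
    intro x a' _
    rw [norm_smul]
    gcongr
    exact dk_bdd hs _
  · exact hb.norm.mul_const _
  · apply ae_of_all
    intro x a' _
    have h1 : HasFDerivAt (fun a : E => gk s (a - x)) (dk s (a' - x)) a' := by
      have h2 := (gk_hasFDerivAt s (a' - x)).comp a' ((hasFDerivAt_id a').sub_const x)
      exact h2
    exact h1.const_mul (b x)

lemma num_deriv_continuous (hs : 0 < s) {b : E → ℝ} (hb : Integrable b μ) :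
    Continuous (fun a => ∫ x, b x • dk s (a - x) ∂μ) := by
  refine continuous_of_dominated (bound := fun x => ‖b x‖ * cdom E s) ?_ ?_ ?_ ?_
  · exact fun a => (num_deriv_integrable hs hb a).1
  · intro a
    apply ae_of_all
    intro x
    rw [norm_smul]
    gcongr
    exact dk_bdd hs _
  · exact hb.norm.mul_const _
  · apply ae_of_all
    intro x
    exact ((dk_continuous s).comp (continuous_id.sub continuous_const)).const_smul (b x)

lemma den_pos (hs : 0 < s) (a : E) : 0 < ∫ x, gk s (a - x) ∂μ := by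
  have hi : Integrable (fun x : E => gk s (a - x)) μ := by
    have := num_integrable hs (integrable_const (1 : ℝ)) (μ := μ) a
    simpa using this
  rw [integral_pos_iff_support_of_nonneg (fun x => (gk_pos hs _).le) hi]
  have : Function.support (fun x : E => gk s (a - x)) = univ := by
    ext x
    simp [(gk_pos hs (a - x)).ne']
  rw [this]
  simp

lemma cexp_eq (hs : 0 < s) (b : E → ℝ) (a : E) :
    cexp s μ b a = (∫ x, b x * gk s (a - x) ∂μ) / ∫ x, gk s (a - x) ∂μ := chan_integral hs b a

lemma cexp_hasFDerivAt (hs : 0 < s) {b : E → ℝ} (hb : Integrable b μ) (a : E) :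
    HasFDerivAt (cexp s μ b)
      ((∫ x, b x * gk s (a - x) ∂μ) • (-((∫ x, gk s (a - x) ∂μ) ^ 2)⁻¹ •
        (∫ x, (1 : ℝ) • dk s (a - x) ∂μ)) +
        (∫ x, gk s (a - x) ∂μ)⁻¹ • (∫ x, b x • dk s (a - x) ∂μ)) a := by
  have h1 := num_hasFDerivAt hs hb a
  have h2 := num_hasFDerivAt hs (integrable_const (1 : ℝ)) (μ := μ) a
  simp only [one_mul] at h2
  have h3 : HasFDerivAt (fun a => (∫ x, gk s (a - x) ∂μ)⁻¹)
      (-((∫ x, gk s (a - x) ∂μ) ^ 2)⁻¹ • (∫ x, (1 : ℝ) • dk s (a - x) ∂μ)) a :=
    (hasDerivAt_inv (den_pos hs a).ne').comp_hasFDerivAt a h2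
  have h4 := h1.mul h3
  have e : cexp s μ b = fun a => (∫ x, b x * gk s (a - x) ∂μ) * (∫ x, gk s (a - x) ∂μ)⁻¹ := by
    funext a
    rw [cexp_eq hs, div_eq_mul_inv]
  rw [e]
  exact h4

lemma cexp_contDiff (hs : 0 < s) {b : E → ℝ} (hb : Integrable b μ) :
    ContDiff ℝ 1 (cexp s μ b) := by
  rw [contDiff_one_iff_fderiv]
  refine ⟨fun a => (cexp_hasFDerivAt hs hb a).differentiableAt, ?_⟩
  have e : fderiv ℝ (cexp s μ b) = fun a => ((∫ x, b x * gk s (a - x) ∂μ) •
        (-((∫ x, gk s (a - x) ∂μ) ^ 2)⁻¹ •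
        (∫ x, (1 : ℝ) • dk s (a - x) ∂μ)) +
        (∫ x, gk s (a - x) ∂μ)⁻¹ • (∫ x, b x • dk s (a - x) ∂μ)) := by
    funext a
    exact (cexp_hasFDerivAt hs hb a).fderiv
  rw [e]
  have c1 : Continuous (fun a => ∫ x, b x * gk s (a - x) ∂μ) :=
    continuous_iff_continuousAt.2 fun a => (num_hasFDerivAt hs hb a).continuousAt
  have c2 : Continuous (fun a => ∫ x, gk s (a - x) ∂μ) := by
    have := fun a => (num_hasFDerivAt hs (integrable_const (1 : ℝ)) (μ := μ) a).continuousAt
    simp only [one_mul] at this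
    exact continuous_iff_continuousAt.2 this
  have c3 := num_deriv_continuous hs hb
  have c4 := num_deriv_continuous hs (integrable_const (1 : ℝ)) (μ := μ)
  have hn : ∀ a, ∫ x, gk s (a - x) ∂μ ≠ 0 := fun a => (den_pos hs a).ne'
  exact (c1.smul (((c2.pow 2).inv₀ (fun a => pow_ne_zero 2 (hn a))).neg.smul c4)).add
    ((c2.inv₀ hn).smul c3)

lemma memLp_inner {μ : Measure E} (h2 : MemLp (fun x : E => ‖x‖) 2 μ) (v : E) :
    MemLp (fun x : E => inner ℝ v x) 2 μ := by
  have h1 := memLp_lin h2 (innerSL ℝ v)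
  exact h1

/-- derivative of a conditional expectation -/
lemma cexp_fderiv_apply (hs : 0 < s) {b : E → ℝ} (hb : MemLp b 2 μ)
    (h2 : MemLp (fun x : E => ‖x‖) 2 μ) (a v : E) :
    fderiv ℝ (cexp s μ b) a v = 2 * s * cov[fun x => inner ℝ v x, b; chan s μ a] := by
  have hk := chan_markov (μ := μ) hs
  have hb1 : Integrable b μ := hb.integrable (by norm_num)
  rw [(cexp_hasFDerivAt hs hb1 a).fderiv]
  set N1 := ∫ x, gk s (a - x) ∂μ with hN1
  set Nb := ∫ x, b x * gk s (a - x) ∂μ with hNb
  have hN1p : 0 < N1 := den_pos hs a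
  have hv := memLp_inner h2 v
  have hv1 : Integrable (fun x : E => inner ℝ v x) μ := hv.integrable (by norm_num)
  have hbv : Integrable (fun x : E => inner ℝ v x * b x) μ := hv.integrable_mul hb
  -- apply the integrals
  have e1 : ∀ (f : E → ℝ), Integrable f μ → Integrable (fun x => inner ℝ v x * f x) μ →
      (∫ x, f x • dk s (a - x) ∂μ) v = -(2 * s) * (inner ℝ v a) * (∫ x, f x * gk s (a - x) ∂μ)
        + 2 * s * ∫ x, (inner ℝ v x * f x) * gk s (a - x) ∂μ := by
    intro f hf hvf
    rw [ContinuousLinearMap.integral_apply (num_deriv_integrable hs hf a)]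
    have e2 : ∀ x, (f x • dk s (a - x)) v = -(2 * s) * (inner ℝ v a) * (f x * gk s (a - x))
        + 2 * s * ((inner ℝ v x * f x) * gk s (a - x)) := by
      intro x
      simp only [dk, _root_.smul_apply, smul_eq_mul, innerSL_apply_apply]
      rw [inner_sub_left, real_inner_comm v a, real_inner_comm v x]
      ring
    simp only [e2]
    rw [integral_add, integral_const_mul, integral_const_mul]
    · exact (num_integrable hs hf a).const_mul _
    · exact (num_integrable hs hvf a).const_mul _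
  have e3 := e1 b hb1 hbv
  have e4 := e1 (fun _ => 1) (integrable_const _) (by simpa using hv1)
  simp only [one_mul, mul_one] at e4
  rw [covariance_eq_sub (chan_memLp hs hv a) (chan_memLp hs hb a)]
  simp only [Pi.mul_apply]
  rw [chan_integral hs, chan_integral hs, chan_integral hs]
  simp only [_root_.add_apply, _root_.smul_apply, smul_eq_mul]
  rw [e3, e4, ← hN1, ← hNb]
  field_simp
  ring

end

end Pool.Agent.Lib.MP_6d896a_gt.FP
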