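import Mathlib
import Pool.Agent.Lib.MP_6d896a_gt.FP.ChanDiff

/-!
Gaussian convolutions of `C^1` functions with bounded derivative, and Fubini for the channel.
-/

set_option autoImplicit false

namespace Pool.Agent.Lib.MP_6d896a_gt.FP

open MeasureTheory ProbabilityTheory Set Filter
open scoped ENNReal Topology

variable {E : Type*} [NormedAddCommGroup E] [InnerProductSpace ℝ E] [FiniteDimensional ℝ E]
  [MeasurableSpace E] [BorelSpace E]

omit [MeasurableSpace E] [BorelSpace E] in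
/-- norm of a linear functional in an orthonormal basis -/
lemma dual_norm_sq {ι : Type*} [Fintype ι] (b : OrthonormalBasis ι ℝ E) (L : E →L[ℝ] ℝ) :
    ‖L‖ ^ 2 = ∑ i, L (b i) ^ 2 := by
  set w := (InnerProductSpace.toDual ℝ E).symm L with hw
  have h1 : ‖w‖ = ‖L‖ := LinearIsometryEquiv.norm_map _ _
  have h2 : ∀ i, inner ℝ (b i) w = L (b i) := by
    intro i
    rw [real_inner_comm]
    exact InnerProductSpace.toDual_symm_apply
  rw [← h1, ← b.sum_sq_norm_inner_right w]
  apply Finset.sum_congr rfl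
  intro i _
  rw [h2, Real.norm_eq_abs, sq_abs]

lemma gconv_const_mul {s : ℝ} (c : ℝ) (m : E → ℝ) :
    gconv s (fun y => c * m y) = fun x => c * gconv s m x := by
  funext x
  unfold gconv
  rw [← integral_const_mul]
  congr 1
  funext y
  ring

/-- Gaussian convolution of a bounded function -/
lemma gconv_bdd {s : ℝ} (hs : 0 < s) {m : E → ℝ} (hm : Measurable m) {M : ℝ}
    (hb : ∀ y, |m y| ≤ M) : ContDiff ℝ 1 (gconv s m) ∧
      ∀ x, ‖fderiv ℝ (gconv s m) x‖ ^ 2 ≤ 2 * s * gconv s (fun y => m y ^ 2) x := by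
  obtain ⟨c, hc⟩ : ∃ c : ℝ, c = |M| + 1 := ⟨_, rfl⟩
  have hc0 : 0 < c := by rw [hc]; positivity
  have hb2 : ∀ y, |c⁻¹ * m y| ≤ 1 := by
    intro y
    rw [abs_mul, abs_of_pos (inv_pos.2 hc0), inv_mul_le_iff₀ hc0, mul_one]
    have := hb y
    have := le_abs_self M
    linarith
  have hm2 : Measurable (fun y => c⁻¹ * m y) := hm.const_mul _
  have e1 : gconv s m = fun x => c * gconv s (fun y => c⁻¹ * m y) x := by
    rw [← gconv_const_mul]
    congr 1
    funext y
    rw [mul_inv_cancel_left₀ hc0.ne']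
  have hcd := gconv_contDiff hs hm2 hb2
  refine ⟨?_, fun x => ?_⟩
  · rw [e1]
    exact contDiff_const.mul hcd
  · have h1 := gconv_grad hs hm2 hb2 x
    have h2 : fderiv ℝ (gconv s m) x = c • fderiv ℝ (gconv s (fun y => c⁻¹ * m y)) x := by
      rw [e1]
      exact fderiv_const_mul (hcd.differentiable one_ne_zero x) c
    have h3 : gconv s (fun y => m y ^ 2) x = c ^ 2 * gconv s (fun y => (c⁻¹ * m y) ^ 2) x := by
      have := congrFun (gconv_const_mul (s := s) (c ^ 2) (fun y => (c⁻¹ * m y) ^ 2)) x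
      rw [← this]
      congr 1
      funext y
      field_simp
    rw [h2, norm_smul, mul_pow, h3, Real.norm_eq_abs, sq_abs]
    have h4 : 0 ≤ gconv s (fun y => c⁻¹ * m y) x ^ 2 := sq_nonneg _
    have h5 : ‖fderiv ℝ (gconv s fun y => c⁻¹ * m y) x‖ ^ 2
        ≤ 2 * s * gconv s (fun y => (c⁻¹ * m y) ^ 2) x := by
      refine h1.trans ?_
      apply mul_le_mul_of_nonneg_left _ (by positivity)
      linarith
    calc c ^ 2 * ‖fderiv ℝ (gconv s fun y => c⁻¹ * m y) x‖ ^ 2
        ≤ c ^ 2 * (2 * s * gconv s (fun y => (c⁻¹ * m y) ^ 2) x) := by gcongr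
      _ = _ := by ring

lemma gconv_mono {s : ℝ} (hs : 0 < s) {m : E → ℝ} (hm : Measurable m) {M : ℝ}
    (hb : ∀ y, |m y| ≤ M) (x : E) : gconv s m x ≤ M := by
  have hp := gM_prob (E := E) hs
  rw [gconv_eq_gM hs]
  have h1 : Integrable (fun z => m (x - z)) (gM s) :=
    bdd_integrable _ (hm.comp (measurable_const.sub measurable_id)) (C := M) fun z => hb _
  calc ∫ z, m (x - z) ∂(gM s : Measure E) ≤ ∫ _, M ∂(gM s : Measure E) :=
        integral_mono h1 (integrable_const _) fun z => (le_abs_self _).trans (hb _)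
    _ = M := by simp

section lip

variable {s : ℝ} {ψ : E → ℝ}

lemma lip_shift_integrable (hs : 0 < s) (hψ : ContDiff ℝ 1 ψ) {l : ℝ}
    (hl : ∀ a, ‖fderiv ℝ ψ a‖ ≤ l) (x : E) : Integrable (fun z => ψ (x - z)) (gM s) := by
  have hp := gM_prob (E := E) hs
  have hl0 : 0 ≤ l := (norm_nonneg _).trans (hl 0)
  have hg := growth hψ hl
  have h1 := (gM_norm (E := E) hs).1
  have h2 : Integrable (fun z : E => (‖ψ 0‖ + l) * (1 + ‖x‖ + ‖z‖)) (gM s) :=
    ((integrable_const (1 + ‖x‖)).add h1).const_mul _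
  refine h2.mono' (hψ.continuous.comp (continuous_const.sub continuous_id)).aestronglyMeasurable
    (ae_of_all _ fun z => ?_)
  refine (hg (x - z)).trans ?_
  have := norm_sub_le x z
  apply mul_le_mul_of_nonneg_left _ (by positivity)
  linarith

lemma gconv_lip_hasFDerivAt (hs : 0 < s) (hψ : ContDiff ℝ 1 ψ) {l : ℝ}
    (hl : ∀ a, ‖fderiv ℝ ψ a‖ ≤ l) (x : E) :
    HasFDerivAt (gconv s ψ) (∫ z, fderiv ℝ ψ (x - z) ∂(gM s : Measure E)) x := by
  have hp := gM_prob (E := E) hs
  have e : gconv s ψ = fun x => ∫ z, ψ (x - z) ∂(gM s : Measure E) := by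
    funext x
    exact gconv_eq_gM hs ψ x
  rw [e]
  have hc : Continuous (fderiv ℝ ψ) := hψ.continuous_fderiv one_ne_zero
  refine hasFDerivAt_integral_of_dominated_of_fderiv_le
    (F := fun x z => ψ (x - z)) (F' := fun x z => fderiv ℝ ψ (x - z))
    (bound := fun _ => l) (s := univ) Filter.univ_mem ?_ ?_ ?_ ?_ ?_ ?_
  · exact Eventually.of_forall fun x' => (lip_shift_integrable hs hψ hl x').1
  · exact lip_shift_integrable hs hψ hl x
  · exact (hc.comp (continuous_const.sub continuous_id)).aestronglyMeasurable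
  · exact ae_of_all _ fun z x' _ => hl _
  · exact integrable_const _
  · apply ae_of_all
    intro z x' _
    have h1 : HasFDerivAt ψ (fderiv ℝ ψ (x' - z)) (x' - z) :=
      (hψ.differentiable one_ne_zero _).hasFDerivAt
    exact h1.comp x' ((hasFDerivAt_id x').sub_const z)

lemma gconv_lip_fderiv_apply (hs : 0 < s) (hψ : ContDiff ℝ 1 ψ) {l : ℝ}
    (hl : ∀ a, ‖fderiv ℝ ψ a‖ ≤ l) (x v : E) :
    fderiv ℝ (gconv s ψ) x v = gconv s (fun a => fderiv ℝ ψ a v) x := by
  have hp := gM_prob (E := E) hs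
  have hc : Continuous (fderiv ℝ ψ) := hψ.continuous_fderiv one_ne_zero
  rw [(gconv_lip_hasFDerivAt hs hψ hl x).fderiv, gconv_eq_gM hs, ContinuousLinearMap.integral_apply]
  refine (integrable_const l).mono'
    (hc.comp (continuous_const.sub continuous_id)).aestronglyMeasurable (ae_of_all _ fun z => hl _)

lemma gconv_lip_norm (hs : 0 < s) (hψ : ContDiff ℝ 1 ψ) {l : ℝ}
    (hl : ∀ a, ‖fderiv ℝ ψ a‖ ≤ l) (x : E) : ‖fderiv ℝ (gconv s ψ) x‖ ≤ l := by
  have hp := gM_prob (E := E) hs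
  rw [(gconv_lip_hasFDerivAt hs hψ hl x).fderiv]
  refine (norm_integral_le_of_norm_le (integrable_const l) (ae_of_all _ fun z => hl _)).trans ?_
  simp

lemma gconv_lip_contDiff (hs : 0 < s) (hψ : ContDiff ℝ 1 ψ) {l : ℝ}
    (hl : ∀ a, ‖fderiv ℝ ψ a‖ ≤ l) : ContDiff ℝ 1 (gconv s ψ) := by
  have hp := gM_prob (E := E) hs
  have hc : Continuous (fderiv ℝ ψ) := hψ.continuous_fderiv one_ne_zero
  rw [contDiff_one_iff_fderiv]
  refine ⟨fun x => (gconv_lip_hasFDerivAt hs hψ hl x).differentiableAt, ?_⟩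
  have e : fderiv ℝ (gconv s ψ) = fun x => ∫ z, fderiv ℝ ψ (x - z) ∂(gM s : Measure E) := by
    funext x
    exact (gconv_lip_hasFDerivAt hs hψ hl x).fderiv
  rw [e]
  refine continuous_of_dominated (bound := fun _ => l) ?_ ?_ ?_ ?_
  · exact fun x => (hc.comp (continuous_const.sub continuous_id)).aestronglyMeasurable
  · exact fun x => ae_of_all _ fun z => hl _
  · exact integrable_const _
  · exact ae_of_all _ fun z => hc.comp (continuous_id.sub continuous_const)

/-- the derivative of the convolution is Lipschitz -/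
lemma gconv_lip_fderiv_lip (hs : 0 < s) (hψ : ContDiff ℝ 1 ψ) {l : ℝ}
    (hl : ∀ a, ‖fderiv ℝ ψ a‖ ≤ l) (x y : E) :
    ‖fderiv ℝ (gconv s ψ) x - fderiv ℝ (gconv s ψ) y‖ ≤ Real.sqrt (2 * s) * l * ‖x - y‖ := by
  have hl0 : 0 ≤ l := (norm_nonneg _).trans (hl 0)
  apply ContinuousLinearMap.opNorm_le_bound _ (by positivity)
  intro v
  rw [_root_.sub_apply, gconv_lip_fderiv_apply hs hψ hl, gconv_lip_fderiv_apply hs hψ hl]
  set m : E → ℝ := fun a => fderiv ℝ ψ a v with hm
  have hc : Continuous (fderiv ℝ ψ) := hψ.continuous_fderiv one_ne_zero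
  have hmc : Continuous m := hc.clm_apply continuous_const
  have hmb : ∀ a, |m a| ≤ l * ‖v‖ := by
    intro a
    refine ((fderiv ℝ ψ a).le_opNorm v).trans ?_
    gcongr
    exact hl a
  obtain ⟨h1, h2⟩ := gconv_bdd hs hmc.measurable hmb
  have h3 : ∀ x, ‖fderiv ℝ (gconv s m) x‖ ≤ Real.sqrt (2 * s) * (l * ‖v‖) := by
    intro x
    have h4 := h2 x
    have h5 : gconv s (fun y => m y ^ 2) x ≤ (l * ‖v‖) ^ 2 := by
      have h6 : Measurable (fun y => m y ^ 2) := (hmc.pow 2).measurable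
      apply gconv_mono hs h6
      intro y
      rw [abs_pow]
      exact pow_le_pow_left₀ (abs_nonneg _) (hmb y) 2
    apply (pow_le_pow_iff_left₀ (norm_nonneg _) (by positivity) two_ne_zero).1
    rw [mul_pow, Real.sq_sqrt (by positivity)]
    refine h4.trans ?_
    gcongr
  have h6 := convex_univ.norm_image_sub_le_of_norm_fderiv_le (𝕜 := ℝ) (f := gconv s m)
    (fun x _ => h1.differentiable one_ne_zero x) (fun x _ => h3 x)
    (Set.mem_univ y) (Set.mem_univ x)
  refine h6.trans (le_of_eq ?_)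
  ring

end lip

end Pool.Agent.Lib.MP_6d896a_gt.FP
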