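import Mathlib
import Pool.Agent.Lib.MP_6d896a_gt.FP.ChanConv

/-!
Fubini for the Gaussian channel.
-/

set_option autoImplicit false

namespace Pool.Agent.Lib.MP_6d896a_gt.FP

open MeasureTheory ProbabilityTheory Set Filter
open scoped ENNReal Topology

variable {E : Type*} [NormedAddCommGroup E] [InnerProductSpace ℝ E] [FiniteDimensional ℝ E]
  [MeasurableSpace E] [BorelSpace E]

lemma gk_sub_comm (s : ℝ) (a x : E) : gk s (a - x) = gk s (x - a) := by
  unfold gk
  rw [norm_sub_rev]

lemma shear_integrable {μ : Measure E} [IsFiniteMeasure μ] {w k : E → ℝ} (mw : Measurable w)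
    (mk : Measurable k) (hw : Integrable w μ) (hk : Integrable k) :
    Integrable (fun p : E × E => w p.1 * k (p.1 - p.2)) (μ.prod volume) := by
  have hm : Measurable (fun p : E × E => w p.1 * k (p.1 - p.2)) :=
    (mw.comp measurable_fst).mul (mk.comp (measurable_fst.sub measurable_snd))
  rw [integrable_prod_iff hm.aestronglyMeasurable]
  constructor
  · apply ae_of_all
    intro x
    have h1 : Integrable (fun y => w x * k (x - y)) := (hk.comp_sub_left x).const_mul _
    exact h1
  · have e : (fun x : E => ∫ y, ‖w x * k (x - y)‖) = fun x => ‖w x‖ * ∫ z : E, ‖k z‖ := by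
      funext x
      simp only [norm_mul]
      rw [integral_const_mul, integral_sub_left_eq_self (fun z : E => ‖k z‖) volume x]
    simp only at e ⊢
    rw [e]
    exact hw.norm.mul_const _

lemma k1_integrable {s : ℝ} (hs : 0 < s) : Integrable (fun z : E => (1 + ‖z‖) * gk s z) := by
  have h1 : Integrable (fun z : E => ((gZ E s)⁻¹ * (8 + 16 / (s / 2) ^ 2)) *
      Real.exp (-(s / 2) * ‖z‖ ^ 2)) :=
    (gexp_integrable (by positivity : 0 < s / 2)).const_mul _
  have hZ := gZ_pos (E := E) hs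
  refine h1.mono' ?_ (ae_of_all _ fun z => ?_)
  · exact ((continuous_const.add continuous_norm).mul (gk_continuous s)).aestronglyMeasurable
  · have h0 := gk_pos hs z
    rw [Real.norm_of_nonneg (by positivity)]
    unfold gk
    have h2 := growth_bound (s := s / 2) (r := ‖z‖) (by positivity) (norm_nonneg z)
    have h3 : 1 + ‖z‖ ≤ (1 + ‖z‖) ^ 4 := by
      have := norm_nonneg z
      have h4 : 1 ≤ 1 + ‖z‖ := by linarith
      calc 1 + ‖z‖ = (1 + ‖z‖) ^ 1 := (pow_one _).symm
        _ ≤ (1 + ‖z‖) ^ 4 := pow_le_pow_right₀ h4 (by norm_num)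
    calc (1 + ‖z‖) * ((gZ E s)⁻¹ * Real.exp (-s * ‖z‖ ^ 2))
        ≤ ((8 + 16 / (s / 2) ^ 2) * Real.exp (s / 2 * ‖z‖ ^ 2)) *
          ((gZ E s)⁻¹ * Real.exp (-s * ‖z‖ ^ 2)) := by
          apply mul_le_mul_of_nonneg_right (h3.trans h2)
          positivity
      _ = ((gZ E s)⁻¹ * (8 + 16 / (s / 2) ^ 2)) *
          (Real.exp (s / 2 * ‖z‖ ^ 2) * Real.exp (-s * ‖z‖ ^ 2)) := by ring
      _ = _ := by
          rw [← Real.exp_add]
          congr 2
          ring

section

variable {s : ℝ} {μ : Measure E} [IsProbabilityMeasure μ]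

lemma chP_integral (hs : 0 < s) (G : E → ℝ) :
    ∫ a, G a ∂(chP s μ) = ∫ a, G a * ∫ x, gk s (a - x) ∂μ := by
  unfold chP
  rw [integral_withDensity_eq_integral_toReal_smul (qE_measurable measurable_const)
    (ae_of_all _ fun a => (qE_ne_top hs (fun _ => le_rfl) a).lt_top)]
  congr 1
  funext a
  rw [smul_eq_mul, mul_comm]
  congr 1
  have hc : Continuous (fun x : E => gk s (a - x)) :=
    (gk_continuous s).comp (continuous_const.sub continuous_id)
  rw [integral_eq_lintegral_of_nonneg_ae (ae_of_all _ fun x => (gk_pos hs _).le)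
    hc.aestronglyMeasurable]
  unfold qE
  simp only [one_mul]

lemma fub_lin_integrable (hs : 0 < s) {b F : E → ℝ} (mb : Measurable b) (mF : Measurable F)
    (hb : Integrable (fun x => |b x| * (1 + ‖x‖)) μ) {A : ℝ} (hF : ∀ a, |F a| ≤ A * (1 + ‖a‖)) :
    Integrable (fun p : E × E => b p.1 * (F p.2 * gk s (p.1 - p.2))) (μ.prod volume) := by
  have hA : 0 ≤ A := by
    have := (abs_nonneg _).trans (hF 0)
    simpa using this
  have hkm : Measurable (fun p : E × E => gk s (p.1 - p.2)) :=
    ((gk_continuous s).comp (continuous_fst.sub continuous_snd)).measurable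
  have mw : Measurable (fun x : E => |b x| * (1 + ‖x‖)) := by
    have h3 : Measurable (fun x => |b x|) := mb.norm
    exact h3.mul (measurable_const.add measurable_norm)
  have mk : Measurable (fun z : E => (1 + ‖z‖) * gk s z) :=
    ((continuous_const.add continuous_norm).mul (gk_continuous s)).measurable
  have hdom := shear_integrable mw mk hb (k1_integrable hs)
  refine (hdom.const_mul A).mono' ?_ (ae_of_all _ fun p => ?_)
  · exact ((mb.comp measurable_fst).mul ((mF.comp measurable_snd).mul hkm)).aestronglyMeasurable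
  · have hg := gk_pos hs (p.1 - p.2)
    rw [Real.norm_eq_abs, abs_mul, abs_mul, abs_of_pos hg]
    have h1 : 1 + ‖p.2‖ ≤ (1 + ‖p.1‖) * (1 + ‖p.1 - p.2‖) := by
      have h2 : ‖p.2‖ ≤ ‖p.1‖ + ‖p.1 - p.2‖ := by
        have h3 : p.2 = p.1 - (p.1 - p.2) := by abel
        calc ‖p.2‖ = ‖p.1 - (p.1 - p.2)‖ := by rw [← h3]
          _ ≤ _ := norm_sub_le _ _
      nlinarith [norm_nonneg p.1, norm_nonneg (p.1 - p.2),
        mul_nonneg (norm_nonneg p.1) (norm_nonneg (p.1 - p.2))]
    calc |b p.1| * (|F p.2| * gk s (p.1 - p.2))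
        ≤ |b p.1| * ((A * ((1 + ‖p.1‖) * (1 + ‖p.1 - p.2‖))) * gk s (p.1 - p.2)) := by
          gcongr
          exact (hF _).trans (mul_le_mul_of_nonneg_left h1 hA)
      _ = _ := by ring

/-- Fubini for the channel -/
lemma chan_fub (hs : 0 < s) {b F : E → ℝ} (mb : Measurable b) (mF : Measurable F)
    (hb : Integrable (fun x => |b x| * (1 + ‖x‖)) μ) {A : ℝ} (hF : ∀ a, |F a| ≤ A * (1 + ‖a‖)) :
    ∫ a, F a * cexp s μ b a ∂(chP s μ) = ∫ x, b x * gconv s F x ∂μ := by
  have hI := fub_lin_integrable hs mb mF hb hF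
  have h1 : ∫ x, b x * gconv s F x ∂μ = ∫ x, ∫ y, b x * (F y * gk s (x - y)) ∂volume ∂μ := by
    congr 1
    funext x
    unfold gconv
    rw [integral_const_mul]
  rw [h1, integral_integral_swap hI, chP_integral hs]
  congr 1
  funext y
  rw [cexp_eq hs, mul_assoc, div_mul_cancel₀ _ (den_pos hs y).ne', ← integral_const_mul]
  congr 1
  funext x
  rw [gk_sub_comm s y x]
  ring

/-- mass formula -/
lemma chP_gconv (hs : 0 < s) (h2 : Integrable (fun x : E => ‖x‖) μ) {F : E → ℝ}
    (mF : Measurable F) {A : ℝ} (hF : ∀ a, |F a| ≤ A * (1 + ‖a‖)) :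
    ∫ a, F a ∂(chP s μ) = ∫ x, gconv s F x ∂μ := by
  have hk := chan_markov (μ := μ) hs
  have h1 := chan_fub (μ := μ) hs (b := fun _ => 1) measurable_const mF (by
    simp only [abs_one, one_mul]
    exact (integrable_const _).add h2) hF
  simp only [one_mul] at h1
  rw [← h1]
  congr 1
  funext a
  have : cexp s μ (fun _ => 1) a = 1 := by
    unfold cexp
    simp
  rw [this, mul_one]

end

end Pool.Agent.Lib.MP_6d896a_gt.FP
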