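import Mathlib
import Pool.Agent.Lib.MP_6d896a_gt.FP.ChanFub

/-!
The key covariance inequality.
-/

set_option autoImplicit false

namespace Pool.Agent.Lib.MP_6d896a_gt.FP

open MeasureTheory ProbabilityTheory Set Filter
open scoped ENNReal Topology

/-- Cauchy-Schwarz for three functions with `u ^ 2 ≤ α β` -/
lemma int_sq_le {Ω : Type*} [MeasurableSpace Ω] {μ : Measure Ω} {u α β : Ω → ℝ}
    (hu : Integrable u μ) (hα : Integrable α μ) (hβ : Integrable β μ) (α0 : ∀ a, 0 ≤ α a)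
    (β0 : ∀ a, 0 ≤ β a) (h : ∀ a, u a ^ 2 ≤ α a * β a) :
    (∫ a, u a ∂μ) ^ 2 ≤ (∫ a, α a ∂μ) * ∫ a, β a ∂μ := by
  have h1 : ∀ t : ℝ, 0 ≤ (∫ a, α a ∂μ) * (t * t) + (2 * ∫ a, u a ∂μ) * t + ∫ a, β a ∂μ := by
    intro t
    have h2 : 0 ≤ ∫ a, (α a * (t * t) + (2 * u a) * t + β a) ∂μ := by
      apply integral_nonneg
      intro a
      simp only [Pi.zero_apply]
      rcases (α0 a).eq_or_lt with h3 | h3
      · have h4 : u a = 0 := by
          have h5 := h a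
          rw [← h3, zero_mul] at h5
          exact pow_eq_zero_iff two_ne_zero |>.1 (le_antisymm h5 (sq_nonneg _))
        rw [← h3, h4]
        simpa using β0 a
      · have h5 : 0 ≤ α a * (α a * (t * t) + 2 * u a * t + β a) := by
          nlinarith [h a, sq_nonneg (α a * t + u a)]
        exact nonneg_of_mul_nonneg_right h5 h3
    have i1 : Integrable (fun a => α a * (t * t)) μ := hα.mul_const _
    have i2 : Integrable (fun a => (2 * u a) * t) μ := (hu.const_mul 2).mul_const _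
    have i3 : Integrable (fun a => α a * (t * t) + (2 * u a) * t) μ := i1.add i2
    rw [integral_add i3 hβ, integral_add i1 i2, integral_mul_const, integral_mul_const,
      integral_const_mul] at h2
    exact h2
  have h4 := discrim_le_zero h1
  unfold discrim at h4
  nlinarith

/-- covariance bound from a family of variance bounds -/
lemma cov_of_bl {Ω : Type*} [MeasurableSpace Ω] {ν : Measure Ω} [IsProbabilityMeasure ν]
    {g b : Ω → ℝ} (hg : MemLp g 2 ν) (hb : MemLp b 2 ν) {Cc D : ℝ}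
    (h : ∀ t : ℝ, Var[fun x => t * g x - b x; ν] ≤ Cc + t ^ 2 * D) :
    0 ≤ Cc - Var[b; ν] ∧ cov[g, b; ν] ^ 2 ≤ (Cc - Var[b; ν]) * D := by
  have h1 : ∀ t : ℝ, t ^ 2 * Var[g; ν] - 2 * (t * cov[g, b; ν]) + Var[b; ν] ≤ Cc + t ^ 2 * D := by
    intro t
    have h2 := h t
    rw [variance_fun_sub (hg.const_mul t) hb, variance_const_mul, covariance_const_mul_left] at h2
    exact h2
  have h0 : 0 ≤ Cc - Var[b; ν] := by
    have := h1 0
    simp at this
    linarith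
  refine ⟨h0, ?_⟩
  have h2 : ∀ t : ℝ, 0 ≤ (D - Var[g; ν]) * (t * t) + (2 * cov[g, b; ν]) * t
      + (Cc - Var[b; ν]) := by
    intro t
    have := h1 t
    linarith
  have h3 := discrim_le_zero h2
  unfold discrim at h3
  have h4 := variance_nonneg g ν
  nlinarith [mul_nonneg h4 h0]

variable {E : Type*} [NormedAddCommGroup E] [InnerProductSpace ℝ E] [FiniteDimensional ℝ E]
  [MeasurableSpace E] [BorelSpace E]

lemma memLp_of_growth {μ : Measure E} [IsProbabilityMeasure μ]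
    (n2 : MemLp (fun x : E => ‖x‖) 2 μ) {b : E → ℝ} (mb : AEStronglyMeasurable b μ) {B : ℝ}
    (hb : ∀ x, ‖b x‖ ≤ B * (1 + ‖x‖)) : MemLp b 2 μ := by
  have e0 : MemLp (fun _ : E => (1 : ℝ)) 2 μ := memLp_const 1
  have e3 : MemLp (fun x : E => (1 : ℝ) + ‖x‖) 2 μ := e0.add n2
  have h1 : MemLp (fun x : E => B * (1 + ‖x‖)) 2 μ := e3.const_mul B
  exact h1.mono' mb (ae_of_all _ hb)

lemma memLp_of_bdd_deriv {μ : Measure E} [IsProbabilityMeasure μ]
    (n2 : MemLp (fun x : E => ‖x‖) 2 μ) {f : E → ℝ} (hf : ContDiff ℝ 1 f)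
    {l : ℝ} (hl : ∀ x, ‖fderiv ℝ f x‖ ≤ l) : MemLp f 2 μ :=
  memLp_of_growth n2 hf.continuous.aestronglyMeasurable (growth hf hl)

lemma deriv_sq_integrable {μ : Measure E} [IsProbabilityMeasure μ] {f : E → ℝ}
    (hf : ContDiff ℝ 1 f) {l : ℝ} (hl : ∀ x, ‖fderiv ℝ f x‖ ≤ l) :
    Integrable (fun x => ‖fderiv ℝ f x‖ ^ 2) μ := by
  have hc : Continuous (fderiv ℝ f) := hf.continuous_fderiv one_ne_zero
  refine (integrable_const (l ^ 2)).mono' (hc.norm.pow 2).aestronglyMeasurable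
    (ae_of_all _ fun x => ?_)
  rw [norm_pow, norm_norm]
  exact pow_le_pow_left₀ (norm_nonneg _) (hl x) 2

/-- hypotheses of the key inequality -/
structure KH (μ : Measure E) [IsProbabilityMeasure μ] (b c : E → ℝ) (B P : ℝ) : Prop where
  mb : Measurable b
  mc : Measurable c
  hb : ∀ x, |b x| ≤ B * (1 + ‖x‖)
  hc : ∀ x, |c x| ≤ B
  h2 : Integrable (fun x => ‖x‖ ^ 2) μ
  hP : 0 < P
  hPoin : ∀ f : E → ℝ, ContDiff ℝ 1 f → (∃ l : ℝ, ∀ x, ‖fderiv ℝ f x‖ ≤ l) →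
      Var[f; μ] ≤ P * ∫ x, ‖fderiv ℝ f x‖ ^ 2 ∂μ
  hcov : ∀ v : E, cov[fun x => inner ℝ v x, b; μ] = 0
  hBL : ∀ f : E → ℝ, ContDiff ℝ 1 f → (∃ l : ℝ, ∀ x, ‖fderiv ℝ f x‖ ≤ l) →
      (∃ l : ℝ, ∀ x y, ‖fderiv ℝ f x - fderiv ℝ f y‖ ≤ l * ‖x - y‖) → ∀ a : E,
      Var[fun x => f x - b x; chan (1 / (32 * P)) μ a] ≤ ∫ x, c x ∂(chan (1 / (32 * P)) μ a) +
        16 * P * ∫ x, ‖fderiv ℝ f x‖ ^ 2 ∂(chan (1 / (32 * P)) μ a)

namespace KH

variable {μ : Measure E} [IsProbabilityMeasure μ] {b c : E → ℝ} {B P : ℝ}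

/-- local defect -/
noncomputable def Hf (P : ℝ) (μ : Measure E) [IsProbabilityMeasure μ] (b c : E → ℝ) (a : E) : ℝ :=
  cexp (1 / (32 * P)) μ c a - Var[b; chan (1 / (32 * P)) μ a]

lemma s_pos (H : KH μ b c B P) : 0 < 1 / (32 * P) := by
  have := H.hP
  positivity

lemma n2 (H : KH μ b c B P) : MemLp (fun x : E => ‖x‖) 2 μ := by
  rw [memLp_two_iff_integrable_sq continuous_norm.aestronglyMeasurable]
  exact H.h2

lemma n1 (H : KH μ b c B P) : Integrable (fun x : E => ‖x‖) μ :=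
  H.n2.integrable (by norm_num)

lemma b2 (H : KH μ b c B P) : MemLp b 2 μ :=
  memLp_of_growth H.n2 H.mb.aestronglyMeasurable H.hb

lemma b1 (H : KH μ b c B P) : Integrable b μ := H.b2.integrable (by norm_num)

lemma c1 (H : KH μ b c B P) : Integrable c μ :=
  (integrable_const B).mono' H.mc.aestronglyMeasurable (ae_of_all _ H.hc)

lemma bl (H : KH μ b c B P) {g : E → ℝ} (hg : ContDiff ℝ 1 g)
    (hl : ∃ l : ℝ, ∀ x, ‖fderiv ℝ g x‖ ≤ l)
    (hL : ∃ l : ℝ, ∀ x y, ‖fderiv ℝ g x - fderiv ℝ g y‖ ≤ l * ‖x - y‖) (a : E) :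
    0 ≤ Hf P μ b c a ∧ cov[g, b; chan (1 / (32 * P)) μ a] ^ 2 ≤ Hf P μ b c a *
      (16 * P * ∫ x, ‖fderiv ℝ g x‖ ^ 2 ∂(chan (1 / (32 * P)) μ a)) := by
  have hs := H.s_pos
  have hk := chan_markov (μ := μ) hs
  obtain ⟨l, hl⟩ := hl
  obtain ⟨L, hL⟩ := hL
  have g2 : MemLp g 2 μ := memLp_of_bdd_deriv H.n2 hg hl
  refine cov_of_bl (chan_memLp hs g2 a) (chan_memLp hs H.b2 a) fun t => ?_
  have hd : ∀ x, fderiv ℝ (fun x => t * g x) x = t • fderiv ℝ g x := by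
    intro x
    exact fderiv_const_mul (hg.differentiable one_ne_zero x) t
  have h1 := H.hBL (fun x => t * g x) (contDiff_const.mul hg) ⟨|t| * l, fun x => by
    rw [hd, norm_smul, Real.norm_eq_abs]
    exact mul_le_mul_of_nonneg_left (hl x) (abs_nonneg t)⟩ ⟨|t| * L, fun x y => by
    rw [hd, hd, ← smul_sub, norm_smul, Real.norm_eq_abs, mul_assoc]
    exact mul_le_mul_of_nonneg_left (hL x y) (abs_nonneg t)⟩ a
  refine h1.trans (le_of_eq ?_)
  have e : (fun x => ‖fderiv ℝ (fun x => t * g x) x‖ ^ 2) = fun x => t ^ 2 * ‖fderiv ℝ g x‖ ^ 2 := by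
    funext x
    rw [hd, norm_smul, Real.norm_eq_abs, mul_pow, sq_abs]
  rw [e, integral_const_mul]
  unfold cexp
  ring

lemma inner_fderiv (v x : E) : fderiv ℝ (fun x : E => inner ℝ v x) x = innerSL ℝ v := by
  have h : (fun x : E => inner ℝ v x) = innerSL ℝ v := rfl
  rw [h]
  exact (innerSL ℝ v).fderiv

lemma psi_deriv (H : KH μ b c B P) (a : E) :
    ‖fderiv ℝ (cexp (1 / (32 * P)) μ b) a‖ ^ 2 ≤ Hf P μ b c a / (16 * P) := by
  have hs := H.s_pos
  have hP := H.hP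
  have hk := chan_markov (μ := μ) hs
  have h0 : ∀ v : E, 0 ≤ Hf P μ b c a ∧ (fderiv ℝ (cexp (1 / (32 * P)) μ b) a v) ^ 2 ≤
      Hf P μ b c a / (16 * P) * ‖v‖ ^ 2 := by
    intro v
    have hc : ContDiff ℝ 1 (fun x : E => inner ℝ v x) := (innerSL ℝ v).contDiff
    have h1 := H.bl hc ⟨‖v‖, fun x => by rw [inner_fderiv, innerSL_apply_norm]⟩
      ⟨0, fun x y => by rw [inner_fderiv, inner_fderiv, sub_self, norm_zero, zero_mul]⟩ a
    refine ⟨h1.1, ?_⟩
    rw [cexp_fderiv_apply hs H.b2 H.n2]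
    have h2 := h1.2
    simp only [inner_fderiv, innerSL_apply_norm] at h2
    rw [integral_const, probReal_univ, one_smul] at h2
    calc (2 * (1 / (32 * P)) * cov[fun x => inner ℝ v x, b; chan (1 / (32 * P)) μ a]) ^ 2
        = (1 / (256 * P ^ 2)) * cov[fun x => inner ℝ v x, b; chan (1 / (32 * P)) μ a] ^ 2 := by
          field_simp
          ring
      _ ≤ (1 / (256 * P ^ 2)) * (Hf P μ b c a * (16 * P * ‖v‖ ^ 2)) :=
          mul_le_mul_of_nonneg_left h2 (by positivity)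
      _ = Hf P μ b c a / (16 * P) * ‖v‖ ^ 2 := by
          field_simp
          ring
  have hH := (h0 0).1
  set q := Hf P μ b c a / (16 * P) with hq
  have hq0 : 0 ≤ q := by positivity
  have h3 : ‖fderiv ℝ (cexp (1 / (32 * P)) μ b) a‖ ≤ Real.sqrt q := by
    apply ContinuousLinearMap.opNorm_le_bound _ (Real.sqrt_nonneg _)
    intro v
    have h4 := (h0 v).2
    rw [Real.norm_eq_abs]
    apply abs_le_of_sq_le_sq _ (by positivity)
    rw [mul_pow, Real.sq_sqrt hq0]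
    exact h4
  calc ‖fderiv ℝ (cexp (1 / (32 * P)) μ b) a‖ ^ 2 ≤ Real.sqrt q ^ 2 :=
        pow_le_pow_left₀ (norm_nonneg _) h3 2
    _ = q := Real.sq_sqrt hq0

lemma Hf_nonneg (H : KH μ b c B P) (a : E) : 0 ≤ Hf P μ b c a := by
  have h := H.psi_deriv a
  have hP := H.hP
  have h1 : 0 ≤ Hf P μ b c a / (16 * P) := (sq_nonneg _).trans h
  have h2 : 0 ≤ Hf P μ b c a / (16 * P) * (16 * P) := mul_nonneg h1 (by positivity)
  rwa [div_mul_cancel₀ _ (by positivity)] at h2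

lemma Hf_le (H : KH μ b c B P) (a : E) : Hf P μ b c a ≤ B := by
  have hs := H.s_pos
  have hk := chan_markov (μ := μ) hs
  unfold Hf
  have h1 : cexp (1 / (32 * P)) μ c a ≤ B := by
    unfold cexp
    calc ∫ x, c x ∂(chan (1 / (32 * P)) μ a) ≤ ∫ _, B ∂(chan (1 / (32 * P)) μ a) :=
          integral_mono (chan_integrable hs H.c1 a) (integrable_const _)
            fun x => (le_abs_self _).trans (H.hc x)
      _ = B := by rw [integral_const, probReal_univ, one_smul]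
  have h2 := variance_nonneg b (chan (1 / (32 * P)) μ a)
  linarith

lemma psi_bdd (H : KH μ b c B P) (a : E) :
    ‖fderiv ℝ (cexp (1 / (32 * P)) μ b) a‖ ≤ Real.sqrt (B / (16 * P)) := by
  have hP := H.hP
  apply Real.le_sqrt_of_sq_le
  refine (H.psi_deriv a).trans ?_
  exact div_le_div_of_nonneg_right (H.Hf_le a) (by positivity)

lemma Hf_integrable (H : KH μ b c B P) : Integrable (Hf P μ b c) (chP (1 / (32 * P)) μ) :=
  (chan_integrable_ae H.s_pos H.c1).sub (var_chan_integrable H.s_pos H.b2)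

lemma Hf_integral (H : KH μ b c B P) : ∫ a, Hf P μ b c a ∂(chP (1 / (32 * P)) μ) =
    (∫ x, c x ∂μ - Var[b; μ]) + Var[cexp (1 / (32 * P)) μ b; chP (1 / (32 * P)) μ] := by
  have hs := H.s_pos
  have h1 : ∫ a, Hf P μ b c a ∂(chP (1 / (32 * P)) μ) =
      ∫ a, cexp (1 / (32 * P)) μ c a ∂(chP (1 / (32 * P)) μ) -
        ∫ a, Var[b; chan (1 / (32 * P)) μ a] ∂(chP (1 / (32 * P)) μ) :=
    integral_sub (chan_integrable_ae H.s_pos H.c1) (var_chan_integrable H.s_pos H.b2)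
  rw [h1, cexp_integral hs H.c1, total_var hs H.b2]
  ring

lemma psi_contDiff (H : KH μ b c B P) : ContDiff ℝ 1 (cexp (1 / (32 * P)) μ b) :=
  cexp_contDiff H.s_pos H.b1

/-- energy of the posterior mean -/
lemma psi_energy (H : KH μ b c B P) :
    ∫ a, ‖fderiv ℝ (cexp (1 / (32 * P)) μ b) a‖ ^ 2 ∂(chP (1 / (32 * P)) μ) ≤
      ((∫ x, c x ∂μ - Var[b; μ]) + Var[cexp (1 / (32 * P)) μ b; chP (1 / (32 * P)) μ]) /
        (16 * P) := by
  have hp := chP_prob (μ := μ) H.s_pos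
  rw [← H.Hf_integral, ← integral_div]
  exact integral_mono (deriv_sq_integrable H.psi_contDiff H.psi_bdd)
    (H.Hf_integrable.div_const _) fun a => H.psi_deriv a

lemma cov_chan_sq (H : KH μ b c B P) {g : E → ℝ} (hg : ContDiff ℝ 1 g)
    (hl : ∃ l : ℝ, ∀ x, ‖fderiv ℝ g x‖ ≤ l)
    (hL : ∃ l : ℝ, ∀ x y, ‖fderiv ℝ g x - fderiv ℝ g y‖ ≤ l * ‖x - y‖) :
    (∫ a, cov[g, b; chan (1 / (32 * P)) μ a] ∂(chP (1 / (32 * P)) μ)) ^ 2 ≤
      ((∫ x, c x ∂μ - Var[b; μ]) + Var[cexp (1 / (32 * P)) μ b; chP (1 / (32 * P)) μ]) *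
        (16 * P * ∫ x, ‖fderiv ℝ g x‖ ^ 2 ∂μ) := by
  have hs := H.s_pos
  have hP := H.hP
  obtain ⟨l, hl'⟩ := hl
  have g2 : MemLp g 2 μ := memLp_of_bdd_deriv H.n2 hg hl'
  have hd := deriv_sq_integrable (μ := μ) hg hl'
  have h1 := int_sq_le (cov_chan_integrable hs g2 H.b2) H.Hf_integrable
    ((chan_integrable_ae hs hd).const_mul (16 * P)) H.Hf_nonneg
    (fun a => mul_nonneg (by positivity) (integral_nonneg fun x => sq_nonneg _))
    (fun a => (H.bl hg ⟨l, hl'⟩ hL a).2)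
  rw [H.Hf_integral, integral_const_mul] at h1
  refine h1.trans (le_of_eq ?_)
  have h2 := cexp_integral hs hd
  unfold cexp at h2
  rw [h2]

lemma cov_mean_sq (H : KH μ b c B P) {g : E → ℝ} (hg : ContDiff ℝ 1 g)
    (hl : ∃ l : ℝ, ∀ x, ‖fderiv ℝ g x‖ ≤ l) :
    cov[cexp (1 / (32 * P)) μ g, cexp (1 / (32 * P)) μ b; chP (1 / (32 * P)) μ] ^ 2 ≤
      (P * ∫ x, ‖fderiv ℝ g x‖ ^ 2 ∂μ) *
        Var[cexp (1 / (32 * P)) μ b; chP (1 / (32 * P)) μ] := by
  have hs := H.s_pos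
  have hp := chP_prob (μ := μ) hs
  obtain ⟨l, hl'⟩ := hl
  have g2 : MemLp g 2 μ := memLp_of_bdd_deriv H.n2 hg hl'
  refine (cov_sq_le (cexp_memLp hs g2) (cexp_memLp hs H.b2)).trans ?_
  apply mul_le_mul_of_nonneg_right _ (variance_nonneg _ _)
  have h1 := H.hPoin g hg ⟨l, hl'⟩
  rw [total_var hs g2] at h1
  have h2 : 0 ≤ ∫ a, Var[g; chan (1 / (32 * P)) μ a] ∂(chP (1 / (32 * P)) μ) :=
    integral_nonneg fun a => variance_nonneg _ _
  linarith

/-! ### The corrected test function -/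

lemma psi_growth (H : KH μ b c B P) (a : E) : |cexp (1 / (32 * P)) μ b a| ≤
    (‖cexp (1 / (32 * P)) μ b 0‖ + Real.sqrt (B / (16 * P))) * (1 + ‖a‖) :=
  growth H.psi_contDiff H.psi_bdd a

lemma phi_contDiff (H : KH μ b c B P) :
    ContDiff ℝ 1 (gconv (1 / (32 * P)) (cexp (1 / (32 * P)) μ b)) :=
  gconv_lip_contDiff H.s_pos H.psi_contDiff H.psi_bdd

lemma phi_bdd (H : KH μ b c B P) (x : E) :
    ‖fderiv ℝ (gconv (1 / (32 * P)) (cexp (1 / (32 * P)) μ b)) x‖ ≤ Real.sqrt (B / (16 * P)) :=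
  gconv_lip_norm H.s_pos H.psi_contDiff H.psi_bdd x

lemma b_growth_integrable (H : KH μ b c B P) : Integrable (fun x => |b x| * (1 + ‖x‖)) μ := by
  have e0 : MemLp (fun _ : E => (1 : ℝ)) 2 μ := memLp_const 1
  exact H.b2.norm.integrable_mul (e0.add H.n2)

lemma phi_cov (H : KH μ b c B P) :
    cov[gconv (1 / (32 * P)) (cexp (1 / (32 * P)) μ b), b; μ] =
      Var[cexp (1 / (32 * P)) μ b; chP (1 / (32 * P)) μ] := by
  have hs := H.s_pos
  have hp := chP_prob (μ := μ) hs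
  have hψ2 := cexp_memLp hs H.b2
  have hφ2 : MemLp (gconv (1 / (32 * P)) (cexp (1 / (32 * P)) μ b)) 2 μ :=
    memLp_of_bdd_deriv H.n2 H.phi_contDiff H.phi_bdd
  rw [covariance_eq_sub hφ2 H.b2, variance_eq_sub hψ2]
  have h1 := chan_fub (μ := μ) hs H.mb H.psi_contDiff.continuous.measurable
    H.b_growth_integrable H.psi_growth
  have h3 := chP_gconv (μ := μ) hs H.n1 H.psi_contDiff.continuous.measurable H.psi_growth
  have h4 := cexp_integral hs H.b1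
  have e1 : ∫ x, (gconv (1 / (32 * P)) (cexp (1 / (32 * P)) μ b) * b) x ∂μ =
      ∫ a, (cexp (1 / (32 * P)) μ b ^ 2) a ∂(chP (1 / (32 * P)) μ) := by
    rw [show (∫ a, (cexp (1 / (32 * P)) μ b ^ 2) a ∂(chP (1 / (32 * P)) μ)) =
      ∫ a, cexp (1 / (32 * P)) μ b a * cexp (1 / (32 * P)) μ b a ∂(chP (1 / (32 * P)) μ) from by
        congr 1
        funext a
        simp only [Pi.pow_apply]
        ring, h1]
    congr 1
    funext x
    simp only [Pi.mul_apply]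
    ring
  rw [e1, ← h3, h4]
  ring

/-- mean gradient of the test function -/
noncomputable def w0 (P : ℝ) (μ : Measure E) [IsProbabilityMeasure μ] (b : E → ℝ) : E :=
  ∑ i, (∫ x, fderiv ℝ (gconv (1 / (32 * P)) (cexp (1 / (32 * P)) μ b)) x
    (stdOrthonormalBasis ℝ E i) ∂μ) • stdOrthonormalBasis ℝ E i

/-- the corrected test function -/
noncomputable def rr (P : ℝ) (μ : Measure E) [IsProbabilityMeasure μ] (b : E → ℝ) (x : E) : ℝ :=
  gconv (1 / (32 * P)) (cexp (1 / (32 * P)) μ b) x - inner ℝ (w0 P μ b) x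

lemma rr_contDiff (H : KH μ b c B P) : ContDiff ℝ 1 (rr P μ b) :=
  H.phi_contDiff.sub (innerSL ℝ (w0 P μ b)).contDiff

lemma rr_fderiv (H : KH μ b c B P) (x : E) : fderiv ℝ (rr P μ b) x =
    fderiv ℝ (gconv (1 / (32 * P)) (cexp (1 / (32 * P)) μ b)) x - innerSL ℝ (w0 P μ b) := by
  have h1 : DifferentiableAt ℝ (fun x : E => inner ℝ (w0 P μ b) x) x :=
    (innerSL ℝ (w0 P μ b)).differentiableAt
  have h2 := fderiv_fun_sub (H.phi_contDiff.differentiable one_ne_zero x) h1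
  rw [inner_fderiv] at h2
  exact h2

lemma rr_bdd (H : KH μ b c B P) (x : E) :
    ‖fderiv ℝ (rr P μ b) x‖ ≤ Real.sqrt (B / (16 * P)) + ‖w0 P μ b‖ := by
  rw [H.rr_fderiv]
  refine (norm_sub_le _ _).trans ?_
  rw [innerSL_apply_norm]
  linarith [H.phi_bdd x]

lemma rr_lip (H : KH μ b c B P) (x y : E) :
    ‖fderiv ℝ (rr P μ b) x - fderiv ℝ (rr P μ b) y‖ ≤
      Real.sqrt (2 * (1 / (32 * P))) * Real.sqrt (B / (16 * P)) * ‖x - y‖ := by
  rw [H.rr_fderiv, H.rr_fderiv, sub_sub_sub_cancel_right]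
  exact gconv_lip_fderiv_lip H.s_pos H.psi_contDiff H.psi_bdd x y

lemma rr_cov (H : KH μ b c B P) :
    cov[rr P μ b, b; μ] = Var[cexp (1 / (32 * P)) μ b; chP (1 / (32 * P)) μ] := by
  have hφ2 : MemLp (gconv (1 / (32 * P)) (cexp (1 / (32 * P)) μ b)) 2 μ :=
    memLp_of_bdd_deriv H.n2 H.phi_contDiff H.phi_bdd
  unfold rr
  rw [covariance_fun_sub_left hφ2 (memLp_inner H.n2 _) H.b2, H.phi_cov, H.hcov, sub_zero]

lemma w0_inner (i : Fin (Module.finrank ℝ E)) : inner ℝ (w0 P μ b) (stdOrthonormalBasis ℝ E i) =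
    ∫ x, fderiv ℝ (gconv (1 / (32 * P)) (cexp (1 / (32 * P)) μ b)) x
      (stdOrthonormalBasis ℝ E i) ∂μ := by
  unfold w0
  rw [sum_inner, Finset.sum_eq_single i]
  · rw [real_inner_smul_left, real_inner_self_eq_norm_sq, (stdOrthonormalBasis ℝ E).norm_eq_one]
    ring
  · intro j _ hj
    rw [real_inner_smul_left, (stdOrthonormalBasis ℝ E).orthonormal.2 hj, mul_zero]
  · intro h
    exact absurd (Finset.mem_univ i) h

lemma rr_energy (H : KH μ b c B P) : ∫ x, ‖fderiv ℝ (rr P μ b) x‖ ^ 2 ∂μ ≤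
    ((∫ x, c x ∂μ - Var[b; μ]) + Var[cexp (1 / (32 * P)) μ b; chP (1 / (32 * P)) μ]) /
      (256 * P) := by
  have hs := H.s_pos
  have hP := H.hP
  have hp := chP_prob (μ := μ) hs
  set s : ℝ := 1 / (32 * P) with hsdef
  set ψ := cexp s μ b with hψ
  set l : ℝ := Real.sqrt (B / (16 * P)) with hldef
  have hl0 : 0 ≤ l := Real.sqrt_nonneg _
  have hψc : Continuous (fderiv ℝ ψ) := H.psi_contDiff.continuous_fderiv one_ne_zero
  have hφc : Continuous (fderiv ℝ (gconv s ψ)) := H.phi_contDiff.continuous_fderiv one_ne_zero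
  set e := stdOrthonormalBasis ℝ E with he
  have he1 : ∀ i, ‖e i‖ = 1 := fun i => e.norm_eq_one i
  -- components
  have hm : ∀ i, Measurable (fun a => fderiv ℝ ψ a (e i)) := fun i =>
    (hψc.clm_apply continuous_const).measurable
  have hmb : ∀ i a, |fderiv ℝ ψ a (e i)| ≤ l := by
    intro i a
    refine ((fderiv ℝ ψ a).le_opNorm (e i)).trans ?_
    rw [he1, mul_one]
    exact H.psi_bdd a
  have hφe : ∀ i, (fun x => fderiv ℝ (gconv s ψ) x (e i)) = gconv s (fun a => fderiv ℝ ψ a (e i)) := by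
    intro i
    funext x
    exact gconv_lip_fderiv_apply hs H.psi_contDiff H.psi_bdd x (e i)
  have hφ2 : ∀ i, MemLp (fun x => fderiv ℝ (gconv s ψ) x (e i)) 2 μ := by
    intro i
    refine memLp_of_bounded (a := -l) (b := l) (ae_of_all _ fun x => ?_)
      (hφc.clm_apply continuous_const).aestronglyMeasurable 2
    have h1 : |fderiv ℝ (gconv s ψ) x (e i)| ≤ l := by
      refine ((fderiv ℝ (gconv s ψ) x).le_opNorm (e i)).trans ?_
      rw [he1, mul_one]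
      exact H.phi_bdd x
    exact abs_le.1 h1
  -- expansion
  have h1 : ∀ x, ‖fderiv ℝ (rr P μ b) x‖ ^ 2 = ∑ i, (fderiv ℝ (gconv s ψ) x (e i) -
      ∫ y, fderiv ℝ (gconv s ψ) y (e i) ∂μ) ^ 2 := by
    intro x
    rw [dual_norm_sq e]
    apply Finset.sum_congr rfl
    intro i _
    rw [H.rr_fderiv, _root_.sub_apply, innerSL_apply_apply, w0_inner]
  have h2 : ∫ x, ‖fderiv ℝ (rr P μ b) x‖ ^ 2 ∂μ =
      ∑ i, Var[fun x => fderiv ℝ (gconv s ψ) x (e i); μ] := by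
    simp_rw [h1]
    rw [integral_finset_sum]
    · apply Finset.sum_congr rfl
      intro i _
      rw [variance_eq_integral (hφ2 i).aemeasurable]
    · intro i _
      exact ((hφ2 i).sub (memLp_const _)).integrable_sq
  -- Poincare for the components
  have h3 : ∀ i, Var[fun x => fderiv ℝ (gconv s ψ) x (e i); μ] ≤
      P * (2 * s * ∫ a, (fderiv ℝ ψ a (e i)) ^ 2 ∂(chP s μ)) := by
    intro i
    rw [hφe i]
    have hg := gconv_bdd hs (hm i) (hmb i)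
    have hm2 : Measurable (fun a => (fderiv ℝ ψ a (e i)) ^ 2) := (hm i).pow_const 2
    have hm2b : ∀ a, |(fderiv ℝ ψ a (e i)) ^ 2| ≤ l ^ 2 := by
      intro a
      rw [abs_of_nonneg (sq_nonneg _)]
      exact sq_le_sq' (neg_le_of_abs_le (hmb i a)) (le_of_abs_le (hmb i a))
    have hg2 : ∀ x, ‖fderiv ℝ (gconv s (fun a => fderiv ℝ ψ a (e i))) x‖ ≤
        Real.sqrt (2 * s * l ^ 2) := by
      intro x
      apply Real.le_sqrt_of_sq_le
      refine (hg.2 x).trans ?_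
      exact mul_le_mul_of_nonneg_left (gconv_mono hs hm2 hm2b x) (by positivity)
    refine (H.hPoin _ hg.1 ⟨_, hg2⟩).trans ?_
    apply mul_le_mul_of_nonneg_left _ hP.le
    have h4 := chP_gconv (μ := μ) hs H.n1 hm2 (A := l ^ 2) (fun a => by
      refine (hm2b a).trans ?_
      have := norm_nonneg a
      nlinarith [sq_nonneg l])
    rw [h4, ← integral_const_mul]
    have hgc : Continuous (gconv s (fun a => (fderiv ℝ ψ a (e i)) ^ 2)) :=
      (gconv_bdd hs hm2 hm2b).1.continuous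
    refine integral_mono (deriv_sq_integrable hg.1 hg2) ?_ hg.2
    apply Integrable.const_mul
    refine (integrable_const (l ^ 2)).mono' hgc.aestronglyMeasurable (ae_of_all _ fun x => ?_)
    rw [Real.norm_eq_abs, abs_le]
    constructor
    · have h5 := gconv_mono hs hm2.neg (M := l ^ 2) (fun a => by
        show |-(fderiv ℝ ψ a (e i)) ^ 2| ≤ l ^ 2
        rw [abs_neg]
        exact hm2b a) x
      have h6 := gconv_const_mul (s := s) (-1) (fun a => (fderiv ℝ ψ a (e i)) ^ 2)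
      have h7 : (-fun a => (fderiv ℝ ψ a (e i)) ^ 2) = fun a => (-1) * (fderiv ℝ ψ a (e i)) ^ 2 := by
        funext a
        simp
      rw [h7, h6] at h5
      linarith
    · exact gconv_mono hs hm2 hm2b x
  have h5 : ∑ i, ∫ a, (fderiv ℝ ψ a (e i)) ^ 2 ∂(chP s μ) = ∫ a, ‖fderiv ℝ ψ a‖ ^ 2 ∂(chP s μ) := by
    rw [← integral_finset_sum]
    · congr 1
      funext a
      rw [dual_norm_sq e]
    · intro i _
      refine (integrable_const (l ^ 2)).mono' ((hm i).pow_const 2).aestronglyMeasurable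
        (ae_of_all _ fun a => ?_)
      rw [Real.norm_eq_abs, abs_of_nonneg (sq_nonneg _)]
      exact sq_le_sq' (neg_le_of_abs_le (hmb i a)) (le_of_abs_le (hmb i a))
  have h6 := H.psi_energy
  rw [h2]
  calc ∑ i, Var[fun x => fderiv ℝ (gconv s ψ) x (e i); μ]
      ≤ ∑ i, P * (2 * s * ∫ a, (fderiv ℝ ψ a (e i)) ^ 2 ∂(chP s μ)) :=
        Finset.sum_le_sum fun i _ => h3 i
    _ = P * (2 * s * ∫ a, ‖fderiv ℝ ψ a‖ ^ 2 ∂(chP s μ)) := by
        rw [← Finset.mul_sum, ← Finset.mul_sum, h5]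
    _ ≤ P * (2 * s * (((∫ x, c x ∂μ - Var[b; μ]) + Var[ψ; chP s μ]) / (16 * P))) := by
        have : 0 ≤ 2 * s := by positivity
        apply mul_le_mul_of_nonneg_left _ hP.le
        exact mul_le_mul_of_nonneg_left h6 this
    _ = ((∫ x, c x ∂μ - Var[b; μ]) + Var[ψ; chP s μ]) / (256 * P) := by
        rw [hsdef]
        field_simp
        ring

/-- the variance of the posterior mean is controlled by the defect -/
lemma G_le (H : KH μ b c B P) :
    22 * Var[cexp (1 / (32 * P)) μ b; chP (1 / (32 * P)) μ] ≤ 9 * (∫ x, c x ∂μ - Var[b; μ]) := by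
  have hs := H.s_pos
  have hP := H.hP
  have hp := chP_prob (μ := μ) hs
  have hE := H.rr_energy
  have hr2 : MemLp (rr P μ b) 2 μ := memLp_of_bdd_deriv H.n2 H.rr_contDiff H.rr_bdd
  have h1 := total_cov hs hr2 H.b2
  rw [H.rr_cov] at h1
  have h2 := H.cov_chan_sq H.rr_contDiff ⟨_, H.rr_bdd⟩ ⟨_, H.rr_lip⟩
  have h3 := H.cov_mean_sq H.rr_contDiff ⟨_, H.rr_bdd⟩
  have hS : 0 ≤ (∫ x, c x ∂μ - Var[b; μ]) +
      Var[cexp (1 / (32 * P)) μ b; chP (1 / (32 * P)) μ] := by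
    rw [← H.Hf_integral]
    exact integral_nonneg H.Hf_nonneg
  have hG := variance_nonneg (cexp (1 / (32 * P)) μ b) (chP (1 / (32 * P)) μ)
  set G := Var[cexp (1 / (32 * P)) μ b; chP (1 / (32 * P)) μ] with hGdef
  set Hh := ∫ x, c x ∂μ - Var[b; μ] with hHh
  set D := ∫ x, ‖fderiv ℝ (rr P μ b) x‖ ^ 2 ∂μ with hD
  set X1 := ∫ a, cov[rr P μ b, b; chan (1 / (32 * P)) μ a] ∂(chP (1 / (32 * P)) μ) with hX1
  set X2 := cov[cexp (1 / (32 * P)) μ (rr P μ b), cexp (1 / (32 * P)) μ b;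
    chP (1 / (32 * P)) μ] with hX2
  have hPD : P * D ≤ (Hh + G) / 256 := by
    have h4 : P * D ≤ P * ((Hh + G) / (256 * P)) := mul_le_mul_of_nonneg_left hE hP.le
    have h5 : P * ((Hh + G) / (256 * P)) = (Hh + G) / 256 := by
      field_simp
    linarith
  have h4 : X1 ^ 2 ≤ ((Hh + G) / 4) ^ 2 := by
    refine h2.trans ?_
    have h5 : (Hh + G) * (16 * P * D) ≤ (Hh + G) * ((Hh + G) / 16) := by
      apply mul_le_mul_of_nonneg_left _ hS
      linarith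
    nlinarith
  have h5 : X1 ≤ (Hh + G) / 4 := le_of_sq_le_sq h4 (by positivity)
  have h6 : X2 ^ 2 ≤ ((Hh + G + G) / 32) ^ 2 := by
    refine h3.trans ?_
    have h7 : P * D * G ≤ (Hh + G) / 256 * G := mul_le_mul_of_nonneg_right hPD hG
    nlinarith [sq_nonneg (Hh + G - G)]
  have h7 : X2 ≤ (Hh + G + G) / 32 := le_of_sq_le_sq h6 (by positivity)
  linarith

end KH

/-- the key covariance inequality -/
theorem key_abs {μ : Measure E} [IsProbabilityMeasure μ] {b c : E → ℝ}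
    (mb : Measurable b) (mc : Measurable c) {B : ℝ}
    (hb : ∀ x, |b x| ≤ B * (1 + ‖x‖)) (hc : ∀ x, |c x| ≤ B)
    (h2 : Integrable (fun x => ‖x‖ ^ 2) μ) {P : ℝ} (hP : 0 < P)
    (hPoin : ∀ f : E → ℝ, ContDiff ℝ 1 f → (∃ l : ℝ, ∀ x, ‖fderiv ℝ f x‖ ≤ l) →
      Var[f; μ] ≤ P * ∫ x, ‖fderiv ℝ f x‖ ^ 2 ∂μ)
    (hcov : ∀ v : E, cov[fun x => inner ℝ v x, b; μ] = 0)
    (hBL : ∀ f : E → ℝ, ContDiff ℝ 1 f → (∃ l : ℝ, ∀ x, ‖fderiv ℝ f x‖ ≤ l) →
      (∃ l : ℝ, ∀ x y, ‖fderiv ℝ f x - fderiv ℝ f y‖ ≤ l * ‖x - y‖) → ∀ a : E,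
      Var[fun x => f x - b x; chan (1 / (32 * P)) μ a] ≤ ∫ x, c x ∂(chan (1 / (32 * P)) μ a) +
        16 * P * ∫ x, ‖fderiv ℝ f x‖ ^ 2 ∂(chan (1 / (32 * P)) μ a))
    {f : E → ℝ} (hf : ContDiff ℝ 1 f) (hl : ∃ l : ℝ, ∀ x, ‖fderiv ℝ f x‖ ≤ l)
    (hL : ∃ l : ℝ, ∀ x y, ‖fderiv ℝ f x - fderiv ℝ f y‖ ≤ l * ‖x - y‖) :
    cov[f, b; μ] ^ 2 ≤ 36 * P * (∫ x, c x ∂μ - Var[b; μ]) * ∫ x, ‖fderiv ℝ f x‖ ^ 2 ∂μ := by
  have H : KH μ b c B P := ⟨mb, mc, hb, hc, h2, hP, hPoin, hcov, hBL⟩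
  have hs := H.s_pos
  have hp := chP_prob (μ := μ) hs
  have hf2 : MemLp f 2 μ := by
    obtain ⟨l, hl⟩ := hl
    exact memLp_of_bdd_deriv H.n2 hf hl
  have h1 := total_cov hs hf2 H.b2
  have h2 := H.cov_chan_sq hf hl hL
  have h3 := H.cov_mean_sq hf hl
  have h4 := H.G_le
  have hG := variance_nonneg (cexp (1 / (32 * P)) μ b) (chP (1 / (32 * P)) μ)
  have hD : 0 ≤ ∫ x, ‖fderiv ℝ f x‖ ^ 2 ∂μ := integral_nonneg fun x => sq_nonneg _
  rw [h1]
  set G := Var[cexp (1 / (32 * P)) μ b; chP (1 / (32 * P)) μ] with hGdef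
  set Hh := ∫ x, c x ∂μ - Var[b; μ] with hHh
  set D := ∫ x, ‖fderiv ℝ f x‖ ^ 2 ∂μ with hDdef
  set X1 := ∫ a, cov[f, b; chan (1 / (32 * P)) μ a] ∂(chP (1 / (32 * P)) μ) with hX1
  set X2 := cov[cexp (1 / (32 * P)) μ f, cexp (1 / (32 * P)) μ b;
    chP (1 / (32 * P)) μ] with hX2
  have hPD : 0 ≤ P * D := mul_nonneg hP.le hD
  have hH0 : 0 ≤ Hh := by linarith
  have h5 : X1 ^ 2 ≤ 248 / 11 * (Hh * (P * D)) := by
    refine h2.trans ?_
    have h6 : (Hh + G) * (16 * P * D) ≤ (31 / 22 * Hh) * (16 * P * D) :=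
      mul_le_mul_of_nonneg_right (by linarith) (by linarith)
    refine h6.trans (le_of_eq ?_)
    ring
  have h6 : X2 ^ 2 ≤ 9 / 22 * (Hh * (P * D)) := by
    refine h3.trans ?_
    have h7 : P * D * G ≤ P * D * (9 / 22 * Hh) := mul_le_mul_of_nonneg_left (by linarith) hPD
    linarith
  have h7 : (X1 + X2) ^ 2 ≤ 5 / 4 * X1 ^ 2 + 5 * X2 ^ 2 := by
    nlinarith [sq_nonneg (X1 / 2 - 2 * X2)]
  have h8 : 0 ≤ Hh * (P * D) := mul_nonneg hH0 hPD
  have h9 : 36 * P * Hh * D = 36 * (Hh * (P * D)) := by ring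
  rw [h9]
  linarith

end Pool.Agent.Lib.MP_6d896a_gt.FP
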