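import Mathlib
import Pool.Agent.Lib.MP_6d896a_gt.FP.BLcore
import Pool.Agent.Lib.MP_6d896a_gt.FP.KeyAbs
import Pool.Agent.Lib.MP_6d896a_gt.FP.FibCalc
import Pool.Agent.Lib.MP_6d896a_gt.FP.Whiten

/-!
The key covariance inequality on the fibres.
-/

set_option autoImplicit false

namespace Pool.Agent.Lib.MP_6d896a_gt.FP

open MeasureTheory ProbabilityTheory Set Filter
open scoped ENNReal Topology

section taylor

variable {G : Type*} [NormedAddCommGroup G] [NormedSpace ℝ G]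

/-- second order Taylor bound for a nice potential -/
lemma Nice.taylor {φ : G → ℝ} (h : Nice φ) (w : G) :
    ∃ C : ℝ, 0 ≤ C ∧ ∀ (s : ℝ), 0 ≤ s → ∀ p,
      φ (p + s • w) ≤ φ p + s * fderiv ℝ φ p w + s ^ 2 / 2 * fderiv ℝ (fderiv ℝ φ) p w w
        + C * s ^ 3 := by
  obtain ⟨L, hL⟩ := h.lip
  have hL0 : 0 ≤ |L| := abs_nonneg L
  refine ⟨|L| * ‖w‖ ^ 3, by positivity, fun s hs p => ?_⟩
  -- first and second derivative along the line
  have d1 : ∀ t : ℝ, HasDerivAt (fun t : ℝ => φ (p + t • w)) (fderiv ℝ φ (p + t • w) w) t := by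
    intro t
    have h1 : HasDerivAt (fun t : ℝ => p + t • w) w t := by
      simpa using ((hasDerivAt_id t).smul_const w).const_add p
    exact ((h.cd.differentiable (by norm_num) (p + t • w)).hasFDerivAt).comp_hasDerivAt t h1
  have d2 : ∀ t : ℝ, HasDerivAt (fun t : ℝ => fderiv ℝ φ (p + t • w) w)
      (fderiv ℝ (fderiv ℝ φ) (p + t • w) w w) t := by
    intro t
    have h1 : HasDerivAt (fun t : ℝ => p + t • w) w t := by
      simpa using ((hasDerivAt_id t).smul_const w).const_add p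
    have h2 := ((h.contDiff_fderiv.differentiable (by norm_num) (p + t • w)).hasFDerivAt).comp_hasDerivAt t h1
    have h3 := h2.clm_apply (hasDerivAt_const t w)
    simpa using h3
  have hcmp : ∀ t : ℝ, 0 ≤ t → fderiv ℝ (fderiv ℝ φ) (p + t • w) w w ≤
      fderiv ℝ (fderiv ℝ φ) p w w + |L| * ‖w‖ ^ 3 * t := by
    intro t ht
    have h1 : ‖fderiv ℝ (fderiv ℝ φ) (p + t • w) - fderiv ℝ (fderiv ℝ φ) p‖ ≤ |L| * (t * ‖w‖) := by
      refine (hL _ _).trans ?_
      have e : p + t • w - p = t • w := by abel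
      rw [e, norm_smul, Real.norm_of_nonneg ht]
      gcongr
      exact le_abs_self L
    have h2 : (fderiv ℝ (fderiv ℝ φ) (p + t • w) - fderiv ℝ (fderiv ℝ φ) p) w w ≤
        |L| * (t * ‖w‖) * ‖w‖ * ‖w‖ := by
      refine (le_abs_self _).trans ?_
      rw [← Real.norm_eq_abs]
      refine (ContinuousLinearMap.le_opNorm _ _).trans ?_
      gcongr
      refine (ContinuousLinearMap.le_opNorm _ _).trans ?_
      gcongr
    have h3 : (fderiv ℝ (fderiv ℝ φ) (p + t • w) - fderiv ℝ (fderiv ℝ φ) p) w w =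
        fderiv ℝ (fderiv ℝ φ) (p + t • w) w w - fderiv ℝ (fderiv ℝ φ) p w w := by
      simp
    rw [h3] at h2
    nlinarith [h2]
  -- g1 t := derivative bound
  have hg1 : ∀ t : ℝ, 0 ≤ t → fderiv ℝ φ (p + t • w) w ≤ fderiv ℝ φ p w +
      t * fderiv ℝ (fderiv ℝ φ) p w w + |L| * ‖w‖ ^ 3 * t ^ 2 / 2 := by
    intro t ht
    have hanti : AntitoneOn (fun t : ℝ => fderiv ℝ φ (p + t • w) w -
        (fderiv ℝ φ p w + t * fderiv ℝ (fderiv ℝ φ) p w w + |L| * ‖w‖ ^ 3 * t ^ 2 / 2)) (Ici 0) := by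
      apply antitoneOn_of_deriv_nonpos (convex_Ici 0)
      · refine ContinuousOn.sub (fun t _ => (d2 t).continuousAt.continuousWithinAt) ?_
        fun_prop
      · intro t _
        have hd := (d2 t).sub ((((hasDerivAt_const t (fderiv ℝ φ p w)).add
          ((hasDerivAt_id t).mul_const (fderiv ℝ (fderiv ℝ φ) p w w)))).add
          ((((hasDerivAt_id t).pow 2).const_mul (|L| * ‖w‖ ^ 3)).div_const 2))
        exact hd.differentiableAt.differentiableWithinAt
      · intro t ht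
        rw [interior_Ici] at ht
        have hd := (d2 t).sub ((((hasDerivAt_const t (fderiv ℝ φ p w)).add
          ((hasDerivAt_id t).mul_const (fderiv ℝ (fderiv ℝ φ) p w w)))).add
          ((((hasDerivAt_id t).pow 2).const_mul (|L| * ‖w‖ ^ 3)).div_const 2))
        have e := hd.deriv
        have e2 : deriv (fun t : ℝ => fderiv ℝ φ (p + t • w) w -
          (fderiv ℝ φ p w + t * fderiv ℝ (fderiv ℝ φ) p w w + |L| * ‖w‖ ^ 3 * t ^ 2 / 2)) t =
          fderiv ℝ (fderiv ℝ φ) (p + t • w) w w - (fderiv ℝ (fderiv ℝ φ) p w w +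
            |L| * ‖w‖ ^ 3 * t) := by
          refine Eq.trans e ?_
          simp
          ring
        rw [e2]
        have := hcmp t (mem_Ioi.1 ht).le
        linarith
    have := hanti (mem_Ici.2 le_rfl) (mem_Ici.2 ht) ht
    simp at this
    linarith
  have hanti : AntitoneOn (fun t : ℝ => φ (p + t • w) -
      (φ p + t * fderiv ℝ φ p w + t ^ 2 / 2 * fderiv ℝ (fderiv ℝ φ) p w w
        + |L| * ‖w‖ ^ 3 * t ^ 3 / 6)) (Ici 0) := by
    have hd : ∀ t, HasDerivAt (fun t : ℝ => φ (p + t • w) -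
      (φ p + t * fderiv ℝ φ p w + t ^ 2 / 2 * fderiv ℝ (fderiv ℝ φ) p w w
        + |L| * ‖w‖ ^ 3 * t ^ 3 / 6)) (fderiv ℝ φ (p + t • w) w - (fderiv ℝ φ p w +
        t * fderiv ℝ (fderiv ℝ φ) p w w + |L| * ‖w‖ ^ 3 * t ^ 2 / 2)) t := by
      intro t
      have hd := (d1 t).sub ((((hasDerivAt_const t (φ p)).add
          ((hasDerivAt_id t).mul_const (fderiv ℝ φ p w))).add
          ((((hasDerivAt_id t).pow 2).div_const 2).mul_const
            (fderiv ℝ (fderiv ℝ φ) p w w))).add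
          ((((hasDerivAt_id t).pow 3).const_mul (|L| * ‖w‖ ^ 3)).div_const 6))
      refine hd.congr_deriv ?_
      simp
      ring
    apply antitoneOn_of_deriv_nonpos (convex_Ici 0)
    · exact fun t _ => (hd t).continuousAt.continuousWithinAt
    · exact fun t _ => (hd t).differentiableAt.differentiableWithinAt
    · intro t ht
      rw [interior_Ici] at ht
      rw [(hd t).deriv]
      have := hg1 t (mem_Ioi.1 ht).le
      linarith
  have := hanti (mem_Ici.2 le_rfl) (mem_Ici.2 hs) hs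
  simp at this
  have h6 : 0 ≤ |L| * ‖w‖ ^ 3 * s ^ 3 := by positivity
  linarith

end taylor

section gibbsmap

variable {F : Type*} [NormedAddCommGroup F] [NormedSpace ℝ F] [MeasureSpace F]
    [BorelSpace F] [FiniteDimensional ℝ F] [(volume : Measure F).IsAddHaarMeasure]

/-- the image of a Gibbs measure under a linear equivalence has a density with respect to the
image of Lebesgue measure -/
lemma gibbs_map_density {ψ : F → ℝ} (h : Nice ψ) {E : Type*} [NormedAddCommGroup E]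
    [NormedSpace ℝ E] [MeasurableSpace E] [BorelSpace E] (T : E ≃L[ℝ] F) :
    (gibbs ψ).map T.symm = ((volume : Measure F).map T.symm).withDensity
      (fun x => ENNReal.ofReal (Real.exp (-ψ (T x)) / ∫ z, Real.exp (-ψ z))) := by
  have hTm : Measurable (T.symm : F → E) := T.symm.continuous.measurable
  have hm : Measurable fun x : F => ENNReal.ofReal (Real.exp (-ψ x)) :=
    ENNReal.measurable_ofReal.comp (Real.continuous_exp.comp h.continuous.neg).measurable
  have hm2 : Measurable fun x : E =>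
      ENNReal.ofReal (Real.exp (-ψ (T x)) / ∫ z, Real.exp (-ψ z)) :=
    ENNReal.measurable_ofReal.comp (((Real.continuous_exp.comp
      (h.continuous.comp T.continuous).neg).div_const _).measurable)
  have hZ := h.Z_pos
  ext S hS
  rw [Measure.map_apply hTm hS, withDensity_apply _ hS, setLIntegral_map hS hm2 hTm]
  unfold gibbs
  rw [Measure.smul_apply, withDensity_apply _ (hTm hS), smul_eq_mul,
    ← ofReal_integral_eq_lintegral_ofReal h.integrable_exp
      (Eventually.of_forall fun x => (Real.exp_pos _).le),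
    ← lintegral_const_mul' _ _ (ENNReal.inv_ne_top.2 (by simpa using hZ))]
  apply lintegral_congr
  intro x
  rw [ContinuousLinearEquiv.apply_symm_apply, ENNReal.ofReal_div_of_pos hZ, ENNReal.div_eq_inv_mul]

end gibbsmap

section

variable {F : Type*} [NormedAddCommGroup F] [NormedSpace ℝ F] [MeasureSpace F]
    [BorelSpace F] [FiniteDimensional ℝ F] [(volume : Measure F).IsAddHaarMeasure]

omit [MeasureSpace F] [BorelSpace F] [FiniteDimensional ℝ F]
  [(volume : Measure F).IsAddHaarMeasure] in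
/-- joint midpoint convexity in the form used on the fibre -/
lemma fib_mid {φ : ℝ × F → ℝ} (h : Nice φ) (y : ℝ) (v : F) :
    ∃ C : ℝ, ∀ s : ℝ, 0 < s → ∀ x x' : F,
      2 * φ (y, (1 / 2 : ℝ) • (x + x')) ≤ φ (y, x) + φ (y, x') +
        s * (fderiv ℝ φ (y, x) (1, v) - fderiv ℝ φ (y, x') (1, v)) +
        s ^ 2 / 2 * (fderiv ℝ (fderiv ℝ φ) (y, x) (1, v) (1, v) +
          fderiv ℝ (fderiv ℝ φ) (y, x') (1, v) (1, v)) + C * s ^ 3 := by
  obtain ⟨C1, hC1, t1⟩ := h.taylor ((1, v) : ℝ × F)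
  obtain ⟨C2, hC2, t2⟩ := h.taylor (-((1, v) : ℝ × F))
  obtain ⟨κ, hκ, hsc⟩ := h.sc
  refine ⟨C1 + C2, fun s hs x x' => ?_⟩
  have h1 := t1 s hs.le (y, x)
  have h2 := t2 s hs.le (y, x')
  have h3 := hsc ((y, x) + s • ((1, v) : ℝ × F)) ((y, x') + s • (-((1, v) : ℝ × F)))
  have e : (1 / 2 : ℝ) • ((y, x) + s • ((1, v) : ℝ × F) + ((y, x') + s • (-((1, v) : ℝ × F)))) =
      (y, (1 / 2 : ℝ) • (x + x')) := by
    rw [Prod.ext_iff]
    constructor
    · simp only [Prod.smul_fst, Prod.fst_add, Prod.fst_neg, smul_eq_mul]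
      ring
    · simp only [Prod.smul_snd, Prod.snd_add, Prod.snd_neg]
      congr 1
      simp only [smul_neg]
      abel
  rw [e] at h3
  simp only [map_neg, _root_.neg_apply, neg_neg] at h2
  have h4 : 0 ≤ κ * ‖(y, x) + s • ((1, v) : ℝ × F) - ((y, x') + s • (-((1, v) : ℝ × F)))‖ ^ 2 := by
    positivity
  nlinarith [h1, h2, h3, h4]

/-- P3: the key covariance inequality on a fibre -/
theorem key_fib {φ : ℝ × F → ℝ} (h : Nice φ) (y : ℝ) (v : F) {K : ℝ} (hK : 1 ≤ K)
    (hAP : AP (gibbs (fun x => φ (y, x))) K)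
    (hcov : ∀ ℓ : F →L[ℝ] ℝ, cov[fun x => ℓ x, fun x => fderiv ℝ φ (y, x) (1, v);
      gibbs (fun x => φ (y, x))] = 0)
    {f : F → ℝ} (hf : ContDiff ℝ 1 f) (hl : ∃ l : ℝ, ∀ x, ‖fderiv ℝ f x‖ ≤ l)
    (hL : ∃ l : ℝ, ∀ x y, ‖fderiv ℝ f x - fderiv ℝ f y‖ ≤ l * ‖x - y‖) :
    cov[f, fun x => fderiv ℝ φ (y, x) (1, v); gibbs (fun x => φ (y, x))] ^ 2 ≤
      36 * K * (∫ x, fderiv ℝ (fderiv ℝ φ) (y, x) (1, v) (1, v) ∂(gibbs (fun x => φ (y, x))) -
        Var[fun x => fderiv ℝ φ (y, x) (1, v); gibbs (fun x => φ (y, x))]) *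
      ∫ x, Var[fun z => fderiv ℝ f x z; gibbs (fun x => φ (y, x))]
        ∂(gibbs (fun x => φ (y, x))) := by
  have hK0 : 0 < K := by linarith
  have hψ : Nice (fun x : F => φ (y, x)) := h.slice y
  have hprob : IsProbabilityMeasure (gibbs (fun x : F => φ (y, x))) := gibbs_prob hψ
  -- linear functionals
  have hL2 : ∀ ℓ : F →L[ℝ] ℝ, MemLp (fun x => ℓ x) 2 (gibbs (fun x : F => φ (y, x))) := fun ℓ =>
    gibbs_memLp hψ ℓ.continuous.aestronglyMeasurable ‖ℓ‖ fun x => by
      refine (ℓ.le_opNorm x).trans ?_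
      have : 0 ≤ ‖ℓ‖ := norm_nonneg _
      nlinarith [norm_nonneg x]
  obtain ⟨T, hT⟩ := whiten (gibbs (fun x : F => φ (y, x))) hL2 (gibbs_nondeg hψ)
  set μ₀ := gibbs (fun x : F => φ (y, x)) with hμ₀
  have hTm : Measurable (T.symm : F → EuclideanSpace ℝ (Fin (Module.finrank ℝ F))) :=
    T.symm.continuous.measurable
  -- the objects on Euclidean space
  set μ := μ₀.map T.symm with hμ
  set ν := (volume : Measure F).map T.symm with hν
  have hμprob : IsProbabilityMeasure μ := Measure.isProbabilityMeasure_map hTm.aemeasurable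
  have hνPL : PLm ν := (plm_haar (volume : Measure F)).map
    (T.symm : F →ₗ[ℝ] EuclideanSpace ℝ (Fin (Module.finrank ℝ F))) hTm
  have hνfin : ν.IsAddHaarMeasure := T.symm.isAddHaarMeasure_map _
  set b : EuclideanSpace ℝ (Fin (Module.finrank ℝ F)) → ℝ :=
    fun x => fderiv ℝ φ (y, T x) (1, v) with hb
  set c : EuclideanSpace ℝ (Fin (Module.finrank ℝ F)) → ℝ :=
    fun x => fderiv ℝ (fderiv ℝ φ) (y, T x) (1, v) (1, v) with hc
  have cb : Continuous b := ((h.contDiff_fderiv.continuous.comp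
    ((Continuous.prodMk_right y).comp T.continuous)).clm_apply continuous_const)
  have cc : Continuous c := (((h.contDiff_fderiv.continuous_fderiv (by norm_num)).comp
    ((Continuous.prodMk_right y).comp T.continuous)).clm_apply continuous_const).clm_apply
      continuous_const
  have cb' : Continuous (fun x : F => fderiv ℝ φ (y, x) (1, v)) :=
    ((h.contDiff_fderiv.continuous.comp (Continuous.prodMk_right y)).clm_apply continuous_const)
  -- growth bounds
  obtain ⟨B1, hB10, hB1⟩ : ∃ B : ℝ, 0 ≤ B ∧ ∀ x, |b x| ≤ B * (1 + ‖x‖) := by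
    obtain ⟨C, hC, hCb⟩ := h.fderiv_growth
    refine ⟨C * (1 + |y| + ‖(T : EuclideanSpace ℝ (Fin (Module.finrank ℝ F)) →L[ℝ] F)‖) *
      ‖((1, v) : ℝ × F)‖, by positivity, fun x => ?_⟩
    have h1 : ‖T x‖ ≤ ‖(T : EuclideanSpace ℝ (Fin (Module.finrank ℝ F)) →L[ℝ] F)‖ * ‖x‖ :=
      (T : EuclideanSpace ℝ (Fin (Module.finrank ℝ F)) →L[ℝ] F).le_opNorm x
    have h2 : ‖((y, T x) : ℝ × F)‖ ≤ |y| + ‖T x‖ := by
      rw [Prod.norm_def, Real.norm_eq_abs]
      exact max_le (by linarith [norm_nonneg (T x)]) (by linarith [abs_nonneg y])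
    have h3 := hCb (y, T x)
    rw [← Real.norm_eq_abs]
    calc ‖b x‖ ≤ ‖fderiv ℝ φ (y, T x)‖ * ‖((1, v) : ℝ × F)‖ := ContinuousLinearMap.le_opNorm _ _
      _ ≤ (C * (1 + ‖((y, T x) : ℝ × F)‖)) * ‖((1, v) : ℝ × F)‖ := by gcongr
      _ ≤ (C * ((1 + |y| + ‖(T : EuclideanSpace ℝ (Fin (Module.finrank ℝ F)) →L[ℝ] F)‖) *
            (1 + ‖x‖))) * ‖((1, v) : ℝ × F)‖ := by
          gcongr
          nlinarith [norm_nonneg x, abs_nonneg y, mul_nonneg (abs_nonneg y) (norm_nonneg x),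
            norm_nonneg (T : EuclideanSpace ℝ (Fin (Module.finrank ℝ F)) →L[ℝ] F)]
      _ = _ := by ring
  obtain ⟨B2, hB2⟩ : ∃ B : ℝ, ∀ x, |c x| ≤ B := by
    obtain ⟨C, hC⟩ := h.bd
    refine ⟨C * ‖((1, v) : ℝ × F)‖ * ‖((1, v) : ℝ × F)‖, fun x => ?_⟩
    rw [← Real.norm_eq_abs]
    calc ‖c x‖ ≤ ‖fderiv ℝ (fderiv ℝ φ) (y, T x) (1, v)‖ * ‖((1, v) : ℝ × F)‖ :=
          ContinuousLinearMap.le_opNorm _ _
      _ ≤ (‖fderiv ℝ (fderiv ℝ φ) (y, T x)‖ * ‖((1, v) : ℝ × F)‖) * ‖((1, v) : ℝ × F)‖ := by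
        gcongr
        exact ContinuousLinearMap.le_opNorm _ _
      _ ≤ _ := by
        gcongr
        exact hC _
  set B := max B1 B2 with hB
  have hb1 : ∀ x, |b x| ≤ B * (1 + ‖x‖) := fun x => (hB1 x).trans (by
    have := le_max_left B1 B2
    gcongr)
  have hc1 : ∀ x, |c x| ≤ B := fun x => (hB2 x).trans (le_max_right _ _)
  -- second moments
  have h2 : Integrable (fun x => ‖x‖ ^ 2) μ := by
    rw [hμ, integrable_map_measure (by fun_prop) hTm.aemeasurable]
    refine gibbs_integrable hψ ?_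
      (‖(T.symm : F →L[ℝ] EuclideanSpace ℝ (Fin (Module.finrank ℝ F)))‖ ^ 2) 2 fun x => ?_
    · exact ((continuous_norm.comp T.symm.continuous).pow 2).aestronglyMeasurable
    · have h1 : ‖T.symm x‖ ≤
          ‖(T.symm : F →L[ℝ] EuclideanSpace ℝ (Fin (Module.finrank ℝ F)))‖ * ‖x‖ :=
        (T.symm : F →L[ℝ] EuclideanSpace ℝ (Fin (Module.finrank ℝ F))).le_opNorm x
      simp only [Function.comp_apply, norm_pow, norm_norm]
      rw [← mul_pow]
      refine pow_le_pow_left₀ (norm_nonneg _) (h1.trans ?_) 2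
      gcongr
      linarith [norm_nonneg x]
  -- the covariance condition
  have hcov' : ∀ w : EuclideanSpace ℝ (Fin (Module.finrank ℝ F)),
      cov[fun x => inner ℝ w x, b; μ] = 0 := by
    intro w
    rw [hμ, covariance_map_fun (by fun_prop) cb.aestronglyMeasurable hTm.aemeasurable]
    have := hcov ((innerSL ℝ w).comp
      (T.symm : F →L[ℝ] EuclideanSpace ℝ (Fin (Module.finrank ℝ F))))
    simpa [b] using this
  -- the Brascamp-Lieb type inequality for the channel
  have hBL : ∀ g : EuclideanSpace ℝ (Fin (Module.finrank ℝ F)) → ℝ, ContDiff ℝ 1 g →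
      (∃ l : ℝ, ∀ x, ‖fderiv ℝ g x‖ ≤ l) →
      (∃ l : ℝ, ∀ x y, ‖fderiv ℝ g x - fderiv ℝ g y‖ ≤ l * ‖x - y‖) → ∀ a,
      Var[fun x => g x - b x; chan (1 / (32 * K)) μ a] ≤ ∫ x, c x ∂(chan (1 / (32 * K)) μ a) +
        16 * K * ∫ x, ‖fderiv ℝ g x‖ ^ 2 ∂(chan (1 / (32 * K)) μ a) := by
    intro g hg hgl hgL a
    have hs : 0 < 1 / (32 * K) := by positivity
    obtain ⟨C, hC⟩ := fib_mid h y v
    have hZ := hψ.Z_pos
    have key := bl_core (μ := μ) (ν := ν) hνPL
      (W := fun x => Real.exp (-φ (y, T x)) / ∫ z, Real.exp (-φ (y, z)))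
      (((Real.continuous_exp.comp (hψ.continuous.comp T.continuous).neg).div_const _).measurable)
      (fun x => by positivity) (gibbs_map_density hψ T) cb.measurable cc.measurable hb1 hc1
      (C := C) (by
        intro s hs0 hs1 x x'
        set Z := ∫ z, Real.exp (-φ (y, z)) with hZdef
        rw [div_mul_div_comm, ← Real.exp_add, div_mul_eq_mul_div, ← Real.exp_add, div_pow,
          ← Real.exp_nat_mul, ← sq]
        gcongr
        have := hC s hs0 (T x) (T x')
        simp only [map_smul, map_add]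
        simp only [b, c]
        push_cast
        linarith) hg hgl hgL hs a
    have e : 1 / (2 * (1 / (32 * K))) = 16 * K := by
      field_simp
      norm_num
    rwa [e] at key
  -- the test function
  have hT' : ∀ x, HasFDerivAt (T : EuclideanSpace ℝ (Fin (Module.finrank ℝ F)) → F)
      (T : EuclideanSpace ℝ (Fin (Module.finrank ℝ F)) →L[ℝ] F) x := fun x => T.hasFDerivAt
  have hfd : ∀ x, fderiv ℝ (fun x => f (T x)) x = (fderiv ℝ f (T x)).comp
      (T : EuclideanSpace ℝ (Fin (Module.finrank ℝ F)) →L[ℝ] F) := fun x =>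
    ((hf.differentiable (by norm_num) (T x)).hasFDerivAt.comp x (hT' x)).fderiv
  have key := key_abs (μ := μ) (b := b) (c := c) cb.measurable cc.measurable hb1 hc1 h2 hK0
    (fun g hg hgl => poinc_of_ap T hT hAP g hg hgl) hcov' hBL
    (f := fun x => f (T x)) (hf.comp T.contDiff)
    (by
      obtain ⟨l, hl⟩ := hl
      refine ⟨l * ‖(T : EuclideanSpace ℝ (Fin (Module.finrank ℝ F)) →L[ℝ] F)‖, fun x => ?_⟩
      rw [hfd]
      exact (ContinuousLinearMap.opNorm_comp_le _ _).trans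
        (mul_le_mul_of_nonneg_right (hl _) (norm_nonneg _)))
    (by
      obtain ⟨l, hl⟩ := hL
      refine ⟨|l| * ‖(T : EuclideanSpace ℝ (Fin (Module.finrank ℝ F)) →L[ℝ] F)‖ *
        ‖(T : EuclideanSpace ℝ (Fin (Module.finrank ℝ F)) →L[ℝ] F)‖, fun x x' => ?_⟩
      rw [hfd, hfd, ← ContinuousLinearMap.sub_comp]
      refine (ContinuousLinearMap.opNorm_comp_le _ _).trans ?_
      have h1 := hl (T x) (T x')
      have h3 : ‖T x - T x'‖ ≤ ‖(T : EuclideanSpace ℝ (Fin (Module.finrank ℝ F)) →L[ℝ] F)‖ *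
          ‖x - x'‖ := by
        rw [← map_sub]
        exact (T : EuclideanSpace ℝ (Fin (Module.finrank ℝ F)) →L[ℝ] F).le_opNorm _
      have h4 : ‖fderiv ℝ f (T x) - fderiv ℝ f (T x')‖ ≤ |l| *
          (‖(T : EuclideanSpace ℝ (Fin (Module.finrank ℝ F)) →L[ℝ] F)‖ * ‖x - x'‖) := by
        refine h1.trans ((mul_le_mul_of_nonneg_right (le_abs_self l) (norm_nonneg _)).trans ?_)
        gcongr
      calc _ ≤ (|l| * (‖(T : EuclideanSpace ℝ (Fin (Module.finrank ℝ F)) →L[ℝ] F)‖ * ‖x - x'‖)) *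
            ‖(T : EuclideanSpace ℝ (Fin (Module.finrank ℝ F)) →L[ℝ] F)‖ := by gcongr
        _ = _ := by ring)
  -- translate back
  have e1 : cov[fun x => f (T x), b; μ] = cov[f, fun x => fderiv ℝ φ (y, x) (1, v); μ₀] := by
    have hfT : AEStronglyMeasurable (fun x => f (T x)) (μ₀.map T.symm) :=
      (hf.continuous.comp T.continuous).aestronglyMeasurable
    rw [hμ, covariance_map_fun hfT cb.aestronglyMeasurable hTm.aemeasurable]
    simp [b]
  have e2 : ∫ x, c x ∂μ = ∫ x, fderiv ℝ (fderiv ℝ φ) (y, x) (1, v) (1, v) ∂μ₀ := by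
    rw [hμ, integral_map hTm.aemeasurable cc.aestronglyMeasurable]
    simp [c]
  have e3 : Var[b; μ] = Var[fun x => fderiv ℝ φ (y, x) (1, v); μ₀] := by
    rw [hμ, variance_map cb.measurable.aemeasurable hTm.aemeasurable]
    congr 1
    funext x
    simp [b]
  have e4 : ∫ x, ‖fderiv ℝ (fun x => f (T x)) x‖ ^ 2 ∂μ =
      ∫ x, Var[fun z => fderiv ℝ f x z; μ₀] ∂μ₀ := by
    have hsm : AEStronglyMeasurable (fun x => ‖fderiv ℝ (fun y => f (T y)) x‖ ^ 2)
        (μ₀.map T.symm) :=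
      ((((hf.comp T.contDiff).continuous_fderiv (by norm_num)).norm.pow 2)).aestronglyMeasurable
    rw [hμ, integral_map hTm.aemeasurable hsm]
    refine integral_congr_ae (Eventually.of_forall fun x => ?_)
    simp only
    rw [hfd, hT]
    simp
  rw [e1, e2, e3, e4] at key
  exact key

end

end Pool.Agent.Lib.MP_6d896a_gt.FP
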