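import Mathlib
import Pool.Agent.Lib.MP_6d896a_gt.FP.OneDim

/-!
The one-dimensional inequality `bl1` on a compact interval.
-/

set_option autoImplicit false

namespace Pool.Agent.Lib.MP_6d896a_gt.FP

open MeasureTheory ProbabilityTheory Set Filter
open scoped ENNReal Topology

/-- Cauchy-Schwarz for interval integrals in quadratic form version -/
theorem bl1J_cs {V2 G1 R : ℝ → ℝ} (hV2c : Continuous V2) (hG1 : Continuous G1)
    (hR : Continuous R) (hV2 : ∀ y, 0 ≤ V2 y) (hR0 : ∀ y, 0 ≤ R y) {a b : ℝ} (hab : a ≤ b)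
    (hle : ∀ y ∈ Icc a b, G1 y ^ 2 ≤ V2 y * R y) :
    (∫ y in a..b, G1 y) ^ 2 ≤ (∫ y in a..b, V2 y) * ∫ y in a..b, R y := by
  have key : ∀ x : ℝ, 0 ≤ (∫ y in a..b, V2 y) * (x * x) + (2 * ∫ y in a..b, G1 y) * x +
      ∫ y in a..b, R y := by
    intro x
    have e : (∫ y in a..b, V2 y) * (x * x) + (2 * ∫ y in a..b, G1 y) * x +
        ∫ y in a..b, R y = ∫ y in a..b, (V2 y * (x * x) + (2 * G1 y) * x + R y) := by
      rw [intervalIntegral.integral_add, intervalIntegral.integral_add,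
        intervalIntegral.integral_mul_const, intervalIntegral.integral_mul_const,
        intervalIntegral.integral_const_mul]
      · exact (by fun_prop : Continuous fun y => V2 y * (x * x)).intervalIntegrable _ _
      · exact (by fun_prop : Continuous fun y => (2 * G1 y) * x).intervalIntegrable _ _
      · exact (by fun_prop : Continuous fun y => V2 y * (x * x) + (2 * G1 y) * x).intervalIntegrable
          _ _
      · exact hR.intervalIntegrable _ _
    rw [e]
    refine intervalIntegral.integral_nonneg hab fun y hy => ?_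
    have h1 := hle y hy
    have h2 := hV2 y
    have h3 := hR0 y
    rcases h2.eq_or_lt with h | h
    · have : G1 y ^ 2 ≤ 0 := by rw [← h, zero_mul] at h1; exact h1
      have : G1 y = 0 := by
        have := le_antisymm this (sq_nonneg _)
        simpa using this
      rw [this, ← h]; simpa using h3
    · have h4 : 0 ≤ V2 y * (V2 y * (x * x) + (2 * G1 y) * x + R y) := by
        nlinarith [sq_nonneg (V2 y * x + G1 y)]
      exact nonneg_of_mul_nonneg_right h4 h
  have := discrim_le_zero key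
  rw [discrim] at this
  nlinarith

theorem bl1J_right {V V1 V2 G G1 R : ℝ → ℝ} {y₁ : ℝ}
    (hV : ∀ y, HasDerivAt V (V1 y) y) (hV1 : ∀ y, HasDerivAt V1 (V2 y) y)
    (hV2c : Continuous V2) (hV2 : ∀ y, 0 ≤ V2 y) (h0 : 0 ≤ V1 y₁)
    (hG : ∀ y, HasDerivAt G (G1 y) y) (hG1 : Continuous G1)
    (hR : Continuous R) (hR0 : ∀ y, 0 ≤ R y) {Y : ℝ} (hY : y₁ ≤ Y)
    (hle : ∀ y ∈ Icc y₁ Y, G1 y ^ 2 ≤ V2 y * R y) :
    ∫ y in y₁..Y, (G y - G y₁) ^ 2 * Real.exp (-V y) ≤
      ∫ y in y₁..Y, R y * Real.exp (-V y) := by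
  have cV : Continuous V := continuous_iff_continuousAt.2 fun y => (hV y).continuousAt
  have cV1 : Continuous V1 := continuous_iff_continuousAt.2 fun y => (hV1 y).continuousAt
  have cG : Continuous G := continuous_iff_continuousAt.2 fun y => (hG y).continuousAt
  set F : ℝ → ℝ := fun y => ∫ t in y₁..y, R t with hF
  have hFd : ∀ y, HasDerivAt F (R y) y := fun y =>
    intervalIntegral.integral_hasDerivAt_right (hR.intervalIntegrable _ _)
      (hR.stronglyMeasurableAtFilter _ _) hR.continuousAt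
  have cF : Continuous F := continuous_iff_continuousAt.2 fun y => (hFd y).continuousAt
  have hCS : ∀ y ∈ Icc y₁ Y, (G y - G y₁) ^ 2 ≤ V1 y * F y := by
    intro y hy
    have h1 := bl1J_cs hV2c hG1 hR hV2 hR0 hy.1 (fun z hz => hle z ⟨hz.1, hz.2.trans hy.2⟩)
    rw [intervalIntegral.integral_eq_sub_of_hasDerivAt (fun t _ => hG t)
      (hG1.intervalIntegrable _ _), intervalIntegral.integral_eq_sub_of_hasDerivAt
      (fun t _ => hV1 t) (hV2c.intervalIntegrable _ _)] at h1
    have h2 : 0 ≤ F y := intervalIntegral.integral_nonneg hy.1 fun z _ => hR0 z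
    exact h1.trans (mul_le_mul_of_nonneg_right (by linarith) h2)
  have step1 : ∫ y in y₁..Y, (G y - G y₁) ^ 2 * Real.exp (-V y) ≤
      ∫ y in y₁..Y, V1 y * F y * Real.exp (-V y) := by
    refine intervalIntegral.integral_mono_on hY ?_ ?_ fun y hy => ?_
    · exact (by fun_prop : Continuous fun y => (G y - G y₁) ^ 2 *
        Real.exp (-V y)).intervalIntegrable _ _
    · exact (by fun_prop : Continuous fun y => V1 y * F y *
        Real.exp (-V y)).intervalIntegrable _ _
    · exact mul_le_mul_of_nonneg_right (hCS y hy) (Real.exp_pos _).le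
  have step2 : ∫ y in y₁..Y, (V1 y * F y * Real.exp (-V y) - R y * Real.exp (-V y)) =
      -(F Y * Real.exp (-V Y)) := by
    have hd : ∀ y, HasDerivAt (fun y => -(F y * Real.exp (-V y)))
        (V1 y * F y * Real.exp (-V y) - R y * Real.exp (-V y)) y := by
      intro y
      have h1 : HasDerivAt (fun y => Real.exp (-V y)) (Real.exp (-V y) * (-V1 y)) y :=
        (hV y).neg.exp
      have h2 := ((hFd y).mul h1).neg
      exact h2.congr_deriv (by ring)
    rw [intervalIntegral.integral_eq_sub_of_hasDerivAt (fun t _ => hd t)]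
    · simp [hF]
    · exact (by fun_prop : Continuous fun y => V1 y * F y * Real.exp (-V y) -
        R y * Real.exp (-V y)).intervalIntegrable _ _
  rw [intervalIntegral.integral_sub] at step2
  · have : 0 ≤ F Y * Real.exp (-V Y) :=
      mul_nonneg (intervalIntegral.integral_nonneg hY fun y _ => hR0 y) (Real.exp_pos _).le
    linarith
  · exact (by fun_prop : Continuous fun y => V1 y * F y * Real.exp (-V y)).intervalIntegrable _ _
  · exact (by fun_prop : Continuous fun y => R y * Real.exp (-V y)).intervalIntegrable _ _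

theorem bl1J_half {V V1 V2 G G1 R : ℝ → ℝ} {y₁ β : ℝ} (hy : y₁ ≤ β)
    (hV : ∀ y, HasDerivAt V (V1 y) y) (hV1 : ∀ y, HasDerivAt V1 (V2 y) y)
    (hV2c : Continuous V2) (hV2 : ∀ y, 0 ≤ V2 y) (h0 : y₁ < β → 0 ≤ V1 y₁)
    (hG : ∀ y, HasDerivAt G (G1 y) y) (hG1 : Continuous G1)
    (hR : Continuous R) (hR0 : ∀ y, 0 ≤ R y) (hle : ∀ y ∈ Icc y₁ β, G1 y ^ 2 ≤ V2 y * R y) :
    ∫⁻ y in Ioc y₁ β, ENNReal.ofReal ((G y - G y₁) ^ 2 * Real.exp (-V y)) ≤
      ∫⁻ y in Ioc y₁ β, ENNReal.ofReal (R y * Real.exp (-V y)) := by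
  rcases hy.eq_or_lt with h | h
  · rw [h]; simp
  have cV : Continuous V := continuous_iff_continuousAt.2 fun y => (hV y).continuousAt
  have cG : Continuous G := continuous_iff_continuousAt.2 fun y => (hG y).continuousAt
  have hform : ∀ {k : ℝ → ℝ}, Continuous k → (∀ y, 0 ≤ k y) →
      ∫⁻ y in Ioc y₁ β, ENNReal.ofReal (k y) = ENNReal.ofReal (∫ y in y₁..β, k y) := by
    intro k hk hk0
    rw [intervalIntegral.integral_of_le hy, ofReal_integral_eq_lintegral_ofReal]
    · exact (hk.intervalIntegrable y₁ β).1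
    · exact Eventually.of_forall hk0
  rw [hform (by fun_prop) (fun y => by positivity), hform (by fun_prop)
    (fun y => mul_nonneg (hR0 y) (Real.exp_pos _).le)]
  exact ENNReal.ofReal_le_ofReal
    (bl1J_right hV hV1 hV2c hV2 (h0 h) hG hG1 hR hR0 hy hle)

/-- P5a: bl1 on a compact interval -/
theorem bl1J {V V1 V2 G G1 R : ℝ → ℝ} {α β y₁ : ℝ} (hy : y₁ ∈ Icc α β)
    (hV : ∀ y, HasDerivAt V (V1 y) y) (hV1 : ∀ y, HasDerivAt V1 (V2 y) y)
    (hV2c : Continuous V2) (hV2 : ∀ y, 0 ≤ V2 y)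
    (hr : y₁ < β → 0 ≤ V1 y₁) (hl : α < y₁ → V1 y₁ ≤ 0)
    (hG : ∀ y, HasDerivAt G (G1 y) y) (hG1 : Continuous G1)
    (hR : Continuous R) (hR0 : ∀ y, 0 ≤ R y) (hle : ∀ y ∈ Icc α β, G1 y ^ 2 ≤ V2 y * R y) :
    ∫⁻ y in Icc α β, ENNReal.ofReal ((G y - G y₁) ^ 2 * Real.exp (-V y)) ≤
      ∫⁻ y in Icc α β, ENNReal.ofReal (R y * Real.exp (-V y)) := by
  have hright := bl1J_half hy.2 hV hV1 hV2c hV2 hr hG hG1 hR hR0
    (fun y hy' => hle y ⟨hy.1.trans hy'.1, hy'.2⟩)
  have dneg : ∀ y : ℝ, HasDerivAt (fun z : ℝ => -z) (-1) y := fun y => (hasDerivAt_id y).neg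
  have hleft : ∫⁻ y in Ioc (-y₁) (-α), ENNReal.ofReal ((G (-y) - G (-(-y₁))) ^ 2 *
      Real.exp (-V (-y))) ≤
      ∫⁻ y in Ioc (-y₁) (-α), ENNReal.ofReal (R (-y) * Real.exp (-V (-y))) := by
    refine bl1J_half (V := fun y => V (-y)) (V1 := fun y => -V1 (-y)) (V2 := fun y => V2 (-y))
      (G := fun y => G (-y)) (G1 := fun y => -G1 (-y)) (R := fun y => R (-y)) (y₁ := -y₁)
      (neg_le_neg hy.1) ?_ ?_ ?_ ?_ ?_ ?_ ?_ ?_ ?_ ?_
    · intro y
      have := (hV (-y)).comp y (dneg y)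
      simpa [Function.comp_def] using this
    · intro y
      have := ((hV1 (-y)).comp y (dneg y)).neg
      exact this.congr_deriv (by simp)
    · fun_prop
    · exact fun y => hV2 (-y)
    · intro h
      have := hl (neg_lt_neg_iff.1 h)
      simp only [neg_neg]
      linarith
    · intro y
      have := (hG (-y)).comp y (dneg y)
      simpa [Function.comp_def] using this
    · fun_prop
    · fun_prop
    · exact fun y => hR0 (-y)
    · intro y hy'
      have := hle (-y) ⟨le_neg_of_le_neg hy'.2, (neg_le_of_neg_le hy'.1).trans hy.2⟩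
      simpa using this
  rw [neg_neg] at hleft
  have hrefl : ∀ k : ℝ → ℝ≥0∞, ∫⁻ y in Ioc (-y₁) (-α), k (-y) = ∫⁻ y in Ico α y₁, k y := by
    intro k
    have h1 := (Measure.measurePreserving_neg (volume : Measure ℝ)).setLIntegral_comp_preimage_emb
      (MeasurableEquiv.neg ℝ).measurableEmbedding k (Ico α y₁)
    rw [← h1]
    have h2 : Neg.neg ⁻¹' Ico α y₁ = Ioc (-y₁) (-α) := by
      ext x
      simp only [mem_preimage, mem_Ico, mem_Ioc]
      constructor
      · rintro ⟨h, h'⟩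
        exact ⟨by linarith, by linarith⟩
      · rintro ⟨h, h'⟩
        exact ⟨by linarith, by linarith⟩
    rw [h2]
  rw [hrefl (fun y => ENNReal.ofReal ((G y - G y₁) ^ 2 * Real.exp (-V y))),
    hrefl (fun y => ENNReal.ofReal (R y * Real.exp (-V y)))] at hleft
  have hsplit : ∀ k : ℝ → ℝ≥0∞, ∫⁻ y in Icc α β, k y =
      (∫⁻ y in Ico α y₁, k y) + ∫⁻ y in Ioc y₁ β, k y := by
    intro k
    have h1 : Icc α β = Ico α y₁ ∪ Icc y₁ β := (Ico_union_Icc_eq_Icc hy.1 hy.2).symm
    rw [h1, lintegral_union measurableSet_Icc, setLIntegral_congr (Ioc_ae_eq_Icc (a := y₁) (b := β))]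
    rw [Set.disjoint_left]
    intro x hx hx'
    exact absurd hx.2 (not_lt.2 hx'.1)
  rw [hsplit, hsplit]
  exact add_le_add hleft hright

end Pool.Agent.Lib.MP_6d896a_gt.FP
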