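import Mathlib
import Pool.Agent.Lib.MP_6d896a_gt.FP.FibCalc
import Pool.Agent.Lib.MP_6d896a_gt.FP.OneDim
import Pool.Agent.Lib.MP_6d896a_gt.FP.FibLin

/-!
Piece P5 of the fibre principle: bounded functions whose derivatives have variance at most one
have variance at most `C * K` when the fibres satisfy the affine invariant Poincare inequality
with constant `K`.  The covariance estimate on the fibres (`key_fib`) is a hypothesis here.
-/

set_option autoImplicit false

namespace Pool.Agent.Lib.MP_6d896a_gt.FP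

open MeasureTheory ProbabilityTheory Set Filter
open scoped ENNReal Topology

/-! ### general facts -/

section general

lemma lv_var_le {Ω : Type*} [MeasurableSpace Ω] {μ : Measure Ω} [IsProbabilityMeasure μ]
    {X : Ω → ℝ} (hX : MemLp X 2 μ) (c : ℝ) : Var[X; μ] ≤ ∫ ω, (X ω - c) ^ 2 ∂μ := by
  have h1 : Var[fun ω => X ω - c; μ] = Var[X; μ] := variance_sub_const hX.1 c
  rw [← h1]
  have h2 := variance_le_expectation_sq (μ := μ) (X := fun ω => X ω - c)
    (hX.1.sub aestronglyMeasurable_const)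
  simpa using h2

lemma lv_mean_sq {Ω : Type*} [MeasurableSpace Ω] {μ : Measure Ω} [IsProbabilityMeasure μ]
    {X : Ω → ℝ} (hX : MemLp X 2 μ) (c : ℝ) : (∫ ω, X ω ∂μ - c) ^ 2 ≤ ∫ ω, (X ω - c) ^ 2 ∂μ := by
  have h0 : MemLp (fun ω => X ω - c) 2 μ := hX.sub (memLp_const c)
  have h1 := variance_eq_sub h0
  have h2 := variance_nonneg (fun ω => X ω - c) μ
  have h3 : ∫ ω, (X ω - c) ∂μ = ∫ ω, X ω ∂μ - c := by
    rw [integral_sub (hX.integrable (by norm_num)) (integrable_const c)]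
    simp
  rw [h3] at h1
  simp only [Pi.pow_apply] at h1
  linarith

variable {E : Type*} [NormedAddCommGroup E] [NormedSpace ℝ E] [MeasureSpace E]
    [BorelSpace E] [FiniteDimensional ℝ E] [(volume : Measure E).IsAddHaarMeasure]

omit [FiniteDimensional ℝ E] [(volume : Measure E).IsAddHaarMeasure] in
lemma lv_exp_meas {ψ : E → ℝ} (h : Nice ψ) :
    Measurable fun x : E => ENNReal.ofReal (Real.exp (-ψ x)) :=
  ENNReal.measurable_ofReal.comp (Real.continuous_exp.comp h.continuous.neg).measurable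

omit [FiniteDimensional ℝ E] [(volume : Measure E).IsAddHaarMeasure] in
lemma lv_gibbs_lintegral {ψ : E → ℝ} (h : Nice ψ) {g : E → ℝ≥0∞} (hg : Measurable g) :
    ∫⁻ x, g x ∂(gibbs ψ) = (∫⁻ x, ENNReal.ofReal (Real.exp (-ψ x)))⁻¹ *
      ∫⁻ x, ENNReal.ofReal (Real.exp (-ψ x)) * g x := by
  unfold gibbs
  rw [lintegral_smul_measure, lintegral_withDensity_eq_lintegral_mul _ (lv_exp_meas h) hg]
  rfl

omit [NormedSpace ℝ E] [FiniteDimensional ℝ E] [(volume : Measure E).IsAddHaarMeasure] in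
lemma lv_haar [NormedSpace ℝ E] [FiniteDimensional ℝ E] [(volume : Measure E).IsAddHaarMeasure] :
    (volume : Measure (ℝ × E)).IsAddHaarMeasure :=
  Measure.prod.instIsAddHaarMeasure volume volume

/-- disintegration of a Gibbs measure on `ℝ × E` -/
lemma lv_disint {φ : ℝ × E → ℝ} (h : Nice φ) {V W : ℝ → ℝ} {Z : ℝ} (hZ : 0 < Z)
    (hV : ∀ y, ∫ x, Real.exp (-φ (y, x)) = Real.exp (-V y))
    (hint : Integrable (fun y => Real.exp (-V y))) (hZV : ∫ y, Real.exp (-V y) = Z)
    (hW : ∀ y, Real.exp (-W y) = Z⁻¹ * Real.exp (-V y))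
    {g : ℝ × E → ℝ≥0∞} (hg : Measurable g) :
    ∫⁻ p, g p ∂(gibbs φ) =
      ∫⁻ y, ENNReal.ofReal (Real.exp (-W y)) * ∫⁻ x, g (y, x) ∂(gibbs (fun x => φ (y, x))) := by
  have := lv_haar (E := E)
  have hVl : ∀ y, ∫⁻ x, ENNReal.ofReal (Real.exp (-φ (y, x))) =
      ENNReal.ofReal (Real.exp (-V y)) := by
    intro y
    rw [← hV y, ofReal_integral_eq_lintegral_ofReal (h.slice y).integrable_exp
      (Eventually.of_forall fun x => (Real.exp_pos _).le)]
  have hm := lv_exp_meas h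
  have hZl : ∫⁻ p, ENNReal.ofReal (Real.exp (-φ p)) = ENNReal.ofReal Z := by
    have e1 : ∫⁻ p, ENNReal.ofReal (Real.exp (-φ p)) =
        ∫⁻ y, ∫⁻ x, ENNReal.ofReal (Real.exp (-φ (y, x))) :=
      lintegral_prod _ hm.aemeasurable
    rw [e1]
    simp_rw [hVl]
    rw [← hZV, ofReal_integral_eq_lintegral_ofReal hint
      (Eventually.of_forall fun x => (Real.exp_pos _).le)]
  rw [lv_gibbs_lintegral h hg, hZl]
  have e2 : ∫⁻ p, ENNReal.ofReal (Real.exp (-φ p)) * g p =
      ∫⁻ y, ∫⁻ x, ENNReal.ofReal (Real.exp (-φ (y, x))) * g (y, x) :=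
    lintegral_prod _ (hm.mul hg).aemeasurable
  have e3 : ∀ y, ∫⁻ x, ENNReal.ofReal (Real.exp (-φ (y, x))) * g (y, x) =
      ENNReal.ofReal (Real.exp (-V y)) * ∫⁻ x, g (y, x) ∂(gibbs (fun x => φ (y, x))) := by
    intro y
    rw [lv_gibbs_lintegral (h.slice y) (g := fun x => g (y, x))
      (hg.comp measurable_prodMk_left), hVl y, ← mul_assoc,
      ENNReal.mul_inv_cancel, one_mul]
    · simp [Real.exp_pos]
    · exact ENNReal.ofReal_ne_top
  rw [e2]
  simp_rw [e3]
  rw [← lintegral_const_mul']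
  · congr 1
    ext1 y
    rw [hW y, ENNReal.ofReal_mul (inv_nonneg.2 hZ.le), ENNReal.ofReal_inv_of_pos hZ, mul_assoc]
  · rw [Ne, ENNReal.inv_eq_top]
    simp [hZ]


/-- continuous functions of linear growth along a slice -/
lemma lv_memLp {ψ : E → ℝ} (h : Nice ψ) (ℓ : E →L[ℝ] ℝ) (c : ℝ) :
    MemLp (fun x => ℓ x + c) 2 (gibbs ψ) := by
  refine gibbs_memLp h (ℓ.continuous.add continuous_const).aestronglyMeasurable (‖ℓ‖ + ‖c‖)
    fun x => ?_
  calc ‖ℓ x + c‖ ≤ ‖ℓ x‖ + ‖c‖ := norm_add_le _ _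
    _ ≤ ‖ℓ‖ * ‖x‖ + ‖c‖ := by gcongr; exact ℓ.le_opNorm x
    _ ≤ (‖ℓ‖ + ‖c‖) * (1 + ‖x‖) := by
      nlinarith [norm_nonneg ℓ, norm_nonneg c, norm_nonneg x,
        mul_nonneg (norm_nonneg c) (norm_nonneg x)]

/-- the two consequences of the bound on the second moment of a linear functional on a fibre -/
lemma lv_lin {φ : ℝ × E → ℝ} (h : Nice φ) (ℓ : ℝ × E →L[ℝ] ℝ) (y : ℝ) (c A : ℝ) {m : E}
    (hm : ∀ ℓ : E →L[ℝ] ℝ, ∫ x, ℓ x ∂(gibbs (fun x => φ (y, x))) = ℓ m)
    (hA : ∫ x, (ℓ (y, x) - c) ^ 2 ∂(gibbs (fun x => φ (y, x))) ≤ A) :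
    (ℓ (y, m) - c) ^ 2 ≤ A ∧
      Var[fun x => ℓ (0, x); gibbs (fun x => φ (y, x))] ≤ A := by
  have hp := gibbs_prob (h.slice y)
  set L : E →L[ℝ] ℝ := ℓ.comp (ContinuousLinearMap.inr ℝ ℝ E) with hL
  have e0 : (fun x => ℓ (y, x)) = fun x => L x + ℓ (y, 0) := by
    ext1 x
    rw [hL]
    simp only [ContinuousLinearMap.comp_apply, ContinuousLinearMap.inr_apply]
    rw [← map_add]
    simp
  have hX : MemLp (fun x => ℓ (y, x)) 2 (gibbs (fun x => φ (y, x))) := by
    rw [e0]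
    exact lv_memLp (h.slice y) L _
  have hLm : MemLp (fun x => L x) 2 (gibbs (fun x => φ (y, x))) := by
    simpa using lv_memLp (h.slice y) L 0
  constructor
  · have h1 := lv_mean_sq hX c
    have h2 : ∫ x, ℓ (y, x) ∂(gibbs (fun x => φ (y, x))) = ℓ (y, m) := by
      rw [e0]
      rw [integral_add (hLm.integrable (by norm_num)) (integrable_const _), hm L]
      simp only [integral_const, probReal_univ, one_smul]
      exact (congrFun e0 m).symm
    rw [h2] at h1
    exact h1.trans hA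
  · have h1 := lv_var_le hX c
    have h2 : Var[fun x => ℓ (y, x); gibbs (fun x => φ (y, x))] =
        Var[fun x => ℓ (0, x); gibbs (fun x => φ (y, x))] := by
      rw [e0]
      rw [variance_add_const hLm.1]
      rfl
    rw [← h2]
    exact h1.trans hA

end general

section moments

lemma lv_moment {U W : ℝ → ℝ} (hUc : Continuous U) (hWc : Continuous W)
    (hWi : Integrable (fun y => Real.exp (-W y))) (hW1 : ∫ y, Real.exp (-W y) = 1)
    (hUi : Integrable (fun y => U y ^ 2 * Real.exp (-W y)))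
    (hU16 : ∫ y, U y ^ 2 * Real.exp (-W y) ≤ 16) (c : ℝ) :
    Integrable (fun y => (c + U y) ^ 2 * Real.exp (-W y)) ∧
      ∫ y, (c + U y) ^ 2 * Real.exp (-W y) ≤ 2 * c ^ 2 + 32 := by
  have hpt : ∀ y, (c + U y) ^ 2 * Real.exp (-W y) ≤
      2 * c ^ 2 * Real.exp (-W y) + 2 * (U y ^ 2 * Real.exp (-W y)) := by
    intro y
    have h1 : (c + U y) ^ 2 ≤ 2 * c ^ 2 + 2 * U y ^ 2 := by nlinarith [sq_nonneg (c - U y)]
    have h2 := mul_le_mul_of_nonneg_right h1 (Real.exp_pos (-W y)).le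
    linarith
  have hgi : Integrable (fun y => 2 * c ^ 2 * Real.exp (-W y) +
      2 * (U y ^ 2 * Real.exp (-W y))) := (hWi.const_mul _).add (hUi.const_mul _)
  have hi : Integrable (fun y => (c + U y) ^ 2 * Real.exp (-W y)) := by
    refine hgi.mono' (by fun_prop : Continuous fun y =>
      (c + U y) ^ 2 * Real.exp (-W y)).aestronglyMeasurable (Eventually.of_forall fun y => ?_)
    rw [Real.norm_of_nonneg (by positivity)]
    exact hpt y
  refine ⟨hi, ?_⟩
  calc _ ≤ ∫ y, (2 * c ^ 2 * Real.exp (-W y) + 2 * (U y ^ 2 * Real.exp (-W y))) :=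
        integral_mono hi hgi hpt
    _ = 2 * c ^ 2 + 2 * ∫ y, U y ^ 2 * Real.exp (-W y) := by
        rw [integral_add (hWi.const_mul _) (hUi.const_mul _), integral_const_mul,
          integral_const_mul, hW1, mul_one]
    _ ≤ 2 * c ^ 2 + 32 := by linarith

lemma lv_sq_add {C u a b : ℝ} (hC : 0 < C) (hu : 0 ≤ u) (ha : a ^ 2 ≤ C * (1 + u) ^ 2)
    (hb : b ^ 2 ≤ C * (1 + 0) ^ 2) : (a - b) ^ 2 ≤ C * (2 + u) ^ 2 := by
  have hs : Real.sqrt C ^ 2 = C := Real.sq_sqrt hC.le
  have hs0 : 0 ≤ Real.sqrt C := Real.sqrt_nonneg C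
  have h1 : |a| ≤ Real.sqrt C * (1 + u) := by
    rw [← hs, ← mul_pow] at ha
    exact abs_le_of_sq_le_sq ha (by positivity)
  have h2 : |b| ≤ Real.sqrt C := by
    rw [add_zero, one_pow, mul_one, ← hs] at hb
    exact abs_le_of_sq_le_sq hb hs0
  have h3 : |a - b| ≤ Real.sqrt C * (2 + u) := by
    calc |a - b| ≤ |a| + |b| := abs_sub _ _
      _ ≤ _ := by linarith
  calc (a - b) ^ 2 = |a - b| ^ 2 := (sq_abs _).symm
    _ ≤ (Real.sqrt C * (2 + u)) ^ 2 := by gcongr
    _ = C * (2 + u) ^ 2 := by rw [mul_pow, hs]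

end moments

/-- P5, given the covariance estimate `key_fib` on the fibres -/
theorem lv_ext_of (hkey : ∀ (F : Type) [NormedAddCommGroup F] [NormedSpace ℝ F]
    [MeasureSpace F] [BorelSpace F] [FiniteDimensional ℝ F]
    [(volume : Measure F).IsAddHaarMeasure] (φ : ℝ × F → ℝ), Nice φ → ∀ (y : ℝ) (v : F) (K : ℝ),
    1 ≤ K → AP (gibbs (fun x => φ (y, x))) K →
    (∀ ℓ : F →L[ℝ] ℝ, cov[fun x => ℓ x, fun x => fderiv ℝ φ (y, x) (1, v);
      gibbs (fun x => φ (y, x))] = 0) →
    ∀ f : F → ℝ, ContDiff ℝ 1 f → (∃ l : ℝ, ∀ x, ‖fderiv ℝ f x‖ ≤ l) →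
    (∃ l : ℝ, ∀ x y, ‖fderiv ℝ f x - fderiv ℝ f y‖ ≤ l * ‖x - y‖) →
    cov[f, fun x => fderiv ℝ φ (y, x) (1, v); gibbs (fun x => φ (y, x))] ^ 2 ≤
      36 * K * (∫ x, fderiv ℝ (fderiv ℝ φ) (y, x) (1, v) (1, v) ∂(gibbs (fun x => φ (y, x))) -
        Var[fun x => fderiv ℝ φ (y, x) (1, v); gibbs (fun x => φ (y, x))]) *
      ∫ x, Var[fun z => fderiv ℝ f x z; gibbs (fun x => φ (y, x))]
        ∂(gibbs (fun x => φ (y, x)))) : ∃ C : ℝ, 0 < C ∧ ∀ (F : Type) [NormedAddCommGroup F] [NormedSpace ℝ F]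
    [MeasureSpace F] [BorelSpace F] [FiniteDimensional ℝ F]
    [(volume : Measure F).IsAddHaarMeasure] (φ : ℝ × F → ℝ) (K : ℝ), 1 ≤ K → Nice φ →
    (∀ y, AP (gibbs (fun x => φ (y, x))) K) →
    ∀ f : ℝ × F → ℝ, ContDiff ℝ 1 f → (∃ B : ℝ, ∀ p, |f p| ≤ B) →
    (∃ B : ℝ, ∀ p, ‖fderiv ℝ f p‖ ≤ B) →
    (∃ B : ℝ, ∀ p q, ‖fderiv ℝ f p - fderiv ℝ f q‖ ≤ B * ‖p - q‖) →
    (∀ p, Var[fun z => fderiv ℝ f p z; gibbs φ] ≤ 1) → Var[f; gibbs φ] ≤ C * K := by
  obtain ⟨C, hC, hlin⟩ := fib_lin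
  refine ⟨3894 * C, by positivity, ?_⟩
  intro F _ _ _ _ _ _ φ K hK h hAP f hf hfb hf1 hf2 hvar
  have hK0 : 0 < K := by linarith
  have := lv_haar (E := F)
  have hprob := gibbs_prob h
  obtain ⟨V, V1, V2, m, m1, y₀, hV, hVd, hV1d, hV2c, hV2, hV10, hconv, hmin, hint, hmd, hm1c,
    hmean, hV2eq, hcov, hshift⟩ := fib_calc h
  -- normalisation
  set Z := ∫ y, Real.exp (-V y) with hZdef
  have hZ : 0 < Z := integral_exp_pos hint
  set W : ℝ → ℝ := fun y => V y + Real.log Z with hWdef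
  have hW : ∀ y, Real.exp (-W y) = Z⁻¹ * Real.exp (-V y) := by
    intro y
    rw [hWdef]
    simp only
    rw [neg_add, Real.exp_add, Real.exp_neg (Real.log Z), Real.exp_log hZ, mul_comm]
  have hWd : ∀ y, HasDerivAt W (V1 y) y := fun y => (hVd y).add_const _
  have hWi : Integrable (fun y => Real.exp (-W y)) := by
    simp_rw [hW]; exact hint.const_mul _
  have hW1 : ∫ y, Real.exp (-W y) = 1 := by
    simp_rw [hW]
    rw [integral_const_mul, ← hZdef, inv_mul_cancel₀ hZ.ne']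
  have hWconv : ConvexOn ℝ univ W := hconv.add_const _
  have hU : ∀ y, W y - W y₀ = V y - V y₀ := by intro y; simp [hWdef]
  obtain ⟨hUi, hU16⟩ := vhat hWconv (y₀ := y₀) (fun y => by simp [hWdef, hmin y]) hWi hW1
  simp_rw [hU] at hUi hU16
  -- moments
  set U : ℝ → ℝ := fun y => V y - V y₀ with hUdef
  have hU0 : ∀ y, 0 ≤ U y := fun y => sub_nonneg.2 (hmin y)
  have hUy₀ : U y₀ = 0 := sub_self _
  have hVc : Continuous V := continuous_iff_continuousAt.2 fun y => (hVd y).continuousAt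
  have hUc : Continuous U := hVc.sub continuous_const
  have hWc : Continuous W := hVc.add continuous_const
  obtain ⟨i1, b1⟩ := lv_moment hUc hWc hWi hW1 hUi hU16 1
  obtain ⟨i2, b2⟩ := lv_moment hUc hWc hWi hW1 hUi hU16 2
  norm_num at b1 b2
  -- the linear functionals
  have key : ∀ p y, (fderiv ℝ f p (y, m y) - ∫ q, fderiv ℝ f p q ∂(gibbs φ)) ^ 2 ≤
      C * (1 + U y) ^ 2 ∧
      Var[fun x => fderiv ℝ f p (0, x); gibbs (fun x => φ (y, x))] ≤ C * (1 + U y) ^ 2 :=
    fun p y => lv_lin h (fderiv ℝ f p) y _ _ (fun ℓ => hmean ℓ y)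
      (hlin F φ h V y₀ hV hmin (fderiv ℝ f p) (hvar p) y)
  -- the function on the fibre
  set F0 : F → ℝ := fun z => f (y₀, m y₀ + z) with hF0
  have hfd : Differentiable ℝ f := hf.differentiable one_ne_zero
  have hF0d : ∀ z, HasFDerivAt F0 ((fderiv ℝ f (y₀, m y₀ + z)).comp
      (ContinuousLinearMap.inr ℝ ℝ F)) z := by
    intro z
    have h1 : HasFDerivAt (fun z : F => ((y₀, m y₀ + z) : ℝ × F))
        (ContinuousLinearMap.inr ℝ ℝ F) z := by
      have := (hasFDerivAt_const y₀ z).prodMk ((hasFDerivAt_id (𝕜 := ℝ) z).const_add (m y₀))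
      exact this
    exact (hfd _).hasFDerivAt.comp z h1
  have hF0c : ContDiff ℝ 1 F0 := hf.comp (contDiff_const.prodMk (contDiff_const.add contDiff_id))
  have hFyc : ∀ y, ContDiff ℝ 1 (fun x => F0 (x - m y)) := fun y =>
    hF0c.comp (contDiff_id.sub contDiff_const)
  have hFyd : ∀ y x, fderiv ℝ (fun x => F0 (x - m y)) x =
      (fderiv ℝ f (y₀, m y₀ + (x - m y))).comp (ContinuousLinearMap.inr ℝ ℝ F) := by
    intro y x
    rw [fderiv_comp_sub]
    exact (hF0d _).fderiv
  have hcompn : ∀ L : ℝ × F →L[ℝ] ℝ, ‖L.comp (ContinuousLinearMap.inr ℝ ℝ F)‖ ≤ ‖L‖ := by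
    intro L
    calc _ ≤ ‖L‖ * ‖ContinuousLinearMap.inr ℝ ℝ F‖ := ContinuousLinearMap.opNorm_comp_le _ _
      _ ≤ ‖L‖ * 1 := by gcongr; exact ContinuousLinearMap.norm_inr_le_one ℝ ℝ F
      _ = ‖L‖ := mul_one _
  have hF0b : ∃ l : ℝ, ∀ x, ‖fderiv ℝ F0 x‖ ≤ l := by
    obtain ⟨B, hB⟩ := hf1
    exact ⟨B, fun x => by rw [(hF0d x).fderiv]; exact (hcompn _).trans (hB _)⟩
  have hFyb : ∀ y, ∃ l : ℝ, ∀ x, ‖fderiv ℝ (fun x => F0 (x - m y)) x‖ ≤ l := by
    obtain ⟨B, hB⟩ := hf1
    intro y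
    exact ⟨B, fun x => by rw [hFyd y x]; exact (hcompn _).trans (hB _)⟩
  have hFyL : ∀ y, ∃ l : ℝ, ∀ x x', ‖fderiv ℝ (fun x => F0 (x - m y)) x -
      fderiv ℝ (fun x => F0 (x - m y)) x'‖ ≤ l * ‖x - x'‖ := by
    obtain ⟨B, hB⟩ := hf2
    intro y
    refine ⟨B, fun x x' => ?_⟩
    rw [hFyd y x, hFyd y x', ← ContinuousLinearMap.sub_comp]
    refine (hcompn _).trans ((hB _ _).trans (le_of_eq ?_))
    congr 1
    simp [Prod.norm_def]
  -- variance of the derivative on the fibres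
  have hvarF : ∀ y, ∫ x, Var[fun z => fderiv ℝ (fun x => F0 (x - m y)) x z;
      gibbs (fun x => φ (y, x))] ∂(gibbs (fun x => φ (y, x))) ≤ C * (1 + U y) ^ 2 := by
    intro y
    have hp := gibbs_prob (h.slice y)
    have h1 : ∀ x, Var[fun z => fderiv ℝ (fun x => F0 (x - m y)) x z;
      gibbs (fun x => φ (y, x))] ≤ C * (1 + U y) ^ 2 := by
      intro x
      have h2 : (fun z => fderiv ℝ (fun x => F0 (x - m y)) x z) =
          fun z => fderiv ℝ f (y₀, m y₀ + (x - m y)) (0, z) := by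
        ext1 z
        rw [hFyd y x]
        rfl
      rw [h2]
      exact (key _ y).2
    calc _ ≤ ∫ _, C * (1 + U y) ^ 2 ∂(gibbs (fun x => φ (y, x))) :=
          integral_mono_of_nonneg (Eventually.of_forall fun x => variance_nonneg _ _)
            (integrable_const _) (Eventually.of_forall h1)
      _ = _ := by simp
  -- the averages
  set G : ℝ → ℝ := fun y => ∫ x, F0 (x - m y) ∂(gibbs (fun x => φ (y, x))) with hG
  obtain ⟨hGd, hG1c⟩ := hshift F0 hF0c hF0b
  set R : ℝ → ℝ := fun y => 36 * K * (C * (1 + U y) ^ 2) with hR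
  have hRc : Continuous R := by fun_prop
  have hbl := bl1 (V := W) (V1 := V1) (V2 := V2) (G := G)
    (G1 := fun y => -cov[fun x => F0 (x - m y), fun x => fderiv ℝ φ (y, x) (1, m1 y);
            gibbs (fun x => φ (y, x))]) (R := R) (y₀ := y₀) hWd hV1d hV2c hV2 hV10 hGd
    hG1c.neg hRc (fun y => by rw [hR]; positivity) (fun y => by
      have h1 := hkey F φ h y (m1 y) K hK (hAP y) (fun ℓ => hcov ℓ y) _ (hFyc y) (hFyb y)
        (hFyL y)
      rw [← hV2eq y] at h1
      rw [neg_sq]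
      refine h1.trans ?_
      have h2 := mul_le_mul_of_nonneg_left (hvarF y)
        (mul_nonneg (by positivity : 0 ≤ 36 * K) (hV2 y))
      refine h2.trans (le_of_eq ?_)
      rw [hR]
      ring)
  -- the fibre estimate
  set A : ℝ → ℝ := fun y => 3 * C * (2 + U y) ^ 2 + 3 * K * C * (1 + U y) ^ 2 with hA
  have hseg : ∀ y x, (f (y, x) - F0 (x - m y)) ^ 2 ≤ C * (2 + U y) ^ 2 := by
    intro y x
    obtain ⟨z, -, hz⟩ := domain_mvt (f := f) (f' := fun p => fderiv ℝ f p) (s := univ)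
      (x := (y₀, m y₀ + (x - m y))) (y := (y, x))
      (fun p _ => (hfd p).hasFDerivAt.hasFDerivWithinAt) convex_univ (mem_univ _) (mem_univ _)
    have h1 : ((y, x) - (y₀, m y₀ + (x - m y)) : ℝ × F) = (y, m y) - (y₀, m y₀) := by
      rw [Prod.mk_sub_mk, Prod.mk_sub_mk]
      congr 1
      abel
    rw [h1, map_sub] at hz
    rw [hF0]
    simp only
    rw [hz]
    have h2 := lv_sq_add hC (hU0 y) (key z y).1 (b := fderiv ℝ f z (y₀, m y₀) -
      ∫ q, fderiv ℝ f z q ∂(gibbs φ)) (by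
        have := (key z y₀).1
        rwa [hUy₀] at this)
    rwa [sub_sub_sub_cancel_right] at h2
  have hfib : ∀ y, ∫⁻ x, ENNReal.ofReal ((f (y, x) - G y₀) ^ 2) ∂(gibbs (fun x => φ (y, x))) ≤
      ENNReal.ofReal (A y + 3 * (G y - G y₀) ^ 2) := by
    intro y
    have hp := gibbs_prob (h.slice y)
    have hFm : MemLp (fun x => F0 (x - m y)) 2 (gibbs (fun x => φ (y, x))) :=
      BG.memLp (h.slice y) ⟨hFyc y, hFyb y⟩
    have hvar1 : Var[fun x => F0 (x - m y); gibbs (fun x => φ (y, x))] ≤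
        K * (C * (1 + U y) ^ 2) :=
      (hAP y _ (hFyc y) (hFyb y)).trans (mul_le_mul_of_nonneg_left (hvarF y) hK0.le)
    have hvar2 : Var[fun x => F0 (x - m y); gibbs (fun x => φ (y, x))] =
        ∫ x, (F0 (x - m y) - G y) ^ 2 ∂(gibbs (fun x => φ (y, x))) :=
      variance_eq_integral hFm.1.aemeasurable
    have hsqi : Integrable (fun x => (F0 (x - m y) - G y) ^ 2) (gibbs (fun x => φ (y, x))) :=
      (hFm.sub (memLp_const (G y))).integrable_sq
    have hpt : ∀ x, (f (y, x) - G y₀) ^ 2 ≤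
        3 * C * (2 + U y) ^ 2 + 3 * (F0 (x - m y) - G y) ^ 2 + 3 * (G y - G y₀) ^ 2 := by
      intro x
      have h1 := hseg y x
      nlinarith [sq_nonneg ((f (y, x) - F0 (x - m y)) - (F0 (x - m y) - G y)),
        sq_nonneg ((f (y, x) - F0 (x - m y)) - (G y - G y₀)),
        sq_nonneg ((F0 (x - m y) - G y) - (G y - G y₀))]
    calc _ ≤ ∫⁻ x, ENNReal.ofReal (3 * C * (2 + U y) ^ 2 + 3 * (F0 (x - m y) - G y) ^ 2 +
            3 * (G y - G y₀) ^ 2) ∂(gibbs (fun x => φ (y, x))) :=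
          lintegral_mono fun x => ENNReal.ofReal_le_ofReal (hpt x)
      _ = ENNReal.ofReal (∫ x, (3 * C * (2 + U y) ^ 2 + 3 * (F0 (x - m y) - G y) ^ 2 +
            3 * (G y - G y₀) ^ 2) ∂(gibbs (fun x => φ (y, x)))) := by
          rw [ofReal_integral_eq_lintegral_ofReal]
          · exact ((integrable_const _).add (hsqi.const_mul 3)).add (integrable_const _)
          · exact Eventually.of_forall fun x => by positivity
      _ ≤ _ := by
          apply ENNReal.ofReal_le_ofReal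
          have hi1 : Integrable (fun x => 3 * C * (2 + U y) ^ 2 + 3 * (F0 (x - m y) - G y) ^ 2)
              (gibbs (fun x => φ (y, x))) := (integrable_const _).add (hsqi.const_mul 3)
          rw [integral_add hi1 (integrable_const _),
            integral_add (integrable_const _) (hsqi.const_mul 3)]
          simp only [integral_const, probReal_univ, one_smul]
          rw [integral_const_mul, ← hvar2]
          rw [hA]
          simp only
          linarith
  -- the global estimate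
  have hAc : Continuous A := by fun_prop
  have hA0 : ∀ y, 0 ≤ A y := fun y => by rw [hA]; positivity
  have hGc : Continuous G := continuous_iff_continuousAt.2 fun y => (hGd y).continuousAt
  have hAi : Integrable (fun y => A y * Real.exp (-W y)) := by
    have h1 := (i2.const_mul (3 * C)).add (i1.const_mul (3 * K * C))
    refine h1.congr (Eventually.of_forall fun y => ?_)
    simp only [hA, Pi.add_apply]
    ring
  have hAv : ∫ y, A y * Real.exp (-W y) ≤ 222 * C * K := by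
    have h1 : ∫ y, A y * Real.exp (-W y) = ∫ y, (3 * C * ((2 + U y) ^ 2 * Real.exp (-W y)) +
        3 * K * C * ((1 + U y) ^ 2 * Real.exp (-W y))) := by
      congr 1
      ext1 y
      simp only [hA]
      ring
    rw [h1, integral_add (i2.const_mul (3 * C)) (i1.const_mul (3 * K * C)), integral_const_mul,
      integral_const_mul]
    have h2 := mul_le_mul_of_nonneg_left b1 (by positivity : 0 ≤ 3 * K * C)
    have h3 := mul_le_mul_of_nonneg_left b2 (by positivity : 0 ≤ 3 * C)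
    have h4 : 0 ≤ C * (K - 1) := mul_nonneg hC.le (by linarith)
    nlinarith
  have hRi : Integrable (fun y => R y * Real.exp (-W y)) := by
    refine (i1.const_mul (36 * K * C)).congr (Eventually.of_forall fun y => ?_)
    simp only [hR]
    ring
  have hRv : ∫ y, R y * Real.exp (-W y) ≤ 1224 * C * K := by
    have h1 : ∫ y, R y * Real.exp (-W y) =
        36 * K * C * ∫ y, (1 + U y) ^ 2 * Real.exp (-W y) := by
      rw [← integral_const_mul]
      congr 1
      ext1 y
      simp only [hR]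
      ring
    rw [h1]
    have h2 := mul_le_mul_of_nonneg_left b1 (by positivity : 0 ≤ 36 * K * C)
    linarith
  have hmf : Measurable fun p : ℝ × F => ENNReal.ofReal ((f p - G y₀) ^ 2) :=
    ENNReal.measurable_ofReal.comp ((hf.continuous.sub continuous_const).pow 2).measurable
  have hfin : ∫⁻ p, ENNReal.ofReal ((f p - G y₀) ^ 2) ∂(gibbs φ) ≤
      ENNReal.ofReal (3894 * C * K) := by
    rw [lv_disint h hZ hV hint hZdef.symm hW hmf]
    calc _ ≤ ∫⁻ y, (ENNReal.ofReal (A y * Real.exp (-W y)) +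
            3 * ENNReal.ofReal ((G y - G y₀) ^ 2 * Real.exp (-W y))) := by
          refine lintegral_mono fun y => ?_
          calc _ ≤ ENNReal.ofReal (Real.exp (-W y)) *
                ENNReal.ofReal (A y + 3 * (G y - G y₀) ^ 2) := by
                gcongr
                exact hfib y
            _ = _ := by
                rw [← ENNReal.ofReal_mul (Real.exp_pos _).le, ← ENNReal.ofReal_ofNat 3,
                  ← ENNReal.ofReal_mul (by norm_num), ← ENNReal.ofReal_add
                  (mul_nonneg (hA0 y) (Real.exp_pos _).le) (by positivity)]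
                congr 1
                ring
      _ = (∫⁻ y, ENNReal.ofReal (A y * Real.exp (-W y))) +
            3 * ∫⁻ y, ENNReal.ofReal ((G y - G y₀) ^ 2 * Real.exp (-W y)) := by
          rw [lintegral_add_left, lintegral_const_mul]
          · exact (ENNReal.measurable_ofReal.comp (by fun_prop : Continuous fun y =>
              (G y - G y₀) ^ 2 * Real.exp (-W y)).measurable)
          · exact (ENNReal.measurable_ofReal.comp (by fun_prop : Continuous fun y =>
              A y * Real.exp (-W y)).measurable)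
      _ ≤ (∫⁻ y, ENNReal.ofReal (A y * Real.exp (-W y))) +
            3 * ∫⁻ y, ENNReal.ofReal (R y * Real.exp (-W y)) := by gcongr
      _ = ENNReal.ofReal (∫ y, A y * Real.exp (-W y)) +
            3 * ENNReal.ofReal (∫ y, R y * Real.exp (-W y)) := by
          rw [ofReal_integral_eq_lintegral_ofReal hAi (Eventually.of_forall fun y =>
            mul_nonneg (hA0 y) (Real.exp_pos _).le), ofReal_integral_eq_lintegral_ofReal hRi
            (Eventually.of_forall fun y => mul_nonneg (by rw [hR]; positivity)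
              (Real.exp_pos _).le)]
      _ ≤ ENNReal.ofReal (222 * C * K) + 3 * ENNReal.ofReal (1224 * C * K) := by
          gcongr
      _ = _ := by
          rw [← ENNReal.ofReal_ofNat 3, ← ENNReal.ofReal_mul (by norm_num),
            ← ENNReal.ofReal_add (by positivity) (by positivity)]
          congr 1
          ring
  have hfm : MemLp f 2 (gibbs φ) := BG.memLp h ⟨hf, hf1⟩
  refine (lv_var_le hfm (G y₀)).trans ?_
  have hfc : Continuous fun p : ℝ × F => (f p - G y₀) ^ 2 :=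
    (hf.continuous.sub continuous_const).pow 2
  rw [integral_eq_lintegral_of_nonneg_ae (Eventually.of_forall fun p => sq_nonneg _)
    hfc.aestronglyMeasurable]
  exact ENNReal.toReal_le_of_le_ofReal (by positivity) hfin

end Pool.Agent.Lib.MP_6d896a_gt.FP
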