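import Mathlib
import Pool.Agent.Lib.MP_6d896a_gt.FP.LVExtOf
import Pool.Agent.Lib.MP_6d896a_gt.FP.BL1J

/-!
Localised version of `lv_ext`: only the fibres over a compact interval are assumed to satisfy the
affine invariant Poincare inequality.  The covariance estimate on the fibres (`key_fib`) is a
hypothesis here.
-/

set_option autoImplicit false

namespace Pool.Agent.Lib.MP_6d896a_gt.FP

open MeasureTheory ProbabilityTheory Set Filter
open scoped ENNReal Topology

/-- the statement of `key_fib` -/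
def KeyFibStat : Prop := ∀ (F : Type) [NormedAddCommGroup F] [NormedSpace ℝ F]
    [MeasureSpace F] [BorelSpace F] [FiniteDimensional ℝ F]
    [(volume : Measure F).IsAddHaarMeasure] (φ : ℝ × F → ℝ), Nice φ → ∀ (y : ℝ) (v : F) (K : ℝ),
    1 ≤ K → AP (gibbs (fun x => φ (y, x))) K →
    (∀ ℓ : F →L[ℝ] ℝ, cov[fun x => ℓ x, fun x => fderiv ℝ φ (y, x) (1, v);
      gibbs (fun x => φ (y, x))] = 0) →
    ∀ f : F → ℝ, ContDiff ℝ 1 f → (∃ l : ℝ, ∀ x, ‖fderiv ℝ f x‖ ≤ l) →
    (∃ l : ℝ, ∀ x y, ‖fderiv ℝ f x - fderiv ℝ f y‖ ≤ l * ‖x - y‖) →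
    cov[f, fun x => fderiv ℝ φ (y, x) (1, v); gibbs (fun x => φ (y, x))] ^ 2 ≤
      36 * K * (∫ x, fderiv ℝ (fderiv ℝ φ) (y, x) (1, v) (1, v) ∂(gibbs (fun x => φ (y, x))) -
        Var[fun x => fderiv ℝ φ (y, x) (1, v); gibbs (fun x => φ (y, x))]) *
      ∫ x, Var[fun z => fderiv ℝ f x z; gibbs (fun x => φ (y, x))]
        ∂(gibbs (fun x => φ (y, x)))

lemma lvJ_min {V V1 : ℝ → ℝ} (hV : ∀ y, HasDerivAt V (V1 y) y) {α β y₁ : ℝ}
    (hy : y₁ ∈ Icc α β) (hmin : ∀ y ∈ Icc α β, V y₁ ≤ V y) :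
    (y₁ < β → 0 ≤ V1 y₁) ∧ (α < y₁ → V1 y₁ ≤ 0) := by
  have hloc : IsLocalMinOn V (Icc α β) y₁ :=
    (show IsMinOn V (Icc α β) y₁ from fun y hy' => hmin y hy').localize
  have hseg : ∀ z ∈ Icc α β, segment ℝ y₁ z ⊆ Icc α β := fun z hz =>
    (convex_Icc α β).segment_subset hy hz
  have key : ∀ z ∈ Icc α β, 0 ≤ (z - y₁) * V1 y₁ := by
    intro z hz
    have h1 := hloc.hasFDerivWithinAt_nonneg (hV y₁).hasFDerivAt.hasFDerivWithinAt
      (sub_mem_posTangentConeAt_of_segment_subset (hseg z hz))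
    simpa using h1
  constructor
  · intro h
    have h1 := key β ⟨hy.1.trans hy.2, le_rfl⟩
    exact nonneg_of_mul_nonneg_right h1 (by linarith)
  · intro h
    have h1 := key α ⟨le_rfl, hy.1.trans hy.2⟩
    by_contra hc
    push Not at hc
    nlinarith [mul_pos (sub_pos.2 h) hc]

/-- P5b with `l = 1`, given the covariance estimate on the fibres -/
theorem lv_extJ_one (hkey : KeyFibStat) : ∃ C : ℝ, 0 < C ∧ ∀ (F : Type) [NormedAddCommGroup F]
    [NormedSpace ℝ F] [MeasureSpace F] [BorelSpace F] [FiniteDimensional ℝ F]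
    [(volume : Measure F).IsAddHaarMeasure] (φ : ℝ × F → ℝ) (K : ℝ), 1 ≤ K → Nice φ →
    ∀ α β : ℝ, α ≤ β → (∀ y ∈ Icc α β, AP (gibbs (fun x => φ (y, x))) K) →
    ∀ (f : ℝ × F → ℝ) (B : ℝ), 0 ≤ B → ContDiff ℝ 1 f → (∀ p, |f p| ≤ B) →
    (∃ B' : ℝ, ∀ p, ‖fderiv ℝ f p‖ ≤ B') →
    (∃ B' : ℝ, ∀ p q, ‖fderiv ℝ f p - fderiv ℝ f q‖ ≤ B' * ‖p - q‖) →
    (∀ p, Var[fun z => fderiv ℝ f p z; gibbs φ] ≤ 1) →
    Var[f; gibbs φ] ≤ C * K + 4 * B ^ 2 * (gibbs φ).real {p | p.1 ∈ Icc α β}ᶜ := by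
  obtain ⟨C, hC, hlin⟩ := fib_lin
  refine ⟨4182 * C, by positivity, ?_⟩
  intro F _ _ _ _ _ _ φ K hK h α β hαβ hAP f B hB hf hfb hf1 hf2 hvar
  have hK0 : 0 < K := by linarith
  have := lv_haar (E := F)
  have hprob := gibbs_prob h
  obtain ⟨V, V1, V2, m, m1, y₀, hV, hVd, hV1d, hV2c, hV2, hV10, hconv, hmin, hint, hmd, hm1c,
    hmean, hV2eq, hcov, hshift⟩ := fib_calc h
  -- normalisation
  set Z := ∫ y, Real.exp (-V y) with hZdef
  have hZ : 0 < Z := integral_exp_pos hint
  set W : ℝ → ℝ := fun y => V y + Real.log Z with hWdef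
  have hW : ∀ y, Real.exp (-W y) = Z⁻¹ * Real.exp (-V y) := by
    intro y
    rw [hWdef]
    simp only
    rw [neg_add, Real.exp_add, Real.exp_neg (Real.log Z), Real.exp_log hZ, mul_comm]
  have hWd : ∀ y, HasDerivAt W (V1 y) y := fun y => (hVd y).add_const _
  have hWi : Integrable (fun y => Real.exp (-W y)) := by
    simp_rw [hW]; exact hint.const_mul _
  have hW1 : ∫ y, Real.exp (-W y) = 1 := by
    simp_rw [hW]
    rw [integral_const_mul, ← hZdef, inv_mul_cancel₀ hZ.ne']
  have hWconv : ConvexOn ℝ univ W := hconv.add_const _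
  have hU : ∀ y, W y - W y₀ = V y - V y₀ := by intro y; simp [hWdef]
  obtain ⟨hUi, hU16⟩ := vhat hWconv (y₀ := y₀) (fun y => by simp [hWdef, hmin y]) hWi hW1
  simp_rw [hU] at hUi hU16
  -- moments
  set U : ℝ → ℝ := fun y => V y - V y₀ with hUdef
  have hU0 : ∀ y, 0 ≤ U y := fun y => sub_nonneg.2 (hmin y)
  have hVc : Continuous V := continuous_iff_continuousAt.2 fun y => (hVd y).continuousAt
  obtain ⟨y₁, hy₁, hy₁min⟩ : ∃ y₁ ∈ Icc α β, ∀ y ∈ Icc α β, V y₁ ≤ V y := by
    obtain ⟨y₁, h1, h2⟩ := isCompact_Icc.exists_isMinOn (nonempty_Icc.2 hαβ) hVc.continuousOn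
    exact ⟨y₁, h1, fun y hy => h2 hy⟩
  obtain ⟨hr, hl⟩ := lvJ_min hVd hy₁ hy₁min
  have hUy₁ : ∀ y ∈ Icc α β, U y₁ ≤ U y := fun y hy => sub_le_sub_right (hy₁min y hy) _
  have hUc : Continuous U := hVc.sub continuous_const
  have hWc : Continuous W := hVc.add continuous_const
  obtain ⟨i1, b1⟩ := lv_moment hUc hWc hWi hW1 hUi hU16 1
  norm_num at b1
  -- the linear functionals
  have key : ∀ p y, (fderiv ℝ f p (y, m y) - ∫ q, fderiv ℝ f p q ∂(gibbs φ)) ^ 2 ≤
      C * (1 + U y) ^ 2 ∧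
      Var[fun x => fderiv ℝ f p (0, x); gibbs (fun x => φ (y, x))] ≤ C * (1 + U y) ^ 2 :=
    fun p y => lv_lin h (fderiv ℝ f p) y _ _ (fun ℓ => hmean ℓ y)
      (hlin F φ h V y₀ hV hmin (fderiv ℝ f p) (hvar p) y)
  -- the function on the fibre
  set F0 : F → ℝ := fun z => f (y₁, m y₁ + z) with hF0
  have hfd : Differentiable ℝ f := hf.differentiable one_ne_zero
  have hF0d : ∀ z, HasFDerivAt F0 ((fderiv ℝ f (y₁, m y₁ + z)).comp
      (ContinuousLinearMap.inr ℝ ℝ F)) z := by
    intro z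
    have h1 : HasFDerivAt (fun z : F => ((y₁, m y₁ + z) : ℝ × F))
        (ContinuousLinearMap.inr ℝ ℝ F) z := by
      have := (hasFDerivAt_const y₁ z).prodMk ((hasFDerivAt_id (𝕜 := ℝ) z).const_add (m y₁))
      exact this
    exact (hfd _).hasFDerivAt.comp z h1
  have hF0c : ContDiff ℝ 1 F0 := hf.comp (contDiff_const.prodMk (contDiff_const.add contDiff_id))
  have hFyc : ∀ y, ContDiff ℝ 1 (fun x => F0 (x - m y)) := fun y =>
    hF0c.comp (contDiff_id.sub contDiff_const)
  have hFyd : ∀ y x, fderiv ℝ (fun x => F0 (x - m y)) x =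
      (fderiv ℝ f (y₁, m y₁ + (x - m y))).comp (ContinuousLinearMap.inr ℝ ℝ F) := by
    intro y x
    rw [fderiv_comp_sub]
    exact (hF0d _).fderiv
  have hcompn : ∀ L : ℝ × F →L[ℝ] ℝ, ‖L.comp (ContinuousLinearMap.inr ℝ ℝ F)‖ ≤ ‖L‖ := by
    intro L
    calc _ ≤ ‖L‖ * ‖ContinuousLinearMap.inr ℝ ℝ F‖ := ContinuousLinearMap.opNorm_comp_le _ _
      _ ≤ ‖L‖ * 1 := by gcongr; exact ContinuousLinearMap.norm_inr_le_one ℝ ℝ F
      _ = ‖L‖ := mul_one _
  have hF0b : ∃ l : ℝ, ∀ x, ‖fderiv ℝ F0 x‖ ≤ l := by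
    obtain ⟨B, hB⟩ := hf1
    exact ⟨B, fun x => by rw [(hF0d x).fderiv]; exact (hcompn _).trans (hB _)⟩
  have hFyb : ∀ y, ∃ l : ℝ, ∀ x, ‖fderiv ℝ (fun x => F0 (x - m y)) x‖ ≤ l := by
    obtain ⟨B, hB⟩ := hf1
    intro y
    exact ⟨B, fun x => by rw [hFyd y x]; exact (hcompn _).trans (hB _)⟩
  have hFyL : ∀ y, ∃ l : ℝ, ∀ x x', ‖fderiv ℝ (fun x => F0 (x - m y)) x -
      fderiv ℝ (fun x => F0 (x - m y)) x'‖ ≤ l * ‖x - x'‖ := by
    obtain ⟨B, hB⟩ := hf2
    intro y
    refine ⟨B, fun x x' => ?_⟩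
    rw [hFyd y x, hFyd y x', ← ContinuousLinearMap.sub_comp]
    refine (hcompn _).trans ((hB _ _).trans (le_of_eq ?_))
    congr 1
    simp [Prod.norm_def]
  -- variance of the derivative on the fibres
  have hvarF : ∀ y, ∫ x, Var[fun z => fderiv ℝ (fun x => F0 (x - m y)) x z;
      gibbs (fun x => φ (y, x))] ∂(gibbs (fun x => φ (y, x))) ≤ C * (1 + U y) ^ 2 := by
    intro y
    have hp := gibbs_prob (h.slice y)
    have h1 : ∀ x, Var[fun z => fderiv ℝ (fun x => F0 (x - m y)) x z;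
      gibbs (fun x => φ (y, x))] ≤ C * (1 + U y) ^ 2 := by
      intro x
      have h2 : (fun z => fderiv ℝ (fun x => F0 (x - m y)) x z) =
          fun z => fderiv ℝ f (y₁, m y₁ + (x - m y)) (0, z) := by
        ext1 z
        rw [hFyd y x]
        rfl
      rw [h2]
      exact (key _ y).2
    calc _ ≤ ∫ _, C * (1 + U y) ^ 2 ∂(gibbs (fun x => φ (y, x))) :=
          integral_mono_of_nonneg (Eventually.of_forall fun x => variance_nonneg _ _)
            (integrable_const _) (Eventually.of_forall h1)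
      _ = _ := by simp
  -- the averages
  set G : ℝ → ℝ := fun y => ∫ x, F0 (x - m y) ∂(gibbs (fun x => φ (y, x))) with hG
  obtain ⟨hGd, hG1c⟩ := hshift F0 hF0c hF0b
  set R : ℝ → ℝ := fun y => 36 * K * (C * (1 + U y) ^ 2) with hR
  have hRc : Continuous R := by fun_prop
  have hbl := bl1J (V := W) (V1 := V1) (V2 := V2) (G := G)
    (G1 := fun y => -cov[fun x => F0 (x - m y), fun x => fderiv ℝ φ (y, x) (1, m1 y);
            gibbs (fun x => φ (y, x))]) (R := R) (α := α) (β := β) (y₁ := y₁) hy₁ hWd hV1d hV2c hV2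
    hr hl hGd hG1c.neg hRc (fun y => by rw [hR]; positivity) (fun y hy => by
      have h1 := hkey F φ h y (m1 y) K hK (hAP y hy) (fun ℓ => hcov ℓ y) _ (hFyc y) (hFyb y)
        (hFyL y)
      rw [← hV2eq y] at h1
      rw [neg_sq]
      refine h1.trans ?_
      have h2 := mul_le_mul_of_nonneg_left (hvarF y)
        (mul_nonneg (by positivity : 0 ≤ 36 * K) (hV2 y))
      refine h2.trans (le_of_eq ?_)
      rw [hR]
      ring)
  -- the fibre estimate
  set A : ℝ → ℝ := fun y => (12 * C + 3 * K * C) * (1 + U y) ^ 2 with hA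
  have hseg : ∀ y ∈ Icc α β, ∀ x, (f (y, x) - F0 (x - m y)) ^ 2 ≤ 4 * C * (1 + U y) ^ 2 := by
    intro y hy x
    obtain ⟨z, -, hz⟩ := domain_mvt (f := f) (f' := fun p => fderiv ℝ f p) (s := univ)
      (x := (y₁, m y₁ + (x - m y))) (y := (y, x))
      (fun p _ => (hfd p).hasFDerivAt.hasFDerivWithinAt) convex_univ (mem_univ _) (mem_univ _)
    have h1 : ((y, x) - (y₁, m y₁ + (x - m y)) : ℝ × F) = (y, m y) - (y₁, m y₁) := by
      rw [Prod.mk_sub_mk, Prod.mk_sub_mk]
      congr 1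
      abel
    rw [h1, map_sub] at hz
    rw [hF0]
    simp only
    rw [hz]
    have h2 := (key z y).1
    have h3 : (fderiv ℝ f z (y₁, m y₁) - ∫ q, fderiv ℝ f z q ∂(gibbs φ)) ^ 2 ≤
        C * (1 + U y) ^ 2 := by
      refine (key z y₁).1.trans ?_
      have := hUy₁ y hy
      have := hU0 y₁
      gcongr
    nlinarith [sq_nonneg ((fderiv ℝ f z (y, m y) - ∫ q, fderiv ℝ f z q ∂(gibbs φ)) +
      (fderiv ℝ f z (y₁, m y₁) - ∫ q, fderiv ℝ f z q ∂(gibbs φ)))]
  have hfib : ∀ y ∈ Icc α β, ∫⁻ x, ENNReal.ofReal ((f (y, x) - G y₁) ^ 2) ∂(gibbs (fun x => φ (y, x))) ≤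
      ENNReal.ofReal (A y + 3 * (G y - G y₁) ^ 2) := by
    intro y hy
    have hp := gibbs_prob (h.slice y)
    have hFm : MemLp (fun x => F0 (x - m y)) 2 (gibbs (fun x => φ (y, x))) :=
      BG.memLp (h.slice y) ⟨hFyc y, hFyb y⟩
    have hvar1 : Var[fun x => F0 (x - m y); gibbs (fun x => φ (y, x))] ≤
        K * (C * (1 + U y) ^ 2) :=
      (hAP y hy _ (hFyc y) (hFyb y)).trans (mul_le_mul_of_nonneg_left (hvarF y) hK0.le)
    have hvar2 : Var[fun x => F0 (x - m y); gibbs (fun x => φ (y, x))] =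
        ∫ x, (F0 (x - m y) - G y) ^ 2 ∂(gibbs (fun x => φ (y, x))) :=
      variance_eq_integral hFm.1.aemeasurable
    have hsqi : Integrable (fun x => (F0 (x - m y) - G y) ^ 2) (gibbs (fun x => φ (y, x))) :=
      (hFm.sub (memLp_const (G y))).integrable_sq
    have hpt : ∀ x, (f (y, x) - G y₁) ^ 2 ≤
        12 * C * (1 + U y) ^ 2 + 3 * (F0 (x - m y) - G y) ^ 2 + 3 * (G y - G y₁) ^ 2 := by
      intro x
      have h1 := hseg y hy x
      nlinarith [sq_nonneg ((f (y, x) - F0 (x - m y)) - (F0 (x - m y) - G y)),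
        sq_nonneg ((f (y, x) - F0 (x - m y)) - (G y - G y₁)),
        sq_nonneg ((F0 (x - m y) - G y) - (G y - G y₁))]
    calc _ ≤ ∫⁻ x, ENNReal.ofReal (12 * C * (1 + U y) ^ 2 + 3 * (F0 (x - m y) - G y) ^ 2 +
            3 * (G y - G y₁) ^ 2) ∂(gibbs (fun x => φ (y, x))) :=
          lintegral_mono fun x => ENNReal.ofReal_le_ofReal (hpt x)
      _ = ENNReal.ofReal (∫ x, (12 * C * (1 + U y) ^ 2 + 3 * (F0 (x - m y) - G y) ^ 2 +
            3 * (G y - G y₁) ^ 2) ∂(gibbs (fun x => φ (y, x)))) := by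
          rw [ofReal_integral_eq_lintegral_ofReal]
          · exact ((integrable_const _).add (hsqi.const_mul 3)).add (integrable_const _)
          · exact Eventually.of_forall fun x => by positivity
      _ ≤ _ := by
          apply ENNReal.ofReal_le_ofReal
          have hi1 : Integrable (fun x => 12 * C * (1 + U y) ^ 2 + 3 * (F0 (x - m y) - G y) ^ 2)
              (gibbs (fun x => φ (y, x))) := (integrable_const _).add (hsqi.const_mul 3)
          rw [integral_add hi1 (integrable_const _),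
            integral_add (integrable_const _) (hsqi.const_mul 3)]
          simp only [integral_const, probReal_univ, one_smul]
          rw [integral_const_mul, ← hvar2]
          rw [hA]
          simp only
          linarith
  -- the global estimate
  have hAc : Continuous A := by fun_prop
  have hA0 : ∀ y, 0 ≤ A y := fun y => by rw [hA]; positivity
  have hGc : Continuous G := continuous_iff_continuousAt.2 fun y => (hGd y).continuousAt
  have hAi : Integrable (fun y => A y * Real.exp (-W y)) := by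
    refine (i1.const_mul (12 * C + 3 * K * C)).congr (Eventually.of_forall fun y => ?_)
    simp only [hA]
    ring
  have hAv : ∫ y, A y * Real.exp (-W y) ≤ 510 * C * K := by
    have h1 : ∫ y, A y * Real.exp (-W y) =
        (12 * C + 3 * K * C) * ∫ y, (1 + U y) ^ 2 * Real.exp (-W y) := by
      rw [← integral_const_mul]
      congr 1
      ext1 y
      simp only [hA]
      ring
    rw [h1]
    have h2 := mul_le_mul_of_nonneg_left b1 (by positivity : 0 ≤ 12 * C + 3 * K * C)
    have h4 : 0 ≤ C * (K - 1) := mul_nonneg hC.le (by linarith)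
    nlinarith
  have hRi : Integrable (fun y => R y * Real.exp (-W y)) := by
    refine (i1.const_mul (36 * K * C)).congr (Eventually.of_forall fun y => ?_)
    simp only [hR]
    ring
  have hRv : ∫ y, R y * Real.exp (-W y) ≤ 1224 * C * K := by
    have h1 : ∫ y, R y * Real.exp (-W y) =
        36 * K * C * ∫ y, (1 + U y) ^ 2 * Real.exp (-W y) := by
      rw [← integral_const_mul]
      congr 1
      ext1 y
      simp only [hR]
      ring
    rw [h1]
    have h2 := mul_le_mul_of_nonneg_left b1 (by positivity : 0 ≤ 36 * K * C)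
    linarith
  have hmf : Measurable fun p : ℝ × F => ENNReal.ofReal ((f p - G y₁) ^ 2) :=
    ENNReal.measurable_ofReal.comp ((hf.continuous.sub continuous_const).pow 2).measurable
  set S : Set (ℝ × F) := {p | p.1 ∈ Icc α β} with hS
  have hSm : MeasurableSet S := measurable_fst measurableSet_Icc
  -- the part over the interval
  have hfin : ∫⁻ p in S, ENNReal.ofReal ((f p - G y₁) ^ 2) ∂(gibbs φ) ≤
      ENNReal.ofReal (4182 * C * K) := by
    rw [← lintegral_indicator hSm, lv_disint h hZ hV hint hZdef.symm hW (hmf.indicator hSm)]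
    calc _ ≤ ∫⁻ y, (Icc α β).indicator (fun y => ENNReal.ofReal (A y * Real.exp (-W y)) +
            3 * ENNReal.ofReal ((G y - G y₁) ^ 2 * Real.exp (-W y))) y := by
          refine lintegral_mono fun y => ?_
          by_cases hy : y ∈ Icc α β
          · have e1 : ∀ x, S.indicator (fun p : ℝ × F => ENNReal.ofReal ((f p - G y₁) ^ 2))
                (y, x) = ENNReal.ofReal ((f (y, x) - G y₁) ^ 2) := fun x =>
              indicator_of_mem (show (y, x) ∈ S from hy) _
            simp_rw [e1]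
            rw [indicator_of_mem hy]
            calc _ ≤ ENNReal.ofReal (Real.exp (-W y)) *
                  ENNReal.ofReal (A y + 3 * (G y - G y₁) ^ 2) := by
                  gcongr
                  exact hfib y hy
              _ = _ := by
                  rw [← ENNReal.ofReal_mul (Real.exp_pos _).le, ← ENNReal.ofReal_ofNat 3,
                    ← ENNReal.ofReal_mul (by norm_num), ← ENNReal.ofReal_add
                    (mul_nonneg (hA0 y) (Real.exp_pos _).le) (by positivity)]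
                  congr 1
                  ring
          · have e1 : ∀ x, S.indicator (fun p : ℝ × F => ENNReal.ofReal ((f p - G y₁) ^ 2))
                (y, x) = 0 := fun x =>
              indicator_of_notMem (show (y, x) ∉ S from hy) _
            simp_rw [e1]
            simp
      _ = (∫⁻ y in Icc α β, ENNReal.ofReal (A y * Real.exp (-W y))) +
            3 * ∫⁻ y in Icc α β, ENNReal.ofReal ((G y - G y₁) ^ 2 * Real.exp (-W y)) := by
          rw [lintegral_indicator measurableSet_Icc, lintegral_add_left, lintegral_const_mul]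
          · exact (ENNReal.measurable_ofReal.comp (by fun_prop : Continuous fun y =>
              (G y - G y₁) ^ 2 * Real.exp (-W y)).measurable)
          · exact (ENNReal.measurable_ofReal.comp (by fun_prop : Continuous fun y =>
              A y * Real.exp (-W y)).measurable)
      _ ≤ (∫⁻ y, ENNReal.ofReal (A y * Real.exp (-W y))) +
            3 * ∫⁻ y, ENNReal.ofReal (R y * Real.exp (-W y)) := by
          refine add_le_add (setLIntegral_le_lintegral _ _) ?_
          gcongr 3 * ?_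
          exact hbl.trans (setLIntegral_le_lintegral _ _)
      _ = ENNReal.ofReal (∫ y, A y * Real.exp (-W y)) +
            3 * ENNReal.ofReal (∫ y, R y * Real.exp (-W y)) := by
          rw [ofReal_integral_eq_lintegral_ofReal hAi (Eventually.of_forall fun y =>
            mul_nonneg (hA0 y) (Real.exp_pos _).le), ofReal_integral_eq_lintegral_ofReal hRi
            (Eventually.of_forall fun y => mul_nonneg (by rw [hR]; positivity)
              (Real.exp_pos _).le)]
      _ ≤ ENNReal.ofReal (510 * C * K) + 3 * ENNReal.ofReal (1224 * C * K) := by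
          gcongr
      _ = _ := by
          rw [← ENNReal.ofReal_ofNat 3, ← ENNReal.ofReal_mul (by norm_num),
            ← ENNReal.ofReal_add (by positivity) (by positivity)]
          congr 1
          ring
  -- the part outside
  have hGB : |G y₁| ≤ B := by
    have hp := gibbs_prob (h.slice y₁)
    have h1 := norm_integral_le_of_norm_le_const (μ := gibbs (fun x => φ (y₁, x)))
      (f := fun x => F0 (x - m y₁)) (C := B) (Eventually.of_forall fun x => hfb _)
    simpa using h1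
  have hout : ∫⁻ p in Sᶜ, ENNReal.ofReal ((f p - G y₁) ^ 2) ∂(gibbs φ) ≤
      ENNReal.ofReal (4 * B ^ 2 * (gibbs φ).real Sᶜ) := by
    calc _ ≤ ∫⁻ _ in Sᶜ, ENNReal.ofReal (4 * B ^ 2) ∂(gibbs φ) := by
          refine lintegral_mono fun p => ENNReal.ofReal_le_ofReal ?_
          have h1 := abs_le.1 (hfb p)
          have h2 := abs_le.1 hGB
          have h3 : |f p - G y₁| ≤ 2 * B := abs_le.2 ⟨by linarith, by linarith⟩
          calc (f p - G y₁) ^ 2 = |f p - G y₁| ^ 2 := (sq_abs _).symm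
            _ ≤ (2 * B) ^ 2 := by gcongr
            _ = _ := by ring
      _ = _ := by
          rw [setLIntegral_const, ← ofReal_measureReal, ← ENNReal.ofReal_mul (by positivity)]
  have hfm : MemLp f 2 (gibbs φ) := BG.memLp h ⟨hf, hf1⟩
  refine (lv_var_le hfm (G y₁)).trans ?_
  have hfc : Continuous fun p : ℝ × F => (f p - G y₁) ^ 2 :=
    (hf.continuous.sub continuous_const).pow 2
  rw [integral_eq_lintegral_of_nonneg_ae (Eventually.of_forall fun p => sq_nonneg _)
    hfc.aestronglyMeasurable]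
  refine ENNReal.toReal_le_of_le_ofReal (by positivity) ?_
  rw [← lintegral_add_compl _ hSm, ENNReal.ofReal_add (by positivity) (by positivity)]
  exact add_le_add hfin hout

/-- P5b, given the covariance estimate on the fibres -/
theorem lv_extJ_of (hkey : KeyFibStat) : ∃ C : ℝ, 0 < C ∧ ∀ (F : Type) [NormedAddCommGroup F]
    [NormedSpace ℝ F] [MeasureSpace F] [BorelSpace F] [FiniteDimensional ℝ F]
    [(volume : Measure F).IsAddHaarMeasure] (φ : ℝ × F → ℝ) (K : ℝ), 1 ≤ K → Nice φ →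
    ∀ α β : ℝ, α ≤ β → (∀ y ∈ Icc α β, AP (gibbs (fun x => φ (y, x))) K) →
    ∀ (f : ℝ × F → ℝ) (B l : ℝ), 0 ≤ B → 0 ≤ l → ContDiff ℝ 1 f → (∀ p, |f p| ≤ B) →
    (∃ B' : ℝ, ∀ p, ‖fderiv ℝ f p‖ ≤ B') →
    (∃ B' : ℝ, ∀ p q, ‖fderiv ℝ f p - fderiv ℝ f q‖ ≤ B' * ‖p - q‖) →
    (∀ p, Var[fun z => fderiv ℝ f p z; gibbs φ] ≤ l ^ 2) →
    Var[f; gibbs φ] ≤ C * K * l ^ 2 + 4 * B ^ 2 * (gibbs φ).real {p | p.1 ∉ Icc α β} := by
  obtain ⟨C, hC, hone⟩ := lv_extJ_one hkey
  refine ⟨C, hC, ?_⟩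
  intro F _ _ _ _ _ _ φ K hK h α β hαβ hAP f B l hB hl hf hfb hf1 hf2 hvar
  have hK0 : 0 < K := by linarith
  -- positive `l`
  have main : ∀ l : ℝ, 0 < l → (∀ p, Var[fun z => fderiv ℝ f p z; gibbs φ] ≤ l ^ 2) →
      Var[f; gibbs φ] ≤ C * K * l ^ 2 + 4 * B ^ 2 * (gibbs φ).real {p | p.1 ∉ Icc α β} := by
    intro l hl hvar
    have hd : ∀ p, fderiv ℝ (fun p => l⁻¹ * f p) p = l⁻¹ • fderiv ℝ f p := fun p =>
      fderiv_const_mul (hf.differentiable one_ne_zero p) l⁻¹
    have h1 := hone F φ K hK h α β hαβ hAP (fun p => l⁻¹ * f p) (l⁻¹ * B) (by positivity)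
      (contDiff_const.mul hf) (fun p => by
        rw [abs_mul, abs_of_pos (inv_pos.2 hl)]
        exact mul_le_mul_of_nonneg_left (hfb p) (inv_pos.2 hl).le)
      (by
        obtain ⟨B', hB'⟩ := hf1
        refine ⟨l⁻¹ * B', fun p => ?_⟩
        rw [hd, norm_smul, Real.norm_of_nonneg (inv_pos.2 hl).le]
        exact mul_le_mul_of_nonneg_left (hB' p) (inv_pos.2 hl).le)
      (by
        obtain ⟨B', hB'⟩ := hf2
        refine ⟨l⁻¹ * B', fun p q => ?_⟩
        have e : l⁻¹ • fderiv ℝ f p - l⁻¹ • fderiv ℝ f q =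
            l⁻¹ • (fderiv ℝ f p - fderiv ℝ f q) := (smul_sub _ _ _).symm
        rw [hd, hd, e, norm_smul, Real.norm_of_nonneg (inv_pos.2 hl).le, mul_assoc]
        exact mul_le_mul_of_nonneg_left (hB' p q) (inv_pos.2 hl).le)
      (fun p => by
        have e : (fun z => fderiv ℝ (fun p => l⁻¹ * f p) p z) =
            fun z => l⁻¹ * fderiv ℝ f p z := by
          ext1 z
          rw [hd]
          rfl
        rw [e, variance_const_mul]
        have h2 := mul_le_mul_of_nonneg_left (hvar p) (by positivity : 0 ≤ l⁻¹ ^ 2)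
        refine h2.trans (le_of_eq ?_)
        field_simp)
    rw [variance_const_mul] at h1
    have h2 := mul_le_mul_of_nonneg_left h1 (by positivity : 0 ≤ l ^ 2)
    have e1 : l ^ 2 * (l⁻¹ ^ 2 * Var[f; gibbs φ]) = Var[f; gibbs φ] := by field_simp
    rw [e1] at h2
    refine h2.trans (le_of_eq ?_)
    have e2 : ({p | p.1 ∈ Icc α β}ᶜ : Set (ℝ × F)) = {p | p.1 ∉ Icc α β} := rfl
    rw [e2]
    field_simp
  rcases hl.eq_or_lt with h0 | h0
  · refine le_of_forall_pos_le_add fun ε hε => ?_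
    have hq : 0 < ε / (C * K) := by positivity
    have h1 := main (Real.sqrt (ε / (C * K))) (Real.sqrt_pos.2 hq) (fun p => by
      refine (hvar p).trans ?_
      rw [← h0]
      simp only [ne_eq, OfNat.ofNat_ne_zero, not_false_eq_true, zero_pow]
      positivity)
    rw [Real.sq_sqrt hq.le] at h1
    have e : C * K * (ε / (C * K)) = ε := by field_simp
    rw [e] at h1
    rw [← h0]
    linarith
  · exact main l h0 hvar

end Pool.Agent.Lib.MP_6d896a_gt.FP
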