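import Mathlib
import Pool.Agent.Lib.MP_6d896a_gt.FP.KeyFib
import Pool.Agent.Lib.MP_6d896a_gt.FP.LVExtOf
import Pool.Agent.Lib.MP_6d896a_gt.FP.LVExtJOf

/-!
Pieces P5 and P5b of the fibre principle.
-/

set_option autoImplicit false

namespace Pool.Agent.Lib.MP_6d896a_gt.FP

open MeasureTheory ProbabilityTheory Set Filter
open scoped ENNReal Topology

theorem keyFibStat : KeyFibStat := fun _ _ _ _ _ _ _ _ h y v _ hK hAP hcov _ hf hl hL =>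
  key_fib h y v hK hAP hcov hf hl hL

/-- P5 -/
theorem lv_ext : ∃ C : ℝ, 0 < C ∧ ∀ (F : Type) [NormedAddCommGroup F] [NormedSpace ℝ F]
    [MeasureSpace F] [BorelSpace F] [FiniteDimensional ℝ F]
    [(volume : Measure F).IsAddHaarMeasure] (φ : ℝ × F → ℝ) (K : ℝ), 1 ≤ K → Nice φ →
    (∀ y, AP (gibbs (fun x => φ (y, x))) K) →
    ∀ f : ℝ × F → ℝ, ContDiff ℝ 1 f → (∃ B : ℝ, ∀ p, |f p| ≤ B) →
    (∃ B : ℝ, ∀ p, ‖fderiv ℝ f p‖ ≤ B) →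
    (∃ B : ℝ, ∀ p q, ‖fderiv ℝ f p - fderiv ℝ f q‖ ≤ B * ‖p - q‖) →
    (∀ p, Var[fun z => fderiv ℝ f p z; gibbs φ] ≤ 1) → Var[f; gibbs φ] ≤ C * K :=
  lv_ext_of keyFibStat

/-- P5b: localised version of `lv_ext` -/
theorem lv_extJ : ∃ C : ℝ, 0 < C ∧ ∀ (F : Type) [NormedAddCommGroup F] [NormedSpace ℝ F]
    [MeasureSpace F] [BorelSpace F] [FiniteDimensional ℝ F]
    [(volume : Measure F).IsAddHaarMeasure] (φ : ℝ × F → ℝ) (K : ℝ), 1 ≤ K → Nice φ →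
    ∀ α β : ℝ, α ≤ β → (∀ y ∈ Icc α β, AP (gibbs (fun x => φ (y, x))) K) →
    ∀ (f : ℝ × F → ℝ) (B l : ℝ), 0 ≤ B → 0 ≤ l → ContDiff ℝ 1 f → (∀ p, |f p| ≤ B) →
    (∃ B' : ℝ, ∀ p, ‖fderiv ℝ f p‖ ≤ B') →
    (∃ B' : ℝ, ∀ p q, ‖fderiv ℝ f p - fderiv ℝ f q‖ ≤ B' * ‖p - q‖) →
    (∀ p, Var[fun z => fderiv ℝ f p z; gibbs φ] ≤ l ^ 2) →
    Var[f; gibbs φ] ≤ C * K * l ^ 2 + 4 * B ^ 2 * (gibbs φ).real {p | p.1 ∉ Icc α β} :=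
  lv_extJ_of keyFibStat

end Pool.Agent.Lib.MP_6d896a_gt.FP
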