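import Mathlib
import Pool.Agent.Lib.MP_6d896a_gt.FP.ExtStepJOf
import Pool.Agent.Lib.MP_6d896a_gt.FP.EM
import Pool.Agent.Lib.MP_6d896a_gt.FP.LVExt

/-!
The localised one-dimensional extension step.
-/

set_option autoImplicit false

namespace Pool.Agent.Lib.MP_6d896a_gt.FP

open MeasureTheory ProbabilityTheory Set Filter

/-- G3: localised extension step -/
theorem ext_stepJ : ∃ C : ℝ, 1 ≤ C ∧ ∃ η : ℝ, 0 < η ∧ ∀ (F : Type) [NormedAddCommGroup F]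
    [NormedSpace ℝ F] [MeasureSpace F] [BorelSpace F] [FiniteDimensional ℝ F]
    [(volume : Measure F).IsAddHaarMeasure] (φ : ℝ × F → ℝ) (K : ℝ), 1 ≤ K → Nice φ →
    ∀ α β : ℝ, α ≤ β → (∀ y ∈ Icc α β, AP (gibbs (fun x => φ (y, x))) K) →
    (gibbs φ).real {p | p.1 ∉ Icc α β} ≤ η → AP (gibbs φ) (C * K) :=
  ext_stepJ_of ⟨cEM, cEM_pos, fun _ _ _ _ _ _ _ _ h _ hM hv _ hf hl => em_approx h hM hv hf hl⟩
    lv_extJ

end Pool.Agent.Lib.MP_6d896a_gt.FP
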