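import Mathlib

/-!
Logarithm of the Laplace transform of a finite measure with bounded support: bounds on the
derivatives.
-/

set_option autoImplicit false

namespace Pool.Agent.Lib.MP_6d896a_gt.FP

open MeasureTheory ProbabilityTheory Set Filter
open scoped ENNReal Topology

section laplace

variable {E : Type*} [NormedAddCommGroup E] [InnerProductSpace ℝ E] [FiniteDimensional ℝ E]
  [MeasurableSpace E] [BorelSpace E]
variable {G : Type*} [NormedAddCommGroup G] [NormedSpace ℝ G]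

/-- vector valued Laplace transform -/
noncomputable def NF (ρ : Measure E) (F : E → G) (x : E) : G :=
  ∫ z, Real.exp (inner ℝ x z) • F z ∂ρ

/-- multiplication by the variable -/
noncomputable def F1 (F : E → G) (z : E) : E →L[ℝ] G := (innerSL ℝ z).smulRight (F z)

omit [FiniteDimensional ℝ E] [MeasurableSpace E] [BorelSpace E] in
lemma F1_continuous {F : E → G} (hF : Continuous F) : Continuous (F1 F) := by
  unfold F1
  have h1 : Continuous (fun z : E => (innerSL ℝ z : E →L[ℝ] ℝ)) := (innerSL ℝ).continuous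
  exact ContinuousLinearMap.smulRightL ℝ E G |>.continuous₂.comp (h1.prodMk hF)

variable {ρ : Measure E} [IsFiniteMeasure ρ] {R : ℝ}

omit [FiniteDimensional ℝ E] [BorelSpace E] [IsFiniteMeasure ρ] in
lemma F1_bound {F : E → G} {A : ℝ} (hR : ∀ᵐ z ∂ρ, ‖z‖ ≤ R) (hA : ∀ᵐ z ∂ρ, ‖F z‖ ≤ A)
    : ∀ᵐ z ∂ρ, ‖F1 F z‖ ≤ R * A := by
  filter_upwards [hR, hA] with z h1 h2
  unfold F1
  rw [ContinuousLinearMap.norm_smulRight_apply, innerSL_apply_norm]
  exact mul_le_mul h1 h2 (norm_nonneg _) ((norm_nonneg _).trans h1)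

omit [FiniteDimensional ℝ E] in
lemma NF_integrable {F : E → G} (hF : Continuous F) [SecondCountableTopologyEither E G]
    {A : ℝ} (hR : ∀ᵐ z ∂ρ, ‖z‖ ≤ R)
    (hA : ∀ᵐ z ∂ρ, ‖F z‖ ≤ A) (x : E) :
    Integrable (fun z => Real.exp (inner ℝ x z) • F z) ρ := by
  have hc : Continuous (fun z : E => Real.exp (inner ℝ x z) • F z) := by fun_prop
  refine (integrable_const (Real.exp (‖x‖ * R) * A)).mono' hc.aestronglyMeasurable ?_
  filter_upwards [hR, hA] with z h1 h2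
  rw [norm_smul, Real.norm_eq_abs, abs_of_pos (Real.exp_pos _)]
  apply mul_le_mul _ h2 (norm_nonneg _) (Real.exp_pos _).le
  apply Real.exp_le_exp.mpr
  calc inner ℝ x z ≤ ‖x‖ * ‖z‖ := real_inner_le_norm x z
    _ ≤ ‖x‖ * R := mul_le_mul_of_nonneg_left h1 (norm_nonneg _)

lemma NF_hasFDerivAt {F : E → G} (hF : Continuous F) {A : ℝ} (hR : ∀ᵐ z ∂ρ, ‖z‖ ≤ R)
    (hA : ∀ᵐ z ∂ρ, ‖F z‖ ≤ A) (x : E) :
    HasFDerivAt (NF ρ F) (NF ρ (F1 F) x) x := by
  have hF1 := F1_continuous hF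
  have hb1 := F1_bound hR hA
  apply hasFDerivAt_integral_of_dominated_of_fderiv_le (s := Metric.ball x 1)
    (F := fun x z => Real.exp (inner ℝ x z) • F z)
    (F' := fun x z => Real.exp (inner ℝ x z) • F1 F z)
    (bound := fun z => Real.exp ((‖x‖ + 1) * R) * (R * A)) (Metric.ball_mem_nhds x one_pos)
  · apply Filter.Eventually.of_forall
    intro y
    have hc : Continuous (fun z : E => Real.exp (inner ℝ y z) • F z) := by fun_prop
    exact hc.aestronglyMeasurable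
  · exact NF_integrable hF hR hA x
  · have hc : Continuous (fun z : E => Real.exp (inner ℝ x z) • F1 F z) := by fun_prop
    exact hc.aestronglyMeasurable
  · filter_upwards [hR, hb1] with z h1 h2 y hy
    rw [norm_smul, Real.norm_eq_abs, abs_of_pos (Real.exp_pos _)]
    apply mul_le_mul _ h2 (norm_nonneg _) (Real.exp_pos _).le
    apply Real.exp_le_exp.mpr
    have h3 : ‖y‖ ≤ ‖x‖ + 1 := by
      rw [Metric.mem_ball, dist_eq_norm] at hy
      have := norm_sub_norm_le y x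
      linarith
    calc inner ℝ y z ≤ ‖y‖ * ‖z‖ := real_inner_le_norm y z
      _ ≤ (‖x‖ + 1) * R := mul_le_mul h3 h1 (norm_nonneg _) (by positivity)
  · exact integrable_const _
  · apply ae_of_all
    intro z y _
    have h1 : HasFDerivAt (fun y : E => (inner ℝ y z : ℝ)) (innerSL ℝ z) y := by
      have h2 := (innerSL ℝ z).hasFDerivAt (x := y)
      refine h2.congr_of_eventuallyEq (Filter.Eventually.of_forall fun w => ?_)
      simp only [innerSL_apply_apply]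
      exact real_inner_comm _ _
    have h2 := h1.exp.smul_const (F z)
    refine h2.congr_fderiv ?_
    ext w
    simp only [F1, ContinuousLinearMap.smulRight_apply, _root_.smul_apply, smul_eq_mul]
    rw [smul_smul]

/-- the Laplace transform -/
noncomputable def LM (ρ : Measure E) (x : E) : ℝ := NF ρ (fun _ => (1 : ℝ)) x

/-- tilted averages -/
noncomputable def TF (ρ : Measure E) (F : E → G) (x : E) : G := (LM ρ x)⁻¹ • NF ρ F x

omit [FiniteDimensional ℝ E] in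
lemma LM_pos (hρ : ρ ≠ 0) (hR : ∀ᵐ z ∂ρ, ‖z‖ ≤ R) (x : E) : 0 < LM ρ x := by
  have hint := NF_integrable (ρ := ρ) (F := fun _ => (1 : ℝ)) continuous_const (A := 1) hR
    (by simp) x
  unfold LM NF
  rw [integral_pos_iff_support_of_nonneg (fun z => by simp only [Pi.zero_apply]; positivity) hint]
  have : Function.support (fun z : E => Real.exp (inner ℝ x z) • (1 : ℝ)) = Set.univ := by
    ext z
    simp
  rw [this]
  exact (Measure.measure_univ_pos).mpr hρ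

/-- the mean of the tilted measure as a linear functional -/
noncomputable def Pm (ρ : Measure E) (x : E) : E →L[ℝ] ℝ := TF ρ (fun z => innerSL ℝ z) x

lemma LM_hasFDerivAt (hρ : ρ ≠ 0) (hR : ∀ᵐ z ∂ρ, ‖z‖ ≤ R) (x : E) :
    HasFDerivAt (LM ρ) (LM ρ x • Pm ρ x) x := by
  have h := NF_hasFDerivAt (ρ := ρ) (F := fun _ => (1 : ℝ)) continuous_const (A := 1) hR
    (by simp) x
  have e : NF ρ (F1 fun _ : E => (1 : ℝ)) x = LM ρ x • Pm ρ x := by
    unfold Pm TF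
    rw [smul_smul, mul_inv_cancel₀ (LM_pos hρ hR x).ne', one_smul]
    congr 1
    funext z
    ext w
    simp [F1]
  rw [e] at h
  exact h

omit [FiniteDimensional ℝ E] in
lemma TF_bound (hρ : ρ ≠ 0) (hR : ∀ᵐ z ∂ρ, ‖z‖ ≤ R) {F : E → G} {A : ℝ}
    (hA : ∀ᵐ z ∂ρ, ‖F z‖ ≤ A) (x : E) : ‖TF ρ F x‖ ≤ A := by
  have hpos := LM_pos hρ hR x
  unfold TF
  rw [norm_smul, norm_inv, Real.norm_eq_abs, abs_of_pos hpos, inv_mul_le_iff₀ hpos]
  have hint := NF_integrable (ρ := ρ) (F := fun _ => (1 : ℝ)) continuous_const (A := 1) hR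
    (by simp) x
  have h1 : ‖NF ρ F x‖ ≤ ∫ z, A * (Real.exp (inner ℝ x z) • (1 : ℝ)) ∂ρ := by
    apply norm_integral_le_of_norm_le (hint.const_mul A)
    filter_upwards [hA] with z hz
    rw [norm_smul, Real.norm_eq_abs, abs_of_pos (Real.exp_pos _), smul_eq_mul, mul_one, mul_comm]
    exact mul_le_mul_of_nonneg_right hz (Real.exp_pos _).le
  rw [integral_const_mul] at h1
  calc ‖NF ρ F x‖ ≤ A * LM ρ x := h1
    _ = LM ρ x * A := mul_comm _ _

lemma TF_hasFDerivAt (hρ : ρ ≠ 0) (hR : ∀ᵐ z ∂ρ, ‖z‖ ≤ R) {F : E → G} (hF : Continuous F)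
    {A : ℝ} (hA : ∀ᵐ z ∂ρ, ‖F z‖ ≤ A) (x : E) :
    HasFDerivAt (TF ρ F) (TF ρ (F1 F) x - (Pm ρ x).smulRight (TF ρ F x)) x := by
  have hpos := LM_pos hρ hR x
  have h1 := NF_hasFDerivAt hF hR hA x
  have h2 := (hasDerivAt_inv hpos.ne').comp_hasFDerivAt x (LM_hasFDerivAt hρ hR x)
  have h3 := h2.smul h1
  refine h3.congr_fderiv ?_
  ext w
  simp only [TF, _root_.add_apply, _root_.sub_apply, _root_.smul_apply, smul_eq_mul,
    ContinuousLinearMap.smulRight_apply, Function.comp_apply]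
  rw [smul_smul, sub_eq_add_neg, ← neg_smul]
  congr 2
  field_simp

lemma TF_lip (hρ : ρ ≠ 0) (hR : ∀ᵐ z ∂ρ, ‖z‖ ≤ R) {F : E → G} (hF : Continuous F)
    {A : ℝ} (hA : ∀ᵐ z ∂ρ, ‖F z‖ ≤ A) (x y : E) :
    ‖TF ρ F x - TF ρ F y‖ ≤ (2 * (R * A)) * ‖x - y‖ := by
  have hb : ∀ w : E, ‖TF ρ (F1 F) w - (Pm ρ w).smulRight (TF ρ F w)‖ ≤ 2 * (R * A) := by
    intro w
    have h1 := TF_bound hρ hR (F1_bound hR hA) w
    have h2 := TF_bound hρ hR hA w
    have h3 : ‖Pm ρ w‖ ≤ R := TF_bound hρ hR (F := fun z => (innerSL ℝ z : E →L[ℝ] ℝ)) (A := R) (by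
      filter_upwards [hR] with z hz
      rw [innerSL_apply_norm]
      exact hz) w
    refine (norm_sub_le _ _).trans ?_
    rw [ContinuousLinearMap.norm_smulRight_apply]
    have h4 : ‖Pm ρ w‖ * ‖TF ρ F w‖ ≤ R * A :=
      mul_le_mul h3 h2 (norm_nonneg _) ((norm_nonneg _).trans h3)
    linarith
  exact convex_univ.norm_image_sub_le_of_norm_hasFDerivWithin_le
    (fun w _ => (TF_hasFDerivAt hρ hR hF hA w).hasFDerivWithinAt) (fun w _ => hb w)
    (Set.mem_univ y) (Set.mem_univ x)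

/-- logarithm of the Laplace transform -/
noncomputable def Lam (ρ : Measure E) (x : E) : ℝ := Real.log (LM ρ x)

/-- its second derivative -/
noncomputable def Qm (ρ : Measure E) (x : E) : E →L[ℝ] E →L[ℝ] ℝ :=
  TF ρ (F1 fun z => (innerSL ℝ z : E →L[ℝ] ℝ)) x - (Pm ρ x).smulRight (Pm ρ x)

omit [FiniteDimensional ℝ E] [BorelSpace E] [IsFiniteMeasure ρ] in
lemma inner_bound (hR : ∀ᵐ z ∂ρ, ‖z‖ ≤ R) : ∀ᵐ z ∂ρ, ‖(innerSL ℝ z : E →L[ℝ] ℝ)‖ ≤ R := by
  filter_upwards [hR] with z hz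
  rw [innerSL_apply_norm]
  exact hz

lemma Lam_hasFDerivAt (hρ : ρ ≠ 0) (hR : ∀ᵐ z ∂ρ, ‖z‖ ≤ R) (x : E) :
    HasFDerivAt (Lam ρ) (Pm ρ x) x := by
  have hpos := LM_pos hρ hR x
  have h := (LM_hasFDerivAt hρ hR x).log hpos.ne'
  rw [smul_smul, inv_mul_cancel₀ hpos.ne', one_smul] at h
  exact h

lemma Pm_hasFDerivAt (hρ : ρ ≠ 0) (hR : ∀ᵐ z ∂ρ, ‖z‖ ≤ R) (x : E) :
    HasFDerivAt (Pm ρ) (Qm ρ x) x :=
  TF_hasFDerivAt hρ hR (F := fun z => (innerSL ℝ z : E →L[ℝ] ℝ)) (innerSL ℝ).continuous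
    (inner_bound hR) x

omit [FiniteDimensional ℝ E] in
lemma Pm_bound (hρ : ρ ≠ 0) (hR : ∀ᵐ z ∂ρ, ‖z‖ ≤ R) (x : E) : ‖Pm ρ x‖ ≤ R :=
  TF_bound hρ hR (inner_bound hR) x

lemma Pm_lip (hρ : ρ ≠ 0) (hR : ∀ᵐ z ∂ρ, ‖z‖ ≤ R) (x y : E) :
    ‖Pm ρ x - Pm ρ y‖ ≤ (2 * (R * R)) * ‖x - y‖ :=
  TF_lip hρ hR (F := fun z => (innerSL ℝ z : E →L[ℝ] ℝ)) (innerSL ℝ).continuous
    (inner_bound hR) x y

lemma Qm_bound (hρ : ρ ≠ 0) (hR : ∀ᵐ z ∂ρ, ‖z‖ ≤ R) (x : E) : ‖Qm ρ x‖ ≤ 2 * (R * R) := by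
  unfold Qm
  refine (norm_sub_le (TF ρ (F1 fun z => (innerSL ℝ z : E →L[ℝ] ℝ)) x)
    ((Pm ρ x).smulRight (Pm ρ x))).trans ?_
  rw [ContinuousLinearMap.norm_smulRight_apply]
  have h1 := TF_bound hρ hR (F1_bound hR (inner_bound hR)) x
  have h2 := Pm_bound hρ hR x
  have h3 : ‖Pm ρ x‖ * ‖Pm ρ x‖ ≤ R * R :=
    mul_le_mul h2 h2 (norm_nonneg _) ((norm_nonneg _).trans h2)
  linarith

lemma Qm_lip (hρ : ρ ≠ 0) (hR : ∀ᵐ z ∂ρ, ‖z‖ ≤ R) (x y : E) :
    ‖Qm ρ x - Qm ρ y‖ ≤ (6 * (R * (R * R))) * ‖x - y‖ := by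
  have h1 := TF_lip hρ hR (F1_continuous (F := fun z => (innerSL ℝ z : E →L[ℝ] ℝ))
    (innerSL ℝ).continuous) (F1_bound hR (inner_bound hR)) x y
  have h2 := Pm_bound hρ hR x
  have h2' := Pm_bound hρ hR y
  have h3 := Pm_lip hρ hR x y
  have hR0 : 0 ≤ R := (norm_nonneg _).trans h2
  have e : Qm ρ x - Qm ρ y = (TF ρ (F1 fun z => (innerSL ℝ z : E →L[ℝ] ℝ)) x -
      TF ρ (F1 fun z => (innerSL ℝ z : E →L[ℝ] ℝ)) y) -
      ((Pm ρ x - Pm ρ y).smulRight (Pm ρ x) + (Pm ρ y).smulRight (Pm ρ x - Pm ρ y)) := by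
    unfold Qm
    ext u w
    simp only [_root_.add_apply, _root_.sub_apply, _root_.smul_apply, smul_eq_mul,
      ContinuousLinearMap.smulRight_apply]
    ring
  rw [e]
  refine (norm_sub_le (TF ρ (F1 fun z => (innerSL ℝ z : E →L[ℝ] ℝ)) x -
      TF ρ (F1 fun z => (innerSL ℝ z : E →L[ℝ] ℝ)) y) _).trans ?_
  have h4 : ‖(Pm ρ x - Pm ρ y).smulRight (Pm ρ x) + (Pm ρ y).smulRight (Pm ρ x - Pm ρ y)‖ ≤
      (4 * (R * (R * R))) * ‖x - y‖ := by
    refine (norm_add_le ((Pm ρ x - Pm ρ y).smulRight (Pm ρ x)) _).trans ?_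
    rw [ContinuousLinearMap.norm_smulRight_apply, ContinuousLinearMap.norm_smulRight_apply]
    have h5 : ‖Pm ρ x - Pm ρ y‖ * ‖Pm ρ x‖ ≤ (2 * (R * R)) * ‖x - y‖ * R :=
      mul_le_mul h3 h2 (norm_nonneg _) (by positivity)
    have h6 : ‖Pm ρ y‖ * ‖Pm ρ x - Pm ρ y‖ ≤ R * ((2 * (R * R)) * ‖x - y‖) :=
      mul_le_mul h2' h3 (norm_nonneg _) hR0
    linarith
  linarith

end laplace

end Pool.Agent.Lib.MP_6d896a_gt.FP
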