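import Mathlib
import Pool.Agent.Lib.MP_6d896a_gt.Channel2
import Pool.Agent.Lib.MP_6d896a_gt.FP.Laplace
import Pool.Agent.Lib.MP_6d896a_gt.FP.PotOf
import Pool.Agent.Lib.MP_6d896a_gt.FP.PLm

/-!
Gaussian smoothing of a log-concave measure with bounded support.
-/

set_option autoImplicit false

namespace Pool.Agent.Lib.MP_6d896a_gt.FP

open MeasureTheory ProbabilityTheory Set Filter
open scoped ENNReal Topology

section smoothing

variable {E : Type*} [NormedAddCommGroup E] [InnerProductSpace ℝ E] [FiniteDimensional ℝ E]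
  [MeasurableSpace E] [BorelSpace E]

/-- Gaussian smoothing -/
noncomputable def fG (m : Measure E) (d : ℝ) (x : E) : ℝ := ∫ z, gk d (x - z) ∂m

/-- the measure whose Laplace transform appears in the smoothing -/
noncomputable def rho (m : Measure E) (d : ℝ) : Measure E :=
  (m.withDensity (fun z => ENNReal.ofReal (Real.exp (-d * ‖z‖ ^ 2)))).map (fun z => (2 * d) • z)

variable {m : Measure E} [IsFiniteMeasure m] {d R : ℝ}

omit [InnerProductSpace ℝ E] [FiniteDimensional ℝ E] [BorelSpace E] [IsFiniteMeasure m] in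
lemma dens_measurable [NormedSpace ℝ E] [OpensMeasurableSpace E] (d : ℝ) :
    Measurable (fun z : E => ENNReal.ofReal (Real.exp (-d * ‖z‖ ^ 2))) := by
  fun_prop

omit [InnerProductSpace ℝ E] [FiniteDimensional ℝ E] in
lemma dens_finite (hd : 0 < d) :
    IsFiniteMeasure (m.withDensity (fun z => ENNReal.ofReal (Real.exp (-d * ‖z‖ ^ 2)))) := by
  have hc : Continuous (fun z : E => Real.exp (-d * ‖z‖ ^ 2)) := by fun_prop
  have hint : Integrable (fun z : E => Real.exp (-d * ‖z‖ ^ 2)) m := by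
    refine (integrable_const (1 : ℝ)).mono' hc.aestronglyMeasurable (ae_of_all _ fun z => ?_)
    rw [Real.norm_eq_abs, abs_of_pos (Real.exp_pos _)]
    apply Real.exp_le_one_iff.mpr
    nlinarith [sq_nonneg ‖z‖]
  exact isFiniteMeasure_withDensity_ofReal hint.2

omit [FiniteDimensional ℝ E] in
lemma rho_finite (hd : 0 < d) : IsFiniteMeasure (rho m d) := by
  have := dens_finite (m := m) hd
  unfold rho
  infer_instance

omit [FiniteDimensional ℝ E] [IsFiniteMeasure m] in
lemma rho_ne (hm : m ≠ 0) : rho m d ≠ 0 := by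
  intro h
  unfold rho at h
  have hs : Measurable (fun z : E => (2 * d) • z) := by fun_prop
  rw [Measure.map_eq_zero_iff hs.aemeasurable] at h
  have h1 := withDensity_eq_zero (by fun_prop) h
  have h2 : ∀ᵐ z ∂m, False := by
    filter_upwards [h1] with z hz
    simp only [Pi.zero_apply, ENNReal.ofReal_eq_zero] at hz
    exact absurd (Real.exp_pos _) (not_lt.mpr hz)
  rw [Filter.eventually_false_iff_eq_bot, ae_eq_bot] at h2
  exact hm h2

omit [FiniteDimensional ℝ E] [IsFiniteMeasure m] in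
lemma rho_bound (hd : 0 < d) (hR : ∀ᵐ z ∂m, ‖z‖ ≤ R) : ∀ᵐ z ∂(rho m d), ‖z‖ ≤ 2 * d * R := by
  unfold rho
  have hs : Measurable (fun z : E => (2 * d) • z) := by fun_prop
  rw [ae_map_iff hs.aemeasurable (measurableSet_le measurable_norm measurable_const)]
  apply (withDensity_absolutelyContinuous m _).ae_le
  filter_upwards [hR] with z hz
  rw [norm_smul, Real.norm_eq_abs, abs_of_pos (by positivity)]
  exact mul_le_mul_of_nonneg_left hz (by positivity)

omit [FiniteDimensional ℝ E] [IsFiniteMeasure m] in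
lemma LM_rho (x : E) : LM (rho m d) x =
    ∫ z, Real.exp (-d * ‖z‖ ^ 2) * Real.exp (2 * d * inner ℝ x z) ∂m := by
  unfold LM NF rho
  have hs : Measurable (fun z : E => (2 * d) • z) := by fun_prop
  have hc : Continuous (fun z : E => Real.exp (inner ℝ x z) • (1 : ℝ)) := by fun_prop
  rw [integral_map hs.aemeasurable hc.aestronglyMeasurable]
  have e3 : (fun z : E => ENNReal.ofReal (Real.exp (-d * ‖z‖ ^ 2))) =
      fun z => ((Real.toNNReal (Real.exp (-d * ‖z‖ ^ 2)) : NNReal) : ℝ≥0∞) := rfl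
  have hm : Measurable (fun z : E => Real.toNNReal (Real.exp (-d * ‖z‖ ^ 2))) := by fun_prop
  rw [e3, integral_withDensity_eq_integral_smul hm]
  congr 1
  funext z
  rw [NNReal.smul_def, Real.coe_toNNReal _ (Real.exp_pos _).le, smul_eq_mul, smul_eq_mul, mul_one,
    inner_smul_right]

omit [IsFiniteMeasure m] in
lemma fG_eq (x : E) : fG m d x =
    (gZ E d)⁻¹ * Real.exp (-d * ‖x‖ ^ 2) * LM (rho m d) x := by
  rw [LM_rho]
  unfold fG gk
  rw [← integral_const_mul]
  congr 1
  funext z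
  rw [mul_assoc, mul_assoc]
  congr 1
  rw [← Real.exp_add, ← Real.exp_add]
  congr 1
  rw [norm_sub_sq_real]
  ring

lemma fG_pos (hd : 0 < d) (hm : m ≠ 0) (hR : ∀ᵐ z ∂m, ‖z‖ ≤ R) (x : E) : 0 < fG m d x := by
  have := rho_finite (m := m) hd
  rw [fG_eq]
  have h1 := LM_pos (rho_ne (d := d) hm) (rho_bound hd hR) x
  have h2 := gZ_pos (E := E) hd
  positivity

lemma gk_comp_integrable (hd : 0 < d) (x : E) : Integrable (fun z => gk d (x - z)) m := by
  have hc : Continuous (fun z : E => gk d (x - z)) :=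
    (gk_continuous d).comp (continuous_const.sub continuous_id)
  refine (integrable_const ((gZ E d)⁻¹)).mono' hc.aestronglyMeasurable (ae_of_all _ fun z => ?_)
  rw [Real.norm_eq_abs, abs_of_pos (gk_pos hd _)]
  exact gk_le hd _

omit [FiniteDimensional ℝ E] [MeasurableSpace E] [BorelSpace E] in
lemma norm_sq_convex (a b : E) {l : ℝ} (h0 : 0 ≤ l) (h1 : l ≤ 1) :
    ‖(1 - l) • a + l • b‖ ^ 2 ≤ (1 - l) * ‖a‖ ^ 2 + l * ‖b‖ ^ 2 := by
  have h2 := norm_add_sq_real ((1 - l) • a) (l • b)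
  rw [inner_smul_left, inner_smul_right, conj_trivial, norm_smul, norm_smul, Real.norm_eq_abs,
    Real.norm_eq_abs, abs_of_nonneg h0, abs_of_nonneg (by linarith : 0 ≤ 1 - l)] at h2
  have h3 := real_inner_le_norm a b
  rw [h2]
  have h4 : 0 ≤ (1 - l) * l := mul_nonneg (by linarith) h0
  have h5 : (1 - l) * l * inner ℝ a b ≤ (1 - l) * l * (‖a‖ * ‖b‖) :=
    mul_le_mul_of_nonneg_left h3 h4
  have h6 : 0 ≤ (1 - l) * l * (‖a‖ - ‖b‖) ^ 2 := mul_nonneg h4 (sq_nonneg _)
  nlinarith

lemma fG_logconcave (hd : 0 < d) (hpl : PLm m) (x y : E) {l : ℝ} (h0 : 0 < l) (h1 : l < 1) :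
    fG m d x ^ (1 - l) * fG m d y ^ l ≤ fG m d ((1 - l) • x + l • y) := by
  have hmk : ∀ x : E, Measurable (fun z : E => ENNReal.ofReal (gk d (x - z))) := by
    intro x
    exact ((gk_continuous d).comp (continuous_const.sub continuous_id)).measurable.ennreal_ofReal
  have hZ := gZ_pos (E := E) hd
  have h := hpl l h0 h1 (fun z => ENNReal.ofReal (gk d (x - z)))
    (fun z => ENNReal.ofReal (gk d (y - z)))
    (fun z => ENNReal.ofReal (gk d (((1 - l) • x + l • y) - z))) (hmk _) (hmk _) (hmk _) (by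
      intro z w
      rw [ENNReal.ofReal_rpow_of_nonneg (gk_pos hd _).le (by linarith),
        ENNReal.ofReal_rpow_of_nonneg (gk_pos hd _).le h0.le,
        ← ENNReal.ofReal_mul (Real.rpow_nonneg (gk_pos hd _).le _)]
      apply ENNReal.ofReal_le_ofReal
      unfold gk
      rw [Real.mul_rpow (by positivity) (Real.exp_pos _).le,
        Real.mul_rpow (by positivity) (Real.exp_pos _).le, ← Real.exp_mul, ← Real.exp_mul]
      have e1 : (gZ E d)⁻¹ ^ (1 - l) * Real.exp (-d * ‖x - z‖ ^ 2 * (1 - l)) *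
          ((gZ E d)⁻¹ ^ l * Real.exp (-d * ‖y - w‖ ^ 2 * l)) =
          ((gZ E d)⁻¹ ^ (1 - l) * (gZ E d)⁻¹ ^ l) *
          Real.exp (-d * ‖x - z‖ ^ 2 * (1 - l) + -d * ‖y - w‖ ^ 2 * l) := by
        rw [Real.exp_add]; ring
      rw [e1, ← Real.rpow_add (by positivity)]
      have e2 : 1 - l + l = 1 := by ring
      rw [e2, Real.rpow_one]
      apply mul_le_mul_of_nonneg_left _ (by positivity)
      apply Real.exp_le_exp.mpr
      have e3 : (1 - l) • x + l • y - ((1 - l) • z + l • w) =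
          (1 - l) • (x - z) + l • (y - w) := by
        rw [smul_sub, smul_sub]; abel
      rw [e3]
      have h2 := norm_sq_convex (x - z) (y - w) h0.le h1.le
      nlinarith)
  have hr : ∀ x : E, ∫⁻ z, ENNReal.ofReal (gk d (x - z)) ∂m = ENNReal.ofReal (fG m d x) := by
    intro x
    unfold fG
    rw [ofReal_integral_eq_lintegral_ofReal (gk_comp_integrable hd x)
      (ae_of_all _ fun z => (gk_pos hd _).le)]
  have hnn : ∀ x : E, 0 ≤ fG m d x := fun x => integral_nonneg fun z => (gk_pos hd _).le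
  rw [hr, hr, hr, ENNReal.ofReal_rpow_of_nonneg (hnn _) (by linarith),
    ENNReal.ofReal_rpow_of_nonneg (hnn _) h0.le,
    ← ENNReal.ofReal_mul (Real.rpow_nonneg (hnn _) _)] at h
  exact (ENNReal.ofReal_le_ofReal_iff (hnn _)).mp h

/-- the inner product as a bounded bilinear map -/
noncomputable def iL (E : Type*) [NormedAddCommGroup E] [InnerProductSpace ℝ E]
    [FiniteDimensional ℝ E] : E →L[ℝ] E →L[ℝ] ℝ :=
  LinearMap.toContinuousLinearMap
    { toFun := fun z => (innerSL ℝ z : E →L[ℝ] ℝ)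
      map_add' := fun a b => by simp
      map_smul' := fun r L => by simp }

omit [MeasurableSpace E] [BorelSpace E] in
lemma iL_apply (x y : E) : iL E x y = inner ℝ x y := rfl

omit [MeasurableSpace E] [BorelSpace E] in
lemma iL_norm : ‖iL E‖ ≤ 1 := by
  apply ContinuousLinearMap.opNorm_le_bound _ zero_le_one
  intro x
  rw [one_mul]
  exact (innerSL_apply_norm (𝕜 := ℝ) x).le

omit [MeasurableSpace E] [BorelSpace E] in
lemma sq_hasFDerivAt (a x : E) : HasFDerivAt (fun x : E => ‖x - a‖ ^ 2) (2 • iL E (x - a)) x := by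
  have h := ((hasFDerivAt_id x).sub_const a).norm_sq
  refine h.congr_fderiv ?_
  ext w
  simp [iL_apply]

/-- potential of the smoothing times a Gaussian -/
noncomputable def Vp (m : Measure E) (d s : ℝ) (a x : E) : ℝ :=
  s * ‖x - a‖ ^ 2 + (d * ‖x‖ ^ 2 - Lam (rho m d) x + (Real.log (gZ E s) + Real.log (gZ E d)))

/-- its derivative -/
noncomputable def Pp (m : Measure E) (d s : ℝ) (a x : E) : E →L[ℝ] ℝ :=
  (2 * s) • iL E (x - a) + ((2 * d) • iL E x - Pm (rho m d) x)

/-- its second derivative -/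
noncomputable def Qp (m : Measure E) (d s : ℝ) (x : E) : E →L[ℝ] E →L[ℝ] ℝ :=
  (2 * s) • iL E + ((2 * d) • iL E - Qm (rho m d) x)

lemma exp_neg_Vp (hd : 0 < d) (hm : m ≠ 0) (hR : ∀ᵐ z ∂m, ‖z‖ ≤ R) {s : ℝ} (hs : 0 < s)
    (a x : E) : Real.exp (-Vp m d s a x) = gk s (x - a) * fG m d x := by
  have := rho_finite (m := m) hd
  have h1 := LM_pos (rho_ne (d := d) hm) (rho_bound hd hR) x
  have h2 := gZ_pos (E := E) hd
  have h3 := gZ_pos (E := E) hs
  rw [fG_eq]
  unfold Vp gk Lam
  have e : -(s * ‖x - a‖ ^ 2 + (d * ‖x‖ ^ 2 - Real.log (LM (rho m d) x) +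
      (Real.log (gZ E s) + Real.log (gZ E d)))) =
      -s * ‖x - a‖ ^ 2 + -d * ‖x‖ ^ 2 + Real.log (LM (rho m d) x) + Real.log ((gZ E s)⁻¹) +
        Real.log ((gZ E d)⁻¹) := by
    rw [Real.log_inv, Real.log_inv]; ring
  rw [e, Real.exp_add, Real.exp_add, Real.exp_add, Real.exp_add, Real.exp_log h1,
    Real.exp_log (by positivity), Real.exp_log (by positivity)]
  ring

lemma Vp_hasFDerivAt (hd : 0 < d) (hm : m ≠ 0) (hR : ∀ᵐ z ∂m, ‖z‖ ≤ R) (s : ℝ)
    (a x : E) : HasFDerivAt (Vp m d s a) (Pp m d s a x) x := by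
  have := rho_finite (m := m) hd
  have h1 := (sq_hasFDerivAt a x).const_mul s
  have h2 := (sq_hasFDerivAt 0 x).const_mul d
  simp only [sub_zero] at h2
  have h3 := Lam_hasFDerivAt (rho_ne (d := d) hm) (rho_bound hd hR) x
  have h4 := h1.add ((h2.sub h3).add_const (Real.log (gZ E s) + Real.log (gZ E d)))
  refine h4.congr_fderiv ?_
  unfold Pp
  ext w
  simp only [_root_.add_apply, _root_.sub_apply, _root_.smul_apply, smul_eq_mul, nsmul_eq_mul]
  push_cast
  ring

lemma Pp_hasFDerivAt (hd : 0 < d) (hm : m ≠ 0) (hR : ∀ᵐ z ∂m, ‖z‖ ≤ R) (s : ℝ)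
    (a x : E) : HasFDerivAt (Pp m d s a) (Qp m d s x) x := by
  have := rho_finite (m := m) hd
  have h1 : HasFDerivAt (fun x : E => (2 * s) • iL E (x - a)) ((2 * s) • iL E) x := by
    have h := (iL E).hasFDerivAt.comp x ((hasFDerivAt_id x).sub_const a)
    exact h.const_smul (2 * s)
  have h2 : HasFDerivAt (fun x : E => (2 * d) • iL E x) ((2 * d) • iL E) x :=
    (iL E).hasFDerivAt.const_smul (2 * d)
  have h3 := Pm_hasFDerivAt (rho_ne (d := d) hm) (rho_bound hd hR) x
  exact h1.add (h2.sub h3)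

lemma Qp_bound (hd : 0 < d) (hm : m ≠ 0) (hR : ∀ᵐ z ∂m, ‖z‖ ≤ R) {s : ℝ} (hs : 0 < s)
    (x : E) : ‖Qp m d s x‖ ≤ 2 * s + (2 * d + 2 * ((2 * d * R) * (2 * d * R))) := by
  have := rho_finite (m := m) hd
  have h3 := Qm_bound (rho_ne (d := d) hm) (rho_bound hd hR) x
  unfold Qp
  refine (norm_add_le ((2 * s) • iL E) _).trans ?_
  have h4 := norm_sub_le ((2 * d) • iL E) (Qm (rho m d) x)
  have h5 : ‖(2 * s) • iL E‖ ≤ 2 * s := by
    refine (ContinuousLinearMap.opNorm_smul_le (2 * s) (iL E)).trans ?_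
    rw [Real.norm_eq_abs, abs_of_pos (by positivity)]
    exact mul_le_of_le_one_right (by positivity) iL_norm
  have h6 : ‖(2 * d) • iL E‖ ≤ 2 * d := by
    refine (ContinuousLinearMap.opNorm_smul_le (2 * d) (iL E)).trans ?_
    rw [Real.norm_eq_abs, abs_of_pos (by positivity)]
    exact mul_le_of_le_one_right (by positivity) iL_norm
  linarith

lemma Qp_lip (hd : 0 < d) (hm : m ≠ 0) (hR : ∀ᵐ z ∂m, ‖z‖ ≤ R) (s : ℝ)
    (x y : E) : ‖Qp m d s x - Qp m d s y‖ ≤
      (6 * ((2 * d * R) * ((2 * d * R) * (2 * d * R)))) * ‖x - y‖ := by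
  have := rho_finite (m := m) hd
  have h3 := Qm_lip (rho_ne (d := d) hm) (rho_bound hd hR) x y
  have e : Qp m d s x - Qp m d s y = -(Qm (rho m d) x - Qm (rho m d) y) := by
    unfold Qp
    abel
  rw [e]
  exact (ContinuousLinearMap.opNorm_neg _).trans_le h3

/-- minus logarithm of the smoothing -/
lemma Wp_convex (hd : 0 < d) (hm : m ≠ 0) (hR : ∀ᵐ z ∂m, ‖z‖ ≤ R) (hpl : PLm m) (x y : E)
    {l : ℝ} (h0 : 0 < l) (h1 : l < 1) :
    (d * ‖(1 - l) • x + l • y‖ ^ 2 - Lam (rho m d) ((1 - l) • x + l • y)) ≤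
      (1 - l) * (d * ‖x‖ ^ 2 - Lam (rho m d) x) + l * (d * ‖y‖ ^ 2 - Lam (rho m d) y) := by
  have := rho_finite (m := m) hd
  have hW : ∀ x, d * ‖x‖ ^ 2 - Lam (rho m d) x = -Real.log (fG m d x) - Real.log (gZ E d) := by
    intro x
    have h1 := LM_pos (rho_ne (d := d) hm) (rho_bound hd hR) x
    have h2 := gZ_pos (E := E) hd
    rw [fG_eq, Real.log_mul (by positivity) h1.ne', Real.log_mul (by positivity) (by positivity),
      Real.log_exp, Real.log_inv]
    unfold Lam
    ring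
  rw [hW, hW, hW]
  have hx := fG_pos hd hm hR x
  have hy := fG_pos hd hm hR y
  have h := fG_logconcave hd hpl x y h0 h1
  have h3 := Real.log_le_log (by positivity) h
  rw [Real.log_mul (by positivity) (by positivity), Real.log_rpow hx, Real.log_rpow hy] at h3
  linarith

lemma Pp_mono (hd : 0 < d) (hm : m ≠ 0) (hR : ∀ᵐ z ∂m, ‖z‖ ≤ R) (hpl : PLm m) (s : ℝ)
    (a x y : E) : 2 * s * ‖x - y‖ ^ 2 ≤ (Pp m d s a x - Pp m d s a y) (x - y) := by
  have := rho_finite (m := m) hd
  -- derivative of W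
  set W : E → ℝ := fun x => d * ‖x‖ ^ 2 - Lam (rho m d) x with hW
  set PW : E → E →L[ℝ] ℝ := fun x => (2 * d) • iL E x - Pm (rho m d) x with hPW
  have hder : ∀ x, HasFDerivAt W (PW x) x := by
    intro x
    have h2 := (sq_hasFDerivAt 0 x).const_mul d
    simp only [sub_zero] at h2
    have h3 := Lam_hasFDerivAt (rho_ne (d := d) hm) (rho_bound hd hR) x
    refine (h2.sub h3).congr_fderiv ?_
    rw [hPW]
    ext w
    simp only [_root_.sub_apply, _root_.smul_apply, smul_eq_mul, nsmul_eq_mul]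
    push_cast
    ring
  have hslope : ∀ x y : E, PW x (y - x) ≤ W y - W x := by
    intro x y
    have h1 := line_deriv hder x (y - x) 0
    simp only [zero_smul, add_zero] at h1
    have h2 := h1.tendsto_slope_zero_right
    simp only [zero_add, zero_smul, add_zero] at h2
    apply le_of_tendsto h2
    filter_upwards [Ioo_mem_nhdsGT (zero_lt_one' ℝ)] with t ht
    have h3 := Wp_convex hd hm hR hpl x y ht.1 ht.2
    have e : x + t • (y - x) = (1 - t) • x + t • y := by
      rw [smul_sub, sub_smul, one_smul]; abel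
    rw [smul_eq_mul, ← div_eq_inv_mul, div_le_iff₀ ht.1, e]
    simp only [hW]
    linarith
  have h1 := hslope x y
  have h2 := hslope y x
  have e1 : y - x = -(x - y) := by abel
  rw [e1, map_neg] at h1
  have e2 : (Pp m d s a x - Pp m d s a y) (x - y) = 2 * s * ‖x - y‖ ^ 2 +
      (PW x (x - y) - PW y (x - y)) := by
    have e3 : Pp m d s a x - Pp m d s a y = (2 * s) • iL E (x - y) + (PW x - PW y) := by
      unfold Pp
      simp only [hPW]
      have e4 : iL E (x - y) = iL E (x - a) - iL E (y - a) := by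
        rw [← map_sub]; congr 1; abel
      rw [e4, smul_sub]
      abel
    rw [e3]
    simp only [_root_.add_apply, _root_.sub_apply, _root_.smul_apply, smul_eq_mul, iL_apply]
    rw [real_inner_self_eq_norm_sq]
  rw [e2]
  linarith

theorem Vp_pot (hd : 0 < d) (hm : m ≠ 0) (hR0 : 0 ≤ R) (hR : ∀ᵐ z ∂m, ‖z‖ ≤ R) (hpl : PLm m)
    {s : ℝ} (hs : 0 < s) (a : E) :
    Pot (Vp m d s a) (grd (Pp m d s a)) (2 * s)
      (2 * s + (2 * d + 2 * ((2 * d * R) * (2 * d * R))))
      (6 * ((2 * d * R) * ((2 * d * R) * (2 * d * R)))) :=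
  pot_of (Vp_hasFDerivAt hd hm hR s a) (Pp_hasFDerivAt hd hm hR s a) (by positivity)
    (Qp_bound hd hm hR hs) (by positivity) (Qp_lip hd hm hR s) (Pp_mono hd hm hR hpl s a)

/-- the law of `z + t ξ` -/
noncomputable def cv (m : Measure E) (t : ℝ) : Measure E :=
  (m.prod (stdGaussian E)).map (fun p => p.1 + t • p.2)

lemma fG_ofReal (hd : 0 < d) (x : E) :
    ENNReal.ofReal (fG m d x) = ∫⁻ z, ENNReal.ofReal (gk d (x - z)) ∂m := by
  unfold fG
  rw [ofReal_integral_eq_lintegral_ofReal (gk_comp_integrable hd x)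
    (ae_of_all _ fun z => (gk_pos hd _).le)]

lemma fG_measurable : Measurable (fun x => fG m d x) := by
  have hkm : Measurable (fun p : E × E => gk d (p.1 - p.2)) :=
    ((gk_continuous d).comp (continuous_fst.sub continuous_snd)).measurable
  exact (hkm.stronglyMeasurable.integral_prod_right').measurable

lemma swap_fG (hd : 0 < d) {F : E → ℝ≥0∞} (hF : Measurable F) :
    ∫⁻ z, (∫⁻ x, F x * ENNReal.ofReal (gk d (x - z))) ∂m =
      ∫⁻ x, ENNReal.ofReal (fG m d x) * F x := by
  have hk2 : Measurable (fun p : E × E => ENNReal.ofReal (gk d (p.2 - p.1))) :=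
    ((gk_continuous d).comp (continuous_snd.sub continuous_fst)).measurable.ennreal_ofReal
  have hmm : Measurable (fun p : E × E => F p.2 * ENNReal.ofReal (gk d (p.2 - p.1))) :=
    (hF.comp measurable_snd).mul hk2
  have hsw := lintegral_lintegral_swap (μ := m) (ν := (volume : Measure E))
    (f := fun z x => F x * ENNReal.ofReal (gk d (x - z))) hmm.aemeasurable
  rw [hsw]
  apply lintegral_congr
  intro x
  have hk3 : Measurable (fun z : E => ENNReal.ofReal (gk d (x - z))) :=
    ((gk_continuous d).comp (continuous_const.sub continuous_id)).measurable.ennreal_ofReal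
  rw [lintegral_const_mul _ hk3, mul_comm, fG_ofReal hd]

omit [IsFiniteMeasure m] in
lemma cv_lintegral {t : ℝ} (ht : 0 < t) (hdt : 1 / (2 * t ^ 2) = d) {F : E → ℝ≥0∞}
    (hF : Measurable F) :
    ∫⁻ x, F x ∂(cv m t) = ∫⁻ z, (∫⁻ x, F x * ENNReal.ofReal (gk d (x - z))) ∂m := by
  have hS : Measurable (fun p : E × E => p.1 + t • p.2) := by fun_prop
  unfold cv
  rw [lintegral_map hF hS,
    lintegral_prod (fun p : E × E => F (p.1 + t • p.2)) (hF.comp hS).aemeasurable]
  apply lintegral_congr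
  intro z
  have h := lintegral_gauss_step ht z hF
  rw [hdt] at h
  exact h

lemma cv_eq {t : ℝ} (ht : 0 < t) (hdt : 1 / (2 * t ^ 2) = d) :
    cv m t = volume.withDensity (fun x => ENNReal.ofReal (fG m d x)) := by
  have hd : 0 < d := by rw [← hdt]; positivity
  apply Measure.ext_of_lintegral
  intro F hF
  rw [cv_lintegral ht hdt hF, swap_fG hd hF,
    lintegral_withDensity_eq_lintegral_mul _ fG_measurable.ennreal_ofReal hF]
  rfl

lemma cv_integral {t : ℝ} (ht : 0 < t) (hdt : 1 / (2 * t ^ 2) = d) (F : E → ℝ) :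
    ∫ x, F x ∂(cv m t) = ∫ x, F x * fG m d x := by
  have hd : 0 < d := by rw [← hdt]; positivity
  rw [cv_eq ht hdt]
  have e3 : (fun x => ENNReal.ofReal (fG m d x)) =
      fun x => ((Real.toNNReal (fG m d x) : NNReal) : ℝ≥0∞) := rfl
  rw [e3, integral_withDensity_eq_integral_smul fG_measurable.real_toNNReal]
  congr 1
  funext x
  have hnn : 0 ≤ fG m d x := integral_nonneg fun z => (gk_pos hd _).le
  rw [NNReal.smul_def, Real.coe_toNNReal _ hnn, smul_eq_mul, mul_comm]

end smoothing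

end Pool.Agent.Lib.MP_6d896a_gt.FP
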