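import Mathlib
import Pool.Agent.Lib.MP_6d896a_gt.TransA
import Pool.Agent.Lib.MP_6d896a_gt.ChainLimit
import Pool.Agent.Lib.MP_6d896a_gt.TgtInt
import Pool.Agent.Lib.MP_6d896a_gt.FP.PostPL
import Pool.Agent.Lib.MP_6d896a_gt.FP.Tail

/-!
Affine invariant Poincare inequality and log-concavity imply the Cheeger inequality.
-/

set_option autoImplicit false

namespace Pool.Agent.Lib.MP_6d896a_gt.FP

open MeasureTheory ProbabilityTheory Set Filter
open scoped ENNReal Topology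

section bounded

variable {k : ℕ} {m : Measure (EuclideanSpace ℝ (Fin k))} [IsFiniteMeasure m]

/-- posterior inequality for Gaussian smoothings of log-concave measures with bounded support -/
lemma post_bdd {R : ℝ} (hR0 : 0 ≤ R) (hR : ∀ᵐ z ∂m, ‖z‖ ≤ R) (hpl : PLm m)
    {t s : ℝ} (ht : 0 < t) (hs : 0 < s) (a : EuclideanSpace ℝ (Fin k))
    {g : EuclideanSpace ℝ (Fin k) → ℝ} {l l2 : ℝ} (hl : 0 ≤ l) (hl2 : 0 ≤ l2)
    (hg : ContDiff ℝ 1 g)
    (hgl : ∀ x y, |g x - g y| ≤ l * ‖x - y‖)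
    (hg2 : ∀ x y, ‖fderiv ℝ g x - fderiv ℝ g y‖ ≤ l2 * ‖x - y‖) :
    ∫ x, (∫ x', |g x' - g x| * gk s (x' - a) ∂(cv m t)) * gk s (x - a) ∂(cv m t) ≤
      Real.pi / 2 * Real.sqrt (1 / (2 * s)) * ((∫ x, gk s (x - a) ∂(cv m t)) *
        ∫ x, ‖fderiv ℝ g x‖ * gk s (x - a) ∂(cv m t)) := by
  by_cases hm : m = 0
  · subst hm
    have : cv (0 : Measure (EuclideanSpace ℝ (Fin k))) t = 0 := by
      unfold cv
      simp
    rw [this]
    simp
  obtain ⟨d, hdt⟩ : ∃ d, 1 / (2 * t ^ 2) = d := ⟨_, rfl⟩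
  have hd : 0 < d := by rw [← hdt]; positivity
  have hP := Vp_pot hd hm hR0 hR hpl hs a
  have h1 := pot_L1 hP hl hl2 hg hgl hg2
  obtain ⟨V, hV⟩ : ∃ V, V = Vp m d s a := ⟨_, rfl⟩
  rw [← hV] at h1 hP
  rw [tgtN_integral hP, tgtN_integral hP] at h1
  simp only [tgtN_integral hP] at h1
  have hfin := tgt_finite hP
  have hZ : 0 < (tgt V).real Set.univ := by
    rw [measureReal_def]
    exact ENNReal.toReal_pos (tgt_univ_pos hP) (measure_ne_top _ _)
  set Z := (tgt V).real Set.univ with hZdef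
  rw [integral_const_mul] at h1
  have h2 := mul_le_mul_of_nonneg_left h1 (by positivity : 0 ≤ Z ^ 2)
  have e1 : Z ^ 2 * (Z⁻¹ * (Z⁻¹ * ∫ x, ∫ y, |g y - g x| ∂(tgt V) ∂(tgt V))) =
    ∫ x, ∫ y, |g y - g x| ∂(tgt V) ∂(tgt V) := by
    field_simp
  have e2 : Z ^ 2 * (Real.pi / 2 * Real.sqrt (1 / (2 * s)) *
      (Z⁻¹ * ∫ x, ‖fderiv ℝ g x‖ ∂(tgt V))) =
    Real.pi / 2 * Real.sqrt (1 / (2 * s)) * (Z * ∫ x, ‖fderiv ℝ g x‖ ∂(tgt V)) := by
    field_simp
  rw [e1, e2] at h2
  have e3 : Z = ∫ x, 1 ∂(tgt V) := by simp [hZdef]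
  rw [e3, integral_tgt hP.cV, integral_tgt hP.cV, integral_tgt hP.cV] at h2
  simp only [integral_tgt hP.cV] at h2
  have e4 : ∀ x, Real.exp (-V x) = gk s (x - a) * fG m d x := by
    intro x
    rw [hV]
    exact exp_neg_Vp hd hm hR hs a x
  simp only [e4, one_mul] at h2
  rw [cv_integral ht hdt, cv_integral ht hdt, cv_integral ht hdt]
  have e5 : ∀ x, ∫ x', |g x' - g x| * gk s (x' - a) ∂(cv m t) =
      ∫ x', |g x' - g x| * (gk s (x' - a) * fG m d x') := by
    intro x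
    rw [cv_integral ht hdt]
    congr 1
    funext x'
    ring
  simp only [e5]
  refine (le_of_eq ?_).trans (h2.trans (le_of_eq ?_))
  · congr 1
    funext x
    ring
  · congr 3
    funext x
    ring

end bounded

section limit

variable {E : Type*} [NormedAddCommGroup E] [InnerProductSpace ℝ E] [FiniteDimensional ℝ E]
  [MeasurableSpace E] [BorelSpace E]

lemma cv_tendsto (ν : Measure E) [IsFiniteMeasure ν] {t : ℕ → ℝ} {H : ℕ → E → ℝ} {H0 : E → ℝ}
    {C : ℝ} (hm : ∀ n, Measurable (H n)) (hb : ∀ n x, |H n x| ≤ C)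
    (hlim : ∀ p : E × E, Tendsto (fun n => H n (p.1 + t n • p.2)) atTop (𝓝 (H0 p.1))) :
    Tendsto (fun n : ℕ => ∫ x, H n x ∂(cv (ν.restrict (Metric.closedBall 0 (n : ℝ))) (t n)))
      atTop (𝓝 (∫ x, H0 x ∂ν)) := by
  have hS : ∀ n, Measurable (fun p : E × E => p.1 + t n • p.2) := fun n => by fun_prop
  have hset : ∀ n : ℕ, MeasurableSet ((Metric.closedBall (0 : E) (n : ℝ)) ×ˢ (univ : Set E)) :=
    fun n => Metric.isClosed_closedBall.measurableSet.prod MeasurableSet.univ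
  have e1 : ∀ n : ℕ, ∫ x, H n x ∂(cv (ν.restrict (Metric.closedBall 0 (n : ℝ))) (t n)) =
      ∫ p, ((Metric.closedBall (0 : E) (n : ℝ)) ×ˢ (univ : Set E)).indicator
        (fun p : E × E => H n (p.1 + t n • p.2)) p ∂(ν.prod (stdGaussian E)) := by
    intro n
    unfold cv
    rw [integral_map (hS n).aemeasurable (hm n).aestronglyMeasurable,
      integral_indicator (hset n), ← Measure.prod_restrict, Measure.restrict_univ]
  have e2 : ∫ x, H0 x ∂ν = ∫ p : E × E, H0 p.1 ∂(ν.prod (stdGaussian E)) := by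
    rw [integral_fun_fst]
    simp
  simp only [e1]
  rw [e2]
  apply tendsto_integral_of_dominated_convergence (fun _ => C)
  · intro n
    exact (((hm n).comp (hS n)).indicator (hset n)).aestronglyMeasurable
  · exact integrable_const _
  · intro n
    apply ae_of_all
    intro p
    refine (norm_indicator_le_norm_self _ _).trans ?_
    rw [Real.norm_eq_abs]
    exact hb n _
  · apply ae_of_all
    intro p
    obtain ⟨N, hN⟩ := exists_nat_ge ‖p.1‖
    refine (hlim p).congr' ?_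
    filter_upwards [eventually_ge_atTop N] with n hn
    rw [indicator_of_mem]
    refine ⟨?_, mem_univ _⟩
    rw [Metric.mem_closedBall, dist_zero_right]
    exact hN.trans (by exact_mod_cast hn)

end limit

section posterior

variable {k : ℕ} {ν : Measure (EuclideanSpace ℝ (Fin k))} [IsFiniteMeasure ν]

omit [IsFiniteMeasure ν] in
lemma PLm.restrict_ball (h : PLm ν) (r : ℝ) :
    PLm (ν.restrict (Metric.closedBall 0 r)) := by
  have hs : MeasurableSet (Metric.closedBall (0 : EuclideanSpace ℝ (Fin k)) r) :=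
    Metric.isClosed_closedBall.measurableSet
  rw [← withDensity_indicator_one hs]
  apply h.withDensity (measurable_one.indicator hs)
  intro x y l h0 h1
  by_cases hx : x ∈ Metric.closedBall (0 : EuclideanSpace ℝ (Fin k)) r
  · by_cases hy : y ∈ Metric.closedBall (0 : EuclideanSpace ℝ (Fin k)) r
    · have hxy : (1 - l) • x + l • y ∈ Metric.closedBall (0 : EuclideanSpace ℝ (Fin k)) r :=
        (convex_closedBall 0 r) hx hy (by linarith) h0.le (by ring)
      simp [hx, hy, hxy]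
    · simp [hy, ENNReal.zero_rpow_of_pos h0]
  · simp [hx, ENNReal.zero_rpow_of_pos (by linarith : 0 < 1 - l)]

/-- posterior inequality for log-concave measures -/
theorem post_plm (hpl : PLm ν) {s : ℝ} (hs : 0 < s) (a : EuclideanSpace ℝ (Fin k))
    {g : EuclideanSpace ℝ (Fin k) → ℝ} {l l2 : ℝ} (hl : 0 ≤ l) (hl2 : 0 ≤ l2)
    (hg : ContDiff ℝ 1 g) (hg1 : ∀ x, |g x| ≤ 1)
    (hgl : ∀ x y, |g x - g y| ≤ l * ‖x - y‖)
    (hg2 : ∀ x y, ‖fderiv ℝ g x - fderiv ℝ g y‖ ≤ l2 * ‖x - y‖) :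
    ∫ x, (∫ x', |g x' - g x| * gk s (x' - a) ∂ν) * gk s (x - a) ∂ν ≤
      Real.pi / 2 * Real.sqrt (1 / (2 * s)) * ((∫ x, gk s (x - a) ∂ν) *
        ∫ x, ‖fderiv ℝ g x‖ * gk s (x - a) ∂ν) := by
  have hbd : ∀ x, ‖fderiv ℝ g x‖ ≤ l := by
    intro x
    have : LipschitzWith (Real.toNNReal l) g := by
      apply LipschitzWith.of_dist_le_mul
      intro a b
      rw [Real.dist_eq, dist_eq_norm, Real.coe_toNNReal l hl]
      exact hgl a b
    have h4 := norm_fderiv_le_of_lipschitz ℝ (x₀ := x) this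
    rwa [Real.coe_toNNReal l hl] at h4
  have hgc := hg.continuous
  have hfc : Continuous (fun x => ‖fderiv ℝ g x‖) := (hg.continuous_fderiv (by norm_num)).norm
  have habs : ∀ x x', |g x' - g x| ≤ 2 := by
    intro x x'
    have h1 := abs_le.mp (hg1 x)
    have h2 := abs_le.mp (hg1 x')
    rw [abs_le]
    constructor <;> linarith
  set t : ℕ → ℝ := fun n => 1 / ((n : ℝ) + 1) with ht
  have ht0 : ∀ n, 0 < t n := fun n => by simp only [ht]; positivity
  have htl : Tendsto t atTop (𝓝 0) := tendsto_one_div_add_atTop_nhds_zero_nat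
  have hSl : ∀ p : EuclideanSpace ℝ (Fin k) × EuclideanSpace ℝ (Fin k),
      Tendsto (fun n => p.1 + t n • p.2) atTop (𝓝 p.1) := by
    intro p
    have h1 := (htl.smul_const p.2).const_add p.1
    rwa [zero_smul, add_zero] at h1
  set c := (gZ (EuclideanSpace ℝ (Fin k)) s)⁻¹ with hc
  have hc0 : 0 < c := inv_pos.mpr (gZ_pos hs)
  have hkc : Continuous (fun x : EuclideanSpace ℝ (Fin k) => gk s (x - a)) :=
    (gk_continuous s).comp (continuous_id.sub continuous_const)
  have hkb : ∀ x : EuclideanSpace ℝ (Fin k), |gk s (x - a)| ≤ c := by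
    intro x
    rw [abs_of_pos (gk_pos hs _)]
    exact gk_le hs _
  have hkey := fun n : ℕ => post_bdd (m := ν.restrict (Metric.closedBall 0 (n : ℝ)))
    (R := (n : ℝ)) (Nat.cast_nonneg n) (by
      filter_upwards [ae_restrict_mem Metric.isClosed_closedBall.measurableSet] with z hz
      rwa [Metric.mem_closedBall, dist_zero_right] at hz) (hpl.restrict_ball _) (ht0 n) hs a hl hl2
      hg hgl hg2
  have L1 := cv_tendsto ν (t := t) (H := fun _ x => gk s (x - a)) (H0 := fun x => gk s (x - a))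
    (C := c) (fun _ => hkc.measurable) (fun _ x => hkb x)
    (fun p => (hkc.tendsto p.1).comp (hSl p))
  have L2 := cv_tendsto ν (t := t) (H := fun _ x => ‖fderiv ℝ g x‖ * gk s (x - a))
    (H0 := fun x => ‖fderiv ℝ g x‖ * gk s (x - a))
    (C := l * c) (fun _ => (hfc.mul hkc).measurable) (fun _ x => by
      rw [abs_mul, abs_norm]
      exact mul_le_mul (hbd x) (hkb x) (abs_nonneg _) hl)
    (fun p => ((hfc.mul hkc).tendsto p.1).comp (hSl p))
  -- inner integrals
  have Lin : ∀ p : EuclideanSpace ℝ (Fin k) × EuclideanSpace ℝ (Fin k),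
      Tendsto (fun n : ℕ => ∫ x', |g x' - g (p.1 + t n • p.2)| * gk s (x' - a)
        ∂(cv (ν.restrict (Metric.closedBall 0 (n : ℝ))) (t n))) atTop
        (𝓝 (∫ x', |g x' - g p.1| * gk s (x' - a) ∂ν)) := by
    intro p
    apply cv_tendsto ν (t := t) (H := fun n x' => |g x' - g (p.1 + t n • p.2)| * gk s (x' - a))
      (H0 := fun x' => |g x' - g p.1| * gk s (x' - a)) (C := 2 * c)
    · intro n
      exact ((hgc.sub continuous_const).abs.mul hkc).measurable
    · intro n x'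
      rw [abs_mul, abs_abs]
      exact mul_le_mul (habs _ _) (hkb _) (abs_nonneg _) (by norm_num)
    · intro q
      have h1 := (hgc.tendsto q.1).comp (hSl q)
      have h2 := (hgc.tendsto p.1).comp (hSl p)
      exact ((h1.sub h2).abs).mul ((hkc.tendsto q.1).comp (hSl q))
  have hmass : ∀ n : ℕ, (cv (ν.restrict (Metric.closedBall 0 (n : ℝ))) (t n)).real univ ≤
      ν.real univ := by
    intro n
    unfold cv
    have hS : Measurable (fun p : EuclideanSpace ℝ (Fin k) × EuclideanSpace ℝ (Fin k) =>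
      p.1 + t n • p.2) := by fun_prop
    have hg' : (stdGaussian (EuclideanSpace ℝ (Fin k))).real univ = 1 := probReal_univ
    rw [map_measureReal_apply hS MeasurableSet.univ, preimage_univ, ← univ_prod_univ,
      measureReal_prod_prod, hg', mul_one]
    exact ENNReal.toReal_mono (measure_ne_top _ _) (Measure.restrict_le_self _)
  have hfin : ∀ n : ℕ, IsFiniteMeasure (cv (ν.restrict (Metric.closedBall 0 (n : ℝ))) (t n)) := by
    intro n
    unfold cv
    infer_instance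
  have L3 := cv_tendsto ν (t := t)
    (H := fun n x => (∫ x', |g x' - g x| * gk s (x' - a)
        ∂(cv (ν.restrict (Metric.closedBall 0 (n : ℝ))) (t n))) * gk s (x - a))
    (H0 := fun x => (∫ x', |g x' - g x| * gk s (x' - a) ∂ν) * gk s (x - a))
    (C := (2 * c) * ν.real univ * c) (fun n => by
      have := hfin n
      apply Measurable.mul _ hkc.measurable
      have hcc : Continuous (fun p : EuclideanSpace ℝ (Fin k) × EuclideanSpace ℝ (Fin k) =>
        |g p.2 - g p.1| * gk s (p.2 - a)) :=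
        ((hgc.comp continuous_snd).sub (hgc.comp continuous_fst)).abs.mul
          (hkc.comp continuous_snd)
      exact (hcc.stronglyMeasurable.integral_prod_right').measurable)
    (fun n x => by
      have := hfin n
      rw [abs_mul]
      apply mul_le_mul _ (hkb x) (abs_nonneg _) (by positivity)
      rw [← Real.norm_eq_abs]
      refine (norm_integral_le_of_norm_le_const (C := 2 * c) (ae_of_all _ fun x' => ?_)).trans ?_
      · rw [Real.norm_eq_abs, abs_mul, abs_abs]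
        exact mul_le_mul (habs _ _) (hkb _) (abs_nonneg _) (by norm_num)
      · exact mul_le_mul_of_nonneg_left (hmass n) (by positivity))
    (fun p => (Lin p).mul ((hkc.tendsto p.1).comp (hSl p)))
  exact le_of_tendsto_of_tendsto' L3
    ((L1.mul L2).const_mul (Real.pi / 2 * Real.sqrt (1 / (2 * s)))) hkey

end posterior

section cheeger

variable {k : ℕ} {ν : Measure (EuclideanSpace ℝ (Fin k))} [IsProbabilityMeasure ν]

lemma var_functional {s : ℝ}
    (hs : ∀ θ : EuclideanSpace ℝ (Fin k), ‖θ‖ = 1 → Var[fun x => inner ℝ x θ; ν] ≤ s)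
    (L : EuclideanSpace ℝ (Fin k) →L[ℝ] ℝ) : Var[fun z => L z; ν] ≤ s * ‖L‖ ^ 2 := by
  obtain ⟨v, hv⟩ : ∃ v, v = (InnerProductSpace.toDual ℝ (EuclideanSpace ℝ (Fin k))).symm L :=
    ⟨_, rfl⟩
  have hLv : ∀ z, L z = inner ℝ z v := by
    intro z
    rw [hv, real_inner_comm]
    exact InnerProductSpace.toDual_symm_apply.symm
  have hnorm : ‖L‖ = ‖v‖ := by rw [hv, LinearIsometryEquiv.norm_map]
  by_cases h0 : v = 0
  · have e : (fun z => L z) = fun _ => (0 : ℝ) := by
      funext z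
      rw [hLv, h0, inner_zero_right]
    rw [e, hnorm, h0, norm_zero]
    have h1 := variance_zero (μ := ν)
    have h2 : Var[fun _ : EuclideanSpace ℝ (Fin k) => (0 : ℝ); ν] = 0 := h1
    rw [h2]
    simp
  · have hn : ‖v‖ ≠ 0 := norm_ne_zero_iff.mpr h0
    have h1 := hs (‖v‖⁻¹ • v) (by rw [norm_smul, norm_inv, norm_norm, inv_mul_cancel₀ hn])
    have e : (fun z => L z) = fun z => ‖v‖ * inner ℝ z (‖v‖⁻¹ • v) := by
      funext z
      rw [hLv, inner_smul_right, ← mul_assoc, mul_inv_cancel₀ hn, one_mul]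
    rw [e, variance_const_mul, hnorm]
    calc ‖v‖ ^ 2 * Var[fun x => inner ℝ x (‖v‖⁻¹ • v); ν] ≤ ‖v‖ ^ 2 * s :=
          mul_le_mul_of_nonneg_left h1 (by positivity)
      _ = s * ‖v‖ ^ 2 := mul_comm _ _

lemma poinc_of_AP {K s : ℝ} (hK : 0 ≤ K) (hAP : AP ν K)
    (hs : ∀ θ : EuclideanSpace ℝ (Fin k), ‖θ‖ = 1 → Var[fun x => inner ℝ x θ; ν] ≤ s)
    {u : EuclideanSpace ℝ (Fin k) → ℝ} (hu : ContDiff ℝ 1 u) (hub : ∀ x, |u x| ≤ 1)
    (hB : ∃ B, 0 ≤ B ∧ ∀ x x', |u x - u x'| ≤ B * ‖x - x'‖) :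
    ν.real univ * ∫ x, u x ^ 2 ∂ν - (∫ x, u x ∂ν) ^ 2 ≤
      (K * s) * (ν.real univ * ∫ x, ‖fderiv ℝ u x‖ ^ 2 ∂ν) := by
  obtain ⟨B, hB0, hB⟩ := hB
  have hbd : ∀ x, ‖fderiv ℝ u x‖ ≤ B := by
    intro x
    have : LipschitzWith (Real.toNNReal B) u := by
      apply LipschitzWith.of_dist_le_mul
      intro a b
      rw [Real.dist_eq, dist_eq_norm, Real.coe_toNNReal B hB0]
      exact hB a b
    have h4 := norm_fderiv_le_of_lipschitz ℝ (x₀ := x) this
    rwa [Real.coe_toNNReal B hB0] at h4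
  have hfc : Continuous (fun x => ‖fderiv ℝ u x‖ ^ 2) :=
    ((hu.continuous_fderiv (by norm_num)).norm).pow 2
  have hmem : MemLp u 2 ν := MemLp.of_bound hu.continuous.aestronglyMeasurable 1
    (ae_of_all _ fun x => by rw [Real.norm_eq_abs]; exact hub x)
  have h1 := hAP u hu ⟨B, hbd⟩
  rw [variance_eq_sub hmem] at h1
  have hint : Integrable (fun x => s * ‖fderiv ℝ u x‖ ^ 2) ν := by
    apply Integrable.const_mul
    refine (integrable_const (B ^ 2)).mono' hfc.aestronglyMeasurable (ae_of_all _ fun x => ?_)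
    rw [Real.norm_eq_abs, abs_of_nonneg (by positivity)]
    exact pow_le_pow_left₀ (norm_nonneg _) (hbd x) 2
  have h2 : ∫ x, Var[fun z => fderiv ℝ u x z; ν] ∂ν ≤ ∫ x, s * ‖fderiv ℝ u x‖ ^ 2 ∂ν := by
    apply integral_mono_of_nonneg (ae_of_all _ fun x => variance_nonneg _ _) hint
    exact ae_of_all _ fun x => var_functional hs _
  rw [integral_const_mul] at h2
  rw [probReal_univ, one_mul, one_mul]
  have h3 := mul_le_mul_of_nonneg_left h2 hK
  calc ∫ x, u x ^ 2 ∂ν - (∫ x, u x ∂ν) ^ 2 ≤ K * ∫ x, Var[fun z => fderiv ℝ u x z; ν] ∂ν := h1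
    _ ≤ K * (s * ∫ x, ‖fderiv ℝ u x‖ ^ 2 ∂ν) := h3
    _ = _ := by ring

lemma iso_of_AP (hpl : PLm ν) {K s : ℝ} (hK : 0 < K) (hAP : AP ν K) (hs0 : 0 < s)
    (hs : ∀ θ : EuclideanSpace ℝ (Fin k), ‖θ‖ = 1 → Var[fun x => inner ℝ x θ; ν] ≤ s) :
    Iso ν (Real.pi / 2 * Real.sqrt (K * s)) := by
  apply iso_of_smooth _ (by positivity)
  intro g l l2 hl hl2 hg hg0 hg1 hgl hg2
  have hbd : ∀ x, ‖fderiv ℝ g x‖ ≤ l := by
    intro x
    have : LipschitzWith (Real.toNNReal l) g := by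
      apply LipschitzWith.of_dist_le_mul
      intro a b
      rw [Real.dist_eq, dist_eq_norm, Real.coe_toNNReal l hl]
      exact hgl a b
    have h4 := norm_fderiv_le_of_lipschitz ℝ (x₀ := x) this
    rwa [Real.coe_toNNReal l hl] at h4
  have hgabs : ∀ x, |g x| ≤ 1 := fun x => by rw [abs_of_nonneg (hg0 x)]; exact hg1 x
  have hfc : Continuous (fun x => ‖fderiv ℝ g x‖) := (hg.continuous_fderiv (by norm_num)).norm
  set σ : ℝ := 1 / (2 * (K * s)) with hσ
  have hσ0 : 0 < σ := by positivity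
  have hcL : Real.sqrt (1 / (2 * σ)) = Real.sqrt (K * s) := by
    congr 1
    rw [hσ]
    field_simp
  have hmain := channel ν (IsProbabilityMeasure.ne_zero ν) (s := σ) (CP := K * s)
    (cL := Real.pi / 2 * Real.sqrt (K * s)) (th := 1) hσ0 one_pos
    (by rw [hσ]; field_simp) (fun u hu hub hB => poinc_of_AP hK.le hAP hs hu hub hB)
    hg.continuous.measurable hg0 hg1
    (D := fun x => ‖fderiv ℝ g x‖) hfc.measurable (C := l)
    (fun x => by rw [abs_of_nonneg (norm_nonneg _)]; exact hbd x) (by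
      intro y
      have hp := post_plm hpl hσ0 y hl hl2 hg hgabs hgl hg2
      rw [hcL] at hp
      exact hp)
  refine hmain.trans (le_of_eq ?_)
  ring

end cheeger

/-- R5 -/
theorem ap_cheeger : ∃ C : ℝ, 0 < C ∧ ∀ (m : ℕ) (ν : Measure (EuclideanSpace ℝ (Fin m))),
    IsProbabilityMeasure ν → PLm ν →
    (∀ θ : EuclideanSpace ℝ (Fin m), MemLp (fun x => inner ℝ x θ : EuclideanSpace ℝ (Fin m) → ℝ) 2 ν) →
    ∀ K : ℝ, 1 ≤ K → AP ν K → ∀ s : ℝ, 0 < s →
    (∀ θ : EuclideanSpace ℝ (Fin m), ‖θ‖ = 1 → Var[fun x => inner ℝ x θ; ν] ≤ s) →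
    ∀ S : Set (EuclideanSpace ℝ (Fin m)), MeasurableSet S →
      ENNReal.ofReal (C / Real.sqrt (K * s)) * min (ν S) (ν Sᶜ) ≤
        Filter.liminf (fun ε : ℝ => (ν (Metric.thickening ε S) - ν S) / ENNReal.ofReal ε)
          (𝓝[>] 0) := by
  refine ⟨1 / Real.pi, by positivity, ?_⟩
  intro m ν hν hpl _ K hK hAP s hs0 hs S hS
  have hK0 : 0 < K := by linarith
  have hq : 0 < Real.sqrt (K * s) := Real.sqrt_pos.mpr (by positivity)
  have h := (iso_of_AP hpl hK0 hAP hs0 hs).liminf (by positivity) hS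
  have e : 1 / (2 * (Real.pi / 2 * Real.sqrt (K * s))) = 1 / Real.pi / Real.sqrt (K * s) := by
    have := Real.pi_pos
    field_simp
  rw [e] at h
  exact h

end Pool.Agent.Lib.MP_6d896a_gt.FP
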