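import Mathlib
import Pool.Agent.Lib.MP_6d896a_gt.FP.Defs
import Pool.Agent.Lib.MP_6d896a_gt.FP.PLm
import Pool.Agent.Lib.MP_6d896a_gt.FP.StableA
import Pool.Agent.Lib.MP_6d896a_gt.FP.ApCheeger

/-!
Isoperimetry for linear images of measures with an affine invariant Poincare inequality.
-/

set_option autoImplicit false

namespace Pool.Agent.Lib.MP_6d896a_gt.FP

open MeasureTheory ProbabilityTheory Set Filter
open scoped ENNReal Topology

/-- the affine invariant Poincare inequality passes to linear images (proof by helper94) -/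
lemma AP.image {E F : Type*} [NormedAddCommGroup E] [NormedSpace ℝ E]
    [NormedAddCommGroup F] [NormedSpace ℝ F] [MeasurableSpace E] [BorelSpace E]
    [MeasurableSpace F] [BorelSpace F] [SecondCountableTopology E] [SecondCountableTopology F]
    {μ : Measure E} [SFinite μ] {K : ℝ} (h : AP μ K) (e : E →L[ℝ] F) :
    AP (μ.map e) K := by
  intro f hf hl
  obtain ⟨l, hl⟩ := hl
  have hem : Measurable e := e.continuous.measurable
  have hl0 : 0 ≤ l := (norm_nonneg _).trans (hl 0)
  have hd : ∀ x, HasFDerivAt (fun x => f (e x)) ((fderiv ℝ f (e x)).comp e) x := by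
    intro x
    have h1 : HasFDerivAt f (fderiv ℝ f (e x)) (e x) :=
      (hf.differentiable one_ne_zero _).hasFDerivAt
    exact h1.comp x e.hasFDerivAt
  have h1 := h (fun x => f (e x)) (hf.comp e.contDiff)
    ⟨l * ‖e‖, fun x => by
      rw [(hd x).fderiv]
      refine (ContinuousLinearMap.opNorm_comp_le _ _).trans ?_
      gcongr
      exact hl _⟩
  simp_rw [(hd _).fderiv] at h1
  have h2 : ∀ g : F → ℝ, Continuous g → Var[g; μ.map e] = Var[fun x => g (e x); μ] := by
    intro g hg
    exact variance_map hg.measurable.aemeasurable hem.aemeasurable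
  have h3 : ∀ y : F, Var[fun z => fderiv ℝ f y z; μ.map e] =
      Var[fun z => fderiv ℝ f y (e z); μ] := fun y => h2 _ (fderiv ℝ f y).continuous
  rw [h2 f hf.continuous]
  simp_rw [h3]
  have hjc : Continuous fun p : F × E => fderiv ℝ f p.1 (e p.2) := by
    have h4 : Continuous (fderiv ℝ f) := hf.continuous_fderiv (by norm_num)
    exact (h4.comp continuous_fst).clm_apply (e.continuous.comp continuous_snd)
  have hmean : StronglyMeasurable fun y : F => ∫ z, fderiv ℝ f y (e z) ∂μ :=
    hjc.stronglyMeasurable.integral_prod_right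
  have hvar : Measurable fun y : F => Var[fun z => fderiv ℝ f y (e z); μ] := by
    unfold variance evariance
    refine Measurable.ennreal_toReal ?_
    refine Measurable.lintegral_prod_right (f := fun y z =>
      ‖fderiv ℝ f y (e z) - ∫ z, fderiv ℝ f y (e z) ∂μ‖ₑ ^ 2) ?_
    exact ((hjc.measurable.sub (hmean.measurable.comp measurable_fst)).enorm).pow_const 2
  refine h1.trans (le_of_eq ?_)
  congr 1
  rw [integral_map hem.aemeasurable hvar.aestronglyMeasurable]
  rfl

/-- isoperimetry for linear images -/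
theorem cheeger_image : ∃ C : ℝ, 0 < C ∧ ∀ (E : Type) [NormedAddCommGroup E] [NormedSpace ℝ E]
    [MeasurableSpace E] [BorelSpace E] [FiniteDimensional ℝ E] (μ : Measure E)
    [IsProbabilityMeasure μ], PLm μ → ∀ K : ℝ, 1 ≤ K → AP μ K →
    ∀ (n : ℕ) (T : E →ₗ[ℝ] EuclideanSpace ℝ (Fin n)) (s : ℝ), 0 < s →
    (∀ θ : EuclideanSpace ℝ (Fin n), ‖θ‖ = 1 → Var[fun x => inner ℝ x θ; μ.map T] ≤ s) →
    ∀ S : Set (EuclideanSpace ℝ (Fin n)), MeasurableSet S →
      ENNReal.ofReal (C / Real.sqrt (K * s)) * min (μ.map T S) (μ.map T Sᶜ) ≤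
        Filter.liminf
          (fun ε : ℝ => (μ.map T (Metric.thickening ε S) - μ.map T S) / ENNReal.ofReal ε)
          (𝓝[>] 0) := by
  obtain ⟨C, hC, h⟩ := ap_cheeger
  refine ⟨C, hC, ?_⟩
  intro E _ _ _ _ _ μ _ hpl K hK hAP n T s hs hvar S hS
  have hTc : Continuous T := T.continuous_of_finiteDimensional
  have hp : PLm (μ.map T) := hpl.map T hTc.measurable
  have : IsProbabilityMeasure (μ.map T) := Measure.isProbabilityMeasure_map hTc.measurable.aemeasurable
  have hA : AP (μ.map T) K := by
    have := hAP.image (LinearMap.toContinuousLinearMap T)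
    exact this
  refine h n (μ.map T) inferInstance hp (fun θ => ?_) K hK hA s hs hvar S hS
  have := hp.memLp_functional (innerSL ℝ θ)
  refine (memLp_congr_ae (Eventually.of_forall fun x => ?_)).mp this
  simp [real_inner_comm]

end Pool.Agent.Lib.MP_6d896a_gt.FP
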