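import Mathlib
import Pool.Agent.Lib.MP_6d896a_gt.FP.ForestGen
import Pool.Agent.Lib.MP_6d896a_gt.FP.Image
import Pool.Agent.Lib.MP_6d896a_gt.FP.Stable

/-!
The Kannan-Lovasz-Simonovits inequality for linear images of log-concave measures which factor
along a forest of bounded height.
-/

set_option autoImplicit false

namespace Pool.Agent.Lib.MP_6d896a_gt.FP

open MeasureTheory ProbabilityTheory Set Filter
open scoped ENNReal Topology

lemma dens_of_one {E : Type*} [MeasureSpace E] {ρ : E → ℝ}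
    (h : ∫⁻ x, ENNReal.ofReal (ρ x) = 1) :
    dens ρ = (volume : Measure E).withDensity (fun x => ENNReal.ofReal (ρ x)) := by
  unfold dens
  rw [h, inv_one, one_smul]

theorem forest_cheeger_of (hfib : ∃ C : ℝ, 1 ≤ C ∧ FibreStat C) :
    ∃ C : ℝ, 0 < C ∧
      ∀ (t m n : ℕ) (anc : Fin m → Finset (Fin m)),
        (∀ v, v ∈ anc v) → (∀ u v, u ∈ anc v → anc u ⊆ anc v) →
        (∀ u w v, u ∈ anc v → w ∈ anc v → u ∈ anc w ∨ w ∈ anc u) →
        (∀ v, (anc v).card ≤ t) →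
        ∀ f : Fin m → (Fin m → ℝ) → ℝ, (∀ v x, 0 ≤ f v x) → (∀ v, Measurable (f v)) →
        (∀ v x y, (∀ u ∈ anc v, x u = y u) → f v x = f v y) →
        (∀ (x y : Fin m → ℝ) (a b : ℝ), 0 < a → 0 < b → a + b = 1 →
          (∏ v, f v x) ^ a * (∏ v, f v y) ^ b ≤ ∏ v, f v (a • x + b • y)) →
        ∫⁻ x, ENNReal.ofReal (∏ v, f v x) = 1 →
        ∀ (T : (Fin m → ℝ) →ₗ[ℝ] EuclideanSpace ℝ (Fin n))
          (μ : Measure (EuclideanSpace ℝ (Fin n))),
        μ = ((volume : Measure (Fin m → ℝ)).withDensity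
          fun x => ENNReal.ofReal (∏ v, f v x)).map T →
        ∀ s : ℝ, 0 < s →
          (∀ θ : EuclideanSpace ℝ (Fin n), ‖θ‖ = 1 →
              ProbabilityTheory.variance (fun x => inner ℝ x θ) μ ≤ s) →
          ∀ S : Set (EuclideanSpace ℝ (Fin n)), MeasurableSet S →
            ENNReal.ofReal (C ^ (t + 1) / Real.sqrt s) * min (μ S) (μ Sᶜ) ≤
              Filter.liminf
                (fun ε : ℝ => (μ (Metric.thickening ε S) - μ S) / ENNReal.ofReal ε)
                (nhdsWithin 0 (Set.Ioi 0)) := by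
  obtain ⟨C₀, hC₀, hfor⟩ := forest_gen_of hfib
  obtain ⟨C₁, hC₁, hch⟩ := cheeger_image
  have hC₀' : 0 < C₀ := by linarith
  have hq : 0 < Real.sqrt C₀ := Real.sqrt_pos.mpr hC₀'
  refine ⟨min C₁ (1 / Real.sqrt C₀), lt_min hC₁ (by positivity), ?_⟩
  intro t m n anc ha1 ha2 ha3 ht f hf0 hfm hfd hlc h1 T μ hμ s hs hvar S hS
  have hL : LCd (fun x => ∏ v, f v x) :=
    ⟨fun x => Finset.prod_nonneg fun v _ => hf0 v x,
      Finset.measurable_prod _ fun v _ => hfm v, hlc⟩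
  have hAP := hfor t (Fin m) anc ⟨ha1, ha2, ha3⟩ ht f hf0 hfm
    (fun v x y h => hfd v x y h) hL h1
  have hne : ∫⁻ x, ENNReal.ofReal (∏ v, f v x) ≠ 0 := by rw [h1]; exact one_ne_zero
  have hnt : ∫⁻ x, ENNReal.ofReal (∏ v, f v x) ≠ ∞ := by rw [h1]; exact ENNReal.one_ne_top
  have hprob := dens_prob hne hnt
  have hpl := hL.plm hne hnt
  have hμ' : μ = (dens fun x => ∏ v, f v x).map T := by rw [hμ, dens_of_one h1]
  have hK : 1 ≤ C₀ ^ t := one_le_pow₀ hC₀
  have key := hch (Fin m → ℝ) _ hpl (C₀ ^ t) hK hAP n T s hs (by rw [← hμ']; exact hvar) S hS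
  rw [← hμ'] at key
  refine le_trans ?_ key
  have hc0 : 0 < min C₁ (1 / Real.sqrt C₀) := lt_min hC₁ (by positivity)
  have e1 : Real.sqrt (C₀ ^ t * s) = Real.sqrt C₀ ^ t * Real.sqrt s := by
    rw [Real.sqrt_mul (by positivity)]
    congr 1
    rw [Real.sqrt_eq_iff_mul_self_eq (by positivity) (by positivity), ← mul_pow,
      Real.mul_self_sqrt hC₀'.le]
  have e2 : min C₁ (1 / Real.sqrt C₀) ^ (t + 1) ≤ C₁ / Real.sqrt C₀ ^ t :=
    calc min C₁ (1 / Real.sqrt C₀) ^ (t + 1)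
        = min C₁ (1 / Real.sqrt C₀) * min C₁ (1 / Real.sqrt C₀) ^ t := by ring
      _ ≤ C₁ * (1 / Real.sqrt C₀) ^ t := by
          apply mul_le_mul (min_le_left _ _) _ (by positivity) hC₁.le
          exact pow_le_pow_left₀ hc0.le (min_le_right _ _) t
      _ = C₁ / Real.sqrt C₀ ^ t := by rw [div_pow, one_pow]; ring
  have e3 : min C₁ (1 / Real.sqrt C₀) ^ (t + 1) / Real.sqrt s ≤
      C₁ / Real.sqrt (C₀ ^ t * s) := by
    rw [e1, ← div_div]
    exact div_le_div_of_nonneg_right e2 (Real.sqrt_nonneg _)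
  exact mul_le_mul_left (ENNReal.ofReal_le_ofReal e3) _

end Pool.Agent.Lib.MP_6d896a_gt.FP
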