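import Mathlib
import Pool.Agent.Lib.MP_6d896a_gt.FP.FibreGen
import Pool.Agent.Lib.MP_6d896a_gt.FP.ForestGen
import Pool.Agent.Lib.MP_6d896a_gt.FP.ApproxFib
import Pool.Agent.Lib.MP_6d896a_gt.FP.ExtStepJ
import Pool.Agent.Lib.MP_6d896a_gt.FP.Stable
import Pool.Agent.Lib.MP_6d896a_gt.FP.ForestFinal

/-!
The fibre principle for all log-concave measures, and forests.
-/

set_option autoImplicit false

namespace Pool.Agent.Lib.MP_6d896a_gt.FP

open MeasureTheory ProbabilityTheory Set Filter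
open scoped ENNReal Topology

theorem fibreStat : ∃ C : ℝ, 1 ≤ C ∧ FibreStat C := by
  obtain ⟨C₂, hC₂, η₂, hη₂, h₂⟩ := ap_stable
  obtain ⟨C₃, hC₃, η₃, hη₃, h₃⟩ := ext_stepJ
  exact fibre_gen_of hC₂ hη₂ h₂ hC₃ hη₃ h₃ approxFibStat

end Pool.Agent.Lib.MP_6d896a_gt.FP
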