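import Mathlib
import Pool.Agent.Lib.MP_6d896a_gt.FP.Defs

/-!
Whitening of a centred probability measure on a Euclidean space, possibly degenerate, and
translations.
-/

set_option autoImplicit false

namespace Pool.Agent.Lib.MP_6d896a_gt.FP

open MeasureTheory ProbabilityTheory Set Filter
open scoped ENNReal Topology

section translate

variable {E : Type*} [NormedAddCommGroup E] [NormedSpace ℝ E] [MeasurableSpace E] [BorelSpace E]

/-- translates of log-concave measures -/
lemma PLm.translate {μ : Measure E} (h : PLm μ) (v : E) : PLm (μ.map (fun x => x + v)) := by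
  intro l hl0 hl1 f g k hf hg hk hfg
  have hm : Measurable (fun x : E => x + v) := (continuous_id.add continuous_const).measurable
  rw [lintegral_map hf hm, lintegral_map hg hm, lintegral_map hk hm]
  refine h l hl0 hl1 _ _ _ (hf.comp hm) (hg.comp hm) (hk.comp hm) fun x y => ?_
  refine (hfg (x + v) (y + v)).trans (le_of_eq ?_)
  congr 1
  module

/-- the affine invariant Poincare inequality is invariant under translations -/
lemma AP.translate {μ : Measure E} [IsProbabilityMeasure μ] {K : ℝ} (h : AP μ K) (v : E) :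
    AP (μ.map (fun x => x + v)) K := by
  intro f hf hl
  have hm : Measurable (fun x : E => x + v) := (continuous_id.add continuous_const).measurable
  have he : MeasurableEmbedding (fun x : E => x + v) := (Homeomorph.addRight v).measurableEmbedding
  have hfd : ∀ x, fderiv ℝ (fun x => f (x + v)) x = fderiv ℝ f (x + v) := fun x =>
    fderiv_comp_add_right v
  have h1 := h (fun x => f (x + v)) (hf.comp (contDiff_id.add contDiff_const))
    (by obtain ⟨l, hl⟩ := hl; exact ⟨l, fun x => by rw [hfd]; exact hl _⟩)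
  have h2 : Var[f; μ.map (fun x => x + v)] = Var[fun x => f (x + v); μ] :=
    variance_map hf.continuous.measurable.aemeasurable hm.aemeasurable
  rw [h2, he.integral_map]
  refine h1.trans (le_of_eq ?_)
  congr 1
  refine integral_congr_ae (ae_of_all _ fun x => ?_)
  simp only [hfd]
  rw [variance_map (fderiv ℝ f (x + v)).continuous.measurable.aemeasurable hm.aemeasurable]
  have h3 : (fun z => fderiv ℝ f (x + v) z) ∘ (fun x : E => x + v) =
      fun z => fderiv ℝ f (x + v) z + fderiv ℝ f (x + v) v := by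
    funext z
    simp
  rw [h3, variance_add_const (fderiv ℝ f (x + v)).continuous.aestronglyMeasurable]

end translate

variable {n : ℕ}

/-- spectral functions of a symmetric operator with eigenbasis `b` -/
private noncomputable def sf (b : OrthonormalBasis (Fin n) ℝ (EuclideanSpace ℝ (Fin n)))
    (s : Fin n → ℝ) : EuclideanSpace ℝ (Fin n) →L[ℝ] EuclideanSpace ℝ (Fin n) :=
  LinearMap.toContinuousLinearMap
    { toFun := fun x => ∑ k, (s k * inner ℝ (b k) x) • b k
      map_add' := fun x y => by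
        rw [← Finset.sum_add_distrib]
        refine Finset.sum_congr rfl fun k _ => ?_
        rw [inner_add_right, mul_add, add_smul]
      map_smul' := fun c x => by
        simp only [RingHom.id_apply]
        rw [Finset.smul_sum]
        refine Finset.sum_congr rfl fun k _ => ?_
        rw [inner_smul_right, smul_smul]
        congr 1
        ring }

private lemma sf_apply (b : OrthonormalBasis (Fin n) ℝ (EuclideanSpace ℝ (Fin n)))
    (s : Fin n → ℝ) (x : EuclideanSpace ℝ (Fin n)) :
    sf b s x = ∑ k, (s k * inner ℝ (b k) x) • b k := rfl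

private lemma inner_sf (b : OrthonormalBasis (Fin n) ℝ (EuclideanSpace ℝ (Fin n)))
    (s : Fin n → ℝ) (x : EuclideanSpace ℝ (Fin n)) (k : Fin n) :
    inner ℝ (b k) (sf b s x) = s k * inner ℝ (b k) x := by
  rw [sf_apply]
  exact b.orthonormal.inner_right_fintype _ k

private lemma sf_symm (b : OrthonormalBasis (Fin n) ℝ (EuclideanSpace ℝ (Fin n)))
    (s : Fin n → ℝ) (x y : EuclideanSpace ℝ (Fin n)) :
    inner ℝ x (sf b s y) = inner ℝ (sf b s x) y := by
  rw [← b.sum_inner_mul_inner x (sf b s y), ← b.sum_inner_mul_inner (sf b s x) y]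
  refine Finset.sum_congr rfl fun k _ => ?_
  rw [inner_sf, real_inner_comm (b k) (sf b s x), inner_sf, real_inner_comm x (b k)]
  ring

private lemma sf_eig (b : OrthonormalBasis (Fin n) ℝ (EuclideanSpace ℝ (Fin n)))
    (s : Fin n → ℝ) {a : EuclideanSpace ℝ (Fin n)} {t : ℝ}
    (h : ∀ k, s k * inner ℝ (b k) a = t * inner ℝ (b k) a) : sf b s a = t • a := by
  refine InnerProductSpace.ext_inner_left_basis b.toBasis fun k => ?_
  rw [OrthonormalBasis.coe_toBasis, inner_sf, h k, inner_smul_right]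

private lemma opnorm_sq_basis (b : OrthonormalBasis (Fin n) ℝ (EuclideanSpace ℝ (Fin n)))
    (M : EuclideanSpace ℝ (Fin n) →L[ℝ] ℝ) : ‖M‖ ^ 2 = ∑ k, M (b k) ^ 2 := by
  set m : EuclideanSpace ℝ (Fin n) :=
    (InnerProductSpace.toDual ℝ (EuclideanSpace ℝ (Fin n))).symm M with hm
  have h1 : ∀ x, M x = inner ℝ m x := fun x => by
    rw [hm, InnerProductSpace.toDual_symm_apply]
  have h2 : ‖M‖ = ‖m‖ := by
    rw [hm, LinearIsometryEquiv.norm_map]
  rw [h2, ← b.sum_sq_norm_inner_right m]
  refine Finset.sum_congr rfl fun k _ => ?_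
  rw [h1, real_inner_comm, Real.norm_eq_abs, sq_abs]

/-- whitening of a centred measure -/
theorem whitenG (ν : Measure (EuclideanSpace ℝ (Fin n))) [IsProbabilityMeasure ν]
    (hid : MemLp id 2 ν) (hcen : ∀ w : EuclideanSpace ℝ (Fin n), ∫ z, inner ℝ w z ∂ν = 0) :
    ∃ T B : EuclideanSpace ℝ (Fin n) →L[ℝ] EuclideanSpace ℝ (Fin n),
      (∀ x, T (B (T x)) = T x) ∧ (∀ᵐ x ∂ν, B (T x) = x) ∧
      (∀ w : EuclideanSpace ℝ (Fin n), ∫ x, inner ℝ w (T x) ^ 2 ∂ν ≤ ‖w‖ ^ 2) ∧
      ∀ K : ℝ, (∀ f : EuclideanSpace ℝ (Fin n) → ℝ, ContDiff ℝ 1 f →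
        (∃ l : ℝ, ∀ x, ‖fderiv ℝ f x‖ ≤ l) →
        Var[f; ν.map T] ≤ K * ∫ x, ‖fderiv ℝ f x‖ ^ 2 ∂(ν.map T)) → AP ν K := by
  -- the covariance operator and its spectral decomposition
  set Q : EuclideanSpace ℝ (Fin n) →L[ℝ] EuclideanSpace ℝ (Fin n) := covarianceOperator ν with hQ
  have hQi : ∀ x y : EuclideanSpace ℝ (Fin n),
      inner ℝ (Q x) y = ∫ z, inner ℝ x z * inner ℝ y z ∂ν := fun x y =>
    covarianceOperator_inner hid x y
  have hQs : Q.toLinearMap.IsSymmetric := (isPositive_covarianceOperator (μ := ν)).isSymmetric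
  have hn : Module.finrank ℝ (EuclideanSpace ℝ (Fin n)) = n := by simp
  set b : OrthonormalBasis (Fin n) ℝ (EuclideanSpace ℝ (Fin n)) :=
    hQs.eigenvectorBasis hn with hb
  set q : Fin n → ℝ := hQs.eigenvalues hn with hq
  have hQb : ∀ k, Q (b k) = q k • b k := fun k => hQs.apply_eigenvectorBasis hn k
  have hQx : ∀ (x : EuclideanSpace ℝ (Fin n)) (k : Fin n),
      inner ℝ (b k) (Q x) = q k * inner ℝ (b k) x := by
    intro x k
    have h1 := hQs (b k) x
    simp only [ContinuousLinearMap.coe_coe] at h1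
    rw [← h1, hQb, real_inner_smul_left]
  have hq2 : ∀ k, q k = ∫ z, inner ℝ (b k) z ^ 2 ∂ν := by
    intro k
    have h1 := hQi (b k) (b k)
    rw [hQb, real_inner_smul_left, real_inner_self_eq_norm_sq, b.norm_eq_one, one_pow,
      mul_one] at h1
    rw [h1]
    congr 1
    funext z
    ring
  have hq0 : ∀ k, 0 ≤ q k := fun k => by
    rw [hq2 k]
    exact integral_nonneg fun z => sq_nonneg _
  have hqf : ∀ m : EuclideanSpace ℝ (Fin n),
      ∫ z, inner ℝ m z ^ 2 ∂ν = ∑ k, q k * inner ℝ (b k) m ^ 2 := by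
    intro m
    have h1 := hQi m m
    have h2 : ∫ z, inner ℝ m z ^ 2 ∂ν = ∫ z, inner ℝ m z * inner ℝ m z ∂ν := by
      congr 1
      funext z
      ring
    rw [h2, ← h1, ← b.sum_inner_mul_inner]
    refine Finset.sum_congr rfl fun k _ => ?_
    rw [real_inner_comm, hQx]
    ring
  -- scales
  set σ : Fin n → ℝ := fun k => Real.sqrt (q k) with hσ
  have hσ2 : ∀ k, σ k ^ 2 = q k := fun k => Real.sq_sqrt (hq0 k)
  set T : EuclideanSpace ℝ (Fin n) →L[ℝ] EuclideanSpace ℝ (Fin n) := sf b (fun k => (σ k)⁻¹)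
    with hT
  set B : EuclideanSpace ℝ (Fin n) →L[ℝ] EuclideanSpace ℝ (Fin n) := sf b σ with hB
  have hTBT : ∀ x, T (B (T x)) = T x := by
    intro x
    refine InnerProductSpace.ext_inner_left_basis b.toBasis fun k => ?_
    rw [OrthonormalBasis.coe_toBasis, hT, inner_sf, hB, inner_sf, inner_sf]
    by_cases h0 : σ k = 0
    · simp [h0]
    · rw [inv_mul_cancel_left₀ h0]
  have hBT : ∀ᵐ x ∂ν, B (T x) = x := by
    have h1 : ∀ k : Fin n, ∀ᵐ x ∂ν, σ k * ((σ k)⁻¹ * inner ℝ (b k) x) = inner ℝ (b k) x := by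
      intro k
      by_cases h0 : σ k = 0
      · have h2 : ∫ z, inner ℝ (b k) z ^ 2 ∂ν = 0 := by
          rw [← hq2 k, ← hσ2 k, h0]
          ring
        have hint : Integrable (fun z : EuclideanSpace ℝ (Fin n) => inner ℝ (b k) z ^ 2) ν :=
          (hid.const_inner (b k)).integrable_sq
        have h3 := (integral_eq_zero_iff_of_nonneg
          (fun x : EuclideanSpace ℝ (Fin n) => sq_nonneg (inner ℝ (b k) x)) hint).mp h2
        filter_upwards [h3] with x hx
        have hx' : inner ℝ (b k) x = 0 := by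
          have : inner ℝ (b k) x ^ 2 = 0 := hx
          exact pow_eq_zero_iff (two_ne_zero) |>.mp this
        rw [hx', mul_zero, mul_zero]
      · refine ae_of_all _ fun x => ?_
        rw [← mul_assoc, mul_inv_cancel₀ h0, one_mul]
    rw [← ae_all_iff] at h1
    filter_upwards [h1] with x hx
    refine InnerProductSpace.ext_inner_left_basis b.toBasis fun k => ?_
    rw [OrthonormalBasis.coe_toBasis, hB, inner_sf, hT, inner_sf]
    exact hx k
  have hTm : Measurable T := T.continuous.measurable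
  have hvar : ∀ w : EuclideanSpace ℝ (Fin n), ∫ x, inner ℝ w (T x) ^ 2 ∂ν ≤ ‖w‖ ^ 2 := by
    intro w
    have h1 : (fun x : EuclideanSpace ℝ (Fin n) => inner ℝ w (T x) ^ 2) =
        fun x => inner ℝ (T w) x ^ 2 := by
      funext x
      rw [hT, ← sf_symm]
    rw [h1, hqf, ← b.sum_sq_norm_inner_right w]
    refine Finset.sum_le_sum fun k _ => ?_
    rw [hT, inner_sf, Real.norm_eq_abs, sq_abs, mul_pow, ← hσ2 k, ← mul_assoc, ← mul_pow]
    by_cases h0 : σ k = 0
    · rw [h0]
      simp only [zero_mul, ne_eq, OfNat.ofNat_ne_zero, not_false_eq_true, zero_pow]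
      exact sq_nonneg _
    · rw [mul_inv_cancel₀ h0, one_pow, one_mul]
  refine ⟨T, B, hTBT, hBT, hvar, ?_⟩
  rintro K hK f hf ⟨l, hl⟩
  have hfB : ContDiff ℝ 1 (fun y => f (B y)) := hf.comp B.contDiff
  have hfd : ∀ y, fderiv ℝ (fun y => f (B y)) y = (fderiv ℝ f (B y)).comp B := by
    intro y
    have h1 : HasFDerivAt (fun y => f (B y)) ((fderiv ℝ f (B y)).comp B) y :=
      ((hf.differentiable one_ne_zero) (B y)).hasFDerivAt.comp y B.hasFDerivAt
    exact h1.fderiv
  have hmain := hK (fun y => f (B y)) hfB ⟨l * ‖B‖, fun y => by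
    rw [hfd]
    exact (ContinuousLinearMap.opNorm_comp_le _ _).trans
      (mul_le_mul_of_nonneg_right (hl _) (norm_nonneg _))⟩
  -- left side
  have hleft : Var[fun y => f (B y); ν.map T] = Var[f; ν] := by
    rw [variance_map hfB.continuous.measurable.aemeasurable hTm.aemeasurable]
    refine variance_congr ?_
    filter_upwards [hBT] with x hx
    show f (B (T x)) = f x
    rw [hx]
  have hvl : ∀ L : EuclideanSpace ℝ (Fin n) →L[ℝ] ℝ,
      Var[fun z => L z; ν] = ∑ k, q k * L (b k) ^ 2 := by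
    intro L
    set m : EuclideanSpace ℝ (Fin n) :=
      (InnerProductSpace.toDual ℝ (EuclideanSpace ℝ (Fin n))).symm L with hm
    have h1 : ∀ x, L x = inner ℝ m x := fun x => by
      rw [hm, InnerProductSpace.toDual_symm_apply]
    have h2 : (fun z => L z) = fun z => inner ℝ m z := funext h1
    have hmem : MemLp (fun z : EuclideanSpace ℝ (Fin n) => inner ℝ m z) 2 ν := hid.const_inner m
    rw [h2, variance_eq_sub hmem]
    have h3 : ∫ z, inner ℝ m z ∂ν = 0 := hcen m
    have h4 : ∫ z, ((fun z : EuclideanSpace ℝ (Fin n) => inner ℝ m z) ^ 2) z ∂ν =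
      ∑ k, q k * inner ℝ (b k) m ^ 2 := hqf m
    rw [h3, h4]
    simp only [ne_eq, OfNat.ofNat_ne_zero, not_false_eq_true, zero_pow, sub_zero]
    refine Finset.sum_congr rfl fun k _ => ?_
    rw [h1, real_inner_comm]
  have hright : ∫ y, ‖fderiv ℝ (fun y => f (B y)) y‖ ^ 2 ∂(ν.map T) =
      ∫ x, Var[fun z => fderiv ℝ f x z; ν] ∂ν := by
    have h1 : ∀ y, ‖fderiv ℝ (fun y => f (B y)) y‖ ^ 2 =
        ∑ k, q k * (fderiv ℝ f (B y) (b k)) ^ 2 := by
      intro y
      rw [opnorm_sq_basis b]
      refine Finset.sum_congr rfl fun k _ => ?_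
      have h2 : B (b k) = σ k • b k := by
        rw [hB]
        refine sf_eig b σ fun j => ?_
        by_cases hj : j = k
        · subst hj; rfl
        · rw [b.inner_eq_zero hj]; ring
      rw [hfd, ContinuousLinearMap.comp_apply, h2, map_smul, smul_eq_mul, ← hσ2 k]
      ring
    simp_rw [h1]
    rw [integral_map hTm.aemeasurable]
    · refine integral_congr_ae ?_
      filter_upwards [hBT] with x hx
      rw [hx, hvl]
    · have hc := hf.continuous_fderiv one_ne_zero
      refine Continuous.aestronglyMeasurable ?_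
      fun_prop
  rw [hleft, hright] at hmain
  exact hmain

end Pool.Agent.Lib.MP_6d896a_gt.FP
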