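import Mathlib
import Pool.Agent.Lib.MP_6d896a_gt.FP.EM
import Pool.Agent.Lib.MP_6d896a_gt.FP.WhitenG

/-!
The affine invariant Poincare constant of a log-concave measure is at most a constant times the
sum of the constant of a linear image and the dimension of the kernel.
-/

set_option autoImplicit false

namespace Pool.Agent.Lib.MP_6d896a_gt.FP

open MeasureTheory ProbabilityTheory Set Filter
open scoped ENNReal Topology

private lemma factor {X U W : Type*} [AddCommGroup X] [Module ℝ X] [AddCommGroup U] [Module ℝ U]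
    [AddCommGroup W] [Module ℝ W] (g : X →ₗ[ℝ] U) (h : X →ₗ[ℝ] W)
    (hk : ∀ x, g x = 0 → h x = 0) : ∃ J : U →ₗ[ℝ] W, ∀ x, J (g x) = h x := by
  obtain ⟨s, hs⟩ := LinearMap.exists_rightInverse_of_surjective g.rangeRestrict
    g.range_rangeRestrict
  obtain ⟨J, hJ⟩ := LinearMap.exists_extend (h ∘ₗ s)
  refine ⟨J, fun x => ?_⟩
  have h1 : J (g x) = (h ∘ₗ s) (g.rangeRestrict x) := by
    rw [← hJ]
    rfl
  rw [h1, LinearMap.comp_apply]
  have h2 : g (s (g.rangeRestrict x)) = g x := by
    have h3 : g.rangeRestrict (s (g.rangeRestrict x)) = g.rangeRestrict x := by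
      exact LinearMap.congr_fun hs (g.rangeRestrict x)
    exact congrArg Subtype.val h3
  have h4 : h (s (g.rangeRestrict x) - x) = 0 := hk _ (by rw [map_sub, h2, sub_self])
  rw [map_sub, sub_eq_zero] at h4
  exact h4

variable {n : ℕ}

/-- centred case -/
private lemma ap_codim_centred {C : ℝ}
    (hem : ∀ (E : Type) [NormedAddCommGroup E] [InnerProductSpace ℝ E]
      [FiniteDimensional ℝ E] [MeasurableSpace E] [BorelSpace E] (μ : Measure E)
      [IsProbabilityMeasure μ], PLm μ → ∀ M : ℝ, 0 < M → LVb μ M →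
      ∀ f : E → ℝ, ContDiff ℝ 1 f → (∃ l : ℝ, ∀ x, ‖fderiv ℝ f x‖ ≤ l) →
      Var[f; μ] ≤ C * M * ∫ x, ‖fderiv ℝ f x‖ ^ 2 ∂μ)
    {m : ℕ} (ν : Measure (EuclideanSpace ℝ (Fin n))) [IsProbabilityMeasure ν] (hpl : PLm ν)
    (hcen : ∀ w : EuclideanSpace ℝ (Fin n), ∫ z, inner ℝ w z ∂ν = 0)
    (P : EuclideanSpace ℝ (Fin n) →L[ℝ] EuclideanSpace ℝ (Fin m)) {K : ℝ} (hK : 0 < K)
    (hP : AP (ν.map P) K) :
    AP ν (C * (2 * K + 2 * Module.finrank ℝ (P : EuclideanSpace ℝ (Fin n) →ₗ[ℝ]
      EuclideanSpace ℝ (Fin m)).ker)) := by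
  have hid : MemLp id 2 ν := by
    rw [← memLp_norm_iff (by fun_prop)]
    rw [memLp_two_iff_integrable_sq (by fun_prop)]
    exact hpl.sq_integrable
  obtain ⟨T, B, hTBT, hBT, hvar, hconv⟩ := whitenG ν hid hcen
  have hTm : Measurable T := T.continuous.measurable
  have hPm : Measurable P := P.continuous.measurable
  set d := Module.finrank ℝ (P : EuclideanSpace ℝ (Fin n) →ₗ[ℝ] EuclideanSpace ℝ (Fin m)).ker
    with hd
  have hprob : IsProbabilityMeasure (ν.map T) := Measure.isProbabilityMeasure_map hTm.aemeasurable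
  have hprobP : IsProbabilityMeasure (ν.map P) :=
    Measure.isProbabilityMeasure_map hPm.aemeasurable
  have hplT : PLm (ν.map T) := hpl.map
    (T : EuclideanSpace ℝ (Fin n) →ₗ[ℝ] EuclideanSpace ℝ (Fin n)) hTm
  apply hconv
  -- the subspace in which we lose the dimension
  set F : Submodule ℝ (EuclideanSpace ℝ (Fin n)) :=
    (T : EuclideanSpace ℝ (Fin n) →ₗ[ℝ] EuclideanSpace ℝ (Fin n)).range ⊓
      ((P.comp B : EuclideanSpace ℝ (Fin n) →L[ℝ] EuclideanSpace ℝ (Fin m)) :
        EuclideanSpace ℝ (Fin n) →ₗ[ℝ] EuclideanSpace ℝ (Fin m)).ker with hF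
  have hFd : Module.finrank ℝ F ≤ d := by
    have hmaps : ∀ y : F, B y ∈ (P : EuclideanSpace ℝ (Fin n) →ₗ[ℝ]
        EuclideanSpace ℝ (Fin m)).ker := by
      rintro ⟨y, hy1, hy2⟩
      exact hy2
    let φ : F →ₗ[ℝ] (P : EuclideanSpace ℝ (Fin n) →ₗ[ℝ] EuclideanSpace ℝ (Fin m)).ker :=
      LinearMap.codRestrict _
        ((B : EuclideanSpace ℝ (Fin n) →ₗ[ℝ] EuclideanSpace ℝ (Fin n)) ∘ₗ F.subtype) hmaps
    refine LinearMap.finrank_le_finrank_of_injective (f := φ) ?_
    rw [injective_iff_map_eq_zero]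
    rintro ⟨y, hy1, hy2⟩ h0
    have h1 : B y = 0 := congrArg Subtype.val h0
    obtain ⟨x, rfl⟩ := hy1
    have h2 : T (B (T x)) = T x := hTBT x
    simp only [ContinuousLinearMap.coe_coe] at h1
    rw [h1, map_zero] at h2
    exact Subtype.ext h2.symm
  set R0 : EuclideanSpace ℝ (Fin n) →L[ℝ] EuclideanSpace ℝ (Fin n) := Fᗮ.starProjection with hR0
  have hRn : ∀ y, ‖R0 y‖ ≤ ‖y‖ := fun y => Submodule.norm_starProjection_apply_le _ y
  have hRs : ∀ y, y - R0 y = F.starProjection y := by
    intro y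
    have := F.starProjection_add_starProjection_orthogonal y
    rw [hR0]
    nth_rewrite 1 [← this]
    abel
  obtain ⟨J, hJ⟩ := factor
    ((P.comp (B.comp T) : EuclideanSpace ℝ (Fin n) →L[ℝ] EuclideanSpace ℝ (Fin m)) :
      EuclideanSpace ℝ (Fin n) →ₗ[ℝ] EuclideanSpace ℝ (Fin m))
    ((R0.comp T : EuclideanSpace ℝ (Fin n) →L[ℝ] EuclideanSpace ℝ (Fin n)) :
      EuclideanSpace ℝ (Fin n) →ₗ[ℝ] EuclideanSpace ℝ (Fin n)) (by
    intro x hx
    show R0 (T x) = 0
    have h1 : T x ∈ F := ⟨⟨x, rfl⟩, hx⟩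
    have h2 : F.starProjection (T x) = T x := Submodule.starProjection_eq_self_iff.2 h1
    have h3 := hRs (T x)
    rw [h2] at h3
    exact sub_eq_self.1 h3)
  set Jc : EuclideanSpace ℝ (Fin m) →L[ℝ] EuclideanSpace ℝ (Fin n) :=
    LinearMap.toContinuousLinearMap J with hJc
  have hJP : ∀ᵐ x ∂ν, Jc (P x) = R0 (T x) := by
    filter_upwards [hBT] with x hx
    have h1 : J (P (B (T x))) = R0 (T x) := hJ x
    rw [hx] at h1
    exact h1
  -- variance of functionals
  have hvarL : ∀ L : EuclideanSpace ℝ (Fin n) →L[ℝ] ℝ, Var[fun x => L (T x); ν] ≤ ‖L‖ ^ 2 := by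
    intro L
    set w : EuclideanSpace ℝ (Fin n) :=
      (InnerProductSpace.toDual ℝ (EuclideanSpace ℝ (Fin n))).symm L with hw
    have h1 : ∀ x, L x = inner ℝ w x := fun x => by
      rw [hw, InnerProductSpace.toDual_symm_apply]
    have h2 : ‖L‖ = ‖w‖ := by rw [hw, LinearIsometryEquiv.norm_map]
    rw [h2]
    refine (variance_le_expectation_sq (by fun_prop)).trans ?_
    simp only [h1]
    exact hvar w
  have hLV : LVb (ν.map T) (2 * K + 2 * d) := by
    rintro f hf ⟨bd, hbd⟩ - hf1
    have hfl : ∀ x y, |f x - f y| ≤ ‖x - y‖ := by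
      intro x y
      have := Convex.norm_image_sub_le_of_norm_fderiv_le (𝕜 := ℝ) (f := f) (C := 1)
        (s := Set.univ) (x := y) (y := x)
        (fun x _ => (hf.differentiable one_ne_zero) x) (fun x _ => hf1 x) convex_univ
        (Set.mem_univ _) (Set.mem_univ _)
      rwa [one_mul, Real.norm_eq_abs] at this
    -- the part which depends on the image
    have hg1 : Var[fun x => f (R0 (T x)); ν] ≤ K := by
      have e1 : Var[fun x => f (R0 (T x)); ν] = Var[fun y => f (Jc y); ν.map P] := by
        have hfJ : Measurable (fun y => f (Jc y)) :=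
          (hf.continuous.comp Jc.continuous).measurable
        rw [variance_map hfJ.aemeasurable hPm.aemeasurable]
        refine variance_congr ?_
        filter_upwards [hJP] with x hx
        show f (R0 (T x)) = f (Jc (P x))
        rw [hx]
      have hfd : ∀ y, fderiv ℝ (fun y => f (Jc y)) y = (fderiv ℝ f (Jc y)).comp Jc := by
        intro y
        have h1 : HasFDerivAt (fun y => f (Jc y)) ((fderiv ℝ f (Jc y)).comp Jc) y :=
          ((hf.differentiable one_ne_zero) (Jc y)).hasFDerivAt.comp y Jc.hasFDerivAt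
        exact h1.fderiv
      rw [e1]
      refine (hP (fun y => f (Jc y)) (hf.comp Jc.contDiff) ⟨1 * ‖Jc‖, fun y => by
        rw [hfd]
        exact (ContinuousLinearMap.opNorm_comp_le _ _).trans
          (mul_le_mul_of_nonneg_right (hf1 _) (norm_nonneg _))⟩).trans ?_
      have h2 : ∀ y, Var[fun z => fderiv ℝ (fun y => f (Jc y)) y z; ν.map P] ≤ 1 := by
        intro y
        rw [variance_map (fderiv ℝ (fun y => f (Jc y)) y).continuous.measurable.aemeasurable
          hPm.aemeasurable]
        have h3 : Var[(fun z => fderiv ℝ (fun y => f (Jc y)) y z) ∘ P; ν] =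
            Var[fun x => ((fderiv ℝ f (Jc y)).comp R0) (T x); ν] := by
          refine variance_congr ?_
          filter_upwards [hJP] with x hx
          show fderiv ℝ (fun y => f (Jc y)) y (P x) = fderiv ℝ f (Jc y) (R0 (T x))
          rw [hfd, ContinuousLinearMap.comp_apply, hx]
        rw [h3]
        refine (hvarL _).trans ?_
        have h4 : ‖(fderiv ℝ f (Jc y)).comp R0‖ ≤ 1 := by
          refine ContinuousLinearMap.opNorm_le_bound _ zero_le_one fun z => ?_
          rw [ContinuousLinearMap.comp_apply]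
          calc ‖fderiv ℝ f (Jc y) (R0 z)‖ ≤ ‖fderiv ℝ f (Jc y)‖ * ‖R0 z‖ :=
                ContinuousLinearMap.le_opNorm _ _
            _ ≤ 1 * ‖z‖ := mul_le_mul (hf1 _) (hRn z) (norm_nonneg _) zero_le_one
        exact pow_le_one₀ (norm_nonneg _) h4
      have h5 : ∫ y, Var[fun z => fderiv ℝ (fun y => f (Jc y)) y z; ν.map P] ∂(ν.map P) ≤
          ∫ _y, (1 : ℝ) ∂(ν.map P) :=
        integral_mono_of_nonneg (ae_of_all _ fun y => variance_nonneg _ _)
          (integrable_const _) (ae_of_all _ fun y => h2 y)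
      rw [integral_const, probReal_univ, one_smul] at h5
      calc _ ≤ K * 1 := mul_le_mul_of_nonneg_left h5 hK.le
        _ = K := mul_one K
    -- the rest
    have hFn : ∫ x, ‖F.starProjection (T x)‖ ^ 2 ∂ν ≤ d := by
      set u := stdOrthonormalBasis ℝ F with hu
      have h1 : ∀ x, ‖F.starProjection (T x)‖ ^ 2 = ∑ i, inner ℝ (u i : EuclideanSpace ℝ (Fin n))
          (T x) ^ 2 := by
        intro x
        have h2 : ‖F.starProjection (T x)‖ = ‖F.orthogonalProjectionOnto (T x)‖ := by
          rw [Submodule.starProjection_apply, Submodule.coe_norm]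
        rw [h2, ← u.sum_sq_norm_inner_right]
        refine Finset.sum_congr rfl fun i _ => ?_
        rw [Real.norm_eq_abs, sq_abs, Submodule.inner_orthogonalProjectionOnto_eq_of_mem_left]
      simp only [h1]
      have hint : ∀ w : EuclideanSpace ℝ (Fin n), Integrable (fun x => inner ℝ w (T x) ^ 2) ν := by
        intro w
        have h3 : MemLp (fun x => inner ℝ w (T x)) 2 ν := by
          have := ((innerSL ℝ w).comp T).comp_memLp' hid
          exact this
        exact h3.integrable_sq
      rw [integral_finsetSum _ fun i _ => hint _]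
      calc ∑ i, ∫ x, inner ℝ (u i : EuclideanSpace ℝ (Fin n)) (T x) ^ 2 ∂ν
          ≤ ∑ _i : Fin (Module.finrank ℝ F), (1 : ℝ) := by
            refine Finset.sum_le_sum fun i _ => (hvar _).trans ?_
            have : ‖(u i : EuclideanSpace ℝ (Fin n))‖ = 1 := by
              rw [Submodule.norm_coe]
              exact u.norm_eq_one i
            rw [this, one_pow]
        _ = (Module.finrank ℝ F : ℝ) := by simp
        _ ≤ d := by exact_mod_cast hFd
    rw [variance_map hf.continuous.measurable.aemeasurable hTm.aemeasurable]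
    set g : EuclideanSpace ℝ (Fin n) → ℝ := fun x => f (R0 (T x)) with hg
    have hgm : MemLp g 2 ν := MemLp.of_bound
      (hf.continuous.comp (R0.continuous.comp T.continuous)).aestronglyMeasurable bd
      (ae_of_all _ fun x => by rw [Real.norm_eq_abs]; exact hbd _)
    have hfm : MemLp (fun x => f (T x)) 2 ν := MemLp.of_bound
      (hf.continuous.comp T.continuous).aestronglyMeasurable bd
      (ae_of_all _ fun x => by rw [Real.norm_eq_abs]; exact hbd _)
    set c := ∫ x, g x ∂ν with hc
    have hv1 : Var[fun x => f (T x); ν] ≤ ∫ x, (f (T x) - c) ^ 2 ∂ν := by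
      have h1 := variance_le_expectation_sq (μ := ν) (X := fun x => f (T x) - c)
        ((hf.continuous.comp T.continuous).aestronglyMeasurable.sub aestronglyMeasurable_const)
      have h2 : Var[fun x => f (T x) - c; ν] = Var[fun x => f (T x); ν] :=
        variance_sub_const (hf.continuous.comp T.continuous).aestronglyMeasurable c
      rw [h2] at h1
      exact h1
    have hi1 : Integrable (fun x => (f (T x) - g x) ^ 2) ν := (hfm.sub hgm).integrable_sq
    have hi2 : Integrable (fun x => (g x - c) ^ 2) ν := (hgm.sub (memLp_const c)).integrable_sq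
    have hi3 : Integrable (fun x => (f (T x) - c) ^ 2) ν :=
      (hfm.sub (memLp_const c)).integrable_sq
    have hv2 : ∫ x, (f (T x) - c) ^ 2 ∂ν ≤
        2 * ∫ x, (f (T x) - g x) ^ 2 ∂ν + 2 * ∫ x, (g x - c) ^ 2 ∂ν := by
      rw [← integral_const_mul, ← integral_const_mul, ← integral_add (hi1.const_mul 2)
        (hi2.const_mul 2)]
      refine integral_mono hi3 ((hi1.const_mul 2).add (hi2.const_mul 2)) fun x => ?_
      show (f (T x) - c) ^ 2 ≤ 2 * (f (T x) - g x) ^ 2 + 2 * (g x - c) ^ 2
      nlinarith [sq_nonneg (f (T x) - g x - (g x - c))]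
    have hv3 : ∫ x, (g x - c) ^ 2 ∂ν = Var[g; ν] := by
      rw [variance_eq_integral hgm.aestronglyMeasurable.aemeasurable]
    have hv4 : ∫ x, (f (T x) - g x) ^ 2 ∂ν ≤ ∫ x, ‖F.starProjection (T x)‖ ^ 2 ∂ν := by
      refine integral_mono_of_nonneg (ae_of_all _ fun x => sq_nonneg _) ?_
        (ae_of_all _ fun x => ?_)
      · have : MemLp (fun x => F.starProjection (T x)) 2 ν :=
          (F.starProjection.comp T).comp_memLp' hid
        exact this.integrable_norm_pow (by norm_num)
      · show (f (T x) - g x) ^ 2 ≤ ‖F.starProjection (T x)‖ ^ 2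
        rw [← sq_abs, ← hRs]
        exact pow_le_pow_left₀ (abs_nonneg _) (hfl _ _) 2
    show Var[fun x => f (T x); ν] ≤ 2 * K + 2 * d
    rw [hv3] at hv2
    linarith
  have hd0 : (0 : ℝ) ≤ d := Nat.cast_nonneg _
  intro f hf hl
  exact hem _ (ν.map T) hplT (2 * K + 2 * d) (by positivity) hLV f hf hl

/-- the affine invariant Poincare inequality for a log-concave measure from that of a linear
image, with a loss proportional to the dimension of the kernel -/
theorem ap_codim : ∃ C : ℝ, 1 ≤ C ∧ ∀ (n m : ℕ) (ν : Measure (EuclideanSpace ℝ (Fin n)))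
    [IsProbabilityMeasure ν], PLm ν →
    ∀ (P : EuclideanSpace ℝ (Fin n) →L[ℝ] EuclideanSpace ℝ (Fin m)) (K : ℝ), 0 < K →
    AP (ν.map P) K →
    AP ν (C * (K + Module.finrank ℝ (P : EuclideanSpace ℝ (Fin n) →ₗ[ℝ]
      EuclideanSpace ℝ (Fin m)).ker)) := by
  obtain ⟨C, hC, hem⟩ := em
  refine ⟨max 1 (2 * C), le_max_left _ _, ?_⟩
  intro n m ν _ hpl P K hK hP
  have hid : MemLp id 2 ν := by
    rw [← memLp_norm_iff (by fun_prop)]
    rw [memLp_two_iff_integrable_sq (by fun_prop)]
    exact hpl.sq_integrable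
  have hint : Integrable (fun z : EuclideanSpace ℝ (Fin n) => z) ν := hid.integrable one_le_two
  set v : EuclideanSpace ℝ (Fin n) := ∫ z, z ∂ν with hv
  have hm : Measurable (fun x : EuclideanSpace ℝ (Fin n) => x + -v) :=
    (continuous_id.add continuous_const).measurable
  have hprob : IsProbabilityMeasure (ν.map (fun x => x + -v)) :=
    Measure.isProbabilityMeasure_map hm.aemeasurable
  have hPm : Measurable P := P.continuous.measurable
  have hprobP : IsProbabilityMeasure (ν.map P) :=
    Measure.isProbabilityMeasure_map hPm.aemeasurable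
  have hcen : ∀ w : EuclideanSpace ℝ (Fin n), ∫ z, inner ℝ w z ∂(ν.map (fun x => x + -v)) = 0 := by
    intro w
    rw [integral_map hm.aemeasurable (by fun_prop)]
    simp only [inner_add_right, inner_neg_right]
    rw [integral_add (hint.const_inner w) (integrable_const _), integral_const, probReal_univ,
      one_smul, integral_inner hint, ← hv]
    ring
  have hP' : AP ((ν.map (fun x => x + -v)).map P) K := by
    have h1 := hP.translate (P (-v))
    have hm' : Measurable (fun x : EuclideanSpace ℝ (Fin m) => x + P (-v)) :=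
      (continuous_id.add continuous_const).measurable
    rw [Measure.map_map hm' hPm] at h1
    rw [Measure.map_map hPm hm]
    have h2 : (P : EuclideanSpace ℝ (Fin n) → EuclideanSpace ℝ (Fin m)) ∘ (fun x => x + -v) =
        (fun x => x + P (-v)) ∘ P := by
      funext x
      simp
    rw [h2]
    exact h1
  have h1 := (ap_codim_centred hem (ν.map (fun x => x + -v)) (hpl.translate (-v)) hcen P hK
    hP').translate v
  have hm' : Measurable (fun x : EuclideanSpace ℝ (Fin n) => x + v) :=
    (continuous_id.add continuous_const).measurable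
  rw [Measure.map_map hm' hm] at h1
  have h2 : (fun x : EuclideanSpace ℝ (Fin n) => x + v) ∘ (fun x => x + -v) = id := by
    funext x
    simp
  rw [h2, Measure.map_id] at h1
  intro f hf hl
  refine (h1 f hf hl).trans (mul_le_mul_of_nonneg_right ?_
    (integral_nonneg fun x => variance_nonneg _ _))
  have hd0 : (0 : ℝ) ≤ Module.finrank ℝ (P : EuclideanSpace ℝ (Fin n) →ₗ[ℝ]
      EuclideanSpace ℝ (Fin m)).ker := Nat.cast_nonneg _
  calc C * (2 * K + 2 * Module.finrank ℝ (P : EuclideanSpace ℝ (Fin n) →ₗ[ℝ]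
      EuclideanSpace ℝ (Fin m)).ker) = (2 * C) * (K + Module.finrank ℝ
        (P : EuclideanSpace ℝ (Fin n) →ₗ[ℝ] EuclideanSpace ℝ (Fin m)).ker) := by ring
    _ ≤ _ := mul_le_mul_of_nonneg_right (le_max_right _ _) (by positivity)

end Pool.Agent.Lib.MP_6d896a_gt.FP
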