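import Mathlib
import Pool.Agent.Lib.MP_6d896a_gt.FP.EM
import Pool.Agent.Lib.MP_6d896a_gt.FP.NicePL

/-!
The Poincare inequality for a strongly convex nice potential.
-/

set_option autoImplicit false

namespace Pool.Agent.Lib.MP_6d896a_gt.FP

open MeasureTheory ProbabilityTheory Set Filter
open scoped ENNReal Topology

section quad

variable {E : Type*} [NormedAddCommGroup E] [InnerProductSpace ℝ E]

/-- the inner product as a real bilinear map -/
noncomputable def ipL (E : Type*) [NormedAddCommGroup E] [InnerProductSpace ℝ E] :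
    E →L[ℝ] E →L[ℝ] ℝ :=
  (innerₗ E).mkContinuous₂ 1 (fun x y => by
    rw [one_mul]; exact norm_inner_le_norm x y)

lemma ipL_apply (x y : E) : ipL E x y = inner ℝ x y := rfl

lemma hasFDerivAt_sq (s : ℝ) (x : E) :
    HasFDerivAt (fun x : E => s * ‖x‖ ^ 2) (((2 * s) • ipL E) x) x := by
  have h1 : HasFDerivAt (fun x : E => ‖x‖ ^ 2) (2 • innerSL ℝ x) x :=
    (hasStrictFDerivAt_norm_sq x).hasFDerivAt
  refine (h1.const_mul s).congr_fderiv ?_
  ext y
  simp only [_root_.smul_apply, ipL_apply, smul_eq_mul, innerSL_apply_apply, nsmul_eq_mul]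
  push_cast
  ring

lemma nice_sub_sq {θ : E → ℝ} (h : Nice θ) {s : ℝ} (hs : 0 < s)
    (hsc : ∀ x y, θ ((1 / 2 : ℝ) • (x + y)) + s * ‖x - y‖ ^ 2 ≤ (θ x + θ y) / 2) :
    Nice (fun x => θ x - s * ‖x‖ ^ 2) := by
  have hd1 : ∀ x, HasFDerivAt (fun x => θ x - s * ‖x‖ ^ 2)
      (fderiv ℝ θ x - ((2 * s) • ipL E) x) x := fun x =>
    ((h.cd.differentiable (by norm_num) x).hasFDerivAt).sub (hasFDerivAt_sq s x)
  have hf1 : fderiv ℝ (fun x => θ x - s * ‖x‖ ^ 2) =
      fun x => fderiv ℝ θ x - ((2 * s) • ipL E) x := funext fun x => (hd1 x).fderiv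
  have hcd1 : ContDiff ℝ 1 (fderiv ℝ θ) := h.cd.fderiv_right (by norm_num)
  have hf2 : ∀ x, fderiv ℝ (fderiv ℝ (fun x => θ x - s * ‖x‖ ^ 2)) x =
      fderiv ℝ (fderiv ℝ θ) x - (2 * s) • ipL E := by
    intro x
    rw [hf1]
    exact (((hcd1.differentiable (by norm_num) x).hasFDerivAt).sub
      ((2 * s) • ipL E).hasFDerivAt).fderiv
  refine ⟨h.cd.sub (contDiff_const.mul (contDiff_norm_sq ℝ)), ?_, ?_, ?_⟩
  · obtain ⟨C, hC⟩ := h.bd
    refine ⟨C + ‖(2 * s) • ipL E‖, fun x => ?_⟩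
    rw [hf2]
    have h1 := norm_sub_le (fderiv ℝ (fderiv ℝ θ) x) ((2 * s) • ipL E)
    have h2 := hC x
    linarith
  · obtain ⟨C, hC⟩ := h.lip
    refine ⟨C, fun x y => ?_⟩
    rw [hf2, hf2, sub_sub_sub_cancel_right]
    exact hC x y
  · refine ⟨3 * s / 4, by positivity, fun x y => ?_⟩
    have h1 := hsc x y
    have h2 : ‖(1 / 2 : ℝ) • (x + y)‖ ^ 2 = (‖x‖ ^ 2 + ‖y‖ ^ 2) / 2 - ‖x - y‖ ^ 2 / 4 := by
      have h3 := parallelogram_law_with_norm ℝ x y
      rw [norm_smul, mul_pow]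
      have h4 : ‖(1 / 2 : ℝ)‖ ^ 2 = 1 / 4 := by norm_num
      rw [h4]
      nlinarith
    rw [h2]
    nlinarith

end quad

section chan

variable {E : Type*} [NormedAddCommGroup E] [InnerProductSpace ℝ E] [FiniteDimensional ℝ E]
  [MeasurableSpace E] [BorelSpace E]
variable {F : Type*} [NormedAddCommGroup F] [NormedSpace ℝ F] [MeasureSpace F]
    [BorelSpace F] [FiniteDimensional ℝ F] [(volume : Measure F).IsAddHaarMeasure]

lemma qE_map_gibbs (T : E ≃L[ℝ] F) {ψ ψ' : F → ℝ} {s : ℝ}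
    (hψ : ∀ x, ψ' x = ψ x - s * ‖T.symm x‖ ^ 2) (hn : Nice ψ) (hn' : Nice ψ')
    {G : E → ℝ≥0∞} (hG : Measurable G) :
    qE s ((gibbs ψ').map T.symm) G 0 =
      ((∫⁻ x, ENNReal.ofReal (Real.exp (-ψ' x)))⁻¹ * ENNReal.ofReal ((gZ E s)⁻¹)) *
        ∫⁻ y, G (T.symm y) * ENNReal.ofReal (Real.exp (-ψ y)) := by
  have hTm : Measurable (T.symm : F → E) := T.symm.continuous.measurable
  have hm' : Measurable fun x : F => ENNReal.ofReal (Real.exp (-ψ' x)) :=
    ENNReal.measurable_ofReal.comp (Real.continuous_exp.comp hn'.continuous.neg).measurable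
  have hm : Measurable fun x : F => ENNReal.ofReal (Real.exp (-ψ x)) :=
    ENNReal.measurable_ofReal.comp (Real.continuous_exp.comp hn.continuous.neg).measurable
  have hgm : Measurable (fun x : E => G x * ENNReal.ofReal (gk s (0 - x))) := hG.mul (gk_meas' s 0)
  have hgm2 : Measurable (fun a : F => G (T.symm a) * ENNReal.ofReal (gk s (0 - T.symm a))) :=
    hgm.comp hTm
  unfold qE
  rw [lintegral_map hgm hTm]
  unfold gibbs
  rw [lintegral_smul_measure, lintegral_withDensity_eq_lintegral_mul _ hm' hgm2,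
    smul_eq_mul, mul_assoc]
  congr 1
  have hgm3 : Measurable (fun y : F => G (T.symm y) * ENNReal.ofReal (Real.exp (-ψ y))) :=
    (hG.comp hTm).mul hm
  rw [← lintegral_const_mul _ hgm3]
  apply lintegral_congr
  intro y
  simp only [Pi.mul_apply, Function.comp_apply]
  have e1 : ENNReal.ofReal (gk s (0 - T.symm y)) =
      ENNReal.ofReal ((gZ E s)⁻¹) * ENNReal.ofReal (Real.exp (-s * ‖T.symm y‖ ^ 2)) := by
    unfold gk
    rw [zero_sub, norm_neg, ENNReal.ofReal_mul' (Real.exp_pos _).le]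
  have e2 : ENNReal.ofReal (Real.exp (-ψ y)) =
      ENNReal.ofReal (Real.exp (-ψ' y)) * ENNReal.ofReal (Real.exp (-s * ‖T.symm y‖ ^ 2)) := by
    rw [← ENNReal.ofReal_mul (Real.exp_pos _).le, ← Real.exp_add]
    congr 2
    rw [hψ]; ring
  rw [e1, e2]
  ring

lemma chan_gibbs (T : E ≃L[ℝ] F) {ψ ψ' : F → ℝ} {s : ℝ} (hs : 0 < s)
    (hψ : ∀ x, ψ' x = ψ x - s * ‖T.symm x‖ ^ 2) (hn : Nice ψ) (hn' : Nice ψ')
    [IsProbabilityMeasure ((gibbs ψ').map T.symm)] :
    chan s ((gibbs ψ').map T.symm) 0 = (gibbs ψ).map T.symm := by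
  have hTm : Measurable (T.symm : F → E) := T.symm.continuous.measurable
  have hm : Measurable fun x : F => ENNReal.ofReal (Real.exp (-ψ x)) :=
    ENNReal.measurable_ofReal.comp (Real.continuous_exp.comp hn.continuous.neg).measurable
  ext S hS
  rw [chan_set hs hS, qE_map_gibbs T hψ hn hn' (measurable_one.indicator hS),
    qE_map_gibbs T hψ hn hn' measurable_const]
  have hc0 : (∫⁻ x, ENNReal.ofReal (Real.exp (-ψ' x)))⁻¹ * ENNReal.ofReal ((gZ E s)⁻¹) ≠ 0 := by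
    apply mul_ne_zero
    · exact ENNReal.inv_ne_zero.2 hn'.lintegral_ne_top
    · have : 0 < (gZ E s)⁻¹ := inv_pos.2 (gZ_pos hs)
      exact (ENNReal.ofReal_pos.2 this).ne'
  have hct : (∫⁻ x, ENNReal.ofReal (Real.exp (-ψ' x)))⁻¹ * ENNReal.ofReal ((gZ E s)⁻¹) ≠ ∞ :=
    ENNReal.mul_ne_top (ENNReal.inv_ne_top.2 hn'.lintegral_ne_zero) ENNReal.ofReal_ne_top
  rw [ENNReal.mul_div_mul_left _ _ hc0 hct, Measure.map_apply hTm hS]
  unfold gibbs
  rw [Measure.smul_apply, withDensity_apply _ (hTm hS), smul_eq_mul, ENNReal.div_eq_inv_mul]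
  simp only [one_mul]
  congr 1
  rw [← lintegral_indicator (hTm hS)]
  apply lintegral_congr
  intro y
  by_cases hy : T.symm y ∈ S
  · rw [indicator_of_mem hy, indicator_of_mem (show y ∈ T.symm ⁻¹' S from hy)]
    simp
  · rw [indicator_of_notMem hy, indicator_of_notMem (show y ∉ T.symm ⁻¹' S from hy)]
    simp

/-- Poincare inequality (in coordinates) for a strongly convex nice potential -/
lemma poinc_sc (T : E ≃L[ℝ] F) {ψ : F → ℝ} (hn : Nice ψ) {s : ℝ} (hs : 0 < s)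
    (hsc : ∀ x y : E, ψ (T ((1 / 2 : ℝ) • (x + y))) + s * ‖x - y‖ ^ 2 ≤ (ψ (T x) + ψ (T y)) / 2)
    {f : E → ℝ} (hf : ContDiff ℝ 1 f) (hl : ∃ l : ℝ, ∀ x, ‖fderiv ℝ f x‖ ≤ l) :
    Var[f; (gibbs ψ).map T.symm] ≤
      1 / (2 * s) * ∫ x, ‖fderiv ℝ f x‖ ^ 2 ∂((gibbs ψ).map T.symm) := by
  have hTm : Measurable (T.symm : F → E) := T.symm.continuous.measurable
  have hθ : Nice (fun x : E => ψ (T x)) := by
    have := hn.comp_affine (T : E →L[ℝ] F) (T.symm : F →L[ℝ] E) (fun z => by simp) 0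
    simpa using this
  have hθ' : Nice (fun x : E => ψ (T x) - s * ‖x‖ ^ 2) := nice_sub_sq hθ hs hsc
  have hn' : Nice (fun x : F => ψ x - s * ‖T.symm x‖ ^ 2) := by
    have := hθ'.comp_affine (T.symm : F →L[ℝ] E) (T : E →L[ℝ] F) (fun z => by simp) 0
    simpa using this
  have hp' := gibbs_prob hn'
  have hp := gibbs_prob hn
  have hpm' : IsProbabilityMeasure ((gibbs (fun x : F => ψ x - s * ‖T.symm x‖ ^ 2)).map T.symm) :=
    Measure.isProbabilityMeasure_map hTm.aemeasurable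
  have hpm : IsProbabilityMeasure ((gibbs ψ).map T.symm) :=
    Measure.isProbabilityMeasure_map hTm.aemeasurable
  have hPL' : PLm ((gibbs (fun x : F => ψ x - s * ‖T.symm x‖ ^ 2)).map T.symm) :=
    hn'.plm_gibbs.map (T.symm : F →ₗ[ℝ] E) hTm
  have hPL : PLm ((gibbs ψ).map T.symm) := hn.plm_gibbs.map (T.symm : F →ₗ[ℝ] E) hTm
  have hch := chan_gibbs T hs (fun x => rfl) hn hn'
  refine poinc_ext _ hPL.sq_integrable (by positivity) ?_ f hf hl
  intro g hg _ hgl hgL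
  have := chan_bl hPL' hg hgl hgL hs 0
  rwa [hch] at this

end chan

end Pool.Agent.Lib.MP_6d896a_gt.FP
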