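import Mathlib
import Pool.Agent.Lib.MP_6d896a_gt.FP.ApproxFib

/-!
Nice approximation of a log-concave density on `ℝ × (W → ℝ)` in total variation, for the whole
measure and for the section over one interior point.
-/

set_option autoImplicit false

namespace Pool.Agent.Lib.MP_6d896a_gt.FP

open MeasureTheory ProbabilityTheory Set Filter
open scoped ENNReal Topology

namespace AF

section sec

set_option linter.unusedSectionVars false

variable {F : Type*} [NormedAddCommGroup F] [NormedSpace ℝ F] [MeasureSpace F]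
  [BorelSpace F] [FiniteDimensional ℝ F] [(volume : Measure F).IsAddHaarMeasure]

lemma lint_cyl [SFinite (volume : Measure F)] {h : ℝ × F → ℝ} (hm : Measurable h) {S : Set ℝ}
    (hS : MeasurableSet S) :
    ∫⁻ p in Prod.fst ⁻¹' S, ENNReal.ofReal (h p) = ∫⁻ y in S, mg h y := by
  rw [← lintegral_indicator (measurable_fst hS),
    Measure.volume_eq_prod, lintegral_prod _
      (hm.ennreal_ofReal.indicator (measurable_fst hS)).aemeasurable,
    ← lintegral_indicator hS]
  refine lintegral_congr fun y => ?_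
  by_cases hy : y ∈ S
  · rw [indicator_of_mem hy]
    refine lintegral_congr fun x => ?_
    rw [indicator_of_mem (show (y, x) ∈ Prod.fst ⁻¹' S from hy)]
  · rw [indicator_of_notMem hy]
    simp [hy]

lemma exists_mg_ne_zero [SFinite (volume : Measure F)] {h : ℝ × F → ℝ} (hm : Measurable h)
    {S : Set ℝ} (hS : MeasurableSet S)
    (h0 : ∫⁻ p in Prod.fst ⁻¹' S, ENNReal.ofReal (h p) ≠ 0) : ∃ y ∈ S, mg h y ≠ 0 := by
  by_contra hcon
  push Not at hcon
  apply h0
  rw [lint_cyl hm hS, setLIntegral_congr_fun hS (g := fun _ => 0) hcon]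
  simp

lemma mem_interior_mg [SFinite (volume : Measure F)] {h : ℝ × F → ℝ} (hh : LCd h) {u₀ : ℝ}
    (hl : ∫⁻ p in {p : ℝ × F | p.1 < u₀}, ENNReal.ofReal (h p) ≠ 0)
    (hr : ∫⁻ p in {p : ℝ × F | u₀ < p.1}, ENNReal.ofReal (h p) ≠ 0) :
    u₀ ∈ interior {y | mg h y ≠ 0} := by
  obtain ⟨y, hy, hy0⟩ := exists_mg_ne_zero hh.ms (S := Iio u₀) measurableSet_Iio hl
  obtain ⟨z, hz, hz0⟩ := exists_mg_ne_zero hh.ms (S := Ioi u₀) measurableSet_Ioi hr
  rw [mem_interior]
  refine ⟨Ioo y z, fun w hw => ?_, isOpen_Ioo, hy, hz⟩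
  exact (mg_convex hh).ordConnected.out hy0 hz0 (Ioo_subset_Icc_self hw)

end sec

end AF

open AF in
/-- R4: approximation at one section -/
theorem approx_sec {W : Type} [Fintype W] {ρ : ℝ × (W → ℝ) → ℝ} (hρ : LCd ρ)
    (h1 : ∫⁻ p, ENNReal.ofReal (ρ p) = 1) {u₀ : ℝ}
    (hl : ∫⁻ p in {p : ℝ × (W → ℝ) | p.1 < u₀}, ENNReal.ofReal (ρ p) ≠ 0)
    (hr : ∫⁻ p in {p : ℝ × (W → ℝ) | u₀ < p.1}, ENNReal.ofReal (ρ p) ≠ 0)
    {η : ℝ} (hη : 0 < η) : ∃ φ : ℝ × (W → ℝ) → ℝ, Nice φ ∧
      (∀ S, MeasurableSet S → |(dens ρ).real S - (gibbs φ).real S| ≤ η) ∧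
      ∫⁻ x, ENNReal.ofReal (ρ (u₀, x)) ≠ 0 ∧ ∫⁻ x, ENNReal.ofReal (ρ (u₀, x)) ≠ ∞ ∧
      (∀ S : Set (W → ℝ), MeasurableSet S →
        |(dens (fun x => ρ (u₀, x))).real S - (gibbs (fun x => φ (u₀, x))).real S| ≤ η) := by
  have hSc : Convex ℝ {p | 0 < ρ p} := by
    intro x hx y hy a b ha hb hab
    rcases ha.eq_or_lt with rfl | ha'
    · have : b = 1 := by linarith
      subst this; simpa using hy
    rcases hb.eq_or_lt with rfl | hb'
    · have : a = 1 := by linarith
      subst this; simpa using hx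
    have := hρ.lc x y a b ha' hb' hab
    exact lt_of_lt_of_le (mul_pos (Real.rpow_pos_of_pos hx _) (Real.rpow_pos_of_pos hy _)) this
  have hfr0 : (volume : Measure (ℝ × (W → ℝ))) (frontier {p | 0 < ρ p}) = 0 :=
    hSc.addHaar_frontier _
  have hfr : ∀ᵐ p, p ∉ frontier {p | 0 < ρ p} := measure_eq_zero_iff_ae_notMem.mp hfr0
  have hne : (interior {p | 0 < ρ p}).Nonempty := by
    by_contra hcon
    rw [not_nonempty_iff_eq_empty] at hcon
    have h2 : ∀ᵐ p, ENNReal.ofReal (ρ p) = 0 := by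
      filter_upwards [hfr] with p hp
      rw [ENNReal.ofReal_eq_zero]
      by_contra hpos
      push Not at hpos
      exact hp ⟨subset_closure hpos, by rw [hcon]; exact notMem_empty _⟩
    rw [lintegral_congr_ae h2] at h1
    simp at h1
  obtain ⟨l, c, hmaj, -⟩ := exists_seq_aux hρ.nn hρ.lc hne
  have hm : Maj ρ l c := hmaj
  have hρi : Integrable ρ := by
    refine ⟨hρ.ms.aestronglyMeasurable, ?_⟩
    rw [hasFiniteIntegral_iff_ofReal (ae_of_all _ hρ.nn), h1]
    exact ENNReal.one_lt_top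
  have hρ1 : ∫ p, ρ p = 1 := by
    rw [integral_eq_lintegral_of_nonneg_ae (ae_of_all _ hρ.nn) hρ.ms.aestronglyMeasurable, h1]
    rfl
  have hI : ∫⁻ y, mg ρ y ≠ ∞ := by
    rw [← lint_mg hρ.ms, h1]; exact ENNReal.one_ne_top
  have hrdi : ∀ ε, 0 < ε → Integrable (rd ρ ε) := fun ε hε =>
    hρi.mono' (rd_LCd hρ hε.le).ms.aestronglyMeasurable (ae_of_all _ fun p => by
      rw [Real.norm_of_nonneg ((rd_LCd hρ hε.le).nn _)]
      exact rd_le hρ hε.le _)
  have hu := mem_interior_mg hρ hl hr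
  have hJ : Icc u₀ u₀ ⊆ interior {y | mg ρ y ≠ 0} := by
    rw [Icc_self]
    exact singleton_subset_iff.2 hu
  have hu0 : mg ρ u₀ ≠ 0 := interior_subset hu
  have hut : mg ρ u₀ ≠ ∞ := mg_ne_top hρ hI hu
  have humem : u₀ ∈ Icc u₀ u₀ := ⟨le_rfl, le_rfl⟩
  set A₀ := (mg ρ u₀).toReal with hA₀
  have hA₀pos : 0 < A₀ := ENNReal.toReal_pos hu0 hut
  set δ := η / 6 * A₀ with hδ
  have hδ0 : 0 < δ := by positivity
  obtain ⟨ε₁, hε₁, H1⟩ := unif_rd hρ hI hJ hδ0
  obtain ⟨ε₂, hε₂, H2⟩ := glob_rd hρ hρi (δ := η / 12) (by positivity)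
  obtain ⟨ε, hε, hεm⟩ : ∃ ε, 0 < ε ∧ ε < min ε₁ ε₂ := exists_between (lt_min hε₁ hε₂)
  obtain ⟨N₁, hN₁⟩ := hm.unif hρ hne hI hJ hε hδ0
  obtain ⟨N₂, hN₂⟩ := hm.glob hρ hε (δ := η / 12) (by positivity) hfr
  set N := max N₁ N₂ with hN
  refine ⟨bpot l c ε N, bpot_nice l c hε N, ?_, hu0, hut, ?_⟩
  · -- mass
    intro S hSm
    have g1 := H2 ε hε (hεm.trans_le (min_le_right _ _))
    obtain ⟨g2, g3⟩ := hN₂ N (le_max_right _ _)
    have hnice := bpot_nice l c hε N
    have hb := l1_bound (κ := 1 / ((N : ℝ) + 1)) hρi (hrdi ε hε) (gd_integrable l c hε N)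
      hnice.integrable_exp (fun p => rd_le hρ hε.le p) (by
        filter_upwards [hfr] with p hp
        exact hm.rd_le_gd hρ ε N hp) (fun p => exp_neg_bpot_le_gd l c ε N p)
      (fun p => gd_sub_le l c ε N p)
    have hpos : 0 < ∫ p, Real.exp (-bpot l c ε N p) := by
      rw [integral_pos_iff_support_of_nonneg (fun p => (Real.exp_pos _).le)
        hnice.integrable_exp]
      have e : Function.support (fun p => Real.exp (-bpot l c ε N p)) = univ := by
        ext x
        simp [Real.exp_ne_zero]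
      rw [e]
      exact isOpen_univ.measure_pos (volume : Measure (ℝ × (W → ℝ))) univ_nonempty
    have htv := tv_dens (a := ρ) (b := fun p => Real.exp (-bpot l c ε N p)) (δ := η / 4)
      hρ.nn (fun p => (Real.exp_pos _).le) hρi hnice.integrable_exp (by rw [hρ1]; exact one_pos)
      hpos (by rw [hρ1, mul_one]; linarith) hSm
    have h5 : |(dens ρ).real S - (dens (fun p => Real.exp (-bpot l c ε N p))).real S| ≤ η := by
      linarith
    exact h5
  · -- slices
    intro S hS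
    have g1 := H1 ε hε (hεm.trans_le (min_le_left _ _)) u₀ humem
    obtain ⟨g2, g3⟩ := hN₁ N (le_max_left _ _) u₀ humem
    have hnice := (bpot_nice l c hε N).slice u₀
    have hrL := rd_LCd hρ hε.le
    have hrt : mg (rd ρ ε) u₀ ≠ ∞ :=
      ne_top_of_le_ne_top hut (mg_mono (rd_le hρ hε.le) u₀)
    have hb := l1_bound (κ := 1 / ((N : ℝ) + 1)) (mg_int hρ.nn hρ.ms hut)
      (mg_int hrL.nn hrL.ms hrt)
      (mg_int (fun p => (gd_pos l c ε N p).le) (gd_cont l c ε N).measurable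
        (mg_gd_ne_top l c hε N u₀))
      hnice.integrable_exp (fun x => rd_le hρ hε.le (u₀, x)) (by
        filter_upwards [ae_slice hρ hne hu] with x hx
        exact hm.rd_le_gd hρ ε N hx) (fun x => exp_neg_bpot_le_gd l c ε N (u₀, x))
      (fun x => gd_sub_le l c ε N (u₀, x))
    have hA : A₀ = ∫ x, ρ (u₀, x) := mg_toReal hρ.nn hρ.ms u₀
    rw [mg_toReal hρ.nn hρ.ms, mg_toReal hrL.nn hrL.ms] at g1
    rw [mg_toReal (fun p => (gd_pos l c ε N p).le) (gd_cont l c ε N).measurable] at g2 g3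
    rw [mg_toReal hrL.nn hrL.ms] at g2
    have hpos : 0 < ∫ x, Real.exp (-bpot l c ε N (u₀, x)) := by
      rw [integral_pos_iff_support_of_nonneg (fun p => (Real.exp_pos _).le)
        hnice.integrable_exp]
      have e : Function.support (fun x => Real.exp (-bpot l c ε N (u₀, x))) = univ := by
        ext x
        simp [Real.exp_ne_zero]
      rw [e]
      exact isOpen_univ.measure_pos (volume : Measure (W → ℝ)) univ_nonempty
    have htv := tv_dens (a := fun x => ρ (u₀, x))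
      (b := fun x => Real.exp (-bpot l c ε N (u₀, x))) (δ := η / 2)
      (fun x => hρ.nn _) (fun p => (Real.exp_pos _).le) (mg_int hρ.nn hρ.ms hut)
      hnice.integrable_exp (by rw [← hA]; exact hA₀pos) hpos (by rw [← hA]; nlinarith) hS
    have h5 : |(dens (fun x => ρ (u₀, x))).real S -
        (dens (fun x => Real.exp (-bpot l c ε N (u₀, x)))).real S| ≤ η := by linarith
    exact h5

end Pool.Agent.Lib.MP_6d896a_gt.FP
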