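import Mathlib
import Pool.Agent.Lib.MP_6d896a_gt.FP.ExtStepOf
import Pool.Agent.Lib.MP_6d896a_gt.FP.ChanCov
import Pool.Agent.Lib.MP_6d896a_gt.FP.EM
import Pool.Agent.Lib.MP_6d896a_gt.FP.PoincSC

/-!
The sections of a nice potential satisfy the affine invariant Poincare inequality with one
constant (depending on the potential).
-/

set_option autoImplicit false

namespace Pool.Agent.Lib.MP_6d896a_gt.FP

open MeasureTheory ProbabilityTheory Set Filter
open scoped ENNReal Topology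

section lower

variable {F : Type*} [NormedAddCommGroup F] [NormedSpace ℝ F] [MeasureSpace F]
    [BorelSpace F] [FiniteDimensional ℝ F] [(volume : Measure F).IsAddHaarMeasure]

/-- the variance of a linear functional is not too small -/
lemma var_lower {φ : ℝ × F → ℝ} (h : Nice φ) {C : ℝ}
    (hC : ∀ p, ‖fderiv ℝ (fderiv ℝ φ) p‖ ≤ C) (u : ℝ) (ℓ : F →L[ℝ] ℝ) :
    ‖ℓ‖ ^ 2 ≤ C * Var[fun x => ℓ x; gibbs (fun x => φ (u, x))] := by
  have hn := h.slice u
  have hp := gibbs_prob hn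
  have hC0 : 0 ≤ C := (norm_nonneg (fderiv ℝ (fderiv ℝ φ) 0)).trans (hC 0)
  set V := Var[fun x => ℓ x; gibbs (fun x => φ (u, x))] with hV
  have hV0 : 0 ≤ V := variance_nonneg _ _
  have hv : ∀ v : F, (ℓ v) ^ 2 ≤ V * (C * ‖v‖ ^ 2) := by
    intro v
    have h1 := cov_dir h u (BG.lin ℓ) v
    have h2 : ∫ x, fderiv ℝ (fun x => ℓ x) x v ∂(gibbs fun x => φ (u, x)) = ℓ v := by
      have : ∀ x, fderiv ℝ (fun x => ℓ x) x v = ℓ v := fun x => by
        rw [ContinuousLinearMap.fderiv]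
      simp only [this]
      simp
    rw [h2] at h1
    have m1 : MemLp (fun x => ℓ x) 2 (gibbs fun x => φ (u, x)) := (BG.lin ℓ).memLp hn
    have m2 : MemLp (fun x => fderiv ℝ φ (u, x) (0, v)) 2 (gibbs fun x => φ (u, x)) :=
      (BG.dir h u (0, v)).memLp hn
    have h3 := cov_sq_le m1 m2
    rw [h1] at h3
    refine h3.trans (mul_le_mul_of_nonneg_left ?_ hV0)
    have h4 : Var[fun x => fderiv ℝ φ (u, x) (0, v); gibbs fun x => φ (u, x)] =
        ∫ x, fderiv ℝ (fderiv ℝ φ) (u, x) (0, v) (0, v) ∂(gibbs fun x => φ (u, x)) := by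
      have h5 := cov_dir h u (BG.dir h u (0, v)) v
      rw [covariance_self m2.aestronglyMeasurable.aemeasurable] at h5
      rw [h5]
      refine integral_congr_ae (Eventually.of_forall fun x => ?_)
      exact fderiv_dir_apply h u (0, v) x v
    rw [h4]
    have h6 : ∀ x : F, fderiv ℝ (fderiv ℝ φ) (u, x) (0, v) (0, v) ≤ C * ‖v‖ ^ 2 := by
      intro x
      have hnv : ‖((0 : ℝ), v)‖ = ‖v‖ := by simp [Prod.norm_def]
      calc fderiv ℝ (fderiv ℝ φ) (u, x) (0, v) (0, v)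
          ≤ ‖fderiv ℝ (fderiv ℝ φ) (u, x) (0, v) (0, v)‖ := le_abs_self _
        _ ≤ ‖fderiv ℝ (fderiv ℝ φ) (u, x) (0, v)‖ * ‖((0 : ℝ), v)‖ :=
            ContinuousLinearMap.le_opNorm _ _
        _ ≤ (‖fderiv ℝ (fderiv ℝ φ) (u, x)‖ * ‖((0 : ℝ), v)‖) * ‖((0 : ℝ), v)‖ := by
            gcongr
            exact ContinuousLinearMap.le_opNorm _ _
        _ ≤ (C * ‖((0 : ℝ), v)‖) * ‖((0 : ℝ), v)‖ := by
            gcongr
            exact hC _
        _ = C * ‖v‖ ^ 2 := by rw [hnv]; ring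
    calc ∫ x, fderiv ℝ (fderiv ℝ φ) (u, x) (0, v) (0, v) ∂(gibbs fun x => φ (u, x))
        ≤ ∫ _, C * ‖v‖ ^ 2 ∂(gibbs fun x => φ (u, x)) :=
          integral_mono (integrable_snd h u _ _) (integrable_const _) h6
      _ = C * ‖v‖ ^ 2 := by simp
  have hle : ‖ℓ‖ ≤ Real.sqrt (C * V) := by
    refine ContinuousLinearMap.opNorm_le_bound _ (Real.sqrt_nonneg _) fun v => ?_
    have h1 := hv v
    have h2 : ‖ℓ v‖ ^ 2 ≤ (Real.sqrt (C * V) * ‖v‖) ^ 2 := by
      rw [mul_pow, Real.sq_sqrt (by positivity), Real.norm_eq_abs, sq_abs]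
      calc (ℓ v) ^ 2 ≤ V * (C * ‖v‖ ^ 2) := h1
        _ = C * V * ‖v‖ ^ 2 := by ring
    exact (sq_le_sq₀ (norm_nonneg _) (by positivity)).1 h2
  calc ‖ℓ‖ ^ 2 ≤ Real.sqrt (C * V) ^ 2 := pow_le_pow_left₀ (norm_nonneg _) hle 2
    _ = C * V := Real.sq_sqrt (by positivity)

/-- the variances of a bounded continuous family of functionals are integrable -/
lemma integrable_var_fun {ψ : F → ℝ} (hn : Nice ψ) {L : F → F →L[ℝ] ℝ} (hL : Continuous L)
    {l : ℝ} (hl : ∀ x, ‖L x‖ ≤ l) :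
    Integrable (fun x => Var[fun z => L x z; gibbs ψ]) (gibbs ψ) := by
  have hp := gibbs_prob hn
  have hL2 : ∀ ℓ : F →L[ℝ] ℝ, MemLp (fun x => ℓ x) 2 (gibbs ψ) := fun ℓ => (BG.lin ℓ).memLp hn
  obtain ⟨T, hT⟩ := whiten (gibbs ψ) hL2 (fun ℓ h0 => gibbs_nondeg hn ℓ h0)
  simp only [hT]
  have hc : Continuous fun x => ‖(L x).comp
      (T : EuclideanSpace ℝ (Fin (Module.finrank ℝ F)) →L[ℝ] F)‖ ^ 2 :=
    ((hL.clm_comp continuous_const).norm).pow 2
  refine Integrable.mono' (integrable_const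
    ((l * ‖(T : EuclideanSpace ℝ (Fin (Module.finrank ℝ F)) →L[ℝ] F)‖) ^ 2))
    hc.aestronglyMeasurable (Eventually.of_forall fun x => ?_)
  rw [Real.norm_of_nonneg (by positivity)]
  refine pow_le_pow_left₀ (norm_nonneg _) ?_ 2
  exact (ContinuousLinearMap.opNorm_comp_le _ _).trans
    (mul_le_mul_of_nonneg_right (hl x) (norm_nonneg _))

end lower

/-- S1 -/
theorem apriori {F : Type} [NormedAddCommGroup F] [NormedSpace ℝ F]
    [MeasureSpace F] [BorelSpace F] [FiniteDimensional ℝ F]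
    [(volume : Measure F).IsAddHaarMeasure] {φ : ℝ × F → ℝ} (h : Nice φ) :
    ∃ K₀ : ℝ, 1 ≤ K₀ ∧ ∀ u, AP (gibbs (fun x => φ (u, x))) K₀ := by
  obtain ⟨κ, hκ, hsc⟩ := h.sc
  obtain ⟨C, hC⟩ := h.bd
  have hC0 : 0 ≤ C := (norm_nonneg (fderiv ℝ (fderiv ℝ φ) 0)).trans (hC 0)
  set T : EuclideanSpace ℝ (Fin (Module.finrank ℝ F)) ≃L[ℝ] F :=
    ContinuousLinearEquiv.ofFinrankEq (by simp) with hT
  set A : ℝ := ‖(T.symm : F →L[ℝ] EuclideanSpace ℝ (Fin (Module.finrank ℝ F)))‖ with hA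
  set B : ℝ := ‖(T : EuclideanSpace ℝ (Fin (Module.finrank ℝ F)) →L[ℝ] F)‖ with hB
  have hA0 : 0 ≤ A := norm_nonneg _
  have hB0 : 0 ≤ B := norm_nonneg _
  set s : ℝ := κ / (A ^ 2 + 1) with hs
  have hs0 : 0 < s := by positivity
  refine ⟨max 1 (1 / (2 * s) * (B ^ 2 * C)), le_max_left _ _, fun u => ?_⟩
  refine AP.mono ?_ (le_max_right _ _)
  have hn := h.slice u
  have hp := gibbs_prob hn
  have hTm : Measurable (T.symm : F → EuclideanSpace ℝ (Fin (Module.finrank ℝ F))) :=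
    T.symm.continuous.measurable
  have hscu : ∀ x y : EuclideanSpace ℝ (Fin (Module.finrank ℝ F)),
      (fun x => φ (u, x)) (T ((1 / 2 : ℝ) • (x + y))) + s * ‖x - y‖ ^ 2 ≤
      ((fun x => φ (u, x)) (T x) + (fun x => φ (u, x)) (T y)) / 2 := by
    intro x y
    have h1 := hsc (u, T x) (u, T y)
    have h2 : ‖((u, T x) : ℝ × F) - (u, T y)‖ = ‖T x - T y‖ := by simp [Prod.norm_def]
    have h3 : (1 / 2 : ℝ) • (((u, T x) : ℝ × F) + (u, T y)) = (u, T ((1 / 2 : ℝ) • (x + y))) := by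
      ext
      · simp; ring
      · simp
    rw [h2, h3] at h1
    have h4 : ‖x - y‖ ≤ A * ‖T x - T y‖ := by
      have h5 := (T.symm : F →L[ℝ] EuclideanSpace ℝ (Fin (Module.finrank ℝ F))).le_opNorm
        (T x - T y)
      have h6 : (T.symm : F →L[ℝ] EuclideanSpace ℝ (Fin (Module.finrank ℝ F))) (T x - T y) =
          x - y := by
        rw [← map_sub]; simp
      rwa [h6] at h5
    have h7 : s * ‖x - y‖ ^ 2 ≤ κ * ‖T x - T y‖ ^ 2 := by
      calc s * ‖x - y‖ ^ 2 ≤ s * (A * ‖T x - T y‖) ^ 2 := by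
            gcongr
        _ = κ * (A ^ 2 / (A ^ 2 + 1)) * ‖T x - T y‖ ^ 2 := by
            rw [hs]; field_simp
        _ ≤ κ * 1 * ‖T x - T y‖ ^ 2 := by
            gcongr
            rw [div_le_one (by positivity)]
            linarith
        _ = _ := by ring
    simp only
    linarith
  intro f hf hl
  obtain ⟨l, hl'⟩ := hl
  have hfd : ∀ x, fderiv ℝ (fun y => f (T y)) x
      = (fderiv ℝ f (T x)).comp
        (T : EuclideanSpace ℝ (Fin (Module.finrank ℝ F)) →L[ℝ] F) := by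
    intro x
    have h1 : HasFDerivAt (T : EuclideanSpace ℝ (Fin (Module.finrank ℝ F)) → F)
        (T : EuclideanSpace ℝ (Fin (Module.finrank ℝ F)) →L[ℝ] F) x := T.hasFDerivAt
    exact ((hf.differentiable (by norm_num) (T x)).hasFDerivAt.comp x h1).fderiv
  have hfc : ContDiff ℝ 1 (fun y => f (T y)) := hf.comp T.contDiff
  have key := poinc_sc T hn hs0 hscu hfc ⟨l * B, fun x => by
      rw [hfd]
      exact (ContinuousLinearMap.opNorm_comp_le _ _).trans
        (mul_le_mul_of_nonneg_right (hl' _) (norm_nonneg _))⟩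
  have e1 : Var[fun y => f (T y); (gibbs (fun x => φ (u, x))).map T.symm] =
      Var[f; gibbs (fun x => φ (u, x))] := by
    rw [variance_map hfc.continuous.measurable.aemeasurable hTm.aemeasurable]
    congr 1
    funext x
    simp
  have e2 : ∫ x, ‖fderiv ℝ (fun y => f (T y)) x‖ ^ 2 ∂((gibbs (fun x => φ (u, x))).map T.symm) ≤
      ∫ x, B ^ 2 * (C * Var[fun z => fderiv ℝ f x z; gibbs (fun x => φ (u, x))])
        ∂(gibbs (fun x => φ (u, x))) := by
    have hsm : AEStronglyMeasurable (fun x => ‖fderiv ℝ (fun y => f (T y)) x‖ ^ 2)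
        ((gibbs (fun x => φ (u, x))).map T.symm) :=
      ((hfc.continuous_fderiv (by norm_num)).norm.pow 2).aestronglyMeasurable
    rw [integral_map hTm.aemeasurable hsm]
    apply integral_mono_of_nonneg (Eventually.of_forall fun x => by positivity)
    · exact ((integrable_var_fun hn (hf.continuous_fderiv (by norm_num)) hl').const_mul C).const_mul _
    · refine Eventually.of_forall fun x => ?_
      simp only
      rw [hfd, ContinuousLinearEquiv.apply_symm_apply]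
      calc ‖(fderiv ℝ f x).comp
            (T : EuclideanSpace ℝ (Fin (Module.finrank ℝ F)) →L[ℝ] F)‖ ^ 2
          ≤ (‖fderiv ℝ f x‖ * B) ^ 2 :=
            pow_le_pow_left₀ (norm_nonneg _) (ContinuousLinearMap.opNorm_comp_le _ _) 2
        _ = B ^ 2 * ‖fderiv ℝ f x‖ ^ 2 := by ring
        _ ≤ B ^ 2 * (C * Var[fun z => fderiv ℝ f x z; gibbs (fun x => φ (u, x))]) := by
            gcongr
            exact var_lower h hC u (fderiv ℝ f x)
  rw [e1] at key
  rw [integral_const_mul, integral_const_mul] at e2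
  calc Var[f; gibbs (fun x => φ (u, x))] ≤ 1 / (2 * s) * (B ^ 2 * (C *
        ∫ x, Var[fun z => fderiv ℝ f x z; gibbs (fun x => φ (u, x))]
          ∂(gibbs (fun x => φ (u, x))))) :=
        key.trans (mul_le_mul_of_nonneg_left e2 (by positivity))
    _ = _ := by ring

end Pool.Agent.Lib.MP_6d896a_gt.FP
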