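import Mathlib

set_option autoImplicit false

namespace Pool.Agent.Lib.MP_6d896a_gt.FP

open MeasureTheory Set Filter
open scoped ENNReal Topology

/-- balanced point: the convex function `V` increases by one at distance `T` on both sides -/
structure Bal (V : ℝ → ℝ) (u₀ T : ℝ) : Prop where
  cv : ConvexOn ℝ univ V
  pos : 0 < T
  right : V (u₀ + T) = V u₀ + 1
  left : V (u₀ - T) = V u₀ + 1

theorem cont_of_convex {V : ℝ → ℝ} (hV : ConvexOn ℝ univ V) : Continuous V := by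
  rw [← continuousOn_univ]
  exact hV.continuousOn isOpen_univ

theorem convex_ineq {V : ℝ → ℝ} (hV : ConvexOn ℝ univ V) (x y a b : ℝ) (ha : 0 ≤ a) (hb : 0 ≤ b)
    (hab : a + b = 1) : V (a * x + b * y) ≤ a * V x + b * V y := by
  have := hV.2 (mem_univ x) (mem_univ y) ha hb hab
  simpa only [smul_eq_mul] using this

/-- S2a -/
theorem exists_bal {V : ℝ → ℝ} (hV : ConvexOn ℝ univ V) {κ c : ℝ} (hκ : 0 < κ)
    (hlow : ∀ u, κ * u ^ 2 - c ≤ V u) (u₀ : ℝ) :
    ∃ lam T : ℝ, Bal (fun u => V u - lam * u) u₀ T := by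
  have hc : Continuous V := cont_of_convex hV
  have hD : Continuous (fun T : ℝ => V (u₀ + T) + V (u₀ - T) - 2 * V u₀) := by fun_prop
  obtain ⟨T₁, hT₁0, hT₁⟩ : ∃ T₁ : ℝ, 0 ≤ T₁ ∧ 2 ≤ V (u₀ + T₁) + V (u₀ - T₁) - 2 * V u₀ := by
    obtain ⟨n, hn⟩ := exists_nat_gt ((2 + 2 * c + 2 * V u₀) / (2 * κ))
    have hn' : 2 + 2 * c + 2 * V u₀ < n * (2 * κ) := by
      rwa [div_lt_iff₀ (by positivity)] at hn
    refine ⟨(n : ℝ) + 1, by positivity, ?_⟩
    have h1 := hlow (u₀ + ((n : ℝ) + 1))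
    have h2 := hlow (u₀ - ((n : ℝ) + 1))
    have h3 : (n : ℝ) ≤ ((n : ℝ) + 1) ^ 2 := by nlinarith [Nat.cast_nonneg (α := ℝ) n]
    have h4 : κ * (u₀ + ((n : ℝ) + 1)) ^ 2 + κ * (u₀ - ((n : ℝ) + 1)) ^ 2
        = 2 * κ * u₀ ^ 2 + 2 * κ * ((n : ℝ) + 1) ^ 2 := by ring
    have h5 : 2 * κ * (n : ℝ) ≤ 2 * κ * ((n : ℝ) + 1) ^ 2 :=
      mul_le_mul_of_nonneg_left h3 (by positivity)
    have h6 : 0 ≤ 2 * κ * u₀ ^ 2 := by positivity
    linarith
  obtain ⟨T, hT, hDT⟩ : (2 : ℝ) ∈ (fun T : ℝ => V (u₀ + T) + V (u₀ - T) - 2 * V u₀) '' Icc 0 T₁ := by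
    apply intermediate_value_Icc hT₁0 hD.continuousOn
    refine ⟨?_, hT₁⟩
    simp only [add_zero, sub_zero]
    linarith
  have hDT' : V (u₀ + T) + V (u₀ - T) - 2 * V u₀ = 2 := hDT
  have hTpos : 0 < T := by
    rcases hT.1.lt_or_eq with h | h
    · exact h
    · exfalso
      rw [← h] at hDT'
      simp only [add_zero, sub_zero] at hDT'
      linarith
  refine ⟨(V (u₀ + T) - V (u₀ - T)) / (2 * T), T, ?_, hTpos, ?_, ?_⟩
  · have h1 : ConvexOn ℝ univ (fun u : ℝ => -((V (u₀ + T) - V (u₀ - T)) / (2 * T) * u)) := by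
      refine ⟨convex_univ, fun x _ y _ a b _ _ _ => ?_⟩
      simp only [smul_eq_mul]
      apply le_of_eq
      ring
    have h2 := hV.add h1
    refine h2.congr ?_
    intro u _
    simp only [Pi.add_apply]
    ring
  · show V (u₀ + T) - (V (u₀ + T) - V (u₀ - T)) / (2 * T) * (u₀ + T)
      = V u₀ - (V (u₀ + T) - V (u₀ - T)) / (2 * T) * u₀ + 1
    have h1 : (V (u₀ + T) - V (u₀ - T)) / (2 * T) * T = (V (u₀ + T) - V (u₀ - T)) / 2 := by
      field_simp
    linarith [h1, mul_add ((V (u₀ + T) - V (u₀ - T)) / (2 * T)) u₀ T]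
  · show V (u₀ - T) - (V (u₀ + T) - V (u₀ - T)) / (2 * T) * (u₀ - T)
      = V u₀ - (V (u₀ + T) - V (u₀ - T)) / (2 * T) * u₀ + 1
    have h1 : (V (u₀ + T) - V (u₀ - T)) / (2 * T) * T = (V (u₀ + T) - V (u₀ - T)) / 2 := by
      field_simp
    linarith [h1, mul_sub ((V (u₀ + T) - V (u₀ - T)) / (2 * T)) u₀ T]

theorem Bal.near {V : ℝ → ℝ} {u₀ T : ℝ} (h : Bal V u₀ T) :
    ∀ u, |u - u₀| ≤ T → V u ≤ V u₀ + 1 := by
  intro u hu
  have hT := h.pos
  rw [abs_le] at hu
  have h1 := convex_ineq h.cv (u₀ - T) (u₀ + T)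
    ((u₀ + T - u) / (2 * T)) ((u - (u₀ - T)) / (2 * T))
    (div_nonneg (by linarith) (by linarith)) (div_nonneg (by linarith) (by linarith))
    (by field_simp; ring)
  have h2 : ((u₀ + T - u) / (2 * T)) * (u₀ - T) + ((u - (u₀ - T)) / (2 * T)) * (u₀ + T) = u := by
    field_simp
    ring
  rw [h2, h.right, h.left, ← add_mul] at h1
  have h3 : (u₀ + T - u) / (2 * T) + (u - (u₀ - T)) / (2 * T) = 1 := by
    field_simp; ring
  rw [h3] at h1
  linarith

theorem Bal.far {V : ℝ → ℝ} {u₀ T : ℝ} (h : Bal V u₀ T) :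
    ∀ u, T ≤ |u - u₀| → V u₀ + |u - u₀| / T ≤ V u := by
  intro u hu
  have hT := h.pos
  rcases le_total 0 (u - u₀) with hs | hs
  · rw [abs_of_nonneg hs] at hu ⊢
    have hs' : 0 < u - u₀ := lt_of_lt_of_le hT hu
    have h1 := convex_ineq h.cv u₀ u (1 - T / (u - u₀)) (T / (u - u₀))
      (by rw [sub_nonneg, div_le_one hs']; exact hu) (by positivity) (by ring)
    have h2 : (1 - T / (u - u₀)) * u₀ + (T / (u - u₀)) * u = u₀ + T := by
      have : T / (u - u₀) * (u - u₀) = T := div_mul_cancel₀ _ hs'.ne'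
      linarith [mul_sub (T / (u - u₀)) u u₀, sub_mul 1 (T / (u - u₀)) u₀]
    rw [h2, h.right] at h1
    have h3 : 1 ≤ T / (u - u₀) * (V u - V u₀) := by linarith
    have h4 : (u - u₀) / T * 1 ≤ (u - u₀) / T * (T / (u - u₀) * (V u - V u₀)) :=
      mul_le_mul_of_nonneg_left h3 (by positivity)
    have h5 : (u - u₀) / T * (T / (u - u₀) * (V u - V u₀)) = V u - V u₀ := by
      field_simp
    linarith
  · rw [abs_of_nonpos hs] at hu ⊢
    have hs' : 0 < u₀ - u := lt_of_lt_of_le hT (by linarith)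
    have h1 := convex_ineq h.cv u₀ u (1 - T / (u₀ - u)) (T / (u₀ - u))
      (by rw [sub_nonneg, div_le_one hs']; linarith) (by positivity) (by ring)
    have h2 : (1 - T / (u₀ - u)) * u₀ + (T / (u₀ - u)) * u = u₀ - T := by
      have : T / (u₀ - u) * (u₀ - u) = T := div_mul_cancel₀ _ hs'.ne'
      linarith [mul_sub (T / (u₀ - u)) u₀ u, sub_mul 1 (T / (u₀ - u)) u₀]
    rw [h2, h.left] at h1
    have h3 : 1 ≤ T / (u₀ - u) * (V u - V u₀) := by linarith
    have h4 : (u₀ - u) / T * 1 ≤ (u₀ - u) / T * (T / (u₀ - u) * (V u - V u₀)) :=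
      mul_le_mul_of_nonneg_left h3 (by positivity)
    have h5 : (u₀ - u) / T * (T / (u₀ - u) * (V u - V u₀)) = V u - V u₀ := by
      field_simp
    have h6 : -(u - u₀) / T = (u₀ - u) / T := by ring
    rw [h6]
    linarith

theorem Bal.low {V : ℝ → ℝ} {u₀ T : ℝ} (h : Bal V u₀ T) : ∀ u, V u₀ - 1 ≤ V u := by
  intro u
  have hT := h.pos
  rcases le_total (|u - u₀|) T with hu | hu
  · have h0 : 2 * u₀ - u - u₀ = u₀ - u := by ring
    have h1 := h.near (2 * u₀ - u) (by rw [h0, abs_sub_comm]; exact hu)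
    have h2 := convex_ineq h.cv u (2 * u₀ - u) (1 / 2) (1 / 2) (by norm_num) (by norm_num)
      (by norm_num)
    have h3 : (1 / 2 : ℝ) * u + (1 / 2 : ℝ) * (2 * u₀ - u) = u₀ := by ring
    rw [h3] at h2
    linarith
  · have h1 := h.far u hu
    have h2 : 0 ≤ |u - u₀| / T := by positivity
    linarith

theorem Bal.deriv_bound {V : ℝ → ℝ} {u₀ T : ℝ} (h : Bal V u₀ T) (V1 : ℝ → ℝ)
    (hV1 : ∀ u, HasDerivAt V (V1 u) u) : ∀ u, |u - u₀| ≤ T / 2 → |V1 u| ≤ 4 / T := by
  intro u hu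
  have hT := h.pos
  rw [abs_le] at hu
  have e1 : V (u + T / 2) ≤ V u₀ + 1 := h.near _ (by rw [abs_le]; constructor <;> linarith)
  have e2 : V (u - T / 2) ≤ V u₀ + 1 := h.near _ (by rw [abs_le]; constructor <;> linarith)
  have e3 := h.low u
  have h1 := h.cv.le_slope_of_hasDerivAt (mem_univ u) (mem_univ (u + T / 2))
    (by linarith) (hV1 u)
  have h2 := h.cv.slope_le_of_hasDerivAt (mem_univ (u - T / 2)) (mem_univ u)
    (by linarith) (hV1 u)
  rw [slope_def_field] at h1 h2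
  have h3 : (V (u + T / 2) - V u) / (u + T / 2 - u) ≤ 4 / T := by
    have : u + T / 2 - u = T / 2 := by ring
    rw [this, div_le_div_iff₀ (by positivity) hT]
    nlinarith
  have h4 : -(4 / T) ≤ (V u - V (u - T / 2)) / (u - (u - T / 2)) := by
    have : u - (u - T / 2) = T / 2 := by ring
    rw [this, ← neg_div, div_le_div_iff₀ hT (by positivity)]
    nlinarith
  rw [abs_le]
  exact ⟨h4.trans h2, h1.trans h3⟩

theorem Bal.integral_facts {V : ℝ → ℝ} {u₀ T : ℝ} (h : Bal V u₀ T) :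
    Integrable (fun u => Real.exp (-V u)) ∧
    2 * T * Real.exp (-V u₀ - 1) ≤ ∫ u, Real.exp (-V u) ∧
    ∫ u, Real.exp (-V u) ≤ 8 * T * Real.exp (-V u₀) := by
  have hT := h.pos
  have hc : Continuous V := cont_of_convex h.cv
  have hce : Continuous (fun u => Real.exp (-V u)) := by fun_prop
  have hTi : (-1 / T : ℝ) < 0 := div_neg_of_neg_of_pos (by norm_num) hT
  have hTi' : (0 : ℝ) < 1 / T := by positivity
  -- right tail
  have gR : ∀ u ∈ Ioi (u₀ + T), Real.exp (-V u) ≤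
      Real.exp (-V u₀ + u₀ / T) * Real.exp (-1 / T * u) := by
    intro u hu
    have hu' : u₀ + T < u := hu
    rw [← Real.exp_add]
    apply Real.exp_le_exp.2
    have h0 : (0 : ℝ) ≤ u - u₀ := by linarith
    have h1 := h.far u (by rw [abs_of_nonneg h0]; linarith)
    rw [abs_of_nonneg h0] at h1
    have : (u - u₀) / T = u / T - u₀ / T := sub_div _ _ _
    have h2 : -1 / T * u = -(u / T) := by ring
    rw [h2]
    linarith
  have gL : ∀ u ∈ Iic (u₀ - T), Real.exp (-V u) ≤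
      Real.exp (-V u₀ - u₀ / T) * Real.exp (1 / T * u) := by
    intro u hu
    have hu' : u ≤ u₀ - T := hu
    rw [← Real.exp_add]
    apply Real.exp_le_exp.2
    have h0 : u - u₀ ≤ (0 : ℝ) := by linarith
    have h1 := h.far u (by rw [abs_of_nonpos h0]; linarith)
    rw [abs_of_nonpos h0] at h1
    have : -(u - u₀) / T = u₀ / T - u / T := by ring
    have h2 : 1 / T * u = u / T := by ring
    rw [h2]
    linarith
  have iR : IntegrableOn (fun u => Real.exp (-V u₀ + u₀ / T) * Real.exp (-1 / T * u))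
      (Ioi (u₀ + T)) := (integrableOn_exp_mul_Ioi hTi _).const_mul _
  have iL : IntegrableOn (fun u => Real.exp (-V u₀ - u₀ / T) * Real.exp (1 / T * u))
      (Iic (u₀ - T)) := (integrableOn_exp_mul_Iic hTi' _).const_mul _
  have jR : IntegrableOn (fun u => Real.exp (-V u)) (Ioi (u₀ + T)) := by
    refine Integrable.mono' iR hce.aestronglyMeasurable ?_
    refine (ae_restrict_iff' measurableSet_Ioi).2 (Eventually.of_forall fun u hu => ?_)
    rw [Real.norm_of_nonneg (Real.exp_pos _).le]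
    exact gR u hu
  have jL : IntegrableOn (fun u => Real.exp (-V u)) (Iic (u₀ - T)) := by
    refine Integrable.mono' iL hce.aestronglyMeasurable ?_
    refine (ae_restrict_iff' measurableSet_Iic).2 (Eventually.of_forall fun u hu => ?_)
    rw [Real.norm_of_nonneg (Real.exp_pos _).le]
    exact gL u hu
  have jM : IntegrableOn (fun u => Real.exp (-V u)) (Ioc (u₀ - T) (u₀ + T)) :=
    (hce.integrableOn_Icc (a := u₀ - T) (b := u₀ + T)).mono_set Ioc_subset_Icc_self
  have hle : u₀ - T ≤ u₀ + T := by linarith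
  have jLM : IntegrableOn (fun u => Real.exp (-V u)) (Iic (u₀ + T)) := by
    rw [← Iic_union_Ioc_eq_Iic hle]
    exact jL.union jM
  have hint : Integrable (fun u => Real.exp (-V u)) := by
    rw [← integrableOn_univ, ← Iic_union_Ioi (a := u₀ + T)]
    exact jLM.union jR
  have hsplit : ∫ u, Real.exp (-V u) = (∫ u in Iic (u₀ - T), Real.exp (-V u))
      + (∫ u in Ioc (u₀ - T) (u₀ + T), Real.exp (-V u))
      + ∫ u in Ioi (u₀ + T), Real.exp (-V u) := by
    rw [← setIntegral_univ, ← Iic_union_Ioi (a := u₀ + T),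
      setIntegral_union (Iic_disjoint_Ioi le_rfl) measurableSet_Ioi jLM jR,
      ← Iic_union_Ioc_eq_Iic hle,
      setIntegral_union _ measurableSet_Ioc jL jM]
    rw [Set.disjoint_left]
    intro x hx hx'
    exact absurd hx'.1 (not_lt.2 hx)
  have hR : ∫ u in Ioi (u₀ + T), Real.exp (-V u) ≤ T * Real.exp (-V u₀ - 1) := by
    have h1 : ∫ u in Ioi (u₀ + T), Real.exp (-V u) ≤
        ∫ u in Ioi (u₀ + T), Real.exp (-V u₀ + u₀ / T) * Real.exp (-1 / T * u) :=
      setIntegral_mono_on jR iR measurableSet_Ioi gR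
    refine h1.trans (le_of_eq ?_)
    rw [integral_const_mul, integral_exp_mul_Ioi hTi]
    have h2 : -Real.exp (-1 / T * (u₀ + T)) / (-1 / T) = T * Real.exp (-1 / T * (u₀ + T)) := by
      field_simp
    rw [h2, mul_left_comm, ← Real.exp_add]
    congr 2
    field_simp
    ring
  have hL : ∫ u in Iic (u₀ - T), Real.exp (-V u) ≤ T * Real.exp (-V u₀ - 1) := by
    have h1 : ∫ u in Iic (u₀ - T), Real.exp (-V u) ≤
        ∫ u in Iic (u₀ - T), Real.exp (-V u₀ - u₀ / T) * Real.exp (1 / T * u) :=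
      setIntegral_mono_on jL iL measurableSet_Iic gL
    refine h1.trans (le_of_eq ?_)
    rw [integral_const_mul, integral_exp_mul_Iic hTi']
    have h2 : Real.exp (1 / T * (u₀ - T)) / (1 / T) = T * Real.exp (1 / T * (u₀ - T)) := by
      field_simp
    rw [h2, mul_left_comm, ← Real.exp_add]
    congr 2
    field_simp
    ring
  have hM1 : ∫ u in Ioc (u₀ - T) (u₀ + T), Real.exp (-V u) ≤ 2 * T * Real.exp (-V u₀ + 1) := by
    have h1 : ∫ u in Ioc (u₀ - T) (u₀ + T), Real.exp (-V u) ≤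
        ∫ _u in Ioc (u₀ - T) (u₀ + T), Real.exp (-V u₀ + 1) := by
      apply setIntegral_mono_on jM (by simp) measurableSet_Ioc
      intro u _
      apply Real.exp_le_exp.2
      linarith [h.low u]
    refine h1.trans (le_of_eq ?_)
    rw [setIntegral_const, smul_eq_mul, Measure.real, Real.volume_Ioc,
      ENNReal.toReal_ofReal (by linarith)]
    ring
  have hM2 : 2 * T * Real.exp (-V u₀ - 1) ≤ ∫ u in Ioc (u₀ - T) (u₀ + T), Real.exp (-V u) := by
    have h1 : ∫ _u in Ioc (u₀ - T) (u₀ + T), Real.exp (-V u₀ - 1) ≤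
        ∫ u in Ioc (u₀ - T) (u₀ + T), Real.exp (-V u) := by
      apply setIntegral_mono_on (by simp) jM measurableSet_Ioc
      intro u hu
      apply Real.exp_le_exp.2
      have := h.near u (by rw [abs_le]; constructor <;> [linarith [hu.1]; linarith [hu.2]])
      linarith
    refine le_trans (le_of_eq ?_) h1
    rw [setIntegral_const, smul_eq_mul, Measure.real, Real.volume_Ioc,
      ENNReal.toReal_ofReal (by linarith)]
    ring
  refine ⟨hint, ?_, ?_⟩
  · rw [hsplit]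
    have p1 : 0 ≤ ∫ u in Iic (u₀ - T), Real.exp (-V u) :=
      integral_nonneg fun u => (Real.exp_pos _).le
    have p2 : 0 ≤ ∫ u in Ioi (u₀ + T), Real.exp (-V u) :=
      integral_nonneg fun u => (Real.exp_pos _).le
    linarith
  · rw [hsplit]
    have e1 : Real.exp (-V u₀ + 1) = Real.exp (-V u₀) * Real.exp 1 := Real.exp_add _ _
    have e2 : Real.exp (-V u₀ - 1) = Real.exp (-V u₀) * Real.exp (-1) := by
      rw [← Real.exp_add]; rfl
    rw [e1] at hM1
    rw [e2] at hL hR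
    have b1 : Real.exp 1 < 2.7182818286 := Real.exp_one_lt_d9
    have b2 : Real.exp (-1) < 0.3678794412 := Real.exp_neg_one_lt_d9
    have p := Real.exp_pos (-V u₀)
    have q : 0 < T * Real.exp (-V u₀) := by positivity
    nlinarith [mul_lt_mul_of_pos_left b1 q, mul_lt_mul_of_pos_left b2 q]

/-- S2b -/
theorem Bal.facts {V : ℝ → ℝ} {u₀ T : ℝ} (h : Bal V u₀ T) :
    (∀ u, V u₀ - 1 ≤ V u) ∧ (∀ u, T ≤ |u - u₀| → V u₀ + |u - u₀| / T ≤ V u) ∧
    (∀ u, |u - u₀| ≤ T → V u ≤ V u₀ + 1) ∧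
    Integrable (fun u => Real.exp (-V u)) ∧
    2 * T * Real.exp (-V u₀ - 1) ≤ ∫ u, Real.exp (-V u) ∧
    ∫ u, Real.exp (-V u) ≤ 8 * T * Real.exp (-V u₀) ∧
    (∀ V1 : ℝ → ℝ, (∀ u, HasDerivAt V (V1 u) u) → ∀ u, |u - u₀| ≤ T / 2 → |V1 u| ≤ 4 / T) :=
  ⟨h.low, h.far, h.near, h.integral_facts.1, h.integral_facts.2.1, h.integral_facts.2.2,
    h.deriv_bound⟩

end Pool.Agent.Lib.MP_6d896a_gt.FP
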