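import Mathlib
import Pool.Agent.Lib.MP_6d896a_gt.FP.PoincExt
import Pool.Agent.Lib.MP_6d896a_gt.FP.KCheeger

/-!
# Cheeger's inequality: isoperimetry implies a Poincare inequality
-/

set_option autoImplicit false

namespace Pool.Agent.Lib.MP_6d896a_gt.FP

open MeasureTheory ProbabilityTheory Set Filter
open scoped ENNReal Topology

namespace CP

section one

variable {E : Type*} [MeasurableSpace E]

/-- Tonelli for the region between two graphs. -/
theorem tonelli (ν : Measure E) [SFinite ν] {a b : E → ℝ} (ha : Measurable a)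
    (hb : Measurable b) :
    ∫⁻ t : ℝ, ν {x | a x ≤ t ∧ t < b x} = ∫⁻ x, ENNReal.ofReal (b x - a x) ∂ν := by
  have hT : MeasurableSet {q : ℝ × E | a q.2 ≤ q.1 ∧ q.1 < b q.2} := by
    refine MeasurableSet.inter ?_ ?_
    · exact measurableSet_le (ha.comp measurable_snd) measurable_fst
    · exact measurableSet_lt measurable_fst (hb.comp measurable_snd)
  have e1 : ∀ t : ℝ, ν {x | a x ≤ t ∧ t < b x}
      = ∫⁻ x, ({q : ℝ × E | a q.2 ≤ q.1 ∧ q.1 < b q.2}.indicator 1 (t, x) : ℝ≥0∞) ∂ν := by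
    intro t
    have hS : MeasurableSet {x | a x ≤ t ∧ t < b x} :=
      (measurableSet_le ha measurable_const).inter (measurableSet_lt measurable_const hb)
    rw [← lintegral_indicator_one hS]
    refine lintegral_congr fun x => ?_
    simp only [indicator, mem_ofPred_eq, Pi.one_apply]
  simp_rw [e1]
  rw [lintegral_lintegral_swap]
  · refine lintegral_congr fun x => ?_
    have e2 : (fun t : ℝ => ({q : ℝ × E | a q.2 ≤ q.1 ∧ q.1 < b q.2}.indicator 1 (t, x) : ℝ≥0∞))
        = (Ico (a x) (b x)).indicator 1 := by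
      funext t
      simp only [indicator, mem_ofPred_eq, mem_Ico, Pi.one_apply]
    rw [e2, lintegral_indicator_one measurableSet_Ico, Real.volume_Ico]
  · exact (measurable_one.indicator hT).aemeasurable

theorem meas_slice (ν : Measure E) [SFinite ν] {a b : E → ℝ} (ha : Measurable a)
    (hb : Measurable b) : Measurable (fun t : ℝ => ν {x | a x ≤ t ∧ t < b x}) := by
  have hT : MeasurableSet {q : ℝ × E | a q.2 ≤ q.1 ∧ q.1 < b q.2} := by
    refine MeasurableSet.inter ?_ ?_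
    · exact measurableSet_le (ha.comp measurable_snd) measurable_fst
    · exact measurableSet_lt measurable_fst (hb.comp measurable_snd)
  exact measurable_measure_prodMk_left hT

/-- with median zero the minimum of the two level set measures controls the first moment. -/
theorem min_ge (ν : Measure E) [IsProbabilityMeasure ν] {g : E → ℝ} (hg : Measurable g)
    (h1 : ν {x | 0 < g x} ≤ 1 / 2) (h2 : ν {x | g x < 0} ≤ 1 / 2) :
    ∫⁻ x, ENNReal.ofReal |g x| ∂ν ≤
      ∫⁻ t : ℝ, min (ν {x | t < g x}) (ν {x | t < g x}ᶜ) := by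
  have e : ∀ x, ENNReal.ofReal |g x| = ENNReal.ofReal (g x - 0) + ENNReal.ofReal (0 - g x) := by
    intro x
    rcases le_total 0 (g x) with h | h
    · rw [abs_of_nonneg h, sub_zero, zero_sub, ENNReal.ofReal_of_nonpos (by linarith : -g x ≤ 0),
        add_zero]
    · rw [abs_of_nonpos h, sub_zero, zero_sub, ENNReal.ofReal_of_nonpos h, zero_add]
  simp_rw [e]
  rw [lintegral_add_left (by fun_prop), ← tonelli ν measurable_const hg,
    ← tonelli ν hg measurable_const, ← lintegral_add_left (meas_slice ν measurable_const hg)]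
  refine lintegral_mono fun t => ?_
  have hcompl : ∀ S : Set E, MeasurableSet S → ν S ≤ 1 / 2 → 1 / 2 ≤ ν Sᶜ := by
    intro S hS hle
    rw [prob_compl_eq_one_sub hS]
    calc (1 / 2 : ℝ≥0∞) = 1 - 1 / 2 := by
          rw [one_div, ENNReal.one_sub_inv_two]
      _ ≤ 1 - ν S := tsub_le_tsub_left hle 1
  have hS : MeasurableSet {x | t < g x} := measurableSet_lt measurable_const hg
  rcases le_or_gt 0 t with ht | ht
  · have e1 : {x | g x ≤ t ∧ t < 0} = ∅ := by
      ext x
      simp only [mem_ofPred_eq, mem_empty_iff_false, iff_false, not_and, not_lt]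
      exact fun _ => ht
    have e2 : {x | (fun _ : E => (0 : ℝ)) x ≤ t ∧ t < g x} = {x | t < g x} := by
      ext x
      simp only [mem_ofPred_eq]
      exact ⟨fun h => h.2, fun h => ⟨ht, h⟩⟩
    have e3 : ν {x | t < g x} ≤ 1 / 2 := by
      refine (measure_mono ?_).trans h1
      intro x hx
      exact lt_of_le_of_lt ht hx
    change ν {x | (0 : ℝ) ≤ t ∧ t < g x} + ν {x | g x ≤ t ∧ t < 0} ≤ _
    rw [e1, measure_empty, add_zero]
    refine le_min (measure_mono fun x hx => hx.2) ?_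
    refine (measure_mono (fun x hx => hx.2)).trans (e3.trans (hcompl _ hS e3))
  · have e1 : {x : E | (0 : ℝ) ≤ t ∧ t < g x} = ∅ := by
      ext x
      simp only [mem_ofPred_eq, mem_empty_iff_false, iff_false, not_and]
      exact fun h => absurd h (not_le.mpr ht)
    have e4 : {x | t < g x}ᶜ = {x | g x ≤ t} := by
      ext x
      simp only [mem_compl_iff, mem_ofPred_eq, not_lt]
    have e3 : ν {x | t < g x}ᶜ ≤ 1 / 2 := by
      refine (measure_mono ?_).trans h2
      intro x hx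
      rw [e4] at hx
      exact lt_of_le_of_lt hx ht
    change ν {x | (0 : ℝ) ≤ t ∧ t < g x} + ν {x | g x ≤ t ∧ t < 0} ≤ _
    rw [e1, measure_empty, zero_add]
    have e5 : ν {x | g x ≤ t ∧ t < 0} ≤ ν {x | t < g x}ᶜ := by
      rw [e4]
      exact measure_mono fun x hx => hx.1
    refine le_min (e5.trans (e3.trans ?_)) e5
    have := hcompl _ hS.compl e3
    rwa [compl_compl] at this

end one

section two

variable {E : Type*} [NormedAddCommGroup E] [NormedSpace ℝ E] [MeasurableSpace E] [BorelSpace E]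

omit [MeasurableSpace E] [BorelSpace E] in
theorem fderiv_bound {g : E → ℝ} (hg : Differentiable ℝ g) {L : ℝ} (hL0 : 0 ≤ L)
    (hL : ∀ x y, ‖fderiv ℝ g x - fderiv ℝ g y‖ ≤ L * ‖x - y‖) {ε : ℝ} {x y : E}
    (hxy : dist x y < ε) : g y ≤ g x + ε * (‖fderiv ℝ g x‖ + L * ε) := by
  have hε : 0 < ε := dist_nonneg.trans_lt hxy
  have h := (convex_ball x ε).norm_image_sub_le_of_norm_fderiv_le (f := g)
    (C := ‖fderiv ℝ g x‖ + L * ε) (fun z _ => hg z) (fun z hz => by
      have h1 := hL z x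
      have h2 : ‖z - x‖ < ε := by rwa [mem_ball_iff_norm] at hz
      calc ‖fderiv ℝ g z‖ = ‖fderiv ℝ g x + (fderiv ℝ g z - fderiv ℝ g x)‖ := by
            rw [add_sub_cancel]
        _ ≤ ‖fderiv ℝ g x‖ + ‖fderiv ℝ g z - fderiv ℝ g x‖ := norm_add_le _ _
        _ ≤ ‖fderiv ℝ g x‖ + L * ε := by nlinarith) (Metric.mem_ball_self hε)
    (show y ∈ Metric.ball x ε by rwa [Metric.mem_ball, dist_comm])
  have h3 : ‖y - x‖ ≤ ε := by
    rw [← dist_eq_norm, dist_comm]; exact hxy.le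
  have h4 : 0 ≤ ‖fderiv ℝ g x‖ + L * ε := by positivity
  have h5 : g y - g x ≤ ‖g y - g x‖ := Real.le_norm_self _
  nlinarith

/-- **Co-area inequality** from isoperimetry in liminf form. -/
theorem coarea (ν : Measure E) [IsProbabilityMeasure ν] {κ : ℝ}
    (h : ∀ S : Set E, MeasurableSet S →
      ENNReal.ofReal κ * min (ν S) (ν Sᶜ) ≤
        Filter.liminf (fun ε : ℝ => (ν (Metric.thickening ε S) - ν S) / ENNReal.ofReal ε)
          (𝓝[>] 0))
    {g : E → ℝ} (hg : Differentiable ℝ g) (hgm : Measurable g)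
    (hg' : Measurable (fun x => ‖fderiv ℝ g x‖)) {L : ℝ} (hL0 : 0 ≤ L)
    (hL : ∀ x y, ‖fderiv ℝ g x - fderiv ℝ g y‖ ≤ L * ‖x - y‖) :
    ENNReal.ofReal κ * ∫⁻ t : ℝ, min (ν {x | t < g x}) (ν {x | t < g x}ᶜ) ≤
      ∫⁻ x, ENNReal.ofReal ‖fderiv ℝ g x‖ ∂ν := by
  set e : ℕ → ℝ := fun k => 1 / ((k : ℝ) + 1) with he
  have he0 : ∀ k, 0 < e k := fun k => by rw [he]; positivity
  have hetend : Tendsto e atTop (𝓝[>] 0) := by
    rw [tendsto_nhdsWithin_iff]
    exact ⟨tendsto_one_div_add_atTop_nhds_zero_nat, Eventually.of_forall he0⟩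
  set G : ℕ → E → ℝ := fun k x => g x + e k * (‖fderiv ℝ g x‖ + L * e k) with hG
  have hGm : ∀ k, Measurable (G k) := fun k => by
    rw [hG]; exact hgm.add ((hg'.add_const _).const_mul _)
  set H : ℕ → ℝ → ℝ≥0∞ := fun k t => ν {x | g x ≤ t ∧ t < G k x} / ENNReal.ofReal (e k) with hH
  have hHm : ∀ k, Measurable (H k) := fun k => (meas_slice ν hgm (hGm k)).div_const _
  have hpt : ∀ t : ℝ, ENNReal.ofReal κ * min (ν {x | t < g x}) (ν {x | t < g x}ᶜ) ≤
      liminf (fun k => H k t) atTop := by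
    intro t
    have hS : MeasurableSet {x | t < g x} := measurableSet_lt measurable_const hgm
    refine (h _ hS).trans ?_
    refine (Filter.liminf_le_liminf_of_le hetend).trans ?_
    rw [← Filter.liminf_comp]
    refine Filter.liminf_le_liminf (Eventually.of_forall fun k => ?_)
    change (ν (Metric.thickening (e k) {x | t < g x}) - ν {x | t < g x}) / ENNReal.ofReal (e k) ≤ _
    rw [hH]
    apply ENNReal.div_le_div_right
    rw [tsub_le_iff_right]
    refine (measure_mono ?_).trans (measure_union_le _ _)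
    intro x hx
    rw [Metric.mem_thickening_iff] at hx
    obtain ⟨y, hy, hxy⟩ := hx
    by_cases h1 : t < g x
    · exact Or.inr h1
    · left
      refine ⟨not_lt.mp h1, ?_⟩
      exact lt_of_lt_of_le hy (fderiv_bound hg hL0 hL hxy)
  have hint : ∀ k, ∫⁻ t, H k t ≤
      ∫⁻ x, ENNReal.ofReal ‖fderiv ℝ g x‖ ∂ν + ENNReal.ofReal (L * e k) := by
    intro k
    have hek : ENNReal.ofReal (e k) ≠ 0 := by
      rw [Ne, ENNReal.ofReal_eq_zero, not_le]; exact he0 k
    have e1 : ∫⁻ t, H k t = (∫⁻ t, ν {x | g x ≤ t ∧ t < G k x}) / ENNReal.ofReal (e k) := by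
      rw [hH]
      simp_rw [div_eq_mul_inv]
      rw [lintegral_mul_const _ (meas_slice ν hgm (hGm k))]
    rw [e1, tonelli ν hgm (hGm k)]
    have e2 : ∀ x, ENNReal.ofReal (G k x - g x) =
        ENNReal.ofReal (e k) * ENNReal.ofReal (‖fderiv ℝ g x‖ + L * e k) := by
      intro x
      rw [← ENNReal.ofReal_mul (he0 k).le]
      congr 1
      rw [hG]; ring
    simp_rw [e2]
    rw [lintegral_const_mul _ (by fun_prop), mul_comm, mul_div_assoc,
      ENNReal.div_self hek ENNReal.ofReal_ne_top, mul_one]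
    calc ∫⁻ x, ENNReal.ofReal (‖fderiv ℝ g x‖ + L * e k) ∂ν
        ≤ ∫⁻ x, (ENNReal.ofReal ‖fderiv ℝ g x‖ + ENNReal.ofReal (L * e k)) ∂ν :=
          lintegral_mono fun x => ENNReal.ofReal_add_le
      _ = ∫⁻ x, ENNReal.ofReal ‖fderiv ℝ g x‖ ∂ν + ENNReal.ofReal (L * e k) := by
          rw [lintegral_add_right _ measurable_const, lintegral_const, measure_univ, mul_one]
  have hminm : Measurable (fun t : ℝ => min (ν {x | t < g x}) (ν {x | t < g x}ᶜ)) := by
    refine Measurable.min ?_ ?_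
    · refine Antitone.measurable ?_
      intro s t hst
      exact measure_mono fun x hx => lt_of_le_of_lt hst hx
    · refine Monotone.measurable ?_
      intro s t hst
      refine measure_mono (compl_subset_compl.mpr fun x hx => lt_of_le_of_lt hst hx)
  calc ENNReal.ofReal κ * ∫⁻ t : ℝ, min (ν {x | t < g x}) (ν {x | t < g x}ᶜ)
      = ∫⁻ t : ℝ, ENNReal.ofReal κ * min (ν {x | t < g x}) (ν {x | t < g x}ᶜ) := by
        rw [lintegral_const_mul _ hminm]
    _ ≤ ∫⁻ t : ℝ, liminf (fun k => H k t) atTop := lintegral_mono hpt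
    _ ≤ liminf (fun k => ∫⁻ t : ℝ, H k t) atTop := lintegral_liminf_le hHm
    _ ≤ liminf (fun k => ∫⁻ x, ENNReal.ofReal ‖fderiv ℝ g x‖ ∂ν + ENNReal.ofReal (L * e k))
          atTop := Filter.liminf_le_liminf (Eventually.of_forall hint)
    _ = ∫⁻ x, ENNReal.ofReal ‖fderiv ℝ g x‖ ∂ν := by
        apply Tendsto.liminf_eq
        have h1 : Tendsto (fun k => ENNReal.ofReal (L * e k)) atTop (𝓝 0) := by
          have h2 : Tendsto (fun k => L * e k) atTop (𝓝 (L * 0)) :=
            (tendsto_one_div_add_atTop_nhds_zero_nat (𝕜 := ℝ)).const_mul L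
          rw [mul_zero] at h2
          have h3 := (ENNReal.continuous_ofReal.tendsto 0).comp h2
          rwa [ENNReal.ofReal_zero] at h3
        have h4 := h1.const_add (∫⁻ x, ENNReal.ofReal ‖fderiv ℝ g x‖ ∂ν)
        rwa [add_zero] at h4

end two

/-- derivative of `s |s|` -/
theorem hasDerivAt_mul_abs (s : ℝ) : HasDerivAt (fun s : ℝ => s * |s|) (2 * |s|) s := by
  rcases lt_trichotomy s 0 with h | h | h
  · have h1 : HasDerivAt (fun s : ℝ => -(s * s)) (-(1 * s + s * 1)) s :=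
      ((hasDerivAt_id s).mul (hasDerivAt_id s)).neg
    have h2 : (fun s : ℝ => s * |s|) =ᶠ[𝓝 s] fun s => -(s * s) := by
      filter_upwards [gt_mem_nhds h] with x hx
      rw [abs_of_neg hx]; ring
    have h3 := h1.congr_of_eventuallyEq h2
    rwa [show -(1 * s + s * 1) = 2 * |s| by rw [abs_of_neg h]; ring] at h3
  · subst h
    rw [abs_zero, mul_zero, hasDerivAt_iff_isLittleO]
    simp only [zero_mul, sub_zero, smul_zero]
    refine Asymptotics.isLittleO_of_tendsto ?_ ?_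
    · intro x hx; rw [hx]; simp
    · have h1 : Tendsto (fun x : ℝ => |x|) (𝓝 0) (𝓝 0) := by
        have := continuous_abs.tendsto (0 : ℝ)
        rwa [abs_zero] at this
      refine squeeze_zero_norm (fun x => ?_) h1
      rw [norm_div, norm_mul, Real.norm_eq_abs, Real.norm_eq_abs, abs_abs]
      by_cases hx : |x| = 0
      · rw [hx]; simp
      · rw [mul_div_assoc, div_self hx, mul_one]
  · have h1 : HasDerivAt (fun s : ℝ => s * s) (1 * s + s * 1) s :=
      (hasDerivAt_id s).mul (hasDerivAt_id s)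
    have h2 : (fun s : ℝ => s * |s|) =ᶠ[𝓝 s] fun s => s * s := by
      filter_upwards [lt_mem_nhds h] with x hx
      rw [abs_of_pos hx]
    have h3 := h1.congr_of_eventuallyEq h2
    rwa [show 1 * s + s * 1 = 2 * |s| by rw [abs_of_pos h]; ring] at h3

end CP

/-- C1: Cheeger's inequality -/
theorem poinc_of_cheeger {n : ℕ} (ν : Measure (EuclideanSpace ℝ (Fin n))) [IsProbabilityMeasure ν]
    (h2 : Integrable (fun x => ‖x‖ ^ 2) ν) {κ : ℝ} (hκ : 0 < κ)
    (h : ∀ S : Set (EuclideanSpace ℝ (Fin n)), MeasurableSet S →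
      ENNReal.ofReal κ * min (ν S) (ν Sᶜ) ≤
        Filter.liminf (fun ε : ℝ => (ν (Metric.thickening ε S) - ν S) / ENNReal.ofReal ε)
          (𝓝[>] 0))
    (f : EuclideanSpace ℝ (Fin n) → ℝ) (hf : ContDiff ℝ 1 f)
    (hl : ∃ l : ℝ, ∀ x, ‖fderiv ℝ f x‖ ≤ l) :
    Var[f; ν] ≤ 4 / κ ^ 2 * ∫ x, ‖fderiv ℝ f x‖ ^ 2 ∂ν := by
  refine poinc_ext ν h2 (by positivity) ?_ f hf hl
  clear hl hf f
  rintro f hf ⟨B0, hB0⟩ ⟨B1, hB1⟩ ⟨L, hL⟩
  have hfc : Continuous f := hf.continuous
  have hfd : Differentiable ℝ f := hf.differentiable one_ne_zero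
  have hf'c : Continuous (fderiv ℝ f) := hf.continuous_fderiv one_ne_zero
  obtain ⟨m, hm1, hm2⟩ := KC.exists_median ν hfc.measurable ⟨B0, hB0⟩
  have hB00 : 0 ≤ B0 := (abs_nonneg _).trans (hB0 0)
  have hB10 : 0 ≤ B1 := (norm_nonneg _).trans (hB1 0)
  set u : EuclideanSpace ℝ (Fin n) → ℝ := fun x => f x - m with hu
  set M := B0 + |m| with hM
  have huM : ∀ x, |u x| ≤ M := fun x => (abs_sub _ _).trans (add_le_add (hB0 x) le_rfl)
  have hM0 : 0 ≤ M := by positivity
  have huc : Continuous u := hfc.sub continuous_const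
  set g : EuclideanSpace ℝ (Fin n) → ℝ := fun x => u x * |u x| with hg
  have hgder : ∀ x, HasFDerivAt g ((2 * |u x|) • fderiv ℝ f x) x := by
    intro x
    have h1 : HasFDerivAt u (fderiv ℝ f x) x := (hfd x).hasFDerivAt.sub_const m
    exact (CP.hasDerivAt_mul_abs (u x)).comp_hasFDerivAt x h1
  have hgf : ∀ x, fderiv ℝ g x = (2 * |u x|) • fderiv ℝ f x := fun x => (hgder x).fderiv
  have hgn : ∀ x, ‖fderiv ℝ g x‖ = 2 * |u x| * ‖fderiv ℝ f x‖ := by
    intro x
    rw [hgf, norm_smul, Real.norm_eq_abs, abs_of_nonneg (by positivity)]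
  have hgc : Continuous g := huc.mul huc.abs
  have hlipu : ∀ x y, |u x - u y| ≤ B1 * ‖x - y‖ := by
    intro x y
    have := PE.lip_of_fderiv hf hB1 x y
    rw [hu]
    simp only [sub_sub_sub_cancel_right]
    exact this
  have hgL : ∀ x y, ‖fderiv ℝ g x - fderiv ℝ g y‖ ≤ (2 * B1 * B1 + 2 * M * |L|) * ‖x - y‖ := by
    intro x y
    have e : fderiv ℝ g x - fderiv ℝ g y = (2 * |u x| - 2 * |u y|) • fderiv ℝ f x +
        (2 * |u y|) • (fderiv ℝ f x - fderiv ℝ f y) := by
      rw [hgf, hgf, sub_smul, smul_sub]; abel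
    rw [e]
    refine (norm_add_le _ _).trans ?_
    rw [norm_smul, norm_smul, Real.norm_eq_abs, Real.norm_eq_abs,
      abs_of_nonneg (by positivity : 0 ≤ 2 * |u y|)]
    have h1 : abs (2 * |u x| - 2 * |u y|) ≤ 2 * (B1 * ‖x - y‖) := by
      rw [← mul_sub, abs_mul, abs_two]
      exact mul_le_mul_of_nonneg_left ((abs_abs_sub_abs_le _ _).trans (hlipu x y)) two_pos.le
    have h3 : ‖fderiv ℝ f x - fderiv ℝ f y‖ ≤ |L| * ‖x - y‖ :=
      (hL x y).trans (mul_le_mul_of_nonneg_right (le_abs_self L) (norm_nonneg _))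
    have h4 : abs (2 * |u x| - 2 * |u y|) * ‖fderiv ℝ f x‖ ≤ 2 * (B1 * ‖x - y‖) * B1 :=
      mul_le_mul h1 (hB1 x) (norm_nonneg _) (by positivity)
    have h5 : 2 * |u y| * ‖fderiv ℝ f x - fderiv ℝ f y‖ ≤ 2 * M * (|L| * ‖x - y‖) :=
      mul_le_mul (by linarith [huM y]) h3 (norm_nonneg _) (by positivity)
    nlinarith
  have hgm' : Measurable (fun x => ‖fderiv ℝ g x‖) := by
    simp_rw [hgn]
    exact (((continuous_const.mul huc.abs).mul hf'c.norm)).measurable
  have hco := CP.coarea ν h (fun x => (hgder x).differentiableAt) hgc.measurable hgm'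
    (by positivity) hgL
  have hmin := CP.min_ge ν hgc.measurable (by
    refine (measure_mono ?_).trans hm1
    intro x hx
    change 0 < u x * |u x| at hx
    change m < f x
    by_contra hcon
    have h3 : u x ≤ 0 := by rw [hu]; simp only; linarith
    nlinarith [abs_nonneg (u x), mul_nonneg (neg_nonneg.mpr h3) (abs_nonneg (u x))]) (by
    refine (measure_mono ?_).trans hm2
    intro x hx
    change u x * |u x| < 0 at hx
    change f x < m
    by_contra hcon
    have h3 : 0 ≤ u x := by rw [hu]; simp only; linarith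
    nlinarith [mul_nonneg h3 (abs_nonneg (u x))])
  have hmain : ENNReal.ofReal κ * ∫⁻ x, ENNReal.ofReal |g x| ∂ν ≤
      ∫⁻ x, ENNReal.ofReal ‖fderiv ℝ g x‖ ∂ν := (mul_le_mul_right hmin _).trans hco
  -- back to real integrals
  have habs : ∀ x, |g x| = u x ^ 2 := by
    intro x
    change abs (u x * |u x|) = u x ^ 2
    rw [abs_mul, abs_abs, ← sq, sq_abs]
  have hIu : Integrable (fun x => u x ^ 2) ν := by
    refine Integrable.of_bound (huc.pow 2).aestronglyMeasurable (M ^ 2) (ae_of_all _ fun x => ?_)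
    rw [Real.norm_eq_abs, abs_of_nonneg (sq_nonneg _), ← sq_abs]
    exact pow_le_pow_left₀ (abs_nonneg _) (huM x) 2
  have hIf : Integrable (fun x => ‖fderiv ℝ f x‖ ^ 2) ν := by
    refine Integrable.of_bound (hf'c.norm.pow 2).aestronglyMeasurable (B1 ^ 2)
      (ae_of_all _ fun x => ?_)
    rw [Real.norm_eq_abs, abs_of_nonneg (sq_nonneg _)]
    exact pow_le_pow_left₀ (norm_nonneg _) (hB1 x) 2
  have hIg : Integrable (fun x => ‖fderiv ℝ g x‖) ν := by
    simp_rw [hgn]
    refine Integrable.of_bound ((continuous_const.mul huc.abs).mul hf'c.norm).aestronglyMeasurable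
      (2 * M * B1) (ae_of_all _ fun x => ?_)
    rw [Real.norm_eq_abs, abs_of_nonneg (by positivity)]
    exact mul_le_mul (by linarith [huM x]) (hB1 x) (norm_nonneg _) (by positivity)
  have hreal : κ * ∫ x, u x ^ 2 ∂ν ≤ ∫ x, ‖fderiv ℝ g x‖ ∂ν := by
    simp_rw [habs] at hmain
    rw [← ofReal_integral_eq_lintegral_ofReal hIu (ae_of_all _ fun x => sq_nonneg _),
      ← ofReal_integral_eq_lintegral_ofReal hIg (ae_of_all _ fun x => norm_nonneg _),
      ← ENNReal.ofReal_mul hκ.le] at hmain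
    exact (ENNReal.ofReal_le_ofReal_iff (integral_nonneg fun x => norm_nonneg _)).mp hmain
  have hbound : ∫ x, ‖fderiv ℝ g x‖ ∂ν ≤
      κ / 2 * ∫ x, u x ^ 2 ∂ν + 2 / κ * ∫ x, ‖fderiv ℝ f x‖ ^ 2 ∂ν := by
    rw [← integral_const_mul, ← integral_const_mul, ← integral_add (hIu.const_mul _)
      (hIf.const_mul _)]
    refine integral_mono hIg ((hIu.const_mul _).add (hIf.const_mul _)) fun x => ?_
    change ‖fderiv ℝ g x‖ ≤ κ / 2 * u x ^ 2 + 2 / κ * ‖fderiv ℝ f x‖ ^ 2
    rw [hgn, ← sq_abs (u x)]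
    have h1 := sq_nonneg (κ * |u x| - 2 * ‖fderiv ℝ f x‖)
    have h3 : κ / 2 * |u x| ^ 2 + 2 / κ * ‖fderiv ℝ f x‖ ^ 2 -
        2 * |u x| * ‖fderiv ℝ f x‖ = (κ * |u x| - 2 * ‖fderiv ℝ f x‖) ^ 2 / (2 * κ) := by
      field_simp; ring
    have h4 : 0 ≤ (κ * |u x| - 2 * ‖fderiv ℝ f x‖) ^ 2 / (2 * κ) := by positivity
    linarith
  have hvar : Var[f; ν] ≤ ∫ x, u x ^ 2 ∂ν := by
    have h1 : Var[f; ν] = Var[u; ν] := by
      rw [hu]
      exact (variance_sub_const hfc.aestronglyMeasurable m).symm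
    rw [h1]
    have h3 := variance_le_expectation_sq (μ := ν) (X := u) huc.aestronglyMeasurable
    exact h3
  have h6 : κ / 2 * ∫ x, u x ^ 2 ∂ν ≤ 2 / κ * ∫ x, ‖fderiv ℝ f x‖ ^ 2 ∂ν := by linarith
  have h7 : ∫ x, u x ^ 2 ∂ν ≤ 4 / κ ^ 2 * ∫ x, ‖fderiv ℝ f x‖ ^ 2 ∂ν := by
    have h8 := mul_le_mul_of_nonneg_left h6 (by positivity : 0 ≤ 2 / κ)
    have e1 : 2 / κ * (κ / 2 * ∫ x, u x ^ 2 ∂ν) = ∫ x, u x ^ 2 ∂ν := by field_simp
    have e2 : 2 / κ * (2 / κ * ∫ x, ‖fderiv ℝ f x‖ ^ 2 ∂ν) =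
        4 / κ ^ 2 * ∫ x, ‖fderiv ℝ f x‖ ^ 2 ∂ν := by
      rw [← mul_assoc]; congr 1; field_simp; norm_num
    rwa [e1, e2] at h8
  exact hvar.trans h7

end Pool.Agent.Lib.MP_6d896a_gt.FP
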