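import Mathlib
import Pool.Agent.Lib.MP_6d896a_gt.FP.GenDefs

/-!
Shadows (sup-projections) of functions, lengths of fibres and the exponential density on the
epigraph of a potential.
-/

set_option autoImplicit false

namespace Pool.Agent.Lib.MP_6d896a_gt.FP

open MeasureTheory ProbabilityTheory Set Filter
open scoped ENNReal Topology

/-- the shadow (sup-projection) of a function under a map -/
noncomputable def shad {E F : Type*} (S : E → F) (ρ : E → ℝ) (x : F) : ℝ := sSup (ρ '' (S ⁻¹' {x}))

/-- the length of the fibre of a subset of `ℝ × E` -/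
noncomputable def len {E : Type*} (O : Set (ℝ × E)) (z : E) : ℝ :=
  ((volume : Measure ℝ) {y | (y, z) ∈ O}).toReal

/-- the epigraph of the potential of a density, as a subset of `ℝ × (E × ℝ)` -/
def epi {E : Type*} (ρ : ℝ × E → ℝ) : Set (ℝ × (E × ℝ)) :=
  {q | Real.exp (-q.2.2) < ρ (q.1, q.2.1)}

/-- the exponential density on the projection of the epigraph -/
noncomputable def epr {E : Type*} (ρ : ℝ × E → ℝ) (z : E × ℝ) : ℝ :=
  (Prod.snd '' epi ρ).indicator (fun z => Real.exp (-z.2)) z

end Pool.Agent.Lib.MP_6d896a_gt.FP
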