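import Mathlib
import Pool.Agent.Lib.MP_6d896a_gt.FP.GenDefs
import Pool.Agent.Lib.MP_6d896a_gt.FP.ApproxFib
import Pool.Agent.Lib.MP_6d896a_gt.FP.ShadDefs

/-!
Powers of concave functions as weights of log-concave densities: total variation distance.
-/

set_option autoImplicit false

namespace Pool.Agent.Lib.MP_6d896a_gt.FP

open MeasureTheory ProbabilityTheory Set Filter
open scoped ENNReal Topology

section tail

variable {E : Type*} [NormedAddCommGroup E] [NormedSpace ℝ E] [MeasurableSpace E]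
  {μ : Measure E} [IsProbabilityMeasure μ] {S : Set E} {h : E → ℝ}

lemma ctv_lc (hPL : PLm μ) (hS : MeasurableSet S) (hm : Measurable h)
    (hc : ∀ x ∈ S, ∀ y ∈ S, ∀ a b : ℝ, 0 < a → 0 < b → a + b = 1 →
      a • x + b • y ∈ S ∧ a * h x + b * h y ≤ h (a • x + b • y))
    (u v l : ℝ) (h0 : 0 < l) (h1 : l < 1) :
    μ.real (S ∩ {x | u ≤ h x}) ^ (1 - l) * μ.real (S ∩ {x | v ≤ h x}) ^ l ≤
      μ.real (S ∩ {x | (1 - l) * u + l * v ≤ h x}) := by
  have hmm : ∀ u : ℝ, MeasurableSet (S ∩ {x | u ≤ h x}) := fun u =>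
    hS.inter (measurableSet_le measurable_const hm)
  have := hPL.sets (hmm u) (hmm v) (hmm ((1 - l) * u + l * v)) h0 h1 (by
    rintro x ⟨hx, hxu⟩ y ⟨hy, hyv⟩
    obtain ⟨h3, h4⟩ := hc x hx y hy (1 - l) l (by linarith) h0 (by ring)
    refine ⟨h3, ?_⟩
    simp only [mem_ofPred_eq] at hxu hyv ⊢
    have a1 : (1 - l) * u ≤ (1 - l) * h x := mul_le_mul_of_nonneg_left hxu (by linarith)
    have a2 : l * v ≤ l * h y := mul_le_mul_of_nonneg_left hyv h0.le
    linarith)
  have h2 := ENNReal.toReal_mono (measure_ne_top μ _) this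
  rw [ENNReal.toReal_mul, ← ENNReal.toReal_rpow, ← ENNReal.toReal_rpow] at h2
  exact h2

omit [NormedAddCommGroup E] [NormedSpace ℝ E] in
/-- a scale of `h` -/
lemma ctv_scale (hS : MeasurableSet S) (hS1 : μ S = 1) (hm : Measurable h)
    (hpos : ∀ x ∈ S, 0 < h x) :
    ∃ t0 : ℝ, 0 < t0 ∧ 1 / 2 ≤ μ.real (S ∩ {x | t0 ≤ h x}) ∧
      μ.real (S ∩ {x | 2 * t0 ≤ h x}) < 1 / 2 := by
  have hmm : ∀ u : ℝ, MeasurableSet (S ∩ {x | u ≤ h x}) := fun u =>
    hS.inter (measurableSet_le measurable_const hm)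
  -- a positive level of measure at least one half
  obtain ⟨u, hu0, hu⟩ : ∃ u : ℝ, 0 < u ∧ 1 / 2 ≤ μ.real (S ∩ {x | u ≤ h x}) := by
    have hmono : Monotone (fun n : ℕ => S ∩ {x | 1 / ((n : ℝ) + 1) ≤ h x}) := by
      intro m n hmn x hx
      have hx2 : 1 / ((m : ℝ) + 1) ≤ h x := hx.2
      have h3 : 1 / ((n : ℝ) + 1) ≤ 1 / ((m : ℝ) + 1) :=
        one_div_le_one_div_of_le (by positivity) (by exact_mod_cast Nat.succ_le_succ hmn)
      exact ⟨hx.1, h3.trans hx2⟩
    have h1 := tendsto_measure_iUnion_atTop (μ := μ) hmono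
    have h2 : (⋃ n : ℕ, S ∩ {x | 1 / ((n : ℝ) + 1) ≤ h x}) = S := by
      ext x
      simp only [mem_iUnion, mem_inter_iff, mem_ofPred_eq]
      constructor
      · rintro ⟨n, hx, _⟩; exact hx
      · intro hx
        obtain ⟨n, hn⟩ := exists_nat_one_div_lt (hpos x hx)
        exact ⟨n, hx, hn.le⟩
    rw [h2, hS1] at h1
    have h3 : ∀ᶠ n : ℕ in atTop, (1 / 2 : ℝ≥0∞) < (μ ∘ fun n : ℕ => S ∩ {x | 1 / ((n : ℝ) + 1) ≤ h x}) n :=
      h1.eventually (lt_mem_nhds (by norm_num))
    obtain ⟨n, hn⟩ := h3.exists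
    refine ⟨1 / ((n : ℝ) + 1), by positivity, ?_⟩
    have := ENNReal.toReal_mono (measure_ne_top μ _) hn.le
    rw [measureReal_def]
    simpa using this
  have hex : ∃ k : ℕ, μ.real (S ∩ {x | 2 ^ k * u ≤ h x}) < 1 / 2 := by
    have hanti : Antitone (fun k : ℕ => S ∩ {x | 2 ^ k * u ≤ h x}) := by
      intro m n hmn x hx
      have hx2 : 2 ^ n * u ≤ h x := hx.2
      have h3 : (2 : ℝ) ^ m * u ≤ 2 ^ n * u :=
        mul_le_mul_of_nonneg_right (pow_le_pow_right₀ (by norm_num) hmn) hu0.le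
      exact ⟨hx.1, h3.trans hx2⟩
    have h1 := tendsto_measure_iInter_atTop (μ := μ) (fun k : ℕ => (hmm (2 ^ k * u)).nullMeasurableSet)
      hanti ⟨0, measure_ne_top μ _⟩
    have h2 : (⋂ k : ℕ, S ∩ {x | 2 ^ k * u ≤ h x}) = ∅ := by
      ext x
      simp only [mem_iInter, mem_inter_iff, mem_ofPred_eq, mem_empty_iff_false, iff_false, not_forall]
      obtain ⟨k, hk⟩ := pow_unbounded_of_one_lt (h x / u) (one_lt_two)
      refine ⟨k, fun hh => ?_⟩
      rw [div_lt_iff₀ hu0] at hk
      linarith [hh.2]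
    rw [h2, measure_empty] at h1
    have h3 := h1.eventually (gt_mem_nhds (show (0 : ℝ≥0∞) < 1 / 2 by norm_num))
    obtain ⟨k, hk⟩ := h3.exists
    refine ⟨k, ?_⟩
    have := (ENNReal.toReal_lt_toReal (measure_ne_top μ _) (by norm_num)).mpr hk
    rw [measureReal_def]
    simpa using this
  classical
  have hk := Nat.find_spec hex
  have hmin := fun m => Nat.find_min (H := hex) (m := m)
  set k := Nat.find hex with hkd
  cases hk0 : k with
  | zero =>
    rw [hk0] at hk
    simp only [pow_zero, one_mul] at hk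
    linarith
  | succ j =>
    refine ⟨2 ^ j * u, by positivity, ?_, ?_⟩
    · have := hmin j (by rw [hk0]; exact Nat.lt_succ_self j)
      exact not_lt.mp this
    · rw [hk0, pow_succ] at hk
      convert hk using 6
      ring

lemma ctv_upper (hPL : PLm μ) (hS : MeasurableSet S) (hS1 : μ S = 1) (hm : Measurable h)
    (hpos : ∀ x ∈ S, 0 < h x)
    (hc : ∀ x ∈ S, ∀ y ∈ S, ∀ a b : ℝ, 0 < a → 0 < b → a + b = 1 →
      a • x + b • y ∈ S ∧ a * h x + b * h y ≤ h (a • x + b • y))
    {t0 : ℝ} (ht0 : 0 < t0) (h2 : μ.real (S ∩ {x | 2 * t0 ≤ h x}) < 1 / 2) {v : ℝ} (hv : 0 < v) :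
    μ.real (S ∩ {x | v * t0 ≤ h x}) ≤ 2 * Real.exp (-(Real.log 2 / 2 * v)) := by
  have hS0 : μ.real (S ∩ {x | 0 ≤ h x}) = 1 := by
    have : S ∩ {x | 0 ≤ h x} = S := by
      ext x; simp only [mem_inter_iff, mem_ofPred_eq, and_iff_left_iff_imp]
      exact fun hx => (hpos x hx).le
    rw [this, measureReal_def, hS1]; rfl
  have hlog : 0 < Real.log 2 := Real.log_pos (by norm_num)
  rcases le_or_gt v 2 with hv2 | hv2
  · calc μ.real (S ∩ {x | v * t0 ≤ h x}) ≤ 1 := measureReal_le_one
      _ = 2 * Real.exp (-Real.log 2) := by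
          rw [Real.exp_neg, Real.exp_log (by norm_num)]; norm_num
      _ ≤ 2 * Real.exp (-(Real.log 2 / 2 * v)) := by
          gcongr
          nlinarith
  · have hl0 : (0 : ℝ) < 2 / v := by positivity
    have hl1 : 2 / v < 1 := by rw [div_lt_one hv]; exact hv2
    have := ctv_lc hPL hS hm hc 0 (v * t0) (2 / v) hl0 hl1
    rw [hS0, Real.one_rpow, one_mul] at this
    have e : (1 - 2 / v) * 0 + 2 / v * (v * t0) = 2 * t0 := by field_simp; ring
    rw [e] at this
    have h3 : μ.real (S ∩ {x | v * t0 ≤ h x}) ^ (2 / v) ≤ 1 / 2 := this.trans h2.le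
    have h4 : μ.real (S ∩ {x | v * t0 ≤ h x}) =
        (μ.real (S ∩ {x | v * t0 ≤ h x}) ^ (2 / v)) ^ (v / 2) := by
      rw [← Real.rpow_mul measureReal_nonneg]
      have : 2 / v * (v / 2) = 1 := by field_simp
      rw [this, Real.rpow_one]
    have h5 : μ.real (S ∩ {x | v * t0 ≤ h x}) ≤ (1 / 2) ^ (v / 2) := by
      rw [h4]
      exact Real.rpow_le_rpow (Real.rpow_nonneg measureReal_nonneg _) h3 (by positivity)
    refine h5.trans ?_
    have h6 : ((1 : ℝ) / 2) ^ (v / 2) = Real.exp (-(Real.log 2 / 2 * v)) := by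
      rw [Real.rpow_def_of_pos (by norm_num)]
      congr 1
      rw [Real.log_div (by norm_num) (by norm_num), Real.log_one]
      ring
    rw [h6]
    have := Real.exp_pos (-(Real.log 2 / 2 * v))
    linarith

lemma ctv_lower (hPL : PLm μ) (hS : MeasurableSet S) (hS1 : μ S = 1) (hm : Measurable h)
    (hpos : ∀ x ∈ S, 0 < h x)
    (hc : ∀ x ∈ S, ∀ y ∈ S, ∀ a b : ℝ, 0 < a → 0 < b → a + b = 1 →
      a • x + b • y ∈ S ∧ a * h x + b * h y ≤ h (a • x + b • y))
    {t0 : ℝ} (h1 : 1 / 2 ≤ μ.real (S ∩ {x | t0 ≤ h x})) {v : ℝ} (hv : 0 < v) (hv1 : v ≤ 1) :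
    μ.real (S ∩ {x | h x < v * t0}) ≤ v := by
  have hmm : ∀ u : ℝ, MeasurableSet (S ∩ {x | u ≤ h x}) := fun u =>
    hS.inter (measurableSet_le measurable_const hm)
  rcases eq_or_lt_of_le hv1 with rfl | hv1
  · exact measureReal_le_one
  have hS0 : μ.real (S ∩ {x | 0 ≤ h x}) = 1 := by
    have : S ∩ {x | 0 ≤ h x} = S := by
      ext x; simp only [mem_inter_iff, mem_ofPred_eq, and_iff_left_iff_imp]
      exact fun hx => (hpos x hx).le
    rw [this, measureReal_def, hS1]; rfl
  have := ctv_lc hPL hS hm hc 0 t0 v hv hv1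
  rw [hS0, Real.one_rpow, one_mul, mul_zero, zero_add] at this
  have h2 : (1 / 2 : ℝ) ^ v ≤ μ.real (S ∩ {x | v * t0 ≤ h x}) :=
    (Real.rpow_le_rpow (by norm_num) h1 hv.le).trans this
  have h3 : μ.real (S ∩ {x | h x < v * t0}) + μ.real (S ∩ {x | v * t0 ≤ h x}) ≤ 1 := by
    rw [← measureReal_union]
    · exact measureReal_le_one
    · rw [Set.disjoint_left]
      rintro x ⟨_, hx⟩ ⟨_, hx'⟩
      have a1 : h x < v * t0 := hx
      have a2 : v * t0 ≤ h x := hx'
      linarith
    · exact hmm _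
  have h4 : 1 - v * Real.log 2 ≤ (1 / 2 : ℝ) ^ v := by
    rw [Real.rpow_def_of_pos (by norm_num), Real.log_div (by norm_num) (by norm_num), Real.log_one]
    have := Real.add_one_le_exp ((0 - Real.log 2) * v)
    linarith
  have h5 : v * Real.log 2 ≤ v := by
    have := Real.log_two_lt_d9
    nlinarith
  linarith

lemma lint_exp {c β : ℝ} (hc : 0 ≤ c) (hβ : 0 < β) :
    ∫⁻ t in Ioi (0 : ℝ), ENNReal.ofReal (c * Real.exp (-(β * t))) = ENNReal.ofReal (c / β) := by
  have hi : IntegrableOn (fun t : ℝ => Real.exp (-β * t)) (Ioi 0) :=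
    integrableOn_exp_mul_Ioi (by linarith) 0
  have he := integral_exp_mul_Ioi (a := -β) (by linarith) 0
  have h1 : ∀ t : ℝ, c * Real.exp (-(β * t)) = c * Real.exp (-β * t) := fun t => by rw [neg_mul]
  simp only [h1]
  rw [← ofReal_integral_eq_lintegral_ofReal (hi.const_mul c)
    (ae_of_all _ fun t => by positivity), integral_const_mul, he]
  congr 1
  simp
  ring

/-- the powers of a concave function, normalised at its scale, are close to one in mean -/
lemma ctv_int (hPL : PLm μ) (hS : MeasurableSet S) (hS1 : μ S = 1) (hm : Measurable h)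
    (hpos : ∀ x ∈ S, 0 < h x)
    (hc : ∀ x ∈ S, ∀ y ∈ S, ∀ a b : ℝ, 0 < a → 0 < b → a + b = 1 →
      a • x + b • y ∈ S ∧ a * h x + b * h y ≤ h (a • x + b • y)) :
    ∃ t0 : ℝ, 0 < t0 ∧ ∀ d : ℝ, 0 ≤ d → d ≤ 1 →
      ∫⁻ x, ENNReal.ofReal |(h x / t0) ^ d - 1| ∂μ ≤ ENNReal.ofReal (7 * d) := by
  obtain ⟨t0, ht0, h1, h2⟩ := ctv_scale hS hS1 hm hpos
  have hlog : 0 < Real.log 2 := Real.log_pos (by norm_num)
  have hae : ∀ᵐ x ∂μ, x ∈ S := (prob_compl_eq_zero_iff hS).mpr hS1
  refine ⟨t0, ht0, fun d hd0 hd1 => ?_⟩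
  -- the two integrals
  have hI1 : ∫⁻ x, ENNReal.ofReal (max (h x / t0) 0) ∂μ ≤ ENNReal.ofReal 6 := by
    rw [lintegral_eq_lintegral_meas_le (f := fun x => max (h x / t0) 0) μ
      (ae_of_all _ fun x => le_max_right _ _)
      ((hm.div_const t0).max measurable_const).aemeasurable]
    calc ∫⁻ t in Ioi (0 : ℝ), μ {a | t ≤ max (h a / t0) 0}
        ≤ ∫⁻ t in Ioi (0 : ℝ), ENNReal.ofReal (2 * Real.exp (-(Real.log 2 / 2 * t))) := by
          refine setLIntegral_mono' measurableSet_Ioi fun t ht => ?_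
          have hsub : μ {a | t ≤ max (h a / t0) 0} ≤ μ (S ∩ {x | t * t0 ≤ h x}) := by
            refine measure_mono_ae ?_
            filter_upwards [hae] with x hx hx2
            refine ⟨hx, ?_⟩
            simp only [mem_ofPred_eq]
            rcases le_max_iff.mp (show t ≤ max (h x / t0) 0 from hx2) with h3 | h3
            · rwa [le_div_iff₀ ht0] at h3
            · exact absurd ht (not_lt.mpr h3)
          refine hsub.trans ?_
          rw [← ofReal_measureReal]
          exact ENNReal.ofReal_le_ofReal (ctv_upper hPL hS hS1 hm hpos hc ht0 h2 ht)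
      _ = ENNReal.ofReal (2 / (Real.log 2 / 2)) := lint_exp (by norm_num) (by positivity)
      _ ≤ ENNReal.ofReal 6 := by
          apply ENNReal.ofReal_le_ofReal
          have := Real.log_two_gt_d9
          rw [div_le_iff₀ (by positivity)]
          linarith
  have hI2 : ∫⁻ x, ENNReal.ofReal (max (-Real.log (h x / t0)) 0) ∂μ ≤ ENNReal.ofReal 1 := by
    rw [lintegral_eq_lintegral_meas_lt (f := fun x => max (-Real.log (h x / t0)) 0) μ
      (ae_of_all _ fun x => le_max_right _ _)
      ((hm.div_const t0).log.neg.max measurable_const).aemeasurable]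
    calc ∫⁻ t in Ioi (0 : ℝ), μ {a | t < max (-Real.log (h a / t0)) 0}
        ≤ ∫⁻ t in Ioi (0 : ℝ), ENNReal.ofReal (1 * Real.exp (-(1 * t))) := by
          refine setLIntegral_mono' measurableSet_Ioi fun t ht => ?_
          have hsub : μ {a | t < max (-Real.log (h a / t0)) 0} ≤
              μ (S ∩ {x | h x < Real.exp (-t) * t0}) := by
            refine measure_mono_ae ?_
            filter_upwards [hae] with x hx hx2
            refine ⟨hx, ?_⟩
            simp only [mem_ofPred_eq]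
            rcases lt_max_iff.mp (show t < max (-Real.log (h x / t0)) 0 from hx2) with h3 | h3
            · have h4 : Real.log (h x / t0) < -t := by linarith
              have h5 := (Real.log_lt_iff_lt_exp (div_pos (hpos x hx) ht0)).mp h4
              rwa [div_lt_iff₀ ht0] at h5
            · exact absurd ht (not_lt.mpr h3.le)
          refine hsub.trans ?_
          rw [← ofReal_measureReal]
          refine ENNReal.ofReal_le_ofReal ?_
          rw [one_mul, one_mul]
          exact ctv_lower hPL hS hS1 hm hpos hc h1 (Real.exp_pos _)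
            (Real.exp_le_one_iff.mpr (by simpa using (le_of_lt ht)))
      _ = ENNReal.ofReal (1 / 1) := lint_exp (by norm_num) (by norm_num)
      _ = ENNReal.ofReal 1 := by norm_num
  calc ∫⁻ x, ENNReal.ofReal |(h x / t0) ^ d - 1| ∂μ
      ≤ ∫⁻ x, ENNReal.ofReal d * (ENNReal.ofReal (max (h x / t0) 0) +
          ENNReal.ofReal (max (-Real.log (h x / t0)) 0)) ∂μ := by
        refine lintegral_mono_ae ?_
        filter_upwards [hae] with x hx
        have hH : 0 < h x / t0 := div_pos (hpos x hx) ht0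
        rw [← ENNReal.ofReal_add (le_max_right _ _) (le_max_right _ _),
          ← ENNReal.ofReal_mul hd0]
        apply ENNReal.ofReal_le_ofReal
        set H := h x / t0 with hHd
        have hm1 : 0 ≤ max (-Real.log H) 0 := le_max_right _ _
        have hm2 : H ≤ max H 0 := le_max_left _ _
        rcases le_total 1 H with h3 | h3
        · have h4 : 1 ≤ H ^ d := Real.one_le_rpow h3 hd0
          have h5 : H ^ d ≤ 1 + d * (H - 1) := by
            have := rpow_one_add_le_one_add_mul_self (s := H - 1) (by linarith) hd0 hd1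
            simpa using this
          rw [abs_of_nonneg (by linarith)]
          nlinarith
        · have h4 : H ^ d ≤ 1 := Real.rpow_le_one hH.le h3 hd0
          have h5 : 1 + Real.log H * d ≤ H ^ d := by
            rw [Real.rpow_def_of_pos hH]
            have := Real.add_one_le_exp (Real.log H * d)
            linarith
          rw [abs_sub_comm, abs_of_nonneg (by linarith)]
          have h6 : -Real.log H ≤ max (-Real.log H) 0 := le_max_left _ _
          have h7 : (0 : ℝ) ≤ max H 0 := le_max_right _ _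
          nlinarith
    _ = ENNReal.ofReal d * (∫⁻ x, ENNReal.ofReal (max (h x / t0) 0) ∂μ +
          ∫⁻ x, ENNReal.ofReal (max (-Real.log (h x / t0)) 0) ∂μ) := by
        rw [lintegral_const_mul' _ _ ENNReal.ofReal_ne_top, lintegral_add_left]
        exact ((hm.div_const t0).max measurable_const).ennreal_ofReal
    _ ≤ ENNReal.ofReal d * (ENNReal.ofReal 6 + ENNReal.ofReal 1) := by gcongr
    _ = ENNReal.ofReal (7 * d) := by
        rw [← ENNReal.ofReal_add (by norm_num) (by norm_num), ← ENNReal.ofReal_mul hd0]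
        congr 1
        ring

end tail

section weight

variable {E : Type} [NormedAddCommGroup E] [NormedSpace ℝ E] [MeasureSpace E] [BorelSpace E]
  [FiniteDimensional ℝ E] [(volume : Measure E).IsAddHaarMeasure]

omit [FiniteDimensional ℝ E] [(volume : Measure E).IsAddHaarMeasure] [BorelSpace E] in
lemma LCd.pos_combo {r : E → ℝ} (hr : LCd r) {x y : E} (hx : 0 < r x) (hy : 0 < r y) {a b : ℝ}
    (ha : 0 < a) (hb : 0 < b) (hab : a + b = 1) : 0 < r (a • x + b • y) :=
  lt_of_lt_of_le (mul_pos (Real.rpow_pos_of_pos hx _) (Real.rpow_pos_of_pos hy _))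
    (hr.lc x y a b ha hb hab)

omit [FiniteDimensional ℝ E] [(volume : Measure E).IsAddHaarMeasure] [BorelSpace E] in
/-- A0: weights which are powers of concave functions -/
theorem concave_weight {r h : E → ℝ} (hr : LCd r) (hh : Measurable h)
    (hpos : ∀ x, 0 < r x → 0 < h x)
    (hcon : ∀ x y, 0 < r x → 0 < r y → ∀ a b : ℝ, 0 < a → 0 < b → a + b = 1 →
      a * h x + b * h y ≤ h (a • x + b • y))
    (h0 : ∫⁻ x, ENNReal.ofReal (r x) ≠ 0) (h1 : ∫⁻ x, ENNReal.ofReal (r x) ≠ ∞)
    (h2 : ∫⁻ x, ENNReal.ofReal (r x * h x) ≠ ∞) {s : ℝ} (hs0 : 0 ≤ s) (hs1 : s ≤ 1) :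
    LCd (fun x => r x * h x ^ s) ∧ ∫⁻ x, ENNReal.ofReal (r x * h x ^ s) ≠ 0 ∧
      ∫⁻ x, ENNReal.ofReal (r x * h x ^ s) ≠ ∞ := by
  have hnn : ∀ x, 0 ≤ r x * h x ^ s := by
    intro x
    rcases (hr.nn x).eq_or_lt with h3 | h3
    · rw [← h3, zero_mul]
    · exact mul_nonneg h3.le (Real.rpow_nonneg (hpos x h3).le _)
  have hms : Measurable (fun x => r x * h x ^ s) := hr.ms.mul (hh.pow_const s)
  refine ⟨⟨hnn, hms, ?_⟩, ?_, ?_⟩
  · intro x y a b ha hb hab
    rcases (hr.nn x).eq_or_lt with h3 | h3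
    · simp only [← h3, zero_mul, Real.zero_rpow ha.ne']
      exact hnn _
    rcases (hr.nn y).eq_or_lt with h4 | h4
    · simp only [← h4, zero_mul, Real.zero_rpow hb.ne', mul_zero]
      exact hnn _
    have hx := hpos x h3
    have hy := hpos y h4
    have h5 := hr.lc x y a b ha hb hab
    have h6 := hcon x y h3 h4 a b ha hb hab
    have h7 : h x ^ a * h y ^ b ≤ h (a • x + b • y) :=
      (Real.geom_mean_le_arith_mean2_weighted ha.le hb.le hx.le hy.le hab).trans h6
    rw [Real.mul_rpow h3.le (Real.rpow_nonneg hx.le _),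
      Real.mul_rpow h4.le (Real.rpow_nonneg hy.le _)]
    calc r x ^ a * (h x ^ s) ^ a * (r y ^ b * (h y ^ s) ^ b)
        = (r x ^ a * r y ^ b) * (h x ^ a * h y ^ b) ^ s := by
          rw [Real.mul_rpow (Real.rpow_nonneg hx.le _) (Real.rpow_nonneg hy.le _),
            ← Real.rpow_mul hx.le, ← Real.rpow_mul hy.le, ← Real.rpow_mul hx.le,
            ← Real.rpow_mul hy.le, mul_comm s a, mul_comm s b]
          ring
      _ ≤ r (a • x + b • y) * h (a • x + b • y) ^ s :=
          mul_le_mul h5 (Real.rpow_le_rpow (by positivity) h7 hs0) (by positivity) (hr.nn _)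
  · intro h3
    apply h0
    rw [lintegral_eq_zero_iff hms.ennreal_ofReal] at h3
    rw [lintegral_eq_zero_iff hr.ms.ennreal_ofReal]
    filter_upwards [h3] with x hx
    simp only [Pi.zero_apply, ENNReal.ofReal_eq_zero] at hx ⊢
    by_contra hcon'
    have hcon2 : 0 < r x := not_le.mp hcon'
    exact absurd hx (not_le.mpr (mul_pos hcon2 (Real.rpow_pos_of_pos (hpos x hcon2) _)))
  · refine ne_of_lt (lt_of_le_of_lt (lintegral_mono (g := fun x => ENNReal.ofReal (r x) +
      ENNReal.ofReal (r x * h x)) fun x => ?_) ?_)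
    · rcases (hr.nn x).eq_or_lt with h3 | h3
      · simp [← h3]
      · have hx := hpos x h3
        show ENNReal.ofReal (r x * h x ^ s) ≤ ENNReal.ofReal (r x) + ENNReal.ofReal (r x * h x)
        rw [← ENNReal.ofReal_add h3.le (by positivity)]
        apply ENNReal.ofReal_le_ofReal
        have : h x ^ s ≤ 1 + h x := by
          rcases le_total 1 (h x) with h4 | h4
          · have := Real.rpow_le_rpow_of_exponent_le h4 hs1
            rw [Real.rpow_one] at this
            linarith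
          · have := Real.rpow_le_one hx.le h4 hs0
            linarith
        calc r x * h x ^ s ≤ r x * (1 + h x) := mul_le_mul_of_nonneg_left this h3.le
          _ = _ := by ring
    · rw [lintegral_add_left hr.ms.ennreal_ofReal]
      exact ENNReal.add_lt_top.mpr ⟨h1.lt_top, h2.lt_top⟩

end weight

lemma dens_const_mul_tv {X : Type*} [MeasureSpace X] {c : ℝ} (hc : 0 < c) {a : X → ℝ}
    (ha : Measurable a) : dens (fun x => c * a x) = dens a := by
  unfold dens
  have h1 : ∀ x, ENNReal.ofReal (c * a x) = ENNReal.ofReal c * ENNReal.ofReal (a x) := fun x =>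
    ENNReal.ofReal_mul hc.le
  have hc0 : ENNReal.ofReal c ≠ 0 := by simpa using hc
  simp only [h1]
  rw [lintegral_const_mul _ ha.ennreal_ofReal]
  have h2 : (volume : Measure X).withDensity (fun x => ENNReal.ofReal c * ENNReal.ofReal (a x)) =
      ENNReal.ofReal c • (volume : Measure X).withDensity (fun x => ENNReal.ofReal (a x)) :=
    withDensity_smul _ ha.ennreal_ofReal
  rw [h2, smul_smul, ENNReal.mul_inv (Or.inl hc0) (Or.inl ENNReal.ofReal_ne_top), mul_comm,
    ← mul_assoc, ENNReal.mul_inv_cancel hc0 ENNReal.ofReal_ne_top, one_mul]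

/-- A: total variation distance between the weights `h ^ s` and `h ^ t`, `h` concave -/
theorem concave_tv : ∃ C : ℝ, 0 < C ∧ ∀ (E : Type) [NormedAddCommGroup E] [NormedSpace ℝ E]
    [MeasureSpace E] [BorelSpace E] [FiniteDimensional ℝ E]
    [(volume : Measure E).IsAddHaarMeasure] (r h : E → ℝ), LCd r → Measurable h →
    (∀ x, 0 < r x → 0 < h x) →
    (∀ x y, 0 < r x → 0 < r y → ∀ a b : ℝ, 0 < a → 0 < b → a + b = 1 →
      a * h x + b * h y ≤ h (a • x + b • y)) →
    ∫⁻ x, ENNReal.ofReal (r x) ≠ 0 → ∫⁻ x, ENNReal.ofReal (r x) ≠ ∞ →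
    ∫⁻ x, ENNReal.ofReal (r x * h x) ≠ ∞ →
    ∀ s t : ℝ, 0 ≤ s → s ≤ t → t ≤ 1 → ∀ A : Set E, MeasurableSet A →
      |(dens (fun x => r x * h x ^ s)).real A - (dens (fun x => r x * h x ^ t)).real A| ≤
        C * (t - s) := by
  refine ⟨14, by norm_num, ?_⟩
  intro E _ _ _ _ _ _ r h hr hh hpos hcon h0 h1 h2 s t hs0 hst ht1 A hA
  obtain ⟨hsl, hs2, hs3⟩ := concave_weight hr hh hpos hcon h0 h1 h2 hs0 (hst.trans ht1)
  obtain ⟨htl, ht2, ht3⟩ := concave_weight hr hh hpos hcon h0 h1 h2 (hs0.trans hst) ht1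
  set a : E → ℝ := fun x => r x * h x ^ s with hadef
  set b : E → ℝ := fun x => r x * h x ^ t with hbdef
  set μ : Measure E := dens a with hμ
  have : IsProbabilityMeasure μ := dens_prob hs2 hs3
  have hPL : PLm μ := hsl.plm hs2 hs3
  set S : Set E := {x | 0 < r x} with hSd
  have hS : MeasurableSet S := measurableSet_lt measurable_const hr.ms
  have hS1 : μ S = 1 := by
    rw [← prob_compl_eq_zero_iff hS, hμ]
    unfold dens
    rw [Measure.smul_apply, smul_eq_mul]
    refine mul_eq_zero.mpr (Or.inr ?_)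
    rw [withDensity_apply _ hS.compl]
    rw [setLIntegral_congr_fun hS.compl (g := fun _ => 0)]
    · simp
    · intro x hx
      have : r x = 0 := le_antisymm (not_lt.mp hx) (hr.nn x)
      simp [hadef, this]
  obtain ⟨t0, ht0, hI⟩ := ctv_int hPL hS hS1 hh (fun x hx => hpos x hx)
    (fun x hx y hy a b ha hb hab => ⟨hr.pos_combo hx hy ha hb hab, hcon x y hx hy a b ha hb hab⟩)
  have hd0 : 0 ≤ t - s := by linarith
  have hI' := hI (t - s) hd0 (by linarith)
  -- the rescaled second density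
  set c : ℝ := (t0 ^ (t - s))⁻¹ with hcd
  have hc0 : 0 < c := inv_pos.mpr (Real.rpow_pos_of_pos ht0 _)
  have hb' : dens (fun x => c * b x) = dens b := dens_const_mul_tv hc0 htl.ms
  have hai : Integrable a := ⟨hsl.ms.aestronglyMeasurable, by
    rw [hasFiniteIntegral_iff_ofReal (ae_of_all _ hsl.nn)]; exact hs3.lt_top⟩
  have hbi : Integrable b := ⟨htl.ms.aestronglyMeasurable, by
    rw [hasFiniteIntegral_iff_ofReal (ae_of_all _ htl.nn)]; exact ht3.lt_top⟩
  have hAp : 0 < ∫ x, a x := by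
    rw [integral_eq_lintegral_of_nonneg_ae (ae_of_all _ hsl.nn) hsl.ms.aestronglyMeasurable]
    exact ENNReal.toReal_pos hs2 hs3
  have hBp : 0 < ∫ x, c * b x := by
    rw [integral_const_mul]
    refine mul_pos hc0 ?_
    rw [integral_eq_lintegral_of_nonneg_ae (ae_of_all _ htl.nn) htl.ms.aestronglyMeasurable]
    exact ENNReal.toReal_pos ht2 ht3
  have hkey : ∫⁻ x, ENNReal.ofReal |a x - c * b x| ≤
      ENNReal.ofReal (7 * (t - s)) * ∫⁻ x, ENNReal.ofReal (a x) := by
    have e1 : ∫⁻ x, ENNReal.ofReal |(h x / t0) ^ (t - s) - 1| ∂μ =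
        (∫⁻ x, ENNReal.ofReal (a x))⁻¹ * ∫⁻ x, ENNReal.ofReal |a x - c * b x| := by
      rw [hμ]
      unfold dens
      rw [lintegral_smul_measure, smul_eq_mul]
      congr 1
      have hmw : Measurable (fun x => ENNReal.ofReal |(h x / t0) ^ (t - s) - 1|) :=
        ((((hh.div_const t0).pow_const (t - s)).sub_const 1).norm).ennreal_ofReal
      rw [lintegral_withDensity_eq_lintegral_mul _ hsl.ms.ennreal_ofReal hmw]
      refine lintegral_congr fun x => ?_
      simp only [Pi.mul_apply]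
      rw [← ENNReal.ofReal_mul (hsl.nn x)]
      congr 1
      rcases (hr.nn x).eq_or_lt with h3 | h3
      · simp [hadef, hbdef, ← h3]
      · have hx := hpos x h3
        have ha' : 0 ≤ a x := hsl.nn x
        have e2 : a x - c * b x = a x * (1 - (h x / t0) ^ (t - s)) := by
          simp only [hadef, hbdef, hcd]
          rw [Real.div_rpow hx.le ht0.le, Real.rpow_sub hx]
          have h4 : h x ^ s ≠ 0 := (Real.rpow_pos_of_pos hx _).ne'
          have h5 : t0 ^ (t - s) ≠ 0 := (Real.rpow_pos_of_pos ht0 _).ne'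
          field_simp
        rw [e2, abs_mul, abs_of_nonneg ha', abs_sub_comm]
    rw [e1] at hI'
    rw [mul_comm] at hI'
    have h5 := ENNReal.div_le_iff_le_mul (Or.inl hs2) (Or.inl hs3) (a := ∫⁻ x, ENNReal.ofReal |a x - c * b x|) (c := ENNReal.ofReal (7 * (t - s)))
    rw [div_eq_mul_inv] at h5
    exact h5.mp hI'
  have hδ : ∫ x, |a x - c * b x| ≤ 7 * (t - s) * ∫ x, a x := by
    have hmabs : Measurable (fun x => |a x - c * b x|) :=
      (hsl.ms.sub (htl.ms.const_mul c)).norm
    rw [integral_eq_lintegral_of_nonneg_ae (ae_of_all _ fun x => abs_nonneg _)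
      hmabs.aestronglyMeasurable,
      integral_eq_lintegral_of_nonneg_ae (ae_of_all _ hsl.nn) hsl.ms.aestronglyMeasurable]
    have h6 := ENNReal.toReal_mono (ENNReal.mul_ne_top ENNReal.ofReal_ne_top hs3) hkey
    rw [ENNReal.toReal_mul, ENNReal.toReal_ofReal (by positivity)] at h6
    exact h6
  have hfin := AF.tv_dens (a := a) (b := fun x => c * b x) hsl.nn
    (fun x => mul_nonneg hc0.le (htl.nn x)) hai (hbi.const_mul c) hAp hBp hδ hA
  rw [hb'] at hfin
  calc _ ≤ 2 * (7 * (t - s)) := hfin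
    _ = 14 * (t - s) := by ring

end Pool.Agent.Lib.MP_6d896a_gt.FP
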