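import Mathlib
import Pool.Agent.Lib.MP_6d896a_gt.FP.GenDefs

/-!
Integrable log-concave functions decay exponentially.
-/

set_option autoImplicit false

namespace Pool.Agent.Lib.MP_6d896a_gt.FP

open MeasureTheory ProbabilityTheory Set Filter
open scoped ENNReal Topology

section

variable {V : Type} [Fintype V] {ρ : (V → ℝ) → ℝ}

private lemma ed_level_convex (hρ : LCd ρ) {c : ℝ} (hc : 0 < c) : Convex ℝ {x | c < ρ x} := by
  rw [convex_iff_forall_pos]
  intro x hx y hy a b ha hb hab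
  have h1 : c ^ a < ρ x ^ a := Real.rpow_lt_rpow hc.le hx ha
  have h2 : c ^ b < ρ y ^ b := Real.rpow_lt_rpow hc.le hy hb
  have h3 : c = c ^ a * c ^ b := by
    rw [← Real.rpow_add hc, hab, Real.rpow_one]
  change c < ρ (a • x + b • y)
  calc c = c ^ a * c ^ b := h3
    _ < ρ x ^ a * ρ y ^ b := mul_lt_mul'' h1 h2 (Real.rpow_nonneg hc.le _) (Real.rpow_nonneg hc.le _)
    _ ≤ _ := hρ.lc x y a b ha hb hab

/-- a ball on which the function is bounded below -/
private lemma ed_ball (hρ : LCd ρ) (h0 : ∫⁻ x, ENNReal.ofReal (ρ x) ≠ 0) :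
    ∃ (c : ℝ) (x₀ : V → ℝ) (r : ℝ), 0 < c ∧ 0 < r ∧ ∀ z ∈ Metric.ball x₀ r, c < ρ z := by
  have h1 : ∃ n : ℕ, (volume : Measure (V → ℝ)) {x | (1 : ℝ) / (n + 1) < ρ x} ≠ 0 := by
    by_contra hc
    push Not at hc
    apply h0
    rw [lintegral_eq_zero_iff hρ.ms.ennreal_ofReal]
    have h2 : (volume : Measure (V → ℝ)) (⋃ n : ℕ, {x | (1 : ℝ) / (n + 1) < ρ x}) = 0 :=
      measure_iUnion_null hc
    refine ae_iff.mpr (measure_mono_null ?_ h2)
    intro x hx
    have h3 : 0 < ρ x := by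
      by_contra h4
      push Not at h4
      apply hx
      change ENNReal.ofReal (ρ x) = 0
      exact ENNReal.ofReal_of_nonpos h4
    obtain ⟨n, hn⟩ := exists_nat_one_div_lt h3
    exact mem_iUnion.mpr ⟨n, hn⟩
  obtain ⟨n, hn⟩ := h1
  have hc : (0 : ℝ) < 1 / (n + 1) := by positivity
  have hconv := ed_level_convex hρ hc
  have hint : (interior {x | (1 : ℝ) / (n + 1) < ρ x}).Nonempty := by
    by_contra he
    rw [not_nonempty_iff_eq_empty] at he
    apply hn
    refine measure_mono_null ?_ (hconv.addHaar_frontier (volume : Measure (V → ℝ)))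
    rw [frontier, he, sdiff_empty]
    exact subset_closure
  obtain ⟨x₀, hx₀⟩ := hint
  obtain ⟨r, hr, hball⟩ := Metric.isOpen_iff.mp isOpen_interior x₀ hx₀
  refine ⟨_, x₀, r, hc, hr, fun z hz => ?_⟩
  have hz' : z ∈ {x | (1 : ℝ) / (n + 1) < ρ x} := interior_subset (hball hz)
  exact hz'

/-- C1: exponential decay of integrable log-concave functions -/
theorem exp_decay {V : Type} [Fintype V] {ρ : (V → ℝ) → ℝ} (hρ : LCd ρ)
    (h0 : ∫⁻ x, ENNReal.ofReal (ρ x) ≠ 0) (h1 : ∫⁻ x, ENNReal.ofReal (ρ x) ≠ ∞) :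
    ∃ A b : ℝ, 0 < A ∧ 0 < b ∧ ∀ x, ρ x ≤ A * Real.exp (-(b * ‖x‖)) := by
  obtain ⟨c, x₀, r, hc, hr, hball⟩ := ed_ball hρ h0
  set ν : Measure (V → ℝ) := volume.withDensity (fun x => ENNReal.ofReal (ρ x)) with hν
  have hνu : ν univ ≠ ∞ := by
    rw [hν, withDensity_apply _ MeasurableSet.univ, Measure.restrict_univ]
    exact h1
  have hνfin : IsFiniteMeasure ν := ⟨lt_top_iff_ne_top.mpr hνu⟩
  set v : ℝ≥0∞ := (volume : Measure (V → ℝ)) (Metric.ball 0 (r / 2)) with hv
  have hv0 : v ≠ 0 := by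
    have := Metric.measure_ball_pos (volume : Measure (V → ℝ)) (0 : V → ℝ) (half_pos hr)
    exact this.ne'
  have hvt : v ≠ ∞ := measure_ball_lt_top.ne
  -- the midpoint estimate
  have hmid : ∀ x, ENNReal.ofReal (Real.sqrt (c * ρ x)) * v ≤
      ν (Metric.ball ((1 / 2 : ℝ) • x₀ + (1 / 2 : ℝ) • x) (r / 2)) := by
    intro x
    have h2 : v = (volume : Measure (V → ℝ))
        (Metric.ball ((1 / 2 : ℝ) • x₀ + (1 / 2 : ℝ) • x) (r / 2)) := by
      rw [hv]
      exact (Measure.addHaar_ball_center volume _ _).symm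
    rw [h2, hν, withDensity_apply _ measurableSet_ball, ← setLIntegral_const]
    refine setLIntegral_mono' measurableSet_ball ?_
    intro w hw
    apply ENNReal.ofReal_le_ofReal
    set z : V → ℝ := (2 : ℝ) • w - x with hz
    have hzb : z ∈ Metric.ball x₀ r := by
      rw [mem_ball_iff_norm] at hw ⊢
      have h3 : z - x₀ = (2 : ℝ) • (w - ((1 / 2 : ℝ) • x₀ + (1 / 2 : ℝ) • x)) := by
        rw [hz]
        ext i
        simp only [Pi.sub_apply, Pi.smul_apply, smul_eq_mul, Pi.add_apply]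
        ring
      rw [h3, norm_smul, Real.norm_of_nonneg (by norm_num : (0 : ℝ) ≤ 2)]
      linarith
    have hw2 : w = (1 / 2 : ℝ) • z + (1 / 2 : ℝ) • x := by
      rw [hz]
      ext i
      simp only [Pi.sub_apply, Pi.smul_apply, smul_eq_mul, Pi.add_apply]
      ring
    have h4 := hρ.lc z x (1 / 2) (1 / 2) (by norm_num) (by norm_num) (by norm_num)
    rw [← hw2] at h4
    refine le_trans ?_ h4
    rw [Real.sqrt_eq_rpow, Real.mul_rpow hc.le (hρ.nn x)]
    exact mul_le_mul_of_nonneg_right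
      (Real.rpow_le_rpow hc.le (hball z hzb).le (by norm_num)) (Real.rpow_nonneg (hρ.nn x) _)
  -- boundedness
  have hbdd : ∃ M : ℝ, 0 < M ∧ ∀ x, ρ x ≤ M := by
    set m : ℝ := (ν univ / v).toReal with hm
    have hmt : ν univ / v ≠ ∞ := ENNReal.div_ne_top hνu hv0
    refine ⟨m ^ 2 / c + 1, by positivity, fun x => ?_⟩
    have h2 : ENNReal.ofReal (Real.sqrt (c * ρ x)) ≤ ν univ / v := by
      rw [ENNReal.le_div_iff_mul_le (Or.inl hv0) (Or.inl hvt)]
      exact (hmid x).trans (measure_mono (subset_univ _))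
    have h3 : Real.sqrt (c * ρ x) ≤ m := by
      rw [hm]
      exact (ENNReal.ofReal_le_iff_le_toReal hmt).mp h2
    have h4 : c * ρ x ≤ m ^ 2 := by
      have h5 := Real.sq_sqrt (mul_nonneg hc.le (hρ.nn x))
      rw [← h5]
      exact pow_le_pow_left₀ (Real.sqrt_nonneg _) h3 2
    have h5 : ρ x ≤ m ^ 2 / c := by
      rw [le_div_iff₀ hc]
      linarith
    linarith
  obtain ⟨M, hM, hMb⟩ := hbdd
  -- the tail
  set c₁ : ℝ := c * Real.exp (-1) with hc₁
  have hc₁p : 0 < c₁ := by positivity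
  have htail : ∃ n : ℕ, ν {x | (n : ℝ) ≤ ‖x‖} < ENNReal.ofReal (Real.sqrt (c * c₁)) * v := by
    have hpos : 0 < ENNReal.ofReal (Real.sqrt (c * c₁)) * v := by
      refine ENNReal.mul_pos ?_ hv0
      rw [ne_eq, ENNReal.ofReal_eq_zero, not_le]
      exact Real.sqrt_pos.mpr (mul_pos hc hc₁p)
    have hlim : Tendsto (fun n : ℕ => ν {x : V → ℝ | (n : ℝ) ≤ ‖x‖}) atTop
        (𝓝 (ν (⋂ n : ℕ, {x : V → ℝ | (n : ℝ) ≤ ‖x‖}))) := by
      apply tendsto_measure_iInter_atTop
      · intro n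
        exact (measurableSet_le measurable_const measurable_norm).nullMeasurableSet
      · intro a b hab x hx
        have hx' : (b : ℝ) ≤ ‖x‖ := hx
        have hab' : (a : ℝ) ≤ b := Nat.cast_le.mpr hab
        exact hab'.trans hx'
      · exact ⟨0, measure_ne_top _ _⟩
    have hemp : (⋂ n : ℕ, {x : V → ℝ | (n : ℝ) ≤ ‖x‖}) = ∅ := by
      rw [eq_empty_iff_forall_notMem]
      intro x hx
      rw [mem_iInter] at hx
      obtain ⟨n, hn⟩ := exists_nat_gt ‖x‖
      exact absurd (hx n) (not_le.mpr hn)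
    rw [hemp, measure_empty] at hlim
    exact (hlim.eventually (gt_mem_nhds hpos)).exists
  obtain ⟨n, hn⟩ := htail
  have hfar : ∀ x : V → ℝ, 2 * n + ‖x₀‖ + r ≤ ‖x‖ → ρ x < c₁ := by
    intro x hx
    by_contra hcx
    push Not at hcx
    have h2 : ν (Metric.ball ((1 / 2 : ℝ) • x₀ + (1 / 2 : ℝ) • x) (r / 2)) ≤
        ν {x | (n : ℝ) ≤ ‖x‖} := by
      apply measure_mono
      intro w hw
      rw [mem_ball_iff_norm] at hw
      have h3 : ‖(1 / 2 : ℝ) • x‖ = ‖x‖ / 2 := by
        rw [norm_smul, Real.norm_of_nonneg (by norm_num : (0 : ℝ) ≤ 1 / 2)]; ring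
      have h4 : ‖(1 / 2 : ℝ) • x₀‖ = ‖x₀‖ / 2 := by
        rw [norm_smul, Real.norm_of_nonneg (by norm_num : (0 : ℝ) ≤ 1 / 2)]; ring
      have h5 : (1 / 2 : ℝ) • x = w - (w - ((1 / 2 : ℝ) • x₀ + (1 / 2 : ℝ) • x)) -
          (1 / 2 : ℝ) • x₀ := by abel
      have h6 : ‖(1 / 2 : ℝ) • x‖ ≤ ‖w‖ + ‖w - ((1 / 2 : ℝ) • x₀ + (1 / 2 : ℝ) • x)‖ +
          ‖(1 / 2 : ℝ) • x₀‖ := by
        conv_lhs => rw [h5]
        exact (norm_sub_le _ _).trans (add_le_add_left (norm_sub_le _ _) _)
      change (n : ℝ) ≤ ‖w‖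
      linarith
    have h3 : ENNReal.ofReal (Real.sqrt (c * c₁)) * v ≤ ENNReal.ofReal (Real.sqrt (c * ρ x)) * v :=
      mul_le_mul_left (ENNReal.ofReal_le_ofReal
        (Real.sqrt_le_sqrt (mul_le_mul_of_nonneg_left hcx hc.le))) v
    exact absurd (h3.trans ((hmid x).trans h2)) (not_le.mpr hn)
  -- conclusion
  set R : ℝ := 2 * n + ‖x₀‖ + r + ‖x₀‖ with hR
  have hRp : 0 < R := by positivity
  have hdec : ∀ x : V → ℝ, ρ x ≤ max c (M * Real.exp 1) * Real.exp (-(‖x - x₀‖ / R)) := by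
    intro x
    set s := ‖x - x₀‖ with hs
    rcases lt_or_ge s R with hsR | hsR
    · have h2 : Real.exp (-1) ≤ Real.exp (-(s / R)) := by
        apply Real.exp_le_exp.mpr
        have : s / R ≤ 1 := (div_le_one hRp).mpr hsR.le
        linarith
      have h3 : ρ x ≤ (M * Real.exp 1) * Real.exp (-1) := by
        rw [mul_assoc, ← Real.exp_add]
        simpa using hMb x
      refine h3.trans (mul_le_mul (le_max_right _ _) h2 (Real.exp_nonneg _) ?_)
      exact hc.le.trans (le_max_left _ _)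
    · have hsp : 0 < s := lt_of_lt_of_le hRp hsR
      refine le_trans ?_ (mul_le_mul_of_nonneg_right (le_max_left _ _) (Real.exp_nonneg _))
      set l : ℝ := R / s with hl
      have hlp : 0 < l := div_pos hRp hsp
      have hl1 : l ≤ 1 := (div_le_one hsp).mpr hsR
      rcases (hρ.nn x).eq_or_lt with hx0 | hx0
      · rw [← hx0]; positivity
      -- the point at distance `R`
      have hy : ρ ((1 - l) • x₀ + l • x) < c₁ := by
        apply hfar
        have h2 : (1 - l) • x₀ + l • x = l • (x - x₀) + x₀ := by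
          rw [sub_smul, smul_sub, one_smul]; abel
        have h3 : ‖l • (x - x₀)‖ = R := by
          rw [norm_smul, Real.norm_of_nonneg hlp.le, ← hs, hl]
          field_simp
        have h4 : ‖l • (x - x₀)‖ ≤ ‖l • (x - x₀) + x₀‖ + ‖x₀‖ := by
          have := norm_sub_le (l • (x - x₀) + x₀) x₀
          rwa [add_sub_cancel_right] at this
        rw [h2]
        rw [h3] at h4
        linarith
      have hx₀c : c < ρ x₀ := hball x₀ (Metric.mem_ball_self hr)
      have hkey : c ^ (1 - l) * ρ x ^ l ≤ c₁ := by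
        rcases hl1.eq_or_lt with hl2 | hl2
        · rw [hl2] at hy ⊢
          simp only [sub_self, zero_smul, one_smul, zero_add] at hy
          rw [sub_self, Real.rpow_zero, Real.rpow_one, one_mul]
          exact hy.le
        · refine le_trans ?_ hy.le
          refine le_trans ?_ (hρ.lc x₀ x (1 - l) l (by linarith) hlp (by ring))
          exact mul_le_mul_of_nonneg_right (Real.rpow_le_rpow hc.le hx₀c.le (by linarith))
            (Real.rpow_nonneg (hρ.nn x) _)
      have hlog : (1 - l) * Real.log c + l * Real.log (ρ x) ≤ Real.log c + -1 := by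
        have h2 := Real.log_le_log (by positivity) hkey
        rw [Real.log_mul (by positivity) (by positivity), Real.log_rpow hc, Real.log_rpow hx0,
          hc₁, Real.log_mul hc.ne' (Real.exp_pos _).ne', Real.log_exp] at h2
        exact h2
      have hlog2 : Real.log (ρ x) ≤ Real.log c + -(s / R) := by
        have h3 : l * (Real.log (ρ x) - Real.log c) ≤ -1 := by linarith
        have h4 : Real.log (ρ x) - Real.log c ≤ -1 / l := by
          rw [le_div_iff₀ hlp]; linarith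
        have h5 : -1 / l = -(s / R) := by
          rw [hl]; field_simp
        linarith
      calc ρ x = Real.exp (Real.log (ρ x)) := (Real.exp_log hx0).symm
        _ ≤ Real.exp (Real.log c + -(s / R)) := Real.exp_le_exp.mpr hlog2
        _ = c * Real.exp (-(s / R)) := by rw [Real.exp_add, Real.exp_log hc]
  refine ⟨max c (M * Real.exp 1) * Real.exp (‖x₀‖ / R), 1 / R, ?_, by positivity, fun x => ?_⟩
  · have : 0 < max c (M * Real.exp 1) := lt_of_lt_of_le hc (le_max_left _ _)
    positivity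
  · refine (hdec x).trans ?_
    rw [mul_assoc, ← Real.exp_add]
    refine mul_le_mul_of_nonneg_left (Real.exp_le_exp.mpr ?_) (hc.le.trans (le_max_left _ _))
    have h2 : ‖x‖ ≤ ‖x - x₀‖ + ‖x₀‖ := by
      have := norm_add_le (x - x₀) x₀
      rwa [sub_add_cancel] at this
    have h3 : ‖x‖ / R ≤ ‖x - x₀‖ / R + ‖x₀‖ / R := by
      rw [← add_div]
      exact div_le_div_of_nonneg_right h2 hRp.le
    have h4 : 1 / R * ‖x‖ = ‖x‖ / R := by ring
    rw [h4]
    linarith

end

end Pool.Agent.Lib.MP_6d896a_gt.FP
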