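import Mathlib
import Pool.Agent.Lib.MP_6d896a_gt.Ex14
import Pool.Agent.Lib.MP_6d896a_gt.FP.ShadDefs
import Pool.Agent.Lib.MP_6d896a_gt.FP.ExpDecay

/-!
The lift of a log-concave density to the epigraph of its potential: geometry and marginals.
The exponential decay of integrable log-concave functions is a hypothesis `hdec` here.
-/

set_option autoImplicit false

namespace Pool.Agent.Lib.MP_6d896a_gt.FP

open MeasureTheory ProbabilityTheory Set Filter
open scoped ENNReal Topology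

/-! ### normalised marginals -/

section nrm

variable {E F : Type*} [MeasureSpace E] [MeasureSpace F] [SFinite (volume : Measure E)]
  [SFinite (volume : Measure F)]

/-- marginal of a normalised measure -/
lemma nrm_fst {f : E × F → ℝ≥0∞} (hf : Measurable f) :
    ((∫⁻ z, f z)⁻¹ • (volume : Measure (E × F)).withDensity f).map Prod.fst =
      (∫⁻ x, ∫⁻ y, f (x, y))⁻¹ • (volume : Measure E).withDensity (fun x => ∫⁻ y, f (x, y)) := by
  have h1 : ∫⁻ z, f z = ∫⁻ x, ∫⁻ y, f (x, y) := lintegral_prod _ hf.aemeasurable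
  rw [Measure.map_smul, h1]
  congr 1
  ext s hs
  rw [Measure.map_apply measurable_fst hs, withDensity_apply _ (measurable_fst hs),
    withDensity_apply _ hs]
  rw [← lintegral_indicator (measurable_fst hs), ← lintegral_indicator hs]
  have h2 : Measurable ((Prod.fst ⁻¹' s).indicator f) := hf.indicator (measurable_fst hs)
  have h3 : ∫⁻ z, (Prod.fst ⁻¹' s).indicator f z =
      ∫⁻ x, ∫⁻ y, (Prod.fst ⁻¹' s).indicator f (x, y) := lintegral_prod _ h2.aemeasurable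
  rw [h3]
  refine lintegral_congr fun x => ?_
  by_cases hx : x ∈ s
  · simp [indicator, hx]
  · simp [indicator, hx]

lemma nrm_snd {f : E × F → ℝ≥0∞} (hf : Measurable f) :
    ((∫⁻ z, f z)⁻¹ • (volume : Measure (E × F)).withDensity f).map Prod.snd =
      (∫⁻ y, ∫⁻ x, f (x, y))⁻¹ • (volume : Measure F).withDensity (fun y => ∫⁻ x, f (x, y)) := by
  have h1 : ∫⁻ z, f z = ∫⁻ y, ∫⁻ x, f (x, y) := lintegral_prod_symm' _ hf
  rw [Measure.map_smul, h1]
  congr 1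
  ext s hs
  rw [Measure.map_apply measurable_snd hs, withDensity_apply _ (measurable_snd hs),
    withDensity_apply _ hs]
  rw [← lintegral_indicator (measurable_snd hs), ← lintegral_indicator hs]
  have h2 : Measurable ((Prod.snd ⁻¹' s).indicator f) := hf.indicator (measurable_snd hs)
  have h3 : ∫⁻ z, (Prod.snd ⁻¹' s).indicator f z =
      ∫⁻ y, ∫⁻ x, (Prod.snd ⁻¹' s).indicator f (x, y) := lintegral_prod_symm' _ h2
  rw [h3]
  refine lintegral_congr fun x => ?_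
  by_cases hx : x ∈ s
  · simp [indicator, hx]
  · simp [indicator, hx]

end nrm

/-! ### elementary integrals -/

/-- layer cake for the exponential weight -/
lemma lint_exp_layer {c : ℝ} (hc : 0 ≤ c) :
    ∫⁻ s : ℝ, {s : ℝ | Real.exp (-s) < c}.indicator (fun s => ENNReal.ofReal (Real.exp (-s))) s =
      ENNReal.ofReal c := by
  rcases hc.eq_or_lt with rfl | h0
  · have : {s : ℝ | Real.exp (-s) < 0} = ∅ := by
      ext s
      simp [(Real.exp_pos (-s)).le]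
    simp [this]
  · have h1 : {s : ℝ | Real.exp (-s) < c} = Ioi (-Real.log c) := by
      ext s
      rw [mem_ofPred_eq, mem_Ioi, ← Real.lt_log_iff_exp_lt h0]
      constructor <;> intro h <;> linarith
    rw [h1, lintegral_indicator measurableSet_Ioi]
    have h2 : IntegrableOn (fun s : ℝ => Real.exp (-s)) (Ioi (-Real.log c)) := by
      have := exp_neg_integrableOn_Ioi (-Real.log c) one_pos
      simpa using this
    rw [← ofReal_integral_eq_lintegral_ofReal h2 (ae_of_all _ fun s => (Real.exp_pos _).le),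
      integral_exp_neg_Ioi, neg_neg, Real.exp_log h0]

/-- `exp (- b |x|)` is integrable -/
lemma integrable_exp_norm {E : Type*} [NormedAddCommGroup E] [NormedSpace ℝ E] [MeasureSpace E]
    [BorelSpace E] [FiniteDimensional ℝ E] [(volume : Measure E).IsAddHaarMeasure] {b : ℝ}
    (hb : 0 < b) : Integrable (fun x : E => Real.exp (-(b * ‖x‖))) := by
  set N := Module.finrank ℝ E + 1 with hN
  have hint : Integrable (fun x : E => (1 + ‖x‖) ^ (-(N : ℝ))) :=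
    integrable_one_add_norm (by rw [hN]; push_cast; linarith)
  refine (hint.const_mul (N.factorial / b ^ N * Real.exp b)).mono' ?_
    (Eventually.of_forall fun x => ?_)
  · exact (Real.continuous_exp.comp (continuous_const.mul continuous_norm).neg).aestronglyMeasurable
  · have h0 : 0 < 1 + ‖x‖ := by positivity
    rw [Real.norm_of_nonneg (by positivity), Real.rpow_neg h0.le, Real.rpow_natCast]
    have h3 : 0 < (1 + ‖x‖) ^ N := by positivity
    rw [← div_eq_mul_inv, le_div_iff₀ h3]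
    have h4 := Real.pow_div_factorial_le_exp (b * (1 + ‖x‖)) (by positivity) N
    have h5 : (1 + ‖x‖) ^ N ≤ N.factorial / b ^ N * Real.exp (b * (1 + ‖x‖)) := by
      have hb' : 0 < b ^ N := by positivity
      have hf : (0 : ℝ) < N.factorial := by positivity
      rw [div_le_iff₀ hf, mul_pow] at h4
      rw [div_mul_eq_mul_div, le_div_iff₀ hb']
      linarith
    calc Real.exp (-(b * ‖x‖)) * (1 + ‖x‖) ^ N
        ≤ Real.exp (-(b * ‖x‖)) * (N.factorial / b ^ N * Real.exp (b * (1 + ‖x‖))) := by gcongr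
      _ = N.factorial / b ^ N * (Real.exp (-(b * ‖x‖)) * Real.exp (b * (1 + ‖x‖))) := by ring
      _ = N.factorial / b ^ N * Real.exp b := by
        rw [← Real.exp_add]
        congr 2
        ring

section main

variable {W : Type} [Fintype W] {ρ : ℝ × (W → ℝ) → ℝ}

/-- exponential decay transfers to a product with the line -/
lemma decay_prod (hρ : LCd ρ) (h0 : ∫⁻ x, ENNReal.ofReal (ρ x) ≠ 0) (h1 : ∫⁻ x, ENNReal.ofReal (ρ x) ≠ ∞) :
    ∃ A b : ℝ, 0 < A ∧ 0 < b ∧ ∀ x, ρ x ≤ A * Real.exp (-(b * ‖x‖)) := by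
  have hh : (volume : Measure (ℝ × (W → ℝ))).IsAddHaarMeasure :=
    Measure.prod.instIsAddHaarMeasure volume volume
  let e0 : (Unit ⊕ W → ℝ) ≃L[ℝ] (ℝ × (W → ℝ)) := ContinuousLinearEquiv.ofFinrankEq (by
    simp [add_comm])
  obtain ⟨k0, k1⟩ := EX.lint_lin_ne e0 h0 h1
  have hl : LCd (fun x => ρ (e0 x)) := by
    have := EX.LCd.lin (e0 : (Unit ⊕ W → ℝ) →L[ℝ] (ℝ × (W → ℝ))) 0 hρ
    simpa using this
  obtain ⟨A, b, hA, hb, H⟩ := exp_decay hl k0 k1
  have hM : 0 < ‖(e0 : (Unit ⊕ W → ℝ) →L[ℝ] (ℝ × (W → ℝ)))‖ + 1 := by positivity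
  set M := ‖(e0 : (Unit ⊕ W → ℝ) →L[ℝ] (ℝ × (W → ℝ)))‖ + 1 with hMdef
  refine ⟨A, b / M, hA, by positivity, fun x => ?_⟩
  have h2 := H (e0.symm x)
  rw [ContinuousLinearEquiv.apply_symm_apply] at h2
  refine h2.trans (mul_le_mul_of_nonneg_left (Real.exp_le_exp.2 ?_) hA.le)
  have h3 : ‖x‖ ≤ M * ‖e0.symm x‖ := by
    have h4 := (e0 : (Unit ⊕ W → ℝ) →L[ℝ] (ℝ × (W → ℝ))).le_opNorm (e0.symm x)
    have h5 : (e0 : (Unit ⊕ W → ℝ) →L[ℝ] (ℝ × (W → ℝ))) (e0.symm x) = x := by simp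
    rw [h5] at h4
    nlinarith [norm_nonneg (e0.symm x)]
  have h4 : b / M * ‖x‖ ≤ b * ‖e0.symm x‖ := by
    rw [div_mul_eq_mul_div, div_le_iff₀ hM]
    nlinarith
  linarith

/-! ### the shadow -/

lemma shad_set (x : W → ℝ) : ρ '' (Prod.snd ⁻¹' {x}) = range fun y => ρ (y, x) := by
  ext t
  constructor
  · rintro ⟨⟨y, x'⟩, hx, rfl⟩
    simp only [mem_preimage, mem_singleton_iff] at hx
    exact ⟨y, by rw [hx]⟩
  · rintro ⟨y, rfl⟩
    exact ⟨(y, x), by simp, rfl⟩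

variable (hdec : ∃ A b : ℝ, 0 < A ∧ 0 < b ∧ ∀ x, ρ x ≤ A * Real.exp (-(b * ‖x‖)))

include hdec

lemma shad_bdd (x : W → ℝ) : BddAbove (range fun y => ρ (y, x)) := by
  obtain ⟨A, b, hA, hb, H⟩ := hdec
  refine ⟨A, ?_⟩
  rintro _ ⟨y, rfl⟩
  refine (H (y, x)).trans ?_
  have : Real.exp (-(b * ‖(y, x)‖)) ≤ 1 := by
    rw [Real.exp_le_one_iff]
    have := norm_nonneg (y, x)
    nlinarith
  nlinarith

lemma lt_shad_iff (x : W → ℝ) (c : ℝ) : c < shad Prod.snd ρ x ↔ ∃ y, c < ρ (y, x) := by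
  unfold shad
  rw [shad_set, lt_csSup_iff (shad_bdd hdec x) (range_nonempty _)]
  simp

lemma le_shad (y : ℝ) (x : W → ℝ) : ρ (y, x) ≤ shad Prod.snd ρ x := by
  by_contra h
  push Not at h
  have := (lt_shad_iff hdec x (shad Prod.snd ρ x)).2 ⟨y, h⟩
  exact lt_irrefl _ this

omit hdec in
lemma shad_nn (hρ : LCd ρ) (x : W → ℝ) : 0 ≤ shad Prod.snd ρ x := by
  refine Real.sSup_nonneg ?_
  rintro _ ⟨y, -, rfl⟩
  exact hρ.nn y

lemma shad_le : ∃ A b : ℝ, 0 < A ∧ 0 < b ∧ ∀ x, shad Prod.snd ρ x ≤ A * Real.exp (-(b * ‖x‖)) := by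
  obtain ⟨A, b, hA, hb, H⟩ := hdec
  refine ⟨A, b, hA, hb, fun x => ?_⟩
  unfold shad
  rw [shad_set]
  refine csSup_le (range_nonempty _) ?_
  rintro _ ⟨y, rfl⟩
  refine (H (y, x)).trans (mul_le_mul_of_nonneg_left (Real.exp_le_exp.2 ?_) hA.le)
  have : ‖x‖ ≤ ‖(y, x)‖ := norm_snd_le (y, x)
  nlinarith

lemma shad_lsc (hl : LowerSemicontinuous ρ) :
    LowerSemicontinuous (shad (Prod.snd : ℝ × (W → ℝ) → _) ρ) := by
  rw [lowerSemicontinuous_iff_isOpen_preimage]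
  intro c
  have h1 : shad (Prod.snd : ℝ × (W → ℝ) → _) ρ ⁻¹' Ioi c = Prod.snd '' (ρ ⁻¹' Ioi c) := by
    ext x
    rw [mem_preimage, mem_Ioi, lt_shad_iff hdec]
    constructor
    · rintro ⟨y, hy⟩
      exact ⟨(y, x), hy, rfl⟩
    · rintro ⟨⟨y, x'⟩, hy, rfl⟩
      exact ⟨y, hy⟩
  rw [h1]
  exact isOpenMap_snd _ (hl.isOpen_preimage c)

lemma shad_lc (hρ : LCd ρ) (x x' : W → ℝ) (a b : ℝ) (ha : 0 < a) (hb : 0 < b) (hab : a + b = 1) :
    shad Prod.snd ρ x ^ a * shad Prod.snd ρ x' ^ b ≤ shad Prod.snd ρ (a • x + b • x') := by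
  by_contra hlt
  push Not at hlt
  set S := shad Prod.snd ρ x with hS
  set S' := shad Prod.snd ρ x' with hS'
  set M := shad Prod.snd ρ (a • x + b • x') with hM
  have hM0 : 0 ≤ M := shad_nn hρ _
  have hS0 : 0 ≤ S := shad_nn hρ _
  have hS0' : 0 ≤ S' := shad_nn hρ _
  have hpos : 0 < S ^ a * S' ^ b := lt_of_le_of_lt hM0 hlt
  have hSp : 0 < S := by
    rcases hS0.eq_or_lt with h | h
    · rw [← h, Real.zero_rpow ha.ne', zero_mul] at hpos
      exact absurd hpos (lt_irrefl _)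
    · exact h
  have hSp' : 0 < S' := by
    rcases hS0'.eq_or_lt with h | h
    · rw [← h, Real.zero_rpow hb.ne', mul_zero] at hpos
      exact absurd hpos (lt_irrefl _)
    · exact h
  obtain ⟨t, ht1, ht2⟩ := exists_between ((div_lt_one hpos).2 hlt)
  have ht0 : 0 < t := lt_of_le_of_lt (by positivity) ht1
  obtain ⟨y, hy⟩ := (lt_shad_iff hdec x (t * S)).1 (by rw [← hS]; nlinarith)
  obtain ⟨y', hy'⟩ := (lt_shad_iff hdec x' (t * S')).1 (by rw [← hS']; nlinarith)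
  have h1 : ρ (y, x) ^ a * ρ (y', x') ^ b ≤ M := by
    refine (hρ.lc (y, x) (y', x') a b ha hb hab).trans ?_
    have : a • (y, x) + b • (y', x') = (a • y + b • y', a • x + b • x') := by
      simp [Prod.ext_iff]
    rw [this]
    exact le_shad hdec _ _
  have h2 : (t * S) ^ a * (t * S') ^ b ≤ ρ (y, x) ^ a * ρ (y', x') ^ b := by
    have e1 : (t * S) ^ a ≤ ρ (y, x) ^ a := Real.rpow_le_rpow (by positivity) hy.le ha.le
    have e2 : (t * S') ^ b ≤ ρ (y', x') ^ b := Real.rpow_le_rpow (by positivity) hy'.le hb.le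
    exact mul_le_mul e1 e2 (by positivity) (Real.rpow_nonneg (hρ.nn _) _)
  have h3 : (t * S) ^ a * (t * S') ^ b = t * (S ^ a * S' ^ b) := by
    rw [Real.mul_rpow ht0.le hS0, Real.mul_rpow ht0.le hS0']
    have : t ^ a * t ^ b = t := by rw [← Real.rpow_add ht0, hab, Real.rpow_one]
    calc t ^ a * S ^ a * (t ^ b * S' ^ b) = (t ^ a * t ^ b) * (S ^ a * S' ^ b) := by ring
      _ = _ := by rw [this]
  rw [div_lt_iff₀ hpos] at ht1
  linarith

lemma shad_LCd (hρ : LCd ρ) (hl : LowerSemicontinuous ρ) : LCd (shad Prod.snd ρ) :=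
  ⟨shad_nn hρ, (shad_lsc hdec hl).measurable, shad_lc hdec hρ⟩

lemma shad_ne_top : ∫⁻ x, ENNReal.ofReal (shad Prod.snd ρ x) ≠ ∞ := by
  obtain ⟨A, b, hA, hb, H⟩ := shad_le hdec
  have h1 : ∫⁻ x : W → ℝ, ENNReal.ofReal (shad Prod.snd ρ x) ≤
      ∫⁻ x : W → ℝ, ENNReal.ofReal (A * Real.exp (-(b * ‖x‖))) :=
    lintegral_mono fun x => ENNReal.ofReal_le_ofReal (H x)
  have h2 : Integrable (fun x : W → ℝ => A * Real.exp (-(b * ‖x‖))) :=
    (integrable_exp_norm hb).const_mul A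
  exact ne_top_of_le_ne_top h2.lintegral_lt_top.ne h1

lemma shad_ne_zero (hρ : LCd ρ) (hl : LowerSemicontinuous ρ)
    (h0 : ∫⁻ x, ENNReal.ofReal (ρ x) ≠ 0) :
    ∫⁻ x, ENNReal.ofReal (shad Prod.snd ρ x) ≠ 0 := by
  intro h
  apply h0
  have hm : Measurable (shad (Prod.snd : ℝ × (W → ℝ) → _) ρ) := (shad_lsc hdec hl).measurable
  rw [lintegral_eq_zero_iff hm.ennreal_ofReal] at h
  have h2 : ∫⁻ z, ENNReal.ofReal (ρ z) = ∫⁻ x, ∫⁻ y, ENNReal.ofReal (ρ (y, x)) :=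
    lintegral_prod_symm' _ hρ.ms.ennreal_ofReal
  rw [h2, lintegral_eq_zero_iff hρ.ms.ennreal_ofReal.lintegral_prod_left']
  filter_upwards [h] with x hx
  have hx' : shad Prod.snd ρ x ≤ 0 := ENNReal.ofReal_eq_zero.1 hx
  have : ∀ y, ENNReal.ofReal (ρ (y, x)) = 0 := fun y =>
    ENNReal.ofReal_eq_zero.2 ((le_shad hdec y x).trans hx')
  simp [this]

/-! ### the epigraph -/

omit hdec in
lemma epi_open (hl : LowerSemicontinuous ρ) : IsOpen (epi ρ) := by
  have h1 : LowerSemicontinuous (fun q : ℝ × ((W → ℝ) × ℝ) => ρ (q.1, q.2.1)) :=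
    hl.comp (by fun_prop)
  have h2 : LowerSemicontinuous (fun q : ℝ × ((W → ℝ) × ℝ) => -Real.exp (-q.2.2)) :=
    Continuous.lowerSemicontinuous (by fun_prop)
  have h3 := (h1.add h2).isOpen_preimage 0
  convert h3 using 1
  ext q
  simp only [epi, mem_ofPred_eq, mem_preimage, mem_Ioi]
  constructor <;> intro h <;> linarith

omit hdec in
lemma exp_comb (s t a b : ℝ) : Real.exp (-(a * s + b * t)) =
    Real.exp (-s) ^ a * Real.exp (-t) ^ b := by
  rw [← Real.exp_mul, ← Real.exp_mul, ← Real.exp_add]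
  congr 1
  ring

omit hdec in
lemma epi_convex (hρ : LCd ρ) : Convex ℝ (epi ρ) := by
  rw [convex_iff_forall_pos]
  intro p hp q hq a b ha hb hab
  simp only [epi, mem_ofPred_eq] at hp hq ⊢
  have h1 := hρ.lc (p.1, p.2.1) (q.1, q.2.1) a b ha hb hab
  have h2 : a • (p.1, p.2.1) + b • (q.1, q.2.1) =
      ((a • p + b • q).1, (a • p + b • q).2.1) := by
    simp [Prod.ext_iff]
  rw [h2] at h1
  refine lt_of_lt_of_le ?_ h1
  have h3 : (a • p + b • q).2.2 = a * p.2.2 + b * q.2.2 := by simp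
  rw [h3, exp_comb]
  have e1 : Real.exp (-p.2.2) ^ a < ρ (p.1, p.2.1) ^ a :=
    Real.rpow_lt_rpow (Real.exp_pos _).le hp ha
  have e2 : Real.exp (-q.2.2) ^ b < ρ (q.1, q.2.1) ^ b :=
    Real.rpow_lt_rpow (Real.exp_pos _).le hq hb
  exact mul_lt_mul'' e1 e2 (by positivity) (by positivity)

lemma epi_fin (z : (W → ℝ) × ℝ) : (volume : Measure ℝ) {y | (y, z) ∈ epi ρ} ≠ ∞ := by
  obtain ⟨A, b, hA, hb, H⟩ := hdec
  set R := (|Real.log A| + |z.2|) / b with hR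
  have h1 : {y | (y, z) ∈ epi ρ} ⊆ Icc (-R) R := by
    intro y hy
    simp only [epi, mem_ofPred_eq] at hy
    have h2 := hy.trans_le (H (y, z.1))
    have h3 : |y| ≤ R := by
      have h4 : |y| ≤ ‖(y, z.1)‖ := norm_fst_le (y, z.1)
      rw [← Real.exp_log hA, ← Real.exp_add, Real.exp_lt_exp] at h2
      rw [hR, le_div_iff₀ hb]
      have h5 := le_abs_self (Real.log A)
      have h6 := neg_abs_le z.2
      have h7 := le_abs_self z.2
      nlinarith
    exact abs_le.1 h3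
  exact ne_top_of_le_ne_top measure_Icc_lt_top.ne (measure_mono h1)

lemma mem_snd_epi (z : (W → ℝ) × ℝ) :
    z ∈ Prod.snd '' epi ρ ↔ Real.exp (-z.2) < shad Prod.snd ρ z.1 := by
  rw [lt_shad_iff hdec]
  constructor
  · rintro ⟨⟨y, z'⟩, hy, rfl⟩
    exact ⟨y, hy⟩
  · rintro ⟨y, hy⟩
    exact ⟨(y, z), hy, rfl⟩

omit hdec in
lemma epr_LCd (hρ : LCd ρ) (hl : LowerSemicontinuous ρ) : LCd (epr ρ) := by
  have ho : IsOpen (Prod.snd '' epi ρ) := isOpenMap_snd _ (epi_open hl)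
  have hc : Convex ℝ (Prod.snd '' epi ρ) := by
    have := (epi_convex hρ).linear_image (LinearMap.snd ℝ ℝ ((W → ℝ) × ℝ))
    simpa using this
  refine ⟨fun z => ?_, ?_, ?_⟩
  · exact indicator_nonneg (fun z _ => (Real.exp_pos _).le) z
  · exact Measurable.indicator (by fun_prop) ho.measurableSet
  · intro z w a b ha hb hab
    unfold epr
    by_cases hz : z ∈ Prod.snd '' epi ρ
    · by_cases hw : w ∈ Prod.snd '' epi ρ
      · have h1 : a • z + b • w ∈ Prod.snd '' epi ρ := hc hz hw ha.le hb.le hab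
        rw [indicator_of_mem hz, indicator_of_mem hw, indicator_of_mem h1]
        have h3 : (a • z + b • w).2 = a * z.2 + b * w.2 := by simp
        rw [h3, exp_comb]
      · rw [indicator_of_notMem hw, Real.zero_rpow hb.ne', mul_zero]
        exact indicator_nonneg (fun z _ => (Real.exp_pos _).le) _
    · rw [indicator_of_notMem hz, Real.zero_rpow ha.ne', zero_mul]
      exact indicator_nonneg (fun z _ => (Real.exp_pos _).le) _

lemma epr_lint (hρ : LCd ρ) (x : W → ℝ) :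
    ∫⁻ s : ℝ, ENNReal.ofReal (epr ρ (x, s)) = ENNReal.ofReal (shad Prod.snd ρ x) := by
  rw [← lint_exp_layer (shad_nn hρ x)]
  refine lintegral_congr fun s => ?_
  unfold epr
  have h1 := mem_snd_epi hdec (x, s)
  by_cases h : Real.exp (-s) < shad Prod.snd ρ x
  · rw [indicator_of_mem (h1.2 h), indicator_of_mem (by exact h)]
  · rw [indicator_of_notMem (fun h' => h (h1.1 h')), indicator_of_notMem (by exact h)]
    simp

lemma epr_len (z : (W → ℝ) × ℝ) :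
    ENNReal.ofReal (epr ρ z * len (epi ρ) z) =
      ENNReal.ofReal (Real.exp (-z.2)) * (volume : Measure ℝ) {y | (y, z) ∈ epi ρ} := by
  unfold epr len
  by_cases hz : z ∈ Prod.snd '' epi ρ
  · rw [indicator_of_mem hz, ENNReal.ofReal_mul (Real.exp_pos _).le,
      ENNReal.ofReal_toReal (epi_fin hdec z)]
  · rw [indicator_of_notMem hz, zero_mul, ENNReal.ofReal_zero]
    have : {y | (y, z) ∈ epi ρ} = ∅ := by
      ext y
      simp only [mem_ofPred_eq, mem_empty_iff_false, iff_false]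
      exact fun h => hz ⟨(y, z), h, rfl⟩
    rw [this, measure_empty, mul_zero]

lemma epr_len_lint (hρ : LCd ρ) (hl : LowerSemicontinuous ρ) (x : W → ℝ) :
    ∫⁻ s : ℝ, ENNReal.ofReal (epr ρ (x, s) * len (epi ρ) (x, s)) =
      ∫⁻ y : ℝ, ENNReal.ofReal (ρ (y, x)) := by
  have ho : IsOpen {p : ℝ × ℝ | (p.2, (x, p.1)) ∈ epi ρ} :=
    (epi_open hl).preimage (by fun_prop : Continuous fun p : ℝ × ℝ => (p.2, (x, p.1)))
  have hm : Measurable ({p : ℝ × ℝ | (p.2, (x, p.1)) ∈ epi ρ}.indicator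
      (fun p => ENNReal.ofReal (Real.exp (-p.1)))) :=
    Measurable.indicator (by fun_prop) ho.measurableSet
  have h1 : ∀ s : ℝ, ENNReal.ofReal (epr ρ (x, s) * len (epi ρ) (x, s)) =
      ∫⁻ y : ℝ, {p : ℝ × ℝ | (p.2, (x, p.1)) ∈ epi ρ}.indicator
        (fun p => ENNReal.ofReal (Real.exp (-p.1))) (s, y) := by
    intro s
    rw [epr_len hdec]
    have h2 : MeasurableSet {y | (y, (x, s)) ∈ epi ρ} :=
      ((epi_open hl).preimage (by fun_prop : Continuous fun y : ℝ => (y, (x, s)))).measurableSet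
    have h3 : (fun y : ℝ => {p : ℝ × ℝ | (p.2, (x, p.1)) ∈ epi ρ}.indicator
        (fun p => ENNReal.ofReal (Real.exp (-p.1))) (s, y)) =
        {y | (y, (x, s)) ∈ epi ρ}.indicator (fun _ => ENNReal.ofReal (Real.exp (-s))) := by
      funext y
      simp [indicator]
    rw [h3, lintegral_indicator h2, lintegral_const, Measure.restrict_apply_univ]
  have h4 : ∫⁻ s : ℝ, ∫⁻ y : ℝ, {p : ℝ × ℝ | (p.2, (x, p.1)) ∈ epi ρ}.indicator
        (fun p => ENNReal.ofReal (Real.exp (-p.1))) (s, y) =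
      ∫⁻ y : ℝ, ∫⁻ s : ℝ, {p : ℝ × ℝ | (p.2, (x, p.1)) ∈ epi ρ}.indicator
        (fun p => ENNReal.ofReal (Real.exp (-p.1))) (s, y) :=
    lintegral_lintegral_swap (f := fun s y => {p : ℝ × ℝ | (p.2, (x, p.1)) ∈ epi ρ}.indicator
        (fun p => ENNReal.ofReal (Real.exp (-p.1))) (s, y)) (by exact hm.aemeasurable)
  simp_rw [h1]
  rw [h4]
  refine lintegral_congr fun y => ?_
  rw [← lint_exp_layer (hρ.nn (y, x))]
  refine lintegral_congr fun s => ?_
  by_cases h : Real.exp (-s) < ρ (y, x)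
  · rw [indicator_of_mem (by exact h), indicator_of_mem (by exact h)]
  · rw [indicator_of_notMem (by exact h), indicator_of_notMem (by exact h)]

lemma epr_len_meas (hl : LowerSemicontinuous ρ) :
    Measurable (fun z => ENNReal.ofReal (epr ρ z * len (epi ρ) z)) := by
  simp_rw [epr_len hdec]
  refine Measurable.mul (by fun_prop) ?_
  exact measurable_measure_prodMk_right (epi_open hl).measurableSet

theorem epi_geom' (hρ : LCd ρ) (hl : LowerSemicontinuous ρ)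
    (h0 : ∫⁻ x, ENNReal.ofReal (ρ x) ≠ 0) (h1 : ∫⁻ x, ENNReal.ofReal (ρ x) ≠ ∞) :
    IsOpen (epi ρ) ∧ Convex ℝ (epi ρ) ∧
    (∀ z : (W → ℝ) × ℝ, (volume : Measure ℝ) {y | (y, z) ∈ epi ρ} ≠ ∞) ∧
    LCd (epr ρ) ∧ ∫⁻ z, ENNReal.ofReal (epr ρ z) ≠ 0 ∧ ∫⁻ z, ENNReal.ofReal (epr ρ z) ≠ ∞ ∧
    ∫⁻ z, ENNReal.ofReal (epr ρ z * len (epi ρ) z) ≠ ∞ := by
  have hL := epr_LCd hρ hl
  have h2 : ∫⁻ z, ENNReal.ofReal (epr ρ z) = ∫⁻ x, ENNReal.ofReal (shad Prod.snd ρ x) := by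
    have : ∫⁻ z, ENNReal.ofReal (epr ρ z) = ∫⁻ x, ∫⁻ s, ENNReal.ofReal (epr ρ (x, s)) :=
      lintegral_prod _ hL.ms.ennreal_ofReal.aemeasurable
    rw [this]
    exact lintegral_congr fun x => epr_lint hdec hρ x
  have h3 : ∫⁻ z, ENNReal.ofReal (epr ρ z * len (epi ρ) z) = ∫⁻ z, ENNReal.ofReal (ρ z) := by
    have e1 : ∫⁻ z, ENNReal.ofReal (epr ρ z * len (epi ρ) z) =
        ∫⁻ x, ∫⁻ s, ENNReal.ofReal (epr ρ (x, s) * len (epi ρ) (x, s)) :=
      lintegral_prod _ (epr_len_meas hdec hl).aemeasurable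
    have e2 : ∫⁻ z, ENNReal.ofReal (ρ z) = ∫⁻ x, ∫⁻ y, ENNReal.ofReal (ρ (y, x)) :=
      lintegral_prod_symm' _ hρ.ms.ennreal_ofReal
    rw [e1, e2]
    exact lintegral_congr fun x => epr_len_lint hdec hρ hl x
  refine ⟨epi_open hl, epi_convex hρ, epi_fin hdec, hL, ?_, ?_, ?_⟩
  · rw [h2]; exact shad_ne_zero hdec hρ hl h0
  · rw [h2]; exact shad_ne_top hdec
  · rw [h3]; exact h1

theorem epi_marg' (hρ : LCd ρ) (hl : LowerSemicontinuous ρ) :
    (dens (epr ρ)).map Prod.fst = dens (shad Prod.snd ρ) ∧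
    (dens (fun z => epr ρ z * len (epi ρ) z)).map Prod.fst = (dens ρ).map Prod.snd := by
  have hL := epr_LCd hρ hl
  constructor
  · unfold dens
    have h1 := nrm_fst hL.ms.ennreal_ofReal
    refine h1.trans ?_
    simp_rw [epr_lint hdec hρ]
  · unfold dens
    have h1 := nrm_fst (epr_len_meas hdec hl)
    have h2 := nrm_snd hρ.ms.ennreal_ofReal
    refine h1.trans (Eq.trans ?_ h2.symm)
    simp_rw [epr_len_lint hdec hρ hl]

theorem shad_snd' (hρ : LCd ρ) (hl : LowerSemicontinuous ρ)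
    (h0 : ∫⁻ x, ENNReal.ofReal (ρ x) ≠ 0) :
    LCd (shad Prod.snd ρ) ∧ LowerSemicontinuous (shad (Prod.snd : ℝ × (W → ℝ) → _) ρ) ∧
    ∫⁻ x, ENNReal.ofReal (shad Prod.snd ρ x) ≠ 0 ∧
    ∫⁻ x, ENNReal.ofReal (shad Prod.snd ρ x) ≠ ∞ :=
  ⟨shad_LCd hdec hρ hl, shad_lsc hdec hl, shad_ne_zero hdec hρ hl h0, shad_ne_top hdec⟩

end main

section final

variable {W : Type} [Fintype W] {ρ : ℝ × (W → ℝ) → ℝ}

/-- C2: geometry of the lift -/
theorem epi_geom (hρ : LCd ρ) (hl : LowerSemicontinuous ρ)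
    (h0 : ∫⁻ x, ENNReal.ofReal (ρ x) ≠ 0) (h1 : ∫⁻ x, ENNReal.ofReal (ρ x) ≠ ∞) :
    IsOpen (epi ρ) ∧ Convex ℝ (epi ρ) ∧
    (∀ z : (W → ℝ) × ℝ, (volume : Measure ℝ) {y | (y, z) ∈ epi ρ} ≠ ∞) ∧
    LCd (epr ρ) ∧ ∫⁻ z, ENNReal.ofReal (epr ρ z) ≠ 0 ∧ ∫⁻ z, ENNReal.ofReal (epr ρ z) ≠ ∞ ∧
    ∫⁻ z, ENNReal.ofReal (epr ρ z * len (epi ρ) z) ≠ ∞ :=
  epi_geom' (decay_prod hρ h0 h1) hρ hl h0 h1

/-- C3: the marginals of the lift -/
theorem epi_marg (hρ : LCd ρ) (hl : LowerSemicontinuous ρ)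
    (h0 : ∫⁻ x, ENNReal.ofReal (ρ x) ≠ 0) (h1 : ∫⁻ x, ENNReal.ofReal (ρ x) ≠ ∞) :
    (dens (epr ρ)).map Prod.fst = dens (shad Prod.snd ρ) ∧
    (dens (fun z => epr ρ z * len (epi ρ) z)).map Prod.fst = (dens ρ).map Prod.snd :=
  epi_marg' (decay_prod hρ h0 h1) hρ hl

/-- C4: regularity of the shadow -/
theorem shad_snd (hρ : LCd ρ) (hl : LowerSemicontinuous ρ)
    (h0 : ∫⁻ x, ENNReal.ofReal (ρ x) ≠ 0) (h1 : ∫⁻ x, ENNReal.ofReal (ρ x) ≠ ∞) :
    LCd (shad Prod.snd ρ) ∧ LowerSemicontinuous (shad (Prod.snd : ℝ × (W → ℝ) → _) ρ) ∧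
    ∫⁻ x, ENNReal.ofReal (shad Prod.snd ρ x) ≠ 0 ∧
    ∫⁻ x, ENNReal.ofReal (shad Prod.snd ρ x) ≠ ∞ :=
  shad_snd' (decay_prod hρ h0 h1) hρ hl h0

end final

end Pool.Agent.Lib.MP_6d896a_gt.FP
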