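import Mathlib
import Pool.Agent.Lib.MP_6d896a_gt.FP.ExtStepOf
import Pool.Agent.Lib.MP_6d896a_gt.FP.EM
import Pool.Agent.Lib.MP_6d896a_gt.FP.LVExt

set_option autoImplicit false

namespace Pool.Agent.Lib.MP_6d896a_gt.FP

/-- P6 -/
theorem ext_step : ∃ C : ℝ, 1 ≤ C ∧ ExtStep C := ext_step_of em lv_ext

end Pool.Agent.Lib.MP_6d896a_gt.FP
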