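import Mathlib
import Pool.Agent.Lib.MP_6d896a_gt.FP.ForestFinal
import Pool.Agent.Lib.MP_6d896a_gt.FP.Whiten
import Pool.Agent.Lib.MP_6d896a_gt.FP.EM

/-!
The fibre principle in isoperimetric form.
-/

set_option autoImplicit false

namespace Pool.Agent.Lib.MP_6d896a_gt.FP

open MeasureTheory ProbabilityTheory Set Filter
open scoped ENNReal Topology

/-- the Kannan-Lovasz-Simonovits inequality with constant `κ` for all linear images of `μ` -/
def KLSC {E : Type*} [AddCommGroup E] [Module ℝ E] [MeasurableSpace E] (μ : Measure E)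
    (κ : ℝ) : Prop :=
  ∀ (n : ℕ) (T : E →ₗ[ℝ] EuclideanSpace ℝ (Fin n)) (s : ℝ), 0 < s →
    (∀ θ : EuclideanSpace ℝ (Fin n), ‖θ‖ = 1 →
      ProbabilityTheory.variance (fun x => inner ℝ x θ) (μ.map T) ≤ s) →
    ∀ S : Set (EuclideanSpace ℝ (Fin n)), MeasurableSet S →
      ENNReal.ofReal (κ / Real.sqrt s) * min (μ.map T S) (μ.map T Sᶜ) ≤
        Filter.liminf
          (fun ε : ℝ => (μ.map T (Metric.thickening ε S) - μ.map T S) / ENNReal.ofReal ε)
          (nhdsWithin 0 (Set.Ioi 0))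

/-- statement of the Cheeger inequality -/
def CheegerStat : Prop := ∀ {n : ℕ} (ν : Measure (EuclideanSpace ℝ (Fin n)))
    [IsProbabilityMeasure ν] (_ : Integrable (fun x => ‖x‖ ^ 2) ν) {κ : ℝ} (_ : 0 < κ)
    (_ : ∀ S : Set (EuclideanSpace ℝ (Fin n)), MeasurableSet S →
      ENNReal.ofReal κ * min (ν S) (ν Sᶜ) ≤
        Filter.liminf (fun ε : ℝ => (ν (Metric.thickening ε S) - ν S) / ENNReal.ofReal ε)
          (𝓝[>] 0))
    (f : EuclideanSpace ℝ (Fin n) → ℝ) (_ : ContDiff ℝ 1 f)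
    (_ : ∃ l : ℝ, ∀ x, ‖fderiv ℝ f x‖ ≤ l),
    Var[f; ν] ≤ 4 / κ ^ 2 * ∫ x, ‖fderiv ℝ f x‖ ^ 2 ∂ν

lemma dens_nondeg {E : Type} [NormedAddCommGroup E] [NormedSpace ℝ E] [MeasureSpace E]
    [BorelSpace E] [FiniteDimensional ℝ E] [(volume : Measure E).IsAddHaarMeasure] {ρ : E → ℝ}
    (hρ : LCd ρ) (h0 : ∫⁻ x, ENNReal.ofReal (ρ x) ≠ 0) (h1 : ∫⁻ x, ENNReal.ofReal (ρ x) ≠ ∞)
    (ℓ : E →L[ℝ] ℝ) (hv : Var[fun x => ℓ x; dens ρ] = 0) : ℓ = 0 := by
  have hprob := dens_prob h0 h1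
  have hpl := hρ.plm h0 h1
  by_contra hne
  have h2 := ae_eq_integral_of_variance_eq_zero (hpl.memLp_functional ℓ) hv
  set c := ∫ x, ℓ x ∂(dens ρ) with hc
  have hac : dens ρ ≪ (volume : Measure E) := by
    unfold dens
    exact (withDensity_absolutelyContinuous _ _).smul_left _
  have hker : (LinearMap.ker (ℓ : E →ₗ[ℝ] ℝ)) ≠ ⊤ := by
    intro h2
    apply hne
    ext x
    have : x ∈ LinearMap.ker (ℓ : E →ₗ[ℝ] ℝ) := h2 ▸ Submodule.mem_top
    simpa using this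
  have hnull : (volume : Measure E) {x | ℓ x = c} = 0 := by
    rcases (({x | ℓ x = c} : Set E)).eq_empty_or_nonempty with he | ⟨a, ha⟩
    · rw [he]; exact measure_empty
    · have h3 := Measure.addHaar_submodule (volume : Measure E) _ hker
      have h4 : ({x | ℓ x = c} : Set E) =
          (fun x => x + (-a)) ⁻¹' (LinearMap.ker (ℓ : E →ₗ[ℝ] ℝ) : Set E) := by
        ext x
        simp only [mem_ofPred_eq, mem_preimage, SetLike.mem_coe, LinearMap.mem_ker]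
        have ha' : ℓ a = c := ha
        change ℓ x = c ↔ ℓ (x + -a) = 0
        rw [map_add, map_neg, ha']
        constructor
        · intro h; rw [h]; ring
        · intro h; linarith
      rw [h4, measure_preimage_add_right]
      exact h3
  have h4 := hac hnull
  have h5 : (dens ρ) {x | ℓ x = c}ᶜ = 0 := by
    rw [← mem_ae_iff]
    exact h2
  have h6 : (dens ρ) univ = 0 := by
    rw [← union_compl_self {x | ℓ x = c}]
    exact measure_union_null h4 h5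
  rw [measure_univ] at h6
  exact one_ne_zero h6

/-- isoperimetry of all linear images implies the affine invariant Poincare inequality -/
lemma ap_of_klsc (hch : CheegerStat) {E : Type} [NormedAddCommGroup E] [NormedSpace ℝ E]
    [MeasureSpace E] [BorelSpace E] [FiniteDimensional ℝ E]
    [(volume : Measure E).IsAddHaarMeasure] {ρ : E → ℝ}
    (hρ : LCd ρ) (h0 : ∫⁻ x, ENNReal.ofReal (ρ x) ≠ 0) (h1 : ∫⁻ x, ENNReal.ofReal (ρ x) ≠ ∞)
    {κ : ℝ} (hκ : 0 < κ) (h : KLSC (dens ρ) κ) : AP (dens ρ) (4 / κ ^ 2) := by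
  have hprob := dens_prob h0 h1
  have hpl := hρ.plm h0 h1
  obtain ⟨T, hT⟩ := whiten (dens ρ) (fun ℓ => hpl.memLp_functional ℓ)
    (fun ℓ hℓ => dens_nondeg hρ h0 h1 ℓ hℓ)
  have hTm : Measurable (T.symm : E → EuclideanSpace ℝ (Fin (Module.finrank ℝ E))) :=
    T.symm.continuous.measurable
  have hpm : IsProbabilityMeasure ((dens ρ).map T.symm) :=
    Measure.isProbabilityMeasure_map hTm.aemeasurable
  refine ap_of_poinc T hT fun f hf hl => ?_
  have hpl2 : PLm ((dens ρ).map T.symm) :=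
    hpl.map (T.symm : E →ₗ[ℝ] EuclideanSpace ℝ (Fin (Module.finrank ℝ E))) hTm
  refine hch ((dens ρ).map T.symm) ?_ hκ ?_ f hf hl
  · exact hpl2.sq_integrable
  · intro S hS
    have := h (Module.finrank ℝ E) (T.symm : E →ₗ[ℝ] EuclideanSpace ℝ (Fin (Module.finrank ℝ E)))
      1 one_pos (fun θ hθ => ?_) S hS
    · simpa using this
    · have e1 : (dens ρ).map
          (T.symm : E →ₗ[ℝ] EuclideanSpace ℝ (Fin (Module.finrank ℝ E))) =
          (dens ρ).map T.symm := rfl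
      rw [e1, variance_map (by fun_prop) hTm.aemeasurable]
      have e2 : (fun x => inner ℝ x θ :
          EuclideanSpace ℝ (Fin (Module.finrank ℝ E)) → ℝ) ∘ T.symm =
          fun x => ((innerSL ℝ θ).comp
            (T.symm : E →L[ℝ] EuclideanSpace ℝ (Fin (Module.finrank ℝ E)))) x := by
        funext x
        simp [real_inner_comm]
      rw [e2, hT]
      have e3 : ((innerSL ℝ θ).comp
            (T.symm : E →L[ℝ] EuclideanSpace ℝ (Fin (Module.finrank ℝ E)))).comp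
            (T : EuclideanSpace ℝ (Fin (Module.finrank ℝ E)) →L[ℝ] E) = innerSL ℝ θ := by
        ext x
        simp
      rw [e3, innerSL_apply_norm, hθ]
      norm_num

/-- the fibre principle in isoperimetric form -/
theorem fibre_cheeger_of (hch : CheegerStat) (hfib : ∃ C : ℝ, 1 ≤ C ∧ FibreStat C) :
    ∃ c : ℝ, 0 < c ∧ ∀ (n : ℕ) (ρ : ℝ × (Fin n → ℝ) → ℝ),
      (∀ p, 0 ≤ ρ p) → Measurable ρ →
      (∀ p q (a b : ℝ), 0 < a → 0 < b → a + b = 1 → ρ p ^ a * ρ q ^ b ≤ ρ (a • p + b • q)) →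
      ∫⁻ p, ENNReal.ofReal (ρ p) = 1 →
      ∀ κ : ℝ, 0 < κ → κ ≤ 1 →
      (∀ y, ∫⁻ x, ENNReal.ofReal (ρ (y, x)) ≠ 0 → ∫⁻ x, ENNReal.ofReal (ρ (y, x)) ≠ ∞ →
        KLSC (dens (fun x => ρ (y, x))) κ) →
      KLSC ((volume : Measure (ℝ × (Fin n → ℝ))).withDensity
        (fun p => ENNReal.ofReal (ρ p))) (c * κ) := by
  obtain ⟨C₀, hC₀, hfib⟩ := hfib
  obtain ⟨C₁, hC₁, himg⟩ := cheeger_image
  have hC₀' : 0 < C₀ := by linarith
  refine ⟨C₁ / (2 * Real.sqrt C₀), by positivity, ?_⟩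
  intro n ρ hn hm hlc h1 κ hκ hκ1 hK
  have hρ : LCd ρ := ⟨hn, hm, hlc⟩
  have hne : ∫⁻ x, ENNReal.ofReal (ρ x) ≠ 0 := by rw [h1]; exact one_ne_zero
  have hnt : ∫⁻ x, ENNReal.ofReal (ρ x) ≠ ∞ := by rw [h1]; exact ENNReal.one_ne_top
  have hprob := dens_prob hne hnt
  have hK1 : 1 ≤ 4 / κ ^ 2 := by
    rw [le_div_iff₀ (by positivity)]
    nlinarith
  have hh := haar_prod' (F := Fin n → ℝ)
  have hAP : AP (dens ρ) (C₀ * (4 / κ ^ 2)) := by
    refine hfib (Fin n) ρ hρ h1 (4 / κ ^ 2) hK1 fun y hy => ?_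
    by_cases hy2 : ∫⁻ x, ENNReal.ofReal (ρ (y, x)) = ∞
    · rw [dens_top hy2]
      exact AP.zero _
    · exact ap_of_klsc hch (hρ.slice y) hy hy2 hκ (hK y hy hy2)
  rw [← dens_of_one h1]
  intro m T s hs hvar S hS
  have key := himg (ℝ × (Fin n → ℝ)) (dens ρ) (hρ.plm hne hnt) (C₀ * (4 / κ ^ 2))
    (by nlinarith) hAP m T s hs hvar S hS
  have e : C₁ / (2 * Real.sqrt C₀) * κ / Real.sqrt s =
      C₁ / Real.sqrt (C₀ * (4 / κ ^ 2) * s) := by
    have e1 : C₀ * (4 / κ ^ 2) * s = (2 * Real.sqrt C₀ / κ * Real.sqrt s) ^ 2 := by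
      rw [mul_pow, Real.sq_sqrt hs.le, div_pow, mul_pow, Real.sq_sqrt hC₀'.le]
      ring
    have hq : 0 < Real.sqrt C₀ := Real.sqrt_pos.mpr hC₀'
    have hqs : 0 < Real.sqrt s := Real.sqrt_pos.mpr hs
    rw [e1, Real.sqrt_sq (by positivity)]
    field_simp
  rw [e]
  exact key

end Pool.Agent.Lib.MP_6d896a_gt.FP
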