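import Mathlib
import Pool.Agent.Lib.MP_6d896a_gt.FP.ApproxFib
import Pool.Agent.Lib.MP_6d896a_gt.FP.ExtStepJ

/-!
The fibre principle where only the fibres over a given interval of almost full mass are assumed
to satisfy the Poincare inequality.
-/

set_option autoImplicit false

namespace Pool.Agent.Lib.MP_6d896a_gt.FP

open MeasureTheory ProbabilityTheory Set Filter
open scoped ENNReal Topology

open AF in
/-- shrinking a given interval into the interior of the support of the marginal -/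
lemma exists_intervalJ {W : Type} [Fintype W] {ρ : ℝ × (W → ℝ) → ℝ} (hρ : LCd ρ)
    (h1 : ∫⁻ p, ENNReal.ofReal (ρ p) = 1) {η₁ η₂ : ℝ} (h₂ : 0 < η₂) (h12 : η₁ + η₂ < 1)
    {α β : ℝ} (hm : (dens ρ).real {p | p.1 ∉ Icc α β} ≤ η₁) :
    ∃ α' β' : ℝ, α' ≤ β' ∧ Icc α' β' ⊆ Icc α β ∧ Icc α' β' ⊆ interior {y | mg ρ y ≠ 0} ∧
      (dens ρ).real {p | p.1 ∉ Icc α' β'} ≤ η₁ + η₂ := by
  have hprob : IsProbabilityMeasure (dens ρ) := dens_prob (by rw [h1]; simp) (by rw [h1]; simp)
  obtain ⟨a, b, hab, hJ, hmass⟩ := exists_interval hρ h1 h₂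
  have hI : Icc (max α a) (min β b) = Icc α β ∩ Icc a b := by
    rw [Icc_inter_Icc]
  have hle : (dens ρ).real {p | p.1 ∉ Icc (max α a) (min β b)} ≤ η₁ + η₂ := by
    have hsub : {p : ℝ × (W → ℝ) | p.1 ∉ Icc (max α a) (min β b)} ⊆
        {p | p.1 ∉ Icc α β} ∪ {p | p.1 ∉ Icc a b} := by
      intro p hp
      rw [hI] at hp
      simp only [mem_union, mem_ofPred_eq]
      by_contra hcon
      push Not at hcon
      exact hp ⟨hcon.1, hcon.2⟩
    calc _ ≤ (dens ρ).real ({p | p.1 ∉ Icc α β} ∪ {p | p.1 ∉ Icc a b}) :=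
          measureReal_mono hsub
      _ ≤ _ := measureReal_union_le _ _
      _ ≤ _ := add_le_add hm hmass
  refine ⟨max α a, min β b, ?_, ?_, ?_, hle⟩
  · by_contra hcon
    push Not at hcon
    have h3 : {p : ℝ × (W → ℝ) | p.1 ∉ Icc (max α a) (min β b)} = univ := by
      rw [Icc_eq_empty (not_le.mpr hcon)]
      simp
    rw [h3, probReal_univ] at hle
    linarith
  · rw [hI]; exact inter_subset_left
  · rw [hI]; exact inter_subset_right.trans hJ

open AF in
/-- nice approximation of a log-concave density on `ℝ × (W → ℝ)` with control of all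
conditional measures over a given interval inside the support of the marginal -/
theorem approx_fibJ {W : Type} [Fintype W] {ρ : ℝ × (W → ℝ) → ℝ} (hρ : LCd ρ)
    (h1 : ∫⁻ p, ENNReal.ofReal (ρ p) = 1) {η : ℝ} (hη : 0 < η)
    {α β : ℝ} (hαβ : α ≤ β) (hJ : Icc α β ⊆ interior {y | mg ρ y ≠ 0})
    (hmass : (dens ρ).real {p | p.1 ∉ Icc α β} ≤ η / 2) :
      ∃ (φ : ℝ → ℕ → ℝ × (W → ℝ) → ℝ), (∀ ε N, 0 < ε → Nice (φ ε N)) ∧
        (∃ ε₀ : ℝ, 0 < ε₀ ∧ ∀ ε, 0 < ε → ε < ε₀ → ∃ N₀ : ℕ, ∀ N, N₀ ≤ N →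
          (gibbs (φ ε N)).real {p | p.1 ∉ Icc α β} ≤ η ∧
          ∀ y ∈ Icc α β, ∀ S : Set (W → ℝ), MeasurableSet S →
            |(dens (fun x => ρ (y, x))).real S - (gibbs (fun x => φ ε N (y, x))).real S| ≤ η) ∧
        (∀ K : ℝ, (∃ ε₀ : ℝ, 0 < ε₀ ∧ ∀ ε, 0 < ε → ε < ε₀ → ∃ N₀ : ℕ, ∀ N, N₀ ≤ N →
          AP (gibbs (φ ε N)) K) → AP (dens ρ) K) := by
  have hSc : Convex ℝ {p | 0 < ρ p} := by
    intro x hx y hy a b ha hb hab
    rcases ha.eq_or_lt with rfl | ha'
    · have : b = 1 := by linarith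
      subst this; simpa using hy
    rcases hb.eq_or_lt with rfl | hb'
    · have : a = 1 := by linarith
      subst this; simpa using hx
    have := hρ.lc x y a b ha' hb' hab
    exact lt_of_lt_of_le (mul_pos (Real.rpow_pos_of_pos hx _) (Real.rpow_pos_of_pos hy _)) this
  have hfr0 : (volume : Measure (ℝ × (W → ℝ))) (frontier {p | 0 < ρ p}) = 0 :=
    hSc.addHaar_frontier _
  have hfr : ∀ᵐ p, p ∉ frontier {p | 0 < ρ p} := measure_eq_zero_iff_ae_notMem.mp hfr0
  have hne : (interior {p | 0 < ρ p}).Nonempty := by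
    by_contra hcon
    rw [not_nonempty_iff_eq_empty] at hcon
    have h2 : ∀ᵐ p, ENNReal.ofReal (ρ p) = 0 := by
      filter_upwards [hfr] with p hp
      rw [ENNReal.ofReal_eq_zero]
      by_contra hpos
      push Not at hpos
      exact hp ⟨subset_closure hpos, by rw [hcon]; exact notMem_empty _⟩
    rw [lintegral_congr_ae h2] at h1
    simp at h1
  obtain ⟨l, c, hmaj, -⟩ := exists_seq_aux hρ.nn hρ.lc hne
  have hm : Maj ρ l c := hmaj
  have hρi : Integrable ρ := by
    refine ⟨hρ.ms.aestronglyMeasurable, ?_⟩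
    rw [hasFiniteIntegral_iff_ofReal (ae_of_all _ hρ.nn), h1]
    exact ENNReal.one_lt_top
  have hρ1 : ∫ p, ρ p = 1 := by
    rw [integral_eq_lintegral_of_nonneg_ae (ae_of_all _ hρ.nn) hρ.ms.aestronglyMeasurable, h1]
    rfl
  have hI : ∫⁻ y, mg ρ y ≠ ∞ := by
    rw [← lint_mg hρ.ms, h1]; exact ENNReal.one_ne_top
  have hrdi : ∀ ε, 0 < ε → Integrable (rd ρ ε) := fun ε hε =>
    hρi.mono' (rd_LCd hρ hε.le).ms.aestronglyMeasurable (ae_of_all _ fun p => by
      rw [Real.norm_of_nonneg ((rd_LCd hρ hε.le).nn _)]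
      exact rd_le hρ hε.le _)
  have hrdpos : ∀ ε, 0 < ε → 0 < ∫ p, rd ρ ε p := by
    intro ε hε
    rw [integral_pos_iff_support_of_nonneg (rd_LCd hρ hε.le).nn (hrdi ε hε)]
    have e : Function.support (rd ρ ε) = Function.support ρ := by
      ext x
      simp [rd, Real.exp_ne_zero]
    rw [e, ← integral_pos_iff_support_of_nonneg hρ.nn hρi, hρ1]
    exact one_pos
  have hJ0 : ∀ y ∈ Icc α β, mg ρ y ≠ 0 := fun y hy => interior_subset (hJ hy)
  have hJt : ∀ y ∈ Icc α β, mg ρ y ≠ ∞ := fun y hy => mg_ne_top hρ hI (hJ hy)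
  have hcont : ContinuousOn (fun y => (mg ρ y).toReal) (Icc α β) :=
    (mg_cont hρ isOpen_interior (mg_convex hρ).interior (fun y hy => interior_subset hy)
      (fun y hy => mg_ne_top hρ hI hy)).mono hJ
  obtain ⟨y₀, hy₀, hmin⟩ := isCompact_Icc.exists_isMinOn (nonempty_Icc.mpr hαβ) hcont
  set A₀ := (mg ρ y₀).toReal with hA₀
  have hA₀pos : 0 < A₀ := ENNReal.toReal_pos (hJ0 y₀ hy₀) (hJt y₀ hy₀)
  have hAle : ∀ y ∈ Icc α β, A₀ ≤ (mg ρ y).toReal := fun y hy => hmin hy
  refine ⟨bpot l c, fun ε N hε => bpot_nice l c hε N, ?_, ?_⟩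
  · -- closeness
    set δ := η / 6 * A₀ with hδ
    have hδ0 : 0 < δ := by positivity
    obtain ⟨ε₁, hε₁, H1⟩ := unif_rd hρ hI hJ hδ0
    obtain ⟨ε₂, hε₂, H2⟩ := glob_rd hρ hρi (δ := η / 12) (by positivity)
    refine ⟨min ε₁ ε₂, lt_min hε₁ hε₂, fun ε hε hεm => ?_⟩
    obtain ⟨N₁, hN₁⟩ := hm.unif hρ hne hI hJ hε hδ0
    obtain ⟨N₂, hN₂⟩ := hm.glob hρ hε (δ := η / 12) (by positivity) hfr
    refine ⟨max N₁ N₂, fun N hN => ⟨?_, ?_⟩⟩
    · -- mass
      have g1 := H2 ε hε (hεm.trans_le (min_le_right _ _))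
      obtain ⟨g2, g3⟩ := hN₂ N (le_trans (le_max_right _ _) hN)
      have hnice := bpot_nice l c hε N
      have hb := l1_bound (κ := 1 / ((N : ℝ) + 1)) hρi (hrdi ε hε) (gd_integrable l c hε N)
        hnice.integrable_exp (fun p => rd_le hρ hε.le p) (by
          filter_upwards [hfr] with p hp
          exact hm.rd_le_gd hρ ε N hp) (fun p => exp_neg_bpot_le_gd l c ε N p)
        (fun p => gd_sub_le l c ε N p)
      have hpos : 0 < ∫ p, Real.exp (-bpot l c ε N p) := by
        rw [integral_pos_iff_support_of_nonneg (fun p => (Real.exp_pos _).le)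
          hnice.integrable_exp]
        have e : Function.support (fun p => Real.exp (-bpot l c ε N p)) = univ := by
          ext x
          simp [Real.exp_ne_zero]
        rw [e]
        exact isOpen_univ.measure_pos (volume : Measure (ℝ × (W → ℝ))) univ_nonempty
      have hSm : MeasurableSet {p : ℝ × (W → ℝ) | p.1 ∉ Icc α β} :=
        measurable_fst measurableSet_Icc.compl
      have htv := tv_dens (a := ρ) (b := fun p => Real.exp (-bpot l c ε N p)) (δ := η / 4)
        hρ.nn (fun p => (Real.exp_pos _).le) hρi hnice.integrable_exp (by rw [hρ1]; exact one_pos)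
        hpos (by rw [hρ1, mul_one]; linarith) hSm
      have h5 : (dens (fun p => Real.exp (-bpot l c ε N p))).real
          {p : ℝ × (W → ℝ) | p.1 ∉ Icc α β} ≤ η := by
        have := abs_le.mp htv
        linarith
      exact h5
    · -- slices
      intro y hy S hS
      have g1 := H1 ε hε (hεm.trans_le (min_le_left _ _)) y hy
      obtain ⟨g2, g3⟩ := hN₁ N (le_trans (le_max_left _ _) hN) y hy
      have hnice := (bpot_nice l c hε N).slice y
      have hrL := rd_LCd hρ hε.le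
      have hrt : mg (rd ρ ε) y ≠ ∞ :=
        ne_top_of_le_ne_top (hJt y hy) (mg_mono (rd_le hρ hε.le) y)
      have hb := l1_bound (κ := 1 / ((N : ℝ) + 1)) (mg_int hρ.nn hρ.ms (hJt y hy))
        (mg_int hrL.nn hrL.ms hrt)
        (mg_int (fun p => (gd_pos l c ε N p).le) (gd_cont l c ε N).measurable
          (mg_gd_ne_top l c hε N y))
        hnice.integrable_exp (fun x => rd_le hρ hε.le (y, x)) (by
          filter_upwards [ae_slice hρ hne (hJ hy)] with x hx
          exact hm.rd_le_gd hρ ε N hx) (fun x => exp_neg_bpot_le_gd l c ε N (y, x))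
        (fun x => gd_sub_le l c ε N (y, x))
      rw [mg_toReal hρ.nn hρ.ms, mg_toReal hrL.nn hrL.ms] at g1
      rw [mg_toReal (fun p => (gd_pos l c ε N p).le) (gd_cont l c ε N).measurable] at g2 g3
      rw [mg_toReal hrL.nn hrL.ms] at g2
      have hA := hAle y hy
      rw [mg_toReal hρ.nn hρ.ms] at hA
      have hpos : 0 < ∫ x, Real.exp (-bpot l c ε N (y, x)) := by
        rw [integral_pos_iff_support_of_nonneg (fun p => (Real.exp_pos _).le)
          hnice.integrable_exp]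
        have e : Function.support (fun x => Real.exp (-bpot l c ε N (y, x))) = univ := by
          ext x
          simp [Real.exp_ne_zero]
        rw [e]
        exact isOpen_univ.measure_pos (volume : Measure (W → ℝ)) univ_nonempty
      have htv := tv_dens (a := fun x => ρ (y, x))
        (b := fun x => Real.exp (-bpot l c ε N (y, x))) (δ := η / 2)
        (fun x => hρ.nn _) (fun p => (Real.exp_pos _).le) (mg_int hρ.nn hρ.ms (hJt y hy))
        hnice.integrable_exp (by linarith) hpos (by nlinarith) hS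
      have h5 : |(dens (fun x => ρ (y, x))).real S -
          (dens (fun x => Real.exp (-bpot l c ε N (y, x)))).real S| ≤ η := by linarith
      exact h5
  · -- limits
    rintro K ⟨ε₀, hε₀, H⟩
    have hstep : ∀ ε, 0 < ε → ε < ε₀ → AP (dens (rd ρ ε)) K := by
      intro ε hε hεm
      obtain ⟨N₀, hN₀⟩ := H ε hε hεm
      refine AP_limit_gen (p := fun k p => Real.exp (-bpot l c ε (k + N₀) p))
        (P := gd l c ε 0) (fun k p => (Real.exp_pos _).le) (fun k => ?_)
        (rd_LCd hρ hε.le).nn (rd_LCd hρ hε.le).ms (fun k => ae_of_all _ fun p => ?_) ?_ ?_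
        (hrdpos ε hε) (fun k => ?_)
      · exact (Real.continuous_exp.comp (bpot_nice l c hε (k + N₀)).continuous.neg).measurable
      · exact (exp_neg_bpot_le_gd l c ε _ p).trans (gd_anti l c ε p (Nat.zero_le _))
      · have := (bpot_nice l c hε 0).integrable_pow 2
        refine this.congr (ae_of_all _ fun p => ?_)
        simp only [gd_zero]
      · filter_upwards [hfr] with p hp
        exact (hm.softm_tendsto hρ ε hp).comp (tendsto_add_atTop_nat N₀)
      · exact hN₀ (k + N₀) (Nat.le_add_left _ _)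
    refine AP_limit_gen (p := fun k => rd ρ (ε₀ / ((k : ℝ) + 2))) (P := ρ)
      (fun k p => (rd_LCd hρ (by positivity)).nn p) (fun k => (rd_LCd hρ (by positivity)).ms)
      hρ.nn hρ.ms (fun k => ae_of_all _ fun p => rd_le hρ (by positivity) p)
      (second_int hρ h1) (ae_of_all _ fun p => ?_) (by rw [hρ1]; exact one_pos) (fun k => ?_)
    · have h2 : Tendsto (fun k : ℕ => ε₀ / ((k : ℝ) + 2)) atTop (𝓝 0) := by
        refine Tendsto.div_atTop tendsto_const_nhds ?_
        exact tendsto_atTop_add_const_right _ _ tendsto_natCast_atTop_atTop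
      exact rd_tendsto ρ h2 p
    · refine hstep _ (by positivity) ?_
      rw [div_lt_iff₀ (by positivity)]
      have : (0 : ℝ) ≤ k := Nat.cast_nonneg k
      nlinarith


/-- R5: the fibre principle with fibres over an interval of almost full mass -/
theorem fibre_genJ : ∃ C : ℝ, 1 ≤ C ∧ ∃ η : ℝ, 0 < η ∧ ∀ (W : Type) [Fintype W]
    (ρ : ℝ × (W → ℝ) → ℝ), LCd ρ → ∫⁻ p, ENNReal.ofReal (ρ p) = 1 →
    ∀ α β : ℝ, (dens ρ).real {p | p.1 ∉ Icc α β} ≤ η → ∀ K : ℝ, 1 ≤ K →
    (∀ y ∈ Icc α β, ∫⁻ x, ENNReal.ofReal (ρ (y, x)) ≠ 0 → AP (dens (fun x => ρ (y, x))) K) →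
    AP (dens ρ) (C * K) := by
  obtain ⟨C₂, hC₂, η₂, hη₂, hst⟩ := ap_stable
  obtain ⟨C₃, hC₃, η₃, hη₃, hext⟩ := ext_stepJ
  set η : ℝ := min (min η₂ η₃) (1 / 2) with hη
  have hη0 : 0 < η := lt_min (lt_min hη₂ hη₃) (by norm_num)
  have hηa : η ≤ η₂ := (min_le_left _ _).trans (min_le_left _ _)
  have hηb : η ≤ η₃ := (min_le_left _ _).trans (min_le_right _ _)
  have hηc : η ≤ 1 / 2 := min_le_right _ _
  refine ⟨C₃ * C₂, by nlinarith, η / 4, by positivity, ?_⟩
  intro W _ ρ hρ h1 α₀ β₀ hm K hK hAP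
  obtain ⟨α, β, hαβ, hsub, hJ, hmass⟩ := exists_intervalJ (η₂ := η / 4) hρ h1 (by positivity)
    (by linarith) hm
  obtain ⟨φ, hnice, ⟨ε₀, hε₀, hclose⟩, hlim⟩ := approx_fibJ hρ h1 hη0 hαβ hJ (by linarith)
  have hnz : ∀ y ∈ Icc α β, ∫⁻ x, ENNReal.ofReal (ρ (y, x)) ≠ 0 := fun y hy =>
    interior_subset (hJ hy)
  refine hlim _ ⟨ε₀, hε₀, fun ε hε hε' => ?_⟩
  obtain ⟨N₀, hN₀⟩ := hclose ε hε hε'
  refine ⟨N₀, fun N hN => ?_⟩
  obtain ⟨hmass, htv⟩ := hN₀ N hN
  have hφ : Nice (φ ε N) := hnice ε N hε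
  have hfib : ∀ y ∈ Icc α β, AP (gibbs (fun x => φ ε N (y, x))) (C₂ * K) := by
    intro y hy
    have hs : Nice (fun x => φ ε N (y, x)) := hφ.slice y
    have hgp : IsProbabilityMeasure (gibbs (fun x => φ ε N (y, x))) := gibbs_prob hs
    have h0 := hnz y hy
    have hfin : ∫⁻ x, ENNReal.ofReal (ρ (y, x)) ≠ ∞ := by
      intro hinf
      have h2 := htv y hy univ MeasurableSet.univ
      have h3 : (dens (fun x => ρ (y, x))).real univ = 0 := by
        unfold dens
        rw [hinf]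
        simp
      rw [h3, probReal_univ] at h2
      norm_num at h2
      linarith
    have hmp : IsProbabilityMeasure (dens (fun x => ρ (y, x))) := dens_prob h0 hfin
    exact hst (W → ℝ) (dens (fun x => ρ (y, x))) (gibbs (fun x => φ ε N (y, x)))
      ((hρ.slice y).plm h0 hfin) hs.plm_gibbs (fun ℓ hℓ => gibbs_nondeg hs ℓ hℓ)
      (fun S hS => (htv y hy S hS).trans hηa) K hK (hAP y (hsub hy) h0)
  have hK2 : 1 ≤ C₂ * K := by nlinarith
  have := hext (W → ℝ) (φ ε N) (C₂ * K) hK2 hφ α β hαβ hfib (hmass.trans hηb)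
  rwa [← mul_assoc] at this

end Pool.Agent.Lib.MP_6d896a_gt.FP
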