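import Mathlib
import Pool.Agent.Lib.MP_6d896a_gt.FP.FibreGenJ
import Pool.Agent.Lib.MP_6d896a_gt.FP.ForestGen

/-!
The fibre principle where only the fibres with nonzero tails on both sides are assumed to satisfy
the Poincare inequality, without normalisation.
-/

set_option autoImplicit false

namespace Pool.Agent.Lib.MP_6d896a_gt.FP

open MeasureTheory ProbabilityTheory Set Filter
open scoped ENNReal Topology

/-- a probability measure without atoms on the line takes any value in `(0, 1)` on a half line -/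
lemma exists_cdf_eq (ν : Measure ℝ) [IsProbabilityMeasure ν] (hna : ∀ t, ν {t} = 0) {c : ℝ}
    (h0 : 0 < c) (h1 : c < 1) : ∃ t : ℝ, ν (Iic t) = ENNReal.ofReal c := by
  have hcont : Continuous (cdf ν) := by
    rw [continuous_iff_continuousAt]
    intro x
    rw [(cdf ν).mono.continuousAt_iff_leftLim_eq_rightLim, (cdf ν).rightLim_eq]
    have h2 : (cdf ν).measure {x} = 0 := by rw [measure_cdf]; exact hna x
    rw [StieltjesFunction.measure_singleton, ENNReal.ofReal_eq_zero] at h2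
    have h3 := (cdf ν).mono.leftLim_le (le_refl x)
    linarith
  have hbot := tendsto_cdf_atBot ν
  have htop := tendsto_cdf_atTop ν
  obtain ⟨a, ha⟩ : ∃ a, cdf ν a ≤ c := by
    obtain ⟨a, ha⟩ := (hbot.eventually (gt_mem_nhds h0)).exists
    exact ⟨a, ha.le⟩
  obtain ⟨b, hb⟩ : ∃ b, c ≤ cdf ν b := by
    obtain ⟨b, hb⟩ := (htop.eventually (lt_mem_nhds h1)).exists
    exact ⟨b, hb.le⟩
  obtain ⟨t, ht⟩ := mem_range_of_exists_le_of_exists_ge hcont ⟨a, ha⟩ ⟨b, hb⟩
  refine ⟨t, ?_⟩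
  rw [← ht, ofReal_cdf]

/-- P1: the fibre principle, fibres with nonzero tails on both sides, no normalisation -/
theorem fibre_tails : ∃ C : ℝ, 1 ≤ C ∧ ∀ (W : Type) [Fintype W]
    (ρ : ℝ × (W → ℝ) → ℝ), LCd ρ → ∀ K : ℝ, 1 ≤ K →
    (∀ y : ℝ, ∫⁻ p in {p : ℝ × (W → ℝ) | p.1 < y}, ENNReal.ofReal (ρ p) ≠ 0 →
      ∫⁻ p in {p : ℝ × (W → ℝ) | y < p.1}, ENNReal.ofReal (ρ p) ≠ 0 →
      AP (dens (fun x => ρ (y, x))) K) →
    AP (dens ρ) (C * K) := by
  obtain ⟨C, hC, η, hη, hfib⟩ := fibre_genJ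
  refine ⟨C, hC, ?_⟩
  intro W _ ρ hρ K hK hAP
  by_cases h0 : ∫⁻ p, ENNReal.ofReal (ρ p) = 0
  · have h2 : dens ρ = 0 := by
      unfold dens
      have h3 : (volume : Measure (ℝ × (W → ℝ))).withDensity (fun p => ENNReal.ofReal (ρ p)) = 0 := by
        rw [withDensity_eq_zero_iff hρ.ms.ennreal_ofReal.aemeasurable]
        exact (lintegral_eq_zero_iff hρ.ms.ennreal_ofReal).1 h0
      rw [h3, smul_zero]
    rw [h2]
    exact AP.zero _
  by_cases ht : ∫⁻ p, ENNReal.ofReal (ρ p) = ∞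
  · rw [dens_top ht]
    exact AP.zero _
  -- normalisation
  set Z : ℝ := (∫⁻ p, ENNReal.ofReal (ρ p)).toReal with hZ
  have hZ0 : 0 < Z := ENNReal.toReal_pos h0 ht
  have hc : 0 < Z⁻¹ := inv_pos.2 hZ0
  have hZe : ENNReal.ofReal Z = ∫⁻ p, ENNReal.ofReal (ρ p) := ENNReal.ofReal_toReal ht
  have h1 : LCd (fun p => Z⁻¹ * ρ p) := by
    refine ⟨fun x => mul_nonneg hc.le (hρ.nn x), hρ.ms.const_mul _, fun x y a b ha hb hab => ?_⟩
    rw [Real.mul_rpow hc.le (hρ.nn x), Real.mul_rpow hc.le (hρ.nn y)]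
    have h2 : Z⁻¹ ^ a * Z⁻¹ ^ b = Z⁻¹ := by
      rw [← Real.rpow_add hc, hab, Real.rpow_one]
    calc Z⁻¹ ^ a * ρ x ^ a * (Z⁻¹ ^ b * ρ y ^ b) = (Z⁻¹ ^ a * Z⁻¹ ^ b) * (ρ x ^ a * ρ y ^ b) := by
          ring
      _ ≤ Z⁻¹ * ρ (a • x + b • y) := by
          rw [h2]
          exact mul_le_mul_of_nonneg_left (hρ.lc x y a b ha hb hab) hc.le
  have h2 : ∫⁻ p, ENNReal.ofReal (Z⁻¹ * ρ p) = 1 := by
    simp_rw [ENNReal.ofReal_mul hc.le]
    rw [lintegral_const_mul' _ _ ENNReal.ofReal_ne_top, ENNReal.ofReal_inv_of_pos hZ0, hZe]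
    exact ENNReal.inv_mul_cancel h0 ht
  have hd : dens (fun p => Z⁻¹ * ρ p) = dens ρ := dens_const_mul hρ.ms hc
  have hprob : IsProbabilityMeasure (dens ρ) := dens_prob h0 ht
  -- the marginal
  set ν : Measure ℝ := (dens ρ).map Prod.fst with hν
  have hνp : IsProbabilityMeasure ν := Measure.isProbabilityMeasure_map measurable_fst.aemeasurable
  have hac : dens ρ ≪ (volume : Measure (ℝ × (W → ℝ))) := by
    unfold dens
    exact (withDensity_absolutelyContinuous _ _).smul_left _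
  have hna : ∀ t, ν {t} = 0 := by
    intro t
    rw [hν, Measure.map_apply measurable_fst (measurableSet_singleton t)]
    apply hac
    have h3 : (Prod.fst ⁻¹' {t} : Set (ℝ × (W → ℝ))) = {t} ×ˢ univ := by
      ext p; simp
    rw [h3, Measure.volume_eq_prod, Measure.prod_prod]
    simp
  set c : ℝ := min (η / 2) (1 / 2) with hcdef
  have hc0 : 0 < c := lt_min (by linarith) (by norm_num)
  have hc1 : c < 1 := (min_le_right _ _).trans_lt (by norm_num)
  have hcη : c ≤ η / 2 := min_le_left _ _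
  obtain ⟨α, hα⟩ := exists_cdf_eq ν hna hc0 hc1
  obtain ⟨β, hβ⟩ := exists_cdf_eq ν hna (c := 1 - c) (by linarith) (by linarith)
  have hα' : ν (Iio α) = ENNReal.ofReal c := by
    rw [← hα]
    have h3 : Iic α = Iio α ∪ {α} := by ext x; simp [le_iff_lt_or_eq]
    apply le_antisymm (measure_mono Iio_subset_Iic_self)
    rw [h3]
    refine (measure_union_le _ _).trans ?_
    rw [hna α, add_zero]
  have hβ' : ν (Ioi β) = ENNReal.ofReal c := by
    have h3 : Ioi β = (Iic β)ᶜ := by ext x; simp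
    rw [h3, prob_compl_eq_one_sub measurableSet_Iic, hβ]
    rw [show (1 : ℝ≥0∞) = ENNReal.ofReal 1 by simp, ← ENNReal.ofReal_sub _ (by linarith)]
    congr 1; ring
  have hpα : (dens ρ) {p : ℝ × (W → ℝ) | p.1 < α} = ENNReal.ofReal c := by
    rw [← hα', hν, Measure.map_apply measurable_fst measurableSet_Iio]
    rfl
  have hpβ : (dens ρ) {p : ℝ × (W → ℝ) | β < p.1} = ENNReal.ofReal c := by
    rw [← hβ', hν, Measure.map_apply measurable_fst measurableSet_Ioi]
    rfl
  have hmass : (dens ρ).real {p : ℝ × (W → ℝ) | p.1 ∉ Icc α β} ≤ η := by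
    have hsub : {p : ℝ × (W → ℝ) | p.1 ∉ Icc α β} ⊆
        {p : ℝ × (W → ℝ) | p.1 < α} ∪ {p : ℝ × (W → ℝ) | β < p.1} := by
      intro p hp
      by_contra hcon
      rw [mem_union, not_or] at hcon
      exact hp ⟨not_lt.1 hcon.1, not_lt.1 hcon.2⟩
    have e1 : (dens ρ).real {p : ℝ × (W → ℝ) | p.1 < α} = c := by
      rw [measureReal_def, hpα, ENNReal.toReal_ofReal hc0.le]
    have e2 : (dens ρ).real {p : ℝ × (W → ℝ) | β < p.1} = c := by
      rw [measureReal_def, hpβ, ENNReal.toReal_ofReal hc0.le]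
    calc _ ≤ (dens ρ).real ({p : ℝ × (W → ℝ) | p.1 < α} ∪ {p : ℝ × (W → ℝ) | β < p.1}) :=
          measureReal_mono hsub
      _ ≤ _ := measureReal_union_le _ _
      _ ≤ η := by rw [e1, e2]; linarith
  -- positive mass gives a nonzero tail
  have htail : ∀ S : Set (ℝ × (W → ℝ)), MeasurableSet S → (dens ρ) S ≠ 0 →
      ∫⁻ p in S, ENNReal.ofReal (ρ p) ≠ 0 := by
    intro S hS hne h3
    apply hne
    unfold dens
    rw [Measure.smul_apply, withDensity_apply _ hS, h3, smul_zero]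
  have hmain := hfib W (fun p => Z⁻¹ * ρ p) h1 h2 α β (by rw [hd]; exact hmass) K hK
    (fun y hy _ => by
      have e : dens (fun x => Z⁻¹ * ρ (y, x)) = dens (fun x => ρ (y, x)) :=
        dens_const_mul (hρ.ms.comp measurable_prodMk_left) hc
      rw [e]
      refine hAP y (htail _ (measurable_fst measurableSet_Iio) ?_)
        (htail _ (measurable_fst measurableSet_Ioi) ?_)
      · intro h3
        have h4 : (dens ρ) {p : ℝ × (W → ℝ) | p.1 < α} ≤ (dens ρ) {p : ℝ × (W → ℝ) | p.1 < y} :=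
          measure_mono fun p hp => lt_of_lt_of_le hp hy.1
        rw [hpα] at h4
        have h5 : ENNReal.ofReal c ≤ 0 := h4.trans h3.le
        rw [nonpos_iff_eq_zero, ENNReal.ofReal_eq_zero] at h5
        linarith
      · intro h3
        have h4 : (dens ρ) {p : ℝ × (W → ℝ) | β < p.1} ≤ (dens ρ) {p : ℝ × (W → ℝ) | y < p.1} :=
          measure_mono fun p hp => lt_of_le_of_lt hy.2 hp
        rw [hpβ] at h4
        have h5 : ENNReal.ofReal c ≤ 0 := h4.trans h3.le
        rw [nonpos_iff_eq_zero, ENNReal.ofReal_eq_zero] at h5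
        linarith)
  rwa [hd] at hmain

end Pool.Agent.Lib.MP_6d896a_gt.FP
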