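import Mathlib
import Pool.Agent.Lib.MP_6d896a_gt.FP.ForestH

/-!
Hierarchical potentials with a variable number of functionals.
-/

set_option autoImplicit false

namespace Pool.Agent.Lib.MP_6d896a_gt.FP

open MeasureTheory ProbabilityTheory Set Filter
open scoped ENNReal Topology

section rankK

lemma ap_monoK {E : Type*} [NormedAddCommGroup E] [NormedSpace ℝ E] [MeasurableSpace E]
    {μ : Measure E} {K K' : ℝ} (h : AP μ K) (hK : K ≤ K') : AP μ K' := by
  intro f hf hl
  refine (h f hf hl).trans ?_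
  exact mul_le_mul_of_nonneg_right hK (integral_nonneg fun x => variance_nonneg _ _)

variable {C : ℝ}

/-- several perturbations with a variable number of functionals -/
lemma rank_iterK (hC : 1 ≤ C) (hrank : ∀ k, RankPert (C ^ k) k) {W : Type} [Fintype W] {ι : Type}
    {Φ : (W → ℝ) → ℝ} (hΦ : Nice Φ) {ψ : ι → (W → ℝ) → ℝ} (hnc : ∀ i, NC (ψ i))
    (hcv : ∀ i, ConvexOn ℝ univ (ψ i)) (k : ι → ℕ) (b : (i : ι) → Fin (k i) → (W → ℝ) →L[ℝ] ℝ)
    (hdep : ∀ i x y, (∀ j, b i j x = b i j y) → ψ i x = ψ i y) {K : ℝ} (hK : 1 ≤ K)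
    (hAP : ∀ L : (W → ℝ) →L[ℝ] ℝ, AP (gibbs (fun x => Φ x - L x)) K) (J : Finset ι) :
    ∀ L : (W → ℝ) →L[ℝ] ℝ,
      AP (gibbs (fun x => Φ x + ∑ i ∈ J, ψ i x - L x)) (C ^ (∑ i ∈ J, k i) * K) := by
  classical
  induction J using Finset.induction_on with
  | empty =>
    intro L
    simpa using hAP L
  | insert i J hi ih =>
    intro L
    rw [Finset.sum_insert hi, pow_add, mul_assoc]
    have hnice : Nice (fun x => (Φ x + ∑ i ∈ J, ψ i x) + (-L) x) := by
      refine Nice.add_convexH (Nice.add_convexH hΦ (NC.sum _ fun i _ => hnc i) ?_) (NC.linH _) ?_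
      · refine ⟨convex_univ, fun x _ y _ s t hs ht hst => ?_⟩
        simp only [smul_eq_mul]
        rw [Finset.mul_sum, Finset.mul_sum, ← Finset.sum_add_distrib]
        exact Finset.sum_le_sum fun i _ => (hcv i).2 (mem_univ x) (mem_univ y) hs ht hst
      · refine ⟨convex_univ, fun x _ y _ s t hs ht hst => ?_⟩
        rw [map_add, map_smul, map_smul]
    have hcr : 1 ≤ C ^ (∑ i ∈ J, k i) := one_le_pow₀ hC
    have := hrank (k i) W (fun x => (Φ x + ∑ i ∈ J, ψ i x) + (-L) x) (ψ i) (b i)
      (C ^ (∑ i ∈ J, k i) * K) (by nlinarith) hnice (hnc i) (hcv i) (hdep i) (by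
        intro L'
        have h1 := ih (L + L')
        have e : (fun x => (Φ x + ∑ i ∈ J, ψ i x) + (-L) x - L' x) =
            fun x => Φ x + ∑ i ∈ J, ψ i x - (L + L') x := by
          ext x
          simp only [_root_.neg_apply, _root_.add_apply]
          ring
        rw [e]
        exact h1)
    have e : (fun x => Φ x + ∑ i ∈ insert i J, ψ i x - L x) =
        fun x => (Φ x + ∑ i ∈ J, ψ i x) + (-L) x + ψ i x := by
      ext x
      rw [Finset.sum_insert hi]
      simp only [_root_.neg_apply]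
      ring
    rw [e]
    exact this

end rankK

section treeK

/-- hierarchical data with a variable number of functionals -/
structure HDataK {V ι : Type} [Fintype V] [DecidableEq V] (anc : V → Finset V) (a : ι → V)
    (k : ι → ℕ) (B : (i : ι) → Fin (k i) → (V → ℝ) →L[ℝ] ℝ) (φ : ι → (V → ℝ) → ℝ) : Prop where
  supp : ∀ i j w, B i j (Pi.single w 1) ≠ 0 → a i ∈ anc w ∨ w ∈ anc (a i)
  nc : ∀ i, NC (φ i)
  cv : ∀ i, ConvexOn ℝ univ (φ i)
  dep : ∀ i x y, (∀ u ∈ anc (a i), x u = y u) → (∀ j, B i j x = B i j y) → φ i x = φ i y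

variable {V ι : Type} [Fintype V] [DecidableEq V] {anc : V → Finset V} {a : ι → V} {k : ι → ℕ}
    {B : (i : ι) → Fin (k i) → (V → ℝ) →L[ℝ] ℝ} {φ : ι → (V → ℝ) → ℝ}

lemma HDataK.pad [Fintype ι] (H : HDataK anc a k B φ) :
    ∃ (K : ℕ) (B' : ι → Fin K → (V → ℝ) →L[ℝ] ℝ), HData K anc a B' φ := by
  refine ⟨∑ i, k i, fun i j => if h : (j : ℕ) < k i then B i ⟨j, h⟩ else 0, ?_, H.nc, H.cv, ?_⟩
  · intro i j w hw
    by_cases h : (j : ℕ) < k i
    · rw [dif_pos h] at hw
      exact H.supp i _ w hw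
    · rw [dif_neg h] at hw
      exact absurd rfl hw
  · intro i x y h1 h2
    refine H.dep i x y h1 fun j => ?_
    have hj : (j : ℕ) < ∑ i, k i := lt_of_lt_of_le j.2
      (Finset.single_le_sum (f := k) (fun _ _ => Nat.zero_le _) (Finset.mem_univ i))
    have h3 := h2 ⟨j, hj⟩
    simp only [j.2, dif_pos] at h3
    exact h3

lemma HDataK.restrict (H : HDataK anc a k B φ) (p : V → Prop) [DecidablePred p] (b : V → ℝ) :
    HDataK (fun v : {v // p v} => (anc v).subtype p)
      (fun i : {i // p (a i)} => (⟨a i, i.2⟩ : {v // p v})) (fun i => k i.1)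
      (fun i j => (B i j).comp (extz p)) (fun i z => φ i (extz p z + b)) := by
  refine ⟨fun i j w hw => ?_, fun i => (H.nc i).compH (extz p) b,
    fun i => convexOn_compH (H.cv i) (extz p) b, fun i x y h1 h2 => ?_⟩
  · rw [ContinuousLinearMap.comp_apply, extz_single] at hw
    rcases H.supp i j w hw with h | h
    · exact Or.inl (by rw [Finset.mem_subtype]; exact h)
    · exact Or.inr (by rw [Finset.mem_subtype]; exact h)
  · apply H.dep
    · intro u hu
      simp only [Pi.add_apply]
      by_cases hp : p u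
      · rw [extz_pos x hp, extz_pos y hp, h1 ⟨u, hp⟩ (by rw [Finset.mem_subtype]; exact hu)]
      · rw [extz_neg x hp, extz_neg y hp]
    · intro j
      have := h2 j
      simp only [ContinuousLinearMap.comp_apply] at this
      rw [map_add, map_add, this]

end treeK

section mainK

/-- hierarchical statement for antisymmetric ancestor sets, several terms per vertex and a variable
number of functionals -/
def GK (C : ℝ) (n : ℕ) : Prop := ∀ (V ι : Type) [Fintype V] [DecidableEq V] [Fintype ι]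
  [DecidableEq ι] (anc : V → Finset V) (a : ι → V) (k : ι → ℕ) (t : ℕ), Fintype.card V ≤ n →
  Anc anc → (∀ u v, u ∈ anc v → v ∈ anc u → u = v) →
  (∀ v (S : Finset ι), (∀ i ∈ S, a i ∈ anc v) → (anc v).card + ∑ i ∈ S, k i ≤ t) →
  ∀ (B : (i : ι) → Fin (k i) → (V → ℝ) →L[ℝ] ℝ) (φ : ι → (V → ℝ) → ℝ), HDataK anc a k B φ →
  ∀ κ : ℝ, 0 < κ → ∀ L : (V → ℝ) →L[ℝ] ℝ, AP (gibbs (hpot φ κ L)) (C ^ t)

variable {C : ℝ}

lemma gk_root (hC : 1 ≤ C) (hext : ExtStep C) (hrank : ∀ k, RankPert (C ^ k) k) {n : ℕ}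
    (ih : GK C n) {V ι : Type} [Fintype V] [DecidableEq V] [Fintype ι] [DecidableEq ι]
    {anc : V → Finset V} {a : ι → V} {k : ι → ℕ} {t : ℕ} (hn : Fintype.card V ≤ n + 1)
    (hanc : Anc anc) (hanti : ∀ u v, u ∈ anc v → v ∈ anc u → u = v)
    (hs : ∀ v (S : Finset ι), (∀ i ∈ S, a i ∈ anc v) → (anc v).card + ∑ i ∈ S, k i ≤ t)
    {B : (i : ι) → Fin (k i) → (V → ℝ) →L[ℝ] ℝ} {φ : ι → (V → ℝ) → ℝ} (H : HDataK anc a k B φ)
    {κ : ℝ} (hκ : 0 < κ) (L : (V → ℝ) →L[ℝ] ℝ) {r : V} (hr : ∀ v, r ∈ anc v) :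
    AP (gibbs (hpot φ κ L)) (C ^ t) := by
  have hancr : ∀ u ∈ anc r, u = r := fun u hu => hanti u r hu (hr u)
  -- the numbers
  set m := ∑ i : {i // a i = r}, k i.1 with hm
  have hmap : ∑ i ∈ (Finset.univ : Finset {i // a i = r}).map (Function.Embedding.subtype _), k i
      = m := by
    rw [Finset.sum_map]
    rfl
  have hJ : ∀ (v : V), ∀ i ∈ (Finset.univ : Finset {i // a i = r}).map
      (Function.Embedding.subtype _), a i ∈ anc v := by
    intro v i hi
    rw [Finset.mem_map] at hi
    obtain ⟨j, _, rfl⟩ := hi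
    change a j.1 ∈ anc v
    rw [j.2]
    exact hr v
  obtain ⟨t', rfl⟩ : ∃ t', t = t' + m + 1 := by
    have h1 := hs r _ (hJ r)
    rw [hmap] at h1
    have h2 := Finset.card_pos.2 ⟨r, hanc.self r⟩
    exact ⟨t - m - 1, by omega⟩
  refine AP.of_equiv (splitR r) (splitR_mp r) ?_
  have hK' : 1 ≤ C ^ t' := one_le_pow₀ hC
  have hcm : 1 ≤ C ^ m := one_le_pow₀ hC
  have hK : C ^ (t' + m + 1) = C * (C ^ m * C ^ t') := by
    rw [pow_succ, pow_add]; ring
  rw [hK]
  refine hext {v // ¬ v = r} _ _ (by nlinarith) (nice_splitR (hpot_nice hκ H.nc H.cv L) r)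
    fun y => ?_
  -- the fibre
  have hH := H.restrict (fun v => ¬ v = r) (Pi.single r y)
  have hAP : ∀ L' : ({v // ¬ v = r} → ℝ) →L[ℝ] ℝ, AP (gibbs (fun x =>
      hpot (fun (i : {i // ¬ a i = r}) z => φ i (extz (fun v => ¬ v = r) z + Pi.single r y)) κ 0 x
        - L' x)) (C ^ t') := by
    intro L'
    have h1 := ih {v // ¬ v = r} {i // ¬ a i = r} (fun v => (anc v).subtype (fun v => ¬ v = r))
      (fun i => ⟨a i, i.2⟩) (fun i => k i.1) t' (by
        have := Fintype.card_subtype_lt (p := fun v => ¬ v = r) (x := r) (not_not.2 rfl)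
        omega) (hanc.sub _) (by
        intro u v hu hv
        rw [Finset.mem_subtype] at hu hv
        exact Subtype.ext (hanti _ _ hu hv)) (by
        intro v S hS
        have h1 := hs v.1 (S.map (Function.Embedding.subtype _) ∪
          (Finset.univ : Finset {i // a i = r}).map (Function.Embedding.subtype _)) (by
            intro i hi
            rw [Finset.mem_union] at hi
            rcases hi with hi | hi
            · rw [Finset.mem_map] at hi
              obtain ⟨j, hj, rfl⟩ := hi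
              have := hS j hj
              rw [Finset.mem_subtype] at this
              exact this
            · exact hJ v.1 i hi)
        have h2 : ((anc v).filter (fun v => ¬ v = r)).card < (anc v).card := by
          apply Finset.card_lt_card
          rw [Finset.filter_ssubset]
          exact ⟨r, hr v, by simp⟩
        rw [Finset.card_subtype]
        rw [Finset.sum_union, Finset.sum_map, hmap] at h1
        · have h3 : ∑ i ∈ S, k (Function.Embedding.subtype (fun i => ¬ a i = r) i) =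
            ∑ i ∈ S, k i.1 := rfl
          rw [h3] at h1
          omega
        · rw [Finset.disjoint_left]
          intro i hi hi'
          rw [Finset.mem_map] at hi hi'
          obtain ⟨j, _, rfl⟩ := hi
          obtain ⟨j', _, hj'⟩ := hi'
          have h3 : a j'.1 = r := j'.2
          have h4 : j'.1 = j.1 := hj'
          rw [h4] at h3
          exact j.2 h3) _ _ hH κ hκ L'
    have e : (fun x => hpot (fun (i : {i // ¬ a i = r}) z =>
        φ i (extz (fun v => ¬ v = r) z + Pi.single r y)) κ 0 x - L' x) =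
        hpot (fun (i : {i // ¬ a i = r}) z =>
          φ i (extz (fun v => ¬ v = r) z + Pi.single r y)) κ L' := by
      ext x
      simp [hpot]
    rw [e]
    exact h1
  have hn0 : Nice (hpot (fun (i : {i // ¬ a i = r}) z =>
      φ i (extz (fun v => ¬ v = r) z + Pi.single r y)) κ 0) := hpot_nice hκ hH.nc hH.cv 0
  have key := rank_iterK hC hrank hn0
    (ψ := fun (i : {i // a i = r}) z => φ i (extz (fun v => ¬ v = r) z + Pi.single r y))
    (fun i => (H.nc i).compH (extz (fun v => ¬ v = r)) (Pi.single r y))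
    (fun i => convexOn_compH (H.cv i) (extz (fun v => ¬ v = r)) (Pi.single r y))
    (fun i => k i.1)
    (fun i j => (B i j).comp (extz (fun v => ¬ v = r))) (by
      intro i x x' hx
      apply H.dep
      · intro u hu
        rw [i.2] at hu
        rw [hancr u hu, Pi.add_apply, Pi.add_apply,
          extz_neg (p := fun v => ¬ v = r) _ (not_not.2 rfl),
          extz_neg (p := fun v => ¬ v = r) _ (not_not.2 rfl)]
      · intro j
        have := hx j
        simp only [ContinuousLinearMap.comp_apply] at this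
        rw [map_add, map_add, this]) hK' hAP Finset.univ (L.comp (extz (fun v => ¬ v = r)))
  have e : (fun x : {v // ¬ v = r} → ℝ => hpot φ κ L ((splitR r).symm (y, x))) = fun x =>
      (hpot (fun (i : {i // ¬ a i = r}) z => φ i (extz (fun v => ¬ v = r) z + Pi.single r y)) κ 0 x
        + ∑ i : {i // a i = r}, φ i (extz (fun v => ¬ v = r) x + Pi.single r y)
        - (L.comp (extz (fun v => ¬ v = r))) x) + (κ * y ^ 2 - L (Pi.single r y)) := by
    ext x
    exact hpot_root r κ L y x
  rw [e, gibbs_add_const]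
  exact key

theorem gk (hC : 1 ≤ C) (hext : ExtStep C) (hrank : ∀ k, RankPert (C ^ k) k) (n : ℕ) :
    GK C n := by
  induction n with
  | zero =>
    intro V ι _ _ _ _ anc a k t hn hanc hanti hs B φ H κ hκ L
    have hV : IsEmpty V := Fintype.card_eq_zero_iff.1 (Nat.le_zero.1 hn)
    exact AP.of_isEmpty (hpot_nice hκ H.nc H.cv L) (by positivity)
  | succ n ih =>
    intro V ι _ _ _ _ anc a k t hn hanc hanti hs B φ H κ hκ L
    rcases isEmpty_or_nonempty V with hV | hV
    · exact AP.of_isEmpty (hpot_nice hκ H.nc H.cv L) (by positivity)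
    obtain ⟨v₀⟩ := hV
    obtain ⟨r, hr0, hrmin⟩ := Finset.exists_min_image (anc v₀) (fun u => (anc u).card)
      ⟨v₀, hanc.self v₀⟩
    have hmin : ∀ w ∈ anc r, w = r := by
      intro w hw
      have h1 : anc w ⊆ anc r := hanc.trans w r hw
      have h2 : w ∈ anc v₀ := hanc.trans r v₀ hr0 hw
      have h3 := Finset.eq_of_subset_of_card_le h1 (hrmin w h2)
      refine hanti w r hw ?_
      rw [h3]
      exact hanc.self r
    by_cases hall : ∀ v, r ∈ anc v
    · exact gk_root hC hext hrank ih hn hanc hanti hs H hκ L hall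
    push Not at hall
    obtain ⟨v₁, hv₁⟩ := hall
    have hp1 : ∀ v, r ∈ anc v → ∀ w ∈ anc v, r ∈ anc w := by
      intro v hv w hw
      rcases hanc.chain r w v hv hw with h | h
      · exact h
      · rw [hmin w h]
        exact hanc.self r
    have hp2 : ∀ v, ¬ r ∈ anc v → ∀ w ∈ anc v, ¬ r ∈ anc w := by
      intro v hv w hw h
      exact hv (hanc.trans w v hw h)
    have hsub : ∀ (p : V → Prop) [DecidablePred p], Fintype.card {v // p v} ≤ n →
        ∀ L' : ({v // p v} → ℝ) →L[ℝ] ℝ,
        AP (gibbs (hpot (fun (i : {i // p (a i)}) z => φ i (extz p z + 0)) κ L'))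
          (C ^ t) := by
      intro p _ hpn L'
      refine ih {v // p v} {i // p (a i)} (fun v => (anc v).subtype p) (fun i => ⟨a i, i.2⟩)
        (fun i => k i.1) t hpn (hanc.sub _) (fun u v hu hv => ?_) (fun v S hS => ?_) _ _
        (H.restrict p 0) κ hκ L'
      · rw [Finset.mem_subtype] at hu hv
        exact Subtype.ext (hanti _ _ hu hv)
      · have h1 := hs v.1 (S.map (Function.Embedding.subtype _)) (by
          intro i hi
          rw [Finset.mem_map] at hi
          obtain ⟨j, hj, rfl⟩ := hi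
          have := hS j hj
          rw [Finset.mem_subtype] at this
          exact this)
        rw [Finset.sum_map] at h1
        rw [Finset.card_subtype]
        have h2 : ((anc v).filter p).card ≤ (anc v).card := Finset.card_filter_le _ _
        have h3 : ∑ i ∈ S, k (Function.Embedding.subtype (fun i => p (a i)) i) =
            ∑ i ∈ S, k i.1 := rfl
        rw [h3] at h1
        omega
    have hc1 : Fintype.card {v // r ∈ anc v} ≤ n := by
      have := Fintype.card_subtype_lt (p := fun v => r ∈ anc v) hv₁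
      omega
    have hc2 : Fintype.card {v // ¬ r ∈ anc v} ≤ n := by
      have := Fintype.card_subtype_lt (p := fun v => ¬ r ∈ anc v) (x := r)
        (not_not.2 (hanc.self r))
      omega
    refine AP.of_equiv (splitL (fun v => r ∈ anc v)) (splitL_mp (fun v => r ∈ anc v)) ?_
    have hH1 := H.restrict (fun v => r ∈ anc v) 0
    have hH2 := H.restrict (fun v => ¬ r ∈ anc v) 0
    have h1 := ap_prod
      (hpot_nice hκ hH1.nc hH1.cv (L.comp (extz (fun v => r ∈ anc v))))
      (hpot_nice hκ hH2.nc hH2.cv (L.comp (extz (fun v => ¬ r ∈ anc v))))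
      (K := C ^ t) (by positivity)
      (hsub (fun v => r ∈ anc v) hc1 (L.comp (extz (fun v => r ∈ anc v))))
      (hsub (fun v => ¬ r ∈ anc v) hc2 (L.comp (extz (fun v => ¬ r ∈ anc v))))
    obtain ⟨K₀, B₀, H₀⟩ := H.pad
    have h2 : (fun y => hpot φ κ L ((splitL (fun v => r ∈ anc v)).symm y)) = fun z =>
        hpot (fun (i : {i // r ∈ anc (a i)}) z => φ i (extz (fun v => r ∈ anc v) z + 0)) κ
          (L.comp (extz (fun v => r ∈ anc v))) z.1 +
        hpot (fun (i : {i // ¬ r ∈ anc (a i)}) z => φ i (extz (fun v => ¬ r ∈ anc v) z + 0)) κ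
          (L.comp (extz (fun v => ¬ r ∈ anc v))) z.2 := by
      ext z
      exact hpot_split H₀ (fun v => r ∈ anc v) hp1 hp2 κ L z
    rw [h2]
    exact h1

end mainK

/-- S7k: hierarchical potentials with a variable number `k i` of functionals -/
theorem forestK {Ce Cr : ℝ} (hCe : 1 ≤ Ce) (hext : ExtStep Ce) (hCr : 1 ≤ Cr)
    (hrank : ∀ k, RankPert (Cr ^ k) k) : ∀ (t : ℕ) (V ι : Type) [Fintype V] [DecidableEq V]
    [Fintype ι] (anc : V → Finset V), Anc anc → ∀ (a : ι → V) (k : ι → ℕ),
    (∀ v, (anc v).card + ∑ i ∈ Finset.univ.filter (fun i => a i ∈ anc v), k i ≤ t) →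
    ∀ B : (i : ι) → Fin (k i) → (V → ℝ) →L[ℝ] ℝ,
    (∀ i j w, B i j (Pi.single w 1) ≠ 0 → a i ∈ anc w ∨ w ∈ anc (a i)) →
    ∀ (φ : ι → (V → ℝ) → ℝ) (κ : ℝ), 0 < κ → (∀ i, NC (φ i)) → (∀ i, ConvexOn ℝ univ (φ i)) →
    (∀ i x y, (∀ u ∈ anc (a i), x u = y u) → (∀ j, B i j x = B i j y) → φ i x = φ i y) →
      AP (gibbs (fun x => ∑ i, φ i x + κ * ∑ w, x w ^ 2)) (max Ce Cr ^ t) := by
  classical
  intro t V ι _ _ _ anc hanc a₀ k ht B hB φ κ hκ hnc hcv hdep
  have hC : 1 ≤ max Ce Cr := hCe.trans (le_max_left _ _)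
  have hext' : ExtStep (max Ce Cr) := by
    intro W _ ψ K hK hψ h
    refine ap_monoK (hext W ψ K hK hψ h) ?_
    have := le_max_left Ce Cr
    nlinarith
  have hrank' : ∀ k, RankPert (max Ce Cr ^ k) k := by
    intro k W _ Φ ψ b K hK hΦ hψ hc hd h
    refine ap_monoK (hrank k W Φ ψ b K hK hΦ hψ hc hd h) ?_
    have h1 : Cr ^ k ≤ max Ce Cr ^ k := by
      gcongr
      exact le_max_right _ _
    nlinarith
  -- numbering of the vertices
  set e : V → ℕ := fun v => (Fintype.equivFin V v : ℕ) with he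
  have hei : ∀ u v, e u = e v → u = v := by
    intro u v h
    exact (Fintype.equivFin V).injective (Fin.ext h)
  set anc' : V → Finset V := fun v => (anc v).filter (fun u => v ∉ anc u ∨ e u ≤ e v) with hanc'
  have hmem : ∀ u v, u ∈ anc' v ↔ u ∈ anc v ∧ (v ∉ anc u ∨ e u ≤ e v) := by
    intro u v
    rw [hanc', Finset.mem_filter]
  have hA : Anc anc' := by
    refine ⟨fun v => ?_, fun u v huv w hw => ?_, fun u w v hu hw => ?_⟩
    · rw [hmem]
      exact ⟨hanc.self v, Or.inr le_rfl⟩
    · rw [hmem] at huv hw ⊢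
      refine ⟨hanc.trans u v huv.1 hw.1, ?_⟩
      by_cases hvw : v ∈ anc w
      · right
        have h1 : v ∈ anc u := hanc.trans w u hw.1 hvw
        have h2 : u ∈ anc w := hanc.trans v w hvw huv.1
        rcases huv.2 with h3 | h3
        · exact absurd h1 h3
        · rcases hw.2 with h4 | h4
          · exact absurd h2 h4
          · exact h4.trans h3
      · exact Or.inl hvw
    · rw [hmem] at hu hw
      by_cases h1 : u ∈ anc w
      · by_cases h2 : w ∈ anc u
        · rcases le_total (e u) (e w) with h3 | h3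
          · exact Or.inl ((hmem u w).2 ⟨h1, Or.inr h3⟩)
          · exact Or.inr ((hmem w u).2 ⟨h2, Or.inr h3⟩)
        · exact Or.inl ((hmem u w).2 ⟨h1, Or.inl h2⟩)
      · rcases hanc.chain u w v hu.1 hw.1 with h2 | h2
        · exact absurd h2 h1
        · exact Or.inr ((hmem w u).2 ⟨h2, Or.inl h1⟩)
  have hanti : ∀ u v, u ∈ anc' v → v ∈ anc' u → u = v := by
    intro u v h1 h2
    rw [hmem] at h1 h2
    rcases h1.2 with h3 | h3
    · exact absurd h2.1 h3
    · rcases h2.2 with h4 | h4
      · exact absurd h1.1 h4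
      · exact hei u v (le_antisymm h3 h4)
  -- the top element of a class
  have htop : ∀ v, ∃ u, u ∈ anc v ∧ v ∈ anc u ∧ ∀ w, w ∈ anc v → v ∈ anc w → e w ≤ e u := by
    intro v
    obtain ⟨u, hu, hmax⟩ := Finset.exists_max_image ((anc v).filter (fun u => v ∈ anc u)) e
      ⟨v, Finset.mem_filter.2 ⟨hanc.self v, hanc.self v⟩⟩
    rw [Finset.mem_filter] at hu
    exact ⟨u, hu.1, hu.2, fun w h1 h2 => hmax w (Finset.mem_filter.2 ⟨h1, h2⟩)⟩
  choose a ha1 ha2 ha3 using htop
  have haeq : ∀ v, anc (a v) = anc v := fun v =>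
    Finset.Subset.antisymm (hanc.trans _ _ (ha1 v)) (hanc.trans _ _ (ha2 v))
  have haeq' : ∀ v, anc' (a v) = anc v := by
    intro v
    ext w
    rw [hmem, haeq]
    constructor
    · exact fun h => h.1
    · intro h
      refine ⟨h, ?_⟩
      by_cases h1 : a v ∈ anc w
      · right
        apply ha3 v w h
        exact hanc.trans (a v) w h1 (by rw [haeq]; exact hanc.self v)
      · exact Or.inl h1
  have hH : HDataK anc' (fun i => a (a₀ i)) k B φ := by
    refine ⟨fun i j w hw => ?_, hnc, hcv, fun i x y h1 h2 => ?_⟩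
    · rw [haeq']
      by_cases h1 : w ∈ anc (a₀ i)
      · exact Or.inr h1
      · left
        rcases hB i j w hw with h2 | h2
        · rw [hmem, haeq]
          exact ⟨hanc.trans (a₀ i) w h2 (ha1 (a₀ i)), Or.inl h1⟩
        · exact absurd h2 h1
    · rw [haeq'] at h1
      exact hdep i x y h1 h2
  have key := gk hC hext' hrank' (Fintype.card V) V ι anc' (fun i => a (a₀ i)) k t le_rfl hA hanti
    (by
      intro v S hS
      have h1 : (anc' v).card ≤ (anc v).card := Finset.card_filter_le _ _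
      have h2 : ∑ i ∈ S, k i ≤ ∑ i ∈ Finset.univ.filter (fun i => a₀ i ∈ anc v), k i := by
        refine Finset.sum_le_sum_of_subset_of_nonneg ?_ (fun _ _ _ => Nat.zero_le _)
        intro i hi
        rw [Finset.mem_filter]
        have h3 := (hmem _ _).1 (hS i hi)
        exact ⟨Finset.mem_univ i, hanc.trans (a (a₀ i)) v h3.1 (ha2 (a₀ i))⟩
      have h4 := ht v
      omega) B φ hH κ hκ 0
  have e : (fun x : V → ℝ => ∑ i, φ i x + κ * ∑ w, x w ^ 2) = hpot φ κ 0 := by
    ext x
    simp [hpot]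
  rw [e]
  exact key

end Pool.Agent.Lib.MP_6d896a_gt.FP
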