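import Mathlib
import Pool.Agent.Lib.MP_6d896a_gt.FP.Defs
import Pool.Agent.Lib.MP_6d896a_gt.FP.GenDefs

/-!
Perturbation of a log-concave density by a log-concave function of `k` linear functionals.
-/

set_option autoImplicit false

namespace Pool.Agent.Lib.MP_6d896a_gt.FP

open MeasureTheory ProbabilityTheory Set Filter
open scoped ENNReal Topology

/-- perturbation by a log-concave function of `k` linear functionals -/
def RankG (C : ℝ) (k : ℕ) : Prop := ∀ (W : Type) [Fintype W] (ρ g : (W → ℝ) → ℝ)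
      (b : Fin k → (W → ℝ) →L[ℝ] ℝ) (K : ℝ), 1 ≤ K → LCd ρ → LCd g →
      (∀ x y, (∀ j, b j x = b j y) → g x = g y) →
      (∀ L : (W → ℝ) →L[ℝ] ℝ, ∫⁻ x, ENNReal.ofReal (ρ x * Real.exp (L x)) ≠ ∞) →
      (∀ L : (W → ℝ) →L[ℝ] ℝ, AP (dens (fun x => ρ x * Real.exp (L x))) K) →
      AP (dens (fun x => ρ x * g x)) (C * K)

end Pool.Agent.Lib.MP_6d896a_gt.FP
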