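import Mathlib
import Pool.Agent.Lib.MP_6d896a_gt.FP.RankGDefs
import Pool.Agent.Lib.MP_6d896a_gt.FP.ForestK
import Pool.Agent.Lib.MP_6d896a_gt.FP.ForestGen
import Pool.Agent.Lib.MP_6d896a_gt.FP.ApproxSupp

/-!
Forests of product densities with additional log-concave factors depending on the ancestors of an
anchor and on finitely many linear functionals.
-/

set_option autoImplicit false

namespace Pool.Agent.Lib.MP_6d896a_gt.FP

open MeasureTheory ProbabilityTheory Set Filter
open scoped ENNReal Topology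

section closure

variable {E : Type*} [NormedAddCommGroup E] [NormedSpace ℝ E] [MeasurableSpace E]

/-- products of log-concave functions -/
lemma LCd.mulP {ρ g : E → ℝ} (h : LCd ρ) (h' : LCd g) :
    LCd (fun x => ρ x * g x) where
  nn x := mul_nonneg (h.nn x) (h'.nn x)
  ms := h.ms.mul h'.ms
  lc x y a b ha hb hab := by
    rw [Real.mul_rpow (h.nn x) (h'.nn x), Real.mul_rpow (h.nn y) (h'.nn y)]
    calc ρ x ^ a * g x ^ a * (ρ y ^ b * g y ^ b) = (ρ x ^ a * ρ y ^ b) * (g x ^ a * g y ^ b) := by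
          ring
      _ ≤ ρ (a • x + b • y) * g (a • x + b • y) :=
          mul_le_mul (h.lc x y a b ha hb hab) (h'.lc x y a b ha hb hab)
            (mul_nonneg (Real.rpow_nonneg (h'.nn x) _) (Real.rpow_nonneg (h'.nn y) _)) (h.nn _)

lemma LCd.constP {c : ℝ} (hc : 0 ≤ c) : LCd (fun _ : E => c) where
  nn _ := hc
  ms := measurable_const
  lc x y a b ha hb hab := by
    rcases hc.eq_or_lt with rfl | hc'
    · rw [Real.zero_rpow ha.ne', zero_mul]
    · rw [← Real.rpow_add hc', hab, Real.rpow_one]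

lemma LCd.prodP {ι : Type*} {g : ι → E → ℝ} (h : ∀ i, LCd (g i)) (J : Finset ι) :
    LCd (fun x => ∏ i ∈ J, g i x) := by
  classical
  induction J using Finset.induction_on with
  | empty => simpa using LCd.constP (E := E) (c := 1) zero_le_one
  | insert i J hi ih =>
    simp only [Finset.prod_insert hi]
    exact (h i).mulP ih

/-- a positive constant factor can be removed -/
lemma LCd.of_const_mul {ρ : E → ℝ} {c : ℝ} (hc : 0 < c) (h : LCd (fun x => c * ρ x)) : LCd ρ := by
  have h1 : LCd (fun x => c⁻¹ * (c * ρ x)) := (LCd.constP (inv_pos.2 hc).le).mulP h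
  have e : (fun x => c⁻¹ * (c * ρ x)) = ρ := by
    ext x
    rw [← mul_assoc, inv_mul_cancel₀ hc.ne', one_mul]
  rwa [e] at h1

end closure

section gauss

variable {V : Type} [Fintype V]

/-- Gaussian factors with a linear term are log-concave -/
lemma LCd.gaussP (L : (V → ℝ) →L[ℝ] ℝ) {κ : ℝ} (hκ : 0 ≤ κ) :
    LCd (fun x : V → ℝ => Real.exp (L x - κ * ∑ w, x w ^ 2)) where
  nn x := (Real.exp_pos _).le
  ms := by fun_prop
  lc x y a b ha hb hab := by
    rw [← Real.exp_mul, ← Real.exp_mul, ← Real.exp_add, Real.exp_le_exp, map_add, map_smul,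
      map_smul, smul_eq_mul, smul_eq_mul]
    have h1 : ∑ w, (a • x + b • y) w ^ 2 ≤ a * ∑ w, x w ^ 2 + b * ∑ w, y w ^ 2 := by
      rw [Finset.mul_sum, Finset.mul_sum, ← Finset.sum_add_distrib]
      refine Finset.sum_le_sum fun w _ => ?_
      simp only [Pi.add_apply, Pi.smul_apply, smul_eq_mul]
      have hb' : b = 1 - a := by linarith
      subst hb'
      have : 0 ≤ a * (1 - a) * (x w - y w) ^ 2 := by positivity
      nlinarith
    have h2 := mul_le_mul_of_nonneg_left h1 hκ
    nlinarith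

/-- integrability -/
lemma lint_gauss_ne_top {ρ : (V → ℝ) → ℝ} (hρ : LCd ρ) (L : (V → ℝ) →L[ℝ] ℝ) {κ : ℝ}
    (hκ : 0 < κ) :
    ∫⁻ x, ENNReal.ofReal (ρ x * Real.exp (L x - κ * ∑ w, x w ^ 2)) ≠ ∞ := by
  classical
  by_cases hpos : (volume : Measure (V → ℝ)) {x | 0 < ρ x} = 0
  · have h1 : (fun x => ENNReal.ofReal (ρ x * Real.exp (L x - κ * ∑ w, x w ^ 2)))
        =ᵐ[volume] fun _ => 0 := by
      have h2 : ∀ᵐ x ∂(volume : Measure (V → ℝ)), x ∉ {x | 0 < ρ x} :=
        measure_eq_zero_iff_ae_notMem.mp hpos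
      filter_upwards [h2] with x hx
      have h3 : ρ x = 0 := le_antisymm (not_lt.1 hx) (hρ.nn x)
      rw [h3, zero_mul, ENNReal.ofReal_zero]
    rw [lintegral_congr_ae h1, lintegral_zero]
    exact ENNReal.zero_ne_top
  · obtain ⟨l, c, hl, _⟩ := exists_seq (volume : Measure (V → ℝ)) hρ.nn hρ.lc hpos
    have hint := integrable_dom (l 0 + L) (c 0) hκ
    have hfin : ∫⁻ x, ENNReal.ofReal ((1 + ‖x‖) ^ 2 * (Real.exp ((l 0 + L) x + c 0) *
        Real.exp (-(κ * ∑ w, x w ^ 2)))) < ∞ := by
      have := hint.2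
      rwa [hasFiniteIntegral_iff_ofReal (ae_of_all _ fun x => by positivity)] at this
    refine (lt_of_le_of_lt (lintegral_mono_ae ?_) hfin).ne
    filter_upwards [hl] with x hx
    apply ENNReal.ofReal_le_ofReal
    have h1 := hx.1 0
    have h2 : (1 : ℝ) ≤ (1 + ‖x‖) ^ 2 := one_le_pow₀ (by linarith [norm_nonneg x])
    calc ρ x * Real.exp (L x - κ * ∑ w, x w ^ 2)
        ≤ Real.exp (l 0 x + c 0) * Real.exp (L x - κ * ∑ w, x w ^ 2) := by
          gcongr
      _ = Real.exp ((l 0 + L) x + c 0) * Real.exp (-(κ * ∑ w, x w ^ 2)) := by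
          rw [← Real.exp_add, ← Real.exp_add, _root_.add_apply]
          congr 1
          ring
      _ = 1 * (Real.exp ((l 0 + L) x + c 0) * Real.exp (-(κ * ∑ w, x w ^ 2))) := by
          rw [one_mul]
      _ ≤ _ := by gcongr

omit [Fintype V] in
/-- the degenerate cases of the Poincare inequality for normalised measures -/
lemma ap_cases {E : Type*} [NormedAddCommGroup E] [NormedSpace ℝ E] [MeasureSpace E] {ρ : E → ℝ}
    (hm : Measurable ρ) {K : ℝ} (h : ∫⁻ x, ENNReal.ofReal (ρ x) ≠ 0 →
      ∫⁻ x, ENNReal.ofReal (ρ x) ≠ ∞ → AP (dens ρ) K) : AP (dens ρ) K := by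
  by_cases h0 : ∫⁻ x, ENNReal.ofReal (ρ x) = 0
  · have h2 : dens ρ = 0 := by
      unfold dens
      have h3 : (volume : Measure E).withDensity (fun p => ENNReal.ofReal (ρ p)) = 0 := by
        rw [withDensity_eq_zero_iff hm.ennreal_ofReal.aemeasurable]
        exact (lintegral_eq_zero_iff hm.ennreal_ofReal).1 h0
      rw [h3, smul_zero]
    rw [h2]
    exact AP.zero _
  by_cases h1 : ∫⁻ x, ENNReal.ofReal (ρ x) = ∞
  · rw [dens_top h1]
    exact AP.zero _
  exact h h0 h1

end gauss

section rankP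

variable {C : ℝ}

/-- several perturbations by log-concave functions with a variable number of functionals -/
lemma rank_iterG (hC : 1 ≤ C) (hrank : ∀ k, RankG (C ^ k) k) {W : Type} [Fintype W] {ι : Type}
    {Φ : (W → ℝ) → ℝ} (hΦ : LCd Φ) {ψ : ι → (W → ℝ) → ℝ} (hlc : ∀ i, LCd (ψ i))
    (k : ι → ℕ) (b : (i : ι) → Fin (k i) → (W → ℝ) →L[ℝ] ℝ)
    (hdep : ∀ i x y, (∀ j, b i j x = b i j y) → ψ i x = ψ i y)
    (hfin : ∀ (J : Finset ι) (L : (W → ℝ) →L[ℝ] ℝ),
      ∫⁻ x, ENNReal.ofReal (Φ x * (∏ i ∈ J, ψ i x) * Real.exp (L x)) ≠ ∞)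
    {K : ℝ} (hK : 1 ≤ K)
    (hAP : ∀ L : (W → ℝ) →L[ℝ] ℝ, AP (dens (fun x => Φ x * Real.exp (L x))) K) (J : Finset ι) :
    ∀ L : (W → ℝ) →L[ℝ] ℝ,
      AP (dens (fun x => Φ x * (∏ i ∈ J, ψ i x) * Real.exp (L x))) (C ^ (∑ i ∈ J, k i) * K) := by
  classical
  induction J using Finset.induction_on with
  | empty =>
    intro L
    simpa using hAP L
  | insert i J hi ih =>
    intro L
    rw [Finset.sum_insert hi, pow_add, mul_assoc]
    have hcr : 1 ≤ C ^ (∑ i ∈ J, k i) := one_le_pow₀ hC
    have hL : ∀ L : (W → ℝ) →L[ℝ] ℝ, LCd (fun x => Real.exp (L x)) := by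
      intro L
      have := LCd.gaussP L (le_refl (0 : ℝ))
      simpa using this
    have hexp : ∀ L' x, Φ x * (∏ i ∈ J, ψ i x) * Real.exp (L x) * Real.exp (L' x) =
        Φ x * (∏ i ∈ J, ψ i x) * Real.exp ((L + L') x) := by
      intro L' x
      rw [_root_.add_apply, Real.exp_add]
      ring
    have := hrank (k i) W (fun x => Φ x * (∏ i ∈ J, ψ i x) * Real.exp (L x)) (ψ i) (b i)
      (C ^ (∑ i ∈ J, k i) * K) (by nlinarith) ((hΦ.mulP (LCd.prodP hlc J)).mulP (hL L)) (hlc i)
      (hdep i) (by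
        intro L'
        simp only [hexp]
        exact hfin J (L + L')) (by
        intro L'
        simp only [hexp]
        exact ih (L + L'))
    have e : (fun x => Φ x * (∏ i ∈ insert i J, ψ i x) * Real.exp (L x)) =
        fun x => Φ x * (∏ i ∈ J, ψ i x) * Real.exp (L x) * ψ i x := by
      ext x
      rw [Finset.prod_insert hi]
      ring
    rw [e]
    exact this

end rankP

section treeP

/-- product densities along a forest with additional factors -/
structure PDataP {V ι : Type} [Fintype V] [DecidableEq V] (anc : V → Finset V) (a : ι → V)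
    (k : ι → ℕ) (B : (i : ι) → Fin (k i) → (V → ℝ) →L[ℝ] ℝ) (f : V → (V → ℝ) → ℝ)
    (g : ι → (V → ℝ) → ℝ) : Prop where
  nn : ∀ v x, 0 ≤ f v x
  ms : ∀ v, Measurable (f v)
  dep : ∀ v, DepOn (f v) (anc v)
  lc : LCd (fun x => ∏ v, f v x)
  supp : ∀ i j w, B i j (Pi.single w 1) ≠ 0 → a i ∈ anc w ∨ w ∈ anc (a i)
  glc : ∀ i, LCd (g i)
  gdep : ∀ i x y, (∀ u ∈ anc (a i), x u = y u) → (∀ j, B i j x = B i j y) → g i x = g i y

/-- the density -/
noncomputable def pden {V ι : Type} [Fintype V] [Fintype ι] (f : V → (V → ℝ) → ℝ)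
    (g : ι → (V → ℝ) → ℝ) (κ : ℝ) (L : (V → ℝ) →L[ℝ] ℝ) (x : V → ℝ) : ℝ :=
  (∏ v, f v x) * (∏ i, g i x) * Real.exp (L x - κ * ∑ w, x w ^ 2)

variable {V ι : Type} [Fintype V] [DecidableEq V] {anc : V → Finset V} {a : ι → V} {k : ι → ℕ}
    {B : (i : ι) → Fin (k i) → (V → ℝ) →L[ℝ] ℝ} {f : V → (V → ℝ) → ℝ} {g : ι → (V → ℝ) → ℝ}

omit [Fintype V] [DecidableEq V] in
lemma affine_comb (p : V → Prop) [DecidablePred p] (b : V → ℝ) (x y : {v // p v} → ℝ) (s t : ℝ)
    (hst : s + t = 1) :
    extz p (s • x + t • y) + b = s • (extz p x + b) + t • (extz p y + b) := by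
  rw [map_add, map_smul, map_smul]
  have : b = (s + t) • b := by rw [hst, one_smul]
  nth_rewrite 1 [this]
  module

omit [DecidableEq V] in
lemma LCd.extzP {ρ : (V → ℝ) → ℝ} (h : LCd ρ) (p : V → Prop) [DecidablePred p] (b : V → ℝ) :
    LCd (fun z => ρ (extz p z + b)) :=
  h.comp_linear (fun z => extz p z + b) (by fun_prop)
    (fun x y s t hst => affine_comb p b x y s t hst)

lemma PDataP.restrict (H : PDataP anc a k B f g) (p : V → Prop) [DecidablePred p] (b : V → ℝ)
    (hlc : LCd (fun z : {v // p v} → ℝ => ∏ v : {v // p v}, f v (extz p z + b))) :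
    PDataP (fun v : {v // p v} => (anc v).subtype p)
      (fun i : {i // p (a i)} => (⟨a i, i.2⟩ : {v // p v})) (fun i => k i.1)
      (fun i j => (B i j).comp (extz p)) (fun v z => f v (extz p z + b))
      (fun i z => g i (extz p z + b)) := by
  have hag : ∀ (v : V) (x y : {v // p v} → ℝ), (∀ u ∈ (anc v).subtype p, x u = y u) →
      ∀ u ∈ anc v, (extz p x + b) u = (extz p y + b) u := by
    intro v x y h1 u hu
    simp only [Pi.add_apply]
    by_cases hp : p u
    · rw [extz_pos x hp, extz_pos y hp, h1 ⟨u, hp⟩ (by rw [Finset.mem_subtype]; exact hu)]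
    · rw [extz_neg x hp, extz_neg y hp]
  refine ⟨fun v x => H.nn _ _, fun v => (H.ms v).comp (by fun_prop), fun v x y h1 => ?_, hlc,
    fun i j w hw => ?_, fun i => (H.glc i).extzP p b, fun i x y h1 h2 => ?_⟩
  · exact H.dep v _ _ (hag v x y h1)
  · rw [ContinuousLinearMap.comp_apply, extz_single] at hw
    rcases H.supp i j w hw with h | h
    · exact Or.inl (by rw [Finset.mem_subtype]; exact h)
    · exact Or.inr (by rw [Finset.mem_subtype]; exact h)
  · apply H.gdep
    · exact hag (a i) x y h1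
    · intro j
      have := h2 j
      simp only [ContinuousLinearMap.comp_apply] at this
      rw [map_add, map_add, this]

lemma PDataP.pden_LCd [Fintype ι] (H : PDataP anc a k B f g) {κ : ℝ} (hκ : 0 ≤ κ)
    (L : (V → ℝ) →L[ℝ] ℝ) : LCd (pden f g κ L) :=
  (H.lc.mulP (LCd.prodP H.glc Finset.univ)).mulP (LCd.gaussP L hκ)

lemma PDataP.pden_ne_top [Fintype ι] (H : PDataP anc a k B f g) {κ : ℝ} (hκ : 0 < κ)
    (L : (V → ℝ) →L[ℝ] ℝ) : ∫⁻ x, ENNReal.ofReal (pden f g κ L x) ≠ ∞ :=
  lint_gauss_ne_top (H.lc.mulP (LCd.prodP H.glc Finset.univ)) L hκ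

/-- decomposition of the density -/
lemma pden_split [Fintype ι] (H : PDataP anc a k B f g) (p : V → Prop) [DecidablePred p]
    (h1 : ∀ v, p v → ∀ w ∈ anc v, p w) (h2 : ∀ v, ¬ p v → ∀ w ∈ anc v, ¬ p w) (κ : ℝ)
    (L : (V → ℝ) →L[ℝ] ℝ) (z : ({v // p v} → ℝ) × ({v // ¬ p v} → ℝ)) :
    pden f g κ L ((splitL p).symm z) =
      pden (fun (v : {v // p v}) z => f v (extz p z + 0))
        (fun (i : {i // p (a i)}) z => g i (extz p z + 0)) κ (L.comp (extz p)) z.1 *
      pden (fun (v : {v // ¬ p v}) z => f v (extz (fun v => ¬ p v) z + 0))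
        (fun (i : {i // ¬ p (a i)}) z => g i (extz (fun v => ¬ p v) z + 0)) κ
        (L.comp (extz (fun v => ¬ p v))) z.2 := by
  have e := splitL_symm_eq p z
  have hL : L ((splitL p).symm z) = L (extz p z.1) + L (extz (fun v => ¬ p v) z.2) := by
    rw [e, map_add]
  have hsq : ∑ v, ((splitL p).symm z) v ^ 2 = ∑ v, z.1 v ^ 2 + ∑ v, z.2 v ^ 2 := by
    rw [← Fintype.sum_subtype_add_sum_subtype p]
    congr 1
    · refine Finset.sum_congr rfl fun v _ => ?_
      rw [splitL_symm_apply, dif_pos v.2]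
    · refine Finset.sum_congr rfl fun v _ => ?_
      rw [splitL_symm_apply, dif_neg v.2]
  have hf : ∏ v, f v ((splitL p).symm z) = (∏ v : {v // p v}, f v (extz p z.1 + 0)) *
      ∏ v : {v // ¬ p v}, f v (extz (fun v => ¬ p v) z.2 + 0) := by
    rw [← Fintype.prod_subtype_mul_prod_subtype p]
    congr 1
    · refine Finset.prod_congr rfl fun v _ => ?_
      rw [add_zero]
      apply H.dep
      intro u hu
      have hp := h1 _ v.2 u hu
      rw [splitL_symm_apply, dif_pos hp, extz_pos _ hp]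
    · refine Finset.prod_congr rfl fun v _ => ?_
      rw [add_zero]
      apply H.dep
      intro u hu
      have hp := h2 _ v.2 u hu
      rw [splitL_symm_apply, dif_neg hp, extz_pos (p := fun v => ¬ p v) _ hp]
  have hg : ∏ i, g i ((splitL p).symm z) = (∏ i : {i // p (a i)}, g i (extz p z.1 + 0)) *
      ∏ i : {i // ¬ p (a i)}, g i (extz (fun v => ¬ p v) z.2 + 0) := by
    rw [← Fintype.prod_subtype_mul_prod_subtype (fun i => p (a i))]
    congr 1
    · refine Finset.prod_congr rfl fun i _ => ?_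
      rw [add_zero]
      apply H.gdep
      · intro u hu
        have hp := h1 _ i.2 u hu
        rw [splitL_symm_apply, dif_pos hp, extz_pos _ hp]
      · intro j
        rw [e, map_add]
        have : B i j (extz (fun v => ¬ p v) z.2) = 0 := by
          apply lin_zeroH
          intro w hw
          apply extz_neg
          rw [not_not]
          rcases H.supp i j w hw with h | h
          · by_contra hc
            exact h2 w hc _ h i.2
          · exact h1 _ i.2 w h
        rw [this, add_zero]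
    · refine Finset.prod_congr rfl fun i _ => ?_
      rw [add_zero]
      apply H.gdep
      · intro u hu
        have hp := h2 _ i.2 u hu
        rw [splitL_symm_apply, dif_neg hp, extz_pos (p := fun v => ¬ p v) _ hp]
      · intro j
        rw [e, map_add]
        have : B i j (extz p z.1) = 0 := by
          apply lin_zeroH
          intro w hw
          apply extz_neg
          rcases H.supp i j w hw with h | h
          · intro hc
            exact i.2 (h1 w hc _ h)
          · exact h2 _ i.2 w h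
        rw [this, zero_add]
  unfold pden
  rw [hL, hsq, hf, hg]
  simp only [ContinuousLinearMap.comp_apply]
  have hexp : Real.exp (L (extz p z.1) + L (extz (fun v => ¬ p v) z.2) -
      κ * (∑ v, z.1 v ^ 2 + ∑ v, z.2 v ^ 2)) =
      Real.exp (L (extz p z.1) - κ * ∑ v, z.1 v ^ 2) *
      Real.exp (L (extz (fun v => ¬ p v) z.2) - κ * ∑ v, z.2 v ^ 2) := by
    rw [← Real.exp_add]
    congr 1
    ring
  rw [hexp]
  ring

/-- the density with one coordinate fixed -/
lemma pden_root [Fintype ι] (H : PDataP anc a k B f g) (r : V) (hr : ∀ u ∈ anc r, u = r) (κ : ℝ)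
    (L : (V → ℝ) →L[ℝ] ℝ) (y : ℝ)
    (x : {v // ¬ v = r} → ℝ) [DecidableEq ι] :
    pden f g κ L ((splitR r).symm (y, x)) =
      (f r (Pi.single r y) * Real.exp (L (Pi.single r y) - κ * y ^ 2)) *
      (pden (fun (v : {v // ¬ v = r}) z => f v (extz (fun v => ¬ v = r) z + Pi.single r y))
        (fun (i : {i // ¬ a i = r}) z => g i (extz (fun v => ¬ v = r) z + Pi.single r y)) κ 0 x
        * (∏ i : {i // a i = r}, g i (extz (fun v => ¬ v = r) x + Pi.single r y))
        * Real.exp ((L.comp (extz (fun v => ¬ v = r))) x)) := by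
  have e := splitR_symm_eq r y x
  have hsq : ∑ v, ((splitR r).symm (y, x)) v ^ 2 = y ^ 2 + ∑ v, x v ^ 2 := by
    rw [Fintype.sum_eq_add_sum_subtype_ne _ r]
    congr 1
    · rw [splitR_symm_apply, dif_pos rfl]
    · refine Finset.sum_congr rfl fun v _ => ?_
      rw [splitR_symm_apply, dif_neg v.2]
  have hf : ∏ v, f v ((splitR r).symm (y, x)) = f r (Pi.single r y) *
      ∏ v : {v // ¬ v = r}, f v (extz (fun v => ¬ v = r) x + Pi.single r y) := by
    rw [Fintype.prod_eq_mul_prod_subtype_ne _ r]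
    congr 1
    · apply H.dep
      intro u hu
      rw [hr u hu, splitR_symm_apply, dif_pos rfl, Pi.single_eq_same]
    · refine Finset.prod_congr rfl fun v _ => ?_
      rw [e]
  have hg : ∏ i, g i ((splitR r).symm (y, x)) =
      (∏ i : {i // a i = r}, g i (extz (fun v => ¬ v = r) x + Pi.single r y)) *
      ∏ i : {i // ¬ a i = r}, g i (extz (fun v => ¬ v = r) x + Pi.single r y) := by
    rw [← Fintype.prod_subtype_mul_prod_subtype (fun i => a i = r)]
    simp only [e]
  unfold pden
  rw [hsq, hf, hg, e, map_add]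
  simp only [ContinuousLinearMap.comp_apply, _root_.zero_apply]
  have hexp : Real.exp (L (extz (fun v => ¬ v = r) x) + L (Pi.single r y) -
      κ * (y ^ 2 + ∑ v, x v ^ 2)) =
      Real.exp (L (Pi.single r y) - κ * y ^ 2) * (Real.exp (0 - κ * ∑ v, x v ^ 2) *
        Real.exp (L (extz (fun v => ¬ v = r) x))) := by
    rw [← Real.exp_add, ← Real.exp_add]
    congr 1
    ring
  rw [hexp]
  ring

end treeP

section mainP

/-- statement for antisymmetric ancestor sets -/
def GP (C : ℝ) (n : ℕ) : Prop := ∀ (V ι : Type) [Fintype V] [DecidableEq V] [Fintype ι]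
  [DecidableEq ι] (anc : V → Finset V) (a : ι → V) (k : ι → ℕ) (t : ℕ), Fintype.card V ≤ n →
  Anc anc → (∀ u v, u ∈ anc v → v ∈ anc u → u = v) →
  (∀ v (S : Finset ι), (∀ i ∈ S, a i ∈ anc v) → (anc v).card + ∑ i ∈ S, k i ≤ t) →
  ∀ (B : (i : ι) → Fin (k i) → (V → ℝ) →L[ℝ] ℝ) (f : V → (V → ℝ) → ℝ) (g : ι → (V → ℝ) → ℝ),
  PDataP anc a k B f g →
  ∀ κ : ℝ, 0 < κ → ∀ L : (V → ℝ) →L[ℝ] ℝ, AP (dens (pden f g κ L)) (C ^ t)

variable {C : ℝ}

lemma gp_root (hC : 1 ≤ C) (hext : FibreStat C) (hrank : ∀ k, RankG (C ^ k) k) {n : ℕ}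
    (ih : GP C n) {V ι : Type} [Fintype V] [DecidableEq V] [Fintype ι] [DecidableEq ι]
    {anc : V → Finset V} {a : ι → V} {k : ι → ℕ} {t : ℕ} (hn : Fintype.card V ≤ n + 1)
    (hanc : Anc anc) (hanti : ∀ u v, u ∈ anc v → v ∈ anc u → u = v)
    (hs : ∀ v (S : Finset ι), (∀ i ∈ S, a i ∈ anc v) → (anc v).card + ∑ i ∈ S, k i ≤ t)
    {B : (i : ι) → Fin (k i) → (V → ℝ) →L[ℝ] ℝ} {f : V → (V → ℝ) → ℝ} {g : ι → (V → ℝ) → ℝ}
    (H : PDataP anc a k B f g)
    {κ : ℝ} (hκ : 0 < κ) (L : (V → ℝ) →L[ℝ] ℝ) {r : V} (hr : ∀ v, r ∈ anc v) :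
    AP (dens (pden f g κ L)) (C ^ t) := by
  have hancr : ∀ u ∈ anc r, u = r := fun u hu => hanti u r hu (hr u)
  -- the numbers
  set m := ∑ i : {i // a i = r}, k i.1 with hm
  have hmap : ∑ i ∈ (Finset.univ : Finset {i // a i = r}).map (Function.Embedding.subtype _), k i
      = m := by
    rw [Finset.sum_map]
    rfl
  have hJ : ∀ (v : V), ∀ i ∈ (Finset.univ : Finset {i // a i = r}).map
      (Function.Embedding.subtype _), a i ∈ anc v := by
    intro v i hi
    rw [Finset.mem_map] at hi
    obtain ⟨j, _, rfl⟩ := hi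
    change a j.1 ∈ anc v
    rw [j.2]
    exact hr v
  obtain ⟨t', rfl⟩ : ∃ t', t = t' + m + 1 := by
    have h1 := hs r _ (hJ r)
    rw [hmap] at h1
    have h2 := Finset.card_pos.2 ⟨r, hanc.self r⟩
    exact ⟨t - m - 1, by omega⟩
  have hL := H.pden_LCd hκ.le L
  refine ap_cases hL.ms fun hint0 hintt => ?_
  refine AP.of_equiv_dens (splitR r) (splitR_mp r) ?_
  have hK' : 1 ≤ C ^ t' := one_le_pow₀ hC
  have hcm : 1 ≤ C ^ m := one_le_pow₀ hC
  have hK : C ^ (t' + m + 1) = C * (C ^ m * C ^ t') := by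
    rw [pow_succ, pow_add]; ring
  rw [hK]
  have hlc : LCd (fun z : ℝ × ({v // ¬ v = r} → ℝ) => pden f g κ L ((splitR r).symm z)) :=
    hL.comp_linear (fun z => (splitR r).symm z) (splitR r).symm.continuous.measurable
      (fun x y a b _ => by rw [map_add, map_smul, map_smul])
  have hint : ∫⁻ z : ℝ × ({v // ¬ v = r} → ℝ),
      ENNReal.ofReal (pden f g κ L ((splitR r).symm z)) =
      ∫⁻ x, ENNReal.ofReal (pden f g κ L x) :=
    lintegral_equiv (splitR r).toHomeomorph.toMeasurableEquiv (splitR_mp r)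
      (fun x => ENNReal.ofReal (pden f g κ L x))
  refine hext.scale {v // ¬ v = r} hlc (by rw [hint]; exact hint0) (by rw [hint]; exact hintt)
    (by nlinarith) fun y hy => ?_
  -- the fibre
  have hroot := fun x => pden_root H r hancr κ L y x
  simp only [hroot] at hy ⊢
  have hfr : 0 < f r (Pi.single r y) := by
    refine lt_of_le_of_ne (H.nn _ _) fun h0 => hy ?_
    simp only [← h0, zero_mul, ENNReal.ofReal_zero, lintegral_zero]
  have hc : 0 < f r (Pi.single r y) * Real.exp (L (Pi.single r y) - κ * y ^ 2) :=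
    mul_pos hfr (Real.exp_pos _)
  have hlcf : LCd (fun z : {v // ¬ v = r} → ℝ =>
      ∏ v : {v // ¬ v = r}, f v (extz (fun v => ¬ v = r) z + Pi.single r y)) := by
    apply LCd.of_const_mul hfr
    have h1 := H.lc.extzP (fun v => ¬ v = r) (Pi.single r y)
    have e : (fun z : {v // ¬ v = r} → ℝ => ∏ v, f v (extz (fun v => ¬ v = r) z + Pi.single r y)) =
        fun z => f r (Pi.single r y) *
          ∏ v : {v // ¬ v = r}, f v (extz (fun v => ¬ v = r) z + Pi.single r y) := by
      ext z
      rw [Fintype.prod_eq_mul_prod_subtype_ne _ r]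
      congr 1
      apply H.dep
      intro u hu
      rw [hancr u hu, Pi.add_apply, extz_neg (p := fun v => ¬ v = r) _ (not_not.2 rfl), zero_add]
    rwa [e] at h1
  have hH := H.restrict (fun v => ¬ v = r) (Pi.single r y) hlcf
  set Φ : ({v // ¬ v = r} → ℝ) → ℝ :=
    pden (fun (v : {v // ¬ v = r}) z => f v (extz (fun v => ¬ v = r) z + Pi.single r y))
      (fun (i : {i // ¬ a i = r}) z => g i (extz (fun v => ¬ v = r) z + Pi.single r y)) κ 0 with hΦ
  have hΦe : ∀ (L' : ({v // ¬ v = r} → ℝ) →L[ℝ] ℝ) x, Φ x * Real.exp (L' x) =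
      pden (fun (v : {v // ¬ v = r}) z => f v (extz (fun v => ¬ v = r) z + Pi.single r y))
        (fun (i : {i // ¬ a i = r}) z => g i (extz (fun v => ¬ v = r) z + Pi.single r y)) κ L' x := by
    intro L' x
    rw [hΦ]
    unfold pden
    rw [mul_assoc, ← Real.exp_add]
    congr 2
    rw [_root_.zero_apply]
    ring
  have hAP : ∀ L' : ({v // ¬ v = r} → ℝ) →L[ℝ] ℝ,
      AP (dens (fun x => Φ x * Real.exp (L' x))) (C ^ t') := by
    intro L'
    simp only [hΦe]
    exact ih {v // ¬ v = r} {i // ¬ a i = r} (fun v => (anc v).subtype (fun v => ¬ v = r))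
      (fun i => ⟨a i, i.2⟩) (fun i => k i.1) t' (by
        have := Fintype.card_subtype_lt (p := fun v => ¬ v = r) (x := r) (not_not.2 rfl)
        omega) (hanc.sub _) (by
        intro u v hu hv
        rw [Finset.mem_subtype] at hu hv
        exact Subtype.ext (hanti _ _ hu hv)) (by
        intro v S hS
        have h1 := hs v.1 (S.map (Function.Embedding.subtype _) ∪
          (Finset.univ : Finset {i // a i = r}).map (Function.Embedding.subtype _)) (by
            intro i hi
            rw [Finset.mem_union] at hi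
            rcases hi with hi | hi
            · rw [Finset.mem_map] at hi
              obtain ⟨j, hj, rfl⟩ := hi
              have := hS j hj
              rw [Finset.mem_subtype] at this
              exact this
            · exact hJ v.1 i hi)
        have h2 : ((anc v).filter (fun v => ¬ v = r)).card < (anc v).card := by
          apply Finset.card_lt_card
          rw [Finset.filter_ssubset]
          exact ⟨r, hr v, by simp⟩
        rw [Finset.card_subtype]
        rw [Finset.sum_union, Finset.sum_map, hmap] at h1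
        · have h3 : ∑ i ∈ S, k (Function.Embedding.subtype (fun i => ¬ a i = r) i) =
            ∑ i ∈ S, k i.1 := rfl
          rw [h3] at h1
          omega
        · rw [Finset.disjoint_left]
          intro i hi hi'
          rw [Finset.mem_map] at hi hi'
          obtain ⟨j, _, rfl⟩ := hi
          obtain ⟨j', _, hj'⟩ := hi'
          have h3 : a j'.1 = r := j'.2
          have h4 : j'.1 = j.1 := hj'
          rw [h4] at h3
          exact j.2 h3) _ _ _ hH κ hκ L'
  have hΦl : LCd Φ := hH.pden_LCd hκ.le 0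
  have hψl : ∀ i : {i // a i = r}, LCd (fun z : {v // ¬ v = r} → ℝ =>
      g i (extz (fun v => ¬ v = r) z + Pi.single r y)) :=
    fun i => (H.glc i).extzP (fun v => ¬ v = r) (Pi.single r y)
  have key := rank_iterG hC hrank hΦl
    (ψ := fun (i : {i // a i = r}) z => g i (extz (fun v => ¬ v = r) z + Pi.single r y))
    hψl (fun i => k i.1)
    (fun i j => (B i j).comp (extz (fun v => ¬ v = r))) (by
      intro i x x' hx
      apply H.gdep
      · intro u hu
        rw [i.2] at hu
        rw [hancr u hu, Pi.add_apply, Pi.add_apply,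
          extz_neg (p := fun v => ¬ v = r) _ (not_not.2 rfl),
          extz_neg (p := fun v => ¬ v = r) _ (not_not.2 rfl)]
      · intro j
        have := hx j
        simp only [ContinuousLinearMap.comp_apply] at this
        rw [map_add, map_add, this]) (by
      intro J L'
      have h1 := lint_gauss_ne_top ((hH.lc.mulP (LCd.prodP hH.glc Finset.univ)).mulP
        (LCd.prodP hψl J)) L' hκ
      have e : (fun x => Φ x * (∏ i ∈ J, (fun (i : {i // a i = r}) z =>
          g i (extz (fun v => ¬ v = r) z + Pi.single r y)) i x) * Real.exp (L' x)) = fun x =>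
          (∏ v : {v // ¬ v = r}, f v (extz (fun v => ¬ v = r) x + Pi.single r y)) *
          (∏ i : {i // ¬ a i = r}, g i (extz (fun v => ¬ v = r) x + Pi.single r y)) *
          (∏ i ∈ J, g i (extz (fun v => ¬ v = r) x + Pi.single r y)) *
            Real.exp (L' x - κ * ∑ w, x w ^ 2) := by
        ext x
        have := hΦe L' x
        calc _ = (Φ x * Real.exp (L' x)) *
              ∏ i ∈ J, g i (extz (fun v => ¬ v = r) x + Pi.single r y) := by ring
          _ = _ := by
              rw [this]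
              unfold pden
              ring
      have e' := fun x => congrFun e x
      simp only at e'
      simp only [e']
      exact h1) hK' hAP Finset.univ (L.comp (extz (fun v => ¬ v = r)))
  have hmeas : Measurable (fun x => Φ x *
      (∏ i : {i // a i = r}, g i (extz (fun v => ¬ v = r) x + Pi.single r y)) *
      Real.exp ((L.comp (extz (fun v => ¬ v = r))) x)) :=
    (hΦl.mulP (LCd.prodP hψl Finset.univ)).ms.mul (by fun_prop)
  rw [dens_const_mul hmeas hc]
  exact key

theorem gp (hC : 1 ≤ C) (hext : FibreStat C) (hrank : ∀ k, RankG (C ^ k) k) (n : ℕ) :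
    GP C n := by
  have hempty : ∀ (V ι : Type) [Fintype V] [DecidableEq V] [Fintype ι] [DecidableEq ι]
      (anc : V → Finset V) (a : ι → V) (k : ι → ℕ) (t : ℕ)
      (B : (i : ι) → Fin (k i) → (V → ℝ) →L[ℝ] ℝ) (f : V → (V → ℝ) → ℝ) (g : ι → (V → ℝ) → ℝ),
      IsEmpty V → PDataP anc a k B f g → ∀ κ : ℝ, 0 < κ → ∀ L : (V → ℝ) →L[ℝ] ℝ,
      AP (dens (pden f g κ L)) (C ^ t) := by
    intro V ι _ _ _ _ anc a k t B f g hV H κ hκ L
    exact ap_cases (H.pden_LCd hκ.le L).ms fun h0 h1 => AP.of_isEmpty_dens h0 h1 (by positivity)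
  induction n with
  | zero =>
    intro V ι _ _ _ _ anc a k t hn hanc hanti hs B f g H κ hκ L
    have hV : IsEmpty V := Fintype.card_eq_zero_iff.1 (Nat.le_zero.1 hn)
    exact hempty V ι anc a k t B f g hV H κ hκ L
  | succ n ih =>
    intro V ι _ _ _ _ anc a k t hn hanc hanti hs B f g H κ hκ L
    rcases isEmpty_or_nonempty V with hV | hV
    · exact hempty V ι anc a k t B f g hV H κ hκ L
    obtain ⟨v₀⟩ := hV
    obtain ⟨r, hr0, hrmin⟩ := Finset.exists_min_image (anc v₀) (fun u => (anc u).card)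
      ⟨v₀, hanc.self v₀⟩
    have hmin : ∀ w ∈ anc r, w = r := by
      intro w hw
      have h1 : anc w ⊆ anc r := hanc.trans w r hw
      have h2 : w ∈ anc v₀ := hanc.trans r v₀ hr0 hw
      have h3 := Finset.eq_of_subset_of_card_le h1 (hrmin w h2)
      refine hanti w r hw ?_
      rw [h3]
      exact hanc.self r
    by_cases hall : ∀ v, r ∈ anc v
    · exact gp_root hC hext hrank ih hn hanc hanti hs H hκ L hall
    push Not at hall
    obtain ⟨v₁, hv₁⟩ := hall
    have hp1 : ∀ v, r ∈ anc v → ∀ w ∈ anc v, r ∈ anc w := by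
      intro v hv w hw
      rcases hanc.chain r w v hv hw with h | h
      · exact h
      · rw [hmin w h]
        exact hanc.self r
    have hp2 : ∀ v, ¬ r ∈ anc v → ∀ w ∈ anc v, ¬ r ∈ anc w := by
      intro v hv w hw h
      exact hv (hanc.trans w v hw h)
    have hLd := H.pden_LCd hκ.le L
    refine ap_cases hLd.ms fun hint0 hintt => ?_
    -- both factors are log-concave
    obtain ⟨x₀, hx₀⟩ := exists_pos_of_lintegral hint0
    have hfx : 0 < ∏ v, f v x₀ := by
      refine lt_of_le_of_ne (H.lc.nn x₀) fun h0 => ?_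
      unfold pden at hx₀
      rw [← h0, zero_mul, zero_mul] at hx₀
      exact lt_irrefl _ hx₀
    set z₀ := splitL (fun v => r ∈ anc v) x₀ with hz₀
    have hsymm : (splitL (fun v => r ∈ anc v)).symm z₀ = x₀ := by
      rw [hz₀, ContinuousLinearEquiv.symm_apply_apply]
    set ρ₁ : ({v // r ∈ anc v} → ℝ) → ℝ := fun x =>
      ∏ v : {v // r ∈ anc v}, f v (extz (fun v => r ∈ anc v) x + 0) with hρ₁
    set ρ₂ : ({v // ¬ r ∈ anc v} → ℝ) → ℝ := fun x =>
      ∏ v : {v // ¬ r ∈ anc v}, f v (extz (fun v => ¬ r ∈ anc v) x + 0) with hρ₂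
    have hsp : ∀ z, ∏ v, f v ((splitL (fun v => r ∈ anc v)).symm z) = ρ₁ z.1 * ρ₂ z.2 := by
      intro z
      rw [← Fintype.prod_subtype_mul_prod_subtype (fun v => r ∈ anc v)]
      congr 1
      · refine Finset.prod_congr rfl fun v _ => ?_
        rw [add_zero]
        apply H.dep
        intro u hu
        have hp := hp1 _ v.2 u hu
        rw [splitL_symm_apply, dif_pos hp, extz_pos (p := fun v => r ∈ anc v) _ hp]
      · refine Finset.prod_congr rfl fun v _ => ?_
        rw [add_zero]
        apply H.dep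
        intro u hu
        have hp := hp2 _ v.2 u hu
        rw [splitL_symm_apply, dif_neg hp, extz_pos (p := fun v => ¬ r ∈ anc v) _ hp]
    have n1 : ∀ x, 0 ≤ ρ₁ x := fun x => Finset.prod_nonneg fun v _ => H.nn v _
    have n2 : ∀ x, 0 ≤ ρ₂ x := fun x => Finset.prod_nonneg fun v _ => H.nn v _
    have m1 : Measurable ρ₁ := Finset.measurable_fun_prod _ fun v _ =>
      (H.ms v).comp (by fun_prop)
    have m2 : Measurable ρ₂ := Finset.measurable_fun_prod _ fun v _ =>
      (H.ms v).comp (by fun_prop)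
    have hlc : LCd (fun z : ({v // r ∈ anc v} → ℝ) × ({v // ¬ r ∈ anc v} → ℝ) =>
        ρ₁ z.1 * ρ₂ z.2) := by
      have := H.lc.comp_linear (fun z => (splitL (fun v => r ∈ anc v)).symm z)
        (splitL (fun v => r ∈ anc v)).symm.continuous.measurable
        (fun x y a b _ => by rw [map_add, map_smul, map_smul])
      simp only [hsp] at this
      exact this
    have hpos : 0 < ρ₁ z₀.1 * ρ₂ z₀.2 := by
      rw [← hsp, hsymm]
      exact hfx
    have hpos1 : 0 < ρ₁ z₀.1 := by
      refine lt_of_le_of_ne (n1 _) fun h0 => ?_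
      rw [← h0, zero_mul] at hpos
      exact lt_irrefl _ hpos
    have hpos2 : 0 < ρ₂ z₀.2 := by
      refine lt_of_le_of_ne (n2 _) fun h0 => ?_
      rw [← h0, mul_zero] at hpos
      exact lt_irrefl _ hpos
    have hH1 := H.restrict (fun v => r ∈ anc v) 0 (hlc.left n1 m1 hpos2)
    have hH2 := H.restrict (fun v => ¬ r ∈ anc v) 0 (hlc.right n2 m2 hpos1)
    have hsub : ∀ (p : V → Prop) [DecidablePred p], Fintype.card {v // p v} ≤ n →
        LCd (fun z : {v // p v} → ℝ => ∏ v : {v // p v}, f v (extz p z + 0)) →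
        ∀ L' : ({v // p v} → ℝ) →L[ℝ] ℝ,
        AP (dens (pden (fun (v : {v // p v}) z => f v (extz p z + 0))
          (fun (i : {i // p (a i)}) z => g i (extz p z + 0)) κ L'))
          (C ^ t) := by
      intro p _ hpn hlp L'
      refine ih {v // p v} {i // p (a i)} (fun v => (anc v).subtype p) (fun i => ⟨a i, i.2⟩)
        (fun i => k i.1) t hpn (hanc.sub _) (fun u v hu hv => ?_) (fun v S hS => ?_) _ _ _
        (H.restrict p 0 hlp) κ hκ L'
      · rw [Finset.mem_subtype] at hu hv
        exact Subtype.ext (hanti _ _ hu hv)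
      · have h1 := hs v.1 (S.map (Function.Embedding.subtype _)) (by
          intro i hi
          rw [Finset.mem_map] at hi
          obtain ⟨j, hj, rfl⟩ := hi
          have := hS j hj
          rw [Finset.mem_subtype] at this
          exact this)
        rw [Finset.sum_map] at h1
        rw [Finset.card_subtype]
        have h2 : ((anc v).filter p).card ≤ (anc v).card := Finset.card_filter_le _ _
        have h3 : ∑ i ∈ S, k (Function.Embedding.subtype (fun i => p (a i)) i) =
            ∑ i ∈ S, k i.1 := rfl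
        rw [h3] at h1
        omega
    have hc1 : Fintype.card {v // r ∈ anc v} ≤ n := by
      have := Fintype.card_subtype_lt (p := fun v => r ∈ anc v) hv₁
      omega
    have hc2 : Fintype.card {v // ¬ r ∈ anc v} ≤ n := by
      have := Fintype.card_subtype_lt (p := fun v => ¬ r ∈ anc v) (x := r)
        (not_not.2 (hanc.self r))
      omega
    refine AP.of_equiv_dens (splitL (fun v => r ∈ anc v)) (splitL_mp (fun v => r ∈ anc v)) ?_
    have e : (fun z => pden f g κ L ((splitL (fun v => r ∈ anc v)).symm z)) =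
        fun z : ({v // r ∈ anc v} → ℝ) × ({v // ¬ r ∈ anc v} → ℝ) =>
        pden (fun (v : {v // r ∈ anc v}) z => f v (extz (fun v => r ∈ anc v) z + 0))
          (fun (i : {i // r ∈ anc (a i)}) z => g i (extz (fun v => r ∈ anc v) z + 0)) κ
          (L.comp (extz (fun v => r ∈ anc v))) z.1 *
        pden (fun (v : {v // ¬ r ∈ anc v}) z => f v (extz (fun v => ¬ r ∈ anc v) z + 0))
          (fun (i : {i // ¬ r ∈ anc (a i)}) z => g i (extz (fun v => ¬ r ∈ anc v) z + 0)) κ
          (L.comp (extz (fun v => ¬ r ∈ anc v))) z.2 := by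
      ext z
      exact pden_split H (fun v => r ∈ anc v) hp1 hp2 κ L z
    have l1 := hH1.pden_LCd hκ.le (L.comp (extz (fun v => r ∈ anc v)))
    have l2 := hH2.pden_LCd hκ.le (L.comp (extz (fun v => ¬ r ∈ anc v)))
    have t1 := hH1.pden_ne_top hκ (L.comp (extz (fun v => r ∈ anc v)))
    have t2 := hH2.pden_ne_top hκ (L.comp (extz (fun v => ¬ r ∈ anc v)))
    have hint : ∫⁻ x, ENNReal.ofReal (pden f g κ L x) =
        (∫⁻ x, ENNReal.ofReal (pden (fun (v : {v // r ∈ anc v}) z =>
          f v (extz (fun v => r ∈ anc v) z + 0))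
          (fun (i : {i // r ∈ anc (a i)}) z => g i (extz (fun v => r ∈ anc v) z + 0)) κ
          (L.comp (extz (fun v => r ∈ anc v))) x)) *
        ∫⁻ x, ENNReal.ofReal (pden (fun (v : {v // ¬ r ∈ anc v}) z =>
          f v (extz (fun v => ¬ r ∈ anc v) z + 0))
          (fun (i : {i // ¬ r ∈ anc (a i)}) z => g i (extz (fun v => ¬ r ∈ anc v) z + 0)) κ
          (L.comp (extz (fun v => ¬ r ∈ anc v))) x) := by
      rw [← lintegral_prod_dens l1.nn l1.ms l2.ms,
        ← lintegral_equiv (splitL (fun v => r ∈ anc v)).toHomeomorph.toMeasurableEquiv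
          (splitL_mp (fun v => r ∈ anc v))]
      congr 1
      funext z
      exact congrArg ENNReal.ofReal (congrFun e z)
    rw [hint] at hint0
    have z1 := left_ne_zero_of_mul hint0
    have z2 := right_ne_zero_of_mul hint0
    rw [e, dens_prod l1.nn l1.ms l2.ms z1 t1]
    have p1 := dens_prob z1 t1
    have p2 := dens_prob z2 t2
    exact AP.prod (memLp_norm_pi (l1.plm z1 t1)) (memLp_norm_pi (l2.plm z2 t2))
      (hsub (fun v => r ∈ anc v) hc1 hH1.lc (L.comp (extz (fun v => r ∈ anc v))))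
      (hsub (fun v => ¬ r ∈ anc v) hc2 hH2.lc (L.comp (extz (fun v => ¬ r ∈ anc v))))

end mainP

/-- P4: forests with only the product of the base factors log-concave, and additional
log-concave factors depending on the ancestors of an anchor and on `k i` functionals -/
theorem forestP {Cf Cr : ℝ} (hCf : 1 ≤ Cf) (hext : FibreStat Cf) (hCr : 1 ≤ Cr)
    (hrank : ∀ k, RankG (Cr ^ k) k) : ∀ (t : ℕ) (V ι : Type) [Fintype V] [DecidableEq V]
    [Fintype ι] (anc : V → Finset V), Anc anc → ∀ (a : ι → V) (k : ι → ℕ),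
    (∀ v, (anc v).card + ∑ i ∈ Finset.univ.filter (fun i => a i ∈ anc v), k i ≤ t) →
    ∀ B : (i : ι) → Fin (k i) → (V → ℝ) →L[ℝ] ℝ,
    (∀ i j w, B i j (Pi.single w 1) ≠ 0 → a i ∈ anc w ∨ w ∈ anc (a i)) →
    ∀ (f : V → (V → ℝ) → ℝ) (g : ι → (V → ℝ) → ℝ) (κ : ℝ), 0 < κ → (∀ v x, 0 ≤ f v x) →
    (∀ v, Measurable (f v)) → (∀ v, DepOn (f v) (anc v)) → LCd (fun x => ∏ v, f v x) →
    (∀ i, LCd (g i)) →
    (∀ i x y, (∀ u ∈ anc (a i), x u = y u) → (∀ j, B i j x = B i j y) → g i x = g i y) →
    ∀ L : (V → ℝ) →L[ℝ] ℝ,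
      AP (dens (fun x => (∏ v, f v x) * (∏ i, g i x) * Real.exp (L x - κ * ∑ w, x w ^ 2)))
        (max Cf Cr ^ t) := by
  classical
  intro t V ι _ _ _ anc hanc a₀ k ht B hB f g κ hκ hnn hms hdepf hlc hglc hdep L
  have hC : 1 ≤ max Cf Cr := hCf.trans (le_max_left _ _)
  have hext' : FibreStat (max Cf Cr) := by
    intro W _ ρ hρ h1 K hK h
    refine ap_monoK (hext W ρ hρ h1 K hK h) ?_
    have := le_max_left Cf Cr
    nlinarith
  have hrank' : ∀ k, RankG (max Cf Cr ^ k) k := by
    intro k W _ ρ g b K hK hρ hg hd hfin h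
    refine ap_monoK (hrank k W ρ g b K hK hρ hg hd hfin h) ?_
    have h1 : Cr ^ k ≤ max Cf Cr ^ k := by
      gcongr
      exact le_max_right _ _
    nlinarith
  -- numbering of the vertices
  set e : V → ℕ := fun v => (Fintype.equivFin V v : ℕ) with he
  have hei : ∀ u v, e u = e v → u = v := by
    intro u v h
    exact (Fintype.equivFin V).injective (Fin.ext h)
  set anc' : V → Finset V := fun v => (anc v).filter (fun u => v ∉ anc u ∨ e u ≤ e v) with hanc'
  have hmem : ∀ u v, u ∈ anc' v ↔ u ∈ anc v ∧ (v ∉ anc u ∨ e u ≤ e v) := by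
    intro u v
    rw [hanc', Finset.mem_filter]
  have hA : Anc anc' := by
    refine ⟨fun v => ?_, fun u v huv w hw => ?_, fun u w v hu hw => ?_⟩
    · rw [hmem]
      exact ⟨hanc.self v, Or.inr le_rfl⟩
    · rw [hmem] at huv hw ⊢
      refine ⟨hanc.trans u v huv.1 hw.1, ?_⟩
      by_cases hvw : v ∈ anc w
      · right
        have h1 : v ∈ anc u := hanc.trans w u hw.1 hvw
        have h2 : u ∈ anc w := hanc.trans v w hvw huv.1
        rcases huv.2 with h3 | h3
        · exact absurd h1 h3
        · rcases hw.2 with h4 | h4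
          · exact absurd h2 h4
          · exact h4.trans h3
      · exact Or.inl hvw
    · rw [hmem] at hu hw
      by_cases h1 : u ∈ anc w
      · by_cases h2 : w ∈ anc u
        · rcases le_total (e u) (e w) with h3 | h3
          · exact Or.inl ((hmem u w).2 ⟨h1, Or.inr h3⟩)
          · exact Or.inr ((hmem w u).2 ⟨h2, Or.inr h3⟩)
        · exact Or.inl ((hmem u w).2 ⟨h1, Or.inl h2⟩)
      · rcases hanc.chain u w v hu.1 hw.1 with h2 | h2
        · exact absurd h2 h1
        · exact Or.inr ((hmem w u).2 ⟨h2, Or.inl h1⟩)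
  have hanti : ∀ u v, u ∈ anc' v → v ∈ anc' u → u = v := by
    intro u v h1 h2
    rw [hmem] at h1 h2
    rcases h1.2 with h3 | h3
    · exact absurd h2.1 h3
    · rcases h2.2 with h4 | h4
      · exact absurd h1.1 h4
      · exact hei u v (le_antisymm h3 h4)
  -- the top element of a class
  have htop : ∀ v, ∃ u, u ∈ anc v ∧ v ∈ anc u ∧ ∀ w, w ∈ anc v → v ∈ anc w → e w ≤ e u := by
    intro v
    obtain ⟨u, hu, hmax⟩ := Finset.exists_max_image ((anc v).filter (fun u => v ∈ anc u)) e
      ⟨v, Finset.mem_filter.2 ⟨hanc.self v, hanc.self v⟩⟩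
    rw [Finset.mem_filter] at hu
    exact ⟨u, hu.1, hu.2, fun w h1 h2 => hmax w (Finset.mem_filter.2 ⟨h1, h2⟩)⟩
  choose a ha1 ha2 ha3 using htop
  have haeq : ∀ v, anc (a v) = anc v := fun v =>
    Finset.Subset.antisymm (hanc.trans _ _ (ha1 v)) (hanc.trans _ _ (ha2 v))
  have haeq' : ∀ v, anc' (a v) = anc v := by
    intro v
    ext w
    rw [hmem, haeq]
    constructor
    · exact fun h => h.1
    · intro h
      refine ⟨h, ?_⟩
      by_cases h1 : a v ∈ anc w
      · right
        apply ha3 v w h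
        exact hanc.trans (a v) w h1 (by rw [haeq]; exact hanc.self v)
      · exact Or.inl h1
  -- the factors of a class are collected at the top element
  set f' : V → (V → ℝ) → ℝ := fun w x => ∏ v ∈ Finset.univ.filter (fun v => a v = w), f v x
    with hf'
  have hff' : ∀ x, ∏ w, f' w x = ∏ v, f v x := by
    intro x
    rw [hf']
    exact Finset.prod_fiberwise_of_maps_to (fun v _ => Finset.mem_univ (a v)) (fun v => f v x)
  have hH : PDataP anc' (fun i => a (a₀ i)) k B f' g := by
    refine ⟨fun w x => Finset.prod_nonneg fun v _ => hnn v x, fun w =>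
      Finset.measurable_fun_prod _ fun v _ => hms v, fun w x y hxy => ?_, ?_,
      fun i j w hw => ?_, hglc, fun i x y h1 h2 => ?_⟩
    · refine Finset.prod_congr rfl fun v hv => ?_
      rw [Finset.mem_filter] at hv
      apply hdepf v
      intro u hu
      apply hxy
      rw [← hv.2, haeq']
      exact hu
    · simp only [hff']
      exact hlc
    · rw [haeq']
      by_cases h1 : w ∈ anc (a₀ i)
      · exact Or.inr h1
      · left
        rcases hB i j w hw with h2 | h2
        · rw [hmem, haeq]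
          exact ⟨hanc.trans (a₀ i) w h2 (ha1 (a₀ i)), Or.inl h1⟩
        · exact absurd h2 h1
    · rw [haeq'] at h1
      exact hdep i x y h1 h2
  have key := gp hC hext' hrank' (Fintype.card V) V ι anc' (fun i => a (a₀ i)) k t le_rfl hA hanti
    (by
      intro v S hS
      have h1 : (anc' v).card ≤ (anc v).card := Finset.card_filter_le _ _
      have h2 : ∑ i ∈ S, k i ≤ ∑ i ∈ Finset.univ.filter (fun i => a₀ i ∈ anc v), k i := by
        refine Finset.sum_le_sum_of_subset_of_nonneg ?_ (fun _ _ _ => Nat.zero_le _)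
        intro i hi
        rw [Finset.mem_filter]
        have h3 := (hmem _ _).1 (hS i hi)
        exact ⟨Finset.mem_univ i, hanc.trans (a (a₀ i)) v h3.1 (ha2 (a₀ i))⟩
      have h4 := ht v
      omega) B f' g hH κ hκ L
  have e : (fun x : V → ℝ => (∏ v, f v x) * (∏ i, g i x) * Real.exp (L x - κ * ∑ w, x w ^ 2)) =
      pden f' g κ L := by
    ext x
    unfold pden
    rw [hff']
  rw [e]
  exact key

end Pool.Agent.Lib.MP_6d896a_gt.FP
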