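import Mathlib
import Pool.Agent.Lib.MP_6d896a_gt.FP.ApproxFib
import Pool.Agent.Lib.MP_6d896a_gt.FP.ForestGen

/-!
Removing a Gaussian factor in the affine invariant Poincare inequality.
-/

set_option autoImplicit false

namespace Pool.Agent.Lib.MP_6d896a_gt.FP

open MeasureTheory ProbabilityTheory Set Filter
open scoped ENNReal Topology

/-- P5: removing the Gaussian factor -/
theorem ap_gauss_limit : ∃ C : ℝ, 1 ≤ C ∧ ∀ (V : Type) [Fintype V] (ρ : (V → ℝ) → ℝ), LCd ρ →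
    ∀ K : ℝ, 1 ≤ K →
    (∀ κ : ℝ, 0 < κ → AP (dens (fun x => ρ x * Real.exp (-(κ * ∑ w, x w ^ 2)))) K) →
    AP (dens ρ) (C * K) := by
  refine ⟨1, le_refl _, ?_⟩
  intro V _ ρ hρ K hK h
  rw [one_mul]
  by_cases h0 : ∫⁻ x, ENNReal.ofReal (ρ x) = 0
  · have h2 : dens ρ = 0 := by
      unfold dens
      have h1 : (volume : Measure (V → ℝ)).withDensity (fun x => ENNReal.ofReal (ρ x)) = 0 := by
        rw [withDensity_eq_zero_iff hρ.ms.ennreal_ofReal.aemeasurable]
        exact (lintegral_eq_zero_iff hρ.ms.ennreal_ofReal).mp h0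
      rw [h1, smul_zero]
    rw [h2]
    exact AP.zero _
  by_cases h1 : ∫⁻ x, ENNReal.ofReal (ρ x) = ∞
  · rw [dens_top h1]
    exact AP.zero _
  have hprob := dens_prob h0 h1
  have hplm := hρ.plm h0 h1
  have hN : Integrable (fun x : V → ℝ => (1 + ‖x‖) ^ 2) (dens ρ) :=
    ((memLp_const (1 : ℝ)).add (memLp_norm_pi hplm)).integrable_sq
  have hN' : Integrable (fun x : V → ℝ => (1 + ‖x‖) ^ 2 * ρ x) := by
    unfold dens at hN
    rw [integrable_smul_measure (ENNReal.inv_ne_zero.mpr h1) (ENNReal.inv_ne_top.mpr h0),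
      integrable_withDensity_iff_integrable_smul' hρ.ms.ennreal_ofReal
        (ae_of_all _ fun x => ENNReal.ofReal_lt_top)] at hN
    refine hN.congr (ae_of_all _ fun p => ?_)
    simp only [smul_eq_mul]
    rw [ENNReal.toReal_ofReal (hρ.nn p), mul_comm]
  have hρi : Integrable ρ := by
    refine ⟨hρ.ms.aestronglyMeasurable, ?_⟩
    rw [hasFiniteIntegral_iff_ofReal (ae_of_all _ hρ.nn)]
    exact lt_top_iff_ne_top.mpr h1
  have hpos : 0 < ∫ x, ρ x := by
    have h3 : ENNReal.ofReal (∫ x, ρ x) = ∫⁻ x, ENNReal.ofReal (ρ x) :=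
      ofReal_integral_eq_lintegral_ofReal hρi (ae_of_all _ hρ.nn)
    rw [← ENNReal.ofReal_pos, h3]
    exact pos_iff_ne_zero.mpr h0
  refine AF.AP_limit_gen
    (p := fun k x => ρ x * Real.exp (-(1 / ((k : ℝ) + 1) * ∑ w, x w ^ 2))) (P := ρ)
    (fun k x => mul_nonneg (hρ.nn x) (Real.exp_pos _).le) (fun k => ?_) hρ.nn hρ.ms
    (fun k => ae_of_all _ fun x => ?_) hN' (ae_of_all _ fun x => ?_) hpos
    (fun k => h _ (by positivity))
  · exact hρ.ms.mul (Real.measurable_exp.comp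
      (((Finset.measurable_sum _ fun w _ => (measurable_pi_apply w).pow_const 2).const_mul _).neg))
  · have h3 : Real.exp (-(1 / ((k : ℝ) + 1) * ∑ w, x w ^ 2)) ≤ 1 := by
      rw [Real.exp_le_one_iff]
      have : 0 ≤ 1 / ((k : ℝ) + 1) * ∑ w, x w ^ 2 := by positivity
      linarith
    calc _ ≤ ρ x * 1 := mul_le_mul_of_nonneg_left h3 (hρ.nn x)
      _ = ρ x := mul_one _
  · have h3 : Tendsto (fun k : ℕ => -(1 / ((k : ℝ) + 1) * ∑ w, x w ^ 2)) atTop (𝓝 0) := by
      have := ((tendsto_one_div_add_atTop_nhds_zero_nat (𝕜 := ℝ)).mul_const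
        (∑ w, x w ^ 2)).neg
      simpa using this
    have h4 := ((Real.continuous_exp.tendsto _).comp h3).const_mul (ρ x)
    simpa using h4

end Pool.Agent.Lib.MP_6d896a_gt.FP
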