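import Mathlib
import Pool.Agent.Lib.MP_6d896a_gt.FP.ExtStepOf
import Pool.Agent.Lib.MP_6d896a_gt.FP.ApproxNC
import Pool.Agent.Lib.MP_6d896a_gt.FP.RankDefs

/-!
Perturbation of a nice potential, all of whose linear tilts satisfy the affine invariant Poincare
inequality, by a convex function of `k` linear functionals.
-/

set_option autoImplicit false

namespace Pool.Agent.Lib.MP_6d896a_gt.FP

open MeasureTheory ProbabilityTheory Set Filter
open scoped ENNReal Topology

section nc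

variable {E F : Type*} [NormedAddCommGroup E] [NormedSpace ℝ E]
  [NormedAddCommGroup F] [NormedSpace ℝ F]

lemma Nice.nc {φ : E → ℝ} (h : Nice φ) : NC φ := by
  obtain ⟨C, hC⟩ := h.bd
  obtain ⟨D, hD⟩ := h.lip
  have hC0 : 0 ≤ C := (norm_nonneg (fderiv ℝ (fderiv ℝ φ) 0)).trans (hC 0)
  refine ⟨h.cd, max C |D|, le_max_of_le_left hC0, fun x => (hC x).trans (le_max_left _ _),
    fun x y => (hD x y).trans ?_⟩
  gcongr
  exact (le_abs_self D).trans (le_max_right _ _)

/-- composition with an affine map -/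
lemma NC.comp_affine {φ : E → ℝ} (h : NC φ) (A : F →L[ℝ] E) (b : E) :
    NC (fun z => φ (A z + b)) := by
  obtain ⟨hcd, C, hC, hb, hl⟩ := h
  set T : (E →L[ℝ] ℝ) →L[ℝ] (F →L[ℝ] ℝ) := (ContinuousLinearMap.compL ℝ F E ℝ).flip A with hT
  have hA : ∀ z, HasFDerivAt (fun z => A z + b) A z := fun z => A.hasFDerivAt.add_const b
  have hd1 : ∀ z, HasFDerivAt (fun z => φ (A z + b)) (T (fderiv ℝ φ (A z + b))) z := by
    intro z
    have h1 : HasFDerivAt φ (fderiv ℝ φ (A z + b)) (A z + b) :=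
      (hcd.differentiable (by norm_num) _).hasFDerivAt
    exact h1.comp z (hA z)
  have hf1 : fderiv ℝ (fun z => φ (A z + b)) = fun z => T (fderiv ℝ φ (A z + b)) := by
    ext1 z
    exact (hd1 z).fderiv
  have hcd1 : ContDiff ℝ 1 (fderiv ℝ φ) := hcd.fderiv_right (by norm_num)
  have hd2 : ∀ z, HasFDerivAt (fun z => T (fderiv ℝ φ (A z + b)))
      (T.comp ((fderiv ℝ (fderiv ℝ φ) (A z + b)).comp A)) z := by
    intro z
    have h1 : HasFDerivAt (fderiv ℝ φ) (fderiv ℝ (fderiv ℝ φ) (A z + b)) (A z + b) :=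
      (hcd1.differentiable (by norm_num) _).hasFDerivAt
    exact T.hasFDerivAt.comp z (h1.comp z (hA z))
  have hf2 : ∀ z, fderiv ℝ (fderiv ℝ (fun z => φ (A z + b))) z
      = T.comp ((fderiv ℝ (fderiv ℝ φ) (A z + b)).comp A) := by
    intro z
    rw [hf1]
    exact (hd2 z).fderiv
  have hn : ∀ D : E →L[ℝ] (E →L[ℝ] ℝ), ‖T.comp (D.comp A)‖ ≤ ‖T‖ * (‖D‖ * ‖A‖) := by
    intro D
    refine (ContinuousLinearMap.opNorm_comp_le _ _).trans ?_
    gcongr
    exact ContinuousLinearMap.opNorm_comp_le _ _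
  refine ⟨hcd.comp (by fun_prop), ?_⟩
  refine ⟨max (‖T‖ * (C * ‖A‖)) (‖T‖ * (C * ‖A‖ * ‖A‖)), by positivity, fun z => ?_,
    fun x y => ?_⟩
  · rw [hf2]
    refine (hn _).trans (le_trans ?_ (le_max_left _ _))
    gcongr
    exact hb _
  · rw [hf2, hf2]
    have h1 : T.comp ((fderiv ℝ (fderiv ℝ φ) (A x + b)).comp A)
        - T.comp ((fderiv ℝ (fderiv ℝ φ) (A y + b)).comp A)
        = T.comp ((fderiv ℝ (fderiv ℝ φ) (A x + b) - fderiv ℝ (fderiv ℝ φ) (A y + b)).comp A) := by
      rw [ContinuousLinearMap.sub_comp, ContinuousLinearMap.comp_sub]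
    rw [h1]
    refine (hn _).trans ?_
    have h2 : ‖fderiv ℝ (fderiv ℝ φ) (A x + b) - fderiv ℝ (fderiv ℝ φ) (A y + b)‖
        ≤ C * (‖A‖ * ‖x - y‖) := by
      refine (hl _ _).trans ?_
      have h3 : (A x + b) - (A y + b) = A (x - y) := by
        rw [map_sub]; abel
      rw [h3]
      gcongr
      exact A.le_opNorm _
    calc ‖T‖ * (‖fderiv ℝ (fderiv ℝ φ) (A x + b) - fderiv ℝ (fderiv ℝ φ) (A y + b)‖ * ‖A‖)
        ≤ ‖T‖ * ((C * (‖A‖ * ‖x - y‖)) * ‖A‖) := by gcongr
      _ = ‖T‖ * (C * ‖A‖ * ‖A‖) * ‖x - y‖ := by ring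
      _ ≤ _ := by
        gcongr
        exact le_max_right _ _

/-- a nice potential plus a convex `NC` function is nice -/
lemma Nice.add_convex {φ ψ : E → ℝ} (h : Nice φ) (hψ : NC ψ) (hc : ConvexOn ℝ univ ψ) :
    Nice (fun x => φ x + ψ x) := by
  refine (h.nc.add hψ).nice ?_
  obtain ⟨κ, hκ, hsc⟩ := h.sc
  refine ⟨κ, hκ, fun x y => ?_⟩
  have h1 := hsc x y
  have h2 := hc.2 (mem_univ x) (mem_univ y) (by norm_num : (0 : ℝ) ≤ 1 / 2)
    (by norm_num : (0 : ℝ) ≤ 1 / 2) (by norm_num)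
  rw [← smul_add, smul_eq_mul, smul_eq_mul] at h2
  linarith

end nc

section transport

variable {E F : Type*} [NormedAddCommGroup E] [NormedSpace ℝ E]
  [NormedAddCommGroup F] [NormedSpace ℝ F]

/-- Gibbs measures and linear equivalences: the constant factor between the Haar measures
cancels -/
lemma gibbs_map_haar [MeasureSpace E] [BorelSpace E] [MeasureSpace F] [BorelSpace F]
    [FiniteDimensional ℝ F]
    [(volume : Measure E).IsAddHaarMeasure] [(volume : Measure F).IsAddHaarMeasure]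
    (e : E ≃L[ℝ] F) (φ : F → ℝ) :
    (gibbs (fun x => φ (e x))).map e = gibbs φ := by
  set me : E ≃ᵐ F := e.toHomeomorph.toMeasurableEquiv with hme
  have hco : (me : E → F) = e := rfl
  have hmap : ((volume : Measure E).map e).IsAddHaarMeasure :=
    ContinuousLinearEquiv.isAddHaarMeasure_map e volume
  set c := Measure.addHaarScalarFactor ((volume : Measure E).map e) (volume : Measure F) with hc
  have hvol : (volume : Measure E).map e = c • (volume : Measure F) :=
    Measure.isAddLeftInvariant_eq_smul _ _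
  have hc0 : (c : ℝ≥0∞) ≠ 0 := by
    have := Measure.addHaarScalarFactor_pos_of_isAddHaarMeasure
      ((volume : Measure E).map e) (volume : Measure F)
    exact_mod_cast this.ne'
  have hc1 : (c : ℝ≥0∞) ≠ ∞ := ENNReal.coe_ne_top
  set g : F → ℝ≥0∞ := fun y => ENNReal.ofReal (Real.exp (-φ y)) with hg
  have h1 : ∫⁻ x, g (e x) = c * ∫⁻ y, g y := by
    calc ∫⁻ x, g (e x) = ∫⁻ y, g y ∂((volume : Measure E).map e) := by
          rw [← hco, lintegral_map_equiv]
      _ = _ := by rw [hvol, lintegral_smul_measure]; rfl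
  have h2 : ∀ s, MeasurableSet s → ∫⁻ x in e ⁻¹' s, g (e x) = c * ∫⁻ y in s, g y := by
    intro s hs
    calc ∫⁻ x in e ⁻¹' s, g (e x) = ∫⁻ y in s, g y ∂((volume : Measure E).map e) := by
          rw [← hco, MeasurableEquiv.restrict_map, lintegral_map_equiv]
      _ = _ := by rw [hvol, Measure.restrict_smul, lintegral_smul_measure]; rfl
  unfold gibbs
  ext s hs
  rw [← hco, Measure.map_apply me.measurable hs, Measure.smul_apply, Measure.smul_apply,
    withDensity_apply _ (me.measurable hs), withDensity_apply _ hs, hco]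
  rw [h1, h2 s hs, smul_eq_mul, smul_eq_mul, ENNReal.mul_inv (Or.inl hc0) (Or.inl hc1)]
  calc (c : ℝ≥0∞)⁻¹ * (∫⁻ y, g y)⁻¹ * (c * ∫⁻ y in s, g y)
      = ((c : ℝ≥0∞)⁻¹ * c) * ((∫⁻ y, g y)⁻¹ * ∫⁻ y in s, g y) := by ring
    _ = _ := by rw [ENNReal.inv_mul_cancel hc0 hc1, one_mul]

lemma AP.of_equiv_haar [MeasureSpace E] [BorelSpace E] [MeasureSpace F] [BorelSpace F]
    [FiniteDimensional ℝ E] [FiniteDimensional ℝ F]
    [(volume : Measure E).IsAddHaarMeasure] [(volume : Measure F).IsAddHaarMeasure]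
    (e : E ≃L[ℝ] F) {φ : E → ℝ} {K : ℝ} (h : AP (gibbs (fun y => φ (e.symm y))) K) :
    AP (gibbs φ) K := by
  rw [← gibbs_map_haar e.symm φ]
  exact h.map e.symm

end transport

/-- a linear equivalence whose first coordinate is a given functional -/
lemma exists_coord {E : Type*} [NormedAddCommGroup E] [NormedSpace ℝ E] [FiniteDimensional ℝ E]
    (ℓ : E →L[ℝ] ℝ) (h : ℓ ≠ 0) :
    ∃ (m : ℕ) (e : E ≃L[ℝ] ℝ × (Fin m → ℝ)), ∀ x, (e x).1 = ℓ x := by
  obtain ⟨v, hv⟩ : ∃ v, ℓ v ≠ 0 := by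
    by_contra hcon
    push Not at hcon
    exact h (ContinuousLinearMap.ext hcon)
  set w : E := (ℓ v)⁻¹ • v with hw
  have hw1 : ℓ w = 1 := by rw [hw, map_smul, smul_eq_mul, inv_mul_cancel₀ hv]
  set f₂ : ℝ →L[ℝ] E := ContinuousLinearMap.toSpanSingleton ℝ w with hf₂
  have hr : Function.RightInverse f₂ ℓ := by
    intro t
    rw [hf₂, ContinuousLinearMap.toSpanSingleton_apply, map_smul, hw1, smul_eq_mul, mul_one]
  set e₁ := ContinuousLinearEquiv.equivOfRightInverse ℓ f₂ hr with he₁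
  set e₂ := (Module.finBasis ℝ (LinearMap.ker (ℓ : E →ₗ[ℝ] ℝ))).equivFunL with he₂
  refine ⟨_, e₁.trans ((ContinuousLinearEquiv.refl ℝ ℝ).prodCongr e₂), fun x => ?_⟩
  rw [ContinuousLinearEquiv.trans_apply, ContinuousLinearEquiv.prodCongr_apply]
  rw [he₁]
  simp

/-- S6: perturbation by a convex function of `k` linear functionals -/
theorem rank_pert {Ce Cs : ℝ} (hCe : 1 ≤ Ce) (hext : ExtStep Ce) (hCs : 1 ≤ Cs)
    (hsec : SecStep Cs) :
    ∀ (k : ℕ) (W : Type) [Fintype W] (Φ ψ : (W → ℝ) → ℝ) (b : Fin k → (W → ℝ) →L[ℝ] ℝ)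
      (K : ℝ), 1 ≤ K → Nice Φ → NC ψ → ConvexOn ℝ univ ψ →
      (∀ x y, (∀ j, b j x = b j y) → ψ x = ψ y) →
      (∀ L : (W → ℝ) →L[ℝ] ℝ, AP (gibbs (fun x => Φ x - L x)) K) →
      AP (gibbs (fun x => Φ x + ψ x)) ((Ce * Cs) ^ k * K) := by
  intro k
  induction k with
  | zero =>
    intro W _ Φ ψ b K hK hΦ hψ hc hdep hAP
    have h0 : (fun x => Φ x + ψ x) = fun x => Φ x + ψ 0 := by
      ext x
      rw [hdep x 0 (fun j => j.elim0)]
    rw [h0, gibbs_add_const, pow_zero, one_mul]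
    simpa using hAP 0
  | succ k ih =>
    intro W _ Φ ψ b K hK hΦ hψ hc hdep hAP
    have hCC : 1 ≤ Ce * Cs := by nlinarith
    by_cases hb : b (Fin.last k) = 0
    · have h1 := ih W Φ ψ (fun j => b j.castSucc) K hK hΦ hψ hc (fun x y hxy => by
        apply hdep
        intro j
        refine Fin.lastCases ?_ (fun i => ?_) j
        · rw [hb]; rfl
        · exact hxy i) hAP
      refine h1.mono ?_
      rw [pow_succ]
      have h2 : 1 ≤ (Ce * Cs) ^ k := one_le_pow₀ hCC
      have h3 : 0 ≤ (Ce * Cs) ^ k * K := by positivity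
      nlinarith
    obtain ⟨m, e, he⟩ := exists_coord (b (Fin.last k)) hb
    have hh := haar_prod' (F := Fin m → ℝ)
    -- the transported functions
    have hΦe : Nice (fun p : ℝ × (Fin m → ℝ) => Φ (e.symm p)) := by
      have h1 := hΦ.comp_affine (e.symm : (ℝ × (Fin m → ℝ)) →L[ℝ] (W → ℝ))
        (e : (W → ℝ) →L[ℝ] (ℝ × (Fin m → ℝ))) (fun z => by simp) 0
      simpa using h1
    have hsum : Nice (fun p : ℝ × (Fin m → ℝ) => Φ (e.symm p) + ψ (e.symm p)) := by
      have h1 := (hΦ.add_convex hψ hc).comp_affine (e.symm : (ℝ × (Fin m → ℝ)) →L[ℝ] (W → ℝ))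
        (e : (W → ℝ) →L[ℝ] (ℝ × (Fin m → ℝ))) (fun z => by simp) 0
      simpa using h1
    have hsplit : ∀ (u : ℝ) (x : Fin m → ℝ), e.symm (u, x) = e.symm (0, x) + e.symm (u, 0) := by
      intro u x
      rw [← map_add]
      simp
    refine AP.of_equiv_haar e ?_
    have hKs : 1 ≤ Cs * K := by nlinarith
    have hK' : 1 ≤ (Ce * Cs) ^ k * (Cs * K) := by
      have h2 : 1 ≤ (Ce * Cs) ^ k := one_le_pow₀ hCC
      nlinarith
    have hfib : ∀ u, AP (gibbs (fun x : Fin m → ℝ => Φ (e.symm (u, x)) + ψ (e.symm (u, x))))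
        ((Ce * Cs) ^ k * (Cs * K)) := by
      intro u
      refine ih (Fin m) (fun x => Φ (e.symm (u, x))) (fun x => ψ (e.symm (u, x)))
        (fun j => (b j.castSucc).comp ((e.symm : (ℝ × (Fin m → ℝ)) →L[ℝ] (W → ℝ)).comp
          (ContinuousLinearMap.inr ℝ ℝ (Fin m → ℝ)))) (Cs * K) hKs (hΦe.slice u) ?_ ?_ ?_ ?_
      · have h1 := hψ.comp_affine ((e.symm : (ℝ × (Fin m → ℝ)) →L[ℝ] (W → ℝ)).comp
          (ContinuousLinearMap.inr ℝ ℝ (Fin m → ℝ))) (e.symm (u, 0))
        have h2 : (fun x : Fin m → ℝ => ψ (e.symm (u, x))) = fun z =>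
            ψ (((e.symm : (ℝ × (Fin m → ℝ)) →L[ℝ] (W → ℝ)).comp
              (ContinuousLinearMap.inr ℝ ℝ (Fin m → ℝ))) z + e.symm (u, 0)) := by
          ext x
          rw [hsplit u x]
          rfl
        rw [h2]
        exact h1
      · refine ⟨convex_univ, fun x _ y _ a c ha hc' hac => ?_⟩
        have h1 := hc.2 (mem_univ (e.symm (u, x))) (mem_univ (e.symm (u, y))) ha hc' hac
        have h2 : e.symm (u, a • x + c • y) = a • e.symm (u, x) + c • e.symm (u, y) := by
          rw [← map_smul, ← map_smul, ← map_add]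
          congr 1
          ext
          · simp only [Prod.fst_add, Prod.smul_fst, smul_eq_mul]
            rw [← add_mul, hac, one_mul]
          · simp
        simp only
        rw [h2]
        exact h1
      · intro x y hxy
        apply hdep
        intro j
        refine Fin.lastCases ?_ (fun i => ?_) j
        · rw [← he, ← he]
          simp
        · have h1 := hxy i
          simp only [ContinuousLinearMap.comp_apply, ContinuousLinearMap.inr_apply,
            ContinuousLinearEquiv.coe_coe] at h1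
          rw [hsplit u x, hsplit u y, map_add, map_add, h1]
      · intro L'
        have hn : Nice (fun p : ℝ × (Fin m → ℝ) => Φ (e.symm p) - L' p.2) := by
          have h1 := hΦe.add_affine (-(L'.comp (ContinuousLinearMap.snd ℝ ℝ (Fin m → ℝ)))) 0
          have h2 : (fun p : ℝ × (Fin m → ℝ) => Φ (e.symm p) - L' p.2) = fun p =>
              Φ (e.symm p) + ((-(L'.comp (ContinuousLinearMap.snd ℝ ℝ (Fin m → ℝ)))) p + 0) := by
            ext p
            simp [sub_eq_add_neg]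
          rw [h2]
          exact h1
        refine hsec (Fin m → ℝ) (fun p => Φ (e.symm p) - L' p.2) K hK hn (fun lam => ?_) u
        set L : (W → ℝ) →L[ℝ] ℝ := (L'.comp (ContinuousLinearMap.snd ℝ ℝ (Fin m → ℝ)) +
          lam • ContinuousLinearMap.fst ℝ ℝ (Fin m → ℝ)).comp
          (e : (W → ℝ) →L[ℝ] (ℝ × (Fin m → ℝ))) with hL
        have h1 := (hAP L).map e
        have h2 := gibbs_map_haar e (fun p => Φ (e.symm p) - L' p.2 - lam * p.1)
        have h3 : (fun x : W → ℝ => Φ (e.symm (e x)) - L' (e x).2 - lam * (e x).1)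
            = fun x => Φ x - L x := by
          ext x
          rw [hL]
          simp
          ring
        rw [h3] at h2
        rw [← h2]
        exact h1
    have := hext (Fin m) _ _ hK' hsum hfib
    have h5 : Ce * ((Ce * Cs) ^ k * (Cs * K)) = (Ce * Cs) ^ (k + 1) * K := by
      rw [pow_succ]; ring
    rw [h5] at this
    exact this

theorem rankPert {Ce Cs : ℝ} (hCe : 1 ≤ Ce) (hext : ExtStep Ce) (hCs : 1 ≤ Cs)
    (hsec : SecStep Cs) (k : ℕ) : RankPert ((Ce * Cs) ^ k) k :=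
  rank_pert hCe hext hCs hsec k

end Pool.Agent.Lib.MP_6d896a_gt.FP
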