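import Mathlib
import Pool.Agent.Lib.MP_6d896a_gt.FP.RankGDefs
import Pool.Agent.Lib.MP_6d896a_gt.FP.ForestGen
import Pool.Agent.Lib.MP_6d896a_gt.FP.RankPert
import Pool.Agent.Lib.MP_6d896a_gt.Ex14

/-!
Perturbation of a log-concave density, all of whose exponential tilts satisfy the affine invariant
Poincare inequality, by a log-concave function of `k` linear functionals.
-/

set_option autoImplicit false

namespace Pool.Agent.Lib.MP_6d896a_gt.FP

open MeasureTheory ProbabilityTheory Set Filter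
open scoped ENNReal Topology

section basics

variable {E : Type*} [NormedAddCommGroup E] [NormedSpace ℝ E]

/-- products of log-concave functions -/
lemma LCd.mul [MeasurableSpace E] {ρ g : E → ℝ} (h : LCd ρ) (h' : LCd g) :
    LCd (fun x => ρ x * g x) where
  nn x := mul_nonneg (h.nn x) (h'.nn x)
  ms := h.ms.mul h'.ms
  lc x y a b ha hb hab := by
    rw [Real.mul_rpow (h.nn x) (h'.nn x), Real.mul_rpow (h.nn y) (h'.nn y)]
    calc ρ x ^ a * g x ^ a * (ρ y ^ b * g y ^ b) = (ρ x ^ a * ρ y ^ b) * (g x ^ a * g y ^ b) := by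
          ring
      _ ≤ ρ (a • x + b • y) * g (a • x + b • y) :=
          mul_le_mul (h.lc x y a b ha hb hab) (h'.lc x y a b ha hb hab)
            (mul_nonneg (Real.rpow_nonneg (h'.nn x) _) (Real.rpow_nonneg (h'.nn y) _)) (h.nn _)

/-- exponentials of linear functionals -/
lemma LCd.exp [MeasurableSpace E] [BorelSpace E] (L : E →L[ℝ] ℝ) :
    LCd (fun x => Real.exp (L x)) where
  nn x := (Real.exp_pos _).le
  ms := Real.measurable_exp.comp L.measurable
  lc x y a b _ _ _ := by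
    rw [← Real.exp_mul, ← Real.exp_mul, ← Real.exp_add, map_add, map_smul, map_smul,
      smul_eq_mul, smul_eq_mul]
    apply le_of_eq
    congr 1
    ring

omit [NormedAddCommGroup E] [NormedSpace ℝ E] in
/-- integrals of products which do not vanish -/
lemma setLIntegral_mul_ne [MeasureSpace E] {ρ g h : E → ℝ} (hρ : Measurable ρ)
    (hh : Measurable h) (hg : ∀ x, 0 ≤ g x) (hpos : ∀ x, 0 < h x) {s : Set E}
    (hs : ∫⁻ x in s, ENNReal.ofReal (ρ x * g x) ≠ 0) :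
    ∫⁻ x in s, ENNReal.ofReal (ρ x * h x) ≠ 0 := by
  intro h0
  apply hs
  have hm : Measurable (fun x => ENNReal.ofReal (ρ x * h x)) := (hρ.mul hh).ennreal_ofReal
  rw [lintegral_eq_zero_iff hm] at h0
  have h1 : (fun x => ENNReal.ofReal (ρ x * g x)) =ᵐ[volume.restrict s] fun _ => 0 := by
    filter_upwards [h0] with x hx
    have h2 : ENNReal.ofReal (ρ x * h x) = 0 := hx
    rw [ENNReal.ofReal_eq_zero] at h2 ⊢
    have h3 : ρ x ≤ 0 := by
      by_contra hcon
      push Not at hcon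
      have := mul_pos hcon (hpos x)
      linarith
    exact mul_nonpos_of_nonpos_of_nonneg h3 (hg x)
  rw [lintegral_congr_ae h1, lintegral_zero]

end basics

/-- the induction over the number of functionals -/
theorem rankG_aux {Cf Cs : ℝ} (hCf : 1 ≤ Cf) (hft : ∀ (W : Type) [Fintype W]
    (ρ : ℝ × (W → ℝ) → ℝ), LCd ρ → ∀ K : ℝ, 1 ≤ K →
    (∀ y : ℝ, ∫⁻ p in {p : ℝ × (W → ℝ) | p.1 < y}, ENNReal.ofReal (ρ p) ≠ 0 →
      ∫⁻ p in {p : ℝ × (W → ℝ) | y < p.1}, ENNReal.ofReal (ρ p) ≠ 0 →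
      AP (dens (fun x => ρ (y, x))) K) →
    AP (dens ρ) (Cf * K)) (hCs : 1 ≤ Cs) (hst : ∀ (W : Type) [Fintype W]
    (ρ : ℝ × (W → ℝ) → ℝ), LCd ρ →
    (∀ lam : ℝ, ∫⁻ p, ENNReal.ofReal (ρ p * Real.exp (lam * p.1)) ≠ ∞) →
    ∀ K : ℝ, 1 ≤ K →
    (∀ lam : ℝ, AP (dens (fun p : ℝ × (W → ℝ) => ρ p * Real.exp (lam * p.1))) K) →
    ∀ u : ℝ, ∫⁻ p in {p : ℝ × (W → ℝ) | p.1 < u}, ENNReal.ofReal (ρ p) ≠ 0 →
      ∫⁻ p in {p : ℝ × (W → ℝ) | u < p.1}, ENNReal.ofReal (ρ p) ≠ 0 →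
    ∫⁻ x, ENNReal.ofReal (ρ (u, x)) ≠ 0 ∧ ∫⁻ x, ENNReal.ofReal (ρ (u, x)) ≠ ∞ ∧
    AP (dens (fun x => ρ (u, x))) (Cs * K)) : ∀ k, RankG ((Cf * Cs) ^ k) k := by
  intro k
  induction k with
  | zero =>
    intro W _ ρ g b K hK hρ hg hdep hfin hAP
    have h0 : (fun x => ρ x * g x) = fun x => g 0 * ρ x := by
      ext x
      rw [hdep x 0 (fun j => j.elim0), mul_comm]
    rw [pow_zero, one_mul, h0]
    rcases (hg.nn 0).lt_or_eq with hpos | hzero
    · rw [dens_const_mul hρ.ms hpos]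
      simpa using hAP 0
    · rw [← hzero]
      have : dens (fun x : W → ℝ => (0 : ℝ) * ρ x) = 0 := by
        unfold dens
        simp
      rw [this]
      exact AP.zero _
  | succ k ih =>
    intro W _ ρ g b K hK hρ hg hdep hfin hAP
    have hCC : 1 ≤ Cf * Cs := by nlinarith
    by_cases hb : b (Fin.last k) = 0
    · have h1 := ih W ρ g (fun j => b j.castSucc) K hK hρ hg (fun x y hxy => by
        apply hdep
        intro j
        refine Fin.lastCases ?_ (fun i => ?_) j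
        · rw [hb]; rfl
        · exact hxy i) hfin hAP
      refine h1.mono ?_
      rw [pow_succ]
      have h2 : 1 ≤ (Cf * Cs) ^ k := one_le_pow₀ hCC
      have h3 : 0 ≤ (Cf * Cs) ^ k * K := by positivity
      nlinarith
    obtain ⟨m, e, he⟩ := exists_coord (b (Fin.last k)) hb
    have hh : (volume : Measure (ℝ × (Fin m → ℝ))).IsAddHaarMeasure :=
      haar_prod' (F := Fin m → ℝ)
    have hsplit : ∀ (u : ℝ) (x : Fin m → ℝ), e.symm (u, x) = e.symm (0, x) + e.symm (u, 0) := by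
      intro u x
      rw [← map_add]
      simp
    have hρe : LCd (fun p : ℝ × (Fin m → ℝ) => ρ (e.symm p)) :=
      hρ.comp_linear (fun p => e.symm p) e.symm.continuous.measurable
        (fun x y a b _ => by rw [map_add, map_smul, map_smul])
    have hge : LCd (fun p : ℝ × (Fin m → ℝ) => g (e.symm p)) :=
      hg.comp_linear (fun p => e.symm p) e.symm.continuous.measurable
        (fun x y a b _ => by rw [map_add, map_smul, map_smul])
    refine EX.AP.lin e.symm ?_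
    have hKs : 1 ≤ Cs * K := by nlinarith
    have hK' : 1 ≤ (Cf * Cs) ^ k * (Cs * K) := by
      have h2 : 1 ≤ (Cf * Cs) ^ k := one_le_pow₀ hCC
      nlinarith
    have h5 : Cf * ((Cf * Cs) ^ k * (Cs * K)) = (Cf * Cs) ^ (k + 1) * K := by
      rw [pow_succ]; ring
    rw [← h5]
    refine hft (Fin m) (fun p => ρ (e.symm p) * g (e.symm p)) (hρe.mul hge) _ hK'
      (fun y hl hr => ?_)
    -- the tilted densities over the first coordinate
    have hsec : ∀ L' : (Fin m → ℝ) →L[ℝ] ℝ,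
        ∫⁻ x, ENNReal.ofReal (ρ (e.symm (y, x)) * Real.exp (L' x)) ≠ ∞ ∧
        AP (dens (fun x => ρ (e.symm (y, x)) * Real.exp (L' x))) (Cs * K) := by
      intro L'
      have hL2 : LCd (fun p : ℝ × (Fin m → ℝ) => Real.exp (L' p.2)) :=
        LCd.exp (L'.comp (ContinuousLinearMap.snd ℝ ℝ (Fin m → ℝ)))
      have hT : ∀ lam : ℝ, (fun p : ℝ × (Fin m → ℝ) =>
          ρ (e.symm p) * Real.exp (L' p.2) * Real.exp (lam * p.1)) = fun p =>
          (fun x => ρ x * Real.exp (((L'.comp (ContinuousLinearMap.snd ℝ ℝ (Fin m → ℝ)) +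
            lam • ContinuousLinearMap.fst ℝ ℝ (Fin m → ℝ)).comp
            (e : (W → ℝ) →L[ℝ] (ℝ × (Fin m → ℝ)))) x)) (e.symm p) := by
        intro lam
        ext p
        simp only [ContinuousLinearMap.comp_apply, ContinuousLinearEquiv.coe_coe,
          ContinuousLinearEquiv.apply_symm_apply]
        rw [mul_assoc, ← Real.exp_add]
        rfl
      have hmain := hst (Fin m) (fun p => ρ (e.symm p) * Real.exp (L' p.2)) (hρe.mul hL2)
        (fun lam => by
          obtain ⟨c, c0, ct, -, hc⟩ := EX.lintegral_lin e.symm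
          have h1 := hc (fun x => ENNReal.ofReal (ρ x * Real.exp
            (((L'.comp (ContinuousLinearMap.snd ℝ ℝ (Fin m → ℝ)) +
            lam • ContinuousLinearMap.fst ℝ ℝ (Fin m → ℝ)).comp
            (e : (W → ℝ) →L[ℝ] (ℝ × (Fin m → ℝ)))) x)))
          have h2 := congrArg (fun F : ℝ × (Fin m → ℝ) → ℝ => ∫⁻ p, ENNReal.ofReal (F p)) (hT lam)
          simp only at h2
          rw [h2]
          rw [h1]
          exact ENNReal.mul_ne_top ct (hfin _)) K hK
        (fun lam => by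
          rw [hT lam]
          have h1 := hAP ((L'.comp (ContinuousLinearMap.snd ℝ ℝ (Fin m → ℝ)) +
            lam • ContinuousLinearMap.fst ℝ ℝ (Fin m → ℝ)).comp
            (e : (W → ℝ) →L[ℝ] (ℝ × (Fin m → ℝ))))
          refine EX.AP.lin e ?_
          have h2 : (fun x : W → ℝ => (fun p : ℝ × (Fin m → ℝ) =>
              (fun x => ρ x * Real.exp (((L'.comp (ContinuousLinearMap.snd ℝ ℝ (Fin m → ℝ)) +
            lam • ContinuousLinearMap.fst ℝ ℝ (Fin m → ℝ)).comp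
            (e : (W → ℝ) →L[ℝ] (ℝ × (Fin m → ℝ)))) x)) (e.symm p)) (e x)) = fun x =>
              ρ x * Real.exp (((L'.comp (ContinuousLinearMap.snd ℝ ℝ (Fin m → ℝ)) +
            lam • ContinuousLinearMap.fst ℝ ℝ (Fin m → ℝ)).comp
            (e : (W → ℝ) →L[ℝ] (ℝ × (Fin m → ℝ)))) x) := by
            ext x
            simp only [ContinuousLinearEquiv.symm_apply_apply]
          rw [h2]
          exact h1) y
        (setLIntegral_mul_ne hρe.ms hL2.ms hge.nn (fun p => Real.exp_pos _) hl)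
        (setLIntegral_mul_ne hρe.ms hL2.ms hge.nn (fun p => Real.exp_pos _) hr)
      exact ⟨hmain.2.1, hmain.2.2⟩
    refine ih (Fin m) (fun x => ρ (e.symm (y, x))) (fun x => g (e.symm (y, x)))
      (fun j => (b j.castSucc).comp ((e.symm : (ℝ × (Fin m → ℝ)) →L[ℝ] (W → ℝ)).comp
        (ContinuousLinearMap.inr ℝ ℝ (Fin m → ℝ)))) (Cs * K) hKs (hρe.slice y) (hge.slice y) ?_
      (fun L' => (hsec L').1) (fun L' => (hsec L').2)
    intro x x' hxy
    apply hdep
    intro j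
    refine Fin.lastCases ?_ (fun i => ?_) j
    · rw [← he, ← he]
      simp
    · have h1 := hxy i
      simp only [ContinuousLinearMap.comp_apply, ContinuousLinearMap.inr_apply,
        ContinuousLinearEquiv.coe_coe] at h1
      rw [hsplit y x, hsplit y x', map_add, map_add, h1]

/-- P3: perturbation by a log-concave function of `k` linear functionals -/
theorem rankG_of (hft : ∃ C : ℝ, 1 ≤ C ∧ ∀ (W : Type) [Fintype W]
    (ρ : ℝ × (W → ℝ) → ℝ), LCd ρ → ∀ K : ℝ, 1 ≤ K →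
    (∀ y : ℝ, ∫⁻ p in {p : ℝ × (W → ℝ) | p.1 < y}, ENNReal.ofReal (ρ p) ≠ 0 →
      ∫⁻ p in {p : ℝ × (W → ℝ) | y < p.1}, ENNReal.ofReal (ρ p) ≠ 0 →
      AP (dens (fun x => ρ (y, x))) K) →
    AP (dens ρ) (C * K)) (hst : ∃ C : ℝ, 1 ≤ C ∧ ∀ (W : Type) [Fintype W]
    (ρ : ℝ × (W → ℝ) → ℝ), LCd ρ →
    (∀ lam : ℝ, ∫⁻ p, ENNReal.ofReal (ρ p * Real.exp (lam * p.1)) ≠ ∞) →
    ∀ K : ℝ, 1 ≤ K →
    (∀ lam : ℝ, AP (dens (fun p : ℝ × (W → ℝ) => ρ p * Real.exp (lam * p.1))) K) →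
    ∀ u : ℝ, ∫⁻ p in {p : ℝ × (W → ℝ) | p.1 < u}, ENNReal.ofReal (ρ p) ≠ 0 →
      ∫⁻ p in {p : ℝ × (W → ℝ) | u < p.1}, ENNReal.ofReal (ρ p) ≠ 0 →
    ∫⁻ x, ENNReal.ofReal (ρ (u, x)) ≠ 0 ∧ ∫⁻ x, ENNReal.ofReal (ρ (u, x)) ≠ ∞ ∧
    AP (dens (fun x => ρ (u, x))) (C * K)) : ∃ C : ℝ, 1 ≤ C ∧ ∀ k, RankG (C ^ k) k := by
  obtain ⟨Cf, hCf, hf⟩ := hft
  obtain ⟨Cs, hCs, hs⟩ := hst
  exact ⟨Cf * Cs, by nlinarith, rankG_aux hCf hf hCs hs⟩

end Pool.Agent.Lib.MP_6d896a_gt.FP
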