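import Mathlib
import Pool.Agent.Lib.MP_6d896a_gt.FP.ExtStepOf
import Pool.Agent.Lib.MP_6d896a_gt.FP.EM

/-!
The section principle, from its ingredients: if all measures with density proportional to
`exp (lam u - φ (u, x))` satisfy the affine invariant Poincare inequality with constant `K`,
then every section does with a constant multiple of `K`.
-/

set_option autoImplicit false

namespace Pool.Agent.Lib.MP_6d896a_gt.FP

open MeasureTheory ProbabilityTheory Set Filter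
open scoped ENNReal Topology

/-- a variance bound for Lipschitz functions (with respect to the covariance norm) gives the
affine invariant Poincare inequality -/
theorem ap_of_lv {Ce : ℝ} (em : EMStat Ce) {F : Type} [NormedAddCommGroup F] [NormedSpace ℝ F]
    [MeasureSpace F] [BorelSpace F] [FiniteDimensional ℝ F]
    [(volume : Measure F).IsAddHaarMeasure] {ψ : F → ℝ} (hn : Nice ψ) {M : ℝ} (hM : 0 < M)
    (lv : ∀ f : F → ℝ, ContDiff ℝ 1 f → (∃ B : ℝ, ∀ p, |f p| ≤ B) →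
      (∃ B : ℝ, ∀ p, ‖fderiv ℝ f p‖ ≤ B) →
      (∃ B : ℝ, ∀ p q, ‖fderiv ℝ f p - fderiv ℝ f q‖ ≤ B * ‖p - q‖) →
      (∀ p, Var[fun z => fderiv ℝ f p z; gibbs ψ] ≤ 1) → Var[f; gibbs ψ] ≤ M) :
    AP (gibbs ψ) (Ce * M) := by
  have hprob := gibbs_prob hn
  have hL2 : ∀ ℓ : F →L[ℝ] ℝ, MemLp (fun x => ℓ x) 2 (gibbs ψ) := fun ℓ =>
    gibbs_memLp hn ℓ.continuous.aestronglyMeasurable ‖ℓ‖ fun p => by
      refine (ℓ.le_opNorm p).trans ?_
      gcongr
      linarith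
  obtain ⟨n, T, hT⟩ : ∃ (n : ℕ) (T : EuclideanSpace ℝ (Fin n) ≃L[ℝ] F),
      ∀ ℓ : F →L[ℝ] ℝ, Var[fun x => ℓ x; gibbs ψ] =
        ‖ℓ.comp (T : EuclideanSpace ℝ (Fin n) →L[ℝ] F)‖ ^ 2 :=
    ⟨_, whiten (gibbs ψ) hL2 (fun ℓ h0 => gibbs_nondeg hn ℓ h0)⟩
  have hTm : Measurable (T.symm : F → EuclideanSpace ℝ (Fin n)) :=
    T.symm.continuous.measurable
  have hpm : IsProbabilityMeasure ((gibbs ψ).map T.symm) :=
    Measure.isProbabilityMeasure_map hTm.aemeasurable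
  have hPL : PLm ((gibbs ψ).map T.symm) :=
    hn.plm_gibbs.map (T.symm : F →ₗ[ℝ] EuclideanSpace ℝ (Fin n)) hTm
  have hLV : LVb ((gibbs ψ).map T.symm) M := by
    intro g hg hgb hgl hg1
    have hfd : ∀ p, fderiv ℝ (fun p => g (T.symm p)) p
        = (fderiv ℝ g (T.symm p)).comp
          (T.symm : F →L[ℝ] EuclideanSpace ℝ (Fin n)) := by
      intro p
      have h1 : HasFDerivAt (T.symm : F → EuclideanSpace ℝ (Fin n))
          (T.symm : F →L[ℝ] EuclideanSpace ℝ (Fin n)) p := T.symm.hasFDerivAt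
      exact ((hg.differentiable (by norm_num) (T.symm p)).hasFDerivAt.comp p h1).fderiv
    have hfc : ContDiff ℝ 1 (fun p => g (T.symm p)) := hg.comp T.symm.contDiff
    have key := lv (fun p => g (T.symm p)) hfc (by
        obtain ⟨B, hB⟩ := hgb
        exact ⟨B, fun p => hB _⟩) (by
        refine ⟨1 * ‖(T.symm : F →L[ℝ] EuclideanSpace ℝ (Fin n))‖, fun p => ?_⟩
        rw [hfd]
        exact (ContinuousLinearMap.opNorm_comp_le _ _).trans
          (mul_le_mul_of_nonneg_right (hg1 _) (norm_nonneg _))) (by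
        obtain ⟨B, hB⟩ := hgl
        refine ⟨|B| * ‖(T.symm : F →L[ℝ] EuclideanSpace ℝ (Fin n))‖ *
          ‖(T.symm : F →L[ℝ] EuclideanSpace ℝ (Fin n))‖, fun p q => ?_⟩
        rw [hfd, hfd, ← ContinuousLinearMap.sub_comp]
        refine (ContinuousLinearMap.opNorm_comp_le _ _).trans ?_
        have h1 : ‖T.symm p - T.symm q‖ ≤
            ‖(T.symm : F →L[ℝ] EuclideanSpace ℝ (Fin n))‖ * ‖p - q‖ := by
          rw [← map_sub]
          exact (T.symm : F →L[ℝ] EuclideanSpace ℝ (Fin n)).le_opNorm _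
        have h2 : ‖fderiv ℝ g (T.symm p) - fderiv ℝ g (T.symm q)‖ ≤
            |B| * (‖(T.symm : F →L[ℝ] EuclideanSpace ℝ (Fin n))‖ * ‖p - q‖) := by
          refine (hB _ _).trans ?_
          calc B * ‖T.symm p - T.symm q‖ ≤ |B| * ‖T.symm p - T.symm q‖ :=
                mul_le_mul_of_nonneg_right (le_abs_self B) (norm_nonneg _)
            _ ≤ _ := mul_le_mul_of_nonneg_left h1 (abs_nonneg _)
        calc _ ≤ (|B| * (‖(T.symm : F →L[ℝ] EuclideanSpace ℝ (Fin n))‖ * ‖p - q‖)) *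
              ‖(T.symm : F →L[ℝ] EuclideanSpace ℝ (Fin n))‖ :=
              mul_le_mul_of_nonneg_right h2 (norm_nonneg _)
          _ = _ := by ring) (by
        intro p
        have h1 := hT (fderiv ℝ (fun p => g (T.symm p)) p)
        rw [h1, hfd]
        have h2 : ((fderiv ℝ g (T.symm p)).comp
            (T.symm : F →L[ℝ] EuclideanSpace ℝ (Fin n))).comp
            (T : EuclideanSpace ℝ (Fin n) →L[ℝ] F) = fderiv ℝ g (T.symm p) := by
          ext z
          simp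
        rw [h2]
        have h3 := hg1 (T.symm p)
        exact pow_le_one₀ (norm_nonneg _) h3)
    have e1 : Var[g; (gibbs ψ).map T.symm] = Var[fun p => g (T.symm p); gibbs ψ] :=
      variance_map hg.continuous.measurable.aemeasurable hTm.aemeasurable
    rw [e1]
    exact key
  exact ap_of_poinc T hT (em (EuclideanSpace ℝ (Fin n)) ((gibbs ψ).map T.symm) hPL M hM hLV)

/-- existence of balanced tilts (statement S2a, for an arbitrary predicate) -/
def ExBal (B : (ℝ → ℝ) → ℝ → ℝ → Prop) : Prop :=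
  ∀ (V : ℝ → ℝ), ConvexOn ℝ univ V → ∀ κ c : ℝ, 0 < κ → (∀ u, κ * u ^ 2 - c ≤ V u) →
    ∀ u₀ : ℝ, ∃ lam T : ℝ, B (fun u => V u - lam * u) u₀ T

/-- a priori inequality for sections (statement S1) -/
def AprioriStat : Prop := ∀ (F : Type) [NormedAddCommGroup F] [NormedSpace ℝ F]
    [MeasureSpace F] [BorelSpace F] [FiniteDimensional ℝ F]
    [(volume : Measure F).IsAddHaarMeasure] (φ : ℝ × F → ℝ), Nice φ →
    ∃ K₀ : ℝ, 1 ≤ K₀ ∧ ∀ u, AP (gibbs (fun x => φ (u, x))) K₀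

/-- variance bound for Lipschitz functions on a balanced section (statement S4, for an
arbitrary predicate), with constant `C` -/
def SecLVStat (B : (ℝ → ℝ) → ℝ → ℝ → Prop) (C : ℝ) : Prop :=
    ∀ (F : Type) [NormedAddCommGroup F] [NormedSpace ℝ F]
    [MeasureSpace F] [BorelSpace F] [FiniteDimensional ℝ F]
    [(volume : Measure F).IsAddHaarMeasure] (φ : ℝ × F → ℝ), Nice φ →
    ∀ (V : ℝ → ℝ), (∀ u, ∫ x, Real.exp (-φ (u, x)) = Real.exp (-V u)) →
    ∀ u₀ T : ℝ, B V u₀ T → ∀ K Ks : ℝ, 1 ≤ K → 1 ≤ Ks → AP (gibbs φ) K →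
    (∀ u, |u - u₀| ≤ T / 2 → AP (gibbs (fun x => φ (u, x))) Ks) →
    ∀ δ : ℝ, 0 < δ → δ ≤ 1 / 2 →
    ∀ f : F → ℝ, ContDiff ℝ 1 f → (∃ B : ℝ, ∀ x, |f x| ≤ B) →
    (∃ B : ℝ, ∀ x, ‖fderiv ℝ f x‖ ≤ B) →
    (∃ B : ℝ, ∀ x y, ‖fderiv ℝ f x - fderiv ℝ f y‖ ≤ B * ‖x - y‖) →
    (∀ x, Var[fun z => fderiv ℝ f x z; gibbs (fun x => φ (u₀, x))] ≤ 1) →
    Var[f; gibbs (fun x => φ (u₀, x))] ≤ C * K / δ + C * δ * Ks

section round

variable {F : Type} [NormedAddCommGroup F] [NormedSpace ℝ F] [MeasureSpace F] [BorelSpace F]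
  [FiniteDimensional ℝ F] [(volume : Measure F).IsAddHaarMeasure] {φ : ℝ × F → ℝ}

omit [MeasureSpace F] [BorelSpace F] [FiniteDimensional ℝ F]
  [(volume : Measure F).IsAddHaarMeasure] in
/-- tilting in the first variable -/
lemma Nice.tilt (h : Nice φ) (lam : ℝ) : Nice (fun p : ℝ × F => φ p - lam * p.1) := by
  have h1 := h.add_affine ((-lam) • ContinuousLinearMap.fst ℝ ℝ F) 0
  refine (iff_of_eq (congrArg Nice ?_)).1 h1
  funext p
  simp only [smul_apply, ContinuousLinearMap.coe_fst', smul_eq_mul]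
  ring

/-- quadratic lower bound for the marginal potential -/
lemma mV_lower (h : Nice φ) : ∃ κ c : ℝ, 0 < κ ∧ ∀ u, κ * u ^ 2 - c ≤ mV φ u := by
  obtain ⟨k, C, hk, hC, hle⟩ := exp_mV_le h
  refine ⟨k, Real.log C, hk, fun y => ?_⟩
  have h2 := hle y
  rw [← Real.exp_log hC, ← Real.exp_add, Real.exp_le_exp] at h2
  linarith

/-- one round of the iteration -/
lemma section_round {B : (ℝ → ℝ) → ℝ → ℝ → Prop} {Ce C₄ : ℝ} (hCe : 0 < Ce) (em : EMStat Ce)
    (hbal : ExBal B) (hC₄ : 0 < C₄) (hsec : SecLVStat B C₄) (hn : Nice φ) {K K' : ℝ}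
    (hK : 1 ≤ K) (hK' : 1 ≤ K')
    (hAP : ∀ lam : ℝ, AP (gibbs (fun p : ℝ × F => φ p - lam * p.1)) K)
    (hfib : ∀ u, AP (gibbs (fun x => φ (u, x))) K') (u₀ : ℝ) :
    AP (gibbs (fun x => φ (u₀, x))) (Ce * C₄ * (2 * C₄ * Ce + 2) * K + K' / 2) := by
  obtain ⟨κ, c, hκ, hlow⟩ := mV_lower hn
  obtain ⟨lam, T, hB⟩ := hbal (mV φ) (mV_convex hn) κ c hκ hlow u₀
  have hn' := hn.tilt lam
  have hg : ∀ u, gibbs (fun x => φ (u, x) - lam * u) = gibbs (fun x => φ (u, x)) := by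
    intro u
    have := gibbs_add_const (fun x => φ (u, x)) (-(lam * u))
    simpa only [sub_eq_add_neg] using this
  have hV : ∀ u, ∫ x, Real.exp (-(φ (u, x) - lam * u)) =
      Real.exp (-(mV φ u - lam * u)) := by
    intro u
    have h1 : ∀ x, Real.exp (-(φ (u, x) - lam * u)) =
        Real.exp (lam * u) * Real.exp (-φ (u, x)) := by
      intro x
      rw [← Real.exp_add]
      congr 1
      ring
    simp_rw [h1]
    rw [integral_const_mul, ← exp_mV hn, ← Real.exp_add]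
    congr 1
    ring
  set δ : ℝ := 1 / (2 * C₄ * Ce + 2) with hδ
  have hden : 0 < 2 * C₄ * Ce + 2 := by positivity
  have hδ0 : 0 < δ := by positivity
  have hδ1 : δ ≤ 1 / 2 := by
    rw [hδ]
    apply one_div_le_one_div_of_le (by norm_num)
    have : 0 < C₄ * Ce := by positivity
    linarith
  have hslice := hn.slice u₀
  have hM : 0 < C₄ * K / δ + C₄ * δ * K' := by
    have h1 : 0 < C₄ * K / δ := by positivity
    have h2 : 0 < C₄ * δ * K' := by positivity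
    linarith
  have key : AP (gibbs (fun x => φ (u₀, x))) (Ce * (C₄ * K / δ + C₄ * δ * K')) := by
    refine ap_of_lv em hslice hM ?_
    intro f hf hfb hfd hfl hf1
    have h1 := hsec F (fun p : ℝ × F => φ p - lam * p.1) hn' (fun u => mV φ u - lam * u) hV
      u₀ T hB K K' hK hK' (hAP lam) (fun u _ => by
        have h2 := hfib u
        rw [← hg u] at h2
        exact h2) δ hδ0 hδ1 f hf hfb hfd hfl (fun x => by
        have h2 := hf1 x
        rw [← hg u₀] at h2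
        exact h2)
    have h3 : gibbs (fun x => (fun p : ℝ × F => φ p - lam * p.1) (u₀, x))
        = gibbs (fun x => φ (u₀, x)) := hg u₀
    rw [h3] at h1
    exact h1
  refine key.mono ?_
  have e1 : Ce * (C₄ * K / δ + C₄ * δ * K') =
      Ce * C₄ * (2 * C₄ * Ce + 2) * K + (C₄ * Ce * δ) * K' := by
    rw [hδ]
    field_simp
  rw [e1]
  have h4 : C₄ * Ce * δ ≤ 1 / 2 := by
    rw [hδ, mul_one_div, div_le_iff₀ hden]
    linarith
  have h5 : (C₄ * Ce * δ) * K' ≤ 1 / 2 * K' :=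
    mul_le_mul_of_nonneg_right h4 (by linarith)
  linarith

/-- the iteration -/
lemma section_iter {B : (ℝ → ℝ) → ℝ → ℝ → Prop} {Ce C₄ : ℝ} (hCe : 0 < Ce) (em : EMStat Ce)
    (hbal : ExBal B) (hC₄ : 0 < C₄) (hsec : SecLVStat B C₄) (hn : Nice φ) {K K₀ : ℝ}
    (hK : 1 ≤ K) (hK₀ : 1 ≤ K₀)
    (hAP : ∀ lam : ℝ, AP (gibbs (fun p : ℝ × F => φ p - lam * p.1)) K)
    (hfib : ∀ u, AP (gibbs (fun x => φ (u, x))) K₀) (n : ℕ) :
    ∀ u, AP (gibbs (fun x => φ (u, x)))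
      (2 * (Ce * C₄ * (2 * C₄ * Ce + 2) + 1) * K + K₀ / 2 ^ n) := by
  have ha : 0 < Ce * C₄ * (2 * C₄ * Ce + 2) := by positivity
  induction n with
  | zero =>
    intro u
    refine (hfib u).mono ?_
    have : 0 < Ce * C₄ * (2 * C₄ * Ce + 2) * K := by positivity
    simp only [pow_zero, div_one]
    nlinarith
  | succ n ih =>
    intro u
    have h0 : 0 < K₀ / 2 ^ n := by positivity
    have h1 : 1 ≤ 2 * (Ce * C₄ * (2 * C₄ * Ce + 2) + 1) * K + K₀ / 2 ^ n := by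
      have : 0 < Ce * C₄ * (2 * C₄ * Ce + 2) * K := by positivity
      nlinarith
    refine (section_round hCe em hbal hC₄ hsec hn hK h1 hAP ih u).mono ?_
    have e1 : K₀ / 2 ^ (n + 1) = K₀ / 2 ^ n / 2 := by
      rw [pow_succ]
      field_simp
    rw [e1]
    nlinarith

end round

/-- S5, from its ingredients -/
theorem section_step_of {B : (ℝ → ℝ) → ℝ → ℝ → Prop}
    (hem : ∃ C : ℝ, 0 < C ∧ EMStat C) (hbal : ExBal B) (hapr : AprioriStat)
    (hsec : ∃ C : ℝ, 0 < C ∧ SecLVStat B C) :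
    ∃ C : ℝ, 1 ≤ C ∧ ∀ (F : Type) [NormedAddCommGroup F] [NormedSpace ℝ F]
    [MeasureSpace F] [BorelSpace F] [FiniteDimensional ℝ F]
    [(volume : Measure F).IsAddHaarMeasure] (φ : ℝ × F → ℝ) (K : ℝ), 1 ≤ K → Nice φ →
    (∀ lam : ℝ, AP (gibbs (fun p => φ p - lam * p.1)) K) →
    ∀ u, AP (gibbs (fun x => φ (u, x))) (C * K) := by
  obtain ⟨Ce, hCe, em⟩ := hem
  obtain ⟨C₄, hC₄, hs⟩ := hsec
  have ha : 0 < Ce * C₄ * (2 * C₄ * Ce + 2) := by positivity
  refine ⟨2 * (Ce * C₄ * (2 * C₄ * Ce + 2) + 1) + 1, by linarith, ?_⟩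
  intro F _ _ _ _ _ _ φ K hK hn hAP u
  obtain ⟨K₀, hK₀, h0⟩ := hapr F φ hn
  obtain ⟨n, hn1⟩ := pow_unbounded_of_one_lt K₀ (by norm_num : (1 : ℝ) < 2)
  refine (section_iter hCe em hbal hC₄ hs hn hK hK₀ hAP h0 n u).mono ?_
  have h1 : K₀ / 2 ^ n ≤ 1 := (div_le_one (by positivity)).2 hn1.le
  linarith

end Pool.Agent.Lib.MP_6d896a_gt.FP
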