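import Mathlib
import Pool.Agent.Lib.MP_6d896a_gt.FP.SectionOf
import Pool.Agent.Lib.MP_6d896a_gt.FP.Bal
import Pool.Agent.Lib.MP_6d896a_gt.FP.FibreMain
import Pool.Agent.Lib.MP_6d896a_gt.FP.FibreCheeger

/-!
Sections of a log-concave measure near the centre: the affine invariant Poincare inequality passes
from the measure to its sections.
-/

set_option autoImplicit false

namespace Pool.Agent.Lib.MP_6d896a_gt.FP

open MeasureTheory ProbabilityTheory Set Filter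
open scoped ENNReal Topology

/-- statement of R1 -/
def StableRStat (η : ℝ) : Prop := ∀ R : ℝ, 1 ≤ R → ∃ C : ℝ, 1 ≤ C ∧
    ∀ (E : Type) [NormedAddCommGroup E]
    [NormedSpace ℝ E] [MeasurableSpace E] [BorelSpace E] [FiniteDimensional ℝ E]
    (μ ν : Measure E) [IsProbabilityMeasure μ] [IsProbabilityMeasure ν], PLm μ → PLm ν →
    (∀ ℓ : E →L[ℝ] ℝ, Var[fun x => ℓ x; ν] = 0 → ℓ = 0) →
    (∀ S, MeasurableSet S → ν.real S ≤ R * μ.real S + η) → ∀ K : ℝ, 1 ≤ K → AP μ K →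
    AP ν (C * K)

/-- statement of R2 -/
def SectionLocStat (C : ℝ) : Prop := ∀ (F : Type) [NormedAddCommGroup F] [NormedSpace ℝ F]
    [MeasureSpace F] [BorelSpace F] [FiniteDimensional ℝ F]
    [(volume : Measure F).IsAddHaarMeasure] (φ : ℝ × F → ℝ) (K : ℝ), 1 ≤ K → Nice φ →
    ∀ (V : ℝ → ℝ), (∀ u, ∫ x, Real.exp (-φ (u, x)) = Real.exp (-V u)) →
    ∀ u₀ lam₀ T : ℝ, Bal (fun u => V u - lam₀ * u) u₀ T →
    (∀ u lam T' : ℝ, |u - u₀| ≤ T / 2 → Bal (fun v => V v - lam * v) u T' →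
      AP (gibbs (fun p : ℝ × F => φ p - lam * p.1)) K) →
    AP (gibbs (fun x => φ (u₀, x))) (C * K)

/-- statement of R3 -/
def TiltRatioStat : Prop := ∀ ε η : ℝ, 0 < ε → 0 < η → ∃ R : ℝ, 1 ≤ R ∧
    ∀ (F : Type) [NormedAddCommGroup F] [NormedSpace ℝ F]
    [MeasureSpace F] [BorelSpace F] [FiniteDimensional ℝ F]
    [(volume : Measure F).IsAddHaarMeasure] (φ : ℝ × F → ℝ), Nice φ →
    ∀ (V : ℝ → ℝ), (∀ u, ∫ x, Real.exp (-φ (u, x)) = Real.exp (-V u)) →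
    ∀ u₀ lam₀ T : ℝ, Bal (fun u => V u - lam₀ * u) u₀ T →
    ε ≤ (gibbs φ).real {p | p.1 < u₀} → ε ≤ (gibbs φ).real {p | u₀ < p.1} →
    ∀ u lam T' : ℝ, |u - u₀| ≤ T / 2 → Bal (fun v => V v - lam * v) u T' →
    ∀ S : Set (ℝ × F), MeasurableSet S →
      (gibbs (fun p : ℝ × F => φ p - lam * p.1)).real S ≤ R * (gibbs φ).real S + η

/-- statement of R4 -/
def ApproxSecStat : Prop := ∀ (W : Type) [Fintype W] (ρ : ℝ × (W → ℝ) → ℝ), LCd ρ →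
    ∫⁻ p, ENNReal.ofReal (ρ p) = 1 → ∀ u₀ : ℝ,
    ∫⁻ p in {p : ℝ × (W → ℝ) | p.1 < u₀}, ENNReal.ofReal (ρ p) ≠ 0 →
    ∫⁻ p in {p : ℝ × (W → ℝ) | u₀ < p.1}, ENNReal.ofReal (ρ p) ≠ 0 →
    ∀ η : ℝ, 0 < η → ∃ φ : ℝ × (W → ℝ) → ℝ, Nice φ ∧
      (∀ S, MeasurableSet S → |(dens ρ).real S - (gibbs φ).real S| ≤ η) ∧
      ∫⁻ x, ENNReal.ofReal (ρ (u₀, x)) ≠ 0 ∧ ∫⁻ x, ENNReal.ofReal (ρ (u₀, x)) ≠ ∞ ∧
      (∀ S : Set (W → ℝ), MeasurableSet S →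
        |(dens (fun x => ρ (u₀, x))).real S - (gibbs (fun x => φ (u₀, x))).real S| ≤ η)

/-- sections with both tails at least `ε` -/
def SecStat (C ε : ℝ) : Prop := ∀ (W : Type) [Fintype W]
    (ρ : ℝ × (W → ℝ) → ℝ), LCd ρ → ∫⁻ p, ENNReal.ofReal (ρ p) = 1 →
    ∀ K : ℝ, 1 ≤ K → AP (dens ρ) K → ∀ u₀ : ℝ,
    ε ≤ (dens ρ).real {p | p.1 < u₀} → ε ≤ (dens ρ).real {p | u₀ < p.1} →
    ∫⁻ x, ENNReal.ofReal (ρ (u₀, x)) ≠ 0 ∧ ∫⁻ x, ENNReal.ofReal (ρ (u₀, x)) ≠ ∞ ∧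
    AP (dens (fun x => ρ (u₀, x))) (C * K)

theorem sec_of {C₁ η₁ η₂ C₃ : ℝ} (hC₁ : 1 ≤ C₁) (hη₁ : 0 < η₁) (hst : StableStat C₁ η₁)
    (hη₂ : 0 < η₂) (hstR : StableRStat η₂) (hC₃ : 1 ≤ C₃) (hloc : SectionLocStat C₃)
    (htilt : TiltRatioStat) (happ : ApproxSecStat) (ε : ℝ) (hε : 0 < ε) :
    ∃ C : ℝ, 1 ≤ C ∧ SecStat C ε := by
  obtain ⟨R, hR, htilt⟩ := htilt (ε / 2) η₂ (by positivity) hη₂
  obtain ⟨C₂, hC₂, hstR⟩ := hstR R hR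
  refine ⟨C₁ * (C₃ * (C₂ * C₁)), ?_, ?_⟩
  · have h1 : 1 ≤ C₂ * C₁ := one_le_mul_of_one_le_of_one_le hC₂ hC₁
    have h2 : 1 ≤ C₃ * (C₂ * C₁) := one_le_mul_of_one_le_of_one_le hC₃ h1
    exact one_le_mul_of_one_le_of_one_le hC₁ h2
  intro W _ ρ hρ h1 K hK hAP u₀ hl hr
  have hne : ∫⁻ x, ENNReal.ofReal (ρ x) ≠ 0 := by rw [h1]; exact one_ne_zero
  have hnt : ∫⁻ x, ENNReal.ofReal (ρ x) ≠ ∞ := by rw [h1]; exact ENNReal.one_ne_top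
  have hprob := dens_prob hne hnt
  have hh := haar_prod' (F := W → ℝ)
  have hpl := hρ.plm hne hnt
  have hms1 : MeasurableSet {p : ℝ × (W → ℝ) | p.1 < u₀} :=
    measurableSet_lt measurable_fst measurable_const
  have hms2 : MeasurableSet {p : ℝ × (W → ℝ) | u₀ < p.1} :=
    measurableSet_lt measurable_const measurable_fst
  have hreal : ∀ S : Set (ℝ × (W → ℝ)), MeasurableSet S →
      ε ≤ (dens ρ).real S → ∫⁻ p in S, ENNReal.ofReal (ρ p) ≠ 0 := by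
    intro S hS hle h0
    have h2 : (dens ρ) S = 0 := by
      unfold dens
      rw [Measure.smul_apply, withDensity_apply _ hS, h0, smul_zero]
    rw [measureReal_def, h2, ENNReal.toReal_zero] at hle
    linarith
  obtain ⟨φ, hφ, hφ1, hs0, hs1, hφ2⟩ := happ W ρ hρ h1 u₀ (hreal _ hms1 hl) (hreal _ hms2 hr)
    (min η₁ (ε / 2)) (lt_min hη₁ (by positivity))
  refine ⟨hs0, hs1, ?_⟩
  have hgp := gibbs_prob hφ
  have hA : AP (gibbs φ) (C₁ * K) := by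
    refine hst (ℝ × (W → ℝ)) (dens ρ) (gibbs φ) hpl hφ.plm_gibbs (gibbs_nondeg hφ) ?_ K hK hAP
    intro S hS
    exact (hφ1 S hS).trans (min_le_left _ _)
  have htl : ε / 2 ≤ (gibbs φ).real {p | p.1 < u₀} := by
    have := (abs_le.mp ((hφ1 _ hms1).trans (min_le_right _ _))).2
    linarith
  have htr : ε / 2 ≤ (gibbs φ).real {p | u₀ < p.1} := by
    have := (abs_le.mp ((hφ1 _ hms2).trans (min_le_right _ _))).2
    linarith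
  obtain ⟨κ, c, hκ, hlow⟩ := mV_lower hφ
  obtain ⟨lam₀, T, hB⟩ := exists_bal (mV_convex hφ) hκ hlow u₀
  have hV : ∀ u, ∫ x, Real.exp (-φ (u, x)) = Real.exp (-mV φ u) := fun u => (exp_mV hφ u).symm
  have hCK : 1 ≤ C₁ * K := one_le_mul_of_one_le_of_one_le hC₁ hK
  have hCK2 : 1 ≤ C₂ * (C₁ * K) := one_le_mul_of_one_le_of_one_le hC₂ hCK
  have hCK3 : 1 ≤ C₃ * (C₂ * (C₁ * K)) := one_le_mul_of_one_le_of_one_le hC₃ hCK2
  have hsec : AP (gibbs (fun x => φ (u₀, x))) (C₃ * (C₂ * (C₁ * K))) := by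
    refine hloc (W → ℝ) φ (C₂ * (C₁ * K)) hCK2 hφ (mV φ) hV u₀ lam₀ T hB ?_
    intro u lam T' hu hB'
    have hφ' := hφ.tilt lam
    have hgp' := gibbs_prob hφ'
    exact hstR (ℝ × (W → ℝ)) (gibbs φ) (gibbs (fun p : ℝ × (W → ℝ) => φ p - lam * p.1))
      hφ.plm_gibbs hφ'.plm_gibbs (gibbs_nondeg hφ')
      (htilt (W → ℝ) φ hφ (mV φ) hV u₀ lam₀ T hB htl htr u lam T' hu hB') (C₁ * K) hCK hA
  have hsn := hφ.slice u₀
  have hgps := gibbs_prob hsn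
  have hps := dens_prob hs0 hs1
  have hfin := hst (W → ℝ) (gibbs (fun x => φ (u₀, x))) (dens (fun x => ρ (u₀, x)))
    hsn.plm_gibbs ((hρ.slice u₀).plm hs0 hs1) (fun ℓ hℓ => dens_nondeg (hρ.slice u₀) hs0 hs1 ℓ hℓ)
    (fun S hS => by
      rw [abs_sub_comm]
      exact (hφ2 S hS).trans (min_le_left _ _)) _ hCK3 hsec
  refine hfin.mono (le_of_eq ?_)
  ring

end Pool.Agent.Lib.MP_6d896a_gt.FP
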