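import Mathlib
import Pool.Agent.Lib.MP_6d896a_gt.FP.SectionsOf
import Pool.Agent.Lib.MP_6d896a_gt.FP.ForestGen

/-!
Sections of a density all of whose tilts in the first variable satisfy the affine invariant
Poincare inequality.
-/

set_option autoImplicit false

namespace Pool.Agent.Lib.MP_6d896a_gt.FP

open MeasureTheory ProbabilityTheory Set Filter
open scoped ENNReal Topology

lemma LCd.cmul {E : Type*} [NormedAddCommGroup E] [NormedSpace ℝ E] [MeasurableSpace E]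
    {ρ : E → ℝ} (hρ : LCd ρ) {c : ℝ} (hc : 0 < c) : LCd (fun p => c * ρ p) := by
  refine ⟨fun x => mul_nonneg hc.le (hρ.nn x), hρ.ms.const_mul _, fun x y a b ha hb hab => ?_⟩
  rw [Real.mul_rpow hc.le (hρ.nn x), Real.mul_rpow hc.le (hρ.nn y)]
  have h2 : c ^ a * c ^ b = c := by
    rw [← Real.rpow_add hc, hab, Real.rpow_one]
  calc c ^ a * ρ x ^ a * (c ^ b * ρ y ^ b) = (c ^ a * c ^ b) * (ρ x ^ a * ρ y ^ b) := by
        ring
    _ ≤ c * ρ (a • x + b • y) := by
        rw [h2]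
        exact mul_le_mul_of_nonneg_left (hρ.lc x y a b ha hb hab) hc.le

lemma tl_dens_real {X : Type*} [MeasureSpace X] {a : X → ℝ} (ha0 : ∀ x, 0 ≤ a x)
    (hai : Integrable a) {S : Set X} (hS : MeasurableSet S) :
    (dens a).real S = (∫ x, a x)⁻¹ * ∫ x in S, a x := by
  unfold dens
  rw [measureReal_def, Measure.smul_apply, withDensity_apply _ hS, smul_eq_mul,
    ENNReal.toReal_mul, ENNReal.toReal_inv,
    ← ofReal_integral_eq_lintegral_ofReal hai (ae_of_all _ ha0),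
    ← ofReal_integral_eq_lintegral_ofReal hai.restrict (ae_of_all _ ha0),
    ENNReal.toReal_ofReal (integral_nonneg ha0), ENNReal.toReal_ofReal (integral_nonneg ha0)]

section tilt

variable {W : Type} [Fintype W] {ρ : ℝ × (W → ℝ) → ℝ}

/-- the tilted density -/
noncomputable def tl (ρ : ℝ × (W → ℝ) → ℝ) (u lam : ℝ) (p : ℝ × (W → ℝ)) : ℝ :=
  ρ p * Real.exp (lam * (p.1 - u))

omit [Fintype W] in
lemma tl_eq (ρ : ℝ × (W → ℝ) → ℝ) (u lam : ℝ) (p : ℝ × (W → ℝ)) :
    tl ρ u lam p = Real.exp (-(lam * u)) * (ρ p * Real.exp (lam * p.1)) := by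
  unfold tl
  have : lam * (p.1 - u) = -(lam * u) + lam * p.1 := by ring
  rw [this, Real.exp_add]
  ring

lemma tl_nn (hρ : LCd ρ) (u lam : ℝ) (p : ℝ × (W → ℝ)) : 0 ≤ tl ρ u lam p :=
  mul_nonneg (hρ.nn p) (Real.exp_pos _).le

lemma tl_LCd (hρ : LCd ρ) (u lam : ℝ) : LCd (tl ρ u lam) where
  nn p := tl_nn hρ u lam p
  ms := hρ.ms.mul (by fun_prop)
  lc x y a b ha hb hab := by
    unfold tl
    rw [Real.mul_rpow (hρ.nn x) (Real.exp_pos _).le, Real.mul_rpow (hρ.nn y) (Real.exp_pos _).le]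
    have h1 := hρ.lc x y a b ha hb hab
    have h2 : Real.exp (lam * (x.1 - u)) ^ a * Real.exp (lam * (y.1 - u)) ^ b =
        Real.exp (lam * ((a • x + b • y).1 - u)) := by
      rw [← Real.exp_mul, ← Real.exp_mul, ← Real.exp_add]
      congr 1
      have : (a • x + b • y).1 = a * x.1 + b * y.1 := by simp
      rw [this]
      have hb' : b = 1 - a := by linarith
      rw [hb']
      ring
    calc ρ x ^ a * Real.exp (lam * (x.1 - u)) ^ a * (ρ y ^ b * Real.exp (lam * (y.1 - u)) ^ b)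
        = (ρ x ^ a * ρ y ^ b) * (Real.exp (lam * (x.1 - u)) ^ a *
            Real.exp (lam * (y.1 - u)) ^ b) := by ring
      _ ≤ ρ (a • x + b • y) * Real.exp (lam * ((a • x + b • y).1 - u)) := by
          rw [h2]
          exact mul_le_mul_of_nonneg_right h1 (Real.exp_pos _).le

lemma tl_int (hρ : LCd ρ)
    (hf : ∀ lam : ℝ, ∫⁻ p, ENNReal.ofReal (ρ p * Real.exp (lam * p.1)) ≠ ∞) (u lam : ℝ) :
    Integrable (tl ρ u lam) := by
  have e : tl ρ u lam = fun p => Real.exp (-(lam * u)) * (ρ p * Real.exp (lam * p.1)) := by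
    funext p; exact tl_eq ρ u lam p
  rw [e]
  refine Integrable.const_mul ?_ _
  refine ⟨(hρ.ms.mul (by fun_prop)).aestronglyMeasurable, ?_⟩
  rw [hasFiniteIntegral_iff_ofReal
    (ae_of_all _ fun p => mul_nonneg (hρ.nn p) (Real.exp_pos _).le)]
  exact lt_top_iff_ne_top.2 (hf lam)

lemma tl_bound (hρ : LCd ρ) (u : ℝ) {l0 lam : ℝ} (h : |lam - l0| ≤ 1) (p : ℝ × (W → ℝ)) :
    ‖tl ρ u lam p‖ ≤ tl ρ u (l0 - 1) p + tl ρ u (l0 + 1) p := by
  rw [Real.norm_of_nonneg (tl_nn hρ u lam p)]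
  unfold tl
  rw [← mul_add]
  refine mul_le_mul_of_nonneg_left ?_ (hρ.nn p)
  have h1 := (abs_le.1 h)
  have e1 := Real.exp_pos ((l0 - 1) * (p.1 - u))
  have e2 := Real.exp_pos ((l0 + 1) * (p.1 - u))
  rcases le_total 0 (p.1 - u) with h2 | h2
  · have : Real.exp (lam * (p.1 - u)) ≤ Real.exp ((l0 + 1) * (p.1 - u)) :=
      Real.exp_le_exp.2 (mul_le_mul_of_nonneg_right (by linarith) h2)
    linarith
  · have : Real.exp (lam * (p.1 - u)) ≤ Real.exp ((l0 - 1) * (p.1 - u)) :=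
      Real.exp_le_exp.2 (mul_le_mul_of_nonpos_right (by linarith) h2)
    linarith

lemma tl_cont (hρ : LCd ρ)
    (hf : ∀ lam : ℝ, ∫⁻ p, ENNReal.ofReal (ρ p * Real.exp (lam * p.1)) ≠ ∞) (u : ℝ)
    (S : Set (ℝ × (W → ℝ))) : Continuous fun lam => ∫ p in S, tl ρ u lam p := by
  rw [continuous_iff_continuousAt]
  intro l0
  refine continuousAt_of_dominated
    (bound := fun p => tl ρ u (l0 - 1) p + tl ρ u (l0 + 1) p) ?_ ?_ ?_ ?_
  · exact Eventually.of_forall fun lam => (tl_int hρ hf u lam).1.restrict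
  · have : ∀ᶠ lam in 𝓝 l0, |lam - l0| ≤ 1 := by
      have := Metric.closedBall_mem_nhds l0 one_pos
      filter_upwards [this] with x hx
      simpa [Real.dist_eq] using hx
    filter_upwards [this] with lam hlam
    exact ae_of_all _ fun p => tl_bound hρ u hlam p
  · exact ((tl_int hρ hf u (l0 - 1)).add (tl_int hρ hf u (l0 + 1))).restrict
  · refine ae_of_all _ fun p => ?_
    unfold tl
    exact Continuous.continuousAt (by fun_prop)

/-- the left tail tends to zero -/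
lemma tl_left (hρ : LCd ρ)
    (hf : ∀ lam : ℝ, ∫⁻ p, ENNReal.ofReal (ρ p * Real.exp (lam * p.1)) ≠ ∞) (u : ℝ) :
    Tendsto (fun lam => ∫ p in {p : ℝ × (W → ℝ) | p.1 < u}, tl ρ u lam p) atTop (𝓝 0) := by
  have hS : MeasurableSet {p : ℝ × (W → ℝ) | p.1 < u} :=
    measurableSet_lt measurable_fst measurable_const
  have e : (0 : ℝ) = ∫ p in {p : ℝ × (W → ℝ) | p.1 < u}, (0 : ℝ) := by simp
  rw [e]
  refine tendsto_integral_filter_of_dominated_convergence (fun p => tl ρ u 0 p) ?_ ?_ ?_ ?_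
  · exact Eventually.of_forall fun lam => (tl_int hρ hf u lam).1.restrict
  · filter_upwards [eventually_ge_atTop (0 : ℝ)] with lam hlam
    filter_upwards [ae_restrict_mem hS] with p hp
    have hp' : p.1 < u := hp
    rw [Real.norm_of_nonneg (tl_nn hρ u lam p)]
    unfold tl
    refine mul_le_mul_of_nonneg_left (Real.exp_le_exp.2 ?_) (hρ.nn p)
    exact mul_le_mul_of_nonpos_right hlam (by linarith)
  · exact (tl_int hρ hf u 0).restrict
  · filter_upwards [ae_restrict_mem hS] with p hp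
    have hp' : p.1 < u := hp
    unfold tl
    rw [show (0 : ℝ) = ρ p * 0 by ring]
    refine Tendsto.const_mul _ ?_
    refine Real.tendsto_exp_atBot.comp ?_
    exact tendsto_id.atTop_mul_const_of_neg (by linarith)

/-- the right tail tends to zero -/
lemma tl_right (hρ : LCd ρ)
    (hf : ∀ lam : ℝ, ∫⁻ p, ENNReal.ofReal (ρ p * Real.exp (lam * p.1)) ≠ ∞) (u : ℝ) :
    Tendsto (fun lam => ∫ p in {p : ℝ × (W → ℝ) | u < p.1}, tl ρ u lam p) atBot (𝓝 0) := by
  have hS : MeasurableSet {p : ℝ × (W → ℝ) | u < p.1} :=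
    measurableSet_lt measurable_const measurable_fst
  have e : (0 : ℝ) = ∫ p in {p : ℝ × (W → ℝ) | u < p.1}, (0 : ℝ) := by simp
  rw [e]
  refine tendsto_integral_filter_of_dominated_convergence (fun p => tl ρ u 0 p) ?_ ?_ ?_ ?_
  · exact Eventually.of_forall fun lam => (tl_int hρ hf u lam).1.restrict
  · filter_upwards [eventually_le_atBot (0 : ℝ)] with lam hlam
    filter_upwards [ae_restrict_mem hS] with p hp
    have hp' : u < p.1 := hp
    rw [Real.norm_of_nonneg (tl_nn hρ u lam p)]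
    unfold tl
    refine mul_le_mul_of_nonneg_left (Real.exp_le_exp.2 ?_) (hρ.nn p)
    exact mul_le_mul_of_nonneg_right hlam (by linarith)
  · exact (tl_int hρ hf u 0).restrict
  · filter_upwards [ae_restrict_mem hS] with p hp
    have hp' : u < p.1 := hp
    unfold tl
    rw [show (0 : ℝ) = ρ p * 0 by ring]
    refine Tendsto.const_mul _ ?_
    refine Real.tendsto_exp_atBot.comp ?_
    exact tendsto_id.atBot_mul_const (by linarith)

/-- a tail which does not vanish has a positive integral -/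
lemma tail_pos (hρ : LCd ρ)
    (hf : ∀ lam : ℝ, ∫⁻ p, ENNReal.ofReal (ρ p * Real.exp (lam * p.1)) ≠ ∞) (u : ℝ)
    {S : Set (ℝ × (W → ℝ))} (h0 : ∫⁻ p in S, ENNReal.ofReal (ρ p) ≠ 0) :
    0 < ∫ p in S, tl ρ u 0 p := by
  have e : tl ρ u 0 = ρ := by
    funext p; simp [tl]
  rw [e]
  have hi : Integrable ρ := by
    have := tl_int hρ hf u 0
    rwa [e] at this
  have h1 : 0 ≤ ∫ p in S, ρ p := integral_nonneg fun p => hρ.nn p
  rcases h1.eq_or_lt with h2 | h2
  · exfalso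
    apply h0
    rw [← ofReal_integral_eq_lintegral_ofReal hi.restrict (ae_of_all _ hρ.nn), ← h2]
    simp
  · exact h2

lemma vol_line (u : ℝ) : (volume : Measure (ℝ × (W → ℝ))) {p | p.1 = u} = 0 := by
  have e : {p : ℝ × (W → ℝ) | p.1 = u} = {u} ×ˢ (univ : Set (W → ℝ)) := by
    ext p; simp
  rw [e, Measure.volume_eq_prod, Measure.prod_prod]
  simp

/-- the balanced tilt -/
lemma exists_tilt (hρ : LCd ρ)
    (hf : ∀ lam : ℝ, ∫⁻ p, ENNReal.ofReal (ρ p * Real.exp (lam * p.1)) ≠ ∞) (u : ℝ)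
    (hl : ∫⁻ p in {p : ℝ × (W → ℝ) | p.1 < u}, ENNReal.ofReal (ρ p) ≠ 0)
    (hr : ∫⁻ p in {p : ℝ × (W → ℝ) | u < p.1}, ENNReal.ofReal (ρ p) ≠ 0) :
    ∃ lam : ℝ, ∫ p in {p : ℝ × (W → ℝ) | p.1 < u}, tl ρ u lam p =
      ∫ p in {p : ℝ × (W → ℝ) | u < p.1}, tl ρ u lam p ∧
      0 < ∫ p in {p : ℝ × (W → ℝ) | p.1 < u}, tl ρ u lam p := by
  set a : ℝ → ℝ := fun lam => ∫ p in {p : ℝ × (W → ℝ) | p.1 < u}, tl ρ u lam p with ha
  set b : ℝ → ℝ := fun lam => ∫ p in {p : ℝ × (W → ℝ) | u < p.1}, tl ρ u lam p with hb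
  have hSl : MeasurableSet {p : ℝ × (W → ℝ) | p.1 < u} :=
    measurableSet_lt measurable_fst measurable_const
  have hSr : MeasurableSet {p : ℝ × (W → ℝ) | u < p.1} :=
    measurableSet_lt measurable_const measurable_fst
  have ha0 : 0 < a 0 := tail_pos hρ hf u hl
  have hb0 : 0 < b 0 := tail_pos hρ hf u hr
  have hamono : ∀ lam ≤ 0, a 0 ≤ a lam := by
    intro lam hlam
    refine setIntegral_mono_on (tl_int hρ hf u 0).integrableOn (tl_int hρ hf u lam).integrableOn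
      hSl fun p hp => ?_
    have hp' : p.1 < u := hp
    unfold tl
    refine mul_le_mul_of_nonneg_left (Real.exp_le_exp.2 ?_) (hρ.nn p)
    exact mul_le_mul_of_nonpos_right hlam (by linarith)
  have hbmono : ∀ lam, 0 ≤ lam → b 0 ≤ b lam := by
    intro lam hlam
    refine setIntegral_mono_on (tl_int hρ hf u 0).integrableOn (tl_int hρ hf u lam).integrableOn
      hSr fun p hp => ?_
    have hp' : u < p.1 := hp
    unfold tl
    refine mul_le_mul_of_nonneg_left (Real.exp_le_exp.2 ?_) (hρ.nn p)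
    exact mul_le_mul_of_nonneg_right hlam (by linarith)
  have hac : Continuous a := tl_cont hρ hf u _
  have hbc : Continuous b := tl_cont hρ hf u _
  obtain ⟨l1, hl1, hl1'⟩ : ∃ lam, 0 ≤ lam ∧ a lam < b 0 := by
    have h1 : ∀ᶠ lam in atTop, a lam < b 0 := (tl_left hρ hf u).eventually_lt_const hb0
    exact ((eventually_ge_atTop (0 : ℝ)).and h1).exists
  obtain ⟨l2, hl2, hl2'⟩ : ∃ lam, lam ≤ 0 ∧ b lam < a 0 := by
    have h1 : ∀ᶠ lam in atBot, b lam < a 0 := (tl_right hρ hf u).eventually_lt_const ha0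
    exact ((eventually_le_atBot (0 : ℝ)).and h1).exists
  obtain ⟨lam, hlam⟩ : ∃ lam, a lam - b lam = 0 := by
    have := mem_range_of_exists_le_of_exists_ge (c := (0 : ℝ)) (hac.sub hbc)
      ⟨l1, by have := hbmono l1 hl1; simp only [Pi.sub_apply]; linarith⟩
      ⟨l2, by have := hamono l2 hl2; simp only [Pi.sub_apply]; linarith⟩
    exact this
  refine ⟨lam, by linarith, ?_⟩
  rcases le_total lam 0 with h1 | h1
  · exact ha0.trans_le (hamono lam h1)
  · have h2 := hbmono lam h1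
    have h3 : a lam = b lam := by linarith
    show 0 < a lam
    rw [h3]
    linarith

end tilt

/-- P2: sections of a density all of whose tilts in the first variable satisfy the inequality -/
theorem sec_tilt {C₀ : ℝ} (hC₀ : 1 ≤ C₀) (h : SecStat C₀ (1 / 4)) : ∀ (W : Type) [Fintype W]
    (ρ : ℝ × (W → ℝ) → ℝ), LCd ρ →
    (∀ lam : ℝ, ∫⁻ p, ENNReal.ofReal (ρ p * Real.exp (lam * p.1)) ≠ ∞) →
    ∀ K : ℝ, 1 ≤ K →
    (∀ lam : ℝ, AP (dens (fun p : ℝ × (W → ℝ) => ρ p * Real.exp (lam * p.1))) K) →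
    ∀ u : ℝ, ∫⁻ p in {p : ℝ × (W → ℝ) | p.1 < u}, ENNReal.ofReal (ρ p) ≠ 0 →
      ∫⁻ p in {p : ℝ × (W → ℝ) | u < p.1}, ENNReal.ofReal (ρ p) ≠ 0 →
    ∫⁻ x, ENNReal.ofReal (ρ (u, x)) ≠ 0 ∧ ∫⁻ x, ENNReal.ofReal (ρ (u, x)) ≠ ∞ ∧
    AP (dens (fun x => ρ (u, x))) (C₀ * K) := by
  intro W _ ρ hρ hf K hK hAP u hl hr
  obtain ⟨lam, hlam, hpos⟩ := exists_tilt hρ hf u hl hr
  have hG := tl_LCd hρ u lam
  have hGi := tl_int hρ hf u lam
  have hSl : MeasurableSet {p : ℝ × (W → ℝ) | p.1 < u} :=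
    measurableSet_lt measurable_fst measurable_const
  have hSr : MeasurableSet {p : ℝ × (W → ℝ) | u < p.1} :=
    measurableSet_lt measurable_const measurable_fst
  have htot : ∫ p, tl ρ u lam p = 2 * ∫ p in {p : ℝ × (W → ℝ) | p.1 < u}, tl ρ u lam p := by
    have h1 : ∫ p, tl ρ u lam p = (∫ p in {p : ℝ × (W → ℝ) | p.1 < u}, tl ρ u lam p) +
        ∫ p in {p : ℝ × (W → ℝ) | p.1 < u}ᶜ, tl ρ u lam p := (integral_add_compl hSl hGi).symm
    have h2 : ∫ p in {p : ℝ × (W → ℝ) | p.1 < u}ᶜ, tl ρ u lam p =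
        ∫ p in {p : ℝ × (W → ℝ) | u < p.1}, tl ρ u lam p := by
      refine setIntegral_congr_set ?_
      rw [ae_eq_set]
      constructor
      · refine measure_mono_null ?_ (vol_line (W := W) u)
        rintro p ⟨h3, h4⟩
        simp only [mem_compl_iff, mem_ofPred_eq, not_lt] at h3 h4 ⊢
        exact le_antisymm h4 h3
      · refine measure_mono_null ?_ (vol_line (W := W) u)
        rintro p ⟨h3, h4⟩
        simp only [mem_compl_iff, mem_ofPred_eq, not_lt, not_le] at h3 h4 ⊢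
        linarith
    rw [h1, h2, ← hlam]
    ring
  set Z : ℝ := ∫ p, tl ρ u lam p with hZ
  have hZ0 : 0 < Z := by rw [htot]; positivity
  have hc : 0 < Z⁻¹ := inv_pos.2 hZ0
  have hl1 : LCd (fun p => Z⁻¹ * tl ρ u lam p) := hG.cmul hc
  have hli : ∫⁻ p, ENNReal.ofReal (tl ρ u lam p) = ENNReal.ofReal Z :=
    (ofReal_integral_eq_lintegral_ofReal hGi (ae_of_all _ hG.nn)).symm
  have h2 : ∫⁻ p, ENNReal.ofReal (Z⁻¹ * tl ρ u lam p) = 1 := by
    simp_rw [ENNReal.ofReal_mul hc.le]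
    rw [lintegral_const_mul' _ _ ENNReal.ofReal_ne_top, ENNReal.ofReal_inv_of_pos hZ0, hli]
    exact ENNReal.inv_mul_cancel (by rw [Ne, ENNReal.ofReal_eq_zero, not_le]; exact hZ0)
      ENNReal.ofReal_ne_top
  have hd : dens (fun p => Z⁻¹ * tl ρ u lam p) = dens (tl ρ u lam) := dens_const_mul hG.ms hc
  have hd' : dens (tl ρ u lam) = dens (fun p : ℝ × (W → ℝ) => ρ p * Real.exp (lam * p.1)) := by
    have e : tl ρ u lam = fun p => Real.exp (-(lam * u)) * (ρ p * Real.exp (lam * p.1)) := by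
      funext p; exact tl_eq ρ u lam p
    rw [e]
    exact dens_const_mul (hρ.ms.mul (by fun_prop)) (Real.exp_pos _)
  have h3 := h W (fun p => Z⁻¹ * tl ρ u lam p) hl1 h2 K hK (by rw [hd, hd']; exact hAP lam) u
    (by
      rw [hd, tl_dens_real hG.nn hGi hSl, ← hZ, htot]
      field_simp
      norm_num)
    (by
      rw [hd, tl_dens_real hG.nn hGi hSr, ← hZ, htot, ← hlam]
      field_simp
      norm_num)
  have hx : ∀ x : W → ℝ, tl ρ u lam (u, x) = ρ (u, x) := by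
    intro x; simp [tl]
  have hm : Measurable fun x : W → ℝ => ρ (u, x) := hρ.ms.comp measurable_prodMk_left
  simp only [hx] at h3
  have hcv : ∫⁻ x, ENNReal.ofReal (Z⁻¹ * ρ (u, x)) =
      ENNReal.ofReal Z⁻¹ * ∫⁻ x, ENNReal.ofReal (ρ (u, x)) := by
    simp_rw [ENNReal.ofReal_mul hc.le]
    rw [lintegral_const_mul' _ _ ENNReal.ofReal_ne_top]
  rw [hcv, dens_const_mul hm hc] at h3
  obtain ⟨h4, h5, h6⟩ := h3
  refine ⟨fun h7 => h4 (by rw [h7, mul_zero]), fun h7 => h5 ?_, h6⟩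
  rw [h7]
  exact ENNReal.mul_top (by rw [Ne, ENNReal.ofReal_eq_zero, not_le]; exact hc)

end Pool.Agent.Lib.MP_6d896a_gt.FP
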