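import Mathlib
import Pool.Agent.Lib.MP_6d896a_gt.FP.FibLin
import Pool.Agent.Lib.MP_6d896a_gt.FP.Whiten
import Pool.Agent.Lib.MP_6d896a_gt.FP.Bal

/-!
Residuals of linear functionals after subtracting a multiple of the base coordinate: for a
balanced section, a functional of small variance on the section has small residual variance.
-/

set_option autoImplicit false

namespace Pool.Agent.Lib.MP_6d896a_gt.FP

open MeasureTheory ProbabilityTheory Set Filter
open scoped ENNReal Topology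

section onedim

lemma integral_exp_neg_abs : ∫ u : ℝ, Real.exp (-|u|) = 2 := by
  have h1 := integral_comp_abs (f := fun u : ℝ => Real.exp (-u))
  rw [integral_exp_neg_Ioi_zero] at h1
  simpa using h1

lemma integral_exp_neg_mul_abs {r : ℝ} (hr : 0 < r) (u₀ : ℝ) :
    ∫ u : ℝ, Real.exp (-(r * |u - u₀|)) = 2 / r := by
  have h1 := integral_sub_right_eq_self (μ := (volume : Measure ℝ))
    (fun u : ℝ => Real.exp (-(r * |u|))) u₀
  rw [h1]
  have h2 := Measure.integral_comp_mul_left (fun u : ℝ => Real.exp (-|u|)) r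
  rw [integral_exp_neg_abs, smul_eq_mul, abs_of_pos (inv_pos.2 hr)] at h2
  have h3 : (fun u : ℝ => Real.exp (-(r * |u|))) = fun u : ℝ => Real.exp (-|r * u|) := by
    funext u
    rw [abs_mul, abs_of_pos hr]
  rw [h3, h2]
  ring

lemma integrable_exp_neg_mul_abs {r : ℝ} (hr : 0 < r) (u₀ : ℝ) :
    Integrable (fun u : ℝ => Real.exp (-(r * |u - u₀|))) := by
  by_contra hcon
  have h1 := integral_undef hcon
  rw [integral_exp_neg_mul_abs hr] at h1
  have : 0 < 2 / r := by positivity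
  linarith

/-- a concave function which is small at one point and not too small at two neighbours grows at
most linearly -/
lemma concave_upper {k : ℝ → ℝ} (hk : ConcaveOn ℝ univ k) {u₀ T c d : ℝ} (hT : 0 < T)
    (h0 : k u₀ ≤ c) (hr : -d ≤ k (u₀ + T)) (hl : -d ≤ k (u₀ - T)) (u : ℝ) :
    k u ≤ c + (c + d) * (|u - u₀| / T) := by
  have main : ∀ e : ℝ, 0 ≤ e → ∀ s : ℝ, (s = 1 ∨ s = -1) → -d ≤ k (u₀ - s * T) →
      k (u₀ + s * e) ≤ c + (c + d) * (e / T) := by
    intro e he s hs hd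
    have hden : 0 < e + T := by linarith
    have ha : 0 ≤ e / (e + T) := by positivity
    have hb : 0 ≤ T / (e + T) := by positivity
    have hab : e / (e + T) + T / (e + T) = 1 := by field_simp
    have h1 := hk.2 (mem_univ (u₀ - s * T)) (mem_univ (u₀ + s * e)) ha hb hab
    have h2 : (e / (e + T)) • (u₀ - s * T) + (T / (e + T)) • (u₀ + s * e) = u₀ := by
      simp only [smul_eq_mul]
      field_simp
      ring
    rw [h2] at h1
    simp only [smul_eq_mul] at h1
    have h3 : e / (e + T) * (-d) ≤ e / (e + T) * k (u₀ - s * T) :=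
      mul_le_mul_of_nonneg_left hd (by positivity)
    have h4 : T / (e + T) * k (u₀ + s * e) ≤ c + e / (e + T) * d := by linarith
    have h5 : k (u₀ + s * e) = (e + T) / T * (T / (e + T) * k (u₀ + s * e)) := by
      field_simp
    rw [h5]
    calc (e + T) / T * (T / (e + T) * k (u₀ + s * e))
        ≤ (e + T) / T * (c + e / (e + T) * d) := by gcongr
      _ = c + (c + d) * (e / T) := by
          field_simp
          ring
  rcases le_total u₀ u with h | h
  · have := main (u - u₀) (by linarith) 1 (Or.inl rfl) (by simpa using hl)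
    rw [abs_of_nonneg (by linarith)]
    simpa using this
  · have := main (u₀ - u) (by linarith) (-1) (Or.inr rfl) (by simpa using hr)
    rw [abs_of_nonpos (by linarith)]
    have e1 : u₀ + -1 * (u₀ - u) = u := by ring
    have e2 : -(u - u₀) = u₀ - u := by ring
    rw [e1] at this
    rw [e2]
    exact this

/-- supporting line of a differentiable concave function -/
lemma concave_tangent {g : ℝ → ℝ} (hg : ConcaveOn ℝ univ g) {u₀ σ : ℝ} (hd : HasDerivAt g σ u₀)
    (u : ℝ) : g u ≤ g u₀ + σ * (u - u₀) := by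
  rcases lt_trichotomy u u₀ with h | h | h
  · have h1 := hg.le_slope_of_hasDerivAt (mem_univ u) (mem_univ u₀) h hd
    rw [slope_def_field] at h1
    rw [le_div_iff₀ (by linarith)] at h1
    linarith
  · rw [h]; simp
  · have h1 := hg.slope_le_of_hasDerivAt (mem_univ u₀) (mem_univ u) h hd
    rw [slope_def_field] at h1
    rw [div_le_iff₀ (by linarith)] at h1
    linarith

end onedim

section tilt

variable {F : Type*} [NormedAddCommGroup F] [NormedSpace ℝ F] [MeasureSpace F]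
    [BorelSpace F] [FiniteDimensional ℝ F] [(volume : Measure F).IsAddHaarMeasure]

/-- interpolation between the given potential `φ` and the tilted potential `ψ` -/
lemma tilt_bound {φ ψ χ : ℝ × F → ℝ} (h : Nice φ) (hψ : Nice ψ) (hχ : Nice χ) {u₀ T V₀ τ : ℝ}
    (hrel : ∀ u x, χ (u, x) = 1 / 20 * ψ (u, x) + 19 / 20 * φ (u, x) + τ / 20 * (u - u₀))
    (hlow : ∀ u, V₀ - 2 + |u - u₀| / T ≤ mV φ u)
    (hup : ∀ u, -mV ψ u + V₀ - τ * (u - u₀) ≤ 2 + 6 * (|u - u₀| / T)) (u : ℝ) :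
    Real.exp (-mV χ u) ≤ Real.exp (2 - V₀) * Real.exp (-(13 / (20 * T) * |u - u₀|)) := by
  set W := V₀ - 2 + |u - u₀| / T with hW
  set B := 2 + 6 * (|u - u₀| / T) with hB
  set r := (V₀ - B - W) / 20 with hr
  have h1 : Real.exp (-mV χ u) ≤ 1 / 20 * (Real.exp (19 * r - τ * (u - u₀)) * Real.exp (-mV ψ u)) +
      19 / 20 * (Real.exp (-r) * Real.exp (-mV φ u)) := by
    rw [exp_mV hχ, exp_mV hψ, exp_mV h, ← integral_const_mul, ← integral_const_mul,
      ← integral_const_mul, ← integral_const_mul]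
    have i1 := (((hψ.slice u).integrable_exp).const_mul
      (Real.exp (19 * r - τ * (u - u₀)))).const_mul (1 / 20)
    have i2 := (((h.slice u).integrable_exp).const_mul (Real.exp (-r))).const_mul (19 / 20)
    rw [← integral_add i1 i2]
    refine integral_mono (hχ.slice u).integrable_exp (i1.add i2) fun x => ?_
    have ha : (0 : ℝ) ≤ 1 / 20 := by norm_num
    have hb : (0 : ℝ) ≤ 19 / 20 := by norm_num
    have hab : (1 / 20 : ℝ) + 19 / 20 = 1 := by norm_num
    have h2 := convexOn_exp.2 (mem_univ (19 * r - τ * (u - u₀) + -ψ (u, x)))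
      (mem_univ (-r + -φ (u, x))) ha hb hab
    simp only [smul_eq_mul] at h2
    have h5 := Real.exp_add (19 * r - τ * (u - u₀)) (-ψ (u, x))
    have h6 := Real.exp_add (-r) (-φ (u, x))
    rw [h5, h6] at h2
    refine le_trans (le_of_eq ?_) h2
    congr 1
    rw [hrel]
    ring
  have h2 : Real.exp (19 * r - τ * (u - u₀)) * Real.exp (-mV ψ u) ≤ Real.exp (-r - W) := by
    rw [← Real.exp_add]
    apply Real.exp_le_exp.2
    have := hup u
    have h3 : 20 * r = V₀ - B - W := by rw [hr]; ring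
    linarith
  have h3 : Real.exp (-r) * Real.exp (-mV φ u) ≤ Real.exp (-r - W) := by
    rw [← Real.exp_add]
    apply Real.exp_le_exp.2
    have := hlow u
    linarith
  have h4 : Real.exp (-mV χ u) ≤ Real.exp (-r - W) := by linarith
  refine h4.trans (le_of_eq ?_)
  rw [← Real.exp_add]
  congr 1
  rw [hr, hW, hB]
  rcases eq_or_ne T 0 with rfl | hT
  · simp only [div_zero, mul_zero]
    ring
  · field_simp
    ring

/-- total mass of the interpolated measure -/
lemma tilt_mass {φ ψ χ : ℝ × F → ℝ} (h : Nice φ) (hψ : Nice ψ) (hχ : Nice χ) {u₀ T V₀ τ : ℝ}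
    (hT : 0 < T)
    (hrel : ∀ u x, χ (u, x) = 1 / 20 * ψ (u, x) + 19 / 20 * φ (u, x) + τ / 20 * (u - u₀))
    (hlow : ∀ u, V₀ - 2 + |u - u₀| / T ≤ mV φ u)
    (hup : ∀ u, -mV ψ u + V₀ - τ * (u - u₀) ≤ 2 + 6 * (|u - u₀| / T))
    (hZ : 2 * T * Real.exp (-V₀ - 1) ≤ ∫ p, Real.exp (-φ p)) :
    ∫ p, Real.exp (-χ p) ≤ 2 * Real.exp 3 * ∫ p, Real.exp (-φ p) := by
  rw [hχ.integral_fibre]
  have hr : (0 : ℝ) < 13 / (20 * T) := by positivity
  have i1 := (integrable_exp_neg_mul_abs hr u₀).const_mul (Real.exp (2 - V₀))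
  have h1 : ∫ u, Real.exp (-mV χ u) ≤ Real.exp (2 - V₀) * (2 / (13 / (20 * T))) := by
    rw [← integral_exp_neg_mul_abs hr u₀, ← integral_const_mul]
    exact integral_mono (integrable_exp_mV hχ) i1 fun u => tilt_bound h hψ hχ hrel hlow hup u
  refine h1.trans ?_
  have h2 : 2 * Real.exp 3 * (2 * T * Real.exp (-V₀ - 1)) ≤
      2 * Real.exp 3 * ∫ p, Real.exp (-φ p) :=
    mul_le_mul_of_nonneg_left hZ (by positivity)
  refine le_trans (le_of_eq ?_) (le_trans (mul_le_mul_of_nonneg_right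
    (show (40 / 13 : ℝ) ≤ 4 by norm_num) (show 0 ≤ T * Real.exp (2 - V₀) by positivity))
    (le_trans (le_of_eq ?_) h2))
  · field_simp
    ring
  · have h3 : Real.exp (2 - V₀) = Real.exp 3 * Real.exp (-V₀ - 1) := by
      rw [← Real.exp_add]; congr 1; ring
    rw [h3]
    ring

end tilt

section one

variable {F : Type*} [NormedAddCommGroup F] [NormedSpace ℝ F] [MeasureSpace F]
    [BorelSpace F] [FiniteDimensional ℝ F] [(volume : Measure F).IsAddHaarMeasure]

/-- exponential moments of a functional of variance at most one under a nice measure -/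
lemma section_tilt {ψ : F → ℝ} (h : Nice ψ) (ℓ : F →L[ℝ] ℝ) (hvar : Var[fun x => ℓ x; gibbs ψ] ≤ 1)
    {u : F → ℝ} (hu : Continuous u)
    (hle : ∀ x, u x ≤ |ℓ x - ∫ x, ℓ x ∂(gibbs ψ)| / 8) :
    ∫ x, Real.exp (-(ψ x - u x)) ≤ 4 * ∫ x, Real.exp (-ψ x) := by
  have hprob := gibbs_prob h
  set m := ∫ x, ℓ x ∂(gibbs ψ) with hm
  set ξ : F → ℝ := fun x => ℓ x - m with hξ
  have cξ : Continuous ξ := by fun_prop
  have hL2 : MemLp (fun x => ℓ x) 2 (gibbs ψ) :=
    gibbs_memLp h ℓ.continuous.aestronglyMeasurable ‖ℓ‖ fun p => by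
      refine (ℓ.le_opNorm p).trans ?_
      gcongr
      linarith
  have hcheb : 3 / 4 ≤ (gibbs ψ).real {x | |ξ x| ≤ 2} := by
    have h1 := meas_ge_le_variance_div_sq hL2 (c := 2) (by norm_num)
    have h2 : {x | |ξ x| ≤ 2}ᶜ ⊆ {p | 2 ≤ |ℓ p - ∫ p, ℓ p ∂(gibbs ψ)|} := by
      intro p hp
      simp only [mem_compl_iff, mem_ofPred_eq, not_le] at hp ⊢
      exact hp.le
    have hmeas : MeasurableSet {x | |ξ x| ≤ 2} :=
      measurableSet_le cξ.abs.measurable measurable_const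
    have h3 : (gibbs ψ).real {x | |ξ x| ≤ 2}ᶜ ≤ 1 / 4 := by
      have h4 : (gibbs ψ) {x | |ξ x| ≤ 2}ᶜ ≤ ENNReal.ofReal (1 / 4) := by
        refine ((measure_mono h2).trans h1).trans ?_
        apply ENNReal.ofReal_le_ofReal
        have : Var[fun p => ℓ p; gibbs ψ] / 2 ^ 2 ≤ 1 / 2 ^ 2 := by gcongr
        norm_num at this ⊢
        linarith
      rw [Measure.real]
      exact ENNReal.toReal_le_of_le_ofReal (by norm_num) h4
    rw [probReal_compl_eq_one_sub hmeas] at h3
    linarith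
  have haff : ∀ x y : F, ∀ l : ℝ, ξ ((1 - l) • x + l • y) = (1 - l) * ξ x + l * ξ y := by
    intro x y l
    simp only [hξ, map_add, map_smul, smul_eq_mul]
    ring
  have hexp := h.plm_gibbs.exp_moment cξ.measurable haff (r := 2) (by norm_num) hcheb
  have hZ0 : 0 < ∫ x, Real.exp (-ψ x) := h.Z_pos
  have h1 : (∫ x, Real.exp (-(ψ x - u x))) / ∫ x, Real.exp (-ψ x) =
      ∫ x, Real.exp (u x) ∂(gibbs ψ) := by
    rw [gibbs_integral h, smul_eq_mul, div_eq_inv_mul]
    congr 2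
    funext p
    rw [smul_eq_mul, ← Real.exp_add]
    congr 1
    ring
  have h2 : ∫ x, Real.exp (u x) ∂(gibbs ψ) ≤ 4 := by
    rw [integral_eq_lintegral_of_nonneg_ae (Eventually.of_forall fun p => (Real.exp_pos _).le)
      (Real.continuous_exp.comp hu).aestronglyMeasurable]
    apply ENNReal.toReal_le_of_le_ofReal (by norm_num)
    have h4 : ENNReal.ofReal 4 = 4 := by norm_num
    rw [h4]
    refine le_trans (lintegral_mono fun p => ?_) hexp
    refine ENNReal.ofReal_le_ofReal (Real.exp_le_exp.2 ((hle p).trans (le_of_eq ?_)))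
    simp only [hξ]
    norm_num
  rw [← h1, div_le_iff₀ hZ0] at h2
  exact h2

/-- the residual has bounded second moment -/
lemma resid_one {φ : ℝ × F → ℝ} (h : Nice φ) {V : ℝ → ℝ}
    (hV : ∀ u, ∫ x, Real.exp (-φ (u, x)) = Real.exp (-V u)) {u₀ T : ℝ} (hb : Bal V u₀ T)
    (ℓ : F →L[ℝ] ℝ) (hvar : Var[fun x => ℓ x; gibbs (fun x => φ (u₀, x))] ≤ 1) :
    ∃ s : ℝ, Var[fun p : ℝ × F => ℓ p.2 - s * p.1; gibbs φ] ≤ 204800 * Real.exp 3 := by
  have hh := haar_prod' (F := F)
  have hprob := gibbs_prob h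
  obtain ⟨f1, f2, -, -, f5, -, -⟩ := hb.facts
  have hT := hb.pos
  have hVm : ∀ y, V y = mV φ y := by
    intro y
    have h1 := hV y
    rw [← exp_mV h] at h1
    have h2 := Real.exp_injective h1
    linarith
  set V₀ := V u₀ with hV₀
  have hlow : ∀ u, V₀ - 2 + |u - u₀| / T ≤ mV φ u := by
    intro u
    rw [← hVm]
    rcases le_total T |u - u₀| with h1 | h1
    · have := f2 u h1
      linarith
    · have h2 := f1 u
      have h3 : |u - u₀| / T ≤ 1 := (div_le_one hT).2 h1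
      linarith
  have hZ : 2 * T * Real.exp (-V₀ - 1) ≤ ∫ p, Real.exp (-φ p) := by
    rw [h.integral_fibre]
    simp_rw [← hVm]
    exact f5
  set m := ∫ x, ℓ x ∂(gibbs (fun x => φ (u₀, x))) with hm
  set L : ℝ × F →L[ℝ] ℝ := ℓ.comp (ContinuousLinearMap.snd ℝ ℝ F) with hL
  have hLp : ∀ p, L p = ℓ p.2 := fun p => rfl
  -- the tilted potentials
  set ψ₁ : ℝ × F → ℝ := fun p => φ p + ((-(1 / 8 : ℝ) • L) p + m / 8) with hψ₁
  set ψ₂ : ℝ × F → ℝ := fun p => φ p + (((1 / 8 : ℝ) • L) p + -(m / 8)) with hψ₂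
  have n₁ : Nice ψ₁ := h.add_affine _ _
  have n₂ : Nice ψ₂ := h.add_affine _ _
  have e₁ : ∀ p, ψ₁ p = φ p - (ℓ p.2 - m) / 8 := by
    intro p
    simp only [hψ₁, _root_.smul_apply, smul_eq_mul, hLp]
    ring
  have e₂ : ∀ p, ψ₂ p = φ p + (ℓ p.2 - m) / 8 := by
    intro p
    simp only [hψ₂, _root_.smul_apply, smul_eq_mul, hLp]
    ring
  -- values at the balanced point
  have v₁ : -mV ψ₁ u₀ + V₀ ≤ 2 := by
    have h1 := section_tilt (h.slice u₀) ℓ hvar (u := fun x => (ℓ x - m) / 8) (by fun_prop)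
      (fun x => by
        have := le_abs_self (ℓ x - m)
        linarith)
    have h2 : Real.exp (-mV ψ₁ u₀) ≤ Real.exp (2 - V₀) := by
      rw [exp_mV n₁]
      have h3 : (fun x => Real.exp (-ψ₁ (u₀, x))) =
          fun x => Real.exp (-(φ (u₀, x) - (ℓ x - m) / 8)) := by
        funext x; rw [e₁]
      rw [h3]
      refine h1.trans ?_
      rw [hV u₀, sub_eq_add_neg, Real.exp_add]
      gcongr
      have := Real.add_one_le_exp (1 : ℝ)
      have h4 : Real.exp 2 = Real.exp 1 * Real.exp 1 := by rw [← Real.exp_add]; norm_num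
      rw [h4]
      nlinarith
    have := Real.exp_le_exp.1 h2
    linarith
  have v₂ : -mV ψ₂ u₀ + V₀ ≤ 2 := by
    have h1 := section_tilt (h.slice u₀) ℓ hvar (u := fun x => -((ℓ x - m) / 8)) (by fun_prop)
      (fun x => by
        have := neg_abs_le (ℓ x - m)
        linarith)
    have h2 : Real.exp (-mV ψ₂ u₀) ≤ Real.exp (2 - V₀) := by
      rw [exp_mV n₂]
      have h3 : (fun x => Real.exp (-ψ₂ (u₀, x))) =
          fun x => Real.exp (-(φ (u₀, x) - -((ℓ x - m) / 8))) := by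
        funext x; rw [e₂]; congr 1; ring
      rw [h3]
      refine h1.trans ?_
      rw [hV u₀, sub_eq_add_neg, Real.exp_add]
      gcongr
      have := Real.add_one_le_exp (1 : ℝ)
      have h4 : Real.exp 2 = Real.exp 1 * Real.exp 1 := by rw [← Real.exp_add]; norm_num
      rw [h4]
      nlinarith
    have := Real.exp_le_exp.1 h2
    linarith
  -- Cauchy-Schwarz
  have cs : ∀ y, -2 * (V y - V₀) ≤ (-mV ψ₁ y + V₀) + (-mV ψ₂ y + V₀) := by
    intro y
    have key : Real.exp (-V y) ^ 2 ≤ Real.exp (-mV ψ₁ y) * Real.exp (-mV ψ₂ y) := by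
      rw [exp_mV n₁, exp_mV n₂, ← hV y]
      have g₁ : (fun x => Real.exp (-ψ₁ (y, x))) =
          fun x => Real.exp (-(φ (y, x) + -((ℓ x - m) / 8))) := by
        funext x; rw [e₁]; ring_nf
      have g₂ : (fun x => Real.exp (-ψ₂ (y, x))) =
          fun x => Real.exp (-(φ (y, x) - -((ℓ x - m) / 8))) := by
        funext x; rw [e₂]; ring_nf
      have i₁ := (n₁.slice y).integrable_exp
      have i₂ := (n₂.slice y).integrable_exp
      have p₁ := (n₁.slice y).Z_pos
      have p₂ := (n₂.slice y).Z_pos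
      rw [g₁] at i₁ p₁ ⊢
      rw [g₂] at i₂ p₂ ⊢
      exact cs_exp (h.slice y).integrable_exp i₁ i₂ p₁ p₂
    rw [← Real.exp_add, ← Real.exp_nat_mul] at key
    have := Real.exp_le_exp.1 key
    push_cast at this
    linarith
  -- slope
  have conc : ∀ ψ : ℝ × F → ℝ, Nice ψ → ConcaveOn ℝ univ (fun y => -mV ψ y + V₀) := fun ψ hn =>
    (mV_convex hn).neg.add (concaveOn_const _ convex_univ)
  obtain ⟨σ, hσ⟩ : ∃ σ : ℝ, HasDerivAt (fun y => -mV ψ₁ y + V₀) σ u₀ :=
    ⟨_, (mV_hasDerivAt n₁ u₀).neg.add_const V₀⟩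
  have up₁ : ∀ u, -mV ψ₁ u + V₀ ≤ 2 + σ * (u - u₀) := by
    intro u
    have := concave_tangent (conc ψ₁ n₁) hσ u
    linarith
  have up₁' : ∀ u, -mV ψ₁ u + V₀ - σ * (u - u₀) ≤ 2 + 6 * (|u - u₀| / T) := by
    intro u
    have h1 := up₁ u
    have h2 : 0 ≤ |u - u₀| / T := by positivity
    linarith
  have up₂ : ∀ u, -mV ψ₂ u + V₀ - -σ * (u - u₀) ≤ 2 + 6 * (|u - u₀| / T) := by
    intro u
    have hk : ConcaveOn ℝ univ (fun u => (-mV ψ₂ u + V₀) + (σ * u + -(σ * u₀))) := by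
      refine (conc ψ₂ n₂).add ?_
      refine ⟨convex_univ, fun x _ y _ a b _ _ hab => ?_⟩
      simp only [smul_eq_mul]
      have : b = 1 - a := by linarith
      subst this
      apply le_of_eq
      ring
    have h1 := concave_upper hk (c := 2) (d := 4) (u₀ := u₀) (T := T) hT (by simp; linarith)
      (by
        have h2 := cs (u₀ + T)
        have h3 := up₁ (u₀ + T)
        rw [hb.right] at h2
        linarith)
      (by
        have h2 := cs (u₀ - T)
        have h3 := up₁ (u₀ - T)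
        rw [hb.left] at h2
        linarith) u
    linarith
  -- the two interpolated potentials
  set s : ℝ := 8 * σ with hs
  set X : ℝ × F → ℝ := fun p => ℓ p.2 - s * p.1 - (m - s * u₀) with hX
  have cX : Continuous X := by fun_prop
  set M : ℝ × F →L[ℝ] ℝ := L - s • ContinuousLinearMap.fst ℝ ℝ F with hM
  have hMp : ∀ p, M p = ℓ p.2 - s * p.1 := fun p => rfl
  set χ₁ : ℝ × F → ℝ := fun p => φ p + ((-(1 / 160 : ℝ) • M) p + (m - s * u₀) / 160) with hχ₁
  set χ₂ : ℝ × F → ℝ := fun p => φ p + (((1 / 160 : ℝ) • M) p + -((m - s * u₀) / 160)) with hχ₂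
  have nχ₁ : Nice χ₁ := h.add_affine _ _
  have nχ₂ : Nice χ₂ := h.add_affine _ _
  have eχ₁ : ∀ p, χ₁ p = φ p - X p / 160 := by
    intro p
    simp only [hχ₁, _root_.smul_apply, smul_eq_mul, hMp, hX]
    ring
  have eχ₂ : ∀ p, χ₂ p = φ p + X p / 160 := by
    intro p
    simp only [hχ₂, _root_.smul_apply, smul_eq_mul, hMp, hX]
    ring
  have m₁ : ∫ p, Real.exp (-χ₁ p) ≤ 2 * Real.exp 3 * ∫ p, Real.exp (-φ p) := by
    refine tilt_mass h n₁ nχ₁ (τ := σ) hT (fun u x => ?_) hlow up₁' hZ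
    rw [eχ₁, e₁, hX]
    simp only [hs]
    ring
  have m₂ : ∫ p, Real.exp (-χ₂ p) ≤ 2 * Real.exp 3 * ∫ p, Real.exp (-φ p) := by
    refine tilt_mass h n₂ nχ₂ (τ := -σ) hT (fun u x => ?_) hlow up₂ hZ
    rw [eχ₂, e₂, hX]
    simp only [hs]
    ring
  refine ⟨s, ?_⟩
  have hZ0 : 0 < ∫ p, Real.exp (-φ p) := h.Z_pos
  have hvX : Var[fun p : ℝ × F => ℓ p.2 - s * p.1; gibbs φ] = Var[X; gibbs φ] := by
    have hmeas : AEStronglyMeasurable (fun p : ℝ × F => ℓ p.2 - s * p.1) (gibbs φ) := by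
      have : Continuous (fun p : ℝ × F => ℓ p.2 - s * p.1) := by fun_prop
      exact this.aestronglyMeasurable
    exact (variance_sub_const hmeas (m - s * u₀)).symm
  rw [hvX]
  refine (variance_le_expectation_sq cX.aestronglyMeasurable).trans ?_
  have h1 : ∫ p, (X ^ 2) p ∂(gibbs φ) = (∫ p, Real.exp (-φ p))⁻¹ * ∫ p, Real.exp (-φ p) * X p ^ 2 := by
    rw [gibbs_integral h]
    simp only [smul_eq_mul, Pi.pow_apply]
  rw [h1, inv_mul_le_iff₀ hZ0]
  have h2 : ∫ p, Real.exp (-φ p) * X p ^ 2 ≤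
      ∫ p, 51200 * (Real.exp (-χ₁ p) + Real.exp (-χ₂ p)) := by
    refine integral_mono_of_nonneg (Eventually.of_forall fun p => by positivity)
      ((nχ₁.integrable_exp.add nχ₂.integrable_exp).const_mul _) (Eventually.of_forall fun p => ?_)
    have g₁ : Real.exp (-χ₁ p) = Real.exp (-φ p) * Real.exp (X p / 160) := by
      rw [← Real.exp_add, eχ₁]; congr 1; ring
    have g₂ : Real.exp (-χ₂ p) = Real.exp (-φ p) * Real.exp (-(X p / 160)) := by
      rw [← Real.exp_add, eχ₂]; congr 1; ring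
    simp only [g₁, g₂]
    rw [← mul_add, mul_left_comm]
    apply mul_le_mul_of_nonneg_left _ (Real.exp_pos _).le
    have key : ∀ t : ℝ, t ^ 2 ≤ 2 * (Real.exp t + Real.exp (-t)) := by
      intro t
      have hq : ∀ t : ℝ, 0 ≤ t → t ^ 2 ≤ 2 * (Real.exp t + Real.exp (-t)) := by
        intro t ht
        have h3 := Real.quadratic_le_exp_of_nonneg ht
        have h4 := Real.exp_pos (-t)
        nlinarith
      rcases le_total 0 t with ht | ht
      · exact hq t ht
      · have := hq (-t) (by linarith)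
        rw [neg_neg] at this
        linarith [neg_sq t]
    have h3 := key (X p / 160)
    have h4 : X p ^ 2 = 25600 * (X p / 160) ^ 2 := by ring
    rw [h4]
    linarith
  refine h2.trans ?_
  rw [integral_const_mul, integral_add nχ₁.integrable_exp nχ₂.integrable_exp]
  nlinarith

end one

section regression

variable {F : Type*} [NormedAddCommGroup F] [NormedSpace ℝ F] [MeasureSpace F]
    [BorelSpace F] [FiniteDimensional ℝ F] [(volume : Measure F).IsAddHaarMeasure]

/-- linear regression on the base coordinate -/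
lemma regress {φ : ℝ × F → ℝ} (h : Nice φ) : ∃ w : F, ∀ (ℓ : F →L[ℝ] ℝ) (s : ℝ),
    Var[fun p : ℝ × F => ℓ p.2 - ℓ w * p.1; gibbs φ] ≤
      Var[fun p : ℝ × F => ℓ p.2 - s * p.1; gibbs φ] := by
  have hh := haar_prod' (F := F)
  have hprob := gibbs_prob h
  set μ := gibbs φ with hμ
  set U : ℝ × F → ℝ := fun p => p.1 with hU
  have mU : MemLp U 2 μ := by
    refine gibbs_memLp h continuous_fst.aestronglyMeasurable 1 fun p => ?_
    rw [one_mul]
    have := norm_fst_le p
    simp only [hU]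
    linarith
  have hvU : Var[U; μ] ≠ 0 := by
    intro h0
    have h1 := gibbs_nondeg h (ContinuousLinearMap.fst ℝ ℝ F) h0
    have h2 := congrArg (fun L : ℝ × F →L[ℝ] ℝ => L (1, 0)) h1
    simp at h2
  have hvU0 : 0 ≤ Var[U; μ] := variance_nonneg _ _
  set c : F := ∫ p, (p.1 - ∫ q, q.1 ∂μ) • p.2 ∂μ with hc
  have hcint : Integrable (fun p : ℝ × F => (p.1 - ∫ q, q.1 ∂μ) • p.2) μ := by
    refine gibbs_integrable h ?_ (1 + |∫ q, q.1 ∂μ|) 2 fun p => ?_
    · exact ((continuous_fst.sub continuous_const).smul continuous_snd).aestronglyMeasurable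
    · rw [norm_smul, Real.norm_eq_abs]
      have h1 : |p.1 - ∫ q, q.1 ∂μ| ≤ ‖p‖ + |∫ q, q.1 ∂μ| := by
        refine (abs_sub _ _).trans ?_
        have := norm_fst_le p
        rw [Real.norm_eq_abs] at this
        linarith
      have h2 := norm_snd_le p
      have h3 : 0 ≤ |∫ q, q.1 ∂μ| := abs_nonneg _
      have h4 : 0 ≤ ‖p‖ := norm_nonneg p
      calc |p.1 - ∫ q, q.1 ∂μ| * ‖p.2‖ ≤ (‖p‖ + |∫ q, q.1 ∂μ|) * ‖p‖ := by gcongr
        _ ≤ (1 + |∫ q, q.1 ∂μ|) * (1 + ‖p‖) ^ 2 := by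
            nlinarith [mul_nonneg h3 h4, mul_nonneg h3 (sq_nonneg ‖p‖), sq_nonneg ‖p‖]
  refine ⟨(Var[U; μ])⁻¹ • c, fun ℓ s => ?_⟩
  set Y : ℝ × F → ℝ := fun p => ℓ p.2 with hY
  have mY : MemLp Y 2 μ := by
    refine gibbs_memLp h (ℓ.continuous.comp continuous_snd).aestronglyMeasurable ‖ℓ‖ fun p => ?_
    refine (ℓ.le_opNorm p.2).trans ?_
    have := norm_snd_le p
    gcongr
    linarith
  have hcov : cov[Y, U; μ] = ℓ c := by
    have h1 : ℓ c = ∫ p, (p.1 - ∫ q, q.1 ∂μ) * ℓ p.2 ∂μ := by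
      rw [hc, ← ContinuousLinearMap.integral_comp_comm _ hcint]
      simp only [map_smul, smul_eq_mul]
    rw [covariance_eq_sub mY mU, h1]
    have iU : Integrable U μ := mU.integrable (by norm_num)
    have iY : Integrable Y μ := mY.integrable (by norm_num)
    have iYU : Integrable (fun p => Y p * U p) μ := mY.integrable_mul mU
    have h2 : (fun p : ℝ × F => (p.1 - ∫ q, q.1 ∂μ) * ℓ p.2) =
        fun p => Y p * U p - (∫ q, q.1 ∂μ) * Y p := by
      funext p
      simp only [hY, hU]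
      ring
    rw [h2, integral_sub iYU (iY.const_mul _), integral_const_mul]
    simp only [Pi.mul_apply]
    ring
  have hvar : ∀ t : ℝ, Var[fun p : ℝ × F => ℓ p.2 - t * p.1; μ] =
      Var[Y; μ] - 2 * t * ℓ c + t ^ 2 * Var[U; μ] := by
    intro t
    have h1 : (fun p : ℝ × F => ℓ p.2 - t * p.1) = Y - t • U := by
      funext p
      simp [hY, hU]
    rw [h1, variance_sub mY (mU.const_smul t), variance_smul, covariance_smul_right, hcov]
    ring
  rw [hvar, hvar]
  have h1 : ℓ ((Var[U; μ])⁻¹ • c) = (Var[U; μ])⁻¹ * ℓ c := by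
    rw [map_smul, smul_eq_mul]
  rw [h1]
  have h2 : 0 ≤ Var[U; μ] * (s - (Var[U; μ])⁻¹ * ℓ c) ^ 2 := by positivity
  have h3 : Var[U; μ] * (s - (Var[U; μ])⁻¹ * ℓ c) ^ 2 =
      (-2 * s * ℓ c + s ^ 2 * Var[U; μ]) -
        (-2 * ((Var[U; μ])⁻¹ * ℓ c) * ℓ c + ((Var[U; μ])⁻¹ * ℓ c) ^ 2 * Var[U; μ]) := by
    field_simp
    ring
  linarith

end regression

/-- S3: residuals of linear functionals of small variance on a balanced section -/
theorem resid : ∃ C : ℝ, 0 < C ∧ ∀ (F : Type) [NormedAddCommGroup F] [NormedSpace ℝ F]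
    [MeasureSpace F] [BorelSpace F] [FiniteDimensional ℝ F]
    [(volume : Measure F).IsAddHaarMeasure] (φ : ℝ × F → ℝ), Nice φ →
    ∀ (V : ℝ → ℝ), (∀ u, ∫ x, Real.exp (-φ (u, x)) = Real.exp (-V u)) →
    ∀ u₀ T : ℝ, Bal V u₀ T →
    ∃ w : F, ∀ ℓ : F →L[ℝ] ℝ, Var[fun x => ℓ x; gibbs (fun x => φ (u₀, x))] ≤ 1 →
      Var[fun p : ℝ × F => ℓ p.2 - ℓ w * p.1; gibbs φ] ≤ C := by
  refine ⟨204800 * Real.exp 3, by positivity, ?_⟩
  intro F _ _ _ _ _ _ φ h V hV u₀ T hb
  obtain ⟨w, hw⟩ := regress h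
  refine ⟨w, fun ℓ hℓ => ?_⟩
  obtain ⟨s, hs⟩ := resid_one h hV hb ℓ hℓ
  exact (hw ℓ s).trans hs

end Pool.Agent.Lib.MP_6d896a_gt.FP
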