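import Mathlib
import Pool.Agent.Lib.MP_6d896a_gt.FP.FibCalc
import Pool.Agent.Lib.MP_6d896a_gt.FP.FibLin
import Pool.Agent.Lib.MP_6d896a_gt.FP.KeyFib
import Pool.Agent.Lib.MP_6d896a_gt.FP.LVExtOf

/-!
Ingredients of the section principle: linear functionals on the fibres, derivative of the variance
along the fibres, one-dimensional comparison.
-/

set_option autoImplicit false

namespace Pool.Agent.Lib.MP_6d896a_gt.FP

open MeasureTheory ProbabilityTheory Set Filter
open scoped ENNReal Topology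

section oneD

/-- comparison of the values of a nonnegative function whose derivative is controlled -/
lemma sec_compare {v v' V1 V2 : ℝ → ℝ} {u₀ T δ κ : ℝ} (hT : 0 < T) (hδ : 0 < δ)
    (hδ2 : δ ≤ 1 / 2) (hκ : 0 ≤ κ) (hv0 : ∀ t, 0 ≤ v t)
    (hv : ∀ t, |t - u₀| ≤ δ * T → HasDerivAt v (v' t) t)
    (hvv : ∀ t, |t - u₀| ≤ δ * T → v' t ^ 2 ≤ 4 * κ * V2 t * v t)
    (hV1 : ∀ t, HasDerivAt V1 (V2 t) t) (hV2 : ∀ t, 0 ≤ V2 t)
    (hV1b : ∀ t, |t - u₀| ≤ T / 2 → |V1 t| ≤ 4 / T) {u : ℝ} (hu : |u - u₀| ≤ δ * T) :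
    v u₀ ≤ 2 * v u + 16 * κ * δ := by
  -- it is enough to treat `v + ε`
  have hkey : ∀ ε : ℝ, 0 < ε → v u₀ + ε ≤ 2 * (v u + ε) + 16 * κ * δ := by
    intro ε hε
    set s : ℝ → ℝ := fun t => Real.sqrt (v t + ε) with hs
    set θ : ℝ := Real.sqrt (8 / (δ * T ^ 2)) with hθ
    have hθ2 : θ ^ 2 = 8 / (δ * T ^ 2) := Real.sq_sqrt (by positivity)
    have hθ0 : 0 < θ := Real.sqrt_pos.2 (by positivity)
    set q : ℝ := Real.sqrt κ with hq
    have hq2 : q ^ 2 = κ := Real.sq_sqrt hκ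
    have hq0 : 0 ≤ q := Real.sqrt_nonneg _
    set P : ℝ → ℝ := fun t => q * (θ * t / 2 + V1 t / (2 * θ)) with hP
    have hPd : ∀ t, HasDerivAt P (q * (θ / 2 + V2 t / (2 * θ))) t := by
      intro t
      have h1 : HasDerivAt (fun t : ℝ => θ * t / 2) (θ / 2) t := by
        have := ((hasDerivAt_id t).const_mul θ).div_const 2
        simpa using this
      exact (h1.add ((hV1 t).div_const (2 * θ))).const_mul q
    have hball : ∀ t, |t - u₀| ≤ δ * T → |t - u₀| ≤ T / 2 := fun t ht => ht.trans (by nlinarith)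
    have hsd : ∀ t, |t - u₀| ≤ δ * T → HasDerivAt s (v' t / (2 * Real.sqrt (v t + ε))) t := by
      intro t ht
      exact ((hv t ht).add_const ε).sqrt (by have := hv0 t; linarith)
    have hslope : ∀ t, |t - u₀| ≤ δ * T →
        |v' t / (2 * Real.sqrt (v t + ε))| ≤ q * (θ / 2 + V2 t / (2 * θ)) := by
      intro t ht
      have hpos : 0 < v t + ε := by have := hv0 t; linarith
      have hsq : Real.sqrt (v t + ε) ^ 2 = v t + ε := Real.sq_sqrt hpos.le
      have hsp : 0 < Real.sqrt (v t + ε) := Real.sqrt_pos.2 hpos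
      apply abs_le_of_sq_le_sq _ (by have := hV2 t; positivity)
      rw [div_pow, mul_pow, hsq, div_le_iff₀ (by positivity)]
      have h1 := hvv t ht
      have h2 : V2 t ≤ (θ / 2 + V2 t / (2 * θ)) ^ 2 := by
        have e : (θ / 2 + V2 t / (2 * θ)) ^ 2 - V2 t = (θ / 2 - V2 t / (2 * θ)) ^ 2 := by
          field_simp
          ring
        nlinarith [sq_nonneg (θ / 2 - V2 t / (2 * θ))]
      calc v' t ^ 2 ≤ 4 * κ * V2 t * v t := h1
        _ ≤ 4 * κ * V2 t * (v t + ε) := by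
            have := hV2 t
            have h3 : 0 ≤ 4 * κ * V2 t := by positivity
            nlinarith
        _ ≤ 4 * κ * (θ / 2 + V2 t / (2 * θ)) ^ 2 * (v t + ε) := by gcongr
        _ = (q * (θ / 2 + V2 t / (2 * θ))) ^ 2 * (2 ^ 2 * (v t + ε)) := by
            rw [mul_pow, hq2]; ring
    -- monotonicity
    have hI : Convex ℝ (Metric.closedBall u₀ (δ * T)) := convex_closedBall _ _
    have hmemI : ∀ t, t ∈ Metric.closedBall u₀ (δ * T) ↔ |t - u₀| ≤ δ * T := by
      intro t; rw [Metric.mem_closedBall, Real.dist_eq]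
    have hmono1 : MonotoneOn (fun t => P t - s t) (Metric.closedBall u₀ (δ * T)) := by
      apply monotoneOn_of_deriv_nonneg hI
      · intro t ht
        exact ((hPd t).sub (hsd t ((hmemI t).1 ht))).continuousAt.continuousWithinAt
      · intro t ht
        have ht' := interior_subset ht
        exact ((hPd t).sub (hsd t ((hmemI t).1 ht'))).differentiableAt.differentiableWithinAt
      · intro t ht
        have ht' := (hmemI t).1 (interior_subset ht)
        have e := ((hPd t).sub (hsd t ht')).deriv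
        have e2 : deriv (fun t => P t - s t) t = q * (θ / 2 + V2 t / (2 * θ)) -
            v' t / (2 * Real.sqrt (v t + ε)) := e
        rw [e2]
        have := (le_abs_self _).trans (hslope t ht')
        linarith
    have hmono2 : MonotoneOn (fun t => P t + s t) (Metric.closedBall u₀ (δ * T)) := by
      apply monotoneOn_of_deriv_nonneg hI
      · intro t ht
        exact ((hPd t).add (hsd t ((hmemI t).1 ht))).continuousAt.continuousWithinAt
      · intro t ht
        have ht' := interior_subset ht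
        exact ((hPd t).add (hsd t ((hmemI t).1 ht'))).differentiableAt.differentiableWithinAt
      · intro t ht
        have ht' := (hmemI t).1 (interior_subset ht)
        have e := ((hPd t).add (hsd t ht')).deriv
        have e2 : deriv (fun t => P t + s t) t = q * (θ / 2 + V2 t / (2 * θ)) +
            v' t / (2 * Real.sqrt (v t + ε)) := e
        rw [e2]
        have := (neg_abs_le _).trans' (neg_le_neg (hslope t ht'))
        linarith
    have hu₀ : u₀ ∈ Metric.closedBall u₀ (δ * T) := by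
      rw [hmemI]; simp; positivity
    have huI : u ∈ Metric.closedBall u₀ (δ * T) := (hmemI u).2 hu
    -- size of the increment of `P`
    have hPinc : |P u - P u₀| ≤ q * Real.sqrt (8 * δ) := by
      have h1 : P u - P u₀ = q * (θ * (u - u₀) / 2 + (V1 u - V1 u₀) / (2 * θ)) := by
        simp only [hP]; ring
      rw [h1, abs_mul, abs_of_nonneg hq0]
      refine mul_le_mul_of_nonneg_left ?_ hq0
      have h2 : |V1 u - V1 u₀| ≤ 8 / T := by
        have h3 := hV1b u (hball u hu)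
        have h4 := hV1b u₀ (by rw [sub_self, abs_zero]; positivity)
        have h5 := abs_sub (V1 u) (V1 u₀)
        have h6 : (8 : ℝ) / T = 4 / T + 4 / T := by ring
        rw [h6]
        linarith
      have h3 : |θ * (u - u₀) / 2 + (V1 u - V1 u₀) / (2 * θ)| ≤ θ * (δ * T) / 2 +
          (8 / T) / (2 * θ) := by
        refine (abs_add_le _ _).trans (add_le_add ?_ ?_)
        · rw [abs_div, abs_mul, abs_of_pos hθ0, abs_of_pos (by norm_num : (0 : ℝ) < 2)]
          gcongr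
        · rw [abs_div, abs_of_pos (by positivity : (0 : ℝ) < 2 * θ)]
          gcongr
      refine h3.trans ?_
      have h4 : θ * (δ * T) / 2 + (8 / T) / (2 * θ) = θ * (δ * T) := by
        have h5 : θ * θ * (δ * T ^ 2) = 8 := by
          rw [← sq, hθ2]; field_simp
        have h6 : (8 / T) / (2 * θ) = θ * (δ * T) / 2 := by
          rw [← h5]; field_simp
        rw [h6]; ring
      rw [h4]
      apply Real.le_sqrt_of_sq_le
      rw [mul_pow, hθ2]
      apply le_of_eq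
      field_simp
    have hsinc : |s u - s u₀| ≤ |P u - P u₀| := by
      rcases le_total u u₀ with h | h
      · have h1 := hmono1 huI hu₀ h
        have h2 := hmono2 huI hu₀ h
        simp only at h1 h2
        rw [abs_sub_comm (P u)]
        refine (abs_le.2 ⟨?_, ?_⟩).trans (le_abs_self _)
        · linarith
        · linarith
      · have h1 := hmono1 hu₀ huI h
        have h2 := hmono2 hu₀ huI h
        simp only at h1 h2
        refine (abs_le.2 ⟨?_, ?_⟩).trans (le_abs_self _)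
        · linarith
        · linarith
    have hfin : s u₀ ^ 2 ≤ 2 * s u ^ 2 + 2 * (s u - s u₀) ^ 2 := by
      nlinarith [sq_nonneg (s u + (s u - s u₀)), sq_nonneg (s u₀ - 2 * s u)]
    have hsq : ∀ t, s t ^ 2 = v t + ε := fun t => Real.sq_sqrt (by have := hv0 t; linarith)
    rw [hsq, hsq] at hfin
    have h8 : (s u - s u₀) ^ 2 ≤ 8 * κ * δ := by
      rw [← sq_abs]
      calc |s u - s u₀| ^ 2 ≤ (q * Real.sqrt (8 * δ)) ^ 2 := by
            gcongr
            exact hsinc.trans hPinc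
        _ = 8 * κ * δ := by rw [mul_pow, hq2, Real.sq_sqrt (by positivity)]; ring
    linarith
  refine le_of_forall_pos_le_add fun ε hε => ?_
  have := hkey ε hε
  linarith

end oneD

section fibre

variable {F : Type*} [NormedAddCommGroup F] [NormedSpace ℝ F] [MeasureSpace F]
    [BorelSpace F] [FiniteDimensional ℝ F] [(volume : Measure F).IsAddHaarMeasure]

/-- linear functionals of variance at most one on a balanced section -/
lemma sec_lin {φ : ℝ × F → ℝ} (h : Nice φ) {V : ℝ → ℝ} {u₀ T y₀ C₁ C₃ : ℝ}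
    (hC₁ : 0 < C₁) (hC₃ : 0 < C₃)
    (hlin : ∀ ℓ : ℝ × F →L[ℝ] ℝ, Var[fun p => ℓ p; gibbs φ] ≤ 1 →
      ∀ y, ∫ x, (ℓ (y, x) - ∫ p, ℓ p ∂(gibbs φ)) ^ 2 ∂(gibbs (fun x => φ (y, x))) ≤
        C₁ * (1 + (V y - V y₀)) ^ 2)
    (hVT : ∀ u, |u - u₀| ≤ T → V u - V y₀ ≤ 2) (hVmin : ∀ u, V y₀ ≤ V u) (hT : 0 < T)
    {w : F} {m : ℝ → F}
    (hmean : ∀ (ℓ : F →L[ℝ] ℝ) (y : ℝ), ∫ x, ℓ x ∂(gibbs (fun x => φ (y, x))) = ℓ (m y))
    {ℓ : F →L[ℝ] ℝ} (hw : Var[fun p : ℝ × F => ℓ p.2 - ℓ w * p.1; gibbs φ] ≤ C₃)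
    {u : ℝ} (hu : |u - u₀| ≤ T) :
    Var[fun x => ℓ x; gibbs (fun x => φ (u, x))] ≤ 9 * C₁ * C₃ ∧
      (ℓ (m u - m u₀ - (u - u₀) • w)) ^ 2 ≤ 4 * (9 * C₁ * C₃) := by
  set r : ℝ := Real.sqrt C₃ with hr
  have hr2 : r ^ 2 = C₃ := Real.sq_sqrt hC₃.le
  have hr0 : 0 < r := Real.sqrt_pos.2 hC₃
  set L0 : ℝ × F →L[ℝ] ℝ := ℓ.comp (ContinuousLinearMap.snd ℝ ℝ F) -
    (ℓ w) • ContinuousLinearMap.fst ℝ ℝ F with hL0
  have hL0a : ∀ p : ℝ × F, L0 p = ℓ p.2 - ℓ w * p.1 := fun p => by simp [hL0]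
  set L : ℝ × F →L[ℝ] ℝ := r⁻¹ • L0 with hL
  have hLa : ∀ p : ℝ × F, L p = r⁻¹ * (ℓ p.2 - ℓ w * p.1) := fun p => by
    rw [hL, smul_apply, hL0a, smul_eq_mul]
  have hvar : Var[fun p => L p; gibbs φ] ≤ 1 := by
    simp only [hLa]
    rw [variance_const_mul, inv_pow, hr2, inv_mul_le_iff₀ hC₃, mul_one]
    exact hw
  have key : ∀ t, |t - u₀| ≤ T → (L (t, m t) - ∫ p, L p ∂(gibbs φ)) ^ 2 ≤ 9 * C₁ ∧
      Var[fun x => L (0, x); gibbs (fun x => φ (t, x))] ≤ 9 * C₁ := by
    intro t ht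
    refine lv_lin h L t _ _ (fun ℓ => hmean ℓ t) ((hlin L hvar t).trans ?_)
    have h1 := hVT t ht
    have h2 := hVmin t
    have h3 : (1 + (V t - V y₀)) ^ 2 ≤ 9 := by nlinarith
    nlinarith
  have ku := key u hu
  have k0 := key u₀ (by rw [sub_self, abs_zero]; exact hT.le)
  constructor
  · have h1 : Var[fun x => L (0, x); gibbs (fun x => φ (u, x))] =
        C₃⁻¹ * Var[fun x => ℓ x; gibbs (fun x => φ (u, x))] := by
      have e : (fun x => L (0, x)) = fun x => r⁻¹ * ℓ x := by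
        funext x; rw [hLa]; simp
      rw [e, variance_const_mul, inv_pow, hr2]
    have h2 := ku.2
    rw [h1, inv_mul_le_iff₀ hC₃] at h2
    linarith
  · have e : L (u, m u) - L (u₀, m u₀) = r⁻¹ * ℓ (m u - m u₀ - (u - u₀) • w) := by
      rw [hLa, hLa]
      simp only [map_sub, map_smul, smul_eq_mul]
      ring
    have h1 : (L (u, m u) - L (u₀, m u₀)) ^ 2 ≤ 4 * (9 * C₁) := by
      set c := ∫ p, L p ∂(gibbs φ)
      have h3 := ku.1
      have h4 := k0.1
      nlinarith [sq_nonneg ((L (u, m u) - c) + (L (u₀, m u₀) - c))]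
    rw [e, mul_pow, inv_pow, hr2, inv_mul_le_iff₀ hC₃] at h1
    linarith

omit [MeasureSpace F] [BorelSpace F] [FiniteDimensional ℝ F]
  [(volume : Measure F).IsAddHaarMeasure] in
/-- squares of bounded functions with bounded and Lipschitz derivative -/
lemma sq_facts {f : F → ℝ} (hf : ContDiff ℝ 1 f) {B B1 B2 : ℝ} (hB : ∀ x, |f x| ≤ B)
    (hB1 : ∀ x, ‖fderiv ℝ f x‖ ≤ B1)
    (hB2 : ∀ x y, ‖fderiv ℝ f x - fderiv ℝ f y‖ ≤ B2 * ‖x - y‖) :
    ContDiff ℝ 1 (fun x => f x ^ 2) ∧ (∀ x, fderiv ℝ (fun x => f x ^ 2) x = (2 * f x) • fderiv ℝ f x) ∧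
    (∀ x, ‖fderiv ℝ (fun x => f x ^ 2) x‖ ≤ 2 * B * B1) ∧
    (∀ x y, ‖fderiv ℝ (fun x => f x ^ 2) x - fderiv ℝ (fun x => f x ^ 2) y‖ ≤
      (2 * B1 * B1 + 2 * B * B2) * ‖x - y‖) := by
  have hd : ∀ x, fderiv ℝ (fun x => f x ^ 2) x = (2 * f x) • fderiv ℝ f x := by
    intro x
    have h1 := ((hf.differentiable one_ne_zero x).hasFDerivAt).pow 2
    have h2 := h1.fderiv
    rw [h2]
    ext z
    simp
  have hB0 : 0 ≤ B := (abs_nonneg _).trans (hB 0)
  have hB10 : 0 ≤ B1 := (norm_nonneg _).trans (hB1 0)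
  refine ⟨hf.pow 2, hd, fun x => ?_, fun x y => ?_⟩
  · rw [hd, norm_smul, norm_mul, Real.norm_ofNat, Real.norm_eq_abs]
    have := hB x
    have := hB1 x
    gcongr
  · rw [hd, hd]
    have e : (2 * f x) • fderiv ℝ f x - (2 * f y) • fderiv ℝ f y =
        (2 * (f x - f y)) • fderiv ℝ f x + (2 * f y) • (fderiv ℝ f x - fderiv ℝ f y) := by
      rw [smul_sub, mul_sub, sub_smul]; abel
    rw [e]
    have h1 : |f x - f y| ≤ B1 * ‖x - y‖ := by
      rw [← Real.norm_eq_abs]
      exact Convex.norm_image_sub_le_of_norm_fderiv_le (𝕜 := ℝ) (s := univ)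
        (fun y _ => hf.differentiable one_ne_zero y) (fun y _ => hB1 y) convex_univ
        (mem_univ _) (mem_univ _)
    have h2 := hB2 x y
    have h3 := hB1 x
    have h4 := hB y
    have hn := norm_nonneg (x - y)
    calc ‖(2 * (f x - f y)) • fderiv ℝ f x + (2 * f y) • (fderiv ℝ f x - fderiv ℝ f y)‖
        ≤ ‖(2 * (f x - f y)) • fderiv ℝ f x‖ + ‖(2 * f y) • (fderiv ℝ f x - fderiv ℝ f y)‖ :=
          norm_add_le _ _
      _ = 2 * |f x - f y| * ‖fderiv ℝ f x‖ + 2 * |f y| * ‖fderiv ℝ f x - fderiv ℝ f y‖ := by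
          rw [norm_smul, norm_smul, norm_mul, norm_mul, Real.norm_ofNat, Real.norm_eq_abs,
            Real.norm_eq_abs]
      _ ≤ 2 * (B1 * ‖x - y‖) * B1 + 2 * B * (B2 * ‖x - y‖) := by gcongr
      _ = (2 * B1 * B1 + 2 * B * B2) * ‖x - y‖ := by ring

/-- derivative of the variance along the fibres -/
lemma sec_deriv {φ : ℝ × F → ℝ} (h : Nice φ) {V2 : ℝ → ℝ} {m m1 : ℝ → F}
    (hV2eq : ∀ y, V2 y = ∫ x, fderiv ℝ (fderiv ℝ φ) (y, x) (1, m1 y) (1, m1 y)
          ∂(gibbs (fun x => φ (y, x))) -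
        Var[fun x => fderiv ℝ φ (y, x) (1, m1 y); gibbs (fun x => φ (y, x))])
    (hV2 : ∀ y, 0 ≤ V2 y)
    (hcov : ∀ (ℓ : F →L[ℝ] ℝ) (y : ℝ),
        cov[fun x => ℓ x, fun x => fderiv ℝ φ (y, x) (1, m1 y); gibbs (fun x => φ (y, x))] = 0)
    (hshift : ∀ F0 : F → ℝ, ContDiff ℝ 1 F0 → (∃ l : ℝ, ∀ x, ‖fderiv ℝ F0 x‖ ≤ l) →
        (∀ y, HasDerivAt (fun t => ∫ x, F0 (x - m t) ∂(gibbs (fun x => φ (t, x))))
          (-cov[fun x => F0 (x - m y), fun x => fderiv ℝ φ (y, x) (1, m1 y);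
            gibbs (fun x => φ (y, x))]) y) ∧
        Continuous (fun y => cov[fun x => F0 (x - m y), fun x => fderiv ℝ φ (y, x) (1, m1 y);
            gibbs (fun x => φ (y, x))]))
    {F0 : F → ℝ} (hf : ContDiff ℝ 1 F0) {B B1 B2 : ℝ} (hB : ∀ x, |F0 x| ≤ B)
    (hB1 : ∀ x, ‖fderiv ℝ F0 x‖ ≤ B1)
    (hB2 : ∀ x y, ‖fderiv ℝ F0 x - fderiv ℝ F0 y‖ ≤ B2 * ‖x - y‖) (t : ℝ) {Ks A : ℝ}
    (hKs : 1 ≤ Ks) (hAP : AP (gibbs (fun x => φ (t, x))) Ks)
    (hA : ∀ x, Var[fun z => fderiv ℝ F0 x z; gibbs (fun x => φ (t, x))] ≤ A) :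
    ∃ v' : ℝ, HasDerivAt (fun t => Var[fun x => F0 (x - m t); gibbs (fun x => φ (t, x))]) v' t ∧
      v' ^ 2 ≤ 4 * (36 * Ks * A) * V2 t *
        Var[fun x => F0 (x - m t); gibbs (fun x => φ (t, x))] := by
  obtain ⟨hq, hqd, hqB, hqL⟩ := sq_facts hf hB hB1 hB2
  obtain ⟨ha, -⟩ := hshift F0 hf ⟨B1, hB1⟩
  obtain ⟨hb, -⟩ := hshift (fun x => F0 x ^ 2) hq ⟨_, hqB⟩
  have hprob := gibbs_prob (h.slice t)
  -- translated function
  have hd0 : ∀ t x, fderiv ℝ (fun x => F0 (x - m t)) x = fderiv ℝ F0 (x - m t) := by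
    intro t x
    rw [fderiv_comp_sub]
  have hBG : ∀ t, BG (fun x => F0 (x - m t)) := fun t =>
    ⟨hf.comp (contDiff_id.sub contDiff_const), B1, fun x => by rw [hd0]; exact hB1 _⟩
  have hBGq : ∀ t, BG (fun x => F0 (x - m t) ^ 2) := fun t =>
    ⟨(hf.comp (contDiff_id.sub contDiff_const)).pow 2, 2 * B * B1, fun x => by
      have e : fderiv ℝ (fun x => F0 (x - m t) ^ 2) x = fderiv ℝ (fun x => F0 x ^ 2) (x - m t) :=
        fderiv_comp_sub (f := fun x => F0 x ^ 2) (m t)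
      rw [e]
      exact hqB _⟩
  -- variance as a difference
  have hveq : (fun t => Var[fun x => F0 (x - m t); gibbs (fun x => φ (t, x))]) = fun t =>
      ∫ x, F0 (x - m t) ^ 2 ∂(gibbs (fun x => φ (t, x))) -
        (∫ x, F0 (x - m t) ∂(gibbs (fun x => φ (t, x)))) ^ 2 := by
    funext t
    have := gibbs_prob (h.slice t)
    exact variance_eq_sub ((hBG t).memLp (h.slice t))
  set β : F → ℝ := fun x => fderiv ℝ φ (t, x) (1, m1 t) with hβ
  set μ := gibbs (fun x => φ (t, x)) with hμ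
  set a : ℝ := ∫ x, F0 (x - m t) ∂μ with hadef
  have hderiv := (hb t).sub ((ha t).pow 2)
  set g : F → ℝ := fun x => (F0 (x - m t) - a) ^ 2 with hg
  have hβm : MemLp β 2 μ := by
    have hBGd := BG.dir h t (1, m1 t)
    exact hBGd.memLp (h.slice t)
  have hFm : MemLp (fun x => F0 (x - m t)) 2 μ := (hBG t).memLp (h.slice t)
  have hFqm : MemLp (fun x => F0 (x - m t) ^ 2) 2 μ := (hBGq t).memLp (h.slice t)
  have hcovg : cov[g, β; μ] = cov[fun x => F0 (x - m t) ^ 2, β; μ] -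
      2 * a * cov[fun x => F0 (x - m t), β; μ] := by
    have e : g = fun x => (F0 (x - m t) ^ 2 - (2 * a) * F0 (x - m t)) + a ^ 2 := by
      funext x; rw [hg]; ring
    have h1 : MemLp (fun x => (2 * a) * F0 (x - m t)) 2 μ := hFm.const_mul _
    have h0 : Integrable (fun x => F0 (x - m t) ^ 2 - (2 * a) * F0 (x - m t)) μ :=
      (hFqm.sub h1).integrable (by norm_num)
    rw [e, covariance_add_const_left h0]
    have h2 := covariance_sub_left hFqm h1 hβm
    have h3 : (fun x => F0 (x - m t) ^ 2 - 2 * a * F0 (x - m t)) =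
        (fun x => F0 (x - m t) ^ 2) - fun x => 2 * a * F0 (x - m t) := rfl
    rw [h3, h2]
    congr 1
    exact covariance_const_mul_left _
  refine ⟨-cov[g, β; μ], ?_, ?_⟩
  · rw [hveq]
    refine hderiv.congr_deriv ?_
    rw [hcovg]
    simp only [hadef, hβ, hμ]
    ring
  · -- the test function
    set G0 : F → ℝ := fun x => F0 (x - m t) - a with hG0
    have hG0c : ContDiff ℝ 1 G0 := (hBG t).1.sub contDiff_const
    have hG0d : ∀ x, fderiv ℝ G0 x = fderiv ℝ F0 (x - m t) := by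
      intro x
      rw [hG0, fderiv_sub_const, hd0]
    have habs : |a| ≤ B := by
      rw [hadef, ← Real.norm_eq_abs]
      have := norm_integral_le_of_norm_le_const (μ := μ) (f := fun x => F0 (x - m t)) (C := B)
        (Eventually.of_forall fun x => by rw [Real.norm_eq_abs]; exact hB _)
      simpa using this
    obtain ⟨hGq, hGqd, hGqB, hGqL⟩ := sq_facts (f := G0) hG0c (B := B + B) (B1 := B1) (B2 := B2)
      (fun x => (abs_sub _ _).trans (add_le_add (hB _) habs))
      (fun x => by rw [hG0d]; exact hB1 _)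
      (fun x y => by
        rw [hG0d, hG0d]
        refine (hB2 _ _).trans (le_of_eq ?_)
        congr 2
        abel)
    have hk := key_fib h t (m1 t) hKs hAP (fun ℓ => hcov ℓ t) (f := g) hGq ⟨_, hGqB⟩ ⟨_, hGqL⟩
    rw [← hV2eq t] at hk
    rw [neg_sq]
    refine hk.trans ?_
    have hvar : ∀ x, Var[fun z => fderiv ℝ g x z; μ] ≤ 4 * (F0 (x - m t) - a) ^ 2 * A := by
      intro x
      have e : (fun z => fderiv ℝ g x z) = fun z => (2 * (F0 (x - m t) - a)) *
          fderiv ℝ F0 (x - m t) z := by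
        funext z
        have h1 : fderiv ℝ g x = (2 * G0 x) • fderiv ℝ G0 x := hGqd x
        rw [h1, smul_apply, hG0d, smul_eq_mul]
      rw [e, variance_const_mul, mul_pow]
      have := hA (x - m t)
      have h4 : 0 ≤ (2 : ℝ) ^ 2 * (F0 (x - m t) - a) ^ 2 := by positivity
      calc (2 : ℝ) ^ 2 * (F0 (x - m t) - a) ^ 2 *
            Var[fun z => fderiv ℝ F0 (x - m t) z; μ] ≤
            (2 : ℝ) ^ 2 * (F0 (x - m t) - a) ^ 2 * A := mul_le_mul_of_nonneg_left this h4
        _ = 4 * (F0 (x - m t) - a) ^ 2 * A := by ring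
    have hvarF : Var[fun x => F0 (x - m t); μ] = ∫ x, (F0 (x - m t) - a) ^ 2 ∂μ :=
      variance_eq_integral hFm.1.aemeasurable
    have hsqi : Integrable (fun x => (F0 (x - m t) - a) ^ 2) μ :=
      (hFm.sub (memLp_const a)).integrable_sq
    have hint : ∫ x, Var[fun z => fderiv ℝ g x z; μ] ∂μ ≤
        4 * A * Var[fun x => F0 (x - m t); μ] := by
      rw [hvarF, ← integral_const_mul]
      refine integral_mono_of_nonneg (Eventually.of_forall fun x => variance_nonneg _ _)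
        (hsqi.const_mul _) (Eventually.of_forall fun x => ?_)
      refine (hvar x).trans (le_of_eq ?_)
      ring
    have h5 : 0 ≤ 36 * Ks * V2 t := by
      have := hV2 t
      positivity
    calc 36 * Ks * V2 t * ∫ x, Var[fun z => fderiv ℝ g x z; μ] ∂μ ≤
        36 * Ks * V2 t * (4 * A * Var[fun x => F0 (x - m t); μ]) :=
          mul_le_mul_of_nonneg_left hint h5
      _ = _ := by ring

end fibre

end Pool.Agent.Lib.MP_6d896a_gt.FP
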