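import Mathlib
import Pool.Agent.Lib.MP_6d896a_gt.FP.SecLVa

/-!
Variance of Lipschitz functions on a balanced section, in terms of the facts on the marginal
potential.
-/

set_option autoImplicit false

namespace Pool.Agent.Lib.MP_6d896a_gt.FP

open MeasureTheory ProbabilityTheory Set Filter
open scoped ENNReal Topology

/-- variances of close functions -/
lemma sec_var_comp {Ω : Type*} [MeasurableSpace Ω] {μ : Measure Ω} [IsProbabilityMeasure μ]
    {X Y : Ω → ℝ} (hX : MemLp X 2 μ) (hY : MemLp Y 2 μ) {c D : ℝ}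
    (hD : ∀ x, (X x - Y x) ^ 2 ≤ D) : Var[X; μ] ≤ 2 * ∫ x, (Y x - c) ^ 2 ∂μ + 2 * D := by
  have hsqi : Integrable (fun x => (Y x - c) ^ 2) μ := (hY.sub (memLp_const c)).integrable_sq
  have hsqX : Integrable (fun x => (X x - c) ^ 2) μ := (hX.sub (memLp_const c)).integrable_sq
  have hpt : ∀ x, (X x - c) ^ 2 ≤ 2 * (Y x - c) ^ 2 + 2 * D := by
    intro x
    have := hD x
    nlinarith [sq_nonneg ((X x - Y x) - (Y x - c))]
  refine (lv_var_le hX c).trans ?_
  calc ∫ x, (X x - c) ^ 2 ∂μ ≤ ∫ x, (2 * (Y x - c) ^ 2 + 2 * D) ∂μ :=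
        integral_mono hsqX ((hsqi.const_mul 2).add (integrable_const _)) hpt
    _ = _ := by
        rw [integral_add (hsqi.const_mul 2) (integrable_const _), integral_const_mul]
        simp

/-- variance of Lipschitz functions on a balanced section -/
theorem sec_lv_raw : ∃ C : ℝ, 0 < C ∧ ∀ C₃ : ℝ, 0 < C₃ → ∀ (F : Type) [NormedAddCommGroup F]
    [NormedSpace ℝ F] [MeasureSpace F] [BorelSpace F] [FiniteDimensional ℝ F]
    [(volume : Measure F).IsAddHaarMeasure] (φ : ℝ × F → ℝ), Nice φ →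
    ∀ (V : ℝ → ℝ), (∀ u, ∫ x, Real.exp (-φ (u, x)) = Real.exp (-V u)) →
    ∀ u₀ T : ℝ, 0 < T → (∀ u, V u₀ - 1 ≤ V u) → (∀ u, |u - u₀| ≤ T → V u ≤ V u₀ + 1) →
    ∫ u, Real.exp (-V u) ≤ 8 * T * Real.exp (-V u₀) →
    (∀ V1 : ℝ → ℝ, (∀ u, HasDerivAt V (V1 u) u) → ∀ u, |u - u₀| ≤ T / 2 → |V1 u| ≤ 4 / T) →
    ∀ w : F, (∀ ℓ : F →L[ℝ] ℝ, Var[fun x => ℓ x; gibbs (fun x => φ (u₀, x))] ≤ 1 →
      Var[fun p : ℝ × F => ℓ p.2 - ℓ w * p.1; gibbs φ] ≤ C₃) →
    ∀ K Ks : ℝ, 1 ≤ K → 1 ≤ Ks → AP (gibbs φ) K →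
    ∀ δ : ℝ, 0 < δ → δ ≤ 1 / 2 →
    (∀ u, |u - u₀| ≤ δ * T → AP (gibbs (fun x => φ (u, x))) Ks) →
    ∀ f : F → ℝ, ContDiff ℝ 1 f → (∃ B : ℝ, ∀ x, |f x| ≤ B) →
    (∃ B : ℝ, ∀ x, ‖fderiv ℝ f x‖ ≤ B) →
    (∃ B : ℝ, ∀ x y, ‖fderiv ℝ f x - fderiv ℝ f y‖ ≤ B * ‖x - y‖) →
    (∀ x, Var[fun z => fderiv ℝ f x z; gibbs (fun x => φ (u₀, x))] ≤ 1) →
    Var[f; gibbs (fun x => φ (u₀, x))] ≤ C * C₃ * K / δ + C * C₃ * δ * Ks := by
  obtain ⟨C₁, hC₁, hlin⟩ := fib_lin
  refine ⟨48 + 5184 * C₁, by positivity, ?_⟩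
  intro C₃ hC₃ F _ _ _ _ _ _ φ h V hV u₀ T hT hVlow hVT hZT hV1b w hw K Ks hK hKs hAPK δ hδ
    hδ2 hAPs f hf ⟨B, hB⟩ ⟨B1, hB1⟩ ⟨B2, hB2⟩ hvar
  have := lv_haar (E := F)
  have hprob := gibbs_prob h
  have hprob0 := gibbs_prob (h.slice u₀)
  obtain ⟨V', V1, V2, m, m1, y₀, hV', hVd, hV1d, hV2c, hV2, hV10, hconv, hmin, hint, hmd, hm1c,
    hmean, hV2eq, hcov, hshift⟩ := fib_calc h
  have hVV : V' = V := by
    funext u
    have := (hV' u).symm.trans (hV u)
    have h1 := Real.exp_injective this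
    linarith
  subst hVV
  set A : ℝ := 9 * C₁ * C₃ with hA
  have hA0 : 0 < A := by positivity
  -- linear functionals
  have hsl : ∀ ℓ : F →L[ℝ] ℝ, Var[fun x => ℓ x; gibbs (fun x => φ (u₀, x))] ≤ 1 →
      ∀ u, |u - u₀| ≤ T → Var[fun x => ℓ x; gibbs (fun x => φ (u, x))] ≤ A ∧
        (ℓ (m u - m u₀ - (u - u₀) • w)) ^ 2 ≤ 4 * A := by
    intro ℓ hℓ u hu
    refine sec_lin h hC₁ hC₃ (fun L hL y => hlin F φ h V' y₀ hV' hmin L hL y) (fun u hu => ?_)
      hmin hT hmean (hw ℓ hℓ) hu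
    have h1 := hVT u hu
    have h2 := hVlow y₀
    linarith
  have hfd : Differentiable ℝ f := hf.differentiable one_ne_zero
  -- translated function
  set F0 : F → ℝ := fun z => f (z + m u₀) with hF0
  have hF0c : ContDiff ℝ 1 F0 := hf.comp (contDiff_id.add contDiff_const)
  have hF0d : ∀ z, fderiv ℝ F0 z = fderiv ℝ f (z + m u₀) := fun z => by
    rw [hF0, fderiv_comp_add_right]
  have hderiv : ∀ t, |t - u₀| ≤ δ * T → ∃ v' : ℝ,
      HasDerivAt (fun t => Var[fun x => F0 (x - m t); gibbs (fun x => φ (t, x))]) v' t ∧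
      v' ^ 2 ≤ 4 * (36 * Ks * A) * V2 t *
        Var[fun x => F0 (x - m t); gibbs (fun x => φ (t, x))] := by
    intro t ht
    refine sec_deriv h hV2eq hV2 hcov hshift hF0c (B := B) (B1 := B1) (B2 := B2)
      (fun x => hB _) (fun x => by rw [hF0d]; exact hB1 _) (fun x y => ?_) t hKs (hAPs t ht)
      (fun x => ?_)
    · rw [hF0d, hF0d]
      refine (hB2 _ _).trans (le_of_eq ?_)
      congr 2
      abel
    · rw [hF0d]
      exact (hsl _ (hvar _) t (ht.trans (by nlinarith))).1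
  set v : ℝ → ℝ := fun t => Var[fun x => F0 (x - m t); gibbs (fun x => φ (t, x))] with hv
  have hv0 : ∀ t, 0 ≤ v t := fun t => variance_nonneg _ _
  have hvu₀ : v u₀ = Var[f; gibbs (fun x => φ (u₀, x))] := by
    rw [hv]
    simp only [hF0, sub_add_cancel]
  choose! v' hv'1 hv'2 using hderiv
  have hcomp : ∀ u, |u - u₀| ≤ δ * T → v u₀ ≤ 2 * v u + 576 * A * Ks * δ := by
    intro u hu
    have := sec_compare (v := v) (v' := v') (V1 := V1) (V2 := V2) (u₀ := u₀) (κ := 36 * Ks * A)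
      hT hδ hδ2 (by positivity) hv0 hv'1 hv'2 hV1d hV2 (hV1b V1 hVd) hu
    linarith
  -- the function on the product
  set G : ℝ × F → ℝ := fun p => f (p.2 - (p.1 - u₀) • w) with hG
  set Λ : ℝ × F →L[ℝ] F := ContinuousLinearMap.snd ℝ ℝ F -
    (ContinuousLinearMap.fst ℝ ℝ F).smulRight w with hΛ
  have hΛa : ∀ q : ℝ × F, Λ q = q.2 - q.1 • w := fun q => by simp [hΛ]
  have hGe : G = fun p => f (Λ p + u₀ • w) := by
    funext p
    rw [hG, hΛa]
    simp only
    congr 1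
    rw [sub_smul]
    abel
  have hGd : ∀ p, fderiv ℝ G p = (fderiv ℝ f (Λ p + u₀ • w)).comp Λ := by
    intro p
    rw [hGe]
    have h1 : HasFDerivAt (fun p => Λ p + u₀ • w) Λ p := Λ.hasFDerivAt.add_const _
    exact ((hfd (Λ p + u₀ • w)).hasFDerivAt.comp p h1).fderiv
  have hGc : ContDiff ℝ 1 G := by
    rw [hGe]
    exact hf.comp (Λ.contDiff.add contDiff_const)
  have hGb : ∃ l : ℝ, ∀ p, ‖fderiv ℝ G p‖ ≤ l := by
    refine ⟨B1 * ‖Λ‖, fun p => ?_⟩
    rw [hGd]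
    refine (ContinuousLinearMap.opNorm_comp_le _ _).trans ?_
    gcongr
    exact hB1 _
  have hGm : MemLp G 2 (gibbs φ) := BG.memLp h ⟨hGc, hGb⟩
  have hGvar : Var[G; gibbs φ] ≤ K * C₃ := by
    refine (hAPK G hGc hGb).trans ?_
    have h1 : ∀ p, Var[fun q => fderiv ℝ G p q; gibbs φ] ≤ C₃ := by
      intro p
      have e : (fun q => fderiv ℝ G p q) = fun q : ℝ × F =>
          fderiv ℝ f (Λ p + u₀ • w) q.2 - fderiv ℝ f (Λ p + u₀ • w) w * q.1 := by
        funext q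
        rw [hGd, ContinuousLinearMap.comp_apply, hΛa q, map_sub, map_smul, smul_eq_mul]
        ring
      rw [e]
      exact hw _ (hvar _)
    refine mul_le_mul_of_nonneg_left ?_ (by linarith)
    calc ∫ p, Var[fun q => fderiv ℝ G p q; gibbs φ] ∂(gibbs φ) ≤ ∫ _, C₃ ∂(gibbs φ) :=
          integral_mono_of_nonneg (Eventually.of_forall fun x => variance_nonneg _ _)
            (integrable_const _) (Eventually.of_forall h1)
      _ = C₃ := by simp
  set c : ℝ := ∫ p, G p ∂(gibbs φ) with hc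
  have hGint : ∫⁻ p, ENNReal.ofReal ((G p - c) ^ 2) ∂(gibbs φ) ≤ ENNReal.ofReal (K * C₃) := by
    have h1 : Var[G; gibbs φ] = ∫ p, (G p - c) ^ 2 ∂(gibbs φ) :=
      variance_eq_integral hGm.1.aemeasurable
    have h2 : Integrable (fun p => (G p - c) ^ 2) (gibbs φ) :=
      (hGm.sub (memLp_const c)).integrable_sq
    rw [← ofReal_integral_eq_lintegral_ofReal h2 (Eventually.of_forall fun p => sq_nonneg _), ← h1]
    exact ENNReal.ofReal_le_ofReal hGvar
  -- the fibres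
  set E : ℝ := 16 * A + 576 * A * Ks * δ with hE
  have hfib : ∀ u, |u - u₀| ≤ δ * T → ENNReal.ofReal ((v u₀ - E) / 4) ≤
      ∫⁻ x, ENNReal.ofReal ((G (u, x) - c) ^ 2) ∂(gibbs (fun x => φ (u, x))) := by
    intro u hu
    have hp := gibbs_prob (h.slice u)
    have huT : |u - u₀| ≤ T := hu.trans (by nlinarith)
    have hFm : MemLp (fun x => F0 (x - m u)) 2 (gibbs (fun x => φ (u, x))) :=
      BG.memLp (h.slice u) ⟨hF0c.comp (contDiff_id.sub contDiff_const), B1, fun x => by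
        have e : fderiv ℝ (fun x => F0 (x - m u)) x = fderiv ℝ F0 (x - m u) :=
          fderiv_comp_sub (f := F0) (m u)
        rw [e, hF0d]
        exact hB1 _⟩
    have hGuc : ContDiff ℝ 1 (fun x => G (u, x)) := by
      have : ContDiff ℝ 1 (fun x => f (x - (u - u₀) • w)) :=
        hf.comp (contDiff_id.sub contDiff_const)
      exact this
    have hGum : MemLp (fun x => G (u, x)) 2 (gibbs (fun x => φ (u, x))) :=
      BG.memLp (h.slice u) ⟨hGuc, B1, fun x => by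
        have e : fderiv ℝ (fun x => G (u, x)) x = fderiv ℝ f (x - (u - u₀) • w) :=
          fderiv_comp_sub (f := f) ((u - u₀) • w)
        rw [e]
        exact hB1 _⟩
    have hsqi : Integrable (fun x => (G (u, x) - c) ^ 2) (gibbs (fun x => φ (u, x))) :=
      (hGum.sub (memLp_const c)).integrable_sq
    have hdiff : ∀ x, (F0 (x - m u) - G (u, x)) ^ 2 ≤ 4 * A := by
      intro x
      obtain ⟨z, -, hz⟩ := domain_mvt (f := f) (f' := fun p => fderiv ℝ f p) (s := univ)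
        (x := x - m u + m u₀) (y := x - (u - u₀) • w)
        (fun p _ => (hfd p).hasFDerivAt.hasFDerivWithinAt) convex_univ (mem_univ _) (mem_univ _)
      have h1 : x - (u - u₀) • w - (x - m u + m u₀) = m u - m u₀ - (u - u₀) • w := by abel
      rw [h1] at hz
      have h2 : F0 (x - m u) - G (u, x) = -(fderiv ℝ f z (m u - m u₀ - (u - u₀) • w)) := by
        rw [← hz]
        simp only [hF0, hG]
        ring
      rw [h2, neg_sq]
      exact (hsl _ (hvar z) u huT).2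
    have hvle : v u ≤ 2 * ∫ x, (G (u, x) - c) ^ 2 ∂(gibbs (fun x => φ (u, x))) + 2 * (4 * A) :=
      sec_var_comp hFm hGum hdiff
    rw [← ofReal_integral_eq_lintegral_ofReal hsqi (Eventually.of_forall fun p => sq_nonneg _)]
    apply ENNReal.ofReal_le_ofReal
    have := hcomp u hu
    rw [hE]
    linarith
  -- normalisation
  set Z := ∫ y, Real.exp (-V' y) with hZdef
  have hZ : 0 < Z := integral_exp_pos hint
  set W : ℝ → ℝ := fun y => V' y + Real.log Z with hWdef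
  have hW : ∀ y, Real.exp (-W y) = Z⁻¹ * Real.exp (-V' y) := by
    intro y
    rw [hWdef]
    simp only
    rw [neg_add, Real.exp_add, Real.exp_neg (Real.log Z), Real.exp_log hZ, mul_comm]
  have hmG : Measurable fun p : ℝ × F => ENNReal.ofReal ((G p - c) ^ 2) :=
    ENNReal.measurable_ofReal.comp ((hGc.continuous.sub continuous_const).pow 2).measurable
  rw [lv_disint h hZ hV' hint hZdef.symm hW hmG] at hGint
  set I : Set ℝ := Icc (u₀ - δ * T) (u₀ + δ * T) with hI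
  have hmemI : ∀ u ∈ I, |u - u₀| ≤ δ * T := by
    intro u hu
    rw [hI, mem_Icc] at hu
    rw [abs_le]
    constructor <;> linarith [hu.1, hu.2]
  have hWlow : ∀ u ∈ I, 1 / (24 * T) ≤ Real.exp (-W u) := by
    intro u hu
    have h1 := hVT u ((hmemI u hu).trans (by nlinarith))
    rw [hW, ← div_eq_inv_mul, le_div_iff₀ hZ]
    have h2 : Real.exp (-(V' u₀ + 1)) ≤ Real.exp (-V' u) := Real.exp_le_exp.2 (by linarith)
    have h3 : Real.exp (-(V' u₀ + 1)) = Real.exp (-V' u₀) * Real.exp (-1) := by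
      rw [← Real.exp_add]; congr 1; ring
    have h4 : (1 : ℝ) / 3 ≤ Real.exp (-1) := by
      rw [Real.exp_neg, one_div]
      apply inv_anti₀ (Real.exp_pos _)
      exact Real.exp_one_lt_d9.le.trans (by norm_num)
    have h5 := Real.exp_pos (-V' u₀)
    calc 1 / (24 * T) * Z ≤ 1 / (24 * T) * (8 * T * Real.exp (-V' u₀)) := by gcongr
      _ = Real.exp (-V' u₀) * (1 / 3) := by field_simp; norm_num
      _ ≤ Real.exp (-V' u₀) * Real.exp (-1) := by gcongr
      _ = Real.exp (-(V' u₀ + 1)) := h3.symm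
      _ ≤ _ := h2
  have hfinal : ENNReal.ofReal (δ / 12 * ((v u₀ - E) / 4)) ≤ ENNReal.ofReal (K * C₃) := by
    refine le_trans ?_ hGint
    calc ENNReal.ofReal (δ / 12 * ((v u₀ - E) / 4))
        = ∫⁻ _ in I, ENNReal.ofReal (1 / (24 * T)) * ENNReal.ofReal ((v u₀ - E) / 4) := by
          rw [setLIntegral_const, hI, Real.volume_Icc, ENNReal.ofReal_mul (by positivity)]
          have e : u₀ + δ * T - (u₀ - δ * T) = 2 * (δ * T) := by ring
          rw [e, mul_comm (ENNReal.ofReal (1 / (24 * T))), mul_assoc, mul_comm,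
            ← ENNReal.ofReal_mul (by positivity : (0 : ℝ) ≤ 1 / (24 * T))]
          congr 2
          field_simp
          norm_num
      _ ≤ ∫⁻ u in I, ENNReal.ofReal (Real.exp (-W u)) *
            ∫⁻ x, ENNReal.ofReal ((G (u, x) - c) ^ 2) ∂(gibbs (fun x => φ (u, x))) := by
          refine setLIntegral_mono' measurableSet_Icc fun u hu => ?_
          exact mul_le_mul' (ENNReal.ofReal_le_ofReal (hWlow u hu)) (hfib u (hmemI u hu))
      _ ≤ _ := setLIntegral_le_lintegral _ _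
  have hreal : δ / 12 * ((v u₀ - E) / 4) ≤ K * C₃ := by
    have hKC : 0 < K * C₃ := by positivity
    exact (ENNReal.ofReal_le_ofReal_iff hKC.le).1 hfinal
  rw [← hvu₀]
  have h1 : v u₀ - E ≤ 48 * (K * C₃) / δ := by
    rw [le_div_iff₀ hδ]
    linarith
  have h2 : 1 ≤ K / δ := by
    rw [le_div_iff₀ hδ]
    linarith
  have h3 : 16 * A ≤ 144 * C₁ * C₃ * (K / δ) := by
    have : 16 * A = 144 * C₁ * C₃ := by rw [hA]; ring
    rw [this]
    have h4 : 0 < 144 * C₁ * C₃ := by positivity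
    nlinarith
  have h5 : 0 ≤ C₁ * C₃ * (K / δ) := by positivity
  have h6 : 0 ≤ C₃ * δ * Ks := by positivity
  have e1 : (48 + 5184 * C₁) * C₃ * K / δ = 48 * (K * C₃) / δ + 5184 * (C₁ * C₃ * (K / δ)) := by
    ring
  have e2 : (48 + 5184 * C₁) * C₃ * δ * Ks = 48 * (C₃ * δ * Ks) + 576 * A * Ks * δ := by
    rw [hA]; ring
  rw [e1, e2]
  have h7 : v u₀ ≤ 48 * (K * C₃) / δ + E := by linarith
  rw [hE] at h7
  linarith

end Pool.Agent.Lib.MP_6d896a_gt.FP
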