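import Mathlib
import Pool.Agent.Lib.MP_6d896a_gt.FP.SecLVb
import Pool.Agent.Lib.MP_6d896a_gt.FP.Bal
import Pool.Agent.Lib.MP_6d896a_gt.FP.Resid

/-!
Variance of Lipschitz functions on a balanced section.
-/

set_option autoImplicit false

namespace Pool.Agent.Lib.MP_6d896a_gt.FP

open MeasureTheory ProbabilityTheory Set Filter
open scoped ENNReal Topology

/-- S4, localised: variance of Lipschitz functions on a balanced section; the hypothesis on the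
fibres is used only for `|u - u₀| ≤ δ T` -/
theorem sec_lv_loc : ∃ C : ℝ, 0 < C ∧ ∀ (F : Type) [NormedAddCommGroup F] [NormedSpace ℝ F]
    [MeasureSpace F] [BorelSpace F] [FiniteDimensional ℝ F]
    [(volume : Measure F).IsAddHaarMeasure] (φ : ℝ × F → ℝ), Nice φ →
    ∀ (V : ℝ → ℝ), (∀ u, ∫ x, Real.exp (-φ (u, x)) = Real.exp (-V u)) →
    ∀ u₀ T : ℝ, Bal V u₀ T → ∀ K Ks : ℝ, 1 ≤ K → 1 ≤ Ks → AP (gibbs φ) K →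
    ∀ δ : ℝ, 0 < δ → δ ≤ 1 / 2 →
    (∀ u, |u - u₀| ≤ δ * T → AP (gibbs (fun x => φ (u, x))) Ks) →
    ∀ f : F → ℝ, ContDiff ℝ 1 f → (∃ B : ℝ, ∀ x, |f x| ≤ B) →
    (∃ B : ℝ, ∀ x, ‖fderiv ℝ f x‖ ≤ B) →
    (∃ B : ℝ, ∀ x y, ‖fderiv ℝ f x - fderiv ℝ f y‖ ≤ B * ‖x - y‖) →
    (∀ x, Var[fun z => fderiv ℝ f x z; gibbs (fun x => φ (u₀, x))] ≤ 1) →
    Var[f; gibbs (fun x => φ (u₀, x))] ≤ C * K / δ + C * δ * Ks := by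
  obtain ⟨C, hC, hraw⟩ := sec_lv_raw
  obtain ⟨C₃, hC₃, hres⟩ := resid
  refine ⟨C * C₃, by positivity, ?_⟩
  intro F _ _ _ _ _ _ φ h V hV u₀ T hB K Ks hK hKs hAPK δ hδ hδ2 hAPs f hf hfB hfB1 hfB2 hvar
  obtain ⟨w, hw⟩ := hres F φ h V hV u₀ T hB
  obtain ⟨h1, -, h3, -, -, h6, h7⟩ := hB.facts
  exact hraw C₃ hC₃ F φ h V hV u₀ T hB.pos h1 h3 h6 h7 w hw K Ks hK hKs hAPK δ hδ hδ2 hAPs f hf
    hfB hfB1 hfB2 hvar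

/-- S4: variance of Lipschitz functions on a balanced section -/
theorem sec_lv : ∃ C : ℝ, 0 < C ∧ ∀ (F : Type) [NormedAddCommGroup F] [NormedSpace ℝ F]
    [MeasureSpace F] [BorelSpace F] [FiniteDimensional ℝ F]
    [(volume : Measure F).IsAddHaarMeasure] (φ : ℝ × F → ℝ), Nice φ →
    ∀ (V : ℝ → ℝ), (∀ u, ∫ x, Real.exp (-φ (u, x)) = Real.exp (-V u)) →
    ∀ u₀ T : ℝ, Bal V u₀ T → ∀ K Ks : ℝ, 1 ≤ K → 1 ≤ Ks → AP (gibbs φ) K →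
    (∀ u, |u - u₀| ≤ T / 2 → AP (gibbs (fun x => φ (u, x))) Ks) →
    ∀ δ : ℝ, 0 < δ → δ ≤ 1 / 2 →
    ∀ f : F → ℝ, ContDiff ℝ 1 f → (∃ B : ℝ, ∀ x, |f x| ≤ B) →
    (∃ B : ℝ, ∀ x, ‖fderiv ℝ f x‖ ≤ B) →
    (∃ B : ℝ, ∀ x y, ‖fderiv ℝ f x - fderiv ℝ f y‖ ≤ B * ‖x - y‖) →
    (∀ x, Var[fun z => fderiv ℝ f x z; gibbs (fun x => φ (u₀, x))] ≤ 1) →
    Var[f; gibbs (fun x => φ (u₀, x))] ≤ C * K / δ + C * δ * Ks := by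
  obtain ⟨C, hC, hloc⟩ := sec_lv_loc
  refine ⟨C, hC, ?_⟩
  intro F _ _ _ _ _ _ φ h V hV u₀ T hB K Ks hK hKs hAPK hAPs δ hδ hδ2
  exact hloc F φ h V hV u₀ T hB K Ks hK hKs hAPK δ hδ hδ2
    (fun u hu => hAPs u (hu.trans (by have := hB.pos; nlinarith)))

end Pool.Agent.Lib.MP_6d896a_gt.FP
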