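import Mathlib
import Pool.Agent.Lib.MP_6d896a_gt.FP.SectionOf
import Pool.Agent.Lib.MP_6d896a_gt.FP.SecLV
import Pool.Agent.Lib.MP_6d896a_gt.FP.Bal
import Pool.Agent.Lib.MP_6d896a_gt.FP.Apriori

/-!
The local section principle: the affine invariant Poincare inequality is only assumed for the
tilts that are balanced at points close to the given one.
-/

set_option autoImplicit false

namespace Pool.Agent.Lib.MP_6d896a_gt.FP

open MeasureTheory ProbabilityTheory Set Filter
open scoped ENNReal Topology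

/-- comparison of the scales of two balanced tilts at nearby points -/
lemma bal_scale {V : ℝ → ℝ} {u₀ lam₀ T u lam T' : ℝ} (h : Bal (fun v => V v - lam₀ * v) u₀ T)
    (h' : Bal (fun v => V v - lam * v) u T') (hu : |u - u₀| ≤ T / 2) : T' ≤ 2 * T := by
  by_contra hcon
  push Not at hcon
  have hT := h.pos
  have hT' := h'.pos
  have hu' := abs_le.1 hu
  have hr := h.far (u + 2 * T) (by rw [abs_of_nonneg (by linarith)]; linarith)
  have hl := h.far (u - 2 * T) (by rw [abs_of_nonpos (by linarith)]; linarith)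
  rw [abs_of_nonneg (by linarith)] at hr
  rw [abs_of_nonpos (by linarith)] at hl
  have hn := h.near u (by linarith)
  have hsum : (u + 2 * T - u₀) / T + -(u - 2 * T - u₀) / T = 4 := by
    field_simp
    ring
  -- convexity at scale T'
  have hw0 : 0 ≤ 2 * T / T' := by positivity
  have hw1 : 2 * T / T' < 1 := (div_lt_one hT').2 hcon
  have c1 := convex_ineq h'.cv u (u + T') (1 - 2 * T / T') (2 * T / T') (by linarith) hw0
    (by ring)
  have c2 := convex_ineq h'.cv u (u - T') (1 - 2 * T / T') (2 * T / T') (by linarith) hw0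
    (by ring)
  have hm : 2 * T / T' * T' = 2 * T := div_mul_cancel₀ _ hT'.ne'
  have e1 : (1 - 2 * T / T') * u + 2 * T / T' * (u + T') = u + 2 * T := by
    linear_combination hm
  have e2 : (1 - 2 * T / T') * u + 2 * T / T' * (u - T') = u - 2 * T := by
    linear_combination -hm
  rw [e1, h'.right] at c1
  rw [e2, h'.left] at c2
  nlinarith

/-- the local section principle -/
theorem section_loc : ∃ C : ℝ, 1 ≤ C ∧ ∀ (F : Type) [NormedAddCommGroup F] [NormedSpace ℝ F]
    [MeasureSpace F] [BorelSpace F] [FiniteDimensional ℝ F]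
    [(volume : Measure F).IsAddHaarMeasure] (φ : ℝ × F → ℝ) (K : ℝ), 1 ≤ K → Nice φ →
    ∀ (V : ℝ → ℝ), (∀ u, ∫ x, Real.exp (-φ (u, x)) = Real.exp (-V u)) →
    ∀ u₀ lam₀ T : ℝ, Bal (fun u => V u - lam₀ * u) u₀ T →
    (∀ u lam T' : ℝ, |u - u₀| ≤ T / 2 → Bal (fun v => V v - lam * v) u T' →
      AP (gibbs (fun p : ℝ × F => φ p - lam * p.1)) K) →
    AP (gibbs (fun x => φ (u₀, x))) (C * K) := by
  obtain ⟨Ce, hCe, em⟩ := em
  obtain ⟨C₄, hC₄, hsec⟩ := sec_lv_loc
  set A : ℝ := Ce * C₄ with hA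
  have hA0 : 0 < A := by positivity
  set δ₀ : ℝ := 1 / (8 + 4 * A) with hδ₀
  have hδ₀0 : 0 < δ₀ := by positivity
  have hδ₀1 : δ₀ ≤ 1 / 8 := by
    rw [hδ₀]
    apply one_div_le_one_div_of_le (by norm_num)
    linarith
  have hAδ : A * δ₀ ≤ 1 / 4 := by
    rw [hδ₀, mul_one_div, div_le_iff₀ (by positivity)]
    linarith
  set D : ℝ := 2 * A / δ₀ + 1 with hD
  have hD1 : 1 ≤ D := by
    have : 0 < 2 * A / δ₀ := by positivity
    linarith
  refine ⟨D + 1, by linarith, ?_⟩
  intro F _ _ _ _ _ _ φ K hK hn V hV u₀ lam₀ T hB hAP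
  have hVm : V = mV φ := by
    funext u
    have h1 := hV u
    rw [← exp_mV hn, Real.exp_eq_exp] at h1
    linarith
  subst hVm
  obtain ⟨κ, c, hκ, hlow⟩ := mV_lower hn
  have hT := hB.pos
  have hg : ∀ lam u, gibbs (fun x => φ (u, x) - lam * u) = gibbs (fun x => φ (u, x)) := by
    intro lam u
    have := gibbs_add_const (fun x => φ (u, x)) (-(lam * u))
    simpa only [sub_eq_add_neg] using this
  -- one round
  have round : ∀ r δ : ℝ, r ≤ 1 / 2 → 0 < δ → δ ≤ 1 / 2 → ∀ K' : ℝ, 1 ≤ K' →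
      (∀ v, |v - u₀| ≤ (r + 2 * δ) * T → AP (gibbs (fun x => φ (v, x))) K') →
      ∀ u, |u - u₀| ≤ r * T → AP (gibbs (fun x => φ (u, x))) (A * K / δ + A * δ * K') := by
    intro r δ hr hδ hδ2 K' hK' hfib u hu
    have hu2 : |u - u₀| ≤ T / 2 := by nlinarith
    obtain ⟨lam, T', hB'⟩ := exists_bal (mV_convex hn) hκ hlow u
    have hT' := hB'.pos
    have hTT : T' ≤ 2 * T := bal_scale hB hB' hu2
    have hAPl := hAP u lam T' hu2 hB'
    have hVl : ∀ u, ∫ x, Real.exp (-(φ (u, x) - lam * u)) =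
        Real.exp (-(mV φ u - lam * u)) := by
      intro u
      have h1 : ∀ x, Real.exp (-(φ (u, x) - lam * u)) =
          Real.exp (lam * u) * Real.exp (-φ (u, x)) := by
        intro x
        rw [← Real.exp_add]
        congr 1
        ring
      simp_rw [h1]
      rw [integral_const_mul, ← exp_mV hn, ← Real.exp_add]
      congr 1
      ring
    have hM : 0 < C₄ * K / δ + C₄ * δ * K' := by
      have h1 : 0 < C₄ * K / δ := by positivity
      have h2 : 0 < C₄ * δ * K' := by positivity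
      linarith
    have key : AP (gibbs (fun x => φ (u, x))) (Ce * (C₄ * K / δ + C₄ * δ * K')) := by
      refine ap_of_lv em (hn.slice u) hM ?_
      intro f hf hfb hfd hfl hf1
      have h1 := hsec F (fun p : ℝ × F => φ p - lam * p.1) (hn.tilt lam)
        (fun u => mV φ u - lam * u) hVl u T' hB' K K' hK hK' hAPl δ hδ hδ2 (fun v hv => by
          have h2 : |v - u₀| ≤ (r + 2 * δ) * T := by
            have h3 : |v - u₀| ≤ |v - u| + |u - u₀| := by
              have := abs_add_le (v - u) (u - u₀)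
              rwa [sub_add_sub_cancel] at this
            have h4 : δ * T' ≤ δ * (2 * T) := mul_le_mul_of_nonneg_left hTT hδ.le
            nlinarith
          have h5 := hfib v h2
          rw [← hg lam v] at h5
          exact h5) f hf hfb hfd hfl (fun x => by
          have h2 := hf1 x
          rw [← hg lam u] at h2
          exact h2)
      have h3 : gibbs (fun x => (fun p : ℝ × F => φ p - lam * p.1) (u, x))
          = gibbs (fun x => φ (u, x)) := hg lam u
      rw [h3] at h1
      exact h1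
    refine key.mono (le_of_eq ?_)
    rw [hA]
    ring
  obtain ⟨K₀, hK₀, h0⟩ := apriori hn
  -- the iteration
  have iter : ∀ n i : ℕ, ∀ u, |u - u₀| ≤ 4 * δ₀ * (1 - (1 / 2) ^ i) * T →
      AP (gibbs (fun x => φ (u, x))) (D * K * 2 ^ i + K₀ / 4 ^ n) := by
    intro n
    induction n with
    | zero =>
      intro i u _
      refine (h0 u).mono ?_
      have : 0 ≤ D * K * 2 ^ i := by positivity
      simp only [pow_zero, div_one]
      linarith
    | succ n ih =>
      intro i u hu
      have hp : (0 : ℝ) < (1 / 2) ^ i := by positivity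
      have hp1 : ((1 : ℝ) / 2) ^ i ≤ 1 := pow_le_one₀ (by norm_num) (by norm_num)
      have h2i : (1 : ℝ) ≤ 2 ^ i := one_le_pow₀ (by norm_num)
      have hinv : ((1 : ℝ) / 2) ^ i * 2 ^ i = 1 := by
        rw [← mul_pow]; norm_num
      have hDK : 1 ≤ D * K := by nlinarith
      have hE : 0 ≤ K₀ / 4 ^ n := by positivity
      have hK'1 : 1 ≤ D * K * 2 ^ (i + 1) + K₀ / 4 ^ n := by
        have h1 : 1 ≤ D * K * 2 ^ (i + 1) := by
          have : (1 : ℝ) ≤ 2 ^ (i + 1) := one_le_pow₀ (by norm_num)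
          nlinarith
        linarith
      have hround := round (4 * δ₀ * (1 - (1 / 2) ^ i)) (δ₀ * (1 / 2) ^ i) (by nlinarith)
        (by positivity) (by nlinarith) _ hK'1 (fun v hv => ih (i + 1) v (by
          refine hv.trans (le_of_eq ?_)
          rw [pow_succ]
          ring)) u hu
      refine hround.mono ?_
      have e1 : A * K / (δ₀ * (1 / 2) ^ i) = A / δ₀ * K * 2 ^ i := by
        rw [div_eq_iff (by positivity)]
        have : A / δ₀ * K * 2 ^ i * (δ₀ * (1 / 2) ^ i) =
            A / δ₀ * δ₀ * K * ((1 / 2) ^ i * 2 ^ i) := by ring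
        rw [this, hinv, div_mul_cancel₀ _ hδ₀0.ne', mul_one]
      have e2 : A * (δ₀ * (1 / 2) ^ i) * (D * K * 2 ^ (i + 1) + K₀ / 4 ^ n) =
          2 * (A * δ₀) * (D * K) + (A * δ₀) * (1 / 2) ^ i * (K₀ / 4 ^ n) := by
        rw [pow_succ]
        have : A * (δ₀ * (1 / 2) ^ i) * (D * K * (2 ^ i * 2) + K₀ / 4 ^ n) =
          2 * (A * δ₀) * (D * K) * ((1 / 2) ^ i * 2 ^ i) +
            (A * δ₀) * (1 / 2) ^ i * (K₀ / 4 ^ n) := by ring
        rw [this, hinv, mul_one]
      rw [e1, e2]
      have e3 : K₀ / 4 ^ (n + 1) = 1 / 4 * (K₀ / 4 ^ n) := by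
        rw [pow_succ]
        field_simp
      rw [e3]
      have e4 : A / δ₀ * K * 2 ^ i = (D * K * 2 ^ i - K * 2 ^ i) / 2 := by
        rw [hD]
        ring
      rw [e4]
      have b1 : 2 * (A * δ₀) * (D * K) ≤ 1 / 2 * (D * K) := by
        apply mul_le_mul_of_nonneg_right _ (by linarith)
        linarith
      have b2 : 1 / 2 * (D * K) ≤ 1 / 2 * (D * K * 2 ^ i) := by nlinarith
      have b3 : (A * δ₀) * (1 / 2) ^ i * (K₀ / 4 ^ n) ≤ 1 / 4 * (K₀ / 4 ^ n) := by
        apply mul_le_mul_of_nonneg_right _ hE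
        have : 0 ≤ A * δ₀ := by positivity
        nlinarith
      have b4 : 0 ≤ K * 2 ^ i := by positivity
      linarith
  obtain ⟨n, hn1⟩ := pow_unbounded_of_one_lt K₀ (by norm_num : (1 : ℝ) < 4)
  have hfin := iter n 0 u₀ (by simp)
  refine hfin.mono ?_
  have h1 : K₀ / 4 ^ n ≤ 1 := (div_le_one (by positivity)).2 hn1.le
  simp only [pow_zero, mul_one]
  linarith

end Pool.Agent.Lib.MP_6d896a_gt.FP
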