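import Mathlib
import Pool.Agent.Lib.MP_6d896a_gt.FP.Stable

/-!
Stability of the affine invariant Poincare inequality under domination, for log-concave measures.
-/

set_option autoImplicit false

namespace Pool.Agent.Lib.MP_6d896a_gt.FP

open MeasureTheory ProbabilityTheory Set Filter
open scoped ENNReal Topology

section

variable {E : Type*} [NormedAddCommGroup E] [NormedSpace ℝ E] [MeasurableSpace E]
  [BorelSpace E] [FiniteDimensional ℝ E]

/-- tail of the difference of two independent copies of a linear functional -/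
lemma PLm.diff_tail {μ : Measure E} [IsProbabilityMeasure μ] (h : PLm μ) (L : E →L[ℝ] ℝ)
    (m : ℝ) {r p : ℝ} (hr : 0 < r) (hp : 0 ≤ p) (hJ : p ≤ μ.real {x | |L x - m| ≤ r})
    {n : ℕ} (hn : 2 ≤ n) :
    (μ.prod μ).real {q : E × E | 3 * r * n ≤ |L q.1 - L q.2|} ≤ (1 - p ^ 2) ^ n := by
  have hPL : PLm (μ.prod μ) := h.prod h
  have hY : Measurable (fun q : E × E => L q.1 - L q.2) :=
    (L.continuous.measurable.comp measurable_fst).sub (L.continuous.measurable.comp measurable_snd)
  have hJm : MeasurableSet {x : E | |L x - m| ≤ r} :=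
    measurableSet_le ((L.continuous.measurable).sub_const m).abs measurable_const
  have hmp : ∀ t : ℝ, MeasurableSet {q : E × E | t ≤ L q.1 - L q.2} := fun t =>
    measurableSet_le measurable_const hY
  have hmn : ∀ t : ℝ, MeasurableSet {q : E × E | L q.1 - L q.2 ≤ -t} := fun t =>
    measurableSet_le hY measurable_const
  have hsym : ∀ t : ℝ, (μ.prod μ).real {q : E × E | L q.1 - L q.2 ≤ -t} =
      (μ.prod μ).real {q : E × E | t ≤ L q.1 - L q.2} := by
    intro t
    have h1 : (μ.prod μ) {q : E × E | L q.1 - L q.2 ≤ -t} =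
        (μ.prod μ) {q : E × E | t ≤ L q.1 - L q.2} := by
      conv_lhs => rw [← Measure.prod_swap]
      rw [Measure.map_apply measurable_swap (hmn t)]
      congr 1
      ext q
      simp only [mem_preimage, mem_ofPred_eq, Prod.fst_swap, Prod.snd_swap]
      constructor <;> intro h <;> linarith
    simp only [Measure.real, h1]
  -- the two sided tail
  have htwo : ∀ t : ℝ, 0 < t → (μ.prod μ).real {q : E × E | t ≤ |L q.1 - L q.2|} =
      2 * (μ.prod μ).real {q : E × E | t ≤ L q.1 - L q.2} := by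
    intro t ht
    have e : {q : E × E | t ≤ |L q.1 - L q.2|} =
        {q : E × E | t ≤ L q.1 - L q.2} ∪ {q : E × E | L q.1 - L q.2 ≤ -t} := by
      ext q
      simp only [mem_union, mem_ofPred_eq, le_abs]
      constructor
      · rintro (h | h)
        · exact Or.inl h
        · right; linarith
      · rintro (h | h)
        · exact Or.inl h
        · right; linarith
    rw [e, measureReal_union _ (hmn t), hsym, two_mul]
    rw [Set.disjoint_left]
    intro q h1 h2
    simp only [mem_ofPred_eq] at h1 h2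
    linarith
  -- half of the mass
  have hhalf : 1 / 2 ≤ (μ.prod μ).real {q : E × E | 0 ≤ L q.1 - L q.2} := by
    have h1 : (1 : ℝ) ≤ (μ.prod μ).real ({q : E × E | 0 ≤ L q.1 - L q.2} ∪
        {q : E × E | L q.1 - L q.2 ≤ -0}) := by
      have : ({q : E × E | 0 ≤ L q.1 - L q.2} ∪ {q : E × E | L q.1 - L q.2 ≤ -0}) = univ := by
        ext q
        simp only [mem_union, mem_ofPred_eq, mem_univ, iff_true, neg_zero]
        exact le_total _ _
      rw [this, probReal_univ]
    have h2 := measureReal_union_le (μ := μ.prod μ) {q : E × E | 0 ≤ L q.1 - L q.2}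
      {q : E × E | L q.1 - L q.2 ≤ -0}
    rw [hsym 0] at h2
    linarith
  -- a small part is far away
  have hfar : (μ.prod μ).real {q : E × E | 3 * r ≤ L q.1 - L q.2} ≤ (1 - p ^ 2) / 2 := by
    have h1 : p ^ 2 ≤ (μ.prod μ).real ({x | |L x - m| ≤ r} ×ˢ {x | |L x - m| ≤ r}) := by
      rw [measureReal_prod_prod]
      nlinarith
    have hcm : MeasurableSet {q : E × E | 3 * r ≤ |L q.1 - L q.2|} :=
      measurableSet_le measurable_const hY.abs
    have h2 : (μ.prod μ).real ({x | |L x - m| ≤ r} ×ˢ {x | |L x - m| ≤ r}) ≤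
        (μ.prod μ).real {q : E × E | 3 * r ≤ |L q.1 - L q.2|}ᶜ := by
      refine measureReal_mono ?_ (measure_ne_top _ _)
      rintro ⟨x, y⟩ ⟨hx, hy⟩
      simp only [mem_ofPred_eq, mem_compl_iff, not_le] at hx hy ⊢
      have e : L x - L y = (L x - m) - (L y - m) := by ring
      rw [e]
      have := abs_sub (L x - m) (L y - m)
      linarith
    rw [probReal_compl_eq_one_sub hcm, htwo _ (by positivity)] at h2
    linarith
  have hn0 : (0 : ℝ) < n := by exact_mod_cast (by omega : 0 < n)
  have hn2 : (2 : ℝ) ≤ n := by exact_mod_cast hn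
  set l : ℝ := 1 / n with hl
  have hl0 : 0 < l := by positivity
  have hl1 : l < 1 := by rw [hl, div_lt_one hn0]; linarith
  have hln : l * n = 1 := by rw [hl]; field_simp
  set a := (μ.prod μ).real {q : E × E | 0 ≤ L q.1 - L q.2} with ha
  set b := (μ.prod μ).real {q : E × E | 3 * r ≤ L q.1 - L q.2} with hb
  set g := (μ.prod μ).real {q : E × E | 3 * r * n ≤ L q.1 - L q.2} with hg
  have key := hPL.sets (hmp 0) (hmp (3 * r * n)) (hmp (3 * r)) hl0 hl1 (by
    intro x hx y hy
    simp only [mem_ofPred_eq, Prod.fst_add, Prod.snd_add, Prod.smul_fst, Prod.smul_snd, map_add,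
      map_smul, smul_eq_mul] at hx hy ⊢
    have h1 : l * (3 * r * n) ≤ l * (L y.1 - L y.2) := mul_le_mul_of_nonneg_left hy hl0.le
    have h2 : 0 ≤ (1 - l) * (L x.1 - L x.2) := mul_nonneg (by linarith) hx
    have h3 : l * (3 * r * n) = 3 * r := by
      calc l * (3 * r * n) = 3 * r * (l * n) := by ring
        _ = 3 * r := by rw [hln, mul_one]
    linarith)
  have hg0 : 0 ≤ g := measureReal_nonneg
  have hb0 : 0 ≤ b := measureReal_nonneg
  have key2 : a ^ (1 - l) * g ^ l ≤ b := by
    have h1 : (μ.prod μ) {q : E × E | 0 ≤ L q.1 - L q.2} = ENNReal.ofReal a := by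
      rw [ha, ofReal_measureReal]
    have h2 : (μ.prod μ) {q : E × E | 3 * r * n ≤ L q.1 - L q.2} = ENNReal.ofReal g := by
      rw [hg, ofReal_measureReal]
    have h3 : (μ.prod μ) {q : E × E | 3 * r ≤ L q.1 - L q.2} = ENNReal.ofReal b := by
      rw [hb, ofReal_measureReal]
    rw [h1, h2, h3, ENNReal.ofReal_rpow_of_nonneg (by linarith) (by linarith),
      ENNReal.ofReal_rpow_of_nonneg hg0 hl0.le,
      ← ENNReal.ofReal_mul (Real.rpow_nonneg (by linarith) _)] at key
    exact (ENNReal.ofReal_le_ofReal_iff hb0).mp key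
  have key3 : a ^ (n - 1) * g ≤ b ^ n := by
    have h1 : (a ^ (1 - l) * g ^ l) ^ n ≤ b ^ n :=
      pow_le_pow_left₀ (mul_nonneg (Real.rpow_nonneg (by linarith) _)
        (Real.rpow_nonneg hg0 _)) key2 n
    rw [mul_pow, ← Real.rpow_natCast (a ^ (1 - l)), ← Real.rpow_natCast (g ^ l),
      ← Real.rpow_mul (by linarith), ← Real.rpow_mul hg0, hln, Real.rpow_one] at h1
    have e : (1 - l) * (n : ℝ) = ((n - 1 : ℕ) : ℝ) := by
      rw [Nat.cast_sub (by omega)]
      push_cast
      linarith
    rwa [e, Real.rpow_natCast] at h1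
  have h4 : (1 / 2 : ℝ) ^ (n - 1) * g ≤ ((1 - p ^ 2) / 2) ^ n := by
    calc (1 / 2 : ℝ) ^ (n - 1) * g ≤ a ^ (n - 1) * g := by gcongr
      _ ≤ b ^ n := key3
      _ ≤ ((1 - p ^ 2) / 2) ^ n := by gcongr
  have h5 : g ≤ (1 - p ^ 2) ^ n / 2 := by
    obtain ⟨k, rfl⟩ : ∃ k, n = k + 1 := ⟨n - 1, by omega⟩
    simp only [Nat.add_sub_cancel] at h4
    have h6 : ((1 - p ^ 2) / 2) ^ (k + 1) = (1 / 2 : ℝ) ^ k * ((1 - p ^ 2) ^ (k + 1) / 2) := by
      rw [div_pow, pow_succ (2 : ℝ) k, one_div, inv_pow]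
      field_simp
    rw [h6] at h4
    exact le_of_mul_le_mul_left h4 (by positivity)
  rw [htwo _ (by positivity)]
  linarith

/-- variance of a linear functional from a small ball estimate -/
lemma PLm.var_le_of_ball {μ : Measure E} [IsProbabilityMeasure μ] (h : PLm μ) (L : E →L[ℝ] ℝ)
    (m : ℝ) {r p : ℝ} (hr : 0 < r) (hp : 0 ≤ p) (hJ : p ≤ μ.real {x | |L x - m| ≤ r})
    {n : ℕ} (hn : 2 ≤ n) (hnp : (1 - p ^ 2) ^ n ≤ 1 / 4) :
    Var[fun x => L x; μ] ≤ 1152 * n ^ 2 * r ^ 2 := by
  have hn0 : (0 : ℝ) < n := by exact_mod_cast (by omega : 0 < n)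
  have hPL : PLm (μ.prod μ) := h.prod h
  have htail := (h.diff_tail L m hr hp hJ hn).trans hnp
  set L' : (E × E) →L[ℝ] ℝ := L.comp (ContinuousLinearMap.fst ℝ E E) -
    L.comp (ContinuousLinearMap.snd ℝ E E) with hL'
  have hL'a : ∀ q : E × E, L' q = L q.1 - L q.2 := fun q => by simp [hL']
  have hY : Measurable (fun q : E × E => L q.1 - L q.2) :=
    (L.continuous.measurable.comp measurable_fst).sub (L.continuous.measurable.comp measurable_snd)
  have hball : 3 / 4 ≤ (μ.prod μ).real {q : E × E | |L' q - 0| ≤ 3 * r * n} := by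
    have hcm : MeasurableSet {q : E × E | 3 * r * n ≤ |L q.1 - L q.2|} :=
      measurableSet_le measurable_const hY.abs
    have h1 : (μ.prod μ).real {q : E × E | 3 * r * n ≤ |L q.1 - L q.2|}ᶜ ≤
        (μ.prod μ).real {q : E × E | |L' q - 0| ≤ 3 * r * n} := by
      refine measureReal_mono ?_ (measure_ne_top _ _)
      intro q hq
      simp only [mem_compl_iff, mem_ofPred_eq, not_le] at hq ⊢
      rw [hL'a, sub_zero]
      exact hq.le
    rw [probReal_compl_eq_one_sub hcm] at h1
    linarith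
  obtain ⟨hi, hle⟩ := hPL.sq_le_of_conc L' 0 (r := 3 * r * n) (by positivity) hball
  simp only [hL'a, sub_zero] at hi hle
  have hmem := h.memLp_functional L
  have h2 : ∀ y : E, Var[fun x => L x; μ] ≤ ∫ x, (L x - L y) ^ 2 ∂μ := by
    intro y
    have h10 : Var[fun x => L x; μ] = Var[fun x => L x - L y; μ] := by
      rw [variance_sub_const hmem.aestronglyMeasurable]
    rw [h10]
    exact variance_le_expectation_sq
      (L.continuous.measurable.sub_const _).aestronglyMeasurable
  have h3 : ∫ q : E × E, (L q.1 - L q.2) ^ 2 ∂(μ.prod μ) =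
      ∫ y, ∫ x, (L x - L y) ^ 2 ∂μ ∂μ := by
    rw [integral_prod_symm _ hi]
  have h4 : Var[fun x => L x; μ] ≤ ∫ y, ∫ x, (L x - L y) ^ 2 ∂μ ∂μ := by
    have h5 : ∫ _y : E, Var[fun x => L x; μ] ∂μ ≤ ∫ y, ∫ x, (L x - L y) ^ 2 ∂μ ∂μ := by
      apply integral_mono (integrable_const _) hi.integral_prod_right
      exact h2
    simpa using h5
  rw [h3] at hle
  refine h4.trans (hle.trans (le_of_eq ?_))
  ring

/-- comparison of the variances of linear functionals under domination -/
lemma var_compareR {μ ν : Measure E} [IsProbabilityMeasure μ] [IsProbabilityMeasure ν]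
    (hμ : PLm μ) (hν : PLm ν) {R η : ℝ} (hR : 1 ≤ R) (hη : η ≤ 1 / 4)
    (hnd : ∀ ℓ : E →L[ℝ] ℝ, Var[fun x => ℓ x; ν] = 0 → ℓ = 0)
    (hdom : ∀ S, MeasurableSet S → ν.real S ≤ R * μ.real S + η)
    {n : ℕ} (hn : 2 ≤ n) (hnp : (1 - (1 / (2 * R)) ^ 2) ^ n ≤ 1 / 4) (L : E →L[ℝ] ℝ) :
    Var[fun x => L x; μ] ≤ 4608 * n ^ 2 * Var[fun x => L x; ν] := by
  have h2 := hν.memLp_functional L
  rcases (variance_nonneg (fun x => L x) ν).eq_or_lt with h0 | h0
  · have hL := hnd L h0.symm
    subst hL
    show Var[(0 : E → ℝ); μ] ≤ 4608 * n ^ 2 * Var[(0 : E → ℝ); ν]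
    rw [variance_zero, variance_zero, mul_zero]
  · set σ := Real.sqrt Var[fun x => L x; ν] with hσ
    have hσ0 : 0 < σ := Real.sqrt_pos.mpr h0
    have hσ2 : σ ^ 2 = Var[fun x => L x; ν] := Real.sq_sqrt h0.le
    set m := ∫ x, L x ∂ν with hm
    have hmeas : Measurable (fun x => L x - m) := (L.continuous.measurable).sub_const m
    have hch : ν.real {x | 2 * σ ≤ |L x - m|} ≤ 1 / 4 := by
      have h3 := meas_ge_le_variance_div_sq (μ := ν) h2 (c := 2 * σ) (by positivity)
      have h4 := ENNReal.toReal_mono ENNReal.ofReal_ne_top h3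
      rw [ENNReal.toReal_ofReal (by positivity)] at h4
      refine h4.trans (le_of_eq ?_)
      rw [← hσ2]
      field_simp
      norm_num
    have hms : MeasurableSet {x | 2 * σ ≤ |L x - m|} :=
      measurableSet_le measurable_const hmeas.abs
    have hms2 : MeasurableSet {x | |L x - m| ≤ 2 * σ} :=
      measurableSet_le hmeas.abs measurable_const
    have h5 : 3 / 4 ≤ ν.real {x | |L x - m| ≤ 2 * σ} := by
      have h6 : ν.real {x | 2 * σ ≤ |L x - m|}ᶜ ≤ ν.real {x | |L x - m| ≤ 2 * σ} := by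
        refine measureReal_mono ?_ (measure_ne_top _ _)
        intro x hx
        simp only [mem_compl_iff, mem_ofPred_eq, not_le] at hx ⊢
        exact hx.le
      rw [probReal_compl_eq_one_sub hms] at h6
      linarith
    have h7 : 1 / (2 * R) ≤ μ.real {x | |L x - m| ≤ 2 * σ} := by
      have h8 := hdom _ hms2
      rw [div_le_iff₀ (by positivity)]
      linarith
    have h9 := hμ.var_le_of_ball L m (r := 2 * σ) (p := 1 / (2 * R)) (by positivity)
      (by positivity) h7 hn hnp
    refine h9.trans (le_of_eq ?_)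
    rw [← hσ2]
    ring

end

/-- stability of the affine invariant Poincare inequality under domination -/
theorem ap_stableR : ∃ η : ℝ, 0 < η ∧ ∀ R : ℝ, 1 ≤ R → ∃ C : ℝ, 1 ≤ C ∧
    ∀ (E : Type) [NormedAddCommGroup E]
    [NormedSpace ℝ E] [MeasurableSpace E] [BorelSpace E] [FiniteDimensional ℝ E]
    (μ ν : Measure E) [IsProbabilityMeasure μ] [IsProbabilityMeasure ν], PLm μ → PLm ν →
    (∀ ℓ : E →L[ℝ] ℝ, Var[fun x => ℓ x; ν] = 0 → ℓ = 0) →
    (∀ S, MeasurableSet S → ν.real S ≤ R * μ.real S + η) → ∀ K : ℝ, 1 ≤ K → AP μ K →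
    AP ν (C * K) := by
  have he := eta0_pos
  refine ⟨min (1 / 4) (eta0 / 8), lt_min (by norm_num) (by positivity), fun R hR => ?_⟩
  set η := min (1 / 4) (eta0 / 8) with hη
  have hη0 : 0 < η := lt_min (by norm_num) (by positivity)
  have hη4 : η ≤ 1 / 4 := min_le_left _ _
  have hη8 : 8 * η ≤ eta0 := by
    have := min_le_right (1 / 4) (eta0 / 8)
    rw [← hη] at this
    linarith
  obtain ⟨n, hn, hnp⟩ : ∃ n : ℕ, 2 ≤ n ∧ (1 - (1 / (2 * R)) ^ 2) ^ n ≤ 1 / 4 := by
    have hp0 : (0 : ℝ) < 1 / (2 * R) := by positivity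
    have hp1 : 1 / (2 * R) ≤ 1 / 2 := by
      apply one_div_le_one_div_of_le <;> linarith
    have hq0 : 0 ≤ 1 - (1 / (2 * R)) ^ 2 := by nlinarith
    have hq1 : 1 - (1 / (2 * R)) ^ 2 < 1 := by
      have : 0 < (1 / (2 * R)) ^ 2 := by positivity
      linarith
    obtain ⟨n, hn⟩ := exists_pow_lt_of_lt_one (show (0 : ℝ) < 1 / 4 by norm_num) hq1
    refine ⟨n + 2, by omega, ?_⟩
    exact (pow_le_pow_of_le_one hq0 hq1.le (by omega : n ≤ n + 2)).trans hn.le
  have hn0 : (0 : ℝ) < n := by exact_mod_cast (by omega : 0 < n)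
  set c₁ : ℝ := 4608 * n ^ 2 with hc₁
  have hc₁0 : 0 < c₁ := by positivity
  refine ⟨max 1 (cEM * (c₁ * R / η)), le_max_left _ _, ?_⟩
  intro E _ _ _ _ _ μ ν _ _ hμ hν hnd hdom K hK hAP
  obtain ⟨N, T, hT⟩ : ∃ (N : ℕ) (T : EuclideanSpace ℝ (Fin N) ≃L[ℝ] E),
      ∀ ℓ : E →L[ℝ] ℝ, Var[fun x => ℓ x; ν] =
        ‖ℓ.comp (T : EuclideanSpace ℝ (Fin N) →L[ℝ] E)‖ ^ 2 :=
    ⟨_, whiten ν (fun ℓ => hν.memLp_functional ℓ) hnd⟩
  have hTm : Measurable (T.symm : E → EuclideanSpace ℝ (Fin N)) :=
    T.symm.continuous.measurable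
  have hpm : IsProbabilityMeasure (ν.map T.symm) :=
    Measure.isProbabilityMeasure_map hTm.aemeasurable
  have hPL : PLm (ν.map T.symm) := hν.map (T.symm : E →ₗ[ℝ] EuclideanSpace ℝ (Fin N)) hTm
  have hLV : LVe (ν.map T.symm) (c₁ * R / η * K) eta0 := by
    intro g hg hgb hgL l hl hgl
    have hd : Differentiable ℝ g := hg.differentiable (by norm_num)
    have hnl : ∀ x, ‖fderiv ℝ g x‖ ≤ l := by
      intro x
      refine (hd x).hasFDerivAt.le_of_lip' hl.le (Eventually.of_forall fun y => ?_)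
      rw [Real.norm_eq_abs]
      exact hgl y x
    have hfd : ∀ p, fderiv ℝ (fun p => g (T.symm p)) p
        = (fderiv ℝ g (T.symm p)).comp
          (T.symm : E →L[ℝ] EuclideanSpace ℝ (Fin N)) := by
      intro p
      have h1 : HasFDerivAt (T.symm : E → EuclideanSpace ℝ (Fin N))
          (T.symm : E →L[ℝ] EuclideanSpace ℝ (Fin N)) p := T.symm.hasFDerivAt
      exact ((hd (T.symm p)).hasFDerivAt.comp p h1).fderiv
    have hfc : ContDiff ℝ 1 (fun p => g (T.symm p)) := hg.comp T.symm.contDiff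
    have hfm : Measurable (fun p => g (T.symm p)) := hfc.continuous.measurable
    have hfl : ∃ l : ℝ, ∀ p, ‖fderiv ℝ (fun p => g (T.symm p)) p‖ ≤ l := by
      refine ⟨l * ‖(T.symm : E →L[ℝ] EuclideanSpace ℝ (Fin N))‖, fun p => ?_⟩
      rw [hfd]
      exact (ContinuousLinearMap.opNorm_comp_le _ _).trans
        (mul_le_mul_of_nonneg_right (hnl _) (norm_nonneg _))
    have e1 : Var[g; ν.map T.symm] = Var[fun p => g (T.symm p); ν] :=
      variance_map hg.continuous.measurable.aemeasurable hTm.aemeasurable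
    rw [e1]
    set f : E → ℝ := fun p => g (T.symm p) with hf
    have hfb : ∀ p, |f p| ≤ 1 := fun p => hgb _
    have hL2 : ∀ (ρ : Measure E) [IsProbabilityMeasure ρ], MemLp f 2 ρ := by
      intro ρ _
      exact MemLp.of_bound hfm.aestronglyMeasurable 1
        (ae_of_all _ fun p => by rw [Real.norm_eq_abs]; exact hfb p)
    set c := ∫ p, f p ∂μ with hc
    have hc1 : |c| ≤ 1 := by
      rw [hc, ← Real.norm_eq_abs]
      refine (norm_integral_le_of_norm_le (integrable_const (1 : ℝ))
        (ae_of_all _ fun p => ?_)).trans (le_of_eq (by simp))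
      rw [Real.norm_eq_abs]
      exact hfb p
    -- the variance under `μ`
    set V : ℝ := K * (c₁ * l ^ 2) with hV
    have hV0 : 0 < V := by positivity
    have h1 : Var[f; μ] ≤ V := by
      refine (hAP f hfc hfl).trans ?_
      apply mul_le_mul_of_nonneg_left _ (by linarith)
      have h2 : ∀ p, Var[fun z => fderiv ℝ f p z; μ] ≤ c₁ * l ^ 2 := by
        intro p
        refine (var_compareR hμ hν hR hη4 hnd hdom hn hnp _).trans ?_
        apply mul_le_mul_of_nonneg_left _ hc₁0.le
        rw [hT, hfd]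
        have h2 : ((fderiv ℝ g (T.symm p)).comp
            (T.symm : E →L[ℝ] EuclideanSpace ℝ (Fin N))).comp
            (T : EuclideanSpace ℝ (Fin N) →L[ℝ] E) = fderiv ℝ g (T.symm p) := by
          ext z
          simp
        rw [h2]
        exact pow_le_pow_left₀ (norm_nonneg _) (hnl _) 2
      calc ∫ p, Var[fun z => fderiv ℝ f p z; μ] ∂μ ≤ ∫ _p, c₁ * l ^ 2 ∂μ := by
            apply integral_mono_of_nonneg (ae_of_all _ fun p => variance_nonneg _ _)
              (integrable_const _)
            exact ae_of_all _ h2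
        _ = c₁ * l ^ 2 := by simp
    have h3 : Var[f; ν] ≤ ∫ p, (f p - c) ^ 2 ∂ν := by
      have h10 : Var[f; ν] = Var[fun p => f p - c; ν] := by
        rw [variance_sub_const (hL2 ν).aestronglyMeasurable]
      rw [h10]
      exact variance_le_expectation_sq (hfm.sub_const c).aestronglyMeasurable
    -- the set where `f` is far from its mean
    set s : ℝ := Real.sqrt (V * R / η) with hs
    have hs2 : s ^ 2 = V * R / η := Real.sq_sqrt (by positivity)
    have hs0 : 0 < s := Real.sqrt_pos.mpr (by positivity)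
    set S : Set E := {p | s ≤ |f p - c|} with hS
    have hSm : MeasurableSet S := measurableSet_le measurable_const (hfm.sub_const c).abs
    have hμS : μ.real S ≤ η / R := by
      have h4 := meas_ge_le_variance_div_sq (μ := μ) (hL2 μ) (c := s) hs0
      have h5 := ENNReal.toReal_mono ENNReal.ofReal_ne_top h4
      rw [ENNReal.toReal_ofReal (by have := variance_nonneg f μ; positivity)] at h5
      have h6 : μ.real S ≤ Var[f; μ] / s ^ 2 := h5
      refine h6.trans ?_
      rw [hs2, div_le_div_iff₀ (by positivity) (by positivity)]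
      have h7 : Var[f; μ] * R ≤ V * R := by gcongr
      have h8 : η * (V * R / η) = V * R := by field_simp
      rw [h8]
      exact h7
    have hνS : ν.real S ≤ 2 * η := by
      have h4 := hdom S hSm
      have h5 : R * μ.real S ≤ η := by
        calc R * μ.real S ≤ R * (η / R) := by gcongr
          _ = η := by field_simp
      linarith
    have hpt : ∀ p, (f p - c) ^ 2 ≤ s ^ 2 + S.indicator (fun _ => (4 : ℝ)) p := by
      intro p
      by_cases hp : p ∈ S
      · rw [indicator_of_mem hp]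
        have h5 := abs_le.mp (hfb p)
        have h6 := abs_le.mp hc1
        have h7 : |f p - c| ≤ 2 := by
          rw [abs_le]
          constructor <;> linarith [h5.1, h5.2, h6.1, h6.2]
        have h8 : (f p - c) ^ 2 ≤ 4 := by
          calc (f p - c) ^ 2 = |f p - c| ^ 2 := (sq_abs _).symm
            _ ≤ 2 ^ 2 := pow_le_pow_left₀ (abs_nonneg _) h7 2
            _ = 4 := by norm_num
        nlinarith
      · rw [indicator_of_notMem hp, add_zero]
        simp only [hS, mem_ofPred_eq, not_le] at hp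
        calc (f p - c) ^ 2 = |f p - c| ^ 2 := (sq_abs _).symm
          _ ≤ s ^ 2 := pow_le_pow_left₀ (abs_nonneg _) hp.le 2
    have h4 : ∫ p, (f p - c) ^ 2 ∂ν ≤ s ^ 2 + 4 * ν.real S := by
      have i1 : Integrable (fun p => (f p - c) ^ 2) ν := by
        have := ((hL2 ν).sub (memLp_const c)).integrable_sq
        simpa using this
      have i2 : Integrable (S.indicator (fun _ => (4 : ℝ))) ν :=
        (integrable_const (4 : ℝ)).indicator hSm
      calc ∫ p, (f p - c) ^ 2 ∂ν ≤ ∫ p, (s ^ 2 + S.indicator (fun _ => (4 : ℝ)) p) ∂ν :=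
            integral_mono i1 ((integrable_const _).add i2) hpt
        _ = s ^ 2 + 4 * ν.real S := by
            rw [integral_add (integrable_const _) i2, integral_indicator_const _ hSm]
            simp [mul_comm]
    calc Var[f; ν] ≤ s ^ 2 + 4 * (2 * η) := h3.trans (h4.trans (by linarith))
      _ ≤ c₁ * R / η * K * l ^ 2 + eta0 := by
          rw [hs2, hV]
          have e2 : K * (c₁ * l ^ 2) * R / η = c₁ * R / η * K * l ^ 2 := by ring
          rw [e2]
          linarith
  have hAPν : AP ν (cEM * (c₁ * R / η * K)) :=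
    ap_of_poinc T hT fun f hf hl => em_approx hPL (by positivity) hLV hf hl
  refine hAPν.mono ?_
  rw [← mul_assoc]
  exact mul_le_mul_of_nonneg_right (le_max_right _ _) (by linarith)

end Pool.Agent.Lib.MP_6d896a_gt.FP
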