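import Mathlib
import Pool.Agent.Lib.MP_6d896a_gt.FP.Bal
import Pool.Agent.Lib.MP_6d896a_gt.FP.SectionOf

/-!
Comparison of the tilts of a log-concave measure, balanced at points close to a quantile, with the
measure itself.
-/

set_option autoImplicit false

namespace Pool.Agent.Lib.MP_6d896a_gt.FP

open MeasureTheory ProbabilityTheory Set Filter
open scoped ENNReal Topology

/-- reflection of a balanced point -/
lemma Bal.refl {V : ℝ → ℝ} {u T : ℝ} (h : Bal V u T) : Bal (fun v => V (-v)) (-u) T where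
  cv := by
    refine ⟨convex_univ, fun x _ y _ a b ha hb hab => ?_⟩
    have := h.cv.2 (mem_univ (-x)) (mem_univ (-y)) ha hb hab
    simp only [smul_eq_mul] at this ⊢
    have e : -(a * x + b * y) = a * -x + b * -y := by ring
    rw [e]
    exact this
  pos := h.pos
  right := by
    show V (-(-u + T)) = V (- -u) + 1
    have e : -(-u + T) = u - T := by ring
    rw [e, neg_neg]
    exact h.left
  left := by
    show V (-(-u - T)) = V (- -u) + 1
    have e : -(-u - T) = u + T := by ring
    rw [e, neg_neg]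
    exact h.right

lemma tr_const_le {f : ℝ → ℝ} {a b c : ℝ} (hab : a ≤ b) (hf : IntegrableOn f (Ioc a b))
    (h : ∀ v ∈ Ioc a b, c ≤ f v) : (b - a) * c ≤ ∫ v in Ioc a b, f v := by
  have h1 : ∫ _v in Ioc a b, c ≤ ∫ v in Ioc a b, f v :=
    setIntegral_mono_on (by simp) hf measurableSet_Ioc h
  refine le_trans (le_of_eq ?_) h1
  rw [setIntegral_const, smul_eq_mul, Measure.real, Real.volume_Ioc,
    ENNReal.toReal_ofReal (by linarith)]

/-- lower bound of the density and bound of the tilt, nonnegative tilts -/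
lemma tr_core_nonneg {V : ℝ → ℝ} {Z e u lam T : ℝ} (hlam : 0 ≤ lam)
    (hb : Bal (fun v => V v - lam * v) u T) (hZ0 : 0 < Z) (he : 0 < e)
    (hint : Integrable (fun v => Real.exp (-V v))) (hZ : ∫ v, Real.exp (-V v) = Z)
    (hR : e * Z ≤ ∫ v in Ioi u, Real.exp (-V v)) :
    e * Z ≤ 8 * T * Real.exp (-V u) ∧ Real.exp (lam * T / 2) ≤ 16 * Real.exp 1 / e := by
  obtain ⟨hlow, hfar, hnear, hi, hi1, hi2, _⟩ := hb.facts
  have hT := hb.pos
  have ha : e * Z ≤ 8 * T * Real.exp (-V u) := by
    refine hR.trans ?_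
    have h1 : ∫ v in Ioi u, Real.exp (-V v) ≤
        ∫ v in Ioi u, Real.exp (-(lam * u)) * Real.exp (-(V v - lam * v)) := by
      apply setIntegral_mono_on hint.integrableOn (hi.integrableOn.const_mul _) measurableSet_Ioi
      intro v hv
      rw [← Real.exp_add, Real.exp_le_exp]
      have : lam * u ≤ lam * v := mul_le_mul_of_nonneg_left (le_of_lt hv) hlam
      linarith
    refine h1.trans ?_
    rw [integral_const_mul]
    have h2 : ∫ v in Ioi u, Real.exp (-(V v - lam * v)) ≤ ∫ v, Real.exp (-(V v - lam * v)) :=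
      setIntegral_le_integral hi (Eventually.of_forall fun v => (Real.exp_pos _).le)
    have h3 := mul_le_mul_of_nonneg_left (h2.trans hi2) (Real.exp_pos (-(lam * u))).le
    refine h3.trans (le_of_eq ?_)
    rw [mul_comm, mul_assoc, ← Real.exp_add]
    congr 2
    ring
  refine ⟨ha, ?_⟩
  have h1 : (u - T / 2 - (u - T)) * (Real.exp (-V u) * Real.exp (-1) * Real.exp (lam * T / 2)) ≤
      ∫ v in Ioc (u - T) (u - T / 2), Real.exp (-V v) := by
    apply tr_const_le (by linarith) hint.integrableOn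
    intro v hv
    rw [← Real.exp_add, ← Real.exp_add, Real.exp_le_exp]
    have h2 := hnear v (by rw [abs_le]; constructor <;> linarith [hv.1, hv.2])
    have h3 : lam * v ≤ lam * (u - T / 2) := mul_le_mul_of_nonneg_left hv.2 hlam
    linarith
  have h2 : ∫ v in Ioc (u - T) (u - T / 2), Real.exp (-V v) ≤ Z := by
    rw [← hZ]
    exact setIntegral_le_integral hint (Eventually.of_forall fun v => (Real.exp_pos _).le)
  have h3 := h1.trans h2
  have h4 : (e * Z / 16) * (Real.exp (-1) * Real.exp (lam * T / 2)) ≤ Z := by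
    refine le_trans ?_ h3
    have : u - T / 2 - (u - T) = T / 2 := by ring
    rw [this]
    have hp : 0 ≤ Real.exp (-1) * Real.exp (lam * T / 2) := by positivity
    have := mul_le_mul_of_nonneg_right ha hp
    linarith
  have h5 : e / 16 * (Real.exp (-1) * Real.exp (lam * T / 2)) ≤ 1 := by
    have h6 : (e / 16 * (Real.exp (-1) * Real.exp (lam * T / 2))) * Z ≤ 1 * Z := by linarith
    exact le_of_mul_le_mul_right h6 hZ0
  rw [le_div_iff₀ he]
  have h7 : Real.exp 1 * Real.exp (-1) = 1 := by rw [← Real.exp_add]; simp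
  have h8 := mul_le_mul_of_nonneg_left h5 (by positivity : (0 : ℝ) ≤ 16 * Real.exp 1)
  have h9 : 16 * Real.exp 1 * (e / 16 * (Real.exp (-1) * Real.exp (lam * T / 2))) =
      Real.exp (lam * T / 2) * e * (Real.exp 1 * Real.exp (-1)) := by ring
  rw [h9, h7, mul_one, mul_one] at h8
  exact h8

/-- lower bound of the density and bound of the tilt -/
lemma tr_core {V : ℝ → ℝ} {Z e u lam T : ℝ}
    (hb : Bal (fun v => V v - lam * v) u T) (hZ0 : 0 < Z) (he : 0 < e)
    (hint : Integrable (fun v => Real.exp (-V v))) (hZ : ∫ v, Real.exp (-V v) = Z)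
    (hR : e * Z ≤ ∫ v in Ioi u, Real.exp (-V v)) (hL : e * Z ≤ ∫ v in Iic u, Real.exp (-V v)) :
    e * Z ≤ 8 * T * Real.exp (-V u) ∧ Real.exp (|lam| * T / 2) ≤ 16 * Real.exp 1 / e := by
  rcases le_total 0 lam with h | h
  · rw [abs_of_nonneg h]
    exact tr_core_nonneg h hb hZ0 he hint hZ hR
  · rw [abs_of_nonpos h]
    have h1 := hb.refl
    have h2 : Bal (fun v => (fun w => V (-w)) v - (-lam) * v) (-u) T := by
      refine (iff_of_eq (congrArg (fun f => Bal f (-u) T) ?_)).1 h1
      funext v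
      ring
    have h3 := tr_core_nonneg (V := fun w => V (-w)) (Z := Z) (e := e) (u := -u) (lam := -lam)
      (T := T) (by linarith) h2 hZ0 he hint.comp_neg (by
        rw [← hZ]
        exact integral_neg_eq_self (fun v => Real.exp (-V v)) volume) (by
        rw [integral_comp_neg_Ioi (-u) (fun v => Real.exp (-V v)), neg_neg]
        exact hL)
    simpa using h3

/-- tails at nearby points -/
lemma tr_tail {V : ℝ → ℝ} {Z e u₀ lam T u : ℝ}
    (hb : Bal (fun v => V v - lam * v) u₀ T) (hZ0 : 0 < Z) (he : 0 < e)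
    (hint : Integrable (fun v => Real.exp (-V v))) (hZ : ∫ v, Real.exp (-V v) = Z)
    (hR : e * Z ≤ ∫ v in Ioi u₀, Real.exp (-V v)) (hL : e * Z ≤ ∫ v in Iic u₀, Real.exp (-V v))
    (hu : |u - u₀| ≤ T / 2) :
    (e / 16 * Real.exp (-1) * (e / (16 * Real.exp 1)) ^ 2) * Z ≤ ∫ v in Ioi u, Real.exp (-V v) ∧
    (e / 16 * Real.exp (-1) * (e / (16 * Real.exp 1)) ^ 2) * Z ≤
      ∫ v in Iic u, Real.exp (-V v) := by
  obtain ⟨h1, h2⟩ := tr_core hb hZ0 he hint hZ hR hL
  obtain ⟨hlow, hfar, hnear, hi, hi1, hi2, _⟩ := hb.facts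
  have hT := hb.pos
  rw [abs_le] at hu
  have h3 : (e / (16 * Real.exp 1)) ^ 2 ≤ Real.exp (-(|lam| * T)) := by
    have h4 : e / (16 * Real.exp 1) ≤ Real.exp (-(|lam| * T / 2)) := by
      rw [Real.exp_neg, div_le_iff₀ (by positivity), ← div_eq_inv_mul,
        le_div_iff₀ (Real.exp_pos _)]
      rw [le_div_iff₀ he] at h2
      linarith
    have h5 : Real.exp (-(|lam| * T)) = Real.exp (-(|lam| * T / 2)) ^ 2 := by
      rw [← Real.exp_nat_mul]
      congr 1
      push_cast
      ring
    rw [h5]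
    exact pow_le_pow_left₀ (by positivity) h4 2
  have hmain : (e / 16 * Real.exp (-1) * (e / (16 * Real.exp 1)) ^ 2) * Z ≤
      T / 2 * (Real.exp (-V u₀) * Real.exp (-1) * Real.exp (-(|lam| * T))) := by
    have h4 : (e / 16 * Real.exp (-1) * (e / (16 * Real.exp 1)) ^ 2) * Z =
      (e * Z / 16 * Real.exp (-1)) * (e / (16 * Real.exp 1)) ^ 2 := by ring
    rw [h4]
    have h5 : e * Z / 16 * Real.exp (-1) ≤ T / 2 * (Real.exp (-V u₀) * Real.exp (-1)) := by
      have := mul_le_mul_of_nonneg_right h1 (Real.exp_pos (-1)).le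
      linarith
    calc (e * Z / 16 * Real.exp (-1)) * (e / (16 * Real.exp 1)) ^ 2
        ≤ (T / 2 * (Real.exp (-V u₀) * Real.exp (-1))) * Real.exp (-(|lam| * T)) :=
          mul_le_mul h5 h3 (by positivity) (by positivity)
      _ = _ := by ring
  have hpt : ∀ v, |v - u₀| ≤ T → Real.exp (-V u₀) * Real.exp (-1) * Real.exp (-(|lam| * T)) ≤
      Real.exp (-V v) := by
    intro v hv
    rw [← Real.exp_add, ← Real.exp_add, Real.exp_le_exp]
    have h4 := hnear v hv
    have h5 : lam * (v - u₀) ≤ |lam| * T := by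
      calc lam * (v - u₀) ≤ |lam * (v - u₀)| := le_abs_self _
        _ = |lam| * |v - u₀| := abs_mul _ _
        _ ≤ |lam| * T := mul_le_mul_of_nonneg_left hv (abs_nonneg _)
    linarith
  constructor
  · have h4 : (u₀ + T - (u₀ + T / 2)) *
        (Real.exp (-V u₀) * Real.exp (-1) * Real.exp (-(|lam| * T))) ≤
        ∫ v in Ioc (u₀ + T / 2) (u₀ + T), Real.exp (-V v) := by
      apply tr_const_le (by linarith) hint.integrableOn
      intro v hv
      apply hpt
      rw [abs_le]
      constructor <;> linarith [hv.1, hv.2]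
    have h5 : ∫ v in Ioc (u₀ + T / 2) (u₀ + T), Real.exp (-V v) ≤
        ∫ v in Ioi u, Real.exp (-V v) := by
      apply setIntegral_mono_set hint.integrableOn
        (Eventually.of_forall fun v => (Real.exp_pos _).le)
      apply LE.le.eventuallyLE
      intro v hv
      exact lt_of_le_of_lt (by linarith) hv.1
    have h6 : u₀ + T - (u₀ + T / 2) = T / 2 := by ring
    rw [h6] at h4
    exact hmain.trans (h4.trans h5)
  · have h4 : (u₀ - T / 2 - (u₀ - T)) *
        (Real.exp (-V u₀) * Real.exp (-1) * Real.exp (-(|lam| * T))) ≤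
        ∫ v in Ioc (u₀ - T) (u₀ - T / 2), Real.exp (-V v) := by
      apply tr_const_le (by linarith) hint.integrableOn
      intro v hv
      apply hpt
      rw [abs_le]
      constructor <;> linarith [hv.1, hv.2]
    have h5 : ∫ v in Ioc (u₀ - T) (u₀ - T / 2), Real.exp (-V v) ≤
        ∫ v in Iic u, Real.exp (-V v) := by
      apply setIntegral_mono_set hint.integrableOn
        (Eventually.of_forall fun v => (Real.exp_pos _).le)
      apply LE.le.eventuallyLE
      intro v hv
      exact hv.2.trans (by linarith)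
    have h6 : u₀ - T / 2 - (u₀ - T) = T / 2 := by ring
    rw [h6] at h4
    exact hmain.trans (h4.trans h5)

lemma tr_far {V : ℝ → ℝ} {u T M : ℝ} (h : Bal V u T) (hM : 1 ≤ M) :
    ∫ v in (Icc (u - M * T) (u + M * T))ᶜ, Real.exp (-V v) ≤ 2 * T * Real.exp (-V u - M) := by
  have hT := h.pos
  have hMT : T ≤ M * T := by nlinarith
  have hint := h.integral_facts.1
  have hTi : (-1 / T : ℝ) < 0 := div_neg_of_neg_of_pos (by norm_num) hT
  have hTi' : (0 : ℝ) < 1 / T := by positivity
  have gR : ∀ v ∈ Ioi (u + M * T), Real.exp (-V v) ≤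
      Real.exp (-V u + u / T) * Real.exp (-1 / T * v) := by
    intro v hv
    have hv' : u + M * T < v := hv
    rw [← Real.exp_add]
    apply Real.exp_le_exp.2
    have h0 : (0 : ℝ) ≤ v - u := by linarith
    have h1 := h.far v (by rw [abs_of_nonneg h0]; linarith)
    rw [abs_of_nonneg h0] at h1
    have : (v - u) / T = v / T - u / T := sub_div _ _ _
    have h2 : -1 / T * v = -(v / T) := by ring
    rw [h2]
    linarith
  have gL : ∀ v ∈ Iic (u - M * T), Real.exp (-V v) ≤
      Real.exp (-V u - u / T) * Real.exp (1 / T * v) := by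
    intro v hv
    have hv' : v ≤ u - M * T := hv
    rw [← Real.exp_add]
    apply Real.exp_le_exp.2
    have h0 : v - u ≤ (0 : ℝ) := by linarith
    have h1 := h.far v (by rw [abs_of_nonpos h0]; linarith)
    rw [abs_of_nonpos h0] at h1
    have : -(v - u) / T = u / T - v / T := by ring
    have h2 : 1 / T * v = v / T := by ring
    rw [h2]
    linarith
  have iR : IntegrableOn (fun v => Real.exp (-V u + u / T) * Real.exp (-1 / T * v))
      (Ioi (u + M * T)) := (integrableOn_exp_mul_Ioi hTi _).const_mul _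
  have iL : IntegrableOn (fun v => Real.exp (-V u - u / T) * Real.exp (1 / T * v))
      (Iic (u - M * T)) := (integrableOn_exp_mul_Iic hTi' _).const_mul _
  have hR : ∫ v in Ioi (u + M * T), Real.exp (-V v) ≤ T * Real.exp (-V u - M) := by
    have h1 : ∫ v in Ioi (u + M * T), Real.exp (-V v) ≤
        ∫ v in Ioi (u + M * T), Real.exp (-V u + u / T) * Real.exp (-1 / T * v) :=
      setIntegral_mono_on hint.integrableOn iR measurableSet_Ioi gR
    refine h1.trans (le_of_eq ?_)
    rw [integral_const_mul, integral_exp_mul_Ioi hTi]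
    have h2 : -Real.exp (-1 / T * (u + M * T)) / (-1 / T) =
        T * Real.exp (-1 / T * (u + M * T)) := by
      field_simp
    rw [h2, mul_left_comm, ← Real.exp_add]
    congr 2
    field_simp
    ring
  have hL : ∫ v in Iic (u - M * T), Real.exp (-V v) ≤ T * Real.exp (-V u - M) := by
    have h1 : ∫ v in Iic (u - M * T), Real.exp (-V v) ≤
        ∫ v in Iic (u - M * T), Real.exp (-V u - u / T) * Real.exp (1 / T * v) :=
      setIntegral_mono_on hint.integrableOn iL measurableSet_Iic gL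
    refine h1.trans (le_of_eq ?_)
    rw [integral_const_mul, integral_exp_mul_Iic hTi']
    have h2 : Real.exp (1 / T * (u - M * T)) / (1 / T) = T * Real.exp (1 / T * (u - M * T)) := by
      field_simp
    rw [h2, mul_left_comm, ← Real.exp_add]
    congr 2
    field_simp
    ring
  have h1 : ∫ v in (Icc (u - M * T) (u + M * T))ᶜ, Real.exp (-V v) ≤
      ∫ v in Iic (u - M * T) ∪ Ioi (u + M * T), Real.exp (-V v) := by
    apply setIntegral_mono_set hint.integrableOn
      (Eventually.of_forall fun v => (Real.exp_pos _).le)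
    apply LE.le.eventuallyLE
    intro v hv
    by_contra hcon
    rw [mem_union, not_or, mem_Iic, mem_Ioi, not_le, not_lt] at hcon
    exact hv ⟨hcon.1.le, hcon.2⟩
  rw [setIntegral_union (Iic_disjoint_Ioi (by linarith)) measurableSet_Ioi hint.integrableOn
    hint.integrableOn] at h1
  linarith

lemma gibbs_real {E : Type*} [NormedAddCommGroup E] [NormedSpace ℝ E] [MeasureSpace E]
    [BorelSpace E] [FiniteDimensional ℝ E] [(volume : Measure E).IsAddHaarMeasure] {ψ : E → ℝ}
    (h : Nice ψ) {S : Set E} (hS : MeasurableSet S) :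
    (gibbs ψ).real S = (∫ x in S, Real.exp (-ψ x)) / ∫ x, Real.exp (-ψ x) := by
  have h1 := gibbs_integral h (S.indicator (fun _ => (1 : ℝ)))
  rw [integral_indicator hS, setIntegral_const, smul_eq_mul, mul_one] at h1
  rw [h1, smul_eq_mul, div_eq_inv_mul]
  congr 1
  rw [← integral_indicator hS]
  congr 1
  funext x
  by_cases hx : x ∈ S <;> simp [hx]

section

variable {F : Type} [NormedAddCommGroup F] [NormedSpace ℝ F] [MeasureSpace F] [BorelSpace F]
  [FiniteDimensional ℝ F] [(volume : Measure F).IsAddHaarMeasure] {φ : ℝ × F → ℝ}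

lemma tr_fubini (h : Nice φ) {V : ℝ → ℝ}
    (hV : ∀ u, ∫ x, Real.exp (-φ (u, x)) = Real.exp (-V u)) {A : Set ℝ} :
    ∫ p in {p : ℝ × F | p.1 ∈ A}, Real.exp (-φ p) = ∫ u in A, Real.exp (-V u) := by
  have h1 : {p : ℝ × F | p.1 ∈ A} = A ×ˢ univ := by
    ext p; simp
  have hh := haar_prod' (F := F)
  rw [h1, Measure.volume_eq_prod, setIntegral_prod]
  · congr 1
    funext u
    rw [Measure.restrict_univ, hV]
  · rw [← Measure.volume_eq_prod]
    exact h.integrable_exp.integrableOn

/-- R3: comparison of the tilts with the measure -/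
theorem tilt_ratio {ε η : ℝ} (hε : 0 < ε) (hη : 0 < η) : ∃ R : ℝ, 1 ≤ R ∧
    ∀ (F : Type) [NormedAddCommGroup F] [NormedSpace ℝ F]
    [MeasureSpace F] [BorelSpace F] [FiniteDimensional ℝ F]
    [(volume : Measure F).IsAddHaarMeasure] (φ : ℝ × F → ℝ), Nice φ →
    ∀ (V : ℝ → ℝ), (∀ u, ∫ x, Real.exp (-φ (u, x)) = Real.exp (-V u)) →
    ∀ u₀ lam₀ T : ℝ, Bal (fun u => V u - lam₀ * u) u₀ T →
    ε ≤ (gibbs φ).real {p | p.1 < u₀} → ε ≤ (gibbs φ).real {p | u₀ < p.1} →
    ∀ u lam T' : ℝ, |u - u₀| ≤ T / 2 → Bal (fun v => V v - lam * v) u T' →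
    ∀ S : Set (ℝ × F), MeasurableSet S →
      (gibbs (fun p : ℝ × F => φ p - lam * p.1)).real S ≤ R * (gibbs φ).real S + η := by
  obtain ⟨e1, he1d⟩ : ∃ e1, e1 = ε / 16 * Real.exp (-1) * (ε / (16 * Real.exp 1)) ^ 2 := ⟨_, rfl⟩
  have he1 : 0 < e1 := by rw [he1d]; positivity
  obtain ⟨M, hM1, hM2⟩ : ∃ M : ℝ, 1 ≤ M ∧ 1 - Real.log η ≤ M :=
    ⟨max 1 (1 - Real.log η), le_max_left _ _, le_max_right _ _⟩
  obtain ⟨L, hL0, hLd⟩ : ∃ L : ℝ, 0 ≤ L ∧ Real.log (16 * Real.exp 1 / e1) ≤ L :=
    ⟨max 0 (Real.log (16 * Real.exp 1 / e1)), le_max_left _ _, le_max_right _ _⟩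
  refine ⟨max 1 (4 * Real.exp 1 / e1 * Real.exp (M * (2 * L))), le_max_left _ _, ?_⟩
  intro F _ _ _ _ _ _ φ hφ V hV u₀ lam₀ T hb0 hl hr u lam T' hu hb S hS
  have hh := haar_prod' (F := F)
  have hmV : V = mV φ := by
    funext v
    have h1 := exp_mV hφ v
    rw [hV v, Real.exp_eq_exp] at h1
    linarith
  have hint : Integrable (fun v => Real.exp (-V v)) := by
    rw [hmV]
    exact integrable_exp_mV hφ
  obtain ⟨Z, hZ⟩ : ∃ Z, ∫ v, Real.exp (-V v) = Z := ⟨_, rfl⟩
  have hZ0 : 0 < Z := by rw [← hZ]; exact integral_exp_pos hint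
  have hZφ : ∫ p, Real.exp (-φ p) = Z := by
    have := tr_fubini hφ hV (A := univ)
    simpa [hZ] using this
  have hR0 : ε * Z ≤ ∫ v in Ioi u₀, Real.exp (-V v) := by
    rw [gibbs_real hφ (measurableSet_lt measurable_const measurable_fst), hZφ,
      le_div_iff₀ hZ0] at hr
    exact hr.trans (le_of_eq (tr_fubini hφ hV (A := Ioi u₀)))
  have hL0 : ε * Z ≤ ∫ v in Iic u₀, Real.exp (-V v) := by
    rw [gibbs_real hφ (measurableSet_lt measurable_fst measurable_const), hZφ,
      le_div_iff₀ hZ0] at hl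
    refine hl.trans ((le_of_eq (tr_fubini hφ hV (A := Iio u₀))).trans ?_)
    apply setIntegral_mono_set hint.integrableOn
      (Eventually.of_forall fun v => (Real.exp_pos _).le)
    exact LE.le.eventuallyLE Iio_subset_Iic_self
  obtain ⟨hR1, hL1⟩ := tr_tail hb0 hZ0 hε hint hZ hR0 hL0 hu
  rw [← he1d] at hR1 hL1
  obtain ⟨hd, hlam⟩ := tr_core hb hZ0 he1 hint hZ hR1 hL1
  have hT' := hb.pos
  have hlamL : |lam| * T' ≤ 2 * L := by
    have h1 : |lam| * T' / 2 ≤ Real.log (16 * Real.exp 1 / e1) := by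
      rw [Real.le_log_iff_exp_le (by positivity)]
      exact hlam
    linarith
  -- the tilt
  have hφ' := hφ.tilt lam
  have hV' : ∀ v, ∫ x, Real.exp (-(fun p : ℝ × F => φ p - lam * p.1) (v, x)) =
      Real.exp (-(V v - lam * v)) := by
    intro v
    have h1 : ∀ x, Real.exp (-(φ (v, x) - lam * v)) =
        Real.exp (lam * v) * Real.exp (-φ (v, x)) := by
      intro x
      rw [← Real.exp_add]
      congr 1
      ring
    simp only [h1]
    rw [integral_const_mul, hV, ← Real.exp_add]
    congr 1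
    ring
  obtain ⟨hlow, hfar, hnear, hi, hi1, hi2, _⟩ := hb.facts
  obtain ⟨Z', hZ'⟩ : ∃ Z', ∫ v, Real.exp (-(V v - lam * v)) = Z' := ⟨_, rfl⟩
  have hZ'0 : 0 < Z' := by rw [← hZ']; exact integral_exp_pos hi
  rw [hZ'] at hi1 hi2
  have hZφ' : ∫ p : ℝ × F, Real.exp (-(φ p - lam * p.1)) = Z' := by
    have := tr_fubini hφ' hV' (A := univ)
    simp only [mem_univ, ofPred_true, Measure.restrict_univ] at this
    rw [this, hZ']
  have := gibbs_prob hφ
  have := gibbs_prob hφ'
  have hAm : MeasurableSet {p : ℝ × F | p.1 ∈ Icc (u - M * T') (u + M * T')} :=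
    measurable_fst measurableSet_Icc
  -- far part
  have hF : (gibbs (fun p : ℝ × F => φ p - lam * p.1)).real
      {p : ℝ × F | p.1 ∈ (Icc (u - M * T') (u + M * T'))ᶜ} ≤ η := by
    have hAm' : MeasurableSet {p : ℝ × F | p.1 ∈ (Icc (u - M * T') (u + M * T'))ᶜ} :=
      measurable_fst measurableSet_Icc.compl
    rw [gibbs_real hφ' hAm', hZφ', div_le_iff₀ hZ'0]
    have h1 := tr_fubini hφ' hV' (A := (Icc (u - M * T') (u + M * T'))ᶜ)
    rw [h1]
    refine (tr_far hb hM1).trans ?_
    have h2 : 2 * T' * Real.exp (-(V u - lam * u) - M) =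
        (2 * T' * Real.exp (-(V u - lam * u) - 1)) * Real.exp (1 - M) := by
      rw [mul_assoc (2 * T'), ← Real.exp_add]
      congr 2
      ring
    rw [h2, mul_comm]
    apply mul_le_mul _ hi1 (by positivity) hη.le
    rw [← Real.le_log_iff_exp_le hη]
    linarith
  -- near part
  have hN : (gibbs (fun p : ℝ × F => φ p - lam * p.1)).real
      (S ∩ {p : ℝ × F | p.1 ∈ Icc (u - M * T') (u + M * T')}) ≤
      4 * Real.exp 1 / e1 * Real.exp (M * (2 * L)) * (gibbs φ).real S := by
    rw [gibbs_real hφ' (hS.inter hAm), gibbs_real hφ hS, hZφ, hZφ', div_le_iff₀ hZ'0]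
    have hi' : Integrable (fun p : ℝ × F => Real.exp (-φ p)) := hφ.integrable_exp
    have hi'' : Integrable (fun p : ℝ × F => Real.exp (-(φ p - lam * p.1))) :=
      hφ'.integrable_exp
    have h1 : ∫ p in S ∩ {p : ℝ × F | p.1 ∈ Icc (u - M * T') (u + M * T')},
        Real.exp (-(φ p - lam * p.1)) ≤
        ∫ p in S ∩ {p : ℝ × F | p.1 ∈ Icc (u - M * T') (u + M * T')},
        Real.exp (lam * u + M * (2 * L)) * Real.exp (-φ p) := by
      apply setIntegral_mono_on hi''.integrableOn (hi'.const_mul _).integrableOn (hS.inter hAm)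
      rintro p ⟨_, hp1, hp2⟩
      rw [← Real.exp_add, Real.exp_le_exp]
      have h2 : lam * (p.1 - u) ≤ M * (|lam| * T') := by
        calc lam * (p.1 - u) ≤ |lam * (p.1 - u)| := le_abs_self _
          _ = |lam| * |p.1 - u| := abs_mul _ _
          _ ≤ |lam| * (M * T') := by
            apply mul_le_mul_of_nonneg_left _ (abs_nonneg _)
            rw [abs_le]
            constructor <;> linarith
          _ = M * (|lam| * T') := by ring
      have h3 : M * (|lam| * T') ≤ M * (2 * L) :=
        mul_le_mul_of_nonneg_left hlamL (by linarith)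
      linarith
    rw [integral_const_mul] at h1
    have h4 : ∫ p in S ∩ {p : ℝ × F | p.1 ∈ Icc (u - M * T') (u + M * T')},
        Real.exp (-φ p) ≤ ∫ p in S, Real.exp (-φ p) := by
      apply setIntegral_mono_set hi'.integrableOn
        (Eventually.of_forall fun v => (Real.exp_pos _).le)
      exact LE.le.eventuallyLE inter_subset_left
    have h5 : 0 ≤ ∫ p in S, Real.exp (-φ p) := integral_nonneg fun p => (Real.exp_pos _).le
    refine h1.trans ((mul_le_mul_of_nonneg_left h4 (Real.exp_pos _).le).trans ?_)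
    have h6 : 4 * Real.exp 1 / e1 * Real.exp (M * (2 * L)) *
        ((∫ p in S, Real.exp (-φ p)) / Z) * Z' =
        (4 * Real.exp 1 / e1 * Z' / Z) * Real.exp (M * (2 * L)) * ∫ p in S, Real.exp (-φ p) := by
      ring
    rw [h6, Real.exp_add]
    apply mul_le_mul_of_nonneg_right _ h5
    apply mul_le_mul_of_nonneg_right _ (Real.exp_pos _).le
    rw [le_div_iff₀ hZ0]
    -- exp (lam u) Z ≤ 4 e / e1 Z'
    have h7 : Z ≤ 8 * T' * Real.exp (-V u) / e1 := by
      rw [le_div_iff₀ he1]
      linarith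
    have h8 : Real.exp (lam * u) * (8 * T' * Real.exp (-V u) / e1) =
        4 * Real.exp 1 / e1 * (2 * T' * Real.exp (-(V u - lam * u) - 1)) := by
      have : Real.exp (-(V u - lam * u) - 1) =
          Real.exp (lam * u) * Real.exp (-V u) * (Real.exp 1)⁻¹ := by
        rw [← Real.exp_neg, ← Real.exp_add, ← Real.exp_add]
        congr 1
        ring
      rw [this]
      field_simp
      ring
    calc Real.exp (lam * u) * Z ≤ Real.exp (lam * u) * (8 * T' * Real.exp (-V u) / e1) :=
          mul_le_mul_of_nonneg_left h7 (Real.exp_pos _).le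
      _ = 4 * Real.exp 1 / e1 * (2 * T' * Real.exp (-(V u - lam * u) - 1)) := h8
      _ ≤ 4 * Real.exp 1 / e1 * Z' := mul_le_mul_of_nonneg_left hi1 (by positivity)
  have hsplit : (gibbs (fun p : ℝ × F => φ p - lam * p.1)).real S ≤
      (gibbs (fun p : ℝ × F => φ p - lam * p.1)).real
        (S ∩ {p : ℝ × F | p.1 ∈ Icc (u - M * T') (u + M * T')}) +
      (gibbs (fun p : ℝ × F => φ p - lam * p.1)).real
        {p : ℝ × F | p.1 ∈ (Icc (u - M * T') (u + M * T'))ᶜ} := by
    refine le_trans (measureReal_mono ?_) (measureReal_union_le _ _)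
    intro p hp
    by_cases h : p.1 ∈ Icc (u - M * T') (u + M * T')
    · exact Or.inl ⟨hp, h⟩
    · exact Or.inr h
  have h9 : 4 * Real.exp 1 / e1 * Real.exp (M * (2 * L)) * (gibbs φ).real S ≤
      max 1 (4 * Real.exp 1 / e1 * Real.exp (M * (2 * L))) * (gibbs φ).real S :=
    mul_le_mul_of_nonneg_right (le_max_right _ _) measureReal_nonneg
  linarith

end

end Pool.Agent.Lib.MP_6d896a_gt.FP
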