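import Mathlib
import Pool.Agent.Lib.MP_6d896a_gt.FP.SectionsOf
import Pool.Agent.Lib.MP_6d896a_gt.FP.StableR
import Pool.Agent.Lib.MP_6d896a_gt.FP.SectionLoc
import Pool.Agent.Lib.MP_6d896a_gt.FP.TiltRatio
import Pool.Agent.Lib.MP_6d896a_gt.FP.ApproxSec
import Pool.Agent.Lib.MP_6d896a_gt.FP.FibreGenJ
import Pool.Agent.Lib.MP_6d896a_gt.FP.CheegerPoinc

/-!
The isoperimetric constants of a log-concave measure and of its central sections are equivalent.
-/

set_option autoImplicit false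

namespace Pool.Agent.Lib.MP_6d896a_gt.FP

open MeasureTheory ProbabilityTheory Set Filter
open scoped ENNReal Topology

theorem cheegerStat : CheegerStat := fun ν _ h2 _ hκ h f hf hl => poinc_of_cheeger ν h2 hκ h f hf hl

/-- sections with tails at least `ε` -/
theorem sec_stat (ε : ℝ) (hε : 0 < ε) : ∃ C : ℝ, 1 ≤ C ∧ SecStat C ε := by
  obtain ⟨C₁, hC₁, η₁, hη₁, hst⟩ := ap_stable
  obtain ⟨η₂, hη₂, hstR⟩ := ap_stableR
  obtain ⟨C₃, hC₃, hloc⟩ := section_loc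
  refine sec_of hC₁ hη₁ hst hη₂ hstR hC₃ hloc ?_ ?_ ε hε
  · intro ε η hε hη
    exact tilt_ratio hε hη
  · intro W _ ρ hρ h1 u₀ hl hr η hη
    exact approx_sec hρ h1 hl hr hη

/-- quantiles of a measure without atoms -/
lemma exists_quantile (ν : Measure ℝ) [IsProbabilityMeasure ν] (hna : ∀ a, ν {a} = 0) {η : ℝ}
    (h0 : 0 < η) (h1 : η < 1) : ∃ α, ν.real (Iio α) = η := by
  have hcont : Continuous (cdf ν) := by
    rw [continuous_iff_continuousAt]
    intro a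
    rw [(monotone_cdf ν).continuousAt_iff_leftLim_eq_rightLim, (cdf ν).rightLim_eq]
    have h2 : (cdf ν).measure {a} = 0 := by rw [measure_cdf]; exact hna a
    rw [StieltjesFunction.measure_singleton, ENNReal.ofReal_eq_zero] at h2
    have h3 := (monotone_cdf ν).leftLim_le (le_refl a)
    linarith
  obtain ⟨x, hx⟩ := ((tendsto_cdf_atBot ν).eventually (gt_mem_nhds h0)).exists
  obtain ⟨y, hy⟩ := ((tendsto_cdf_atTop ν).eventually (lt_mem_nhds h1)).exists
  obtain ⟨α, hα⟩ := mem_range_of_exists_le_of_exists_ge hcont ⟨x, hx.le⟩ ⟨y, hy.le⟩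
  refine ⟨α, ?_⟩
  rw [← hα, cdf_eq_real, ← Iio_union_right, measureReal_union (by simp) (measurableSet_singleton _)]
  have : ν.real {α} = 0 := by rw [measureReal_def, hna, ENNReal.toReal_zero]
  rw [this, add_zero]

section

variable {n : ℕ}

/-- from the measure to its sections -/
theorem sections_down (ε : ℝ) (hε : 0 < ε) : ∃ c : ℝ, 0 < c ∧ ∀ (n : ℕ)
    (ρ : ℝ × (Fin n → ℝ) → ℝ), LCd ρ → ∫⁻ p, ENNReal.ofReal (ρ p) = 1 →
    ∀ κ : ℝ, 0 < κ → κ ≤ 1 → KLSC (dens ρ) κ →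
    ∀ u : ℝ, ε ≤ (dens ρ).real {p | p.1 < u} → ε ≤ (dens ρ).real {p | u < p.1} →
    ∫⁻ x, ENNReal.ofReal (ρ (u, x)) ≠ 0 ∧ ∫⁻ x, ENNReal.ofReal (ρ (u, x)) ≠ ∞ ∧
    KLSC (dens (fun x => ρ (u, x))) (c * κ) := by
  obtain ⟨C₀, hC₀, hsec⟩ := sec_stat ε hε
  obtain ⟨C₁, hC₁, himg⟩ := cheeger_image
  have hC₀' : 0 < C₀ := by linarith
  refine ⟨C₁ / (2 * Real.sqrt C₀), by positivity, ?_⟩
  intro n ρ hρ h1 κ hκ hκ1 hK u hl hr
  have hne : ∫⁻ x, ENNReal.ofReal (ρ x) ≠ 0 := by rw [h1]; exact one_ne_zero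
  have hnt : ∫⁻ x, ENNReal.ofReal (ρ x) ≠ ∞ := by rw [h1]; exact ENNReal.one_ne_top
  have hprob := dens_prob hne hnt
  have hK1 : 1 ≤ 4 / κ ^ 2 := by
    rw [le_div_iff₀ (by positivity)]
    nlinarith
  have hh := haar_prod' (F := Fin n → ℝ)
  have hAP : AP (dens ρ) (4 / κ ^ 2) := ap_of_klsc cheegerStat hρ hne hnt hκ hK
  obtain ⟨hs0, hs1, hs2⟩ := hsec (Fin n) ρ hρ h1 (4 / κ ^ 2) hK1 hAP u hl hr
  refine ⟨hs0, hs1, ?_⟩
  have hps := dens_prob hs0 hs1
  intro m T s hs hvar S hS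
  have key := himg (Fin n → ℝ) (dens (fun x => ρ (u, x))) ((hρ.slice u).plm hs0 hs1)
    (C₀ * (4 / κ ^ 2)) (by nlinarith) hs2 m T s hs hvar S hS
  have e : C₁ / (2 * Real.sqrt C₀) * κ / Real.sqrt s =
      C₁ / Real.sqrt (C₀ * (4 / κ ^ 2) * s) := by
    have e1 : C₀ * (4 / κ ^ 2) * s = (2 * Real.sqrt C₀ / κ * Real.sqrt s) ^ 2 := by
      rw [mul_pow, Real.sq_sqrt hs.le, div_pow, mul_pow, Real.sq_sqrt hC₀'.le]
      ring
    have hq : 0 < Real.sqrt C₀ := Real.sqrt_pos.mpr hC₀'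
    have hqs : 0 < Real.sqrt s := Real.sqrt_pos.mpr hs
    rw [e1, Real.sqrt_sq (by positivity)]
    field_simp
  rw [e]
  exact key

/-- from the sections to the measure -/
theorem sections_up : ∃ ε : ℝ, 0 < ε ∧ ε < 1 / 2 ∧ ∃ c : ℝ, 0 < c ∧ ∀ (n : ℕ)
    (ρ : ℝ × (Fin n → ℝ) → ℝ), LCd ρ → ∫⁻ p, ENNReal.ofReal (ρ p) = 1 →
    ∀ κ : ℝ, 0 < κ → κ ≤ 1 →
    (∀ u : ℝ, ε ≤ (dens ρ).real {p | p.1 < u} → ε ≤ (dens ρ).real {p | u < p.1} →
      KLSC (dens (fun x => ρ (u, x))) κ) →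
    KLSC (dens ρ) (c * κ) := by
  obtain ⟨C₀, hC₀, η, hη, hfib⟩ := fibre_genJ
  obtain ⟨C₁, hC₁, himg⟩ := cheeger_image
  have hC₀' : 0 < C₀ := by linarith
  refine ⟨min (η / 2) (1 / 4), by positivity, (min_le_right _ _).trans_lt (by norm_num),
    C₁ / (2 * Real.sqrt C₀), by positivity, ?_⟩
  intro n ρ hρ h1 κ hκ hκ1 hK
  have hne : ∫⁻ x, ENNReal.ofReal (ρ x) ≠ 0 := by rw [h1]; exact one_ne_zero
  have hnt : ∫⁻ x, ENNReal.ofReal (ρ x) ≠ ∞ := by rw [h1]; exact ENNReal.one_ne_top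
  have hprob := dens_prob hne hnt
  have hK1 : 1 ≤ 4 / κ ^ 2 := by
    rw [le_div_iff₀ (by positivity)]
    nlinarith
  have hh := haar_prod' (F := Fin n → ℝ)
  have hpl := hρ.plm hne hnt
  set ε : ℝ := min (η / 2) (1 / 4) with hε
  have hε0 : 0 < ε := by positivity
  have hε1 : ε < 1 := (min_le_right _ _).trans_lt (by norm_num)
  -- the marginal
  set ν : Measure ℝ := (dens ρ).map Prod.fst with hν
  have hνp : IsProbabilityMeasure ν := Measure.isProbabilityMeasure_map measurable_fst.aemeasurable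
  have hνr : ∀ A, MeasurableSet A → ν.real A = (dens ρ).real {p | p.1 ∈ A} := by
    intro A hA
    rw [measureReal_def, measureReal_def, hν, Measure.map_apply measurable_fst hA]
    rfl
  have hac : dens ρ ≪ (volume : Measure (ℝ × (Fin n → ℝ))) := by
    unfold dens
    exact (withDensity_absolutelyContinuous _ _).smul_left _
  have hna : ∀ a, ν {a} = 0 := by
    intro a
    rw [hν, Measure.map_apply measurable_fst (measurableSet_singleton a)]
    apply hac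
    have : Prod.fst ⁻¹' {a} = ({a} : Set ℝ) ×ˢ (univ : Set (Fin n → ℝ)) := by
      ext p; simp
    rw [this, Measure.volume_eq_prod, Measure.prod_prod, Real.volume_singleton, zero_mul]
  obtain ⟨α, hα⟩ := exists_quantile ν hna hε0 hε1
  obtain ⟨β, hβ⟩ := exists_quantile ν hna (η := 1 - ε) (by linarith) (by linarith)
  have hβ' : ν.real (Ioi β) = ε := by
    have h2 : ν.real (Iio β) + ν.real (Ioi β) = 1 := by
      have h3 : ν.real (Iic β) = ν.real (Iio β) := by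
        rw [← Iio_union_right, measureReal_union (by simp) (measurableSet_singleton _)]
        have : ν.real {β} = 0 := by rw [measureReal_def, hna, ENNReal.toReal_zero]
        rw [this, add_zero]
      rw [← h3, ← compl_Iic, probReal_compl_eq_one_sub measurableSet_Iic]
      ring
    linarith
  have hAP : AP (dens ρ) (C₀ * (4 / κ ^ 2)) := by
    refine hfib (Fin n) ρ hρ h1 α β ?_ (4 / κ ^ 2) hK1 fun y hy hy0 => ?_
    · have h2 : {p : ℝ × (Fin n → ℝ) | p.1 ∉ Icc α β} =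
          {p | p.1 ∈ Iio α} ∪ {p | p.1 ∈ Ioi β} := by
        ext p
        simp only [mem_ofPred_eq, mem_Icc, mem_union, mem_Iio, mem_Ioi]
        rw [not_and_or, not_le, not_le]
      rw [h2]
      refine (measureReal_union_le _ _).trans ?_
      rw [← hνr _ measurableSet_Iio, ← hνr _ measurableSet_Ioi, hα, hβ']
      have := min_le_left (η / 2) (1 / 4)
      linarith
    · by_cases hy2 : ∫⁻ x, ENNReal.ofReal (ρ (y, x)) = ∞
      · rw [dens_top hy2]
        exact AP.zero _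
      · refine ap_of_klsc cheegerStat (hρ.slice y) hy0 hy2 hκ (hK y ?_ ?_)
        · have h3 : ν.real (Iio α) ≤ ν.real (Iio y) := measureReal_mono (Iio_subset_Iio hy.1)
          rw [hα, hνr _ measurableSet_Iio] at h3
          exact h3
        · have h3 : ν.real (Ioi β) ≤ ν.real (Ioi y) := measureReal_mono (Ioi_subset_Ioi hy.2)
          rw [hβ', hνr _ measurableSet_Ioi] at h3
          exact h3
  intro m T s hs hvar S hS
  have key := himg (ℝ × (Fin n → ℝ)) (dens ρ) hpl (C₀ * (4 / κ ^ 2))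
    (by nlinarith) hAP m T s hs hvar S hS
  have e : C₁ / (2 * Real.sqrt C₀) * κ / Real.sqrt s =
      C₁ / Real.sqrt (C₀ * (4 / κ ^ 2) * s) := by
    have e1 : C₀ * (4 / κ ^ 2) * s = (2 * Real.sqrt C₀ / κ * Real.sqrt s) ^ 2 := by
      rw [mul_pow, Real.sq_sqrt hs.le, div_pow, mul_pow, Real.sq_sqrt hC₀'.le]
      ring
    have hq : 0 < Real.sqrt C₀ := Real.sqrt_pos.mpr hC₀'
    have hqs : 0 < Real.sqrt s := Real.sqrt_pos.mpr hs
    rw [e1, Real.sqrt_sq (by positivity)]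
    field_simp
  rw [e]
  exact key

end

end Pool.Agent.Lib.MP_6d896a_gt.FP
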