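import Mathlib
import Pool.Agent.Lib.MP_6d896a_gt.FP.ForestP
import Pool.Agent.Lib.MP_6d896a_gt.FP.RankG
import Pool.Agent.Lib.MP_6d896a_gt.FP.SecTilt
import Pool.Agent.Lib.MP_6d896a_gt.FP.FibreTails
import Pool.Agent.Lib.MP_6d896a_gt.FP.GaussLimit
import Pool.Agent.Lib.MP_6d896a_gt.FP.SectionsFinal
import Pool.Agent.Lib.MP_6d896a_gt.FP.FibreMain
import Pool.Agent.Lib.MP_6d896a_gt.FP.Image
import Pool.Agent.Lib.MP_6d896a_gt.FP.Stable
import Pool.Agent.Lib.MP_6d896a_gt.FP.ForestFinal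

/-!
The Kannan-Lovasz-Simonovits inequality for log-concave densities with a hierarchical factorisation
along a forest, perturbed by log-concave functions of a few linear functionals.
-/

set_option autoImplicit false

namespace Pool.Agent.Lib.MP_6d896a_gt.FP

open MeasureTheory ProbabilityTheory Set Filter
open scoped ENNReal Topology

/-- statement of forestP -/
def ForestPStat (C : ℝ) : Prop := ∀ (t : ℕ) (V ι : Type) [Fintype V] [DecidableEq V]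
    [Fintype ι] (anc : V → Finset V), Anc anc → ∀ (a : ι → V) (k : ι → ℕ),
    (∀ v, (anc v).card + ∑ i ∈ Finset.univ.filter (fun i => a i ∈ anc v), k i ≤ t) →
    ∀ B : (i : ι) → Fin (k i) → (V → ℝ) →L[ℝ] ℝ,
    (∀ i j w, B i j (Pi.single w 1) ≠ 0 → a i ∈ anc w ∨ w ∈ anc (a i)) →
    ∀ (f : V → (V → ℝ) → ℝ) (g : ι → (V → ℝ) → ℝ) (κ : ℝ), 0 < κ → (∀ v x, 0 ≤ f v x) →
    (∀ v, Measurable (f v)) → (∀ v, DepOn (f v) (anc v)) → LCd (fun x => ∏ v, f v x) →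
    (∀ i, LCd (g i)) →
    (∀ i x y, (∀ u ∈ anc (a i), x u = y u) → (∀ j, B i j x = B i j y) → g i x = g i y) →
    ∀ L : (V → ℝ) →L[ℝ] ℝ,
      AP (dens (fun x => (∏ v, f v x) * (∏ i, g i x) * Real.exp (L x - κ * ∑ w, x w ^ 2)))
        (C ^ t)

theorem forestPStat : ∃ C : ℝ, 1 ≤ C ∧ ForestPStat C := by
  obtain ⟨Cf, hCf, hfib⟩ := fibreStat
  obtain ⟨Cs, hCs, hsec⟩ := sec_stat (1 / 4) (by norm_num)
  obtain ⟨Cr, hCr, hr⟩ := rankG_of fibre_tails ⟨Cs, hCs, fun W _ ρ h1 h2 K hK h3 u h4 h5 =>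
    sec_tilt hCs hsec W ρ h1 h2 K hK h3 u h4 h5⟩
  exact ⟨max Cf Cr, le_max_of_le_left hCf, forestP hCf hfib hCr hr⟩

theorem hierP : ∃ C : ℝ, 0 < C ∧
      ∀ (t m n l : ℕ) (anc : Fin m → Finset (Fin m)),
        (∀ v, v ∈ anc v) → (∀ u v, u ∈ anc v → anc u ⊆ anc v) →
        (∀ u w v, u ∈ anc v → w ∈ anc v → u ∈ anc w ∨ w ∈ anc u) →
        ∀ (a : Fin l → Fin m) (k : Fin l → ℕ),
        (∀ v, (anc v).card + ∑ i ∈ Finset.univ.filter (fun i => a i ∈ anc v), k i ≤ t) →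
        ∀ B : (i : Fin l) → Fin (k i) → (Fin m → ℝ) →ₗ[ℝ] ℝ,
        (∀ i j w, B i j (Pi.single w 1) ≠ 0 → a i ∈ anc w ∨ w ∈ anc (a i)) →
        ∀ f : Fin m → (Fin m → ℝ) → ℝ, (∀ v x, 0 ≤ f v x) → (∀ v, Measurable (f v)) →
        (∀ v x y, (∀ u ∈ anc v, x u = y u) → f v x = f v y) →
        (∀ (x y : Fin m → ℝ) (p q : ℝ), 0 < p → 0 < q → p + q = 1 →
          (∏ v, f v x) ^ p * (∏ v, f v y) ^ q ≤ ∏ v, f v (p • x + q • y)) →
        ∀ g : Fin l → (Fin m → ℝ) → ℝ, (∀ i x, 0 ≤ g i x) → (∀ i, Measurable (g i)) →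
        (∀ i (x y : Fin m → ℝ) (p q : ℝ), 0 < p → 0 < q → p + q = 1 →
          g i x ^ p * g i y ^ q ≤ g i (p • x + q • y)) →
        (∀ i x y, (∀ u ∈ anc (a i), x u = y u) → (∀ j, B i j x = B i j y) → g i x = g i y) →
        ∫⁻ x, ENNReal.ofReal ((∏ v, f v x) * ∏ i, g i x) = 1 →
        ∀ (T : (Fin m → ℝ) →ₗ[ℝ] EuclideanSpace ℝ (Fin n))
          (μ : Measure (EuclideanSpace ℝ (Fin n))),
        μ = ((volume : Measure (Fin m → ℝ)).withDensity
          fun x => ENNReal.ofReal ((∏ v, f v x) * ∏ i, g i x)).map T →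
        ∀ s : ℝ, 0 < s →
          (∀ θ : EuclideanSpace ℝ (Fin n), ‖θ‖ = 1 →
              ProbabilityTheory.variance (fun x => inner ℝ x θ) μ ≤ s) →
          ∀ S : Set (EuclideanSpace ℝ (Fin n)), MeasurableSet S →
            ENNReal.ofReal (C ^ (t + 1) / Real.sqrt s) * min (μ S) (μ Sᶜ) ≤
              Filter.liminf
                (fun ε : ℝ => (μ (Metric.thickening ε S) - μ S) / ENNReal.ofReal ε)
                (nhdsWithin 0 (Set.Ioi 0)) := by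
  obtain ⟨C₀, hC₀, hP⟩ := forestPStat
  obtain ⟨C₅, hC₅, hlim⟩ := ap_gauss_limit
  obtain ⟨C₁, hC₁, hch⟩ := cheeger_image
  have hC₀' : 0 < C₀ := by linarith
  have hC₅' : 0 < C₅ := by linarith
  have hq : 0 < Real.sqrt C₀ := Real.sqrt_pos.mpr hC₀'
  have hq5 : 0 < Real.sqrt C₅ := Real.sqrt_pos.mpr hC₅'
  refine ⟨min (C₁ / Real.sqrt C₅) (1 / Real.sqrt C₀), lt_min (by positivity) (by positivity), ?_⟩
  intro t m n l anc ha1 ha2 ha3 a k ht B hB f hf0 hfm hfd hfl g hg0 hgm hgl hgd h1 T μ hμ s hs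
    hvar S hS
  set ν : Measure (Fin m → ℝ) := (volume : Measure (Fin m → ℝ)).withDensity
    (fun x => ENNReal.ofReal ((∏ v, f v x) * ∏ i, g i x)) with hν
  have hprob : IsProbabilityMeasure ν := by
    constructor
    rw [hν, withDensity_apply _ MeasurableSet.univ, Measure.restrict_univ, h1]
  have hF : LCd (fun x => ∏ v, f v x) :=
    ⟨fun x => Finset.prod_nonneg fun i _ => hf0 i x, Finset.measurable_prod _ fun i _ => hfm i, hfl⟩
  have hG : ∀ i, LCd (g i) := fun i => ⟨hg0 i, hgm i, hgl i⟩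
  have hGp : LCd (fun x => ∏ i, g i x) := by
    refine ⟨fun x => Finset.prod_nonneg fun i _ => hg0 i x,
      Finset.measurable_prod _ fun i _ => hgm i, fun x y p q hp hq' hpq => ?_⟩
    rw [← Real.finsetProd_rpow _ _ (fun i _ => hg0 i x),
      ← Real.finsetProd_rpow _ _ (fun i _ => hg0 i y), ← Finset.prod_mul_distrib]
    exact Finset.prod_le_prod (fun i _ => mul_nonneg (Real.rpow_nonneg (hg0 i x) _)
      (Real.rpow_nonneg (hg0 i y) _)) fun i _ => hgl i x y p q hp hq' hpq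
  have hL : LCd (fun x => (∏ v, f v x) * ∏ i, g i x) := hF.mul hGp
  have hne : ∫⁻ x, ENNReal.ofReal ((∏ v, f v x) * ∏ i, g i x) ≠ 0 := by
    rw [h1]; exact one_ne_zero
  have hnt : ∫⁻ x, ENNReal.ofReal ((∏ v, f v x) * ∏ i, g i x) ≠ ∞ := by
    rw [h1]; exact ENNReal.one_ne_top
  have hνd : dens (fun x => (∏ v, f v x) * ∏ i, g i x) = ν := dens_of_one h1
  have hpl : PLm ν := by
    rw [← hνd]
    exact hL.plm hne hnt
  have hK1 : 1 ≤ C₀ ^ t := one_le_pow₀ hC₀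
  have hAP : AP ν (C₅ * C₀ ^ t) := by
    rw [← hνd]
    refine hlim (Fin m) _ hL (C₀ ^ t) hK1 fun κ hκ => ?_
    have h2 := hP t (Fin m) (Fin l) anc ⟨ha1, ha2, ha3⟩ a k ht
      (fun i j => LinearMap.toContinuousLinearMap (B i j)) (fun i j w hw => hB i j w hw)
      f g κ hκ hf0 hfm (fun v x y hxy => hfd v x y hxy) hF hG
      (fun i x y h3 h4 => hgd i x y h3 h4) 0
    simpa using h2
  have hK2 : 1 ≤ C₅ * C₀ ^ t := by nlinarith
  have key := hch (Fin m → ℝ) ν hpl (C₅ * C₀ ^ t) hK2 hAP n T s hs (by rw [← hμ]; exact hvar) S hS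
  rw [← hμ] at key
  refine le_trans ?_ key
  have hc0 : 0 < min (C₁ / Real.sqrt C₅) (1 / Real.sqrt C₀) :=
    lt_min (by positivity) (by positivity)
  have e1 : Real.sqrt (C₅ * C₀ ^ t * s) = Real.sqrt C₅ * Real.sqrt C₀ ^ t * Real.sqrt s := by
    rw [Real.sqrt_mul (by positivity), Real.sqrt_mul hC₅'.le]
    congr 2
    rw [Real.sqrt_eq_iff_mul_self_eq (by positivity) (by positivity), ← mul_pow,
      Real.mul_self_sqrt hC₀'.le]
  have e2 : min (C₁ / Real.sqrt C₅) (1 / Real.sqrt C₀) ^ (t + 1) ≤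
      C₁ / (Real.sqrt C₅ * Real.sqrt C₀ ^ t) :=
    calc min (C₁ / Real.sqrt C₅) (1 / Real.sqrt C₀) ^ (t + 1)
        = min (C₁ / Real.sqrt C₅) (1 / Real.sqrt C₀) *
          min (C₁ / Real.sqrt C₅) (1 / Real.sqrt C₀) ^ t := by ring
      _ ≤ (C₁ / Real.sqrt C₅) * (1 / Real.sqrt C₀) ^ t := by
          apply mul_le_mul (min_le_left _ _) _ (by positivity) (by positivity)
          exact pow_le_pow_left₀ hc0.le (min_le_right _ _) t
      _ = C₁ / (Real.sqrt C₅ * Real.sqrt C₀ ^ t) := by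
          rw [div_pow, one_pow, div_mul_div_comm, mul_one]
  have e3 : min (C₁ / Real.sqrt C₅) (1 / Real.sqrt C₀) ^ (t + 1) / Real.sqrt s ≤
      C₁ / Real.sqrt (C₅ * C₀ ^ t * s) := by
    rw [e1, ← div_div]
    exact div_le_div_of_nonneg_right e2 (Real.sqrt_nonneg _)
  exact mul_le_mul_left (ENNReal.ofReal_le_ofReal e3) _

end Pool.Agent.Lib.MP_6d896a_gt.FP
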