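import Mathlib
import Pool.Agent.Lib.MP_6d896a_gt.FP.ShadDefs

/-!
The length of the fibres of an open convex set is a concave function on the projection.
-/

set_option autoImplicit false

namespace Pool.Agent.Lib.MP_6d896a_gt.FP

open MeasureTheory ProbabilityTheory Set Filter
open scoped ENNReal Topology

/-- an open set of reals of finite measure is almost filled by a segment between two of its points,
up to convexity -/
theorem exists_seg {I : Set ℝ} (hI : IsOpen I) (hne : I.Nonempty)
    (hfin : (volume : Measure ℝ) I ≠ ∞) {ε : ℝ} (hε : 0 < ε) :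
    ∃ x₁ ∈ I, ∃ x₂ ∈ I, x₁ ≤ x₂ ∧ ((volume : Measure ℝ) I).toReal ≤ (x₂ - x₁) + ε := by
  obtain ⟨K, hKI, hK, hlt⟩ := hI.measurableSet.exists_isCompact_lt_add hfin
    (ε := ENNReal.ofReal ε) (by simpa using hε)
  rcases K.eq_empty_or_nonempty with hK0 | hK0
  · obtain ⟨x, hx⟩ := hne
    refine ⟨x, hx, x, hx, le_rfl, ?_⟩
    rw [hK0, measure_empty, zero_add] at hlt
    have := ENNReal.toReal_mono ENNReal.ofReal_ne_top hlt.le
    rw [ENNReal.toReal_ofReal hε.le] at this
    simpa using this
  · have h1 := hK.sInf_mem hK0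
    have h2 := hK.sSup_mem hK0
    have h3 : sInf K ≤ sSup K := csInf_le hK.bddBelow h2
    refine ⟨sInf K, hKI h1, sSup K, hKI h2, h3, ?_⟩
    have h4 : (volume : Measure ℝ) K ≤ ENNReal.ofReal (sSup K - sInf K) := by
      rw [← Real.volume_Icc]
      exact measure_mono fun x hx => ⟨csInf_le hK.bddBelow hx, le_csSup hK.bddAbove hx⟩
    have h5 : (volume : Measure ℝ) I ≤ ENNReal.ofReal ((sSup K - sInf K) + ε) := by
      rw [ENNReal.ofReal_add (by linarith) hε.le]
      exact hlt.le.trans (by gcongr)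
    have := ENNReal.toReal_mono ENNReal.ofReal_ne_top h5
    rwa [ENNReal.toReal_ofReal (by linarith)] at this

/-- B: the length of the fibres of an open convex set is a concave function -/
theorem len_concave {E : Type} [NormedAddCommGroup E] [NormedSpace ℝ E] [MeasurableSpace E]
    [BorelSpace E] [FiniteDimensional ℝ E] {O : Set (ℝ × E)} (hO : IsOpen O) (hc : Convex ℝ O)
    (hfin : ∀ z : E, (volume : Measure ℝ) {y | (y, z) ∈ O} ≠ ∞) :
    Measurable (len O) ∧ (∀ z, z ∈ Prod.snd '' O → 0 < len O z) ∧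
    (∀ z, z ∉ Prod.snd '' O → len O z = 0) ∧
    ∀ z w, z ∈ Prod.snd '' O → w ∈ Prod.snd '' O → ∀ a b : ℝ, 0 < a → 0 < b → a + b = 1 →
      a * len O z + b * len O w ≤ len O (a • z + b • w) := by
  have hop : ∀ z : E, IsOpen {y : ℝ | (y, z) ∈ O} := fun z =>
    hO.preimage (continuous_id.prodMk continuous_const)
  have hnon : ∀ z : E, z ∈ Prod.snd '' O → {y : ℝ | (y, z) ∈ O}.Nonempty := by
    rintro z ⟨⟨y, z'⟩, h, rfl⟩
    exact ⟨y, h⟩
  refine ⟨?_, ?_, ?_, ?_⟩
  · exact (measurable_measure_prodMk_right (μ := (volume : Measure ℝ)) hO.measurableSet).ennreal_toReal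
  · intro z hz
    exact ENNReal.toReal_pos ((hop z).measure_pos volume (hnon z hz)).ne' (hfin z)
  · intro z hz
    have : {y : ℝ | (y, z) ∈ O} = ∅ := by
      rw [Set.eq_empty_iff_forall_notMem]
      intro y hy
      exact hz ⟨(y, z), hy, rfl⟩
    rw [len, this]; simp
  · intro z w hz hw a b ha hb hab
    refine le_of_forall_pos_le_add fun ε hε => ?_
    obtain ⟨x₁, hx₁, x₂, hx₂, hx, hx3⟩ := exists_seg (hop z) (hnon z hz) (hfin z) hε
    obtain ⟨y₁, hy₁, y₂, hy₂, hy, hy3⟩ := exists_seg (hop w) (hnon w hw) (hfin w) hε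
    have h1 : (a * x₁ + b * y₁, a • z + b • w) ∈ O := by
      have := hc hx₁ hy₁ ha.le hb.le hab
      simpa using this
    have h2 : (a * x₂ + b * y₂, a • z + b • w) ∈ O := by
      have := hc hx₂ hy₂ ha.le hb.le hab
      simpa using this
    have hle : a * x₁ + b * y₁ ≤ a * x₂ + b * y₂ := by
      have := mul_le_mul_of_nonneg_left hx ha.le
      have := mul_le_mul_of_nonneg_left hy hb.le
      linarith
    have h3 : Icc (a * x₁ + b * y₁) (a * x₂ + b * y₂) ⊆ {y | (y, a • z + b • w) ∈ O} := by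
      intro t ht
      have hseg : (t, a • z + b • w) ∈ segment ℝ (a * x₁ + b * y₁, a • z + b • w)
          (a * x₂ + b * y₂, a • z + b • w) := by
        rw [← Prod.image_mk_segment_left, segment_eq_Icc hle]
        exact ⟨t, ht, rfl⟩
      exact hc.segment_subset h1 h2 hseg
    have h4 : (a * x₂ + b * y₂) - (a * x₁ + b * y₁) ≤ len O (a • z + b • w) := by
      have h5 := ENNReal.toReal_mono (hfin (a • z + b • w)) (measure_mono h3)
      rwa [Real.volume_Icc, ENNReal.toReal_ofReal (by linarith)] at h5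
    have h6 : a * len O z ≤ a * ((x₂ - x₁) + ε) := mul_le_mul_of_nonneg_left hx3 ha.le
    have h7 : b * len O w ≤ b * ((y₂ - y₁) + ε) := mul_le_mul_of_nonneg_left hy3 hb.le
    have h8 : a * ε + b * ε = ε := by rw [← add_mul, hab, one_mul]
    linarith

end Pool.Agent.Lib.MP_6d896a_gt.FP
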