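import Mathlib
import Pool.Agent.Lib.MP_6d896a_gt.FP.SectionOf
import Pool.Agent.Lib.MP_6d896a_gt.FP.Bal
import Pool.Agent.Lib.MP_6d896a_gt.FP.Apriori

/-!
The section principle from the localised variance bound `sec_lv` alone: everything else
(`em`, `exists_bal`, `apriori`) is proved.
-/

set_option autoImplicit false

namespace Pool.Agent.Lib.MP_6d896a_gt.FP

open MeasureTheory ProbabilityTheory Set Filter
open scoped ENNReal Topology

/-- the section principle, given the statement `sec_lv` -/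
theorem section_step_of_sec (hsec : ∃ C : ℝ, 0 < C ∧ SecLVStat Bal C) :
    ∃ C : ℝ, 1 ≤ C ∧ ∀ (F : Type) [NormedAddCommGroup F] [NormedSpace ℝ F]
    [MeasureSpace F] [BorelSpace F] [FiniteDimensional ℝ F]
    [(volume : Measure F).IsAddHaarMeasure] (φ : ℝ × F → ℝ) (K : ℝ), 1 ≤ K → Nice φ →
    (∀ lam : ℝ, AP (gibbs (fun p => φ p - lam * p.1)) K) →
    ∀ u, AP (gibbs (fun x => φ (u, x))) (C * K) :=
  section_step_of (B := Bal) em
    (fun _ hV _ _ hκ hlow u₀ => exists_bal hV hκ hlow u₀)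
    (fun _ _ _ _ _ _ _ _ h => apriori h)
    hsec

end Pool.Agent.Lib.MP_6d896a_gt.FP
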