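import Mathlib
import Pool.Agent.Lib.MP_6d896a_gt.FP.SecLV
import Pool.Agent.Lib.MP_6d896a_gt.FP.SectionBal

/-!
The section principle.
-/

set_option autoImplicit false

namespace Pool.Agent.Lib.MP_6d896a_gt.FP

open MeasureTheory ProbabilityTheory Set Filter
open scoped ENNReal Topology

/-- the section principle: a bound for the averaged Poincare constant which is stable under
tilting in the first variable passes to the fibres over the first variable -/
theorem section_step :
    ∃ C : ℝ, 1 ≤ C ∧ ∀ (F : Type) [NormedAddCommGroup F] [NormedSpace ℝ F]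
    [MeasureSpace F] [BorelSpace F] [FiniteDimensional ℝ F]
    [(volume : Measure F).IsAddHaarMeasure] (φ : ℝ × F → ℝ) (K : ℝ), 1 ≤ K → Nice φ →
    (∀ lam : ℝ, AP (gibbs (fun p => φ p - lam * p.1)) K) →
    ∀ u, AP (gibbs (fun x => φ (u, x))) (C * K) :=
  section_step_of_sec sec_lv

end Pool.Agent.Lib.MP_6d896a_gt.FP
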