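import Mathlib
import Pool.Agent.Lib.MP_6d896a_gt.FP.ShadDefs

/-!
Restriction of an integrable log-concave function to the interior of its support.
-/

set_option autoImplicit false

namespace Pool.Agent.Lib.MP_6d896a_gt.FP

open MeasureTheory ProbabilityTheory Set Filter
open scoped ENNReal Topology

namespace ShadAe

section

variable {E : Type*} [NormedAddCommGroup E] [NormedSpace ℝ E] [MeasurableSpace E] {ρ : E → ℝ}

lemma convex_supp (hρ : LCd ρ) : Convex ℝ {x | 0 < ρ x} := by
  rw [convex_iff_forall_pos]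
  intro x hx y hy a b ha hb hab
  exact lt_of_lt_of_le (mul_pos (Real.rpow_pos_of_pos hx _) (Real.rpow_pos_of_pos hy _))
    (hρ.lc x y a b ha hb hab)

lemma log_concave (hρ : LCd ρ) : ConcaveOn ℝ {x | 0 < ρ x} (fun x => Real.log (ρ x)) := by
  rw [concaveOn_iff_forall_pos]
  refine ⟨convex_supp hρ, ?_⟩
  intro x hx y hy a b ha hb hab
  have h1 := hρ.lc x y a b ha hb hab
  have hx' : 0 < ρ x := hx
  have hy' : 0 < ρ y := hy
  have h2 := Real.log_le_log (mul_pos (Real.rpow_pos_of_pos hx' a) (Real.rpow_pos_of_pos hy' b)) h1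
  rw [Real.log_mul (Real.rpow_pos_of_pos hx' a).ne' (Real.rpow_pos_of_pos hy' b).ne',
    Real.log_rpow hx', Real.log_rpow hy'] at h2
  simpa [smul_eq_mul] using h2

lemma cont_supp [FiniteDimensional ℝ E] (hρ : LCd ρ) : ContinuousOn ρ (interior {x | 0 < ρ x}) := by
  have h := Real.continuous_exp.comp_continuousOn (log_concave hρ).continuousOn_interior
  refine h.congr ?_
  intro x hx
  have : 0 < ρ x := (interior_subset hx : x ∈ {x | 0 < ρ x})
  simp only [Function.comp, Real.exp_log this]

lemma ind_LCd [BorelSpace E] (hρ : LCd ρ) : LCd ((interior {x | 0 < ρ x}).indicator ρ) where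
  nn := fun x => Set.indicator_nonneg (fun y _ => hρ.nn y) x
  ms := hρ.ms.indicator isOpen_interior.measurableSet
  lc := by
    intro x y a b ha hb hab
    by_cases hx : x ∈ interior {x | 0 < ρ x}
    · by_cases hy : y ∈ interior {x | 0 < ρ x}
      · have hz : a • x + b • y ∈ interior {x | 0 < ρ x} :=
          (convex_supp hρ).interior hx hy ha.le hb.le hab
        rw [Set.indicator_of_mem hx, Set.indicator_of_mem hy, Set.indicator_of_mem hz]
        exact hρ.lc x y a b ha hb hab
      · rw [Set.indicator_of_notMem hy, Real.zero_rpow hb.ne', mul_zero]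
        exact Set.indicator_nonneg (fun y _ => hρ.nn y) _
    · rw [Set.indicator_of_notMem hx, Real.zero_rpow ha.ne', zero_mul]
      exact Set.indicator_nonneg (fun y _ => hρ.nn y) _

lemma ind_lsc [FiniteDimensional ℝ E] (hρ : LCd ρ) :
    LowerSemicontinuous ((interior {x | 0 < ρ x}).indicator ρ) := by
  intro x c hc
  by_cases hx : x ∈ interior {x | 0 < ρ x}
  · rw [Set.indicator_of_mem hx] at hc
    have h1 : ∀ᶠ y in 𝓝 x, y ∈ interior {x | 0 < ρ x} := isOpen_interior.mem_nhds hx
    have h2 : ContinuousAt ρ x := (cont_supp hρ).continuousAt (isOpen_interior.mem_nhds hx)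
    have h3 : ∀ᶠ y in 𝓝 x, c < ρ y := h2.eventually (lt_mem_nhds hc)
    filter_upwards [h1, h3] with y hy1 hy3
    rw [Set.indicator_of_mem hy1]
    exact hy3
  · rw [Set.indicator_of_notMem hx] at hc
    exact Filter.Eventually.of_forall (fun y =>
      lt_of_lt_of_le hc (Set.indicator_nonneg (fun y _ => hρ.nn y) _))

/-- along the segment to an interior point the values of a log-concave function do not drop much:
upper bounds of the restricted function are upper bounds -/
lemma bound_of_bound (hρ : LCd ρ) {x x₀ : E} (hx₀ : x₀ ∈ interior {x | 0 < ρ x}) {M : ℝ}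
    (hM : ∀ l : ℝ, 0 < l → l < 1 → (interior {x | 0 < ρ x}).indicator ρ ((1 - l) • x + l • x₀) ≤ M)
    (hx : 0 < ρ x) : ρ x ≤ M := by
  have hx₀' : 0 < ρ x₀ := (interior_subset hx₀ : x₀ ∈ {x | 0 < ρ x})
  have key : ∀ l : ℝ, 0 < l → l < 1 → ρ x ^ (1 - l) * ρ x₀ ^ l ≤ M := by
    intro l h0 h1
    have hin : (1 - l) • x + l • x₀ ∈ interior {x | 0 < ρ x} :=
      (convex_supp hρ).combo_self_interior_mem_interior hx hx₀ (by linarith) h0 (by ring)
    have h2 := hM l h0 h1
    rw [Set.indicator_of_mem hin] at h2
    exact (hρ.lc x x₀ (1 - l) l (by linarith) h0 (by ring)).trans h2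
  have hlim : Tendsto (fun l : ℝ => ρ x ^ (1 - l) * ρ x₀ ^ l) (𝓝[>] 0) (𝓝 (ρ x)) := by
    have hc : ContinuousAt (fun l : ℝ => ρ x ^ (1 - l) * ρ x₀ ^ l) 0 := by
      refine ContinuousAt.mul ?_ ?_
      · exact (Real.continuousAt_const_rpow hx.ne').comp (by fun_prop : ContinuousAt (fun l : ℝ => 1 - l) 0)
      · exact Real.continuousAt_const_rpow hx₀'.ne'
    have := hc.tendsto
    simp only [sub_zero, Real.rpow_one, Real.rpow_zero, mul_one] at this
    exact this.mono_left nhdsWithin_le_nhds
  refine le_of_tendsto hlim ?_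
  have : ∀ᶠ l : ℝ in 𝓝[>] 0, l < 1 :=
    (eventually_lt_nhds (show (0 : ℝ) < 1 by norm_num)).filter_mono nhdsWithin_le_nhds
  filter_upwards [this, self_mem_nhdsWithin] with l h1 h0
  exact key l h0 h1

end

lemma sSup_eq_of_upper {A B : Set ℝ} (hA : A.Nonempty) (hB : B.Nonempty)
    (h : upperBounds A = upperBounds B) : sSup A = sSup B := by
  by_cases hb : BddAbove A
  · have hb' : BddAbove B := by
      obtain ⟨M, hM⟩ := hb
      exact ⟨M, h ▸ hM⟩
    have h1 := isLUB_csSup hA hb
    have h2 := isLUB_csSup hB hb'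
    have h3 : IsLUB A (sSup B) := by
      unfold IsLUB at h2 ⊢
      rw [h]
      exact h2
    exact h1.unique h3
  · have hb' : ¬ BddAbove B := by
      rintro ⟨M, hM⟩
      exact hb ⟨M, h ▸ hM⟩
    rw [Real.sSup_of_not_bddAbove hb, Real.sSup_of_not_bddAbove hb']

end ShadAe

open ShadAe

/-- E: restriction to the interior of the support changes neither the function nor its shadows,
up to null sets -/
theorem shad_ae {V V' : Type} [Fintype V] [Fintype V'] {ρ : (V → ℝ) → ℝ} (hρ : LCd ρ)
    (h0 : ∫⁻ x, ENNReal.ofReal (ρ x) ≠ 0) (h1 : ∫⁻ x, ENNReal.ofReal (ρ x) ≠ ∞)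
    (S : (V → ℝ) →L[ℝ] (V' → ℝ)) (hS : Function.Surjective S) :
    LCd ((interior {x | 0 < ρ x}).indicator ρ) ∧
    LowerSemicontinuous ((interior {x | 0 < ρ x}).indicator ρ) ∧
    (interior {x | 0 < ρ x}).indicator ρ =ᵐ[volume] ρ ∧
    shad S ((interior {x | 0 < ρ x}).indicator ρ) =ᵐ[volume] shad S ρ := by
  have hconv := convex_supp hρ
  have hfr : (volume : Measure (V → ℝ)) (frontier {x | 0 < ρ x}) = 0 := hconv.addHaar_frontier _
  -- the support has interior points
  have hne : (interior {x | 0 < ρ x}).Nonempty := by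
    by_contra hemp
    rw [Set.not_nonempty_iff_eq_empty] at hemp
    apply h0
    rw [lintegral_eq_zero_iff hρ.ms.ennreal_ofReal]
    have : (volume : Measure (V → ℝ)) {x | 0 < ρ x} = 0 := by
      refine measure_mono_null ?_ hfr
      intro x hx
      refine ⟨subset_closure hx, ?_⟩
      rw [hemp]
      exact Set.notMem_empty x
    rw [Filter.EventuallyEq, ae_iff]
    refine measure_mono_null ?_ this
    intro x hx
    by_contra hx'
    apply hx
    have : ρ x ≤ 0 := not_lt.1 hx'
    simp [ENNReal.ofReal_of_nonpos this]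
  refine ⟨ind_LCd hρ, ind_lsc hρ, ?_, ?_⟩
  · rw [Filter.EventuallyEq, ae_iff]
    refine measure_mono_null ?_ hfr
    intro x hx
    have hxi : x ∉ interior {x | 0 < ρ x} := by
      intro hxi
      exact hx (Set.indicator_of_mem hxi _)
    have hx0 : 0 < ρ x := by
      by_contra hx'
      apply hx
      rw [Set.indicator_of_notMem hxi]
      exact le_antisymm (hρ.nn x) (not_lt.1 hx')
    exact ⟨subset_closure hx0, hxi⟩
  · set U : Set (V' → ℝ) := S '' (interior {x | 0 < ρ x}) with hU
    have hUc : Convex ℝ U := hconv.interior.is_linear_image S.isBoundedLinearMap.toIsLinearMap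
    have hUo : IsOpen U := S.isOpenMap hS _ isOpen_interior
    have hUf : (volume : Measure (V' → ℝ)) (frontier U) = 0 := hUc.addHaar_frontier _
    rw [Filter.EventuallyEq, ae_iff]
    refine measure_mono_null ?_ hUf
    intro z hz
    by_contra hzf
    apply hz
    unfold shad
    obtain ⟨xz, hxz⟩ := hS z
    by_cases hzU : z ∈ U
    · obtain ⟨x₀, hx₀, hSx₀⟩ := hzU
      refine sSup_eq_of_upper ?_ ?_ ?_
      · exact ⟨_, ⟨xz, hxz, rfl⟩⟩
      · exact ⟨_, ⟨xz, hxz, rfl⟩⟩
      · ext M
        simp only [mem_upperBounds, Set.forall_mem_image, Set.mem_preimage, Set.mem_singleton_iff]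
        constructor
        · intro hM x hx
          have hx₀' : 0 < ρ x₀ := (interior_subset hx₀ : x₀ ∈ {x | 0 < ρ x})
          have hMpos : 0 ≤ M := by
            have := hM hSx₀
            rw [Set.indicator_of_mem hx₀] at this
            linarith
          by_cases hxp : 0 < ρ x
          · refine bound_of_bound hρ hx₀ ?_ hxp
            intro l _ _
            apply hM
            rw [map_add, map_smul, map_smul, hx, hSx₀, ← add_smul]
            simp
          · exact (not_lt.1 hxp).trans hMpos
        · intro hM x hx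
          by_cases hxi : x ∈ interior {x | 0 < ρ x}
          · rw [Set.indicator_of_mem hxi]
            exact hM hx
          · rw [Set.indicator_of_notMem hxi]
            exact (hρ.nn x).trans (hM hx)
    · have hzc : z ∉ closure U := by
        intro hzc
        apply hzf
        rw [frontier, hUo.interior_eq]
        exact ⟨hzc, hzU⟩
      have hz0 : ∀ x, S x = z → ρ x = 0 := by
        intro x hx
        by_contra hx0
        apply hzc
        have hxp : x ∈ closure (interior {x | 0 < ρ x}) := by
          rw [hconv.closure_interior_eq_closure_of_nonempty_interior hne]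
          exact subset_closure (lt_of_le_of_ne (hρ.nn x) (Ne.symm hx0))
        have := image_closure_subset_closure_image S.continuous (s := interior {x | 0 < ρ x})
        rw [← hx]
        exact this ⟨x, hxp, rfl⟩
      congr 1
      ext r
      simp only [Set.mem_image, Set.mem_preimage, Set.mem_singleton_iff]
      constructor
      · rintro ⟨x, hx, rfl⟩
        refine ⟨x, hx, ?_⟩
        have hi : (interior {x | 0 < ρ x}).indicator ρ x = 0 :=
          Set.indicator_apply_eq_zero.2 (fun _ => hz0 x hx)
        rw [hz0 x hx, hi]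
      · rintro ⟨x, hx, rfl⟩
        refine ⟨x, hx, ?_⟩
        have hi : (interior {x | 0 < ρ x}).indicator ρ x = 0 :=
          Set.indicator_apply_eq_zero.2 (fun _ => hz0 x hx)
        rw [hz0 x hx, hi]

end Pool.Agent.Lib.MP_6d896a_gt.FP
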