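import Mathlib
import Pool.Agent.Lib.MP_6d896a_gt.Ex14
import Pool.Agent.Lib.MP_6d896a_gt.FP.ShadDefs

/-!
Shadows under linear maps with a kernel of dimension `l`, by induction over `l`.
-/

set_option autoImplicit false

namespace Pool.Agent.Lib.MP_6d896a_gt.FP

open MeasureTheory ProbabilityTheory Set Filter
open scoped ENNReal Topology

/-- the shadow under a bijective map -/
lemma shad_equiv {E F : Type*} (S : E → F) (T : F → E) (hTS : ∀ x, T (S x) = x)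
    (hST : ∀ y, S (T y) = y) (ρ : E → ℝ) : shad S ρ = fun y => ρ (T y) := by
  funext y
  unfold shad
  have h1 : S ⁻¹' {y} = {T y} := by
    ext x
    simp only [mem_preimage, mem_singleton_iff]
    constructor
    · rintro rfl
      exact (hTS x).symm
    · rintro rfl
      exact hST y
  rw [h1, image_singleton, csSup_singleton]

/-- shadows of bounded functions can be taken in two steps -/
lemma shad_shad {E G F : Type*} (S : E → F) (e : ℝ × G → E) (he : Function.Surjective e)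
    (S₂ : G → F) (hS : ∀ p, S (e p) = S₂ p.2) (hS₂ : Function.Surjective S₂) {ρ : E → ℝ}
    {M : ℝ} (hM : ∀ x, ρ x ≤ M) :
    shad S ρ = shad S₂ (shad Prod.snd (fun p => ρ (e p))) := by
  have hin : ∀ g : G, ∀ x ∈ (fun p => ρ (e p)) '' (Prod.snd ⁻¹' {g}), x ≤ M := by
    rintro g _ ⟨p, -, rfl⟩
    exact hM _
  have hsM : ∀ g : G, shad Prod.snd (fun p => ρ (e p)) g ≤ M := by
    intro g
    unfold shad
    refine csSup_le ⟨ρ (e (0, g)), (0, g), rfl, rfl⟩ (hin g)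
  funext y
  obtain ⟨g₀, hg₀⟩ := hS₂ y
  apply le_antisymm
  · unfold shad
    refine csSup_le ⟨ρ (e (0, g₀)), e (0, g₀), ?_, rfl⟩ ?_
    · simp only [mem_preimage, mem_singleton_iff, hS, hg₀]
    · rintro _ ⟨x, hx, rfl⟩
      obtain ⟨p, rfl⟩ := he x
      rw [mem_preimage, mem_singleton_iff, hS] at hx
      refine le_trans (b := shad Prod.snd (fun p => ρ (e p)) p.2) ?_ ?_
      · unfold shad
        exact le_csSup ⟨M, hin p.2⟩ ⟨p, rfl, rfl⟩
      · refine le_csSup ⟨M, ?_⟩ ⟨p.2, hx, rfl⟩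
        rintro _ ⟨g, -, rfl⟩
        exact hsM g
  · unfold shad
    refine csSup_le ⟨_, g₀, hg₀, rfl⟩ ?_
    rintro _ ⟨g, hg, rfl⟩
    refine csSup_le ⟨ρ (e (0, g)), (0, g), rfl, rfl⟩ ?_
    rintro _ ⟨p, hp, rfl⟩
    refine le_csSup ⟨M, ?_⟩ ⟨e p, ?_, rfl⟩
    · rintro _ ⟨x, -, rfl⟩
      exact hM x
    · rw [mem_preimage, mem_singleton_iff] at hp hg ⊢
      rw [hS, hp, hg]

/-- linear coordinates in which a given vector is the first basis vector -/
lemma exists_first {E : Type*} [NormedAddCommGroup E] [NormedSpace ℝ E] [FiniteDimensional ℝ E]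
    (v : E) (hv : v ≠ 0) :
    ∃ (m : ℕ) (e : (ℝ × (Fin m → ℝ)) ≃L[ℝ] E), e (1, 0) = v := by
  obtain ⟨U, hU⟩ := Submodule.exists_isCompl (Submodule.span ℝ {v})
  let b := Module.finBasis ℝ U
  let e₀ : (ℝ × (Fin (Module.finrank ℝ U) → ℝ)) ≃ₗ[ℝ] E :=
    ((LinearEquiv.toSpanNonzeroSingleton ℝ E v hv).prodCongr b.equivFun.symm).trans
      (Submodule.prodEquivOfIsCompl _ _ hU)
  refine ⟨Module.finrank ℝ U, e₀.toContinuousLinearEquiv, ?_⟩
  show e₀ (1, 0) = v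
  simp [e₀]

theorem shad_iter {C : ℝ} (hC : 1 ≤ C)
    (hdec : ∀ (V : Type) [Fintype V] (ρ : (V → ℝ) → ℝ), LCd ρ →
      ∫⁻ x, ENNReal.ofReal (ρ x) ≠ 0 → ∫⁻ x, ENNReal.ofReal (ρ x) ≠ ∞ →
      ∃ A b : ℝ, 0 < A ∧ 0 < b ∧ ∀ x, ρ x ≤ A * Real.exp (-(b * ‖x‖)))
    (hsnd : ∀ (W : Type) [Fintype W] (ρ : ℝ × (W → ℝ) → ℝ), LCd ρ →
      LowerSemicontinuous ρ → ∫⁻ x, ENNReal.ofReal (ρ x) ≠ 0 →
      ∫⁻ x, ENNReal.ofReal (ρ x) ≠ ∞ →
      LCd (shad Prod.snd ρ) ∧ LowerSemicontinuous (shad (Prod.snd : ℝ × (W → ℝ) → _) ρ) ∧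
      ∫⁻ x, ENNReal.ofReal (shad Prod.snd ρ x) ≠ 0 ∧
      ∫⁻ x, ENNReal.ofReal (shad Prod.snd ρ x) ≠ ∞)
    (hstep : ∀ (W : Type) [Fintype W]
    (ρ : ℝ × (W → ℝ) → ℝ), LCd ρ →
    LowerSemicontinuous ρ → ∫⁻ x, ENNReal.ofReal (ρ x) ≠ 0 → ∫⁻ x, ENNReal.ofReal (ρ x) ≠ ∞ →
    ∀ K : ℝ, 1 ≤ K → AP (dens ρ) K → AP (dens (shad Prod.snd ρ)) (C * K)) :
    ∀ (l : ℕ) (V V' : Type) [Fintype V] [Fintype V'] (ρ : (V → ℝ) → ℝ), LCd ρ →
    LowerSemicontinuous ρ → ∫⁻ x, ENNReal.ofReal (ρ x) ≠ 0 → ∫⁻ x, ENNReal.ofReal (ρ x) ≠ ∞ →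
    ∀ S : (V → ℝ) →L[ℝ] (V' → ℝ), Function.Surjective S →
    Fintype.card V ≤ Fintype.card V' + l →
    ∀ K : ℝ, 1 ≤ K → AP (dens ρ) K →
      AP (dens (shad S ρ)) (C ^ l * K) ∧ LCd (shad S ρ) ∧ LowerSemicontinuous (shad S ρ) ∧
      ∫⁻ x, ENNReal.ofReal (shad S ρ x) ≠ 0 ∧ ∫⁻ x, ENNReal.ofReal (shad S ρ x) ≠ ∞ := by
  -- the case of equal dimensions
  have base : ∀ (V V' : Type) [Fintype V] [Fintype V'] (ρ : (V → ℝ) → ℝ), LCd ρ →
      LowerSemicontinuous ρ → ∫⁻ x, ENNReal.ofReal (ρ x) ≠ 0 → ∫⁻ x, ENNReal.ofReal (ρ x) ≠ ∞ →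
      ∀ S : (V → ℝ) →L[ℝ] (V' → ℝ), Function.Surjective S → Function.Injective S →
      ∀ K : ℝ, AP (dens ρ) K →
        AP (dens (shad S ρ)) K ∧ LCd (shad S ρ) ∧ LowerSemicontinuous (shad S ρ) ∧
        ∫⁻ x, ENNReal.ofReal (shad S ρ x) ≠ 0 ∧ ∫⁻ x, ENNReal.ofReal (shad S ρ x) ≠ ∞ := by
    intro V V' _ _ ρ hρ hl h0 h1 S hS hinj K hAP
    let e₀ : (V → ℝ) ≃ₗ[ℝ] (V' → ℝ) := LinearEquiv.ofBijective (S : (V → ℝ) →ₗ[ℝ] (V' → ℝ))
      ⟨hinj, hS⟩
    let e : (V → ℝ) ≃L[ℝ] (V' → ℝ) := e₀.toContinuousLinearEquiv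
    have he : ∀ x, e x = S x := fun x => rfl
    have hsh : shad S ρ = fun y => ρ (e.symm y) :=
      shad_equiv S e.symm (fun x => by rw [← he, e.symm_apply_apply])
        (fun y => by rw [← he, e.apply_symm_apply]) ρ
    rw [hsh]
    refine ⟨?_, ?_, hl.comp e.symm.continuous, EX.lint_lin_ne e.symm h0 h1⟩
    · refine EX.AP.lin e ?_
      simpa using hAP
    · have := EX.LCd.lin ((e.symm : _ ≃L[ℝ] _) : (V' → ℝ) →L[ℝ] (V → ℝ)) 0 hρ
      simpa using this
  intro l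
  induction l with
  | zero =>
    intro V V' _ _ ρ hρ hl h0 h1 S hS hcard K hK hAP
    have hinj : Function.Injective S := by
      have h2 : Module.finrank ℝ (V → ℝ) = Module.finrank ℝ (V' → ℝ) := by
        rw [Module.finrank_fintype_fun_eq_card, Module.finrank_fintype_fun_eq_card]
        refine le_antisymm (by simpa using hcard) ?_
        have := LinearMap.finrank_le_finrank_of_surjective
          (f := (S : (V → ℝ) →ₗ[ℝ] (V' → ℝ))) hS
        simpa using this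
      exact (LinearMap.injective_iff_surjective_of_finrank_eq_finrank
        (f := (S : (V → ℝ) →ₗ[ℝ] (V' → ℝ))) h2).2 hS
    simpa using base V V' ρ hρ hl h0 h1 S hS hinj K hAP
  | succ l ih =>
    intro V V' _ _ ρ hρ hl h0 h1 S hS hcard K hK hAP
    have hpow : (1 : ℝ) ≤ C ^ (l + 1) := one_le_pow₀ hC
    by_cases hinj : Function.Injective S
    · obtain ⟨a1, a2⟩ := base V V' ρ hρ hl h0 h1 S hS hinj K hAP
      refine ⟨?_, a2⟩
      refine fun f hf hlf => (a1 f hf hlf).trans ?_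
      refine mul_le_mul_of_nonneg_right ?_ (integral_nonneg fun x => variance_nonneg _ _)
      nlinarith
    · obtain ⟨v, hv0, hv⟩ : ∃ v, v ≠ 0 ∧ S v = 0 := by
        rw [injective_iff_map_eq_zero] at hinj
        push Not at hinj
        obtain ⟨v, hv, hv0⟩ := hinj
        exact ⟨v, hv0, hv⟩
      obtain ⟨m, e, he⟩ := exists_first v hv0
      have hh : (volume : Measure (ℝ × (Fin m → ℝ))).IsAddHaarMeasure := by
        rw [Measure.volume_eq_prod]
        infer_instance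
      -- the map induced on the quotient
      let S₂ : (Fin m → ℝ) →L[ℝ] (V' → ℝ) :=
        (S.comp (e : (ℝ × (Fin m → ℝ)) →L[ℝ] (V → ℝ))).comp (ContinuousLinearMap.inr ℝ ℝ _)
      have hS₂ : ∀ p, S (e p) = S₂ p.2 := by
        intro p
        have e1 : p = p.1 • ((1, 0) : ℝ × (Fin m → ℝ)) + (0, p.2) := by
          ext <;> simp
        have e2 : e p = p.1 • v + e (0, p.2) := by
          conv_lhs => rw [e1]
          rw [map_add, map_smul, he]
        show S (e p) = S (e (0, p.2))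
        rw [e2, map_add, map_smul, hv, smul_zero, zero_add]
      have hS₂s : Function.Surjective S₂ := by
        intro y
        obtain ⟨x, rfl⟩ := hS y
        refine ⟨(e.symm x).2, ?_⟩
        rw [← hS₂, e.apply_symm_apply]
      have hcm : m + 1 ≤ Fintype.card V' + (l + 1) := by
        have h2 := e.toLinearEquiv.finrank_eq
        rw [Module.finrank_prod, Module.finrank_self, Module.finrank_fintype_fun_eq_card,
          Module.finrank_fintype_fun_eq_card, Fintype.card_fin] at h2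
        omega
      obtain ⟨A, b, hA, hb, hAb⟩ := hdec V ρ hρ h0 h1
      have hM : ∀ x, ρ x ≤ A := by
        intro x
        refine (hAb x).trans ?_
        have h3 : Real.exp (-(b * ‖x‖)) ≤ 1 := by
          rw [Real.exp_le_one_iff]
          have := mul_nonneg hb.le (norm_nonneg x)
          linarith
        nlinarith
      rw [shad_shad S e e.surjective S₂ hS₂ hS₂s hM]
      have hρ' : LCd (fun p => ρ (e p)) := by
        have := EX.LCd.lin ((e : _ ≃L[ℝ] _) : (ℝ × (Fin m → ℝ)) →L[ℝ] (V → ℝ)) 0 hρ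
        simpa using this
      have hl' : LowerSemicontinuous (fun p => ρ (e p)) := hl.comp e.continuous
      obtain ⟨h0', h1'⟩ := EX.lint_lin_ne e h0 h1
      have hAP' : AP (dens (fun p => ρ (e p))) K := by
        refine EX.AP.lin e.symm ?_
        simpa using hAP
      obtain ⟨r1, r2, r3, r4⟩ := hsnd (Fin m) (fun p => ρ (e p)) hρ' hl' h0' h1'
      have hst := hstep (Fin m) (fun p => ρ (e p)) hρ' hl' h0' h1' K hK hAP'
      have := ih (Fin m) V' (shad Prod.snd (fun p => ρ (e p))) r1 r2 r3 r4 S₂ hS₂s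
        (by rw [Fintype.card_fin]; omega) (C * K) (by nlinarith) hst
      rwa [← mul_assoc, ← pow_succ] at this

end Pool.Agent.Lib.MP_6d896a_gt.FP
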