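import Mathlib
import Pool.Agent.Lib.MP_6d896a_gt.FP.ConcaveTV
import Pool.Agent.Lib.MP_6d896a_gt.FP.LenConcave
import Pool.Agent.Lib.MP_6d896a_gt.FP.Epi
import Pool.Agent.Lib.MP_6d896a_gt.FP.Stable
import Pool.Agent.Lib.MP_6d896a_gt.FP.Image
import Pool.Agent.Lib.MP_6d896a_gt.FP.FibreCheeger

/-!
The affine invariant Poincare constant of the shadow of a log-concave function along a line is at
most a universal multiple of that of the marginal.
-/

set_option autoImplicit false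

namespace Pool.Agent.Lib.MP_6d896a_gt.FP

open MeasureTheory ProbabilityTheory Set Filter
open scoped ENNReal Topology

/-- chains of log-concave measures, close in total variation -/
theorem ap_chain {C η : ℝ} (hC : 1 ≤ C) (hst : StableStat C η) {E : Type} [NormedAddCommGroup E]
    [NormedSpace ℝ E] [MeasurableSpace E] [BorelSpace E] [FiniteDimensional ℝ E] (N : ℕ)
    (ν : ℕ → Measure E) (hprob : ∀ j, j ≤ N → IsProbabilityMeasure (ν j))
    (hpl : ∀ j, j ≤ N → PLm (ν j))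
    (hnd : ∀ j, j ≤ N → ∀ ℓ : E →L[ℝ] ℝ, Var[fun x => ℓ x; ν j] = 0 → ℓ = 0)
    (hTV : ∀ j, j < N → ∀ S, MeasurableSet S → |(ν j).real S - (ν (j + 1)).real S| ≤ η)
    {K : ℝ} (hK : 1 ≤ K) (h : AP (ν 0) K) : AP (ν N) (C ^ N * K) := by
  induction N with
  | zero => simpa using h
  | succ N ih =>
    have h1 := ih (fun j hj => hprob j (by omega)) (fun j hj => hpl j (by omega))
      (fun j hj => hnd j (by omega)) (fun j hj => hTV j (by omega))
    have p1 := hprob N (by omega)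
    have p2 := hprob (N + 1) le_rfl
    have hK' : 1 ≤ C ^ N * K := by
      have := one_le_pow₀ (n := N) hC
      nlinarith
    have h2 := hst E (ν N) (ν (N + 1)) (hpl N (by omega)) (hpl (N + 1) le_rfl)
      (hnd (N + 1) le_rfl) (hTV N (by omega)) (C ^ N * K) hK' h1
    rw [pow_succ]
    have : C ^ N * C * K = C * (C ^ N * K) := by ring
    rw [this]
    exact h2

/-- marginals of nondegenerate log-concave measures are nondegenerate -/
lemma fst_nondeg {W : Type} [Fintype W] {r : (W → ℝ) × ℝ → ℝ} (hr : LCd r)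
    (h0 : ∫⁻ z, ENNReal.ofReal (r z) ≠ 0) (h1 : ∫⁻ z, ENNReal.ofReal (r z) ≠ ∞)
    (ℓ : (W → ℝ) →L[ℝ] ℝ) (hv : Var[fun x => ℓ x; (dens r).map Prod.fst] = 0) : ℓ = 0 := by
  have hh : (volume : Measure ((W → ℝ) × ℝ)).IsAddHaarMeasure := by
    rw [Measure.volume_eq_prod]
    infer_instance
  rw [variance_map ℓ.continuous.measurable.aemeasurable measurable_fst.aemeasurable] at hv
  have h2 := dens_nondeg hr h0 h1 (ℓ.comp (ContinuousLinearMap.fst ℝ (W → ℝ) ℝ)) hv
  ext x
  have h3 := congrArg (fun L : ((W → ℝ) × ℝ) →L[ℝ] ℝ => L (x, 0)) h2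
  simpa using h3

/-- D: the shadow along one direction -/
theorem shad_step : ∃ C : ℝ, 1 ≤ C ∧ ∀ (W : Type) [Fintype W] (ρ : ℝ × (W → ℝ) → ℝ), LCd ρ →
    LowerSemicontinuous ρ → ∫⁻ x, ENNReal.ofReal (ρ x) ≠ 0 → ∫⁻ x, ENNReal.ofReal (ρ x) ≠ ∞ →
    ∀ K : ℝ, 1 ≤ K → AP (dens ρ) K → AP (dens (shad Prod.snd ρ)) (C * K) := by
  obtain ⟨C₁, hC₁, η, hη, hst⟩ := ap_stable
  obtain ⟨C₂, hC₂, htv⟩ := concave_tv
  obtain ⟨N, hN⟩ := exists_nat_gt (C₂ / η)
  have hN0 : (0 : ℝ) < N := lt_of_le_of_lt (by positivity) hN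
  refine ⟨C₁ ^ N, one_le_pow₀ hC₁, ?_⟩
  intro W _ ρ hρ hl h0 h1 K hK hAP
  have hh : (volume : Measure ((W → ℝ) × ℝ)).IsAddHaarMeasure := by
    rw [Measure.volume_eq_prod]
    infer_instance
  obtain ⟨g1, g2, g3, g4, g5, g6, g7⟩ := epi_geom hρ hl h0 h1
  obtain ⟨m1, m2⟩ := epi_marg hρ hl h0 h1
  obtain ⟨l1, l2, l3, l4⟩ := len_concave g1 g2 g3
  have hmem : ∀ z, 0 < epr ρ z → z ∈ Prod.snd '' epi ρ := by
    intro z hz
    by_contra hcon
    unfold epr at hz
    rw [indicator_of_notMem hcon] at hz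
    exact lt_irrefl _ hz
  have hpos : ∀ z, 0 < epr ρ z → 0 < len (epi ρ) z := fun z hz => l2 z (hmem z hz)
  have hcon : ∀ z w, 0 < epr ρ z → 0 < epr ρ w → ∀ a b : ℝ, 0 < a → 0 < b → a + b = 1 →
      a * len (epi ρ) z + b * len (epi ρ) w ≤ len (epi ρ) (a • z + b • w) :=
    fun z w hz hw a b ha hb hab => l4 z w (hmem z hz) (hmem w hw) a b ha hb hab
  have hcw := fun s (hs0 : (0 : ℝ) ≤ s) (hs1 : s ≤ 1) =>
    concave_weight g4 l1 hpos hcon g5 g6 g7 hs0 hs1
  set θ : ℕ → ℝ := fun j => 1 - j / N with hθ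
  have hθ0 : ∀ j, j ≤ N → 0 ≤ θ j := by
    intro j hj
    rw [hθ]
    have : (j : ℝ) / N ≤ 1 := by
      rw [div_le_one hN0]
      exact_mod_cast hj
    simp only
    linarith
  have hθ1 : ∀ j, θ j ≤ 1 := by
    intro j
    rw [hθ]
    have : 0 ≤ (j : ℝ) / N := by positivity
    simp only
    linarith
  set ν : ℕ → Measure (W → ℝ) := fun j =>
    (dens (fun z => epr ρ z * len (epi ρ) z ^ θ j)).map Prod.fst with hν
  have hprob0 : ∀ j, j ≤ N → IsProbabilityMeasure
      (dens (fun z => epr ρ z * len (epi ρ) z ^ θ j)) := by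
    intro j hj
    obtain ⟨-, a2, a3⟩ := hcw (θ j) (hθ0 j hj) (hθ1 j)
    exact dens_prob a2 a3
  have hprob : ∀ j, j ≤ N → IsProbabilityMeasure (ν j) := by
    intro j hj
    have := hprob0 j hj
    exact Measure.isProbabilityMeasure_map measurable_fst.aemeasurable
  have key := ap_chain hC₁ hst N ν hprob
    (fun j hj => by
      obtain ⟨a1, a2, a3⟩ := hcw (θ j) (hθ0 j hj) (hθ1 j)
      exact (a1.plm a2 a3).map (LinearMap.fst ℝ (W → ℝ) ℝ) measurable_fst)
    (fun j hj ℓ hv => by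
      obtain ⟨a1, a2, a3⟩ := hcw (θ j) (hθ0 j hj) (hθ1 j)
      exact fst_nondeg a1 a2 a3 ℓ hv)
    (fun j hj S hS => by
      have e1 : (ν j).real S = (dens (fun z => epr ρ z * len (epi ρ) z ^ θ j)).real
          (Prod.fst ⁻¹' S) := map_measureReal_apply measurable_fst hS
      have e2 : (ν (j + 1)).real S = (dens (fun z => epr ρ z * len (epi ρ) z ^ θ (j + 1))).real
          (Prod.fst ⁻¹' S) := map_measureReal_apply measurable_fst hS
      rw [e1, e2, abs_sub_comm]
      have e3 : θ j - θ (j + 1) = 1 / N := by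
        rw [hθ]
        push_cast
        field_simp
        ring
      refine (htv ((W → ℝ) × ℝ) (epr ρ) (len (epi ρ)) g4 l1 hpos hcon g5 g6 g7 (θ (j + 1)) (θ j)
        (hθ0 _ (by omega)) ?_ (hθ1 _) _ (measurable_fst hS)).trans ?_
      · have : 0 < (1 : ℝ) / N := by positivity
        linarith
      · rw [e3, mul_one_div, div_le_iff₀ hN0]
        rw [div_lt_iff₀ hη] at hN
        linarith)
    hK (by
      have e0 : ν 0 = (dens ρ).map Prod.snd := by
        rw [hν]
        simp only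
        rw [← m2]
        congr 2
        ext z
        rw [hθ]
        simp
      rw [e0]
      have := dens_prob h0 h1
      exact hAP.image (ContinuousLinearMap.snd ℝ ℝ (W → ℝ)))
  have eN : ν N = dens (shad Prod.snd ρ) := by
    rw [hν]
    simp only
    rw [← m1]
    congr 2
    ext z
    rw [hθ]
    simp only
    rw [div_self hN0.ne', sub_self, Real.rpow_zero, mul_one]
  rw [eN] at key
  exact key

end Pool.Agent.Lib.MP_6d896a_gt.FP
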