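import Mathlib
import Pool.Agent.Lib.MP_6d896a_gt.FP.ShadStep
import Pool.Agent.Lib.MP_6d896a_gt.FP.ShadIter
import Pool.Agent.Lib.MP_6d896a_gt.FP.ShadAe
import Pool.Agent.Lib.MP_6d896a_gt.FP.ExpDecay
import Pool.Agent.Lib.MP_6d896a_gt.FP.HierPFinal

/-!
The Kannan-Lovasz-Simonovits inequality for shadows (sup-projections) of log-concave densities with
a hierarchical factorisation.
-/

set_option autoImplicit false

namespace Pool.Agent.Lib.MP_6d896a_gt.FP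

open MeasureTheory ProbabilityTheory Set Filter
open scoped ENNReal Topology

lemma dens_congr {E : Type*} [MeasureSpace E] {ρ ρ' : E → ℝ} (h : ρ =ᵐ[volume] ρ') :
    dens ρ = dens ρ' := by
  have h1 : (fun x => ENNReal.ofReal (ρ x)) =ᵐ[volume] fun x => ENNReal.ofReal (ρ' x) := by
    filter_upwards [h] with x hx
    rw [hx]
  unfold dens
  rw [lintegral_congr_ae h1, withDensity_congr_ae h1]

/-- shadows of log-concave functions -/
theorem shad_ap : ∃ C : ℝ, 1 ≤ C ∧ ∀ (l : ℕ) (V V' : Type) [Fintype V] [Fintype V']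
    (ρ : (V → ℝ) → ℝ), LCd ρ → ∫⁻ x, ENNReal.ofReal (ρ x) ≠ 0 → ∫⁻ x, ENNReal.ofReal (ρ x) ≠ ∞ →
    ∀ S : (V → ℝ) →L[ℝ] (V' → ℝ), Function.Surjective S →
    Fintype.card V ≤ Fintype.card V' + l → ∀ K : ℝ, 1 ≤ K → AP (dens ρ) K →
      AP (dens (shad S ρ)) (C ^ l * K) ∧ PLm (dens (shad S ρ)) ∧
        IsProbabilityMeasure (dens (shad S ρ)) := by
  obtain ⟨C, hC, hstep⟩ := shad_step
  refine ⟨C, hC, ?_⟩
  intro l V V' _ _ ρ hρ h0 h1 S hS hcard K hK hAP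
  obtain ⟨a1, a2, a3, a4⟩ := shad_ae hρ h0 h1 S hS
  set ρ₀ := (interior {x | 0 < ρ x}).indicator ρ with hρ₀
  have e1 : dens ρ₀ = dens ρ := dens_congr a3
  have e2 : dens (shad S ρ₀) = dens (shad S ρ) := dens_congr a4
  have h3 : (fun x => ENNReal.ofReal (ρ₀ x)) =ᵐ[volume] fun x => ENNReal.ofReal (ρ x) := by
    filter_upwards [a3] with x hx
    rw [hx]
  have h0' : ∫⁻ x, ENNReal.ofReal (ρ₀ x) ≠ 0 := by rwa [lintegral_congr_ae h3]
  have h1' : ∫⁻ x, ENNReal.ofReal (ρ₀ x) ≠ ∞ := by rwa [lintegral_congr_ae h3]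
  obtain ⟨b1, b2, b3, b4, b5⟩ := shad_iter hC
    (fun V _ ρ h h0 h1 => exp_decay h h0 h1)
    (fun W _ ρ h hl h0 h1 => shad_snd h hl h0 h1) hstep l V V' ρ₀ a1 a2 h0' h1' S hS hcard K hK
    (by rw [e1]; exact hAP)
  rw [e2] at b1
  rw [← e2]
  exact ⟨by rw [e2]; exact b1, b2.plm b4 b5, dens_prob b4 b5⟩

/-- the affine invariant Poincare inequality for the hierarchical class -/
theorem hierP_ap : ∃ C C' : ℝ, 1 ≤ C ∧ 1 ≤ C' ∧
      ∀ (t m l : ℕ) (anc : Fin m → Finset (Fin m)),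
        (∀ v, v ∈ anc v) → (∀ u v, u ∈ anc v → anc u ⊆ anc v) →
        (∀ u w v, u ∈ anc v → w ∈ anc v → u ∈ anc w ∨ w ∈ anc u) →
        ∀ (a : Fin l → Fin m) (k : Fin l → ℕ),
        (∀ v, (anc v).card + ∑ i ∈ Finset.univ.filter (fun i => a i ∈ anc v), k i ≤ t) →
        ∀ B : (i : Fin l) → Fin (k i) → (Fin m → ℝ) →ₗ[ℝ] ℝ,
        (∀ i j w, B i j (Pi.single w 1) ≠ 0 → a i ∈ anc w ∨ w ∈ anc (a i)) →
        ∀ f : Fin m → (Fin m → ℝ) → ℝ, (∀ v x, 0 ≤ f v x) → (∀ v, Measurable (f v)) →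
        (∀ v x y, (∀ u ∈ anc v, x u = y u) → f v x = f v y) →
        (∀ (x y : Fin m → ℝ) (p q : ℝ), 0 < p → 0 < q → p + q = 1 →
          (∏ v, f v x) ^ p * (∏ v, f v y) ^ q ≤ ∏ v, f v (p • x + q • y)) →
        ∀ g : Fin l → (Fin m → ℝ) → ℝ, (∀ i x, 0 ≤ g i x) → (∀ i, Measurable (g i)) →
        (∀ i (x y : Fin m → ℝ) (p q : ℝ), 0 < p → 0 < q → p + q = 1 →
          g i x ^ p * g i y ^ q ≤ g i (p • x + q • y)) →
        (∀ i x y, (∀ u ∈ anc (a i), x u = y u) → (∀ j, B i j x = B i j y) → g i x = g i y) →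
        LCd (fun x => (∏ v, f v x) * ∏ i, g i x) ∧
        AP (dens (fun x => (∏ v, f v x) * ∏ i, g i x)) (C' * C ^ t) := by
  obtain ⟨C₀, hC₀, hP⟩ := forestPStat
  obtain ⟨C₅, hC₅, hlim⟩ := ap_gauss_limit
  refine ⟨C₀, C₅, hC₀, hC₅, ?_⟩
  intro t m l anc ha1 ha2 ha3 a k ht B hB f hf0 hfm hfd hfl g hg0 hgm hgl hgd
  have hF : LCd (fun x => ∏ v, f v x) :=
    ⟨fun x => Finset.prod_nonneg fun i _ => hf0 i x, Finset.measurable_prod _ fun i _ => hfm i, hfl⟩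
  have hG : ∀ i, LCd (g i) := fun i => ⟨hg0 i, hgm i, hgl i⟩
  have hGp : LCd (fun x => ∏ i, g i x) := by
    refine ⟨fun x => Finset.prod_nonneg fun i _ => hg0 i x,
      Finset.measurable_prod _ fun i _ => hgm i, fun x y p q hp hq' hpq => ?_⟩
    rw [← Real.finsetProd_rpow _ _ (fun i _ => hg0 i x),
      ← Real.finsetProd_rpow _ _ (fun i _ => hg0 i y), ← Finset.prod_mul_distrib]
    exact Finset.prod_le_prod (fun i _ => mul_nonneg (Real.rpow_nonneg (hg0 i x) _)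
      (Real.rpow_nonneg (hg0 i y) _)) fun i _ => hgl i x y p q hp hq' hpq
  have hL : LCd (fun x => (∏ v, f v x) * ∏ i, g i x) := hF.mul hGp
  have hK1 : 1 ≤ C₀ ^ t := one_le_pow₀ hC₀
  refine ⟨hL, hlim (Fin m) _ hL (C₀ ^ t) hK1 fun κ hκ => ?_⟩
  have h2 := hP t (Fin m) (Fin l) anc ⟨ha1, ha2, ha3⟩ a k ht
    (fun i j => LinearMap.toContinuousLinearMap (B i j)) (fun i j w hw => hB i j w hw)
    f g κ hκ hf0 hfm (fun v x y hxy => hfd v x y hxy) hF hG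
    (fun i x y h3 h4 => hgd i x y h3 h4) 0
  simpa using h2

/-- shadows of the hierarchical class -/
theorem hierShad : ∃ C : ℝ, 0 < C ∧
      ∀ (t r m d n l : ℕ) (anc : Fin m → Finset (Fin m)),
        (∀ v, v ∈ anc v) → (∀ u v, u ∈ anc v → anc u ⊆ anc v) →
        (∀ u w v, u ∈ anc v → w ∈ anc v → u ∈ anc w ∨ w ∈ anc u) →
        ∀ (a : Fin l → Fin m) (k : Fin l → ℕ),
        (∀ v, (anc v).card + ∑ i ∈ Finset.univ.filter (fun i => a i ∈ anc v), k i ≤ t) →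
        ∀ B : (i : Fin l) → Fin (k i) → (Fin m → ℝ) →ₗ[ℝ] ℝ,
        (∀ i j w, B i j (Pi.single w 1) ≠ 0 → a i ∈ anc w ∨ w ∈ anc (a i)) →
        ∀ f : Fin m → (Fin m → ℝ) → ℝ, (∀ v x, 0 ≤ f v x) → (∀ v, Measurable (f v)) →
        (∀ v x y, (∀ u ∈ anc v, x u = y u) → f v x = f v y) →
        (∀ (x y : Fin m → ℝ) (p q : ℝ), 0 < p → 0 < q → p + q = 1 →
          (∏ v, f v x) ^ p * (∏ v, f v y) ^ q ≤ ∏ v, f v (p • x + q • y)) →
        ∀ g : Fin l → (Fin m → ℝ) → ℝ, (∀ i x, 0 ≤ g i x) → (∀ i, Measurable (g i)) →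
        (∀ i (x y : Fin m → ℝ) (p q : ℝ), 0 < p → 0 < q → p + q = 1 →
          g i x ^ p * g i y ^ q ≤ g i (p • x + q • y)) →
        (∀ i x y, (∀ u ∈ anc (a i), x u = y u) → (∀ j, B i j x = B i j y) → g i x = g i y) →
        ∫⁻ x, ENNReal.ofReal ((∏ v, f v x) * ∏ i, g i x) = 1 →
        ∀ S : (Fin m → ℝ) →ₗ[ℝ] (Fin d → ℝ), Function.Surjective S → m ≤ d + r →
        ∀ σ : (Fin d → ℝ) → ℝ,
        (∀ y, σ y = sSup ((fun x => (∏ v, f v x) * ∏ i, g i x) '' {x | S x = y})) →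
        ∀ (T : (Fin d → ℝ) →ₗ[ℝ] EuclideanSpace ℝ (Fin n))
          (μ : Measure (EuclideanSpace ℝ (Fin n))),
        μ = ((∫⁻ y, ENNReal.ofReal (σ y))⁻¹ •
          (volume : Measure (Fin d → ℝ)).withDensity fun y => ENNReal.ofReal (σ y)).map T →
        ∀ s : ℝ, 0 < s →
          (∀ θ : EuclideanSpace ℝ (Fin n), ‖θ‖ = 1 →
              ProbabilityTheory.variance (fun x => inner ℝ x θ) μ ≤ s) →
          ∀ S : Set (EuclideanSpace ℝ (Fin n)), MeasurableSet S →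
            ENNReal.ofReal (C ^ (t + r + 1) / Real.sqrt s) * min (μ S) (μ Sᶜ) ≤
              Filter.liminf
                (fun ε : ℝ => (μ (Metric.thickening ε S) - μ S) / ENNReal.ofReal ε)
                (nhdsWithin 0 (Set.Ioi 0)) := by
  obtain ⟨C₀, C₅, hC₀, hC₅, hH⟩ := hierP_ap
  obtain ⟨C₂, hC₂, hsh⟩ := shad_ap
  obtain ⟨C₁, hC₁, hch⟩ := cheeger_image
  set M := max C₀ C₂ with hM
  have hM1 : 1 ≤ M := le_max_of_le_left hC₀
  have hM' : 0 < M := by linarith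
  have hC₅' : 0 < C₅ := by linarith
  have hq : 0 < Real.sqrt M := Real.sqrt_pos.mpr hM'
  have hq5 : 0 < Real.sqrt C₅ := Real.sqrt_pos.mpr hC₅'
  refine ⟨min (C₁ / Real.sqrt C₅) (1 / Real.sqrt M), lt_min (by positivity) (by positivity), ?_⟩
  intro t r m d n l anc ha1 ha2 ha3 a k ht B hB f hf0 hfm hfd hfl g hg0 hgm hgl hgd h1 S hS hr σ hσ
    T μ hμ s hs hvar A hA
  obtain ⟨hL, hAP⟩ := hH t m l anc ha1 ha2 ha3 a k ht B hB f hf0 hfm hfd hfl g hg0 hgm hgl hgd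
  have hne : ∫⁻ x, ENNReal.ofReal ((∏ v, f v x) * ∏ i, g i x) ≠ 0 := by
    rw [h1]; exact one_ne_zero
  have hnt : ∫⁻ x, ENNReal.ofReal ((∏ v, f v x) * ∏ i, g i x) ≠ ∞ := by
    rw [h1]; exact ENNReal.one_ne_top
  have hK2 : 1 ≤ C₅ * C₀ ^ t := by
    have : 1 ≤ C₀ ^ t := one_le_pow₀ hC₀
    nlinarith
  obtain ⟨c1, c2, c3⟩ := hsh r (Fin m) (Fin d) _ hL hne hnt (LinearMap.toContinuousLinearMap S) hS
    (by simpa using hr) (C₅ * C₀ ^ t) hK2 hAP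
  have hσ' : σ = shad (LinearMap.toContinuousLinearMap S)
      (fun x => (∏ v, f v x) * ∏ i, g i x) := by
    funext y
    rw [hσ y]
    rfl
  rw [← hσ'] at c1 c2 c3
  have hμ' : μ = (dens σ).map T := hμ
  have hKK : C₂ ^ r * (C₅ * C₀ ^ t) ≤ C₅ * M ^ (t + r) := by
    have h2 : C₂ ^ r ≤ M ^ r := pow_le_pow_left₀ (by linarith) (le_max_right _ _) r
    have h3 : C₀ ^ t ≤ M ^ t := pow_le_pow_left₀ (by linarith) (le_max_left _ _) t
    have h4 : 0 ≤ C₂ ^ r := by positivity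
    have h5 : 0 ≤ M ^ t := by positivity
    calc C₂ ^ r * (C₅ * C₀ ^ t) ≤ M ^ r * (C₅ * M ^ t) := by gcongr
      _ = C₅ * M ^ (t + r) := by rw [pow_add]; ring
  have hK3 : 1 ≤ C₅ * M ^ (t + r) := by
    have : 1 ≤ M ^ (t + r) := one_le_pow₀ hM1
    nlinarith
  have key := hch (Fin d → ℝ) (dens σ) c2 (C₅ * M ^ (t + r)) hK3 (c1.mono hKK) n T s hs
    (by rw [← hμ']; exact hvar) A hA
  rw [← hμ'] at key
  refine le_trans ?_ key
  have hc0 : 0 < min (C₁ / Real.sqrt C₅) (1 / Real.sqrt M) :=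
    lt_min (by positivity) (by positivity)
  have e1 : Real.sqrt (C₅ * M ^ (t + r) * s) =
      Real.sqrt C₅ * Real.sqrt M ^ (t + r) * Real.sqrt s := by
    rw [Real.sqrt_mul (by positivity), Real.sqrt_mul hC₅'.le]
    congr 2
    rw [Real.sqrt_eq_iff_mul_self_eq (by positivity) (by positivity), ← mul_pow,
      Real.mul_self_sqrt hM'.le]
  have e2 : min (C₁ / Real.sqrt C₅) (1 / Real.sqrt M) ^ (t + r + 1) ≤
      C₁ / (Real.sqrt C₅ * Real.sqrt M ^ (t + r)) :=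
    calc min (C₁ / Real.sqrt C₅) (1 / Real.sqrt M) ^ (t + r + 1)
        = min (C₁ / Real.sqrt C₅) (1 / Real.sqrt M) *
          min (C₁ / Real.sqrt C₅) (1 / Real.sqrt M) ^ (t + r) := by ring
      _ ≤ (C₁ / Real.sqrt C₅) * (1 / Real.sqrt M) ^ (t + r) := by
          apply mul_le_mul (min_le_left _ _) _ (by positivity) (by positivity)
          exact pow_le_pow_left₀ hc0.le (min_le_right _ _) (t + r)
      _ = C₁ / (Real.sqrt C₅ * Real.sqrt M ^ (t + r)) := by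
          rw [div_pow, one_pow, div_mul_div_comm, mul_one]
  have e3 : min (C₁ / Real.sqrt C₅) (1 / Real.sqrt M) ^ (t + r + 1) / Real.sqrt s ≤
      C₁ / Real.sqrt (C₅ * M ^ (t + r) * s) := by
    rw [e1, ← div_div]
    exact div_le_div_of_nonneg_right e2 (Real.sqrt_nonneg _)
  exact mul_le_mul_left (ENNReal.ofReal_le_ofReal e3) _

end Pool.Agent.Lib.MP_6d896a_gt.FP
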